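import Pool.Agent.MP_941b23_mp.Defs2

/-!
# [D1] Andreief's identity
-/

namespace Pool.Agent.MP_941b23_mp

open MeasureTheory Set Filter Topology
open scoped ENNReal NNReal Real

noncomputable section

theorem d1_expand {E : Type} {n : ℕ} (φ ψ : Fin n → E → ℝ) (x : Fin n → E) :
    Matrix.det (Matrix.of fun i j => φ i (x j)) * Matrix.det (Matrix.of fun i j => ψ i (x j)) =
      ∑ σ : Equiv.Perm (Fin n), ∑ τ : Equiv.Perm (Fin n),
        (((Equiv.Perm.sign σ : ℤ) : ℝ) * ((Equiv.Perm.sign τ : ℤ) : ℝ)) *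
          ∏ j, (φ (σ j) (x j) * ψ (τ j) (x j)) := by
  rw [Matrix.det_apply', Matrix.det_apply', Finset.sum_mul_sum]
  refine Finset.sum_congr rfl fun σ _ => Finset.sum_congr rfl fun τ _ => ?_
  rw [Finset.prod_mul_distrib]
  simp only [Matrix.of_apply]
  ring

theorem andreief {E : Type} [MeasurableSpace E] (μ : Measure E) [SigmaFinite μ] {n : ℕ}
    (φ ψ : Fin n → E → ℝ) (h : ∀ i j, Integrable (fun x => φ i x * ψ j x) μ) :
    Integrable (fun x : Fin n → E => Matrix.det (Matrix.of fun i j => φ i (x j)) *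
      Matrix.det (Matrix.of fun i j => ψ i (x j))) (Measure.pi fun _ => μ) ∧
    ∫ x : Fin n → E, Matrix.det (Matrix.of fun i j => φ i (x j)) *
      Matrix.det (Matrix.of fun i j => ψ i (x j)) ∂(Measure.pi fun _ => μ) =
      (n.factorial : ℝ) * Matrix.det (Matrix.of fun i j => ∫ x, φ i x * ψ j x ∂μ) := by
  have hint : ∀ σ τ : Equiv.Perm (Fin n), Integrable
      (fun x : Fin n → E => ∏ j, (φ (σ j) (x j) * ψ (τ j) (x j))) (Measure.pi fun _ => μ) := by
    intro σ τ
    exact Integrable.fintype_prod (f := fun j x => φ (σ j) x * ψ (τ j) x) fun j => h (σ j) (τ j)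
  simp only [d1_expand]
  refine ⟨?_, ?_⟩
  · refine integrable_finsetSum _ fun σ _ => integrable_finsetSum _ fun τ _ => ?_
    exact (hint σ τ).const_mul _
  · rw [integral_finsetSum _ fun σ _ => integrable_finsetSum _ fun τ _ =>
      (hint σ τ).const_mul _]
    simp_rw [integral_finsetSum _ fun τ _ => (hint _ τ).const_mul _, integral_const_mul]
    have hp : ∀ σ τ : Equiv.Perm (Fin n),
        ∫ x : Fin n → E, ∏ j, (φ (σ j) (x j) * ψ (τ j) (x j)) ∂(Measure.pi fun _ => μ) =
          ∏ j, ∫ x, φ (σ j) x * ψ (τ j) x ∂μ := by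
      intro σ τ
      exact integral_fintype_prod_eq_prod (fun j x => φ (σ j) x * ψ (τ j) x)
    simp_rw [hp]
    rw [Finset.sum_comm]
    have hτ : ∀ τ : Equiv.Perm (Fin n), ∑ σ : Equiv.Perm (Fin n),
        (((Equiv.Perm.sign σ : ℤ) : ℝ) * ((Equiv.Perm.sign τ : ℤ) : ℝ)) *
          ∏ j, ∫ x, φ (σ j) x * ψ (τ j) x ∂μ =
        Matrix.det (Matrix.of fun i j => ∫ x, φ i x * ψ j x ∂μ) := by
      intro τ
      have h1 := Matrix.det_permute' τ (Matrix.of fun i j => ∫ x, φ i x * ψ j x ∂μ)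
      have h2 : ((Equiv.Perm.sign τ : ℤ) : ℝ) * ((Equiv.Perm.sign τ : ℤ) : ℝ) = 1 := by
        rcases Int.units_eq_one_or (Equiv.Perm.sign τ) with h | h <;> simp [h]
      rw [Matrix.det_apply'] at h1
      simp only [Matrix.submatrix_apply, Matrix.of_apply, id] at h1
      calc _ = ((Equiv.Perm.sign τ : ℤ) : ℝ) * ∑ σ : Equiv.Perm (Fin n),
            ((Equiv.Perm.sign σ : ℤ) : ℝ) * ∏ j, ∫ x, φ (σ j) x * ψ (τ j) x ∂μ := by
            rw [Finset.mul_sum]
            refine Finset.sum_congr rfl fun σ _ => ?_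
            ring
        _ = _ := by
            rw [h1, ← mul_assoc, h2, one_mul]
    rw [Finset.sum_congr rfl fun τ _ => hτ τ, Finset.sum_const, Finset.card_univ,
      Fintype.card_perm, Fintype.card_fin, nsmul_eq_mul]

end

end Pool.Agent.MP_941b23_mp
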