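import Pool.Agent.MP_941b23_mp.Defs2

/-!
# [D2] Cauchy-Vandermonde
-/

namespace Pool.Agent.MP_941b23_mp

open MeasureTheory Set Filter Topology Polynomial
open scoped ENNReal NNReal Real

noncomputable section

theorem d2_vandermonde {m : ℕ} (x : Fin m → ℝ) : (Matrix.vandermonde x).det = vd x := by
  rw [Matrix.det_vandermonde, vd]

/-- the polynomial `∏_{b' ≠ b} (X + t_b')` -/
def d2_Q {k : ℕ} (t : Fin k → ℝ) (b : Fin k) : ℝ[X] := ∏ b' ∈ Finset.univ.erase b, (X + C (t b'))

theorem d2_Q_natDegree {k : ℕ} (t : Fin k → ℝ) (b : Fin k) : (d2_Q t b).natDegree < k := by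
  have h0 : 0 < k := b.pos
  rw [d2_Q, Polynomial.natDegree_prod_of_monic _ _ (fun i _ => Polynomial.monic_X_add_C _)]
  simp only [Polynomial.natDegree_X_add_C, Finset.sum_const, smul_eq_mul, mul_one,
    Finset.card_erase_of_mem (Finset.mem_univ b), Finset.card_univ, Fintype.card_fin]
  omega

theorem d2_Q_eval {k : ℕ} (t : Fin k → ℝ) (b : Fin k) (x : ℝ) :
    (d2_Q t b).eval x = ∏ b' ∈ Finset.univ.erase b, (x + t b') := by
  rw [d2_Q, Polynomial.eval_prod]
  simp

/-- coefficient matrix -/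
def d2_N {k : ℕ} (t : Fin k → ℝ) : Matrix (Fin k) (Fin k) ℝ :=
  Matrix.of fun b l => (d2_Q t b).coeff l

theorem d2_N_mul {k : ℕ} (t : Fin k → ℝ) :
    d2_N t * (Matrix.vandermonde (fun i => -t i)).transpose =
      Matrix.diagonal (fun b => ∏ b' ∈ Finset.univ.erase b, (t b' - t b)) := by
  ext b j
  rw [Matrix.mul_apply]
  have h1 : ∀ l : Fin k, d2_N t b l * (Matrix.vandermonde (fun i => -t i)).transpose l j =
      (d2_Q t b).coeff l * (-t j) ^ (l : ℕ) := by
    intro l
    rw [d2_N, Matrix.transpose_apply, Matrix.vandermonde_apply, Matrix.of_apply]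
  rw [Finset.sum_congr rfl (fun l _ => h1 l),
    Fin.sum_univ_eq_sum_range (fun l => (d2_Q t b).coeff l * (-t j) ^ l) k,
    ← Polynomial.eval_eq_sum_range' (d2_Q_natDegree t b), d2_Q_eval, Matrix.diagonal_apply]
  by_cases h : b = j
  · subst h
    rw [if_pos rfl]
    refine Finset.prod_congr rfl fun b' _ => by ring
  · rw [if_neg h]
    refine Finset.prod_eq_zero (Finset.mem_erase.2 ⟨fun h' => h h'.symm, Finset.mem_univ j⟩) ?_
    ring

theorem d2_prod_erase {k : ℕ} (t : Fin k → ℝ) :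
    ∏ b, ∏ b' ∈ Finset.univ.erase b, (t b' - t b) = vd t * vd (fun i => -t i) := by
  have h1 : ∀ b : Fin k, ∏ b' ∈ Finset.univ.erase b, (t b' - t b) =
      (∏ b' ∈ Finset.Ioi b, (t b' - t b)) * ∏ b' ∈ Finset.Iio b, (t b' - t b) := by
    intro b
    have h2 : Finset.univ.erase b = Finset.Ioi b ∪ Finset.Iio b := by
      ext x
      simp only [Finset.mem_erase, Finset.mem_univ, and_true, Finset.mem_union, Finset.mem_Ioi,
        Finset.mem_Iio]
      constructor
      · intro h; rcases lt_trichotomy x b with h' | h' | h'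
        · exact Or.inr h'
        · exact absurd h' h
        · exact Or.inl h'
      · rintro (h | h)
        · exact h.ne'
        · exact h.ne
    rw [h2, Finset.prod_union]
    rw [Finset.disjoint_left]
    intro x hx hx'
    rw [Finset.mem_Ioi] at hx
    rw [Finset.mem_Iio] at hx'
    exact lt_asymm hx hx'
  rw [Finset.prod_congr rfl (fun b _ => h1 b), Finset.prod_mul_distrib]
  congr 1
  rw [vd, Finset.prod_comm' (t' := Finset.univ) (s' := fun b' => Finset.Ioi b')]
  · refine Finset.prod_congr rfl fun i _ => Finset.prod_congr rfl fun j _ => by ring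
  · intro x y
    simp

theorem d2_N_det {k : ℕ} (t : Fin k → ℝ) : (d2_N t).det = vd t := by
  by_cases ht : Function.Injective t
  · have h1 := congrArg Matrix.det (d2_N_mul t)
    rw [Matrix.det_mul, Matrix.det_transpose, d2_vandermonde, Matrix.det_diagonal,
      d2_prod_erase] at h1
    have h2 : vd (fun i => -t i) ≠ 0 := by
      rw [vd, Finset.prod_ne_zero_iff]
      intro i _
      rw [Finset.prod_ne_zero_iff]
      intro j hj
      rw [Finset.mem_Ioi] at hj
      intro h3
      have h4 : t i = t j := by linarith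
      exact hj.ne (ht h4)
    exact mul_right_cancel₀ h2 h1
  · rw [Function.Injective] at ht
    push Not at ht
    obtain ⟨a, b, hab, hne⟩ := ht
    have h1 : (d2_N t).det = 0 := by
      refine Matrix.det_zero_of_row_eq hne ?_
      funext l
      have h2 : d2_Q t a = d2_Q t b := by
        rw [d2_Q, d2_Q]
        have h3 : (X + C (t a)) * ∏ b' ∈ Finset.univ.erase a, (X + C (t b')) =
            (X + C (t b)) * ∏ b' ∈ Finset.univ.erase b, (X + C (t b')) := by
          rw [Finset.mul_prod_erase _ (fun b' => (X + C (t b'))) (Finset.mem_univ a),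
            Finset.mul_prod_erase _ (fun b' => (X + C (t b'))) (Finset.mem_univ b)]
        rw [hab] at h3
        exact mul_left_cancel₀ (Polynomial.X_add_C_ne_zero _) h3
      simp only [d2_N, Matrix.of_apply, h2]
    rw [h1, ← d2_vandermonde, eq_comm, Matrix.det_vandermonde_eq_zero_iff]
    exact ⟨a, b, hab, hne⟩

/-- the row polynomials -/
def d2_P {p k : ℕ} (t : Fin k → ℝ) : Fin p ⊕ Fin k → ℝ[X] :=
  Sum.elim (fun a => X ^ (a : ℕ) * ∏ b, (X + C (t b))) (fun b => d2_Q t b)

/-- the exponents -/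
def d2_deg {p k : ℕ} : Fin p ⊕ Fin k → ℕ := Sum.elim (fun a => k + a) (fun l => l)

theorem d2_prod_natDegree {k : ℕ} (t : Fin k → ℝ) : (∏ b, (X + C (t b))).natDegree = k := by
  rw [Polynomial.natDegree_prod_of_monic _ _ (fun i _ => Polynomial.monic_X_add_C _)]
  simp

theorem d2_prod_monic {k : ℕ} (t : Fin k → ℝ) : (∏ b, (X + C (t b))).Monic :=
  Polynomial.monic_prod_of_monic _ _ (fun i _ => Polynomial.monic_X_add_C _)

theorem d2_P_natDegree {p k : ℕ} (t : Fin k → ℝ) (i : Fin p ⊕ Fin k) :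
    (d2_P t i).natDegree < p + k := by
  rcases i with a | b
  · simp only [d2_P, Sum.elim_inl]
    have h1 := Polynomial.natDegree_mul_le (p := (X : ℝ[X]) ^ (a : ℕ)) (q := ∏ b, (X + C (t b)))
    rw [Polynomial.natDegree_X_pow, d2_prod_natDegree] at h1
    have := a.2
    omega
  · simp only [d2_P, Sum.elim_inr]
    have := d2_Q_natDegree t b
    omega

/-- the equivalence with `(e' l : ℕ) = deg l` -/
def d2_e (p k : ℕ) : Fin p ⊕ Fin k ≃ Fin (p + k) :=
  (Equiv.sumComm (Fin p) (Fin k)).trans (finSumFinEquiv.trans (finCongr (Nat.add_comm k p)))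

theorem d2_e_val {p k : ℕ} (i : Fin p ⊕ Fin k) : ((d2_e p k i : Fin (p + k)) : ℕ) = d2_deg i := by
  rcases i with a | b
  · simp [d2_e, d2_deg]
    omega
  · simp [d2_e, d2_deg]

/-- coefficient matrix -/
def d2_C {p k : ℕ} (t : Fin k → ℝ) : Matrix (Fin p ⊕ Fin k) (Fin p ⊕ Fin k) ℝ :=
  Matrix.of fun i j => (d2_P t i).coeff (d2_deg j)

theorem d2_C_det {p k : ℕ} (t : Fin k → ℝ) : (d2_C (p := p) t).det = vd t := by
  have h1 : d2_C (p := p) t = Matrix.fromBlocks
      (Matrix.of fun a a' : Fin p => (d2_P (p := p) t (Sum.inl a)).coeff (k + a'))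
      (Matrix.of fun (a : Fin p) (l : Fin k) => (d2_P (p := p) t (Sum.inl a)).coeff l)
      0 (d2_N t) := by
    ext i j
    rcases i with a | b <;> rcases j with a' | l
    · simp [d2_C, d2_deg]
    · simp [d2_C, d2_deg]
    · simp only [d2_C, d2_deg, Matrix.of_apply, Sum.elim_inl, Matrix.fromBlocks_apply₂₁,
        Matrix.zero_apply, d2_P, Sum.elim_inr]
      refine Polynomial.coeff_eq_zero_of_natDegree_lt ?_
      have := d2_Q_natDegree t b
      omega
    · simp [d2_C, d2_deg, d2_N, d2_P]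
  rw [h1, Matrix.det_fromBlocks_zero₂₁, d2_N_det]
  have h2 : (Matrix.of fun a a' : Fin p =>
      (d2_P (p := p) t (Sum.inl a)).coeff (k + a')).det = 1 := by
    rw [Matrix.det_of_lowerTriangular]
    · refine Finset.prod_eq_one fun a _ => ?_
      simp only [Matrix.of_apply, d2_P, Sum.elim_inl]
      rw [mul_comm, Polynomial.coeff_mul_X_pow]
      have h3 := (d2_prod_monic t).coeff_natDegree
      rwa [d2_prod_natDegree] at h3
    · intro a a' haa'
      have haa : a < a' := haa'
      simp only [Matrix.of_apply, d2_P, Sum.elim_inl]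
      refine Polynomial.coeff_eq_zero_of_natDegree_lt ?_
      have h3 := Polynomial.natDegree_mul_le (p := (X : ℝ[X]) ^ (a : ℕ))
        (q := ∏ b, (X + C (t b)))
      rw [Polynomial.natDegree_X_pow, d2_prod_natDegree] at h3
      have : (a : ℕ) < a' := haa
      omega
  rw [h2, one_mul]

theorem d2_eval_matrix {p k : ℕ} (t : Fin k → ℝ) (ξ : Fin p ⊕ Fin k → ℝ) :
    (Matrix.of fun i j => (d2_P t i).eval (ξ j)) =
      d2_C t * (Matrix.of fun l j => ξ j ^ d2_deg l) := by
  ext i j
  rw [Matrix.mul_apply, Matrix.of_apply, Polynomial.eval_eq_sum_range' (d2_P_natDegree t i),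
    ← Fin.sum_univ_eq_sum_range (fun l => (d2_P t i).coeff l * (ξ j) ^ l) (p + k),
    ← (d2_e p k).sum_comp]
  refine Finset.sum_congr rfl fun l _ => ?_
  rw [d2_e_val]
  simp [d2_C]

theorem d2_W_det {p k : ℕ} (ξ : Fin p ⊕ Fin k → ℝ) :
    (Matrix.of fun l j : Fin p ⊕ Fin k => ξ j ^ d2_deg l).det =
      ((Equiv.Perm.sign ((d2_e p k).trans finSumFinEquiv.symm) : ℤˣ) : ℝ) *
        vd (fun i => ξ (finSumFinEquiv.symm i)) := by
  set V : Matrix (Fin (p + k)) (Fin (p + k)) ℝ :=
    (Matrix.vandermonde (fun i => ξ (finSumFinEquiv.symm i))).transpose with hV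
  have h1 : (Matrix.of fun l j : Fin p ⊕ Fin k => ξ j ^ d2_deg l) =
      (V.submatrix finSumFinEquiv finSumFinEquiv).submatrix
        ((d2_e p k).trans finSumFinEquiv.symm) id := by
    ext l j
    rw [Matrix.submatrix_apply, Matrix.submatrix_apply, hV, Matrix.transpose_apply,
      Matrix.vandermonde_apply, Matrix.of_apply]
    simp [d2_e_val]
  rw [h1, Matrix.det_permute, Matrix.det_submatrix_equiv_self, hV, Matrix.det_transpose,
    d2_vandermonde]

/-- rows `ξ^i` (`i < p`) and `1/(ξ + t_l)` (`l < k`) -/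
theorem cauchy_vandermonde (p k : ℕ) : ∃ s : ℝ, (s = 1 ∨ s = -1) ∧
    ∀ (ξ : Fin p ⊕ Fin k → ℝ) (t : Fin k → ℝ), (∀ i j, ξ i + t j ≠ 0) →
    Matrix.det (Matrix.of fun (i j : Fin p ⊕ Fin k) =>
      Sum.elim (fun a : Fin p => ξ j ^ (a : ℕ)) (fun b : Fin k => 1 / (ξ j + t b)) i) *
      ∏ j, ∏ b, (ξ j + t b) =
    s * vd (fun i => ξ (finSumFinEquiv.symm i)) * vd t := by
  refine ⟨((Equiv.Perm.sign ((d2_e p k).trans finSumFinEquiv.symm) : ℤˣ) : ℝ), ?_, ?_⟩
  · rcases Int.units_eq_one_or (Equiv.Perm.sign ((d2_e p k).trans finSumFinEquiv.symm)) with h | h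
    · left; rw [h]; simp
    · right; rw [h]; simp
  · intro ξ t hne
    have h1 := Matrix.det_mul_row (fun j => ∏ b, (ξ j + t b))
      (Matrix.of fun (i j : Fin p ⊕ Fin k) =>
      Sum.elim (fun a : Fin p => ξ j ^ (a : ℕ)) (fun b : Fin k => 1 / (ξ j + t b)) i)
    rw [mul_comm, ← h1]
    have h2 : (Matrix.of fun (i j : Fin p ⊕ Fin k) => (∏ b, (ξ j + t b)) *
        (Matrix.of fun (i j : Fin p ⊕ Fin k) =>
          Sum.elim (fun a : Fin p => ξ j ^ (a : ℕ)) (fun b : Fin k => 1 / (ξ j + t b)) i) i j) =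
        (Matrix.of fun i j => (d2_P t i).eval (ξ j)) := by
      ext i j
      rcases i with a | b
      · simp [d2_P, Polynomial.eval_prod, mul_comm]
      · simp only [Matrix.of_apply, Sum.elim_inr, d2_P, d2_Q_eval]
        rw [← Finset.mul_prod_erase _ (fun b' => ξ j + t b') (Finset.mem_univ b)]
        field_simp [hne j b]
    rw [h2, d2_eval_matrix, Matrix.det_mul, d2_C_det, d2_W_det]
    ring

theorem d2_vd_cast {m m' : ℕ} (h : m = m') (x : Fin m' → ℝ) :
    vd (fun i => x (Fin.cast h i)) = vd x := by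
  subst h
  rfl

theorem d2_vd_neg {m : ℕ} (x : Fin m → ℝ) : |vd (fun i => -x i)| = |vd x| := by
  rw [vd, vd, Finset.abs_prod, Finset.abs_prod]
  refine Finset.prod_congr rfl fun i _ => ?_
  rw [Finset.abs_prod, Finset.abs_prod]
  refine Finset.prod_congr rfl fun j _ => ?_
  have h : -x j - -x i = -(x j - x i) := by ring
  rw [h, abs_neg]

/-- The Jacobian determinant of [M4]: first row of ones. (Consequence.) -/
theorem det_one_cauchy {n : ℕ} (a : Fin n → ℝ) (x : Fin (n + 1) → ℝ) (h : ∀ i j, x j ≠ a i) :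
    |Matrix.det (Matrix.of fun (i j : Fin (n + 1)) =>
      Fin.cases (motive := fun _ => ℝ) 1 (fun b : Fin n => 1 / (x j - a b)) i)| *
      ∏ j, ∏ b, |x j - a b| = |vd x| * |vd a| := by
  obtain ⟨s, hs, hdet⟩ := cauchy_vandermonde 1 n
  set ε : Fin 1 ⊕ Fin n ≃ Fin (n + 1) :=
    finSumFinEquiv.trans (finCongr (Nat.add_comm 1 n)) with hε
  have hε1 : ∀ a : Fin 1, ε (Sum.inl a) = 0 := by
    intro a
    ext
    simp [hε]
  have hε2 : ∀ b : Fin n, ε (Sum.inr b) = b.succ := by
    intro b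
    ext
    simp [hε, Nat.add_comm]
  have h1 := hdet (fun i => x (ε i)) (fun i => -a i) (fun i j => by
    intro h0
    exact h j (ε i) (by linarith))
  have h2 : (Matrix.of fun (i j : Fin 1 ⊕ Fin n) =>
      Sum.elim (fun a : Fin 1 => x (ε j) ^ (a : ℕ)) (fun b : Fin n => 1 / (x (ε j) + -a b)) i) =
      (Matrix.of fun (i j : Fin (n + 1)) =>
      Fin.cases (motive := fun _ => ℝ) 1 (fun b : Fin n => 1 / (x j - a b)) i).submatrix ε ε := by
    ext i j
    rw [Matrix.submatrix_apply, Matrix.of_apply, Matrix.of_apply]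
    rcases i with b | b
    · rw [hε1]
      simp
    · rw [hε2]
      simp [sub_eq_add_neg]
  rw [h2, Matrix.det_submatrix_equiv_self] at h1
  have h3 : ∏ j : Fin 1 ⊕ Fin n, ∏ b, (x (ε j) + -a b) = ∏ j, ∏ b, (x j - a b) := by
    rw [ε.prod_comp (fun j => ∏ b, (x j + -a b))]
    rfl
  have h4 : vd (fun i => x (ε (finSumFinEquiv.symm i))) = vd x := by
    rw [← d2_vd_cast (Nat.add_comm 1 n) x]
    congr 1
    funext i
    simp [hε]
  rw [h3, h4] at h1
  have h5 := congrArg abs h1
  rw [abs_mul, abs_mul, abs_mul, d2_vd_neg] at h5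
  have h6 : |s| = 1 := by rcases hs with rfl | rfl <;> simp
  rw [h6, one_mul, Finset.abs_prod] at h5
  rw [← h5]
  congr 1
  refine Finset.prod_congr rfl fun j _ => ?_
  rw [Finset.abs_prod]

end

end Pool.Agent.MP_941b23_mp
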