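import Pool.Agent.MP_941b23_mp.Defs2
import Pool.Agent.MP_941b23_mp.D2

/-!
# [QM-D3] the Nikishin expansion, finite version
-/

namespace Pool.Agent.MP_941b23_mp

open MeasureTheory Set Filter Topology
open scoped ENNReal NNReal Real

set_option linter.unusedSectionVars false

noncomputable section

/-! ### generalised Andreief -/

section GA

variable {P K E : Type} [Fintype P] [DecidableEq P] [Fintype K] [DecidableEq K]

/-- determinant with the rows `V a` (`a ∈ P`) and `c (x b)` (`b ∈ K`) -/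
def d3F (V : P → P ⊕ K → ℝ) (c : P ⊕ K → E → ℝ) (x : K → E) : ℝ :=
  Matrix.det (Matrix.of fun (i j : P ⊕ K) => Sum.elim (fun a => V a j) (fun b => c j (x b)) i)

theorem d3_perm (V : P → P ⊕ K → ℝ) (c : P ⊕ K → E → ℝ) (σ : Equiv.Perm K) (x : K → E) :
    d3F V c (fun b => x (σ b)) = ((Equiv.Perm.sign σ : ℤ) : ℝ) * d3F V c x := by
  have h : (Matrix.of fun (i j : P ⊕ K) => Sum.elim (fun a => V a j) (fun b => c j (x (σ b))) i) =
      (Matrix.of fun (i j : P ⊕ K) => Sum.elim (fun a => V a j) (fun b => c j (x b)) i).submatrix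
        (Equiv.Perm.sumCongr 1 σ) id := by
    ext i j
    cases i <;> rfl
  unfold d3F
  rw [h, Matrix.det_permute, Equiv.Perm.sign_sumCongr, Equiv.Perm.sign_one, one_mul]

theorem d3_detT {n : Type} [Fintype n] [DecidableEq n] (M : Matrix n n ℝ) :
    M.det = ∑ σ : Equiv.Perm n, ((Equiv.Perm.sign σ : ℤ) : ℝ) * ∏ i, M i (σ i) := by
  rw [← Matrix.det_transpose, Matrix.det_apply']
  rfl

variable [MeasurableSpace E]

theorem d3_ga_aux (μ : Measure E) [SigmaFinite μ] (V : P → P ⊕ K → ℝ) (w : K → E → ℝ)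
    (c : P ⊕ K → E → ℝ) (hint : ∀ b j, Integrable (fun x => w b x * c j x) μ) :
    Integrable (fun x : K → E => (∏ b, w b (x b)) * d3F V c x) (Measure.pi fun _ => μ) ∧
    Matrix.det (Matrix.of fun (i j : P ⊕ K) =>
      Sum.elim (fun a => V a j) (fun b => ∫ x, w b x * c j x ∂μ) i) =
      ∫ x : K → E, (∏ b, w b (x b)) * d3F V c x ∂(Measure.pi fun _ => μ) := by
  have e : ∀ x : K → E, (∏ b, w b (x b)) * d3F V c x =
      ∑ σ : Equiv.Perm (P ⊕ K), (((Equiv.Perm.sign σ : ℤ) : ℝ) * ∏ a, V a (σ (Sum.inl a))) *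
        ∏ b, (w b (x b) * c (σ (Sum.inr b)) (x b)) := by
    intro x
    unfold d3F
    rw [d3_detT, Finset.mul_sum]
    refine Finset.sum_congr rfl fun σ _ => ?_
    rw [Fintype.prod_sum_type, Finset.prod_mul_distrib]
    simp only [Matrix.of_apply, Sum.elim_inl, Sum.elim_inr]
    ring
  have hi : ∀ σ : Equiv.Perm (P ⊕ K), Integrable (fun x : K → E =>
      (((Equiv.Perm.sign σ : ℤ) : ℝ) * ∏ a, V a (σ (Sum.inl a))) *
        ∏ b, (w b (x b) * c (σ (Sum.inr b)) (x b))) (Measure.pi fun _ => μ) := by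
    intro σ
    refine Integrable.const_mul ?_ _
    exact Integrable.fintype_prod (f := fun b x => w b x * c (σ (Sum.inr b)) x)
      fun b => hint b _
  constructor
  · have : (fun x : K → E => (∏ b, w b (x b)) * d3F V c x) = fun x =>
      ∑ σ : Equiv.Perm (P ⊕ K), (((Equiv.Perm.sign σ : ℤ) : ℝ) * ∏ a, V a (σ (Sum.inl a))) *
        ∏ b, (w b (x b) * c (σ (Sum.inr b)) (x b)) := funext e
    rw [this]
    exact integrable_finsetSum _ fun σ _ => hi σ
  · simp_rw [e]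
    rw [integral_finsetSum _ fun σ _ => hi σ, d3_detT]
    refine Finset.sum_congr rfl fun σ _ => ?_
    rw [integral_const_mul, Fintype.prod_sum_type]
    have := integral_fintype_prod_eq_prod (ι := K) (E := fun _ => E) (𝕜 := ℝ)
      (fun b x => w b x * c (σ (Sum.inr b)) x) (μ := fun _ => μ)
    rw [this]
    simp only [Matrix.of_apply, Sum.elim_inl, Sum.elim_inr]
    ring

theorem d3_pres (μ : Measure E) [SigmaFinite μ] (σ : Equiv.Perm K) :
    MeasurePreserving (fun (x : K → E) => fun b => x (σ b)) (Measure.pi fun _ => μ)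
      (Measure.pi fun _ => μ) := by
  have h := measurePreserving_arrowCongr' (fun _ : K => μ) (fun _ : K => μ) σ.symm
    (MeasurableEquiv.refl E) (fun _ => MeasurePreserving.id μ)
  exact h

theorem d3_ga (μ : Measure E) [SigmaFinite μ] (V : P → P ⊕ K → ℝ) (w : K → E → ℝ)
    (c : P ⊕ K → E → ℝ) (hint : ∀ b j, Integrable (fun x => w b x * c j x) μ) :
    Matrix.det (Matrix.of fun (i j : P ⊕ K) =>
      Sum.elim (fun a => V a j) (fun b => ∫ x, w b x * c j x ∂μ) i) =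
      1 / ((Fintype.card K).factorial : ℝ) * ∫ x : K → E,
        Matrix.det (Matrix.of fun (b l : K) => w b (x l)) * d3F V c x
          ∂(Measure.pi fun _ => μ) := by
  obtain ⟨hI, hD⟩ := d3_ga_aux μ V w c hint
  have hm : ∀ σ : Equiv.Perm K,
      MeasurableEmbedding (fun (x : K → E) => fun b => x (σ b)) := by
    intro σ
    have : (fun (x : K → E) => fun b => x (σ b)) =
        (MeasurableEquiv.arrowCongr' σ.symm (MeasurableEquiv.refl E) : (K → E) ≃ᵐ (K → E)) := by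
      ext x b
      rfl
    rw [this]
    exact MeasurableEquiv.measurableEmbedding _
  have e1 : ∀ σ : Equiv.Perm K, ∫ x : K → E, ((Equiv.Perm.sign σ : ℤ) : ℝ) *
      (∏ b, w b (x (σ b))) * d3F V c x ∂(Measure.pi fun _ => μ) =
      ∫ x : K → E, (∏ b, w b (x b)) * d3F V c x ∂(Measure.pi fun _ => μ) := by
    intro σ
    have h1 := (d3_pres μ σ).integral_comp (hm σ) (fun x => (∏ b, w b (x b)) * d3F V c x)
    rw [← h1]
    congr 1
    ext x
    rw [d3_perm]
    ring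
  have i1 : ∀ σ : Equiv.Perm K, Integrable (fun x : K → E => ((Equiv.Perm.sign σ : ℤ) : ℝ) *
      (∏ b, w b (x (σ b))) * d3F V c x) (Measure.pi fun _ => μ) := by
    intro σ
    have := ((d3_pres μ σ).integrable_comp_emb (hm σ)).mpr hI
    refine this.congr (Filter.Eventually.of_forall fun x => ?_)
    simp only [Function.comp_apply]
    rw [d3_perm]
    ring
  have e2 : ∀ x : K → E, Matrix.det (Matrix.of fun (b l : K) => w b (x l)) * d3F V c x =
      ∑ σ : Equiv.Perm K, ((Equiv.Perm.sign σ : ℤ) : ℝ) * (∏ b, w b (x (σ b))) * d3F V c x := by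
    intro x
    rw [d3_detT, Finset.sum_mul]
    rfl
  simp_rw [e2]
  rw [integral_finsetSum _ fun σ _ => i1 σ]
  simp_rw [e1]
  rw [Finset.sum_const, Finset.card_univ, Fintype.card_perm, nsmul_eq_mul, hD]
  have : ((Fintype.card K).factorial : ℝ) ≠ 0 := by exact_mod_cast Nat.factorial_ne_zero _
  field_simp

end GA

/-! ### row operations and reindexing -/

section Rows

variable {P K : Type} [Fintype P] [DecidableEq P] [Fintype K] [DecidableEq K]

theorem d3_rowred (V : P → P ⊕ K → ℝ) (u u' : K → P ⊕ K → ℝ) (cf : K → P → ℝ)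
    (h : ∀ b j, u b j = u' b j + ∑ a, cf b a * V a j) :
    Matrix.det (Matrix.of fun (i j : P ⊕ K) => Sum.elim (fun a => V a j) (fun b => u b j) i) =
    Matrix.det (Matrix.of fun (i j : P ⊕ K) => Sum.elim (fun a => V a j) (fun b => u' b j) i) := by
  have e : (Matrix.of fun (i j : P ⊕ K) => Sum.elim (fun a => V a j) (fun b => u b j) i) =
      Matrix.fromBlocks (1 : Matrix P P ℝ) 0 (Matrix.of cf) (1 : Matrix K K ℝ) *
      (Matrix.of fun (i j : P ⊕ K) => Sum.elim (fun a => V a j) (fun b => u' b j) i) := by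
    ext i j
    rw [Matrix.mul_apply, Fintype.sum_sum_type]
    cases i with
    | inl a => simp [Matrix.one_apply]
    | inr b =>
      simp only [Matrix.of_apply, Sum.elim_inr, Matrix.fromBlocks_apply₂₁, Sum.elim_inl,
        Matrix.fromBlocks_apply₂₂, Matrix.one_apply, ite_mul, one_mul, zero_mul,
        Finset.sum_ite_eq, Finset.mem_univ, if_true]
      rw [h b j, add_comm]
  rw [e, Matrix.det_mul, Matrix.det_fromBlocks_zero₁₂, Matrix.det_one, Matrix.det_one, one_mul,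
    one_mul]

theorem d3_sub {n m : Type} [Fintype n] [DecidableEq n] [Fintype m] [DecidableEq m]
    (e₁ e₂ : n ≃ m) (M : Matrix m m ℝ) :
    (M.submatrix e₁ e₂).det = ((Equiv.Perm.sign (e₂.symm.trans e₁) : ℤ) : ℝ) * M.det := by
  have : M.submatrix e₁ e₂ = (M.submatrix (e₂.symm.trans e₁) id).submatrix e₂ e₂ := by
    ext i j
    simp
  rw [this, Matrix.det_submatrix_equiv_self, Matrix.det_permute]

theorem d3_vd_cast {m n : ℕ} (h : m = n) (x : Fin n → ℝ) :
    vd (fun i => x (finCongr h i)) = vd x := by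
  subst h
  rfl

theorem d3_vander {r : ℕ} (ε : ℕ) (hε : ε ≤ 1) (v : Fin r → ℝ) :
    Matrix.det (Matrix.of fun (b l : Fin r) => v l ^ ((b : ℕ) + 1 - ε)) =
      (∏ i, v i ^ (1 - ε)) * vd v := by
  have e : (Matrix.of fun (b l : Fin r) => v l ^ ((b : ℕ) + 1 - ε)) =
      (Matrix.of fun (b l : Fin r) => (fun l => v l ^ (1 - ε)) l * (Matrix.vandermonde v).transpose b l) := by
    ext b l
    simp only [Matrix.of_apply, Matrix.transpose_apply, Matrix.vandermonde_apply]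
    rw [← pow_add]
    congr 1
    omega
  rw [e, Matrix.det_mul_row, Matrix.det_transpose, Matrix.det_vandermonde]
  rfl

/-- division with remainder of `x^n` by `x + t` -/
theorem d3_divide {p n : ℕ} (hn : n ≤ p) (x t : ℝ) (hx : x + t ≠ 0) :
    x ^ n * (1 / (x + t)) = (-t) ^ n * (1 / (x + t)) +
      ∑ a : Fin p, (if (a : ℕ) < n then (-t) ^ (n - 1 - (a : ℕ)) else 0) * x ^ (a : ℕ) := by
  have h := (Commute.all x (-t)).geom_sum₂_mul n
  have e : ∑ a : Fin p, (if (a : ℕ) < n then (-t) ^ (n - 1 - (a : ℕ)) else 0) * x ^ (a : ℕ) =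
      ∑ i ∈ Finset.range n, x ^ i * (-t) ^ (n - 1 - i) := by
    rw [Fin.sum_univ_eq_sum_range (fun a : ℕ => (if a < n then (-t) ^ (n - 1 - a) else 0) * x ^ a) p]
    rw [← Finset.sum_subset (Finset.range_subset_range.mpr hn)]
    · refine Finset.sum_congr rfl fun i hi => ?_
      rw [if_pos (Finset.mem_range.mp hi), mul_comm]
    · intro i _ hi
      rw [if_neg (fun h => hi (Finset.mem_range.mpr h)), zero_mul]
  rw [e]
  have h2 : x - -t = x + t := by ring
  rw [h2] at h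
  field_simp
  linear_combination -h

end Rows

/-! ### the inner determinant -/

section Inner

theorem d3_int {ρ : Measure ℝ} [IsFiniteMeasure ρ] {R : ℝ} (h : ρ (Ioc 0 R)ᶜ = 0) {f : ℝ → ℝ}
    (hf : Measurable f) (C : ℝ) (hC : ∀ v ∈ Ioc 0 R, |f v| ≤ C) : Integrable f ρ := by
  refine Integrable.of_bound hf.aestronglyMeasurable C ?_
  have : ∀ᵐ v ∂ρ, v ∈ Ioc 0 R := by
    rw [ae_iff]
    exact h
  exact this.mono fun v hv => hC v hv

theorem d3_int1 {ρ : Measure ℝ} [IsFiniteMeasure ρ] {R : ℝ} (h : ρ (Ioc 0 R)ᶜ = 0) (n : ℕ) {t : ℝ}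
    (ht : 0 < t) : Integrable (fun v => v ^ n * (1 / (v + t))) ρ := by
  refine d3_int h (by fun_prop) (R ^ n * (1 / t)) fun v hv => ?_
  have h1 : 0 < v := hv.1
  rw [abs_of_nonneg (by positivity)]
  exact mul_le_mul (pow_le_pow_left₀ h1.le hv.2 n)
    (one_div_le_one_div_of_le ht (by linarith)) (by positivity) (pow_nonneg (h1.le.trans hv.2) _)

theorem d3_int2 {ρ : Measure ℝ} [IsFiniteMeasure ρ] {R : ℝ} (h : ρ (Ioc 0 R)ᶜ = 0) (n : ℕ) :
    Integrable (fun v => v ^ n) ρ := by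
  refine d3_int h (by fun_prop) (R ^ n) fun v hv => ?_
  have h1 : 0 < v := hv.1
  rw [abs_of_nonneg (by positivity)]
  exact pow_le_pow_left₀ h1.le hv.2 n

theorem d3_row {ρ : Measure ℝ} [IsFiniteMeasure ρ] {R : ℝ} (h : ρ (Ioc 0 R)ᶜ = 0) {q n : ℕ}
    (hn : n ≤ q) {t : ℝ} (ht : 0 < t) :
    (∫ v, 1 / (v + t) ∂ρ) * (-t) ^ n = (∫ v, v ^ n * (1 / (v + t)) ∂ρ) +
      ∑ a : Fin q, (if (a : ℕ) < n then -∫ v, v ^ (n - 1 - (a : ℕ)) ∂ρ else 0) * (-t) ^ (a : ℕ) := by
  have h0 : ∀ᵐ v ∂ρ, v ∈ Ioc 0 R := by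
    rw [ae_iff]
    exact h
  have e1 : ∀ᵐ v ∂ρ, 1 / (v + t) * (-t) ^ n = v ^ n * (1 / (v + t)) +
      ∑ a : Fin q, (if (a : ℕ) < n then -v ^ (n - 1 - (a : ℕ)) else 0) * (-t) ^ (a : ℕ) := by
    refine h0.mono fun v hv => ?_
    have hv0 : 0 < v := hv.1
    have hne : -t + -v ≠ 0 := by linarith
    have hne' : v + t ≠ 0 := by linarith
    have h2 := d3_divide (p := q) (n := n) hn (-t) (-v) hne
    rw [neg_neg] at h2
    have h3 : (1 : ℝ) / (-t + -v) = -(1 / (v + t)) := by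
      rw [← neg_add, add_comm t v, one_div, one_div, inv_neg]
    rw [h3] at h2
    have h4 : ∑ a : Fin q, (if (a : ℕ) < n then -v ^ (n - 1 - (a : ℕ)) else 0) * (-t) ^ (a : ℕ) =
        -∑ a : Fin q, (if (a : ℕ) < n then v ^ (n - 1 - (a : ℕ)) else 0) * (-t) ^ (a : ℕ) := by
      rw [← Finset.sum_neg_distrib]
      refine Finset.sum_congr rfl fun a _ => ?_
      split_ifs <;> ring
    rw [h4]
    linear_combination -h2
  rw [← integral_mul_const, integral_congr_ae e1, integral_add (d3_int1 h n ht)]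
  · congr 1
    rw [integral_finsetSum]
    · refine Finset.sum_congr rfl fun a _ => ?_
      rw [integral_mul_const]
      congr 1
      split_ifs
      · rw [integral_neg]
      · simp
    · intro a _
      refine Integrable.mul_const ?_ _
      split_ifs
      · exact (d3_int2 h _).neg
      · exact integrable_zero _ _ _
  · refine integrable_finsetSum _ fun a _ => Integrable.mul_const ?_ _
    split_ifs
    · exact (d3_int2 h _).neg
    · exact integrable_zero _ _ _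

theorem d3_inner (ε r q : ℕ) (hε : ε ≤ 1) (hrq : r ≤ q + ε) : ∃ s : ℝ, s * s = 1 ∧
    ∀ (ρ : Measure ℝ) [IsFiniteMeasure ρ] (R : ℝ) (_ : ρ (Ioc 0 R)ᶜ = 0) (t : Fin (r + q) → ℝ)
      (_ : ∀ i, 0 < t i),
    Matrix.det (Matrix.of fun (i l : Fin (r + q)) =>
      Sum.elim (fun b : Fin r => (∫ v, 1 / (v + t l) ∂ρ) * (-(t l)) ^ ((b : ℕ) + 1))
        (fun c : Fin q => (-(t l)) ^ ((c : ℕ) + ε)) (finSumFinEquiv.symm i)) =
    s / r.factorial * (∏ l, t l ^ ε) * vd t *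
      ∫ v : Fin r → ℝ, vd v ^ 2 * (∏ i, v i ^ (1 - ε)) / (∏ l, ∏ j, (t l + v j))
        ∂(Measure.pi fun _ => ρ) := by
  obtain ⟨s2, hs2, hCV⟩ := cauchy_vandermonde q r
  set ρe : Fin q ⊕ Fin r ≃ Fin (r + q) := (Equiv.sumComm _ _).trans finSumFinEquiv with hρe
  set ge : Fin q ⊕ Fin r ≃ Fin (r + q) := finSumFinEquiv.trans (finCongr (add_comm q r)) with hge
  set sg : ℝ := ((Equiv.Perm.sign (ge.symm.trans ρe) : ℤ) : ℝ) with hsg
  have hsg2 : sg * sg = 1 := by
    rw [hsg, ← Int.cast_mul, ← Units.val_mul, Int.units_mul_self]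
    simp
  have hs22 : s2 * s2 = 1 := mul_self_eq_one_iff.mpr hs2
  set κ1 : ℝ := ∏ c : Fin q, (-1 : ℝ) ^ (c : ℕ) with hκ1
  set κ2 : ℝ := ∏ _l : Fin (r + q), (-1 : ℝ) ^ ε with hκ2
  have hk1 : κ1 * κ1 = 1 := by
    rw [hκ1, ← Finset.prod_mul_distrib]
    refine Finset.prod_eq_one fun c _ => ?_
    rw [← mul_pow]
    norm_num
  have hk2 : κ2 * κ2 = 1 := by
    rw [hκ2, ← Finset.prod_mul_distrib]
    refine Finset.prod_eq_one fun c _ => ?_
    rw [← mul_pow]
    norm_num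
  refine ⟨sg * s2 * κ1 * κ2, ?_, ?_⟩
  · linear_combination (s2 * s2 * κ1 * κ1 * κ2 * κ2) * hsg2 + κ1 * κ1 * κ2 * κ2 * hs22 +
      κ2 * κ2 * hk1 + hk2
  intro ρ _ R hρ t ht
  set M : Matrix (Fin (r + q)) (Fin (r + q)) ℝ := Matrix.of fun (i l : Fin (r + q)) =>
      Sum.elim (fun b : Fin r => (∫ v, 1 / (v + t l) ∂ρ) * (-(t l)) ^ ((b : ℕ) + 1))
        (fun c : Fin q => (-(t l)) ^ ((c : ℕ) + ε)) (finSumFinEquiv.symm i) with hM
  set t' : Fin q ⊕ Fin r → ℝ := fun j => t (ge j) with ht'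
  have ht'0 : ∀ j, 0 < t' j := fun j => ht _
  have hdet : M.det = sg * (M.submatrix ρe ge).det := by
    rw [d3_sub, ← hsg, ← mul_assoc, hsg2, one_mul]
  have e1 : M.submatrix ρe ge = Matrix.of fun i j => (fun j => (-(t' j)) ^ ε) j *
      (Matrix.of fun (i j : Fin q ⊕ Fin r) => Sum.elim (fun c : Fin q => (-(t' j)) ^ (c : ℕ))
        (fun b : Fin r => (∫ v, 1 / (v + t' j) ∂ρ) * (-(t' j)) ^ ((b : ℕ) + 1 - ε)) i) i j := by
    ext i j
    rcases i with c | b
    · have : finSumFinEquiv.symm (ρe (Sum.inl c)) = Sum.inr c := by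
        rw [hρe]
        simp
      simp only [hM, Matrix.submatrix_apply, Matrix.of_apply, this, Sum.elim_inr, Sum.elim_inl]
      rw [← pow_add, add_comm ε (c : ℕ)]
    · have : finSumFinEquiv.symm (ρe (Sum.inr b)) = Sum.inl b := by
        rw [hρe]
        simp
      simp only [hM, Matrix.submatrix_apply, Matrix.of_apply, this, Sum.elim_inr, Sum.elim_inl]
      have e : (b : ℕ) + 1 = ε + ((b : ℕ) + 1 - ε) := by omega
      rw [e, pow_add]
      have e' : ε + ((b : ℕ) + 1 - ε) - ε = (b : ℕ) + 1 - ε := by omega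
      rw [e']
      ring
  have e2 : ∏ j, (-(t' j)) ^ ε = κ2 * ∏ l, t l ^ ε := by
    rw [hκ2, ← Finset.prod_mul_distrib]
    simp only [ht']
    rw [Equiv.prod_comp ge (fun l => (-(t l)) ^ ε)]
    refine Finset.prod_congr rfl fun l _ => ?_
    rw [← mul_pow, neg_one_mul]
  have e3 := d3_rowred (P := Fin q) (K := Fin r) (fun c j => (-(t' j)) ^ (c : ℕ))
    (fun b j => (∫ v, 1 / (v + t' j) ∂ρ) * (-(t' j)) ^ ((b : ℕ) + 1 - ε))
    (fun b j => ∫ v, v ^ ((b : ℕ) + 1 - ε) * (1 / (v + t' j)) ∂ρ)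
    (fun b a => (if (a : ℕ) < ((b : ℕ) + 1 - ε) then
      -∫ v, v ^ (((b : ℕ) + 1 - ε) - 1 - (a : ℕ)) ∂ρ else 0))
    (fun b j => d3_row hρ (by have := b.2; omega) (ht'0 j))
  have e4 := d3_ga ρ (P := Fin q) (K := Fin r) (fun c j => (-(t' j)) ^ (c : ℕ))
    (fun b v => v ^ ((b : ℕ) + 1 - ε)) (fun j v => 1 / (v + t' j))
    (fun b j => d3_int1 hρ _ (ht'0 j))
  have hae : ∀ᵐ v : Fin r → ℝ ∂(Measure.pi fun _ => ρ), ∀ b, v b ∈ Ioc 0 R := by
    rw [eventually_all]
    intro b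
    have h0 : ∀ᵐ v ∂ρ, v ∈ Ioc 0 R := by
      rw [ae_iff]
      exact hρ
    exact (Measure.tendsto_eval_ae_ae (μ := fun _ : Fin r => ρ) (i := b)).eventually h0
  have e5 : ∀ᵐ v : Fin r → ℝ ∂(Measure.pi fun _ => ρ),
      Matrix.det (Matrix.of fun (b l : Fin r) => v l ^ ((b : ℕ) + 1 - ε)) *
        d3F (fun (c : Fin q) j => (-(t' j)) ^ (c : ℕ)) (fun j v => 1 / (v + t' j)) v =
      (κ1 * s2 * vd t) * (vd v ^ 2 * (∏ i, v i ^ (1 - ε)) / (∏ l, ∏ j, (t l + v j))) := by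
    refine hae.mono fun v hv => ?_
    have hv0 : ∀ b, 0 < v b := fun b => (hv b).1
    have h1 : d3F (fun (c : Fin q) j => (-(t' j)) ^ (c : ℕ)) (fun j v => 1 / (v + t' j)) v =
        κ1 * Matrix.det (Matrix.of fun (i j : Fin q ⊕ Fin r) =>
          Sum.elim (fun a : Fin q => t' j ^ (a : ℕ)) (fun b : Fin r => 1 / (t' j + v b)) i) := by
      have h2 : κ1 = ∏ i : Fin q ⊕ Fin r, (Sum.elim (fun c : Fin q => (-1 : ℝ) ^ (c : ℕ))
          (fun _ => 1) i) := by
        rw [Fintype.prod_sum_type]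
        simp [hκ1]
      rw [h2, ← Matrix.det_mul_column]
      unfold d3F
      congr 1
      ext i j
      rcases i with c | b
      · simp only [Matrix.of_apply, Sum.elim_inl]
        rw [← mul_pow, neg_one_mul]
      · simp only [Matrix.of_apply, Sum.elim_inr]
        rw [one_mul, add_comm]
    have hne : ∀ i j, t' i + v j ≠ 0 := fun i j => by
      have := ht'0 i
      have := hv0 j
      positivity
    have h3 := hCV t' v hne
    have h4 : vd (fun i => t' (finSumFinEquiv.symm i)) = vd t := by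
      have : (fun i => t' (finSumFinEquiv.symm i)) = fun i => t (finCongr (add_comm q r) i) := by
        ext i
        simp [ht', hge]
      rw [this, d3_vd_cast]
    have h5 : (∏ j, ∏ b, (t' j + v b)) = ∏ l, ∏ j, (t l + v j) := by
      simp only [ht']
      exact Equiv.prod_comp ge (fun l => ∏ b, (t l + v b))
    have h6 : (∏ l, ∏ j, (t l + v j)) ≠ 0 := by
      refine Finset.prod_ne_zero_iff.mpr fun l _ => Finset.prod_ne_zero_iff.mpr fun j _ => ?_
      have := ht l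
      have := hv0 j
      positivity
    rw [h4, h5] at h3
    rw [h1, d3_vander ε hε]
    have h7 := eq_div_of_mul_eq h6 h3
    rw [h7]
    ring
  rw [hdet, e1, Matrix.det_mul_row, e2, e3, e4, integral_congr_ae e5, integral_const_mul,
    Fintype.card_fin]
  ring

end Inner

/-! ### the theorem -/

theorem d3_count {n : ℕ} (T : Finset ℝ) (f : (Fin n → T) → ℝ) :
    ∫ x : Fin n → T, f x ∂(Measure.pi fun _ => Measure.count) = ∑ x : Fin n → T, f x := by
  rw [integral_fintype (Integrable.of_finite)]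
  refine Finset.sum_congr rfl fun x _ => ?_
  have : (Measure.pi fun _ : Fin n => (Measure.count : Measure T)).real {x} = 1 := by
    rw [measureReal_def, Measure.pi_singleton]
    simp
  rw [this, one_smul]

theorem d3_rowsum (T : Finset ℝ) (hT : ∀ t ∈ T, 0 < t) (g : ℝ → ℝ) {p n : ℕ} (hn : n ≤ p) (x : ℝ)
    (hx : 0 < x) : x ^ n * ∑ t ∈ T, g t / (x + t) =
      (∑ t : T, g t * (-(t : ℝ)) ^ n * (1 / (x + t))) +
      ∑ a : Fin p, (∑ t : T, g t * (if (a : ℕ) < n then (-(t : ℝ)) ^ (n - 1 - (a : ℕ)) else 0)) *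
        x ^ (a : ℕ) := by
  rw [← Finset.sum_coe_sort T, Finset.mul_sum]
  simp_rw [Finset.sum_mul]
  rw [Finset.sum_comm, ← Finset.sum_add_distrib]
  refine Finset.sum_congr rfl fun t _ => ?_
  have ht := hT t t.2
  have h := d3_divide hn x t (by positivity)
  have h2 : ∑ a : Fin p, g t * (if (a : ℕ) < n then (-(t : ℝ)) ^ (n - 1 - (a : ℕ)) else 0) *
      x ^ (a : ℕ) = g t * ∑ a : Fin p,
      (if (a : ℕ) < n then (-(t : ℝ)) ^ (n - 1 - (a : ℕ)) else 0) * x ^ (a : ℕ) := by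
    rw [Finset.mul_sum]
    exact Finset.sum_congr rfl fun a _ => by ring
  rw [h2]
  have h3 : x ^ n * (g t / (x + t)) = g t * (x ^ n * (1 / (x + t))) := by ring
  rw [h3, h]
  ring

theorem nikishin_finite (ε p r q : ℕ) (hs : NikSize ε p r q) : ∃ s : ℝ, (s = 1 ∨ s = -1) ∧
    ∀ (T : Finset ℝ) (_ : ∀ t ∈ T, 0 < t) (ρ : Measure ℝ) [IsFiniteMeasure ρ] (R : ℝ)
      (_ : ρ (Ioc 0 R)ᶜ = 0) (ξ : Fin p ⊕ (Fin r ⊕ Fin q) → ℝ) (_ : ∀ i, 0 < ξ i),
    Matrix.det (Matrix.of fun i j => nikRow ε p r q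
      (fun x => ∑ t ∈ T, 1 / (x + t))
      (fun x => ∑ t ∈ T, (∫ v, 1 / (v + t) ∂ρ) / (x + t)) i (ξ j)) =
    s / ((r + q).factorial * r.factorial) *
      vd (fun i : Fin (p + (r + q)) => ξ ((Equiv.sumCongr (Equiv.refl _) finSumFinEquiv).symm
        (finSumFinEquiv.symm i))) *
      ∑ t : Fin (r + q) → T, ∫ v : Fin r → ℝ,
        (vd (fun i => (t i : ℝ)) ^ 2 * vd v ^ 2 * (∏ i, (t i : ℝ) ^ ε) * (∏ i, v i ^ (1 - ε)) /
          ((∏ i, ∏ j, (ξ i + (t j : ℝ))) * (∏ i, ∏ j, ((t i : ℝ) + v j))))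
        ∂(Measure.pi fun _ => ρ) := by
  have hε : ε ≤ 1 := by
    rcases hs with h | h
    · omega
    · omega
  have hrq : r ≤ q + ε := by
    rcases hs with h | h
    · omega
    · omega
  have hrp : r ≤ p := by
    rcases hs with h | h
    · omega
    · omega
  have hqp : q + ε ≤ p + 1 := by
    rcases hs with h | h
    · omega
    · omega
  obtain ⟨s1, hs1, hCV⟩ := cauchy_vandermonde p (r + q)
  obtain ⟨s2, hs2, hIn⟩ := d3_inner ε r q hε hrq
  have hs11 : s1 * s1 = 1 := mul_self_eq_one_iff.mpr hs1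
  refine ⟨s1 * s2, ?_, ?_⟩
  · rw [← mul_self_eq_one_iff]
    linear_combination (s2 * s2) * hs11 + hs2
  intro T hT ρ _ R hρ ξ hξ
  set e : Fin p ⊕ (Fin r ⊕ Fin q) ≃ Fin p ⊕ Fin (r + q) :=
    Equiv.sumCongr (Equiv.refl _) finSumFinEquiv with he
  set ξ' : Fin p ⊕ Fin (r + q) → ℝ := fun j => ξ (e.symm j) with hξ'
  have hξ'0 : ∀ j, 0 < ξ' j := fun j => hξ _
  set W : Fin (r + q) → T → ℝ := fun b t =>
    Sum.elim (fun b : Fin r => (∫ v, 1 / (v + (t : ℝ)) ∂ρ) * (-(t : ℝ)) ^ ((b : ℕ) + 1))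
        (fun c : Fin q => (-(t : ℝ)) ^ ((c : ℕ) + ε)) (finSumFinEquiv.symm b) with hW
  set U : Fin (r + q) → Fin p ⊕ Fin (r + q) → ℝ := fun b j =>
    Sum.elim (fun b : Fin r => ξ' j ^ ((b : ℕ) + 1) *
        ∑ t ∈ T, (∫ v, 1 / (v + t) ∂ρ) / (ξ' j + t))
      (fun c : Fin q => ξ' j ^ ((c : ℕ) + ε) * ∑ t ∈ T, 1 / (ξ' j + t))
      (finSumFinEquiv.symm b) with hU
  have hA : Matrix.det (Matrix.of fun i j => nikRow ε p r q
      (fun x => ∑ t ∈ T, 1 / (x + t))
      (fun x => ∑ t ∈ T, (∫ v, 1 / (v + t) ∂ρ) / (x + t)) i (ξ j)) =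
      Matrix.det (Matrix.of fun (i j : Fin p ⊕ Fin (r + q)) =>
        Sum.elim (fun a : Fin p => ξ' j ^ (a : ℕ)) (fun b => U b j) i) := by
    rw [← Matrix.det_submatrix_equiv_self e.symm]
    congr 1
    ext i j
    rcases i with a | b
    · simp [nikRow, he, hξ']
    · simp only [nikRow, he, hξ', hU, Matrix.submatrix_apply, Matrix.of_apply,
        Equiv.sumCongr_symm, Equiv.sumCongr_apply, Sum.map_inr, Sum.elim_inr]
  set cf : Fin (r + q) → Fin p → ℝ := fun b a =>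
    Sum.elim (fun b : Fin r => ∑ t : T, (∫ v, 1 / (v + (t : ℝ)) ∂ρ) *
        (if (a : ℕ) < ((b : ℕ) + 1) then (-(t : ℝ)) ^ (((b : ℕ) + 1) - 1 - (a : ℕ)) else 0))
      (fun c : Fin q => ∑ t : T, 1 *
        (if (a : ℕ) < ((c : ℕ) + ε) then (-(t : ℝ)) ^ (((c : ℕ) + ε) - 1 - (a : ℕ)) else 0))
      (finSumFinEquiv.symm b) with hcf
  have hB := d3_rowred (P := Fin p) (K := Fin (r + q)) (fun a j => ξ' j ^ (a : ℕ)) U
    (fun b j => ∫ t : T, W b t * (1 / (ξ' j + (t : ℝ))) ∂Measure.count) cf (by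
      intro b j
      simp only [hU, hW, hcf, integral_count]
      rcases hb : finSumFinEquiv.symm b with b' | c
      · simp only [Sum.elim_inl]
        exact d3_rowsum T hT (fun t => ∫ v, 1 / (v + t) ∂ρ) (by have := b'.2; omega) (ξ' j)
          (hξ'0 j)
      · simp only [Sum.elim_inr]
        have h := d3_rowsum T hT (fun _ => 1) (p := p) (n := (c : ℕ) + ε)
          (by have := c.2; omega) (ξ' j) (hξ'0 j)
        simpa only [one_mul] using h)
  have hC := d3_ga (Measure.count : Measure T) (P := Fin p) (K := Fin (r + q))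
    (fun a j => ξ' j ^ (a : ℕ)) W (fun j t => 1 / (ξ' j + (t : ℝ)))
    (fun b j => Integrable.of_finite)
  rw [hA, hB, hC, d3_count, Fintype.card_fin]
  have hD : ∀ x : Fin (r + q) → T,
      Matrix.det (Matrix.of fun (b l : Fin (r + q)) => W b (x l)) *
        d3F (fun (a : Fin p) j => ξ' j ^ (a : ℕ)) (fun j (t : T) => 1 / (ξ' j + (t : ℝ))) x =
      (s1 * s2 / r.factorial * vd (fun i => ξ' (finSumFinEquiv.symm i))) *
      ∫ v : Fin r → ℝ,
        (vd (fun i => (x i : ℝ)) ^ 2 * vd v ^ 2 * (∏ i, (x i : ℝ) ^ ε) * (∏ i, v i ^ (1 - ε)) /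
          ((∏ i, ∏ j, (ξ i + (x j : ℝ))) * (∏ i, ∏ j, ((x i : ℝ) + v j))))
        ∂(Measure.pi fun _ => ρ) := by
    intro x
    have hx0 : ∀ l, 0 < (x l : ℝ) := fun l => hT _ (x l).2
    have h1 := hIn ρ R hρ (fun l => (x l : ℝ)) hx0
    have h2 := hCV ξ' (fun l => (x l : ℝ)) (fun i j => by
      have := hξ'0 i
      have := hx0 j
      positivity)
    have h3 : (∏ j, ∏ b, (ξ' j + (x b : ℝ))) = ∏ i, ∏ j, (ξ i + (x j : ℝ)) := by
      simp only [hξ']
      exact Equiv.prod_comp e.symm (fun i => ∏ j, (ξ i + (x j : ℝ)))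
    have h4 : (∏ i, ∏ j, (ξ i + (x j : ℝ))) ≠ 0 := by
      refine Finset.prod_ne_zero_iff.mpr fun i _ => Finset.prod_ne_zero_iff.mpr fun j _ => ?_
      have := hξ i
      have := hx0 j
      positivity
    rw [h3] at h2
    have h5 := eq_div_of_mul_eq h4 h2
    have h6 : ∫ v : Fin r → ℝ,
        (vd (fun i => (x i : ℝ)) ^ 2 * vd v ^ 2 * (∏ i, (x i : ℝ) ^ ε) * (∏ i, v i ^ (1 - ε)) /
          ((∏ i, ∏ j, (ξ i + (x j : ℝ))) * (∏ i, ∏ j, ((x i : ℝ) + v j))))
        ∂(Measure.pi fun _ => ρ) =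
        (vd (fun i => (x i : ℝ)) ^ 2 * (∏ i, (x i : ℝ) ^ ε) / (∏ i, ∏ j, (ξ i + (x j : ℝ)))) *
        ∫ v : Fin r → ℝ, vd v ^ 2 * (∏ i, v i ^ (1 - ε)) / (∏ l, ∏ j, ((x l : ℝ) + v j))
        ∂(Measure.pi fun _ => ρ) := by
      rw [← integral_const_mul]
      congr 1
      ext v
      rw [div_mul_div_comm]
      congr 1
      ring
    rw [h6]
    have h7 : d3F (fun (a : Fin p) j => ξ' j ^ (a : ℕ))
        (fun j (t : T) => 1 / (ξ' j + (t : ℝ))) x = _ := h5
    have h8 : Matrix.det (Matrix.of fun (b l : Fin (r + q)) => W b (x l)) = _ := h1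
    rw [h7, h8]
    ring
  simp_rw [hD]
  rw [← Finset.mul_sum]
  have hfin : vd (fun i => ξ' (finSumFinEquiv.symm i)) =
      vd (fun i : Fin (p + (r + q)) => ξ (e.symm (finSumFinEquiv.symm i))) := rfl
  rw [hfin]
  have hf1 : ((r + q).factorial : ℝ) ≠ 0 := by exact_mod_cast Nat.factorial_ne_zero _
  have hf2 : (r.factorial : ℝ) ≠ 0 := by exact_mod_cast Nat.factorial_ne_zero _
  field_simp

end

end Pool.Agent.MP_941b23_mp
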