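import Pool.Agent.MP_941b23_mp.Defs2
import Pool.Agent.MP_941b23_mp.D3

/-!
# [D4] the Nikishin expansion, infinite version
-/

namespace Pool.Agent.MP_941b23_mp

open MeasureTheory Set Filter Topology
open scoped ENNReal NNReal Real

noncomputable section

namespace D4

/-- the integrand -/
def F4 {ι : Type} [Fintype ι] (ε : ℕ) {k r : ℕ} (ξ : ι → ℝ) (t : Fin k → ℝ) (v : Fin r → ℝ) : ℝ :=
  vd t ^ 2 * vd v ^ 2 * (∏ i, t i ^ ε) * (∏ i, v i ^ (1 - ε)) /
    ((∏ i, ∏ j, (ξ i + t j)) * (∏ i, ∏ j, (t i + v j)))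

theorem continuous_vd {m : ℕ} : Continuous (vd : (Fin m → ℝ) → ℝ) := by
  unfold vd
  refine continuous_finsetProd _ fun i _ => continuous_finsetProd _ fun j _ => ?_
  exact (continuous_apply j).sub (continuous_apply i)

theorem measurable_F4 {ι : Type} [Fintype ι] (ε : ℕ) {k r : ℕ} (ξ : ι → ℝ) (t : Fin k → ℝ) :
    Measurable (fun v : Fin r → ℝ => F4 ε ξ t v) := by
  unfold F4
  refine Measurable.div ?_ ?_
  · refine Measurable.mul (Measurable.mul (Measurable.mul measurable_const ?_) measurable_const) ?_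
    · exact (continuous_vd.measurable.pow_const 2)
    · exact Finset.measurable_prod _ fun i _ => (measurable_pi_apply i).pow_const _
  · refine Measurable.mul measurable_const ?_
    refine Finset.measurable_prod _ fun i _ => Finset.measurable_prod _ fun j _ => ?_
    exact measurable_const.add (measurable_pi_apply j)

theorem F4_nonneg {ι : Type} [Fintype ι] (ε : ℕ) {k r : ℕ} (ξ : ι → ℝ) (t : Fin k → ℝ)
    (v : Fin r → ℝ) (hξ : ∀ i, 0 < ξ i) (ht : ∀ i, 0 < t i) (hv : ∀ i, 0 ≤ v i) :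
    0 ≤ F4 ε ξ t v := by
  unfold F4
  refine div_nonneg ?_ ?_
  · refine mul_nonneg (mul_nonneg (mul_nonneg (sq_nonneg _) (sq_nonneg _)) ?_) ?_
    · exact Finset.prod_nonneg fun i _ => pow_nonneg (ht i).le _
    · exact Finset.prod_nonneg fun i _ => pow_nonneg (hv i) _
  · refine mul_nonneg ?_ ?_
    · exact Finset.prod_nonneg fun i _ => Finset.prod_nonneg fun j _ => (add_pos (hξ i) (ht j)).le
    · exact Finset.prod_nonneg fun i _ => Finset.prod_nonneg fun j _ =>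
        add_nonneg (ht i).le (hv j)

theorem F4_continuousOn {ι : Type} [Fintype ι] (ε : ℕ) {k r : ℕ} (ξ : ι → ℝ) (t : Fin k → ℝ)
    (hξ : ∀ i, 0 < ξ i) (ht : ∀ i, 0 < t i) (R : ℝ) :
    ContinuousOn (fun v : Fin r → ℝ => F4 ε ξ t v) (Set.pi univ fun _ => Icc 0 R) := by
  unfold F4
  refine ContinuousOn.div ?_ ?_ ?_
  · refine Continuous.continuousOn ?_
    refine Continuous.mul (Continuous.mul (Continuous.mul continuous_const
      (continuous_vd.pow 2)) continuous_const) ?_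
    exact continuous_finsetProd _ fun i _ => (continuous_apply i).pow _
  · refine Continuous.continuousOn ?_
    refine Continuous.mul continuous_const ?_
    refine continuous_finsetProd _ fun i _ => continuous_finsetProd _ fun j _ => ?_
    exact continuous_const.add (continuous_apply j)
  · intro v hv
    have hv' : ∀ i, 0 ≤ v i := fun i => (hv i (mem_univ i)).1
    refine ne_of_gt (mul_pos ?_ ?_)
    · exact Finset.prod_pos fun i _ => Finset.prod_pos fun j _ => add_pos (hξ i) (ht j)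
    · exact Finset.prod_pos fun i _ => Finset.prod_pos fun j _ =>
        add_pos_of_pos_of_nonneg (ht i) (hv' j)

/-- comparison of the integrands at two points -/
theorem F4_le {ι : Type} [Fintype ι] (ε : ℕ) {k r : ℕ} (ξ ξ' : ι → ℝ) (t : Fin k → ℝ)
    (v : Fin r → ℝ) (hξ : ∀ i, 0 < ξ i) (hξ' : ∀ i, 0 < ξ' i) (ht : ∀ i, 0 < t i)
    (hv : ∀ i, 0 ≤ v i) :
    F4 ε ξ t v ≤ (∏ i, (1 + ξ' i / ξ i) ^ k) * F4 ε ξ' t v := by
  have hA : 0 ≤ vd t ^ 2 * vd v ^ 2 * (∏ i, t i ^ ε) * (∏ i, v i ^ (1 - ε)) := by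
    refine mul_nonneg (mul_nonneg (mul_nonneg (sq_nonneg _) (sq_nonneg _)) ?_) ?_
    · exact Finset.prod_nonneg fun i _ => pow_nonneg (ht i).le _
    · exact Finset.prod_nonneg fun i _ => pow_nonneg (hv i) _
  have hB : 0 < ∏ i, ∏ j, (ξ i + t j) :=
    Finset.prod_pos fun i _ => Finset.prod_pos fun j _ => add_pos (hξ i) (ht j)
  have hB' : 0 < ∏ i, ∏ j, (ξ' i + t j) :=
    Finset.prod_pos fun i _ => Finset.prod_pos fun j _ => add_pos (hξ' i) (ht j)
  have hC : 0 < ∏ i, ∏ j, (t i + v j) :=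
    Finset.prod_pos fun i _ => Finset.prod_pos fun j _ => add_pos_of_pos_of_nonneg (ht i) (hv j)
  have hkey : ∏ i, ∏ j, (ξ' i + t j) ≤ (∏ i, (1 + ξ' i / ξ i) ^ k) * ∏ i, ∏ j, (ξ i + t j) := by
    rw [← Finset.prod_mul_distrib]
    refine Finset.prod_le_prod (fun i _ => Finset.prod_nonneg fun j _ =>
      (add_pos (hξ' i) (ht j)).le) fun i _ => ?_
    have : (1 + ξ' i / ξ i) ^ k * ∏ j, (ξ i + t j) = ∏ j : Fin k, ((1 + ξ' i / ξ i) * (ξ i + t j)) := by
      rw [Finset.prod_mul_distrib]; simp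
    rw [this]
    refine Finset.prod_le_prod (fun j _ => (add_pos (hξ' i) (ht j)).le) fun j _ => ?_
    have h1 : (1 + ξ' i / ξ i) * (ξ i + t j) = ξ i + t j + ξ' i + ξ' i / ξ i * t j := by
      have := (hξ i).ne'
      field_simp
      ring
    rw [h1]
    have h2 : 0 ≤ ξ' i / ξ i * t j := by
      have := hξ i; have := hξ' i; have := ht j; positivity
    linarith [hξ i]
  unfold F4
  rw [← mul_div_assoc, div_le_div_iff₀ (mul_pos hB hC) (mul_pos hB' hC)]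
  have h3 : 0 ≤ (vd t ^ 2 * vd v ^ 2 * (∏ i, t i ^ ε) * (∏ i, v i ^ (1 - ε))) *
      ∏ i, ∏ j, (t i + v j) := mul_nonneg hA hC.le
  nlinarith [mul_le_mul_of_nonneg_left hkey h3]

/-- the integral over all `v` -/
def av {ι : Type} [Fintype ι] (ε : ℕ) {k : ℕ} (r : ℕ) (ξ : ι → ℝ) (ρ : Measure ℝ)
    (t : Fin k → ℝ) : ℝ≥0∞ :=
  ∫⁻ v : Fin r → ℝ, ENNReal.ofReal (F4 ε ξ t v) ∂(Measure.pi fun _ => ρ)

theorem restrict_Ioi (ρ : Measure ℝ) (hρ : ρ (Iic 0) = 0) : ρ.restrict (Ioi 0) = ρ := by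
  refine Measure.restrict_eq_self_of_ae_mem ?_
  rw [ae_iff]
  have : {a : ℝ | a ∉ Ioi (0 : ℝ)} = Iic 0 := by ext; simp
  rw [this, hρ]

theorem av_mono {ι : Type} [Fintype ι] (ε : ℕ) {k r : ℕ} (ξ : ι → ℝ) (ρ : Measure ℝ) [SigmaFinite ρ]
    (t : Fin k → ℝ) : Monotone (fun n : ℕ => av ε r ξ (ρ.restrict (Ioc 0 (n : ℝ))) t) := by
  intro n m hnm
  simp only [av]
  rw [← Measure.restrict_pi_pi (μ := fun _ : Fin r => ρ), ← Measure.restrict_pi_pi (μ := fun _ : Fin r => ρ)]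
  refine lintegral_mono' (Measure.restrict_mono ?_ le_rfl) le_rfl
  refine Set.pi_mono fun i _ => Ioc_subset_Ioc_right ?_
  exact_mod_cast hnm

theorem av_tendsto {ι : Type} [Fintype ι] (ε : ℕ) {k r : ℕ} (ξ : ι → ℝ) (ρ : Measure ℝ)
    [SigmaFinite ρ] (hρ : ρ (Iic 0) = 0) (t : Fin k → ℝ) :
    Tendsto (fun n : ℕ => av ε r ξ (ρ.restrict (Ioc 0 (n : ℝ))) t) atTop (𝓝 (av ε r ξ ρ t)) := by
  have h1 : av ε r ξ ρ t = ⨆ n : ℕ, av ε r ξ (ρ.restrict (Ioc 0 (n : ℝ))) t := by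
    simp only [av]
    have h2 : ∀ n : ℕ, (Measure.pi fun _ : Fin r => ρ.restrict (Ioc 0 (n : ℝ))) =
        (Measure.pi fun _ : Fin r => ρ).restrict (Set.pi univ fun _ => Ioc 0 (n : ℝ)) := fun n =>
      (Measure.restrict_pi_pi (μ := fun _ : Fin r => ρ) _).symm
    simp only [h2]
    have hdir : Directed (· ⊆ ·) (fun n : ℕ => Set.pi (univ : Set (Fin r)) fun _ => Ioc 0 (n : ℝ)) := by
      refine Monotone.directed_le ?_
      intro n m hnm
      refine Set.pi_mono fun i _ => Ioc_subset_Ioc_right ?_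
      exact_mod_cast hnm
    rw [← setLIntegral_iUnion_of_directed _ hdir]
    have h3 : (⋃ n : ℕ, Set.pi (univ : Set (Fin r)) fun _ => Ioc 0 (n : ℝ)) =
        Set.pi univ fun _ => Ioi (0 : ℝ) := by
      ext v
      simp only [mem_iUnion, Set.mem_pi, mem_univ, true_implies, mem_Ioc, mem_Ioi]
      constructor
      · rintro ⟨n, hn⟩ i
        exact (hn i).1
      · intro hv
        obtain ⟨n, hn⟩ := exists_nat_ge (∑ i, v i)
        refine ⟨n, fun i => ⟨hv i, le_trans ?_ hn⟩⟩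
        exact Finset.single_le_sum (fun j _ => (hv j).le) (Finset.mem_univ i)
    rw [h3, Measure.restrict_pi_pi (μ := fun _ : Fin r => ρ), restrict_Ioi ρ hρ]
  rw [h1]
  exact tendsto_atTop_iSup (av_mono ε ξ ρ t)

theorem rho_box (ρ : Measure ℝ) (hi : Integrable (fun v => 1 / (1 + v)) ρ) (n : ℕ) :
    ρ (Ioc 0 (n : ℝ)) < ∞ := by
  have hε : (0 : ℝ) < 1 / (1 + n) := by positivity
  refine lt_of_le_of_lt (measure_mono ?_) (hi.measure_norm_ge_lt_top hε)
  intro v hv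
  have h0 : (0 : ℝ) < 1 + v := by linarith [hv.1]
  simp only [mem_ofPred_eq, Real.norm_eq_abs]
  rw [abs_of_pos (by positivity)]
  exact one_div_le_one_div_of_le h0 (by linarith [hv.2])

theorem integrable_inv (ρ : Measure ℝ) (hρ : ρ (Iic 0) = 0)
    (hi : Integrable (fun v => 1 / (1 + v)) ρ) (t : ℝ) (ht : 0 < t) :
    Integrable (fun v => 1 / (v + t)) ρ := by
  refine Integrable.mono' (hi.const_mul (1 + 1 / t)) ?_ ?_
  · exact (Measurable.div measurable_const (measurable_id.add measurable_const)).aestronglyMeasurable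
  · have : ∀ᵐ v ∂ρ, v ∈ Ioi (0 : ℝ) := by
      rw [ae_iff]
      have : {a : ℝ | a ∉ Ioi (0 : ℝ)} = Iic 0 := by ext; simp
      rw [this, hρ]
    filter_upwards [this] with v hv
    have hv0 : 0 < v := hv
    rw [Real.norm_eq_abs, abs_of_pos (by positivity)]
    rw [mul_one_div, div_le_div_iff₀ (by positivity) (by positivity)]
    have h1 : (1 + 1 / t) * (v + t) = v + t + v / t + 1 := by
      field_simp
      ring
    rw [h1]
    have : 0 ≤ v / t := by positivity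
    linarith

theorem coef_tendsto (ρ : Measure ℝ) (hρ : ρ (Iic 0) = 0)
    (hi : Integrable (fun v => 1 / (1 + v)) ρ) (t : ℝ) (ht : 0 < t) :
    Tendsto (fun n : ℕ => ∫ v, 1 / (v + t) ∂(ρ.restrict (Ioc 0 (n : ℝ)))) atTop
      (𝓝 (∫ v, 1 / (v + t) ∂ρ)) := by
  have hU : (⋃ n : ℕ, Ioc (0 : ℝ) (n : ℝ)) = Ioi 0 := by
    ext v
    simp only [mem_iUnion, mem_Ioc, mem_Ioi]
    constructor
    · rintro ⟨n, hn⟩
      exact hn.1
    · intro hv
      obtain ⟨n, hn⟩ := exists_nat_ge v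
      exact ⟨n, hv, hn⟩
  have h := tendsto_setIntegral_of_monotone (μ := ρ) (f := fun v => 1 / (v + t))
    (s := fun n : ℕ => Ioc (0 : ℝ) (n : ℝ)) (fun n => measurableSet_Ioc) ?_ ?_
  · rw [hU, restrict_Ioi ρ hρ] at h
    exact h
  · intro n m hnm
    refine Ioc_subset_Ioc_right ?_
    exact_mod_cast hnm
  · exact (integrable_inv ρ hρ hi t ht).integrableOn

theorem coef_nonneg (ρ : Measure ℝ) (hρ : ρ (Iic 0) = 0) (t : ℝ) (ht : 0 < t) :
    0 ≤ ∫ v, 1 / (v + t) ∂ρ := by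
  refine integral_nonneg_of_ae ?_
  have : ∀ᵐ v ∂ρ, v ∈ Ioi (0 : ℝ) := by
    rw [ae_iff]
    have : {a : ℝ | a ∉ Ioi (0 : ℝ)} = Iic 0 := by ext; simp
    rw [this, hρ]
  filter_upwards [this] with v hv
  have hv0 : 0 < v := hv
  simp only [Pi.zero_apply]
  positivity

theorem coef_le (ρ : Measure ℝ) (hρ : ρ (Iic 0) = 0)
    (hi : Integrable (fun v => 1 / (1 + v)) ρ) (t : ℝ) (ht : 0 < t) (n : ℕ) :
    ∫ v, 1 / (v + t) ∂(ρ.restrict (Ioc 0 (n : ℝ))) ≤ ∫ v, 1 / (v + t) ∂ρ := by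
  refine setIntegral_le_integral (integrable_inv ρ hρ hi t ht) ?_
  have : ∀ᵐ v ∂ρ, v ∈ Ioi (0 : ℝ) := by
    rw [ae_iff]
    have : {a : ℝ | a ∉ Ioi (0 : ℝ)} = Iic 0 := by ext; simp
    rw [this, hρ]
  filter_upwards [this] with v hv
  have hv0 : 0 < v := hv
  simp only [Pi.zero_apply]
  positivity

/-- the finite sums -/
def SS {ι : Type} [Fintype ι] (ε : ℕ) (k r : ℕ) (ξ : ι → ℝ) (ρ : Measure ℝ) (Z : Set ℝ)
    (T : Finset Z) (n : ℕ) : ℝ≥0∞ :=
  ∑ t ∈ Fintype.piFinset (fun _ : Fin k => T),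
    av ε r ξ (ρ.restrict (Ioc 0 (n : ℝ))) (fun i => (t i : ℝ))

theorem SS_mono {ι : Type} [Fintype ι] (ε : ℕ) (k r : ℕ) (ξ : ι → ℝ) (ρ : Measure ℝ)
    [SigmaFinite ρ] (Z : Set ℝ) :
    Monotone (fun q : Finset Z × ℕ => SS ε k r ξ ρ Z q.1 q.2) := by
  rintro ⟨T, n⟩ ⟨T', n'⟩ ⟨hT, hn⟩
  simp only [SS]
  refine le_trans (Finset.sum_le_sum fun t _ => av_mono ε ξ ρ _ hn) ?_
  refine Finset.sum_le_sum_of_subset ?_
  intro t ht
  rw [Fintype.mem_piFinset] at ht ⊢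
  exact fun i => hT (ht i)

/-- a finite integral for finite measures on bounded sets -/
theorem av_box {ι : Type} [Fintype ι] (ε : ℕ) {k : ℕ} (r : ℕ) (ξ : ι → ℝ) (hξ : ∀ i, 0 < ξ i)
    (ρ : Measure ℝ) [SigmaFinite ρ] (n : ℕ) (hfin : ρ (Ioc 0 (n : ℝ)) < ∞) (t : Fin k → ℝ)
    (ht : ∀ i, 0 < t i) :
    ENNReal.ofReal (∫ v : Fin r → ℝ, F4 ε ξ t v ∂(Measure.pi fun _ => ρ.restrict (Ioc 0 (n : ℝ)))) =
      av ε r ξ (ρ.restrict (Ioc 0 (n : ℝ))) t := by
  have : IsFiniteMeasure (ρ.restrict (Ioc 0 (n : ℝ))) := ⟨by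
    rw [Measure.restrict_apply MeasurableSet.univ, univ_inter]; exact hfin⟩
  have hae : ∀ᵐ v ∂(Measure.pi fun _ : Fin r => ρ.restrict (Ioc 0 (n : ℝ))),
      v ∈ Set.pi univ fun _ : Fin r => Ioc 0 (n : ℝ) := by
    rw [← Measure.restrict_pi_pi (μ := fun _ : Fin r => ρ)]
    exact ae_restrict_mem (MeasurableSet.univ_pi fun _ => measurableSet_Ioc)
  have hint : Integrable (fun v => F4 ε ξ t v)
      (Measure.pi fun _ : Fin r => ρ.restrict (Ioc 0 (n : ℝ))) := by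
    have h1 : IntegrableOn (fun v => F4 ε ξ t v) (Set.pi univ fun _ : Fin r => Icc 0 (n : ℝ))
        (Measure.pi fun _ : Fin r => ρ.restrict (Ioc 0 (n : ℝ))) :=
      (F4_continuousOn ε ξ t hξ ht n).integrableOn_compact
        (isCompact_univ_pi fun _ => isCompact_Icc)
    rw [IntegrableOn, Measure.restrict_eq_self_of_ae_mem] at h1
    · exact h1
    · filter_upwards [hae] with v hv
      exact fun i hi => Ioc_subset_Icc_self (hv i hi)
  rw [av, ofReal_integral_eq_lintegral_ofReal hint]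
  filter_upwards [hae] with v hv
  exact F4_nonneg ε ξ t v hξ ht fun i => (hv i (mem_univ i)).1.le

/-- the exchange of the limit and the sum -/
theorem tsum_av {ι : Type} [Fintype ι] (ε : ℕ) (k r : ℕ) (ξ : ι → ℝ) (ρ : Measure ℝ)
    [SigmaFinite ρ] (hρ : ρ (Iic 0) = 0) (Z : Set ℝ) (L : ℝ)
    (hfin : ∀ q : Finset Z × ℕ, SS ε k r ξ ρ Z q.1 q.2 ≠ ∞)
    (hL : Tendsto (fun q : Finset Z × ℕ => (SS ε k r ξ ρ Z q.1 q.2).toReal) atTop (𝓝 L)) :
    ENNReal.ofReal L = ∑' t : Fin k → Z, av ε r ξ ρ (fun i => (t i : ℝ)) := by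
  have hmono : Monotone (fun q : Finset Z × ℕ => (SS ε k r ξ ρ Z q.1 q.2).toReal) := by
    intro q q' h
    exact ENNReal.toReal_mono (hfin q') (SS_mono ε k r ξ ρ Z h)
  have hle : ∀ q : Finset Z × ℕ, SS ε k r ξ ρ Z q.1 q.2 ≤ ENNReal.ofReal L := by
    intro q
    rw [← ENNReal.ofReal_toReal (hfin q)]
    exact ENNReal.ofReal_le_ofReal (hmono.ge_of_tendsto hL q)
  refine le_antisymm ?_ ?_
  · have h1 : Tendsto (fun q : Finset Z × ℕ => SS ε k r ξ ρ Z q.1 q.2) atTop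
        (𝓝 (ENNReal.ofReal L)) := by
      have := ENNReal.tendsto_ofReal hL
      refine this.congr fun q => ENNReal.ofReal_toReal (hfin q)
    refine le_of_tendsto' h1 fun q => ?_
    rw [SS]
    refine le_trans (Finset.sum_le_sum fun t _ => ?_) (ENNReal.sum_le_tsum _)
    exact (av_mono ε ξ ρ _).ge_of_tendsto (av_tendsto ε ξ ρ hρ _) _
  · rw [ENNReal.tsum_eq_iSup_sum]
    refine iSup_le fun s => ?_
    have h1 : Tendsto (fun n : ℕ => ∑ t ∈ s, av ε r ξ (ρ.restrict (Ioc 0 (n : ℝ)))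
        (fun i => (t i : ℝ))) atTop (𝓝 (∑ t ∈ s, av ε r ξ ρ (fun i => (t i : ℝ)))) :=
      tendsto_finsetSum _ fun t _ => av_tendsto ε ξ ρ hρ _
    refine le_of_tendsto' h1 fun n => ?_
    classical
    let T : Finset Z := s.biUnion fun t => Finset.univ.image t
    refine le_trans ?_ (hle (T, n))
    rw [SS]
    refine Finset.sum_le_sum_of_subset ?_
    intro t ht
    rw [Fintype.mem_piFinset]
    intro i
    simp only [T, Finset.mem_biUnion, Finset.mem_image, Finset.mem_univ, true_and]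
    exact ⟨t, ht, i, rfl⟩

theorem sum_conv {k : ℕ} (Z : Set ℝ) (T : Finset Z) (f : (Fin k → ℝ) → ℝ) :
    ∑ t : Fin k → (T.map ⟨Subtype.val, Subtype.val_injective⟩ : Finset ℝ), f (fun i => (t i : ℝ)) =
      ∑ t ∈ Fintype.piFinset (fun _ : Fin k => T), f (fun i => ((t i : Z) : ℝ)) := by
  have hmem : ∀ x : (T.map ⟨Subtype.val, Subtype.val_injective⟩ : Finset ℝ),
      ∃ z : Z, z ∈ T ∧ (z : ℝ) = x := by
    rintro ⟨x, hx⟩
    rw [Finset.mem_map] at hx
    obtain ⟨z, hz, h⟩ := hx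
    exact ⟨z, hz, h⟩
  choose g hg1 hg2 using hmem
  refine Finset.sum_bij (fun t _ => fun i => g (t i)) ?_ ?_ ?_ ?_
  · intro t _
    rw [Fintype.mem_piFinset]
    exact fun i => hg1 _
  · intro t _ t' _ h
    funext i
    have := congrFun h i
    apply Subtype.ext
    have h2 : g (t i) = g (t' i) := this
    rw [← hg2, ← hg2, h2]
  · intro t ht
    rw [Fintype.mem_piFinset] at ht
    refine ⟨fun i => ⟨(t i : ℝ), Finset.mem_map.2 ⟨t i, ht i, rfl⟩⟩, Finset.mem_univ _, ?_⟩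
    funext i
    apply Subtype.ext
    rw [hg2]
  · intro t _
    congr 1
    funext i
    rw [hg2]

theorem SS_eq {ι : Type} [Fintype ι] (ε : ℕ) (k r : ℕ) (ξ : ι → ℝ) (hξ : ∀ i, 0 < ξ i)
    (ρ : Measure ℝ) [SigmaFinite ρ] (Z : Set ℝ) (hZ : ∀ t ∈ Z, 0 < t) (T : Finset Z) (n : ℕ)
    (hfin : ρ (Ioc 0 (n : ℝ)) < ∞) :
    SS ε k r ξ ρ Z T n = ENNReal.ofReal
      (∑ t : Fin k → (T.map ⟨Subtype.val, Subtype.val_injective⟩ : Finset ℝ),
        ∫ v : Fin r → ℝ, F4 ε ξ (fun i => (t i : ℝ)) v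
          ∂(Measure.pi fun _ => ρ.restrict (Ioc 0 (n : ℝ)))) := by
  rw [sum_conv Z T (fun t => ∫ v : Fin r → ℝ, F4 ε ξ t v
          ∂(Measure.pi fun _ => ρ.restrict (Ioc 0 (n : ℝ))))]
  rw [ENNReal.ofReal_sum_of_nonneg]
  · rw [SS]
    refine Finset.sum_congr rfl fun t _ => ?_
    rw [av_box ε r ξ hξ ρ n hfin _ fun i => hZ _ (t i).2]
  · intro t _
    refine integral_nonneg_of_ae ?_
    have hae : ∀ᵐ v ∂(Measure.pi fun _ : Fin r => ρ.restrict (Ioc 0 (n : ℝ))),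
        v ∈ Set.pi univ fun _ : Fin r => Ioc 0 (n : ℝ) := by
      rw [← Measure.restrict_pi_pi (μ := fun _ : Fin r => ρ)]
      exact ae_restrict_mem (MeasurableSet.univ_pi fun _ => measurableSet_Ioc)
    filter_upwards [hae] with v hv
    exact F4_nonneg ε ξ _ v hξ (fun i => hZ _ (t i).2) fun i => (hv i (mem_univ i)).1.le

theorem one_div_le (x t : ℝ) (hx : 0 < x) (ht : 0 < t) :
    1 / (x + t) ≤ (1 + 1 / x) * (1 / (1 + t)) := by
  rw [mul_one_div, div_le_div_iff₀ (by positivity) (by positivity)]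
  have h1 : (1 + 1 / x) * (x + t) = x + t + 1 + t / x := by
    field_simp
    ring
  rw [h1]
  have : 0 ≤ t / x := by positivity
  linarith

theorem G1_tendsto (Z : Set ℝ) (hZ : ∀ t ∈ Z, 0 < t)
    (hs : Summable fun t : Z => 1 / (1 + (t : ℝ))) (x : ℝ) (hx : 0 < x) :
    Tendsto (fun q : Finset Z × ℕ =>
      ∑ t ∈ q.1.map ⟨Subtype.val, Subtype.val_injective⟩, 1 / (x + t)) atTop
      (𝓝 (∑' t : Z, 1 / (x + (t : ℝ)))) := by
  have h1 : Summable fun t : Z => 1 / (x + (t : ℝ)) := by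
    refine Summable.of_nonneg_of_le (fun t => ?_) (fun t => one_div_le x t hx (hZ _ t.2))
      (hs.mul_left (1 + 1 / x))
    have := hZ _ t.2
    positivity
  have h2 := h1.hasSum
  have h3 : Tendsto (fun q : Finset Z × ℕ => q.1) atTop atTop := by
    rw [← prod_atTop_atTop_eq]; exact tendsto_fst
  have h4 := h2.comp h3
  refine h4.congr fun q => ?_
  simp [Finset.sum_map]

theorem G2_tendsto (Z : Set ℝ) (hZ : ∀ t ∈ Z, 0 < t) (ρ : Measure ℝ) (hρ : ρ (Iic 0) = 0)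
    (hi : Integrable (fun v => 1 / (1 + v)) ρ)
    (hs : Summable fun t : Z => (∫ v, 1 / (v + (t : ℝ)) ∂ρ) / (1 + (t : ℝ)))
    (x : ℝ) (hx : 0 < x) :
    Tendsto (fun q : Finset Z × ℕ =>
      ∑ t ∈ q.1.map ⟨Subtype.val, Subtype.val_injective⟩,
        (∫ v, 1 / (v + t) ∂(ρ.restrict (Ioc 0 (q.2 : ℝ)))) / (x + t)) atTop
      (𝓝 (∑' t : Z, (∫ v, 1 / (v + (t : ℝ)) ∂ρ) / (x + (t : ℝ)))) := by
  classical
  have h1 : Summable fun t : Z => (∫ v, 1 / (v + (t : ℝ)) ∂ρ) / (x + (t : ℝ)) := by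
    refine Summable.of_nonneg_of_le (fun t => ?_) (fun t => ?_) (hs.mul_left (1 + 1 / x))
    · have := hZ _ t.2
      exact div_nonneg (coef_nonneg ρ hρ t this) (by positivity)
    · have h := mul_le_mul_of_nonneg_left (one_div_le x t hx (hZ _ t.2))
        (coef_nonneg ρ hρ t (hZ _ t.2))
      calc _ = (∫ v, 1 / (v + (t : ℝ)) ∂ρ) * (1 / (x + (t : ℝ))) := by rw [mul_one_div]
        _ ≤ _ := h
        _ = _ := by ring
  have hfst : Tendsto (fun q : Finset Z × ℕ => q.1) atTop atTop := by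
    rw [← prod_atTop_atTop_eq]; exact tendsto_fst
  have hsnd : Tendsto (fun q : Finset Z × ℕ => q.2) atTop atTop := by
    rw [← prod_atTop_atTop_eq]; exact tendsto_snd
  have h2 := tendsto_tsum_of_dominated_convergence
    (f := fun (q : Finset Z × ℕ) (t : Z) => if t ∈ q.1 then
      (∫ v, 1 / (v + (t : ℝ)) ∂(ρ.restrict (Ioc 0 (q.2 : ℝ)))) / (x + (t : ℝ)) else 0)
    (g := fun t : Z => (∫ v, 1 / (v + (t : ℝ)) ∂ρ) / (x + (t : ℝ))) (𝓕 := atTop) h1 ?_ ?_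
  · refine h2.congr fun q => ?_
    rw [tsum_eq_sum (s := q.1)]
    · rw [Finset.sum_map]
      refine Finset.sum_congr rfl fun t ht => ?_
      simp [ht]
    · intro t ht
      simp [ht]
  · intro t
    have h3 : ∀ᶠ q : Finset Z × ℕ in atTop, t ∈ q.1 := by
      have : ∀ᶠ T : Finset Z in atTop, t ∈ T := by
        filter_upwards [eventually_ge_atTop ({t} : Finset Z)] with T hT
        exact hT (Finset.mem_singleton_self t)
      exact hfst.eventually this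
    have h4 : Tendsto (fun q : Finset Z × ℕ =>
        (∫ v, 1 / (v + (t : ℝ)) ∂(ρ.restrict (Ioc 0 (q.2 : ℝ)))) / (x + (t : ℝ))) atTop
        (𝓝 ((∫ v, 1 / (v + (t : ℝ)) ∂ρ) / (x + (t : ℝ)))) :=
      ((coef_tendsto ρ hρ hi t (hZ _ t.2)).comp hsnd).div_const _
    refine h4.congr' ?_
    filter_upwards [h3] with q hq
    simp [hq]
  · refine Eventually.of_forall fun q t => ?_
    have ht := hZ _ t.2
    have h0 : 0 ≤ (∫ v, 1 / (v + (t : ℝ)) ∂ρ) / (x + (t : ℝ)) :=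
      div_nonneg (coef_nonneg ρ hρ t ht) (by positivity)
    split_ifs
    · have hres : (ρ.restrict (Ioc 0 (q.2 : ℝ))) (Iic 0) = 0 := by
        refine le_antisymm ?_ bot_le
        rw [← hρ]
        exact Measure.restrict_apply_le _ _
      rw [Real.norm_eq_abs, abs_of_nonneg (div_nonneg (coef_nonneg _ hres t ht) (by positivity))]
      exact div_le_div_of_nonneg_right (coef_le ρ hρ hi t ht q.2) (by positivity)
    · simpa using h0

theorem entry_tendsto (ε p r q : ℕ) (Z : Set ℝ) (hZ : ∀ t ∈ Z, 0 < t)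
    (hs1 : Summable fun t : Z => 1 / (1 + (t : ℝ))) (ρ : Measure ℝ) (hρ : ρ (Iic 0) = 0)
    (hi : Integrable (fun v => 1 / (1 + v)) ρ)
    (hs : Summable fun t : Z => (∫ v, 1 / (v + (t : ℝ)) ∂ρ) / (1 + (t : ℝ)))
    (ξ : Fin p ⊕ (Fin r ⊕ Fin q) → ℝ) (hξ : ∀ i, 0 < ξ i) :
    Tendsto (fun w : Finset Z × ℕ => Matrix.det (Matrix.of fun i j => nikRow ε p r q
      (fun x => ∑ t ∈ w.1.map ⟨Subtype.val, Subtype.val_injective⟩, 1 / (x + t))
      (fun x => ∑ t ∈ w.1.map ⟨Subtype.val, Subtype.val_injective⟩,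
        (∫ v, 1 / (v + t) ∂(ρ.restrict (Ioc 0 (w.2 : ℝ)))) / (x + t)) i (ξ j))) atTop
      (𝓝 (Matrix.det (Matrix.of fun i j => nikRow ε p r q
      (fun x => ∑' t : Z, 1 / (x + (t : ℝ)))
      (fun x => ∑' t : Z, (∫ v, 1 / (v + (t : ℝ)) ∂ρ) / (x + (t : ℝ))) i (ξ j)))) := by
  have hM : Tendsto (fun w : Finset Z × ℕ => (Matrix.of fun i j => nikRow ε p r q
      (fun x => ∑ t ∈ w.1.map ⟨Subtype.val, Subtype.val_injective⟩, 1 / (x + t))
      (fun x => ∑ t ∈ w.1.map ⟨Subtype.val, Subtype.val_injective⟩,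
        (∫ v, 1 / (v + t) ∂(ρ.restrict (Ioc 0 (w.2 : ℝ)))) / (x + t)) i (ξ j))) atTop
      (𝓝 (Matrix.of fun i j => nikRow ε p r q
      (fun x => ∑' t : Z, 1 / (x + (t : ℝ)))
      (fun x => ∑' t : Z, (∫ v, 1 / (v + (t : ℝ)) ∂ρ) / (x + (t : ℝ))) i (ξ j))) := by
    refine tendsto_pi_nhds.2 fun i => tendsto_pi_nhds.2 fun j => ?_
    rcases i with a | b | c
    · simp only [Matrix.of_apply, nikRow, Sum.elim_inl]
      exact tendsto_const_nhds
    · simp only [Matrix.of_apply, nikRow, Sum.elim_inl, Sum.elim_inr]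
      exact (G2_tendsto Z hZ ρ hρ hi hs (ξ j) (hξ j)).const_mul _
    · simp only [Matrix.of_apply, nikRow, Sum.elim_inr]
      exact (G1_tendsto Z hZ hs1 (ξ j) (hξ j)).const_mul _
  exact ((continuous_id.matrix_det).tendsto _).comp hM

/-- the index -/
abbrev ix (p r q : ℕ) (i : Fin p ⊕ (Fin r ⊕ Fin q)) : Fin (p + (r + q)) :=
  finSumFinEquiv ((Equiv.sumCongr (Equiv.refl _) finSumFinEquiv) i)

theorem vd_index (p r q : ℕ) :
    vd (fun i : Fin (p + (r + q)) => (1 + (ix p r q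
      ((Equiv.sumCongr (Equiv.refl _) finSumFinEquiv).symm (finSumFinEquiv.symm i)) : ℕ) : ℝ)) ≠ 0 := by
  unfold vd
  rw [Finset.prod_ne_zero_iff]
  intro i _
  rw [Finset.prod_ne_zero_iff]
  intro j hj
  rw [Finset.mem_Ioi] at hj
  simp only [ix, Equiv.apply_symm_apply]
  have : ((i : ℕ) : ℝ) < ((j : ℕ) : ℝ) := by exact_mod_cast hj
  intro h
  linarith

theorem nikishin (ε p r q : ℕ) (hs : NikSize ε p r q) : ∃ s : ℝ, (s = 1 ∨ s = -1) ∧
    ∀ (Z : Set ℝ) (_ : ∀ t ∈ Z, 0 < t) (_ : Summable fun t : Z => 1 / (1 + (t : ℝ)))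
      (ρ : Measure ℝ) [SigmaFinite ρ] (_ : ρ (Iic 0) = 0)
      (_ : Integrable (fun v => 1 / (1 + v)) ρ)
      (_ : Summable fun t : Z => (∫ v, 1 / (v + (t : ℝ)) ∂ρ) / (1 + (t : ℝ)))
      (ξ : Fin p ⊕ (Fin r ⊕ Fin q) → ℝ) (_ : ∀ i, 0 < ξ i),
    ∃ S : ℝ, 0 ≤ S ∧
    Matrix.det (Matrix.of fun i j => nikRow ε p r q
      (fun x => ∑' t : Z, 1 / (x + (t : ℝ)))
      (fun x => ∑' t : Z, (∫ v, 1 / (v + (t : ℝ)) ∂ρ) / (x + (t : ℝ))) i (ξ j)) =
    s / ((r + q).factorial * r.factorial) *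
      vd (fun i : Fin (p + (r + q)) => ξ ((Equiv.sumCongr (Equiv.refl _) finSumFinEquiv).symm
        (finSumFinEquiv.symm i))) * S ∧
    ENNReal.ofReal S = ∑' t : Fin (r + q) → Z, ∫⁻ v : Fin r → ℝ,
        ENNReal.ofReal (vd (fun i => (t i : ℝ)) ^ 2 * vd v ^ 2 * (∏ i, (t i : ℝ) ^ ε) *
          (∏ i, v i ^ (1 - ε)) /
          ((∏ i, ∏ j, (ξ i + (t j : ℝ))) * (∏ i, ∏ j, ((t i : ℝ) + v j))))
        ∂(Measure.pi fun _ => ρ) := by
  obtain ⟨s, hs1, hfinite⟩ := nikishin_finite ε p r q hs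
  refine ⟨s, hs1, fun Z hZ hsum ρ _ hρ hi hsum2 ξ hξ => ?_⟩
  have hs0 : s ≠ 0 := by rcases hs1 with h | h <;> rw [h] <;> norm_num
  have hc0 : s / (((r + q).factorial : ℝ) * (r.factorial : ℝ)) ≠ 0 := by
    refine div_ne_zero hs0 (mul_ne_zero ?_ ?_) <;> exact_mod_cast Nat.factorial_ne_zero _
  have hbox := fun n : ℕ => rho_box ρ hi n
  -- finite version
  have key : ∀ ζ : Fin p ⊕ (Fin r ⊕ Fin q) → ℝ, (∀ i, 0 < ζ i) → ∀ w : Finset Z × ℕ,
      SS ε (r + q) r ζ ρ Z w.1 w.2 ≠ ∞ ∧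
      Matrix.det (Matrix.of fun i j => nikRow ε p r q
      (fun x => ∑ t ∈ w.1.map ⟨Subtype.val, Subtype.val_injective⟩, 1 / (x + t))
      (fun x => ∑ t ∈ w.1.map ⟨Subtype.val, Subtype.val_injective⟩,
        (∫ v, 1 / (v + t) ∂(ρ.restrict (Ioc 0 (w.2 : ℝ)))) / (x + t)) i (ζ j)) =
      s / ((r + q).factorial * r.factorial) *
      vd (fun i : Fin (p + (r + q)) => ζ ((Equiv.sumCongr (Equiv.refl _) finSumFinEquiv).symm
        (finSumFinEquiv.symm i))) * (SS ε (r + q) r ζ ρ Z w.1 w.2).toReal := by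
    intro ζ hζ w
    have hfm : IsFiniteMeasure (ρ.restrict (Ioc 0 (w.2 : ℝ))) := ⟨by
      rw [Measure.restrict_apply MeasurableSet.univ, univ_inter]; exact hbox _⟩
    have h1 := hfinite (w.1.map ⟨Subtype.val, Subtype.val_injective⟩) (by
      intro t ht
      rw [Finset.mem_map] at ht
      obtain ⟨z, _, rfl⟩ := ht
      exact hZ _ z.2) (ρ.restrict (Ioc 0 (w.2 : ℝ))) (w.2 : ℝ) (by
      rw [Measure.restrict_apply measurableSet_Ioc.compl, compl_inter_self]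
      exact measure_empty) ζ hζ
    have h2 := SS_eq ε (r + q) r ζ hζ ρ Z hZ w.1 w.2 (hbox _)
    refine ⟨by rw [h2]; exact ENNReal.ofReal_ne_top, ?_⟩
    rw [h1, h2, ENNReal.toReal_ofReal]
    · rfl
    · refine Finset.sum_nonneg fun t _ => ?_
      refine integral_nonneg_of_ae ?_
      have hae : ∀ᵐ v ∂(Measure.pi fun _ : Fin r => ρ.restrict (Ioc 0 (w.2 : ℝ))),
          v ∈ Set.pi univ fun _ : Fin r => Ioc 0 (w.2 : ℝ) := by
        rw [← Measure.restrict_pi_pi (μ := fun _ : Fin r => ρ)]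
        exact ae_restrict_mem (MeasurableSet.univ_pi fun _ => measurableSet_Ioc)
      have ht : ∀ i, 0 < ((t i : ℝ)) := by
        intro i
        have := (t i).2
        rw [Finset.mem_map] at this
        obtain ⟨z, _, hz⟩ := this
        rw [← hz]
        exact hZ _ z.2
      filter_upwards [hae] with v hv
      exact F4_nonneg ε ζ _ v hζ ht fun i => (hv i (mem_univ i)).1.le
  -- limit
  have lim := fun (ζ : Fin p ⊕ (Fin r ⊕ Fin q) → ℝ) (hζ : ∀ i, 0 < ζ i) =>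
    entry_tendsto ε p r q Z hZ hsum ρ hρ hi hsum2 ζ hζ
  -- the case of distinct points
  have hmain : ∀ ζ : Fin p ⊕ (Fin r ⊕ Fin q) → ℝ, (∀ i, 0 < ζ i) →
      vd (fun i : Fin (p + (r + q)) => ζ ((Equiv.sumCongr (Equiv.refl _) finSumFinEquiv).symm
        (finSumFinEquiv.symm i))) ≠ 0 →
      ∃ S : ℝ, 0 ≤ S ∧
      Matrix.det (Matrix.of fun i j => nikRow ε p r q
      (fun x => ∑' t : Z, 1 / (x + (t : ℝ)))
      (fun x => ∑' t : Z, (∫ v, 1 / (v + (t : ℝ)) ∂ρ) / (x + (t : ℝ))) i (ζ j)) =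
      s / ((r + q).factorial * r.factorial) *
      vd (fun i : Fin (p + (r + q)) => ζ ((Equiv.sumCongr (Equiv.refl _) finSumFinEquiv).symm
        (finSumFinEquiv.symm i))) * S ∧
      ENNReal.ofReal S = ∑' t : Fin (r + q) → Z, av ε r ζ ρ (fun i => (t i : ℝ)) := by
    intro ζ hζ hne
    have hc : s / (((r + q).factorial : ℝ) * (r.factorial : ℝ)) *
      vd (fun i : Fin (p + (r + q)) => ζ ((Equiv.sumCongr (Equiv.refl _) finSumFinEquiv).symm
        (finSumFinEquiv.symm i))) ≠ 0 := mul_ne_zero hc0 hne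
    set c := s / (((r + q).factorial : ℝ) * (r.factorial : ℝ)) *
      vd (fun i : Fin (p + (r + q)) => ζ ((Equiv.sumCongr (Equiv.refl _) finSumFinEquiv).symm
        (finSumFinEquiv.symm i))) with hcdef
    have hL := (lim ζ hζ).div_const c
    have hL2 : Tendsto (fun w : Finset Z × ℕ => (SS ε (r + q) r ζ ρ Z w.1 w.2).toReal) atTop
        (𝓝 (Matrix.det (Matrix.of fun i j => nikRow ε p r q
      (fun x => ∑' t : Z, 1 / (x + (t : ℝ)))
      (fun x => ∑' t : Z, (∫ v, 1 / (v + (t : ℝ)) ∂ρ) / (x + (t : ℝ))) i (ζ j)) / c)) := by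
      refine hL.congr fun w => ?_
      rw [(key ζ hζ w).2, ← hcdef]
      exact mul_div_cancel_left₀ _ hc
    refine ⟨_, ge_of_tendsto' hL2 fun w => ENNReal.toReal_nonneg, ?_,
      tsum_av ε (r + q) r ζ ρ hρ Z _ (fun w => (key ζ hζ w).1) hL2⟩
    rw [eq_comm, mul_comm]
    exact div_mul_cancel₀ _ hc
  by_cases hne : vd (fun i : Fin (p + (r + q)) => ξ ((Equiv.sumCongr (Equiv.refl _)
      finSumFinEquiv).symm (finSumFinEquiv.symm i))) = 0
  · -- coinciding points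
    let ξ' : Fin p ⊕ (Fin r ⊕ Fin q) → ℝ := fun i => 1 + (ix p r q i : ℕ)
    have hξ' : ∀ i, 0 < ξ' i := fun i => by
      simp only [ξ']; positivity
    obtain ⟨S', hS', -, hS2⟩ := hmain ξ' hξ' (vd_index p r q)
    have hdet : Matrix.det (Matrix.of fun i j => nikRow ε p r q
      (fun x => ∑' t : Z, 1 / (x + (t : ℝ)))
      (fun x => ∑' t : Z, (∫ v, 1 / (v + (t : ℝ)) ∂ρ) / (x + (t : ℝ))) i (ξ j)) = 0 := by
      have h1 := lim ξ hξ
      have h2 : Tendsto (fun w : Finset Z × ℕ => (0 : ℝ)) atTop (𝓝 (Matrix.det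
        (Matrix.of fun i j => nikRow ε p r q
        (fun x => ∑' t : Z, 1 / (x + (t : ℝ)))
        (fun x => ∑' t : Z, (∫ v, 1 / (v + (t : ℝ)) ∂ρ) / (x + (t : ℝ))) i (ξ j)))) := by
        refine h1.congr fun w => ?_
        rw [(key ξ hξ w).2, hne]
        ring
      exact tendsto_nhds_unique h2 tendsto_const_nhds
    have hlt : ∑' t : Fin (r + q) → Z, av ε r ξ ρ (fun i => (t i : ℝ)) ≠ ∞ := by
      set C := ∏ i, (1 + ξ' i / ξ i) ^ (r + q) with hC
      have hC0 : 0 ≤ C := Finset.prod_nonneg fun i _ => pow_nonneg (by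
        have := hξ i; have := hξ' i; positivity) _
      have hle : ∀ t : Fin (r + q) → Z, av ε r ξ ρ (fun i => (t i : ℝ)) ≤
          ENNReal.ofReal C * av ε r ξ' ρ (fun i => (t i : ℝ)) := by
        intro t
        rw [av, av, ← lintegral_const_mul' _ _ ENNReal.ofReal_ne_top]
        have hae : ∀ᵐ v ∂(Measure.pi fun _ : Fin r => ρ), v ∈ Set.pi univ fun _ : Fin r => Ioi (0 : ℝ) := by
          have h0 : (Measure.pi fun _ : Fin r => ρ) =
              (Measure.pi fun _ : Fin r => ρ).restrict (Set.pi univ fun _ : Fin r => Ioi (0 : ℝ)) := by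
            rw [Measure.restrict_pi_pi (μ := fun _ : Fin r => ρ), restrict_Ioi ρ hρ]
          rw [h0]
          exact ae_restrict_mem (MeasurableSet.univ_pi fun _ => measurableSet_Ioi)
        refine lintegral_mono_ae ?_
        filter_upwards [hae] with v hv
        rw [← ENNReal.ofReal_mul hC0]
        refine ENNReal.ofReal_le_ofReal ?_
        exact F4_le ε ξ ξ' _ v hξ hξ' (fun i => hZ _ (t i).2) fun i => (hv i (mem_univ i)).le
      refine ne_top_of_le_ne_top ?_ (ENNReal.tsum_le_tsum hle)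
      rw [ENNReal.tsum_mul_left, ← hS2]
      exact ENNReal.mul_ne_top ENNReal.ofReal_ne_top ENNReal.ofReal_ne_top
    refine ⟨(∑' t : Fin (r + q) → Z, av ε r ξ ρ (fun i => (t i : ℝ))).toReal,
      ENNReal.toReal_nonneg, ?_, ?_⟩
    · rw [hdet, hne]; ring
    · rw [ENNReal.ofReal_toReal hlt]; rfl
  · exact hmain ξ hξ hne

end D4

theorem nikishin (ε p r q : ℕ) (hs : NikSize ε p r q) : ∃ s : ℝ, (s = 1 ∨ s = -1) ∧
    ∀ (Z : Set ℝ) (_ : ∀ t ∈ Z, 0 < t) (_ : Summable fun t : Z => 1 / (1 + (t : ℝ)))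
      (ρ : Measure ℝ) [SigmaFinite ρ] (_ : ρ (Iic 0) = 0)
      (_ : Integrable (fun v => 1 / (1 + v)) ρ)
      (_ : Summable fun t : Z => (∫ v, 1 / (v + (t : ℝ)) ∂ρ) / (1 + (t : ℝ)))
      (ξ : Fin p ⊕ (Fin r ⊕ Fin q) → ℝ) (_ : ∀ i, 0 < ξ i),
    ∃ S : ℝ, 0 ≤ S ∧
    Matrix.det (Matrix.of fun i j => nikRow ε p r q
      (fun x => ∑' t : Z, 1 / (x + (t : ℝ)))
      (fun x => ∑' t : Z, (∫ v, 1 / (v + (t : ℝ)) ∂ρ) / (x + (t : ℝ))) i (ξ j)) =
    s / ((r + q).factorial * r.factorial) *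
      vd (fun i : Fin (p + (r + q)) => ξ ((Equiv.sumCongr (Equiv.refl _) finSumFinEquiv).symm
        (finSumFinEquiv.symm i))) * S ∧
    ENNReal.ofReal S = ∑' t : Fin (r + q) → Z, ∫⁻ v : Fin r → ℝ,
        ENNReal.ofReal (vd (fun i => (t i : ℝ)) ^ 2 * vd v ^ 2 * (∏ i, (t i : ℝ) ^ ε) *
          (∏ i, v i ^ (1 - ε)) /
          ((∏ i, ∏ j, (ξ i + (t j : ℝ))) * (∏ i, ∏ j, ((t i : ℝ) + v j))))
        ∂(Measure.pi fun _ => ρ) :=
  D4.nikishin ε p r q hs

end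

end Pool.Agent.MP_941b23_mp
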