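import Pool.Agent.MP_941b23_mp.Defs2

/-!
# [S1] the function `f`
-/

namespace Pool.Agent.MP_941b23_mp

open MeasureTheory Set Filter Topology
open scoped ENNReal NNReal Real ComplexConjugate

noncomputable section

variable {N α τ : ℝ}

/-- The exponential factor. -/
def s1_E (N α τ : ℝ) (x : ℂ) (y : ℝ) : ℂ :=
  Complex.exp (-(N : ℂ) * ((y : ℂ) ^ 4 / 4 + (α : ℂ) / 2 * (y : ℂ) ^ 2 - (τ : ℂ) * x * (y : ℂ)))

theorem s1_fj (k : ℕ) (x : ℂ) :
    fj N α τ k x = ∫ y : ℝ, ((N * τ * y : ℝ) : ℂ) ^ k * s1_E N α τ x y := rfl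

theorem s1_arg (x : ℂ) (y : ℝ) :
    -(N : ℂ) * ((y : ℂ) ^ 4 / 4 + (α : ℂ) / 2 * (y : ℂ) ^ 2 - (τ : ℂ) * x * (y : ℂ)) =
      ((-N * (y ^ 4 / 4 + α / 2 * y ^ 2) : ℝ) : ℂ) + ((N * τ * y : ℝ) : ℂ) * x := by
  push_cast
  ring

theorem s1_norm_E (x : ℂ) (y : ℝ) :
    ‖s1_E N α τ x y‖ = Real.exp (-N * (y ^ 4 / 4 + α / 2 * y ^ 2) + N * τ * y * x.re) := by
  rw [s1_E, s1_arg, Complex.norm_exp, Complex.add_re, Complex.ofReal_re, Complex.re_ofReal_mul]

theorem s1_E_cont (x : ℂ) : Continuous (s1_E N α τ x) := by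
  unfold s1_E
  fun_prop

/-- quartic domination -/
theorem s1_dom (hN : 0 < N) (A B : ℝ) (hB : 0 ≤ B) :
    ∃ C : ℝ, ∀ y : ℝ, -N * y ^ 4 / 4 + A * y ^ 2 + B * |y| ≤ C - y ^ 2 := by
  refine ⟨(A + 1 + B) ^ 2 / N + B, fun y => ?_⟩
  have h1 : |y| ≤ 1 + y ^ 2 := by
    rw [← sq_abs y]
    nlinarith [sq_nonneg (|y| - 1 / 2), abs_nonneg y]
  have h2 : 0 ≤ (y ^ 2 * N / 2 - (A + 1 + B)) ^ 2 / N := by positivity
  have h3 : (y ^ 2 * N / 2 - (A + 1 + B)) ^ 2 / N =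
      N * y ^ 4 / 4 - (A + 1 + B) * y ^ 2 + (A + 1 + B) ^ 2 / N := by
    field_simp
    ring
  nlinarith [mul_le_mul_of_nonneg_left h1 hB]

theorem s1_bound (hN : 0 < N) (k : ℕ) (B : ℝ) : ∃ C : ℝ, 0 ≤ C ∧ ∀ x : ℂ, ‖x‖ ≤ B → ∀ y : ℝ,
    ‖((N * τ * y : ℝ) : ℂ) ^ k * s1_E N α τ x y‖ ≤ C * Real.exp (-1 * y ^ 2) := by
  obtain ⟨C, hC⟩ := s1_dom hN (N * |α| / 2) (N * |τ| * |B| + k) (by positivity)
  refine ⟨|N * τ| ^ k * Real.exp C, by positivity, fun x hx y => ?_⟩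
  rw [norm_mul, norm_pow, s1_norm_E, Complex.norm_real, Real.norm_eq_abs, abs_mul, mul_pow,
    mul_assoc (|N * τ| ^ k), mul_assoc (|N * τ| ^ k), ← Real.exp_add]
  refine mul_le_mul_of_nonneg_left ?_ (by positivity)
  have h1 : |y| ^ k ≤ Real.exp (k * |y|) := by
    rw [Real.exp_nat_mul]
    exact pow_le_pow_left₀ (abs_nonneg _) (by linarith [Real.add_one_le_exp |y|]) k
  have h2 : N * τ * y * x.re ≤ N * |τ| * |B| * |y| := by
    have h3 : |x.re| ≤ |B| := (Complex.abs_re_le_norm x).trans (hx.trans (le_abs_self B))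
    calc N * τ * y * x.re ≤ |N * τ * y * x.re| := le_abs_self _
      _ = N * |τ| * |y| * |x.re| := by rw [abs_mul, abs_mul, abs_mul, abs_of_pos hN]
      _ ≤ N * |τ| * |y| * |B| := by gcongr
      _ = N * |τ| * |B| * |y| := by ring
  calc |y| ^ k * Real.exp (-N * (y ^ 4 / 4 + α / 2 * y ^ 2) + N * τ * y * x.re)
      ≤ Real.exp (k * |y|) * Real.exp (-N * (y ^ 4 / 4 + α / 2 * y ^ 2) + N * τ * y * x.re) := by
        gcongr
    _ = Real.exp (k * |y| + (-N * (y ^ 4 / 4 + α / 2 * y ^ 2) + N * τ * y * x.re)) :=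
        (Real.exp_add _ _).symm
    _ ≤ Real.exp (C + -1 * y ^ 2) := by
        apply Real.exp_le_exp.2
        have h4 : -(N * (α / 2 * y ^ 2)) ≤ N * |α| / 2 * y ^ 2 := by
          have := neg_abs_le α
          have h5 : 0 ≤ N * y ^ 2 / 2 * (|α| + α) := by
            apply mul_nonneg (by positivity)
            linarith
          nlinarith
        have h5 := hC y
        linarith

theorem s1_meas (k : ℕ) (x : ℂ) :
    Continuous fun y : ℝ => ((N * τ * y : ℝ) : ℂ) ^ k * s1_E N α τ x y := by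
  have := s1_E_cont (N := N) (α := α) (τ := τ) x
  fun_prop

theorem s1_gauss (C : ℝ) : Integrable fun y : ℝ => C * Real.exp (-1 * y ^ 2) :=
  (integrable_exp_neg_mul_sq one_pos).const_mul C

theorem s1_integrable (hN : 0 < N) (k : ℕ) (x : ℂ) :
    Integrable fun y : ℝ => ((N * τ * y : ℝ) : ℂ) ^ k * s1_E N α τ x y := by
  obtain ⟨C, -, hC⟩ := s1_bound (α := α) (τ := τ) hN k ‖x‖
  exact (s1_gauss C).mono' (s1_meas k x).aestronglyMeasurable
    (Eventually.of_forall fun y => hC x le_rfl y)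

theorem s1_E_deriv (x : ℂ) (y : ℝ) :
    HasDerivAt (fun x => s1_E N α τ x y) (((N * τ * y : ℝ) : ℂ) * s1_E N α τ x y) x := by
  have h : HasDerivAt (fun x : ℂ =>
      -(N : ℂ) * ((y : ℂ) ^ 4 / 4 + (α : ℂ) / 2 * (y : ℂ) ^ 2 - (τ : ℂ) * x * (y : ℂ)))
      ((N * τ * y : ℝ) : ℂ) x := by
    have h1 : HasDerivAt (fun x : ℂ => (τ : ℂ) * x * (y : ℂ)) ((τ : ℂ) * 1 * y) x :=
      ((hasDerivAt_id x).const_mul _).mul_const _
    have h2 := (h1.const_sub ((y : ℂ) ^ 4 / 4 + (α : ℂ) / 2 * (y : ℂ) ^ 2)).const_mul (-(N : ℂ))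
    exact h2.congr_deriv (by push_cast; ring)
  exact h.cexp.congr_deriv (mul_comm _ _)

theorem fj_hasDerivAt (hN : 0 < N) (k : ℕ) (x : ℂ) :
    HasDerivAt (fj N α τ k) (fj N α τ (k + 1) x) x := by
  obtain ⟨C, -, hC⟩ := s1_bound (α := α) (τ := τ) hN (k + 1) (‖x‖ + 1)
  have := (hasDerivAt_integral_of_dominated_loc_of_deriv_le (μ := volume)
    (F := fun x y => ((N * τ * y : ℝ) : ℂ) ^ k * s1_E N α τ x y)
    (F' := fun x y => ((N * τ * y : ℝ) : ℂ) ^ (k + 1) * s1_E N α τ x y)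
    (bound := fun y => C * Real.exp (-1 * y ^ 2)) (x₀ := x) (Metric.ball_mem_nhds x one_pos)
    (Eventually.of_forall fun x => (s1_meas k x).aestronglyMeasurable)
    (s1_integrable hN k x) (s1_meas (k + 1) x).aestronglyMeasurable
    (Eventually.of_forall fun y z hz => hC z (by
      have h1 := norm_sub_norm_le z x
      have h2 : ‖z - x‖ < 1 := by rwa [← dist_eq_norm]
      linarith) y) (s1_gauss C)
    (Eventually.of_forall fun y z _ => by
      have h := (s1_E_deriv (N := N) (α := α) (τ := τ) z y).const_mul (((N * τ * y : ℝ) : ℂ) ^ k)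
      exact h.congr_deriv (by ring))).2
  exact this

theorem fj_ode (hN : 0 < N) (x : ℂ) : fj N α τ 3 x =
    -((α * (N * τ) ^ 2 : ℝ) : ℂ) * fj N α τ 1 x + ((N ^ 3 * τ ^ 4 : ℝ) : ℂ) * x * fj N α τ 0 x := by
  by_cases hτ : τ = 0
  · subst hτ
    simp [fj]
  have hd : ∀ y : ℝ, HasDerivAt (s1_E N α τ x)
      (-(N : ℂ) * ((y : ℂ) ^ 3 + (α : ℂ) * y - τ * x) * s1_E N α τ x y) y := by
    intro y
    have h : HasDerivAt (fun z : ℂ =>
        -(N : ℂ) * (z ^ 4 / 4 + (α : ℂ) / 2 * z ^ 2 - (τ : ℂ) * x * z))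
        (-(N : ℂ) * ((y : ℂ) ^ 3 + (α : ℂ) * y - τ * x)) (y : ℂ) := by
      have h1 := ((((hasDerivAt_pow 4 (y : ℂ)).div_const 4).add
        ((hasDerivAt_pow 2 (y : ℂ)).const_mul ((α : ℂ) / 2))).sub
        ((hasDerivAt_id (y : ℂ)).const_mul ((τ : ℂ) * x))).const_mul (-(N : ℂ))
      exact h1.congr_deriv (by push_cast; ring)
    exact h.cexp.comp_ofReal.congr_deriv (mul_comm _ _)
  have e3 := s1_integrable (α := α) (τ := τ) hN 3 x
  have e1 := s1_integrable (α := α) (τ := τ) hN 1 x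
  have e0 := s1_integrable (α := α) (τ := τ) hN 0 x
  have hNτ : ((N * τ : ℝ) : ℂ) ≠ 0 := by
    exact_mod_cast mul_ne_zero hN.ne' hτ
  have hNc : (N : ℂ) ≠ 0 := by exact_mod_cast hN.ne'
  have hτc : (τ : ℂ) ≠ 0 := by exact_mod_cast hτ
  have key : ∀ y : ℝ, ((N * τ * y : ℝ) : ℂ) ^ 3 * s1_E N α τ x y
      + ((α * (N * τ) ^ 2 : ℝ) : ℂ) * (((N * τ * y : ℝ) : ℂ) ^ 1 * s1_E N α τ x y)
      - ((N ^ 3 * τ ^ 4 : ℝ) : ℂ) * x * (((N * τ * y : ℝ) : ℂ) ^ 0 * s1_E N α τ x y) =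
      -((N : ℂ) ^ 2 * (τ : ℂ) ^ 3) *
        (-(N : ℂ) * ((y : ℂ) ^ 3 + (α : ℂ) * y - τ * x) * s1_E N α τ x y) := by
    intro y
    push_cast
    ring
  have hI : Integrable fun y : ℝ => -((N : ℂ) ^ 2 * (τ : ℂ) ^ 3) *
        (-(N : ℂ) * ((y : ℂ) ^ 3 + (α : ℂ) * y - τ * x) * s1_E N α τ x y) := by
    refine ((e3.add (e1.const_mul ((α * (N * τ) ^ 2 : ℝ) : ℂ))).sub
      (e0.const_mul (((N ^ 3 * τ ^ 4 : ℝ) : ℂ) * x))).congr (Eventually.of_forall fun y => ?_)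
    exact key y
  have hc : -((N : ℂ) ^ 2 * (τ : ℂ) ^ 3) ≠ 0 :=
    neg_ne_zero.2 (mul_ne_zero (pow_ne_zero _ hNc) (pow_ne_zero _ hτc))
  have hI' : Integrable fun y : ℝ =>
        (-(N : ℂ) * ((y : ℂ) ^ 3 + (α : ℂ) * y - τ * x) * s1_E N α τ x y) := by
    refine (hI.const_mul (-((N : ℂ) ^ 2 * (τ : ℂ) ^ 3))⁻¹).congr (Eventually.of_forall fun y => ?_)
    simp only
    rw [inv_mul_cancel_left₀ hc]
  have e0' : Integrable (s1_E N α τ x) := by
    refine e0.congr (Eventually.of_forall fun y => ?_)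
    simp
  have h0 := integral_eq_zero_of_hasDerivAt_of_integrable hd hI' e0'
  have h1 : (∫ y : ℝ, (((N * τ * y : ℝ) : ℂ) ^ 3 * s1_E N α τ x y
      + ((α * (N * τ) ^ 2 : ℝ) : ℂ) * (((N * τ * y : ℝ) : ℂ) ^ 1 * s1_E N α τ x y)
      - ((N ^ 3 * τ ^ 4 : ℝ) : ℂ) * x * (((N * τ * y : ℝ) : ℂ) ^ 0 * s1_E N α τ x y))) = 0 := by
    simp_rw [key]
    rw [integral_const_mul, h0, mul_zero]
  have h2 := integral_sub (e3.add (e1.const_mul ((α * (N * τ) ^ 2 : ℝ) : ℂ)))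
    (e0.const_mul (((N ^ 3 * τ ^ 4 : ℝ) : ℂ) * x))
  have h3 := integral_add e3 (e1.const_mul ((α * (N * τ) ^ 2 : ℝ) : ℂ))
  simp only [Pi.add_apply] at h2 h3
  rw [h1, h3, integral_const_mul, integral_const_mul] at h2
  rw [s1_fj, s1_fj, s1_fj]
  linear_combination -h2

theorem fj_neg (k : ℕ) (x : ℂ) : fj N α τ k (-x) = (-1) ^ k * fj N α τ k x := by
  rw [s1_fj, s1_fj, ← integral_neg_eq_self, ← integral_const_mul]
  congr 1
  ext y
  have h1 : s1_E N α τ (-x) (-y) = s1_E N α τ x y := by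
    unfold s1_E
    congr 1
    push_cast
    ring
  rw [h1, ← mul_assoc, ← mul_pow]
  congr 2
  push_cast
  ring

theorem fj_conj (k : ℕ) (x : ℂ) : fj N α τ k (conj x) = conj (fj N α τ k x) := by
  rw [s1_fj, s1_fj, ← integral_conj]
  congr 1
  ext y
  rw [map_mul, map_pow, Complex.conj_ofReal]
  congr 1
  unfold s1_E
  rw [← Complex.exp_conj]
  congr 1
  simp only [map_mul, map_neg, map_sub, map_add, map_div₀, map_pow, Complex.conj_ofReal, map_ofNat]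

theorem fj_real_im (k : ℕ) (x : ℝ) : (fj N α τ k x).im = 0 := by
  have h := fj_conj (N := N) (α := α) (τ := τ) k (x : ℂ)
  rw [Complex.conj_ofReal] at h
  exact Complex.conj_eq_iff_im.1 h.symm

theorem s1_real (k : ℕ) (x : ℝ) : fj N α τ k x =
    ((∫ y : ℝ, (N * τ * y) ^ k *
      Real.exp (-N * (y ^ 4 / 4 + α / 2 * y ^ 2) + N * τ * y * x) : ℝ) : ℂ) := by
  rw [s1_fj, ← integral_complex_ofReal]
  congr 1
  ext y
  rw [s1_E, s1_arg]
  push_cast
  rfl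

theorem s1_real_integrable (hN : 0 < N) (k : ℕ) (x : ℝ) : Integrable fun y : ℝ =>
    (N * τ * y) ^ k * Real.exp (-N * (y ^ 4 / 4 + α / 2 * y ^ 2) + N * τ * y * x) := by
  have h := (s1_integrable (α := α) (τ := τ) hN k (x : ℂ)).re
  refine h.congr (Eventually.of_forall fun y => ?_)
  simp only [RCLike.re_to_complex]
  rw [s1_E, s1_arg]
  have : ((N * τ * y : ℝ) : ℂ) ^ k * Complex.exp
      (((-N * (y ^ 4 / 4 + α / 2 * y ^ 2) : ℝ) : ℂ) + ((N * τ * y : ℝ) : ℂ) * (x : ℂ)) =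
      (((N * τ * y) ^ k *
        Real.exp (-N * (y ^ 4 / 4 + α / 2 * y ^ 2) + N * τ * y * x) : ℝ) : ℂ) := by
    push_cast
    rfl
  rw [this, Complex.ofReal_re]

theorem fj_zero_pos (hN : 0 < N) (x : ℝ) : 0 < (fj N α τ 0 x).re := by
  rw [s1_real, Complex.ofReal_re]
  simp only [pow_zero, one_mul]
  apply integral_exp_pos
  have := s1_real_integrable (α := α) (τ := τ) hN 0 x
  simpa only [pow_zero, one_mul] using this

theorem fj_two_zero_pos (hN : 0 < N) (hτ : 0 < τ) : 0 < (fj N α τ 2 0).re := by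
  have h := s1_real (N := N) (α := α) (τ := τ) 2 0
  rw [Complex.ofReal_zero] at h
  rw [h, Complex.ofReal_re]
  have hi := s1_real_integrable (α := α) (τ := τ) hN 2 0
  refine integral_pos_of_integrable_nonneg_nonzero (x := 1) (by fun_prop) hi
    (fun y => by positivity) ?_
  have : N * τ * 1 ≠ 0 := by positivity
  positivity

theorem fj_growth (hN : 0 < N) : ∃ C : ℝ, 0 < C ∧ ∀ x : ℂ,
    ‖fj N α τ 0 x‖ ≤ Real.exp (C * (1 + ‖x‖ ^ (4 / 3 : ℝ))) := by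
  -- Young
  have hpq : (4 : ℝ).HolderConjugate (4 / 3) := by
    rw [Real.holderConjugate_iff]
    constructor <;> norm_num
  set c : ℝ := (N / 2) ^ (1 / 4 : ℝ) with hc
  have hcpos : 0 < c := by positivity
  have hc4 : c ^ 4 = N / 2 := by
    rw [hc, ← Real.rpow_natCast, ← Real.rpow_mul (by positivity)]
    norm_num
  set D : ℝ := (N * |τ| / c) ^ (4 / 3 : ℝ) / (4 / 3) with hD
  have hD0 : 0 ≤ D := by positivity
  have young : ∀ (y : ℝ) (x : ℂ), N * τ * y * x.re ≤ N * y ^ 4 / 8 + D * ‖x‖ ^ (4 / 3 : ℝ) := by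
    intro y x
    have h1 : N * τ * y * x.re ≤ (c * |y|) * (N * |τ| / c * ‖x‖) := by
      calc N * τ * y * x.re ≤ |N * τ * y * x.re| := le_abs_self _
        _ = N * |τ| * |y| * |x.re| := by rw [abs_mul, abs_mul, abs_mul, abs_of_pos hN]
        _ ≤ N * |τ| * |y| * ‖x‖ := by
            have := Complex.abs_re_le_norm x
            gcongr
        _ = (c * |y|) * (N * |τ| / c * ‖x‖) := by
            field_simp
    refine h1.trans ((Real.young_inequality_of_nonneg (by positivity) (by positivity) hpq).trans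
      (le_of_eq ?_))
    have h2 : (c * |y|) ^ (4 : ℝ) = N / 2 * y ^ 4 := by
      have h3 : (4 : ℝ) = ((4 : ℕ) : ℝ) := by norm_num
      rw [h3, Real.rpow_natCast, mul_pow, hc4]
      congr 1
      exact Even.pow_abs (by decide) y
    rw [h2, Real.mul_rpow (by positivity) (norm_nonneg _), hD]
    ring
  -- the remaining integral
  have hdom : ∃ C0 : ℝ, ∀ y : ℝ, -N * (y ^ 4 / 4 + α / 2 * y ^ 2) + N * y ^ 4 / 8 ≤ C0 - y ^ 2 := by
    obtain ⟨C0, hC0⟩ := s1_dom (N := N / 2) (by positivity) (N * |α| / 2) 0 le_rfl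
    refine ⟨C0, fun y => ?_⟩
    have h4 : -(N * (α / 2 * y ^ 2)) ≤ N * |α| / 2 * y ^ 2 := by
      have := neg_abs_le α
      have h5 : 0 ≤ N * y ^ 2 / 2 * (|α| + α) := by
        apply mul_nonneg (by positivity)
        linarith
      nlinarith
    have h5 := hC0 y
    nlinarith
  obtain ⟨C0, hC0⟩ := hdom
  set K : ℝ := ∫ y : ℝ, Real.exp C0 * Real.exp (-1 * y ^ 2) with hK
  refine ⟨max D (|Real.log (K + 1)|) + 1, by positivity, fun x => ?_⟩
  have h1 : ‖fj N α τ 0 x‖ ≤ ∫ y : ℝ, Real.exp (D * ‖x‖ ^ (4 / 3 : ℝ)) *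
      (Real.exp C0 * Real.exp (-1 * y ^ 2)) := by
    rw [s1_fj]
    refine norm_integral_le_of_norm_le ((s1_gauss _).const_mul _)
      (Eventually.of_forall fun y => ?_)
    rw [pow_zero, one_mul, s1_norm_E, ← Real.exp_add, ← Real.exp_add]
    apply Real.exp_le_exp.2
    have h2 := young y x
    have h3 := hC0 y
    linarith
  rw [integral_const_mul, ← hK] at h1
  have hK0 : 0 ≤ K := integral_nonneg fun y => by positivity
  have h2 : K ≤ Real.exp |Real.log (K + 1)| := by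
    calc K ≤ K + 1 := by linarith
      _ = Real.exp (Real.log (K + 1)) := (Real.exp_log (by linarith)).symm
      _ ≤ _ := Real.exp_le_exp.2 (le_abs_self _)
  have hx0 : 0 ≤ ‖x‖ ^ (4 / 3 : ℝ) := by positivity
  calc ‖fj N α τ 0 x‖ ≤ Real.exp (D * ‖x‖ ^ (4 / 3 : ℝ)) * K := h1
    _ ≤ Real.exp (D * ‖x‖ ^ (4 / 3 : ℝ)) * Real.exp |Real.log (K + 1)| := by gcongr
    _ = Real.exp (D * ‖x‖ ^ (4 / 3 : ℝ) + |Real.log (K + 1)|) := by rw [Real.exp_add]
    _ ≤ _ := by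
        apply Real.exp_le_exp.2
        have h3 : D ≤ max D (|Real.log (K + 1)|) + 1 := by
          linarith [le_max_left D |Real.log (K + 1)|]
        have h4 : |Real.log (K + 1)| ≤ max D (|Real.log (K + 1)|) + 1 := by
          linarith [le_max_right D |Real.log (K + 1)|]
        have h5 := mul_le_mul_of_nonneg_right h3 hx0
        linarith

/-- Riemann-Lebesgue -/
theorem fj_imag_tendsto (hN : 0 < N) (hτ : 0 < τ) (k : ℕ) :
    Tendsto (fun η : ℝ => fj N α τ k (η * Complex.I)) atTop (𝓝 0) := by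
  have h := Real.tendsto_integral_exp_smul_cocompact
    (fun y : ℝ => ((N * τ * y : ℝ) : ℂ) ^ k * s1_E N α τ 0 y)
  have hw : Tendsto (fun η : ℝ => η * (-(N * τ / (2 * π)))) atTop (cocompact ℝ) := by
    have h1 : Tendsto (fun η : ℝ => η * (-(N * τ / (2 * π)))) atTop atBot :=
      tendsto_id.atTop_mul_const_of_neg (by
        have : 0 < N * τ / (2 * π) := by positivity
        linarith)
    exact h1.mono_right atBot_le_cocompact
  refine (h.comp hw).congr fun η => ?_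
  simp only [Function.comp]
  rw [s1_fj]
  congr 1
  ext y
  rw [Circle.smul_def, Real.fourierChar_apply, smul_eq_mul, mul_left_comm]
  congr 1
  unfold s1_E
  rw [← Complex.exp_add]
  congr 1
  have hpi : (π : ℂ) ≠ 0 := by exact_mod_cast Real.pi_ne_zero
  push_cast
  field_simp
  ring

end

end Pool.Agent.MP_941b23_mp
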