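import Pool.Agent.MP_941b23_mp.Defs2
import Pool.Agent.MP_941b23_mp.S1

/-!
# Row [QM-D5]: change of basis by the differential equation
-/

namespace Pool.Agent.MP_941b23_mp

open MeasureTheory Set Filter Topology
open scoped ENNReal NNReal Real

noncomputable section

/-- `g''` is the second derivative of `g`. -/
def D5_HasD2 (g g'' : ℝ → ℝ) : Prop :=
  ∃ g' : ℝ → ℝ, (∀ x, HasDerivAt g (g' x) x) ∧ ∀ x, HasDerivAt g' (g'' x) x

theorem D5_unique {g a b : ℝ → ℝ} (ha : D5_HasD2 g a) (hb : D5_HasD2 g b) : a = b := by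
  obtain ⟨a', h1, h2⟩ := ha
  obtain ⟨b', h3, h4⟩ := hb
  have h5 : a' = b' := funext fun x => (h1 x).unique (h3 x)
  subst h5
  exact funext fun x => (h2 x).unique (h4 x)

theorem D5_add {g h a b : ℝ → ℝ} (ha : D5_HasD2 g a) (hb : D5_HasD2 h b) :
    D5_HasD2 (g + h) (a + b) := by
  obtain ⟨a', h1, h2⟩ := ha
  obtain ⟨b', h3, h4⟩ := hb
  exact ⟨a' + b', fun x => (h1 x).add (h3 x), fun x => (h2 x).add (h4 x)⟩

theorem D5_smul {g a : ℝ → ℝ} (c : ℝ) (ha : D5_HasD2 g a) : D5_HasD2 (c • g) (c • a) := by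
  obtain ⟨a', h1, h2⟩ := ha
  exact ⟨c • a', fun x => (h1 x).const_smul c, fun x => (h2 x).const_smul c⟩

/-- span of the first `n` basis functions -/
def D5_S (e : ℕ → ℝ → ℝ) (n : ℕ) : Submodule ℝ (ℝ → ℝ) :=
  Submodule.span ℝ (Set.range fun l : Fin n => e l)

theorem D5_mem (e : ℕ → ℝ → ℝ) {n l : ℕ} (h : l < n) : e l ∈ D5_S e n :=
  Submodule.subset_span ⟨⟨l, h⟩, rfl⟩

theorem D5_mono (e : ℕ → ℝ → ℝ) {n m : ℕ} (h : n ≤ m) : D5_S e n ≤ D5_S e m := by
  refine Submodule.span_le.2 ?_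
  rintro _ ⟨l, rfl⟩
  exact D5_mem e (l.2.trans_le h)

/-- general triangular change of basis -/
theorem D5_general (e g : ℕ → ℝ → ℝ) (h0 : g 0 = e 0) (hg : ∀ j, D5_HasD2 (g j) (g (j + 1)))
    (he : ∀ i, ∃ c : ℝ, c ≠ 0 ∧ ∃ h ∈ D5_S e (i + 1), D5_HasD2 (e i) (c • e (i + 1) + h)) :
    ∃ T : ℕ → ℕ → ℝ, (∀ j, T j j ≠ 0) ∧ ∀ j x, g j x =
      ∑ i ∈ Finset.range (j + 1), T j i * e i x := by
  have hS : ∀ n, ∀ h ∈ D5_S e n, ∃ h'' ∈ D5_S e (n + 1), D5_HasD2 h h'' := by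
    intro n h hh
    induction hh using Submodule.span_induction with
    | mem x hx =>
      obtain ⟨l, rfl⟩ := hx
      obtain ⟨c, -, h, hh, hd⟩ := he l
      refine ⟨_, ?_, hd⟩
      have hl : (l : ℕ) + 1 < n + 1 := Nat.succ_lt_succ l.2
      exact Submodule.add_mem _ (Submodule.smul_mem _ _ (D5_mem e hl))
        (D5_mono e hl.le hh)
    | zero =>
      refine ⟨0, Submodule.zero_mem _, 0, fun x => ?_, fun x => ?_⟩
      · exact hasDerivAt_const x (0 : ℝ)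
      · exact hasDerivAt_const x (0 : ℝ)
    | add x y _ _ hx hy =>
      obtain ⟨a, ha, hda⟩ := hx
      obtain ⟨b, hb, hdb⟩ := hy
      exact ⟨a + b, Submodule.add_mem _ ha hb, D5_add hda hdb⟩
    | smul c x _ hx =>
      obtain ⟨a, ha, hda⟩ := hx
      exact ⟨c • a, Submodule.smul_mem _ c ha, D5_smul c hda⟩
  have hmain : ∀ j, ∃ c : ℝ, c ≠ 0 ∧ ∃ h ∈ D5_S e j, g j = c • e j + h := by
    intro j
    induction j with
    | zero => exact ⟨1, one_ne_zero, 0, Submodule.zero_mem _, by rw [h0, one_smul, add_zero]⟩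
    | succ j ih =>
      obtain ⟨c, hc, h, hh, hgj⟩ := ih
      obtain ⟨c', hc', h', hh', hd⟩ := he j
      obtain ⟨h'', hh'', hd''⟩ := hS j h hh
      have h1 := hg j
      rw [hgj] at h1
      have h2 := D5_unique h1 (D5_add (D5_smul c hd) hd'')
      refine ⟨c * c', mul_ne_zero hc hc', c • h' + h'',
        Submodule.add_mem _ (Submodule.smul_mem _ c hh') hh'', ?_⟩
      rw [h2, smul_add, smul_smul, add_assoc]
  choose c hc h hh hg' using hmain
  have hcoef : ∀ j, ∃ a : Fin j → ℝ, ∑ l, a l • e l = h j := fun j =>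
    (Submodule.mem_span_range_iff_exists_fun ℝ).1 (hh j)
  choose a ha using hcoef
  refine ⟨fun j i => if hi : i < j then a j ⟨i, hi⟩ else c j, ?_, ?_⟩
  · intro j
    beta_reduce
    rw [dif_neg (lt_irrefl j)]
    exact hc j
  · intro j x
    rw [Finset.sum_range_succ]
    beta_reduce
    rw [dif_neg (lt_irrefl j), hg' j, ← ha j, Finset.sum_range]
    simp only [Pi.add_apply, Pi.smul_apply, smul_eq_mul, Finset.sum_apply]
    rw [add_comm]
    congr 1
    refine Finset.sum_congr rfl fun l _ => ?_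
    rw [dif_pos l.2]

section
variable (N α τ : ℝ)

/-- real jets -/
def D5_f (k : ℕ) (x : ℝ) : ℝ := (fj N α τ k (x : ℝ)).re

/-- monomials times jets -/
def D5_P (n k : ℕ) (x : ℝ) : ℝ := x ^ n * D5_f N α τ k x

variable {N α τ}

theorem D5_deriv (hN : 0 < N) (k : ℕ) (x : ℝ) :
    HasDerivAt (D5_f N α τ k) (D5_f N α τ (k + 1) x) x :=
  (fj_hasDerivAt hN k (x : ℂ)).real_of_complex

theorem D5_derivP (hN : 0 < N) (n k : ℕ) (x : ℝ) :
    HasDerivAt (D5_P N α τ n k) ((n : ℝ) * D5_P N α τ (n - 1) k x + D5_P N α τ n (k + 1) x) x := by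
  have h1 := (hasDerivAt_pow n x).mul (D5_deriv (α := α) (τ := τ) hN k x)
  refine h1.congr_deriv ?_
  simp only [D5_P]
  ring

theorem D5_D2P (hN : 0 < N) (n k : ℕ) :
    D5_HasD2 (D5_P N α τ n k) (((n : ℝ) * ((n - 1 : ℕ) : ℝ)) • D5_P N α τ (n - 2) k +
      (2 * (n : ℝ)) • D5_P N α τ (n - 1) (k + 1) + D5_P N α τ n (k + 2)) := by
  refine ⟨_, fun x => D5_derivP hN n k x, fun x => ?_⟩
  have h1 := ((D5_derivP (α := α) (τ := τ) hN (n - 1) k x).const_mul (n : ℝ)).add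
    (D5_derivP (α := α) (τ := τ) hN n (k + 1) x)
  refine h1.congr_deriv ?_
  simp only [Pi.add_apply, Pi.smul_apply, smul_eq_mul, Nat.sub_sub]
  ring

theorem D5_f3 (hN : 0 < N) (x : ℝ) : D5_f N α τ 3 x =
    -(α * (N * τ) ^ 2) * D5_f N α τ 1 x + (N ^ 3 * τ ^ 4) * (x * D5_f N α τ 0 x) := by
  have h1 := fj_ode (α := α) (τ := τ) hN (x : ℂ)
  have h2 := congrArg Complex.re h1
  rw [D5_f, h2, ← Complex.ofReal_neg, Complex.add_re, Complex.re_ofReal_mul, mul_assoc,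
    Complex.re_ofReal_mul, Complex.re_ofReal_mul]
  rfl

theorem D5_f4 (hN : 0 < N) (x : ℝ) : D5_f N α τ 4 x =
    -(α * (N * τ) ^ 2) * D5_f N α τ 2 x +
      (N ^ 3 * τ ^ 4) * (D5_f N α τ 0 x + x * D5_f N α τ 1 x) := by
  have h1 := D5_deriv (α := α) (τ := τ) hN 3 x
  have h2 : D5_f N α τ 3 = fun x => -(α * (N * τ) ^ 2) * D5_f N α τ 1 x +
    (N ^ 3 * τ ^ 4) * (x * D5_f N α τ 0 x) := funext fun x => D5_f3 hN x
  rw [h2] at h1
  have h3 := ((D5_deriv (α := α) (τ := τ) hN 1 x).const_mul (-(α * (N * τ) ^ 2))).add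
    (((hasDerivAt_id x).mul (D5_deriv (α := α) (τ := τ) hN 0 x)).const_mul (N ^ 3 * τ ^ 4))
  have h4 := h1.unique h3
  rw [h4]
  simp only [id]
  ring

theorem D5_P3 (hN : 0 < N) (n : ℕ) : D5_P N α τ n 3 =
    (-(α * (N * τ) ^ 2)) • D5_P N α τ n 1 + (N ^ 3 * τ ^ 4) • D5_P N α τ (n + 1) 0 := by
  funext x
  simp only [D5_P, Pi.add_apply, Pi.smul_apply, smul_eq_mul, D5_f3 hN x]
  ring

theorem D5_P4 (hN : 0 < N) (n : ℕ) : D5_P N α τ n 4 =
    (-(α * (N * τ) ^ 2)) • D5_P N α τ n 2 + (N ^ 3 * τ ^ 4) • D5_P N α τ n 0 +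
      (N ^ 3 * τ ^ 4) • D5_P N α τ (n + 1) 1 := by
  funext x
  simp only [D5_P, Pi.add_apply, Pi.smul_apply, smul_eq_mul, D5_f4 hN x]
  ring

theorem D5_e0 (k : ℕ) : eBasis N α τ (3 * k) = D5_P N α τ (2 * k) 0 := by
  funext x
  have h1 : 3 * k % 3 = 0 := by omega
  have h2 : 3 * k / 3 = k := by omega
  simp only [eBasis, h1, h2, if_true]
  rfl

theorem D5_e1 (k : ℕ) : eBasis N α τ (3 * k + 1) = D5_P N α τ (2 * k) 2 := by
  funext x
  have h1 : (3 * k + 1) % 3 = 1 := by omega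
  have h2 : (3 * k + 1) / 3 = k := by omega
  simp only [eBasis, h1, h2]
  rfl

theorem D5_e2 (k : ℕ) : eBasis N α τ (3 * k + 2) = D5_P N α τ (2 * k + 1) 1 := by
  funext x
  have h1 : (3 * k + 2) % 3 = 2 := by omega
  have h2 : (3 * k + 2) / 3 = k := by omega
  simp only [eBasis, h1, h2]
  rfl

theorem D5_o0 (k : ℕ) : oBasis N α τ (3 * k) = D5_P N α τ (2 * k) 1 := by
  funext x
  have h1 : 3 * k % 3 = 0 := by omega
  have h2 : 3 * k / 3 = k := by omega
  simp only [oBasis, h1, h2, if_true]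
  rfl

theorem D5_o1 (k : ℕ) : oBasis N α τ (3 * k + 1) = D5_P N α τ (2 * k + 1) 0 := by
  funext x
  have h1 : (3 * k + 1) % 3 = 1 := by omega
  have h2 : (3 * k + 1) / 3 = k := by omega
  simp only [oBasis, h1, h2]
  rfl

theorem D5_o2 (k : ℕ) : oBasis N α τ (3 * k + 2) = D5_P N α τ (2 * k + 1) 2 := by
  funext x
  have h1 : (3 * k + 2) % 3 = 2 := by omega
  have h2 : (3 * k + 2) / 3 = k := by omega
  simp only [oBasis, h1, h2]
  rfl

theorem D5_stepE (hN : 0 < N) (hτ : 0 < τ) (i : ℕ) : ∃ c : ℝ, c ≠ 0 ∧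
    ∃ h ∈ D5_S (eBasis N α τ) (i + 1),
      D5_HasD2 (eBasis N α τ i) (c • eBasis N α τ (i + 1) + h) := by
  have hb : N ^ 3 * τ ^ 4 ≠ 0 := by positivity
  set S := D5_S (eBasis N α τ) with hS
  obtain ⟨k, hk⟩ : ∃ k, i = 3 * k ∨ i = 3 * k + 1 ∨ i = 3 * k + 2 := ⟨i / 3, by omega⟩
  rcases hk with rfl | rfl | rfl
  · refine ⟨1, one_ne_zero, ((((2 * k : ℕ) : ℝ) * ((2 * k - 1 : ℕ) : ℝ)) •
      D5_P N α τ (2 * k - 2) 0 + (2 * ((2 * k : ℕ) : ℝ)) • D5_P N α τ (2 * k - 1) 1), ?_, ?_⟩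
    · rcases k with _ | m
      · simp
      · refine Submodule.add_mem _ (Submodule.smul_mem _ _ ?_) (Submodule.smul_mem _ _ ?_)
        · have : 2 * (m + 1) - 2 = 2 * m := by omega
          rw [this, ← D5_e0]
          exact D5_mem _ (by omega)
        · have : 2 * (m + 1) - 1 = 2 * m + 1 := by omega
          rw [this, ← D5_e2]
          exact D5_mem _ (by omega)
    · rw [D5_e0, D5_e1, one_smul, add_comm]
      exact D5_D2P hN (2 * k) 0
  · refine ⟨N ^ 3 * τ ^ 4, hb, ((((2 * k : ℕ) : ℝ) * ((2 * k - 1 : ℕ) : ℝ)) •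
      D5_P N α τ (2 * k - 2) 2 + (2 * ((2 * k : ℕ) : ℝ)) • D5_P N α τ (2 * k - 1) 3) +
      ((-(α * (N * τ) ^ 2)) • D5_P N α τ (2 * k) 2 + (N ^ 3 * τ ^ 4) • D5_P N α τ (2 * k) 0),
      ?_, ?_⟩
    · refine Submodule.add_mem _ ?_ (Submodule.add_mem _ (Submodule.smul_mem _ _ ?_)
        (Submodule.smul_mem _ _ ?_))
      · rcases k with _ | m
        · simp
        · refine Submodule.add_mem _ (Submodule.smul_mem _ _ ?_) (Submodule.smul_mem _ _ ?_)
          · have : 2 * (m + 1) - 2 = 2 * m := by omega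
            rw [this, ← D5_e1]
            exact D5_mem _ (by omega)
          · have h1 : 2 * (m + 1) - 1 = 2 * m + 1 := by omega
            have h2 : 2 * m + 1 + 1 = 2 * (m + 1) := by omega
            rw [h1, D5_P3 hN, h2, ← D5_e2, ← D5_e0]
            exact Submodule.add_mem _ (Submodule.smul_mem _ _ (D5_mem _ (by omega)))
              (Submodule.smul_mem _ _ (D5_mem _ (by omega)))
      · rw [← D5_e1]
        exact D5_mem _ (by omega)
      · rw [← D5_e0]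
        exact D5_mem _ (by omega)
    · have h1 := D5_D2P (α := α) (τ := τ) hN (2 * k) 2
      rw [D5_P4 hN] at h1
      have h2 : 3 * k + 1 + 1 = 3 * k + 2 := rfl
      rw [h2, D5_e1, D5_e2]
      refine (congrArg (D5_HasD2 _) ?_).mp h1
      abel
  · refine ⟨N ^ 3 * τ ^ 4, hb, ((((2 * k + 1 : ℕ) : ℝ) * ((2 * k + 1 - 1 : ℕ) : ℝ)) •
      D5_P N α τ (2 * k + 1 - 2) 1 + (2 * ((2 * k + 1 : ℕ) : ℝ)) •
        D5_P N α τ (2 * k + 1 - 1) 2) + (-(α * (N * τ) ^ 2)) • D5_P N α τ (2 * k + 1) 1,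
      ?_, ?_⟩
    · refine Submodule.add_mem _ (Submodule.add_mem _ ?_ (Submodule.smul_mem _ _ ?_))
        (Submodule.smul_mem _ _ ?_)
      · rcases k with _ | m
        · simp
        · refine Submodule.smul_mem _ _ ?_
          have : 2 * (m + 1) + 1 - 2 = 2 * m + 1 := by omega
          rw [this, ← D5_e2]
          exact D5_mem _ (by omega)
      · rw [Nat.add_sub_cancel, ← D5_e1]
        exact D5_mem _ (by omega)
      · rw [← D5_e2]
        exact D5_mem _ (by omega)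
    · have h1 := D5_D2P (α := α) (τ := τ) hN (2 * k + 1) 1
      rw [D5_P3 hN] at h1
      have h2 : 3 * k + 2 + 1 = 3 * (k + 1) := by omega
      have h3 : 2 * k + 1 + 1 = 2 * (k + 1) := by omega
      rw [h2, D5_e2, D5_e0]
      rw [h3] at h1
      refine (congrArg (D5_HasD2 _) ?_).mp h1
      abel

theorem D5_stepO (hN : 0 < N) (hτ : 0 < τ) (i : ℕ) : ∃ c : ℝ, c ≠ 0 ∧
    ∃ h ∈ D5_S (oBasis N α τ) (i + 1),
      D5_HasD2 (oBasis N α τ i) (c • oBasis N α τ (i + 1) + h) := by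
  have hb : N ^ 3 * τ ^ 4 ≠ 0 := by positivity
  set S := D5_S (oBasis N α τ) with hS
  obtain ⟨k, hk⟩ : ∃ k, i = 3 * k ∨ i = 3 * k + 1 ∨ i = 3 * k + 2 := ⟨i / 3, by omega⟩
  rcases hk with rfl | rfl | rfl
  · refine ⟨N ^ 3 * τ ^ 4, hb, ((((2 * k : ℕ) : ℝ) * ((2 * k - 1 : ℕ) : ℝ)) •
      D5_P N α τ (2 * k - 2) 1 + (2 * ((2 * k : ℕ) : ℝ)) • D5_P N α τ (2 * k - 1) 2) +
      (-(α * (N * τ) ^ 2)) • D5_P N α τ (2 * k) 1, ?_, ?_⟩
    · refine Submodule.add_mem _ ?_ (Submodule.smul_mem _ _ ?_)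
      · rcases k with _ | m
        · simp
        · refine Submodule.add_mem _ (Submodule.smul_mem _ _ ?_) (Submodule.smul_mem _ _ ?_)
          · have : 2 * (m + 1) - 2 = 2 * m := by omega
            rw [this, ← D5_o0]
            exact D5_mem _ (by omega)
          · have : 2 * (m + 1) - 1 = 2 * m + 1 := by omega
            rw [this, ← D5_o2]
            exact D5_mem _ (by omega)
      · rw [← D5_o0]
        exact D5_mem _ (by omega)
    · have h1 := D5_D2P (α := α) (τ := τ) hN (2 * k) 1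
      rw [D5_P3 hN] at h1
      rw [D5_o0, D5_o1]
      refine (congrArg (D5_HasD2 _) ?_).mp h1
      abel
  · refine ⟨1, one_ne_zero, ((((2 * k + 1 : ℕ) : ℝ) * ((2 * k + 1 - 1 : ℕ) : ℝ)) •
      D5_P N α τ (2 * k + 1 - 2) 0 + (2 * ((2 * k + 1 : ℕ) : ℝ)) •
        D5_P N α τ (2 * k + 1 - 1) 1), ?_, ?_⟩
    · refine Submodule.add_mem _ ?_ (Submodule.smul_mem _ _ ?_)
      · rcases k with _ | m
        · simp
        · refine Submodule.smul_mem _ _ ?_
          have : 2 * (m + 1) + 1 - 2 = 2 * m + 1 := by omega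
          rw [this, ← D5_o1]
          exact D5_mem _ (by omega)
      · rw [Nat.add_sub_cancel, ← D5_o0]
        exact D5_mem _ (by omega)
    · have h2 : 3 * k + 1 + 1 = 3 * k + 2 := rfl
      rw [h2, D5_o1, D5_o2, one_smul]
      have h1 := D5_D2P (α := α) (τ := τ) hN (2 * k + 1) 0
      refine (congrArg (D5_HasD2 _) ?_).mp h1
      abel
  · refine ⟨N ^ 3 * τ ^ 4, hb, ((((2 * k + 1 : ℕ) : ℝ) * ((2 * k + 1 - 1 : ℕ) : ℝ)) •
      D5_P N α τ (2 * k + 1 - 2) 2 + (2 * ((2 * k + 1 : ℕ) : ℝ)) •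
        D5_P N α τ (2 * k + 1 - 1) 3) + ((-(α * (N * τ) ^ 2)) • D5_P N α τ (2 * k + 1) 2 +
        (N ^ 3 * τ ^ 4) • D5_P N α τ (2 * k + 1) 0),
      ?_, ?_⟩
    · refine Submodule.add_mem _ (Submodule.add_mem _ ?_ (Submodule.smul_mem _ _ ?_))
        (Submodule.add_mem _ (Submodule.smul_mem _ _ ?_) (Submodule.smul_mem _ _ ?_))
      · rcases k with _ | m
        · simp
        · refine Submodule.smul_mem _ _ ?_
          have : 2 * (m + 1) + 1 - 2 = 2 * m + 1 := by omega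
          rw [this, ← D5_o2]
          exact D5_mem _ (by omega)
      · rw [Nat.add_sub_cancel, D5_P3 hN, ← D5_o0, ← D5_o1]
        exact Submodule.add_mem _ (Submodule.smul_mem _ _ (D5_mem _ (by omega)))
          (Submodule.smul_mem _ _ (D5_mem _ (by omega)))
      · rw [← D5_o2]
        exact D5_mem _ (by omega)
      · rw [← D5_o1]
        exact D5_mem _ (by omega)
    · have h1 := D5_D2P (α := α) (τ := τ) hN (2 * k + 1) 2
      rw [D5_P4 hN] at h1
      have h2 : 3 * k + 2 + 1 = 3 * (k + 1) := by omega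
      have h3 : 2 * k + 1 + 1 = 2 * (k + 1) := by omega
      rw [h2, D5_o2, D5_o0]
      rw [h3] at h1
      refine (congrArg (D5_HasD2 _) ?_).mp h1
      abel

end

theorem jets_even (N α τ : ℝ) (hN : 0 < N) (hτ : 0 < τ) : ∃ T : ℕ → ℕ → ℝ,
    (∀ j, T j j ≠ 0) ∧ ∀ j x, (fj N α τ (2 * j) (x : ℝ)).re =
      ∑ i ∈ Finset.range (j + 1), T j i * eBasis N α τ i x := by
  refine D5_general (eBasis N α τ) (fun j => D5_f N α τ (2 * j)) ?_ ?_
    (fun i => D5_stepE hN hτ i)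
  · funext x
    have := congrFun (D5_e0 (N := N) (α := α) (τ := τ) 0) x
    simp only [Nat.mul_zero] at this ⊢
    rw [this, D5_P, pow_zero, one_mul]
  · intro j
    exact ⟨D5_f N α τ (2 * j + 1), fun x => D5_deriv hN (2 * j) x,
      fun x => D5_deriv hN (2 * j + 1) x⟩

theorem jets_odd (N α τ : ℝ) (hN : 0 < N) (hτ : 0 < τ) : ∃ T : ℕ → ℕ → ℝ,
    (∀ j, T j j ≠ 0) ∧ ∀ j x, (fj N α τ (2 * j + 1) (x : ℝ)).re =
      ∑ i ∈ Finset.range (j + 1), T j i * oBasis N α τ i x := by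
  refine D5_general (oBasis N α τ) (fun j => D5_f N α τ (2 * j + 1)) ?_ ?_
    (fun i => D5_stepO hN hτ i)
  · funext x
    have := congrFun (D5_o0 (N := N) (α := α) (τ := τ) 0) x
    simp only [Nat.mul_zero] at this ⊢
    rw [this, D5_P, pow_zero, one_mul]
  · intro j
    exact ⟨D5_f N α τ (2 * j + 1 + 1), fun x => D5_deriv hN (2 * j + 1) x,
      fun x => D5_deriv hN (2 * j + 1 + 1) x⟩

end

end Pool.Agent.MP_941b23_mp
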