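import Pool.Agent.MP_941b23_mp.Defs2

/-!
# [D6] parity splitting of a determinant
-/

namespace Pool.Agent.MP_941b23_mp

noncomputable section

def d6_fun (n : ℕ) : Fin ((n + 1) / 2) ⊕ Fin (n / 2) → Fin n
  | Sum.inl i => ⟨2 * i, by omega⟩
  | Sum.inr i => ⟨2 * i + 1, by omega⟩

theorem d6_bij (n : ℕ) : Function.Bijective (d6_fun n) := by
  rw [Fintype.bijective_iff_injective_and_card]
  constructor
  · rintro (i | i) (j | j) h
    · simp only [d6_fun, Fin.mk.injEq] at h
      congr 1; ext; omega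
    · simp only [d6_fun, Fin.mk.injEq] at h
      omega
    · simp only [d6_fun, Fin.mk.injEq] at h
      omega
    · simp only [d6_fun, Fin.mk.injEq] at h
      congr 1; ext; omega
  · simp only [Fintype.card_sum, Fintype.card_fin]
    omega

theorem det_parity (n : ℕ) (c : ℕ → ℕ → ℝ) (hc : ∀ i j, (i + j) % 2 = 1 → c i j = 0) :
    Matrix.det (Matrix.of fun i j : Fin n => c i j) =
      Matrix.det (Matrix.of fun i j : Fin ((n + 1) / 2) => c (2 * i) (2 * j)) *
      Matrix.det (Matrix.of fun i j : Fin (n / 2) => c (2 * i + 1) (2 * j + 1)) := by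
  rw [← Matrix.det_fromBlocks_zero₁₂ _ (0 : Matrix (Fin (n / 2)) (Fin ((n + 1) / 2)) ℝ),
    ← Matrix.det_submatrix_equiv_self (Equiv.ofBijective _ (d6_bij n))]
  congr 1
  ext a b
  rcases a with i | i <;> rcases b with j | j
  · simp [d6_fun]
  · simp only [Matrix.submatrix_apply, Equiv.ofBijective_apply, d6_fun, Matrix.of_apply,
      Matrix.fromBlocks_apply₁₂, Matrix.zero_apply]
    exact hc _ _ (by omega)
  · simp only [Matrix.submatrix_apply, Equiv.ofBijective_apply, d6_fun, Matrix.of_apply,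
      Matrix.fromBlocks_apply₂₁, Matrix.zero_apply]
    exact hc _ _ (by omega)
  · simp [d6_fun]

end

end Pool.Agent.MP_941b23_mp
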