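import Pool.Agent.MP_941b23_mp.Defs2

/-!
# Row [QM-M1]: sorted eigenvalues
-/

namespace Pool.Agent.MP_941b23_mp

open MeasureTheory Set Filter Topology
open scoped ENNReal NNReal Real

noncomputable section

theorem evd_antitone {n : ℕ} (X : Fin n → Fin n → ℝ) : Antitone (evd X) := by
  intro i j hij
  exact Matrix.IsHermitian.eigenvalues₀_antitone (hmat_isHermitian X)
    (by simpa using hij)

theorem evs_eq_perm {n : ℕ} (X : Fin n → Fin n → ℝ) :
    ∃ σ : Equiv.Perm (Fin n), ∀ i, evs X i = evd X (σ i) := by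
  refine ⟨(Fintype.equivOfCardEq (Fintype.card_fin (Fintype.card (Fin n)))).symm.trans
    (finCongr (Fintype.card_fin n)), fun i => ?_⟩
  simp only [evs, evd, Matrix.IsHermitian.eigenvalues]
  rfl

theorem charpoly_hmat {n : ℕ} (X : Fin n → Fin n → ℝ) :
    (hmat X).charpoly = ∏ i, (Polynomial.X - Polynomial.C ((evd X i : ℝ) : ℂ)) := by
  obtain ⟨σ, hσ⟩ := evs_eq_perm X
  rw [(hmat_isHermitian X).charpoly_eq]
  have h1 : ∀ i, (hmat_isHermitian X).eigenvalues i = evd X (σ i) := hσ
  simp only [h1]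
  exact Equiv.prod_comp σ (fun i => Polynomial.X - Polynomial.C ((evd X i : ℝ) : ℂ))

theorem evd_unique {n : ℕ} (X : Fin n → Fin n → ℝ) (x : Fin n → ℝ) (hx : Antitone x)
    (h : (hmat X).charpoly = ∏ i, (Polynomial.X - Polynomial.C ((x i : ℝ) : ℂ))) :
    evd X = x := by
  have hroots : ∀ y : Fin n → ℝ,
      (∏ i, (Polynomial.X - Polynomial.C ((y i : ℝ) : ℂ))).roots.map Complex.re =
        (List.ofFn y : Multiset ℝ) := by
    intro y
    rw [Polynomial.roots_prod]
    · simp only [Polynomial.roots_X_sub_C, Multiset.bind_singleton, Multiset.map_map,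
        Function.comp_def, Complex.ofReal_re]
      rw [Fin.univ_val_map]
    · simp [Finset.prod_ne_zero_iff, Polynomial.X_sub_C_ne_zero]
  have h1 := hroots x
  have h2 := hroots (evd X)
  rw [← charpoly_hmat X, h, h1] at h2
  have h3 : (List.ofFn x).Perm (List.ofFn (evd X)) := Multiset.coe_eq_coe.1 h2
  have h4 : List.ofFn x = List.ofFn (evd X) :=
    h3.eq_of_pairwise' hx.sortedGE_ofFn.pairwise (evd_antitone X).sortedGE_ofFn.pairwise
  exact (List.ofFn_injective h4).symm

theorem m1_continuous_hmat {n : ℕ} :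
    Continuous (fun X : Fin n → Fin n → ℝ => (hmat X : Matrix (Fin n) (Fin n) ℂ)) := by
  refine continuous_matrix fun i j => ?_
  have h1 : ∀ a b : Fin n, Continuous (fun X : Fin n → Fin n → ℝ => ((X a b : ℝ) : ℂ)) :=
    fun a b => Complex.continuous_ofReal.comp ((continuous_apply b).comp (continuous_apply a))
  simp only [hmat]
  split_ifs
  · exact h1 i i
  · exact (h1 i j).add ((h1 j i).mul continuous_const)
  · exact (h1 j i).sub ((h1 i j).mul continuous_const)

theorem m1_bound {n : ℕ} (X : Fin n → Fin n → ℝ) (i : Fin n) :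
    |evd X i| ≤ ∑ k, ∑ j, ‖hmat X k j‖ := by
  have hroot : Polynomial.IsRoot (hmat X).charpoly ((evd X i : ℝ) : ℂ) := by
    rw [charpoly_hmat, Polynomial.IsRoot.def, Polynomial.eval_prod]
    exact Finset.prod_eq_zero (Finset.mem_univ i) (by simp)
  have hspec : ((evd X i : ℝ) : ℂ) ∈ spectrum ℂ (hmat X) :=
    Matrix.mem_spectrum_iff_isRoot_charpoly.2 hroot
  have hev : Module.End.HasEigenvalue (Matrix.toLin' (hmat X)) ((evd X i : ℝ) : ℂ) := by
    rw [Module.End.hasEigenvalue_iff_mem_spectrum, Matrix.spectrum_toLin']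
    exact hspec
  obtain ⟨k, hk⟩ := eigenvalue_mem_ball hev
  rw [Metric.mem_closedBall, dist_eq_norm] at hk
  have h1 : ‖((evd X i : ℝ) : ℂ)‖ ≤ ‖hmat X k k‖ + ∑ j ∈ Finset.univ.erase k, ‖hmat X k j‖ := by
    have h2 : ((evd X i : ℝ) : ℂ) = hmat X k k + (((evd X i : ℝ) : ℂ) - hmat X k k) := by ring
    rw [h2]
    exact (norm_add_le _ _).trans (add_le_add le_rfl hk)
  rw [Complex.norm_real, Real.norm_eq_abs, Finset.add_sum_erase Finset.univ
    (fun j => ‖hmat X k j‖) (Finset.mem_univ k)] at h1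
  exact h1.trans (Finset.single_le_sum (f := fun k => ∑ j, ‖hmat X k j‖)
    (fun k _ => Finset.sum_nonneg fun j _ => norm_nonneg _) (Finset.mem_univ k))

/-- closed graph + local boundedness -/
theorem continuous_evd {n : ℕ} :
    Continuous (evd : (Fin n → Fin n → ℝ) → Fin n → ℝ) := by
  rw [continuous_iff_continuousAt]
  intro X
  have hBc : Continuous (fun Y : Fin n → Fin n → ℝ => ∑ k, ∑ j, ‖hmat Y k j‖) := by
    refine continuous_finsetSum _ fun k _ => continuous_finsetSum _ fun j _ => ?_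
    exact continuous_norm.comp (m1_continuous_hmat.matrix_elem k j)
  set B : ℝ := ∑ k, ∑ j, ‖hmat X k j‖ with hB
  have hev : ∀ᶠ Y in 𝓝 X, ∑ k, ∑ j, ‖hmat Y k j‖ < B + 1 :=
    hBc.continuousAt.eventually_lt continuousAt_const (by rw [hB]; linarith)
  have hB0 : 0 ≤ B := Finset.sum_nonneg fun k _ => Finset.sum_nonneg fun j _ => norm_nonneg _
  refine (isCompact_closedBall (0 : Fin n → ℝ) (B + 1)).tendsto_nhds_of_unique_mapClusterPt ?_ ?_
  · filter_upwards [hev] with Y hY
    rw [mem_closedBall_zero_iff, pi_norm_le_iff_of_nonneg (by linarith)]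
    intro i
    rw [Real.norm_eq_abs]
    exact (m1_bound Y i).trans hY.le
  · intro y _ hy
    rw [mapClusterPt_iff_ultrafilter] at hy
    obtain ⟨U, hU, hUy⟩ := hy
    have hUX : Tendsto id (U : Filter (Fin n → Fin n → ℝ)) (𝓝 X) := hU
    have hUyi : ∀ i, Tendsto (fun Y => evd Y i) (U : Filter (Fin n → Fin n → ℝ)) (𝓝 (y i)) :=
      fun i => ((continuous_apply i).tendsto y).comp hUy
    symm
    apply evd_unique
    · intro i j hij
      exact le_of_tendsto_of_tendsto' (hUyi j) (hUyi i) fun Y => evd_antitone Y hij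
    · apply Polynomial.funext
      intro z
      have h1 : Tendsto (fun Y => (hmat Y).charpoly.eval z) (U : Filter (Fin n → Fin n → ℝ))
          (𝓝 ((hmat X).charpoly.eval z)) := by
        have hc : Continuous (fun Y : Fin n → Fin n → ℝ => (hmat Y).charpoly.eval z) := by
          simp only [Matrix.eval_charpoly]
          exact Continuous.matrix_det (continuous_const.sub m1_continuous_hmat)
        exact (hc.tendsto X).comp hUX
      have h2 : Tendsto (fun Y => (hmat Y).charpoly.eval z) (U : Filter (Fin n → Fin n → ℝ))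
          (𝓝 ((∏ i, (Polynomial.X - Polynomial.C ((y i : ℝ) : ℂ))).eval z)) := by
        have h3 : ∀ Y : Fin n → Fin n → ℝ, (hmat Y).charpoly.eval z =
            ∏ i, (z - ((evd Y i : ℝ) : ℂ)) := by
          intro Y
          rw [charpoly_hmat, Polynomial.eval_prod]
          simp
        simp only [h3]
        rw [Polynomial.eval_prod]
        simp only [Polynomial.eval_sub, Polynomial.eval_X, Polynomial.eval_C]
        refine tendsto_finsetProd _ fun i _ => ?_
        exact tendsto_const_nhds.sub ((Complex.continuous_ofReal.tendsto (y i)).comp (hUyi i))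
      exact tendsto_nhds_unique h1 h2

theorem sum_evd {n : ℕ} (X : Fin n → Fin n → ℝ) : ∑ i, evd X i = ∑ i, X i i := by
  obtain ⟨σ, hσ⟩ := evs_eq_perm X
  have h1 : ∑ i, evd X i = ∑ i, evs X i := by
    rw [← Equiv.sum_comp σ (evd X)]
    exact Finset.sum_congr rfl fun i _ => (hσ i).symm
  have h2 := (hmat_isHermitian X).trace_eq_sum_eigenvalues
  have h3 : Matrix.trace (hmat X) = ((∑ i, X i i : ℝ) : ℂ) := by
    rw [Matrix.trace]
    push_cast
    exact Finset.sum_congr rfl fun i _ => by simp [hmat]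
  rw [h3] at h2
  have h4 : ((∑ i, X i i : ℝ) : ℂ) = ((∑ i, evs X i : ℝ) : ℂ) := by
    rw [h2]
    push_cast
    rfl
  rw [h1]
  exact (Complex.ofReal_injective h4).symm

end

end Pool.Agent.MP_941b23_mp
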