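import Pool.Agent.MP_941b23_mp.Defs2

/-!
# [M1b] trace of a polynomial in a Hermitian matrix
-/

namespace Pool.Agent.MP_941b23_mp

open MeasureTheory Set Filter Topology
open scoped ENNReal NNReal Real

noncomputable section

theorem m1b_pow {n : ℕ} (X : Fin n → Fin n → ℝ) (k : ℕ) :
    Matrix.trace ((hmat X) ^ k) = ∑ i, ((evs X i : ℝ) : ℂ) ^ k := by
  have hA := hmat_isHermitian X
  have h1 : (hmat X) ^ k = Unitary.conjStarAlgAut ℂ _ hA.eigenvectorUnitary
      ((Matrix.diagonal (RCLike.ofReal ∘ hA.eigenvalues)) ^ k) := by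
    rw [map_pow, ← hA.spectral_theorem]
  rw [h1, Unitary.conjStarAlgAut_apply, Matrix.trace_mul_comm, ← mul_assoc,
    Unitary.coe_star_mul_self, one_mul, Matrix.diagonal_pow, Matrix.trace_diagonal]
  rfl

theorem trace_aeval {n : ℕ} (V : Polynomial ℝ) (X : Fin n → Fin n → ℝ) :
    Matrix.trace (Polynomial.aeval (hmat X) V) = ((∑ i, V.eval (evs X i) : ℝ) : ℂ) := by
  induction V using Polynomial.induction_on' with
  | add p q hp hq =>
    rw [map_add, Matrix.trace_add, hp, hq]
    push_cast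
    rw [← Finset.sum_add_distrib]
    refine Finset.sum_congr rfl fun i _ => ?_
    rw [Polynomial.eval_add]
    push_cast
    ring
  | monomial k a =>
    rw [Polynomial.aeval_monomial, ← Algebra.smul_def, Matrix.trace_smul, m1b_pow]
    push_cast
    rw [Finset.smul_sum]
    refine Finset.sum_congr rfl fun i _ => ?_
    rw [Polynomial.eval_monomial]
    push_cast
    rw [Complex.real_smul]

theorem trace_W {n : ℕ} (α : ℝ) (X : Fin n → Fin n → ℝ) :
    Matrix.trace ((1 / 4 : ℂ) • (hmat X) ^ 4 + ((α / 2 : ℝ) : ℂ) • (hmat X) ^ 2) =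
      ((∑ i, Wr α (evs X i) : ℝ) : ℂ) := by
  rw [Matrix.trace_add, Matrix.trace_smul, Matrix.trace_smul, m1b_pow, m1b_pow, Finset.smul_sum,
    Finset.smul_sum, ← Finset.sum_add_distrib]
  push_cast
  refine Finset.sum_congr rfl fun i _ => ?_
  unfold Wr
  push_cast
  rw [smul_eq_mul, smul_eq_mul]
  ring

end

end Pool.Agent.MP_941b23_mp
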