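import Pool.Agent.MP_941b23_mp.Defs2

/-!
# Row [QM-M2]: unitary invariance
-/

namespace Pool.Agent.MP_941b23_mp

open MeasureTheory Set Filter Topology Matrix
open scoped ENNReal NNReal Real

noncomputable section

/-- the real coordinates of a Hermitian matrix -/
def m2_cmat {n : ℕ} (M : Matrix (Fin n) (Fin n) ℂ) : Fin n → Fin n → ℝ :=
  fun i j => if i ≤ j then (M i j).re else (M j i).im

theorem m2_cmat_hmat {n : ℕ} (X : Fin n → Fin n → ℝ) : m2_cmat (hmat X) = X := by
  funext i j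
  simp only [m2_cmat, hmat]
  rcases lt_trichotomy i j with h | h | h
  · simp [h.le, h.ne, h]
  · subst h; simp
  · simp [not_le.2 h, h.ne, h]

theorem m2_hmat_cmat {n : ℕ} (M : Matrix (Fin n) (Fin n) ℂ) (hM : M.IsHermitian) :
    hmat (m2_cmat M) = M := by
  have hc : ∀ i j, M i j = (starRingEnd ℂ) (M j i) := fun i j => (hM.apply i j).symm
  ext i j
  simp only [m2_cmat, hmat]
  rcases lt_trichotomy i j with h | h | h
  · rw [if_neg h.ne, if_pos h, if_pos h.le, if_neg (not_le.2 h)]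
    exact Complex.re_add_im _
  · subst h
    rw [if_pos rfl, if_pos le_rfl]
    have h1 := hc i i
    exact (Complex.conj_eq_iff_re.1 h1.symm)
  · rw [if_neg h.ne', if_neg (not_lt.2 h.le), if_pos h.le, if_neg (not_le.2 h), hc i j]
    apply Complex.ext
    · simp
    · simp

theorem m2_hmat_add {n : ℕ} (X Y : Fin n → Fin n → ℝ) : hmat (X + Y) = hmat X + hmat Y := by
  ext i j
  simp only [hmat, Matrix.add_apply, Pi.add_apply]
  split_ifs <;> push_cast <;> ring

theorem m2_hmat_smul {n : ℕ} (c : ℝ) (X : Fin n → Fin n → ℝ) :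
    hmat (c • X) = (c : ℂ) • hmat X := by
  ext i j
  simp only [hmat, Matrix.smul_apply, Pi.smul_apply, smul_eq_mul]
  split_ifs <;> push_cast <;> ring

theorem m2_cmat_add {n : ℕ} (M N : Matrix (Fin n) (Fin n) ℂ) :
    m2_cmat (M + N) = m2_cmat M + m2_cmat N := by
  funext i j
  simp only [m2_cmat, Matrix.add_apply, Pi.add_apply]
  split_ifs <;> simp

theorem m2_cmat_smul {n : ℕ} (c : ℝ) (M : Matrix (Fin n) (Fin n) ℂ) :
    m2_cmat ((c : ℂ) • M) = c • m2_cmat M := by
  funext i j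
  simp only [m2_cmat, Matrix.smul_apply, Pi.smul_apply, smul_eq_mul]
  split_ifs <;> simp

theorem m2_hermitian {n : ℕ} (U : Matrix (Fin n) (Fin n) ℂ) (X : Fin n → Fin n → ℝ) :
    (U * hmat X * Uᴴ).IsHermitian := by
  rw [Matrix.IsHermitian, Matrix.conjTranspose_mul, Matrix.conjTranspose_mul,
    Matrix.conjTranspose_conjTranspose, (hmat_isHermitian X).eq, Matrix.mul_assoc]

/-- conjugation in real coordinates -/
def m2_T {n : ℕ} (U : Matrix (Fin n) (Fin n) ℂ) :
    (Fin n → Fin n → ℝ) →ₗ[ℝ] (Fin n → Fin n → ℝ) where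
  toFun X := m2_cmat (U * hmat X * Uᴴ)
  map_add' X Y := by
    rw [m2_hmat_add, Matrix.mul_add, Matrix.add_mul, m2_cmat_add]
  map_smul' c X := by
    rw [m2_hmat_smul, Matrix.mul_smul, Matrix.smul_mul, m2_cmat_smul, RingHom.id_apply]

theorem m2_T_apply {n : ℕ} (U : Matrix (Fin n) (Fin n) ℂ) (X : Fin n → Fin n → ℝ) :
    hmat (m2_T U X) = U * hmat X * Uᴴ :=
  m2_hmat_cmat _ (m2_hermitian U X)

theorem m2_T_inv {n : ℕ} (U V : Matrix (Fin n) (Fin n) ℂ) (h : V * U = 1)
    (X : Fin n → Fin n → ℝ) : m2_T V (m2_T U X) = X := by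
  have h1 : hmat (m2_T V (m2_T U X)) = hmat X := by
    rw [m2_T_apply, m2_T_apply]
    have h2 : Uᴴ * Vᴴ = 1 := by
      rw [← Matrix.conjTranspose_mul, h, Matrix.conjTranspose_one]
    calc V * (U * hmat X * Uᴴ) * Vᴴ = (V * U) * hmat X * (Uᴴ * Vᴴ) := by
          simp only [Matrix.mul_assoc]
      _ = hmat X := by rw [h, h2, Matrix.one_mul, Matrix.mul_one]
  rw [← m2_cmat_hmat (m2_T V (m2_T U X)), h1, m2_cmat_hmat]

/-- the linear equivalence -/
def m2_E {n : ℕ} (U V : Matrix (Fin n) (Fin n) ℂ) (h : V * U = 1) (h' : U * V = 1) :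
    (Fin n → Fin n → ℝ) ≃ₗ[ℝ] (Fin n → Fin n → ℝ) where
  toLinearMap := m2_T U
  invFun := m2_T V
  left_inv := m2_T_inv U V h
  right_inv := m2_T_inv V U h'

/-- the invariant quadratic form -/
def m2_q {n : ℕ} (X : Fin n → Fin n → ℝ) : ℝ := ∑ i, ∑ j, Complex.normSq (hmat X i j)

theorem m2_q_eq {n : ℕ} (X : Fin n → Fin n → ℝ) :
    ((m2_q X : ℝ) : ℂ) = Matrix.trace (hmat X * hmat X) := by
  rw [m2_q, Matrix.trace]
  push_cast
  refine Finset.sum_congr rfl fun i _ => ?_
  rw [Matrix.diag_apply, Matrix.mul_apply]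
  refine Finset.sum_congr rfl fun j _ => ?_
  have h1 : hmat X j i = (starRingEnd ℂ) (hmat X i j) := ((hmat_isHermitian X).apply j i).symm
  rw [h1, Complex.mul_conj]

theorem m2_q_T {n : ℕ} (U V : Matrix (Fin n) (Fin n) ℂ) (hV : V = Uᴴ) (h : V * U = 1)
    (X : Fin n → Fin n → ℝ) : m2_q (m2_T U X) = m2_q X := by
  have h1 : ((m2_q (m2_T U X) : ℝ) : ℂ) = ((m2_q X : ℝ) : ℂ) := by
    rw [m2_q_eq, m2_q_eq, m2_T_apply, ← hV]
    calc Matrix.trace (U * hmat X * V * (U * hmat X * V)) =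
        Matrix.trace (U * (hmat X * (V * U) * hmat X * V)) := by simp only [Matrix.mul_assoc]
      _ = Matrix.trace (hmat X * (V * U) * hmat X * V * U) := Matrix.trace_mul_comm _ _
      _ = Matrix.trace (hmat X * hmat X) := by
        rw [h, Matrix.mul_one, Matrix.mul_assoc, h, Matrix.mul_one]
  exact Complex.ofReal_injective h1

theorem m2_continuous_q {n : ℕ} : Continuous (m2_q : (Fin n → Fin n → ℝ) → ℝ) := by
  unfold m2_q
  refine continuous_finsetSum _ fun i _ => continuous_finsetSum _ fun j _ => ?_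
  refine Complex.continuous_normSq.comp ?_
  have h1 : ∀ a b : Fin n, Continuous (fun X : Fin n → Fin n → ℝ => ((X a b : ℝ) : ℂ)) :=
    fun a b => Complex.continuous_ofReal.comp ((continuous_apply b).comp (continuous_apply a))
  simp only [hmat]
  split_ifs
  · exact h1 i i
  · exact (h1 i j).add ((h1 j i).mul continuous_const)
  · exact (h1 j i).sub ((h1 i j).mul continuous_const)

theorem m2_entry_le {n : ℕ} (X : Fin n → Fin n → ℝ) (i j : Fin n) : X i j ^ 2 ≤ m2_q X := by
  have hq : ∀ i j, Complex.normSq (hmat X i j) ≤ m2_q X := by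
    intro i j
    refine (Finset.single_le_sum (f := fun j => Complex.normSq (hmat X i j))
      (fun j _ => Complex.normSq_nonneg _) (Finset.mem_univ j)).trans ?_
    exact Finset.single_le_sum (f := fun i => ∑ j, Complex.normSq (hmat X i j))
      (fun i _ => Finset.sum_nonneg fun j _ => Complex.normSq_nonneg _) (Finset.mem_univ i)
  have hre : ∀ z : ℂ, z.re ^ 2 ≤ Complex.normSq z := fun z => by
    rw [Complex.normSq_apply]; nlinarith [mul_self_nonneg z.im]
  have him : ∀ z : ℂ, z.im ^ 2 ≤ Complex.normSq z := fun z => by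
    rw [Complex.normSq_apply]; nlinarith [mul_self_nonneg z.re]
  have h1 := congrFun (congrFun (m2_cmat_hmat X) i) j
  rw [← h1, m2_cmat]
  split_ifs with h
  · exact (hre _).trans (hq i j)
  · exact (him _).trans (hq j i)

theorem m2_haar (n : ℕ) : (volume : Measure (Fin n → Fin n → ℝ)).IsAddHaarMeasure := by
  have : ∀ i : Fin n, (volume : Measure (Fin n → ℝ)).IsAddHaarMeasure := fun _ => inferInstance
  exact Measure.pi.isAddHaarMeasure (fun _ : Fin n => (volume : Measure (Fin n → ℝ)))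

theorem m2_det {n : ℕ} (U V : Matrix (Fin n) (Fin n) ℂ) (hV : V = Uᴴ) (h : V * U = 1)
    (h' : U * V = 1) : |LinearMap.det (m2_T U)| = 1 := by
  have hH := m2_haar n
  set S : Set (Fin n → Fin n → ℝ) := {X | m2_q X < 1} with hS
  have hopen : IsOpen S := isOpen_lt m2_continuous_q continuous_const
  have h0 : (0 : Fin n → Fin n → ℝ) ∈ S := by
    have : m2_q (0 : Fin n → Fin n → ℝ) = 0 := by
      simp only [m2_q]
      refine Finset.sum_eq_zero fun i _ => Finset.sum_eq_zero fun j _ => ?_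
      have : hmat (0 : Fin n → Fin n → ℝ) i j = 0 := by
        simp [hmat]
      rw [this, map_zero]
    rw [hS, mem_ofPred_eq, this]
    exact one_pos
  have hpos : 0 < volume S := hopen.measure_pos volume ⟨0, h0⟩
  have hbdd : Bornology.IsBounded S := by
    refine (Metric.isBounded_closedBall (x := (0 : Fin n → Fin n → ℝ)) (r := 1)).subset ?_
    intro X hX
    rw [mem_closedBall_zero_iff, pi_norm_le_iff_of_nonneg zero_le_one]
    intro i
    rw [pi_norm_le_iff_of_nonneg zero_le_one]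
    intro j
    rw [Real.norm_eq_abs]
    have h1 : X i j ^ 2 < 1 := (m2_entry_le X i j).trans_lt hX
    exact (abs_lt_of_sq_lt_sq (by rw [one_pow]; exact h1) zero_le_one).le
  have hfin : volume S < ⊤ := hbdd.measure_lt_top
  have himg : m2_T U '' S = S := by
    ext X
    constructor
    · rintro ⟨Y, hY, rfl⟩
      rw [hS, mem_ofPred_eq, m2_q_T U V hV h]
      exact hY
    · intro hX
      refine ⟨m2_T V X, ?_, m2_T_inv V U h' X⟩
      have hU : U = Vᴴ := by rw [hV, Matrix.conjTranspose_conjTranspose]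
      rw [hS, mem_ofPred_eq, m2_q_T V U hU h']
      exact hX
  have h1 := Measure.addHaar_image_linearMap volume (m2_T U) S
  rw [himg] at h1
  have h2 : ENNReal.ofReal |LinearMap.det (m2_T U)| = 1 := by
    have h3 : 1 * volume S = ENNReal.ofReal |LinearMap.det (m2_T U)| * volume S := by
      rw [one_mul]; exact h1
    exact ((ENNReal.mul_left_inj hpos.ne' hfin.ne).1 h3).symm
  rw [ENNReal.ofReal_eq_one] at h2
  exact h2

theorem exists_unitary_action {n : ℕ} (U : Matrix.unitaryGroup (Fin n) ℂ) :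
    ∃ T : (Fin n → Fin n → ℝ) ≃ᵐ (Fin n → Fin n → ℝ), MeasurePreserving T ∧
      ∀ X, hmat (T X) = (U : Matrix (Fin n) (Fin n) ℂ) * hmat X *
        (U : Matrix (Fin n) (Fin n) ℂ).conjTranspose := by
  have hH := m2_haar n
  have h : (U : Matrix (Fin n) (Fin n) ℂ)ᴴ * (U : Matrix (Fin n) (Fin n) ℂ) = 1 :=
    Matrix.mem_unitaryGroup_iff'.1 U.2
  have h' : (U : Matrix (Fin n) (Fin n) ℂ) * (U : Matrix (Fin n) (Fin n) ℂ)ᴴ = 1 :=
    Matrix.mem_unitaryGroup_iff.1 U.2
  let e := (m2_E (U : Matrix (Fin n) (Fin n) ℂ) _ h h').toContinuousLinearEquiv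
  refine ⟨e.toHomeomorph.toMeasurableEquiv, ⟨(e.toHomeomorph.toMeasurableEquiv).measurable, ?_⟩,
    fun X => m2_T_apply _ X⟩
  have hdet := m2_det (U : Matrix (Fin n) (Fin n) ℂ) _ rfl h h'
  have hdet0 : LinearMap.det (m2_T (U : Matrix (Fin n) (Fin n) ℂ)) ≠ 0 := by
    intro h0
    rw [h0, abs_zero] at hdet
    exact zero_ne_one hdet
  have h1 := Measure.map_linearMap_addHaar_eq_smul_addHaar
    (volume : Measure (Fin n → Fin n → ℝ)) hdet0
  rw [abs_inv, hdet, inv_one, ENNReal.ofReal_one, one_smul] at h1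
  exact h1

theorem m2_hmat_dg {n : ℕ} (a : Fin n → ℝ) :
    hmat (dg a) = Matrix.diagonal (fun i => ((a i : ℝ) : ℂ)) := by
  ext i j
  simp only [hmat, dg, Matrix.diagonal_apply]
  by_cases h : i = j
  · subst h; simp
  · have h' : ¬ j = i := fun h1 => h h1.symm
    simp [h, h']

theorem exists_diag {n : ℕ} (X : Fin n → Fin n → ℝ) :
    ∃ U : Matrix.unitaryGroup (Fin n) ℂ, hmat X = (U : Matrix (Fin n) (Fin n) ℂ) *
      hmat (dg (evd X)) * (U : Matrix (Fin n) (Fin n) ℂ).conjTranspose := by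
  set hA := hmat_isHermitian X
  -- the permutation
  let σ : Equiv.Perm (Fin n) :=
    (Fintype.equivOfCardEq (Fintype.card_fin (Fintype.card (Fin n)))).symm.trans
      (finCongr (Fintype.card_fin n))
  have hσ : ∀ i, hA.eigenvalues i = evd X (σ i) := fun i => rfl
  let W : Matrix (Fin n) (Fin n) ℂ := (hA.eigenvectorUnitary : Matrix (Fin n) (Fin n) ℂ)
  have hW : W * Wᴴ = 1 := Matrix.mem_unitaryGroup_iff.1 hA.eigenvectorUnitary.2
  let U' : Matrix (Fin n) (Fin n) ℂ := fun i k => W i (σ.symm k)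
  have hU' : U' * U'ᴴ = 1 := by
    rw [← hW]
    ext i j
    rw [Matrix.mul_apply, Matrix.mul_apply]
    exact Equiv.sum_comp σ.symm (fun k => W i k * Wᴴ k j)
  refine ⟨⟨U', Matrix.mem_unitaryGroup_iff.2 hU'⟩, ?_⟩
  have hspec : hmat X = W * Matrix.diagonal (fun i => ((hA.eigenvalues i : ℝ) : ℂ)) * Wᴴ := by
    have h1 := hA.spectral_theorem
    rw [Unitary.conjStarAlgAut_apply] at h1
    exact h1
  rw [m2_hmat_dg, hspec]
  ext i j
  rw [Matrix.mul_apply, Matrix.mul_apply]
  simp only [Matrix.mul_diagonal]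
  rw [← Equiv.sum_comp σ.symm (fun k => W i k * ((hA.eigenvalues k : ℝ) : ℂ) * Wᴴ k j)]
  refine Finset.sum_congr rfl fun k _ => ?_
  rw [hσ, Equiv.apply_symm_apply]
  rfl

end

end Pool.Agent.MP_941b23_mp
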