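import Pool.Agent.MP_941b23_mp.Defs2

/-!
# [QM-M3] bordering
-/

namespace Pool.Agent.MP_941b23_mp

open MeasureTheory Set Filter Topology
open scoped ENNReal NNReal Real

noncomputable section

theorem m3_symm {n : ℕ} {β : Type} [MeasurableSpace β] (p : β × (Fin n → β)) :
    (MeasurableEquiv.piFinSuccAbove (fun _ : Fin (n + 1) => β) 0).symm p =
      (Fin.cons p.1 p.2 : Fin (n + 1) → β) := by
  change Fin.insertNth (α := fun _ => β) 0 p.1 p.2 = _
  rw [Fin.insertNth_zero']

theorem m3_cons {n : ℕ} {β : Type} [MeasureSpace β] [SigmaFinite (volume : Measure β)]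
    (F : (Fin (n + 1) → β) → ℝ≥0∞) (hF : Measurable F) :
    ∫⁻ Z, F Z = ∫⁻ r : β, ∫⁻ R : Fin n → β, F (Fin.cons r R) := by
  have h := (volume_preserving_piFinSuccAbove (fun _ : Fin (n + 1) => β) 0).symm
  rw [← h.lintegral_comp hF]
  rw [Measure.volume_eq_prod, lintegral_prod]
  · simp only [m3_symm]
  · exact (hF.comp (MeasurableEquiv.measurable _)).aemeasurable

theorem m3_rows {n : ℕ} (g : (Fin n → Fin (n + 1) → ℝ) → ℝ≥0∞) (hg : Measurable g) :
    ∫⁻ R, g R = ∫⁻ w : Fin n → ℝ, ∫⁻ X : Fin n → Fin n → ℝ,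
      g (fun i => Fin.cons (w i) (X i)) := by
  have h1 : MeasurePreserving (fun (p : Fin n → ℝ × (Fin n → ℝ)) (i : Fin n) =>
      (MeasurableEquiv.piFinSuccAbove (fun _ : Fin (n + 1) => ℝ) 0).symm (p i)) :=
    volume_preserving_pi fun _ =>
      (volume_preserving_piFinSuccAbove (fun _ : Fin (n + 1) => ℝ) 0).symm
  have h2 := (volume_measurePreserving_arrowProdEquivProdArrow ℝ (Fin n → ℝ) (Fin n)).symm
  have hm := hg.comp h1.measurable
  have e1 := h1.lintegral_comp hg
  have e2 := h2.lintegral_comp hm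
  rw [← e1]
  refine e2.symm.trans ?_
  rw [Measure.volume_eq_prod, lintegral_prod]
  · simp only [Function.comp_apply, m3_symm]
    rfl
  · exact (hm.comp (MeasurableEquiv.measurable _)).aemeasurable

theorem m3_measurable {n : ℕ} : Measurable fun p : ((ℝ × (Fin n → ℝ)) × (Fin n → ℝ)) ×
    (Fin n → Fin n → ℝ) => bord p.1.1.1 p.1.1.2 p.1.2 p.2 := by
  refine measurable_pi_lambda _ fun i => measurable_pi_lambda _ fun j => ?_
  refine Fin.cases ?_ (fun i => ?_) i <;> refine Fin.cases ?_ (fun j => ?_) j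
  · exact measurable_fst.fst.fst
  · exact (measurable_pi_apply j).comp measurable_fst.fst.snd
  · exact (measurable_pi_apply i).comp measurable_fst.snd
  · exact (measurable_pi_apply j).comp ((measurable_pi_apply i).comp measurable_snd)

theorem lintegral_bord {n : ℕ} (F : (Fin (n + 1) → Fin (n + 1) → ℝ) → ℝ≥0∞)
    (hF : Measurable F) :
    ∫⁻ Z, F Z = ∫⁻ X : Fin n → Fin n → ℝ, ∫⁻ u : Fin n → ℝ, ∫⁻ w : Fin n → ℝ, ∫⁻ t : ℝ,
      F (bord t u w X) := by
  have hb := hF.comp (m3_measurable (n := n))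
  rw [m3_cons F hF]
  -- all as one function of `(((t, u), w), X)`
  have e1 : ∀ r : Fin (n + 1) → ℝ, ∫⁻ R : Fin n → Fin (n + 1) → ℝ, F (Fin.cons r R) =
      ∫⁻ w : Fin n → ℝ, ∫⁻ X : Fin n → Fin n → ℝ,
        F (Fin.cons r (fun i => Fin.cons (w i) (X i))) := by
    intro r
    refine m3_rows (fun R => F (Fin.cons r R)) ?_
    refine hF.comp ?_
    refine measurable_pi_lambda _ fun i => ?_
    refine Fin.cases ?_ (fun i => ?_) i
    · exact measurable_const
    · exact measurable_pi_apply i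
  simp_rw [e1]
  rw [m3_cons (β := ℝ)]
  swap
  · have h3 : Measurable fun q : ((Fin (n + 1) → ℝ) × (Fin n → ℝ)) × (Fin n → Fin n → ℝ) =>
        F (Fin.cons q.1.1 (fun i => Fin.cons (q.1.2 i) (q.2 i))) := by
      refine hF.comp ?_
      refine measurable_pi_lambda _ fun i => ?_
      refine Fin.cases ?_ (fun i => ?_) i
      · exact measurable_fst.fst
      · refine measurable_pi_lambda _ fun j => ?_
        refine Fin.cases ?_ (fun j => ?_) j
        · exact (measurable_pi_apply i).comp measurable_fst.snd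
        · exact (measurable_pi_apply j).comp ((measurable_pi_apply i).comp measurable_snd)
    exact (h3.lintegral_prod_right').lintegral_prod_right'
  -- now the order of integration
  have hG : Measurable fun p : ((ℝ × (Fin n → ℝ)) × (Fin n → ℝ)) × (Fin n → Fin n → ℝ) =>
      F (bord p.1.1.1 p.1.1.2 p.1.2 p.2) := hb
  calc ∫⁻ t : ℝ, ∫⁻ u : Fin n → ℝ, ∫⁻ w : Fin n → ℝ, ∫⁻ X : Fin n → Fin n → ℝ,
        F (bord t u w X)
      = ∫⁻ p : ((ℝ × (Fin n → ℝ)) × (Fin n → ℝ)) × (Fin n → Fin n → ℝ),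
          F (bord p.1.1.1 p.1.1.2 p.1.2 p.2) := by
        rw [Measure.volume_eq_prod, lintegral_prod _ hG.aemeasurable, Measure.volume_eq_prod,
          lintegral_prod _ (hG.lintegral_prod_right').aemeasurable, Measure.volume_eq_prod,
          lintegral_prod _ (hG.lintegral_prod_right').lintegral_prod_right'.aemeasurable]
    _ = ∫⁻ X : Fin n → Fin n → ℝ, ∫⁻ u : Fin n → ℝ, ∫⁻ w : Fin n → ℝ, ∫⁻ t : ℝ,
        F (bord t u w X) := by
        rw [Measure.volume_eq_prod, lintegral_prod_symm _ hG.aemeasurable]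
        refine lintegral_congr fun X => ?_
        have hX : Measurable fun p : (ℝ × (Fin n → ℝ)) × (Fin n → ℝ) =>
            F (bord p.1.1 p.1.2 p.2 X) := hG.comp (measurable_id.prodMk measurable_const)
        rw [Measure.volume_eq_prod, lintegral_prod _ hX.aemeasurable, Measure.volume_eq_prod,
          lintegral_prod_symm _ (hX.lintegral_prod_right').aemeasurable]
        refine lintegral_congr fun u => ?_
        have hu : Measurable (Function.uncurry fun (t : ℝ) (w : Fin n → ℝ) =>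
            F (bord t u w X)) :=
          hX.comp (((measurable_fst).prodMk measurable_const).prodMk measurable_snd)
        exact lintegral_lintegral_swap hu.aemeasurable

/-! ### The characteristic polynomial of an arrow matrix -/

/-- arrow matrix on `Unit ⊕ Fin n` -/
theorem m3_arrow {R : Type*} [CommRing R] [IsDomain R] {n : ℕ} (p : R) (b c d : Fin n → R)
    (hd : ∀ i, d i ≠ 0) :
    (Matrix.fromBlocks (Matrix.of fun _ _ : Fin 1 => p) (Matrix.of fun (_ : Fin 1) j => b j)
      (Matrix.of fun i (_ : Fin 1) => c i) (Matrix.diagonal d)).det =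
      p * ∏ i, d i - ∑ i, b i * c i * ∏ j ∈ Finset.univ.erase i, d j := by
  set A : Matrix (Fin 1 ⊕ Fin n) (Fin 1 ⊕ Fin n) R :=
    Matrix.fromBlocks (Matrix.of fun _ _ : Fin 1 => p) (Matrix.of fun (_ : Fin 1) j => b j)
      (Matrix.of fun i (_ : Fin 1) => c i) (Matrix.diagonal d) with hA
  set Q : R := ∏ i, d i with hQ
  have hQ0 : Q ≠ 0 := Finset.prod_ne_zero_iff.2 fun i _ => hd i
  set B : Matrix (Fin 1 ⊕ Fin n) (Fin 1 ⊕ Fin n) R :=
    Matrix.fromBlocks (Matrix.of fun _ _ : Fin 1 => Q) 0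
      (Matrix.of fun i (_ : Fin 1) => -(c i * ∏ j ∈ Finset.univ.erase i, d j)) 1 with hB
  have hBdet : B.det = Q := by
    rw [hB, Matrix.det_fromBlocks_zero₁₂, Matrix.det_one, mul_one, Matrix.det_unique]
    rfl
  have hAB : A * B = Matrix.fromBlocks
      (Matrix.of fun _ _ : Fin 1 => p * Q - ∑ i, b i * c i * ∏ j ∈ Finset.univ.erase i, d j)
      (Matrix.of fun (_ : Fin 1) j => b j) 0 (Matrix.diagonal d) := by
    rw [hA, hB, Matrix.fromBlocks_multiply]
    congr 1
    · ext i j
      simp only [Matrix.add_apply, Matrix.mul_apply, Matrix.of_apply, Finset.univ_unique,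
        Finset.sum_singleton, mul_neg, Finset.sum_neg_distrib, sub_eq_add_neg]
      congr 2
      refine Finset.sum_congr rfl fun x _ => ?_
      ring
    · rw [Matrix.mul_zero, zero_add, Matrix.mul_one]
    · ext i j
      simp only [Matrix.add_apply, Matrix.mul_apply, Matrix.of_apply, Finset.univ_unique,
        Finset.sum_singleton, Matrix.zero_apply, Matrix.diagonal_apply, ite_mul, zero_mul,
        Finset.sum_ite_eq, Finset.mem_univ, if_true]
      rw [hQ, ← Finset.mul_prod_erase Finset.univ d (Finset.mem_univ i)]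
      ring
    · rw [Matrix.mul_zero, zero_add, Matrix.mul_one]
  have h1 : A.det * Q = (p * Q - ∑ i, b i * c i * ∏ j ∈ Finset.univ.erase i, d j) * Q := by
    rw [← hBdet, ← Matrix.det_mul, hAB, Matrix.det_fromBlocks_zero₂₁, Matrix.det_unique,
      Matrix.det_diagonal, hBdet]
    rfl
  exact mul_right_cancel₀ hQ0 h1

/-- characteristic polynomial of an arrow matrix -/
theorem charpoly_arrow {n : ℕ} (t : ℝ) (u w a : Fin n → ℝ) :
    (hmat (bord t u w (dg a))).charpoly =
      (Polynomial.X - Polynomial.C (t : ℂ)) * ∏ i, (Polynomial.X - Polynomial.C ((a i : ℝ) : ℂ)) -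
      ∑ i, Polynomial.C (((u i ^ 2 + w i ^ 2 : ℝ)) : ℂ) *
        ∏ j ∈ Finset.univ.erase i, (Polynomial.X - Polynomial.C ((a j : ℝ) : ℂ)) := by
  have h00 : hmat (bord t u w (dg a)) 0 0 = (t : ℂ) := by
    simp [hmat, bord]
  have h0s : ∀ j : Fin n, hmat (bord t u w (dg a)) 0 j.succ = (u j : ℂ) + (w j : ℂ) * Complex.I := by
    intro j
    have h1 : (0 : Fin (n + 1)) ≠ j.succ := (Fin.succ_ne_zero j).symm
    simp [hmat, bord, h1]
  have hs0 : ∀ j : Fin n, hmat (bord t u w (dg a)) j.succ 0 = (u j : ℂ) - (w j : ℂ) * Complex.I := by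
    intro j
    have h1 : j.succ ≠ (0 : Fin (n + 1)) := Fin.succ_ne_zero j
    simp [hmat, bord, h1]
  have hss : ∀ i j : Fin n, hmat (bord t u w (dg a)) i.succ j.succ =
      if i = j then (a i : ℂ) else 0 := by
    intro i j
    by_cases h : i = j
    · subst h
      simp [hmat, bord, dg]
    · have h' : j ≠ i := Ne.symm h
      simp [hmat, bord, dg, h, h', Fin.succ_inj]
  have hreind : (hmat (bord t u w (dg a))).charmatrix.submatrix
      (fun x : Fin 1 ⊕ Fin n => (Sum.elim (fun _ => 0) Fin.succ x : Fin (n + 1)))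
      (fun x : Fin 1 ⊕ Fin n => (Sum.elim (fun _ => 0) Fin.succ x : Fin (n + 1))) =
      Matrix.fromBlocks (Matrix.of fun _ _ : Fin 1 => Polynomial.X - Polynomial.C (t : ℂ))
        (Matrix.of fun (_ : Fin 1) j => -Polynomial.C ((u j : ℂ) + (w j : ℂ) * Complex.I))
        (Matrix.of fun i (_ : Fin 1) => -Polynomial.C ((u i : ℂ) - (w i : ℂ) * Complex.I))
        (Matrix.diagonal fun i => Polynomial.X - Polynomial.C ((a i : ℝ) : ℂ)) := by
    ext1 i j
    rcases i with i | i <;> rcases j with j | j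
    · simp only [Matrix.submatrix_apply, Sum.elim_inl, Matrix.fromBlocks_apply₁₁, Matrix.of_apply,
        Matrix.charmatrix_apply_eq, h00]
    · simp only [Matrix.submatrix_apply, Sum.elim_inl, Sum.elim_inr, Matrix.fromBlocks_apply₁₂,
        Matrix.of_apply]
      rw [Matrix.charmatrix_apply_ne _ _ _ (Fin.succ_ne_zero j).symm, h0s]
    · simp only [Matrix.submatrix_apply, Sum.elim_inl, Sum.elim_inr, Matrix.fromBlocks_apply₂₁,
        Matrix.of_apply]
      rw [Matrix.charmatrix_apply_ne _ _ _ (Fin.succ_ne_zero i), hs0]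
    · simp only [Matrix.submatrix_apply, Sum.elim_inr, Matrix.fromBlocks_apply₂₂]
      by_cases h : i = j
      · subst h
        rw [Matrix.charmatrix_apply_eq, hss, if_pos rfl, Matrix.diagonal_apply_eq]
      · rw [Matrix.charmatrix_apply_ne _ _ _ (fun h' => h (Fin.succ_injective _ h')), hss,
          if_neg h, Matrix.diagonal_apply_ne _ h, Polynomial.C_0, neg_zero]
  have hbij : Function.Bijective
      (fun x : Fin 1 ⊕ Fin n => (Sum.elim (fun _ => 0) Fin.succ x : Fin (n + 1))) := by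
    constructor
    · rintro (i | i) (j | j) h
      · rw [Subsingleton.elim i j]
      · exact absurd h (Fin.succ_ne_zero j).symm
      · exact absurd h (Fin.succ_ne_zero i)
      · exact congrArg Sum.inr (Fin.succ_injective _ h)
    · intro k
      refine Fin.cases ⟨Sum.inl 0, rfl⟩ (fun k => ⟨Sum.inr k, rfl⟩) k
  have hdet : (hmat (bord t u w (dg a))).charpoly =
      ((hmat (bord t u w (dg a))).charmatrix.submatrix
      (Equiv.ofBijective _ hbij) (Equiv.ofBijective _ hbij)).det := by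
    rw [Matrix.det_submatrix_equiv_self]
    rfl
  have hcoe : ((Equiv.ofBijective _ hbij : Fin 1 ⊕ Fin n ≃ Fin (n + 1)) :
      Fin 1 ⊕ Fin n → Fin (n + 1)) =
      (fun x : Fin 1 ⊕ Fin n => (Sum.elim (fun _ => 0) Fin.succ x : Fin (n + 1))) := rfl
  rw [hdet, hcoe, hreind, m3_arrow]
  · congr 1
    refine Finset.sum_congr rfl fun i _ => ?_
    congr 1
    rw [neg_mul_neg, ← Polynomial.C_mul]
    congr 1
    push_cast
    linear_combination -(w i : ℂ) ^ 2 * Complex.I_sq
  · intro i
    exact Polynomial.X_sub_C_ne_zero _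

/-! ### Polar coordinates -/

theorem m3_polar_one (f : ℝ → ℝ≥0∞) (hf : Measurable f) :
    ∫⁻ p : ℝ × ℝ, f (p.1 ^ 2 + p.2 ^ 2) = ENNReal.ofReal π * ∫⁻ t in Ioi (0 : ℝ), f t := by
  rw [← lintegral_comp_polarCoord_symm]
  have hm : Measurable fun r : ℝ => ENNReal.ofReal r * f (r ^ 2) :=
    (ENNReal.measurable_ofReal).mul (hf.comp (measurable_id.pow_const 2))
  have e1 : ∫⁻ p in polarCoord.target, ENNReal.ofReal p.1 •
      f ((polarCoord.symm p).1 ^ 2 + (polarCoord.symm p).2 ^ 2) =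
      ∫⁻ p in Ioi (0 : ℝ) ×ˢ Ioo (-π) π, ENNReal.ofReal p.1 * f (p.1 ^ 2) := by
    rw [polarCoord_target]
    refine lintegral_congr fun p => ?_
    rw [polarCoord_symm_apply, smul_eq_mul]
    congr 2
    simp only
    linear_combination p.1 ^ 2 * (Real.sin_sq_add_cos_sq p.2)
  rw [e1, Measure.volume_eq_prod, ← Measure.prod_restrict, lintegral_prod]
  swap
  · exact (hm.comp measurable_fst).aemeasurable
  simp only [lintegral_const, Measure.restrict_apply MeasurableSet.univ, Set.univ_inter,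
    Real.volume_Ioo]
  rw [lintegral_mul_const _ hm]
  have e2 : ∫⁻ t in Ioi (0 : ℝ), f t =
      ∫⁻ r in Ioi (0 : ℝ), ENNReal.ofReal (|2 * r|) * f (r ^ 2) := by
    have himg : (fun r : ℝ => r ^ 2) '' Ioi 0 = Ioi 0 := by
      ext t
      constructor
      · rintro ⟨r, hr, rfl⟩
        exact pow_pos (mem_Ioi.1 hr) 2
      · intro ht
        exact ⟨Real.sqrt t, Real.sqrt_pos.2 ht, Real.sq_sqrt (le_of_lt ht)⟩
    have h := lintegral_image_eq_lintegral_abs_deriv_mul (s := Ioi (0 : ℝ))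
      (f := fun r : ℝ => r ^ 2) (f' := fun r => 2 * r) measurableSet_Ioi
      (fun x _ => by
        have := (hasDerivAt_pow 2 x).hasDerivWithinAt (s := Ioi (0 : ℝ))
        simpa using this)
      (by
        intro x hx y hy hxy
        exact (sq_eq_sq₀ (le_of_lt hx) (le_of_lt hy)).1 hxy) f
    rw [himg] at h
    exact h
  rw [e2]
  have e3 : ∫⁻ r in Ioi (0 : ℝ), ENNReal.ofReal (|2 * r|) * f (r ^ 2) =
      ∫⁻ r in Ioi (0 : ℝ), 2 * (ENNReal.ofReal r * f (r ^ 2)) := by
    refine setLIntegral_congr_fun measurableSet_Ioi fun r hr => ?_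
    have hr' : (0 : ℝ) < r := hr
    rw [abs_of_pos (by linarith), ENNReal.ofReal_mul (by norm_num), ENNReal.ofReal_ofNat, mul_assoc]
  rw [e3, lintegral_const_mul _ hm]
  have e4 : ENNReal.ofReal (π - -π) = 2 * ENNReal.ofReal π := by
    rw [show π - -π = 2 * π by ring, ENNReal.ofReal_mul (by norm_num), ENNReal.ofReal_ofNat]
  rw [e4]
  ring

theorem lintegral_polar {n : ℕ} (Φ : (Fin n → ℝ) → ℝ≥0∞) (hΦ : Measurable Φ) :
    ∫⁻ u : Fin n → ℝ, ∫⁻ w : Fin n → ℝ, Φ (fun i => u i ^ 2 + w i ^ 2) =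
      ENNReal.ofReal π ^ n * ∫⁻ w in {w : Fin n → ℝ | ∀ i, 0 < w i}, Φ w := by
  have hms : Measurable fun p : ℝ × ℝ => p.1 ^ 2 + p.2 ^ 2 := by fun_prop
  -- the image measure in one variable
  have hν : (volume : Measure (ℝ × ℝ)).map (fun p : ℝ × ℝ => p.1 ^ 2 + p.2 ^ 2) =
      ENNReal.ofReal π • (volume.restrict (Ioi (0 : ℝ))) := by
    refine Measure.ext_of_lintegral _ fun f hf => ?_
    rw [lintegral_map hf hms, m3_polar_one f hf, lintegral_smul_measure, smul_eq_mul]
  have hπ : ENNReal.ofReal π ≠ ⊤ := ENNReal.ofReal_ne_top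
  have hsf : SigmaFinite (ENNReal.ofReal π • (volume.restrict (Ioi (0 : ℝ)))) := by
    change SigmaFinite ((Real.toNNReal π : ℝ≥0) • (volume.restrict (Ioi (0 : ℝ))))
    infer_instance
  have h2 := volume_measurePreserving_arrowProdEquivProdArrow ℝ ℝ (Fin n)
  have hmp : Measurable fun p : (Fin n → ℝ) × (Fin n → ℝ) =>
      Φ (fun i => p.1 i ^ 2 + p.2 i ^ 2) := by
    refine hΦ.comp (measurable_pi_lambda _ fun i => ?_)
    exact (((measurable_pi_apply i).comp measurable_fst).pow_const 2).add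
      (((measurable_pi_apply i).comp measurable_snd).pow_const 2)
  calc ∫⁻ u : Fin n → ℝ, ∫⁻ w : Fin n → ℝ, Φ (fun i => u i ^ 2 + w i ^ 2)
      = ∫⁻ p : (Fin n → ℝ) × (Fin n → ℝ), Φ (fun i => p.1 i ^ 2 + p.2 i ^ 2) := by
        rw [Measure.volume_eq_prod, lintegral_prod _ hmp.aemeasurable]
    _ = ∫⁻ q : Fin n → ℝ × ℝ, Φ (fun i => (q i).1 ^ 2 + (q i).2 ^ 2) := by
        rw [← h2.lintegral_comp hmp]
        rfl
    _ = ∫⁻ x, Φ x ∂((volume : Measure (Fin n → ℝ × ℝ)).map
          (fun q i => (q i).1 ^ 2 + (q i).2 ^ 2)) := by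
        rw [lintegral_map hΦ]
        exact measurable_pi_lambda _ fun i => hms.comp (measurable_pi_apply i)
    _ = ∫⁻ x, Φ x ∂(Measure.pi fun _ : Fin n =>
          ENNReal.ofReal π • (volume.restrict (Ioi (0 : ℝ)))) := by
        congr 1
        have hsf' : SigmaFinite ((volume : Measure (ℝ × ℝ)).map
            (fun p : ℝ × ℝ => p.1 ^ 2 + p.2 ^ 2)) := by rw [hν]; exact hsf
        have h3 := Measure.pi_map_pi (μ := fun _ : Fin n => (volume : Measure (ℝ × ℝ)))
          (f := fun _ p => p.1 ^ 2 + p.2 ^ 2) (hμ := fun _ => hsf') (fun _ => hms.aemeasurable)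
        rw [volume_pi, h3]
        simp_rw [hν]
    _ = ∫⁻ x, Φ x ∂(ENNReal.ofReal π ^ n •
          (volume.restrict {w : Fin n → ℝ | ∀ i, 0 < w i})) := by
        congr 1
        refine Measure.pi_eq fun s hs => ?_
        have e1 : {w : Fin n → ℝ | ∀ i, 0 < w i} = Set.univ.pi fun _ => Ioi (0 : ℝ) := by
          ext w; simp
        rw [e1, volume_pi, Measure.restrict_pi_pi, Measure.smul_apply, Measure.pi_pi]
        simp only [Measure.smul_apply, smul_eq_mul, Finset.prod_mul_distrib, Finset.prod_const,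
          Finset.card_univ, Fintype.card_fin]
    _ = ENNReal.ofReal π ^ n * ∫⁻ w in {w : Fin n → ℝ | ∀ i, 0 < w i}, Φ w := by
        rw [lintegral_smul_measure, smul_eq_mul]

end

end Pool.Agent.MP_941b23_mp
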