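import Pool.Agent.MP_941b23_mp.Defs2

/-!
# [M4] the change of variables `(w, t) ↔ x`
-/

namespace Pool.Agent.MP_941b23_mp

open MeasureTheory Set Filter Topology
open scoped ENNReal NNReal Real

noncomputable section

/-- two monic products with the same sum of the roots: the difference has degree `< n` -/
theorem m4_degree_sub {n : ℕ} (b x : Fin (n + 1) → ℝ) (h : ∑ j, b j = ∑ j, x j) :
    (∏ j, (Polynomial.X - Polynomial.C (b j)) -
      ∏ j, (Polynomial.X - Polynomial.C (x j)) : Polynomial ℝ).degree < n := by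
  rw [Polynomial.degree_lt_iff_coeff_zero]
  intro m hm
  have hd : ∀ c : Fin (n + 1) → ℝ,
      (∏ j, (Polynomial.X - Polynomial.C (c j)) : Polynomial ℝ).natDegree = n + 1 := fun c => by
    rw [Polynomial.natDegree_finsetProd_X_sub_C_eq_card]
    simp
  rw [Polynomial.coeff_sub]
  rcases Nat.lt_or_ge (n + 1) m with h1 | h1
  · rw [Polynomial.coeff_eq_zero_of_natDegree_lt (by rw [hd]; exact h1),
      Polynomial.coeff_eq_zero_of_natDegree_lt (by rw [hd]; exact h1), sub_zero]
  · rcases Nat.lt_or_ge n m with h2 | h2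
    · have : m = n + 1 := by omega
      subst this
      have hc : ∀ c : Fin (n + 1) → ℝ,
          (∏ j, (Polynomial.X - Polynomial.C (c j)) : Polynomial ℝ).coeff (n + 1) = 1 := by
        intro c
        have := (Polynomial.monic_prod_X_sub_C c Finset.univ).coeff_natDegree
        rwa [hd] at this
      rw [hc, hc, sub_self]
    · have : m = n := le_antisymm h2 hm
      subst this
      have hc : ∀ c : Fin (m + 1) → ℝ,
          (∏ j, (Polynomial.X - Polynomial.C (c j)) : Polynomial ℝ).coeff m = - ∑ j, c j := by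
        intro c
        have := Polynomial.prod_X_sub_C_coeff_card_pred (Finset.univ : Finset (Fin (m + 1))) c
          (by simp)
        simpa using this
      rw [hc, hc, h, sub_self]

theorem m4_degree_sum {n : ℕ} (a w : Fin n → ℝ) :
    (∑ i, Polynomial.C (w i) *
      ∏ j ∈ Finset.univ.erase i, (Polynomial.X - Polynomial.C (a j)) : Polynomial ℝ).degree
      < n := by
  rw [← Polynomial.mem_degreeLT]
  refine Submodule.sum_mem _ fun i _ => ?_
  rw [Polynomial.mem_degreeLT, ← Polynomial.smul_eq_C_mul]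
  refine lt_of_le_of_lt (Polynomial.degree_smul_le _ _) ?_
  have h1 := Polynomial.monic_prod_X_sub_C a (Finset.univ.erase i)
  rw [Polynomial.degree_eq_natDegree h1.ne_zero, Polynomial.natDegree_finsetProd_X_sub_C_eq_card]
  have h2 : (Finset.univ.erase i).card < n := by
    rw [Finset.card_erase_of_mem (Finset.mem_univ i)]
    simp only [Finset.card_univ, Fintype.card_fin]
    have := i.pos
    omega
  exact_mod_cast h2

/-- evaluation of the Lagrange part at `a i` -/
theorem m4_eval_sum {n : ℕ} (a w : Fin n → ℝ) (i : Fin n) :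
    (∑ i, Polynomial.C (w i) *
      ∏ j ∈ Finset.univ.erase i, (Polynomial.X - Polynomial.C (a j)) : Polynomial ℝ).eval (a i) =
      w i * ∏ j ∈ Finset.univ.erase i, (a i - a j) := by
  rw [Polynomial.eval_finsetSum, Finset.sum_eq_single i]
  · simp [Polynomial.eval_prod]
  · intro k _ hk
    rw [Polynomial.eval_mul, Polynomial.eval_prod, Finset.prod_eq_zero (i := i)
      (Finset.mem_erase.2 ⟨hk.symm, Finset.mem_univ _⟩) (by simp), mul_zero]
  · intro h
    exact absurd (Finset.mem_univ i) h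

theorem m4_prod_ne {n : ℕ} (a : Fin n → ℝ) (ha : StrictAnti a) (i : Fin n) :
    ∏ j ∈ Finset.univ.erase i, (a i - a j) ≠ 0 := by
  rw [Finset.prod_ne_zero_iff]
  intro j hj
  rw [sub_ne_zero]
  exact fun h => (Finset.mem_erase.1 hj).1 (ha.injective h).symm

/-- the polynomial `(z - t) ∏ (z - a_i) - Σ w_i ∏_{j ≠ i} (z - a_j)` -/
def m4Q {n : ℕ} (a w : Fin n → ℝ) (t : ℝ) : Polynomial ℝ :=
  (Polynomial.X - Polynomial.C t) * ∏ i, (Polynomial.X - Polynomial.C (a i)) -
    ∑ i, Polynomial.C (w i) * ∏ j ∈ Finset.univ.erase i, (Polynomial.X - Polynomial.C (a j))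

theorem m4_cons {n : ℕ} (a : Fin n → ℝ) (t : ℝ) :
    (Polynomial.X - Polynomial.C t) * ∏ i, (Polynomial.X - Polynomial.C (a i)) =
      ∏ j, (Polynomial.X - Polynomial.C ((Fin.cons t a : Fin (n + 1) → ℝ) j)) := by
  rw [Fin.prod_univ_succ]
  simp

theorem m4_eval_Q {n : ℕ} (a w : Fin n → ℝ) (t : ℝ) (i : Fin n) :
    (m4Q a w t).eval (a i) = - (w i * ∏ j ∈ Finset.univ.erase i, (a i - a j)) := by
  rw [m4Q, Polynomial.eval_sub, m4_eval_sum, Polynomial.eval_mul, Polynomial.eval_prod,
    Finset.prod_eq_zero (i := i) (Finset.mem_univ i) (by simp), mul_zero, zero_sub]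

theorem poly_of_wOf {n : ℕ} (a : Fin n → ℝ) (ha : StrictAnti a) (x : Fin (n + 1) → ℝ) :
    (Polynomial.X - Polynomial.C (∑ j, x j - ∑ i, a i)) *
        ∏ i, (Polynomial.X - Polynomial.C (a i)) -
      ∑ i, Polynomial.C (wOf a x i) * ∏ j ∈ Finset.univ.erase i, (Polynomial.X - Polynomial.C (a j))
      = ∏ j, (Polynomial.X - Polynomial.C (x j)) := by
  rw [← sub_eq_zero]
  apply Polynomial.eq_zero_of_degree_lt_of_eval_index_eq_zero (v := a) Finset.univ
    ha.injective.injOn
  · rw [m4_cons, sub_right_comm]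
    rw [Finset.card_univ, Fintype.card_fin, ← Polynomial.mem_degreeLT]
    refine Submodule.sub_mem _ ?_ ?_
    · rw [Polynomial.mem_degreeLT]
      apply m4_degree_sub
      rw [Fin.sum_univ_succ]
      simp
    · rw [Polynomial.mem_degreeLT]
      exact m4_degree_sum a (wOf a x)
  · intro i _
    have h1 := m4_eval_Q a (wOf a x) (∑ j, x j - ∑ i, a i) i
    rw [m4Q] at h1
    rw [Polynomial.eval_sub, h1, Polynomial.eval_prod]
    simp only [Polynomial.eval_sub, Polynomial.eval_X, Polynomial.eval_C]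
    have h2 := m4_prod_ne a ha i
    rw [wOf]
    field_simp
    ring

theorem m4_intX_lt {n : ℕ} {a : Fin n → ℝ} (ha : StrictAnti a) {x : Fin (n + 1) → ℝ}
    (hx : x ∈ IntX a) {i j : Fin n} (hij : j ≤ i) : a i < x j.castSucc :=
  lt_of_le_of_lt (ha.antitone hij) (hx j).1

theorem m4_intX_gt {n : ℕ} {a : Fin n → ℝ} (ha : StrictAnti a) {x : Fin (n + 1) → ℝ}
    (hx : x ∈ IntX a) {i j : Fin n} (hij : i ≤ j) : x j.succ < a i :=
  lt_of_lt_of_le (hx j).2 (ha.antitone hij)

theorem wOf_pos {n : ℕ} (a : Fin n → ℝ) (ha : StrictAnti a) (x : Fin (n + 1) → ℝ)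
    (hx : x ∈ IntX a) (i : Fin n) : 0 < wOf a x i := by
  have h1 : ∏ j, (a i - x j) = (a i - x i.castSucc) * ((a i - x i.succ) *
      ∏ k ∈ Finset.univ.erase i, (a i - x (i.castSucc.succAbove k))) := by
    rw [Fin.prod_univ_succAbove _ i.castSucc, ← Finset.mul_prod_erase Finset.univ
      (fun k => a i - x (i.castSucc.succAbove k)) (Finset.mem_univ i), Fin.succAbove_castSucc_self]
  have h2 : 0 < ∏ k ∈ Finset.univ.erase i,
      ((a i - x (i.castSucc.succAbove k)) / (a i - a k)) := by
    apply Finset.prod_pos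
    intro k hk
    have hne := (Finset.mem_erase.1 hk).1
    rcases lt_or_gt_of_ne hne with hlt | hlt
    · rw [Fin.succAbove_of_castSucc_lt _ _ (by simpa using hlt)]
      apply div_pos_of_neg_of_neg
      · have := m4_intX_lt ha hx hlt.le
        linarith
      · have := ha hlt
        linarith
    · rw [Fin.succAbove_of_le_castSucc _ _ (by simpa using hlt.le)]
      apply div_pos
      · have := m4_intX_gt ha hx hlt.le
        linarith
      · have := ha hlt
        linarith
  have h3 : wOf a x i = (x i.castSucc - a i) * (a i - x i.succ) *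
      ∏ k ∈ Finset.univ.erase i, ((a i - x (i.castSucc.succAbove k)) / (a i - a k)) := by
    rw [wOf, h1, Finset.prod_div_distrib]
    ring
  rw [h3]
  have h4 := (hx i).1
  have h5 := (hx i).2
  exact mul_pos (mul_pos (by linarith) (by linarith)) h2

/-- the sign of `∏_{j ≠ i} (a_i - a_j)` is `(-1)^i` -/
theorem m4_sign {n : ℕ} (a : Fin n → ℝ) (ha : StrictAnti a) (i : Fin n) :
    0 < (-1) ^ (i : ℕ) * ∏ j ∈ Finset.univ.erase i, (a i - a j) := by
  have h1 : (-1 : ℝ) ^ (i : ℕ) =
      ∏ j ∈ Finset.univ.erase i, (if j < i then (-1 : ℝ) else 1) := by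
    rw [Finset.prod_ite, Finset.prod_const, Finset.prod_const_one, mul_one]
    congr 1
    have : Finset.filter (fun j => j < i) (Finset.univ.erase i) = Finset.Iio i := by
      ext j
      simp only [Finset.mem_filter, Finset.mem_erase, Finset.mem_univ, Finset.mem_Iio]
      exact ⟨fun h => h.2, fun h => ⟨⟨h.ne, trivial⟩, h⟩⟩
    rw [this, Fin.card_Iio]
  rw [h1, ← Finset.prod_mul_distrib]
  apply Finset.prod_pos
  intro j hj
  have hne := (Finset.mem_erase.1 hj).1
  rcases lt_or_gt_of_ne hne with hlt | hlt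
  · rw [if_pos hlt]
    have := ha hlt
    linarith
  · rw [if_neg (not_lt.2 hlt.le)]
    have := ha hlt
    linarith

/-- a monic polynomial of degree `m` with `m` distinct roots -/
theorem m4_eq_prod {m : ℕ} (Q : Polynomial ℝ) (hQ : Q.Monic) (hd : Q.natDegree = m)
    (x : Fin m → ℝ) (hx : Function.Injective x) (h0 : ∀ j, Q.eval (x j) = 0) :
    Q = ∏ j, (Polynomial.X - Polynomial.C (x j)) := by
  have h1 := Polynomial.monic_prod_X_sub_C x Finset.univ
  have h2 : (∏ j, (Polynomial.X - Polynomial.C (x j))).natDegree = m := by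
    rw [Polynomial.natDegree_finsetProd_X_sub_C_eq_card]
    simp
  refine Polynomial.eq_of_degree_le_of_eval_index_eq (v := x) Finset.univ hx.injOn ?_ ?_ ?_ ?_
  · rw [Finset.card_univ, Fintype.card_fin, ← hd]
    exact Polynomial.degree_le_natDegree
  · rw [Polynomial.degree_eq_natDegree hQ.ne_zero, Polynomial.degree_eq_natDegree h1.ne_zero,
      hd, h2]
  · rw [hQ.leadingCoeff, h1.leadingCoeff]
  · intro i _
    rw [h0, Polynomial.eval_prod, Finset.prod_eq_zero (i := i) (Finset.mem_univ i) (by simp)]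

theorem m4_monic_Q {n : ℕ} (a w : Fin n → ℝ) (t : ℝ) :
    (m4Q a w t).Monic ∧ (m4Q a w t).natDegree = n + 1 := by
  have h1 := Polynomial.monic_prod_X_sub_C (Fin.cons t a : Fin (n + 1) → ℝ) Finset.univ
  have h2 : (∏ j, (Polynomial.X - Polynomial.C ((Fin.cons t a : Fin (n + 1) → ℝ) j))).natDegree
      = n + 1 := by
    rw [Polynomial.natDegree_finsetProd_X_sub_C_eq_card]
    simp
  have h3 := m4_degree_sum a w
  have h4 : (∑ i, Polynomial.C (w i) * ∏ j ∈ Finset.univ.erase i,
      (Polynomial.X - Polynomial.C (a j)) : Polynomial ℝ).degree <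
      (∏ j, (Polynomial.X - Polynomial.C ((Fin.cons t a : Fin (n + 1) → ℝ) j))).degree := by
    refine lt_trans h3 ?_
    rw [Polynomial.degree_eq_natDegree h1.ne_zero, h2]
    exact_mod_cast Nat.lt_succ_self n
  rw [m4Q, m4_cons]
  refine ⟨h1.sub_of_left h4, ?_⟩
  rw [Polynomial.natDegree_eq_of_degree_eq (Polynomial.degree_sub_eq_left_of_degree_lt h4), h2]

/-- values at large arguments -/
theorem m4_eval_large {n : ℕ} (a w : Fin n → ℝ) (hw : ∀ i, 0 < w i) (t M : ℝ)
    (hM : |t| + ∑ i, w i + ∑ i, |a i| + 1 ≤ M) :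
    0 < (m4Q a w t).eval M ∧ 0 < (-1) ^ (n + 1) * (m4Q a w t).eval (-M) := by
  have hai : ∀ i, |a i| ≤ ∑ i, |a i| := fun i =>
    Finset.single_le_sum (f := fun i => |a i|) (fun j _ => abs_nonneg (a j)) (Finset.mem_univ i)
  have hw0 : 0 ≤ ∑ i, w i := Finset.sum_nonneg fun i _ => (hw i).le
  have ha0 : 0 ≤ ∑ i, |a i| := Finset.sum_nonneg fun i _ => abs_nonneg _
  have key : ∀ z : ℝ, (∀ i, 1 ≤ |z - a i|) → (m4Q a w t).eval z =
      (z - t - ∑ i, w i / (z - a i)) * ∏ i, (z - a i) := by
    intro z hz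
    have hne : ∀ i, z - a i ≠ 0 := fun i h => by
      have := hz i
      rw [h, abs_zero] at this
      linarith
    rw [m4Q, Polynomial.eval_sub, Polynomial.eval_mul, Polynomial.eval_prod,
      Polynomial.eval_finsetSum, sub_mul, Finset.sum_mul]
    simp only [Polynomial.eval_sub, Polynomial.eval_X, Polynomial.eval_C, Polynomial.eval_mul,
      Polynomial.eval_prod]
    congr 1
    apply Finset.sum_congr rfl
    intro i _
    rw [← Finset.mul_prod_erase Finset.univ (fun i => z - a i) (Finset.mem_univ i)]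
    have := hne i
    field_simp
  have hsum : ∀ z : ℝ, (∀ i, 1 ≤ |z - a i|) → |∑ i, w i / (z - a i)| ≤ ∑ i, w i := by
    intro z hz
    refine (Finset.abs_sum_le_sum_abs _ _).trans (Finset.sum_le_sum fun i _ => ?_)
    rw [abs_div, abs_of_pos (hw i)]
    exact div_le_self (hw i).le (hz i)
  constructor
  · have h1 : ∀ i, 1 ≤ M - a i := fun i => by
      have := hai i
      have := le_abs_self (a i)
      have := abs_nonneg t
      linarith
    have h2 : ∀ i, 1 ≤ |M - a i| := fun i => (h1 i).trans (le_abs_self _)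
    rw [key M h2]
    apply mul_pos
    · have := hsum M h2
      have := abs_le.1 this
      have := le_abs_self t
      linarith [this, (abs_le.1 (hsum M h2)).2]
    · exact Finset.prod_pos fun i _ => by linarith [h1 i]
  · have h1 : ∀ i, 1 ≤ M + a i := fun i => by
      have := hai i
      have := neg_abs_le (a i)
      have := abs_nonneg t
      linarith
    have h2 : ∀ i, 1 ≤ |(-M) - a i| := fun i => by
      rw [show -M - a i = -(M + a i) by ring, abs_neg]
      exact (h1 i).trans (le_abs_self _)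
    rw [key (-M) h2]
    have h3 : ∏ i, (-M - a i) = (-1) ^ n * ∏ i, (M + a i) := by
      rw [show (-1 : ℝ) ^ n = ∏ i : Fin n, (-1 : ℝ) by simp, ← Finset.prod_mul_distrib]
      exact Finset.prod_congr rfl fun i _ => by ring
    have h4 : (-1 : ℝ) ^ (n + 1) * ((-M - t - ∑ i, w i / (-M - a i)) * ∏ i, (-M - a i)) =
        (M + t + ∑ i, w i / (-M - a i)) * ∏ i, (M + a i) := by
      rw [h3, pow_succ]
      have h5 : ((-1 : ℝ) ^ n) * (-1) ^ n = 1 := by
        rw [← mul_pow]
        norm_num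
      linear_combination (M + t + ∑ i, w i / (-M - a i)) * (∏ i, (M + a i)) * h5
    rw [h4]
    apply mul_pos
    · have h5 := (abs_le.1 (hsum (-M) h2)).1
      have := neg_abs_le t
      linarith
    · exact Finset.prod_pos fun i _ => by linarith [h1 i]

/-- the extended sequence `M, a_0, …, a_{n-1}, -M` -/
def m4b {n : ℕ} (a : Fin n → ℝ) (M : ℝ) : Fin (n + 2) → ℝ :=
  Fin.cons M (Fin.snoc a (-M) : Fin (n + 1) → ℝ)

theorem m4_b_sign {n : ℕ} (a w : Fin n → ℝ) (ha : StrictAnti a) (hw : ∀ i, 0 < w i) (t M : ℝ)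
    (hM : |t| + ∑ i, w i + ∑ i, |a i| + 1 ≤ M) (k : Fin (n + 2)) :
    0 < (-1) ^ (k : ℕ) * (m4Q a w t).eval (m4b a M k) := by
  obtain ⟨h1, h2⟩ := m4_eval_large a w hw t M hM
  refine Fin.cases ?_ (fun j => ?_) k
  · simpa [m4b] using h1
  · rw [m4b, Fin.cons_succ]
    refine Fin.lastCases ?_ (fun i => ?_) j
    · rw [Fin.snoc_last]
      simpa using h2
    · rw [Fin.snoc_castSucc, m4_eval_Q]
      have h3 := mul_pos (hw i) (m4_sign a ha i)
      have h4 : (-1 : ℝ) ^ ((i.castSucc.succ : Fin (n + 2)) : ℕ) *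
          -(w i * ∏ j ∈ Finset.univ.erase i, (a i - a j)) =
          w i * ((-1) ^ (i : ℕ) * ∏ j ∈ Finset.univ.erase i, (a i - a j)) := by
        rw [Fin.val_succ, Fin.val_castSucc, pow_succ]
        ring
      rw [h4]
      exact h3

theorem m4_b_lt {n : ℕ} (a : Fin n → ℝ) (ha : StrictAnti a) (M : ℝ)
    (hM : ∑ i, |a i| + 1 ≤ M) (j : Fin (n + 1)) : m4b a M j.succ < m4b a M j.castSucc := by
  have hai : ∀ i, |a i| ≤ ∑ i, |a i| := fun i =>
    Finset.single_le_sum (f := fun i => |a i|) (fun j _ => abs_nonneg (a j)) (Finset.mem_univ i)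
  have ha0 : 0 ≤ ∑ i, |a i| := Finset.sum_nonneg fun i _ => abs_nonneg _
  have hlt : ∀ i, a i < M := fun i => by
    have := hai i
    have := le_abs_self (a i)
    linarith
  have hgt : ∀ i, -M < a i := fun i => by
    have := hai i
    have := neg_abs_le (a i)
    linarith
  rw [m4b, Fin.cons_succ]
  rcases Nat.eq_zero_or_pos n with hn | hn
  · subst hn
    have hj : j = 0 := Fin.ext (by have := j.isLt; simp only [Fin.val_zero]; omega)
    subst hj
    have h1 : (Fin.snoc a (-M) : Fin 1 → ℝ) 0 = -M := by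
      have := Fin.snoc_last (α := fun _ : Fin 1 => ℝ) (-M) a
      simpa using this
    rw [h1]
    simp only [Fin.castSucc_zero, Fin.cons_zero]
    linarith
  · -- value at `castSucc j`
    have hR : (j : ℕ) = 0 ∧ (Fin.cons M (Fin.snoc a (-M) : Fin (n + 1) → ℝ) : Fin (n + 2) → ℝ)
        j.castSucc = M ∨ ∃ i : Fin n, (i : ℕ) + 1 = j ∧
        (Fin.cons M (Fin.snoc a (-M) : Fin (n + 1) → ℝ) : Fin (n + 2) → ℝ) j.castSucc = a i := by
      rcases Nat.eq_zero_or_pos (j : ℕ) with h | h
      · left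
        have : j = 0 := Fin.ext h
        subst this
        exact ⟨rfl, by simp⟩
      · right
        have hj : (j : ℕ) - 1 < n := by
          have := j.isLt
          omega
        refine ⟨⟨j - 1, hj⟩, by simp only; omega, ?_⟩
        have h5 : j.castSucc = (Fin.castSucc (⟨j - 1, hj⟩ : Fin n)).succ := by
          ext
          simp
          omega
        rw [h5, Fin.cons_succ, Fin.snoc_castSucc]
    have hL : (∃ i : Fin n, (i : ℕ) = j ∧ (Fin.snoc a (-M) : Fin (n + 1) → ℝ) j = a i) ∨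
        (Fin.snoc a (-M) : Fin (n + 1) → ℝ) j = -M := by
      refine Fin.lastCases ?_ (fun i => ?_) j
      · right
        rw [Fin.snoc_last]
      · left
        exact ⟨i, by simp, by rw [Fin.snoc_castSucc]⟩
    rcases hL with ⟨i, hi, h1⟩ | h1 <;> rcases hR with ⟨h0, h2⟩ | ⟨k, hk, h2⟩ <;> rw [h1, h2]
    · exact hlt i
    · apply ha
      rw [Fin.lt_def]
      omega
    · linarith
    · exact hgt k

theorem exists_intX {n : ℕ} (a : Fin n → ℝ) (ha : StrictAnti a) (w : Fin n → ℝ)
    (hw : ∀ i, 0 < w i) (t : ℝ) :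
    ∃ x ∈ IntX a, wOf a x = w ∧ ∑ j, x j - ∑ i, a i = t := by
  obtain ⟨M, hM⟩ : ∃ M, |t| + ∑ i, w i + ∑ i, |a i| + 1 ≤ M := ⟨_, le_rfl⟩
  have hw0 : 0 ≤ ∑ i, w i := Finset.sum_nonneg fun i _ => (hw i).le
  have hM' : ∑ i, |a i| + 1 ≤ M := by
    have := abs_nonneg t
    linarith
  have hex : ∀ j : Fin (n + 1), ∃ z, m4b a M j.succ < z ∧ z < m4b a M j.castSucc ∧
      (m4Q a w t).eval z = 0 := by
    intro j
    have h1 := m4_b_sign a w ha hw t M hM j.succ
    have h2 := m4_b_sign a w ha hw t M hM j.castSucc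
    have h3 := m4_b_lt a ha M hM' j
    rw [Fin.val_succ, pow_succ] at h1
    rw [Fin.val_castSucc] at h2
    have hcont : ContinuousOn (fun z => (-1) ^ (j : ℕ) * (m4Q a w t).eval z)
        (Icc (m4b a M j.succ) (m4b a M j.castSucc)) := by
      apply Continuous.continuousOn
      exact continuous_const.mul (m4Q a w t).continuous
    have h4 := intermediate_value_Ioo h3.le hcont
    have h5 : (0 : ℝ) ∈ Ioo ((-1) ^ (j : ℕ) * (m4Q a w t).eval (m4b a M j.succ))
        ((-1) ^ (j : ℕ) * (m4Q a w t).eval (m4b a M j.castSucc)) := ⟨by linarith, h2⟩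
    obtain ⟨z, hz, hz0⟩ := h4 h5
    refine ⟨z, hz.1, hz.2, ?_⟩
    have h6 : ((-1 : ℝ) ^ (j : ℕ)) ≠ 0 := pow_ne_zero _ (by norm_num)
    exact (mul_eq_zero.1 hz0).resolve_left h6
  choose x hx1 hx2 hx0 using hex
  have hmem : x ∈ IntX a := by
    intro i
    constructor
    · have := hx1 i.castSucc
      rwa [m4b, Fin.cons_succ, Fin.snoc_castSucc] at this
    · have := hx2 i.succ
      rwa [m4b, ← Fin.succ_castSucc, Fin.cons_succ, Fin.snoc_castSucc] at this
  have hanti : StrictAnti x := by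
    rw [Fin.strictAnti_iff_succ_lt]
    intro i
    exact (hmem i).2.trans (hmem i).1
  obtain ⟨hmon, hdeg⟩ := m4_monic_Q a w t
  have hQ := m4_eq_prod (m4Q a w t) hmon hdeg x hanti.injective hx0
  have hw' : wOf a x = w := by
    funext i
    have h1 := m4_eval_Q a w t i
    rw [hQ, Polynomial.eval_prod] at h1
    simp only [Polynomial.eval_sub, Polynomial.eval_X, Polynomial.eval_C] at h1
    rw [wOf, h1, neg_neg, mul_div_assoc, div_self (m4_prod_ne a ha i), mul_one]
  refine ⟨x, hmem, hw', ?_⟩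
  have h1 := poly_of_wOf a ha x
  rw [hw', ← hQ, m4Q] at h1
  have h2 := sub_left_injective h1
  have hA : (∏ i, (Polynomial.X - Polynomial.C (a i))) ≠ (0 : Polynomial ℝ) :=
    (Polynomial.monic_prod_X_sub_C a Finset.univ).ne_zero
  have h3 := mul_right_cancel₀ hA h2
  have h4 := sub_right_injective h3
  exact Polynomial.C_injective h4

end

end Pool.Agent.MP_941b23_mp
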