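import Pool.Agent.MP_941b23_mp.Defs2
import Pool.Agent.MP_941b23_mp.D2
import Pool.Agent.MP_941b23_mp.M4

/-!
# [M4b] change of variables with Cauchy-Vandermonde Jacobian
-/

namespace Pool.Agent.MP_941b23_mp

open MeasureTheory Set Filter Topology
open scoped ENNReal NNReal Real

noncomputable section

theorem m4b_lintegral_cons {n : ℕ} (F : (Fin (n + 1) → ℝ) → ℝ≥0∞) (hF : Measurable F) :
    ∫⁻ y, F y = ∫⁻ w : Fin n → ℝ, ∫⁻ t : ℝ, F (Fin.cons t w) := by
  have hmp := (volume_preserving_piFinSuccAbove (fun _ : Fin (n + 1) => ℝ) 0).symm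
  have h1 : ∫⁻ y, F y = ∫⁻ p : ℝ × (Fin n → ℝ),
      F ((MeasurableEquiv.piFinSuccAbove (fun _ : Fin (n + 1) => ℝ) 0).symm p) :=
    (hmp.lintegral_comp hF).symm
  rw [h1]
  have h2 : Measurable fun p : ℝ × (Fin n → ℝ) =>
      F ((MeasurableEquiv.piFinSuccAbove (fun _ : Fin (n + 1) => ℝ) 0).symm p) :=
    hF.comp (MeasurableEquiv.measurable _)
  rw [MeasureTheory.Measure.volume_eq_prod, lintegral_prod_symm' _ h2]
  have h3 : ∀ (w : Fin n → ℝ) (t : ℝ),
      (MeasurableEquiv.piFinSuccAbove (fun _ : Fin (n + 1) => ℝ) 0).symm (t, w) =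
        Fin.cons t w := by
    intro w t
    have h4 : (MeasurableEquiv.piFinSuccAbove (fun _ : Fin (n + 1) => ℝ) 0) (Fin.cons t w) =
        (t, w) := by
      refine Prod.ext ?_ ?_
      · rfl
      · funext j
        simp [MeasurableEquiv.piFinSuccAbove]
    rw [← h4, MeasurableEquiv.symm_apply_apply]
  refine lintegral_congr fun w => lintegral_congr fun t => ?_
  rw [h3]

theorem m4b_anti {n : ℕ} {a : Fin n → ℝ} {x : Fin (n + 1) → ℝ} (hx : x ∈ IntX a) :
    StrictAnti x := by
  rw [Fin.strictAnti_iff_succ_lt]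
  intro i
  exact (hx i).2.trans (hx i).1

theorem m4b_vdd_pos {m : ℕ} {x : Fin m → ℝ} (hx : StrictAnti x) : 0 < vdd x := by
  rw [vdd]
  refine Finset.prod_pos fun i _ => Finset.prod_pos fun j hj => ?_
  have := hx (Finset.mem_Ioi.1 hj)
  linarith

theorem m4b_abs_vd {m : ℕ} {x : Fin m → ℝ} (hx : StrictAnti x) : |vd x| = vdd x := by
  rw [vd, vdd, Finset.abs_prod]
  refine Finset.prod_congr rfl fun i _ => ?_
  rw [Finset.abs_prod]
  refine Finset.prod_congr rfl fun j hj => ?_
  have := hx (Finset.mem_Ioi.1 hj)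
  rw [abs_sub_comm, abs_of_pos (by linarith)]

theorem m4b_prod_sq {m : ℕ} (g : Fin m → Fin m → ℝ) (hg : ∀ i j, g i j = g j i) :
    ∏ i, ∏ j ∈ Finset.univ.erase i, g i j = (∏ i, ∏ j ∈ Finset.Ioi i, g i j) ^ 2 := by
  have h1 : ∀ i : Fin m, Finset.univ.erase i = (Finset.Ioi i).disjUnion (Finset.Iio i)
      (by
        rw [Finset.disjoint_left]
        intro j h1 h2
        exact lt_asymm (Finset.mem_Ioi.1 h1) (Finset.mem_Iio.1 h2)) := by
    intro i
    ext j
    simp only [Finset.mem_erase, Finset.mem_univ, and_true, Finset.mem_disjUnion,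
      Finset.mem_Ioi, Finset.mem_Iio]
    exact ⟨fun h => (lt_or_gt_of_ne h).symm, fun h => h.elim (fun h => h.ne') (fun h => h.ne)⟩
  have h2 : ∀ i : Fin m, ∏ j ∈ Finset.univ.erase i, g i j =
      (∏ j ∈ Finset.Ioi i, g i j) * ∏ j ∈ Finset.Iio i, g i j := by
    intro i
    rw [h1, Finset.prod_disjUnion]
  rw [Finset.prod_congr rfl fun i _ => h2 i, Finset.prod_mul_distrib, sq]
  congr 1
  rw [Finset.prod_comm' (t := fun i => Finset.Iio i) (t' := Finset.univ)
    (s' := fun j => Finset.Ioi j) (by simp)]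
  exact Finset.prod_congr rfl fun i _ => Finset.prod_congr rfl fun j _ => hg j i

/-- the Jacobian matrix -/
def m4bM {n : ℕ} (a : Fin n → ℝ) (x : Fin (n + 1) → ℝ) : Matrix (Fin (n + 1)) (Fin (n + 1)) ℝ :=
  Matrix.of fun i j => (Fin.cons 1 (wOf a x) : Fin (n + 1) → ℝ) i *
    Matrix.of (fun (i j : Fin (n + 1)) =>
      Fin.cases (motive := fun _ => ℝ) 1 (fun b : Fin n => 1 / (x j - a b)) i) i j

theorem m4b_ne {n : ℕ} {a : Fin n → ℝ} (ha : StrictAnti a) {x : Fin (n + 1) → ℝ}
    (hx : x ∈ IntX a) (i : Fin n) (j : Fin (n + 1)) : x j ≠ a i := by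
  rcases Nat.lt_or_ge (i : ℕ) (j : ℕ) with h | h
  · have hj : 0 < (j : ℕ) := by omega
    have hjn : (j : ℕ) - 1 < n := by
      have := j.isLt
      omega
    have h1 : j = Fin.succ (⟨j - 1, hjn⟩ : Fin n) := by
      ext
      simp
      omega
    rw [h1]
    exact (m4_intX_gt ha hx (by rw [Fin.le_def]; simp only; omega)).ne
  · have hjn : (j : ℕ) < n := lt_of_le_of_lt h i.isLt
    have h1 : j = Fin.castSucc (⟨j, hjn⟩ : Fin n) := by
      ext
      simp
    rw [h1]
    exact (m4_intX_lt ha hx (by rw [Fin.le_def]; exact h)).ne'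

theorem m4b_abs_det {n : ℕ} (a : Fin n → ℝ) (ha : StrictAnti a) (x : Fin (n + 1) → ℝ)
    (hx : x ∈ IntX a) : |(m4bM a x).det| = vdd x / vdd a := by
  have hne := m4b_ne ha hx
  have h1 := det_one_cauchy a x hne
  rw [m4b_abs_vd (m4b_anti hx), m4b_abs_vd ha] at h1
  have hP : 0 < ∏ j, ∏ b, |x j - a b| :=
    Finset.prod_pos fun j _ => Finset.prod_pos fun b _ => abs_pos.2 (sub_ne_zero.2 (hne b j))
  have hva := m4b_vdd_pos ha
  have hW : (∏ b, wOf a x b) * vdd a ^ 2 = ∏ j, ∏ b, |x j - a b| := by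
    have h2 : ∀ b, wOf a x b = (∏ j, |x j - a b|) / ∏ j ∈ Finset.univ.erase b, |a b - a j| := by
      intro b
      rw [← abs_of_pos (wOf_pos a ha x hx b), wOf, abs_div, abs_neg, Finset.abs_prod,
        Finset.abs_prod]
      congr 1
      exact Finset.prod_congr rfl fun j _ => abs_sub_comm _ _
    have h3 : ∏ b, ∏ j ∈ Finset.univ.erase b, |a b - a j| = vdd a ^ 2 := by
      rw [m4b_prod_sq (fun b j => |a b - a j|) (fun i j => abs_sub_comm _ _), vdd]
      congr 1
      refine Finset.prod_congr rfl fun i _ => Finset.prod_congr rfl fun j hj => ?_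
      have := ha (Finset.mem_Ioi.1 hj)
      rw [abs_of_pos (by linarith)]
    rw [Finset.prod_congr rfl fun b _ => h2 b, Finset.prod_div_distrib, h3,
      div_mul_cancel₀ _ (pow_ne_zero 2 hva.ne'), Finset.prod_comm]
  have hWpos : 0 < ∏ b, wOf a x b := Finset.prod_pos fun b _ => wOf_pos a ha x hx b
  rw [m4bM, Matrix.det_mul_column, abs_mul, Fin.prod_univ_succ]
  simp only [Fin.cons_zero, Fin.cons_succ, one_mul]
  rw [abs_of_pos hWpos, eq_div_iff hva.ne']
  have h4 : (vdd a * ∏ j, ∏ b, |x j - a b|) ≠ 0 := mul_ne_zero hva.ne' hP.ne'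
  apply mul_right_cancel₀ h4
  linear_combination ((∏ b, wOf a x b) * vdd a ^ 2) * h1 + (vdd x * vdd a) * hW

/-- the change of variables -/
def m4bG {n : ℕ} (a : Fin n → ℝ) (x : Fin (n + 1) → ℝ) : Fin (n + 1) → ℝ :=
  Fin.cons (∑ j, x j - ∑ i, a i) (wOf a x)

theorem m4b_hasFDerivAt {n : ℕ} (a : Fin n → ℝ) (ha : StrictAnti a) (x : Fin (n + 1) → ℝ)
    (hx : x ∈ IntX a) :
    HasFDerivAt (m4bG a) (LinearMap.toContinuousLinearMap (Matrix.toLin' (m4bM a x))) x := by
  rw [hasFDerivAt_pi']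
  intro i
  refine Fin.cases ?_ (fun b => ?_) i
  · have h1 : HasFDerivAt (fun x : Fin (n + 1) → ℝ => ∑ j, x j - ∑ i, a i)
        (∑ j, ContinuousLinearMap.proj (R := ℝ) (φ := fun _ : Fin (n + 1) => ℝ) j) x := by
      refine HasFDerivAt.sub_const _ ?_
      exact HasFDerivAt.fun_sum fun j _ => hasFDerivAt_apply j x
    have h2 : (fun x => m4bG a x 0) = fun x : Fin (n + 1) → ℝ => ∑ j, x j - ∑ i, a i := by
      funext y
      rw [m4bG, Fin.cons_zero]
    rw [h2]
    refine h1.congr_fderiv ?_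
    ext v
    simp [m4bM, Matrix.mulVec, dotProduct]
  · have h1 : HasFDerivAt (fun x : Fin (n + 1) → ℝ => ∏ j, (a b - x j))
        (∑ j, (∏ k ∈ Finset.univ.erase j, (a b - x k)) •
          (-(ContinuousLinearMap.proj (R := ℝ) (φ := fun _ : Fin (n + 1) => ℝ) j))) x := by
      refine HasFDerivAt.finsetProd fun j _ => ?_
      exact (hasFDerivAt_apply j x).const_sub (a b)
    have h2 : (fun x => m4bG a x b.succ) = fun x : Fin (n + 1) → ℝ =>
        (-(∏ j, (a b - x j))) * (∏ j ∈ Finset.univ.erase b, (a b - a j))⁻¹ := by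
      funext y
      rw [m4bG, Fin.cons_succ, wOf, div_eq_mul_inv]
    rw [h2]
    refine (h1.neg.mul_const _).congr_fderiv ?_
    refine ContinuousLinearMap.ext fun v => ?_
    simp only [m4bM, _root_.smul_apply, _root_.neg_apply,
      _root_.sum_apply, ContinuousLinearMap.proj_apply, smul_eq_mul,
      ContinuousLinearMap.comp_apply, LinearMap.coe_toContinuousLinearMap', Matrix.toLin'_apply,
      Matrix.mulVec, dotProduct, Matrix.of_apply, Fin.cons_succ, Fin.cases_succ]
    rw [← Finset.sum_neg_distrib, Finset.mul_sum]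
    refine Finset.sum_congr rfl fun j _ => ?_
    have h3 : x j - a b ≠ 0 := sub_ne_zero.2 (m4b_ne ha hx b j)
    rw [wOf, ← Finset.mul_prod_erase Finset.univ (fun k => a b - x k) (Finset.mem_univ j)]
    have h4 := m4_prod_ne a ha b
    field_simp
    ring

theorem m4b_injOn {n : ℕ} (a : Fin n → ℝ) (ha : StrictAnti a) : InjOn (m4bG a) (IntX a) := by
  have key : ∀ x x' : Fin (n + 1) → ℝ, m4bG a x = m4bG a x' → range x ⊆ range x' := by
    rintro x x' h _ ⟨j, rfl⟩
    have h1 : ∑ j, x j - ∑ i, a i = ∑ j, x' j - ∑ i, a i := by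
      have := congrFun h 0
      simpa [m4bG] using this
    have h2 : wOf a x = wOf a x' := by
      funext b
      have := congrFun h b.succ
      simpa [m4bG] using this
    have h3 := poly_of_wOf a ha x
    have h4 := poly_of_wOf a ha x'
    rw [h1, h2, h4] at h3
    have h5 := congrArg (Polynomial.eval (x j)) h3
    rw [Polynomial.eval_prod, Polynomial.eval_prod, Finset.prod_eq_zero (i := j)
      (f := fun k => Polynomial.eval (x j) (Polynomial.X - Polynomial.C (x k)))
      (Finset.mem_univ j) (by simp), Finset.prod_eq_zero_iff] at h5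
    obtain ⟨k, -, hk⟩ := h5
    refine ⟨k, ?_⟩
    simp only [Polynomial.eval_sub, Polynomial.eval_X, Polynomial.eval_C] at hk
    linarith
  intro x hx x' hx' h
  exact ((m4b_anti hx).range_inj (m4b_anti hx')).1
    (Subset.antisymm (key x x' h) (key x' x h.symm))

theorem m4b_image {n : ℕ} (a : Fin n → ℝ) (ha : StrictAnti a) :
    m4bG a '' IntX a = {y : Fin (n + 1) → ℝ | ∀ i : Fin n, 0 < y i.succ} := by
  ext y
  constructor
  · rintro ⟨x, hx, rfl⟩ i
    rw [m4bG, Fin.cons_succ]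
    exact wOf_pos a ha x hx i
  · intro hy
    obtain ⟨x, hx, hw, ht⟩ := exists_intX a ha (fun i => y i.succ) hy (y 0)
    refine ⟨x, hx, ?_⟩
    rw [m4bG, hw, ht]
    exact Fin.cons_self_tail y

theorem m4b_measurable_intX {n : ℕ} (a : Fin n → ℝ) : MeasurableSet (IntX a) := by
  have : IntX a = ⋂ i : Fin n, ({x : Fin (n + 1) → ℝ | a i < x i.castSucc} ∩
      {x : Fin (n + 1) → ℝ | x i.succ < a i}) := by
    ext x
    simp only [IntX, mem_ofPred_eq, mem_iInter, mem_inter_iff]
  rw [this]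
  refine MeasurableSet.iInter fun i => MeasurableSet.inter ?_ ?_
  · exact measurableSet_lt measurable_const (measurable_pi_apply _)
  · exact measurableSet_lt (measurable_pi_apply _) measurable_const

theorem lintegral_wOf {n : ℕ} (a : Fin n → ℝ) (ha : StrictAnti a)
    (Φ : (Fin n → ℝ) → ℝ → ℝ≥0∞) (hΦ : Measurable (Function.uncurry Φ)) :
    ∫⁻ w in {w : Fin n → ℝ | ∀ i, 0 < w i}, ∫⁻ t : ℝ, Φ w t =
      ∫⁻ x in IntX a, Φ (wOf a x) (∑ j, x j - ∑ i, a i) * ENNReal.ofReal (vdd x / vdd a) := by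
  have hS : MeasurableSet {w : Fin n → ℝ | ∀ i, 0 < w i} := by
    have : {w : Fin n → ℝ | ∀ i, 0 < w i} = ⋂ i : Fin n, {w : Fin n → ℝ | 0 < w i} := by
      ext x
      simp
    rw [this]
    exact MeasurableSet.iInter fun i => measurableSet_lt measurable_const (measurable_pi_apply _)
  have hS' : MeasurableSet {y : Fin (n + 1) → ℝ | ∀ i : Fin n, 0 < y i.succ} := by
    have : {y : Fin (n + 1) → ℝ | ∀ i : Fin n, 0 < y i.succ} =
        ⋂ i : Fin n, {y : Fin (n + 1) → ℝ | 0 < y i.succ} := by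
      ext x
      simp
    rw [this]
    exact MeasurableSet.iInter fun i => measurableSet_lt measurable_const (measurable_pi_apply _)
  have hg : Measurable fun y : Fin (n + 1) → ℝ => Φ (fun i => y i.succ) (y 0) := by
    have h1 : Measurable fun y : Fin (n + 1) → ℝ => ((fun i : Fin n => y i.succ), y 0) :=
      (measurable_pi_lambda _ fun i => measurable_pi_apply _).prodMk (measurable_pi_apply _)
    exact hΦ.comp h1
  have h1 : ∫⁻ w in {w : Fin n → ℝ | ∀ i, 0 < w i}, ∫⁻ t : ℝ, Φ w t =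
      ∫⁻ y in {y : Fin (n + 1) → ℝ | ∀ i : Fin n, 0 < y i.succ}, Φ (fun i => y i.succ) (y 0) := by
    rw [← lintegral_indicator hS, ← lintegral_indicator hS',
      m4b_lintegral_cons _ (hg.indicator hS')]
    refine lintegral_congr fun w => ?_
    by_cases hw : w ∈ {w : Fin n → ℝ | ∀ i, 0 < w i}
    · rw [indicator_of_mem hw]
      refine lintegral_congr fun t => ?_
      rw [indicator_of_mem]
      · simp
      · intro i
        simpa using hw i
    · rw [indicator_of_notMem hw]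
      rw [lintegral_congr (g := fun _ => 0), lintegral_zero]
      intro t
      rw [indicator_of_notMem]
      intro h
      apply hw
      intro i
      simpa using h i
  rw [h1, ← m4b_image a ha, lintegral_image_eq_lintegral_abs_det_fderiv_mul volume
    (m4b_measurable_intX a) (fun x hx => (m4b_hasFDerivAt a ha x hx).hasFDerivWithinAt)
    (m4b_injOn a ha)]
  refine setLIntegral_congr_fun (m4b_measurable_intX a) fun x hx => ?_
  have h2 : (LinearMap.toContinuousLinearMap (Matrix.toLin' (m4bM a x))).det =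
      (m4bM a x).det := by
    rw [LinearMap.det_toContinuousLinearMap, LinearMap.det_toLin']
  simp only [h2, m4b_abs_det a ha x hx, m4bG, Fin.cons_succ, Fin.cons_zero]
  rw [mul_comm]

end

end Pool.Agent.MP_941b23_mp
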