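import Pool.Agent.MP_941b23_mp.Defs2
import Pool.Agent.MP_941b23_mp.M1
import Pool.Agent.MP_941b23_mp.M2
import Pool.Agent.MP_941b23_mp.M3
import Pool.Agent.MP_941b23_mp.M4
import Pool.Agent.MP_941b23_mp.M4b

/-!
# [QM-M5] the bordering formula
-/

namespace Pool.Agent.MP_941b23_mp

open MeasureTheory Set Filter Topology
open scoped ENNReal NNReal Real

noncomputable section

/-- complex vector with real and imaginary parts `p.1`, `p.2` -/
def m5_cv {n : ℕ} (p : (Fin n → ℝ) × (Fin n → ℝ)) : Fin n → ℂ :=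
  fun j => (p.1 j : ℂ) + (p.2 j : ℂ) * Complex.I

theorem m5_cv_add {n : ℕ} (p q : (Fin n → ℝ) × (Fin n → ℝ)) :
    m5_cv (p + q) = m5_cv p + m5_cv q := by
  funext j
  simp only [m5_cv, Prod.fst_add, Prod.snd_add, Pi.add_apply, Complex.ofReal_add]
  ring

theorem m5_cv_smul {n : ℕ} (c : ℝ) (p : (Fin n → ℝ) × (Fin n → ℝ)) :
    m5_cv (c • p) = (c : ℂ) • m5_cv p := by
  funext j
  simp only [m5_cv, Prod.smul_fst, Prod.smul_snd, Pi.smul_apply, smul_eq_mul, Complex.ofReal_mul]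
  ring

/-- right multiplication by a complex matrix, in real coordinates -/
def m5_T {n : ℕ} (U : Matrix (Fin n) (Fin n) ℂ) :
    ((Fin n → ℝ) × (Fin n → ℝ)) →ₗ[ℝ] ((Fin n → ℝ) × (Fin n → ℝ)) where
  toFun p := (fun j => (Matrix.vecMul (m5_cv p) U j).re,
    fun j => (Matrix.vecMul (m5_cv p) U j).im)
  map_add' p q := by
    rw [m5_cv_add, Matrix.add_vecMul]
    rfl
  map_smul' c p := by
    rw [m5_cv_smul, Matrix.smul_vecMul]
    ext j <;> simp

theorem m5_cv_T {n : ℕ} (U : Matrix (Fin n) (Fin n) ℂ) (p : (Fin n → ℝ) × (Fin n → ℝ)) :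
    m5_cv (m5_T U p) = Matrix.vecMul (m5_cv p) U := by
  funext j
  exact Complex.re_add_im _

theorem m5_cv_inj {n : ℕ} {p q : (Fin n → ℝ) × (Fin n → ℝ)} (h : m5_cv p = m5_cv q) : p = q := by
  have h1 : ∀ j, p.1 j = q.1 j := by
    intro j
    have := congrArg Complex.re (congrFun h j)
    simpa [m5_cv] using this
  have h2 : ∀ j, p.2 j = q.2 j := by
    intro j
    have := congrArg Complex.im (congrFun h j)
    simpa [m5_cv] using this
  exact Prod.ext (funext h1) (funext h2)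

theorem m5_normSq {n : ℕ} (p : (Fin n → ℝ) × (Fin n → ℝ)) :
    m5_cv p ⬝ᵥ star (m5_cv p) = ((∑ j, (p.1 j ^ 2 + p.2 j ^ 2) : ℝ) : ℂ) := by
  rw [dotProduct, Complex.ofReal_sum]
  refine Finset.sum_congr rfl fun j _ => ?_
  have h := Complex.mul_conj ((p.1 j : ℂ) + (p.2 j : ℂ) * Complex.I)
  rw [Complex.normSq_add_mul_I] at h
  exact h

theorem m5_T_norm {n : ℕ} (U : Matrix (Fin n) (Fin n) ℂ) (hU : U * U.conjTranspose = 1)
    (p : (Fin n → ℝ) × (Fin n → ℝ)) :
    ∑ j, ((m5_T U p).1 j ^ 2 + (m5_T U p).2 j ^ 2) = ∑ j, (p.1 j ^ 2 + p.2 j ^ 2) := by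
  have h : (((∑ j, ((m5_T U p).1 j ^ 2 + (m5_T U p).2 j ^ 2) : ℝ)) : ℂ)
      = ((∑ j, (p.1 j ^ 2 + p.2 j ^ 2) : ℝ) : ℂ) := by
    rw [← m5_normSq, ← m5_normSq, m5_cv_T, Matrix.star_vecMul, Matrix.dotProduct_mulVec,
      Matrix.vecMul_vecMul, hU, Matrix.vecMul_one]
  exact_mod_cast h

theorem m5_T_inv {n : ℕ} (U : Matrix (Fin n) (Fin n) ℂ) (hU : U * U.conjTranspose = 1)
    (p : (Fin n → ℝ) × (Fin n → ℝ)) : m5_T U.conjTranspose (m5_T U p) = p := by
  apply m5_cv_inj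
  rw [m5_cv_T, m5_cv_T, Matrix.vecMul_vecMul, hU, Matrix.vecMul_one]

theorem m5_haar (n : ℕ) :
    (volume : Measure ((Fin n → ℝ) × (Fin n → ℝ))).IsAddHaarMeasure := by
  have h : Measure.IsAddHaarMeasure
      ((volume : Measure (Fin n → ℝ)).prod (volume : Measure (Fin n → ℝ))) :=
    Measure.prod.instIsAddHaarMeasure _ _
  exact h

theorem m5_T_mp {n : ℕ} (U : Matrix (Fin n) (Fin n) ℂ) (hU : U * U.conjTranspose = 1)
    (hU' : U.conjTranspose * U = 1) : MeasurePreserving (m5_T U) := by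
  have hinv : ∀ p, m5_T U (m5_T U.conjTranspose p) = p := by
    intro p
    have := m5_T_inv U.conjTranspose (by rw [Matrix.conjTranspose_conjTranspose]; exact hU') p
    rwa [Matrix.conjTranspose_conjTranspose] at this
  set s : Set ((Fin n → ℝ) × (Fin n → ℝ)) := {p | ∑ j, (p.1 j ^ 2 + p.2 j ^ 2) < 1} with hs
  have himg : (m5_T U) '' s = s := by
    ext p
    constructor
    · rintro ⟨q, hq, rfl⟩
      show ∑ j, ((m5_T U q).1 j ^ 2 + (m5_T U q).2 j ^ 2) < 1
      rw [m5_T_norm U hU]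
      exact hq
    · intro hp
      refine ⟨m5_T U.conjTranspose p, ?_, hinv p⟩
      show ∑ j, ((m5_T U.conjTranspose p).1 j ^ 2 + (m5_T U.conjTranspose p).2 j ^ 2) < 1
      rw [m5_T_norm U.conjTranspose (by rw [Matrix.conjTranspose_conjTranspose]; exact hU')]
      exact hp
  have hopen : IsOpen s := by
    apply isOpen_lt _ continuous_const
    fun_prop
  have hpos : (volume : Measure ((Fin n → ℝ) × (Fin n → ℝ))) s ≠ 0 := by
    apply (hopen.measure_pos volume ⟨0, ?_⟩).ne'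
    show ∑ j : Fin n, ((0 : ℝ) ^ 2 + (0 : ℝ) ^ 2) < 1
    simp
  have hfin : (volume : Measure ((Fin n → ℝ) × (Fin n → ℝ))) s ≠ ⊤ := by
    have hsub : s ⊆ Metric.closedBall 0 1 := by
      intro p hp
      rw [mem_closedBall_zero_iff, Prod.norm_def, max_le_iff]
      have hp' : ∑ j, (p.1 j ^ 2 + p.2 j ^ 2) < 1 := hp
      have hle : ∀ j, p.1 j ^ 2 + p.2 j ^ 2 ≤ 1 := by
        intro j
        have := Finset.single_le_sum (f := fun j => p.1 j ^ 2 + p.2 j ^ 2)
          (fun i _ => by positivity) (Finset.mem_univ j)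
        linarith
      constructor
      · refine (pi_norm_le_iff_of_nonneg zero_le_one).2 fun j => ?_
        rw [Real.norm_eq_abs]
        apply abs_le_of_sq_le_sq _ zero_le_one
        nlinarith [hle j, sq_nonneg (p.2 j)]
      · refine (pi_norm_le_iff_of_nonneg zero_le_one).2 fun j => ?_
        rw [Real.norm_eq_abs]
        apply abs_le_of_sq_le_sq _ zero_le_one
        nlinarith [hle j, sq_nonneg (p.1 j)]
    exact ((measure_mono hsub).trans_lt measure_closedBall_lt_top).ne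
  have hHaar : (volume : Measure ((Fin n → ℝ) × (Fin n → ℝ))).IsAddHaarMeasure := m5_haar n
  have hdet : ENNReal.ofReal |LinearMap.det (m5_T U)| = 1 := by
    have h := Measure.addHaar_image_linearMap
      (volume : Measure ((Fin n → ℝ) × (Fin n → ℝ))) (m5_T U) s
    rw [himg] at h
    have h2 : ENNReal.ofReal |LinearMap.det (m5_T U)| * volume s = 1 * volume s := by
      rw [one_mul]; exact h.symm
    exact (ENNReal.mul_left_inj hpos hfin).1 h2
  have hdet' : |LinearMap.det (m5_T U)| = 1 := by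
    have := congrArg ENNReal.toReal hdet
    rwa [ENNReal.toReal_ofReal (abs_nonneg _), ENNReal.toReal_one] at this
  have hne : LinearMap.det (m5_T U) ≠ 0 := by
    intro h0
    rw [h0, abs_zero] at hdet'
    exact zero_ne_one hdet'
  refine ⟨(LinearMap.continuous_of_finiteDimensional (m5_T U)).measurable, ?_⟩
  rw [Measure.map_linearMap_addHaar_eq_smul_addHaar _ hne, abs_inv, hdet', inv_one,
    ENNReal.ofReal_one, one_smul]

/-- bordered complex matrix -/
def m5_brd {n : ℕ} (t : ℂ) (v : Fin n → ℂ) (A : Matrix (Fin n) (Fin n) ℂ) :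
    Matrix (Fin (n + 1)) (Fin (n + 1)) ℂ :=
  Matrix.of (Fin.cons (Fin.cons t v) (fun i => Fin.cons (star (v i)) (A i)))

theorem m5_hmat_bord {n : ℕ} (t : ℝ) (u w : Fin n → ℝ) (X : Fin n → Fin n → ℝ) :
    hmat (bord t u w X) = m5_brd t (m5_cv (u, w)) (hmat X) := by
  ext i j
  refine Fin.cases ?_ (fun i => ?_) i
  · refine Fin.cases ?_ (fun j => ?_) j
    · simp [hmat, bord, m5_brd]
    · simp [hmat, bord, m5_brd, m5_cv, (Fin.succ_ne_zero j).symm]
  · refine Fin.cases ?_ (fun j => ?_) j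
    · simp [hmat, bord, m5_brd, m5_cv, sub_eq_add_neg]
    · simp [hmat, bord, m5_brd]

theorem m5_brd_mul {n : ℕ} (U V A : Matrix (Fin n) (Fin n) ℂ) (t : ℂ) (v : Fin n → ℂ)
    (hV : V = U.conjTranspose) :
    m5_brd 1 0 V * m5_brd t v A * m5_brd 1 0 U = m5_brd t (Matrix.vecMul v U) (V * A * U) := by
  subst hV
  ext i j
  refine Fin.cases ?_ (fun i => ?_) i
  · refine Fin.cases ?_ (fun j => ?_) j
    · simp [Matrix.mul_apply, m5_brd, Fin.sum_univ_succ]
    · simp [Matrix.mul_apply, m5_brd, Fin.sum_univ_succ, Matrix.vecMul, dotProduct]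
  · refine Fin.cases ?_ (fun j => ?_) j
    · simp [Matrix.mul_apply, m5_brd, Fin.sum_univ_succ, Matrix.vecMul, dotProduct, mul_comm]
    · simp [Matrix.mul_apply, m5_brd, Fin.sum_univ_succ]

theorem m5_brd_one {n : ℕ} (U V : Matrix (Fin n) (Fin n) ℂ) (h : U * V = 1) :
    m5_brd 1 0 U * m5_brd 1 0 V = 1 := by
  ext i j
  refine Fin.cases ?_ (fun i => ?_) i
  · refine Fin.cases ?_ (fun j => ?_) j
    · simp [Matrix.mul_apply, m5_brd, Fin.sum_univ_succ]
    · simp [Matrix.mul_apply, m5_brd, Fin.sum_univ_succ, (Fin.succ_ne_zero j).symm]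
  · refine Fin.cases ?_ (fun j => ?_) j
    · simp [Matrix.mul_apply, m5_brd, Fin.sum_univ_succ]
    · have := congrFun (congrFun h i) j
      rw [Matrix.mul_apply] at this
      simp [Matrix.mul_apply, m5_brd, Fin.sum_univ_succ, this, Matrix.one_apply]

theorem m5_charpoly {n : ℕ} (U A : Matrix (Fin n) (Fin n) ℂ) (t : ℂ) (v : Fin n → ℂ)
    (hU : U * U.conjTranspose = 1) (hU' : U.conjTranspose * U = 1) :
    (m5_brd t (Matrix.vecMul v U) (U.conjTranspose * A * U)).charpoly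
      = (m5_brd t v A).charpoly := by
  rw [← m5_brd_mul U U.conjTranspose A t v rfl]
  have h1 := m5_brd_one U.conjTranspose U hU'
  have h2 := m5_brd_one U U.conjTranspose hU
  have := Matrix.charpoly_units_conj (⟨m5_brd 1 0 U.conjTranspose, m5_brd 1 0 U, h1, h2⟩ :
    (Matrix (Fin (n + 1)) (Fin (n + 1)) ℂ)ˣ) (m5_brd t v A)
  rw [← Matrix.coe_units_inv] at this
  exact this

theorem m5_evd_eq {n : ℕ} {X Y : Fin n → Fin n → ℝ}
    (h : (hmat X).charpoly = (hmat Y).charpoly) : evd X = evd Y :=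
  evd_unique X (evd Y) (evd_antitone Y) (h.trans (charpoly_hmat Y))

theorem m5_bord_diag {n : ℕ} (X : Fin n → Fin n → ℝ) (a : Fin n → ℝ)
    (U : Matrix (Fin n) (Fin n) ℂ) (hU : U * U.conjTranspose = 1)
    (hU' : U.conjTranspose * U = 1) (hX : hmat X = U * hmat (dg a) * U.conjTranspose)
    (t : ℝ) (u w : Fin n → ℝ) :
    evd (bord t u w X) = evd (bord t (m5_T U (u, w)).1 (m5_T U (u, w)).2 (dg a)) := by
  apply m5_evd_eq
  rw [m5_hmat_bord, m5_hmat_bord]
  have h1 : m5_cv ((m5_T U (u, w)).1, (m5_T U (u, w)).2) = Matrix.vecMul (m5_cv (u, w)) U :=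
    m5_cv_T U (u, w)
  have h2 : hmat (dg a) = U.conjTranspose * hmat X * U := by
    rw [hX]
    calc hmat (dg a) = (U.conjTranspose * U) * hmat (dg a) * (U.conjTranspose * U) := by
          rw [hU', Matrix.one_mul, Matrix.mul_one]
      _ = _ := by simp only [Matrix.mul_assoc]
  rw [h1, h2, m5_charpoly U (hmat X) t _ hU hU']

theorem m5_bord_sq {n : ℕ} (a : Fin n → ℝ) (t : ℝ) (u w : Fin n → ℝ) :
    evd (bord t u w (dg a)) = evd (bord t (fun i => √(u i ^ 2 + w i ^ 2)) 0 (dg a)) := by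
  apply m5_evd_eq
  rw [charpoly_arrow, charpoly_arrow]
  congr 1
  refine Finset.sum_congr rfl fun i _ => ?_
  have : √(u i ^ 2 + w i ^ 2) ^ 2 + (0 : Fin n → ℝ) i ^ 2 = u i ^ 2 + w i ^ 2 := by
    rw [Real.sq_sqrt (by positivity)]
    simp
  rw [this]

theorem m5_evd_wOf {n : ℕ} (a : Fin n → ℝ) (ha : StrictAnti a) (x : Fin (n + 1) → ℝ)
    (hx : x ∈ IntX a) :
    evd (bord (∑ j, x j - ∑ i, a i) (fun i => √(wOf a x i)) 0 (dg a)) = x := by
  apply evd_unique
  · apply StrictAnti.antitone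
    rw [Fin.strictAnti_iff_succ_lt]
    intro i
    exact (hx i).2.trans (hx i).1
  · rw [charpoly_arrow]
    have h := congrArg (Polynomial.map (algebraMap ℝ ℂ)) (poly_of_wOf a ha x)
    simp only [Polynomial.map_sub, Polynomial.map_mul, Polynomial.map_X, Polynomial.map_C,
      Polynomial.map_prod, Polynomial.map_sum] at h
    have e : ∀ r : ℝ, algebraMap ℝ ℂ r = (r : ℂ) := fun r => rfl
    simp only [e] at h
    rw [← h]
    congr 1
    refine Finset.sum_congr rfl fun i _ => ?_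
    have : √(wOf a x i) ^ 2 + (0 : Fin n → ℝ) i ^ 2 = wOf a x i := by
      rw [Real.sq_sqrt (wOf_pos a ha x hx i).le]
      simp
    rw [this]

theorem m5_continuous_bord {n : ℕ} {α : Type*} [TopologicalSpace α] (t : α → ℝ)
    (u w : α → Fin n → ℝ) (X : α → Fin n → Fin n → ℝ) (ht : Continuous t) (hu : Continuous u)
    (hw : Continuous w) (hX : Continuous X) : Continuous fun p => bord (t p) (u p) (w p) (X p) := by
  refine continuous_pi fun i => continuous_pi fun j => ?_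
  refine Fin.cases ?_ (fun i => ?_) i
  · refine Fin.cases ?_ (fun j => ?_) j
    · exact ht
    · exact (continuous_apply j).comp hu
  · refine Fin.cases ?_ (fun j => ?_) j
    · exact (continuous_apply i).comp hw
    · exact (continuous_apply j).comp ((continuous_apply i).comp hX)

theorem m5_measurableSet_IntX {n : ℕ} (a : Fin n → ℝ) : MeasurableSet (IntX a) := by
  have : IntX a = ⋂ i : Fin n, ({x : Fin (n + 1) → ℝ | a i < x i.castSucc} ∩
      {x : Fin (n + 1) → ℝ | x i.succ < a i}) := by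
    ext x
    simp [IntX]
  rw [this]
  refine MeasurableSet.iInter fun i => ?_
  exact (measurableSet_lt measurable_const (measurable_pi_apply _)).inter
    (measurableSet_lt (measurable_pi_apply _) measurable_const)

theorem border_formula {n : ℕ} (X : Fin n → Fin n → ℝ) (ha : StrictAnti (evd X))
    (G : (Fin (n + 1) → ℝ) → ℝ≥0∞) (hG : Measurable G) :
    ∫⁻ u : Fin n → ℝ, ∫⁻ w : Fin n → ℝ, ∫⁻ t : ℝ, G (evd (bord t u w X)) =
      ENNReal.ofReal π ^ n *
        ∫⁻ x in IntX (evd X), G x * ENNReal.ofReal (vdd x / vdd (evd X)) := by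
  obtain ⟨U₀, hX⟩ := exists_diag X
  set a := evd X with ha_def
  set U : Matrix (Fin n) (Fin n) ℂ := (U₀ : Matrix (Fin n) (Fin n) ℂ) with hUdef
  have hU : U * U.conjTranspose = 1 := (Matrix.mem_unitaryGroup_iff).1 U₀.2
  have hU' : U.conjTranspose * U = 1 := (Matrix.mem_unitaryGroup_iff').1 U₀.2
  -- the function of the squared moduli
  set Φ : (Fin n → ℝ) → ℝ → ℝ≥0∞ :=
    fun ω t => G (evd (bord t (fun i => √(ω i)) 0 (dg a))) with hΦ
  have hΦm : Measurable (Function.uncurry Φ) := by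
    apply hG.comp
    apply Continuous.measurable
    apply continuous_evd.comp
    apply m5_continuous_bord
    · exact continuous_snd
    · exact continuous_pi fun i =>
        Real.continuous_sqrt.comp ((continuous_apply i).comp continuous_fst)
    · exact continuous_const
    · exact continuous_const
  have hΨm : Measurable fun ω => ∫⁻ t : ℝ, Φ ω t := Measurable.lintegral_prod_right hΦm
  have hmeas : Measurable fun p : (Fin n → ℝ) × (Fin n → ℝ) =>
      ∫⁻ t : ℝ, Φ (fun i => p.1 i ^ 2 + p.2 i ^ 2) t := by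
    apply hΨm.comp
    apply Continuous.measurable
    fun_prop
  have hT := m5_T_mp U hU hU'
  have hmeas2 : Measurable fun p : (Fin n → ℝ) × (Fin n → ℝ) =>
      ∫⁻ t : ℝ, Φ (fun i => (m5_T U p).1 i ^ 2 + (m5_T U p).2 i ^ 2) t := hmeas.comp hT.measurable
  have step1 : ∫⁻ u : Fin n → ℝ, ∫⁻ w : Fin n → ℝ, ∫⁻ t : ℝ, G (evd (bord t u w X))
      = ∫⁻ u : Fin n → ℝ, ∫⁻ w : Fin n → ℝ,
        ∫⁻ t : ℝ, Φ (fun i => (m5_T U (u, w)).1 i ^ 2 + (m5_T U (u, w)).2 i ^ 2) t := by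
    refine lintegral_congr fun u => lintegral_congr fun w => lintegral_congr fun t => ?_
    rw [m5_bord_diag X a U hU hU' hX, m5_bord_sq]
  rw [step1]
  have step2 : ∫⁻ u : Fin n → ℝ, ∫⁻ w : Fin n → ℝ,
        ∫⁻ t : ℝ, Φ (fun i => (m5_T U (u, w)).1 i ^ 2 + (m5_T U (u, w)).2 i ^ 2) t
      = ∫⁻ p : (Fin n → ℝ) × (Fin n → ℝ),
        ∫⁻ t : ℝ, Φ (fun i => (m5_T U p).1 i ^ 2 + (m5_T U p).2 i ^ 2) t :=
    (lintegral_prod _ hmeas2.aemeasurable).symm
  have step3 : ∫⁻ p : (Fin n → ℝ) × (Fin n → ℝ),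
        ∫⁻ t : ℝ, Φ (fun i => (m5_T U p).1 i ^ 2 + (m5_T U p).2 i ^ 2) t
      = ∫⁻ p : (Fin n → ℝ) × (Fin n → ℝ),
        ∫⁻ t : ℝ, Φ (fun i => p.1 i ^ 2 + p.2 i ^ 2) t := hT.lintegral_comp hmeas
  have step4 : ∫⁻ p : (Fin n → ℝ) × (Fin n → ℝ),
        ∫⁻ t : ℝ, Φ (fun i => p.1 i ^ 2 + p.2 i ^ 2) t
      = ∫⁻ u : Fin n → ℝ, ∫⁻ w : Fin n → ℝ, ∫⁻ t : ℝ, Φ (fun i => u i ^ 2 + w i ^ 2) t :=
    lintegral_prod _ hmeas.aemeasurable
  rw [step2, step3, step4, lintegral_polar (fun ω => ∫⁻ t : ℝ, Φ ω t) hΨm,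
    lintegral_wOf a ha Φ hΦm]
  congr 1
  refine setLIntegral_congr_fun (m5_measurableSet_IntX a) ?_
  intro x hx
  simp only [hΦ]
  rw [m5_evd_wOf a ha x hx]

end

end Pool.Agent.MP_941b23_mp
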