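import Pool.Agent.MP_941b23_mp.Defs2
import Pool.Agent.MP_941b23_mp.M1
import Pool.Agent.MP_941b23_mp.M3
import Pool.Agent.MP_941b23_mp.M5

/-! [M6] the Gelfand-Tsetlin recursion -/

set_option autoImplicit false

namespace Pool.Agent.MP_941b23_mp

open MeasureTheory Set Filter Topology
open scoped ENNReal NNReal Real

noncomputable section

theorem m6_continuous_vdd {m : ℕ} : Continuous (vdd : (Fin m → ℝ) → ℝ) := by
  unfold vdd
  fun_prop

theorem m6_vdd_pos {m : ℕ} {x : Fin m → ℝ} (hx : StrictAnti x) : 0 < vdd x := by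
  unfold vdd
  refine Finset.prod_pos fun i _ => Finset.prod_pos fun j hj => ?_
  rw [Finset.mem_Ioi] at hj
  exact sub_pos.2 (hx hj)

theorem m6_isOpen_int {n : ℕ} :
    IsOpen {p : (Fin n → ℝ) × (Fin (n + 1) → ℝ) | p.2 ∈ IntX p.1} := by
  have : {p : (Fin n → ℝ) × (Fin (n + 1) → ℝ) | p.2 ∈ IntX p.1} =
      ⋂ i : Fin n, ({p | p.1 i < p.2 i.castSucc} ∩ {p | p.2 i.succ < p.1 i}) := by
    ext p
    simp only [IntX, Set.mem_ofPred_eq, Set.mem_iInter, Set.mem_inter_iff]
  rw [this]
  refine isOpen_iInter_of_finite fun i => IsOpen.inter ?_ ?_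
  · exact isOpen_lt (by fun_prop) (by fun_prop)
  · exact isOpen_lt (by fun_prop) (by fun_prop)

theorem m6_mem_iff {n : ℕ} (a : Fin n → ℝ) (x : Fin (n + 1) → ℝ) : x ∈ IntX a ↔ a ∈ IntA x :=
  Iff.rfl

theorem m6_strictAnti_x {n : ℕ} {a : Fin n → ℝ} {x : Fin (n + 1) → ℝ} (h : x ∈ IntX a) :
    StrictAnti x :=
  Fin.strictAnti_iff_succ_lt.2 fun i => (h i).2.trans (h i).1

theorem m6_strictAnti_a {n : ℕ} {a : Fin n → ℝ} {x : Fin (n + 1) → ℝ} (h : x ∈ IntX a) :
    StrictAnti a := by
  cases n with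
  | zero => exact fun i => i.elim0
  | succ n =>
    refine Fin.strictAnti_iff_succ_lt.2 fun i => ?_
    have h1 := (h i.succ).1
    have h2 := (h i.castSucc).2
    rw [Fin.succ_castSucc] at h2
    exact h1.trans h2

theorem m6_measurableSet_intA {n : ℕ} (x : Fin (n + 1) → ℝ) : MeasurableSet (IntA x) := by
  have h : IsOpen ((fun a : Fin n → ℝ => (a, x)) ⁻¹'
      {p : (Fin n → ℝ) × (Fin (n + 1) → ℝ) | p.2 ∈ IntX p.1}) :=
    m6_isOpen_int.preimage (by fun_prop)
  exact h.measurableSet

theorem m6_measurableSet_intX {n : ℕ} (a : Fin n → ℝ) : MeasurableSet (IntX a) := by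
  have h : IsOpen ((fun x : Fin (n + 1) → ℝ => (a, x)) ⁻¹'
      {p : (Fin n → ℝ) × (Fin (n + 1) → ℝ) | p.2 ∈ IntX p.1}) :=
    m6_isOpen_int.preimage (by fun_prop)
  exact h.measurableSet

theorem m6_measurableSet_dec (n : ℕ) : MeasurableSet (Dec n) := by
  have : Dec n = ⋂ i : Fin n, ⋂ j : Fin n, {x | i < j → x j < x i} := by
    ext x
    simp only [Dec, Set.mem_ofPred_eq, Set.mem_iInter]
    exact ⟨fun h i j hij => h hij, fun h i j hij => h i j hij⟩
  rw [this]
  refine MeasurableSet.iInter fun i => MeasurableSet.iInter fun j => ?_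
  by_cases hij : i < j
  · simp only [hij, forall_true_left]
    exact measurableSet_lt (measurable_pi_apply j) (measurable_pi_apply i)
  · simp only [hij, false_imp_iff, Set.ofPred_true, MeasurableSet.univ]

/-- the set integral over `IntA x` as an integral of an indicator -/
theorem m6_SS_succ (n : ℕ) (y x : Fin (n + 1) → ℝ) :
    SS (n + 1) y x = ∫ a : Fin n → ℝ, (IntA x).indicator (fun a => SS n (fun i => y i.succ) a *
      Real.exp (y 0 * (∑ j, x j - ∑ i, a i))) a := by
  rw [integral_indicator (m6_measurableSet_intA x)]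
  rfl

theorem m6_measurable_SS (n : ℕ) (y : Fin n → ℝ) : Measurable (SS n y) := by
  induction n with
  | zero => exact measurable_const
  | succ n ih =>
    have h1 : SS (n + 1) y = fun x => ∫ a : Fin n → ℝ, (IntA x).indicator
        (fun a => SS n (fun i => y i.succ) a *
          Real.exp (y 0 * (∑ j, x j - ∑ i, a i))) a := funext fun x => m6_SS_succ n y x
    rw [h1]
    refine StronglyMeasurable.measurable ?_
    refine StronglyMeasurable.integral_prod_right' (f := fun p : (Fin (n + 1) → ℝ) × (Fin n → ℝ) =>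
      (IntA p.1).indicator (fun a => SS n (fun i => y i.succ) a *
        Real.exp (y 0 * (∑ j, p.1 j - ∑ i, a i))) p.2) ?_
    refine Measurable.stronglyMeasurable ?_
    have h2 : (fun p : (Fin (n + 1) → ℝ) × (Fin n → ℝ) =>
        (IntA p.1).indicator (fun a => SS n (fun i => y i.succ) a *
          Real.exp (y 0 * (∑ j, p.1 j - ∑ i, a i))) p.2) =
        {p : (Fin (n + 1) → ℝ) × (Fin n → ℝ) | p.1 ∈ IntX p.2}.indicator
          (fun p => SS n (fun i => y i.succ) p.2 * Real.exp (y 0 * (∑ j, p.1 j - ∑ i, p.2 i))) := by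
      funext p
      by_cases hp : p.2 ∈ IntA p.1
      · rw [Set.indicator_of_mem hp, Set.indicator_of_mem (by exact hp)]
      · rw [Set.indicator_of_notMem hp, Set.indicator_of_notMem (by exact hp)]
    rw [h2]
    refine Measurable.indicator ?_ ?_
    · refine Measurable.mul ((ih _).comp measurable_snd) ?_
      fun_prop
    · exact (m6_isOpen_int.preimage (continuous_swap)).measurableSet

theorem m6_bound_SS (n : ℕ) (y : Fin n → ℝ) (R : ℝ) : ∃ M : ℝ, ∀ x : Fin n → ℝ,
    (∀ i, |x i| ≤ R) → |SS n y x| ≤ M := by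
  induction n with
  | zero => exact ⟨1, fun x _ => by simp [SS]⟩
  | succ n ih =>
    obtain ⟨M, hM⟩ := ih (fun i => y i.succ)
    refine ⟨|M| * Real.exp (|y 0| * ((n + 1) * |R| + n * |R|)) *
      (volume (Set.Icc (fun _ : Fin n => -R) (fun _ => R))).toReal, fun x hx => ?_⟩
    have hsub : IntA x ⊆ Set.Icc (fun _ : Fin n => -R) (fun _ => R) := by
      intro a ha
      refine ⟨fun i => ?_, fun i => ?_⟩
      · exact (abs_le.1 (hx i.succ)).1.trans (ha i).2.le
      · exact (ha i).1.le.trans (abs_le.1 (hx i.castSucc)).2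
    have hvol : volume (Set.Icc (fun _ : Fin n => -R) (fun _ => R)) < ⊤ :=
      isCompact_Icc.measure_lt_top
    have h1 : ‖∫ a in IntA x, SS n (fun i => y i.succ) a *
        Real.exp (y 0 * (∑ j, x j - ∑ i, a i))‖ ≤
        |M| * Real.exp (|y 0| * ((n + 1) * |R| + n * |R|)) * (volume (IntA x)).toReal := by
      refine norm_setIntegral_le_of_norm_le_const ((measure_mono hsub).trans_lt hvol) ?_
      intro a ha
      have ha' := hsub ha
      have haR : ∀ i, |a i| ≤ R := fun i => abs_le.2 ⟨ha'.1 i, ha'.2 i⟩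
      rw [norm_mul, Real.norm_eq_abs, Real.norm_eq_abs, Real.abs_exp]
      refine mul_le_mul ((hM a haR).trans (le_abs_self M)) (Real.exp_le_exp.2 ?_)
        (Real.exp_pos _).le (abs_nonneg _)
      refine (le_abs_self _).trans ?_
      rw [abs_mul]
      refine mul_le_mul_of_nonneg_left ?_ (abs_nonneg _)
      have h2 : |∑ j, x j| ≤ (n + 1) * |R| := by
        refine (Finset.abs_sum_le_sum_abs _ _).trans ?_
        refine (Finset.sum_le_sum fun i _ => (hx i).trans (le_abs_self R)).trans ?_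
        simp
      have h3 : |∑ i, a i| ≤ n * |R| := by
        refine (Finset.abs_sum_le_sum_abs _ _).trans ?_
        refine (Finset.sum_le_sum fun i _ => (haR i).trans (le_abs_self R)).trans ?_
        simp
      exact (abs_sub _ _).trans (add_le_add h2 h3)
    refine (show |SS (n + 1) y x| ≤ _ from h1).trans ?_
    refine mul_le_mul_of_nonneg_left ?_ (by positivity)
    exact ENNReal.toReal_mono hvol.ne (measure_mono hsub)

theorem m6_SS_nonneg (n : ℕ) (y x : Fin n → ℝ) : 0 ≤ SS n y x := by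
  induction n with
  | zero => simp [SS]
  | succ n ih =>
    exact setIntegral_nonneg (m6_measurableSet_intA x)
      fun a _ => mul_nonneg (ih _ a) (Real.exp_pos _).le

theorem m6_ofReal_SS (n : ℕ) (y x : Fin (n + 1) → ℝ) :
    ENNReal.ofReal (SS (n + 1) y x) = ∫⁻ a in IntA x, ENNReal.ofReal
      (SS n (fun i => y i.succ) a * Real.exp (y 0 * (∑ j, x j - ∑ i, a i))) := by
  change ENNReal.ofReal (∫ a in IntA x, SS n (fun i => y i.succ) a *
    Real.exp (y 0 * (∑ j, x j - ∑ i, a i))) = _
  obtain ⟨R, hR⟩ : ∃ R : ℝ, ∀ i, |x i| ≤ R :=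
    ⟨∑ i, |x i|, fun i => Finset.single_le_sum (f := fun i => |x i|)
      (fun i _ => abs_nonneg _) (Finset.mem_univ i)⟩
  have hsub : IntA x ⊆ Set.Icc (fun _ : Fin n => -R) (fun _ => R) := by
    intro a ha
    refine ⟨fun i => ?_, fun i => ?_⟩
    · exact (abs_le.1 (hR i.succ)).1.trans (ha i).2.le
    · exact (ha i).1.le.trans (abs_le.1 (hR i.castSucc)).2
  have hvol : volume (Set.Icc (fun _ : Fin n => -R) (fun _ => R)) < ⊤ :=
    isCompact_Icc.measure_lt_top
  obtain ⟨M, hM⟩ := m6_bound_SS n (fun i => y i.succ) R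
  refine ofReal_integral_eq_lintegral_ofReal ?_ ?_
  · refine Measure.integrableOn_of_bounded (M := |M| *
      Real.exp (|y 0| * ((n + 1) * |R| + n * |R|))) ((measure_mono hsub).trans_lt hvol).ne ?_ ?_
    · refine (Measurable.mul (m6_measurable_SS n _) ?_).aestronglyMeasurable
      fun_prop
    · refine (ae_restrict_iff' (m6_measurableSet_intA x)).2 (Eventually.of_forall ?_)
      intro a ha
      have ha' := hsub ha
      have haR : ∀ i, |a i| ≤ R := fun i => abs_le.2 ⟨ha'.1 i, ha'.2 i⟩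
      rw [norm_mul, Real.norm_eq_abs, Real.norm_eq_abs, Real.abs_exp]
      refine mul_le_mul ((hM a haR).trans (le_abs_self M)) (Real.exp_le_exp.2 ?_)
        (Real.exp_pos _).le (abs_nonneg _)
      refine (le_abs_self _).trans ?_
      rw [abs_mul]
      refine mul_le_mul_of_nonneg_left ?_ (abs_nonneg _)
      have h2 : |∑ j, x j| ≤ (n + 1) * |R| := by
        refine (Finset.abs_sum_le_sum_abs _ _).trans ?_
        refine (Finset.sum_le_sum fun i _ => (hR i).trans (le_abs_self R)).trans ?_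
        simp
      have h3 : |∑ i, a i| ≤ n * |R| := by
        refine (Finset.abs_sum_le_sum_abs _ _).trans ?_
        refine (Finset.sum_le_sum fun i _ => (haR i).trans (le_abs_self R)).trans ?_
        simp
      exact (abs_sub _ _).trans (add_le_add h2 h3)
  · exact Eventually.of_forall fun a => mul_nonneg (m6_SS_nonneg n _ a) (Real.exp_pos _).le

theorem m6_bord_sum {n : ℕ} (y : Fin (n + 1) → ℝ) (t : ℝ) (u w : Fin n → ℝ)
    (X : Fin n → Fin n → ℝ) : ∑ i, y i * bord t u w X i i =
      y 0 * t + ∑ i : Fin n, y i.succ * X i i := by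
  rw [Fin.sum_univ_succ]
  rfl

theorem m6_t_eq {n : ℕ} (t : ℝ) (u w : Fin n → ℝ) (X : Fin n → Fin n → ℝ) :
    t = ∑ j, evd (bord t u w X) j - ∑ i, evd X i := by
  have h1 := m6_bord_sum (fun _ => 1) t u w X
  simp only [one_mul] at h1
  rw [sum_evd, sum_evd, h1]
  ring

/-- the kernel -/
def m6_K (n : ℕ) (y : Fin (n + 1) → ℝ) (G : (Fin (n + 1) → ℝ) → ℝ≥0∞) (a : Fin n → ℝ) : ℝ≥0∞ :=
  ENNReal.ofReal π ^ n * ∫⁻ x in IntX a,
    (G x * ENNReal.ofReal (Real.exp (y 0 * (∑ j, x j - ∑ i, a i)))) *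
      ENNReal.ofReal (vdd x / vdd a)

theorem m6_measurable_K (n : ℕ) (y : Fin (n + 1) → ℝ) (G : (Fin (n + 1) → ℝ) → ℝ≥0∞)
    (hG : Measurable G) : Measurable (m6_K n y G) := by
  unfold m6_K
  refine Measurable.const_mul ?_ _
  have h1 : (fun a : Fin n → ℝ => ∫⁻ x in IntX a,
      (G x * ENNReal.ofReal (Real.exp (y 0 * (∑ j, x j - ∑ i, a i)))) *
        ENNReal.ofReal (vdd x / vdd a)) = fun a => ∫⁻ x : Fin (n + 1) → ℝ,
      ({p : (Fin n → ℝ) × (Fin (n + 1) → ℝ) | p.2 ∈ IntX p.1}.indicator (fun p =>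
        (G p.2 * ENNReal.ofReal (Real.exp (y 0 * (∑ j, p.2 j - ∑ i, p.1 i)))) *
          ENNReal.ofReal (vdd p.2 / vdd p.1))) (a, x) := by
    funext a
    rw [← lintegral_indicator (m6_measurableSet_intX a)]
    refine lintegral_congr fun x => ?_
    by_cases hx : x ∈ IntX a
    · rw [Set.indicator_of_mem hx, Set.indicator_of_mem (by exact hx)]
    · rw [Set.indicator_of_notMem hx, Set.indicator_of_notMem (by exact hx)]
  rw [h1]
  refine Measurable.lintegral_prod_right' ?_
  refine Measurable.indicator ?_ m6_isOpen_int.measurableSet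
  refine Measurable.mul (Measurable.mul (hG.comp measurable_snd) ?_) ?_
  · fun_prop
  · refine ENNReal.measurable_ofReal.comp ?_
    exact (m6_continuous_vdd.measurable.comp measurable_snd).div
      (m6_continuous_vdd.measurable.comp measurable_fst)

theorem m6_swap (n : ℕ) (y : Fin (n + 1) → ℝ) (G : (Fin (n + 1) → ℝ) → ℝ≥0∞)
    (hG : Measurable G) :
    ∫⁻ a in Dec n, m6_K n y G a * ENNReal.ofReal (vdd a * SS n (fun i => y i.succ) a) =
      ENNReal.ofReal π ^ n *
        ∫⁻ x in Dec (n + 1), G x * ENNReal.ofReal (vdd x * SS (n + 1) y x) := by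
  set y' : Fin n → ℝ := fun i => y i.succ with hy'
  set Φ : (Fin n → ℝ) × (Fin (n + 1) → ℝ) → ℝ≥0∞ :=
    {p : (Fin n → ℝ) × (Fin (n + 1) → ℝ) | p.2 ∈ IntX p.1}.indicator (fun p =>
      G p.2 * ENNReal.ofReal (vdd p.2) *
        ENNReal.ofReal (SS n y' p.1 * Real.exp (y 0 * (∑ j, p.2 j - ∑ i, p.1 i)))) with hΦ
  have hΦm : Measurable Φ := by
    refine Measurable.indicator ?_ m6_isOpen_int.measurableSet
    refine Measurable.mul (Measurable.mul (hG.comp measurable_snd) ?_) ?_
    · exact ENNReal.measurable_ofReal.comp (m6_continuous_vdd.measurable.comp measurable_snd)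
    · refine ENNReal.measurable_ofReal.comp ?_
      refine ((m6_measurable_SS n y').comp measurable_fst).mul ?_
      fun_prop
  have hπ : ENNReal.ofReal π ^ n ≠ ⊤ := ENNReal.pow_ne_top ENNReal.ofReal_ne_top
  have h1 : ∀ a, (Dec n).indicator
      (fun a => m6_K n y G a * ENNReal.ofReal (vdd a * SS n y' a)) a =
      ENNReal.ofReal π ^ n * ∫⁻ x, Φ (a, x) := by
    intro a
    by_cases ha : a ∈ Dec n
    · rw [Set.indicator_of_mem ha]
      unfold m6_K
      rw [mul_assoc, ← lintegral_mul_const' _ _ ENNReal.ofReal_ne_top,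
        ← lintegral_indicator (m6_measurableSet_intX a)]
      congr 1
      refine lintegral_congr fun x => ?_
      by_cases hx : x ∈ IntX a
      · rw [Set.indicator_of_mem hx, hΦ, Set.indicator_of_mem (by exact hx)]
        have hva : 0 < vdd a := m6_vdd_pos ha
        have hvx : 0 < vdd x := m6_vdd_pos (m6_strictAnti_x hx)
        rw [mul_assoc, mul_assoc, mul_assoc, ← ENNReal.ofReal_mul (div_nonneg hvx.le hva.le),
          ← ENNReal.ofReal_mul (Real.exp_pos _).le, ← ENNReal.ofReal_mul hvx.le]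
        congr 2
        field_simp
      · rw [Set.indicator_of_notMem hx, hΦ, Set.indicator_of_notMem (by exact hx)]
    · rw [Set.indicator_of_notMem ha]
      have h2 : ∀ x, Φ (a, x) = 0 := by
        intro x
        rw [hΦ]
        refine Set.indicator_of_notMem (fun hx => ha ?_) _
        exact m6_strictAnti_a (show x ∈ IntX a from hx)
      simp only [h2, lintegral_zero, mul_zero]
  have h3 : ∀ x, ∫⁻ a, Φ (a, x) = (Dec (n + 1)).indicator
      (fun x => G x * ENNReal.ofReal (vdd x * SS (n + 1) y x)) x := by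
    intro x
    by_cases hx : x ∈ Dec (n + 1)
    · rw [Set.indicator_of_mem hx, ENNReal.ofReal_mul (m6_vdd_pos hx).le, m6_ofReal_SS, ← mul_assoc,
        ← lintegral_const_mul, ← lintegral_indicator (m6_measurableSet_intA x)]
      · refine lintegral_congr fun a => ?_
        by_cases ha : a ∈ IntA x
        · rw [Set.indicator_of_mem ha, hΦ, Set.indicator_of_mem (by exact ha)]
        · rw [Set.indicator_of_notMem ha, hΦ, Set.indicator_of_notMem (by exact ha)]
      · refine ENNReal.measurable_ofReal.comp ((m6_measurable_SS n _).mul ?_)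
        fun_prop
    · rw [Set.indicator_of_notMem hx]
      have h2 : ∀ a, Φ (a, x) = 0 := by
        intro a
        rw [hΦ]
        refine Set.indicator_of_notMem (fun ha => hx ?_) _
        exact m6_strictAnti_x (show x ∈ IntX a from ha)
      simp only [h2, lintegral_zero]
  have h5 : ∫⁻ a, ∫⁻ x, Φ (a, x) = ∫⁻ x, ∫⁻ a, Φ (a, x) :=
    lintegral_lintegral_swap (f := fun a x => Φ (a, x)) hΦm.aemeasurable
  rw [← lintegral_indicator (m6_measurableSet_dec n), lintegral_congr h1,
    lintegral_const_mul' _ _ hπ, h5, lintegral_congr h3,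
    lintegral_indicator (m6_measurableSet_dec (n + 1))]

theorem gt_formula (n : ℕ) : ∃ C : ℝ≥0∞, C ≠ 0 ∧ C ≠ ⊤ ∧ ∀ (y : Fin n → ℝ)
    (G : (Fin n → ℝ) → ℝ≥0∞), Measurable G →
    ∫⁻ X : Fin n → Fin n → ℝ, G (evd X) * ENNReal.ofReal (Real.exp (∑ i, y i * X i i)) =
      C * ∫⁻ x in Dec n, G x * ENNReal.ofReal (vdd x * SS n y x) := by
  induction n with
  | zero =>
    refine ⟨1, one_ne_zero, ENNReal.one_ne_top, fun y G hG => ?_⟩
    have h1 : Dec 0 = Set.univ := by
      ext x
      simp only [Dec, Set.mem_ofPred_eq, Set.mem_univ, iff_true]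
      exact fun i => i.elim0
    have h2 : (volume : Measure (Fin 0 → Fin 0 → ℝ)) Set.univ = 1 := by
      rw [volume_pi]
      exact Measure.pi_empty_univ _
    have h3 : (volume : Measure (Fin 0 → ℝ)) Set.univ = 1 := by
      rw [volume_pi]
      exact Measure.pi_empty_univ _
    rw [h1, Measure.restrict_univ, lintegral_unique, lintegral_unique, h2, h3, one_mul]
    have h4 : ∀ z w : Fin 0 → ℝ, G z = G w := fun z w => by rw [Subsingleton.elim z w]
    simp [vdd, SS]
    exact h4 _ _
  | succ n ih =>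
    obtain ⟨C, hC0, hCt, hC⟩ := ih
    refine ⟨ENNReal.ofReal π ^ n * C, ?_, ?_, fun y G hG => ?_⟩
    · refine mul_ne_zero (pow_ne_zero _ ?_) hC0
      exact (ENNReal.ofReal_pos.2 Real.pi_pos).ne'
    · exact ENNReal.mul_ne_top (ENNReal.pow_ne_top ENNReal.ofReal_ne_top) hCt
    have hae : ∀ᵐ X : Fin n → Fin n → ℝ, StrictAnti (evd X) := by
      have hm : Measurable ((Dec n)ᶜ.indicator (1 : (Fin n → ℝ) → ℝ≥0∞)) :=
        measurable_one.indicator (m6_measurableSet_dec n).compl
      have h1 := hC 0 ((Dec n)ᶜ.indicator 1) hm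
      have h2 : ∫⁻ x in Dec n, (Dec n)ᶜ.indicator (1 : (Fin n → ℝ) → ℝ≥0∞) x *
          ENNReal.ofReal (vdd x * SS n 0 x) = 0 := by
        rw [setLIntegral_congr_fun (g := fun _ => 0) (m6_measurableSet_dec n), lintegral_zero]
        intro x hx
        change (Dec n)ᶜ.indicator (1 : (Fin n → ℝ) → ℝ≥0∞) x * _ = 0
        rw [Set.indicator_of_notMem (by simpa using hx), zero_mul]
      rw [h2, mul_zero] at h1
      simp only [Pi.zero_apply, zero_mul, Finset.sum_const_zero, Real.exp_zero,
        ENNReal.ofReal_one, mul_one] at h1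
      have hm' : Measurable fun X : Fin n → Fin n → ℝ =>
          (Dec n)ᶜ.indicator (1 : (Fin n → ℝ) → ℝ≥0∞) (evd X) :=
        hm.comp continuous_evd.measurable
      rw [lintegral_eq_zero_iff hm'] at h1
      filter_upwards [h1] with X hX
      by_contra hcon
      have h3 : (Dec n)ᶜ.indicator (1 : (Fin n → ℝ) → ℝ≥0∞) (evd X) = 1 :=
        Set.indicator_of_mem (show evd X ∈ (Dec n)ᶜ from hcon) _
      rw [h3] at hX
      exact one_ne_zero hX
    have hF : Measurable fun Z : Fin (n + 1) → Fin (n + 1) → ℝ =>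
        G (evd Z) * ENNReal.ofReal (Real.exp (∑ i, y i * Z i i)) := by
      refine (hG.comp continuous_evd.measurable).mul ?_
      fun_prop
    rw [lintegral_bord _ hF]
    have h1 : ∀ᵐ X : Fin n → Fin n → ℝ, ∫⁻ u : Fin n → ℝ, ∫⁻ w : Fin n → ℝ, ∫⁻ t : ℝ,
        G (evd (bord t u w X)) * ENNReal.ofReal (Real.exp (∑ i, y i * bord t u w X i i)) =
        m6_K n y G (evd X) * ENNReal.ofReal (Real.exp (∑ i : Fin n, y i.succ * X i i)) := by
      filter_upwards [hae] with X hX
      have h2 : ∀ (u w : Fin n → ℝ) (t : ℝ),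
          G (evd (bord t u w X)) * ENNReal.ofReal (Real.exp (∑ i, y i * bord t u w X i i)) =
          (fun x : Fin (n + 1) → ℝ => G x *
            ENNReal.ofReal (Real.exp (y 0 * (∑ j, x j - ∑ i, evd X i)))) (evd (bord t u w X)) *
          ENNReal.ofReal (Real.exp (∑ i : Fin n, y i.succ * X i i)) := by
        intro u w t
        rw [m6_bord_sum]
        change _ = G (evd (bord t u w X)) * ENNReal.ofReal (Real.exp (y 0 *
          (∑ j, evd (bord t u w X) j - ∑ i, evd X i))) * _
        rw [← m6_t_eq t u w X, mul_assoc, ← ENNReal.ofReal_mul (Real.exp_pos _).le, ← Real.exp_add]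
      simp only [h2]
      simp only [lintegral_mul_const' _ _ ENNReal.ofReal_ne_top]
      rw [border_formula X hX (fun x : Fin (n + 1) → ℝ => G x *
            ENNReal.ofReal (Real.exp (y 0 * (∑ j, x j - ∑ i, evd X i))))]
      · rfl
      · refine hG.mul ?_
        fun_prop
    rw [lintegral_congr_ae h1, hC (fun i => y i.succ) _ (m6_measurable_K n y G hG),
      m6_swap n y G hG, ← mul_assoc, mul_comm C]

end

end Pool.Agent.MP_941b23_mp
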