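import Pool.Agent.MP_941b23_mp.Defs2

/-!
# [M7] evaluation of the Gelfand-Tsetlin integral
-/

namespace Pool.Agent.MP_941b23_mp

open MeasureTheory Set Filter Topology
open scoped ENNReal NNReal Real

noncomputable section

theorem m7_IntA_eq {n : ℕ} (x : Fin (n + 1) → ℝ) :
    IntA x = Set.pi univ (fun i : Fin n => Ioo (x i.succ) (x i.castSucc)) := by
  ext a
  simp only [IntA, mem_ofPred_eq, Set.mem_pi, mem_univ, true_imp_iff, mem_Ioo]
  exact forall_congr' fun i => and_comm

theorem m7_measurableSet_IntA {n : ℕ} (x : Fin (n + 1) → ℝ) : MeasurableSet (IntA x) := by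
  rw [m7_IntA_eq]
  exact MeasurableSet.univ_pi fun _ => measurableSet_Ioo

theorem integral_intA_det {n : ℕ} (u U : Fin n → ℝ → ℝ) (hu : ∀ i, Continuous (u i))
    (hU : ∀ i x, HasDerivAt (U i) (u i x) x) (x : Fin (n + 1) → ℝ) (hx : StrictAnti x) :
    ∫ a in IntA x, Matrix.det (Matrix.of fun i j : Fin n => u i (a j)) =
      Matrix.det (Matrix.of fun i j : Fin n => U i (x j.castSucc) - U i (x j.succ)) := by
  have hint : ∀ i j : Fin n, Integrable (u i) (volume.restrict (Ioo (x j.succ) (x j.castSucc))) :=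
    fun i j => ((hu i).integrableOn_Icc).mono_set Ioo_subset_Icc_self
  have hval : ∀ i j : Fin n, ∫ a in Ioo (x j.succ) (x j.castSucc), u i a =
      U i (x j.castSucc) - U i (x j.succ) := by
    intro i j
    have hle : x j.succ ≤ x j.castSucc := (hx (Fin.castSucc_lt_succ)).le
    rw [← integral_Ioc_eq_integral_Ioo, ← intervalIntegral.integral_of_le hle]
    exact intervalIntegral.integral_eq_sub_of_hasDerivAt (fun t _ => hU i t)
      ((hu i).intervalIntegrable _ _)
  rw [m7_IntA_eq, volume_pi, Measure.restrict_pi_pi]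
  simp only [Matrix.det_apply', Matrix.of_apply]
  rw [integral_finsetSum]
  · refine Finset.sum_congr rfl fun σ _ => ?_
    rw [integral_const_mul]
    congr 1
    rw [integral_fintype_prod_eq_prod (fun i : Fin n => u (σ i))]
    exact Finset.prod_congr rfl fun i _ => hval (σ i) i
  · intro σ _
    exact (Integrable.fintype_prod (f := fun i : Fin n => u (σ i))
      (fun i => hint (σ i) i)).const_mul _

theorem m7_colop {n : ℕ} (A : Matrix (Fin (n + 1)) (Fin (n + 1)) ℝ) (h : ∀ j, A 0 j = 1) :
    A.det = Matrix.det (Matrix.of fun i j : Fin n => A i.succ j.succ - A i.succ j.castSucc) := by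
  let B : Matrix (Fin (n + 1)) (Fin (n + 1)) ℝ :=
    Matrix.of fun i j => Fin.cases (motive := fun _ => ℝ) (A i 0)
      (fun k => A i k.succ - A i k.castSucc) j
  have hB0 : ∀ i, B i 0 = A i 0 := fun i => rfl
  have hBs : ∀ i (j : Fin n), B i j.succ = A i j.succ - A i j.castSucc := fun i j => rfl
  have h1 : A.det = B.det := by
    refine Matrix.det_eq_of_forall_col_eq_smul_add_pred (fun _ => 1) (fun i => (hB0 i).symm) ?_
    intro i j
    rw [hBs]
    ring
  rw [h1, Matrix.det_succ_row_zero, Fin.sum_univ_succ]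
  have h2 : ∀ j : Fin n, B 0 j.succ = 0 := by
    intro j
    rw [hBs, h, h, sub_self]
  simp only [h2, hB0, h, mul_zero, zero_mul, Finset.sum_const_zero, add_zero]
  simp only [Fin.val_zero, pow_zero, one_mul, Fin.succAbove_zero]
  rfl

theorem m7_vdd_succ {n : ℕ} (y : Fin (n + 1) → ℝ) :
    vdd y = (∏ j : Fin n, (y 0 - y j.succ)) * vdd (fun i => y i.succ) := by
  unfold vdd
  rw [Fin.prod_univ_succ]
  congr 1
  · rw [Fin.Ioi_zero_eq_map, Finset.prod_map]
    rfl
  · refine Finset.prod_congr rfl fun i _ => ?_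
    rw [Fin.Ioi_succ, Finset.prod_map]
    rfl

theorem m7_strictAnti {n : ℕ} {x : Fin (n + 1) → ℝ} {a : Fin n → ℝ} (ha : a ∈ IntA x) :
    StrictAnti a := by
  cases n with
  | zero => exact fun i => i.elim0
  | succ n =>
    rw [Fin.strictAnti_iff_succ_lt]
    intro i
    have h1 := (ha i.castSucc).2
    have h2 := (ha i.succ).1
    rw [Fin.succ_castSucc] at h1
    exact h2.trans h1

theorem m7_prim (c : ℝ) (x : ℝ) :
    HasDerivAt (fun x => ∫ t in (0 : ℝ)..x, Real.exp (c * t)) (Real.exp (c * x)) x := by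
  have hc : Continuous fun t : ℝ => Real.exp (c * t) := by fun_prop
  exact intervalIntegral.integral_hasDerivAt_right (hc.intervalIntegrable _ _)
    (hc.stronglyMeasurableAtFilter _ _) hc.continuousAt

theorem m7_prim_mul (c : ℝ) (x : ℝ) :
    c * ∫ t in (0 : ℝ)..x, Real.exp (c * t) = Real.exp (c * x) - 1 := by
  have hc : Continuous fun t : ℝ => c * Real.exp (c * t) := by fun_prop
  rw [← intervalIntegral.integral_const_mul]
  rw [intervalIntegral.integral_eq_sub_of_hasDerivAt (f := fun t => Real.exp (c * t))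
    (fun t _ => ?_) (hc.intervalIntegrable _ _)]
  · simp
  · have := (((hasDerivAt_id t).const_mul c).exp)
    simpa [mul_comm] using this

theorem SS_mul_vdd (n : ℕ) (y x : Fin n → ℝ) (hx : StrictAnti x) :
    SS n y x * vdd y = Matrix.det (Matrix.of fun i j : Fin n => Real.exp (y i * x j)) := by
  induction n with
  | zero => simp [SS, vdd]
  | succ n ih =>
    set c : Fin n → ℝ := fun i => y i.succ - y 0 with hc
    have h1 : SS (n + 1) y x * vdd y =
        (∏ i, -c i) * (Real.exp (y 0 * ∑ j, x j) * ∫ a in IntA x,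
          Matrix.det (Matrix.of fun i j : Fin n => Real.exp (c i * a j))) := by
      rw [SS, m7_vdd_succ y]
      rw [show (∏ j : Fin n, (y 0 - y j.succ)) = ∏ i, -c i from
        Finset.prod_congr rfl fun i _ => by simp [hc]]
      rw [mul_comm _ ((∏ i, -c i) * _), mul_assoc]
      congr 1
      rw [← integral_const_mul, ← integral_const_mul]
      refine setIntegral_congr_fun (m7_measurableSet_IntA x) fun a ha => ?_
      have h2 := ih (fun i => y i.succ) a (m7_strictAnti ha)
      have h3 : Matrix.det (Matrix.of fun i j : Fin n => Real.exp (c i * a j)) =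
          Real.exp (-(y 0 * ∑ i, a i)) *
            Matrix.det (Matrix.of fun i j : Fin n => Real.exp (y i.succ * a j)) := by
        rw [← neg_mul, Finset.mul_sum, Real.exp_sum, ← Matrix.det_mul_row]
        congr 1
        ext i j
        simp only [Matrix.of_apply]
        rw [← Real.exp_add]
        congr 1
        simp only [hc]
        ring
      rw [h3, ← h2, mul_sub, sub_eq_add_neg, Real.exp_add]
      ring
    rw [h1, integral_intA_det (fun i t => Real.exp (c i * t))
      (fun i x => ∫ t in (0 : ℝ)..x, Real.exp (c i * t)) (fun i => by fun_prop)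
      (fun i x => m7_prim (c i) x) x hx]
    have h4 : (Matrix.of fun i j : Fin (n + 1) => Real.exp (y i * x j)).det =
        Real.exp (y 0 * ∑ j, x j) *
          (Matrix.of fun i j : Fin (n + 1) => Real.exp ((y i - y 0) * x j)).det := by
      rw [Finset.mul_sum, Real.exp_sum, ← Matrix.det_mul_row]
      congr 1
      ext i j
      simp only [Matrix.of_apply]
      rw [← Real.exp_add]
      congr 1
      ring
    rw [h4, m7_colop _ (fun j => by simp), mul_left_comm]
    congr 1
    rw [← Matrix.det_mul_column]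
    congr 1
    ext i j
    simp only [Matrix.of_apply]
    have h5 := m7_prim_mul (c i) (x j.castSucc)
    have h6 := m7_prim_mul (c i) (x j.succ)
    rw [neg_mul, mul_sub, h5, h6]
    simp only [hc]
    ring

theorem m7_vdd_det {n : ℕ} (a : Fin n → ℝ) :
    vdd a = Matrix.det (Matrix.of fun i j : Fin n => (-a j) ^ (i : ℕ)) := by
  have h := Matrix.det_vandermonde (fun i => -a i)
  rw [← Matrix.det_transpose] at h
  have h2 : (Matrix.vandermonde fun i => -a i).transpose =
      Matrix.of fun i j : Fin n => (-a j) ^ (i : ℕ) := by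
    ext i j
    simp [Matrix.vandermonde]
  rw [h2] at h
  rw [h]
  unfold vdd
  refine Finset.prod_congr rfl fun i _ => Finset.prod_congr rfl fun j _ => ?_
  ring

theorem m7_integral_vdd {n : ℕ} (x : Fin (n + 1) → ℝ) (hx : StrictAnti x) :
    ∫ a in IntA x, vdd a = (∏ i : Fin n, (((i : ℕ) : ℝ) + 1)⁻¹) * vdd x := by
  simp only [m7_vdd_det]
  rw [integral_intA_det (fun i t => (-t) ^ (i : ℕ))
    (fun i t => -(((i : ℕ) : ℝ) + 1)⁻¹ * (-t) ^ ((i : ℕ) + 1)) (fun i => by fun_prop) ?_ x hx]
  · rw [m7_colop (Matrix.of fun i j : Fin (n + 1) => (-x j) ^ (i : ℕ)) (fun j => by simp),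
      ← Matrix.det_mul_column]
    congr 1
    ext i j
    simp only [Matrix.of_apply, Fin.val_succ]
    ring
  · intro i t
    have h2 : (((i : ℕ) : ℝ) + 1) ≠ 0 := by positivity
    have h1 := ((hasDerivAt_neg t).pow ((i : ℕ) + 1)).const_mul (-(((i : ℕ) : ℝ) + 1)⁻¹)
    have h3 : -(((i : ℕ) : ℝ) + 1)⁻¹ * ((((i : ℕ) + 1 : ℕ) : ℝ) * (-t) ^ ((i : ℕ) + 1 - 1) * -1) =
        (-t) ^ (i : ℕ) := by
      rw [Nat.add_sub_cancel]
      push_cast
      field_simp
    rw [h3] at h1
    exact h1

theorem SS_zero (n : ℕ) : ∃ c : ℝ, 0 < c ∧ ∀ x : Fin n → ℝ, StrictAnti x →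
    SS n 0 x = c * vdd x := by
  induction n with
  | zero => exact ⟨1, one_pos, fun x _ => by simp [SS, vdd]⟩
  | succ n ih =>
    obtain ⟨c, hc, h⟩ := ih
    refine ⟨c * ∏ i : Fin n, (((i : ℕ) : ℝ) + 1)⁻¹,
      mul_pos hc (Finset.prod_pos fun i _ => by positivity), fun x hx => ?_⟩
    rw [mul_assoc, ← m7_integral_vdd x hx, SS, ← integral_const_mul]
    refine setIntegral_congr_fun (m7_measurableSet_IntA x) fun a ha => ?_
    have h2 := h a (m7_strictAnti ha)
    simp only [Pi.zero_apply, zero_mul, Real.exp_zero, mul_one]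
    exact h2

theorem SS_nonneg (n : ℕ) (y x : Fin n → ℝ) : 0 ≤ SS n y x := by
  induction n with
  | zero => simp [SS]
  | succ n ih =>
    rw [SS]
    exact integral_nonneg fun a => mul_nonneg (ih _ _) (Real.exp_pos _).le

end

end Pool.Agent.MP_941b23_mp
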