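import Pool.Agent.MP_941b23_mp.Defs2
import Pool.Agent.MP_941b23_mp.D1
import Pool.Agent.MP_941b23_mp.M1
import Pool.Agent.MP_941b23_mp.M1b
import Pool.Agent.MP_941b23_mp.M2
import Pool.Agent.MP_941b23_mp.M6
import Pool.Agent.MP_941b23_mp.M7

/-!
# [M8] the matrix integral is a moment determinant
-/

namespace Pool.Agent.MP_941b23_mp

open MeasureTheory Set Filter Topology
open scoped ENNReal NNReal Real

noncomputable section

/-! ### permutations -/

theorem m8_vdd_eq {n : ℕ} (x : Fin n → ℝ) :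
    vdd x = Matrix.det (Matrix.of fun i j : Fin n => (-x j) ^ (i : ℕ)) := by
  have h := Matrix.det_vandermonde (fun i => -x i)
  rw [← Matrix.det_transpose] at h
  have e : (Matrix.vandermonde fun i => -x i).transpose =
      Matrix.of fun i j : Fin n => (-x j) ^ (i : ℕ) := by
    ext i j
    rfl
  rw [e] at h
  rw [h]
  unfold vdd
  refine Finset.prod_congr rfl fun i _ => Finset.prod_congr rfl fun j _ => ?_
  ring

theorem m8_vdd_perm {n : ℕ} (x : Fin n → ℝ) (σ : Equiv.Perm (Fin n)) :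
    vdd (fun i => x (σ i)) = ((Equiv.Perm.sign σ : ℤ) : ℝ) * vdd x := by
  rw [m8_vdd_eq, m8_vdd_eq, ← Matrix.det_permute']
  rfl

theorem m8_vdd_pos {n : ℕ} {x : Fin n → ℝ} (hx : StrictAnti x) : 0 < vdd x := by
  unfold vdd
  refine Finset.prod_pos fun i _ => Finset.prod_pos fun j hj => ?_
  exact sub_pos.mpr (hx (Finset.mem_Ioi.mp hj))

theorem m8_vdd_zero {n : ℕ} {x : Fin n → ℝ} (hx : ¬ Function.Injective x) : vdd x = 0 := by
  rw [Function.Injective] at hx
  push Not at hx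
  obtain ⟨i, j, hij, hne⟩ := hx
  rw [m8_vdd_eq]
  refine Matrix.det_zero_of_column_eq hne fun k => ?_
  simp only [Matrix.of_apply, hij]

/-- the exponential determinant -/
def m8E {n : ℕ} (b : ℝ) (x y : Fin n → ℝ) : ℝ :=
  Matrix.det (Matrix.of fun i j : Fin n => Real.exp ((b * y i) * x j))

theorem m8E_perm {n : ℕ} (b : ℝ) (x y : Fin n → ℝ) (σ : Equiv.Perm (Fin n)) :
    m8E b (fun i => x (σ i)) y = ((Equiv.Perm.sign σ : ℤ) : ℝ) * m8E b x y := by
  unfold m8E
  rw [← Matrix.det_permute']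
  rfl

theorem m8E_perm' {n : ℕ} (b : ℝ) (x y : Fin n → ℝ) (σ : Equiv.Perm (Fin n)) :
    m8E b x (fun i => y (σ i)) = ((Equiv.Perm.sign σ : ℤ) : ℝ) * m8E b x y := by
  unfold m8E
  rw [← Matrix.det_permute]
  rfl

theorem m8_sign_sq {n : ℕ} (σ : Equiv.Perm (Fin n)) :
    ((Equiv.Perm.sign σ : ℤ) : ℝ) * ((Equiv.Perm.sign σ : ℤ) : ℝ) = 1 := by
  rcases Int.units_eq_one_or (Equiv.Perm.sign σ) with h | h <;> rw [h] <;> norm_num

/-- the integrand -/
def m8Phi {n : ℕ} (α b : ℝ) (N : ℝ) (h : ℝ → ℝ) (x y : Fin n → ℝ) : ℝ :=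
  (∏ i, h (x i)) * Real.exp (-N * ∑ i, Wr α (y i)) * (vdd x * vdd y * m8E b x y)

theorem m8Phi_perm {n : ℕ} (α b : ℝ) (N : ℝ) (h : ℝ → ℝ) (x y : Fin n → ℝ)
    (σ : Equiv.Perm (Fin n)) :
    m8Phi α b N h (fun i => x (σ i)) y = m8Phi α b N h x y := by
  unfold m8Phi
  rw [m8_vdd_perm, m8E_perm, Equiv.prod_comp σ (fun i => h (x i))]
  have := m8_sign_sq σ
  linear_combination ((∏ i, h (x i)) * Real.exp (-N * ∑ i, Wr α (y i)) *
    (vdd x * vdd y * m8E b x y)) * this

theorem m8Phi_perm' {n : ℕ} (α b : ℝ) (N : ℝ) (h : ℝ → ℝ) (x y : Fin n → ℝ)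
    (σ : Equiv.Perm (Fin n)) :
    m8Phi α b N h x (fun i => y (σ i)) = m8Phi α b N h x y := by
  unfold m8Phi
  rw [m8_vdd_perm, m8E_perm', Equiv.sum_comp σ (fun i => Wr α (y i))]
  have := m8_sign_sq σ
  linear_combination ((∏ i, h (x i)) * Real.exp (-N * ∑ i, Wr α (y i)) *
    (vdd x * vdd y * m8E b x y)) * this

theorem m8_sort {n : ℕ} {x : Fin n → ℝ} (hx : Function.Injective x) :
    ∃ σ : Equiv.Perm (Fin n), StrictAnti (fun i => x (σ i)) := by
  refine ⟨Tuple.sort (fun i => -x i), ?_⟩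
  have h := Tuple.monotone_sort (fun i => -x i)
  have h2 : Antitone (fun i => x (Tuple.sort (fun i => -x i) i)) := by
    intro i j hij
    have := h hij
    simp only [Function.comp] at this
    exact neg_le_neg_iff.mp this
  exact h2.strictAnti_of_injective (hx.comp (Equiv.injective _))

theorem m8_vdd_smul {n : ℕ} (b : ℝ) (y : Fin n → ℝ) :
    vdd (fun i => b * y i) = (∏ i : Fin n, ∏ _j ∈ Finset.Ioi i, b) * vdd y := by
  unfold vdd
  rw [← Finset.prod_mul_distrib]
  refine Finset.prod_congr rfl fun i _ => ?_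
  rw [← Finset.prod_mul_distrib]
  refine Finset.prod_congr rfl fun j _ => ?_
  ring

theorem m8E_eq {n : ℕ} (b : ℝ) {x : Fin n → ℝ} (y : Fin n → ℝ) (hx : StrictAnti x) :
    m8E b x y = SS n (fun i => b * y i) x * ((∏ i : Fin n, ∏ _j ∈ Finset.Ioi i, b) * vdd y) := by
  rw [← m8_vdd_smul, SS_mul_vdd n _ x hx]
  rfl

theorem m8Phi_nonneg {n : ℕ} (α : ℝ) {b : ℝ} (hb : 0 < b) (N : ℝ) {h : ℝ → ℝ}
    (hh : ∀ x, 0 ≤ h x) (x y : Fin n → ℝ) : 0 ≤ m8Phi α b N h x y := by
  by_cases hx : Function.Injective x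
  · by_cases hy : Function.Injective y
    · obtain ⟨σ, hσ⟩ := m8_sort hx
      obtain ⟨ρ, hρ⟩ := m8_sort hy
      rw [← m8Phi_perm α b N h x y σ, ← m8Phi_perm' α b N h _ y ρ]
      unfold m8Phi
      rw [m8E_eq b _ hσ]
      have h1 := m8_vdd_pos hσ
      have h2 := m8_vdd_pos hρ
      have h3 : 0 < ∏ i : Fin n, ∏ _j ∈ Finset.Ioi i, b :=
        Finset.prod_pos fun i _ => Finset.prod_pos fun j _ => hb
      have h4 := SS_nonneg n (fun i => b * y (ρ i)) (fun i => x (σ i))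
      have h5 : 0 ≤ ∏ i, h (x (σ i)) := Finset.prod_nonneg fun i _ => hh _
      positivity
    · unfold m8Phi
      rw [m8_vdd_zero hy]
      simp
  · unfold m8Phi
    rw [m8_vdd_zero hx]
    simp

/-! ### symmetrisation -/

theorem m8_measurableSet_Dec (n : ℕ) : MeasurableSet (Dec n) := by
  have h : Dec n = ⋂ i : Fin n, ⋂ j : Fin n, {x : Fin n → ℝ | i < j → x j < x i} := by
    ext x
    simp only [Dec, Set.mem_ofPred_eq, Set.mem_iInter, StrictAnti]
  rw [h]
  refine MeasurableSet.iInter fun i => MeasurableSet.iInter fun j => ?_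
  by_cases hij : i < j
  · simp only [hij, forall_true_left]
    exact measurableSet_lt (measurable_pi_apply j) (measurable_pi_apply i)
  · simp only [hij, false_imp_iff, Set.ofPred_true, MeasurableSet.univ]

theorem m8_ae_injective (n : ℕ) : ∀ᵐ x : Fin n → ℝ, Function.Injective x := by
  have h : ∀ i j : Fin n, i ≠ j → ∀ᵐ x : Fin n → ℝ, x i ≠ x j := by
    intro i j hij
    let L : (Fin n → ℝ) →ₗ[ℝ] ℝ := LinearMap.proj (R := ℝ) (φ := fun _ : Fin n => ℝ) i -
      LinearMap.proj (R := ℝ) (φ := fun _ : Fin n => ℝ) j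
    have hL : LinearMap.ker L ≠ ⊤ := by
      intro htop
      have h1 : (Pi.single i 1 : Fin n → ℝ) ∈ LinearMap.ker L := by
        rw [htop]
        trivial
      rw [LinearMap.mem_ker] at h1
      have h2 : L (Pi.single i 1) = 1 := by
        change (Pi.single i (1 : ℝ) : Fin n → ℝ) i - (Pi.single i (1 : ℝ) : Fin n → ℝ) j = 1
        rw [Pi.single_eq_same, Pi.single_eq_of_ne hij.symm, sub_zero]
      rw [h2] at h1
      exact one_ne_zero h1
    have h0 := Measure.addHaar_submodule (volume : Measure (Fin n → ℝ)) (LinearMap.ker L) hL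
    rw [ae_iff]
    refine measure_mono_null ?_ h0
    intro x hx
    simp only [Set.mem_ofPred_eq, not_not] at hx
    change L x = 0
    change x i - x j = 0
    rw [hx, sub_self]
  have h2 : ∀ᵐ x : Fin n → ℝ, ∀ i j : Fin n, i ≠ j → x i ≠ x j := by
    rw [ae_all_iff]
    intro i
    rw [ae_all_iff]
    intro j
    by_cases hij : i = j
    · exact Filter.Eventually.of_forall fun x hx => absurd hij hx
    · filter_upwards [h i j hij] with x hx _ using hx
  filter_upwards [h2] with x hx i j hij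
  by_contra hne
  exact hx i j hne hij

theorem m8_lintegral_perm {n : ℕ} (σ : Equiv.Perm (Fin n)) (f : (Fin n → ℝ) → ℝ≥0∞) :
    ∫⁻ x : Fin n → ℝ, f (fun i => x (σ i)) = ∫⁻ x, f x := by
  have h := (volume_measurePreserving_piCongrLeft (fun _ : Fin n => ℝ) σ.symm)
  have h2 := h.lintegral_comp_emb (MeasurableEquiv.measurableEmbedding _) f
  rw [← h2]
  refine lintegral_congr fun x => ?_
  congr 1
  ext i
  change x (σ i) = (Equiv.piCongrLeft (fun _ : Fin n => ℝ) σ.symm) x i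
  have h3 := Equiv.piCongrLeft_apply_apply (fun _ : Fin n => ℝ) σ.symm x (σ i)
  rw [Equiv.symm_apply_apply] at h3
  exact h3.symm

theorem m8_symm {n : ℕ} (f : (Fin n → ℝ) → ℝ≥0∞) (hf : Measurable f)
    (hs : ∀ (σ : Equiv.Perm (Fin n)) x, f (fun i => x (σ i)) = f x) :
    ∫⁻ x, f x = (n.factorial : ℝ≥0∞) * ∫⁻ x in Dec n, f x := by
  have hD := m8_measurableSet_Dec n
  have h1 : ∫⁻ x : Fin n → ℝ, f x = ∫⁻ x : Fin n → ℝ, ∑ σ : Equiv.Perm (Fin n),
      (Dec n).indicator f (fun i => x (σ i)) := by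
    refine lintegral_congr_ae ?_
    filter_upwards [m8_ae_injective n] with x hx
    obtain ⟨σ, hσ⟩ := m8_sort hx
    rw [Finset.sum_eq_single σ]
    · rw [Set.indicator_of_mem (show (fun i => x (σ i)) ∈ Dec n from hσ), hs]
    · intro ρ _ hρ
      rw [Set.indicator_of_notMem]
      intro hmem
      apply hρ
      have h3 : StrictAnti (fun i => x (ρ i)) := hmem
      have h4 := Tuple.unique_antitone (f := x) (σ := ρ) (τ := σ) h3.antitone hσ.antitone
      ext i
      have := congrFun h4 i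
      simp only [Function.comp] at this
      rw [hx this]
    · intro h
      exact absurd (Finset.mem_univ _) h
  rw [h1, lintegral_finsetSum]
  · have h2 : ∀ σ : Equiv.Perm (Fin n), ∫⁻ x : Fin n → ℝ, (Dec n).indicator f (fun i => x (σ i)) =
        ∫⁻ x in Dec n, f x := by
      intro σ
      rw [m8_lintegral_perm σ ((Dec n).indicator f), lintegral_indicator hD]
    rw [Finset.sum_congr rfl fun σ _ => h2 σ, Finset.sum_const, Finset.card_univ,
      Fintype.card_perm, Fintype.card_fin, nsmul_eq_mul]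
  · intro σ _
    exact (hf.indicator hD).comp (measurable_pi_lambda _ fun i => measurable_pi_apply _)

/-! ### integrability -/

theorem m8_pow_le (x : ℝ) (i : ℕ) : |x| ^ i ≤ (i.factorial : ℝ) * Real.exp |x| := by
  have h := Real.pow_div_factorial_le_exp |x| (abs_nonneg x) i
  have h2 : (0 : ℝ) < i.factorial := by exact_mod_cast i.factorial_pos
  rw [div_le_iff₀ h2] at h
  linarith

theorem m8_exp1 {c : ℝ} (hc : 0 < c) (b x y : ℝ) :
    |x| + (b * y) * x - c * x ^ 2 ≤ 1 / c + b ^ 2 * y ^ 2 / c - c / 2 * x ^ 2 := by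
  have h1 : 0 ≤ (c * |x| / 2 - 1) ^ 2 / c := by positivity
  have h2 : 0 ≤ (c * x / 2 - b * y) ^ 2 / c := by positivity
  have e1 : (c * |x| / 2 - 1) ^ 2 / c = c / 4 * x ^ 2 - |x| + 1 / c := by
    rw [← sq_abs x]
    field_simp
    ring
  have e2 : (c * x / 2 - b * y) ^ 2 / c = c / 4 * x ^ 2 - (b * y) * x + b ^ 2 * y ^ 2 / c := by
    field_simp
    ring
  rw [e1] at h1
  rw [e2] at h2
  linarith

theorem m8_bound1 {h : ℝ → ℝ} {C c : ℝ} (hc : 0 < c) (h0 : ∀ x, 0 ≤ h x)
    (hb : ∀ x, h x ≤ C * Real.exp (-(c * x ^ 2))) (b y : ℝ) (i : ℕ) (x : ℝ) :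
    |(-x) ^ i * (Real.exp ((b * y) * x) * h x)| ≤
      (i.factorial : ℝ) * C * Real.exp (1 / c + b ^ 2 * y ^ 2 / c) *
        Real.exp (-(c / 2) * x ^ 2) := by
  have hC : 0 ≤ C := by
    have h1 := (h0 0).trans (hb 0)
    simpa using h1
  rw [abs_mul, abs_pow, abs_neg, abs_of_nonneg (mul_nonneg (Real.exp_pos _).le (h0 x))]
  calc |x| ^ i * (Real.exp ((b * y) * x) * h x)
      ≤ ((i.factorial : ℝ) * Real.exp |x|) * (Real.exp ((b * y) * x) *
        (C * Real.exp (-(c * x ^ 2)))) := by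
        refine mul_le_mul (m8_pow_le x i) ?_ (mul_nonneg (Real.exp_pos _).le (h0 x))
          (by positivity)
        exact mul_le_mul_of_nonneg_left (hb x) (Real.exp_pos _).le
    _ = (i.factorial : ℝ) * C * Real.exp (|x| + (b * y) * x - c * x ^ 2) := by
        rw [sub_eq_add_neg, Real.exp_add, Real.exp_add]
        ring
    _ ≤ (i.factorial : ℝ) * C * Real.exp (1 / c + b ^ 2 * y ^ 2 / c - c / 2 * x ^ 2) := by
        refine mul_le_mul_of_nonneg_left (Real.exp_le_exp.mpr (m8_exp1 hc b x y)) (by positivity)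
    _ = _ := by
        rw [sub_eq_add_neg, Real.exp_add]
        ring_nf

theorem m8_int1 {h : ℝ → ℝ} (hh : Wt h) (b y : ℝ) (i : ℕ) :
    Integrable (fun x : ℝ => (-x) ^ i * (Real.exp ((b * y) * x) * h x)) := by
  obtain ⟨C, c, hc, hb⟩ := hh.bound
  have hcont := hh.cont
  refine Integrable.mono' ((integrable_exp_neg_mul_sq (half_pos hc)).const_mul
    ((i.factorial : ℝ) * C * Real.exp (1 / c + b ^ 2 * y ^ 2 / c))) ?_ ?_
  · exact Continuous.aestronglyMeasurable (by fun_prop)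
  · refine Filter.Eventually.of_forall fun x => ?_
    rw [Real.norm_eq_abs]
    exact m8_bound1 hc hh.nonneg hb b y i x

theorem m8_exp2 {c N : ℝ} (hN : 1 ≤ N) (α b y : ℝ) :
    |y| + b ^ 2 * y ^ 2 / c + -N * Wr α y ≤
      1 + (2 + b ^ 2 / c - N * (α / 2)) ^ 2 - y ^ 2 := by
  unfold Wr
  have h1 : |y| ≤ 1 + y ^ 2 := by
    have := sq_nonneg (|y| - 1)
    have h2 := sq_abs y
    nlinarith [abs_nonneg y]
  have h2 : 0 ≤ (y ^ 2 / 2 - (2 + b ^ 2 / c - N * (α / 2))) ^ 2 := sq_nonneg _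
  have h3 : y ^ 4 / 4 ≤ N * (y ^ 4 / 4) := by
    have : 0 ≤ y ^ 4 / 4 := by positivity
    nlinarith
  have h4 : b ^ 2 * y ^ 2 / c = b ^ 2 / c * y ^ 2 := by ring
  rw [h4]
  nlinarith

/-- the inner transform -/
def m8G (b : ℝ) (h : ℝ → ℝ) (j : ℕ) (y : ℝ) : ℝ :=
  ∫ x : ℝ, (-x) ^ j * (Real.exp ((b * y) * x) * h x)

theorem m8_int2 {h : ℝ → ℝ} (hh : Wt h) {N : ℝ} (hN : 1 ≤ N) (α b : ℝ) (i j : ℕ) :
    Integrable (fun p : ℝ × ℝ => (-p.1) ^ i * (Real.exp (-N * Wr α p.1) *
      ((-p.2) ^ j * (Real.exp ((b * p.1) * p.2) * h p.2)))) (volume.prod volume) := by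
  obtain ⟨C, c, hc, hb⟩ := hh.bound
  have hcont := hh.cont
  have hC : 0 ≤ C := by
    have h1 := (hh.nonneg 0).trans (hb 0)
    simpa using h1
  set K : ℝ := 1 + (2 + b ^ 2 / c - N * (α / 2)) ^ 2 with hK
  have hg : Integrable (fun p : ℝ × ℝ => Real.exp (-1 * p.1 ^ 2) *
      Real.exp (-(c / 2) * p.2 ^ 2)) (volume.prod volume) :=
    (integrable_exp_neg_mul_sq one_pos).mul_prod (integrable_exp_neg_mul_sq (half_pos hc))
  refine Integrable.mono' (hg.const_mul ((i.factorial : ℝ) * ((j.factorial : ℝ) * C) *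
    Real.exp (1 / c) * Real.exp K)) ?_ ?_
  · refine Continuous.aestronglyMeasurable ?_
    unfold Wr
    fun_prop
  · refine Filter.Eventually.of_forall fun p => ?_
    obtain ⟨y, x⟩ := p
    rw [Real.norm_eq_abs, abs_mul, abs_mul, abs_pow, abs_neg, Real.abs_exp]
    have h1 := m8_bound1 hc hh.nonneg hb b y j x
    have h2 := m8_pow_le y i
    calc |y| ^ i * (Real.exp (-N * Wr α y) * |(-x) ^ j * (Real.exp ((b * y) * x) * h x)|)
        ≤ ((i.factorial : ℝ) * Real.exp |y|) * (Real.exp (-N * Wr α y) *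
          ((j.factorial : ℝ) * C * Real.exp (1 / c + b ^ 2 * y ^ 2 / c) *
            Real.exp (-(c / 2) * x ^ 2))) := by
          refine mul_le_mul h2 ?_ (by positivity) (by positivity)
          exact mul_le_mul_of_nonneg_left h1 (Real.exp_pos _).le
      _ = (i.factorial : ℝ) * ((j.factorial : ℝ) * C) * Real.exp (1 / c) *
          (Real.exp (|y| + b ^ 2 * y ^ 2 / c + -N * Wr α y) * Real.exp (-(c / 2) * x ^ 2)) := by
          rw [Real.exp_add, Real.exp_add, Real.exp_add]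
          ring
      _ ≤ (i.factorial : ℝ) * ((j.factorial : ℝ) * C) * Real.exp (1 / c) *
          (Real.exp (K - y ^ 2) * Real.exp (-(c / 2) * x ^ 2)) := by
          refine mul_le_mul_of_nonneg_left ?_ (by positivity)
          refine mul_le_mul_of_nonneg_right ?_ (Real.exp_pos _).le
          exact Real.exp_le_exp.mpr (m8_exp2 hN α b y)
      _ = _ := by
          rw [sub_eq_add_neg, Real.exp_add]
          ring_nf

theorem m8_int3 {h : ℝ → ℝ} (hh : Wt h) {N : ℝ} (hN : 1 ≤ N) (α b : ℝ) (i j : ℕ) :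
    Integrable (fun y : ℝ => (-y) ^ i * (Real.exp (-N * Wr α y) * m8G b h j y)) := by
  have h1 := (m8_int2 hh hN α b i j).integral_prod_left
  refine h1.congr (Filter.Eventually.of_forall fun y => ?_)
  simp only [m8G]
  rw [integral_const_mul, integral_const_mul]

theorem m8_fubini {h : ℝ → ℝ} (hh : Wt h) (n : ℕ) (hn : 0 < n) (α τ : ℝ) (i j : ℕ) :
    ∫ y : ℝ, (-y) ^ i * (Real.exp (-(n : ℝ) * Wr α y) * m8G ((n : ℝ) * τ) h j y) =
      (-1) ^ i * ((-1) ^ j * mom n α τ h j i) := by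
  have hN : (1 : ℝ) ≤ n := by exact_mod_cast hn
  have h2 := m8_int2 hh hN α ((n : ℝ) * τ) i j
  have h1 : ∫ y : ℝ, (-y) ^ i * (Real.exp (-(n : ℝ) * Wr α y) * m8G ((n : ℝ) * τ) h j y) =
      ∫ y : ℝ, ∫ x : ℝ, (-y) ^ i * (Real.exp (-(n : ℝ) * Wr α y) *
        ((-x) ^ j * (Real.exp (((n : ℝ) * τ * y) * x) * h x))) := by
    refine integral_congr_ae (Filter.Eventually.of_forall fun y => ?_)
    simp only [m8G]
    rw [integral_const_mul, integral_const_mul]
  rw [h1, integral_integral_swap h2]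
  unfold mom
  rw [← integral_const_mul, ← integral_const_mul]
  refine integral_congr_ae (Filter.Eventually.of_forall fun x => ?_)
  simp only
  rw [← integral_const_mul, ← integral_const_mul, ← integral_const_mul]
  refine integral_congr_ae (Filter.Eventually.of_forall fun y => ?_)
  simp only
  have e : Real.exp (-(n : ℝ) * (Wr α y - τ * x * y)) =
      Real.exp (-(n : ℝ) * Wr α y) * Real.exp ((n : ℝ) * τ * y * x) := by
    rw [← Real.exp_add]
    congr 1
    ring
  rw [e, neg_pow y, neg_pow x]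
  ring

/-! ### the two Andreief steps -/

theorem m8_step1 {n : ℕ} {h : ℝ → ℝ} (hh : Wt h) (α b N : ℝ) (y : Fin n → ℝ) :
    Integrable (fun x : Fin n → ℝ => m8Phi α b N h x y) ∧
    ∫ x : Fin n → ℝ, m8Phi α b N h x y =
      (n.factorial : ℝ) * (Matrix.det (Matrix.of fun i j : Fin n => (-y j) ^ (i : ℕ)) *
        Matrix.det (Matrix.of fun i j : Fin n => Real.exp (-N * Wr α (y j)) *
          m8G b h i (y j))) := by
  have hA := andreief (volume : Measure ℝ) (fun (i : Fin n) x => (-x) ^ (i : ℕ))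
    (fun (i : Fin n) x => Real.exp ((b * y i) * x) * h x)
    (fun i j => m8_int1 hh b (y j) i)
  have hfun : (fun x : Fin n → ℝ => m8Phi α b N h x y) = fun x : Fin n → ℝ =>
      (Real.exp (-N * ∑ i, Wr α (y i)) * vdd y) *
      (Matrix.det (Matrix.of fun i j : Fin n => (-x j) ^ (i : ℕ)) *
        Matrix.det (Matrix.of fun i j : Fin n => Real.exp ((b * y i) * x j) * h (x j))) := by
    ext x
    have e1 : Matrix.det (Matrix.of fun i j : Fin n => Real.exp ((b * y i) * x j) * h (x j)) =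
        (∏ i, h (x i)) * m8E b x y := by
      have := Matrix.det_mul_row (fun j => h (x j))
        (Matrix.of fun i j : Fin n => Real.exp ((b * y i) * x j))
      rw [m8E, ← this]
      congr 1
      ext i j
      simp only [Matrix.of_apply]
      ring
    rw [e1, ← m8_vdd_eq]
    unfold m8Phi
    ring
  constructor
  · rw [hfun]
    exact hA.1.const_mul _
  · rw [hfun, integral_const_mul]
    have h2 := hA.2
    rw [volume_pi, h2, m8_vdd_eq y, Finset.mul_sum, Real.exp_sum]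
    have e2 := Matrix.det_mul_row (fun j : Fin n => Real.exp (-N * Wr α (y j)))
      (Matrix.of fun i j : Fin n => m8G b h i (y j))
    simp only [Matrix.of_apply] at e2
    rw [e2]
    unfold m8G
    ring

theorem m8_step2 {n : ℕ} {h : ℝ → ℝ} (hh : Wt h) (α b : ℝ) {N : ℝ} (hN : 1 ≤ N) :
    Integrable (fun y : Fin n → ℝ => ∫ x : Fin n → ℝ, m8Phi α b N h x y) ∧
    ∫ y : Fin n → ℝ, ∫ x : Fin n → ℝ, m8Phi α b N h x y =
      (n.factorial : ℝ) * ((n.factorial : ℝ) *
        Matrix.det (Matrix.of fun i j : Fin n =>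
          ∫ y : ℝ, (-y) ^ (i : ℕ) * (Real.exp (-N * Wr α y) * m8G b h j y))) := by
  have hA := andreief (volume : Measure ℝ) (fun (i : Fin n) y => (-y) ^ (i : ℕ))
    (fun (i : Fin n) y => Real.exp (-N * Wr α y) * m8G b h i y)
    (fun i j => m8_int3 hh hN α b i j)
  have hfun : (fun y : Fin n → ℝ => ∫ x : Fin n → ℝ, m8Phi α b N h x y) =
      fun y : Fin n → ℝ => (n.factorial : ℝ) *
        (Matrix.det (Matrix.of fun i j : Fin n => (-y j) ^ (i : ℕ)) *
        Matrix.det (Matrix.of fun i j : Fin n => Real.exp (-N * Wr α (y j)) *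
          m8G b h i (y j))) := by
    ext y
    exact (m8_step1 hh α b N y).2
  rw [hfun]
  constructor
  · exact hA.1.const_mul _
  · rw [integral_const_mul]
    congr 1
    exact hA.2

theorem m8_det_abs (n : ℕ) (m : ℕ → ℕ → ℝ) :
    |Matrix.det (Matrix.of fun i j : Fin n => (-1 : ℝ) ^ (i : ℕ) * ((-1 : ℝ) ^ (j : ℕ) * m j i))| =
      |Matrix.det (Matrix.of fun i j : Fin n => m i j)| := by
  have e1 := Matrix.det_mul_column (fun i : Fin n => (-1 : ℝ) ^ (i : ℕ))
    (Matrix.of fun i j : Fin n => (-1 : ℝ) ^ (j : ℕ) * m j i)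
  have e2 := Matrix.det_mul_row (fun j : Fin n => (-1 : ℝ) ^ (j : ℕ))
    (Matrix.of fun i j : Fin n => m j i)
  simp only [Matrix.of_apply] at e1 e2
  rw [e1, e2, abs_mul, abs_mul, Finset.abs_prod]
  have h1 : ∏ i : Fin n, |(-1 : ℝ) ^ (i : ℕ)| = 1 := by
    refine Finset.prod_eq_one fun i _ => ?_
    rw [abs_pow, abs_neg, abs_one, one_pow]
  rw [h1, one_mul, one_mul, ← Matrix.det_transpose]
  rfl

/-! ### the integral over `ℝⁿ × ℝⁿ` -/

theorem m8_vdd_cont (n : ℕ) : Continuous (fun x : Fin n → ℝ => vdd x) := by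
  unfold vdd
  fun_prop

theorem m8Phi_cont {n : ℕ} (α b N : ℝ) {h : ℝ → ℝ} (hh : Continuous h) :
    Continuous (fun p : (Fin n → ℝ) × (Fin n → ℝ) => m8Phi α b N h p.2 p.1) := by
  unfold m8Phi m8E Wr
  have h1 : Continuous (fun p : (Fin n → ℝ) × (Fin n → ℝ) => vdd p.1) :=
    (m8_vdd_cont n).comp continuous_fst
  have h2 : Continuous (fun p : (Fin n → ℝ) × (Fin n → ℝ) => vdd p.2) :=
    (m8_vdd_cont n).comp continuous_snd
  have h3 : Continuous (fun p : (Fin n → ℝ) × (Fin n → ℝ) =>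
      Matrix.det (Matrix.of fun i j : Fin n => Real.exp ((b * p.1 i) * p.2 j))) := by
    refine Continuous.matrix_det ?_
    refine continuous_matrix fun i j => ?_
    simp only [Matrix.of_apply]
    fun_prop
  have h4 : Continuous (fun p : (Fin n → ℝ) × (Fin n → ℝ) => ∏ i, h (p.2 i)) := by
    fun_prop
  fun_prop

theorem m8_total {n : ℕ} (hn : 0 < n) {h : ℝ → ℝ} (hh : Wt h) (α τ : ℝ) (hτ : 0 < τ) :
    ∫⁻ y in Dec n, ∫⁻ x in Dec n, ENNReal.ofReal (m8Phi α ((n : ℝ) * τ) n h x y) =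
      ENNReal.ofReal |Matrix.det (Matrix.of fun i j : Fin n => mom n α τ h i j)| := by
  have hN : (1 : ℝ) ≤ n := by exact_mod_cast hn
  have hb : 0 < (n : ℝ) * τ := by positivity
  set b : ℝ := (n : ℝ) * τ with hbdef
  have hc := m8Phi_cont (n := n) α b n hh.cont
  have hmeas : Measurable (fun p : (Fin n → ℝ) × (Fin n → ℝ) =>
      ENNReal.ofReal (m8Phi α b n h p.2 p.1)) := hc.measurable.ennreal_ofReal
  have hpos : ∀ x y : Fin n → ℝ, 0 ≤ m8Phi α b n h x y := m8Phi_nonneg α hb n hh.nonneg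
  have hsx : ∀ y : Fin n → ℝ, ∫⁻ x, ENNReal.ofReal (m8Phi α b n h x y) =
      (n.factorial : ℝ≥0∞) * ∫⁻ x in Dec n, ENNReal.ofReal (m8Phi α b n h x y) := by
    intro y
    refine m8_symm _ ?_ ?_
    · exact hmeas.comp (measurable_const.prodMk measurable_id)
    · intro σ x
      rw [m8Phi_perm]
  have hsy : ∫⁻ y : Fin n → ℝ, ∫⁻ x : Fin n → ℝ, ENNReal.ofReal (m8Phi α b n h x y) =
      (n.factorial : ℝ≥0∞) *
        ∫⁻ y in Dec n, ∫⁻ x : Fin n → ℝ, ENNReal.ofReal (m8Phi α b n h x y) := by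
    refine m8_symm (fun y => ∫⁻ x : Fin n → ℝ, ENNReal.ofReal (m8Phi α b n h x y)) ?_ ?_
    · exact hmeas.lintegral_prod_right'
    · intro σ y
      refine lintegral_congr fun x => ?_
      rw [m8Phi_perm']
  have hfull : ∫⁻ y : Fin n → ℝ, ∫⁻ x : Fin n → ℝ, ENNReal.ofReal (m8Phi α b n h x y) =
      (n.factorial : ℝ≥0∞) * ((n.factorial : ℝ≥0∞) *
        ∫⁻ y in Dec n, ∫⁻ x in Dec n, ENNReal.ofReal (m8Phi α b n h x y)) := by
    rw [hsy, lintegral_congr hsx, lintegral_const_mul]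
    exact Measurable.lintegral_prod_right' (ν := volume.restrict (Dec n)) hmeas
  have hreal : ∫⁻ y : Fin n → ℝ, ∫⁻ x : Fin n → ℝ, ENNReal.ofReal (m8Phi α b n h x y) =
      (n.factorial : ℝ≥0∞) * ((n.factorial : ℝ≥0∞) *
        ENNReal.ofReal |Matrix.det (Matrix.of fun i j : Fin n => mom n α τ h i j)|) := by
    have h1 : ∀ y : Fin n → ℝ, ∫⁻ x, ENNReal.ofReal (m8Phi α b n h x y) =
        ENNReal.ofReal (∫ x, m8Phi α b n h x y) := by
      intro y
      rw [ofReal_integral_eq_lintegral_ofReal (m8_step1 hh α b n y).1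
        (Filter.Eventually.of_forall fun x => hpos x y)]
    have h2 : ∀ y : Fin n → ℝ, 0 ≤ ∫ x, m8Phi α b n h x y :=
      fun y => integral_nonneg fun x => hpos x y
    rw [lintegral_congr h1, ← ofReal_integral_eq_lintegral_ofReal (m8_step2 hh α b hN).1
      (Filter.Eventually.of_forall h2), (m8_step2 hh α b hN).2]
    have h3 : 0 ≤ ∫ y : Fin n → ℝ, ∫ x : Fin n → ℝ, m8Phi α b n h x y :=
      integral_nonneg h2
    rw [(m8_step2 hh α b hN).2] at h3
    have hf : (0 : ℝ) < n.factorial := by exact_mod_cast n.factorial_pos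
    have h4 : 0 ≤ Matrix.det (Matrix.of fun i j : Fin n =>
          ∫ y : ℝ, (-y) ^ (i : ℕ) * (Real.exp (-(n : ℝ) * Wr α y) * m8G b h j y)) := by
      by_contra hneg
      push Not at hneg
      have : (n.factorial : ℝ) * ((n.factorial : ℝ) * Matrix.det (Matrix.of fun i j : Fin n =>
          ∫ y : ℝ, (-y) ^ (i : ℕ) * (Real.exp (-(n : ℝ) * Wr α y) * m8G b h j y))) < 0 :=
        mul_neg_of_pos_of_neg hf (mul_neg_of_pos_of_neg hf hneg)
      linarith
    rw [ENNReal.ofReal_mul hf.le, ENNReal.ofReal_mul hf.le, ENNReal.ofReal_natCast]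
    congr 3
    rw [← m8_det_abs n (fun i j => mom n α τ h i j), ← abs_of_nonneg h4]
    congr 3
    ext i j
    exact m8_fubini hh n hn α τ i j
  have hf : (n.factorial : ℝ≥0∞) ≠ 0 := by exact_mod_cast n.factorial_ne_zero
  have hf' : (n.factorial : ℝ≥0∞) ≠ ⊤ := ENNReal.natCast_ne_top _
  rw [hfull] at hreal
  exact (ENNReal.mul_right_inj hf hf').mp ((ENNReal.mul_right_inj hf hf').mp hreal)

/-! ### reduction to eigenvalues -/

/-- the inner integral as a function of the eigenvalues of `Y` -/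
def m8K (n : ℕ) (α b N : ℝ) (h : ℝ → ℝ) (y : Fin n → ℝ) : ℝ≥0∞ :=
  ∫⁻ X : Fin n → Fin n → ℝ, ENNReal.ofReal (∏ i, h (evd X i)) *
    (ENNReal.ofReal (Real.exp (-N * ∑ i, Wr α (y i))) *
      ENNReal.ofReal (Real.exp (∑ i, (b * y i) * X i i)))

theorem m8K_measurable (n : ℕ) (α b N : ℝ) {h : ℝ → ℝ} (hh : Continuous h) :
    Measurable (m8K n α b N h) := by
  unfold m8K
  refine Measurable.lintegral_prod_right' (f := fun p : (Fin n → ℝ) × (Fin n → Fin n → ℝ) =>
    ENNReal.ofReal (∏ i, h (evd p.2 i)) *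
    (ENNReal.ofReal (Real.exp (-N * ∑ i, Wr α (p.1 i))) *
      ENNReal.ofReal (Real.exp (∑ i, (b * p.1 i) * p.2 i i)))) ?_
  have hev : Continuous (fun p : (Fin n → ℝ) × (Fin n → Fin n → ℝ) => evd p.2) :=
    continuous_evd.comp continuous_snd
  have h1 : Continuous (fun p : (Fin n → ℝ) × (Fin n → Fin n → ℝ) => ∏ i, h (evd p.2 i)) := by
    fun_prop
  have h2 : Continuous (fun p : (Fin n → ℝ) × (Fin n → Fin n → ℝ) =>
      Real.exp (-N * ∑ i, Wr α (p.1 i))) := by
    unfold Wr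
    fun_prop
  have h3 : Continuous (fun p : (Fin n → ℝ) × (Fin n → Fin n → ℝ) =>
      Real.exp (∑ i, (b * p.1 i) * p.2 i i)) := by
    fun_prop
  exact h1.measurable.ennreal_ofReal.mul
    (h2.measurable.ennreal_ofReal.mul h3.measurable.ennreal_ofReal)

theorem m8_hmat_dg {n : ℕ} (a : Fin n → ℝ) :
    hmat (dg a) = Matrix.diagonal (fun i => ((a i : ℝ) : ℂ)) := by
  ext i j
  unfold hmat dg Matrix.diagonal
  simp only [Matrix.of_apply]
  by_cases hij : i = j
  · subst hij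
    simp
  · have hji : ¬ j = i := fun h => hij h.symm
    simp [hij, hji]

theorem m8_hmat_diag {n : ℕ} (X : Fin n → Fin n → ℝ) (i : Fin n) :
    hmat X i i = ((X i i : ℝ) : ℂ) := by
  unfold hmat
  rw [if_pos rfl]

theorem m8_prod_evs {n : ℕ} (h : ℝ → ℝ) (X : Fin n → Fin n → ℝ) :
    ∏ i, h (evs X i) = ∏ i, h (evd X i) := by
  obtain ⟨σ, hσ⟩ := evs_eq_perm X
  rw [← Equiv.prod_comp σ (fun i => h (evd X i))]
  exact Finset.prod_congr rfl fun i _ => by rw [hσ i]

theorem m8_sum_evs {n : ℕ} (h : ℝ → ℝ) (X : Fin n → Fin n → ℝ) :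
    ∑ i, h (evs X i) = ∑ i, h (evd X i) := by
  obtain ⟨σ, hσ⟩ := evs_eq_perm X
  rw [← Equiv.sum_comp σ (fun i => h (evd X i))]
  exact Finset.sum_congr rfl fun i _ => by rw [hσ i]

theorem m8_star_mul {n : ℕ} (U : Matrix.unitaryGroup (Fin n) ℂ) :
    (U : Matrix (Fin n) (Fin n) ℂ).conjTranspose * (U : Matrix (Fin n) (Fin n) ℂ) = 1 :=
  Matrix.UnitaryGroup.star_mul_self U

theorem m8_evd_conj {n : ℕ} (U : Matrix.unitaryGroup (Fin n) ℂ) (X Z : Fin n → Fin n → ℝ)
    (h : hmat Z = (U : Matrix (Fin n) (Fin n) ℂ) * hmat X *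
        (U : Matrix (Fin n) (Fin n) ℂ).conjTranspose) : evd Z = evd X := by
  refine evd_unique Z (evd X) (evd_antitone X) ?_
  rw [h, Matrix.charpoly_mul_comm, ← mul_assoc, m8_star_mul, one_mul, charpoly_hmat]

theorem m8_trace_conj {n : ℕ} (U : Matrix.unitaryGroup (Fin n) ℂ) (A B : Matrix (Fin n) (Fin n) ℂ) :
    Matrix.trace (((U : Matrix (Fin n) (Fin n) ℂ) * A *
        (U : Matrix (Fin n) (Fin n) ℂ).conjTranspose) * ((U : Matrix (Fin n) (Fin n) ℂ) * B *
        (U : Matrix (Fin n) (Fin n) ℂ).conjTranspose)) = Matrix.trace (A * B) := by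
  have h := m8_star_mul U
  set V := (U : Matrix (Fin n) (Fin n) ℂ)
  have e : (V * A * V.conjTranspose) * (V * B * V.conjTranspose) =
      V * (A * B * V.conjTranspose) := by
    calc (V * A * V.conjTranspose) * (V * B * V.conjTranspose)
        = V * (A * ((V.conjTranspose * V) * (B * V.conjTranspose))) := by
          simp only [Matrix.mul_assoc]
      _ = V * (A * B * V.conjTranspose) := by rw [h, one_mul, Matrix.mul_assoc A B]
  rw [e, Matrix.trace_mul_comm, Matrix.mul_assoc, h, mul_one]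

theorem m8_trace_diag {n : ℕ} (X : Fin n → Fin n → ℝ) (y : Fin n → ℝ) :
    Matrix.trace (hmat X * hmat (dg y)) = ((∑ i, y i * X i i : ℝ) : ℂ) := by
  rw [m8_hmat_dg]
  unfold Matrix.trace
  push_cast
  refine Finset.sum_congr rfl fun i _ => ?_
  rw [Matrix.diag_apply, Matrix.mul_diagonal, m8_hmat_diag]
  ring

theorem m8_inner {n : ℕ} (α τ : ℝ) (h : ℝ → ℝ) (hh : ∀ x, 0 ≤ h x) (Y : Fin n → Fin n → ℝ) :
    ∫⁻ X : Fin n → Fin n → ℝ, ENNReal.ofReal ((∏ i, h (evs X i)) *
      Real.exp (-(n : ℝ) * (Matrix.trace ((1 / 4 : ℂ) • (hmat Y) ^ 4 +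
        ((α / 2 : ℝ) : ℂ) • (hmat Y) ^ 2 - (τ : ℂ) • (hmat X * hmat Y))).re)) =
      m8K n α ((n : ℝ) * τ) n h (evd Y) := by
  obtain ⟨U, hU⟩ := exists_diag Y
  obtain ⟨T, hT, hTU⟩ := exists_unitary_action U
  rw [← hT.lintegral_comp_emb T.measurableEmbedding]
  unfold m8K
  refine lintegral_congr fun X => ?_
  have h1 : (∏ i, h (evs (T X) i)) = ∏ i, h (evd X i) := by
    rw [m8_prod_evs, m8_evd_conj U X (T X) (hTU X)]
  have h2 : (Matrix.trace ((1 / 4 : ℂ) • (hmat Y) ^ 4 +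
        ((α / 2 : ℝ) : ℂ) • (hmat Y) ^ 2 - (τ : ℂ) • (hmat (T X) * hmat Y))).re =
      ∑ i, Wr α (evd Y i) - τ * ∑ i, evd Y i * X i i := by
    have e : Matrix.trace (hmat (T X) * hmat Y) = ((∑ i, evd Y i * X i i : ℝ) : ℂ) := by
      rw [hTU X]
      conv_lhs => rw [hU]
      rw [m8_trace_conj, m8_trace_diag]
    rw [Matrix.trace_sub, trace_W, Matrix.trace_smul, e, smul_eq_mul, ← Complex.ofReal_mul,
      ← Complex.ofReal_sub, Complex.ofReal_re, m8_sum_evs (Wr α)]
  rw [h1, h2, ENNReal.ofReal_mul (Finset.prod_nonneg fun i _ => hh _),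
    ← ENNReal.ofReal_mul (Real.exp_pos _).le, ← Real.exp_add]
  congr 3
  rw [mul_sub, sub_eq_add_neg]
  congr 1
  rw [← neg_mul, Finset.mul_sum, Finset.mul_sum]
  refine Finset.sum_congr rfl fun i _ => ?_
  ring

/-- the determinantal formula -/
theorem ZZ_eq_det (n : ℕ) (hn : 0 < n) (α τ : ℝ) (hτ : 0 < τ) : ∃ κ : ℝ≥0∞, κ ≠ 0 ∧ κ ≠ ⊤ ∧
    ∀ h : ℝ → ℝ, Wt h → ZZ n α τ h =
      κ * ENNReal.ofReal |Matrix.det (Matrix.of fun i j : Fin n => mom n α τ h i j)| := by
  obtain ⟨C, hC0, hC1, hC⟩ := gt_formula n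
  obtain ⟨c, hc0, hc⟩ := SS_zero n
  have hb : 0 < (n : ℝ) * τ := by positivity
  set b : ℝ := (n : ℝ) * τ with hbdef
  set d : ℝ := ∏ i : Fin n, ∏ _j ∈ Finset.Ioi i, b with hd
  have hd0 : 0 < d := Finset.prod_pos fun i _ => Finset.prod_pos fun j _ => hb
  refine ⟨C * (C * ENNReal.ofReal (c / d)), ?_, ?_, ?_⟩
  · refine mul_ne_zero hC0 (mul_ne_zero hC0 ?_)
    rw [Ne, ENNReal.ofReal_eq_zero, not_le]
    positivity
  · exact ENNReal.mul_ne_top hC1 (ENNReal.mul_ne_top hC1 ENNReal.ofReal_ne_top)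
  intro h hh
  have hcont := hh.cont
  -- swap the integrals
  have hswap : ZZ n α τ h = ∫⁻ Y : Fin n → Fin n → ℝ, m8K n α b n h (evd Y) := by
    unfold ZZ
    rw [lintegral_lintegral_swap]
    · exact lintegral_congr fun Y => m8_inner α τ h hh.nonneg Y
    · have hmc : Continuous (fun X : Fin n → Fin n → ℝ => hmat X) := by
        refine continuous_matrix fun i j => ?_
        unfold hmat
        split_ifs <;> fun_prop
      have h1 : Continuous (fun p : (Fin n → Fin n → ℝ) × (Fin n → Fin n → ℝ) =>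
          ∏ i, h (evs p.1 i)) := by
        have e : (fun p : (Fin n → Fin n → ℝ) × (Fin n → Fin n → ℝ) => ∏ i, h (evs p.1 i)) =
            fun p => ∏ i, h (evd p.1 i) := by
          ext p
          exact m8_prod_evs h p.1
        rw [e]
        have hev : Continuous (fun p : (Fin n → Fin n → ℝ) × (Fin n → Fin n → ℝ) => evd p.1) :=
          continuous_evd.comp continuous_fst
        fun_prop
      have h2 : Continuous (fun p : (Fin n → Fin n → ℝ) × (Fin n → Fin n → ℝ) =>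
          Matrix.trace ((1 / 4 : ℂ) • (hmat p.2) ^ 4 + ((α / 2 : ℝ) : ℂ) • (hmat p.2) ^ 2
            - (τ : ℂ) • (hmat p.1 * hmat p.2))) := by
        have ha : Continuous (fun p : (Fin n → Fin n → ℝ) × (Fin n → Fin n → ℝ) => hmat p.1) :=
          hmc.comp continuous_fst
        have hb' : Continuous (fun p : (Fin n → Fin n → ℝ) × (Fin n → Fin n → ℝ) => hmat p.2) :=
          hmc.comp continuous_snd
        refine Continuous.matrix_trace ?_
        have h4 := (hb'.matrix_mul hb').matrix_mul (hb'.matrix_mul hb')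
        have h5 := hb'.matrix_mul hb'
        have e4 : (fun p : (Fin n → Fin n → ℝ) × (Fin n → Fin n → ℝ) => (hmat p.2) ^ 4) =
            fun p => (hmat p.2 * hmat p.2) * (hmat p.2 * hmat p.2) := by
          ext1 p
          rw [pow_succ, pow_succ, pow_two]
          simp only [Matrix.mul_assoc]
        have e5 : (fun p : (Fin n → Fin n → ℝ) × (Fin n → Fin n → ℝ) => (hmat p.2) ^ 2) =
            fun p => hmat p.2 * hmat p.2 := by
          ext1 p
          rw [pow_two]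
        rw [← e4] at h4
        rw [← e5] at h5
        exact ((h4.const_smul (1 / 4 : ℂ)).add (h5.const_smul ((α / 2 : ℝ) : ℂ))).sub
          ((ha.matrix_mul hb').const_smul (τ : ℂ))
      have h3 : Continuous (fun p : (Fin n → Fin n → ℝ) × (Fin n → Fin n → ℝ) =>
          (∏ i, h (evs p.1 i)) * Real.exp (-(n : ℝ) * (Matrix.trace
            ((1 / 4 : ℂ) • (hmat p.2) ^ 4 + ((α / 2 : ℝ) : ℂ) • (hmat p.2) ^ 2
            - (τ : ℂ) • (hmat p.1 * hmat p.2))).re)) :=
        h1.mul (Real.continuous_exp.comp (continuous_const.mul (Complex.continuous_re.comp h2)))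
      exact h3.measurable.ennreal_ofReal.aemeasurable
  have hKm := m8K_measurable n α b n hcont
  have hgt := hC 0 (m8K n α b n h) hKm
  have e0 : ∫⁻ Y : Fin n → Fin n → ℝ, m8K n α b n h (evd Y) =
      ∫⁻ X : Fin n → Fin n → ℝ, m8K n α b n h (evd X) *
        ENNReal.ofReal (Real.exp (∑ i, (0 : Fin n → ℝ) i * X i i)) := by
    refine lintegral_congr fun X => ?_
    simp
  rw [hswap, e0, hgt, mul_assoc, mul_assoc]
  congr 1
  -- the inner integral by the Gelfand-Tsetlin formula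
  have hPm : Measurable (fun x : Fin n → ℝ => ENNReal.ofReal (∏ i, h (x i))) := by
    have : Continuous (fun x : Fin n → ℝ => ∏ i, h (x i)) := by fun_prop
    exact this.measurable.ennreal_ofReal
  have hK : ∀ y : Fin n → ℝ, m8K n α b n h y =
      ENNReal.ofReal (Real.exp (-(n : ℝ) * ∑ i, Wr α (y i))) *
        (C * ∫⁻ x in Dec n, ENNReal.ofReal (∏ i, h (x i)) *
          ENNReal.ofReal (vdd x * SS n (fun i => b * y i) x)) := by
    intro y
    have hg := hC (fun i => b * y i) (fun x => ENNReal.ofReal (∏ i, h (x i))) hPm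
    rw [← hg, ← lintegral_const_mul']
    · unfold m8K
      refine lintegral_congr fun X => ?_
      ring
    · exact ENNReal.ofReal_ne_top
  have hD := m8_measurableSet_Dec n
  have hy : ∀ y ∈ Dec n, m8K n α b n h y * ENNReal.ofReal (vdd y * SS n 0 y) =
      (C * ENNReal.ofReal (c / d)) * ∫⁻ x in Dec n, ENNReal.ofReal (m8Phi α b n h x y) := by
    intro y hy
    have hyA : StrictAnti y := hy
    have hvy := m8_vdd_pos hyA
    rw [hK y, hc y hyA]
    have e1 : ∫⁻ x in Dec n, ENNReal.ofReal (m8Phi α b n h x y) =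
        ENNReal.ofReal (Real.exp (-(n : ℝ) * ∑ i, Wr α (y i)) * (d * vdd y ^ 2)) *
        ∫⁻ x in Dec n, ENNReal.ofReal (∏ i, h (x i)) *
          ENNReal.ofReal (vdd x * SS n (fun i => b * y i) x) := by
      rw [← lintegral_const_mul' _ _ ENNReal.ofReal_ne_top]
      refine setLIntegral_congr_fun hD fun x hx => ?_
      have hxA : StrictAnti x := hx
      have hvx := m8_vdd_pos hxA
      have hP : 0 ≤ ∏ i, h (x i) := Finset.prod_nonneg fun i _ => hh.nonneg _
      rw [← ENNReal.ofReal_mul hP, ← ENNReal.ofReal_mul (by positivity)]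
      congr 1
      unfold m8Phi
      rw [m8E_eq b y hxA]
      ring
    rw [e1]
    have e2 : ENNReal.ofReal (c / d) * ENNReal.ofReal (Real.exp (-(n : ℝ) * ∑ i, Wr α (y i)) *
        (d * vdd y ^ 2)) = ENNReal.ofReal (Real.exp (-(n : ℝ) * ∑ i, Wr α (y i))) *
        ENNReal.ofReal (vdd y * (c * vdd y)) := by
      rw [← ENNReal.ofReal_mul (by positivity), ← ENNReal.ofReal_mul (by positivity)]
      congr 1
      field_simp
    rw [mul_assoc C, ← mul_assoc (ENNReal.ofReal (c / d)), e2]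
    ring
  rw [setLIntegral_congr_fun hD hy, lintegral_const_mul', m8_total hn hh α τ hτ]
  · ring
  · exact ENNReal.mul_ne_top hC1 ENNReal.ofReal_ne_top

end

end Pool.Agent.MP_941b23_mp
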