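import Pool.Agent.MP_941b23_mp.Defs2

/-!
# Part S8a : Lee-Yang for the Curie-Weiss polynomial.
-/

namespace Pool.Agent.MP_941b23_mp

open MeasureTheory Set Filter Topology
open scoped ENNReal NNReal Real ComplexConjugate

noncomputable section

variable {N α τ : ℝ}

/-- the Curie-Weiss polynomial as a polynomial -/
def s8a_poly (m : ℕ) (q : ℝ) : Polynomial ℂ :=
  ∑ k ∈ Finset.range (m + 1),
    Polynomial.monomial k ((m.choose k : ℂ) * (q : ℂ) ^ (k * (m - k)))

theorem s8a_poly_eval (m : ℕ) (q : ℝ) (z : ℂ) : (s8a_poly m q).eval z = cw m q z := by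
  simp [s8a_poly, cw, Polynomial.eval_finsetSum, Polynomial.eval_monomial]

theorem s8a_poly_coeff (m : ℕ) (q : ℝ) (k : ℕ) : (s8a_poly m q).coeff k =
    if k < m + 1 then (m.choose k : ℂ) * (q : ℂ) ^ (k * (m - k)) else 0 := by
  simp [s8a_poly, Polynomial.finsetSum_coeff, Polynomial.coeff_monomial]

theorem s8a_poly_natDegree_le (m : ℕ) (q : ℝ) : (s8a_poly m q).natDegree ≤ m := by
  rw [Polynomial.natDegree_le_iff_coeff_eq_zero]
  intro k hk
  rw [s8a_poly_coeff, if_neg (by omega)]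

theorem s8a_poly_monic (m : ℕ) (q : ℝ) : (s8a_poly m q).Monic := by
  apply Polynomial.monic_of_natDegree_le_of_coeff_eq_one m (s8a_poly_natDegree_le m q)
  rw [s8a_poly_coeff, if_pos (by omega)]
  simp

theorem s8a_poly_natDegree (m : ℕ) (q : ℝ) : (s8a_poly m q).natDegree = m := by
  apply le_antisymm (s8a_poly_natDegree_le m q)
  apply Polynomial.le_natDegree_of_ne_zero
  rw [s8a_poly_coeff, if_pos (by omega)]
  simp

theorem s8a_factor (m : ℕ) (q : ℝ) : ∃ s : Multiset ℂ, s.card = m ∧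
    (∀ z, cw m q z = (s.map (fun a => z - a)).prod) ∧ ∀ a ∈ s, cw m q a = 0 := by
  refine ⟨(s8a_poly m q).roots, ?_, ?_, ?_⟩
  · have h := (IsAlgClosed.splits (s8a_poly m q)).natDegree_eq_card_roots
    rw [← h, s8a_poly_natDegree]
  · intro z
    rw [← s8a_poly_eval]
    conv_lhs => rw [(IsAlgClosed.splits (s8a_poly m q)).eq_prod_roots_of_monic (s8a_poly_monic m q)]
    rw [Polynomial.eval_multiset_prod, Multiset.map_map]
    simp
  · intro a ha
    have h := (Polynomial.mem_roots'.1 ha).2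
    rw [Polynomial.IsRoot.def, s8a_poly_eval] at h
    exact h

theorem s8a_zero (m : ℕ) (q : ℝ) : cw m q 0 = 1 := by
  rw [cw, Finset.sum_eq_single 0]
  · simp
  · intro b _ hb
    simp [hb]
  · simp

/-- Palindromic. -/
theorem s8a_pal (m : ℕ) (q : ℝ) (z : ℂ) (hz : z ≠ 0) : z ^ m * cw m q z⁻¹ = cw m q z := by
  rw [cw, cw, Finset.mul_sum, ← Finset.sum_range_reflect]
  apply Finset.sum_congr rfl
  intro k hk
  have hk' : k ≤ m := by
    have := Finset.mem_range.1 hk
    omega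
  have e1 : m + 1 - 1 - k = m - k := by omega
  have e2 : m - (m - k) = k := by omega
  rw [e1, e2, Nat.choose_symm hk', mul_comm (m - k) k]
  have h3 : z ^ m = z ^ k * z ^ (m - k) := by
    rw [← pow_add]
    congr 1
    omega
  rw [h3, inv_pow]
  field_simp

/-- Pascal recursion. -/
theorem s8a_pascal (m : ℕ) (q : ℝ) (hq : q ≠ 0) (z : ℂ) :
    cw (m + 1) q z = cw m q (q * z) + z * ((q : ℂ) ^ m * cw m q (z / q)) := by
  have hqc : (q : ℂ) ≠ 0 := by exact_mod_cast hq
  have h1 : cw m q (q * z) = ∑ k ∈ Finset.range (m + 2),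
      (m.choose k : ℂ) * (q : ℂ) ^ (k * (m + 1 - k)) * z ^ k := by
    rw [Finset.sum_range_succ, Nat.choose_succ_self]
    simp only [Nat.cast_zero, zero_mul, add_zero]
    rw [cw]
    apply Finset.sum_congr rfl
    intro k hk
    have hk' : k ≤ m := by
      have := Finset.mem_range.1 hk
      omega
    have e1 : k * (m + 1 - k) = k * (m - k) + k := by
      rw [Nat.succ_sub hk', Nat.mul_succ]
    rw [e1, pow_add, mul_pow]
    ring
  have h2 : z * ((q : ℂ) ^ m * cw m q (z / q)) = ∑ k ∈ Finset.range (m + 1),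
      (m.choose k : ℂ) * (q : ℂ) ^ ((k + 1) * (m + 1 - (k + 1))) * z ^ (k + 1) := by
    rw [cw, Finset.mul_sum, Finset.mul_sum]
    apply Finset.sum_congr rfl
    intro k hk
    have hk' : k ≤ m := by
      have := Finset.mem_range.1 hk
      omega
    have e1 : (k + 1) * (m + 1 - (k + 1)) = k * (m - k) + (m - k) := by
      have : m + 1 - (k + 1) = m - k := by omega
      rw [this]; ring
    have e2 : (q : ℂ) ^ m = (q : ℂ) ^ k * (q : ℂ) ^ (m - k) := by
      rw [← pow_add]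
      congr 1
      omega
    rw [e1, e2, pow_add, div_pow, pow_succ z k]
    field_simp
  rw [h1, h2, cw]
  rw [Finset.sum_range_succ' _ (m + 1), Finset.sum_range_succ' _ (m + 1)]
  rw [add_right_comm, ← Finset.sum_add_distrib]
  congr 1
  · apply Finset.sum_congr rfl
    intro k _
    rw [Nat.choose_succ_succ]
    push_cast
    ring
  · simp

theorem s8a_multiset_le (s : Multiset ℂ) (f g : ℂ → ℂ) (h : ∀ a ∈ s, ‖f a‖ ≤ ‖g a‖) :
    ‖(s.map f).prod‖ ≤ ‖(s.map g).prod‖ := by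
  induction s using Multiset.induction_on with
  | empty => simp
  | cons a s ih =>
    rw [Multiset.map_cons, Multiset.map_cons, Multiset.prod_cons, Multiset.prod_cons, norm_mul,
      norm_mul]
    exact mul_le_mul (h a (Multiset.mem_cons_self a s))
      (ih fun b hb => h b (Multiset.mem_cons_of_mem hb)) (norm_nonneg _) (norm_nonneg _)

theorem s8a_step (q : ℝ) (hq : 0 < q) (hq1 : q < 1) (z a : ℂ) (hz : ‖z‖ < 1) (ha : ‖a‖ = 1) :
    ‖z - q * a‖ ≤ ‖q * z - a‖ := by
  have h1 : ‖z‖ ^ 2 = z.re ^ 2 + z.im ^ 2 := by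
    rw [← Complex.normSq_eq_norm_sq, Complex.normSq_apply]; ring
  have h2 : ‖a‖ ^ 2 = a.re ^ 2 + a.im ^ 2 := by
    rw [← Complex.normSq_eq_norm_sq, Complex.normSq_apply]; ring
  have h3 : ‖z - q * a‖ ^ 2 = (z.re - q * a.re) ^ 2 + (z.im - q * a.im) ^ 2 := by
    rw [← Complex.normSq_eq_norm_sq, Complex.normSq_apply]; simp; ring
  have h4 : ‖q * z - a‖ ^ 2 = (q * z.re - a.re) ^ 2 + (q * z.im - a.im) ^ 2 := by
    rw [← Complex.normSq_eq_norm_sq, Complex.normSq_apply]; simp; ring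
  have h5 : ‖z‖ ^ 2 ≤ 1 := by nlinarith [norm_nonneg z]
  rw [ha] at h2
  have h6 : ‖z - q * a‖ ^ 2 ≤ ‖q * z - a‖ ^ 2 := by
    rw [h3, h4]
    have h7 : 0 ≤ (1 - q ^ 2) * (1 - ‖z‖ ^ 2) := by
      apply mul_nonneg
      · nlinarith
      · linarith
    rw [h1] at h7
    nlinarith [h7, h2]
  exact (sq_le_sq₀ (norm_nonneg _) (norm_nonneg _)).1 h6

theorem s8a_no_small (q : ℝ) (hq : 0 < q) (hq1 : q < 1) (m : ℕ) :
    (∀ z : ℂ, ‖z‖ < 1 → cw m q z ≠ 0) ∧ ∀ z : ℂ, cw m q z = 0 → ‖z‖ = 1 := by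
  have key : ∀ m : ℕ, (∀ z : ℂ, ‖z‖ < 1 → cw m q z ≠ 0) → ∀ z : ℂ, cw m q z = 0 → ‖z‖ = 1 := by
    intro m hm z hz
    have h0 : z ≠ 0 := by
      rintro rfl
      rw [s8a_zero] at hz
      exact one_ne_zero hz
    rcases lt_trichotomy ‖z‖ 1 with h | h | h
    · exact absurd hz (hm z h)
    · exact h
    · exfalso
      have h1 : ‖z⁻¹‖ < 1 := by
        rw [norm_inv]
        exact inv_lt_one_of_one_lt₀ h
      have h2 := s8a_pal m q z h0
      rw [hz] at h2
      rcases mul_eq_zero.1 h2 with h3 | h3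
      · exact h0 (eq_zero_of_pow_eq_zero h3)
      · exact hm _ h1 h3
  have hc : (q : ℂ) ≠ 0 := by exact_mod_cast hq.ne'
  induction m with
  | zero =>
    have h1 : ∀ z : ℂ, ‖z‖ < 1 → cw 0 q z ≠ 0 := by
      intro z _
      simp [cw]
    exact ⟨h1, key 0 h1⟩
  | succ m ih =>
    have h1 : ∀ z : ℂ, ‖z‖ < 1 → cw (m + 1) q z ≠ 0 := by
      intro z hz h
      rw [s8a_pascal m q hq.ne' z] at h
      obtain ⟨s, hs, hf, hs0⟩ := s8a_factor m q
      have h2 : (q : ℂ) ^ m * cw m q (z / q) = (s.map (fun a => z - q * a)).prod := by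
        rw [hf]
        have h3 : (s.map (fun a => z - q * a)) = s.map (fun a => (q : ℂ) * (z / q - a)) := by
          apply Multiset.map_congr rfl
          intro a _
          field_simp
        rw [h3, Multiset.prod_map_mul, Multiset.map_const', Multiset.prod_replicate, hs]
      have h4 : ‖(q : ℂ) ^ m * cw m q (z / q)‖ ≤ ‖cw m q (q * z)‖ := by
        rw [h2, hf]
        apply s8a_multiset_le
        intro a ha
        exact s8a_step q hq hq1 z a hz (ih.2 a (hs0 a ha))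
      have h5 : cw m q (q * z) ≠ 0 := by
        apply ih.1
        rw [norm_mul, Complex.norm_real, Real.norm_eq_abs, abs_of_pos hq]
        nlinarith [norm_nonneg z]
      have h6 : cw m q (q * z) = - (z * ((q : ℂ) ^ m * cw m q (z / q))) := by
        linear_combination h
      have h7 : ‖cw m q (q * z)‖ = ‖z‖ * ‖(q : ℂ) ^ m * cw m q (z / q)‖ := by
        conv_lhs => rw [h6]
        rw [norm_neg, norm_mul]
      have h8 : 0 < ‖cw m q (q * z)‖ := norm_pos_iff.2 h5
      nlinarith [norm_nonneg z]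
    exact ⟨h1, key _ h1⟩

theorem cw_zeros (m : ℕ) (q : ℝ) (hq : 0 < q) (hq1 : q < 1) (z : ℂ) (hz : cw m q z = 0) :
    ‖z‖ = 1 := (s8a_no_small q hq hq1 m).2 z hz

theorem s8a_mono_factor (a : ℂ) (ha : ‖a‖ = 1) (η : ℝ) :
    MonotoneOn (fun ξ : ℝ => ‖Complex.exp (-(ξ + η * Complex.I)) *
      (Complex.exp (2 * (ξ + η * Complex.I)) - a)‖) (Ici 0) := by
  have h2 : a.re ^ 2 + a.im ^ 2 = 1 := by
    have : ‖a‖ ^ 2 = a.re ^ 2 + a.im ^ 2 := by
      rw [← Complex.normSq_eq_norm_sq, Complex.normSq_apply]; ring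
    rw [← this, ha]; norm_num
  have key : ∀ ξ : ℝ, ‖Complex.exp (-(ξ + η * Complex.I)) *
      (Complex.exp (2 * (ξ + η * Complex.I)) - a)‖ ^ 2 =
      2 * Real.cosh (2 * ξ) - 2 * (a.re * Real.cos (2 * η) + a.im * Real.sin (2 * η)) := by
    intro ξ
    rw [norm_mul, mul_pow, ← Complex.normSq_eq_norm_sq (Complex.exp (2 * (ξ + η * Complex.I)) - a),
      Complex.norm_exp, Complex.normSq_apply]
    have e1 : (2 * ((ξ : ℂ) + η * Complex.I)) = ((2 * ξ : ℝ) : ℂ) + ((2 * η : ℝ) : ℂ) * Complex.I := by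
      push_cast; ring
    have e2 : (-((ξ : ℂ) + η * Complex.I)).re = -ξ := by simp
    rw [e1, e2, Complex.sub_re, Complex.sub_im, Complex.exp_re, Complex.exp_im]
    have e3 : (((2 * ξ : ℝ) : ℂ) + ((2 * η : ℝ) : ℂ) * Complex.I).re = 2 * ξ := by simp
    have e4 : (((2 * ξ : ℝ) : ℂ) + ((2 * η : ℝ) : ℂ) * Complex.I).im = 2 * η := by simp
    rw [e3, e4, Real.cosh_eq]
    have e5 : Real.exp (-ξ) ^ 2 = Real.exp (-(2 * ξ)) := by
      rw [← Real.exp_nat_mul]; congr 1; push_cast; ring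
    have e6 : Real.exp (-(2 * ξ)) * Real.exp (2 * ξ) = 1 := by
      rw [← Real.exp_add]; simp
    have e7 := Real.sin_sq_add_cos_sq (2 * η)
    rw [e5]
    generalize Real.exp (-(2 * ξ)) = u at *
    generalize Real.exp (2 * ξ) = v at *
    generalize Real.cos (2 * η) = c at *
    generalize Real.sin (2 * η) = s at *
    have e8 : u * ((v * c - a.re) * (v * c - a.re) + (v * s - a.im) * (v * s - a.im)) =
      (u * v) * v * (s ^ 2 + c ^ 2) - 2 * (u * v) * (a.re * c + a.im * s)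
        + u * (a.re ^ 2 + a.im ^ 2) := by ring
    rw [e8, e6, e7, h2]
    ring
  intro x hx y hy hxy
  show ‖Complex.exp (-((x : ℂ) + η * Complex.I)) *
      (Complex.exp (2 * ((x : ℂ) + η * Complex.I)) - a)‖ ≤ ‖Complex.exp (-((y : ℂ) + η * Complex.I)) *
      (Complex.exp (2 * ((y : ℂ) + η * Complex.I)) - a)‖
  have hx' : 0 ≤ x := hx
  have hc : Real.cosh (2 * x) ≤ Real.cosh (2 * y) := by
    rw [Real.cosh_le_cosh, abs_of_nonneg (by linarith), abs_of_nonneg (by linarith)]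
    linarith
  have h3 := key x
  have h4 := key y
  apply (sq_le_sq₀ (norm_nonneg _) (norm_nonneg _)).1
  rw [h3, h4]
  linarith

/-- `ξ ↦ |e^{-mh} P_m(e^{2h})|`, `h = ξ + iη`, is nondecreasing on `ξ ≥ 0`. -/
theorem cw_mono (m : ℕ) (q : ℝ) (hq : 0 < q) (hq1 : q < 1) (η : ℝ) :
    MonotoneOn (fun ξ : ℝ => ‖Complex.exp (-(m : ℂ) * (ξ + η * Complex.I)) *
      cw m q (Complex.exp (2 * (ξ + η * Complex.I)))‖) (Ici 0) := by
  obtain ⟨s, hs, hf, hs0⟩ := s8a_factor m q
  have h1 : ∀ ξ : ℝ, Complex.exp (-(m : ℂ) * (ξ + η * Complex.I)) *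
      cw m q (Complex.exp (2 * (ξ + η * Complex.I))) =
      (s.map (fun a => Complex.exp (-(ξ + η * Complex.I)) *
        (Complex.exp (2 * (ξ + η * Complex.I)) - a))).prod := by
    intro ξ
    rw [hf, Multiset.prod_map_mul, Multiset.map_const', Multiset.prod_replicate, hs,
      ← Complex.exp_nat_mul]
    congr 2
    ring
  intro x hx y hy hxy
  simp only [h1]
  apply s8a_multiset_le
  intro a ha
  exact s8a_mono_factor a (cw_zeros m q hq hq1 a (hs0 a ha)) η hx hy hxy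

end

end Pool.Agent.MP_941b23_mp
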