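import Pool.Agent.MP_941b23_mp.Defs2
import Pool.Agent.MP_941b23_mp.S1
import Pool.Agent.MP_941b23_mp.S8a

/-!
# [S8b] monotonicity of `|f|` and zeros of `f`
-/

namespace Pool.Agent.MP_941b23_mp

open MeasureTheory Set Filter Topology
open scoped ENNReal NNReal Real ComplexConjugate

noncomputable section

variable {N α τ : ℝ}

theorem s8b_sinh_sq_le (t : ℝ) : Real.sinh t ^ 2 ≤ t ^ 2 * Real.cosh t ^ 2 := by
  have key : ∀ t : ℝ, 0 ≤ t → Real.sinh t ≤ t * Real.cosh t := by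
    intro t ht
    rcases ht.eq_or_lt with rfl | ht
    · simp
    · obtain ⟨c, hc, hc'⟩ := exists_hasDerivAt_eq_slope Real.sinh Real.cosh ht
        Real.continuous_sinh.continuousOn fun x _ => Real.hasDerivAt_sinh x
      rw [Real.sinh_zero, sub_zero, sub_zero, eq_div_iff ht.ne'] at hc'
      rw [← hc', mul_comm]
      have : Real.cosh c ≤ Real.cosh t := by
        rw [Real.cosh_le_cosh, abs_of_pos hc.1, abs_of_pos ht]
        exact hc.2.le
      gcongr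
  have h := key |t| (abs_nonneg t)
  rw [Real.cosh_abs] at h
  have h2 : |Real.sinh t| = Real.sinh |t| := Real.abs_sinh t
  calc Real.sinh t ^ 2 = |Real.sinh t| ^ 2 := (sq_abs _).symm
    _ ≤ (|t| * Real.cosh t) ^ 2 := by
        rw [h2]
        exact pow_le_pow_left₀ (Real.sinh_nonneg_iff.2 (abs_nonneg t)) h 2
    _ = t ^ 2 * Real.cosh t ^ 2 := by rw [mul_pow, sq_abs]

theorem s8b_aux (w : ℝ) (hw : 0 ≤ w) : (1 + w) * Real.exp (-w) ≤
    Real.exp (-(w ^ 2 / (2 * (2 + w)))) := by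
  have h1 : 1 + w ≤ Real.exp (2 * (√(1 + w) - 1)) := by
    have h2 : √(1 + w) ≤ Real.exp (√(1 + w) - 1) := by
      have := Real.add_one_le_exp (√(1 + w) - 1)
      linarith
    calc 1 + w = √(1 + w) ^ 2 := (Real.sq_sqrt (by linarith)).symm
      _ ≤ Real.exp (√(1 + w) - 1) ^ 2 := pow_le_pow_left₀ (Real.sqrt_nonneg _) h2 2
      _ = _ := by rw [← Real.exp_nat_mul]; norm_num
  have h3 : 2 * √(1 + w) ≤ w + 2 - w ^ 2 / (2 * (2 + w)) := by
    have h4 : w ^ 2 / (2 * (2 + w)) ≤ w / 2 := by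
      rw [div_le_div_iff₀ (by positivity) (by norm_num)]
      nlinarith
    have h5 : 0 ≤ w + 2 - w ^ 2 / (2 * (2 + w)) := by linarith
    have h6 : (2 * √(1 + w)) ^ 2 ≤ (w + 2 - w ^ 2 / (2 * (2 + w))) ^ 2 := by
      rw [mul_pow, Real.sq_sqrt (by linarith)]
      have h7 : (w + 2 - w ^ 2 / (2 * (2 + w))) ^ 2 =
          2 ^ 2 * (1 + w) + (w ^ 2 / (2 * (2 + w))) ^ 2 := by
        field_simp
        ring
      rw [h7]
      have := sq_nonneg (w ^ 2 / (2 * (2 + w)))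
      linarith
    exact le_of_sq_le_sq h6 h5
  calc (1 + w) * Real.exp (-w) ≤ Real.exp (2 * (√(1 + w) - 1)) * Real.exp (-w) := by gcongr
    _ = Real.exp (2 * (√(1 + w) - 1) + -w) := (Real.exp_add _ _).symm
    _ ≤ _ := by
        apply Real.exp_le_exp.2
        linarith

theorem s8b_cosh_le (s : ℝ) : Real.cosh s * Real.exp (-(s ^ 2 / 2)) ≤
    Real.exp (-((s ^ 2 / 4) ^ 2 / (2 * (2 + s ^ 2 / 4)))) := by
  refine le_trans ?_ (s8b_aux (s ^ 2 / 4) (by positivity))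
  have h1 : Real.cosh s ≤ (1 + s ^ 2 / 4) * Real.exp (s ^ 2 / 4) := by
    have h2 : Real.cosh s = Real.cosh (s / 2) ^ 2 + Real.sinh (s / 2) ^ 2 := by
      rw [← Real.cosh_two_mul]; congr 1; ring
    have h3 := s8b_sinh_sq_le (s / 2)
    have h4 : Real.cosh (s / 2) ^ 2 ≤ Real.exp (s ^ 2 / 4) := by
      have h5 := Real.cosh_le_exp_half_sq (s / 2)
      calc Real.cosh (s / 2) ^ 2 ≤ Real.exp ((s / 2) ^ 2 / 2) ^ 2 :=
            pow_le_pow_left₀ (Real.cosh_pos _).le h5 2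
        _ = Real.exp (s ^ 2 / 4) := by
            rw [← Real.exp_nat_mul]; congr 1; push_cast; ring
    have h6 : (s / 2) ^ 2 = s ^ 2 / 4 := by ring
    rw [h6] at h3
    calc Real.cosh s ≤ (1 + s ^ 2 / 4) * Real.cosh (s / 2) ^ 2 := by rw [h2]; linarith
      _ ≤ _ := by gcongr
  calc Real.cosh s * Real.exp (-(s ^ 2 / 2))
      ≤ ((1 + s ^ 2 / 4) * Real.exp (s ^ 2 / 4)) * Real.exp (-(s ^ 2 / 2)) := by gcongr
    _ = (1 + s ^ 2 / 4) * Real.exp (s ^ 2 / 4 + -(s ^ 2 / 2)) := by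
        rw [mul_assoc, ← Real.exp_add]
    _ = _ := by congr 2; ring

theorem s8b_taylor (s : ℝ) (hs : |s| ≤ 1) :
    |Real.cosh s * Real.exp (-(s ^ 2 / 2)) - 1 + s ^ 4 / 12| ≤ |s| ^ 5 := by
  have h1 := Real.exp_bound hs (n := 5) (by norm_num)
  have h2 := Real.exp_bound (x := -s) (by rwa [abs_neg]) (n := 5) (by norm_num)
  have hs2 : s ^ 2 ≤ 1 := by
    rw [← sq_abs]
    exact pow_le_one₀ (abs_nonneg _) hs
  have h3 := Real.exp_bound (x := -(s ^ 2 / 2)) (by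
    rw [abs_neg, abs_of_nonneg (by positivity)]; linarith) (n := 3) (by norm_num)
  simp only [Finset.sum_range_succ, Finset.sum_range_zero, abs_neg] at h1 h2 h3
  norm_num [Nat.factorial] at h1 h2 h3
  rw [abs_of_nonneg (show 0 ≤ s ^ 2 / 2 by positivity)] at h3
  set a : ℝ := |s| with ha
  have ha0 : 0 ≤ a := abs_nonneg s
  have hs2' : s ^ 2 = a ^ 2 := (sq_abs s).symm
  -- cosh
  set R1 : ℝ := Real.cosh s - (1 + s ^ 2 / 2 + s ^ 4 / 24) with hR1
  set R2 : ℝ := Real.exp (-(s ^ 2 / 2)) - (1 - s ^ 2 / 2 + s ^ 4 / 8) with hR2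
  have e1 : |R1| ≤ a ^ 5 / 100 := by
    rw [hR1, Real.cosh_eq]
    rw [abs_le] at h1 h2 ⊢
    constructor <;> nlinarith [h1.1, h1.2, h2.1, h2.2]
  have e2 : |R2| ≤ a ^ 6 / 36 := by
    have h4 : (s ^ 2 / 2) ^ 3 * (2 / 9) = a ^ 6 / 36 := by rw [hs2']; ring
    rw [hR2]
    rw [abs_le] at h3 ⊢
    constructor <;> nlinarith [h3.1, h3.2]
  have e3 : Real.exp (-(s ^ 2 / 2)) ≤ 1 := Real.exp_le_one_iff.2 (by nlinarith)
  have e4 : 0 < Real.exp (-(s ^ 2 / 2)) := Real.exp_pos _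
  have e5 : Real.cosh s * Real.exp (-(s ^ 2 / 2)) - 1 + s ^ 4 / 12 =
      R1 * Real.exp (-(s ^ 2 / 2)) + (1 + s ^ 2 / 2 + s ^ 4 / 24) * R2 +
        (s ^ 6 / 24 + s ^ 8 / 192) := by
    rw [hR1, hR2]
    ring
  have hs4 : s ^ 4 = a ^ 4 := by
    calc s ^ 4 = (s ^ 2) ^ 2 := by ring
      _ = a ^ 4 := by rw [hs2']; ring
  have hs6 : s ^ 6 = a ^ 6 := by
    calc s ^ 6 = (s ^ 2) ^ 3 := by ring
      _ = a ^ 6 := by rw [hs2']; ring
  have hs8 : s ^ 8 = a ^ 8 := by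
    calc s ^ 8 = (s ^ 2) ^ 4 := by ring
      _ = a ^ 8 := by rw [hs2']; ring
  have a6 : a ^ 6 ≤ a ^ 5 := pow_le_pow_of_le_one ha0 hs (by norm_num)
  have a8 : a ^ 8 ≤ a ^ 5 := pow_le_pow_of_le_one ha0 hs (by norm_num)
  have a2 : a ^ 2 ≤ 1 := pow_le_one₀ ha0 hs
  have a4 : a ^ 4 ≤ 1 := pow_le_one₀ ha0 hs
  have a50 : 0 ≤ a ^ 5 := by positivity
  rw [e5, hs2', hs4, hs6, hs8]
  rw [hs2'] at e3 e4
  calc |R1 * Real.exp (-(a ^ 2 / 2)) + (1 + a ^ 2 / 2 + a ^ 4 / 24) * R2 +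
        (a ^ 6 / 24 + a ^ 8 / 192)|
      ≤ |R1 * Real.exp (-(a ^ 2 / 2))| + |(1 + a ^ 2 / 2 + a ^ 4 / 24) * R2| +
        |a ^ 6 / 24 + a ^ 8 / 192| := by
        refine (abs_add_le _ _).trans ?_
        gcongr
        exact abs_add_le _ _
    _ = |R1| * Real.exp (-(a ^ 2 / 2)) + (1 + a ^ 2 / 2 + a ^ 4 / 24) * |R2| +
        (a ^ 6 / 24 + a ^ 8 / 192) := by
        rw [abs_mul, abs_mul, abs_of_pos e4,
          abs_of_pos (show 0 < 1 + a ^ 2 / 2 + a ^ 4 / 24 by positivity),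
          abs_of_nonneg (show 0 ≤ a ^ 6 / 24 + a ^ 8 / 192 by positivity)]
    _ ≤ a ^ 5 / 100 * 1 + 2 * (a ^ 6 / 36) + (a ^ 6 / 24 + a ^ 8 / 192) := by
        gcongr
        linarith
    _ ≤ a ^ 5 := by linarith

/-- the scale -/
def s8b_eps (N : ℝ) (m : ℕ) : ℝ := √(√(3 * N / m))

theorem s8b_eps_sq (m : ℕ) : s8b_eps N m ^ 2 = √(3 * N / m) :=
  Real.sq_sqrt (Real.sqrt_nonneg _)

theorem s8b_eps_four (hN : 0 < N) (m : ℕ) : s8b_eps N m ^ 4 = 3 * N / m := by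
  calc s8b_eps N m ^ 4 = (s8b_eps N m ^ 2) ^ 2 := by ring
    _ = 3 * N / m := by rw [s8b_eps_sq, Real.sq_sqrt (by positivity)]

theorem s8b_eps_pos (hN : 0 < N) (m : ℕ) (hm : 0 < m) : 0 < s8b_eps N m := by
  have : (0 : ℝ) < m := by exact_mod_cast hm
  unfold s8b_eps
  positivity

theorem s8b_eps_tendsto : Tendsto (s8b_eps N) atTop (𝓝 0) := by
  have h1 : Tendsto (fun m : ℕ => 3 * N / (m : ℝ)) atTop (𝓝 0) :=
    tendsto_const_div_atTop_nhds_zero_nat _
  have h2 := (Real.continuous_sqrt.tendsto _).comp ((Real.continuous_sqrt.tendsto _).comp h1)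
  rw [Real.sqrt_zero, Real.sqrt_zero] at h2
  exact h2

theorem s8b_mul_eps_sq (hN : 0 < N) (m : ℕ) (hm : 0 < m) :
    m * s8b_eps N m ^ 2 = √(3 * N * m) := by
  have hm' : (0 : ℝ) < m := by exact_mod_cast hm
  rw [s8b_eps_sq, eq_comm, Real.sqrt_eq_iff_mul_self_eq (by positivity) (by positivity)]
  rw [mul_mul_mul_comm, Real.mul_self_sqrt (by positivity)]
  field_simp

theorem s8b_sqrt_tendsto (hN : 0 < N) : Tendsto (fun m : ℕ => √(3 * N * m)) atTop atTop := by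
  apply Real.tendsto_sqrt_atTop.comp
  exact tendsto_natCast_atTop_atTop.const_mul_atTop (by positivity)

theorem s8b_limit (hN : 0 < N) (u : ℝ) :
    Tendsto (fun m : ℕ => (Real.cosh (s8b_eps N m * u) *
      Real.exp (-((s8b_eps N m * u) ^ 2 / 2))) ^ m) atTop (𝓝 (Real.exp (-(N * u ^ 4 / 4)))) := by
  set g : ℕ → ℝ := fun m => Real.cosh (s8b_eps N m * u) *
    Real.exp (-((s8b_eps N m * u) ^ 2 / 2)) - 1 with hg
  have hlim0 : Tendsto (fun m => s8b_eps N m * u) atTop (𝓝 0) := by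
    simpa using s8b_eps_tendsto.mul_const u
  have h1 : Tendsto (fun m : ℕ => (m : ℝ) * g m) atTop (𝓝 (-(N * u ^ 4 / 4))) := by
    have h2 : Tendsto (fun m : ℕ => 3 * N * u ^ 4 * |s8b_eps N m * u|) atTop (𝓝 0) := by
      have := (hlim0.abs).const_mul (3 * N * u ^ 4)
      simpa using this
    rw [tendsto_iff_norm_sub_tendsto_zero]
    refine squeeze_zero' (Eventually.of_forall fun _ => norm_nonneg _) ?_ h2
    have h3 : ∀ᶠ m in atTop, |s8b_eps N m * u| < 1 := by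
      have := hlim0.abs
      rw [abs_zero] at this
      exact this.eventually_lt_const one_pos
    filter_upwards [h3, eventually_gt_atTop 0] with m hm hm0
    have hm' : (0 : ℝ) < m := by exact_mod_cast hm0
    have h4 := s8b_taylor _ hm.le
    have h5 : (m : ℝ) * g m - -(N * u ^ 4 / 4) =
        m * (Real.cosh (s8b_eps N m * u) * Real.exp (-((s8b_eps N m * u) ^ 2 / 2)) - 1 +
          (s8b_eps N m * u) ^ 4 / 12) := by
      have hfour : (s8b_eps N m * u) ^ 4 = 3 * N / m * u ^ 4 := by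
        rw [mul_pow, s8b_eps_four hN]
      rw [hfour]
      simp only [hg]
      field_simp
      ring
    rw [h5, Real.norm_eq_abs, abs_mul, abs_of_pos hm']
    have h6 : |s8b_eps N m * u| ^ 5 = 3 * N / m * u ^ 4 * |s8b_eps N m * u| := by
      rw [pow_succ, Even.pow_abs (by decide : Even 4), mul_pow, s8b_eps_four hN]
    calc (m : ℝ) * |_| ≤ m * |s8b_eps N m * u| ^ 5 := by gcongr
      _ = 3 * N * u ^ 4 * |s8b_eps N m * u| := by
          rw [h6]
          field_simp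
  have h2 := Real.tendsto_one_add_pow_exp_of_tendsto h1
  refine h2.congr fun m => ?_
  simp only [hg]
  congr 1
  ring

/-- quartic domination -/
theorem s8b_dom (hN : 0 < N) (A B : ℝ) (hB : 0 ≤ B) :
    ∃ C : ℝ, ∀ y : ℝ, -N * y ^ 4 / 4 + A * y ^ 2 + B * |y| ≤ C - y ^ 2 := by
  refine ⟨(A + 1 + B) ^ 2 / N + B, fun y => ?_⟩
  have h1 : |y| ≤ 1 + y ^ 2 := by
    rw [← sq_abs y]
    nlinarith [sq_nonneg (|y| - 1 / 2), abs_nonneg y]
  have h2 : 0 ≤ (y ^ 2 * N / 2 - (A + 1 + B)) ^ 2 / N := by positivity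
  have h3 : (y ^ 2 * N / 2 - (A + 1 + B)) ^ 2 / N =
      N * y ^ 4 / 4 - (A + 1 + B) * y ^ 2 + (A + 1 + B) ^ 2 / N := by
    field_simp
    ring
  nlinarith [mul_le_mul_of_nonneg_left h1 hB]

theorem s8b_bound (hN : 0 < N) (A B : ℝ) (hB : 0 ≤ B) : ∃ C : ℝ, ∀ᶠ m : ℕ in atTop, ∀ u : ℝ,
    (Real.cosh (s8b_eps N m * u) * Real.exp (-((s8b_eps N m * u) ^ 2 / 2))) ^ m *
      Real.exp (A * u ^ 2 + B * |u|) ≤ C * Real.exp (-1 * u ^ 2) := by
  obtain ⟨C1, hC1⟩ := s8b_dom (N := N / 8) (by positivity) A B hB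
  refine ⟨Real.exp (max C1 B), ?_⟩
  have hev := (s8b_sqrt_tendsto hN).eventually_ge_atTop (24 * (|A| + B + 1))
  filter_upwards [hev, eventually_gt_atTop 0] with m hm hm0 u
  have hm' : (0 : ℝ) < m := by exact_mod_cast hm0
  set w : ℝ := (s8b_eps N m * u) ^ 2 / 4 with hw
  have hw0 : 0 ≤ w := by positivity
  have e1 : m * w ^ 2 = 3 * N * u ^ 4 / 16 := by
    have : w ^ 2 = s8b_eps N m ^ 4 * u ^ 4 / 16 := by rw [hw]; ring
    rw [this, s8b_eps_four hN]
    field_simp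
  have e2 : m * w = √(3 * N * m) * u ^ 2 / 4 := by
    have : m * w = (m * s8b_eps N m ^ 2) * u ^ 2 / 4 := by rw [hw]; ring
    rw [this, s8b_mul_eps_sq hN m hm0]
  have h1 : (Real.cosh (s8b_eps N m * u) * Real.exp (-((s8b_eps N m * u) ^ 2 / 2))) ^ m ≤
      Real.exp (-(m * (w ^ 2 / (2 * (2 + w))))) := by
    calc _ ≤ Real.exp (-(w ^ 2 / (2 * (2 + w)))) ^ m := by
          refine pow_le_pow_left₀ (by have := Real.cosh_pos (s8b_eps N m * u); positivity) ?_ m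
          exact s8b_cosh_le _
      _ = _ := by rw [← Real.exp_nat_mul]; congr 1; ring
  have h2 : -(m * (w ^ 2 / (2 * (2 + w)))) + (A * u ^ 2 + B * |u|) ≤ max C1 B + -1 * u ^ 2 := by
    rcases le_total w 1 with hw1 | hw1
    · have h3 : w ^ 2 / 6 ≤ w ^ 2 / (2 * (2 + w)) := by
        apply div_le_div_of_nonneg_left (by positivity) (by positivity)
        linarith
      have h4 : m * (w ^ 2 / 6) ≤ m * (w ^ 2 / (2 * (2 + w))) := by gcongr
      have h5 : m * (w ^ 2 / 6) = N / 8 * u ^ 4 / 4 := by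
        have : m * (w ^ 2 / 6) = m * w ^ 2 / 6 := by ring
        rw [this, e1]
        ring
      have h6 := hC1 u
      have h7 := le_max_left C1 B
      nlinarith
    · have h3 : w / 6 ≤ w ^ 2 / (2 * (2 + w)) := by
        rw [div_le_div_iff₀ (by norm_num) (by positivity)]
        nlinarith
      have h4 : m * (w / 6) ≤ m * (w ^ 2 / (2 * (2 + w))) := by gcongr
      have h5 : m * (w / 6) = √(3 * N * m) * u ^ 2 / 24 := by
        have : m * (w / 6) = m * w / 6 := by ring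
        rw [this, e2]
        ring
      have h6 : (|A| + B + 1) * u ^ 2 ≤ √(3 * N * m) * u ^ 2 / 24 := by
        have : 0 ≤ u ^ 2 := sq_nonneg u
        nlinarith
      have h7 := le_max_right C1 B
      have h8 : |u| ≤ 1 + u ^ 2 := by
        rw [← sq_abs u]
        nlinarith [sq_nonneg (|u| - 1 / 2), abs_nonneg u]
      have h9 : A * u ^ 2 ≤ |A| * u ^ 2 := by
        have := le_abs_self A
        gcongr
      nlinarith [mul_le_mul_of_nonneg_left h8 hB]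
  calc _ ≤ Real.exp (-(m * (w ^ 2 / (2 * (2 + w))))) * Real.exp (A * u ^ 2 + B * |u|) := by gcongr
    _ = Real.exp (-(m * (w ^ 2 / (2 * (2 + w)))) + (A * u ^ 2 + B * |u|)) :=
        (Real.exp_add _ _).symm
    _ ≤ Real.exp (max C1 B + -1 * u ^ 2) := Real.exp_le_exp.2 h2
    _ = _ := Real.exp_add _ _

/-- the approximating functions -/
def s8b_G (N α τ ε : ℝ) (m : ℕ) (x : ℂ) : ℂ :=
  ∫ u : ℝ, (((Real.cosh (ε * u) * Real.exp (-((ε * u) ^ 2 / 2))) ^ m : ℝ) : ℂ) *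
    Complex.exp (-((N * α / 2 : ℝ) : ℂ) * (u : ℂ) ^ 2 + (N * τ : ℝ) * x * u)

theorem s8b_identity (ε : ℝ) (m : ℕ) (hγ : 0 < m * ε ^ 2 + N * α) :
    ∃ K : ℂ, ∀ x : ℂ, s8b_G N α τ ε m x = K *
      Complex.exp (((N * τ : ℝ) * x) ^ 2 / (2 * (m * ε ^ 2 + N * α : ℝ))) *
      (Complex.exp (-(m : ℂ) * ((ε * (N * τ) / (m * ε ^ 2 + N * α) : ℝ) * x)) *
        cw m (Real.exp (-(2 * ε ^ 2 / (m * ε ^ 2 + N * α))))
          (Complex.exp (2 * ((ε * (N * τ) / (m * ε ^ 2 + N * α) : ℝ) * x)))) := by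
  set γ : ℝ := m * ε ^ 2 + N * α with hγd
  have hγc : (γ : ℂ) ≠ 0 := by exact_mod_cast hγ.ne'
  refine ⟨(1 / 2 : ℂ) ^ m * ((π : ℂ) / -(-(γ / 2 : ℝ) : ℂ)) ^ (1 / 2 : ℂ) *
    Complex.exp (m ^ 2 * ε ^ 2 / (2 * γ)), fun x => ?_⟩
  have hint : ∀ u : ℝ, (((Real.cosh (ε * u) * Real.exp (-((ε * u) ^ 2 / 2))) ^ m : ℝ) : ℂ) *
      Complex.exp (-((N * α / 2 : ℝ) : ℂ) * (u : ℂ) ^ 2 + (N * τ : ℝ) * x * u) =
      ∑ k ∈ Finset.range (m + 1), (1 / 2 : ℂ) ^ m * (m.choose k : ℂ) *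
        Complex.exp (-(γ / 2 : ℝ) * (u : ℂ) ^ 2 + ((2 * k - m) * ε + (N * τ : ℝ) * x) * u + 0) := by
    intro u
    have h1 : ((Real.cosh (ε * u) : ℝ) : ℂ) =
        (1 / 2 : ℂ) * (Complex.exp (ε * u) + Complex.exp (-(ε * u))) := by
      rw [Real.cosh_eq]
      push_cast
      ring
    rw [Complex.ofReal_pow, Complex.ofReal_mul, h1, mul_pow, mul_pow, add_pow, Finset.mul_sum,
      Finset.sum_mul, Finset.sum_mul]
    refine Finset.sum_congr rfl fun k hk => ?_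
    have hk' : k ≤ m := Nat.lt_succ_iff.1 (Finset.mem_range.1 hk)
    have h2 : (((Real.exp (-((ε * u) ^ 2 / 2)) : ℝ) : ℂ)) ^ m =
        Complex.exp (m * (-((ε * u) ^ 2 / 2))) := by
      rw [Complex.exp_nat_mul]
      push_cast
      rfl
    have h3 : Complex.exp (ε * u) ^ k = Complex.exp (k * (ε * u)) := by
      rw [Complex.exp_nat_mul]
    have h4 : Complex.exp (-(ε * u)) ^ (m - k) = Complex.exp (((m : ℂ) - k) * (-(ε * u))) := by
      rw [← Nat.cast_sub hk', Complex.exp_nat_mul]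
    rw [h2, h3, h4]
    have h5 : (1 / 2 : ℂ) ^ m * (Complex.exp (k * (ε * u)) *
        Complex.exp (((m : ℂ) - k) * (-(ε * u))) * (m.choose k : ℂ)) *
        Complex.exp (m * (-((ε * u) ^ 2 / 2))) *
        Complex.exp (-((N * α / 2 : ℝ) : ℂ) * (u : ℂ) ^ 2 + (N * τ : ℝ) * x * u) =
        (1 / 2 : ℂ) ^ m * (m.choose k : ℂ) * (Complex.exp (k * (ε * u)) *
        Complex.exp (((m : ℂ) - k) * (-(ε * u))) *
        Complex.exp (m * (-((ε * u) ^ 2 / 2))) *
        Complex.exp (-((N * α / 2 : ℝ) : ℂ) * (u : ℂ) ^ 2 + (N * τ : ℝ) * x * u)) := by ring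
    rw [h5, ← Complex.exp_add, ← Complex.exp_add, ← Complex.exp_add]
    congr 2
    rw [hγd]
    push_cast
    ring
  have hre : (-((γ / 2 : ℝ) : ℂ)).re < 0 := by
    rw [Complex.neg_re, Complex.ofReal_re]
    linarith
  have hIn : ∀ k : ℕ, Integrable fun u : ℝ => (1 / 2 : ℂ) ^ m * (m.choose k : ℂ) *
        Complex.exp (-((γ / 2 : ℝ) : ℂ) * (u : ℂ) ^ 2 +
          ((2 * k - m) * ε + (N * τ : ℝ) * x) * u + 0) := by
    intro k
    apply Integrable.const_mul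
    apply integrable_cexp_quadratic
    rw [Complex.ofReal_re]
    linarith
  unfold s8b_G
  simp_rw [hint]
  rw [integral_finsetSum _ fun k _ => hIn k]
  simp_rw [integral_const_mul, integral_cexp_quadratic hre]
  unfold cw
  rw [Finset.mul_sum, Finset.mul_sum]
  refine Finset.sum_congr rfl fun k hk => ?_
  have hk' : k ≤ m := Nat.lt_succ_iff.1 (Finset.mem_range.1 hk)
  have h6 : ((Real.exp (-(2 * ε ^ 2 / γ)) : ℝ) : ℂ) ^ (k * (m - k)) =
      Complex.exp (k * ((m : ℂ) - k) * (-(2 * ε ^ 2 / γ))) := by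
    rw [← Nat.cast_sub hk', ← Nat.cast_mul, Complex.exp_nat_mul]
    push_cast
    rfl
  have h7 : Complex.exp (2 * ((ε * (N * τ) / γ : ℝ) * x)) ^ k =
      Complex.exp (k * (2 * ((ε * (N * τ) / γ : ℝ) * x))) := by
    rw [Complex.exp_nat_mul]
  rw [h6, h7]
  have h8 : ∀ A B C P Q R S T : ℂ, A * B * P * Q * (R * (C * S * T)) =
      A * C * (B * (P * Q * R * S * T)) := by intros; ring
  rw [h8, ← Complex.exp_add, ← Complex.exp_add, ← Complex.exp_add, ← Complex.exp_add]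
  congr 3
  push_cast
  field_simp
  ring

theorem s8b_G_mono (hN : 0 < N) (hτ : 0 < τ) (ε : ℝ) (hε : 0 < ε) (m : ℕ)
    (hγ : 0 < m * ε ^ 2 + N * α) (η : ℝ) :
    MonotoneOn (fun ξ : ℝ => ‖s8b_G N α τ ε m (ξ + η * Complex.I)‖) (Ici 0) := by
  obtain ⟨K, hK⟩ := s8b_identity (τ := τ) ε m hγ
  set γ : ℝ := m * ε ^ 2 + N * α with hγd
  set κ : ℝ := ε * (N * τ) / γ with hκ
  have hκ0 : 0 < κ := by positivity
  have hq : 0 < Real.exp (-(2 * ε ^ 2 / γ)) := Real.exp_pos _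
  have hq1 : Real.exp (-(2 * ε ^ 2 / γ)) < 1 := by
    rw [Real.exp_lt_one_iff]
    have : 0 < 2 * ε ^ 2 / γ := by positivity
    linarith
  have hmono := cw_mono m _ hq hq1 (κ * η)
  intro ξ hξ ξ' hξ' hle
  have hξ0 : 0 ≤ ξ := hξ
  have hξ0' : 0 ≤ ξ' := hξ'
  have e : ∀ ξ : ℝ, ‖s8b_G N α τ ε m (ξ + η * Complex.I)‖ =
      ‖K‖ * Real.exp ((N * τ) ^ 2 * (ξ ^ 2 - η ^ 2) / (2 * γ)) *
      ‖Complex.exp (-(m : ℂ) * (((κ * ξ : ℝ) : ℂ) + ((κ * η : ℝ) : ℂ) * Complex.I)) *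
      cw m (Real.exp (-(2 * ε ^ 2 / γ)))
        (Complex.exp (2 * (((κ * ξ : ℝ) : ℂ) + ((κ * η : ℝ) : ℂ) * Complex.I)))‖ := by
    intro ξ
    rw [hK, norm_mul, norm_mul, Complex.norm_exp]
    have h1 : (((N * τ : ℝ) * ((ξ : ℂ) + η * Complex.I)) ^ 2 / (2 * (γ : ℂ))).re =
        (N * τ) ^ 2 * (ξ ^ 2 - η ^ 2) / (2 * γ) := by
      have h2 : ((N * τ : ℝ) * ((ξ : ℂ) + η * Complex.I)) ^ 2 / (2 * (γ : ℂ)) =
          (((N * τ) ^ 2 * (ξ ^ 2 - η ^ 2) / (2 * γ) : ℝ) : ℂ) +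
          (((N * τ) ^ 2 * (2 * ξ * η) / (2 * γ) : ℝ) : ℂ) * Complex.I := by
        push_cast
        have : Complex.I ^ 2 = -1 := Complex.I_sq
        linear_combination ((N : ℂ) * τ) ^ 2 * (η : ℂ) ^ 2 / (2 * γ) * this
      rw [h2, Complex.add_re, Complex.ofReal_re, Complex.re_ofReal_mul, Complex.I_re]
      ring
    rw [h1]
    have h3 : ((κ : ℝ) : ℂ) * ((ξ : ℂ) + η * Complex.I) =
        ((κ * ξ : ℝ) : ℂ) + ((κ * η : ℝ) : ℂ) * Complex.I := by
      push_cast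
      ring
    rw [h3]
  simp only [e]
  have h4 := hmono (show κ * ξ ∈ Ici (0 : ℝ) from mul_nonneg hκ0.le hξ0)
    (show κ * ξ' ∈ Ici (0 : ℝ) from mul_nonneg hκ0.le hξ0') (by gcongr)
  simp only at h4
  gcongr

theorem s8b_G_tendsto (hN : 0 < N) (x : ℂ) :
    Tendsto (fun m : ℕ => s8b_G N α τ (s8b_eps N m) m x) atTop (𝓝 (fj N α τ 0 x)) := by
  obtain ⟨C, hC⟩ := s8b_bound hN (-(N * α / 2)) (|N * τ * x.re|) (abs_nonneg _)
  unfold fj
  simp only [pow_zero, one_mul]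
  unfold s8b_G
  refine tendsto_integral_filter_of_dominated_convergence
    (fun u => C * Real.exp (-1 * u ^ 2)) (Eventually.of_forall fun m => ?_) ?_
    ((integrable_exp_neg_mul_sq one_pos).const_mul C) (Eventually.of_forall fun u => ?_)
  · apply Continuous.aestronglyMeasurable
    fun_prop
  · filter_upwards [hC] with m hm
    refine Eventually.of_forall fun u => ?_
    refine le_trans ?_ (hm u)
    rw [norm_mul, Complex.norm_real, Real.norm_eq_abs, abs_of_nonneg (by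
      have := Real.cosh_pos (s8b_eps N m * u)
      positivity), Complex.norm_exp]
    have h1 : (-((N * α / 2 : ℝ) : ℂ) * (u : ℂ) ^ 2 + (N * τ : ℝ) * x * u).re =
        -(N * α / 2) * u ^ 2 + N * τ * x.re * u := by
      have h2 : -((N * α / 2 : ℝ) : ℂ) * (u : ℂ) ^ 2 + (N * τ : ℝ) * x * u =
          ((-(N * α / 2) * u ^ 2 : ℝ) : ℂ) + ((N * τ * u : ℝ) : ℂ) * x := by
        push_cast
        ring
      rw [h2, Complex.add_re, Complex.ofReal_re, Complex.re_ofReal_mul]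
      ring
    rw [h1]
    have h3 : N * τ * x.re * u ≤ |N * τ * x.re| * |u| := by
      rw [← abs_mul]
      exact le_abs_self _
    have := Real.cosh_pos (s8b_eps N m * u)
    gcongr
  · have h1 := s8b_limit hN u
    have h2 : Tendsto (fun m : ℕ => (((Real.cosh (s8b_eps N m * u) *
        Real.exp (-((s8b_eps N m * u) ^ 2 / 2))) ^ m : ℝ) : ℂ)) atTop
        (𝓝 ((Real.exp (-(N * u ^ 4 / 4)) : ℝ) : ℂ)) :=
      (Complex.continuous_ofReal.tendsto _).comp h1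
    have h3 := h2.mul_const
      (Complex.exp (-((N * α / 2 : ℝ) : ℂ) * (u : ℂ) ^ 2 + (N * τ : ℝ) * x * u))
    convert h3 using 2
    rw [Complex.ofReal_exp, ← Complex.exp_add]
    congr 1
    push_cast
    ring

theorem fj_mono (hN : 0 < N) (hτ : 0 < τ) (η : ℝ) :
    MonotoneOn (fun ξ : ℝ => ‖fj N α τ 0 (ξ + η * Complex.I)‖) (Ici 0) := by
  intro ξ hξ ξ' hξ' hle
  have h1 := (s8b_G_tendsto (α := α) (τ := τ) hN ((ξ : ℂ) + η * Complex.I)).norm
  have h2 := (s8b_G_tendsto (α := α) (τ := τ) hN ((ξ' : ℂ) + η * Complex.I)).norm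
  refine le_of_tendsto_of_tendsto h1 h2 ?_
  have hev := (s8b_sqrt_tendsto hN).eventually_gt_atTop (-(N * α))
  filter_upwards [hev, eventually_gt_atTop 0] with m hm hm0
  have hγ : 0 < m * s8b_eps N m ^ 2 + N * α := by
    rw [s8b_mul_eps_sq hN m hm0]
    linarith
  exact s8b_G_mono hN hτ _ (s8b_eps_pos hN m hm0) m hγ η hξ hξ' hle

theorem fj_zero_re (hN : 0 < N) (hτ : 0 < τ) (x : ℂ) (hx : fj N α τ 0 x = 0) :
    x.re = 0 := by
  have key : ∀ x : ℂ, fj N α τ 0 x = 0 → ¬ 0 < x.re := by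
    intro x hx hpos
    have hmono := fj_mono (α := α) hN hτ x.im
    have hxx : ((x.re : ℝ) : ℂ) + x.im * Complex.I = x := Complex.re_add_im x
    have hz : ∀ ξ : ℝ, 0 ≤ ξ → ξ ≤ x.re → fj N α τ 0 ((ξ : ℂ) + x.im * Complex.I) = 0 := by
      intro ξ h0 h1
      have h2 := hmono (show ξ ∈ Ici (0 : ℝ) from h0) (show x.re ∈ Ici (0 : ℝ) from hpos.le) h1
      simp only [hxx, hx, norm_zero] at h2
      exact norm_le_zero_iff.1 h2
    have hd : Differentiable ℂ (fj N α τ 0) := fun z => (fj_hasDerivAt hN 0 z).differentiableAt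
    have han : AnalyticOnNhd ℂ (fj N α τ 0) univ := fun z _ => hd.analyticAt z
    have hfr : ∃ᶠ z in 𝓝[≠] ((0 : ℂ) + x.im * Complex.I), fj N α τ 0 z = 0 := by
      have ht : Tendsto (fun n : ℕ => ((x.re / (n + 1) : ℝ) : ℂ) + x.im * Complex.I) atTop
          (𝓝[≠] ((0 : ℂ) + x.im * Complex.I)) := by
        rw [tendsto_nhdsWithin_iff]
        constructor
        · have h1 : Tendsto (fun n : ℕ => x.re / ((n : ℝ) + 1)) atTop (𝓝 0) := by
            have := (tendsto_one_div_add_atTop_nhds_zero_nat (𝕜 := ℝ)).const_mul x.re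
            rw [mul_zero] at this
            exact this.congr fun n => by ring
          have h2 := (Complex.continuous_ofReal.tendsto _).comp h1
          rw [Complex.ofReal_zero] at h2
          exact h2.add_const _
        · refine Eventually.of_forall fun n => ?_
          simp only [mem_compl_iff, mem_singleton_iff]
          intro h
          have h3 := add_right_cancel h
          have h4 : x.re / ((n : ℝ) + 1) = 0 := by exact_mod_cast h3
          have : 0 < x.re / ((n : ℝ) + 1) := by positivity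
          linarith
      refine ht.frequently (Frequently.of_forall fun n => ?_)
      apply hz
      · positivity
      · apply div_le_self hpos.le
        have : (0 : ℝ) ≤ n := Nat.cast_nonneg n
        linarith
    have h5 := han.eqOn_zero_of_preconnected_of_frequently_eq_zero isPreconnected_univ
      (mem_univ _) hfr (mem_univ (0 : ℂ))
    have h6 := fj_zero_pos (α := α) (τ := τ) hN 0
    rw [Complex.ofReal_zero, h5] at h6
    simp at h6
  rcases lt_trichotomy x.re 0 with h | h | h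
  · exfalso
    apply key (-x) _ (by rw [Complex.neg_re]; linarith)
    rw [fj_neg, hx, mul_zero]
  · exact h
  · exact absurd h (key x hx)

end

end Pool.Agent.MP_941b23_mp
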