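import Pool.Agent.MP_941b23_mp.Defs2

/-!
# [QM-S2a] : the function `A`: derivatives, differential equation, conjugation, growth.
-/

namespace Pool.Agent.MP_941b23_mp

open MeasureTheory Set Filter Topology
open scoped ENNReal NNReal Real ComplexConjugate

noncomputable section

variable {N α τ : ℝ}

/-! ### auxiliary lemmas -/

/-- the two directions -/
def s2a_dir (e : ℂ) : Prop := e = ep ∨ e = em

theorem s2a_ep_sq : ep ^ 2 = Complex.I := by
  have h : (√2 : ℝ) * √2 = 2 := Real.mul_self_sqrt (by norm_num)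
  apply Complex.ext <;> (simp [ep, pow_two]; try nlinarith [h])

theorem s2a_em_sq : em ^ 2 = -Complex.I := by
  have h : (√2 : ℝ) * √2 = 2 := Real.mul_self_sqrt (by norm_num)
  apply Complex.ext <;> (simp [em, pow_two]; try nlinarith [h])

theorem s2a_sq_re {e : ℂ} (he : s2a_dir e) : (e ^ 2).re = 0 := by
  rcases he with rfl | rfl
  · rw [s2a_ep_sq]; simp
  · rw [s2a_em_sq]; simp

theorem s2a_pow_four {e : ℂ} (he : s2a_dir e) : e ^ 4 = -1 := by
  have : e ^ 4 = (e ^ 2) ^ 2 := by ring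
  rcases he with rfl | rfl
  · rw [this, s2a_ep_sq]; simp
  · rw [this, s2a_em_sq]; simp

theorem s2a_norm {e : ℂ} (he : s2a_dir e) : ‖e‖ = 1 := by
  have h : ‖e‖ ^ 4 = 1 := by rw [← norm_pow, s2a_pow_four he]; simp
  have h0 := norm_nonneg e
  have h2 : (‖e‖ ^ 2 - 1) * (‖e‖ ^ 2 + 1) = 0 := by ring_nf; linarith
  rcases mul_eq_zero.1 h2 with h3 | h3
  · nlinarith
  · nlinarith [sq_nonneg ‖e‖]

theorem s2a_conj_ep : conj ep = em := by
  apply Complex.ext <;> simp [ep, em]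

theorem s2a_conj_em : conj em = ep := by
  apply Complex.ext <;> simp [ep, em]

/-- the size of `g` on the rays -/
theorem s2a_norm_gA {e : ℂ} (he : s2a_dir e) (hN : 0 < N) (w : ℂ) {r : ℝ} (hr : 0 ≤ r) :
    ‖gA N α τ w (e * (r : ℂ))‖ ≤ Real.exp (-(N / 4) * r ^ 4 + N * |τ| * ‖w‖ * r) := by
  unfold gA
  rw [Complex.norm_exp]
  apply Real.exp_le_exp.2
  have h1 : (N : ℂ) * ((e * (r : ℂ)) ^ 4 / 4 - (α : ℂ) / 2 * (e * (r : ℂ)) ^ 2
      - (τ : ℂ) * w * (e * (r : ℂ))) =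
      ((-(N / 4) * r ^ 4 : ℝ) : ℂ) - ((N * α / 2 * r ^ 2 : ℝ) : ℂ) * e ^ 2
        - ((N * τ * r : ℝ) : ℂ) * (w * e) := by
    have h4 := s2a_pow_four he
    push_cast
    have : (e * (r : ℂ)) ^ 4 = -(r : ℂ) ^ 4 := by rw [mul_pow, h4]; ring
    rw [this]; ring
  rw [h1, Complex.sub_re, Complex.sub_re, Complex.ofReal_re, Complex.re_ofReal_mul,
    Complex.re_ofReal_mul, s2a_sq_re he]
  have h2 : |(w * e).re| ≤ ‖w‖ := by
    calc |(w * e).re| ≤ ‖w * e‖ := Complex.abs_re_le_norm _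
      _ = ‖w‖ := by rw [norm_mul, s2a_norm he, mul_one]
  have h3 : -(N * τ * r * (w * e).re) ≤ N * |τ| * ‖w‖ * r := by
    calc -(N * τ * r * (w * e).re) ≤ |N * τ * r * (w * e).re| := neg_le_abs _
      _ = N * |τ| * r * |(w * e).re| := by
        rw [abs_mul, abs_mul, abs_mul, abs_of_pos hN, abs_of_nonneg hr]
      _ ≤ N * |τ| * r * ‖w‖ := by
        apply mul_le_mul_of_nonneg_left h2; positivity
      _ = N * |τ| * ‖w‖ * r := by ring
  linarith

/-- Young -/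
theorem s2a_young (hN : 0 < N) : ∃ K : ℝ, 0 < K ∧ ∀ a r : ℝ, 0 ≤ a → 0 ≤ r →
    a * r ≤ N / 8 * r ^ 4 + K * a ^ (4 / 3 : ℝ) := by
  set c : ℝ := (N / 2) ^ (1 / 4 : ℝ) with hc
  have hc0 : 0 < c := by positivity
  have hc4 : c ^ 4 = N / 2 := by
    rw [hc, ← Real.rpow_natCast, ← Real.rpow_mul (by positivity)]
    norm_num
  refine ⟨3 / 4 * (c⁻¹) ^ (4 / 3 : ℝ), by positivity, fun a r ha hr => ?_⟩
  have hpq : (4 : ℝ).HolderConjugate (4 / 3 : ℝ) := by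
    rw [Real.holderConjugate_iff]; norm_num
  have := Real.young_inequality_of_nonneg (a := c * r) (b := a * c⁻¹) (by positivity)
    (by positivity) hpq
  have h1 : c * r * (a * c⁻¹) = a * r := by field_simp
  rw [h1, Real.mul_rpow ha (by positivity)] at this
  have h2 : (c * r) ^ (4 : ℝ) = N / 2 * r ^ 4 := by
    rw [show (4 : ℝ) = ((4 : ℕ) : ℝ) by norm_num, Real.rpow_natCast, mul_pow, hc4]
  rw [h2] at this
  calc a * r ≤ _ := this
    _ = _ := by ring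

/-- the dominating functions are integrable -/
theorem s2a_bound_int (hN : 0 < N) (c a : ℝ) (k : ℕ) :
    IntegrableOn (fun r : ℝ => (c * r) ^ k * Real.exp (-(N / 4) * r ^ 4 + a * r)) (Ioi 0) := by
  obtain ⟨K, hK, hy⟩ := s2a_young hN
  refine integrable_of_isBigO_exp_neg (b := 1) one_pos (by fun_prop) ?_
  have h1 : (fun r : ℝ => (c * r) ^ k) =O[atTop] fun r => Real.exp r := by
    have := (Real.isLittleO_pow_exp_atTop (n := k)).isBigO
    have h2 : (fun r : ℝ => (c * r) ^ k) = fun r => c ^ k * r ^ k := by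
      ext r; rw [mul_pow]
    rw [h2]
    exact this.const_mul_left _
  have h2 : (fun r : ℝ => Real.exp (-(N / 4) * r ^ 4 + a * r)) =O[atTop]
      fun r => Real.exp (-2 * r) := by
    refine Asymptotics.IsBigO.of_bound (Real.exp (K * (|a| + 2) ^ (4 / 3 : ℝ))) ?_
    filter_upwards [eventually_ge_atTop 0] with r hr
    rw [Real.norm_of_nonneg (Real.exp_pos _).le, Real.norm_of_nonneg (Real.exp_pos _).le,
      ← Real.exp_add]
    apply Real.exp_le_exp.2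
    have := hy (|a| + 2) r (by positivity) hr
    have h3 : a * r ≤ |a| * r := mul_le_mul_of_nonneg_right (le_abs_self a) hr
    have h4 : 0 ≤ N / 8 * r ^ 4 := by positivity
    nlinarith
  have := h1.mul h2
  refine this.trans (Asymptotics.isBigO_of_le _ fun r => le_of_eq ?_)
  rw [← Real.exp_add]; congr 2; ring

theorem s2a_gA_cont (w : ℂ) (e : ℂ) : Continuous fun r : ℝ => gA N α τ w (e * (r : ℂ)) := by
  unfold gA; fun_prop

/-- one ray of the integrand -/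
def s2a_F (N α τ : ℝ) (e : ℂ) (k : ℕ) (w : ℂ) (r : ℝ) : ℂ :=
  e * ((-(N * τ : ℝ) * (e * (r : ℂ))) ^ k * gA N α τ w (e * (r : ℂ)))

theorem s2a_F_cont (e : ℂ) (k : ℕ) (w : ℂ) : Continuous (s2a_F N α τ e k w) := by
  unfold s2a_F
  have := s2a_gA_cont (N := N) (α := α) (τ := τ) w e
  fun_prop

theorem s2a_F_bound {e : ℂ} (he : s2a_dir e) (hN : 0 < N) (k : ℕ) (w : ℂ) {R : ℝ}
    (hw : ‖w‖ ≤ R) {r : ℝ} (hr : 0 ≤ r) :
    ‖s2a_F N α τ e k w r‖ ≤
      (N * |τ| * r) ^ k * Real.exp (-(N / 4) * r ^ 4 + N * |τ| * R * r) := by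
  unfold s2a_F
  rw [norm_mul, s2a_norm he, one_mul, norm_mul, norm_pow, norm_mul, norm_mul, s2a_norm he,
    one_mul, norm_neg, Complex.norm_real, Complex.norm_real, Real.norm_of_nonneg hr,
    Real.norm_eq_abs, abs_mul, abs_of_pos hN]
  apply mul_le_mul_of_nonneg_left _ (by positivity)
  refine (s2a_norm_gA he hN w hr).trans (Real.exp_le_exp.2 ?_)
  have : N * |τ| * ‖w‖ * r ≤ N * |τ| * R * r := by
    apply mul_le_mul_of_nonneg_right _ hr
    apply mul_le_mul_of_nonneg_left hw; positivity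
  linarith

theorem s2a_F_int {e : ℂ} (he : s2a_dir e) (hN : 0 < N) (k : ℕ) (w : ℂ) :
    IntegrableOn (s2a_F N α τ e k w) (Ioi 0) := by
  refine Integrable.mono' (s2a_bound_int hN (N * |τ|) (N * |τ| * ‖w‖) k)
    (s2a_F_cont e k w).aestronglyMeasurable ?_
  filter_upwards [ae_restrict_mem measurableSet_Ioi] with r hr
  exact s2a_F_bound he hN k w le_rfl (le_of_lt hr)

theorem s2a_Aj (k : ℕ) (w : ℂ) : Aj N α τ k w = (2 * (π : ℂ) * Complex.I)⁻¹ *
    ∫ r in Ioi (0 : ℝ), (s2a_F N α τ ep k w r - s2a_F N α τ em k w r) := rfl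

theorem s2a_gA_deriv_w (v w : ℂ) :
    HasDerivAt (fun w => gA N α τ w v) (-(N * τ : ℝ) * v * gA N α τ w v) w := by
  unfold gA
  have h : HasDerivAt (fun w : ℂ => (N : ℂ) * (v ^ 4 / 4 - (α : ℂ) / 2 * v ^ 2
      - (τ : ℂ) * w * v)) (-(N * τ : ℝ) * v) w := by
    have := ((((hasDerivAt_id w).const_mul (τ : ℂ)).mul_const v).const_sub
      (v ^ 4 / 4 - (α : ℂ) / 2 * v ^ 2)).const_mul (N : ℂ)
    refine this.congr_deriv ?_
    push_cast; ring
  refine h.cexp.congr_deriv ?_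
  ring

theorem s2a_gA_deriv_r (e w : ℂ) (r : ℝ) :
    HasDerivAt (fun r : ℝ => gA N α τ w (e * (r : ℂ)))
      (e * ((N : ℂ) * ((e * (r : ℂ)) ^ 3 - (α : ℂ) * (e * (r : ℂ)) - (τ : ℂ) * w) *
        gA N α τ w (e * (r : ℂ)))) r := by
  have h1 : HasDerivAt (fun v : ℂ => gA N α τ w v)
      ((N : ℂ) * ((e * (r : ℂ)) ^ 3 - (α : ℂ) * (e * (r : ℂ)) - (τ : ℂ) * w) *
        gA N α τ w (e * (r : ℂ))) (e * (r : ℂ)) := by
    unfold gA
    set v : ℂ := e * (r : ℂ)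
    have h : HasDerivAt (fun v : ℂ => (N : ℂ) * (v ^ 4 / 4 - (α : ℂ) / 2 * v ^ 2
        - (τ : ℂ) * w * v)) ((N : ℂ) * (v ^ 3 - (α : ℂ) * v - (τ : ℂ) * w)) v := by
      have := ((((hasDerivAt_pow 4 v).div_const (4 : ℂ)).sub
        ((hasDerivAt_pow 2 v).const_mul ((α : ℂ) / 2))).sub
        ((hasDerivAt_id v).const_mul ((τ : ℂ) * w))).const_mul (N : ℂ)
      refine this.congr_deriv ?_
      simp only [Nat.cast_ofNat]
      ring
    refine h.cexp.congr_deriv ?_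
    ring
  have h2 : HasDerivAt (fun r : ℝ => e * (r : ℂ)) e r := by
    have := (Complex.ofRealCLM.hasDerivAt (x := r)).const_mul e
    simpa using this
  have := h1.scomp r h2
  simpa [smul_eq_mul, Function.comp_def] using this

/-! ### the statements -/

theorem Aj_hasDerivAt (hN : 0 < N) (k : ℕ) (w : ℂ) :
    HasDerivAt (Aj N α τ k) (Aj N α τ (k + 1) w) w := by
  have hA : Aj N α τ k = fun w => (2 * (π : ℂ) * Complex.I)⁻¹ *
    ∫ r in Ioi (0 : ℝ), (s2a_F N α τ ep k w r - s2a_F N α τ em k w r) := by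
    ext w; exact s2a_Aj k w
  rw [hA, s2a_Aj]
  apply HasDerivAt.const_mul
  have hp : s2a_dir ep := Or.inl rfl
  have hm : s2a_dir em := Or.inr rfl
  refine (hasDerivAt_integral_of_dominated_loc_of_deriv_le (μ := volume.restrict (Ioi (0:ℝ)))
    (F := fun w r => s2a_F N α τ ep k w r - s2a_F N α τ em k w r)
    (F' := fun w r => s2a_F N α τ ep (k + 1) w r - s2a_F N α τ em (k + 1) w r)
    (bound := fun r => 2 * ((N * |τ| * r) ^ (k + 1) *
      Real.exp (-(N / 4) * r ^ 4 + N * |τ| * (‖w‖ + 1) * r)))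
    (Metric.ball_mem_nhds w one_pos) ?_ ?_ ?_ ?_ ?_ ?_).2
  · exact Eventually.of_forall fun w =>
      ((s2a_F_cont ep k w).sub (s2a_F_cont em k w)).aestronglyMeasurable
  · exact (s2a_F_int hp hN k w).sub (s2a_F_int hm hN k w)
  · exact ((s2a_F_cont ep (k + 1) w).sub (s2a_F_cont em (k + 1) w)).aestronglyMeasurable
  · filter_upwards [ae_restrict_mem measurableSet_Ioi] with r hr w' hw'
    have hn : ‖w'‖ ≤ ‖w‖ + 1 := by
      rw [Metric.mem_ball, dist_eq_norm] at hw'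
      calc ‖w'‖ = ‖w + (w' - w)‖ := by ring_nf
        _ ≤ ‖w‖ + ‖w' - w‖ := norm_add_le _ _
        _ ≤ ‖w‖ + 1 := by linarith
    calc ‖s2a_F N α τ ep (k + 1) w' r - s2a_F N α τ em (k + 1) w' r‖
        ≤ ‖s2a_F N α τ ep (k + 1) w' r‖ + ‖s2a_F N α τ em (k + 1) w' r‖ := norm_sub_le _ _
      _ ≤ _ := add_le_add (s2a_F_bound hp hN (k + 1) w' hn (le_of_lt hr))
          (s2a_F_bound hm hN (k + 1) w' hn (le_of_lt hr))
      _ = _ := by ring
  · exact (s2a_bound_int hN (N * |τ|) (N * |τ| * (‖w‖ + 1)) (k + 1)).const_mul 2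
  · refine Eventually.of_forall fun r w' _ => ?_
    have h : ∀ e : ℂ, HasDerivAt (fun w => s2a_F N α τ e k w r) (s2a_F N α τ e (k + 1) w' r) w' := by
      intro e
      unfold s2a_F
      refine (((s2a_gA_deriv_w (N := N) (α := α) (τ := τ) (e * (r : ℂ)) w').const_mul
        ((-(N * τ : ℝ) * (e * (r : ℂ))) ^ k)).const_mul e).congr_deriv ?_
      ring
    exact (h ep).sub (h em)

theorem Aj_ode (hN : 0 < N) (w : ℂ) : Aj N α τ 3 w =
    ((α * (N * τ) ^ 2 : ℝ) : ℂ) * Aj N α τ 1 w - ((N ^ 3 * τ ^ 4 : ℝ) : ℂ) * w * Aj N α τ 0 w := by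
  have hp : s2a_dir ep := Or.inl rfl
  have hm : s2a_dir em := Or.inr rfl
  have hint : ∀ k, IntegrableOn
      (fun r => s2a_F N α τ ep k w r - s2a_F N α τ em k w r) (Ioi 0) :=
    fun k => (s2a_F_int hp hN k w).sub (s2a_F_int hm hN k w)
  -- the total derivative
  have hder : ∀ e : ℂ, ∀ r : ℝ, ((-(N ^ 2 * τ ^ 3) : ℝ) : ℂ) *
      (e * ((N : ℂ) * ((e * (r : ℂ)) ^ 3 - (α : ℂ) * (e * (r : ℂ)) - (τ : ℂ) * w) *
        gA N α τ w (e * (r : ℂ)))) =
      s2a_F N α τ e 3 w r - ((α * (N * τ) ^ 2 : ℝ) : ℂ) * s2a_F N α τ e 1 w r +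
        ((N ^ 3 * τ ^ 4 : ℝ) : ℂ) * w * s2a_F N α τ e 0 w r := by
    intro e r
    unfold s2a_F
    push_cast
    ring
  have hlim : ∀ e : ℂ, s2a_dir e →
      Tendsto (fun r : ℝ => gA N α τ w (e * (r : ℂ))) atTop (𝓝 0) := by
    intro e he
    obtain ⟨K, hK, hy⟩ := s2a_young hN
    have h1 : Tendsto (fun r : ℝ => Real.exp (K * (N * |τ| * ‖w‖ + 1) ^ (4 / 3 : ℝ)) *
        Real.exp (-r)) atTop (𝓝 0) := by
      have := (Real.tendsto_exp_neg_atTop_nhds_zero).const_mul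
        (Real.exp (K * (N * |τ| * ‖w‖ + 1) ^ (4 / 3 : ℝ)))
      simpa using this
    refine squeeze_zero_norm' ?_ h1
    filter_upwards [eventually_ge_atTop 0] with r hr
    refine (s2a_norm_gA he hN w hr).trans ?_
    rw [← Real.exp_add]
    apply Real.exp_le_exp.2
    have := hy (N * |τ| * ‖w‖ + 1) r (by positivity) hr
    have h4 : 0 ≤ N / 8 * r ^ 4 := by positivity
    nlinarith
  have key : ∫ r in Ioi (0 : ℝ), (((-(N ^ 2 * τ ^ 3) : ℝ) : ℂ) *
      ((ep * ((N : ℂ) * ((ep * (r : ℂ)) ^ 3 - (α : ℂ) * (ep * (r : ℂ)) - (τ : ℂ) * w) *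
        gA N α τ w (ep * (r : ℂ)))) -
       (em * ((N : ℂ) * ((em * (r : ℂ)) ^ 3 - (α : ℂ) * (em * (r : ℂ)) - (τ : ℂ) * w) *
        gA N α τ w (em * (r : ℂ)))))) = 0 := by
    have h := integral_Ioi_of_hasDerivAt_of_tendsto' (a := (0 : ℝ)) (m := (0 : ℂ))
      (f := fun r : ℝ => ((-(N ^ 2 * τ ^ 3) : ℝ) : ℂ) *
        (gA N α τ w (ep * (r : ℂ)) - gA N α τ w (em * (r : ℂ))))
      (f' := fun r : ℝ => (((-(N ^ 2 * τ ^ 3) : ℝ) : ℂ) *
      ((ep * ((N : ℂ) * ((ep * (r : ℂ)) ^ 3 - (α : ℂ) * (ep * (r : ℂ)) - (τ : ℂ) * w) *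
        gA N α τ w (ep * (r : ℂ)))) -
       (em * ((N : ℂ) * ((em * (r : ℂ)) ^ 3 - (α : ℂ) * (em * (r : ℂ)) - (τ : ℂ) * w) *
        gA N α τ w (em * (r : ℂ)))))))
      (fun r _ => ((s2a_gA_deriv_r ep w r).sub (s2a_gA_deriv_r em w r)).const_mul _) ?_ ?_
    · rw [h]
      simp
    · have heq : (fun r : ℝ => (((-(N ^ 2 * τ ^ 3) : ℝ) : ℂ) *
          ((ep * ((N : ℂ) * ((ep * (r : ℂ)) ^ 3 - (α : ℂ) * (ep * (r : ℂ)) - (τ : ℂ) * w) *
            gA N α τ w (ep * (r : ℂ)))) -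
           (em * ((N : ℂ) * ((em * (r : ℂ)) ^ 3 - (α : ℂ) * (em * (r : ℂ)) - (τ : ℂ) * w) *
            gA N α τ w (em * (r : ℂ))))))) = fun r =>
          (s2a_F N α τ ep 3 w r - s2a_F N α τ em 3 w r) -
            ((α * (N * τ) ^ 2 : ℝ) : ℂ) * (s2a_F N α τ ep 1 w r - s2a_F N α τ em 1 w r) +
            ((N ^ 3 * τ ^ 4 : ℝ) : ℂ) * w * (s2a_F N α τ ep 0 w r - s2a_F N α τ em 0 w r) := by
        ext r
        rw [mul_sub, hder, hder]; ring
      rw [heq]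
      exact ((hint 3).sub ((hint 1).const_mul _)).add ((hint 0).const_mul _)
    · have := ((hlim ep hp).sub (hlim em hm)).const_mul ((-(N ^ 2 * τ ^ 3) : ℝ) : ℂ)
      simpa using this
  have heq2 : ∫ r in Ioi (0 : ℝ), (((-(N ^ 2 * τ ^ 3) : ℝ) : ℂ) *
      ((ep * ((N : ℂ) * ((ep * (r : ℂ)) ^ 3 - (α : ℂ) * (ep * (r : ℂ)) - (τ : ℂ) * w) *
        gA N α τ w (ep * (r : ℂ)))) -
       (em * ((N : ℂ) * ((em * (r : ℂ)) ^ 3 - (α : ℂ) * (em * (r : ℂ)) - (τ : ℂ) * w) *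
        gA N α τ w (em * (r : ℂ)))))) =
      (∫ r in Ioi (0 : ℝ), (s2a_F N α τ ep 3 w r - s2a_F N α τ em 3 w r)) -
        ((α * (N * τ) ^ 2 : ℝ) : ℂ) *
          (∫ r in Ioi (0 : ℝ), (s2a_F N α τ ep 1 w r - s2a_F N α τ em 1 w r)) +
        ((N ^ 3 * τ ^ 4 : ℝ) : ℂ) * w *
          (∫ r in Ioi (0 : ℝ), (s2a_F N α τ ep 0 w r - s2a_F N α τ em 0 w r)) := by
    have e1 := integral_sub (hint 3) ((hint 1).const_mul ((α * (N * τ) ^ 2 : ℝ) : ℂ))
    have e2 := integral_add ((hint 3).sub ((hint 1).const_mul ((α * (N * τ) ^ 2 : ℝ) : ℂ)))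
      ((hint 0).const_mul (((N ^ 3 * τ ^ 4 : ℝ) : ℂ) * w))
    simp only [Pi.sub_apply] at e2
    rw [← integral_const_mul, ← integral_const_mul, ← e1, ← e2]
    congr 1
    ext r
    rw [mul_sub, hder, hder]; ring
  rw [key] at heq2
  rw [s2a_Aj, s2a_Aj, s2a_Aj]
  have h5 : (∫ r in Ioi (0 : ℝ), (s2a_F N α τ ep 3 w r - s2a_F N α τ em 3 w r)) =
      ((α * (N * τ) ^ 2 : ℝ) : ℂ) *
          (∫ r in Ioi (0 : ℝ), (s2a_F N α τ ep 1 w r - s2a_F N α τ em 1 w r)) -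
        ((N ^ 3 * τ ^ 4 : ℝ) : ℂ) * w *
          (∫ r in Ioi (0 : ℝ), (s2a_F N α τ ep 0 w r - s2a_F N α τ em 0 w r)) := by
    linear_combination -heq2
  rw [h5]; ring

theorem Aj_conj (k : ℕ) (w : ℂ) : Aj N α τ k (conj w) = conj (Aj N α τ k w) := by
  rw [s2a_Aj, s2a_Aj, map_mul, ← integral_conj]
  have hg : ∀ v : ℂ, gA N α τ (conj w) (conj v) = conj (gA N α τ w v) := by
    intro v
    unfold gA
    rw [← Complex.exp_conj]
    have h2 : conj (2 : ℂ) = 2 := map_ofNat _ 2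
    have h4 : conj (4 : ℂ) = 4 := map_ofNat _ 4
    simp [h2, h4]
  have hF : ∀ e : ℂ, ∀ r : ℝ, conj (s2a_F N α τ e k w r) = s2a_F N α τ (conj e) k (conj w) r := by
    intro e r
    unfold s2a_F
    have h1 : conj e * (r : ℂ) = conj (e * (r : ℂ)) := by simp
    rw [h1, hg]
    simp
  have h2 : (fun r : ℝ => conj (s2a_F N α τ ep k w r - s2a_F N α τ em k w r)) =
      fun r => -(s2a_F N α τ ep k (conj w) r - s2a_F N α τ em k (conj w) r) := by
    ext r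
    rw [map_sub, hF, hF, s2a_conj_ep, s2a_conj_em]; ring
  rw [h2, integral_neg]
  have h3 : conj (2 : ℂ) = 2 := map_ofNat _ 2
  have h4 : conj ((2 * (π : ℂ) * Complex.I)⁻¹) = -(2 * (π : ℂ) * Complex.I)⁻¹ := by
    rw [map_inv₀, map_mul, map_mul, h3, Complex.conj_ofReal, Complex.conj_I, mul_neg, inv_neg]
  rw [h4, neg_mul_neg]

theorem Aj_growth (hN : 0 < N) : ∃ C : ℝ, 0 < C ∧ ∀ w : ℂ,
    ‖Aj N α τ 0 w‖ ≤ Real.exp (C * (1 + ‖w‖ ^ (4 / 3 : ℝ))) := by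
  have hp : s2a_dir ep := Or.inl rfl
  have hm : s2a_dir em := Or.inr rfl
  obtain ⟨K, hK, hy⟩ := s2a_young hN
  set J : ℝ := ∫ r in Ioi (0 : ℝ), 2 * Real.exp (-(N / 8) * r ^ 4) with hJ
  have hJint : IntegrableOn (fun r : ℝ => 2 * Real.exp (-(N / 8) * r ^ 4)) (Ioi 0) := by
    have := (s2a_bound_int (N := N / 2) (by positivity) 1 0 0).const_mul 2
    refine this.congr ?_
    filter_upwards with r
    simp only [pow_zero, one_mul]
    congr 2
    ring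
  have hJ0 : 0 ≤ J := integral_nonneg fun r => by positivity
  refine ⟨J + K * (N * |τ|) ^ (4 / 3 : ℝ) + 1, by positivity, fun w => ?_⟩
  have h1 : ‖Aj N α τ 0 w‖ ≤ Real.exp (K * (N * |τ| * ‖w‖) ^ (4 / 3 : ℝ)) * J := by
    rw [s2a_Aj, norm_mul]
    have h2 : ‖(2 * (π : ℂ) * Complex.I)⁻¹‖ ≤ 1 := by
      rw [norm_inv, norm_mul, norm_mul, Complex.norm_I, mul_one, Complex.norm_real,
        Real.norm_of_nonneg Real.pi_pos.le]
      simp only [Complex.norm_ofNat]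
      apply inv_le_one_of_one_le₀
      have := Real.pi_gt_three
      linarith
    have h3 : ‖∫ r in Ioi (0 : ℝ), (s2a_F N α τ ep 0 w r - s2a_F N α τ em 0 w r)‖ ≤
        Real.exp (K * (N * |τ| * ‖w‖) ^ (4 / 3 : ℝ)) * J := by
      rw [hJ, ← integral_const_mul]
      refine norm_integral_le_of_norm_le (hJint.const_mul _) ?_
      filter_upwards [ae_restrict_mem measurableSet_Ioi] with r hr
      have hr0 : 0 ≤ r := le_of_lt hr
      have hb : ∀ e : ℂ, s2a_dir e → ‖s2a_F N α τ e 0 w r‖ ≤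
          Real.exp (K * (N * |τ| * ‖w‖) ^ (4 / 3 : ℝ)) * Real.exp (-(N / 8) * r ^ 4) := by
        intro e he
        refine (s2a_F_bound he hN 0 w le_rfl hr0).trans ?_
        rw [pow_zero, one_mul, ← Real.exp_add]
        apply Real.exp_le_exp.2
        have := hy (N * |τ| * ‖w‖) r (by positivity) hr0
        linarith
      calc ‖s2a_F N α τ ep 0 w r - s2a_F N α τ em 0 w r‖
          ≤ ‖s2a_F N α τ ep 0 w r‖ + ‖s2a_F N α τ em 0 w r‖ := norm_sub_le _ _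
        _ ≤ _ := add_le_add (hb ep hp) (hb em hm)
        _ = _ := by ring
    calc ‖(2 * (π : ℂ) * Complex.I)⁻¹‖ * _ ≤ 1 * _ :=
          mul_le_mul h2 h3 (norm_nonneg _) zero_le_one
      _ = _ := one_mul _
  have h4 : J ≤ Real.exp J := by
    have := Real.add_one_le_exp J
    linarith
  calc ‖Aj N α τ 0 w‖ ≤ Real.exp (K * (N * |τ| * ‖w‖) ^ (4 / 3 : ℝ)) * J := h1
    _ ≤ Real.exp (K * (N * |τ| * ‖w‖) ^ (4 / 3 : ℝ)) * Real.exp J :=
        mul_le_mul_of_nonneg_left h4 (Real.exp_pos _).le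
    _ = Real.exp (K * (N * |τ| * ‖w‖) ^ (4 / 3 : ℝ) + J) := by rw [Real.exp_add]
    _ ≤ _ := by
      apply Real.exp_le_exp.2
      rw [Real.mul_rpow (by positivity) (norm_nonneg w)]
      have h5 : 0 ≤ ‖w‖ ^ (4 / 3 : ℝ) := by positivity
      have h6 : 0 ≤ (N * |τ|) ^ (4 / 3 : ℝ) := by positivity
      have h7 : 0 ≤ K * (N * |τ|) ^ (4 / 3 : ℝ) := by positivity
      nlinarith [mul_nonneg hJ0 h5]

end

end Pool.Agent.MP_941b23_mp
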