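import Pool.Agent.MP_941b23_mp.Defs2

/-!
# Row S2b: contour deformation for `A`, decay of `A`.
-/

namespace Pool.Agent.MP_941b23_mp

open MeasureTheory Set Filter Topology
open scoped ENNReal NNReal Real ComplexConjugate

noncomputable section

variable {N α τ : ℝ}

theorem s2b_ep_sq : ep ^ 2 = Complex.I := by
  have h2 : √2 * √2 = 2 := Real.mul_self_sqrt (by norm_num)
  rw [sq, ep]
  apply Complex.ext
  · simp
  · simp; nlinarith [h2]

theorem s2b_em_sq : em ^ 2 = -Complex.I := by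
  have h2 : √2 * √2 = 2 := Real.mul_self_sqrt (by norm_num)
  rw [sq, em]
  apply Complex.ext
  · simp
  · simp; nlinarith [h2]

theorem s2b_pow_four {e : ℂ} (he : e = ep ∨ e = em) : e ^ 4 = -1 := by
  have : e ^ 4 = (e ^ 2) ^ 2 := by ring
  rw [this]
  rcases he with rfl | rfl
  · rw [s2b_ep_sq, Complex.I_sq]
  · rw [s2b_em_sq, neg_sq, Complex.I_sq]

theorem s2b_norm {e : ℂ} (he : e = ep ∨ e = em) : ‖e‖ = 1 := by
  have h4 : ‖e‖ ^ 4 = 1 := by
    rw [← norm_pow, s2b_pow_four he, norm_neg, norm_one]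
  nlinarith [norm_nonneg e, sq_nonneg (‖e‖ - 1), sq_nonneg (‖e‖ + 1), sq_nonneg (‖e‖ ^ 2 - 1),
    pow_eq_one_iff_of_nonneg (norm_nonneg e) (show (4 : ℕ) ≠ 0 by norm_num) |>.1 h4]

/-- the integrand -/
def s2bh (N α τ : ℝ) (k : ℕ) (w v : ℂ) : ℂ := (-(N * τ : ℝ) * v) ^ k * gA N α τ w v

theorem s2b_diff (k : ℕ) (w : ℂ) : Differentiable ℂ (s2bh N α τ k w) := by
  unfold s2bh gA
  fun_prop

theorem s2b_cont (k : ℕ) (w : ℂ) : Continuous (s2bh N α τ k w) := (s2b_diff k w).continuous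

theorem s2b_poly {c A t : ℝ} (hc : 0 < c) (hA : 0 ≤ A) (ht : 0 ≤ t) :
    A * t ^ 3 ≤ c * t ^ 4 + A ^ 4 / c ^ 3 := by
  rcases le_total A (c * t) with h | h
  · have h1 : A * t ^ 3 ≤ c * t * t ^ 3 := by gcongr
    have h2 : 0 ≤ A ^ 4 / c ^ 3 := by positivity
    nlinarith
  · have h1 : t ≤ A / c := by rw [le_div_iff₀ hc]; linarith
    have h2 : A * t ^ 3 ≤ A * (A / c) ^ 3 := by gcongr
    have h3 : A * (A / c) ^ 3 = A ^ 4 / c ^ 3 := by field_simp
    have h4 : 0 ≤ c * t ^ 4 := by positivity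
    linarith

set_option maxHeartbeats 1000000 in
/-- uniform bound of the integrand along translated rays -/
theorem s2b_bound (hN : 0 < N) (k : ℕ) (w : ℂ) (B : ℝ) (hB : 0 ≤ B) {e : ℂ}
    (he : e = ep ∨ e = em) : ∃ C : ℝ, 0 < C ∧ ∀ u : ℂ, ‖u‖ ≤ B → ∀ r : ℝ, 0 ≤ r →
      ‖s2bh N α τ k w (u + e * (r : ℂ))‖ ≤ C * Real.exp (-r) := by
  have he4 := s2b_pow_four he
  have hen := s2b_norm he
  set A : ℝ := N * ((4 * B + 6 * B ^ 2 + 4 * B ^ 3 + B ^ 4) / 4 + |α| / 2 * (B + 1) ^ 2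
    + |τ| * ‖w‖ * (B + 1)) + |N * τ| * (B + 1) + 1 with hA
  have hA0 : 0 ≤ A := by positivity
  set M : ℝ := N / 4 + A ^ 4 / (N / 32) ^ 3 with hM
  refine ⟨k.factorial * Real.exp M, by positivity, fun u hu r hr => ?_⟩
  set v : ℂ := u + e * (r : ℂ) with hv
  have her : ‖e * (r : ℂ)‖ = r := by
    rw [norm_mul, hen, one_mul, Complex.norm_real, Real.norm_of_nonneg hr]
  have hvn : ‖v‖ ≤ B + r := by
    calc ‖v‖ ≤ ‖u‖ + ‖e * (r : ℂ)‖ := norm_add_le _ _
      _ ≤ B + r := by rw [her]; linarith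
  set t : ℝ := 1 + r with ht
  have ht1 : 1 ≤ t := by linarith
  have ht0 : 0 ≤ t := by linarith
  have hBt : B + r ≤ (B + 1) * t := by
    have e : (B + 1) * t = B + r + (1 + B * r) := by rw [ht]; ring
    have := mul_nonneg hB hr
    rw [e]; linarith only [this]
  have ht3 : t ≤ t ^ 3 := le_self_pow₀ ht1 (by norm_num)
  have ht23 : t ^ 2 ≤ t ^ 3 := pow_le_pow_right₀ ht1 (by norm_num)
  -- the exponent
  have hexp : ((N : ℂ) * (v ^ 4 / 4 - (α : ℂ) / 2 * v ^ 2 - (τ : ℂ) * w * v)).re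
      ≤ -(N / 4) * r ^ 4 + N * ((4 * B + 6 * B ^ 2 + 4 * B ^ 3 + B ^ 4) / 4
        + |α| / 2 * (B + 1) ^ 2 + |τ| * ‖w‖ * (B + 1)) * t ^ 3 := by
    set q : ℂ := (N : ℂ) * ((4 * u * (e * r) ^ 3 + 6 * u ^ 2 * (e * r) ^ 2
      + 4 * u ^ 3 * (e * r) + u ^ 4) / 4 - (α : ℂ) / 2 * v ^ 2 - (τ : ℂ) * w * v) with hq
    have e1 : (N : ℂ) * (v ^ 4 / 4 - (α : ℂ) / 2 * v ^ 2 - (τ : ℂ) * w * v) =
        ((-(N / 4) * r ^ 4 : ℝ) : ℂ) + q := by
      have h4 : (e * (r : ℂ)) ^ 4 = -(r : ℂ) ^ 4 := by rw [mul_pow, he4]; ring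
      have hv4 : v ^ 4 = 4 * u * (e * r) ^ 3 + 6 * u ^ 2 * (e * r) ^ 2
          + 4 * u ^ 3 * (e * r) + u ^ 4 - (r : ℂ) ^ 4 := by
        rw [hv]
        linear_combination h4
      rw [hv4, hq]
      push_cast
      ring
    rw [e1, Complex.add_re, Complex.ofReal_re]
    have h2 : q.re ≤ ‖q‖ := Complex.re_le_norm q
    have h3 : ‖q‖ ≤ N * ((4 * B * r ^ 3 + 6 * B ^ 2 * r ^ 2 + 4 * B ^ 3 * r + B ^ 4) / 4
        + |α| / 2 * (B + r) ^ 2 + |τ| * ‖w‖ * (B + r)) := by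
      rw [hq, norm_mul, Complex.norm_real, Real.norm_of_nonneg hN.le]
      gcongr
      refine (norm_sub_le _ _).trans (add_le_add ((norm_sub_le _ _).trans (add_le_add ?_ ?_)) ?_)
      · rw [norm_div, Complex.norm_ofNat]
        gcongr
        refine (norm_add_le _ _).trans (add_le_add ((norm_add_le _ _).trans (add_le_add
          ((norm_add_le _ _).trans (add_le_add ?_ ?_)) ?_)) ?_)
        · rw [norm_mul, norm_mul, norm_pow, her, Complex.norm_ofNat]
          gcongr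
        · rw [norm_mul, norm_mul, norm_pow, norm_pow, her, Complex.norm_ofNat]
          gcongr
        · rw [norm_mul, norm_mul, norm_pow, her, Complex.norm_ofNat]
          gcongr
        · rw [norm_pow]; gcongr
      · rw [norm_mul, norm_pow, norm_div, Complex.norm_real, Complex.norm_ofNat,
          Real.norm_eq_abs]
        gcongr
      · rw [norm_mul, norm_mul, Complex.norm_real, Real.norm_eq_abs]
        gcongr
    have h4 : N * ((4 * B * r ^ 3 + 6 * B ^ 2 * r ^ 2 + 4 * B ^ 3 * r + B ^ 4) / 4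
        + |α| / 2 * (B + r) ^ 2 + |τ| * ‖w‖ * (B + r)) ≤
        N * ((4 * B * t ^ 3 + 6 * B ^ 2 * t ^ 3 + 4 * B ^ 3 * t ^ 3 + B ^ 4 * t ^ 3) / 4
        + |α| / 2 * ((B + 1) ^ 2 * t ^ 3) + |τ| * ‖w‖ * ((B + 1) * t ^ 3)) := by
      have hrt : r ≤ t := by linarith
      have hr2 : r ^ 2 ≤ t ^ 3 := by
        calc r ^ 2 ≤ t ^ 2 := by gcongr
          _ ≤ t ^ 3 := ht23
      have hB2 : (B + r) ^ 2 ≤ (B + 1) ^ 2 * t ^ 3 := by
        calc (B + r) ^ 2 ≤ ((B + 1) * t) ^ 2 := by gcongr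
          _ = (B + 1) ^ 2 * t ^ 2 := by ring
          _ ≤ (B + 1) ^ 2 * t ^ 3 := by gcongr
      have hB1 : B + r ≤ (B + 1) * t ^ 3 := by
        calc B + r ≤ (B + 1) * t := hBt
          _ ≤ (B + 1) * t ^ 3 := by gcongr
      have h13 : (1 : ℝ) ≤ t ^ 3 := one_le_pow₀ ht1
      have hb4 : B ^ 4 ≤ B ^ 4 * t ^ 3 := le_mul_of_one_le_right (by positivity) h13
      have hr3 : r ≤ t ^ 3 := hrt.trans ht3
      gcongr
    have h5 : N * ((4 * B * t ^ 3 + 6 * B ^ 2 * t ^ 3 + 4 * B ^ 3 * t ^ 3 + B ^ 4 * t ^ 3) / 4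
        + |α| / 2 * ((B + 1) ^ 2 * t ^ 3) + |τ| * ‖w‖ * ((B + 1) * t ^ 3)) =
        N * ((4 * B + 6 * B ^ 2 + 4 * B ^ 3 + B ^ 4) / 4
        + |α| / 2 * (B + 1) ^ 2 + |τ| * ‖w‖ * (B + 1)) * t ^ 3 := by ring
    linarith
  have hpow : ‖(-(N * τ : ℝ) * v : ℂ) ^ k‖ ≤
      k.factorial * Real.exp (|N * τ| * (B + 1) * t ^ 3) := by
    have h1 : ‖(-(N * τ : ℝ) * v : ℂ)‖ ≤ |N * τ| * (B + r) := by
      rw [norm_mul, norm_neg, Complex.norm_real, Real.norm_eq_abs]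
      gcongr
    have h2 : |N * τ| * (B + r) ≤ |N * τ| * (B + 1) * t ^ 3 := by
      have : B + r ≤ (B + 1) * t ^ 3 := by
        calc B + r ≤ (B + 1) * t := hBt
          _ ≤ (B + 1) * t ^ 3 := by gcongr
      calc |N * τ| * (B + r) ≤ |N * τ| * ((B + 1) * t ^ 3) := by gcongr
        _ = _ := by ring
    set x : ℝ := |N * τ| * (B + 1) * t ^ 3 with hx
    have hx0 : 0 ≤ x := by positivity
    have h3 : x ^ k / k.factorial ≤ Real.exp x := Real.pow_div_factorial_le_exp x hx0 k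
    rw [norm_pow]
    calc ‖(-(N * τ : ℝ) * v : ℂ)‖ ^ k ≤ x ^ k := by
          gcongr
          exact h1.trans h2
      _ = k.factorial * (x ^ k / k.factorial) := by
          field_simp
      _ ≤ k.factorial * Real.exp x := by gcongr
  unfold s2bh gA
  rw [norm_mul, Complex.norm_exp]
  calc ‖(-(N * τ : ℝ) * v : ℂ) ^ k‖ * Real.exp
        ((N : ℂ) * (v ^ 4 / 4 - (α : ℂ) / 2 * v ^ 2 - (τ : ℂ) * w * v)).re
      ≤ (k.factorial * Real.exp (|N * τ| * (B + 1) * t ^ 3)) *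
        Real.exp (-(N / 4) * r ^ 4 + N * ((4 * B + 6 * B ^ 2 + 4 * B ^ 3 + B ^ 4) / 4
        + |α| / 2 * (B + 1) ^ 2 + |τ| * ‖w‖ * (B + 1)) * t ^ 3) := by gcongr
    _ = k.factorial * Real.exp (-(N / 4) * r ^ 4 + (A - 1) * t ^ 3) := by
        rw [mul_assoc, ← Real.exp_add]
        congr 2
        rw [hA]; ring
    _ ≤ k.factorial * Real.exp (M + -r) := by
        obtain ⟨Q, hQ⟩ : ∃ Q, Q = A ^ 4 / (N / 32) ^ 3 := ⟨_, rfl⟩
        have h1 : A * t ^ 3 ≤ N / 32 * t ^ 4 + Q := by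
          rw [hQ]
          exact s2b_poly (by positivity) hA0 ht0
        have h2 : t ^ 4 ≤ 8 * (1 + r ^ 4) := by
          rw [ht]
          have e : 8 * (1 + r ^ 4) - (1 + r) ^ 4 = (1 - r) ^ 2 * (7 * r ^ 2 + 10 * r + 7) := by
            ring
          have e2 : 0 ≤ (1 - r) ^ 2 * (7 * r ^ 2 + 10 * r + 7) := by positivity
          linarith only [e, e2]
        have h3 : r ≤ t ^ 3 := by linarith
        have h4 : N / 32 * t ^ 4 ≤ N / 32 * (8 * (1 + r ^ 4)) := by gcongr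
        have h5 : -(N / 4) * r ^ 4 + (A - 1) * t ^ 3 ≤ M + -r := by
          rw [hM, ← hQ]
          linarith only [h1, h3, h4]
        exact mul_le_mul_of_nonneg_left (Real.exp_le_exp.2 h5) (by positivity)
    _ = k.factorial * Real.exp M * Real.exp (-r) := by rw [Real.exp_add]; ring

theorem s2b_integrable (hN : 0 < N) (k : ℕ) (w : ℂ) {e : ℂ} (he : e = ep ∨ e = em) (v₀ : ℂ) :
    IntegrableOn (fun r : ℝ => e * s2bh N α τ k w (v₀ + e * (r : ℂ))) (Ioi 0) := by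
  obtain ⟨C, hC, hb⟩ := s2b_bound (α := α) (τ := τ) hN k w ‖v₀‖ (norm_nonneg _) he
  have hi : IntegrableOn (fun r : ℝ => C * Real.exp (-r)) (Ioi 0) := by
    have h := exp_neg_integrableOn_Ioi 0 one_pos
    simp only [neg_mul, one_mul] at h
    exact Integrable.const_mul h C
  refine Integrable.mono' hi ?_ ?_
  · apply Continuous.aestronglyMeasurable
    have := s2b_cont (N := N) (α := α) (τ := τ) k w
    fun_prop
  · rw [ae_restrict_iff' measurableSet_Ioi]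
    refine Eventually.of_forall fun r hr => ?_
    rw [norm_mul, s2b_norm he, one_mul]
    exact hb v₀ le_rfl r (le_of_lt hr)

theorem s2b_shift (hN : 0 < N) (k : ℕ) (w : ℂ) (e : ℂ) (he : e = ep ∨ e = em) (v₀ v₁ : ℂ) :
    ray e (s2bh N α τ k w) v₁ = ray e (s2bh N α τ k w) v₀ +
      ∫ s in (0 : ℝ)..1, (v₀ - v₁) * s2bh N α τ k w (v₁ + s * (v₀ - v₁)) := by
  set h := s2bh N α τ k w with hh
  obtain ⟨G, hG⟩ := (s2b_diff (N := N) (α := α) (τ := τ) k w).isExactOn_univ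
  have hG' : ∀ z, HasDerivAt G (h z) z := fun z => hG z (mem_univ z)
  have hcont : Continuous h := s2b_cont k w
  -- integral along a segment
  have hseg : ∀ a b : ℂ, ∫ s in (0 : ℝ)..1, b * h (a + s * b) = G (a + b) - G a := by
    intro a b
    have hd : ∀ s ∈ uIcc (0 : ℝ) 1, HasDerivAt (fun s : ℝ => G (a + s * b)) (b * h (a + s * b)) s := by
      intro s _
      have h1 : HasDerivAt (fun s : ℝ => a + (s : ℂ) * b) b s := by
        have := (((hasDerivAt_id s).ofReal_comp).mul_const b).const_add a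
        simpa using this
      have := (hG' (a + s * b)).comp_of_eq (𝕜 := ℝ) (𝕜' := ℂ) s h1 rfl
      rw [mul_comm] at this
      exact this
    have hint : IntervalIntegrable (fun s : ℝ => b * h (a + s * b)) volume 0 1 := by
      apply Continuous.intervalIntegrable
      fun_prop
    rw [intervalIntegral.integral_eq_sub_of_hasDerivAt hd hint]
    simp
  have hray : ∀ (a : ℂ) (R : ℝ), ∫ r in (0 : ℝ)..R, e * h (a + e * (r : ℂ)) =
      G (a + e * R) - G a := by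
    intro a R
    have hd : ∀ s ∈ uIcc (0 : ℝ) R, HasDerivAt (fun s : ℝ => G (a + e * s)) (e * h (a + e * s)) s := by
      intro s _
      have h1 : HasDerivAt (fun s : ℝ => a + e * (s : ℂ)) e s := by
        have := (((hasDerivAt_id s).ofReal_comp).const_mul e).const_add a
        simpa using this
      have := (hG' (a + e * s)).comp_of_eq (𝕜 := ℝ) (𝕜' := ℂ) s h1 rfl
      rw [mul_comm] at this
      exact this
    have hint : IntervalIntegrable (fun s : ℝ => e * h (a + e * s)) volume 0 R := by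
      apply Continuous.intervalIntegrable
      fun_prop
    rw [intervalIntegral.integral_eq_sub_of_hasDerivAt hd hint]
    simp
  have hlim : ∀ a : ℂ, Tendsto (fun R : ℝ => G (a + e * R) - G a) atTop (𝓝 (ray e h a)) := by
    intro a
    have := intervalIntegral_tendsto_integral_Ioi (0 : ℝ)
      (s2b_integrable (α := α) (τ := τ) hN k w he a) tendsto_id
    simp only [id, ← hh, hray] at this
    exact this
  -- the far segment
  obtain ⟨C, hC, hb⟩ := s2b_bound (α := α) (τ := τ) hN k w (‖v₁‖ + ‖v₀ - v₁‖) (by positivity) he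
  have hfar : Tendsto (fun R : ℝ => G (v₀ + e * R) - G (v₁ + e * R)) atTop (𝓝 0) := by
    have h0 : Tendsto (fun R : ℝ => ‖v₀ - v₁‖ * (C * Real.exp (-R))) atTop (𝓝 0) := by
      have := ((Real.tendsto_exp_neg_atTop_nhds_zero).const_mul C).const_mul ‖v₀ - v₁‖
      simpa using this
    refine squeeze_zero_norm' ?_ h0
    filter_upwards [eventually_ge_atTop (0 : ℝ)] with R hR
    have e1 : G (v₀ + e * R) - G (v₁ + e * R) =
        ∫ s in (0 : ℝ)..1, (v₀ - v₁) * h ((v₁ + e * R) + s * (v₀ - v₁)) := by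
      rw [hseg]
      congr 2
      ring
    rw [e1]
    have h1 : ‖∫ s in (0 : ℝ)..1, (v₀ - v₁) * h ((v₁ + e * R) + s * (v₀ - v₁))‖ ≤
        ‖v₀ - v₁‖ * (C * Real.exp (-R)) * |(1 : ℝ) - 0| := by
      apply intervalIntegral.norm_integral_le_of_norm_le_const
      intro s hs
      rw [uIoc_of_le zero_le_one] at hs
      rw [norm_mul]
      gcongr
      have e2 : (v₁ + e * R) + s * (v₀ - v₁) = (v₁ + s * (v₀ - v₁)) + e * R := by ring
      rw [e2]
      apply hb _ _ R hR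
      calc ‖v₁ + s * (v₀ - v₁)‖ ≤ ‖v₁‖ + ‖(s : ℂ) * (v₀ - v₁)‖ := norm_add_le _ _
        _ ≤ ‖v₁‖ + ‖v₀ - v₁‖ := by
          gcongr
          rw [norm_mul, Complex.norm_real, Real.norm_of_nonneg hs.1.le]
          exact mul_le_of_le_one_left (norm_nonneg _) hs.2
    simpa using h1
  have hsum : Tendsto (fun R : ℝ => (G (v₀ + e * R) - G v₀) - (G (v₀ + e * R) - G (v₁ + e * R))
      + (G v₀ - G v₁)) atTop (𝓝 (ray e h v₀ - 0 + (G v₀ - G v₁))) :=
    ((hlim v₀).sub hfar).add_const _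
  have hlim1 := hlim v₁
  have e3 : (fun R : ℝ => (G (v₀ + e * R) - G v₀) - (G (v₀ + e * R) - G (v₁ + e * R))
      + (G v₀ - G v₁)) = fun R : ℝ => G (v₁ + e * R) - G v₁ := by
    funext R; ring
  rw [e3] at hsum
  have e4 := tendsto_nhds_unique hlim1 hsum
  rw [e4, hseg v₁ (v₀ - v₁), sub_zero]
  congr 3
  ring

/-- moving the starting point of a ray (`e = ep` or `e = em`) -/
theorem ray_shift (hN : 0 < N) (k : ℕ) (w : ℂ) (e : ℂ) (he : e = ep ∨ e = em) (v₀ v₁ : ℂ) :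
    ray e (fun v => (-(N * τ : ℝ) * v) ^ k * gA N α τ w v) v₁ =
      ray e (fun v => (-(N * τ : ℝ) * v) ^ k * gA N α τ w v) v₀ +
      ∫ s in (0 : ℝ)..1, (v₀ - v₁) *
        ((-(N * τ : ℝ) * (v₁ + s * (v₀ - v₁))) ^ k * gA N α τ w (v₁ + s * (v₀ - v₁))) :=
  s2b_shift hN k w e he v₀ v₁

theorem s2b_Aj (hN : 0 < N) (k : ℕ) (w : ℂ) : Aj N α τ k w =
    (2 * (π : ℂ) * Complex.I)⁻¹ *
      (ray ep (s2bh N α τ k w) 0 - ray em (s2bh N α τ k w) 0) := by
  unfold Aj ray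
  rw [← integral_sub (s2b_integrable hN k w (Or.inl rfl) 0)
    (s2b_integrable hN k w (Or.inr rfl) 0)]
  simp only [zero_add]
  rfl

/-- the contour may be replaced by: ray from `v₀` in direction `ep`, segment `[v₁, v₀]`, ray from
`v₁` in direction `em`. -/
theorem Aj_contour (hN : 0 < N) (k : ℕ) (w v₀ v₁ : ℂ) : Aj N α τ k w =
    (2 * (π : ℂ) * Complex.I)⁻¹ *
      (ray ep (fun v => (-(N * τ : ℝ) * v) ^ k * gA N α τ w v) v₀
      - ray em (fun v => (-(N * τ : ℝ) * v) ^ k * gA N α τ w v) v₁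
      + ∫ s in (0 : ℝ)..1, (v₀ - v₁) *
        ((-(N * τ : ℝ) * (v₁ + s * (v₀ - v₁))) ^ k * gA N α τ w (v₁ + s * (v₀ - v₁)))) := by
  change Aj N α τ k w = (2 * (π : ℂ) * Complex.I)⁻¹ *
      (ray ep (s2bh N α τ k w) v₀ - ray em (s2bh N α τ k w) v₁
      + ∫ s in (0 : ℝ)..1, (v₀ - v₁) * s2bh N α τ k w (v₁ + s * (v₀ - v₁)))
  obtain ⟨G, hG⟩ := (s2b_diff (N := N) (α := α) (τ := τ) k w).isExactOn_univ
  have hG' : ∀ z, HasDerivAt G (s2bh N α τ k w z) z := fun z => hG z (mem_univ z)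
  have hcont : Continuous (s2bh N α τ k w) := s2b_cont k w
  have hseg : ∀ a b : ℂ, ∫ s in (0 : ℝ)..1, b * s2bh N α τ k w (a + s * b) =
      G (a + b) - G a := by
    intro a b
    have hd : ∀ s ∈ uIcc (0 : ℝ) 1, HasDerivAt (fun s : ℝ => G (a + s * b))
        (b * s2bh N α τ k w (a + s * b)) s := by
      intro s _
      have h1 : HasDerivAt (fun s : ℝ => a + (s : ℂ) * b) b s := by
        have := (((hasDerivAt_id s).ofReal_comp).mul_const b).const_add a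
        simpa using this
      have := (hG' (a + s * b)).comp_of_eq (𝕜 := ℝ) (𝕜' := ℂ) s h1 rfl
      rw [mul_comm] at this
      exact this
    have hint : IntervalIntegrable (fun s : ℝ => b * s2bh N α τ k w (a + s * b)) volume 0 1 := by
      apply Continuous.intervalIntegrable
      fun_prop
    rw [intervalIntegral.integral_eq_sub_of_hasDerivAt hd hint]
    simp
  rw [s2b_Aj hN, s2b_shift hN k w ep (Or.inl rfl) v₀ 0, s2b_shift hN k w em (Or.inr rfl) v₁ 0,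
    hseg, hseg, hseg]
  congr 1
  have e1 : (0 : ℂ) + (v₀ - 0) = v₀ := by ring
  have e2 : (0 : ℂ) + (v₁ - 0) = v₁ := by ring
  have e3 : v₁ + (v₀ - v₁) = v₀ := by ring
  rw [e1, e2, e3]
  ring

/-- decay in the sector `|arg w| ≤ π/4` faster than any exponential. -/
theorem Aj_decay (hN : 0 < N) (hτ : 0 < τ) (k : ℕ) (c : ℝ) : ∃ C : ℝ, ∀ w : ℂ,
    |w.im| ≤ w.re → ‖Aj N α τ k w‖ ≤ C * Real.exp (-(c * w.re)) := by
  set R : ℝ := c / (N * τ) with hR
  obtain ⟨C₁, hC₁, hb₁⟩ := s2b_bound (α := α) (τ := τ) hN k 0 ‖(R : ℂ)‖ (norm_nonneg _)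
    (e := ep) (Or.inl rfl)
  obtain ⟨C₂, hC₂, hb₂⟩ := s2b_bound (α := α) (τ := τ) hN k 0 ‖(R : ℂ)‖ (norm_nonneg _)
    (e := em) (Or.inr rfl)
  have hkey : ∀ (w v : ℂ), ‖s2bh N α τ k w v‖ =
      ‖s2bh N α τ k 0 v‖ * Real.exp (-(N * τ * (w * v).re)) := by
    intro w v
    have e1 : s2bh N α τ k w v =
        s2bh N α τ k 0 v * Complex.exp (((-(N * τ) : ℝ) : ℂ) * (w * v)) := by
      unfold s2bh gA
      rw [mul_assoc ((-(N * τ : ℝ) * v : ℂ) ^ k), ← Complex.exp_add]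
      congr 2
      push_cast
      ring
    rw [e1, norm_mul, Complex.norm_exp, Complex.re_ofReal_mul]
    congr 2
    ring
  have hre : ∀ (e : ℂ), (e = ep ∨ e = em) → ∀ w : ℂ, |w.im| ≤ w.re → ∀ r : ℝ, 0 ≤ r →
      R * w.re ≤ (w * ((R : ℂ) + e * (r : ℂ))).re := by
    intro e he w hw r hr
    have h1 : (w * ((R : ℂ) + e * (r : ℂ))).re = R * w.re + r * (w.re * e.re - w.im * e.im) := by
      simp only [Complex.mul_re, Complex.add_re, Complex.add_im, Complex.ofReal_re,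
        Complex.ofReal_im, Complex.mul_im]
      ring
    rw [h1]
    have h2 : 0 ≤ w.re * e.re - w.im * e.im := by
      have h3 := abs_le.1 hw
      have hs : 0 ≤ √2 / 2 := by positivity
      rcases he with rfl | rfl
      · simp only [ep]
        nlinarith
      · simp only [em]
        nlinarith
    nlinarith [mul_nonneg hr h2]
  have hray : ∀ (e : ℂ) (he : e = ep ∨ e = em) (C : ℝ), 0 < C →
      (∀ u : ℂ, ‖u‖ ≤ ‖(R : ℂ)‖ → ∀ r : ℝ, 0 ≤ r →
        ‖s2bh N α τ k 0 (u + e * (r : ℂ))‖ ≤ C * Real.exp (-r)) →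
      ∀ w : ℂ, |w.im| ≤ w.re →
        ‖ray e (s2bh N α τ k w) (R : ℂ)‖ ≤ C * Real.exp (-(c * w.re)) := by
    intro e he C hC hb w hw
    unfold ray
    have hi : IntegrableOn (fun r : ℝ => C * Real.exp (-(c * w.re)) * Real.exp (-r)) (Ioi 0) := by
      have h := exp_neg_integrableOn_Ioi 0 one_pos
      simp only [neg_mul, one_mul] at h
      exact Integrable.const_mul h _
    have h1 : ‖∫ r in Ioi (0 : ℝ), e * s2bh N α τ k w ((R : ℂ) + e * (r : ℂ))‖ ≤
        ∫ r in Ioi (0 : ℝ), C * Real.exp (-(c * w.re)) * Real.exp (-r) := by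
      apply norm_integral_le_of_norm_le hi
      rw [ae_restrict_iff' measurableSet_Ioi]
      refine Eventually.of_forall fun r hr => ?_
      have hr0 : 0 ≤ r := le_of_lt hr
      rw [norm_mul, s2b_norm he, one_mul, hkey]
      have h2 := hb (R : ℂ) le_rfl r hr0
      have h3 : Real.exp (-(N * τ * (w * ((R : ℂ) + e * (r : ℂ))).re)) ≤
          Real.exp (-(c * w.re)) := by
        have h4 := hre e he w hw r hr0
        have h5 : 0 < N * τ := by positivity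
        have h6 : c * w.re ≤ N * τ * (w * ((R : ℂ) + e * (r : ℂ))).re := by
          calc c * w.re = N * τ * (R * w.re) := by rw [hR]; field_simp
            _ ≤ N * τ * (w * ((R : ℂ) + e * (r : ℂ))).re := by gcongr
        exact Real.exp_le_exp.2 (neg_le_neg h6)
      calc ‖s2bh N α τ k 0 ((R : ℂ) + e * (r : ℂ))‖ *
            Real.exp (-(N * τ * (w * ((R : ℂ) + e * (r : ℂ))).re))
          ≤ (C * Real.exp (-r)) * Real.exp (-(c * w.re)) := by gcongr
        _ = _ := by ring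
    refine h1.trans ?_
    rw [integral_const_mul]
    have h2 : ∫ r in Ioi (0 : ℝ), Real.exp (-r) = 1 := by
      have := integral_exp_neg_Ioi (0 : ℝ)
      simpa using this
    rw [h2, mul_one]
  refine ⟨‖(2 * (π : ℂ) * Complex.I)⁻¹‖ * (C₁ + C₂), fun w hw => ?_⟩
  have h := Aj_contour (α := α) (τ := τ) hN k w (R : ℂ) (R : ℂ)
  rw [h]
  have h0 : (∫ s in (0 : ℝ)..1, ((R : ℂ) - R) *
        ((-(N * τ : ℝ) * (R + s * ((R : ℂ) - R))) ^ k * gA N α τ w (R + s * ((R : ℂ) - R)))) = 0 := by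
    simp
  rw [h0, add_zero, norm_mul]
  refine (mul_le_mul_of_nonneg_left ?_ (norm_nonneg _)).trans (le_of_eq (mul_assoc _ _ _).symm)
  calc ‖ray ep (s2bh N α τ k w) (R : ℂ) - ray em (s2bh N α τ k w) (R : ℂ)‖
      ≤ ‖ray ep (s2bh N α τ k w) (R : ℂ)‖ + ‖ray em (s2bh N α τ k w) (R : ℂ)‖ := norm_sub_le _ _
    _ ≤ C₁ * Real.exp (-(c * w.re)) + C₂ * Real.exp (-(c * w.re)) :=
      add_le_add (hray ep (Or.inl rfl) C₁ hC₁ hb₁ w hw) (hray em (Or.inr rfl) C₂ hC₂ hb₂ w hw)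
    _ = (C₁ + C₂) * Real.exp (-(c * w.re)) := by ring

end

end Pool.Agent.MP_941b23_mp
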