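import Pool.Agent.MP_941b23_mp.Defs2
import Pool.Agent.MP_941b23_mp.S1
import Pool.Agent.MP_941b23_mp.S2a

/-!
[QM-S4a] initial values of `A` and `f`: derivative in `α`.
-/

namespace Pool.Agent.MP_941b23_mp

open MeasureTheory Set Filter Topology
open scoped ENNReal NNReal Real ComplexConjugate

noncomputable section

variable {N α τ : ℝ}

/-- moments of `exp(-N r^4/4 + c r^2)` -/
def s4a_M (N : ℝ) (s : Set ℝ) (k : ℕ) (c : ℂ) : ℂ :=
  ∫ r in s, (r : ℂ) ^ k * Complex.exp (-(N : ℂ) * (r : ℂ) ^ 4 / 4 + c * (r : ℂ) ^ 2)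

theorem s4a_bd (hN : 0 < N) (B r : ℝ) : -N * r ^ 4 / 4 + B * r ^ 2 ≤ (B + 1) ^ 2 / N - r ^ 2 := by
  have h1 : (B + 1) ^ 2 / N - r ^ 2 - (-N * r ^ 4 / 4 + B * r ^ 2) =
      (N * r ^ 2 / 2 - (B + 1)) ^ 2 / N := by
    field_simp
    ring
  have h2 : 0 ≤ (N * r ^ 2 / 2 - (B + 1)) ^ 2 / N := by positivity
  linarith

theorem s4a_norm (N : ℝ) (k : ℕ) (c : ℂ) (r : ℝ) :
    ‖(r : ℂ) ^ k * Complex.exp (-(N : ℂ) * (r : ℂ) ^ 4 / 4 + c * (r : ℂ) ^ 2)‖ =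
      |r| ^ k * Real.exp (-N * r ^ 4 / 4 + c.re * r ^ 2) := by
  rw [norm_mul, norm_pow, Complex.norm_real, Complex.norm_exp, Real.norm_eq_abs]
  congr 2
  have h1 : -(N : ℂ) * (r : ℂ) ^ 4 / 4 + c * (r : ℂ) ^ 2 =
      ((-N * r ^ 4 / 4 : ℝ) : ℂ) + c * ((r ^ 2 : ℝ) : ℂ) := by
    push_cast
    ring
  rw [h1, Complex.add_re, Complex.ofReal_re, Complex.re_mul_ofReal]

theorem s4a_bound_integrable (k : ℕ) (K : ℝ) (s : Set ℝ) :
    IntegrableOn (fun r : ℝ => |r| ^ k * Real.exp (K - r ^ 2)) s := by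
  have h1 := integrable_rpow_mul_exp_neg_mul_sq (b := 1) one_pos (s := (k : ℝ))
    (by have : (0 : ℝ) ≤ k := Nat.cast_nonneg k
        linarith)
  have h2 := (h1.norm.const_mul (Real.exp K)).integrableOn (s := s)
  refine Integrable.congr h2 ?_
  filter_upwards with r
  rw [Real.rpow_natCast, norm_mul, norm_pow, Real.norm_eq_abs, Real.norm_eq_abs, Real.abs_exp,
    sub_eq_add_neg, Real.exp_add, neg_mul, one_mul]
  ring

theorem s4a_cont (N : ℝ) (k : ℕ) (c : ℂ) : Continuous (fun r : ℝ =>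
    (r : ℂ) ^ k * Complex.exp (-(N : ℂ) * (r : ℂ) ^ 4 / 4 + c * (r : ℂ) ^ 2)) := by
  fun_prop

theorem s4a_le (hN : 0 < N) (k : ℕ) (c : ℂ) (B : ℝ) (hB : c.re ≤ B) (r : ℝ) :
    ‖(r : ℂ) ^ k * Complex.exp (-(N : ℂ) * (r : ℂ) ^ 4 / 4 + c * (r : ℂ) ^ 2)‖ ≤
      |r| ^ k * Real.exp ((B + 1) ^ 2 / N - r ^ 2) := by
  rw [s4a_norm]
  apply mul_le_mul_of_nonneg_left _ (by positivity)
  apply Real.exp_le_exp.2
  have h1 := s4a_bd hN B r
  have h2 : c.re * r ^ 2 ≤ B * r ^ 2 := mul_le_mul_of_nonneg_right hB (sq_nonneg r)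
  linarith

theorem s4a_integrable (hN : 0 < N) (s : Set ℝ) (k : ℕ) (c : ℂ) : IntegrableOn (fun r : ℝ =>
    (r : ℂ) ^ k * Complex.exp (-(N : ℂ) * (r : ℂ) ^ 4 / 4 + c * (r : ℂ) ^ 2)) s := by
  apply Integrable.mono' (s4a_bound_integrable k ((c.re + 1) ^ 2 / N) s)
    (s4a_cont N k c).aestronglyMeasurable
  filter_upwards with r
  exact s4a_le hN k c c.re le_rfl r

theorem s4a_M_deriv (hN : 0 < N) (s : Set ℝ) (k : ℕ) (c : ℂ) :
    HasDerivAt (s4a_M N s k) (s4a_M N s (k + 2) c) c := by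
  have h := hasDerivAt_integral_of_dominated_loc_of_deriv_le (μ := volume.restrict s)
    (F := fun (c : ℂ) (r : ℝ) =>
      (r : ℂ) ^ k * Complex.exp (-(N : ℂ) * (r : ℂ) ^ 4 / 4 + c * (r : ℂ) ^ 2))
    (F' := fun (c : ℂ) (r : ℝ) =>
      (r : ℂ) ^ (k + 2) * Complex.exp (-(N : ℂ) * (r : ℂ) ^ 4 / 4 + c * (r : ℂ) ^ 2))
    (x₀ := c) (s := Metric.ball c 1)
    (bound := fun r => |r| ^ (k + 2) * Real.exp ((c.re + 1 + 1) ^ 2 / N - r ^ 2))
    (Metric.ball_mem_nhds c one_pos)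
    (Eventually.of_forall fun c' => (s4a_cont N k c').aestronglyMeasurable)
    (s4a_integrable hN s k c) (s4a_cont N (k + 2) c).aestronglyMeasurable ?_
    (s4a_bound_integrable (k + 2) _ s) ?_
  · exact h.2
  · filter_upwards with r c' hc'
    apply s4a_le hN
    have h1 : c'.re - c.re ≤ ‖c' - c‖ := by
      rw [← Complex.sub_re]
      exact Complex.re_le_norm _
    rw [mem_ball_iff_norm] at hc'
    linarith
  · filter_upwards with r c' hc'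
    have h1 : HasDerivAt (fun c : ℂ => -(N : ℂ) * (r : ℂ) ^ 4 / 4 + c * (r : ℂ) ^ 2)
        ((r : ℂ) ^ 2) c' := by
      simpa using ((hasDerivAt_id c').mul_const ((r : ℂ) ^ 2)).const_add
        (-(N : ℂ) * (r : ℂ) ^ 4 / 4)
    have h2 := h1.cexp.const_mul ((r : ℂ) ^ k)
    refine h2.congr_deriv ?_
    rw [pow_add]
    ring

theorem s4a_fj (N α τ : ℝ) (k : ℕ) :
    fj N α τ k 0 = ((N * τ : ℝ) : ℂ) ^ k * s4a_M N univ k (-(N * α / 2 : ℝ)) := by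
  unfold fj s4a_M
  rw [Measure.restrict_univ, ← integral_const_mul]
  congr 1
  ext y
  push_cast
  rw [mul_pow, mul_assoc]
  congr 2
  congr 1
  ring

theorem s4a_ep2 : ep ^ 2 = Complex.I := by
  have h2 : √2 * √2 = 2 := Real.mul_self_sqrt (by norm_num)
  apply Complex.ext
  · simp [ep, pow_two]
  · simp [ep, pow_two]
    linarith

theorem s4a_em2 : em ^ 2 = -Complex.I := by
  have h2 : √2 * √2 = 2 := Real.mul_self_sqrt (by norm_num)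
  apply Complex.ext
  · simp [em, pow_two]
  · simp [em, pow_two]
    linarith

theorem s4a_Aj (hN : 0 < N) (α τ : ℝ) (k : ℕ) :
    Aj N α τ k 0 = (2 * (π : ℂ) * Complex.I)⁻¹ * ((-(N * τ : ℝ) : ℂ) ^ k *
      (ep ^ (k + 1) * s4a_M N (Ioi 0) k (-(N * α / 2 : ℝ) * Complex.I) -
       em ^ (k + 1) * s4a_M N (Ioi 0) k ((N * α / 2 : ℝ) * Complex.I))) := by
  unfold Aj
  congr 1
  unfold s4a_M
  rw [← integral_const_mul, ← integral_const_mul, ← integral_sub, ← integral_const_mul]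
  · congr 1
    ext r
    have e4 : ep ^ 4 = -1 := by
      have : ep ^ 4 = (ep ^ 2) ^ 2 := by ring
      rw [this, s4a_ep2, Complex.I_sq]
    have e4' : em ^ 4 = -1 := by
      have : em ^ 4 = (em ^ 2) ^ 2 := by ring
      rw [this, s4a_em2, neg_sq, Complex.I_sq]
    have g1 : gA N α τ 0 (ep * (r : ℂ)) = Complex.exp (-(N : ℂ) * (r : ℂ) ^ 4 / 4 +
        (-(N * α / 2 : ℝ) * Complex.I) * (r : ℂ) ^ 2) := by
      unfold gA
      congr 1
      rw [mul_pow, mul_pow, e4, s4a_ep2]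
      push_cast
      ring
    have g2 : gA N α τ 0 (em * (r : ℂ)) = Complex.exp (-(N : ℂ) * (r : ℂ) ^ 4 / 4 +
        ((N * α / 2 : ℝ) * Complex.I) * (r : ℂ) ^ 2) := by
      unfold gA
      congr 1
      rw [mul_pow, mul_pow, e4', s4a_em2]
      push_cast
      ring
    rw [g1, g2]
    push_cast
    ring
  · exact (s4a_integrable hN _ _ _).const_mul _
  · exact (s4a_integrable hN _ _ _).const_mul _

/-- `κ = 1/(2 N τ²)` -/
theorem s4a_fj_deriv (hN : 0 < N) (hτ : 0 < τ) (k : ℕ) (α : ℝ) :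
    HasDerivAt (fun α : ℝ => fj N α τ k 0)
      (-(1 / (2 * N * τ ^ 2) : ℝ) * fj N α τ (k + 2) 0) α := by
  have h1 : HasDerivAt (fun α : ℝ => ((-(N * α / 2) : ℝ) : ℂ)) ((-(N / 2) : ℝ) : ℂ) α := by
    apply HasDerivAt.ofReal_comp
    have := ((hasDerivAt_id α).const_mul N).div_const 2
    have h5 : HasDerivAt (fun α : ℝ => N * α / 2) (N / 2) α := by simpa using this
    exact h5.neg
  have h2 := (s4a_M_deriv hN univ k ((-(N * α / 2) : ℝ) : ℂ)).comp α h1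
  have h3 : HasDerivAt (fun α : ℝ => ((N * τ : ℝ) : ℂ) ^ k *
      s4a_M N univ k ((-(N * α / 2) : ℝ) : ℂ))
      (((N * τ : ℝ) : ℂ) ^ k * (s4a_M N univ (k + 2) ((-(N * α / 2) : ℝ) : ℂ) *
        ((-(N / 2) : ℝ) : ℂ))) α := h2.const_mul _
  have h4 : (fun α : ℝ => fj N α τ k 0) = fun α : ℝ => ((N * τ : ℝ) : ℂ) ^ k *
      s4a_M N univ k ((-(N * α / 2) : ℝ) : ℂ) := by
    ext α
    rw [s4a_fj]
    simp
  rw [h4]
  refine h3.congr_deriv ?_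
  rw [s4a_fj]
  have hN' : (N : ℂ) ≠ 0 := by exact_mod_cast hN.ne'
  have hτ' : (τ : ℂ) ≠ 0 := by exact_mod_cast hτ.ne'
  push_cast
  rw [pow_add]
  field_simp

theorem s4a_Aj_deriv (hN : 0 < N) (hτ : 0 < τ) (k : ℕ) (α : ℝ) :
    HasDerivAt (fun α : ℝ => Aj N α τ k 0)
      (-(1 / (2 * N * τ ^ 2) : ℝ) * Aj N α τ (k + 2) 0) α := by
  have h1 : HasDerivAt (fun α : ℝ => (-(N * α / 2 : ℝ) * Complex.I : ℂ))
      (-(N / 2 : ℝ) * Complex.I) α := by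
    have h0 : HasDerivAt (fun α : ℝ => ((N * α / 2 : ℝ) : ℂ)) ((N / 2 : ℝ) : ℂ) α := by
      apply HasDerivAt.ofReal_comp
      have := ((hasDerivAt_id α).const_mul N).div_const 2
      simpa using this
    exact h0.neg.mul_const _
  have h1' : HasDerivAt (fun α : ℝ => ((N * α / 2 : ℝ) * Complex.I : ℂ))
      ((N / 2 : ℝ) * Complex.I) α := by
    have h0 : HasDerivAt (fun α : ℝ => ((N * α / 2 : ℝ) : ℂ)) ((N / 2 : ℝ) : ℂ) α := by
      apply HasDerivAt.ofReal_comp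
      have := ((hasDerivAt_id α).const_mul N).div_const 2
      simpa using this
    exact h0.mul_const _
  have h2 := (s4a_M_deriv hN (Ioi 0) k (-(N * α / 2 : ℝ) * Complex.I)).comp α h1
  have h2' := (s4a_M_deriv hN (Ioi 0) k ((N * α / 2 : ℝ) * Complex.I)).comp α h1'
  have h3 : HasDerivAt (fun α : ℝ => (2 * (π : ℂ) * Complex.I)⁻¹ * ((-(N * τ : ℝ) : ℂ) ^ k *
      (ep ^ (k + 1) * s4a_M N (Ioi 0) k (-(N * α / 2 : ℝ) * Complex.I) -
       em ^ (k + 1) * s4a_M N (Ioi 0) k ((N * α / 2 : ℝ) * Complex.I))))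
      ((2 * (π : ℂ) * Complex.I)⁻¹ * ((-(N * τ : ℝ) : ℂ) ^ k *
      (ep ^ (k + 1) * (s4a_M N (Ioi 0) (k + 2) (-(N * α / 2 : ℝ) * Complex.I) *
        (-(N / 2 : ℝ) * Complex.I)) -
       em ^ (k + 1) * (s4a_M N (Ioi 0) (k + 2) ((N * α / 2 : ℝ) * Complex.I) *
        ((N / 2 : ℝ) * Complex.I))))) α :=
    (((h2.const_mul _).sub (h2'.const_mul _)).const_mul _).const_mul _
  have h4 : (fun α : ℝ => Aj N α τ k 0) = fun α : ℝ => (2 * (π : ℂ) * Complex.I)⁻¹ *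
      ((-(N * τ : ℝ) : ℂ) ^ k *
      (ep ^ (k + 1) * s4a_M N (Ioi 0) k (-(N * α / 2 : ℝ) * Complex.I) -
       em ^ (k + 1) * s4a_M N (Ioi 0) k ((N * α / 2 : ℝ) * Complex.I))) := by
    ext α
    rw [s4a_Aj hN]
  rw [h4]
  refine h3.congr_deriv ?_
  rw [s4a_Aj hN]
  have hN' : (N : ℂ) ≠ 0 := by exact_mod_cast hN.ne'
  have hτ' : (τ : ℂ) ≠ 0 := by exact_mod_cast hτ.ne'
  have e1 : ep ^ (k + 2 + 1) = ep ^ (k + 1) * Complex.I := by
    rw [← s4a_ep2]; ring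
  have e2 : em ^ (k + 2 + 1) = em ^ (k + 1) * (-Complex.I) := by
    rw [← s4a_em2]; ring
  rw [e1, e2]
  push_cast
  rw [pow_add (-((N : ℂ) * τ)) k 2]
  field_simp
  ring

/-- Jets of order 4 at the origin. -/
theorem s4a_Aj4 (hN : 0 < N) : Aj N α τ 4 0 =
    ((α * (N * τ) ^ 2 : ℝ) : ℂ) * Aj N α τ 2 0 - ((N ^ 3 * τ ^ 4 : ℝ) : ℂ) * Aj N α τ 0 0 := by
  have h1 := Aj_hasDerivAt (N := N) (α := α) (τ := τ) hN 3 0
  have h2 : HasDerivAt (Aj N α τ 3) (((α * (N * τ) ^ 2 : ℝ) : ℂ) * Aj N α τ 2 0 -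
      (((N ^ 3 * τ ^ 4 : ℝ) : ℂ) * Aj N α τ 0 0 +
        ((N ^ 3 * τ ^ 4 : ℝ) : ℂ) * 0 * Aj N α τ 1 0)) 0 := by
    have h3 : Aj N α τ 3 = fun w => ((α * (N * τ) ^ 2 : ℝ) : ℂ) * Aj N α τ 1 w -
        ((N ^ 3 * τ ^ 4 : ℝ) : ℂ) * w * Aj N α τ 0 w := by
      ext w
      exact Aj_ode hN w
    rw [h3]
    have h4 : HasDerivAt (fun w : ℂ => ((N ^ 3 * τ ^ 4 : ℝ) : ℂ) * w) ((N ^ 3 * τ ^ 4 : ℝ) : ℂ)
        0 := by
      have h5 := (hasDerivAt_id (0 : ℂ)).const_mul ((N ^ 3 * τ ^ 4 : ℝ) : ℂ)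
      rw [mul_one] at h5
      exact h5
    exact ((Aj_hasDerivAt hN 1 0).const_mul _).sub (h4.mul (Aj_hasDerivAt hN 0 0))
  rw [h1.unique h2]
  ring

theorem s4a_fj4 (hN : 0 < N) : fj N α τ 4 0 =
    -((α * (N * τ) ^ 2 : ℝ) : ℂ) * fj N α τ 2 0 + ((N ^ 3 * τ ^ 4 : ℝ) : ℂ) * fj N α τ 0 0 := by
  have h1 := fj_hasDerivAt (N := N) (α := α) (τ := τ) hN 3 0
  have h2 : HasDerivAt (fj N α τ 3) (-((α * (N * τ) ^ 2 : ℝ) : ℂ) * fj N α τ 2 0 +
      (((N ^ 3 * τ ^ 4 : ℝ) : ℂ) * fj N α τ 0 0 +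
        ((N ^ 3 * τ ^ 4 : ℝ) : ℂ) * 0 * fj N α τ 1 0)) 0 := by
    have h3 : fj N α τ 3 = fun w => -((α * (N * τ) ^ 2 : ℝ) : ℂ) * fj N α τ 1 w +
        ((N ^ 3 * τ ^ 4 : ℝ) : ℂ) * w * fj N α τ 0 w := by
      ext w
      exact fj_ode hN w
    rw [h3]
    have h4 : HasDerivAt (fun w : ℂ => ((N ^ 3 * τ ^ 4 : ℝ) : ℂ) * w) ((N ^ 3 * τ ^ 4 : ℝ) : ℂ)
        0 := by
      have h5 := (hasDerivAt_id (0 : ℂ)).const_mul ((N ^ 3 * τ ^ 4 : ℝ) : ℂ)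
      rw [mul_one] at h5
      exact h5
    exact ((fj_hasDerivAt hN 1 0).const_mul _).add (h4.mul (fj_hasDerivAt hN 0 0))
  rw [h1.unique h2]
  ring

theorem s4a_const {D : ℝ → ℂ} (h : ∀ x, HasDerivAt D 0 x) (x : ℝ) : D x = D 0 := by
  apply is_const_of_deriv_eq_zero (𝕜 := ℝ)
  · exact fun x => (h x).differentiableAt
  · exact fun x => (h x).deriv

/-- real moments at `c = 0` -/
def s4a_J (N : ℝ) (k : ℕ) : ℝ := ∫ r in Ioi (0 : ℝ), r ^ k * Real.exp (-N * r ^ 4 / 4)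

theorem s4a_M_Ioi (N : ℝ) (k : ℕ) : s4a_M N (Ioi 0) k 0 = (s4a_J N k : ℂ) := by
  unfold s4a_M s4a_J
  rw [← integral_complex_ofReal]
  congr 1
  ext r
  push_cast
  simp

theorem s4a_M_univ (N : ℝ) (k : ℕ) (hk : Even k) : s4a_M N univ k 0 = 2 * (s4a_J N k : ℂ) := by
  unfold s4a_M s4a_J
  rw [Measure.restrict_univ]
  have h1 : ∫ r : ℝ, (r : ℂ) ^ k * Complex.exp (-(N : ℂ) * (r : ℂ) ^ 4 / 4 + 0 * (r : ℂ) ^ 2) =
      ((∫ r : ℝ, r ^ k * Real.exp (-N * r ^ 4 / 4) : ℝ) : ℂ) := by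
    rw [← integral_complex_ofReal]
    congr 1
    ext r
    push_cast
    simp
  rw [h1]
  have h2 := integral_comp_abs (f := fun r : ℝ => r ^ k * Real.exp (-N * r ^ 4 / 4))
  have h3 : (fun r : ℝ => |r| ^ k * Real.exp (-N * |r| ^ 4 / 4)) =
      fun r : ℝ => r ^ k * Real.exp (-N * r ^ 4 / 4) := by
    ext r
    rw [hk.pow_abs, Even.pow_abs (by decide)]
  rw [h3] at h2
  rw [h2]
  push_cast
  ring

theorem s4a_J1 (hN : 0 < N) : s4a_J N 1 = √π / (2 * √N) := by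
  unfold s4a_J
  have h1 := integral_rpow_mul_exp_neg_mul_rpow (p := 4) (q := 1) (b := N / 4) (by norm_num)
    (by norm_num) (by positivity)
  have h2 : ∫ r in Ioi (0 : ℝ), r ^ 1 * Real.exp (-N * r ^ 4 / 4) =
      ∫ x in Ioi (0 : ℝ), x ^ (1 : ℝ) * Real.exp (-(N / 4) * x ^ (4 : ℝ)) := by
    apply setIntegral_congr_fun measurableSet_Ioi
    intro x _
    simp only [Real.rpow_one, pow_one]
    congr 2
    rw [show (4 : ℝ) = ((4 : ℕ) : ℝ) by norm_num, Real.rpow_natCast]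
    push_cast
    ring
  rw [h2, h1]
  have h3 : ((1 : ℝ) + 1) / 4 = 1 / 2 := by norm_num
  have h4 : -((1 : ℝ) + 1) / 4 = -(1 / 2) := by norm_num
  rw [h3, h4, Real.Gamma_one_half_eq, Real.rpow_neg (by positivity), ← Real.sqrt_eq_rpow,
    Real.sqrt_div hN.le]
  have h5 : √(4 : ℝ) = 2 := by
    rw [show (4 : ℝ) = 2 ^ 2 by norm_num]
    exact Real.sqrt_sq (by norm_num)
  rw [h5]
  have h6 : 0 < √N := Real.sqrt_pos.2 hN
  field_simp
  ring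

theorem s4a_fj0 (N τ : ℝ) (k : ℕ) (hk : Even k) :
    fj N 0 τ k 0 = ((N * τ : ℝ) : ℂ) ^ k * (2 * (s4a_J N k : ℂ)) := by
  rw [s4a_fj]
  simp only [mul_zero, zero_div, Complex.ofReal_zero, neg_zero]
  rw [s4a_M_univ N k hk]

theorem s4a_Aj0 (hN : 0 < N) (τ : ℝ) (k : ℕ) : Aj N 0 τ k 0 =
    (2 * (π : ℂ) * Complex.I)⁻¹ * ((-(N * τ : ℝ) : ℂ) ^ k *
      ((ep ^ (k + 1) - em ^ (k + 1)) * (s4a_J N k : ℂ))) := by
  rw [s4a_Aj hN]
  simp only [mul_zero, zero_div, Complex.ofReal_zero, neg_zero, zero_mul]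
  rw [s4a_M_Ioi]
  ring

theorem s4a_ep_sub : ep - em = (√2 : ℂ) * Complex.I := by
  apply Complex.ext <;> simp [ep, em]

theorem s4a_ep3_sub : ep ^ 3 - em ^ 3 = (√2 : ℂ) * Complex.I := by
  have h1 : ep ^ 3 = Complex.I * ep := by
    rw [← s4a_ep2]; ring
  have h2 : em ^ 3 = -Complex.I * em := by
    rw [← s4a_em2]; ring
  rw [h1, h2]
  apply Complex.ext <;> simp [ep, em]

theorem Aj_initial (hN : 0 < N) (hτ : 0 < τ) :
    (fj N α τ 0 0) * (Aj N α τ 2 0 - ((α * (N * τ) ^ 2 : ℝ) : ℂ) * Aj N α τ 0 0) =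
      (fj N α τ 2 0) * Aj N α τ 0 0 ∧
    2 * Aj N α τ 0 0 * Aj N α τ 1 0 = -(cA N α τ : ℂ) * fj N α τ 0 0 := by
  have hN' : (N : ℂ) ≠ 0 := by exact_mod_cast hN.ne'
  have hτ' : (τ : ℂ) ≠ 0 := by exact_mod_cast hτ.ne'
  have hπ' : (π : ℂ) ≠ 0 := by exact_mod_cast Real.pi_pos.ne'
  have hf0 : ∀ α : ℝ, fj N α τ 0 0 ≠ 0 := by
    intro α h7
    have h6 := fj_zero_pos (N := N) (α := α) (τ := τ) hN 0
    rw [Complex.ofReal_zero, h7] at h6
    simp at h6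
  -- first identity
  have hfirst : ∀ α : ℝ, (fj N α τ 0 0) * (Aj N α τ 2 0 - ((α * (N * τ) ^ 2 : ℝ) : ℂ) *
      Aj N α τ 0 0) = (fj N α τ 2 0) * Aj N α τ 0 0 := by
    set D : ℝ → ℂ := fun α => (fj N α τ 0 0) * (Aj N α τ 2 0 - ((α * (N * τ) ^ 2 : ℝ) : ℂ) *
      Aj N α τ 0 0) - (fj N α τ 2 0) * Aj N α τ 0 0 with hD
    have hder : ∀ α, HasDerivAt D 0 α := by
      intro α
      have ha : HasDerivAt (fun α : ℝ => ((α * (N * τ) ^ 2 : ℝ) : ℂ))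
          (((N * τ) ^ 2 : ℝ) : ℂ) α := by
        apply HasDerivAt.ofReal_comp
        simpa using (hasDerivAt_id α).mul_const ((N * τ) ^ 2)
      have h0 := s4a_fj_deriv hN hτ 0 α
      have h2 := s4a_fj_deriv hN hτ 2 α
      have g0 := s4a_Aj_deriv hN hτ 0 α
      have g2 := s4a_Aj_deriv hN hτ 2 α
      have hd := (h0.mul (g2.sub (ha.mul g0))).sub (h2.mul g0)
      refine hd.congr_deriv ?_
      rw [show (2 + 2 : ℕ) = 4 from rfl, show (0 + 2 : ℕ) = 2 from rfl, s4a_Aj4 hN, s4a_fj4 hN]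
      simp only [Pi.sub_apply, Pi.mul_apply]
      push_cast
      field_simp
      ring
    intro α
    have h1 := s4a_const hder α
    have h2 : D 0 = 0 := by
      simp only [hD]
      rw [s4a_fj0 N τ 0 (by decide), s4a_fj0 N τ 2 (by decide), s4a_Aj0 hN τ 2, s4a_Aj0 hN τ 0]
      rw [show (2 + 1 : ℕ) = 3 from rfl, s4a_ep3_sub, zero_add, pow_one, pow_one, s4a_ep_sub]
      push_cast
      ring
    rw [h2] at h1
    simp only [hD] at h1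
    exact sub_eq_zero.1 h1
  refine ⟨hfirst α, ?_⟩
  -- second identity
  set E : ℝ → ℂ := fun α => (Aj N α τ 0 0 * Aj N α τ 1 0 * (Real.exp (N * α ^ 2 / 2) : ℂ)) /
    fj N α τ 0 0 with hE
  have hder : ∀ α, HasDerivAt E 0 α := by
    intro α
    have hexp : HasDerivAt (fun α : ℝ => ((Real.exp (N * α ^ 2 / 2) : ℝ) : ℂ))
        ((Real.exp (N * α ^ 2 / 2) * (N * α) : ℝ) : ℂ) α := by
      apply HasDerivAt.ofReal_comp
      apply HasDerivAt.exp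
      have := ((hasDerivAt_pow 2 α).const_mul N).div_const 2
      refine this.congr_deriv ?_
      push_cast
      ring
    have h0 := s4a_fj_deriv hN hτ 0 α
    have g0 := s4a_Aj_deriv hN hτ 0 α
    have g1 := s4a_Aj_deriv hN hτ 1 α
    have hd := ((g0.mul g1).mul hexp).div h0 (hf0 α)
    refine hd.congr_deriv ?_
    rw [div_eq_zero_iff]
    left
    have h3 : Aj N α τ (1 + 2) 0 = ((α * (N * τ) ^ 2 : ℝ) : ℂ) * Aj N α τ 1 0 := by
      rw [show (1 + 2 : ℕ) = 3 from rfl, Aj_ode hN]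
      ring
    rw [h3, zero_add]
    have h4 := hfirst α
    simp only [Pi.mul_apply]
    push_cast at h4 ⊢
    field_simp
    linear_combination (-(Aj N α τ 1 0) * Complex.exp ((N : ℂ) * α ^ 2 / 2)) * h4
  have h5 := s4a_const hder α
  have h6 : E 0 = -(τ * √N / (4 * √2 * π * √π) : ℝ) := by
    simp only [hE]
    rw [s4a_fj0 N τ 0 (by decide), s4a_Aj0 hN τ 0, s4a_Aj0 hN τ 1, s4a_J1 hN]
    rw [show (1 + 1 : ℕ) = 2 from rfl, s4a_ep2, s4a_em2, zero_add, pow_one ep, pow_one em,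
      s4a_ep_sub]
    have hJ : (s4a_J N 0 : ℂ) ≠ 0 := by
      intro h
      apply hf0 0
      rw [s4a_fj0 N τ 0 (by decide), h]
      simp
    have hNs : (N : ℂ) = (√N : ℂ) ^ 2 := by
      exact_mod_cast (Real.sq_sqrt hN.le).symm
    have hπs : (π : ℂ) = (√π : ℂ) ^ 2 := by
      exact_mod_cast (Real.sq_sqrt Real.pi_pos.le).symm
    have h2s : (√2 : ℂ) ^ 2 = 2 := by
      exact_mod_cast (Real.sq_sqrt (show (0 : ℝ) ≤ 2 by norm_num))
    have hN0 : (√N : ℂ) ≠ 0 := by exact_mod_cast (Real.sqrt_pos.2 hN).ne'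
    have hπ0 : (√π : ℂ) ≠ 0 := by exact_mod_cast (Real.sqrt_pos.2 Real.pi_pos).ne'
    have h20 : (√2 : ℂ) ≠ 0 := by exact_mod_cast (Real.sqrt_pos.2 (show (0 : ℝ) < 2 by norm_num)).ne'
    have hI := Complex.I_ne_zero
    have hexp0 : Real.exp (N * 0 ^ 2 / 2) = 1 := by norm_num
    rw [hexp0]
    push_cast
    rw [hNs, hπs]
    generalize (√N : ℂ) = n at *
    generalize (√π : ℂ) = p at *
    generalize (√2 : ℂ) = q at *
    generalize (s4a_J N 0 : ℂ) = j at *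
    field_simp
    linear_combination (-8 : ℂ) * h2s
  have h7 : E α = -(τ * √N / (4 * √2 * π * √π) : ℝ) := h5.trans h6
  simp only [hE] at h7
  rw [div_eq_iff (hf0 α)] at h7
  have h8 : (Real.exp (N * α ^ 2 / 2) : ℂ) * (Real.exp (-(N * α ^ 2 / 2)) : ℂ) = 1 := by
    rw [← Complex.ofReal_mul, ← Real.exp_add, add_neg_cancel, Real.exp_zero]
    norm_num
  unfold cA
  push_cast at h7 h8 ⊢
  linear_combination (2 * Complex.exp (-((N : ℂ) * α ^ 2 / 2))) * h7 -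
    (2 * Aj N α τ 0 0 * Aj N α τ 1 0) * h8

end

end Pool.Agent.MP_941b23_mp
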