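import Pool.Agent.MP_941b23_mp.Defs2
import Pool.Agent.MP_941b23_mp.S1
import Pool.Agent.MP_941b23_mp.S2a
import Pool.Agent.MP_941b23_mp.S2b
import Pool.Agent.MP_941b23_mp.S4a

/-!
[QM-S3] zero-free regions of `A`: energy identity.
-/

namespace Pool.Agent.MP_941b23_mp

open MeasureTheory Set Filter Topology
open scoped ENNReal NNReal Real ComplexConjugate

noncomputable section

variable {N α τ : ℝ}

theorem s3_cA_pos (hN : 0 < N) (hτ : 0 < τ) : 0 < cA N α τ := by
  unfold cA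
  have h1 := Real.pi_pos
  have h2 : 0 < √N := Real.sqrt_pos.2 hN
  positivity

theorem Aj_zero_zero_ne (hN : 0 < N) : ∃ w : ℂ, Aj N α τ 0 w ≠ 0 := by
  refine ⟨0, ?_⟩
  have h1 : Aj N α τ 0 0 = Aj N α 1 0 0 := by
    simp [Aj, gA]
  rw [h1]
  intro h2
  have h3 := (Aj_initial (α := α) hN (one_pos : (0 : ℝ) < 1)).2
  rw [h2, mul_zero, zero_mul] at h3
  have h4 : (cA N α 1 : ℂ) ≠ 0 := by
    exact_mod_cast (s3_cA_pos (α := α) hN one_pos).ne'
  have h5 : fj N α 1 0 0 ≠ 0 := by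
    have h6 := fj_zero_pos (N := N) (α := α) (τ := 1) hN 0
    intro h7
    rw [Complex.ofReal_zero, h7] at h6
    simp at h6
  have h6 : (cA N α 1 : ℂ) * fj N α 1 0 0 = 0 := by
    linear_combination h3
  exact (mul_ne_zero h4 h5) h6

theorem s3_core {G G' : ℝ → ℝ} (hG : ∀ t, HasDerivAt G (G' t) t) (hG' : ∀ t, 0 < t → G' t ≤ 0)
    (hlim : Tendsto G atTop (𝓝 0)) (h0 : G 0 ≤ 0) (t : ℝ) (ht : 0 < t) : G' t = 0 := by
  have hanti : AntitoneOn G (Ici 0) := by
    apply antitoneOn_of_deriv_nonpos (convex_Ici 0)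
    · exact fun x _ => (hG x).continuousAt.continuousWithinAt
    · exact fun x _ => (hG x).differentiableAt.differentiableWithinAt
    · intro x hx
      rw [interior_Ici] at hx
      rw [(hG x).deriv]
      exact hG' x hx
  have hge : ∀ x, 0 ≤ x → 0 ≤ G x := by
    intro x hx
    apply le_of_tendsto hlim
    filter_upwards [eventually_ge_atTop x] with y hy
    exact hanti (mem_Ici.2 hx) (mem_Ici.2 (hx.trans hy)) hy
  have hzero : ∀ x, 0 ≤ x → G x = 0 := fun x hx =>
    le_antisymm ((hanti (mem_Ici.2 le_rfl) (mem_Ici.2 hx) hx).trans h0) (hge x hx)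
  have hev : G =ᶠ[𝓝 t] fun _ => 0 := by
    filter_upwards [Ioi_mem_nhds ht] with x hx
    exact hzero x (le_of_lt hx)
  have h1 : HasDerivAt G 0 t := (hasDerivAt_const t (0 : ℝ)).congr_of_eventuallyEq hev
  exact (hG t).unique h1

theorem s3_ident (hN : 0 < N) (w e : ℂ) (he : e ≠ 0)
    (h : ∀ t : ℝ, 0 < t → Aj N α τ 0 (w + e * t) = 0) : False := by
  have hd : Differentiable ℂ (Aj N α τ 0) := fun z => (Aj_hasDerivAt hN 0 z).differentiableAt
  have han : AnalyticOnNhd ℂ (Aj N α τ 0) univ := fun z _ => hd.analyticAt z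
  obtain ⟨w₁, hw₁⟩ := Aj_zero_zero_ne (N := N) (α := α) (τ := τ) hN
  apply hw₁
  have hfreq : ∃ᶠ z in 𝓝[≠] (w + e * (1 : ℝ)), Aj N α τ 0 z = 0 := by
    have hmap : Tendsto (fun t : ℝ => w + e * (t : ℂ)) (𝓝[≠] (1 : ℝ)) (𝓝[≠] (w + e * (1 : ℝ))) := by
      apply tendsto_nhdsWithin_of_tendsto_nhds_of_eventually_within
      · have : ContinuousAt (fun t : ℝ => w + e * (t : ℂ)) 1 := by fun_prop
        exact this.tendsto.mono_left nhdsWithin_le_nhds
      · filter_upwards [self_mem_nhdsWithin] with t ht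
        intro h1
        apply ht
        have h2 : e * (t : ℂ) = e * ((1 : ℝ) : ℂ) := add_left_cancel h1
        have h3 := mul_left_cancel₀ he h2
        exact_mod_cast h3
    apply hmap.frequently
    apply Eventually.frequently
    have : ∀ᶠ t in 𝓝 (1 : ℝ), 0 < t := Ioi_mem_nhds one_pos
    filter_upwards [this.filter_mono nhdsWithin_le_nhds] with t ht
    exact h t ht
  exact han.eqOn_zero_of_preconnected_of_frequently_eq_zero isPreconnected_univ (mem_univ _)
    hfreq (mem_univ w₁)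

/-- derivatives along a line -/
def s3_Y (N α τ : ℝ) (w e : ℂ) (k : ℕ) (t : ℝ) : ℂ := e ^ k * Aj N α τ k (w + e * t)

theorem s3_Y_deriv (hN : 0 < N) (w e : ℂ) (k : ℕ) (t : ℝ) :
    HasDerivAt (s3_Y N α τ w e k) (s3_Y N α τ w e (k + 1) t) t := by
  unfold s3_Y
  have h1 : HasDerivAt (fun t : ℝ => w + e * (t : ℂ)) e t := by
    have := ((Complex.ofRealCLM.hasDerivAt (x := t)).const_mul e).const_add w
    simpa using this
  have h2 := (Aj_hasDerivAt (α := α) (τ := τ) hN k (w + e * t)).comp t h1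
  have h3 : HasDerivAt (fun t : ℝ => e ^ k * Aj N α τ k (w + e * t))
      (e ^ k * (Aj N α τ (k + 1) (w + e * t) * e)) t := h2.const_mul (e ^ k)
  refine h3.congr_deriv ?_
  rw [pow_succ]
  ring

theorem s3_re (hN : 0 < N) (w e : ℂ) (k : ℕ) (t : ℝ) :
    HasDerivAt (fun t => (s3_Y N α τ w e k t).re) (s3_Y N α τ w e (k + 1) t).re t :=
  (Complex.reCLM.hasFDerivAt).comp_hasDerivAt t (s3_Y_deriv hN w e k t)

theorem s3_im (hN : 0 < N) (w e : ℂ) (k : ℕ) (t : ℝ) :
    HasDerivAt (fun t => (s3_Y N α τ w e k t).im) (s3_Y N α τ w e (k + 1) t).im t :=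
  (Complex.imCLM.hasFDerivAt).comp_hasDerivAt t (s3_Y_deriv hN w e k t)

theorem s3_Y_ode (hN : 0 < N) (w e : ℂ) (t : ℝ) : s3_Y N α τ w e 3 t =
    ((α * (N * τ) ^ 2 : ℝ) : ℂ) * e ^ 2 * s3_Y N α τ w e 1 t -
      ((N ^ 3 * τ ^ 4 : ℝ) : ℂ) * (e ^ 3 * (w + e * t)) * s3_Y N α τ w e 0 t := by
  unfold s3_Y
  rw [Aj_ode hN]
  ring

theorem s3_re_aux (a b : ℝ) (u v z1 z0 : ℂ) : ((a : ℂ) * u * z1 - (b : ℂ) * v * z0).re =
    a * (u.re * z1.re - u.im * z1.im) - b * (v.re * z0.re - v.im * z0.im) := by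
  simp
  ring

theorem s3_im_aux (a b : ℝ) (u v z1 z0 : ℂ) : ((a : ℂ) * u * z1 - (b : ℂ) * v * z0).im =
    a * (u.re * z1.im + u.im * z1.re) - b * (v.re * z0.im + v.im * z0.re) := by
  simp
  ring

/-- decay along a line -/
theorem s3_Y_tendsto (hN : 0 < N) (hτ : 0 < τ) (w e : ℂ) (he : |e.im| < e.re) (k : ℕ) (c : ℝ)
    (hc : 0 < c) : Tendsto (fun t : ℝ => (Real.exp (c * t) : ℂ) * s3_Y N α τ w e k t) atTop
      (𝓝 0) := by
  have her : 0 < e.re := (abs_nonneg _).trans_lt he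
  obtain ⟨C, hC⟩ := Aj_decay (α := α) hN hτ k (2 * c / e.re)
  have hev : ∀ᶠ t : ℝ in atTop, |(w + e * t).im| ≤ (w + e * t).re := by
    have h1 : Tendsto (fun t : ℝ => (e.re - |e.im|) * t) atTop atTop :=
      tendsto_id.const_mul_atTop (sub_pos.2 he)
    filter_upwards [h1.eventually_ge_atTop (|w.im| - w.re), eventually_ge_atTop 0] with t ht ht0
    have h2 : (w + e * t).im = w.im + e.im * t := by simp
    have h3 : (w + e * t).re = w.re + e.re * t := by simp
    rw [h2, h3]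
    have h4 : |w.im + e.im * t| ≤ |w.im| + |e.im| * t := by
      refine (abs_add_le _ _).trans ?_
      rw [abs_mul, abs_of_nonneg ht0]
    nlinarith
  have hbound : ∀ᶠ t : ℝ in atTop, ‖(Real.exp (c * t) : ℂ) * s3_Y N α τ w e k t‖ ≤
      (‖e‖ ^ k * C * Real.exp (-(2 * c / e.re * w.re))) * Real.exp (-(c * t)) := by
    filter_upwards [hev] with t ht
    have h1 := hC _ ht
    unfold s3_Y
    rw [norm_mul, norm_mul, norm_pow, Complex.norm_real, Real.norm_eq_abs, Real.abs_exp]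
    have h3 : (w + e * t).re = w.re + e.re * t := by simp
    rw [h3] at h1
    have h4 : 2 * c / e.re * (w.re + e.re * t) = 2 * c / e.re * w.re + 2 * c * t := by
      field_simp
    rw [h4] at h1
    calc Real.exp (c * t) * (‖e‖ ^ k * ‖Aj N α τ k (w + e * t)‖)
        ≤ Real.exp (c * t) * (‖e‖ ^ k *
            (C * Real.exp (-(2 * c / e.re * w.re + 2 * c * t)))) := by gcongr
      _ = _ := by
          have h5 : Real.exp (-(2 * c / e.re * w.re + 2 * c * t)) =
              Real.exp (-(2 * c / e.re * w.re)) * Real.exp (-(c * t)) * Real.exp (-(c * t)) := by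
            rw [← Real.exp_add, ← Real.exp_add]
            congr 1
            ring
          have h6 : Real.exp (c * t) * Real.exp (-(c * t)) = 1 := by
            rw [← Real.exp_add, add_neg_cancel, Real.exp_zero]
          rw [h5]
          linear_combination (‖e‖ ^ k * C * Real.exp (-(2 * c / e.re * w.re)) *
            Real.exp (-(c * t))) * h6
  apply squeeze_zero_norm' hbound
  have h7 : Tendsto (fun t : ℝ => Real.exp (-(c * t))) atTop (𝓝 0) :=
    Real.tendsto_exp_neg_atTop_nhds_zero.comp (tendsto_id.const_mul_atTop hc)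
  simpa using h7.const_mul (‖e‖ ^ k * C * Real.exp (-(2 * c / e.re * w.re)))

theorem Aj_ne_zero (hN : 0 < N) (hτ : 0 < τ) (w : ℂ) (hw : 0 ≤ w.re) :
    Aj N α τ 0 w ≠ 0 := by
  intro h0
  set a : ℝ := α * (N * τ) ^ 2 with ha
  set b : ℝ := N ^ 3 * τ ^ 4 with hb
  have hbpos : 0 < b := by positivity
  set Y := s3_Y N α τ w 1 with hY
  set G : ℝ → ℝ := fun t => (Y 2 t).re * (Y 0 t).re + (Y 2 t).im * (Y 0 t).im -
    ((Y 1 t).re ^ 2 + (Y 1 t).im ^ 2) / 2 - a * ((Y 0 t).re ^ 2 + (Y 0 t).im ^ 2) / 2 with hGdef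
  have hG : ∀ t, HasDerivAt G (-(b * (w.re + t) * ((Y 0 t).re ^ 2 + (Y 0 t).im ^ 2))) t := by
    intro t
    have r0 := s3_re (α := α) (τ := τ) hN w 1 0 t
    have r1 := s3_re (α := α) (τ := τ) hN w 1 1 t
    have r2 := s3_re (α := α) (τ := τ) hN w 1 2 t
    have i0 := s3_im (α := α) (τ := τ) hN w 1 0 t
    have i1 := s3_im (α := α) (τ := τ) hN w 1 1 t
    have i2 := s3_im (α := α) (τ := τ) hN w 1 2 t
    have hode := s3_Y_ode (α := α) (τ := τ) hN w 1 t
    have hre := congrArg Complex.re hode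
    have him := congrArg Complex.im hode
    have hd := (((r2.mul r0).add (i2.mul i0)).sub (((r1.pow 2).add (i1.pow 2)).div_const 2)).sub
      ((((r0.pow 2).add (i0.pow 2)).const_mul a).div_const 2)
    refine hd.congr_deriv ?_
    have e1 : (s3_Y N α τ w 1 3 t).re = a * (s3_Y N α τ w 1 1 t).re -
        b * ((w.re + t) * (s3_Y N α τ w 1 0 t).re - w.im * (s3_Y N α τ w 1 0 t).im) := by
      rw [hre, s3_re_aux]
      simp [ha, hb]
    have e2 : (s3_Y N α τ w 1 3 t).im = a * (s3_Y N α τ w 1 1 t).im -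
        b * ((w.re + t) * (s3_Y N α τ w 1 0 t).im + w.im * (s3_Y N α τ w 1 0 t).re) := by
      rw [him, s3_im_aux]
      simp [ha, hb]
    simp only [hY]
    push_cast
    norm_num
    rw [e1, e2]
    ring
  have hlim : ∀ k, Tendsto (fun t => Y k t) atTop (𝓝 0) := by
    intro k
    have h1 := s3_Y_tendsto (α := α) hN hτ w 1 (by simp) k 1 one_pos
    apply squeeze_zero_norm' _ (tendsto_zero_iff_norm_tendsto_zero.1 h1)
    filter_upwards [eventually_ge_atTop 0] with t ht
    rw [norm_mul, Complex.norm_real, Real.norm_eq_abs, Real.abs_exp, one_mul]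
    have h2 : 1 ≤ Real.exp t := Real.one_le_exp ht
    exact le_mul_of_one_le_left (norm_nonneg _) h2
  have hre : ∀ k, Tendsto (fun t => (Y k t).re) atTop (𝓝 0) := fun k =>
    (Complex.continuous_re.tendsto 0).comp (hlim k)
  have him : ∀ k, Tendsto (fun t => (Y k t).im) atTop (𝓝 0) := fun k =>
    (Complex.continuous_im.tendsto 0).comp (hlim k)
  have hGlim : Tendsto G atTop (𝓝 0) := by
    have h1 := ((((hre 2).mul (hre 0)).add ((him 2).mul (him 0))).sub
      ((((hre 1).pow 2).add ((him 1).pow 2)).div_const 2)).sub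
      (((((hre 0).pow 2).add ((him 0).pow 2)).const_mul a).div_const 2)
    simpa using h1
  have hY0 : Y 0 0 = 0 := by
    simp only [hY, s3_Y]
    simp [h0]
  have hG0 : G 0 ≤ 0 := by
    simp only [hGdef, hY0]
    simp
    positivity
  apply s3_ident (N := N) (α := α) (τ := τ) hN w 1 one_ne_zero
  intro t ht
  have h1 := s3_core hG (fun t ht => by
    have : 0 ≤ b * (w.re + t) * ((Y 0 t).re ^ 2 + (Y 0 t).im ^ 2) := by positivity
    linarith) hGlim hG0 t ht
  have h2 : 0 < b * (w.re + t) := by positivity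
  have h3 : (Y 0 t).re ^ 2 + (Y 0 t).im ^ 2 = 0 := by
    have := neg_eq_zero.1 h1
    exact (mul_eq_zero.1 this).resolve_left h2.ne'
  have h4 : Y 0 t = 0 := by
    apply Complex.ext
    · simp only [Complex.zero_re]; nlinarith [sq_nonneg (Y 0 t).re, sq_nonneg (Y 0 t).im]
    · simp only [Complex.zero_im]; nlinarith [sq_nonneg (Y 0 t).re, sq_nonneg (Y 0 t).im]
  simpa [hY, s3_Y] using h4

end

end Pool.Agent.MP_941b23_mp
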