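import Pool.Agent.MP_941b23_mp.Defs2
import Pool.Agent.MP_941b23_mp.S1
import Pool.Agent.MP_941b23_mp.S2a
import Pool.Agent.MP_941b23_mp.S4a

/-!
[QM-S4b] the identity `A'(w)A(-w) + A(w)A'(-w) = -c f(iw)`.
-/

namespace Pool.Agent.MP_941b23_mp

open MeasureTheory Set Filter Topology
open scoped ENNReal NNReal Real ComplexConjugate

noncomputable section

variable {N α τ : ℝ}

theorem s4b_unique (a b : ℂ) (G0 G1 G2 : ℂ → ℂ) (h0 : ∀ w, HasDerivAt G0 (G1 w) w)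
    (h1 : ∀ w, HasDerivAt G1 (G2 w) w) (h2 : ∀ w, HasDerivAt G2 (a * G1 w + b * w * G0 w) w)
    (i0 : G0 0 = 0) (i1 : G1 0 = 0) (i2 : G2 0 = 0) (w : ℂ) : G0 w = 0 := by
  have hline : ∀ t : ℝ, HasDerivAt (fun t : ℝ => (t : ℂ) * w) w t := by
    intro t
    have := (Complex.ofRealCLM.hasDerivAt (x := t)).mul_const w
    simpa using this
  have d0 : ∀ t : ℝ, HasDerivAt (fun t : ℝ => G0 (t * w)) (G1 (t * w) * w) t := fun t =>
    (h0 (t * w)).comp t (hline t)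
  have d1 : ∀ t : ℝ, HasDerivAt (fun t : ℝ => G1 (t * w)) (G2 (t * w) * w) t := fun t =>
    (h1 (t * w)).comp t (hline t)
  have d2 : ∀ t : ℝ, HasDerivAt (fun t : ℝ => G2 (t * w))
      ((a * G1 (t * w) + b * (t * w) * G0 (t * w)) * w) t := fun t =>
    (h2 (t * w)).comp t (hline t)
  have hd : ∀ t : ℝ, HasDerivAt (fun t : ℝ => (G0 (t * w), G1 (t * w), G2 (t * w)))
      (G1 (t * w) * w, G2 (t * w) * w, (a * G1 (t * w) + b * (t * w) * G0 (t * w)) * w) t :=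
    fun t => (d0 t).prodMk ((d1 t).prodMk (d2 t))
  have key := eq_zero_of_abs_deriv_le_mul_abs_self_of_eq_zero_right (a := (0 : ℝ)) (b := 1)
    (K := (1 + ‖a‖ + ‖b‖ * ‖w‖) * ‖w‖)
    (f := fun t : ℝ => (G0 (t * w), G1 (t * w), G2 (t * w)))
    (f' := fun t : ℝ => (G1 (t * w) * w, G2 (t * w) * w,
      (a * G1 (t * w) + b * (t * w) * G0 (t * w)) * w))
    (fun t _ => (hd t).continuousAt.continuousWithinAt)
    (fun t _ => (hd t).hasDerivWithinAt) (by simp [i0, i1, i2]) ?_ 1 (by norm_num)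
  · have := congrArg Prod.fst key
    simpa using this
  · intro t ht
    set X : ℂ × ℂ × ℂ := (G0 (t * w), G1 (t * w), G2 (t * w)) with hX
    have n0 : ‖G0 (t * w)‖ ≤ ‖X‖ := norm_fst_le X
    have n1 : ‖G1 (t * w)‖ ≤ ‖X‖ := (norm_fst_le X.2).trans (norm_snd_le X)
    have n2 : ‖G2 (t * w)‖ ≤ ‖X‖ := (norm_snd_le X.2).trans (norm_snd_le X)
    have ht' : ‖(t : ℂ)‖ ≤ 1 := by
      rw [Complex.norm_real, Real.norm_eq_abs, abs_of_nonneg ht.1]
      exact ht.2.le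
    have hX0 : 0 ≤ ‖X‖ := norm_nonneg _
    have ha0 := norm_nonneg a
    have hb0 := norm_nonneg b
    have hw0 := norm_nonneg w
    have m : ∀ s : ℝ, s ≤ (1 + ‖a‖ + ‖b‖ * ‖w‖) * ‖X‖ →
        s * ‖w‖ ≤ (1 + ‖a‖ + ‖b‖ * ‖w‖) * ‖w‖ * ‖X‖ := by
      intro s hs
      calc s * ‖w‖ ≤ ((1 + ‖a‖ + ‖b‖ * ‖w‖) * ‖X‖) * ‖w‖ :=
            mul_le_mul_of_nonneg_right hs hw0
        _ = _ := by ring
    have hbw : 0 ≤ ‖b‖ * ‖w‖ := mul_nonneg hb0 hw0
    have q1 : ‖X‖ ≤ (1 + ‖a‖ + ‖b‖ * ‖w‖) * ‖X‖ := by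
      have : 0 ≤ (‖a‖ + ‖b‖ * ‖w‖) * ‖X‖ := by positivity
      linarith
    rw [Prod.norm_def, Prod.norm_def]
    simp only [norm_mul]
    apply max_le
    · exact m _ (n1.trans q1)
    · apply max_le
      · exact m _ (n2.trans q1)
      · apply m
        refine (norm_add_le _ _).trans ?_
        simp only [norm_mul]
        have r1 : ‖a‖ * ‖G1 (t * w)‖ ≤ ‖a‖ * ‖X‖ := mul_le_mul_of_nonneg_left n1 ha0
        have r2 : ‖b‖ * (‖(t : ℂ)‖ * ‖w‖) * ‖G0 (t * w)‖ ≤ ‖b‖ * (1 * ‖w‖) * ‖X‖ := by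
          gcongr
        nlinarith

theorem Psi_identity (hN : 0 < N) (hτ : 0 < τ) (w : ℂ) :
    Aj N α τ 1 w * Aj N α τ 0 (-w) + Aj N α τ 0 w * Aj N α τ 1 (-w) =
      -(cA N α τ : ℂ) * fj N α τ 0 (Complex.I * w) := by
  have hf0 : fj N α τ 0 0 ≠ 0 := by
    intro h7
    have h6 := fj_zero_pos (N := N) (α := α) (τ := τ) hN 0
    rw [Complex.ofReal_zero, h7] at h6
    simp at h6
  obtain ⟨e1, e2⟩ := Aj_initial (N := N) (α := α) (τ := τ) hN hτ
  set a : ℂ := ((α * (N * τ) ^ 2 : ℝ) : ℂ) with ha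
  set b : ℂ := ((N ^ 3 * τ ^ 4 : ℝ) : ℂ) with hb
  set c : ℂ := (cA N α τ : ℂ) with hc
  have dA : ∀ k w, HasDerivAt (Aj N α τ k) (Aj N α τ (k + 1) w) w := fun k w =>
    Aj_hasDerivAt hN k w
  have dA' : ∀ k w, HasDerivAt (fun w => Aj N α τ k (-w)) (-Aj N α τ (k + 1) (-w)) w := by
    intro k w
    have h1 : HasDerivAt (fun w => Aj N α τ k (-w)) (Aj N α τ (k + 1) (-w) * (-1)) w :=
      (dA k (-w)).comp w (hasDerivAt_neg w)
    refine h1.congr_deriv ?_
    ring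
  have dF : ∀ k w, HasDerivAt (fun w => fj N α τ k (Complex.I * w))
      (Complex.I * fj N α τ (k + 1) (Complex.I * w)) w := by
    intro k w
    have h1 : HasDerivAt (fun w : ℂ => Complex.I * w) Complex.I w := by
      simpa using (hasDerivAt_id w).const_mul Complex.I
    have := (fj_hasDerivAt (N := N) (α := α) (τ := τ) hN k (Complex.I * w)).comp w h1
    rw [mul_comm]
    exact this
  have hAode : ∀ w, Aj N α τ 3 w = a * Aj N α τ 1 w - b * w * Aj N α τ 0 w := fun w => Aj_ode hN w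
  have hFode : ∀ w, fj N α τ 3 w = -a * fj N α τ 1 w + b * w * fj N α τ 0 w := fun w =>
    fj_ode hN w
  have hf1 : fj N α τ 1 0 = 0 := by
    have h1 := fj_neg (N := N) (α := α) (τ := τ) 1 0
    rw [neg_zero, pow_one] at h1
    have h2 : (2 : ℂ) * fj N α τ 1 0 = 0 := by linear_combination h1
    exact (mul_eq_zero.1 h2).resolve_left two_ne_zero
  have hI := Complex.I_sq
  have key := s4b_unique a b
    (fun w => Aj N α τ 1 w * Aj N α τ 0 (-w) + Aj N α τ 0 w * Aj N α τ 1 (-w) +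
      c * fj N α τ 0 (Complex.I * w))
    (fun w => Aj N α τ 2 w * Aj N α τ 0 (-w) - Aj N α τ 0 w * Aj N α τ 2 (-w) +
      c * (Complex.I * fj N α τ 1 (Complex.I * w)))
    (fun w => a * (Aj N α τ 1 w * Aj N α τ 0 (-w) + Aj N α τ 0 w * Aj N α τ 1 (-w)) -
      (Aj N α τ 2 w * Aj N α τ 1 (-w) + Aj N α τ 1 w * Aj N α τ 2 (-w)) -
      c * fj N α τ 2 (Complex.I * w)) ?_ ?_ ?_ ?_ ?_ ?_ w
  · linear_combination key
  · intro w
    have := (((dA 1 w).mul (dA' 0 w)).add ((dA 0 w).mul (dA' 1 w))).add ((dF 0 w).const_mul c)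
    refine this.congr_deriv ?_
    ring
  · intro w
    have := (((dA 2 w).mul (dA' 0 w)).sub ((dA 0 w).mul (dA' 2 w))).add
      (((dF 1 w).const_mul Complex.I).const_mul c)
    refine this.congr_deriv ?_
    rw [show (2 + 1 : ℕ) = 3 from rfl, hAode w, hAode (-w)]
    linear_combination (c * fj N α τ (1 + 1) (Complex.I * w)) * hI
  · intro w
    have := (((((dA 1 w).mul (dA' 0 w)).add ((dA 0 w).mul (dA' 1 w))).const_mul a).sub
      (((dA 2 w).mul (dA' 1 w)).add ((dA 1 w).mul (dA' 2 w)))).sub ((dF 2 w).const_mul c)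
    refine this.congr_deriv ?_
    rw [show (2 + 1 : ℕ) = 3 from rfl, hAode w, hAode (-w), hFode (Complex.I * w)]
    linear_combination (-(c * b * w * fj N α τ 0 (Complex.I * w))) * hI
  · simp only [neg_zero, mul_zero]
    linear_combination e2
  · simp only [neg_zero, mul_zero, hf1]
    ring
  · simp only [neg_zero, mul_zero]
    apply mul_left_cancel₀ hf0
    linear_combination (-2 * Aj N α τ 1 0) * e1 - (fj N α τ 2 0) * e2

theorem re_pA_imag (hN : 0 < N) (hτ : 0 < τ) (η : ℝ) :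
    (pA N α τ (η * Complex.I)).re =
    cA N α τ * (fj N α τ 0 (η : ℝ)).re / (2 * Complex.normSq (Aj N α τ 0 (η * Complex.I))) := by
  have h1 := Psi_identity (α := α) hN hτ (η * Complex.I)
  have h2 : -((η : ℂ) * Complex.I) = conj ((η : ℂ) * Complex.I) := by
    simp
  have h3 : Complex.I * ((η : ℂ) * Complex.I) = -(η : ℂ) := by
    linear_combination (η : ℂ) * Complex.I_sq
  rw [h3, h2, Aj_conj, Aj_conj, fj_neg, pow_zero, one_mul] at h1
  have h4 := congrArg Complex.re h1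
  simp only [Complex.add_re, Complex.mul_re, Complex.conj_re, Complex.conj_im, Complex.neg_re,
    Complex.neg_im, Complex.ofReal_re, Complex.ofReal_im, neg_zero, zero_mul, sub_zero] at h4
  unfold pA
  rw [Complex.neg_re, Complex.div_re]
  by_cases h5 : Complex.normSq (Aj N α τ 0 (η * Complex.I)) = 0
  · rw [h5]
    simp
  · field_simp
    linarith

end

end Pool.Agent.MP_941b23_mp
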