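import Pool.Agent.MP_941b23_mp.Defs2
import Pool.Agent.MP_941b23_mp.S1
import Pool.Agent.MP_941b23_mp.S2a
import Pool.Agent.MP_941b23_mp.S3
import Pool.Agent.MP_941b23_mp.S4b

/-!
# [S9] zeros on the imaginary axis
-/

namespace Pool.Agent.MP_941b23_mp

open MeasureTheory Set Filter Topology
open scoped ENNReal NNReal Real ComplexConjugate

noncomputable section

variable {N α τ : ℝ}

/-- the real function `η ↦ i^k f^{(k)}(iη)` -/
def s9_r (N α τ : ℝ) (k : ℕ) (η : ℝ) : ℝ := (Complex.I ^ k * fj N α τ k (η * Complex.I)).re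

theorem s9_real (k : ℕ) (η : ℝ) :
    Complex.I ^ k * fj N α τ k (η * Complex.I) = (s9_r N α τ k η : ℂ) := by
  have h : conj (Complex.I ^ k * fj N α τ k (η * Complex.I)) =
      Complex.I ^ k * fj N α τ k (η * Complex.I) := by
    rw [map_mul, map_pow, Complex.conj_I, ← fj_conj, map_mul, Complex.conj_I, Complex.conj_ofReal,
      mul_neg, fj_neg, ← mul_assoc, ← mul_pow]
    congr 2
    ring
  exact (Complex.conj_eq_iff_re.1 h).symm

theorem s9_deriv (hN : 0 < N) (k : ℕ) (η : ℝ) :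
    HasDerivAt (s9_r N α τ k) (s9_r N α τ (k + 1) η) η := by
  have h1 : HasDerivAt (fun η : ℂ => Complex.I ^ k * fj N α τ k (η * Complex.I))
      (Complex.I ^ (k + 1) * fj N α τ (k + 1) (η * Complex.I)) (η : ℂ) := by
    have h2 : HasDerivAt (fun η : ℂ => η * Complex.I) Complex.I (η : ℂ) := by
      simpa using (hasDerivAt_id (η : ℂ)).mul_const Complex.I
    have h3 := (((fj_hasDerivAt (α := α) (τ := τ) hN k ((η : ℂ) * Complex.I)).comp (η : ℂ)
      h2)).const_mul (Complex.I ^ k)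
    refine h3.congr_deriv ?_
    ring
  exact h1.real_of_complex

theorem s9_ode (hN : 0 < N) (η : ℝ) : s9_r N α τ 3 η =
    (α * (N * τ) ^ 2) * s9_r N α τ 1 η + (N ^ 3 * τ ^ 4) * η * s9_r N α τ 0 η := by
  have h := fj_ode (α := α) (τ := τ) hN ((η : ℂ) * Complex.I)
  have h3 := s9_real (N := N) (α := α) (τ := τ) 3 η
  have h1 := s9_real (N := N) (α := α) (τ := τ) 1 η
  have h0 := s9_real (N := N) (α := α) (τ := τ) 0 η
  rw [h] at h3
  have h4 : ((s9_r N α τ 3 η : ℝ) : ℂ) =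
      (((α * (N * τ) ^ 2) * s9_r N α τ 1 η + (N ^ 3 * τ ^ 4) * η * s9_r N α τ 0 η : ℝ) : ℂ) := by
    rw [← h3]
    push_cast
    rw [← h1, ← h0]
    have h5 : Complex.I ^ 3 = -Complex.I := by
      rw [pow_succ, Complex.I_sq]; ring
    rw [h5, pow_one, pow_zero]
    have h6 : Complex.I * Complex.I = -1 := Complex.I_mul_I
    linear_combination (-(N : ℂ) ^ 3 * τ ^ 4 * η * fj N α τ 0 (η * Complex.I)) * h6
  exact_mod_cast h4

theorem s9_tendsto (hN : 0 < N) (hτ : 0 < τ) (k : ℕ) :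
    Tendsto (s9_r N α τ k) atTop (𝓝 0) := by
  have h1 := (fj_imag_tendsto (α := α) hN hτ k).const_mul (Complex.I ^ k)
  rw [mul_zero] at h1
  have h2 := (Complex.continuous_re.tendsto _).comp h1
  rw [Complex.zero_re] at h2
  exact h2

/-- the energy -/
def s9_R (N α τ : ℝ) (η : ℝ) : ℝ :=
  s9_r N α τ 0 η * s9_r N α τ 2 η - s9_r N α τ 1 η ^ 2 / 2 -
    (α * (N * τ) ^ 2) * s9_r N α τ 0 η ^ 2 / 2

theorem s9_R_deriv (hN : 0 < N) (η : ℝ) :
    HasDerivAt (s9_R N α τ) ((N ^ 3 * τ ^ 4) * (η * s9_r N α τ 0 η ^ 2)) η := by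
  have d0 := s9_deriv (α := α) (τ := τ) hN 0 η
  have d1 := s9_deriv (α := α) (τ := τ) hN 1 η
  have d2 := s9_deriv (α := α) (τ := τ) hN 2 η
  have h := ((d0.mul d2).sub ((d1.pow 2).div_const 2)).sub
    (((d0.pow 2).const_mul (α * (N * τ) ^ 2)).div_const 2)
  refine h.congr_deriv ?_
  have hode := s9_ode (α := α) (τ := τ) hN η
  norm_num at *
  rw [hode]
  ring

theorem s9_R_tendsto (hN : 0 < N) (hτ : 0 < τ) : Tendsto (s9_R N α τ) atTop (𝓝 0) := by
  have d0 := s9_tendsto (α := α) hN hτ 0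
  have d1 := s9_tendsto (α := α) hN hτ 1
  have d2 := s9_tendsto (α := α) hN hτ 2
  have h := ((d0.mul d2).sub ((d1.pow 2).div_const 2)).sub
    (((d0.pow 2).const_mul (α * (N * τ) ^ 2)).div_const 2)
  have e : (0 : ℝ) * 0 - 0 ^ 2 / 2 - (α * (N * τ) ^ 2) * 0 ^ 2 / 2 = 0 := by ring
  rw [e] at h
  exact h

theorem s9_r_zero (η : ℝ) : s9_r N α τ 0 η = (fj N α τ 0 (η * Complex.I)).re := by
  unfold s9_r
  rw [pow_zero, one_mul]

theorem s9_identity (hN : 0 < N) (ζ : ℝ)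
    (h : ∀ η : ℝ, ζ < η → fj N α τ 0 (η * Complex.I) = 0) : False := by
  have hd : Differentiable ℂ (fj N α τ 0) := fun z => (fj_hasDerivAt hN 0 z).differentiableAt
  have han : AnalyticOnNhd ℂ (fj N α τ 0) univ := fun z _ => hd.analyticAt z
  have hfr : ∃ᶠ z in 𝓝[≠] (((ζ + 1 : ℝ) : ℂ) * Complex.I), fj N α τ 0 z = 0 := by
    have ht : Tendsto (fun n : ℕ => (((ζ + 1 + 1 / ((n : ℝ) + 1) : ℝ) : ℂ) * Complex.I)) atTop
        (𝓝[≠] (((ζ + 1 : ℝ) : ℂ) * Complex.I)) := by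
      rw [tendsto_nhdsWithin_iff]
      constructor
      · have h1 : Tendsto (fun n : ℕ => ζ + 1 + 1 / ((n : ℝ) + 1)) atTop (𝓝 (ζ + 1)) := by
          have := (tendsto_one_div_add_atTop_nhds_zero_nat (𝕜 := ℝ)).const_add (ζ + 1)
          rwa [add_zero] at this
        exact ((Complex.continuous_ofReal.tendsto _).comp h1).mul_const _
      · refine Eventually.of_forall fun n => ?_
        simp only [mem_compl_iff, mem_singleton_iff]
        intro h
        have h3 := mul_right_cancel₀ Complex.I_ne_zero h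
        have h4 : ζ + 1 + 1 / ((n : ℝ) + 1) = ζ + 1 := by exact_mod_cast h3
        have : 0 < 1 / ((n : ℝ) + 1) := by positivity
        linarith
    refine ht.frequently (Frequently.of_forall fun n => ?_)
    apply h
    have : 0 < 1 / ((n : ℝ) + 1) := by positivity
    linarith
  have h5 := han.eqOn_zero_of_preconnected_of_frequently_eq_zero isPreconnected_univ
    (mem_univ _) hfr (mem_univ (0 : ℂ))
  have h6 := fj_zero_pos (α := α) (τ := τ) hN 0
  rw [Complex.ofReal_zero, h5] at h6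
  simp at h6

theorem fj_one_sq (hN : 0 < N) (hτ : 0 < τ) (ζ : ℝ) (hζ : 0 < ζ)
    (h : fj N α τ 0 (ζ * Complex.I) = 0) :
    IntegrableOn (fun η : ℝ => η * (fj N α τ 0 (η * Complex.I)).re ^ 2) (Ioi ζ) ∧
    Complex.normSq (fj N α τ 1 (ζ * Complex.I)) =
      2 * (N ^ 3 * τ ^ 4) * ∫ η in Ioi ζ, η * (fj N α τ 0 (η * Complex.I)).re ^ 2 ∧
    fj N α τ 1 (ζ * Complex.I) ≠ 0 := by
  have hb : 0 < N ^ 3 * τ ^ 4 := by positivity
  have hnn : ∀ η ∈ Ioi ζ, 0 ≤ (N ^ 3 * τ ^ 4) * (η * s9_r N α τ 0 η ^ 2) := by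
    intro η hη
    have : 0 < η := hζ.trans hη
    positivity
  have hI := integrableOn_Ioi_deriv_of_nonneg' (fun η _ => s9_R_deriv (α := α) (τ := τ) hN η) hnn
    (s9_R_tendsto hN hτ)
  have hE := integral_Ioi_of_hasDerivAt_of_nonneg' (fun η _ => s9_R_deriv (α := α) (τ := τ) hN η)
    hnn (s9_R_tendsto hN hτ)
  have hr0 : s9_r N α τ 0 ζ = 0 := by rw [s9_r_zero, h, Complex.zero_re]
  have hR : s9_R N α τ ζ = -(s9_r N α τ 1 ζ ^ 2 / 2) := by
    unfold s9_R
    rw [hr0]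
    ring
  have hI' : IntegrableOn (fun η : ℝ => η * s9_r N α τ 0 η ^ 2) (Ioi ζ) := by
    refine (Integrable.const_mul hI (N ^ 3 * τ ^ 4)⁻¹).congr (Eventually.of_forall fun η => ?_)
    simp only
    rw [inv_mul_cancel_left₀ hb.ne']
  rw [integral_const_mul, hR] at hE
  have hr1 : Complex.I * fj N α τ 1 (ζ * Complex.I) = (s9_r N α τ 1 ζ : ℂ) := by
    have := s9_real (N := N) (α := α) (τ := τ) 1 ζ
    rwa [pow_one] at this
  have hns : Complex.normSq (fj N α τ 1 (ζ * Complex.I)) = s9_r N α τ 1 ζ ^ 2 := by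
    have h1 := congrArg Complex.normSq hr1
    rw [map_mul, Complex.normSq_I, one_mul, Complex.normSq_ofReal] at h1
    rw [h1]
    ring
  simp only [← s9_r_zero]
  refine ⟨hI', ?_, ?_⟩
  · rw [hns]
    linarith
  · intro h1
    rw [h1, mul_zero] at hr1
    have h2 : s9_r N α τ 1 ζ = 0 := by exact_mod_cast hr1.symm
    have hR0 : s9_R N α τ ζ = 0 := by rw [hR, h2]; ring
    have hmono : MonotoneOn (s9_R N α τ) (Ici ζ) := by
      apply monotoneOn_of_deriv_nonneg (convex_Ici ζ)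
      · exact fun x _ => (s9_R_deriv hN x).continuousAt.continuousWithinAt
      · exact fun x _ => (s9_R_deriv hN x).differentiableAt.differentiableWithinAt
      · intro x hx
        rw [interior_Ici] at hx
        rw [(s9_R_deriv hN x).deriv]
        exact hnn x hx
    have hle : ∀ η, ζ ≤ η → s9_R N α τ η = 0 := by
      intro η hη
      apply le_antisymm
      · refine ge_of_tendsto (s9_R_tendsto (α := α) hN hτ) ?_
        filter_upwards [eventually_ge_atTop η] with x hx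
        exact hmono (show η ∈ Ici ζ from hη) (show x ∈ Ici ζ from hη.trans hx) hx
      · rw [← hR0]
        exact hmono self_mem_Ici (show η ∈ Ici ζ from hη) hη
    apply s9_identity (α := α) (τ := τ) hN ζ
    intro η hη
    have h3 : HasDerivAt (s9_R N α τ) 0 η := by
      refine (hasDerivAt_const η (0 : ℝ)).congr_of_eventuallyEq ?_
      filter_upwards [Ioi_mem_nhds hη] with x hx
      exact hle x (le_of_lt hx)
    have h4 := (s9_R_deriv hN η).unique h3
    have h5 : s9_r N α τ 0 η = 0 := by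
      have hη0 : 0 < η := hζ.trans hη
      rcases mul_eq_zero.1 h4 with h5 | h5
      · exact absurd h5 hb.ne'
      · rcases mul_eq_zero.1 h5 with h6 | h6
        · exact absurd h6 hη0.ne'
        · exact pow_eq_zero_iff (two_ne_zero) |>.1 h6
    have h6 := s9_real (N := N) (α := α) (τ := τ) 0 η
    rw [h5, pow_zero, one_mul, Complex.ofReal_zero] at h6
    exact h6

theorem s9_Psi1 (hN : 0 < N) (hτ : 0 < τ) (w : ℂ) :
    Aj N α τ 2 w * Aj N α τ 0 (-w) - Aj N α τ 0 w * Aj N α τ 2 (-w) =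
      -(cA N α τ : ℂ) * (Complex.I * fj N α τ 1 (Complex.I * w)) := by
  have hA : ∀ k w, HasDerivAt (fun w => Aj N α τ k (-w)) (-Aj N α τ (k + 1) (-w)) w := by
    intro k w
    have := (Aj_hasDerivAt (α := α) (τ := τ) hN k (-w)).comp w (hasDerivAt_neg w)
    exact this.congr_deriv (by ring)
  have hf : ∀ k w, HasDerivAt (fun w => fj N α τ k (Complex.I * w))
      (Complex.I * fj N α τ (k + 1) (Complex.I * w)) w := by
    intro k w
    have h1 : HasDerivAt (fun w : ℂ => Complex.I * w) Complex.I w := by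
      simpa using (hasDerivAt_id w).const_mul Complex.I
    have := (fj_hasDerivAt (α := α) (τ := τ) hN k (Complex.I * w)).comp w h1
    exact this.congr_deriv (by ring)
  have h1 := ((Aj_hasDerivAt (α := α) (τ := τ) hN 1 w).mul (hA 0 w)).add
    ((Aj_hasDerivAt (α := α) (τ := τ) hN 0 w).mul (hA 1 w))
  have h2 : HasDerivAt (fun w => -(cA N α τ : ℂ) * fj N α τ 0 (Complex.I * w))
      (-(cA N α τ : ℂ) * (Complex.I * fj N α τ 1 (Complex.I * w))) w :=
    (hf 0 w).const_mul _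
  have h3 : (fun w => -(cA N α τ : ℂ) * fj N α τ 0 (Complex.I * w)) =
      fun w => Aj N α τ 1 w * Aj N α τ 0 (-w) + Aj N α τ 0 w * Aj N α τ 1 (-w) := by
    ext w
    exact (Psi_identity hN hτ w).symm
  rw [h3] at h2
  have h4 := h1.unique h2
  rw [← h4]
  norm_num
  ring

theorem s9_Psi2 (hN : 0 < N) (hτ : 0 < τ) (w : ℂ) :
    Aj N α τ 3 w * Aj N α τ 0 (-w) - Aj N α τ 2 w * Aj N α τ 1 (-w) -
      (Aj N α τ 1 w * Aj N α τ 2 (-w) - Aj N α τ 0 w * Aj N α τ 3 (-w)) =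
      (cA N α τ : ℂ) * fj N α τ 2 (Complex.I * w) := by
  have hA : ∀ k w, HasDerivAt (fun w => Aj N α τ k (-w)) (-Aj N α τ (k + 1) (-w)) w := by
    intro k w
    have := (Aj_hasDerivAt (α := α) (τ := τ) hN k (-w)).comp w (hasDerivAt_neg w)
    exact this.congr_deriv (by ring)
  have hf : ∀ k w, HasDerivAt (fun w => fj N α τ k (Complex.I * w))
      (Complex.I * fj N α τ (k + 1) (Complex.I * w)) w := by
    intro k w
    have h1 : HasDerivAt (fun w : ℂ => Complex.I * w) Complex.I w := by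
      simpa using (hasDerivAt_id w).const_mul Complex.I
    have := (fj_hasDerivAt (α := α) (τ := τ) hN k (Complex.I * w)).comp w h1
    exact this.congr_deriv (by ring)
  have h1 := ((Aj_hasDerivAt (α := α) (τ := τ) hN 2 w).mul (hA 0 w)).sub
    ((Aj_hasDerivAt (α := α) (τ := τ) hN 0 w).mul (hA 2 w))
  have h2 : HasDerivAt (fun w => -(cA N α τ : ℂ) * (Complex.I * fj N α τ 1 (Complex.I * w)))
      (-(cA N α τ : ℂ) * (Complex.I * (Complex.I * fj N α τ 2 (Complex.I * w)))) w :=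
    ((hf 1 w).const_mul _).const_mul _
  have h3 : (fun w => -(cA N α τ : ℂ) * (Complex.I * fj N α τ 1 (Complex.I * w))) =
      fun w => Aj N α τ 2 w * Aj N α τ 0 (-w) - Aj N α τ 0 w * Aj N α τ 2 (-w) := by
    ext w
    exact (s9_Psi1 hN hτ w).symm
  rw [h3] at h2
  have h4 := h1.unique h2
  have h6 : Complex.I * Complex.I = -1 := Complex.I_mul_I
  norm_num at h4
  linear_combination h4 - (cA N α τ : ℂ) * fj N α τ 2 (Complex.I * w) * h6

theorem s9_cA_ne (hN : 0 < N) (hτ : 0 < τ) : (cA N α τ : ℂ) ≠ 0 := by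
  have : 0 < cA N α τ := by
    unfold cA
    positivity
  exact_mod_cast this.ne'

theorem fj_two_at_zero (hN : 0 < N) (hτ : 0 < τ) (ζ : ℝ) (hζ : 0 < ζ)
    (h : fj N α τ 0 (ζ * Complex.I) = 0) :
    fj N α τ 2 (ζ * Complex.I) = Complex.I * pA N α τ ζ * fj N α τ 1 (ζ * Complex.I) := by
  have hA0 : Aj N α τ 0 (ζ : ℂ) ≠ 0 := Aj_ne_zero hN hτ _ (by rw [Complex.ofReal_re]; exact hζ.le)
  have h0 := Psi_identity (α := α) hN hτ (ζ : ℂ)
  have h1 := s9_Psi1 (α := α) hN hτ (ζ : ℂ)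
  have h2 := s9_Psi2 (α := α) hN hτ (ζ : ℂ)
  have o1 := Aj_ode (α := α) (τ := τ) hN (ζ : ℂ)
  have o2 := Aj_ode (α := α) (τ := τ) hN (-(ζ : ℂ))
  rw [mul_comm Complex.I (ζ : ℂ)] at h0 h1 h2
  rw [h, mul_zero] at h0
  set p : ℂ := pA N α τ ζ with hp
  have hp1 : Aj N α τ 1 ζ = -p * Aj N α τ 0 ζ := by
    rw [hp, pA]
    field_simp
  have hp2 : Aj N α τ 1 (-(ζ : ℂ)) = p * Aj N α τ 0 (-(ζ : ℂ)) := by
    rw [hp1] at h0
    have h3 : Aj N α τ 0 ζ * (Aj N α τ 1 (-(ζ : ℂ)) - p * Aj N α τ 0 (-(ζ : ℂ))) = 0 := by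
      linear_combination h0
    rcases mul_eq_zero.1 h3 with h4 | h4
    · exact absurd h4 hA0
    · exact sub_eq_zero.1 h4
  rw [o1, o2, hp1, hp2] at h2
  have hc := s9_cA_ne (α := α) hN hτ
  apply mul_left_cancel₀ hc
  linear_combination -h2 - p * h1

end

end Pool.Agent.MP_941b23_mp
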