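import Pool.Agent.MP_941b23_mp.Defs2
import Pool.Agent.MP_941b23_mp.S1
import Pool.Agent.MP_941b23_mp.S8b
import Pool.Agent.MP_941b23_mp.S9

/-!
# [QM-S10a] the entire function `F`
-/

namespace Pool.Agent.MP_941b23_mp

open MeasureTheory Set Filter Topology
open scoped ENNReal NNReal Real ComplexConjugate

noncomputable section

variable {N α τ : ℝ}

theorem s10a_sqrt_sq (ξ : ℂ) : (ξ ^ (1 / 2 : ℂ)) ^ 2 = ξ := by
  have h := Complex.cpow_nat_inv_pow ξ (n := 2) two_ne_zero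
  have h2 : (1 / 2 : ℂ) = ((2 : ℕ) : ℂ)⁻¹ := by norm_num
  rw [h2]; exact h

theorem FF_sq (x : ℂ) : FF N α τ (x ^ 2) = fj N α τ 0 x := by
  unfold FF
  have h := s10a_sqrt_sq (x ^ 2)
  rcases sq_eq_sq_iff_eq_or_eq_neg.mp h with h1 | h1
  · rw [h1]
  · rw [h1, fj_neg]; simp

theorem FF_differentiable (hN : 0 < N) : Differentiable ℂ (FF N α τ) := by
  have hf : Differentiable ℂ (fj N α τ 0) := fun x => (fj_hasDerivAt hN 0 x).differentiableAt
  have h0 : ∀ ξ : ℂ, ξ ≠ 0 → DifferentiableAt ℂ (FF N α τ) ξ := by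
    intro ξ hξ
    by_cases hs : ξ ∈ Complex.slitPlane
    · have h1 : DifferentiableAt ℂ (fun z : ℂ => z ^ (1 / 2 : ℂ)) ξ :=
        (differentiableAt_id).cpow_const hs
      exact (hf (ξ ^ (1 / 2 : ℂ))).comp ξ h1
    · have hs' : -ξ ∈ Complex.slitPlane := by
        rw [Complex.mem_slitPlane_iff] at hs ⊢
        push Not at hs
        left
        rw [Complex.neg_re]
        rcases lt_or_eq_of_le hs.1 with h | h
        · linarith
        · exfalso; exact hξ (Complex.ext h hs.2)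
      have h1 : DifferentiableAt ℂ (fun z : ℂ => Complex.I * (-z) ^ (1 / 2 : ℂ)) ξ :=
        ((differentiableAt_id.neg).cpow_const hs').const_mul _
      have h2 : FF N α τ = fun z => fj N α τ 0 (Complex.I * (-z) ^ (1 / 2 : ℂ)) := by
        funext z
        rw [← FF_sq, mul_pow, s10a_sqrt_sq, Complex.I_sq]
        congr 1; ring
      rw [h2]
      exact (hf _).comp ξ h1
  have hc : ContinuousAt (FF N α τ) 0 := by
    have h1 : ContinuousAt (fun z : ℂ => z ^ (1 / 2 : ℂ)) 0 := by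
      apply Complex.continuousAt_cpow_const_of_re_pos
      · left; simp
      · norm_num
    exact (hf.continuous.continuousAt).comp h1
  rw [← differentiableOn_univ,
    ← Complex.differentiableOn_compl_singleton_and_continuousAt_iff (c := (0 : ℂ)) univ_mem]
  refine ⟨fun z hz => (h0 z ?_).differentiableWithinAt, hc⟩
  simpa using hz.2

theorem FF_growth (hN : 0 < N) : ∃ C : ℝ, 0 < C ∧ ∀ ξ : ℂ,
    ‖FF N α τ ξ‖ ≤ Real.exp (C * (1 + ‖ξ‖ ^ (2 / 3 : ℝ))) := by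
  obtain ⟨C, hC, h⟩ := fj_growth (N := N) (α := α) (τ := τ) hN
  refine ⟨C, hC, fun ξ => ?_⟩
  have h1 := h (ξ ^ (1 / 2 : ℂ))
  have h2 : ‖ξ ^ (1 / 2 : ℂ)‖ = ‖ξ‖ ^ (1 / 2 : ℝ) := by
    have : (1 / 2 : ℂ) = ((1 / 2 : ℝ) : ℂ) := by norm_num
    rw [this, Complex.norm_cpow_real]
  rw [h2, ← Real.rpow_mul (norm_nonneg _)] at h1
  have h3 : (1 / 2 : ℝ) * (4 / 3) = 2 / 3 := by norm_num
  rw [h3] at h1
  exact h1

theorem s10a_FF_zero (hN : 0 < N) : FF N α τ 0 ≠ 0 := by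
  have h1 : FF N α τ ((0 : ℂ) ^ 2) = fj N α τ 0 0 := FF_sq 0
  have h2 : (0 : ℂ) ^ 2 = 0 := by norm_num
  rw [h2] at h1
  rw [h1]
  intro h3
  have h4 := fj_zero_pos (α := α) (τ := τ) hN 0
  rw [Complex.ofReal_zero, h3] at h4
  simp at h4

theorem FF_eq_zero_iff (hN : 0 < N) (hτ : 0 < τ) (ξ : ℂ) :
    FF N α τ ξ = 0 ↔ ∃ t ∈ Zt N α τ, ξ = -(t : ℂ) := by
  constructor
  · intro h
    have h1 : fj N α τ 0 (ξ ^ (1 / 2 : ℂ)) = 0 := h
    have hre := fj_zero_re hN hτ _ h1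
    set x := ξ ^ (1 / 2 : ℂ) with hx
    have hxx : x ^ 2 = ξ := s10a_sqrt_sq ξ
    have hx2 : x = (x.im : ℂ) * Complex.I := by
      apply Complex.ext <;> simp [hre]
    have hxi : ξ = -((x.im ^ 2 : ℝ) : ℂ) := by
      rw [← hxx]
      conv_lhs => rw [hx2]
      rw [mul_pow, Complex.I_sq]
      push_cast; ring
    refine ⟨x.im ^ 2, ⟨?_, ?_⟩, hxi⟩
    · have hne : x.im ≠ 0 := by
        intro h0
        rw [h0] at hxi
        apply s10a_FF_zero (α := α) (τ := τ) hN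
        rw [hxi] at h
        simpa using h
      positivity
    · rw [← hxi]; exact h
  · rintro ⟨t, ht, rfl⟩
    exact ht.2

theorem FF_deriv_ne_zero (hN : 0 < N) (hτ : 0 < τ) (t : ℝ) (ht : t ∈ Zt N α τ) :
    deriv (FF N α τ) (-(t : ℂ)) ≠ 0 := by
  intro h0
  set ζ := √t with hζ
  have hζ0 : 0 < ζ := Real.sqrt_pos.mpr ht.1
  have hsq : ((ζ : ℂ) * Complex.I) ^ 2 = -(t : ℂ) := by
    rw [mul_pow, Complex.I_sq, ← Complex.ofReal_pow, hζ, Real.sq_sqrt ht.1.le]; ring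
  have hz : fj N α τ 0 ((ζ : ℂ) * Complex.I) = 0 := by
    rw [← FF_sq, hsq]; exact ht.2
  have hne := (fj_one_sq hN hτ ζ hζ0 hz).2.2
  apply hne
  have hF : HasDerivAt (FF N α τ) 0 (((ζ : ℂ) * Complex.I) ^ 2) := by
    rw [hsq, ← h0]
    exact (FF_differentiable hN _).hasDerivAt
  have hs : HasDerivAt (fun x : ℂ => x ^ 2) (2 * ((ζ : ℂ) * Complex.I)) ((ζ : ℂ) * Complex.I) := by
    simpa using hasDerivAt_pow 2 ((ζ : ℂ) * Complex.I)
  have hc : HasDerivAt (fun x : ℂ => FF N α τ (x ^ 2)) (0 * (2 * ((ζ : ℂ) * Complex.I)))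
      ((ζ : ℂ) * Complex.I) :=
    HasDerivAt.comp (h₂ := FF N α τ) (h := fun x : ℂ => x ^ 2) ((ζ : ℂ) * Complex.I) hF hs
  have he : (fun x : ℂ => FF N α τ (x ^ 2)) = fj N α τ 0 := by
    funext x; exact FF_sq x
  rw [he, zero_mul] at hc
  exact (fj_hasDerivAt hN 0 _).unique hc

theorem Zt_finite (hN : 0 < N) (hτ : 0 < τ) (R : ℝ) : (Zt N α τ ∩ Iic R).Finite := by
  by_contra hinf
  have hinf : (Zt N α τ ∩ Iic R).Infinite := hinf
  have hsub : Zt N α τ ∩ Iic R ⊆ Icc 0 R := fun t ht => ⟨ht.1.1.le, ht.2⟩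
  obtain ⟨t₀, -, hacc⟩ := hinf.exists_accPt_of_subset_isCompact isCompact_Icc hsub
  rw [accPt_iff_frequently_nhdsNE] at hacc
  have han : AnalyticOnNhd ℂ (FF N α τ) univ :=
    (FF_differentiable hN).differentiableOn.analyticOnNhd isOpen_univ
  have hmap : Tendsto (fun t : ℝ => -(t : ℂ)) (𝓝[≠] t₀) (𝓝[≠] (-(t₀ : ℂ))) := by
    apply tendsto_nhdsWithin_of_tendsto_nhds_of_eventually_within
    · exact (Complex.continuous_ofReal.neg.tendsto t₀).mono_left nhdsWithin_le_nhds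
    · filter_upwards [self_mem_nhdsWithin] with t ht
      intro h
      apply ht
      have := neg_injective h
      exact_mod_cast this
  have hfr : ∃ᶠ z in 𝓝[≠] (-(t₀ : ℂ)), FF N α τ z = 0 := by
    apply hmap.frequently
    exact hacc.mono fun t ht => ht.1.2
  have hz := han.eqOn_zero_of_preconnected_of_frequently_eq_zero isPreconnected_univ
    (mem_univ _) hfr
  exact s10a_FF_zero (α := α) (τ := τ) hN (hz (mem_univ 0))

theorem Zt_countable (hN : 0 < N) (hτ : 0 < τ) : (Zt N α τ).Countable := by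
  have h : Zt N α τ ⊆ ⋃ n : ℕ, Zt N α τ ∩ Iic (n : ℝ) := by
    intro t ht
    obtain ⟨n, hn⟩ := exists_nat_ge t
    exact mem_iUnion.mpr ⟨n, ht, hn⟩
  exact (Set.countable_iUnion fun n : ℕ => (Zt_finite hN hτ (n : ℝ)).countable).mono h

end

end Pool.Agent.MP_941b23_mp
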