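import Pool.Agent.MP_941b23_mp.Defs2

/-!
[QM-S5] factorisation of entire functions on discs.
-/

namespace Pool.Agent.MP_941b23_mp

open MeasureTheory Set Filter Topology
open scoped ENNReal NNReal Real ComplexConjugate

noncomputable section

/-- `g = ∏ (1 - z/a) h` with `h` entire, all `a` in the ball of radius `ρ`. -/
def s5_fac (g : ℂ → ℂ) (ρ : ℝ) (T : Multiset ℂ) : Prop :=
  (∀ a ∈ T, a ≠ 0 ∧ ‖a‖ < ρ) ∧ ∃ h : ℂ → ℂ, Differentiable ℂ h ∧
    ∀ z, g z = (T.map fun a => 1 - z / a).prod * h z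

theorem s5_fac_zero (g : ℂ → ℂ) (hg : Differentiable ℂ g) (ρ : ℝ) : s5_fac g ρ 0 := by
  refine ⟨by simp, g, hg, fun z => by simp⟩

theorem s5_prod_zero (T : Multiset ℂ) : (T.map fun a => 1 - (0 : ℂ) / a).prod = 1 := by
  simp

theorem s5_fac_cons {g : ℂ → ℂ} {ρ : ℝ} {T : Multiset ℂ} (hT : ∀ a ∈ T, a ≠ 0 ∧ ‖a‖ < ρ)
    {h : ℂ → ℂ} (hh : Differentiable ℂ h) (hgh : ∀ z, g z = (T.map fun a => 1 - z / a).prod * h z)
    {w : ℂ} (hw : w ≠ 0) (hwρ : ‖w‖ < ρ) (hhw : h w = 0) : s5_fac g ρ (w ::ₘ T) := by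
  refine ⟨?_, fun z => -w * dslope h w z, ?_, ?_⟩
  · intro a ha
    rcases Multiset.mem_cons.1 ha with h1 | h1
    · rw [h1]; exact ⟨hw, hwρ⟩
    · exact hT a h1
  · apply Differentiable.const_mul
    have h1 := (Complex.differentiableOn_dslope (f := h) (s := univ) (c := w)
      Filter.univ_mem).2 hh.differentiableOn
    exact differentiableOn_univ.1 h1
  · intro z
    rw [Multiset.map_cons, Multiset.prod_cons, hgh z]
    have h2 := sub_smul_dslope h w z
    rw [hhw, sub_zero, smul_eq_mul] at h2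
    rw [← h2]
    field_simp
    ring

theorem s5_card {g : ℂ → ℂ} (h0 : g 0 ≠ 0) {R M : ℝ} (hR : 0 < R)
    (hb : ∀ z : ℂ, ‖z‖ ≤ R → ‖g z‖ ≤ Real.exp M * ‖g 0‖) {T : Multiset ℂ}
    (hT : ∀ a ∈ T, a ≠ 0 ∧ ‖a‖ < R / 3) {h : ℂ → ℂ} (hh : Differentiable ℂ h)
    (hgh : ∀ z, g z = (T.map fun a => 1 - z / a).prod * h z) :
    (2 : ℝ) ^ Multiset.card T ≤ Real.exp M ∧
      ∀ z : ℂ, ‖z‖ ≤ R → ‖h z‖ ≤ Real.exp M * ‖g 0‖ := by
  have hprod : ∀ z : ℂ, ‖z‖ = R → (2 : ℝ) ^ Multiset.card T ≤
      ‖(T.map fun a => 1 - z / a).prod‖ := by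
    intro z hz
    clear hgh
    induction T using Multiset.induction_on with
    | empty => simp
    | cons a T ih =>
      have ha := hT a (Multiset.mem_cons_self a T)
      have ih' := ih (fun b hb' => hT b (Multiset.mem_cons_of_mem hb'))
      rw [Multiset.map_cons, Multiset.prod_cons, norm_mul, Multiset.card_cons, pow_succ, mul_comm]
      apply mul_le_mul _ ih' (by positivity) (norm_nonneg _)
      have h1 : ‖z / a‖ = R / ‖a‖ := by rw [norm_div, hz]
      have h2 : 0 < ‖a‖ := norm_pos_iff.2 ha.1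
      have h3 : 3 ≤ R / ‖a‖ := by
        rw [le_div_iff₀ h2]
        linarith [ha.2]
      have h4 : ‖z / a‖ - ‖(1 : ℂ)‖ ≤ ‖1 - z / a‖ := by
        rw [norm_sub_rev]
        exact norm_sub_norm_le _ _
      rw [h1, norm_one] at h4
      linarith
  have hfr : ∀ z ∈ frontier (Metric.ball (0 : ℂ) R), ‖h z‖ ≤
      Real.exp M * ‖g 0‖ / 2 ^ Multiset.card T := by
    intro z hz
    rw [frontier_ball (0 : ℂ) hR.ne', mem_sphere_zero_iff_norm] at hz
    have h1 := hb z hz.le
    have h2 := hprod z hz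
    rw [hgh z, norm_mul] at h1
    rw [le_div_iff₀ (by positivity)]
    calc ‖h z‖ * 2 ^ Multiset.card T ≤ ‖h z‖ * ‖(T.map fun a => 1 - z / a).prod‖ :=
          mul_le_mul_of_nonneg_left h2 (norm_nonneg _)
      _ = ‖(T.map fun a => 1 - z / a).prod‖ * ‖h z‖ := mul_comm _ _
      _ ≤ _ := h1
  have hcl : ∀ z : ℂ, ‖z‖ ≤ R → ‖h z‖ ≤ Real.exp M * ‖g 0‖ / 2 ^ Multiset.card T := by
    intro z hz
    apply Complex.norm_le_of_forall_mem_frontier_norm_le (U := Metric.ball (0 : ℂ) R)
      Metric.isBounded_ball hh.diffContOnCl hfr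
    rw [closure_ball (0 : ℂ) hR.ne']
    exact mem_closedBall_zero_iff.2 hz
  have hg0 : 0 < ‖g 0‖ := norm_pos_iff.2 h0
  constructor
  · have h1 := hcl 0 (by simpa using hR.le)
    have h2 : g 0 = h 0 := by rw [hgh 0, s5_prod_zero, one_mul]
    rw [← h2, le_div_iff₀ (by positivity)] at h1
    have h3 : ‖g 0‖ * 2 ^ Multiset.card T ≤ ‖g 0‖ * Real.exp M := by
      rw [mul_comm (‖g 0‖) (Real.exp M)]; exact h1
    exact le_of_mul_le_mul_left h3 hg0
  · intro z hz
    refine (hcl z hz).trans ?_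
    apply div_le_self (by positivity)
    exact one_le_pow₀ (by norm_num)

theorem s5_card_le {k : ℕ} {M : ℝ} (h : (2 : ℝ) ^ k ≤ Real.exp M) :
    (k : ℝ) ≤ 2 * M := by
  have h1 : (k : ℝ) * Real.log 2 ≤ M := by
    have h2 := Real.log_le_log (by positivity) h
    rwa [Real.log_exp, Real.log_pow] at h2
  have h3 : (1 / 2 : ℝ) ≤ Real.log 2 := by
    have := Real.log_two_gt_d9
    linarith
  have h4 : (k : ℝ) * (1 / 2) ≤ k * Real.log 2 := mul_le_mul_of_nonneg_left h3 (Nat.cast_nonneg k)
  linarith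

theorem s5_order {g h : ℂ → ℂ} (hg : Differentiable ℂ g) (hh : Differentiable ℂ h)
    {T : Multiset ℂ} (hT : ∀ a ∈ T, a ≠ 0)
    (hgh : ∀ z, g z = (T.map fun a => 1 - z / a).prod * h z) {w : ℂ} (hhw : h w ≠ 0) :
    analyticOrderAt g w = (T.count w : ℕ) := by
  classical
  rw [(hg.analyticAt w).analyticOrderAt_eq_natCast]
  by_cases hw : w = 0
  · have hc : T.count w = 0 := by
      rw [Multiset.count_eq_zero]
      intro hwT
      exact hT w hwT hw
    refine ⟨g, hg.analyticAt w, ?_, ?_⟩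
    · have h1 : g w = h w := by
        subst hw
        rw [hgh 0, s5_prod_zero, one_mul]
      rw [h1]
      exact hhw
    · rw [hc]
      simp
  · have hsplit : ∀ z, (T.map fun a => 1 - z / a).prod =
        (1 - z / w) ^ T.count w * ((T.filter (fun a => a ≠ w)).map fun a => 1 - z / a).prod := by
      intro z
      have h1 : T.filter (fun a => a = w) = Multiset.replicate (T.count w) w := by
        rw [Multiset.filter_eq']
      have h2 : T = Multiset.filter (fun a => a = w) T + Multiset.filter (fun a => ¬ a = w) T :=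
        (Multiset.filter_add_not (fun a => a = w) T).symm
      conv_lhs => rw [h2]
      rw [Multiset.map_add, Multiset.prod_add, h1, Multiset.map_replicate, Multiset.prod_replicate]
    refine ⟨fun z => (-1 / w) ^ T.count w *
      (((T.filter (fun a => a ≠ w)).map fun a => 1 - z / a).prod * h z), ?_, ?_, ?_⟩
    · apply Differentiable.analyticAt
      apply Differentiable.const_mul
      apply Differentiable.mul _ hh
      have : ∀ S : Multiset ℂ, Differentiable ℂ (fun z : ℂ => (S.map fun a => 1 - z / a).prod) := by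
        intro S
        induction S using Multiset.induction_on with
        | empty => simp
        | cons a S ih =>
          simp only [Multiset.map_cons, Multiset.prod_cons]
          exact ((differentiable_const _).sub (differentiable_id.div_const a)).mul ih
      exact this _
    · apply mul_ne_zero
      · apply pow_ne_zero
        exact div_ne_zero (by norm_num) hw
      · apply mul_ne_zero _ hhw
        apply Multiset.prod_ne_zero
        intro h5
        obtain ⟨a, ha, ha2⟩ := Multiset.mem_map.1 h5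
        rw [Multiset.mem_filter] at ha
        have ha0 := hT a ha.1
        have h6 : w / a = 1 := (sub_eq_zero.1 ha2).symm
        rw [div_eq_one_iff_eq ha0] at h6
        exact ha.2 h6.symm
    · filter_upwards with z
      rw [hgh z, hsplit z, smul_eq_mul]
      have h3 : (1 - z / w) = (z - w) * (-1 / w) := by
        field_simp
        ring
      rw [h3, mul_pow]
      ring

open Classical in
theorem entire_factor (g : ℂ → ℂ) (hg : Differentiable ℂ g) (h0 : g 0 ≠ 0) (R M : ℝ) (hR : 0 < R)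
    (hM : 0 < M) (hb : ∀ z : ℂ, ‖z‖ ≤ R → ‖g z‖ ≤ Real.exp M * ‖g 0‖) :
    ∃ (S : Multiset ℂ) (L : ℂ → ℂ),
      (∀ w, S.count w = if ‖w‖ < R / 3 then analyticOrderNatAt g w else 0) ∧
      (Multiset.card S : ℝ) ≤ 2 * M ∧
      DifferentiableOn ℂ L (Metric.ball 0 (R / 3)) ∧ L 0 = 0 ∧
      (∀ z ∈ Metric.ball (0 : ℂ) (R / 3),
        g z = g 0 * (S.map fun a => 1 - z / a).prod * Complex.exp (L z)) ∧
      (∀ z ∈ Metric.ball (0 : ℂ) (R / 3), ‖L z‖ ≤ 2 * M * ‖z‖ / (R / 3 - ‖z‖)) := by
  -- a maximal factorisation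
  have hbd : ∀ T, s5_fac g (R / 3) T → (Multiset.card T : ℝ) ≤ 2 * M := by
    rintro T ⟨hT, h, hh, hgh⟩
    exact s5_card_le (s5_card h0 hR hb hT hh hgh).1
  obtain ⟨T, hTfac, hTmax⟩ : ∃ T, s5_fac g (R / 3) T ∧
      ∀ T', s5_fac g (R / 3) T' → Multiset.card T' ≤ Multiset.card T := by
    have hfin : BddAbove {n : ℕ | ∃ T, s5_fac g (R / 3) T ∧ Multiset.card T = n} := by
      refine ⟨⌈2 * M⌉₊, ?_⟩
      rintro n ⟨T, hT, rfl⟩
      have h1 := (hbd T hT).trans (Nat.le_ceil (2 * M))
      exact_mod_cast h1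
    have hne : {n : ℕ | ∃ T, s5_fac g (R / 3) T ∧ Multiset.card T = n}.Nonempty :=
      ⟨0, 0, s5_fac_zero g hg _, Multiset.card_zero⟩
    obtain ⟨T, hT, hTn⟩ := Nat.sSup_mem hne hfin
    refine ⟨T, hT, fun T' hT' => ?_⟩
    rw [hTn]
    exact le_csSup hfin ⟨T', hT', rfl⟩
  obtain ⟨hT, h, hh, hgh⟩ := hTfac
  have hgh0 : g 0 = h 0 := by rw [hgh 0, s5_prod_zero, one_mul]
  have hnz : ∀ w : ℂ, ‖w‖ < R / 3 → h w ≠ 0 := by
    intro w hw hhw
    have hw0 : w ≠ 0 := by
      rintro rfl
      exact h0 (hgh0.trans hhw)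
    have h1 := hTmax _ (s5_fac_cons hT hh hgh hw0 hw hhw)
    rw [Multiset.card_cons] at h1
    omega
  obtain ⟨hcard, hhb⟩ := s5_card h0 hR hb hT hh hgh
  have hR3 : (0 : ℝ) < R / 3 := by positivity
  have h0ball : (0 : ℂ) ∈ Metric.ball (0 : ℂ) (R / 3) := Metric.mem_ball_self hR3
  -- logarithm
  have hdiff : DifferentiableOn ℂ (fun z => deriv h z / h z) (Metric.ball (0 : ℂ) (R / 3)) := by
    apply DifferentiableOn.div
    · exact (hh.deriv).differentiableOn
    · exact hh.differentiableOn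
    · intro z hz
      exact hnz z (mem_ball_zero_iff.1 hz)
  obtain ⟨L, hL0, hL⟩ := (hdiff.isExactOn_ball).with_val_at 0 0
  have hexp : ∀ z ∈ Metric.ball (0 : ℂ) (R / 3), h z = h 0 * Complex.exp (L z) := by
    have hder : ∀ z ∈ Metric.ball (0 : ℂ) (R / 3),
        HasDerivAt (fun z => h z * Complex.exp (-L z)) 0 z := by
      intro z hz
      have h4 : HasDerivAt (fun z => -L z) (-(deriv h z / h z)) z := (hL z hz).neg
      have h1 : HasDerivAt (fun z => h z * Complex.exp (-L z))
          (deriv h z * Complex.exp (-L z) +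
            h z * (Complex.exp (-L z) * -(deriv h z / h z))) z :=
        (hh z).hasDerivAt.mul h4.cexp
      have h2 := hnz z (mem_ball_zero_iff.1 hz)
      have h5 : deriv h z * Complex.exp (-L z) +
            h z * (Complex.exp (-L z) * -(deriv h z / h z)) = 0 := by
        field_simp
        ring
      rwa [h5] at h1
    have hconst : ∀ z ∈ Metric.ball (0 : ℂ) (R / 3),
        (fun z => h z * Complex.exp (-L z)) z = (fun z => h z * Complex.exp (-L z)) 0 := by
      intro z hz
      apply (convex_ball (0 : ℂ) (R / 3)).is_const_of_fderivWithin_eq_zero (𝕜 := ℂ) _ _ hz h0ball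
      · intro x hx
        exact (hder x hx).differentiableAt.differentiableWithinAt
      · intro x hx
        rw [((hder x hx).hasFDerivAt.hasFDerivWithinAt).fderivWithin
          (Metric.isOpen_ball.uniqueDiffWithinAt hx)]
        simp
    intro z hz
    have h3 := hconst z hz
    simp only [hL0, neg_zero, Complex.exp_zero, mul_one] at h3
    rw [← h3, mul_assoc, ← Complex.exp_add, neg_add_cancel, Complex.exp_zero, mul_one]
  refine ⟨T, L, ?_, s5_card_le hcard, ?_, hL0, ?_, ?_⟩
  · intro w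
    split_ifs with hw
    · rw [analyticOrderNatAt, s5_order hg hh (fun a ha => (hT a ha).1) hgh (hnz w hw)]
      simp
    · rw [Multiset.count_eq_zero]
      intro hwT
      exact hw (hT w hwT).2
  · intro z hz
    exact (hL z hz).differentiableAt.differentiableWithinAt
  · intro z hz
    rw [hgh z, hexp z hz, hgh0]
    ring
  · intro z hz
    apply Complex.borelCaratheodory_zero hM _ _ hR3 hz hL0
    · intro z hz
      exact (hL z hz).differentiableAt.differentiableWithinAt
    · intro w hw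
      have h1 := hexp w hw
      have h2 := hhb w ((mem_ball_zero_iff.1 hw).le.trans (by linarith))
      rw [h1, norm_mul, Complex.norm_exp, ← hgh0, mul_comm] at h2
      have h3 := le_of_mul_le_mul_right h2 (norm_pos_iff.2 h0)
      exact Real.exp_le_exp.1 h3

end

end Pool.Agent.MP_941b23_mp
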