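import Pool.Agent.MP_941b23_mp.Defs2
import Pool.Agent.MP_941b23_mp.S1
import Pool.Agent.MP_941b23_mp.S10a
import Pool.Agent.MP_941b23_mp.S5

/-!
# [QM-S10b] the product for `F`
-/

namespace Pool.Agent.MP_941b23_mp

open MeasureTheory Set Filter Topology
open scoped ENNReal NNReal Real ComplexConjugate

noncomputable section

variable {N α τ : ℝ}

/-- the abstract situation -/
structure s10b_H (F : ℂ → ℂ) (Z : Set ℝ) (C : ℝ) : Prop where
  diff : Differentiable ℂ F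
  F0 : F 0 ≠ 0
  pos : ∀ t ∈ Z, 0 < t
  zero : ∀ ξ, F ξ = 0 ↔ ∃ t ∈ Z, ξ = -(t : ℂ)
  simple : ∀ t ∈ Z, deriv F (-(t : ℂ)) ≠ 0
  fin : ∀ R : ℝ, (Z ∩ Iic R).Finite
  C0 : 0 < C
  growth : ∀ ξ : ℂ, ‖F ξ‖ ≤ Real.exp (C * (1 + ‖ξ‖ ^ (2 / 3 : ℝ)))

namespace s10b_H

variable {F : ℂ → ℂ} {Z : Set ℝ} {C : ℝ} (h : s10b_H F Z C)

include h in
theorem finR (R : ℝ) : {t : Z | (t : ℝ) < R}.Finite := by
  have h1 : (Subtype.val ⁻¹' (Z ∩ Iic R) : Set Z).Finite :=
    (h.fin R).preimage Subtype.val_injective.injOn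
  exact h1.subset (fun t ht => ⟨t.2, le_of_lt (show (t : ℝ) < R from ht)⟩)

/-- zeros of size `< R` -/
def A (R : ℝ) : Finset Z := (h.finR R).toFinset

theorem mem_A {R : ℝ} {t : Z} : t ∈ h.A R ↔ (t : ℝ) < R := by
  simp [A]

/-- the bound -/
def MM (F : ℂ → ℂ) (C R : ℝ) : ℝ := C * (1 + (3 * R) ^ (2 / 3 : ℝ)) + (|Real.log ‖F 0‖| + 1)

include h in
theorem MM_pos {R : ℝ} (hR : 0 ≤ R) : 0 < MM F C R := by
  have h1 := h.C0
  have h2 : 0 ≤ (3 * R) ^ (2 / 3 : ℝ) := Real.rpow_nonneg (by positivity) _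
  unfold MM
  positivity

theorem factor {R : ℝ} (hR : 0 < R) :
    ∃ L : ℂ → ℂ, ((h.A R).card : ℝ) ≤ 2 * MM F C R ∧
      DifferentiableOn ℂ L (Metric.ball 0 R) ∧
      (∀ z ∈ Metric.ball (0 : ℂ) R, F z = F 0 * (∏ t ∈ h.A R, (1 + z / ((t : ℝ) : ℂ))) *
        Complex.exp (L z)) ∧
      (∀ z ∈ Metric.ball (0 : ℂ) R, ‖L z‖ ≤ 2 * MM F C R * ‖z‖ / (R - ‖z‖)) := by
  classical
  have hF0 : 0 < ‖F 0‖ := norm_pos_iff.2 h.F0
  obtain ⟨S, L, hS, hcard, hL, -, hfac, hbd⟩ := entire_factor F h.diff h.F0 (3 * R) (MM F C R)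
    (by positivity) (h.MM_pos hR.le) (by
      intro z hz
      refine (h.growth z).trans ?_
      have h0 : Real.exp (MM F C R) * ‖F 0‖ = Real.exp (MM F C R + Real.log ‖F 0‖) := by
        rw [Real.exp_add, Real.exp_log hF0]
      rw [h0, Real.exp_le_exp]
      have h1 : ‖z‖ ^ (2 / 3 : ℝ) ≤ (3 * R) ^ (2 / 3 : ℝ) :=
        Real.rpow_le_rpow (norm_nonneg _) hz (by norm_num)
      have h2 := mul_le_mul_of_nonneg_left h1 h.C0.le
      have h3 := neg_abs_le (Real.log ‖F 0‖)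
      unfold MM
      linarith)
  have e3 : 3 * R / 3 = R := by ring
  rw [e3] at hL hfac hbd
  have hord : ∀ w, analyticOrderNatAt F w = if F w = 0 then 1 else 0 := by
    intro w
    have han : AnalyticAt ℂ F w := h.diff.analyticAt w
    by_cases hw : F w = 0
    · rw [if_pos hw]
      obtain ⟨t, ht, rfl⟩ := (h.zero w).1 hw
      have h1 := han.analyticOrderAt_sub_eq_one_of_deriv_ne_zero (h.simple t ht)
      simp only [hw, sub_zero] at h1
      unfold analyticOrderNatAt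
      rw [h1]
      rfl
    · rw [if_neg hw]
      have h1 : analyticOrderAt F w = 0 := (han.analyticOrderAt_eq_zero).2 hw
      unfold analyticOrderNatAt
      rw [h1]
      rfl
  have hSeq : S = (h.A R).val.map (fun t : Z => -((t : ℝ) : ℂ)) := by
    have hn1 : S.Nodup := by
      rw [Multiset.nodup_iff_count_le_one]
      intro w
      rw [hS, hord]
      split_ifs <;> norm_num
    have hinj : Function.Injective (fun t : Z => -((t : ℝ) : ℂ)) := by
      intro t t' htt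
      have h1 : ((t : ℝ) : ℂ) = ((t' : ℝ) : ℂ) := neg_injective htt
      exact Subtype.ext (by exact_mod_cast h1)
    have hn2 : ((h.A R).val.map (fun t : Z => -((t : ℝ) : ℂ))).Nodup :=
      (h.A R).nodup.map hinj
    rw [hn1.ext hn2]
    intro w
    rw [← Multiset.one_le_count_iff_mem, hS, hord, e3, Multiset.mem_map]
    constructor
    · intro h1
      have hw1 : ‖w‖ < R := by
        by_contra hc
        rw [if_neg hc] at h1
        exact absurd h1 (by norm_num)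
      have hw2 : F w = 0 := by
        by_contra hc
        rw [if_pos hw1, if_neg hc] at h1
        exact absurd h1 (by norm_num)
      obtain ⟨t, ht, rfl⟩ := (h.zero w).1 hw2
      refine ⟨⟨t, ht⟩, ?_, rfl⟩
      rw [norm_neg, Complex.norm_real, Real.norm_of_nonneg (h.pos t ht).le] at hw1
      exact h.mem_A.2 hw1
    · rintro ⟨t, ht, rfl⟩
      have h1 : (t : ℝ) < R := h.mem_A.1 ht
      have h2 : ‖-((t : ℝ) : ℂ)‖ < R := by
        rw [norm_neg, Complex.norm_real, Real.norm_of_nonneg (h.pos t t.2).le]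
        exact h1
      rw [if_pos h2, if_pos ((h.zero _).2 ⟨t, t.2, rfl⟩)]
  refine ⟨L, ?_, hL, ?_, hbd⟩
  · rw [hSeq, Multiset.card_map] at hcard
    exact hcard
  · intro z hz
    rw [hfac z hz, hSeq, Multiset.map_map]
    congr 2
    change (Multiset.map _ _).prod = ((h.A R).val.map _).prod
    congr 1
    apply Multiset.map_congr rfl
    intro t _
    simp only [Function.comp_apply]
    rw [div_neg, sub_neg_eq_add]

/-- a counting bound -/
theorem card_le : ∃ K : ℝ, 0 < K ∧ ∀ T : ℝ, 1 ≤ T → ((h.A T).card : ℝ) ≤ K * T ^ (2 / 3 : ℝ) := by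
  refine ⟨2 * (C * (1 + 3 ^ (2 / 3 : ℝ)) + (|Real.log ‖F 0‖| + 1)), ?_, ?_⟩
  · have := h.C0
    positivity
  · intro T hT
    obtain ⟨L, h1, -⟩ := h.factor (R := T) (by linarith)
    refine h1.trans ?_
    have h2 : (1 : ℝ) ≤ T ^ (2 / 3 : ℝ) := Real.one_le_rpow hT (by norm_num)
    unfold MM
    rw [Real.mul_rpow (by norm_num) (by linarith)]
    have h3 := h.C0
    have h4 : 0 ≤ |Real.log ‖F 0‖| + 1 := by positivity
    nlinarith [mul_le_mul_of_nonneg_left h2 h3.le, mul_le_mul_of_nonneg_left h2 h4]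

include h in
theorem summ {s : ℝ} (hs : 2 / 3 < s) : Summable fun t : Z => (t : ℝ) ^ (-s) := by
  classical
  obtain ⟨K, hK, hcard⟩ := h.card_le
  set x : ℝ := (2 : ℝ) ^ (2 / 3 : ℝ) with hx
  set y : ℝ := (2 : ℝ) ^ (-s) with hy
  have hx0 : 0 < x := Real.rpow_pos_of_pos (by norm_num) _
  have hy0 : 0 < y := Real.rpow_pos_of_pos (by norm_num) _
  have hxy : x * y < 1 := by
    rw [hx, hy, ← Real.rpow_add (by norm_num)]
    exact Real.rpow_lt_one_of_one_lt_of_neg (by norm_num) (by linarith)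
  have hf0 : ∀ t : Z, 0 ≤ (t : ℝ) ^ (-s) := fun t => Real.rpow_nonneg (h.pos t t.2).le _
  set c0 : ℝ := ∑ t ∈ h.A 2, (t : ℝ) ^ (-s) with hc0
  have hc00 : 0 ≤ c0 := Finset.sum_nonneg fun t _ => hf0 t
  set b : ℕ → ℝ := fun k => K * x * (x * y) ^ k + (if k = 0 then c0 else 0) with hb
  have hbs : Summable b := by
    apply Summable.add
    · exact (summable_geometric_of_lt_one (by positivity) hxy).mul_left _
    · exact summable_of_ne_finset_zero (s := {0}) (by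
        intro k hk
        rw [if_neg (by simpa using hk)])
  have hb0 : ∀ k, 0 ≤ b k := by
    intro k
    simp only [hb]
    split_ifs <;> positivity
  refine summable_of_sum_le (c := ∑' k, b k) hf0 (fun u => ?_)
  set g : Z → ℕ := fun t => Nat.log 2 ⌊(t : ℝ)⌋₊ with hg
  rw [← Finset.sum_fiberwise_of_maps_to (s := u) (t := u.image g) (g := g)
    (fun t ht => Finset.mem_image_of_mem g ht)]
  refine le_trans (Finset.sum_le_sum (g := b) ?_) (hbs.sum_le_tsum _ (fun k _ => hb0 k))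
  intro k _
  have hlt : ∀ t : Z, g t = k → (t : ℝ) < 2 ^ (k + 1) := by
    intro t ht
    have h1 := Nat.lt_pow_succ_log_self (b := 2) (by norm_num) ⌊(t : ℝ)⌋₊
    have h2 : Nat.log 2 ⌊(t : ℝ)⌋₊ = k := ht
    rw [h2] at h1
    have h3 := (Nat.floor_lt (h.pos t t.2).le).1 h1
    exact_mod_cast h3
  by_cases hk : k = 0
  · subst hk
    have h1 : ∑ t ∈ u with g t = 0, (t : ℝ) ^ (-s) ≤ c0 := by
      apply Finset.sum_le_sum_of_subset_of_nonneg
      · intro t ht
        rw [Finset.mem_filter] at ht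
        rw [h.mem_A]
        have := hlt t ht.2
        norm_num at this
        exact this
      · intro t _ _
        exact hf0 t
    refine h1.trans ?_
    simp only [hb, if_true, pow_zero, mul_one]
    have : 0 < K * x := by positivity
    linarith
  · have hge : ∀ t : Z, g t = k → (2 : ℝ) ^ k ≤ (t : ℝ) := by
      intro t ht
      have h2 : Nat.log 2 ⌊(t : ℝ)⌋₊ = k := ht
      have h3 : ⌊(t : ℝ)⌋₊ ≠ 0 := by
        intro h4
        rw [h4, Nat.log_zero_right] at h2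
        exact hk h2.symm
      have h1 := Nat.pow_log_le_self 2 h3
      rw [h2] at h1
      have h5 := Nat.floor_le (h.pos t t.2).le
      have h6 : ((2 ^ k : ℕ) : ℝ) ≤ (⌊(t : ℝ)⌋₊ : ℝ) := by exact_mod_cast h1
      push_cast at h6
      linarith
    have h1 : ∑ t ∈ u with g t = k, (t : ℝ) ^ (-s) ≤
        ((u.filter fun t => g t = k).card : ℝ) * ((2 : ℝ) ^ k) ^ (-s) := by
      rw [← nsmul_eq_mul]
      apply Finset.sum_le_card_nsmul
      intro t ht
      rw [Finset.mem_filter] at ht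
      exact Real.rpow_le_rpow_of_nonpos (by positivity) (hge t ht.2) (by linarith)
    have h2 : ((u.filter fun t => g t = k).card : ℝ) ≤ K * ((2 : ℝ) ^ (k + 1)) ^ (2 / 3 : ℝ) := by
      refine le_trans ?_ (hcard (2 ^ (k + 1)) (one_le_pow₀ (by norm_num)))
      have h3 : (u.filter fun t => g t = k) ⊆ h.A (2 ^ (k + 1)) := by
        intro t ht
        rw [Finset.mem_filter] at ht
        rw [h.mem_A]
        exact hlt t ht.2
      exact_mod_cast Finset.card_le_card h3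
    have e1 : ((2 : ℝ) ^ (k + 1)) ^ (2 / 3 : ℝ) = x ^ (k + 1) := by
      rw [hx, ← Real.rpow_natCast, ← Real.rpow_mul (by norm_num), mul_comm,
        Real.rpow_mul (by norm_num), Real.rpow_natCast]
    have e2 : ((2 : ℝ) ^ k) ^ (-s) = y ^ k := by
      rw [hy, ← Real.rpow_natCast, ← Real.rpow_mul (by norm_num), mul_comm,
        Real.rpow_mul (by norm_num), Real.rpow_natCast]
    rw [e1] at h2
    rw [e2] at h1
    have h4 := mul_le_mul_of_nonneg_right h2 (pow_pos hy0 k).le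
    simp only [hb, if_neg hk, add_zero]
    refine h1.trans (h4.trans (le_of_eq ?_))
    rw [mul_pow, pow_succ]
    ring

include h in
theorem summ_inv : Summable fun t : Z => ((t : ℝ))⁻¹ := by
  have h1 := h.summ (s := 1) (by norm_num)
  refine h1.congr (fun t => ?_)
  rw [Real.rpow_neg_one]

theorem A_tendsto : Tendsto h.A atTop atTop := by
  apply tendsto_atTop_finset_of_monotone
  · intro R R' hRR t ht
    rw [h.mem_A] at ht ⊢
    exact lt_of_lt_of_le ht hRR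
  · intro t
    exact ⟨(t : ℝ) + 1, h.mem_A.2 (by linarith)⟩

theorem MM_tendsto (F : ℂ → ℂ) (C : ℝ) : Tendsto (fun R : ℝ => MM F C R / R) atTop (𝓝 0) := by
  have h1 : Tendsto (fun R : ℝ => (C + (|Real.log ‖F 0‖| + 1)) / R) atTop (𝓝 0) :=
    tendsto_const_nhds.div_atTop tendsto_id
  have h2 : Tendsto (fun R : ℝ => C * 3 ^ (2 / 3 : ℝ) * R ^ (-(1 / 3) : ℝ)) atTop
      (𝓝 (C * 3 ^ (2 / 3 : ℝ) * 0)) :=
    (tendsto_rpow_neg_atTop (by norm_num)).const_mul _
  have h3 := h1.add h2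
  rw [mul_zero, add_zero] at h3
  refine h3.congr' ?_
  filter_upwards [eventually_gt_atTop (0 : ℝ)] with R hR
  have e : R ^ (-(1 / 3) : ℝ) = R ^ (2 / 3 : ℝ) / R := by
    rw [show (-(1 / 3) : ℝ) = 2 / 3 - 1 by norm_num, Real.rpow_sub_one hR.ne']
  unfold MM
  rw [e, Real.mul_rpow (by norm_num) hR.le]
  field_simp
  ring

/-- uniform smallness of the exponent -/
theorem factor' (r : ℝ) (hr : 0 ≤ r) {R : ℝ} (hR : 2 * r + 1 ≤ R) :
    ∃ L : ℂ → ℂ, DifferentiableOn ℂ L (Metric.ball 0 R) ∧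
      (∀ z ∈ Metric.ball (0 : ℂ) R, F z = F 0 * (∏ t ∈ h.A R, (1 + z / ((t : ℝ) : ℂ))) *
        Complex.exp (L z)) ∧
      (∀ z : ℂ, ‖z‖ ≤ r → ‖L z‖ ≤ 4 * r * (MM F C R / R)) := by
  have hR0 : 0 < R := by linarith
  obtain ⟨L, -, hL, hfac, hbd⟩ := h.factor hR0
  refine ⟨L, hL, hfac, fun z hz => ?_⟩
  have hzR : z ∈ Metric.ball (0 : ℂ) R := by
    rw [mem_ball_zero_iff]; linarith
  refine (hbd z hzR).trans ?_
  have hM := h.MM_pos hR0.le
  rw [div_le_iff₀ (by linarith)]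
  have h1 : MM F C R * ‖z‖ ≤ MM F C R * r := mul_le_mul_of_nonneg_left hz hM.le
  have h2 : R / 2 ≤ R - ‖z‖ := by linarith
  have h3 : 0 ≤ 4 * r * (MM F C R / R) := by positivity
  have h4 := mul_le_mul_of_nonneg_left h2 h3
  refine le_trans ?_ h4
  have e : 4 * r * (MM F C R / R) * (R / 2) = 2 * (MM F C R * r) := by
    field_simp
    ring
  rw [e]
  linarith

theorem tendsto_aux (r : ℝ) : Tendsto (fun R : ℝ => 4 * r * (MM F C R / R)) atTop (𝓝 0) := by
  have := (MM_tendsto F C).const_mul (4 * r)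
  rwa [mul_zero] at this

include h in
theorem hasProd (ξ : ℂ) : HasProd (fun t : Z => 1 + ξ / ((t : ℝ) : ℂ)) (F ξ / F 0) := by
  have hs : Summable fun t : Z => ‖ξ / ((t : ℝ) : ℂ)‖ := by
    refine (h.summ_inv.mul_left ‖ξ‖).congr (fun t => ?_)
    rw [norm_div, Complex.norm_real, Real.norm_of_nonneg (h.pos t t.2).le, div_eq_mul_inv]
  have hm := (multipliable_one_add_of_summable hs).hasProd
  set P := ∏' t : Z, (1 + ξ / ((t : ℝ) : ℂ)) with hP
  have h1 : Tendsto (fun R : ℝ => ∏ t ∈ h.A R, (1 + ξ / ((t : ℝ) : ℂ))) atTop (𝓝 P) := by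
    have hm' : Tendsto (fun s : Finset Z => ∏ t ∈ s, (1 + ξ / ((t : ℝ) : ℂ))) atTop (𝓝 P) := by
      simpa [HasProd] using hm
    exact hm'.comp h.A_tendsto
  have h2 : Tendsto (fun R : ℝ => ∏ t ∈ h.A R, (1 + ξ / ((t : ℝ) : ℂ))) atTop
      (𝓝 (F ξ / F 0)) := by
    choose! L hL using fun (R : ℝ) (hR : 2 * ‖ξ‖ + 1 ≤ R) => h.factor' ‖ξ‖ (norm_nonneg _) hR
    have hLlim : Tendsto (fun R => L R ξ) atTop (𝓝 0) := by
      rw [tendsto_zero_iff_norm_tendsto_zero]
      refine squeeze_zero' (Eventually.of_forall fun _ => norm_nonneg _) ?_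
        (tendsto_aux (F := F) (C := C) ‖ξ‖)
      filter_upwards [eventually_ge_atTop (2 * ‖ξ‖ + 1)] with R hR
      exact (hL R hR).2.2 ξ le_rfl
    have h3 : Tendsto (fun R => F ξ / F 0 * Complex.exp (-(L R ξ))) atTop
        (𝓝 (F ξ / F 0 * Complex.exp (-0))) :=
      ((Complex.continuous_exp.tendsto _).comp hLlim.neg).const_mul _
    rw [neg_zero, Complex.exp_zero, mul_one] at h3
    refine h3.congr' ?_
    filter_upwards [eventually_ge_atTop (2 * ‖ξ‖ + 1)] with R hR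
    have h4 := (hL R hR).2.1 ξ (by
      rw [mem_ball_zero_iff]
      linarith [norm_nonneg ξ])
    have hF0 := h.F0
    rw [h4, Complex.exp_neg]
    have := Complex.exp_ne_zero (L R ξ)
    field_simp
  rw [← tendsto_nhds_unique h1 h2]
  exact hm

/-- passage to the limit: products times small exponentials -/
theorem prod_tendsto {g : Z → ℂ} {a : ℂ} (hs : Summable fun t : Z => ‖g t‖) (l : ℝ → ℂ)
    (hl : Tendsto l atTop (𝓝 0))
    (ha : ∀ᶠ R in atTop, a = (∏ t ∈ h.A R, (1 + g t)) * Complex.exp (l R)) :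
    HasProd (fun t : Z => 1 + g t) a := by
  have hm := (multipliable_one_add_of_summable hs).hasProd
  set P := ∏' t : Z, (1 + g t) with hP
  have h1 : Tendsto (fun R : ℝ => ∏ t ∈ h.A R, (1 + g t)) atTop (𝓝 P) := by
    have hm' : Tendsto (fun s : Finset Z => ∏ t ∈ s, (1 + g t)) atTop (𝓝 P) := by
      simpa [HasProd] using hm
    exact hm'.comp h.A_tendsto
  have h2 : Tendsto (fun R : ℝ => ∏ t ∈ h.A R, (1 + g t)) atTop (𝓝 a) := by
    have h3 : Tendsto (fun R => a * Complex.exp (-(l R))) atTop (𝓝 (a * Complex.exp (-0))) :=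
      ((Complex.continuous_exp.tendsto _).comp hl.neg).const_mul _
    rw [neg_zero, Complex.exp_zero, mul_one] at h3
    refine h3.congr' ?_
    filter_upwards [ha] with R hR
    rw [hR, Complex.exp_neg]
    have := Complex.exp_ne_zero (l R)
    field_simp
  rw [← tendsto_nhds_unique h1 h2]
  exact hm

include h in
open Classical in
theorem hasProd_deriv (t₀ : Z) :
    HasProd (fun t : Z => 1 + (if t = t₀ then 0 else -(((t₀ : ℝ) : ℂ) / ((t : ℝ) : ℂ))))
      (((t₀ : ℝ) : ℂ) * deriv F (-((t₀ : ℝ) : ℂ)) / F 0) := by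
  have ht₀ : 0 < (t₀ : ℝ) := h.pos t₀ t₀.2
  have ht₀c : ((t₀ : ℝ) : ℂ) ≠ 0 := by exact_mod_cast ht₀.ne'
  have hs : Summable fun t : Z => ‖(if t = t₀ then 0 else -(((t₀ : ℝ) : ℂ) / ((t : ℝ) : ℂ)))‖ := by
    refine Summable.of_nonneg_of_le (fun t => norm_nonneg _) (fun t => ?_)
      (h.summ_inv.mul_left (t₀ : ℝ))
    split_ifs
    · rw [norm_zero]
      have := h.pos t t.2
      positivity
    · rw [norm_neg, norm_div, Complex.norm_real, Complex.norm_real, Real.norm_of_nonneg ht₀.le,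
        Real.norm_of_nonneg (h.pos t t.2).le, div_eq_mul_inv]
  choose! L hL using fun (R : ℝ) (hR : 2 * (t₀ : ℝ) + 1 ≤ R) => h.factor' (t₀ : ℝ) ht₀.le hR
  set z₀ : ℂ := -((t₀ : ℝ) : ℂ) with hz₀
  have hz₀n : ‖z₀‖ = (t₀ : ℝ) := by
    rw [hz₀, norm_neg, Complex.norm_real, Real.norm_of_nonneg ht₀.le]
  have hLlim : Tendsto (fun R => L R z₀) atTop (𝓝 0) := by
    rw [tendsto_zero_iff_norm_tendsto_zero]
    refine squeeze_zero' (Eventually.of_forall fun _ => norm_nonneg _) ?_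
      (tendsto_aux (F := F) (C := C) (t₀ : ℝ))
    filter_upwards [eventually_ge_atTop (2 * (t₀ : ℝ) + 1)] with R hR
    exact (hL R hR).2.2 z₀ hz₀n.le
  refine h.prod_tendsto hs (fun R => L R z₀) hLlim ?_
  filter_upwards [eventually_ge_atTop (2 * (t₀ : ℝ) + 1)] with R hR
  obtain ⟨hLd, hfac, -⟩ := hL R hR
  have hzR : z₀ ∈ Metric.ball (0 : ℂ) R := by
    rw [mem_ball_zero_iff, hz₀n]; linarith
  have hmem : t₀ ∈ h.A R := h.mem_A.2 (by linarith)
  set H : ℂ → ℂ := fun z => F 0 * (∏ t ∈ (h.A R).erase t₀, (1 + z / ((t : ℝ) : ℂ))) *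
    Complex.exp (L R z) with hH
  have hHd : DifferentiableAt ℂ H z₀ := by
    have h1 : DifferentiableAt ℂ (L R) z₀ := hLd.differentiableAt (Metric.isOpen_ball.mem_nhds hzR)
    have h2 : DifferentiableAt ℂ (fun z : ℂ => ∏ t ∈ (h.A R).erase t₀,
        (1 + z / ((t : ℝ) : ℂ))) z₀ := by
      apply DifferentiableAt.fun_finsetProd
      intro t _
      fun_prop
    exact (h2.const_mul _).mul h1.cexp
  have hFH : F =ᶠ[𝓝 z₀] fun z => (1 + z / ((t₀ : ℝ) : ℂ)) * H z := by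
    filter_upwards [Metric.isOpen_ball.mem_nhds hzR] with z hz
    rw [hfac z hz, hH, ← Finset.mul_prod_erase _ _ hmem]
    ring
  have hder : deriv F z₀ = H z₀ / ((t₀ : ℝ) : ℂ) := by
    rw [hFH.deriv_eq]
    have h1 : HasDerivAt (fun z : ℂ => 1 + z / ((t₀ : ℝ) : ℂ)) (1 / ((t₀ : ℝ) : ℂ)) z₀ :=
      ((hasDerivAt_id z₀).div_const _).const_add 1
    have h2 := (h1.mul hHd.hasDerivAt).deriv
    have h3 : 1 + z₀ / ((t₀ : ℝ) : ℂ) = 0 := by
      rw [hz₀]; field_simp; ring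
    rw [h3, zero_mul, add_zero] at h2
    have h4 : deriv (fun z => (1 + z / ((t₀ : ℝ) : ℂ)) * H z) z₀ =
        1 / ((t₀ : ℝ) : ℂ) * H z₀ := h2
    rw [h4]
    ring
  have hprod : ∏ t ∈ h.A R, (1 + (if t = t₀ then 0 else -(((t₀ : ℝ) : ℂ) / ((t : ℝ) : ℂ)))) =
      ∏ t ∈ (h.A R).erase t₀, (1 + z₀ / ((t : ℝ) : ℂ)) := by
    rw [← Finset.mul_prod_erase _ _ hmem, if_pos rfl, add_zero, one_mul]
    apply Finset.prod_congr rfl
    intro t ht
    rw [if_neg (Finset.ne_of_mem_erase ht), hz₀, neg_div]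
  have hF0 := h.F0
  rw [hder, hprod, hH]
  field_simp

include h in
/-- the logarithmic derivative at positive reals -/
theorem hasSum_inv {x : ℝ} (hx : 0 ≤ x) :
    HasSum (fun t : Z => 1 / ((x : ℂ) + ((t : ℝ) : ℂ))) (deriv F x / F x) := by
  have hs : Summable fun t : Z => 1 / ((x : ℂ) + ((t : ℝ) : ℂ)) := by
    refine Summable.of_norm_bounded h.summ_inv (fun t => ?_)
    have ht := h.pos t t.2
    rw [norm_div, norm_one, ← Complex.ofReal_add, Complex.norm_real,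
      Real.norm_of_nonneg (by positivity), inv_eq_one_div]
    exact one_div_le_one_div_of_le ht (by linarith)
  have hFx : F x ≠ 0 := by
    intro h0
    obtain ⟨t, ht, h1⟩ := (h.zero _).1 h0
    have h2 : x = -t := by exact_mod_cast h1
    have := h.pos t ht
    linarith
  set r : ℝ := x + 1 with hr
  choose! L hL using fun (R : ℝ) (hR : 2 * r + 1 ≤ R) => h.factor' r (by positivity) hR
  have hLlim : Tendsto (fun R => deriv (L R) x) atTop (𝓝 0) := by
    rw [tendsto_zero_iff_norm_tendsto_zero]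
    refine squeeze_zero' (Eventually.of_forall fun _ => norm_nonneg _) ?_
      (tendsto_aux (F := F) (C := C) r)
    filter_upwards [eventually_ge_atTop (2 * r + 1)] with R hR
    obtain ⟨hLd, -, hb⟩ := hL R hR
    have hball : ∀ z : ℂ, z ∈ Metric.closedBall (x : ℂ) 1 → ‖z‖ ≤ r := by
      intro z hz
      rw [mem_closedBall_iff_norm] at hz
      have h1 : ‖z‖ ≤ ‖z - x‖ + ‖(x : ℂ)‖ := by
        simpa using norm_add_le (z - x) (x : ℂ)
      rw [Complex.norm_real, Real.norm_of_nonneg hx] at h1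
      rw [hr]; linarith
    have hsub : Metric.closedBall (x : ℂ) 1 ⊆ Metric.ball (0 : ℂ) R := by
      intro z hz
      rw [mem_ball_zero_iff]
      have := hball z hz
      have h5 : 0 < r := by positivity
      linarith
    have h1 : DiffContOnCl ℂ (L R) (Metric.ball (x : ℂ) 1) := by
      apply DifferentiableOn.diffContOnCl
      rw [closure_ball _ one_ne_zero]
      exact hLd.mono hsub
    have h2 := Complex.norm_deriv_le_of_forall_mem_sphere_norm_le one_pos h1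
      (fun z hz => hb z (hball z (Metric.sphere_subset_closedBall hz)))
    rwa [div_one] at h2
  have h1 : Tendsto (fun R : ℝ => ∑ t ∈ h.A R, 1 / ((x : ℂ) + ((t : ℝ) : ℂ))) atTop
      (𝓝 (∑' t : Z, 1 / ((x : ℂ) + ((t : ℝ) : ℂ)))) := by
    have hm' : Tendsto (fun s : Finset Z => ∑ t ∈ s, 1 / ((x : ℂ) + ((t : ℝ) : ℂ))) atTop
        (𝓝 (∑' t : Z, 1 / ((x : ℂ) + ((t : ℝ) : ℂ)))) := by
      simpa [HasSum] using hs.hasSum
    exact hm'.comp h.A_tendsto
  have h2 : Tendsto (fun R : ℝ => ∑ t ∈ h.A R, 1 / ((x : ℂ) + ((t : ℝ) : ℂ))) atTop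
      (𝓝 (deriv F x / F x)) := by
    have h3 : Tendsto (fun R => deriv F x / F x - deriv (L R) x) atTop
        (𝓝 (deriv F x / F x - 0)) := tendsto_const_nhds.sub hLlim
    rw [sub_zero] at h3
    refine h3.congr' ?_
    filter_upwards [eventually_ge_atTop (2 * r + 1)] with R hR
    obtain ⟨hLd, hfac, -⟩ := hL R hR
    have hxR : (x : ℂ) ∈ Metric.ball (0 : ℂ) R := by
      rw [mem_ball_zero_iff, Complex.norm_real, Real.norm_of_nonneg hx]
      rw [hr] at hR
      linarith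
    have hLx : DifferentiableAt ℂ (L R) x := hLd.differentiableAt (Metric.isOpen_ball.mem_nhds hxR)
    have hne : ∀ t : Z, (1 : ℂ) + x / ((t : ℝ) : ℂ) ≠ 0 := by
      intro t h0
      have ht := h.pos t t.2
      have h5 : (1 : ℝ) + x / (t : ℝ) = 0 := by exact_mod_cast h0
      have h6 : 0 ≤ x / (t : ℝ) := by positivity
      linarith
    have hFH : F =ᶠ[𝓝 (x : ℂ)] fun z => (F 0 * ∏ t ∈ h.A R, (1 + z / ((t : ℝ) : ℂ))) *
        Complex.exp (L R z) := by
      filter_upwards [Metric.isOpen_ball.mem_nhds hxR] with z hz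
      exact hfac z hz
    have hpd : ∀ t : Z, DifferentiableAt ℂ (fun z : ℂ => 1 + z / ((t : ℝ) : ℂ)) x := by
      intro t; fun_prop
    have hPd : DifferentiableAt ℂ (fun z : ℂ => ∏ t ∈ h.A R, (1 + z / ((t : ℝ) : ℂ))) x := by
      apply DifferentiableAt.fun_finsetProd
      intro t _
      exact hpd t
    have hlog : logDeriv F x = (∑ t ∈ h.A R, 1 / ((x : ℂ) + ((t : ℝ) : ℂ))) +
        deriv (L R) x := by
      have e1 : logDeriv F x = logDeriv (fun z => (F 0 * ∏ t ∈ h.A R, (1 + z / ((t : ℝ) : ℂ))) *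
          Complex.exp (L R z)) x := by
        rw [logDeriv_apply, logDeriv_apply, hFH.deriv_eq, hFH.eq_of_nhds]
      rw [e1, logDeriv_mul (x := (x : ℂ)) (f := fun z => F 0 * ∏ t ∈ h.A R, (1 + z / ((t : ℝ) : ℂ)))
        (g := fun z => Complex.exp (L R z))
        (mul_ne_zero h.F0 (Finset.prod_ne_zero_iff.2 fun t _ => hne t)) (Complex.exp_ne_zero _)
        (hPd.const_mul _) hLx.cexp]
      congr 1
      · rw [logDeriv_const_mul (x := (x : ℂ)) (F 0) h.F0, logDeriv_prod]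
        · apply Finset.sum_congr rfl
          intro t _
          rw [logDeriv_apply]
          have h1 : HasDerivAt (fun z : ℂ => 1 + z / ((t : ℝ) : ℂ)) (1 / ((t : ℝ) : ℂ)) (x : ℂ) :=
            ((hasDerivAt_id (x : ℂ)).div_const _).const_add 1
          rw [h1.deriv]
          have ht : ((t : ℝ) : ℂ) ≠ 0 := by exact_mod_cast (h.pos t t.2).ne'
          field_simp
          rw [add_comm]
        · intro t _; exact hne t
        · intro t _; exact hpd t
      · rw [logDeriv_apply, deriv_cexp hLx]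
        have := Complex.exp_ne_zero (L R (x : ℂ))
        field_simp
    rw [logDeriv_apply] at hlog
    rw [hlog]
    ring
  rw [← tendsto_nhds_unique h1 h2]
  exact hs.hasSum

/-- logarithms of norms -/
theorem hasSum_log {g : Z → ℂ} {a : ℂ} (hp : HasProd g a) (ha : a ≠ 0) (hg : ∀ t, g t ≠ 0) :
    HasSum (fun t => Real.log ‖g t‖) (Real.log ‖a‖) := by
  have hm' : Tendsto (fun s : Finset Z => ∏ t ∈ s, g t) atTop (𝓝 a) := by
    simpa [HasProd] using hp
  have h1 : Tendsto (fun s : Finset Z => Real.log ‖∏ t ∈ s, g t‖) atTop (𝓝 (Real.log ‖a‖)) :=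
    (Real.continuousAt_log (norm_ne_zero_iff.2 ha)).tendsto.comp hm'.norm
  have h2 : (fun s : Finset Z => Real.log ‖∏ t ∈ s, g t‖) =
      fun s => ∑ t ∈ s, Real.log ‖g t‖ := by
    funext s
    rw [norm_prod, Real.log_prod (fun t _ => norm_ne_zero_iff.2 (hg t))]
  rw [h2] at h1
  simpa [HasSum] using h1

end s10b_H

theorem s10b_FF_zero : FF N α τ 0 = fj N α τ 0 0 := by
  have := FF_sq (N := N) (α := α) (τ := τ) 0
  rwa [zero_pow two_ne_zero] at this

theorem s10b_data (hN : 0 < N) (hτ : 0 < τ) : ∃ C, s10b_H (FF N α τ) (Zt N α τ) C := by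
  obtain ⟨C, hC, hg⟩ := FF_growth (N := N) (α := α) (τ := τ) hN
  refine ⟨C, FF_differentiable hN, ?_, fun t ht => ht.1, FF_eq_zero_iff hN hτ,
    FF_deriv_ne_zero hN hτ, Zt_finite hN hτ, hC, hg⟩
  rw [s10b_FF_zero]
  intro h0
  have := fj_zero_pos (N := N) (α := α) (τ := τ) hN 0
  rw [Complex.ofReal_zero, h0] at this
  exact lt_irrefl _ this

theorem Zt_summable (hN : 0 < N) (hτ : 0 < τ) (s : ℝ) (hs : 2 / 3 < s) :
    Summable fun t : Zt N α τ => (t : ℝ) ^ (-s) := by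
  obtain ⟨C, h⟩ := s10b_data (α := α) hN hτ
  exact h.summ hs

theorem FF_prod (hN : 0 < N) (hτ : 0 < τ) (ξ : ℂ) :
    Tendsto (fun R : ℝ => ∏ t ∈ (Zt_finite (α := α) hN hτ R).toFinset, (1 + ξ / (t : ℂ))) atTop
      (𝓝 (FF N α τ ξ / FF N α τ 0)) := by
  classical
  obtain ⟨C, h⟩ := s10b_data (α := α) hN hτ
  have hfin : ∀ R : ℝ, {t : Zt N α τ | (t : ℝ) ≤ R}.Finite := by
    intro R
    exact (h.finR (R + 1)).subset (fun t ht => by
      have h1 : (t : ℝ) ≤ R := ht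
      have h2 : (t : ℝ) < R + 1 := by linarith
      exact h2)
  have hB : Tendsto (fun R : ℝ => (hfin R).toFinset) atTop atTop := by
    apply tendsto_atTop_finset_of_monotone
    · intro R R' hRR t ht
      rw [Set.Finite.mem_toFinset] at ht ⊢
      exact le_trans (show (t : ℝ) ≤ R from ht) hRR
    · intro t
      exact ⟨(t : ℝ), (Set.Finite.mem_toFinset _).2 (le_refl (t : ℝ))⟩
  have hm' : Tendsto (fun s : Finset (Zt N α τ) => ∏ t ∈ s, (1 + ξ / ((t : ℝ) : ℂ))) atTop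
      (𝓝 (FF N α τ ξ / FF N α τ 0)) := by
    simpa [HasProd] using h.hasProd ξ
  refine (hm'.comp hB).congr (fun R => ?_)
  have e : (Zt_finite (α := α) hN hτ R).toFinset =
      ((hfin R).toFinset).map (Function.Embedding.subtype _) := by
    ext t
    simp only [Set.Finite.mem_toFinset, Finset.mem_map, Function.Embedding.subtype_apply]
    constructor
    · rintro ⟨h1, h2⟩
      exact ⟨⟨t, h1⟩, h2, rfl⟩
    · rintro ⟨t', h1, rfl⟩
      exact ⟨t'.2, h1⟩
  rw [e, Finset.prod_map]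
  rfl

theorem s10b_norm_fj (hN : 0 < N) (x : ℝ) : ‖fj N α τ 0 x‖ = (fj N α τ 0 x).re := by
  have h1 : fj N α τ 0 x = ((fj N α τ 0 x).re : ℂ) := by
    apply Complex.ext
    · simp
    · rw [fj_real_im, Complex.ofReal_im]
  conv_lhs => rw [h1]
  rw [Complex.norm_real, Real.norm_of_nonneg (fj_zero_pos hN x).le]

theorem log_FF (hN : 0 < N) (hτ : 0 < τ) (x : ℝ) (hx : 0 ≤ x) :
    Summable (fun t : Zt N α τ => Real.log (1 + x ^ 2 / (t : ℝ))) ∧
    Real.log ((fj N α τ 0 x).re / (fj N α τ 0 0).re) =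
      ∑' t : Zt N α τ, Real.log (1 + x ^ 2 / (t : ℝ)) := by
  have _ := hx
  obtain ⟨C, h⟩ := s10b_data (α := α) hN hτ
  have hp := h.hasProd ((x : ℂ) ^ 2)
  have e1 : ∀ t : Zt N α τ, (1 : ℂ) + (x : ℂ) ^ 2 / ((t : ℝ) : ℂ) =
      ((1 + x ^ 2 / (t : ℝ) : ℝ) : ℂ) := by
    intro t; push_cast; ring
  have hpos : ∀ t : Zt N α τ, 0 < 1 + x ^ 2 / (t : ℝ) := by
    intro t
    have := h.pos t t.2
    positivity
  have hne : FF N α τ ((x : ℂ) ^ 2) ≠ 0 := by
    rw [FF_sq, ← norm_ne_zero_iff, s10b_norm_fj hN]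
    exact (fj_zero_pos hN x).ne'
  have h1 := s10b_H.hasSum_log hp (div_ne_zero hne h.F0) (fun t => by
    rw [e1]
    exact_mod_cast (hpos t).ne')
  have h2 : ∀ t : Zt N α τ, Real.log ‖(1 : ℂ) + (x : ℂ) ^ 2 / ((t : ℝ) : ℂ)‖ =
      Real.log (1 + x ^ 2 / (t : ℝ)) := by
    intro t
    rw [e1, Complex.norm_real, Real.norm_of_nonneg (hpos t).le]
  simp only [h2] at h1
  rw [norm_div, FF_sq, s10b_FF_zero, s10b_norm_fj hN] at h1
  have h3 : ‖fj N α τ 0 0‖ = (fj N α τ 0 0).re := by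
    simpa using s10b_norm_fj (α := α) (τ := τ) hN 0
  rw [h3] at h1
  exact ⟨h1.summable, h1.tsum_eq.symm⟩

/-- logarithm of `|F|` at real points off the zeros -/
theorem log_FF_abs (hN : 0 < N) (hτ : 0 < τ) (ξ : ℝ) (h : FF N α τ ξ ≠ 0) :
    Summable (fun t : Zt N α τ => Real.log |1 + ξ / (t : ℝ)|) ∧
    Real.log (‖FF N α τ ξ‖ / ‖FF N α τ 0‖) = ∑' t : Zt N α τ, Real.log |1 + ξ / (t : ℝ)| := by
  obtain ⟨C, H⟩ := s10b_data (α := α) hN hτ
  have hp := H.hasProd (ξ : ℂ)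
  have e1 : ∀ t : Zt N α τ, (1 : ℂ) + (ξ : ℂ) / ((t : ℝ) : ℂ) =
      ((1 + ξ / (t : ℝ) : ℝ) : ℂ) := by
    intro t; push_cast; ring
  have h1 := s10b_H.hasSum_log hp (div_ne_zero h H.F0) (fun t => by
    intro h0
    apply h
    rw [H.zero]
    refine ⟨t, t.2, ?_⟩
    have ht : ((t : ℝ) : ℂ) ≠ 0 := by exact_mod_cast (H.pos t t.2).ne'
    field_simp at h0
    linear_combination h0)
  have h2 : ∀ t : Zt N α τ, Real.log ‖(1 : ℂ) + (ξ : ℂ) / ((t : ℝ) : ℂ)‖ =
      Real.log |1 + ξ / (t : ℝ)| := by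
    intro t
    rw [e1, Complex.norm_real, Real.norm_eq_abs]
  simp only [h2] at h1
  rw [norm_div] at h1
  exact ⟨h1.summable, h1.tsum_eq.symm⟩

/-- `|t₀ F'(-t₀) / F(0)| = ∏_{t ≠ t₀} |1 - t₀/t|` -/
theorem log_FF_deriv (hN : 0 < N) (hτ : 0 < τ) (t₀ : Zt N α τ) :
    Summable (fun t : Zt N α τ => if t = t₀ then 0 else Real.log |1 - (t₀ : ℝ) / (t : ℝ)|) ∧
    Real.log ((t₀ : ℝ) * ‖deriv (FF N α τ) (-((t₀ : ℝ) : ℂ))‖ / ‖FF N α τ 0‖) =
      ∑' t : Zt N α τ, (if t = t₀ then 0 else Real.log |1 - (t₀ : ℝ) / (t : ℝ)|) := by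
  obtain ⟨C, H⟩ := s10b_data (α := α) hN hτ
  have hp := H.hasProd_deriv t₀
  have ht₀ : 0 < (t₀ : ℝ) := H.pos t₀ t₀.2
  have ht₀c : ((t₀ : ℝ) : ℂ) ≠ 0 := by exact_mod_cast ht₀.ne'
  have h1 := s10b_H.hasSum_log hp
    (div_ne_zero (mul_ne_zero ht₀c (H.simple t₀ t₀.2)) H.F0) (fun t => by
      split_ifs with h
      · simp
      · intro h0
        apply h
        have ht : ((t : ℝ) : ℂ) ≠ 0 := by exact_mod_cast (H.pos t t.2).ne'
        have h3 : ((t : ℝ) : ℂ) = ((t₀ : ℝ) : ℂ) := by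
          field_simp at h0
          linear_combination h0
        exact Subtype.ext (by exact_mod_cast h3))
  have h3 : HasSum (fun t : Zt N α τ => if t = t₀ then 0 else
      Real.log |1 - (t₀ : ℝ) / (t : ℝ)|)
      (Real.log ‖((t₀ : ℝ) : ℂ) * deriv (FF N α τ) (-((t₀ : ℝ) : ℂ)) / FF N α τ 0‖) := by
    refine Eq.mp (congrArg (fun f => HasSum f _) (funext fun t => ?_)) h1
    by_cases h : t = t₀
    · rw [if_pos h, if_pos h, add_zero, norm_one, Real.log_one]
    · rw [if_neg h, if_neg h]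
      have e1 : (1 : ℂ) + -(((t₀ : ℝ) : ℂ) / ((t : ℝ) : ℂ)) =
          ((1 - (t₀ : ℝ) / (t : ℝ) : ℝ) : ℂ) := by
        push_cast; ring
      rw [e1, Complex.norm_real, Real.norm_eq_abs]
  rw [norm_div, norm_mul, Complex.norm_real, Real.norm_of_nonneg ht₀.le] at h3
  exact ⟨h3.summable, h3.tsum_eq.symm⟩

theorem fj_one_div (hN : 0 < N) (hτ : 0 < τ) (x : ℝ) (hx : 0 < x) :
    (fj N α τ 1 x).re = 2 * x * (fj N α τ 0 x).re * ∑' t : Zt N α τ, 1 / (x ^ 2 + (t : ℝ)) := by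
  have _ := hx
  obtain ⟨C, H⟩ := s10b_data (α := α) hN hτ
  have h1 := H.hasSum_inv (x := x ^ 2) (by positivity)
  have e1 : ∀ t : Zt N α τ, (1 : ℂ) / (((x ^ 2 : ℝ) : ℂ) + ((t : ℝ) : ℂ)) =
      ((1 / (x ^ 2 + (t : ℝ)) : ℝ) : ℂ) := by
    intro t; push_cast; ring
  simp only [e1] at h1
  have h2 : deriv (FF N α τ) ((x ^ 2 : ℝ) : ℂ) / FF N α τ ((x ^ 2 : ℝ) : ℂ) =
      ((∑' t : Zt N α τ, 1 / (x ^ 2 + (t : ℝ)) : ℝ) : ℂ) := by
    rw [Complex.ofReal_tsum]
    exact h1.tsum_eq.symm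
  have h4 : HasDerivAt (fun z : ℂ => z ^ 2) (2 * (x : ℂ)) (x : ℂ) := by
    simpa using hasDerivAt_pow 2 (x : ℂ)
  have h3 := HasDerivAt.comp (h₂ := FF N α τ) (x : ℂ) ((H.diff ((x : ℂ) ^ 2)).hasDerivAt) h4
  have h5 : (FF N α τ) ∘ (fun z : ℂ => z ^ 2) = fj N α τ 0 := by
    funext z
    exact FF_sq z
  rw [h5] at h3
  have h6 := h3.unique (fj_hasDerivAt hN 0 (x : ℂ))
  have h7 : ((x ^ 2 : ℝ) : ℂ) = (x : ℂ) ^ 2 := by push_cast; ring
  rw [h7] at h2
  have hFne : FF N α τ ((x : ℂ) ^ 2) ≠ 0 := by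
    rw [FF_sq, ← norm_ne_zero_iff, s10b_norm_fj hN]
    exact (fj_zero_pos hN x).ne'
  have h8 : fj N α τ 1 x = ((2 * x * (fj N α τ 0 x).re *
      ∑' t : Zt N α τ, 1 / (x ^ 2 + (t : ℝ)) : ℝ) : ℂ) := by
    have h9 : fj N α τ 0 x = ((fj N α τ 0 x).re : ℂ) := by
      apply Complex.ext
      · simp
      · rw [fj_real_im, Complex.ofReal_im]
    rw [div_eq_iff hFne, FF_sq] at h2
    have h10 : fj N α τ 1 x = deriv (FF N α τ) ((x : ℂ) ^ 2) * (2 * (x : ℂ)) := h6.symm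
    rw [h10, h2, Complex.ofReal_mul, Complex.ofReal_mul, Complex.ofReal_mul, ← h9]
    push_cast
    ring
  rw [h8, Complex.ofReal_re]

end

end Pool.Agent.MP_941b23_mp
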