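import Pool.Agent.MP_941b23_mp.Defs2

/-!
# [S11a] good radii: `Σ_{t ∈ Z} 1/|r_j - t| → 0` along a sequence `r_j → ∞`
(hypothesis `0 < s` added: false for `s < 0`).
-/

set_option autoImplicit false

namespace Pool.Agent.MP_941b23_mp

open MeasureTheory Set Filter Topology
open scoped ENNReal NNReal Real ComplexConjugate

noncomputable section

theorem S11a_aux1 (a q : ℝ) (ha : 0 < a) (hq : q < 1) :
    ∫⁻ u in Ioc 0 a, ENNReal.ofReal (u ^ (-q)) = ENNReal.ofReal (a ^ (1 - q) / (1 - q)) := by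
  have h1 : IntervalIntegrable (fun u : ℝ => u ^ (-q)) volume 0 a :=
    intervalIntegral.intervalIntegrable_rpow' (by linarith)
  have h2 : IntegrableOn (fun u : ℝ => u ^ (-q)) (Ioc 0 a) volume :=
    (intervalIntegrable_iff_integrableOn_Ioc_of_le ha.le).1 h1
  rw [← ofReal_integral_eq_lintegral_ofReal h2]
  · rw [← intervalIntegral.integral_of_le ha.le, integral_rpow (Or.inl (by linarith))]
    have h3 : -q + 1 = 1 - q := by ring
    rw [h3, Real.zero_rpow (by linarith), sub_zero]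
  · refine (ae_restrict_iff' measurableSet_Ioc).2 (Eventually.of_forall ?_)
    intro u hu
    exact Real.rpow_nonneg hu.1.le _

theorem S11a_aux2 (t a q : ℝ) (ha : 0 < a) (hq0 : 0 < q) (hq : q < 1) :
    ∫⁻ r in Icc (t - a) (t + a), ENNReal.ofReal (|r - t| ^ (-q)) ≤
      2 * ENNReal.ofReal (a ^ (1 - q) / (1 - q)) := by
  set h : ℝ → ℝ≥0∞ := (Ioc 0 a).indicator (fun u => ENNReal.ofReal (u ^ (-q))) with hh
  have hm : Measurable h := by
    refine Measurable.indicator ?_ measurableSet_Ioc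
    fun_prop
  have h1 : ∫⁻ u, h u = ENNReal.ofReal (a ^ (1 - q) / (1 - q)) := by
    rw [hh, lintegral_indicator measurableSet_Ioc, S11a_aux1 a q ha hq]
  have h2 : ∫⁻ u, h (-u) = ∫⁻ u, h u := lintegral_neg_eq_self h
  have h3 : ∫⁻ r, (h (r - t) + h (-(r - t))) = ∫⁻ u, (h u + h (-u)) :=
    lintegral_sub_right_eq_self (fun u => h u + h (-u)) t
  have h4 : ∫⁻ u, (h u + h (-u)) = 2 * ENNReal.ofReal (a ^ (1 - q) / (1 - q)) := by
    rw [lintegral_add_left hm, h2, h1, two_mul]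
  rw [← h4, ← h3, ← lintegral_indicator measurableSet_Icc]
  refine lintegral_mono ?_
  intro r
  show (Icc (t - a) (t + a)).indicator (fun r => ENNReal.ofReal (|r - t| ^ (-q))) r ≤
    h (r - t) + h (-(r - t))
  by_cases hr : r ∈ Icc (t - a) (t + a)
  · rw [Set.indicator_of_mem hr]
    rcases lt_trichotomy (r - t) 0 with h5 | h5 | h5
    · have h6 : -(r - t) ∈ Ioc 0 a := ⟨by linarith, by linarith [hr.1]⟩
      have h7 : h (-(r - t)) = ENNReal.ofReal (|r - t| ^ (-q)) := by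
        rw [hh, Set.indicator_of_mem h6, abs_of_neg h5]
      rw [h7]
      exact le_add_self
    · rw [h5, abs_zero, Real.zero_rpow (by linarith)]
      simp
    · have h6 : (r - t) ∈ Ioc 0 a := ⟨h5, by linarith [hr.2]⟩
      have h7 : h (r - t) = ENNReal.ofReal (|r - t| ^ (-q)) := by
        rw [hh, Set.indicator_of_mem h6, abs_of_pos h5]
      rw [h7]
      exact le_self_add
  · rw [Set.indicator_of_notMem hr]
    exact bot_le

/-- bound of one term: `∫_T^{2T} |r - t|^{-q} dr ≤ C T^{1 - (q - s)} t^{-s}` -/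
theorem S11a_aux3 (s q T t : ℝ) (hs : 0 < s) (hsq : s < q) (hq : q < 1) (hT : 0 < T) (ht : 0 < t) :
    ∫⁻ r in Icc T (2 * T), ENNReal.ofReal (|r - t| ^ (-q)) ≤
      ENNReal.ofReal ((2 * 4 ^ (1 - q) * 4 ^ s / (1 - q) + 2 ^ q) * T ^ (1 - (q - s)) *
        t ^ (-s)) := by
  have hq1 : 0 < 1 - q := by linarith
  rcases le_or_gt t (4 * T) with h | h
  · have h1 : Icc T (2 * T) ⊆ Icc (t - 4 * T) (t + 4 * T) := by
      intro r hr
      exact ⟨by linarith [hr.1], by linarith [hr.2]⟩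
    refine (lintegral_mono_set h1).trans ?_
    refine (S11a_aux2 t (4 * T) q (by linarith) (hs.trans hsq) hq).trans ?_
    have h2 : (2 : ℝ≥0∞) = ENNReal.ofReal 2 := by simp
    rw [h2, ← ENNReal.ofReal_mul (by norm_num)]
    apply ENNReal.ofReal_le_ofReal
    have h3 : (4 * T) ^ (-s) ≤ t ^ (-s) :=
      Real.rpow_le_rpow_of_nonpos ht h (by linarith)
    have h4 : (4 * T) ^ (1 - q) = 4 ^ (1 - q) * T ^ (1 - q) :=
      Real.mul_rpow (by norm_num) hT.le
    have h5 : (4 * T) ^ (-s) = 4 ^ (-s) * T ^ (-s) := Real.mul_rpow (by norm_num) hT.le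
    have h6 : T ^ (1 - (q - s)) * T ^ (-s) = T ^ (1 - q) := by
      rw [← Real.rpow_add hT]
      congr 1
      ring
    have h7 : (4 : ℝ) ^ s * 4 ^ (-s) = 1 := by
      rw [← Real.rpow_add (by norm_num)]
      simp
    have h8 : (2 * 4 ^ (1 - q) * 4 ^ s / (1 - q)) * T ^ (1 - (q - s)) * (4 * T) ^ (-s) =
        2 * ((4 * T) ^ (1 - q) / (1 - q)) := by
      rw [h4, h5]
      calc (2 * 4 ^ (1 - q) * 4 ^ s / (1 - q)) * T ^ (1 - (q - s)) * (4 ^ (-s) * T ^ (-s))
          = 2 * 4 ^ (1 - q) / (1 - q) * ((4 : ℝ) ^ s * 4 ^ (-s)) *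
            (T ^ (1 - (q - s)) * T ^ (-s)) := by ring
        _ = _ := by rw [h6, h7]; ring
    rw [← h8]
    have h9 : 0 ≤ T ^ (1 - (q - s)) := Real.rpow_nonneg hT.le _
    have h10 : (0 : ℝ) ≤ 2 * 4 ^ (1 - q) * 4 ^ s / (1 - q) := by positivity
    have h11 : (0 : ℝ) ≤ 2 ^ q := by positivity
    have h12 : 0 ≤ t ^ (-s) := Real.rpow_nonneg ht.le _
    calc (2 * 4 ^ (1 - q) * 4 ^ s / (1 - q)) * T ^ (1 - (q - s)) * (4 * T) ^ (-s)
        ≤ (2 * 4 ^ (1 - q) * 4 ^ s / (1 - q)) * T ^ (1 - (q - s)) * t ^ (-s) := by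
          apply mul_le_mul_of_nonneg_left h3
          positivity
      _ ≤ _ := by
          apply mul_le_mul_of_nonneg_right _ h12
          apply mul_le_mul_of_nonneg_right _ h9
          linarith
  · have h1 : ∀ r ∈ Icc T (2 * T), ENNReal.ofReal (|r - t| ^ (-q)) ≤
        ENNReal.ofReal (2 ^ q * T ^ (-(q - s)) * t ^ (-s)) := by
      intro r hr
      apply ENNReal.ofReal_le_ofReal
      have h2 : t / 2 ≤ |r - t| := by
        rw [abs_sub_comm]
        refine le_trans ?_ (le_abs_self _)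
        linarith [hr.2]
      have h3 : |r - t| ^ (-q) ≤ (t / 2) ^ (-q) :=
        Real.rpow_le_rpow_of_nonpos (by linarith) h2 (by linarith)
      have h4 : (t / 2) ^ (-q) = 2 ^ q * t ^ (-q) := by
        rw [Real.div_rpow ht.le (by norm_num), Real.rpow_neg (by norm_num : (0 : ℝ) ≤ 2),
          div_inv_eq_mul, mul_comm]
      have h5 : t ^ (-q) = t ^ (-(q - s)) * t ^ (-s) := by
        rw [← Real.rpow_add ht]
        congr 1
        ring
      have h6 : t ^ (-(q - s)) ≤ T ^ (-(q - s)) :=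
        Real.rpow_le_rpow_of_nonpos hT (by linarith) (by linarith)
      have h7 : 0 ≤ t ^ (-s) := Real.rpow_nonneg ht.le _
      calc |r - t| ^ (-q) ≤ (t / 2) ^ (-q) := h3
        _ = 2 ^ q * (t ^ (-(q - s)) * t ^ (-s)) := by rw [h4, h5]
        _ ≤ 2 ^ q * (T ^ (-(q - s)) * t ^ (-s)) := by gcongr
        _ = _ := by ring
    refine (setLIntegral_mono' measurableSet_Icc h1).trans ?_
    rw [setLIntegral_const, Real.volume_Icc, ← ENNReal.ofReal_mul (by positivity)]
    apply ENNReal.ofReal_le_ofReal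
    have h2 : T ^ (1 - (q - s)) = T ^ (-(q - s)) * T := by
      rw [show (1 - (q - s)) = -(q - s) + 1 by ring, Real.rpow_add hT, Real.rpow_one]
    have h3 : 0 ≤ t ^ (-s) := Real.rpow_nonneg ht.le _
    have h4 : 0 ≤ T ^ (-(q - s)) := Real.rpow_nonneg hT.le _
    have h10 : (0 : ℝ) ≤ 2 * 4 ^ (1 - q) * 4 ^ s / (1 - q) := by positivity
    calc 2 ^ q * T ^ (-(q - s)) * t ^ (-s) * (2 * T - T)
        = 2 ^ q * (T ^ (-(q - s)) * T) * t ^ (-s) := by ring
      _ ≤ _ := by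
          rw [h2]
          apply mul_le_mul_of_nonneg_right _ h3
          apply mul_le_mul_of_nonneg_right _ (by positivity)
          linarith

/-- one good radius in `[T, 2T]` -/
theorem S11a_aux4 (Z : Set ℝ) (hZ : ∀ t ∈ Z, 0 < t) (s q : ℝ) (hs : 0 < s) (hsq : s < q)
    (hq : q < 1) (h : Summable fun t : Z => (t : ℝ) ^ (-s)) (T : ℝ) (hT : 0 < T) :
    ∃ r ∈ Icc T (2 * T), r ∉ Z ∧ Summable (fun t : Z => |r - (t : ℝ)| ^ (-q)) ∧
      ∑' t : Z, |r - (t : ℝ)| ^ (-q) ≤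
        (2 * 4 ^ (1 - q) * 4 ^ s / (1 - q) + 2 ^ q) * T ^ (-(q - s)) *
          ∑' t : Z, (t : ℝ) ^ (-s) := by
  have hq1 : 0 < 1 - q := by linarith
  set C : ℝ := 2 * 4 ^ (1 - q) * 4 ^ s / (1 - q) + 2 ^ q with hC
  have hC0 : 0 ≤ C := by positivity
  set S : ℝ := ∑' t : Z, (t : ℝ) ^ (-s) with hS
  have hS0 : 0 ≤ S := tsum_nonneg fun t => Real.rpow_nonneg (hZ _ t.2).le _
  -- countability
  have hcount : Countable Z := by
    have h1 := h.countable_support
    have h2 : Function.support (fun t : Z => (t : ℝ) ^ (-s)) = univ := by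
      ext t
      simp only [Function.mem_support, mem_univ, iff_true]
      exact (Real.rpow_pos_of_pos (hZ _ t.2) _).ne'
    rw [h2] at h1
    exact Set.countable_univ_iff.1 h1
  have hZc : Z.Countable := hcount
  -- the sum
  set G : ℝ → ℝ≥0∞ := fun r => ∑' t : Z, ENNReal.ofReal (|r - (t : ℝ)| ^ (-q)) with hG
  have hmeas : ∀ t : Z, Measurable fun r : ℝ => ENNReal.ofReal (|r - (t : ℝ)| ^ (-q)) := by
    intro t
    fun_prop
  have hGm : Measurable G := Measurable.ennreal_tsum hmeas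
  have hint : ∫⁻ r in Icc T (2 * T), G r ≤ ENNReal.ofReal (C * T ^ (1 - (q - s)) * S) := by
    rw [hG, lintegral_tsum (fun t => (hmeas t).aemeasurable)]
    calc ∑' t : Z, ∫⁻ r in Icc T (2 * T), ENNReal.ofReal (|r - (t : ℝ)| ^ (-q))
        ≤ ∑' t : Z, ENNReal.ofReal (C * T ^ (1 - (q - s)) * (t : ℝ) ^ (-s)) :=
          ENNReal.tsum_le_tsum fun t => S11a_aux3 s q T t hs hsq hq hT (hZ _ t.2)
      _ = ENNReal.ofReal (∑' t : Z, C * T ^ (1 - (q - s)) * (t : ℝ) ^ (-s)) := by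
          rw [ENNReal.ofReal_tsum_of_nonneg]
          · intro t
            have := Real.rpow_nonneg (hZ _ t.2).le (-s)
            positivity
          · exact h.mul_left _
      _ = _ := by rw [tsum_mul_left]
  -- the average
  set μ : Measure ℝ := volume.restrict (Icc T (2 * T)) with hμ
  have hvol : volume (Icc T (2 * T)) = ENNReal.ofReal T := by
    rw [Real.volume_Icc]
    congr 1
    ring
  have hμ0 : μ ≠ 0 := by
    rw [hμ, Ne, Measure.restrict_eq_zero, hvol, ENNReal.ofReal_eq_zero, not_le]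
    exact hT
  have hμf : IsFiniteMeasure μ := by
    refine ⟨?_⟩
    rw [hμ, Measure.restrict_apply_univ, hvol]
    exact ENNReal.ofReal_lt_top
  have hN : μ (Z ∪ (Icc T (2 * T))ᶜ) = 0 := by
    refine measure_union_null ?_ ?_
    · exact le_antisymm ((Measure.restrict_apply_le _ _).trans (hZc.measure_zero volume).le)
        bot_le
    · rw [hμ, Measure.restrict_apply measurableSet_Icc.compl]
      simp
  obtain ⟨r, hr1, hr2⟩ := exists_notMem_null_le_laverage hμ0 hGm.aemeasurable hN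
  have hrZ : r ∉ Z := fun h1 => hr1 (Or.inl h1)
  have hrI : r ∈ Icc T (2 * T) := by
    by_contra h1
    exact hr1 (Or.inr h1)
  have havg : ⨍⁻ a, G a ∂μ ≤ ENNReal.ofReal (C * T ^ (-(q - s)) * S) := by
    rw [laverage_eq, hμ, Measure.restrict_apply_univ, hvol]
    refine (ENNReal.div_le_div_right hint _).trans ?_
    rw [← ENNReal.ofReal_div_of_pos hT]
    apply ENNReal.ofReal_le_ofReal
    rw [show (1 - (q - s)) = -(q - s) + 1 by ring, Real.rpow_add hT, Real.rpow_one]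
    apply le_of_eq
    field_simp
  have hGr : G r ≤ ENNReal.ofReal (C * T ^ (-(q - s)) * S) := hr2.trans havg
  have hGtop : G r ≠ ∞ := (hGr.trans_lt ENNReal.ofReal_lt_top).ne
  have hnn : ∀ t : Z, 0 ≤ |r - (t : ℝ)| ^ (-q) := fun t => Real.rpow_nonneg (abs_nonneg _) _
  have hsum : Summable (fun t : Z => |r - (t : ℝ)| ^ (-q)) := by
    have h1 := ENNReal.summable_toReal hGtop
    refine h1.congr ?_
    intro t
    rw [ENNReal.toReal_ofReal (hnn t)]
  refine ⟨r, hrI, hrZ, hsum, ?_⟩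
  have h2 : ENNReal.ofReal (∑' t : Z, |r - (t : ℝ)| ^ (-q)) = G r := by
    rw [hG, ENNReal.ofReal_tsum_of_nonneg hnn hsum]
  have h3 : ENNReal.ofReal (∑' t : Z, |r - (t : ℝ)| ^ (-q)) ≤
      ENNReal.ofReal (C * T ^ (-(q - s)) * S) := h2 ▸ hGr
  exact (ENNReal.ofReal_le_ofReal_iff (by positivity)).1 h3

theorem exists_good_radii (Z : Set ℝ) (hZ : ∀ t ∈ Z, 0 < t) (s : ℝ) (hs0 : 0 < s) (hs : s < 1)
    (h : Summable fun t : Z => (t : ℝ) ^ (-s)) :
    ∃ r : ℕ → ℝ, Tendsto r atTop atTop ∧ (∀ j, r j ∉ Z) ∧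
      (∀ j, Summable fun t : Z => 1 / |r j - (t : ℝ)|) ∧
      Tendsto (fun j => ∑' t : Z, 1 / |r j - (t : ℝ)|) atTop (𝓝 0) := by
  set q : ℝ := (s + 1) / 2 with hqdef
  have hsq : s < q := by rw [hqdef]; linarith
  have hq : q < 1 := by rw [hqdef]; linarith
  have hq0 : 0 < q := hs0.trans hsq
  set C : ℝ := 2 * 4 ^ (1 - q) * 4 ^ s / (1 - q) + 2 ^ q with hC
  set S : ℝ := ∑' t : Z, (t : ℝ) ^ (-s) with hS
  have hlim : Tendsto (fun T : ℝ => C * T ^ (-(q - s)) * S) atTop (𝓝 0) := by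
    have h1 := tendsto_rpow_neg_atTop (show 0 < q - s by linarith)
    have h2 := (h1.const_mul C).mul_const S
    simpa using h2
  have hev : ∀ᶠ T : ℝ in atTop, C * T ^ (-(q - s)) * S < 1 :=
    hlim.eventually (gt_mem_nhds one_pos)
  obtain ⟨T0, hT0⟩ := eventually_atTop.1 hev
  set TT : ℕ → ℝ := fun j => max T0 0 + 1 + j with hTT
  have hTpos : ∀ j, 0 < TT j := by
    intro j
    have := le_max_right T0 0
    have h2 : (0 : ℝ) ≤ j := by positivity
    simp only [hTT]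
    linarith
  have hTge : ∀ j, T0 ≤ TT j := by
    intro j
    have := le_max_left T0 0
    have h2 : (0 : ℝ) ≤ j := by positivity
    simp only [hTT]
    linarith
  have hTlim : Tendsto TT atTop atTop :=
    tendsto_atTop_add_const_left _ _ tendsto_natCast_atTop_atTop
  have hex := fun j => S11a_aux4 Z hZ s q hs0 hsq hq h (TT j) (hTpos j)
  choose r hr1 hr2 hr3 hr4 using hex
  have hbd : ∀ j, ∀ t : Z, 1 / |r j - (t : ℝ)| ≤ |r j - (t : ℝ)| ^ (-q) := by
    intro j t
    have hne : r j ≠ t := fun h1 => hr2 j (h1 ▸ t.2)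
    have hpos : 0 < |r j - (t : ℝ)| := abs_pos.2 (sub_ne_zero.2 hne)
    have h1 : |r j - (t : ℝ)| ^ (-q) ≤ ∑' t : Z, |r j - (t : ℝ)| ^ (-q) :=
      (hr3 j).le_tsum t (fun t' _ => Real.rpow_nonneg (abs_nonneg _) _)
    have h2 : |r j - (t : ℝ)| ^ (-q) < 1 := (h1.trans (hr4 j)).trans_lt (hT0 _ (hTge j))
    have h3 : 1 ≤ |r j - (t : ℝ)| := by
      by_contra h4
      rw [not_le] at h4
      have := Real.one_le_rpow_of_pos_of_le_one_of_nonpos hpos h4.le (by linarith : -q ≤ 0)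
      linarith
    rw [one_div, ← Real.rpow_neg_one]
    exact Real.rpow_le_rpow_of_exponent_le h3 (by linarith)
  have hsum : ∀ j, Summable fun t : Z => 1 / |r j - (t : ℝ)| := by
    intro j
    exact Summable.of_nonneg_of_le (fun t => by positivity) (hbd j) (hr3 j)
  refine ⟨r, ?_, hr2, hsum, ?_⟩
  · exact tendsto_atTop_mono (fun j => (hr1 j).1) hTlim
  · refine squeeze_zero (fun j => tsum_nonneg fun t => by positivity) ?_ (hlim.comp hTlim)
    intro j
    exact ((hsum j).tsum_le_tsum (hbd j) (hr3 j)).trans (hr4 j)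

end

end Pool.Agent.MP_941b23_mp
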