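import Pool.Agent.MP_941b23_mp.Defs2
import Pool.Agent.MP_941b23_mp.S2a
import Pool.Agent.MP_941b23_mp.S3

/-!
[QM-S3b] zero-free sector of `A` for large argument.
-/

namespace Pool.Agent.MP_941b23_mp

open MeasureTheory Set Filter Topology
open scoped ENNReal NNReal Real ComplexConjugate

noncomputable section

variable {N α τ : ℝ}

theorem s3b_main (hN : 0 < N) (hτ : 0 < τ) (w : ℂ) (hwre : -w.im ≤ w.re)
    (hbig : 1 / 2 + 25 * (α * (N * τ) ^ 2) ^ 2 < N ^ 3 * τ ^ 4 * (8 * w.im)) :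
    Aj N α τ 0 w ≠ 0 := by
  intro h0
  set a : ℝ := α * (N * τ) ^ 2 with ha
  set b : ℝ := N ^ 3 * τ ^ 4 with hb
  have hbpos : 0 < b := by positivity
  set e : ℂ := ⟨3, -1⟩ with he
  have e2re : (e ^ 2).re = 8 := by simp [he, pow_two]; norm_num
  have e2im : (e ^ 2).im = -6 := by simp [he, pow_two]; norm_num
  have e3re : (e ^ 3).re = 18 := by simp [he, pow_succ]; norm_num
  have e3im : (e ^ 3).im = -26 := by simp [he, pow_succ]; norm_num
  have e0re : e.re = 3 := rfl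
  have e0im : e.im = -1 := rfl
  set Y := s3_Y N α τ w e with hY
  set H : ℝ → ℝ := fun t => (Y 2 t).re * (Y 0 t).re + (Y 2 t).im * (Y 0 t).im -
    ((Y 1 t).re ^ 2 + (Y 1 t).im ^ 2) / 2 - ((Y 1 t).re * (Y 0 t).re + (Y 1 t).im * (Y 0 t).im) +
    ((Y 0 t).re ^ 2 + (Y 0 t).im ^ 2) / 2 with hHdef
  set G : ℝ → ℝ := fun t => Real.exp t * H t with hGdef
  set K : ℝ → ℝ := fun t => -(3 / 2) * ((Y 1 t).re ^ 2 + (Y 1 t).im ^ 2) +
    ((Y 0 t).re ^ 2 + (Y 0 t).im ^ 2) / 2 +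
    ((Y 3 t).re * (Y 0 t).re + (Y 3 t).im * (Y 0 t).im) with hKdef
  have hG : ∀ t, HasDerivAt G (Real.exp t * K t) t := by
    intro t
    have r0 : HasDerivAt (fun t => (Y 0 t).re) (Y 1 t).re t := s3_re hN w e 0 t
    have r1 : HasDerivAt (fun t => (Y 1 t).re) (Y 2 t).re t := s3_re hN w e 1 t
    have r2 : HasDerivAt (fun t => (Y 2 t).re) (Y 3 t).re t := s3_re hN w e 2 t
    have i0 : HasDerivAt (fun t => (Y 0 t).im) (Y 1 t).im t := s3_im hN w e 0 t
    have i1 : HasDerivAt (fun t => (Y 1 t).im) (Y 2 t).im t := s3_im hN w e 1 t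
    have i2 : HasDerivAt (fun t => (Y 2 t).im) (Y 3 t).im t := s3_im hN w e 2 t
    have hd := (((((r2.mul r0).add (i2.mul i0)).sub (((r1.pow 2).add (i1.pow 2)).div_const 2)).sub
      ((r1.mul r0).add (i1.mul i0))).add (((r0.pow 2).add (i0.pow 2)).div_const 2))
    have hd2 := (Real.hasDerivAt_exp t).mul hd
    refine hd2.congr_deriv ?_
    simp only [hKdef]
    norm_num
    ring
  have hK : ∀ t, 0 < t → K t ≤ -((b * (8 * w.im) - (1 / 2 + 25 * a ^ 2)) *
      ((Y 0 t).re ^ 2 + (Y 0 t).im ^ 2)) := by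
    intro t ht
    have hode : Y 3 t = (a : ℂ) * e ^ 2 * Y 1 t - (b : ℂ) * (e ^ 3 * (w + e * t)) * Y 0 t :=
      s3_Y_ode hN w e t
    have v1 : (e ^ 3 * (w + e * t)).re = 18 * w.re + 26 * w.im + 28 * t := by
      rw [Complex.mul_re, e3re, e3im]
      simp [e0re, e0im]
      ring
    have hre : (Y 3 t).re = a * (8 * (Y 1 t).re - (-6) * (Y 1 t).im) -
        b * ((18 * w.re + 26 * w.im + 28 * t) * (Y 0 t).re -
          (e ^ 3 * (w + e * t)).im * (Y 0 t).im) := by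
      rw [hode, s3_re_aux, e2re, e2im, v1]
    have him : (Y 3 t).im = a * (8 * (Y 1 t).im + (-6) * (Y 1 t).re) -
        b * ((18 * w.re + 26 * w.im + 28 * t) * (Y 0 t).im +
          (e ^ 3 * (w + e * t)).im * (Y 0 t).re) := by
      rw [hode, s3_im_aux, e2re, e2im, v1]
    have hv : 8 * w.im ≤ 18 * w.re + 26 * w.im + 28 * t := by linarith
    simp only [hKdef]
    rw [hre, him]
    generalize (e ^ 3 * (w + e * t)).im = s
    generalize hS : 18 * w.re + 26 * w.im + 28 * t = S at hv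
    generalize (Y 1 t).re = p1
    generalize (Y 1 t).im = q1
    generalize (Y 0 t).re = p0
    generalize (Y 0 t).im = q0
    have h1 : 0 ≤ b * (S - 8 * w.im) * (p0 ^ 2 + q0 ^ 2) := by
      have : 0 ≤ S - 8 * w.im := by linarith
      positivity
    have h2 : 0 ≤ (p1 - a * (4 * p0 - 3 * q0)) ^ 2 + (q1 - a * (3 * p0 + 4 * q0)) ^ 2 := by
      positivity
    nlinarith [h1, h2, sq_nonneg p1, sq_nonneg q1]
  have hlim : ∀ k, Tendsto (fun t : ℝ => (Real.exp (1 / 2 * t) : ℂ) * Y k t) atTop (𝓝 0) := by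
    intro k
    exact s3_Y_tendsto (α := α) hN hτ w e (by rw [e0re, e0im]; norm_num) k (1 / 2) (by norm_num)
  have hre : ∀ k, Tendsto (fun t => Real.exp (1 / 2 * t) * (Y k t).re) atTop (𝓝 0) := by
    intro k
    have h1 := (Complex.continuous_re.tendsto 0).comp (hlim k)
    refine h1.congr (fun t => ?_)
    simp only [Function.comp_apply, Complex.re_ofReal_mul]
  have him : ∀ k, Tendsto (fun t => Real.exp (1 / 2 * t) * (Y k t).im) atTop (𝓝 0) := by
    intro k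
    have h1 := (Complex.continuous_im.tendsto 0).comp (hlim k)
    refine h1.congr (fun t => ?_)
    simp only [Function.comp_apply, Complex.im_ofReal_mul]
  have hGlim : Tendsto G atTop (𝓝 0) := by
    have h1 := (((((hre 2).mul (hre 0)).add ((him 2).mul (him 0))).sub
      ((((hre 1).pow 2).add ((him 1).pow 2)).div_const 2)).sub
      (((hre 1).mul (hre 0)).add ((him 1).mul (him 0)))).add
      ((((hre 0).pow 2).add ((him 0).pow 2)).div_const 2)
    have h2 : ((((0 : ℝ) * 0 + 0 * 0) - (0 ^ 2 + 0 ^ 2) / 2) - (0 * 0 + 0 * 0)) +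
        (0 ^ 2 + 0 ^ 2) / 2 = 0 := by norm_num
    rw [h2] at h1
    refine h1.congr (fun t => ?_)
    have h3 : Real.exp t = Real.exp (1 / 2 * t) * Real.exp (1 / 2 * t) := by
      rw [← Real.exp_add]
      congr 1
      ring
    simp only [hGdef, hHdef, h3]
    ring
  have hY0 : Y 0 0 = 0 := by
    simp only [hY, s3_Y]
    simp [h0]
  have hG0 : G 0 ≤ 0 := by
    simp only [hGdef, hHdef, hY0]
    simp
    positivity
  have hδ : 0 < b * (8 * w.im) - (1 / 2 + 25 * a ^ 2) := by linarith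
  have hene : e ≠ 0 := by
    intro h
    have := congrArg Complex.re h
    rw [e0re] at this
    norm_num at this
  apply s3_ident (N := N) (α := α) (τ := τ) hN w e hene
  intro t ht
  have h1 := s3_core hG (fun t ht => by
    have h2 := hK t ht
    have h3 : 0 ≤ (b * (8 * w.im) - (1 / 2 + 25 * a ^ 2)) *
      ((Y 0 t).re ^ 2 + (Y 0 t).im ^ 2) := by positivity
    exact mul_nonpos_of_nonneg_of_nonpos (Real.exp_pos t).le (by linarith)) hGlim hG0 t ht
  have h2 : K t = 0 := (mul_eq_zero.1 h1).resolve_left (Real.exp_pos t).ne'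
  have h3 := hK t ht
  rw [h2] at h3
  have h5 : (Y 0 t).re ^ 2 + (Y 0 t).im ^ 2 ≤ 0 := by
    by_contra hc
    rw [not_le] at hc
    have := mul_pos hδ hc
    linarith
  have h4 : Y 0 t = 0 := by
    apply Complex.ext
    · simp only [Complex.zero_re]; nlinarith [sq_nonneg (Y 0 t).re, sq_nonneg (Y 0 t).im]
    · simp only [Complex.zero_im]; nlinarith [sq_nonneg (Y 0 t).re, sq_nonneg (Y 0 t).im]
  simpa [hY, s3_Y] using h4

theorem s3b_im {w : ℂ} (h : -(√2 / 2) * ‖w‖ ≤ w.re) (hre : w.re < 0) :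
    |w.re| ≤ |w.im| ∧ ‖w‖ ≤ 2 * |w.im| := by
  have h2 : √2 * √2 = 2 := Real.mul_self_sqrt (by norm_num)
  have hn : ‖w‖ ^ 2 = w.re ^ 2 + w.im ^ 2 := by
    rw [← Complex.normSq_eq_norm_sq, Complex.normSq_apply]; ring
  have h3 : -w.re ≤ √2 / 2 * ‖w‖ := by linarith
  have h4 : w.re ^ 2 ≤ ‖w‖ ^ 2 / 2 := by
    have h5 : (-w.re) ^ 2 ≤ (√2 / 2 * ‖w‖) ^ 2 := by
      apply pow_le_pow_left₀ (by linarith) h3
    have h6 : (√2 / 2 * ‖w‖) ^ 2 = ‖w‖ ^ 2 / 2 := by
      have : (√2 / 2 * ‖w‖) ^ 2 = (√2 * √2) * ‖w‖ ^ 2 / 4 := by ring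
      rw [this, h2]
      ring
    rw [h6] at h5
    linarith [neg_sq w.re]
  have h7 : w.re ^ 2 ≤ w.im ^ 2 := by linarith
  constructor
  · exact sq_le_sq.1 h7
  · have h8 : ‖w‖ ^ 2 ≤ (2 * |w.im|) ^ 2 := by
      rw [mul_pow, sq_abs]
      nlinarith
    exact (sq_le_sq₀ (norm_nonneg _) (by positivity)).1 h8

theorem Aj_ne_zero_sector (hN : 0 < N) (hτ : 0 < τ) : ∃ R₀ : ℝ, 0 < R₀ ∧ ∀ w : ℂ, R₀ ≤ ‖w‖ →
    -(√2 / 2) * ‖w‖ ≤ w.re → Aj N α τ 0 w ≠ 0 := by
  have hb : 0 < N ^ 3 * τ ^ 4 := by positivity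
  refine ⟨(1 + 25 * (α * (N * τ) ^ 2) ^ 2) / (4 * (N ^ 3 * τ ^ 4)), by positivity, ?_⟩
  intro w hw hsec
  rcases le_or_gt 0 w.re with h | h
  · exact Aj_ne_zero hN hτ w h
  · obtain ⟨h1, h2⟩ := s3b_im hsec h
    have hbig : 1 / 2 + 25 * (α * (N * τ) ^ 2) ^ 2 < N ^ 3 * τ ^ 4 * (8 * |w.im|) := by
      rw [div_le_iff₀ (by positivity)] at hw
      have h3 : ‖w‖ * (4 * (N ^ 3 * τ ^ 4)) ≤ (2 * |w.im|) * (4 * (N ^ 3 * τ ^ 4)) :=
        mul_le_mul_of_nonneg_right h2 (by positivity)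
      linarith
    have himne : w.im ≠ 0 := by
      intro h3
      rw [h3, abs_zero] at h1
      have := abs_pos.2 h.ne
      linarith
    rcases lt_or_gt_of_ne himne with h3 | h3
    · rw [abs_of_neg h3] at hbig h1
      have h4 := s3b_main (α := α) hN hτ (conj w)
        (by
          rw [Complex.conj_im, Complex.conj_re, neg_neg]
          rw [abs_of_neg h] at h1
          linarith)
        (by rw [Complex.conj_im]; exact hbig)
      intro h5
      apply h4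
      rw [Aj_conj, h5, map_zero]
    · rw [abs_of_pos h3] at hbig h1
      rw [abs_of_neg h] at h1
      exact s3b_main hN hτ w (by linarith) hbig

end

end Pool.Agent.MP_941b23_mp
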