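import Pool.Agent.MP_941b23_mp.Defs2
import Pool.Agent.MP_941b23_mp.S2a
import Pool.Agent.MP_941b23_mp.S3
import Pool.Agent.MP_941b23_mp.S3b
import Pool.Agent.MP_941b23_mp.S5

/-!
[QM-S7a] bound for `p = -A'/A` in the right half plane.
-/

namespace Pool.Agent.MP_941b23_mp

open MeasureTheory Set Filter Topology
open scoped ENNReal NNReal Real ComplexConjugate

noncomputable section

variable {N α τ : ℝ}

theorem s7a_prod_deriv (S : Multiset ℂ) (w : ℂ) (hS : ∀ a ∈ S, a ≠ 0 ∧ w ≠ a) :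
    HasDerivAt (fun z : ℂ => (S.map fun a => 1 - z / a).prod)
      ((S.map fun a => 1 - w / a).prod * (S.map fun a => 1 / (w - a)).sum) w := by
  induction S using Multiset.induction_on with
  | empty => simpa using hasDerivAt_const w (1 : ℂ)
  | cons a S ih =>
    have ha := hS a (Multiset.mem_cons_self a S)
    have ih' := ih (fun b hb => hS b (Multiset.mem_cons_of_mem hb))
    simp only [Multiset.map_cons, Multiset.prod_cons, Multiset.sum_cons]
    have h1 : HasDerivAt (fun z : ℂ => 1 - z / a) (-(1 / a)) w := by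
      have := ((hasDerivAt_id w).div_const a).const_sub 1
      simpa using this
    have h2 : HasDerivAt (fun z : ℂ => (1 - z / a) * (S.map fun a => 1 - z / a).prod)
      (-(1 / a) * (S.map fun a => 1 - w / a).prod + (1 - w / a) *
        ((S.map fun a => 1 - w / a).prod * (S.map fun a => 1 / (w - a)).sum)) w := h1.mul ih'
    refine h2.congr_deriv ?_
    have h3 : w - a ≠ 0 := sub_ne_zero.2 ha.2
    have h4 := ha.1
    field_simp
    ring

theorem s7a_sum_le (S : Multiset ℂ) (f : ℂ → ℂ) (B : ℝ) (h : ∀ a ∈ S, ‖f a‖ ≤ B) :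
    ‖(S.map f).sum‖ ≤ Multiset.card S * B := by
  induction S using Multiset.induction_on with
  | empty => simp
  | cons a S ih =>
    have ha := h a (Multiset.mem_cons_self a S)
    have ih' := ih (fun b hb => h b (Multiset.mem_cons_of_mem hb))
    rw [Multiset.map_cons, Multiset.sum_cons, Multiset.card_cons]
    push_cast
    refine (norm_add_le _ _).trans ?_
    linarith

/-- zeros are far from the right half plane -/
theorem s7a_dist {R₀ : ℝ} (w a : ℂ) (hw : 0 ≤ w.re) (hR : 2 * R₀ ≤ ‖w‖) (ha : a.re < 0)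
    (hsec : R₀ ≤ ‖a‖ → a.re < -(√2 / 2) * ‖a‖) : ‖w‖ / 4 ≤ ‖w - a‖ := by
  have h1 : ‖w‖ - ‖a‖ ≤ ‖w - a‖ := norm_sub_norm_le _ _
  have h2 : w.re - a.re ≤ ‖w - a‖ := by
    rw [← Complex.sub_re]
    exact Complex.re_le_norm _
  have hn := norm_nonneg w
  have hna := norm_nonneg a
  rcases le_or_gt (‖w‖ / 2) ‖a‖ with h | h
  · have h3 := hsec (by linarith)
    have h4 : (1 : ℝ) ≤ √2 := by
      rw [show (1 : ℝ) = √1 by simp]
      exact Real.sqrt_le_sqrt (by norm_num)
    nlinarith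
  · linarith

theorem pA_bound (hN : 0 < N) (hτ : 0 < τ) : ∃ C : ℝ, ∀ w : ℂ, 0 ≤ w.re →
    ‖pA N α τ w‖ ≤ C * (1 + ‖w‖) ^ (1 / 3 : ℝ) := by
  obtain ⟨C₁, hC₁, hgr⟩ := Aj_growth (N := N) (α := α) (τ := τ) hN
  obtain ⟨R₀, hR₀, hsec⟩ := Aj_ne_zero_sector (N := N) (α := α) (τ := τ) hN hτ
  have hA0 : Aj N α τ 0 0 ≠ 0 := Aj_ne_zero hN hτ 0 (by simp)
  have hdiff : Differentiable ℂ (Aj N α τ 0) := fun z => (Aj_hasDerivAt hN 0 z).differentiableAt
  have hdiff1 : Differentiable ℂ (Aj N α τ 1) := fun z => (Aj_hasDerivAt hN 1 z).differentiableAt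
  set ℓ : ℝ := |Real.log ‖Aj N α τ 0 0‖| with hℓ
  set R₁ : ℝ := 2 * R₀ + 1 with hR₁
  have hR₁1 : 1 ≤ R₁ := by linarith
  -- large w
  have hlarge : ∀ w : ℂ, 0 ≤ w.re → R₁ ≤ ‖w‖ → ‖pA N α τ w‖ ≤
      20 * (C₁ * (1 + 6 ^ (4 / 3 : ℝ)) + ℓ) * (1 + ‖w‖) ^ (1 / 3 : ℝ) := by
    intro w hw hwR
    set ρ : ℝ := ‖w‖ with hρ
    have hρ1 : 1 ≤ ρ := hR₁1.trans hwR
    have hρ0 : 0 < ρ := by linarith
    set M : ℝ := C₁ * (1 + (6 * ρ) ^ (4 / 3 : ℝ)) + ℓ with hM
    have hℓ0 : 0 ≤ ℓ := abs_nonneg _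
    have hMpos : 0 < M := by
      have : 0 < C₁ * (1 + (6 * ρ) ^ (4 / 3 : ℝ)) := by positivity
      linarith
    obtain ⟨S, L, hcount, hcard, hLd, hL0, hfac, hLb⟩ := entire_factor (Aj N α τ 0) hdiff hA0
      (6 * ρ) M (by positivity) hMpos (by
        intro z hz
        refine (hgr z).trans ?_
        have h1 : ‖Aj N α τ 0 0‖ = Real.exp (Real.log ‖Aj N α τ 0 0‖) :=
          (Real.exp_log (norm_pos_iff.2 hA0)).symm
        rw [h1, ← Real.exp_add]
        apply Real.exp_le_exp.2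
        have h2 : ‖z‖ ^ (4 / 3 : ℝ) ≤ (6 * ρ) ^ (4 / 3 : ℝ) :=
          Real.rpow_le_rpow (norm_nonneg _) hz (by norm_num)
        have h3 : C₁ * (1 + ‖z‖ ^ (4 / 3 : ℝ)) ≤ C₁ * (1 + (6 * ρ) ^ (4 / 3 : ℝ)) := by
          apply mul_le_mul_of_nonneg_left _ hC₁.le
          linarith
        have h4 : 0 ≤ ℓ + Real.log ‖Aj N α τ 0 0‖ := by
          have := neg_abs_le (Real.log ‖Aj N α τ 0 0‖)
          linarith
        linarith)
    have hR3 : 6 * ρ / 3 = 2 * ρ := by ring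
    rw [hR3] at hLd hfac hLb
    have hSzero : ∀ a ∈ S, Aj N α τ 0 a = 0 := by
      intro a ha
      have h1 := hcount a
      have h2 := Multiset.count_ne_zero.2 ha
      rw [h1] at h2
      split_ifs at h2 with h3
      · exact apply_eq_zero_of_analyticOrderNatAt_ne_zero h2
      · exact absurd rfl h2
    have hSre : ∀ a ∈ S, a.re < 0 := by
      intro a ha
      by_contra hc
      exact Aj_ne_zero hN hτ a (not_lt.1 hc) (hSzero a ha)
    have hSsec : ∀ a ∈ S, R₀ ≤ ‖a‖ → a.re < -(√2 / 2) * ‖a‖ := by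
      intro a ha h1
      by_contra hc
      exact hsec a h1 (not_lt.1 hc) (hSzero a ha)
    have hSdist : ∀ a ∈ S, ρ / 4 ≤ ‖w - a‖ := fun a ha =>
      s7a_dist w a hw (by linarith) (hSre a ha) (hSsec a ha)
    have hSne : ∀ a ∈ S, a ≠ 0 ∧ w ≠ a := by
      intro a ha
      constructor
      · rintro rfl
        exact hA0 (hSzero 0 ha)
      · rintro rfl
        have := hSdist w ha
        rw [sub_self, norm_zero] at this
        linarith
    have hwball : w ∈ Metric.ball (0 : ℂ) (2 * ρ) := by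
      rw [mem_ball_zero_iff]
      linarith
    -- derivative
    have hLw : HasDerivAt L (deriv L w) w :=
      (hLd.differentiableAt (Metric.isOpen_ball.mem_nhds hwball)).hasDerivAt
    have hder : HasDerivAt (Aj N α τ 0) (Aj N α τ 0 0 *
        ((S.map fun a => 1 - w / a).prod * (S.map fun a => 1 / (w - a)).sum) * Complex.exp (L w) +
        Aj N α τ 0 0 * (S.map fun a => 1 - w / a).prod * (Complex.exp (L w) * deriv L w)) w := by
      have h1 : HasDerivAt (fun z => Aj N α τ 0 0 * (S.map fun a => 1 - z / a).prod *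
        Complex.exp (L z)) (Aj N α τ 0 0 *
        ((S.map fun a => 1 - w / a).prod * (S.map fun a => 1 / (w - a)).sum) * Complex.exp (L w) +
        Aj N α τ 0 0 * (S.map fun a => 1 - w / a).prod * (Complex.exp (L w) * deriv L w)) w :=
        ((s7a_prod_deriv S w hSne).const_mul _).mul hLw.cexp
      apply h1.congr_of_eventuallyEq
      filter_upwards [Metric.isOpen_ball.mem_nhds hwball] with z hz
      exact hfac z hz
    have hA1 : Aj N α τ 1 w = Aj N α τ 0 w * ((S.map fun a => 1 / (w - a)).sum + deriv L w) := by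
      have h1 := (Aj_hasDerivAt (N := N) (α := α) (τ := τ) hN 0 w).unique hder
      rw [zero_add] at h1
      rw [h1, hfac w hwball]
      ring
    have hAw : Aj N α τ 0 w ≠ 0 := Aj_ne_zero hN hτ w hw
    have hpA : pA N α τ w = -((S.map fun a => 1 / (w - a)).sum + deriv L w) := by
      unfold pA
      rw [hA1]
      field_simp
    -- bounds
    have hb1 : ‖(S.map fun a => 1 / (w - a)).sum‖ ≤ 8 * M / ρ := by
      have h1 := s7a_sum_le S (fun a => 1 / (w - a)) (4 / ρ) (by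
        intro a ha
        rw [norm_div, norm_one]
        have h2 := hSdist a ha
        rw [div_le_div_iff₀ (by linarith) hρ0]
        linarith)
      refine h1.trans ?_
      have h3 : (Multiset.card S : ℝ) * (4 / ρ) ≤ 2 * M * (4 / ρ) :=
        mul_le_mul_of_nonneg_right hcard (by positivity)
      refine h3.trans (le_of_eq ?_)
      field_simp
      ring
    have hb2 : ‖deriv L w‖ ≤ 12 * M / ρ := by
      have hsub : Metric.closedBall w (ρ / 2) ⊆ Metric.ball (0 : ℂ) (2 * ρ) := by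
        intro z hz
        rw [mem_ball_zero_iff]
        rw [mem_closedBall_iff_norm] at hz
        have h1 : ‖z‖ ≤ ‖z - w‖ + ‖w‖ := by
          have := norm_add_le (z - w) w
          rwa [sub_add_cancel] at this
        linarith
      have h1 := Complex.norm_deriv_le_of_forall_mem_sphere_norm_le (c := w) (R := ρ / 2)
        (C := 6 * M) (f := L) (by positivity) (by
          apply DifferentiableOn.diffContOnCl
          rw [closure_ball w (by positivity)]
          exact hLd.mono hsub) (by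
          intro z hz
          have hz2 := hLb z (hsub (Metric.sphere_subset_closedBall hz))
          refine hz2.trans ?_
          rw [mem_sphere_iff_norm] at hz
          have h3 : ‖z‖ ≤ ‖z - w‖ + ‖w‖ := by
            have := norm_add_le (z - w) w
            rwa [sub_add_cancel] at this
          have h4 : ‖z‖ ≤ 3 * ρ / 2 := by linarith
          rw [div_le_iff₀ (by linarith)]
          nlinarith [norm_nonneg z])
      refine h1.trans (le_of_eq ?_)
      field_simp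
      ring
    rw [hpA, norm_neg]
    refine (norm_add_le _ _).trans ?_
    have hsum : 8 * M / ρ + 12 * M / ρ = 20 * (M / ρ) := by ring
    refine (add_le_add hb1 hb2).trans ?_
    rw [hsum]
    have hMle : M ≤ (C₁ * (1 + 6 ^ (4 / 3 : ℝ)) + ℓ) * ρ ^ (4 / 3 : ℝ) := by
      have h1 : (1 : ℝ) ≤ ρ ^ (4 / 3 : ℝ) := Real.one_le_rpow hρ1 (by norm_num)
      have h2 : (6 * ρ) ^ (4 / 3 : ℝ) = 6 ^ (4 / 3 : ℝ) * ρ ^ (4 / 3 : ℝ) :=
        Real.mul_rpow (by norm_num) hρ0.le
      rw [hM, h2]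
      have h3 : ℓ ≤ ℓ * ρ ^ (4 / 3 : ℝ) := le_mul_of_one_le_right hℓ0 h1
      have h4 : C₁ ≤ C₁ * ρ ^ (4 / 3 : ℝ) := le_mul_of_one_le_right hC₁.le h1
      linarith
    have hdiv : M / ρ ≤ (C₁ * (1 + 6 ^ (4 / 3 : ℝ)) + ℓ) * (1 + ρ) ^ (1 / 3 : ℝ) := by
      rw [div_le_iff₀ hρ0]
      refine hMle.trans ?_
      have h5 : ρ ^ (4 / 3 : ℝ) = ρ ^ (1 / 3 : ℝ) * ρ := by
        rw [← Real.rpow_add_one hρ0.ne']
        norm_num
      have h6 : ρ ^ (1 / 3 : ℝ) ≤ (1 + ρ) ^ (1 / 3 : ℝ) :=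
        Real.rpow_le_rpow hρ0.le (by linarith) (by norm_num)
      rw [h5]
      have h7 : 0 ≤ C₁ * (1 + 6 ^ (4 / 3 : ℝ)) + ℓ := by positivity
      calc (C₁ * (1 + 6 ^ (4 / 3 : ℝ)) + ℓ) * (ρ ^ (1 / 3 : ℝ) * ρ)
          ≤ (C₁ * (1 + 6 ^ (4 / 3 : ℝ)) + ℓ) * ((1 + ρ) ^ (1 / 3 : ℝ) * ρ) := by gcongr
        _ = _ := by ring
    calc 20 * (M / ρ) ≤ 20 * ((C₁ * (1 + 6 ^ (4 / 3 : ℝ)) + ℓ) * (1 + ρ) ^ (1 / 3 : ℝ)) := by
          linarith
      _ = _ := by ring
  -- small w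
  obtain ⟨C₂, hC₂⟩ : ∃ C₂ : ℝ, ∀ w ∈ Metric.closedBall (0 : ℂ) R₁ ∩ {w : ℂ | 0 ≤ w.re},
      ‖pA N α τ w‖ ≤ C₂ := by
    have hcomp : IsCompact (Metric.closedBall (0 : ℂ) R₁ ∩ {w : ℂ | 0 ≤ w.re}) :=
      (isCompact_closedBall 0 R₁).inter_right (isClosed_le continuous_const Complex.continuous_re)
    apply hcomp.exists_bound_of_continuousOn
    unfold pA
    apply ContinuousOn.neg
    apply ContinuousOn.div hdiff1.continuous.continuousOn hdiff.continuous.continuousOn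
    intro w hw
    exact Aj_ne_zero hN hτ w hw.2
  refine ⟨max (20 * (C₁ * (1 + 6 ^ (4 / 3 : ℝ)) + ℓ)) C₂, ?_⟩
  intro w hw
  have h1 : (1 : ℝ) ≤ (1 + ‖w‖) ^ (1 / 3 : ℝ) :=
    Real.one_le_rpow (by linarith [norm_nonneg w]) (by norm_num)
  rcases le_or_gt R₁ ‖w‖ with h | h
  · refine (hlarge w hw h).trans ?_
    exact mul_le_mul_of_nonneg_right (le_max_left _ _) (by linarith)
  · have h2 := hC₂ w ⟨by rw [mem_closedBall_zero_iff]; exact h.le, hw⟩
    have h3 : 0 ≤ C₂ := (norm_nonneg _).trans h2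
    calc ‖pA N α τ w‖ ≤ C₂ := h2
      _ ≤ C₂ * (1 + ‖w‖) ^ (1 / 3 : ℝ) := le_mul_of_one_le_right h3 h1
      _ ≤ _ := mul_le_mul_of_nonneg_right (le_max_right _ _) (by linarith)

end

end Pool.Agent.MP_941b23_mp
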