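import Pool.Agent.MP_941b23_mp.Defs2

/-!
# Row S6 : Poisson-type representation in the half plane
-/

namespace Pool.Agent.MP_941b23_mp

open MeasureTheory Set Filter Topology
open scoped ENNReal NNReal Real ComplexConjugate

noncomputable section

theorem s6_majorant (θ ζ C B : ℝ) (hθ0 : 0 ≤ θ) (hζ : 0 < ζ) (hB : 0 ≤ B) (hC : 0 ≤ C) (η : ℝ) :
    C * (B + |η|) ^ θ / (η ^ 2 + ζ ^ 2) ≤
      (C * (2 * (B ^ 2 + 1)) ^ (θ / 2) / min 1 (ζ ^ 2)) * (1 + ‖η‖ ^ 2) ^ (-(2 - θ) / 2) := by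
  have h1 : 0 < 1 + η ^ 2 := by positivity
  have hm : 0 < min 1 (ζ ^ 2) := lt_min one_pos (by positivity)
  have h2 : min 1 (ζ ^ 2) * (1 + η ^ 2) ≤ η ^ 2 + ζ ^ 2 := by
    have a1 : min 1 (ζ ^ 2) ≤ 1 := min_le_left _ _
    have a2 : min 1 (ζ ^ 2) ≤ ζ ^ 2 := min_le_right _ _
    nlinarith [sq_nonneg η]
  have h3 : (B + |η|) ^ θ ≤ (2 * (B ^ 2 + 1)) ^ (θ / 2) * (1 + η ^ 2) ^ (θ / 2) := by
    have e1 : (B + |η|) ^ θ = ((B + |η|) ^ 2) ^ (θ / 2) := by
      rw [← Real.rpow_natCast, ← Real.rpow_mul (by positivity)]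
      congr 1; push_cast; ring
    rw [e1, ← Real.mul_rpow (by positivity) (by positivity)]
    apply Real.rpow_le_rpow (by positivity) _ (by positivity)
    have := sq_abs η
    nlinarith [sq_nonneg (B - |η|), sq_nonneg (B * η), abs_nonneg η]
  have e2 : (1 + ‖η‖ ^ 2) ^ (-(2 - θ) / 2) = (1 + η ^ 2) ^ (θ / 2) / (1 + η ^ 2) := by
    rw [Real.norm_eq_abs, sq_abs]
    rw [show -(2 - θ) / 2 = θ / 2 - 1 by ring, Real.rpow_sub h1, Real.rpow_one]
  rw [e2, div_mul_div_comm]
  apply div_le_div₀ _ _ (by positivity) h2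
  · positivity
  · rw [mul_assoc]
    exact mul_le_mul_of_nonneg_left h3 hC

theorem s6_integrable (θ ζ C B : ℝ) (hθ0 : 0 ≤ θ) (hθ : θ < 1) (hζ : 0 < ζ) (hB : 0 ≤ B)
    (hC : 0 ≤ C) : Integrable (fun η : ℝ => C * (B + |η|) ^ θ / (η ^ 2 + ζ ^ 2)) := by
  have hint : Integrable (fun η : ℝ =>
      (C * (2 * (B ^ 2 + 1)) ^ (θ / 2) / min 1 (ζ ^ 2)) * (1 + ‖η‖ ^ 2) ^ (-(2 - θ) / 2)) := by
    apply Integrable.const_mul
    apply integrable_rpow_neg_one_add_norm_sq
    simp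
    linarith
  refine hint.mono' ?_ (ae_of_all _ fun η => ?_)
  · apply Continuous.aestronglyMeasurable
    have : ∀ η : ℝ, η ^ 2 + ζ ^ 2 ≠ 0 := fun η => by positivity
    apply Continuous.div _ (by fun_prop) this
    apply Continuous.mul continuous_const
    apply Continuous.rpow_const (by fun_prop)
    intro η
    exact Or.inr hθ0
  · rw [Real.norm_of_nonneg (by positivity)]
    exact s6_majorant θ ζ C B hθ0 hζ hB hC η

theorem s6_integral_inv (ζ : ℝ) (hζ : 0 < ζ) : ∫ η : ℝ, (η ^ 2 + ζ ^ 2)⁻¹ = π / ζ := by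
  have h := integral_univ_inv_one_add_sq
  have h2 := Measure.integral_comp_div (fun x : ℝ => (1 + x ^ 2)⁻¹) ζ
  rw [h] at h2
  have e : ∀ η : ℝ, (η ^ 2 + ζ ^ 2)⁻¹ = (ζ ^ 2)⁻¹ * (1 + (η / ζ) ^ 2)⁻¹ := by
    intro η
    rw [← mul_inv]
    congr 1
    field_simp
    ring
  simp_rw [e]
  rw [integral_const_mul, h2, abs_of_pos hζ, smul_eq_mul]
  field_simp

theorem s6_tendsto (θ ζ C B Q : ℝ) (hθ0 : 0 ≤ θ) (hθ : θ < 1) (hζ : 0 < ζ) (hB : 0 ≤ B)
    (hC : 0 ≤ C) (hQ : 0 ≤ Q) :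
    Tendsto (fun R : ℝ => 4 * (R * ((C * (B + 2 * R) ^ θ + Q) / (R ^ 2 - ζ ^ 2)))) atTop (𝓝 0) := by
  have hup : Tendsto (fun R : ℝ => 8 * (C * 3 ^ θ) * R ^ (-(1 - θ)) + 8 * Q * R⁻¹) atTop (𝓝 0) := by
    have a := (tendsto_rpow_neg_atTop (show 0 < 1 - θ by linarith)).const_mul (8 * (C * 3 ^ θ))
    have b := (tendsto_inv_atTop_zero (𝕜 := ℝ)).const_mul (8 * Q)
    simpa using a.add b
  refine squeeze_zero' ?_ ?_ hup
  · filter_upwards [eventually_gt_atTop (ζ), eventually_gt_atTop 0] with R h1 h2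
    have : 0 < R ^ 2 - ζ ^ 2 := by nlinarith
    positivity
  · filter_upwards [eventually_gt_atTop (2 * ζ), eventually_gt_atTop 0, eventually_gt_atTop B]
      with R h1 h2 h3
    have h4 : R ^ 2 / 2 ≤ R ^ 2 - ζ ^ 2 := by nlinarith
    have h5 : (B + 2 * R) ^ θ ≤ 3 ^ θ * R ^ θ := by
      rw [← Real.mul_rpow (by norm_num) h2.le]
      exact Real.rpow_le_rpow (by positivity) (by linarith) hθ0
    have h6 : R ^ (-(1 - θ)) = R ^ θ / R := by
      rw [show -(1 - θ) = θ - 1 by ring, Real.rpow_sub h2, Real.rpow_one]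
    rw [h6]
    have h7 : (C * (B + 2 * R) ^ θ + Q) / (R ^ 2 - ζ ^ 2) ≤
        (C * (3 ^ θ * R ^ θ) + Q) / (R ^ 2 / 2) := by
      apply div_le_div₀ (by positivity) _ (by positivity) h4
      have := mul_le_mul_of_nonneg_left h5 hC
      linarith
    calc 4 * (R * ((C * (B + 2 * R) ^ θ + Q) / (R ^ 2 - ζ ^ 2)))
        ≤ 4 * (R * ((C * (3 ^ θ * R ^ θ) + Q) / (R ^ 2 / 2))) := by gcongr
      _ = 8 * (C * 3 ^ θ) * (R ^ θ / R) + 8 * Q * R⁻¹ := by
          field_simp
          ring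

theorem s6_core (q : ℂ → ℂ) (δ : ℝ) (hδ : 0 < δ) (hq : DifferentiableOn ℂ q {w | -δ < w.re})
    (C B θ : ℝ) (hC : 0 ≤ C) (hB : 0 ≤ B) (hθ0 : 0 ≤ θ) (hθ : θ < 1)
    (hb : ∀ w : ℂ, 0 ≤ w.re → ‖q w‖ ≤ C * (B + ‖w‖) ^ θ) (ζ : ℝ) (hζ : 0 < ζ) :
    ∫ η : ℝ, q (η * Complex.I) / ((η ^ 2 + ζ ^ 2 : ℝ) : ℂ) = q ζ * ((π / ζ : ℝ) : ℂ) := by
  set U : Set ℂ := {w | -δ < w.re} ∩ {w | -ζ < w.re} with hU
  set F : ℂ → ℂ := fun w => dslope q ζ w / (w + ζ) with hF
  have hopen : IsOpen {w : ℂ | -δ < w.re} := isOpen_lt continuous_const Complex.continuous_re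
  have hds : DifferentiableOn ℂ (dslope q (ζ : ℂ)) {w : ℂ | -δ < w.re} := by
    rw [Complex.differentiableOn_dslope]
    · exact hq
    · apply hopen.mem_nhds
      simp; linarith
  have hFd : DifferentiableOn ℂ F U := by
    apply DifferentiableOn.div (hds.mono inter_subset_left) (by fun_prop)
    intro w hw h0
    have h1 := congrArg Complex.re h0
    have h2 : -ζ < w.re := hw.2
    simp at h1
    linarith
  have hFv : ∀ w : ℂ, w ≠ ζ → F w = (q w - q ζ) / (w ^ 2 - ζ ^ 2) := by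
    intro w hw
    simp only [hF]
    rw [dslope_of_ne _ hw, slope_def_field, div_div]
    congr 1
    ring
  have hFy : ∀ y : ℝ, F (y * Complex.I) =
      -((q (y * Complex.I) - q ζ) / ((y ^ 2 + ζ ^ 2 : ℝ) : ℂ)) := by
    intro y
    rw [hFv]
    · rw [← div_neg]
      congr 1
      rw [mul_pow, Complex.I_sq]
      push_cast
      ring
    · intro h
      have := congrArg Complex.re h
      simp at this
      linarith
  -- continuity and integrability on the line
  have hqc : Continuous fun y : ℝ => q (y * Complex.I) := by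
    have : ContinuousOn q {w : ℂ | -δ < w.re} := hq.continuousOn
    apply this.comp_continuous (by fun_prop)
    intro y
    simp [hδ]
  have hqi : Integrable fun y : ℝ => q (y * Complex.I) / ((y ^ 2 + ζ ^ 2 : ℝ) : ℂ) := by
    refine (s6_integrable θ ζ C B hθ0 hθ hζ hB hC).mono' ?_ (ae_of_all _ fun y => ?_)
    · apply Continuous.aestronglyMeasurable
      apply Continuous.div hqc (by fun_prop)
      intro y
      have : (y ^ 2 + ζ ^ 2 : ℝ) ≠ 0 := by positivity
      exact_mod_cast this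
    · rw [norm_div, Complex.norm_real, Real.norm_of_nonneg (by positivity : 0 ≤ y ^ 2 + ζ ^ 2)]
      apply div_le_div_of_nonneg_right _ (by positivity)
      have := hb (y * Complex.I) (by simp)
      simpa using this
  have hci : Integrable fun y : ℝ => q ζ / ((y ^ 2 + ζ ^ 2 : ℝ) : ℂ) := by
    have h1 : Integrable fun y : ℝ => (y ^ 2 + ζ ^ 2)⁻¹ := by
      have := s6_integrable 0 ζ 1 0 le_rfl one_pos hζ le_rfl zero_le_one
      simpa using this
    have h2 := (h1.ofReal (𝕜 := ℂ)).const_mul (q ζ)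
    refine h2.congr (ae_of_all _ fun y => ?_)
    simp only [div_eq_mul_inv]
    push_cast
    rfl
  have hFi : Integrable fun y : ℝ => F (y * Complex.I) := by
    have : (fun y : ℝ => F (y * Complex.I)) = fun y : ℝ =>
        -(q (y * Complex.I) / ((y ^ 2 + ζ ^ 2 : ℝ) : ℂ) - q ζ / ((y ^ 2 + ζ ^ 2 : ℝ) : ℂ)) := by
      funext y
      rw [hFy, sub_div]
    rw [this]
    exact (hqi.sub hci).neg
  -- bound on the sides
  have hside : ∀ R : ℝ, ζ < R → ∀ w : ℂ, 0 ≤ w.re → R ≤ ‖w‖ → ‖w‖ ≤ 2 * R →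
      ‖F w‖ ≤ (C * (B + 2 * R) ^ θ + ‖q ζ‖) / (R ^ 2 - ζ ^ 2) := by
    intro R hR w hw0 hw1 hw2
    have hne : w ≠ ζ := by
      intro h
      rw [h, Complex.norm_real, Real.norm_of_nonneg hζ.le] at hw1
      linarith
    rw [hFv w hne, norm_div]
    have hpos : 0 < R ^ 2 - ζ ^ 2 := by nlinarith
    have hR0 : 0 < R := hζ.trans hR
    apply div_le_div₀ (by positivity) _ hpos
    · have h1 : ‖w ^ 2‖ - ‖(ζ : ℂ) ^ 2‖ ≤ ‖w ^ 2 - (ζ : ℂ) ^ 2‖ := norm_sub_norm_le _ _
      rw [norm_pow, norm_pow, Complex.norm_real, Real.norm_of_nonneg hζ.le] at h1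
      have : R ^ 2 ≤ ‖w‖ ^ 2 := by
        apply pow_le_pow_left₀ (by linarith) hw1
      linarith
    · refine (norm_sub_le _ _).trans ?_
      have h1 := hb w hw0
      have h2 : (B + ‖w‖) ^ θ ≤ (B + 2 * R) ^ θ :=
        Real.rpow_le_rpow (by positivity) (by linarith) hθ0
      have h3 := mul_le_mul_of_nonneg_left h2 hC
      linarith
  -- the main bound
  have hD : ∀ R : ℝ, ζ < R → ‖∫ y in (-R)..R, F (y * Complex.I)‖ ≤
      4 * (R * ((C * (B + 2 * R) ^ θ + ‖q ζ‖) / (R ^ 2 - ζ ^ 2))) := by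
    intro R hR
    have hR0 : 0 < R := hζ.trans hR
    set M := (C * (B + 2 * R) ^ θ + ‖q ζ‖) / (R ^ 2 - ζ ^ 2) with hM
    have hrect := Complex.integral_boundary_rect_eq_zero_of_differentiableOn F
      (⟨0, -R⟩ : ℂ) (⟨R, R⟩ : ℂ) (by
        apply hFd.mono
        intro w hw
        rw [Complex.mem_reProdIm] at hw
        have h1 := hw.1
        simp only at h1
        rw [uIcc_of_le hR0.le] at h1
        have h2 : (0 : ℝ) ≤ w.re := h1.1
        refine ⟨?_, ?_⟩
        · show -δ < w.re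
          linarith
        · show -ζ < w.re
          linarith)
    simp only [Complex.ofReal_zero, zero_add, smul_eq_mul] at hrect
    have hre : ∀ x y : ℝ, ((x : ℂ) + (y : ℂ) * Complex.I).re = x := by intro x y; simp
    have him : ∀ x y : ℝ, ((x : ℂ) + (y : ℂ) * Complex.I).im = y := by intro x y; simp
    have hnl : ∀ x y : ℝ, |x| ≤ R → |y| ≤ R → ‖(x : ℂ) + (y : ℂ) * Complex.I‖ ≤ 2 * R := by
      intro x y hx hy
      refine (norm_add_le _ _).trans ?_
      rw [norm_mul, Complex.norm_real, Complex.norm_real, Complex.norm_I, mul_one]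
      simp only [Real.norm_eq_abs]
      linarith
    have hA : ‖∫ x in (0 : ℝ)..R, F (x + ((-R : ℝ) : ℂ) * Complex.I)‖ ≤ M * |R - 0| := by
      apply intervalIntegral.norm_integral_le_of_norm_le_const
      intro x hx
      rw [uIoc_of_le hR0.le] at hx
      apply hside R hR
      · rw [hre]; exact hx.1.le
      · have := Complex.abs_im_le_norm ((x : ℂ) + ((-R : ℝ) : ℂ) * Complex.I)
        rw [him, abs_neg, abs_of_pos hR0] at this
        exact this
      · apply hnl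
        · rw [abs_of_pos hx.1]; exact hx.2
        · rw [abs_neg, abs_of_pos hR0]
    have hB' : ‖∫ x in (0 : ℝ)..R, F (x + ((R : ℝ) : ℂ) * Complex.I)‖ ≤ M * |R - 0| := by
      apply intervalIntegral.norm_integral_le_of_norm_le_const
      intro x hx
      rw [uIoc_of_le hR0.le] at hx
      apply hside R hR
      · rw [hre]; exact hx.1.le
      · have := Complex.abs_im_le_norm ((x : ℂ) + ((R : ℝ) : ℂ) * Complex.I)
        rw [him, abs_of_pos hR0] at this
        exact this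
      · apply hnl
        · rw [abs_of_pos hx.1]; exact hx.2
        · rw [abs_of_pos hR0]
    have hC' : ‖∫ y in (-R)..R, F (((R : ℝ) : ℂ) + (y : ℂ) * Complex.I)‖ ≤ M * |R - -R| := by
      apply intervalIntegral.norm_integral_le_of_norm_le_const
      intro y hy
      rw [uIoc_of_le (by linarith)] at hy
      apply hside R hR
      · rw [hre]; exact hR0.le
      · have := Complex.abs_re_le_norm (((R : ℝ) : ℂ) + (y : ℂ) * Complex.I)
        rw [hre, abs_of_pos hR0] at this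
        exact this
      · apply hnl
        · rw [abs_of_pos hR0]
        · rw [abs_le]; exact ⟨hy.1.le, hy.2⟩
    have hDe : Complex.I * ∫ y in (-R)..R, F (y * Complex.I) =
        (∫ x in (0 : ℝ)..R, F (x + ((-R : ℝ) : ℂ) * Complex.I)) -
        (∫ x in (0 : ℝ)..R, F (x + ((R : ℝ) : ℂ) * Complex.I)) +
        Complex.I * ∫ y in (-R)..R, F (((R : ℝ) : ℂ) + (y : ℂ) * Complex.I) := by
      linear_combination (-1 : ℂ) * hrect
    have hn : ‖∫ y in (-R)..R, F (y * Complex.I)‖ =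
        ‖Complex.I * ∫ y in (-R)..R, F (y * Complex.I)‖ := by
      rw [norm_mul, Complex.norm_I, one_mul]
    rw [hn, hDe]
    refine (norm_add_le _ _).trans ?_
    have h1 := norm_sub_le (∫ x in (0 : ℝ)..R, F (x + ((-R : ℝ) : ℂ) * Complex.I))
      (∫ x in (0 : ℝ)..R, F (x + ((R : ℝ) : ℂ) * Complex.I))
    have h2 : ‖Complex.I * ∫ y in (-R)..R, F (((R : ℝ) : ℂ) + (y : ℂ) * Complex.I)‖ =
        ‖∫ y in (-R)..R, F (((R : ℝ) : ℂ) + (y : ℂ) * Complex.I)‖ := by
      rw [norm_mul, Complex.norm_I, one_mul]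
    rw [h2]
    have e1 : |R - 0| = R := by rw [sub_zero, abs_of_pos hR0]
    have e2 : |R - -R| = 2 * R := by rw [abs_of_pos (by linarith)]; ring
    rw [e1] at hA hB'
    rw [e2] at hC'
    linarith
  have hlim0 : Tendsto (fun R : ℝ => ∫ y in (-R)..R, F (y * Complex.I)) atTop (𝓝 0) := by
    rw [tendsto_zero_iff_norm_tendsto_zero]
    refine squeeze_zero' (Eventually.of_forall fun _ => norm_nonneg _) ?_
      (s6_tendsto θ ζ C B ‖q ζ‖ hθ0 hθ hζ hB hC (norm_nonneg _))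
    filter_upwards [eventually_gt_atTop ζ] with R hR
    exact hD R hR
  have hlim1 : Tendsto (fun R : ℝ => ∫ y in (-R)..R, F (y * Complex.I)) atTop
      (𝓝 (∫ y : ℝ, F (y * Complex.I))) :=
    intervalIntegral_tendsto_integral hFi tendsto_neg_atTop_atBot tendsto_id
  have hzero : ∫ y : ℝ, F (y * Complex.I) = 0 := tendsto_nhds_unique hlim1 hlim0
  have hzero2 : ∫ y : ℝ, (q (y * Complex.I) / ((y ^ 2 + ζ ^ 2 : ℝ) : ℂ) -
      q ζ / ((y ^ 2 + ζ ^ 2 : ℝ) : ℂ)) = 0 := by
    have : (fun y : ℝ => (q (y * Complex.I) / ((y ^ 2 + ζ ^ 2 : ℝ) : ℂ) -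
      q ζ / ((y ^ 2 + ζ ^ 2 : ℝ) : ℂ))) = fun y : ℝ => -F (y * Complex.I) := by
      funext y
      rw [hFy, sub_div, neg_neg]
    rw [this, integral_neg, hzero, neg_zero]
  rw [integral_sub hqi hci, sub_eq_zero] at hzero2
  rw [hzero2]
  have : (fun y : ℝ => q ζ / ((y ^ 2 + ζ ^ 2 : ℝ) : ℂ)) =
      fun y : ℝ => q ζ * (((y ^ 2 + ζ ^ 2)⁻¹ : ℝ) : ℂ) := by
    funext y
    push_cast
    rw [div_eq_mul_inv]
  rw [this, integral_const_mul, integral_complex_ofReal, s6_integral_inv ζ hζ]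

theorem halfplane_rep (p : ℂ → ℂ) (hp : DifferentiableOn ℂ p {w | 0 < w.re})
    (hconj : ∀ w, 0 < w.re → p (conj w) = conj (p w)) (C θ : ℝ) (hθ0 : 0 ≤ θ) (hθ : θ < 1)
    (hb : ∀ w, 0 < w.re → ‖p w‖ ≤ C * (1 + ‖w‖) ^ θ) (r : ℝ → ℝ)
    (hr : ∀ η : ℝ, Tendsto (fun δ : ℝ => (p (δ + η * Complex.I)).re) (𝓝[>] 0) (𝓝 (r η)))
    (ζ : ℝ) (hζ : 0 < ζ) :
    IntegrableOn (fun η => r η / (η ^ 2 + ζ ^ 2)) (Ioi 0) ∧
    (p ζ).re = ζ * (2 / π * ∫ η in Ioi (0 : ℝ), r η / (η ^ 2 + ζ ^ 2)) ∧ (p ζ).im = 0 := by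
  have hC : 0 ≤ C := by
    have h1 := hb 1 (by simp)
    have h2 : 0 ≤ C * (1 + ‖(1 : ℂ)‖) ^ θ := (norm_nonneg _).trans h1
    exact nonneg_of_mul_nonneg_left h2 (by positivity)
  -- the identity at level δ
  have hlev : ∀ δ : ℝ, 0 < δ → (∫ η : ℝ, (p (δ + η * Complex.I)).re / (η ^ 2 + ζ ^ 2)) =
      (p (δ + ζ)).re * (π / ζ) := by
    intro δ hδ
    have h := s6_core (fun w => p (δ + w)) δ hδ (by
        apply hp.comp (by fun_prop)
        intro w hw
        have h1 : -δ < w.re := hw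
        show 0 < ((δ : ℂ) + w).re
        simp
        linarith) C (1 + δ) θ hC (by linarith) hθ0 hθ (by
        intro w hw
        have h1 := hb (δ + w) (by simp; linarith)
        refine h1.trans (mul_le_mul_of_nonneg_left ?_ hC)
        apply Real.rpow_le_rpow (by positivity) _ hθ0
        have := norm_add_le (δ : ℂ) w
        rw [Complex.norm_real, Real.norm_of_nonneg hδ.le] at this
        linarith) ζ hζ
    have h2 := congrArg Complex.re h
    rw [Complex.re_mul_ofReal] at h2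
    rw [← h2]
    have hint : Integrable fun η : ℝ => p (δ + η * Complex.I) / ((η ^ 2 + ζ ^ 2 : ℝ) : ℂ) := by
      refine (s6_integrable θ ζ C (1 + δ) hθ0 hθ hζ (by linarith) hC).mono' ?_
        (ae_of_all _ fun y => ?_)
      · apply Continuous.aestronglyMeasurable
        apply Continuous.div _ (by fun_prop)
        · intro y
          have : (y ^ 2 + ζ ^ 2 : ℝ) ≠ 0 := by positivity
          exact_mod_cast this
        · apply hp.continuousOn.comp_continuous (by fun_prop)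
          intro y
          simp [hδ]
      · rw [norm_div, Complex.norm_real, Real.norm_of_nonneg (by positivity : 0 ≤ y ^ 2 + ζ ^ 2)]
        apply div_le_div_of_nonneg_right _ (by positivity)
        have h1 := hb (δ + y * Complex.I) (by simp [hδ])
        refine h1.trans (mul_le_mul_of_nonneg_left ?_ hC)
        apply Real.rpow_le_rpow (by positivity) _ hθ0
        have := norm_add_le (δ : ℂ) (y * Complex.I)
        rw [Complex.norm_real, Real.norm_of_nonneg hδ.le, norm_mul, Complex.norm_real,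
          Complex.norm_I, mul_one, Real.norm_eq_abs] at this
        linarith
    have h3 := integral_re hint
    simp only [RCLike.re_to_complex] at h3
    rw [← h3]
    congr 1
    funext η
    rw [Complex.div_ofReal_re]
  -- the sequence δ_n = 1/(n+1)
  set d : ℕ → ℝ := fun n => 1 / ((n : ℝ) + 1) with hd
  have hdpos : ∀ n, 0 < d n := fun n => by simp only [hd]; positivity
  have hd1 : ∀ n, d n ≤ 1 := fun n => by
    simp only [hd]
    rw [div_le_one (by positivity)]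
    have : (0 : ℝ) ≤ n := Nat.cast_nonneg n
    linarith
  have hdt : Tendsto d atTop (𝓝[>] 0) := by
    rw [tendsto_nhdsWithin_iff]
    exact ⟨tendsto_one_div_add_atTop_nhds_zero_nat, Eventually.of_forall fun n => hdpos n⟩
  have hcont : ∀ n, Continuous fun η : ℝ => (p (d n + η * Complex.I)).re / (η ^ 2 + ζ ^ 2) := by
    intro n
    have h1 : Continuous fun η : ℝ => p (d n + η * Complex.I) := by
      apply hp.continuousOn.comp_continuous (by fun_prop)
      intro y
      simp [hdpos n]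
    have h2 : ∀ η : ℝ, η ^ 2 + ζ ^ 2 ≠ 0 := fun η => by positivity
    exact (Complex.continuous_re.comp h1).div (by fun_prop) h2
  have hbd : ∀ n, ∀ η : ℝ, ‖(p (d n + η * Complex.I)).re / (η ^ 2 + ζ ^ 2)‖ ≤
      C * (2 + |η|) ^ θ / (η ^ 2 + ζ ^ 2) := by
    intro n η
    rw [norm_div, Real.norm_of_nonneg (by positivity : 0 ≤ η ^ 2 + ζ ^ 2)]
    apply div_le_div_of_nonneg_right _ (by positivity)
    have h0 : ‖(p (d n + η * Complex.I)).re‖ ≤ ‖p (d n + η * Complex.I)‖ :=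
      Complex.abs_re_le_norm _
    have h1 := hb (d n + η * Complex.I) (by simp [hdpos n])
    refine h0.trans (h1.trans (mul_le_mul_of_nonneg_left ?_ hC))
    apply Real.rpow_le_rpow (by positivity) _ hθ0
    have := norm_add_le ((d n : ℝ) : ℂ) (η * Complex.I)
    rw [Complex.norm_real, Real.norm_of_nonneg (hdpos n).le, norm_mul, Complex.norm_real,
      Complex.norm_I, mul_one, Real.norm_eq_abs] at this
    have := hd1 n
    linarith
  have hptw : ∀ η : ℝ, Tendsto (fun n => (p (d n + η * Complex.I)).re / (η ^ 2 + ζ ^ 2)) atTop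
      (𝓝 (r η / (η ^ 2 + ζ ^ 2))) := by
    intro η
    exact ((hr η).comp hdt).div_const _
  have hbi := s6_integrable θ ζ C 2 hθ0 hθ hζ (by norm_num) hC
  have hmeas : AEStronglyMeasurable (fun η : ℝ => r η / (η ^ 2 + ζ ^ 2)) volume :=
    aestronglyMeasurable_of_tendsto_ae atTop (fun n => (hcont n).aestronglyMeasurable)
      (ae_of_all _ hptw)
  have hint : Integrable (fun η : ℝ => r η / (η ^ 2 + ζ ^ 2)) := by
    refine hbi.mono' hmeas (ae_of_all _ fun η => ?_)
    exact le_of_tendsto (hptw η).norm (Eventually.of_forall fun n => hbd n η)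
  have hlim := tendsto_integral_of_dominated_convergence _
    (fun n => (hcont n).aestronglyMeasurable) hbi (fun n => ae_of_all _ (hbd n))
    (ae_of_all _ hptw)
  have hlim2 : Tendsto (fun n => (p (d n + ζ)).re * (π / ζ)) atTop (𝓝 ((p ζ).re * (π / ζ))) := by
    apply Tendsto.mul_const
    have hca : ContinuousAt p (ζ : ℂ) := by
      apply hp.continuousOn.continuousAt
      apply (isOpen_lt continuous_const Complex.continuous_re).mem_nhds
      simp [hζ]
    have h1 : Tendsto (fun n => ((d n : ℝ) : ℂ) + (ζ : ℂ)) atTop (𝓝 (ζ : ℂ)) := by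
      have : Tendsto d atTop (𝓝 0) := tendsto_nhds_of_tendsto_nhdsWithin hdt
      have h2 := (Complex.continuous_ofReal.tendsto 0).comp this
      have h3 := h2.add_const (ζ : ℂ)
      simpa using h3
    exact (Complex.continuous_re.tendsto _).comp (hca.tendsto.comp h1)
  have hmain : ∫ η : ℝ, r η / (η ^ 2 + ζ ^ 2) = (p ζ).re * (π / ζ) := by
    refine tendsto_nhds_unique hlim ?_
    refine hlim2.congr fun n => ?_
    exact (hlev (d n) (hdpos n)).symm
  -- evenness
  have heven : ∀ η : ℝ, r (-η) = r η := by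
    intro η
    refine tendsto_nhds_unique (hr (-η)) ?_
    refine (hr η).congr' ?_
    filter_upwards [self_mem_nhdsWithin] with δ hδ
    have hδ' : 0 < δ := hδ
    have h1 := hconj (δ + η * Complex.I) (by simp [hδ'])
    have h2 : conj ((δ : ℂ) + η * Complex.I) = δ + ((-η : ℝ) : ℂ) * Complex.I := by
      simp
    rw [h2] at h1
    rw [h1, Complex.conj_re]
  have hsplit : ∫ η : ℝ, r η / (η ^ 2 + ζ ^ 2) = 2 * ∫ η in Ioi (0 : ℝ), r η / (η ^ 2 + ζ ^ 2) := by
    have h1 : ∫ η : ℝ, r η / (η ^ 2 + ζ ^ 2) = (∫ η in Iic (0 : ℝ), r η / (η ^ 2 + ζ ^ 2)) +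
        ∫ η in Ioi (0 : ℝ), r η / (η ^ 2 + ζ ^ 2) :=
      (intervalIntegral.integral_Iic_add_Ioi hint.integrableOn hint.integrableOn).symm
    have h2 : ∫ η in Iic (0 : ℝ), r η / (η ^ 2 + ζ ^ 2) =
        ∫ η in Ioi (0 : ℝ), r η / (η ^ 2 + ζ ^ 2) := by
      have h3 := integral_comp_neg_Ioi (0 : ℝ) (fun η => r η / (η ^ 2 + ζ ^ 2))
      rw [neg_zero] at h3
      rw [← h3]
      congr 1
      funext η
      rw [heven, neg_sq]
    rw [h1, h2, two_mul]
  refine ⟨hint.integrableOn, ?_, ?_⟩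
  · rw [hsplit] at hmain
    have hπ := Real.pi_pos
    field_simp at hmain ⊢
    linarith
  · have h1 := hconj ζ (by simp [hζ])
    rw [Complex.conj_ofReal] at h1
    exact Complex.conj_eq_iff_im.1 h1.symm

end

end Pool.Agent.MP_941b23_mp
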