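import Pool.Agent.MP_941b23_mp.Defs2
import Pool.Agent.MP_941b23_mp.S1
import Pool.Agent.MP_941b23_mp.S2a
import Pool.Agent.MP_941b23_mp.S3
import Pool.Agent.MP_941b23_mp.S4b
import Pool.Agent.MP_941b23_mp.S6
import Pool.Agent.MP_941b23_mp.S7a

/-! [S7b] representation of `p = -A'/A` and the Riccati inequality -/

set_option autoImplicit false

namespace Pool.Agent.MP_941b23_mp

open MeasureTheory Set Filter Topology
open scoped ENNReal NNReal Real ComplexConjugate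

noncomputable section

variable {N α τ : ℝ}

theorem s7b_continuous_Aj (hN : 0 < N) (k : ℕ) : Continuous (Aj N α τ k) :=
  continuous_iff_continuousAt.2 fun w => (Aj_hasDerivAt hN k w).continuousAt

theorem s7b_continuous_fj (hN : 0 < N) (k : ℕ) : Continuous (fj N α τ k) :=
  continuous_iff_continuousAt.2 fun w => (fj_hasDerivAt hN k w).continuousAt

theorem s7b_differentiableAt (hN : 0 < N) (hτ : 0 < τ) (w : ℂ) (hw : 0 ≤ w.re) :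
    DifferentiableAt ℂ (pA N α τ) w := by
  have h1 := (Aj_hasDerivAt (α := α) (τ := τ) hN 1 w).differentiableAt
  have h2 := (Aj_hasDerivAt (α := α) (τ := τ) hN 0 w).differentiableAt
  exact (h1.div h2 (Aj_ne_zero hN hτ w hw)).neg

theorem s7b_cA_pos (hN : 0 < N) (hτ : 0 < τ) : 0 < cA N α τ := by
  unfold cA
  have h1 : 0 < √N := Real.sqrt_pos.2 hN
  have h2 : 0 < √π := Real.sqrt_pos.2 Real.pi_pos
  have h3 := Real.pi_pos
  positivity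

theorem s7b_normSq_pos (hN : 0 < N) (hτ : 0 < τ) (η : ℝ) :
    0 < Complex.normSq (Aj N α τ 0 (η * Complex.I)) :=
  Complex.normSq_pos.2 (Aj_ne_zero hN hτ _ (by simp))

theorem s7b_r_pos (hN : 0 < N) (hτ : 0 < τ) (η : ℝ) : 0 < (pA N α τ (η * Complex.I)).re := by
  rw [re_pA_imag hN hτ]
  have h1 := s7b_cA_pos (α := α) hN hτ
  have h2 := s7b_normSq_pos (α := α) hN hτ η
  have h3 := fj_zero_pos (α := α) (τ := τ) hN η
  positivity

theorem s7b_half (hN : 0 < N) (hτ : 0 < τ) (ζ : ℝ) (hζ : 0 < ζ) :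
    IntegrableOn (fun η : ℝ => (pA N α τ (η * Complex.I)).re / (η ^ 2 + ζ ^ 2)) (Ioi 0) ∧
    (pA N α τ ζ).re = ζ * (2 / π * ∫ η in Ioi (0 : ℝ),
      (pA N α τ (η * Complex.I)).re / (η ^ 2 + ζ ^ 2)) ∧ (pA N α τ ζ).im = 0 := by
  obtain ⟨C, hC⟩ := pA_bound (α := α) hN hτ
  refine halfplane_rep (pA N α τ) ?_ ?_ C (1 / 3) (by norm_num) (by norm_num) ?_
    (fun η => (pA N α τ (η * Complex.I)).re) ?_ ζ hζ
  · intro w hw
    exact (s7b_differentiableAt hN hτ w (le_of_lt hw)).differentiableWithinAt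
  · intro w _
    unfold pA
    rw [Aj_conj, Aj_conj, map_neg, map_div₀]
  · intro w hw
    exact hC w hw.le
  · intro η
    have h1 : ContinuousAt (pA N α τ) (η * Complex.I) :=
      (s7b_differentiableAt hN hτ _ (by simp)).continuousAt
    have h2 : Tendsto (fun δ : ℝ => ((δ : ℂ) + η * Complex.I)) (𝓝[>] 0) (𝓝 (η * Complex.I)) := by
      have h3 : Continuous fun δ : ℝ => ((δ : ℂ) + η * Complex.I) := by fun_prop
      have h4 := h3.tendsto 0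
      simp only [Complex.ofReal_zero, zero_add] at h4
      exact h4.mono_left nhdsWithin_le_nhds
    exact (Complex.continuous_re.tendsto _).comp (h1.tendsto.comp h2)

theorem s7b_rhoD_sq (hN : 0 < N) (hτ : 0 < τ) (η : ℝ) (hη : 0 < η) :
    rhoD N α τ (η ^ 2) = (pA N α τ (η * Complex.I)).re / (π * η) := by
  rw [re_pA_imag hN hτ]
  unfold rhoD
  rw [Real.sqrt_sq hη.le]
  have h2 := s7b_normSq_pos (α := α) hN hτ η
  have h3 := Real.pi_pos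
  field_simp

theorem s7b_measurable_rhoD (hN : 0 < N) : Measurable (rhoD N α τ) := by
  unfold rhoD
  refine Measurable.div ?_ ?_
  · refine Measurable.const_mul ?_ _
    refine Complex.measurable_re.comp ?_
    refine (s7b_continuous_fj hN 0).measurable.comp ?_
    fun_prop
  · refine Measurable.mul (by fun_prop) ?_
    refine Complex.continuous_normSq.measurable.comp ?_
    refine (s7b_continuous_Aj hN 0).measurable.comp ?_
    fun_prop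

theorem s7b_image : (fun η : ℝ => η ^ 2) '' Ioi 0 = Ioi 0 := by
  ext v
  constructor
  · rintro ⟨η, hη, rfl⟩
    exact pow_pos (mem_Ioi.1 hη) 2
  · intro hv
    exact ⟨√v, Real.sqrt_pos.2 hv, Real.sq_sqrt (le_of_lt hv)⟩

theorem s7b_injOn : InjOn (fun η : ℝ => η ^ 2) (Ioi 0) := by
  intro a ha b hb hab
  exact (pow_left_inj₀ (le_of_lt ha) (le_of_lt hb) two_ne_zero).1 hab

theorem s7b_deriv (x : ℝ) : HasDerivWithinAt (fun η : ℝ => η ^ 2) (2 * x) (Ioi 0) x := by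
  have := (hasDerivAt_pow 2 x).hasDerivWithinAt (s := Ioi 0)
  simpa using this

theorem s7b_pointwise (hN : 0 < N) (hτ : 0 < τ) (g : ℝ → ℝ) (η : ℝ) (hη : η ∈ Ioi (0 : ℝ)) :
    |2 * η| • ((ENNReal.ofReal (rhoD N α τ (η ^ 2))).toReal • g (η ^ 2)) =
      2 / π * (pA N α τ (η * Complex.I)).re * g (η ^ 2) := by
  have h0 : (0 : ℝ) < η := hη
  have h1 := s7b_r_pos (α := α) hN hτ η
  have h3 := Real.pi_pos
  rw [s7b_rhoD_sq hN hτ η h0, ENNReal.toReal_ofReal (by positivity), abs_of_pos (by positivity),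
    smul_eq_mul, smul_eq_mul]
  field_simp

theorem s7b_integrable_iff (hN : 0 < N) (hτ : 0 < τ) (g : ℝ → ℝ) :
    Integrable g (rhoM N α τ) ↔
      IntegrableOn (fun η : ℝ => 2 / π * (pA N α τ (η * Complex.I)).re * g (η ^ 2)) (Ioi 0) := by
  unfold rhoM
  rw [integrable_withDensity_iff_integrable_smul' (s7b_measurable_rhoD hN).ennreal_ofReal
    (Eventually.of_forall fun _ => ENNReal.ofReal_lt_top)]
  have h1 := integrableOn_image_iff_integrableOn_abs_deriv_smul (f := fun η : ℝ => η ^ 2)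
    (f' := fun x => 2 * x) measurableSet_Ioi (fun x _ => s7b_deriv x) s7b_injOn
    (fun v => (ENNReal.ofReal (rhoD N α τ v)).toReal • g v)
  rw [s7b_image] at h1
  change IntegrableOn _ _ _ ↔ _
  rw [h1]
  exact integrableOn_congr_fun (fun η hη => s7b_pointwise hN hτ g η hη) measurableSet_Ioi

theorem s7b_integral_eq (hN : 0 < N) (hτ : 0 < τ) (g : ℝ → ℝ) :
    ∫ v, g v ∂(rhoM N α τ) =
      ∫ η in Ioi (0 : ℝ), 2 / π * (pA N α τ (η * Complex.I)).re * g (η ^ 2) := by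
  unfold rhoM
  rw [integral_withDensity_eq_integral_toReal_smul (s7b_measurable_rhoD hN).ennreal_ofReal
    (Eventually.of_forall fun _ => ENNReal.ofReal_lt_top)]
  have h1 := integral_image_eq_integral_abs_deriv_smul (f := fun η : ℝ => η ^ 2)
    (f' := fun x => 2 * x) measurableSet_Ioi (fun x _ => s7b_deriv x) s7b_injOn
    (fun v => (ENNReal.ofReal (rhoD N α τ v)).toReal • g v)
  rw [s7b_image] at h1
  rw [h1]
  exact setIntegral_congr_fun measurableSet_Ioi (fun η hη => s7b_pointwise hN hτ g η hη)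

theorem s7b_ae_pos : ∀ᵐ v ∂(rhoM N α τ), 0 < v := by
  unfold rhoM
  refine (withDensity_absolutelyContinuous _ _).ae_le ?_
  exact ae_restrict_mem measurableSet_Ioi

theorem pA_rep (hN : 0 < N) (hτ : 0 < τ) :
    Integrable (fun v => 1 / (1 + v)) (rhoM N α τ) ∧
    ∀ ζ : ℝ, 0 < ζ → (pA N α τ ζ).im = 0 ∧ 0 < (pA N α τ ζ).re ∧
      (pA N α τ ζ).re = ζ * ∫ v, 1 / (v + ζ ^ 2) ∂(rhoM N α τ) := by
  constructor
  · rw [s7b_integrable_iff hN hτ]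
    have h1 : IntegrableOn (fun η : ℝ => 2 / π *
        ((pA N α τ (η * Complex.I)).re / (η ^ 2 + 1 ^ 2))) (Ioi 0) :=
      Integrable.const_mul (s7b_half (α := α) hN hτ 1 one_pos).1 (2 / π)
    refine IntegrableOn.congr_fun h1 ?_ measurableSet_Ioi
    intro η _
    change 2 / π * ((pA N α τ (η * Complex.I)).re / (η ^ 2 + 1 ^ 2)) =
      2 / π * (pA N α τ (η * Complex.I)).re * (1 / (1 + η ^ 2))
    rw [one_pow, add_comm (η ^ 2)]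
    ring
  · intro ζ hζ
    obtain ⟨h1, h2, h3⟩ := s7b_half (α := α) hN hτ ζ hζ
    refine ⟨h3, ?_, ?_⟩
    · rw [h2]
      have h4 : 0 < ∫ η in Ioi (0 : ℝ), (pA N α τ (η * Complex.I)).re / (η ^ 2 + ζ ^ 2) := by
        rw [setIntegral_pos_iff_support_of_nonneg_ae]
        · have h5 : (Function.support fun η : ℝ =>
              (pA N α τ (η * Complex.I)).re / (η ^ 2 + ζ ^ 2)) ∩ Ioi 0 = Ioi 0 := by
            refine inter_eq_right.2 fun η _ => ?_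
            have := s7b_r_pos (α := α) hN hτ η
            exact (div_pos this (by positivity)).ne'
          rw [h5]
          simp
        · refine Eventually.of_forall fun η => ?_
          have := s7b_r_pos (α := α) hN hτ η
          exact (div_pos this (by positivity)).le
        · exact h1
      exact mul_pos hζ (mul_pos (div_pos two_pos Real.pi_pos) h4)
    · rw [h2, s7b_integral_eq hN hτ, ← integral_const_mul]
      congr 1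
      refine setIntegral_congr_fun measurableSet_Ioi fun η _ => ?_
      ring

/-! ### derivatives of `ζ ↦ ∫ ζ / (v + ζ²) dρ(v)` -/

theorem s7b_q0 (v z : ℝ) (hv : 0 < v) :
    HasDerivAt (fun z : ℝ => z / (v + z ^ 2)) ((v - z ^ 2) / (v + z ^ 2) ^ 2) z := by
  have h0 : v + z ^ 2 ≠ 0 := by positivity
  have h1 : HasDerivAt (fun z : ℝ => v + z ^ 2) (2 * z) z := by
    have := (hasDerivAt_pow 2 z).const_add v
    simpa using this
  have h2 := (hasDerivAt_id z).div h1 h0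
  refine h2.congr_deriv ?_
  simp only [id]
  congr 1
  ring

theorem s7b_q1 (v z : ℝ) (hv : 0 < v) :
    HasDerivAt (fun z : ℝ => (v - z ^ 2) / (v + z ^ 2) ^ 2)
      (2 * z * (z ^ 2 - 3 * v) / (v + z ^ 2) ^ 3) z := by
  have h0 : v + z ^ 2 ≠ 0 := by positivity
  have h1 : HasDerivAt (fun z : ℝ => v + z ^ 2) (2 * z) z := by
    have := (hasDerivAt_pow 2 z).const_add v
    simpa using this
  have h3 : HasDerivAt (fun z : ℝ => v - z ^ 2) (-(2 * z)) z := by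
    have := (hasDerivAt_pow 2 z).const_sub v
    simpa using this
  have h2 := h3.div (h1.pow 2) (pow_ne_zero 2 h0)
  refine h2.congr_deriv ?_
  simp only [Pi.pow_apply]
  field_simp
  ring

theorem s7b_low {ζ z v : ℝ} (hζ : 0 < ζ) (hz : ζ / 2 < z) (hv : 0 < v) :
    min 1 (ζ ^ 2 / 4) * (1 + v) ≤ v + z ^ 2 := by
  have h1 : ζ ^ 2 / 4 ≤ z ^ 2 := by nlinarith
  have h2 := min_le_left 1 (ζ ^ 2 / 4)
  have h3 := min_le_right 1 (ζ ^ 2 / 4)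
  nlinarith

theorem s7b_b1 {ζ z v : ℝ} (hζ : 0 < ζ) (hz : ζ / 2 < z) (hv : 0 < v) :
    |(v - z ^ 2) / (v + z ^ 2) ^ 2| ≤ (min 1 (ζ ^ 2 / 4))⁻¹ * (1 / (1 + v)) := by
  have hm : 0 < min 1 (ζ ^ 2 / 4) := lt_min one_pos (by positivity)
  have h1 := s7b_low hζ hz hv
  have h0 : 0 < v + z ^ 2 := by positivity
  rw [abs_div, abs_of_pos (pow_pos h0 2)]
  have h2 : |v - z ^ 2| ≤ v + z ^ 2 := abs_le.2 ⟨by nlinarith, by nlinarith⟩
  calc |v - z ^ 2| / (v + z ^ 2) ^ 2 ≤ (v + z ^ 2) / (v + z ^ 2) ^ 2 := by gcongr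
    _ = 1 / (v + z ^ 2) := by field_simp
    _ ≤ 1 / (min 1 (ζ ^ 2 / 4) * (1 + v)) :=
      one_div_le_one_div_of_le (by positivity) h1
    _ = _ := by field_simp

theorem s7b_b2 {ζ z v : ℝ} (hζ : 0 < ζ) (hz : ζ / 2 < z) (hv : 0 < v) :
    |2 * z * (z ^ 2 - 3 * v) / (v + z ^ 2) ^ 3| ≤
      12 / ζ * (min 1 (ζ ^ 2 / 4))⁻¹ * (1 / (1 + v)) := by
  have hm : 0 < min 1 (ζ ^ 2 / 4) := lt_min one_pos (by positivity)
  have h1 := s7b_low hζ hz hv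
  have h0 : 0 < v + z ^ 2 := by positivity
  have hz0 : 0 < z := by linarith
  rw [abs_div, abs_of_pos (pow_pos h0 3), abs_mul, abs_of_pos (by positivity : (0 : ℝ) < 2 * z)]
  have h2 : |z ^ 2 - 3 * v| ≤ 3 * (v + z ^ 2) := abs_le.2 ⟨by nlinarith, by nlinarith⟩
  calc 2 * z * |z ^ 2 - 3 * v| / (v + z ^ 2) ^ 3 ≤
        2 * z * (3 * (v + z ^ 2)) / (v + z ^ 2) ^ 3 := by gcongr
    _ = (z / (v + z ^ 2)) * (6 * (1 / (v + z ^ 2))) := by field_simp; ring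
    _ ≤ (2 / ζ) * (6 * (1 / (min 1 (ζ ^ 2 / 4) * (1 + v)))) := by
      refine mul_le_mul ?_ ?_ (by positivity) (by positivity)
      · rw [div_le_div_iff₀ h0 hζ]
        nlinarith
      · refine mul_le_mul_of_nonneg_left ?_ (by norm_num)
        exact one_div_le_one_div_of_le (by positivity) h1
    _ = _ := by field_simp; ring

theorem s7b_mem_nhds {ζ : ℝ} (hζ : 0 < ζ) : Ioi (ζ / 2) ∈ 𝓝 ζ := Ioi_mem_nhds (by linarith)

theorem s7b_int0 (μ : Measure ℝ) (hμ : ∀ᵐ v ∂μ, 0 < v) (hi : Integrable (fun v => 1 / (1 + v)) μ)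
    (ζ : ℝ) (hζ : 0 < ζ) : Integrable (fun v => ζ / (v + ζ ^ 2)) μ := by
  refine Integrable.mono' (hi.const_mul (ζ * (min 1 (ζ ^ 2 / 4))⁻¹)) ?_ ?_
  · exact (Measurable.aestronglyMeasurable (by fun_prop))
  · filter_upwards [hμ] with v hv
    have hm : 0 < min 1 (ζ ^ 2 / 4) := lt_min one_pos (by positivity)
    have h1 := s7b_low hζ (by linarith : ζ / 2 < ζ) hv
    rw [Real.norm_eq_abs, abs_of_pos (by positivity)]
    calc ζ / (v + ζ ^ 2) ≤ ζ / (min 1 (ζ ^ 2 / 4) * (1 + v)) := by gcongr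
      _ = _ := by field_simp

theorem s7b_d0 (μ : Measure ℝ) (hμ : ∀ᵐ v ∂μ, 0 < v) (hi : Integrable (fun v => 1 / (1 + v)) μ)
    (ζ : ℝ) (hζ : 0 < ζ) :
    Integrable (fun v => (v - ζ ^ 2) / (v + ζ ^ 2) ^ 2) μ ∧
    HasDerivAt (fun z : ℝ => ∫ v, z / (v + z ^ 2) ∂μ)
      (∫ v, (v - ζ ^ 2) / (v + ζ ^ 2) ^ 2 ∂μ) ζ := by
  refine hasDerivAt_integral_of_dominated_loc_of_deriv_le (F := fun z v => z / (v + z ^ 2))
    (F' := fun z v => (v - z ^ 2) / (v + z ^ 2) ^ 2)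
    (bound := fun v => (min 1 (ζ ^ 2 / 4))⁻¹ * (1 / (1 + v)))
    (s7b_mem_nhds hζ) ?_ (s7b_int0 μ hμ hi ζ hζ) ?_ ?_ (hi.const_mul _) ?_
  · exact Eventually.of_forall fun z => (Measurable.aestronglyMeasurable (by fun_prop))
  · exact (Measurable.aestronglyMeasurable (by fun_prop))
  · filter_upwards [hμ] with v hv z hz
    exact s7b_b1 hζ hz hv
  · filter_upwards [hμ] with v hv z hz
    exact s7b_q0 v z hv

theorem s7b_d1 (μ : Measure ℝ) (hμ : ∀ᵐ v ∂μ, 0 < v) (hi : Integrable (fun v => 1 / (1 + v)) μ)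
    (ζ : ℝ) (hζ : 0 < ζ) :
    Integrable (fun v => 2 * ζ * (ζ ^ 2 - 3 * v) / (v + ζ ^ 2) ^ 3) μ ∧
    HasDerivAt (fun z : ℝ => ∫ v, (v - z ^ 2) / (v + z ^ 2) ^ 2 ∂μ)
      (∫ v, 2 * ζ * (ζ ^ 2 - 3 * v) / (v + ζ ^ 2) ^ 3 ∂μ) ζ := by
  refine hasDerivAt_integral_of_dominated_loc_of_deriv_le
    (F := fun z v => (v - z ^ 2) / (v + z ^ 2) ^ 2)
    (F' := fun z v => 2 * z * (z ^ 2 - 3 * v) / (v + z ^ 2) ^ 3)
    (bound := fun v => 12 / ζ * (min 1 (ζ ^ 2 / 4))⁻¹ * (1 / (1 + v)))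
    (s7b_mem_nhds hζ) ?_ (s7b_d0 μ hμ hi ζ hζ).1 ?_ ?_ (hi.const_mul _) ?_
  · exact Eventually.of_forall fun z => (Measurable.aestronglyMeasurable (by fun_prop))
  · exact (Measurable.aestronglyMeasurable (by fun_prop))
  · filter_upwards [hμ] with v hv z hz
    exact s7b_b2 hζ hz hv
  · filter_upwards [hμ] with v hv z hz
    exact s7b_q1 v z hv

theorem s7b_le1 (μ : Measure ℝ) (hμ : ∀ᵐ v ∂μ, 0 < v) (hi : Integrable (fun v => 1 / (1 + v)) μ)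
    (ζ : ℝ) (hζ : 0 < ζ) :
    ∫ v, (v - ζ ^ 2) / (v + ζ ^ 2) ^ 2 ∂μ ≤ (∫ v, ζ / (v + ζ ^ 2) ∂μ) / ζ := by
  rw [← integral_div]
  refine integral_mono_ae (s7b_d0 μ hμ hi ζ hζ).1 ((s7b_int0 μ hμ hi ζ hζ).div_const ζ) ?_
  filter_upwards [hμ] with v hv
  have h0 : 0 < v + ζ ^ 2 := by positivity
  have h1 : ζ / (v + ζ ^ 2) / ζ = (v + ζ ^ 2) / (v + ζ ^ 2) ^ 2 := by field_simp
  rw [h1]
  gcongr
  nlinarith

theorem s7b_le2 (μ : Measure ℝ) (hμ : ∀ᵐ v ∂μ, 0 < v) (hi : Integrable (fun v => 1 / (1 + v)) μ)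
    (ζ : ℝ) (hζ : 0 < ζ) :
    -(∫ v, 2 * ζ * (ζ ^ 2 - 3 * v) / (v + ζ ^ 2) ^ 3 ∂μ) ≤
      6 / ζ ^ 2 * ∫ v, ζ / (v + ζ ^ 2) ∂μ := by
  rw [← integral_const_mul, ← integral_neg]
  refine integral_mono_ae (s7b_d1 μ hμ hi ζ hζ).1.neg ((s7b_int0 μ hμ hi ζ hζ).const_mul _) ?_
  filter_upwards [hμ] with v hv
  have h0 : 0 < v + ζ ^ 2 := by positivity
  have h1 : 6 / ζ ^ 2 * (ζ / (v + ζ ^ 2)) = (6 * (v + ζ ^ 2) ^ 2 / ζ) / (v + ζ ^ 2) ^ 3 := by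
    field_simp
  have h2 : -(2 * ζ * (ζ ^ 2 - 3 * v) / (v + ζ ^ 2) ^ 3) =
      (2 * ζ * (3 * v - ζ ^ 2)) / (v + ζ ^ 2) ^ 3 := by ring
  rw [h1, h2]
  gcongr
  rw [le_div_iff₀ hζ]
  have h3 : 0 < v * ζ ^ 2 := by positivity
  nlinarith [sq_nonneg (v), sq_nonneg (ζ ^ 2), sq_nonneg v]

/-! ### the differential equation -/

theorem s7b_A1 (hN : 0 < N) (hτ : 0 < τ) (ζ : ℝ) (hζ : 0 < ζ) :
    (pA N α τ ζ).re = ∫ v, ζ / (v + ζ ^ 2) ∂(rhoM N α τ) ∧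
    Aj N α τ 1 ζ = -((∫ v, ζ / (v + ζ ^ 2) ∂(rhoM N α τ) : ℝ) : ℂ) * Aj N α τ 0 ζ := by
  obtain ⟨h1, -, h3⟩ := (pA_rep (α := α) hN hτ).2 ζ hζ
  have h4 : (pA N α τ ζ).re = ∫ v, ζ / (v + ζ ^ 2) ∂(rhoM N α τ) := by
    rw [h3, ← integral_const_mul]
    congr 1
    funext v
    ring
  refine ⟨h4, ?_⟩
  have h5 : pA N α τ ζ = ((∫ v, ζ / (v + ζ ^ 2) ∂(rhoM N α τ) : ℝ) : ℂ) := by
    rw [← h4]
    exact Complex.ext (by simp) (by simpa using h1)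
  have h6 : Aj N α τ 0 ζ ≠ 0 := Aj_ne_zero hN hτ _ (by simpa using hζ.le)
  rw [← h5, pA]
  field_simp

theorem s7b_A2 (hN : 0 < N) (hτ : 0 < τ) (ζ : ℝ) (hζ : 0 < ζ) :
    Aj N α τ 2 ζ = (((∫ v, ζ / (v + ζ ^ 2) ∂(rhoM N α τ)) ^ 2 -
      ∫ v, (v - ζ ^ 2) / (v + ζ ^ 2) ^ 2 ∂(rhoM N α τ) : ℝ) : ℂ) * Aj N α τ 0 ζ := by
  have hi := (pA_rep (α := α) hN hτ).1
  have h1 : HasDerivAt (fun z : ℝ => Aj N α τ 1 z) (Aj N α τ 2 ζ) ζ :=
    (Aj_hasDerivAt hN 1 (ζ : ℂ)).comp_ofReal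
  have h2 : HasDerivAt (fun z : ℝ => Aj N α τ 0 z) (Aj N α τ 1 ζ) ζ :=
    (Aj_hasDerivAt hN 0 (ζ : ℂ)).comp_ofReal
  have h3 := (s7b_d0 (rhoM N α τ) s7b_ae_pos hi ζ hζ).2
  have h4 := (h3.ofReal_comp.neg).mul h2
  have h5 : (fun z : ℝ => Aj N α τ 1 z) =ᶠ[𝓝 ζ] fun z : ℝ =>
      -((∫ v, z / (v + z ^ 2) ∂(rhoM N α τ) : ℝ) : ℂ) * Aj N α τ 0 z := by
    filter_upwards [Ioi_mem_nhds hζ] with z hz
    exact (s7b_A1 hN hτ z hz).2
  have h6 := h1.unique (h4.congr_of_eventuallyEq h5)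
  rw [h6, (s7b_A1 hN hτ ζ hζ).2]
  simp only [Pi.neg_apply]
  generalize (∫ v, ζ / (v + ζ ^ 2) ∂(rhoM N α τ)) = P
  generalize (∫ v, (v - ζ ^ 2) / (v + ζ ^ 2) ^ 2 ∂(rhoM N α τ)) = Q1
  push_cast
  ring

theorem s7b_A3 (hN : 0 < N) (hτ : 0 < τ) (ζ : ℝ) (hζ : 0 < ζ) :
    Aj N α τ 3 ζ = ((3 * (∫ v, ζ / (v + ζ ^ 2) ∂(rhoM N α τ)) *
      (∫ v, (v - ζ ^ 2) / (v + ζ ^ 2) ^ 2 ∂(rhoM N α τ)) -
      (∫ v, 2 * ζ * (ζ ^ 2 - 3 * v) / (v + ζ ^ 2) ^ 3 ∂(rhoM N α τ)) -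
      (∫ v, ζ / (v + ζ ^ 2) ∂(rhoM N α τ)) ^ 3 : ℝ) : ℂ) * Aj N α τ 0 ζ := by
  have hi := (pA_rep (α := α) hN hτ).1
  have h1 : HasDerivAt (fun z : ℝ => Aj N α τ 2 z) (Aj N α τ 3 ζ) ζ :=
    (Aj_hasDerivAt hN 2 (ζ : ℂ)).comp_ofReal
  have h2 : HasDerivAt (fun z : ℝ => Aj N α τ 0 z) (Aj N α τ 1 ζ) ζ :=
    (Aj_hasDerivAt hN 0 (ζ : ℂ)).comp_ofReal
  have h3 := (s7b_d0 (rhoM N α τ) s7b_ae_pos hi ζ hζ).2
  have h3' := (s7b_d1 (rhoM N α τ) s7b_ae_pos hi ζ hζ).2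
  have h4 := (((h3.pow 2).sub h3').ofReal_comp).mul h2
  have h5 : (fun z : ℝ => Aj N α τ 2 z) =ᶠ[𝓝 ζ] fun z : ℝ =>
      (((∫ v, z / (v + z ^ 2) ∂(rhoM N α τ)) ^ 2 -
      ∫ v, (v - z ^ 2) / (v + z ^ 2) ^ 2 ∂(rhoM N α τ) : ℝ) : ℂ) * Aj N α τ 0 z := by
    filter_upwards [Ioi_mem_nhds hζ] with z hz
    exact s7b_A2 hN hτ z hz
  have h6 := h1.unique (h4.congr_of_eventuallyEq h5)
  rw [h6, (s7b_A1 hN hτ ζ hζ).2]
  simp only [Pi.sub_apply, Pi.pow_apply]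
  generalize (∫ v, ζ / (v + ζ ^ 2) ∂(rhoM N α τ)) = P
  generalize (∫ v, (v - ζ ^ 2) / (v + ζ ^ 2) ^ 2 ∂(rhoM N α τ)) = Q1
  generalize (∫ v, 2 * ζ * (ζ ^ 2 - 3 * v) / (v + ζ ^ 2) ^ 3 ∂(rhoM N α τ)) = Q2
  push_cast
  ring

theorem pA_riccati (hN : 0 < N) (hτ : 0 < τ) (ζ : ℝ) (hζ : 0 < ζ) :
    (pA N α τ ζ).re ^ 3 ≤ (α * (N * τ) ^ 2 + 6 / ζ ^ 2) * (pA N α τ ζ).re + N ^ 3 * τ ^ 4 * ζ
      + 3 * (pA N α τ ζ).re ^ 2 / ζ := by
  obtain ⟨hi, hrep⟩ := pA_rep (α := α) hN hτ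
  have hpos := (hrep ζ hζ).2.1
  obtain ⟨hP, hA1⟩ := s7b_A1 (α := α) hN hτ ζ hζ
  have hA3 := s7b_A3 (α := α) hN hτ ζ hζ
  have hl1 := s7b_le1 (rhoM N α τ) s7b_ae_pos hi ζ hζ
  have hl2 := s7b_le2 (rhoM N α τ) s7b_ae_pos hi ζ hζ
  rw [← hP] at hA1 hA3 hl1 hl2
  set P := (pA N α τ ζ).re with hPdef
  set Q1 := ∫ v, (v - ζ ^ 2) / (v + ζ ^ 2) ^ 2 ∂(rhoM N α τ) with hQ1
  set Q2 := ∫ v, 2 * ζ * (ζ ^ 2 - 3 * v) / (v + ζ ^ 2) ^ 3 ∂(rhoM N α τ) with hQ2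
  have h6 : Aj N α τ 0 ζ ≠ 0 := Aj_ne_zero hN hτ _ (by simpa using hζ.le)
  have h7 := Aj_ode (α := α) (τ := τ) hN (ζ : ℂ)
  rw [hA3, hA1] at h7
  have h8 : ((3 * P * Q1 - Q2 - P ^ 3 : ℝ) : ℂ) =
      ((-(α * (N * τ) ^ 2) * P - N ^ 3 * τ ^ 4 * ζ : ℝ) : ℂ) := by
    apply mul_right_cancel₀ h6
    rw [h7]
    push_cast
    ring
  have h9 := Complex.ofReal_injective h8
  have h10 : 3 * P * Q1 ≤ 3 * P * (P / ζ) :=
    mul_le_mul_of_nonneg_left hl1 (by positivity)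
  have h11 : 3 * P * (P / ζ) = 3 * P ^ 2 / ζ := by ring
  have h12 : 6 / ζ ^ 2 * P = 6 / ζ ^ 2 * P := rfl
  nlinarith [h9, h10, h11, hl2]

end

end Pool.Agent.MP_941b23_mp
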