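import Pool.Agent.MP_941b23_mp.Defs2
import Pool.Agent.MP_941b23_mp.S1
import Pool.Agent.MP_941b23_mp.S10a
import Pool.Agent.MP_941b23_mp.S10b
import Pool.Agent.MP_941b23_mp.S11a
import Pool.Agent.MP_941b23_mp.S7a
import Pool.Agent.MP_941b23_mp.S7b
import Pool.Agent.MP_941b23_mp.S9

namespace Pool.Agent.MP_941b23_mp

open MeasureTheory Set Filter Topology
open scoped ENNReal NNReal Real ComplexConjugate

noncomputable section

variable {N α τ : ℝ}

theorem s11b_dslope_diff {F : ℂ → ℂ} (hF : Differentiable ℂ F) (a : ℂ) :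
    Differentiable ℂ (dslope F a) := by
  rw [← differentiableOn_univ]
  exact (Complex.differentiableOn_dslope univ_mem).2 hF.differentiableOn

open Classical in
theorem s11b_quot {F M : ℂ → ℂ} (hF : Differentiable ℂ F) (hM : Differentiable ℂ M) {s : Set ℂ}
    (h : ∀ a ∈ s, F a = 0 → deriv F a ≠ 0 ∧ M a = 0) :
    ∃ H : ℂ → ℂ, (∀ a, F a ≠ 0 → H a = M a / F a) ∧ ∀ a ∈ s, DifferentiableAt ℂ H a := by
  refine ⟨fun a => if F a = 0 then deriv M a / deriv F a else M a / F a, ?_, ?_⟩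
  · intro a ha
    simp [ha]
  · intro a has
    by_cases hFa : F a = 0
    · obtain ⟨h1, h2⟩ := h a has hFa
      have hD := s11b_dslope_diff hF a
      have hE := s11b_dslope_diff hM a
      have hDa : dslope F a a ≠ 0 := by rw [dslope_same]; exact h1
      have hev : ∀ᶠ z in 𝓝 a, dslope F a z ≠ 0 :=
        hD.continuous.continuousAt.eventually_ne hDa
      have heq : (fun a => if F a = 0 then deriv M a / deriv F a else M a / F a) =ᶠ[𝓝 a]
          fun z => dslope M a z / dslope F a z := by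
        filter_upwards [hev] with z hz
        by_cases hza : z = a
        · subst hza
          simp only [hFa, if_true, dslope_same]
        · have e1 : F z = (z - a) * dslope F a z := by
            have := sub_smul_dslope F a z
            rw [hFa, sub_zero, smul_eq_mul] at this
            exact this.symm
          have e2 : M z = (z - a) * dslope M a z := by
            have := sub_smul_dslope M a z
            rw [h2, sub_zero, smul_eq_mul] at this
            exact this.symm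
          have hzz : z - a ≠ 0 := sub_ne_zero.2 hza
          have : F z ≠ 0 := by rw [e1]; exact mul_ne_zero hzz hz
          simp only [this, if_false]
          rw [e1, e2, mul_div_mul_left _ _ hzz]
      exact (heq.differentiableAt_iff).2 ((hE a).div (hD a) hDa)
    · have hev : ∀ᶠ z in 𝓝 a, F z ≠ 0 := hF.continuous.continuousAt.eventually_ne hFa
      have heq : (fun a => if F a = 0 then deriv M a / deriv F a else M a / F a) =ᶠ[𝓝 a]
          fun z => M z / F z := by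
        filter_upwards [hev] with z hz
        simp [hz]
      exact (heq.differentiableAt_iff).2 ((hM a).div (hF a) hFa)

theorem s11b_schwarz {H : ℂ → ℂ} {r B : ℝ} (hr : 0 < r)
    (hd : ∀ a ∈ Metric.closedBall (0 : ℂ) r, DifferentiableAt ℂ H a)
    (hB : ∀ z : ℂ, ‖z‖ = r → ‖H z‖ ≤ B) {z : ℂ} (hz : ‖z‖ < r) :
    ‖H z - H 0‖ ≤ 2 * B / r * ‖z‖ := by
  have hcl : closure (Metric.ball (0 : ℂ) r) = Metric.closedBall 0 r := closure_ball _ hr.ne'
  have hdc : DiffContOnCl ℂ H (Metric.ball 0 r) := by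
    apply DifferentiableOn.diffContOnCl
    rw [hcl]
    exact fun a ha => (hd a ha).differentiableWithinAt
  have hmax : ∀ w ∈ Metric.closedBall (0 : ℂ) r, ‖H w‖ ≤ B := by
    intro w hw
    refine Complex.norm_le_of_forall_mem_frontier_norm_le Metric.isBounded_ball hdc ?_
      (by rw [hcl]; exact hw)
    intro u hu
    rw [frontier_ball _ hr.ne', mem_sphere_zero_iff_norm] at hu
    exact hB u hu
  have hmt : MapsTo H (Metric.ball 0 r) (Metric.closedBall (H 0) (2 * B)) := by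
    intro w hw
    rw [Metric.mem_closedBall, dist_eq_norm]
    calc ‖H w - H 0‖ ≤ ‖H w‖ + ‖H 0‖ := norm_sub_le _ _
      _ ≤ B + B := add_le_add (hmax w (Metric.ball_subset_closedBall hw))
          (hmax 0 (Metric.mem_closedBall_self hr.le))
      _ = 2 * B := by ring
  have := Complex.dist_le_div_mul_dist_of_mapsTo_ball
    (fun a ha => (hd a (Metric.ball_subset_closedBall ha)).differentiableWithinAt) hmt
    (mem_ball_zero_iff.2 hz)
  rw [dist_eq_norm, dist_zero_right] at this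
  exact this

/-- partial fractions with finitely many poles -/
theorem s11b_pf {ι : Type*} {F K : ℂ → ℂ} (hF : Differentiable ℂ F) (hK : Differentiable ℂ K)
    (T : Finset ι) (a c : ι → ℂ) (ha : ∀ i ∈ T, ∀ j ∈ T, a i = a j → i = j)
    (hz : ∀ i ∈ T, F (a i) = 0) (hz' : ∀ i ∈ T, deriv F (a i) ≠ 0)
    (hc : ∀ i ∈ T, K (a i) = c i * deriv F (a i)) {r B : ℝ} (hr : 0 < r)
    (hall : ∀ w : ℂ, ‖w‖ ≤ r → F w = 0 → ∃ i ∈ T, w = a i)
    (hB : ∀ w : ℂ, ‖w‖ = r → ‖K w / F w - ∑ i ∈ T, c i / (w - a i)‖ ≤ B)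
    (hB0 : ∀ w : ℂ, ‖w‖ = r → F w ≠ 0) {z : ℂ} (hzr : ‖z‖ < r) (hFz : F z ≠ 0) (hF0 : F 0 ≠ 0) :
    ‖(K z / F z - ∑ i ∈ T, c i / (z - a i)) - (K 0 / F 0 - ∑ i ∈ T, c i / (0 - a i))‖ ≤
      2 * B / r * ‖z‖ := by
  set M : ℂ → ℂ := fun w => K w - ∑ i ∈ T, c i * dslope F (a i) w with hM
  have hMd : Differentiable ℂ M := by
    intro w
    apply (hK w).sub
    have : DifferentiableAt ℂ (fun w => ∑ i ∈ T, c i * dslope F (a i) w) w := by
      apply DifferentiableAt.fun_sum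
      intro i _
      exact ((s11b_dslope_diff hF (a i)) w).const_mul _
    exact this
  have hMa : ∀ i ∈ T, M (a i) = 0 := by
    intro i hi
    rw [hM]
    simp only
    rw [Finset.sum_eq_single i]
    · rw [dslope_same, hc i hi, sub_self]
    · intro j hj hji
      have hne : a i ≠ a j := fun h => hji (ha i hi j hj h).symm
      rw [dslope_of_ne _ hne, slope_def_field, hz i hi, hz j hj]
      simp
    · intro h; exact absurd hi h
  have hMF : ∀ w, F w ≠ 0 → M w / F w = K w / F w - ∑ i ∈ T, c i / (w - a i) := by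
    intro w hw
    rw [hM]
    simp only
    rw [sub_div, Finset.sum_div]
    congr 1
    apply Finset.sum_congr rfl
    intro i hi
    have hne : w ≠ a i := by
      intro h; rw [h] at hw; exact hw (hz i hi)
    have hsub : w - a i ≠ 0 := sub_ne_zero.2 hne
    rw [dslope_of_ne _ hne, slope_def_field, hz i hi, sub_zero]
    field_simp
  obtain ⟨H, hH1, hH2⟩ := s11b_quot hF hMd (s := Metric.closedBall 0 r) (by
    intro w hw hFw
    obtain ⟨i, hi, rfl⟩ := hall w (mem_closedBall_zero_iff.1 hw) hFw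
    exact ⟨hz' i hi, hMa i hi⟩)
  have := s11b_schwarz (B := B) hr hH2 (by
    intro w hw
    rw [hH1 w (hB0 w hw), hMF w (hB0 w hw)]
    exact hB w hw) hzr
  rwa [hH1 z hFz, hH1 0 hF0, hMF z hFz, hMF 0 hF0] at this

/-! ### relations between `f` and `F` -/

theorem s11b_comp {F : ℂ → ℂ} {F' x : ℂ} (h : HasDerivAt F F' (x ^ 2)) :
    HasDerivAt (fun x : ℂ => F (x ^ 2)) (F' * (2 * x)) x := by
  have e2 : HasDerivAt (fun x : ℂ => x ^ 2) (2 * x) x := by
    simpa using hasDerivAt_pow 2 x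
  exact HasDerivAt.comp (h₂ := F) x h e2

theorem s11b_F1 (hN : 0 < N) (x : ℂ) :
    fj N α τ 1 x = 2 * x * deriv (FF N α τ) (x ^ 2) := by
  have h1 := fj_hasDerivAt (α := α) (τ := τ) hN 0 x
  have h2 : HasDerivAt (fun x : ℂ => FF N α τ (x ^ 2)) (deriv (FF N α τ) (x ^ 2) * (2 * x)) x := by
    have e1 : HasDerivAt (FF N α τ) (deriv (FF N α τ) (x ^ 2)) (x ^ 2) :=
      ((FF_differentiable hN) _).hasDerivAt
    exact s11b_comp e1
  have h3 : (fun x : ℂ => FF N α τ (x ^ 2)) = fj N α τ 0 := by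
    funext y; exact FF_sq y
  rw [h3] at h2
  have := h1.unique h2
  rw [zero_add] at this
  rw [this]; ring

theorem s11b_dF (hN : 0 < N) : Differentiable ℂ (deriv (FF N α τ)) :=
  fun w => ((FF_differentiable hN).analyticAt w).deriv.differentiableAt

theorem s11b_ddF (hN : 0 < N) : Differentiable ℂ (deriv (deriv (FF N α τ))) :=
  fun w => ((FF_differentiable hN).analyticAt w).deriv.deriv.differentiableAt

theorem s11b_F2 (hN : 0 < N) (x : ℂ) :
    fj N α τ 2 x = 2 * deriv (FF N α τ) (x ^ 2) +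
      4 * x ^ 2 * deriv (deriv (FF N α τ)) (x ^ 2) := by
  have h1 := fj_hasDerivAt (α := α) (τ := τ) hN 1 x
  have h2 : HasDerivAt (fun x : ℂ => 2 * x * deriv (FF N α τ) (x ^ 2))
      (2 * deriv (FF N α τ) (x ^ 2) +
        2 * x * (deriv (deriv (FF N α τ)) (x ^ 2) * (2 * x))) x := by
    have e1 : HasDerivAt (deriv (FF N α τ)) (deriv (deriv (FF N α τ)) (x ^ 2)) (x ^ 2) :=
      ((s11b_dF hN) _).hasDerivAt
    have e3 : HasDerivAt (fun x : ℂ => 2 * x) 2 x := by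
      simpa using (hasDerivAt_id x).const_mul (2 : ℂ)
    have e4 : HasDerivAt (fun x : ℂ => deriv (FF N α τ) (x ^ 2))
        (deriv (deriv (FF N α τ)) (x ^ 2) * (2 * x)) x := s11b_comp e1
    exact e3.mul e4
  have h3 : (fun x : ℂ => 2 * x * deriv (FF N α τ) (x ^ 2)) = fj N α τ 1 := by
    funext y; exact (s11b_F1 hN y).symm
  rw [h3] at h2
  have := h1.unique h2
  rw [show (1 + 1 : ℕ) = 2 from rfl] at this
  rw [this]; ring

theorem s11b_F0_pos (hN : 0 < N) : 0 < (FF N α τ 0).re := by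
  have h := fj_zero_pos (α := α) (τ := τ) hN 0
  have h2 := FF_sq (N := N) (α := α) (τ := τ) 0
  rw [zero_pow two_ne_zero] at h2
  rw [h2]
  exact_mod_cast h

theorem s11b_F0_ne (hN : 0 < N) : FF N α τ 0 ≠ 0 := by
  intro h
  have := s11b_F0_pos (α := α) (τ := τ) hN
  rw [h] at this
  simp at this

/-! ### the logarithmic derivative -/

/-- local bound for the terms -/
theorem s11b_local (hN : 0 < N) {ξ₀ : ℂ} (h0 : FF N α τ ξ₀ ≠ 0) :
    ∃ V : Set ℂ, IsOpen V ∧ ξ₀ ∈ V ∧ (∀ ξ ∈ V, FF N α τ ξ ≠ 0) ∧ ∃ C : ℝ,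
      ∀ t : Zt N α τ, ∀ ξ ∈ V, ξ + ((t : ℝ) : ℂ) ≠ 0 ∧ ‖1 / (ξ + ((t : ℝ) : ℂ))‖ ≤
        C * (t : ℝ) ^ (-(1 : ℝ)) := by
  have hopen : IsOpen {ξ | FF N α τ ξ ≠ 0} :=
    isOpen_ne_fun (FF_differentiable hN).continuous continuous_const
  obtain ⟨d, hd, hball⟩ := Metric.isOpen_iff.1 hopen ξ₀ h0
  refine ⟨Metric.ball ξ₀ (d / 2), Metric.isOpen_ball, Metric.mem_ball_self (by positivity), ?_,
    1 + 2 * (‖ξ₀‖ + d / 2) / d, ?_⟩
  · intro ξ hξ
    exact hball (Metric.ball_subset_ball (by linarith) hξ)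
  · intro t ξ hξ
    have ht0 : 0 < (t : ℝ) := t.2.1
    have h1 : d ≤ ‖ξ₀ + ((t : ℝ) : ℂ)‖ := by
      by_contra hlt
      push Not at hlt
      have hmem : -((t : ℝ) : ℂ) ∈ Metric.ball ξ₀ d := by
        rw [Metric.mem_ball, dist_eq_norm, ← norm_neg]
        rw [show -(-((t : ℝ) : ℂ) - ξ₀) = ξ₀ + ((t : ℝ) : ℂ) by ring]
        exact hlt
      exact hball hmem t.2.2
    have h2 : ‖ξ - ξ₀‖ < d / 2 := by rw [← dist_eq_norm]; exact hξ
    have h3 : d / 2 < ‖ξ + ((t : ℝ) : ℂ)‖ := by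
      have : ‖ξ₀ + ((t : ℝ) : ℂ)‖ ≤ ‖ξ + ((t : ℝ) : ℂ)‖ + ‖ξ - ξ₀‖ := by
        have h := norm_sub_le (ξ + ((t : ℝ) : ℂ)) (ξ - ξ₀)
        rwa [show ξ + ((t : ℝ) : ℂ) - (ξ - ξ₀) = ξ₀ + ((t : ℝ) : ℂ) by ring] at h
      linarith
    have h4 : ‖ξ‖ ≤ ‖ξ₀‖ + d / 2 := by
      have := norm_le_norm_add_norm_sub' ξ ξ₀
      linarith
    have h5 : (t : ℝ) ≤ ‖ξ + ((t : ℝ) : ℂ)‖ + ‖ξ‖ := by
      have h := norm_sub_le (ξ + ((t : ℝ) : ℂ)) ξ
      rw [show ξ + ((t : ℝ) : ℂ) - ξ = ((t : ℝ) : ℂ) by ring, Complex.norm_real,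
        Real.norm_of_nonneg ht0.le] at h
      exact h
    have h6 : 0 < ‖ξ + ((t : ℝ) : ℂ)‖ := by linarith
    refine ⟨norm_pos_iff.1 h6, ?_⟩
    rw [norm_div, norm_one, Real.rpow_neg_one, ← div_eq_mul_inv, div_le_div_iff₀ h6 ht0, one_mul]
    have h7 : ‖ξ₀‖ + d / 2 ≤ 2 * (‖ξ₀‖ + d / 2) / d * ‖ξ + ((t : ℝ) : ℂ)‖ := by
      rw [div_mul_eq_mul_div, le_div_iff₀ hd]
      have h8 : 0 ≤ ‖ξ₀‖ + d / 2 := by positivity
      nlinarith
    linarith

/-- `Σ 1/(ξ+t)` -/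
def s11bS (N α τ : ℝ) (ξ : ℂ) : ℂ := ∑' t : Zt N α τ, 1 / (ξ + ((t : ℝ) : ℂ))

theorem s11b_S_deriv (hN : 0 < N) (hτ : 0 < τ) {ξ₀ : ℂ} (h0 : FF N α τ ξ₀ ≠ 0) :
    DifferentiableAt ℂ (s11bS N α τ) ξ₀ ∧
      HasSum (fun t : Zt N α τ => -1 / (ξ₀ + ((t : ℝ) : ℂ)) ^ 2) (deriv (s11bS N α τ) ξ₀) := by
  obtain ⟨V, hVo, hV0, hVF, C, hC⟩ := s11b_local hN h0
  have hu : Summable fun t : Zt N α τ => C * (t : ℝ) ^ (-(1 : ℝ)) :=
    (Zt_summable hN hτ 1 (by norm_num)).mul_left C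
  have hder : ∀ t : Zt N α τ, ∀ ξ ∈ V, HasDerivAt (fun ξ : ℂ => 1 / (ξ + ((t : ℝ) : ℂ)))
      (-1 / (ξ + ((t : ℝ) : ℂ)) ^ 2) ξ := by
    intro t ξ hξ
    have h1 : HasDerivAt (fun ξ : ℂ => ξ + ((t : ℝ) : ℂ)) 1 ξ :=
      (hasDerivAt_id ξ).add_const _
    have h2 := h1.fun_inv (hC t ξ hξ).1
    simpa only [one_div] using h2
  have hd : ∀ t : Zt N α τ, DifferentiableOn ℂ (fun ξ : ℂ => 1 / (ξ + ((t : ℝ) : ℂ))) V :=
    fun t ξ hξ => (hder t ξ hξ).differentiableAt.differentiableWithinAt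
  constructor
  · exact (Complex.differentiableOn_tsum_of_summable_norm hu hd hVo
      (fun t ξ hξ => (hC t ξ hξ).2)).differentiableAt (hVo.mem_nhds hV0)
  · have := Complex.hasSum_deriv_of_summable_norm hu hd hVo
      (fun t ξ hξ => (hC t ξ hξ).2) hV0
    have h2 : (fun t : Zt N α τ => deriv (fun ξ : ℂ => 1 / (ξ + ((t : ℝ) : ℂ))) ξ₀) =
        fun t : Zt N α τ => -1 / (ξ₀ + ((t : ℝ) : ℂ)) ^ 2 := by
      funext t
      exact (hder t ξ₀ hV0).deriv
    rw [h2] at this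
    exact this

theorem s11b_real (hN : 0 < N) (hτ : 0 < τ) (u : ℝ) (hu : 0 < u) :
    deriv (FF N α τ) (u : ℂ) = FF N α τ (u : ℂ) * s11bS N α τ (u : ℂ) := by
  set x := √u with hx
  have hx0 : 0 < x := Real.sqrt_pos.2 hu
  have hx2 : x ^ 2 = u := Real.sq_sqrt hu.le
  have hx2c : (x : ℂ) ^ 2 = (u : ℂ) := by rw [← hx2]; push_cast; ring
  have h1 := s11b_F1 (α := α) (τ := τ) hN (x : ℂ)
  have h2 := fj_one_div (α := α) hN hτ x hx0
  have h3 := FF_sq (N := N) (α := α) (τ := τ) (x : ℂ)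
  rw [hx2c] at h1 h3
  have h4 : fj N α τ 1 (x : ℂ) = ((fj N α τ 1 (x : ℂ)).re : ℂ) := by
    apply Complex.ext
    · simp
    · simp [fj_real_im]
  have h5 : fj N α τ 0 (x : ℂ) = ((fj N α τ 0 (x : ℂ)).re : ℂ) := by
    apply Complex.ext
    · simp
    · simp [fj_real_im]
  have h6 : s11bS N α τ (u : ℂ) = ((∑' t : Zt N α τ, 1 / (x ^ 2 + (t : ℝ)) : ℝ) : ℂ) := by
    unfold s11bS
    rw [Complex.ofReal_tsum]
    apply tsum_congr
    intro t
    rw [hx2]
    push_cast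
    rfl
  have hxc : (x : ℂ) ≠ 0 := by exact_mod_cast hx0.ne'
  have h7 : 2 * (x : ℂ) * deriv (FF N α τ) (u : ℂ) =
      2 * (x : ℂ) * (FF N α τ (u : ℂ) * s11bS N α τ (u : ℂ)) := by
    rw [← h1, h3, h4, h2, h6, h5]
    push_cast
    simp only [Complex.ofReal_re]
    ring
  exact mul_left_cancel₀ (mul_ne_zero two_ne_zero hxc) h7

theorem s11b_logderiv (hN : 0 < N) (hτ : 0 < τ) {ξ : ℂ} (h : FF N α τ ξ ≠ 0) :
    deriv (FF N α τ) ξ = FF N α τ ξ * s11bS N α τ ξ := by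
  set U : Set ℂ := {ξ | FF N α τ ξ ≠ 0} with hU
  have hopen : IsOpen U := isOpen_ne_fun (FF_differentiable hN).continuous continuous_const
  have hcount : (Uᶜ).Countable := by
    apply ((Zt_countable (α := α) hN hτ).image (fun t : ℝ => -(t : ℂ))).mono
    intro w hw
    have hw0 : FF N α τ w = 0 := by
      by_contra hne; exact hw hne
    obtain ⟨t, ht, rfl⟩ := (FF_eq_zero_iff hN hτ w).1 hw0
    exact ⟨t, ht, rfl⟩
  have hconn : IsPreconnected U := by
    have := (hcount.isConnected_compl_of_one_lt_rank (by rw [Complex.rank_real_complex]; norm_num)).2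
    rwa [compl_compl] at this
  have hf : AnalyticOnNhd ℂ (deriv (FF N α τ)) U :=
    fun w _ => (s11b_dF hN).analyticAt w
  have hg : AnalyticOnNhd ℂ (fun w => FF N α τ w * s11bS N α τ w) U := by
    apply DifferentiableOn.analyticOnNhd _ hopen
    intro w hw
    exact (((FF_differentiable hN) w).mul (s11b_S_deriv hN hτ hw).1).differentiableWithinAt
  have h1 : (1 : ℂ) ∈ U := by
    intro h10
    obtain ⟨t, ht, h1t⟩ := (FF_eq_zero_iff hN hτ 1).1 h10
    have : (1 : ℝ) = -t := by exact_mod_cast h1t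
    linarith [ht.1]
  have hfreq : ∃ᶠ z in 𝓝[≠] (1 : ℂ), deriv (FF N α τ) z = FF N α τ z * s11bS N α τ z := by
    have ht : Tendsto (fun u : ℝ => (u : ℂ)) (𝓝[≠] (1 : ℝ)) (𝓝[≠] (1 : ℂ)) := by
      apply tendsto_nhdsWithin_of_tendsto_nhds_of_eventually_within
      · have : Tendsto (fun u : ℝ => (u : ℂ)) (𝓝 (1 : ℝ)) (𝓝 ((1 : ℝ) : ℂ)) :=
          Complex.continuous_ofReal.continuousAt
        rw [Complex.ofReal_one] at this
        exact this.mono_left nhdsWithin_le_nhds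
      · filter_upwards [self_mem_nhdsWithin] with u hu
        simp only [mem_compl_iff, mem_singleton_iff] at hu ⊢
        exact_mod_cast hu
    apply ht.frequently
    apply Eventually.frequently
    filter_upwards [nhdsWithin_le_nhds (lt_mem_nhds (show (0 : ℝ) < 1 by norm_num))] with u hu
    exact s11b_real hN hτ u hu
  exact hf.eqOn_of_preconnected_of_frequently_eq hg hconn h1 hfreq h

theorem s11b_logderiv2 (hN : 0 < N) (hτ : 0 < τ) {ξ : ℂ} (h : FF N α τ ξ ≠ 0) :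
    deriv (deriv (FF N α τ)) ξ =
      FF N α τ ξ * (s11bS N α τ ξ ^ 2 + deriv (s11bS N α τ) ξ) := by
  have hopen : IsOpen {ξ | FF N α τ ξ ≠ 0} :=
    isOpen_ne_fun (FF_differentiable hN).continuous continuous_const
  have hev : deriv (FF N α τ) =ᶠ[𝓝 ξ] fun w => FF N α τ w * s11bS N α τ w := by
    filter_upwards [hopen.mem_nhds h] with w hw
    exact s11b_logderiv hN hτ hw
  rw [hev.deriv_eq, deriv_fun_mul ((FF_differentiable hN) ξ) (s11b_S_deriv hN hτ h).1,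
    s11b_logderiv hN hτ h]
  ring

/-- bound on good circles -/
theorem s11b_circle (hN : 0 < N) (hτ : 0 < τ) {r : ℝ} (hr : 0 < r) (hrZ : r ∉ Zt N α τ)
    (hs : Summable fun t : Zt N α τ => 1 / |r - (t : ℝ)|) {ξ : ℂ} (hξ : ‖ξ‖ = r) :
    FF N α τ ξ ≠ 0 ∧
    (∀ t : Zt N α τ, 1 / ‖ξ + ((t : ℝ) : ℂ)‖ ≤ 1 / |r - (t : ℝ)|) ∧
    ‖(2 * deriv (FF N α τ) ξ + 4 * ξ * deriv (deriv (FF N α τ)) ξ) / FF N α τ ξ‖ ≤
      2 * (∑' t : Zt N α τ, 1 / |r - (t : ℝ)|) +
        8 * r * (∑' t : Zt N α τ, 1 / |r - (t : ℝ)|) ^ 2 := by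
  set δ := ∑' t : Zt N α τ, 1 / |r - (t : ℝ)| with hδ
  have hF : FF N α τ ξ ≠ 0 := by
    intro h
    obtain ⟨t, ht, h1⟩ := (FF_eq_zero_iff hN hτ ξ).1 h
    apply hrZ
    rw [h1, norm_neg, Complex.norm_real, Real.norm_of_nonneg ht.1.le] at hξ
    rwa [← hξ]
  have hpos : ∀ t : Zt N α τ, 0 < |r - (t : ℝ)| := by
    intro t
    apply abs_pos.2
    intro h
    apply hrZ
    rw [sub_eq_zero.1 h]
    exact t.2
  have hle : ∀ t : Zt N α τ, |r - (t : ℝ)| ≤ ‖ξ + ((t : ℝ) : ℂ)‖ := by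
    intro t
    have h1 := abs_norm_sub_norm_le ξ (-((t : ℝ) : ℂ))
    rw [sub_neg_eq_add, norm_neg, Complex.norm_real, Real.norm_of_nonneg t.2.1.le, hξ] at h1
    exact h1
  have hle' : ∀ t : Zt N α τ, 1 / ‖ξ + ((t : ℝ) : ℂ)‖ ≤ 1 / |r - (t : ℝ)| := fun t =>
    one_div_le_one_div_of_le (hpos t) (hle t)
  have hδ0 : 0 ≤ δ := tsum_nonneg fun t => by positivity
  have hterm : ∀ t : Zt N α τ, 1 / |r - (t : ℝ)| ≤ δ := fun t =>
    hs.le_tsum t (fun j _ => by positivity)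
  have hS1 : ‖s11bS N α τ ξ‖ ≤ δ := by
    unfold s11bS
    apply tsum_of_norm_bounded hs.hasSum
    intro t
    rw [norm_div, norm_one]
    exact hle' t
  have hsq : Summable fun t : Zt N α τ => 1 / |r - (t : ℝ)| * δ := hs.mul_right δ
  have hS2 : ‖deriv (s11bS N α τ) ξ‖ ≤ δ ^ 2 := by
    rw [← (s11b_S_deriv hN hτ hF).2.tsum_eq]
    have hh : HasSum (fun t : Zt N α τ => 1 / |r - (t : ℝ)| * δ) (δ ^ 2) := by
      rw [sq]
      exact hs.hasSum.mul_right δ
    apply tsum_of_norm_bounded hh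
    intro t
    rw [norm_div, norm_neg, norm_one, norm_pow, ← one_div_pow, sq]
    exact mul_le_mul (hle' t) ((hle' t).trans (hterm t)) (by positivity) (by positivity)
  refine ⟨hF, hle', ?_⟩
  have heq : (2 * deriv (FF N α τ) ξ + 4 * ξ * deriv (deriv (FF N α τ)) ξ) / FF N α τ ξ =
      2 * s11bS N α τ ξ + 4 * ξ * (s11bS N α τ ξ ^ 2 + deriv (s11bS N α τ) ξ) := by
    rw [s11b_logderiv2 hN hτ hF, s11b_logderiv hN hτ hF]
    field_simp
  rw [heq]
  calc ‖2 * s11bS N α τ ξ + 4 * ξ * (s11bS N α τ ξ ^ 2 + deriv (s11bS N α τ) ξ)‖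
      ≤ ‖2 * s11bS N α τ ξ‖ + ‖4 * ξ * (s11bS N α τ ξ ^ 2 + deriv (s11bS N α τ) ξ)‖ :=
        norm_add_le _ _
    _ ≤ 2 * δ + 4 * r * (δ ^ 2 + δ ^ 2) := by
        apply add_le_add
        · rw [norm_mul, Complex.norm_ofNat]
          linarith
        · rw [norm_mul, norm_mul, Complex.norm_ofNat, hξ]
          apply mul_le_mul_of_nonneg_left _ (by positivity)
          refine (norm_add_le _ _).trans (add_le_add ?_ hS2)
          rw [norm_pow]
          exact pow_le_pow_left₀ (norm_nonneg _) hS1 2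
    _ = 2 * δ + 8 * r * δ ^ 2 := by ring

/-! ### the expansion -/

theorem s11b_hasSum_of {ι : Type*} {f : ι → ℝ} (hf : ∀ i, 0 ≤ f i) {T : ℕ → Finset ι}
    (hT : ∀ i, ∀ᶠ j in atTop, i ∈ T j) {a : ℝ}
    (h : Tendsto (fun j => ∑ i ∈ T j, f i) atTop (𝓝 a)) : HasSum f a := by
  have hTT : Tendsto T atTop atTop := by
    rw [tendsto_atTop]
    intro u
    have : ∀ᶠ j in atTop, ∀ i ∈ u, i ∈ T j := (Finset.eventually_all u).2 fun i _ => hT i
    filter_upwards [this] with j hj i hi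
    exact hj i hi
  have hsum : Summable f := by
    apply summable_of_sum_le hf (c := a)
    intro u
    apply ge_of_tendsto h
    filter_upwards [tendsto_atTop.1 hTT u] with j hj
    exact Finset.sum_le_sum_of_subset_of_nonneg hj fun i _ _ => hf i
  have h2 : Tendsto (fun j => ∑ i ∈ T j, f i) atTop (𝓝 (∑' i, f i)) :=
    Tendsto.comp (f := T) (g := fun u : Finset ι => ∑ i ∈ u, f i) hsum.hasSum hTT
  rw [← tendsto_nhds_unique h2 h]
  exact hsum.hasSum

/-- `R_t = ∫ dρ(v)/(v+t)` and `p(√t) = √t R_t` -/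
theorem s11b_pA (hN : 0 < N) (hτ : 0 < τ) (t : ℝ) (ht : 0 < t) :
    pA N α τ ((√t : ℝ) : ℂ) = ((√t * ∫ v, 1 / (v + t) ∂(rhoM N α τ) : ℝ) : ℂ) ∧
      0 < ∫ v, 1 / (v + t) ∂(rhoM N α τ) := by
  have h := (pA_rep (α := α) hN hτ).2 (√t) (Real.sqrt_pos.2 ht)
  rw [Real.sq_sqrt ht.le] at h
  refine ⟨?_, ?_⟩
  · apply Complex.ext
    · rw [Complex.ofReal_re]; exact h.2.2
    · rw [Complex.ofReal_im]; exact h.1
  · have h1 := h.2.1
    rw [h.2.2] at h1
    exact (pos_iff_pos_of_mul_pos h1).1 (Real.sqrt_pos.2 ht)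

theorem s11b_bound (hN : 0 < N) (hτ : 0 < τ) : ∃ C : ℝ, 0 ≤ C ∧ ∀ r : ℝ, 1 ≤ r → ∀ t : ℝ, 0 < t →
    t ≤ r → t * ∫ v, 1 / (v + t) ∂(rhoM N α τ) ≤ C * r := by
  obtain ⟨C, hC⟩ := pA_bound (α := α) hN hτ
  have hC0 : 0 ≤ C := by
    have := hC 0 (by simp)
    rw [norm_zero, add_zero, Real.one_rpow, mul_one] at this
    exact (norm_nonneg _).trans this
  refine ⟨2 * C, by positivity, ?_⟩
  intro r hr t ht htr
  obtain ⟨h1, h2⟩ := s11b_pA (α := α) hN hτ t ht
  have h3 := hC ((√t : ℝ) : ℂ) (by rw [Complex.ofReal_re]; exact Real.sqrt_nonneg _)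
  rw [h1, Complex.norm_real, Complex.norm_real, Real.norm_of_nonneg (Real.sqrt_nonneg t),
    Real.norm_of_nonneg (by positivity)] at h3
  have h4 : (1 + √t) ^ (1 / 3 : ℝ) ≤ 1 + √t := by
    have := Real.rpow_le_rpow_of_exponent_le (x := 1 + √t)
      (by linarith [Real.sqrt_nonneg t]) (show (1 / 3 : ℝ) ≤ 1 by norm_num)
    rwa [Real.rpow_one] at this
  have h5 : √t ≤ √r := Real.sqrt_le_sqrt htr
  have h6 : 1 ≤ √r := by
    rw [show (1 : ℝ) = √1 by simp]
    exact Real.sqrt_le_sqrt hr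
  have h7 : √t * ∫ v, 1 / (v + t) ∂(rhoM N α τ) ≤ C * (2 * √r) := by
    refine h3.trans (mul_le_mul_of_nonneg_left ?_ hC0)
    linarith
  have h8 : t * ∫ v, 1 / (v + t) ∂(rhoM N α τ) =
      √t * (√t * ∫ v, 1 / (v + t) ∂(rhoM N α τ)) := by
    rw [← mul_assoc, Real.mul_self_sqrt ht.le]
  rw [h8]
  calc √t * (√t * ∫ v, 1 / (v + t) ∂(rhoM N α τ)) ≤ √r * (C * (2 * √r)) :=
        mul_le_mul h5 h7 (by positivity) (Real.sqrt_nonneg _)
    _ = 2 * C * (√r * √r) := by ring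
    _ = 2 * C * r := by rw [Real.mul_self_sqrt (by linarith)]

/-- values of `4ξF''+2F'` at the zeros -/
theorem s11b_residue (hN : 0 < N) (hτ : 0 < τ) (t : ℝ) (ht : t ∈ Zt N α τ) :
    2 * deriv (FF N α τ) (-(t : ℂ)) + 4 * (-(t : ℂ)) * deriv (deriv (FF N α τ)) (-(t : ℂ)) =
      ((-(2 * (t * ∫ v, 1 / (v + t) ∂(rhoM N α τ))) : ℝ) : ℂ) *
        deriv (FF N α τ) (-(t : ℂ)) := by
  have ht0 : 0 < t := ht.1
  have hsq : (((√t : ℝ) : ℂ) * Complex.I) ^ 2 = -(t : ℂ) := by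
    rw [mul_pow, Complex.I_sq, ← Complex.ofReal_pow, Real.sq_sqrt ht0.le]
    ring
  have h0 : fj N α τ 0 (((√t : ℝ) : ℂ) * Complex.I) = 0 := by
    rw [← FF_sq, hsq]; exact ht.2
  have h1 := fj_two_at_zero hN hτ (√t) (Real.sqrt_pos.2 ht0) h0
  rw [s11b_F2 hN, s11b_F1 hN, hsq, (s11b_pA (α := α) hN hτ t ht0).1] at h1
  rw [h1]
  generalize deriv (FF N α τ) (-(t : ℂ)) = D
  have h2 : (t : ℂ) = ((√t : ℝ) : ℂ) * ((√t : ℝ) : ℂ) := by
    rw [← Complex.ofReal_mul, Real.mul_self_sqrt ht0.le]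
  push_cast
  rw [h2]
  linear_combination (((√t : ℝ) : ℂ) * ((∫ v, 1 / (v + t) ∂(rhoM N α τ) : ℝ) : ℂ) *
    (2 * ((√t : ℝ) : ℂ)) * D) * Complex.I_sq

theorem s11b_hasSum (hN : 0 < N) (hτ : 0 < τ) (x : ℝ) (hx : 0 < x) :
    HasSum (fun t : Zt N α τ => 2 * x ^ 2 *
      ((∫ v, 1 / (v + (t : ℝ)) ∂(rhoM N α τ)) / (x ^ 2 + (t : ℝ))))
      ((fj N α τ 2 x).re / (fj N α τ 0 x).re - (fj N α τ 2 0).re / (fj N α τ 0 0).re) := by
  classical
  have hsum : Summable fun t : Zt N α τ => (t : ℝ) ^ (-(5 / 6 : ℝ)) :=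
    Zt_summable hN hτ (5 / 6) (by norm_num)
  obtain ⟨r, hr1, hr2, hr3, hr4⟩ := exists_good_radii (Zt N α τ) (fun t ht => ht.1) (5 / 6)
    (by norm_num) (by norm_num) hsum
  obtain ⟨C, hC0, hC⟩ := s11b_bound (α := α) hN hτ
  have hfin : ∀ R : ℝ, {t : Zt N α τ | (t : ℝ) ≤ R}.Finite := by
    intro R
    have := (Zt_finite (α := α) hN hτ R).preimage
      (Subtype.val_injective.injOn (s := (Subtype.val : Zt N α τ → ℝ) ⁻¹' (Zt N α τ ∩ Iic R)))
    apply this.subset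
    intro t ht
    exact ⟨t.2, ht⟩
  set T : ℕ → Finset (Zt N α τ) := fun j => (hfin (r j)).toFinset with hTdef
  have hTmem : ∀ j (t : Zt N α τ), t ∈ T j ↔ (t : ℝ) ≤ r j := by
    intro j t
    simp [hTdef]
  set R : Zt N α τ → ℝ := fun t => ∫ v, 1 / (v + (t : ℝ)) ∂(rhoM N α τ) with hRdef
  have hRpos : ∀ t, 0 < R t := fun t => (s11b_pA (α := α) hN hτ t t.2.1).2
  set δ : ℕ → ℝ := fun j => ∑' t : Zt N α τ, 1 / |r j - (t : ℝ)| with hδdef
  have hδ0 : ∀ j, 0 ≤ δ j := fun j => tsum_nonneg fun t => by positivity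
  set z : ℂ := ((x ^ 2 : ℝ) : ℂ) with hzdef
  have hx2 : 0 < x ^ 2 := by positivity
  have hz : z = (x : ℂ) ^ 2 := by rw [hzdef]; push_cast; ring
  have hFz : FF N α τ z ≠ 0 := by
    rw [hz, FF_sq]
    intro h
    have := fj_zero_pos (α := α) (τ := τ) hN x
    rw [h] at this
    simp at this
  have hF0 := s11b_F0_ne (α := α) (τ := τ) hN
  -- main estimate
  have hmain : ∀ᶠ j in atTop,
      ‖((fj N α τ 2 x).re / (fj N α τ 0 x).re - (fj N α τ 2 0).re / (fj N α τ 0 0).re) -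
        ∑ t ∈ T j, 2 * x ^ 2 * (R t / (x ^ 2 + (t : ℝ)))‖ ≤
      (4 * δ j + 16 * δ j ^ 2 + 4 * C * δ j) * x ^ 2 := by
    filter_upwards [hr1.eventually_ge_atTop 1, hr1.eventually_gt_atTop (x ^ 2)] with j hj1 hj2
    have hrj : 0 < r j := by linarith
    have key := s11b_pf (F := FF N α τ)
      (K := fun ξ => 2 * deriv (FF N α τ) ξ + 4 * ξ * deriv (deriv (FF N α τ)) ξ)
      (FF_differentiable hN)
      (by
        intro w
        have e1 : DifferentiableAt ℂ (fun ξ : ℂ => 2 * deriv (FF N α τ) ξ) w :=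
          ((s11b_dF hN) w).const_mul _
        have e2 : DifferentiableAt ℂ
            (fun ξ : ℂ => 4 * ξ * deriv (deriv (FF N α τ)) ξ) w :=
          (differentiableAt_id.const_mul (4 : ℂ)).mul ((s11b_ddF hN) w)
        exact e1.add e2)
      (T j) (fun t : Zt N α τ => -(((t : ℝ)) : ℂ))
      (fun t : Zt N α τ => ((-(2 * ((t : ℝ) * R t)) : ℝ) : ℂ))
      (by
        intro i _ k _ h
        have : (i : ℝ) = (k : ℝ) := by exact_mod_cast neg_injective h
        exact Subtype.ext this)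
      (fun i _ => i.2.2)
      (fun i _ => FF_deriv_ne_zero hN hτ i i.2)
      (fun i _ => s11b_residue hN hτ i i.2)
      (r := r j) (B := (2 * δ j + 8 * r j * δ j ^ 2) + 2 * C * r j * δ j) hrj
      (by
        intro w hw hFw
        obtain ⟨t, ht, rfl⟩ := (FF_eq_zero_iff hN hτ w).1 hFw
        rw [norm_neg, Complex.norm_real, Real.norm_of_nonneg ht.1.le] at hw
        exact ⟨⟨t, ht⟩, (hTmem j _).2 hw, rfl⟩)
      (by
        intro w hw
        obtain ⟨c1, c2, c3⟩ := s11b_circle hN hτ hrj (hr2 j) (hr3 j) hw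
        refine (norm_sub_le _ _).trans (add_le_add c3 ?_)
        calc ‖∑ t ∈ T j, ((-(2 * ((t : ℝ) * R t)) : ℝ) : ℂ) / (w - -((t : ℝ) : ℂ))‖
            ≤ ∑ t ∈ T j, ‖((-(2 * ((t : ℝ) * R t)) : ℝ) : ℂ) / (w - -((t : ℝ) : ℂ))‖ :=
              norm_sum_le _ _
          _ ≤ ∑ t ∈ T j, 2 * C * r j * (1 / |r j - (t : ℝ)|) := by
              apply Finset.sum_le_sum
              intro t ht
              have ht' := (hTmem j t).1 ht
              have htpos : 0 < (t : ℝ) := t.2.1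
              rw [norm_div, Complex.norm_real, norm_neg, Real.norm_of_nonneg
                (by have := hRpos t; positivity), sub_neg_eq_add, div_eq_mul_one_div]
              apply mul_le_mul _ (c2 t) (by positivity) (by positivity)
              have := hC (r j) hj1 t htpos ht'
              calc 2 * ((t : ℝ) * R t) ≤ 2 * (C * r j) := by
                    exact mul_le_mul_of_nonneg_left this (by norm_num)
                _ = 2 * C * r j := by ring
          _ = 2 * C * r j * ∑ t ∈ T j, (1 / |r j - (t : ℝ)|) := by rw [Finset.mul_sum]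
          _ ≤ 2 * C * r j * δ j := by
              apply mul_le_mul_of_nonneg_left _ (by positivity)
              exact (hr3 j).sum_le_tsum _ (fun t _ => by positivity))
      (fun w hw => (s11b_circle hN hτ hrj (hr2 j) (hr3 j) hw).1)
      (z := z)
      (by rw [hzdef, Complex.norm_real, Real.norm_of_nonneg hx2.le]; exact hj2)
      hFz hF0
    have e1 : (2 * deriv (FF N α τ) z + 4 * z * deriv (deriv (FF N α τ)) z) / FF N α τ z =
        (((fj N α τ 2 x).re / (fj N α τ 0 x).re : ℝ) : ℂ) := by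
      have f2 : fj N α τ 2 (x : ℂ) = ((fj N α τ 2 (x : ℂ)).re : ℂ) := by
        apply Complex.ext
        · simp
        · simp [fj_real_im]
      have f0 : fj N α τ 0 (x : ℂ) = ((fj N α τ 0 (x : ℂ)).re : ℂ) := by
        apply Complex.ext
        · simp
        · simp [fj_real_im]
      rw [hz, ← s11b_F2 hN, FF_sq, Complex.ofReal_div, ← f2, ← f0]
    have e2 : (2 * deriv (FF N α τ) 0 + 4 * 0 * deriv (deriv (FF N α τ)) 0) / FF N α τ 0 =
        (((fj N α τ 2 0).re / (fj N α τ 0 0).re : ℝ) : ℂ) := by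
      have f2 : fj N α τ 2 (0 : ℂ) = ((fj N α τ 2 (0 : ℂ)).re : ℂ) := by
        apply Complex.ext
        · simp
        · have := fj_real_im (N := N) (α := α) (τ := τ) 2 0
          rw [Complex.ofReal_zero] at this
          simp [this]
      have f0 : fj N α τ 0 (0 : ℂ) = ((fj N α τ 0 (0 : ℂ)).re : ℂ) := by
        apply Complex.ext
        · simp
        · have := fj_real_im (N := N) (α := α) (τ := τ) 0 0
          rw [Complex.ofReal_zero] at this
          simp [this]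
      have h1 := s11b_F2 (α := α) (τ := τ) hN 0
      have h2 := FF_sq (N := N) (α := α) (τ := τ) 0
      rw [zero_pow two_ne_zero] at h1 h2
      rw [← h1, h2, Complex.ofReal_div, ← f2, ← f0]
    rw [e1, e2] at key
    have e3 : ∑ t ∈ T j, ((-(2 * ((t : ℝ) * R t)) : ℝ) : ℂ) / (z - -((t : ℝ) : ℂ)) =
        ((∑ t ∈ T j, (-(2 * ((t : ℝ) * R t))) / (x ^ 2 + (t : ℝ)) : ℝ) : ℂ) := by
      rw [Complex.ofReal_sum]
      apply Finset.sum_congr rfl
      intro t _
      rw [sub_neg_eq_add, hzdef, Complex.ofReal_div, Complex.ofReal_add]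
    have e4 : ∑ t ∈ T j, ((-(2 * ((t : ℝ) * R t)) : ℝ) : ℂ) / (0 - -((t : ℝ) : ℂ)) =
        ((∑ t ∈ T j, (-(2 * ((t : ℝ) * R t))) / (t : ℝ) : ℝ) : ℂ) := by
      rw [Complex.ofReal_sum]
      apply Finset.sum_congr rfl
      intro t _
      rw [sub_neg_eq_add, zero_add, Complex.ofReal_div]
    rw [e3, e4, ← Complex.ofReal_sub, ← Complex.ofReal_sub, ← Complex.ofReal_sub,
      Complex.norm_real, hzdef, Complex.norm_real, Real.norm_of_nonneg hx2.le] at key
    have e5 : ∑ t ∈ T j, 2 * x ^ 2 * (R t / (x ^ 2 + (t : ℝ))) =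
        ∑ t ∈ T j, (-(2 * ((t : ℝ) * R t))) / (x ^ 2 + (t : ℝ)) -
          ∑ t ∈ T j, (-(2 * ((t : ℝ) * R t))) / (t : ℝ) := by
      rw [← Finset.sum_sub_distrib]
      apply Finset.sum_congr rfl
      intro t _
      have htpos : 0 < (t : ℝ) := t.2.1
      have h1 : x ^ 2 + (t : ℝ) ≠ 0 := by positivity
      field_simp
      ring
    rw [e5]
    refine le_trans (le_of_eq ?_) (key.trans ?_)
    · congr 1
      ring
    · apply mul_le_mul_of_nonneg_right _ hx2.le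
      have hd := hδ0 j
      rw [div_le_iff₀ hrj]
      have h1 : 4 * δ j ≤ 4 * δ j * r j := by nlinarith
      nlinarith
  have hlim : Tendsto (fun j => (4 * δ j + 16 * δ j ^ 2 + 4 * C * δ j) * x ^ 2) atTop (𝓝 0) := by
    have h1 : Tendsto δ atTop (𝓝 0) := hr4
    have h2 := ((((h1.const_mul 4).add ((h1.pow 2).const_mul 16)).add
      (h1.const_mul (4 * C))).mul_const (x ^ 2))
    simpa using h2
  have htend : Tendsto (fun j => ∑ t ∈ T j, 2 * x ^ 2 * (R t / (x ^ 2 + (t : ℝ)))) atTop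
      (𝓝 ((fj N α τ 2 x).re / (fj N α τ 0 x).re - (fj N α τ 2 0).re / (fj N α τ 0 0).re)) := by
    rw [tendsto_iff_norm_sub_tendsto_zero]
    apply squeeze_zero' (Eventually.of_forall fun j => norm_nonneg _) _ hlim
    filter_upwards [hmain] with j hj
    rw [norm_sub_rev]
    exact hj
  apply s11b_hasSum_of _ _ htend
  · intro t
    have := hRpos t
    have htpos : 0 < (t : ℝ) := t.2.1
    positivity
  · intro t
    filter_upwards [hr1.eventually_ge_atTop (t : ℝ)] with j hj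
    exact (hTmem j t).2 hj

theorem fj_two_div (hN : 0 < N) (hτ : 0 < τ) (x : ℝ) (hx : 0 < x) :
    Summable (fun t : Zt N α τ => (∫ v, 1 / (v + (t : ℝ)) ∂(rhoM N α τ)) / (1 + (t : ℝ))) ∧
    (fj N α τ 2 x).re = (fj N α τ 0 x).re * ((fj N α τ 2 0).re / (fj N α τ 0 0).re +
      2 * x ^ 2 * ∑' t : Zt N α τ, (∫ v, 1 / (v + (t : ℝ)) ∂(rhoM N α τ)) / (x ^ 2 + (t : ℝ))) := by
  constructor
  · have h := (s11b_hasSum (α := α) hN hτ 1 one_pos).summable
    have h2 := h.mul_left (1 / 2 : ℝ)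
    refine h2.congr ?_
    intro t
    rw [one_pow]
    ring
  · have h := (s11b_hasSum (α := α) hN hτ x hx).tsum_eq
    rw [tsum_mul_left] at h
    rw [h]
    have h0 := fj_zero_pos (α := α) (τ := τ) hN x
    field_simp
    ring

end

end Pool.Agent.MP_941b23_mp
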