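import Pool.Agent.MP_941b23_mp.Defs2
import Pool.Agent.MP_941b23_mp.D1
import Pool.Agent.MP_941b23_mp.D4
import Pool.Agent.MP_941b23_mp.D5
import Pool.Agent.MP_941b23_mp.D6
import Pool.Agent.MP_941b23_mp.M8
import Pool.Agent.MP_941b23_mp.S1
import Pool.Agent.MP_941b23_mp.S10a
import Pool.Agent.MP_941b23_mp.S10b
import Pool.Agent.MP_941b23_mp.S11b
import Pool.Agent.MP_941b23_mp.S7b

namespace Pool.Agent.MP_941b23_mp

open MeasureTheory Set Filter Topology
open scoped ENNReal NNReal Real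

noncomputable section

/-! ### algebra -/

theorem d7_vand {m : ℕ} (δ : ℕ) (h : ℝ → ℝ) (x : Fin m → ℝ) :
    Matrix.det (Matrix.of fun i j : Fin m => (x j) ^ (2 * (i : ℕ) + δ) * h (x j)) =
      (∏ j, (x j) ^ δ * h (x j)) * vd (fun j => x j ^ 2) := by
  have h1 : (Matrix.of fun i j : Fin m => (x j) ^ (2 * (i : ℕ) + δ) * h (x j)) =
      Matrix.of fun i j : Fin m => (fun j => (x j) ^ δ * h (x j)) j *
        (Matrix.vandermonde (fun j => x j ^ 2)).transpose i j := by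
    ext i j
    simp only [Matrix.of_apply, Matrix.transpose_apply, Matrix.vandermonde_apply]
    rw [pow_add, pow_mul]; ring
  rw [h1, Matrix.det_mul_row, Matrix.det_transpose, Matrix.det_vandermonde]
  rfl

theorem d7_tri {m : ℕ} (T : ℕ → ℕ → ℝ) (ψ B : ℕ → ℝ → ℝ)
    (hψ : ∀ j x, ψ j x = ∑ i ∈ Finset.range (j + 1), T j i * B i x) (x : Fin m → ℝ) :
    Matrix.det (Matrix.of fun i j : Fin m => ψ i (x j)) =
      (∏ i : Fin m, T i i) * Matrix.det (Matrix.of fun i j : Fin m => B i (x j)) := by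
  have h1 : (Matrix.of fun i j : Fin m => ψ i (x j)) =
      (Matrix.of fun i l : Fin m => if (l : ℕ) ≤ i then T i l else 0) *
        (Matrix.of fun i j : Fin m => B i (x j)) := by
    ext i j
    rw [Matrix.mul_apply]
    simp only [Matrix.of_apply]
    rw [hψ, Fin.sum_univ_eq_sum_range (fun l => (if l ≤ (i : ℕ) then T i l else 0) * B l (x j)) m]
    have h2 : Finset.range ((i : ℕ) + 1) ⊆ Finset.range m := by
      intro l hl
      rw [Finset.mem_range] at hl ⊢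
      have := i.2
      omega
    rw [← Finset.sum_subset h2]
    · refine Finset.sum_congr rfl fun l hl => ?_
      rw [Finset.mem_range] at hl
      rw [if_pos (by omega)]
    · intro l _ hl
      rw [Finset.mem_range] at hl
      rw [if_neg (by omega), zero_mul]
  rw [h1, Matrix.det_mul]
  congr 1
  rw [Matrix.det_of_isLowerTriangular]
  · refine Finset.prod_congr rfl fun i _ => ?_
    simp
  · intro i j hij
    have : i < j := hij
    simp only [Matrix.of_apply]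
    rw [if_neg (by rw [not_le]; exact this)]

/-- canonical enumeration of the columns -/
def d7_phi (p r q m : ℕ) (hm : p + (r + q) = m) : Fin p ⊕ (Fin r ⊕ Fin q) ≃ Fin m :=
  ((Equiv.sumCongr (Equiv.refl _) finSumFinEquiv).trans finSumFinEquiv).trans (finCongr hm)

theorem d7_vd_phi (p r q m : ℕ) (hm : p + (r + q) = m) (ξ : Fin m → ℝ) :
    vd (fun i : Fin (p + (r + q)) => ξ (d7_phi p r q m hm
      ((Equiv.sumCongr (Equiv.refl _) finSumFinEquiv).symm (finSumFinEquiv.symm i)))) = vd ξ := by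
  subst hm
  congr 1
  ext i
  simp [d7_phi]

/-- rows of the basis -/
def d7_row (ε p r q : ℕ) (c₀ : ℝ) (G1 G2 : ℝ → ℝ) (i : Fin p ⊕ (Fin r ⊕ Fin q)) (ξ : ℝ) : ℝ :=
  Sum.elim (fun a : Fin p => ξ ^ (a : ℕ))
    (Sum.elim (fun b : Fin r => ξ ^ (b : ℕ) * (c₀ + 2 * ξ * G2 ξ))
      (fun c : Fin q => 2 * (ξ ^ ((c : ℕ) + ε) * G1 ξ))) i

theorem d7_rows (ε p r q : ℕ) (hrp : r ≤ p) (c₀ : ℝ)
    (G1 G2 : ℝ → ℝ) (ξ : Fin p ⊕ (Fin r ⊕ Fin q) → ℝ) :
    Matrix.det (Matrix.of fun i j => d7_row ε p r q c₀ G1 G2 i (ξ j)) =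
      2 ^ (r + q) * Matrix.det (Matrix.of fun i j => nikRow ε p r q G1 G2 i (ξ j)) := by
  let C : Matrix (Fin r ⊕ Fin q) (Fin p) ℝ := Matrix.of fun i a =>
    Sum.elim (fun b : Fin r => if (a : ℕ) = b then c₀ else 0) (fun _ => 0) i
  have h1 : (Matrix.of fun i j => d7_row ε p r q c₀ G1 G2 i (ξ j)) =
      Matrix.fromBlocks 1 0 C ((2 : ℝ) • (1 : Matrix (Fin r ⊕ Fin q) (Fin r ⊕ Fin q) ℝ)) *
        (Matrix.of fun i j => nikRow ε p r q G1 G2 i (ξ j)) := by
    ext i j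
    rw [Matrix.mul_apply, Fintype.sum_sum_type]
    rcases i with a | b | c
    · simp [d7_row, nikRow, Matrix.one_apply]
    · have h2 : ∑ x : Fin p, (if (x : ℕ) = b then c₀ else 0) * ξ j ^ (x : ℕ) = c₀ * ξ j ^ (b : ℕ) := by
        rw [Finset.sum_eq_single (⟨b, lt_of_lt_of_le b.2 hrp⟩ : Fin p)]
        · simp
        · intro x _ hx
          rw [if_neg, zero_mul]
          intro h; exact hx (Fin.ext h)
        · intro h; exact absurd (Finset.mem_univ _) h
      simp only [Matrix.of_apply, Matrix.fromBlocks_apply₂₁, Matrix.fromBlocks_apply₂₂, nikRow,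
        d7_row, Sum.elim_inr, Sum.elim_inl, C, h2, Matrix.smul_apply, Matrix.one_apply, smul_eq_mul]
      rw [Finset.sum_eq_single (Sum.inl b : Fin r ⊕ Fin q)]
      · simp; ring
      · intro x _ hx
        rw [if_neg (fun h => hx h.symm)]; simp
      · intro h; exact absurd (Finset.mem_univ _) h
    · simp only [Matrix.of_apply, Matrix.fromBlocks_apply₂₁, Matrix.fromBlocks_apply₂₂, nikRow,
        d7_row, Sum.elim_inr, Sum.elim_inl, C, Matrix.smul_apply, Matrix.one_apply, smul_eq_mul]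
      rw [Finset.sum_eq_single (Sum.inr c : Fin r ⊕ Fin q)]
      · simp
      · intro x _ hx
        rw [if_neg (fun h => hx h.symm)]; simp
      · intro h; exact absurd (Finset.mem_univ _) h
  rw [h1, Matrix.det_mul, Matrix.det_fromBlocks_zero₁₂, Matrix.det_one, one_mul, Matrix.det_smul,
    Matrix.det_one, mul_one, Fintype.card_sum, Fintype.card_fin, Fintype.card_fin]

/-- determinant of the basis functions -/
theorem d7_basis (ε p r q m : ℕ) (hm : p + (r + q) = m) (hrp : r ≤ p)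
    (e : Fin p ⊕ (Fin r ⊕ Fin q) ≃ Fin m) : ∃ s : ℝ, (s = 1 ∨ s = -1) ∧
    ∀ (B : ℕ → ℝ → ℝ) (u : ℝ → ℝ) (c₀ : ℝ) (G1 G2 : ℝ → ℝ)
      (_ : ∀ s x, 0 < x → B (e s) x = u x * d7_row ε p r q c₀ G1 G2 s (x ^ 2))
      (x : Fin m → ℝ) (_ : ∀ j, 0 < x j),
      Matrix.det (Matrix.of fun i j : Fin m => B i (x j)) =
        s * ((∏ j, u (x j)) * (2 ^ (r + q) *
          Matrix.det (Matrix.of fun i j => nikRow ε p r q G1 G2 i
            ((fun k => x (d7_phi p r q m hm k) ^ 2) j)))) := by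
  let φ := d7_phi p r q m hm
  let σ : Equiv.Perm (Fin m) := φ.symm.trans e
  refine ⟨((Equiv.Perm.sign σ : ℤ) : ℝ), ?_, ?_⟩
  · rcases Int.units_eq_one_or (Equiv.Perm.sign σ) with h | h
    · left; rw [h]; simp
    · right; rw [h]; simp
  · intro B u c₀ G1 G2 hB x hx
    set M : Matrix (Fin m) (Fin m) ℝ := Matrix.of fun i j : Fin m => B i (x j) with hM
    have h1 : (M.submatrix e φ) = Matrix.of fun s t => (fun t => u (x (φ t))) t *
        (Matrix.of fun s t => d7_row ε p r q c₀ G1 G2 s ((fun k => x (φ k) ^ 2) t)) s t := by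
      ext s t
      simp only [hM, Matrix.submatrix_apply, Matrix.of_apply]
      exact hB s _ (hx _)
    have h2 : (M.submatrix e φ) = (M.submatrix σ id).submatrix φ φ := by
      ext s t
      simp [σ]
    have h3 : (M.submatrix e φ).det = ((Equiv.Perm.sign σ : ℤ) : ℝ) * M.det := by
      rw [h2, Matrix.det_submatrix_equiv_self, Matrix.det_permute]
    have h4 : (M.submatrix e φ).det = (∏ j, u (x j)) * (2 ^ (r + q) *
          Matrix.det (Matrix.of fun i j => nikRow ε p r q G1 G2 i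
            ((fun k => x (φ k) ^ 2) j))) := by
      rw [h1, Matrix.det_mul_row, d7_rows ε p r q hrp]
      congr 1
      exact Equiv.prod_comp φ fun j => u (x j)
    rw [← h4, h3, ← mul_assoc]
    have h5 : ((Equiv.Perm.sign σ : ℤ) : ℝ) * ((Equiv.Perm.sign σ : ℤ) : ℝ) = 1 := by
      rcases Int.units_eq_one_or (Equiv.Perm.sign σ) with h | h <;> rw [h] <;> simp
    rw [h5, one_mul]

/-! ### analysis -/

theorem d7_fj_re (N α τ : ℝ) (k : ℕ) (x : ℝ) : (fj N α τ k (x : ℝ)).re =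
    ∫ y : ℝ, (N * τ * y) ^ k * Real.exp (-N * (Wr α y - τ * x * y)) := by
  have h1 : fj N α τ k (x : ℝ) =
      ((∫ y : ℝ, (N * τ * y) ^ k * Real.exp (-N * (Wr α y - τ * x * y)) : ℝ) : ℂ) := by
    rw [← integral_complex_ofReal]
    unfold fj
    congr 1
    ext y
    simp only [Wr]
    push_cast
    rfl
  rw [h1, Complex.ofReal_re]

theorem d7_gauss (k : ℕ) (D K : ℝ) : Integrable fun y : ℝ =>
    D * (|y| ^ k * Real.exp (-y ^ 2 + K)) := by
  have h1 := (integrable_rpow_mul_exp_neg_mul_sq (b := 1) one_pos (s := (k : ℝ))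
    (by have : (0 : ℝ) ≤ k := Nat.cast_nonneg k
        linarith)).norm
  have h2 : (fun y : ℝ => D * (|y| ^ k * Real.exp (-y ^ 2 + K))) =
      fun y : ℝ => (D * Real.exp K) * ‖y ^ (k : ℝ) * Real.exp (-1 * y ^ 2)‖ := by
    ext y
    rw [Real.rpow_natCast, norm_mul, norm_pow, Real.norm_eq_abs, Real.norm_eq_abs, Real.abs_exp,
      Real.exp_add]
    ring_nf
  rw [h2]
  exact h1.const_mul _

theorem d7_fj_bound (N α τ : ℝ) (hN : 0 < N) (k : ℕ) (c : ℝ) (hc : 0 < c) :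
    ∃ K : ℝ, ∀ x : ℝ, |(fj N α τ k (x : ℝ)).re| ≤ K * Real.exp (c * x ^ 2) := by
  set D : ℝ := N ^ 2 * τ ^ 2 / (4 * c) - N * α / 2 + 1 with hD
  refine ⟨∫ y : ℝ, |N * τ| ^ k * (|y| ^ k * Real.exp (-y ^ 2 + D ^ 2 / N)), fun x => ?_⟩
  rw [d7_fj_re, ← integral_mul_const, ← Real.norm_eq_abs]
  refine norm_integral_le_of_norm_le ((d7_gauss k _ _).mul_const _) (Eventually.of_forall fun y => ?_)
  rw [norm_mul, norm_pow, Real.norm_eq_abs, Real.norm_eq_abs, Real.abs_exp, abs_mul, mul_pow]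
  have h1 : -N * (Wr α y - τ * x * y) ≤ (-y ^ 2 + D ^ 2 / N) + c * x ^ 2 := by
    have h2 : N * τ * x * y ≤ c * x ^ 2 + N ^ 2 * τ ^ 2 / (4 * c) * y ^ 2 := by
      have h3 : 0 ≤ (2 * c * x - N * τ * y) ^ 2 / (4 * c) := by positivity
      have h4 : (2 * c * x - N * τ * y) ^ 2 / (4 * c) =
          c * x ^ 2 + N ^ 2 * τ ^ 2 / (4 * c) * y ^ 2 - N * τ * x * y := by
        field_simp
        ring
      linarith
    have h5 : D * y ^ 2 ≤ N * y ^ 4 / 4 + D ^ 2 / N := by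
      have h3 : 0 ≤ (N * y ^ 2 / 2 - D) ^ 2 / N := by positivity
      have h4 : (N * y ^ 2 / 2 - D) ^ 2 / N = N * y ^ 4 / 4 + D ^ 2 / N - D * y ^ 2 := by
        field_simp
        ring
      linarith
    simp only [Wr]
    have h6 : D * y ^ 2 = N ^ 2 * τ ^ 2 / (4 * c) * y ^ 2 - N * α / 2 * y ^ 2 + y ^ 2 := by
      rw [hD]; ring
    nlinarith
  calc |N * τ| ^ k * |y| ^ k * Real.exp (-N * (Wr α y - τ * x * y))
      ≤ |N * τ| ^ k * |y| ^ k * Real.exp ((-y ^ 2 + D ^ 2 / N) + c * x ^ 2) :=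
        mul_le_mul_of_nonneg_left (Real.exp_le_exp.2 h1) (by positivity)
    _ = |N * τ| ^ k * (|y| ^ k * Real.exp (-y ^ 2 + D ^ 2 / N)) * Real.exp (c * x ^ 2) := by
        rw [Real.exp_add]; ring

theorem d7_fj_cont (N α τ : ℝ) (hN : 0 < N) (k : ℕ) :
    Continuous fun x : ℝ => (fj N α τ k (x : ℝ)).re := by
  have h1 : Continuous (fj N α τ k) :=
    continuous_iff_continuousAt.2 fun x => (fj_hasDerivAt hN k x).continuousAt
  exact Complex.continuous_re.comp (h1.comp Complex.continuous_ofReal)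

theorem d7_int (N α τ : ℝ) (hN : 0 < N) (i k : ℕ) (h : ℝ → ℝ) (hh : Wt h) :
    Integrable fun x : ℝ => x ^ i * h x * (fj N α τ k (x : ℝ)).re := by
  obtain ⟨C, c, hc, hb⟩ := hh.bound
  obtain ⟨K, hK⟩ := d7_fj_bound N α τ hN k (c / 2) (by positivity)
  have hC : 0 ≤ C := by
    have := (hh.nonneg 0).trans (hb 0)
    simpa using this
  have hK0 : 0 ≤ K := by
    have := (abs_nonneg _).trans (hK 0)
    simpa using this
  have h1 := ((integrable_rpow_mul_exp_neg_mul_sq (b := c / 2) (by positivity) (s := (i : ℝ))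
    (by have : (0 : ℝ) ≤ i := Nat.cast_nonneg i
        linarith)).norm).const_mul (C * K)
  refine h1.mono' ?_ (Eventually.of_forall fun x => ?_)
  · exact (((continuous_id.pow i).mul hh.cont).mul (d7_fj_cont N α τ hN k)).aestronglyMeasurable
  · rw [norm_mul, norm_mul, norm_pow, norm_mul, Real.norm_eq_abs, Real.norm_eq_abs,
      Real.norm_eq_abs, Real.rpow_natCast, norm_pow, Real.norm_eq_abs, Real.norm_eq_abs,
      Real.abs_exp, abs_of_nonneg (hh.nonneg x)]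
    calc |x| ^ i * h x * |(fj N α τ k (x : ℝ)).re|
        ≤ |x| ^ i * (C * Real.exp (-(c * x ^ 2))) * (K * Real.exp (c / 2 * x ^ 2)) :=
          mul_le_mul (mul_le_mul_of_nonneg_left (hb x) (by positivity)) (hK x) (abs_nonneg _)
            (by positivity)
      _ = C * K * (|x| ^ i * Real.exp (-(c / 2) * x ^ 2)) := by
          have : -(c / 2) * x ^ 2 = -(c * x ^ 2) + c / 2 * x ^ 2 := by ring
          rw [this, Real.exp_add]; ring

theorem d7_fj_neg (N α τ : ℝ) (k : ℕ) (x : ℝ) :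
    (fj N α τ k ((-x : ℝ) : ℂ)).re = (-1) ^ k * (fj N α τ k (x : ℝ)).re := by
  rw [Complex.ofReal_neg, fj_neg]
  have : ((-1 : ℂ)) ^ k = (((-1 : ℝ) ^ k : ℝ) : ℂ) := by push_cast; rfl
  rw [this, Complex.re_ofReal_mul]

theorem d7_zero (N α τ : ℝ) (i k : ℕ) (hik : (i + k) % 2 = 1) (h : ℝ → ℝ) (hh : Wt h) :
    ∫ x : ℝ, x ^ i * h x * (fj N α τ k (x : ℝ)).re = 0 := by
  have h1 : ∫ x : ℝ, x ^ i * h x * (fj N α τ k (x : ℝ)).re =
      -∫ x : ℝ, x ^ i * h x * (fj N α τ k (x : ℝ)).re := by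
    rw [← integral_neg, ← integral_neg_eq_self]
    congr 1
    ext x
    rw [d7_fj_neg, hh.even, neg_pow]
    have h2 : ((-1 : ℝ)) ^ i * (-1) ^ k = -1 := by
      rw [← pow_add]
      exact Odd.neg_one_pow (Nat.odd_iff.2 hik)
    calc (-1) ^ i * x ^ i * h x * ((-1) ^ k * (fj N α τ k (x : ℝ)).re)
        = ((-1) ^ i * (-1) ^ k) * (x ^ i * h x * (fj N α τ k (x : ℝ)).re) := by ring
      _ = _ := by rw [h2]; ring
  linarith

theorem d7_half (N α τ : ℝ) (i k : ℕ) (hik : (i + k) % 2 = 0) (h : ℝ → ℝ) (hh : Wt h) :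
    ∫ x : ℝ, x ^ i * h x * (fj N α τ k (x : ℝ)).re =
      2 * ∫ x in Ioi (0 : ℝ), x ^ i * h x * (fj N α τ k (x : ℝ)).re := by
  rw [← integral_comp_abs (f := fun x : ℝ => x ^ i * h x * (fj N α τ k (x : ℝ)).re)]
  congr 1
  ext x
  rcases le_total 0 x with hx | hx
  · rw [abs_of_nonneg hx]
  · rw [abs_of_nonpos hx, d7_fj_neg, hh.even, neg_pow x]
    have h2 : ((-1 : ℝ)) ^ i * (-1) ^ k = 1 := by
      rw [← pow_add]
      exact Even.neg_one_pow (Nat.even_iff.2 hik)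
    symm
    calc (-1) ^ i * x ^ i * h x * ((-1) ^ k * (fj N α τ k (x : ℝ)).re)
        = ((-1) ^ i * (-1) ^ k) * (x ^ i * h x * (fj N α τ k (x : ℝ)).re) := by ring
      _ = _ := by rw [h2, one_mul]

theorem d7_mom (n : ℕ) (hn : 0 < n) (α τ : ℝ) (hτ : 0 < τ) (h : ℝ → ℝ) (i j : ℕ) :
    mom n α τ h i j = (((n : ℝ) * τ) ^ j)⁻¹ *
      ∫ x : ℝ, x ^ i * h x * (fj (n : ℝ) α τ j (x : ℝ)).re := by
  have hn' : (0 : ℝ) < n := Nat.cast_pos.2 hn
  have h0 : ((n : ℝ) * τ) ^ j ≠ 0 := by positivity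
  rw [← integral_const_mul]
  unfold mom
  congr 1
  ext x
  rw [d7_fj_re]
  have h1 : (∫ y : ℝ, ((n : ℝ) * τ * y) ^ j * Real.exp (-(n : ℝ) * (Wr α y - τ * x * y))) =
      ((n : ℝ) * τ) ^ j * ∫ y : ℝ, y ^ j * Real.exp (-(n : ℝ) * (Wr α y - τ * x * y)) := by
    rw [← integral_const_mul]
    congr 1
    ext y
    rw [mul_pow]; ring
  rw [h1]
  field_simp

/-! ### one block -/

theorem d7_vd_cont (m : ℕ) : Continuous (vd : (Fin m → ℝ) → ℝ) := by
  unfold vd
  fun_prop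

theorem d7_rho_sigma (N α τ : ℝ) : SigmaFinite (rhoM N α τ) := by
  have h := SigmaFinite.withDensity_ofReal (μ := volume.restrict (Ioi (0 : ℝ)))
    (rhoD N α τ)
  exact h

theorem d7_rho_zero (N α τ : ℝ) : rhoM N α τ (Iic 0) = 0 := by
  unfold rhoM
  refine (withDensity_absolutelyContinuous _ _) ?_
  rw [Measure.restrict_apply measurableSet_Iic]
  have : Iic (0 : ℝ) ∩ Ioi 0 = ∅ := by
    ext x; simp
  rw [this, measure_empty]

/-- the integrand of the expansion -/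
def d7_rest (ε : ℕ) {m k l : ℕ} (ξ : Fin m → ℝ) (t : Fin k → ℝ) (v : Fin l → ℝ) : ℝ :=
  vd t ^ 2 * vd v ^ 2 * (∏ i, t i ^ ε) * (∏ i, v i ^ (1 - ε)) /
    ((∏ i, ∏ j, (ξ i + t j)) * (∏ i, ∏ j, (t i + v j)))

theorem d7_BI (ε : ℕ) {m k l : ℕ} (ξ : Fin m → ℝ) (t : Fin k → ℝ) (v : Fin l → ℝ) :
    BI ε ξ t v = vd ξ ^ 2 * d7_rest ε ξ t v := by
  unfold BI d7_rest
  generalize (∏ i, ∏ j, (ξ i + t j)) * (∏ i, ∏ j, (t i + v j)) = D
  generalize (∏ i, t i ^ ε) = a
  generalize (∏ i, v i ^ (1 - ε)) = b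
  generalize vd ξ = c
  generalize vd t = d
  generalize vd v = e
  ring

theorem d7_block (N α τ : ℝ) (hN : 0 < N) (hτ : 0 < τ) (ε p r q m : ℕ) (hm : p + (r + q) = m)
    (hs : NikSize ε p r q) (hrp : r ≤ p) (e : Fin p ⊕ (Fin r ⊕ Fin q) ≃ Fin m)
    (T : ℕ → ℕ → ℝ) (hT : ∀ j, T j j ≠ 0) (ψ B : ℕ → ℝ → ℝ)
    (hψ : ∀ j x, ψ j x = ∑ i ∈ Finset.range (j + 1), T j i * B i x) (c₀ : ℝ)
    (hB : ∀ s x, 0 < x → B (e s) x = (x ^ (1 - ε) * (fj N α τ 0 (x : ℝ)).re) *
      d7_row ε p r q c₀ (fun x => ∑' t : Zt N α τ, 1 / (x + (t : ℝ)))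
        (fun x => ∑' t : Zt N α τ, (∫ v, 1 / (v + (t : ℝ)) ∂(rhoM N α τ)) / (x + (t : ℝ)))
        s (x ^ 2)) :
    ∃ κ : ℝ≥0∞, κ ≠ 0 ∧ κ ≠ ⊤ ∧ ∀ h : ℝ → ℝ, Wt h →
      (∀ i j : ℕ, IntegrableOn (fun x => x ^ (2 * i + (1 - ε)) * h x * ψ j x) (Ioi 0)) →
      ENNReal.ofReal |Matrix.det (Matrix.of fun i j : Fin m =>
        ∫ x in Ioi (0 : ℝ), x ^ (2 * (i : ℕ) + (1 - ε)) * h x * ψ j x)| =
      κ * BB N α τ ε m (r + q) r h := by
  classical
  obtain ⟨s₁, hs₁, hnik⟩ := nikishin ε p r q hs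
  obtain ⟨s₂, hs₂, hbas⟩ := d7_basis ε p r q m hm hrp e
  have hsig := d7_rho_sigma N α τ
  have hcount : Countable (Zt N α τ) := (Zt_countable (α := α) hN hτ).to_subtype
  have hsum1 : Summable fun t : Zt N α τ => 1 / (1 + (t : ℝ)) := by
    refine Summable.of_nonneg_of_le (fun t => ?_) (fun t => ?_)
      (Zt_summable (α := α) hN hτ 1 (by norm_num))
    · have := t.2.1; positivity
    · have h0 : (0 : ℝ) < t := t.2.1
      rw [Real.rpow_neg_one, ← one_div]
      exact one_div_le_one_div_of_le h0 (by linarith)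
  have hnik' := hnik (Zt N α τ) (fun t ht => ht.1) hsum1 (rhoM N α τ) (d7_rho_zero N α τ)
    (pA_rep hN hτ).1 (fj_two_div (α := α) hN hτ 1 one_pos).1
  set φ := d7_phi p r q m hm with hφ
  set K : ℝ := (∏ i : Fin m, T i i) * s₂ * 2 ^ (r + q) *
    (s₁ / ((r + q).factorial * r.factorial)) with hK
  have hK0 : K ≠ 0 := by
    have h1 : s₁ ≠ 0 := by rcases hs₁ with h | h <;> rw [h] <;> norm_num
    have h2 : s₂ ≠ 0 := by rcases hs₂ with h | h <;> rw [h] <;> norm_num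
    have h3 : (∏ i : Fin m, T i i) ≠ 0 := Finset.prod_ne_zero_iff.2 fun i _ => hT i
    have h4 : ((r + q).factorial : ℝ) ≠ 0 := Nat.cast_ne_zero.2 (Nat.factorial_ne_zero _)
    have h5 : (r.factorial : ℝ) ≠ 0 := Nat.cast_ne_zero.2 (Nat.factorial_ne_zero _)
    positivity
  have hmf : ((m.factorial : ℕ) : ℝ) ≠ 0 := Nat.cast_ne_zero.2 (Nat.factorial_ne_zero _)
  refine ⟨ENNReal.ofReal (|K| / m.factorial), ?_, ENNReal.ofReal_ne_top, ?_⟩
  · rw [Ne, ENNReal.ofReal_eq_zero, not_le]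
    have : (0 : ℝ) < m.factorial := Nat.cast_pos.2 (Nat.factorial_pos _)
    have := abs_pos.2 hK0
    positivity
  intro h hh hint
  set μ : Measure (Fin m → ℝ) := Measure.pi fun _ => volume.restrict (Ioi (0 : ℝ)) with hμ
  obtain ⟨hA1, hA2⟩ := andreief (volume.restrict (Ioi (0 : ℝ)))
    (fun (i : Fin m) x => x ^ (2 * (i : ℕ) + (1 - ε)) * h x) (fun (j : Fin m) => ψ j)
    (fun i j => hint i j)
  -- the weights
  set w : (Fin m → ℝ) → ℝ := fun x =>
    ∏ i, (x i ^ (2 * (1 - ε)) * (fj N α τ 0 (x i : ℝ)).re * h (x i)) with hw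
  let Sf : (Fin m → ℝ) → ℝ≥0∞ := fun x => ∑' t : Fin (r + q) → Zt N α τ, ∫⁻ v : Fin r → ℝ,
    ENNReal.ofReal (d7_rest ε (fun i => x i ^ 2) (fun i => (t i : ℝ)) v)
    ∂(Measure.pi fun _ => rhoM N α τ)
  have hpos : ∀ᵐ x ∂μ, ∀ j, 0 < x j := by
    have h1 : μ = (Measure.pi fun _ : Fin m => (volume : Measure ℝ)).restrict
        (Set.pi univ fun _ => Ioi (0 : ℝ)) := by
      rw [hμ, Measure.restrict_pi_pi]
    rw [h1]
    refine (ae_restrict_mem (MeasurableSet.univ_pi fun _ => measurableSet_Ioi)).mono fun x hx j => ?_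
    exact hx j (mem_univ j)
  have hkey : ∀ x : Fin m → ℝ, (∀ j, 0 < x j) → ∃ S : ℝ, 0 ≤ S ∧ ENNReal.ofReal S = Sf x ∧
      Matrix.det (Matrix.of fun i j : Fin m => (x j) ^ (2 * (i : ℕ) + (1 - ε)) * h (x j)) *
        Matrix.det (Matrix.of fun i j : Fin m => ψ i (x j)) =
      K * (w x * vd (fun j => x j ^ 2) ^ 2 * S) := by
    intro x hx
    obtain ⟨S, hS0, hS1, hS2⟩ := hnik' (fun k => x (φ k) ^ 2) (fun k => by
      have := hx (φ k); positivity)
    refine ⟨S, hS0, ?_, ?_⟩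
    · rw [hS2]
      refine tsum_congr fun t => lintegral_congr fun v => ?_
      congr 1
      unfold d7_rest
      congr 2
      exact (Equiv.prod_comp φ fun i => ∏ j, (x i ^ 2 + (t j : ℝ)))
    · have hv := d7_vd_phi p r q m hm (fun j => x j ^ 2)
      have h1 := d7_vand (1 - ε) h x
      have h2 := d7_tri T ψ B hψ x
      have h3 := hbas B (fun x => x ^ (1 - ε) * (fj N α τ 0 (x : ℝ)).re) c₀ _ _ hB x hx
      have hw' : w x = (∏ j, x j ^ (1 - ε) * h (x j)) *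
          ∏ j, (x j ^ (1 - ε) * (fj N α τ 0 (x j : ℝ)).re) := by
        rw [← Finset.prod_mul_distrib]
        refine Finset.prod_congr rfl fun j _ => ?_
        rw [two_mul, pow_add]; ring
      rw [h1, h2, h3, hw']
      rw [← hφ] at *
      have h4 := hS1
      rw [hv] at h4
      rw [h4, hK]
      ring
  have hdet : ∀ x : Fin m → ℝ, (∀ j, 0 < x j) →
      Matrix.det (Matrix.of fun i j : Fin m => (x j) ^ (2 * (i : ℕ) + (1 - ε)) * h (x j)) *
        Matrix.det (Matrix.of fun i j : Fin m => ψ i (x j)) =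
      K * (w x * vd (fun j => x j ^ 2) ^ 2 * (Sf x).toReal) := by
    intro x hx
    obtain ⟨S, hS0, hS1, hS2⟩ := hkey x hx
    rw [hS2, ← hS1, ENNReal.toReal_ofReal hS0]
  have hfin : ∀ x : Fin m → ℝ, (∀ j, 0 < x j) → Sf x ≠ ⊤ := by
    intro x hx
    obtain ⟨S, hS0, hS1, hS2⟩ := hkey x hx
    rw [← hS1]; exact ENNReal.ofReal_ne_top
  have hwn : ∀ x : Fin m → ℝ, (∀ j, 0 < x j) → 0 ≤ w x := by
    intro x hx
    refine Finset.prod_nonneg fun j _ => ?_
    have h1 := hx j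
    have h2 := fj_zero_pos (α := α) (τ := τ) hN (x j)
    have h3 := hh.nonneg (x j)
    positivity
  set G : (Fin m → ℝ) → ℝ := fun x => w x * vd (fun j => x j ^ 2) ^ 2 * (Sf x).toReal with hG
  have hae : (fun x : Fin m → ℝ =>
      Matrix.det (Matrix.of fun i j : Fin m => (x j) ^ (2 * (i : ℕ) + (1 - ε)) * h (x j)) *
        Matrix.det (Matrix.of fun i j : Fin m => ψ i (x j))) =ᵐ[μ] fun x => K * G x :=
    hpos.mono fun x hx => hdet x hx
  have hGn : 0 ≤ᵐ[μ] G := hpos.mono fun x hx => by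
    have := hwn x hx
    have h2 : 0 ≤ (Sf x).toReal := ENNReal.toReal_nonneg
    show 0 ≤ w x * vd (fun j => x j ^ 2) ^ 2 * (Sf x).toReal
    positivity
  have hGi : Integrable G μ := by
    have h1 : Integrable (fun x => K * G x) μ := hA1.congr hae
    exact (integrable_const_mul_iff (IsUnit.mk0 K hK0) G).1 h1
  have hI : (m.factorial : ℝ) * Matrix.det (Matrix.of fun i j : Fin m =>
        ∫ x in Ioi (0 : ℝ), x ^ (2 * (i : ℕ) + (1 - ε)) * h x * ψ j x) = K * ∫ x, G x ∂μ := by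
    rw [← hA2, ← integral_const_mul]
    exact integral_congr_ae hae
  have hI' : Matrix.det (Matrix.of fun i j : Fin m =>
        ∫ x in Ioi (0 : ℝ), x ^ (2 * (i : ℕ) + (1 - ε)) * h x * ψ j x) =
      K / m.factorial * ∫ x, G x ∂μ := by
    rw [div_mul_eq_mul_div, ← hI]
    field_simp
  have hGI0 : 0 ≤ ∫ x, G x ∂μ := integral_nonneg_of_ae hGn
  rw [hI', abs_mul, abs_of_nonneg hGI0, abs_div,
    abs_of_nonneg (Nat.cast_nonneg m.factorial : (0 : ℝ) ≤ (m.factorial : ℝ)),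
    ENNReal.ofReal_mul (by positivity)]
  congr 1
  rw [ofReal_integral_eq_lintegral_ofReal hGi hGn]
  -- Tonelli
  have hmeas : Measurable fun z : (Fin r → ℝ) × (Fin m → ℝ) => (z.1, z.2) := measurable_id
  have hfc := d7_fj_cont N α τ hN 0
  have hBImeas : ∀ t : Fin (r + q) → Zt N α τ, Measurable fun z : (Fin r → ℝ) × (Fin m → ℝ) =>
      ENNReal.ofReal (BI ε (fun i => z.2 i ^ 2) (fun i => (t i : ℝ)) z.1 * w z.2) := by
    intro t
    refine Measurable.ennreal_ofReal ?_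
    have hwm : Measurable w := by
      refine Finset.measurable_prod _ fun i _ => ?_
      have h1 : Measurable fun x : Fin m → ℝ => x i := measurable_pi_apply i
      exact ((h1.pow_const _).mul (hfc.measurable.comp h1)).mul (hh.cont.measurable.comp h1)
    have h1 : Measurable fun z : (Fin r → ℝ) × (Fin m → ℝ) => vd fun i => z.2 i ^ 2 :=
      ((d7_vd_cont m).comp (by fun_prop)).measurable
    have h2 : Measurable fun z : (Fin r → ℝ) × (Fin m → ℝ) => vd z.1 :=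
      ((d7_vd_cont r).comp (by fun_prop)).measurable
    unfold BI
    have h3 : Measurable fun z : (Fin r → ℝ) × (Fin m → ℝ) => ∏ i, z.1 i ^ (1 - ε) := by
      have : Continuous fun z : (Fin r → ℝ) × (Fin m → ℝ) => ∏ i, z.1 i ^ (1 - ε) := by fun_prop
      exact this.measurable
    have h4 : Measurable fun z : (Fin r → ℝ) × (Fin m → ℝ) =>
        (∏ i, ∏ j, (z.2 i ^ 2 + (t j : ℝ))) * (∏ i, ∏ j, ((t i : ℝ) + z.1 j)) := by
      have : Continuous fun z : (Fin r → ℝ) × (Fin m → ℝ) =>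
        (∏ i, ∏ j, (z.2 i ^ 2 + (t j : ℝ))) * (∏ i, ∏ j, ((t i : ℝ) + z.1 j)) := by fun_prop
      exact this.measurable
    exact ((((((h1.pow_const 2).mul measurable_const).mul (h2.pow_const 2)).mul
      measurable_const).mul h3).div h4).mul (hwm.comp measurable_snd)
  have hst1 : ∫⁻ x, ENNReal.ofReal (G x) ∂μ = ∫⁻ x, ∑' t : Fin (r + q) → Zt N α τ,
      ∫⁻ v : Fin r → ℝ, ENNReal.ofReal (BI ε (fun i => x i ^ 2) (fun i => (t i : ℝ)) v * w x)
        ∂(Measure.pi fun _ => rhoM N α τ) ∂μ := by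
    refine lintegral_congr_ae (hpos.mono fun x hx => ?_)
    have h1 := hwn x hx
    have h2 : (0 : ℝ) ≤ w x * vd (fun j => x j ^ 2) ^ 2 := by positivity
    show ENNReal.ofReal (w x * vd (fun j => x j ^ 2) ^ 2 * (Sf x).toReal) = _
    rw [ENNReal.ofReal_mul h2, ENNReal.ofReal_toReal (hfin x hx)]
    show _ * ∑' t : Fin (r + q) → Zt N α τ, ∫⁻ v : Fin r → ℝ,
      ENNReal.ofReal (d7_rest ε (fun i => x i ^ 2) (fun i => (t i : ℝ)) v)
      ∂(Measure.pi fun _ => rhoM N α τ) = _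
    rw [← ENNReal.tsum_mul_left]
    refine tsum_congr fun t => ?_
    rw [← lintegral_const_mul' _ _ ENNReal.ofReal_ne_top]
    refine lintegral_congr fun v => ?_
    rw [← ENNReal.ofReal_mul h2, d7_BI]
    congr 1
    ring
  rw [hst1, lintegral_tsum]
  · unfold BB
    refine tsum_congr fun t => ?_
    rw [lintegral_lintegral_swap]
    exact ((hBImeas t).comp measurable_swap).aemeasurable
  · intro t
    exact (Measurable.lintegral_prod_right' ((hBImeas t).comp measurable_swap)).aemeasurable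

/-! ### assembly -/

theorem d7_equiv (p r q m : ℕ) (hm : p + (r + q) = m) (g : Fin p ⊕ (Fin r ⊕ Fin q) → ℕ)
    (hlt : ∀ s, g s < m) (hinj : Function.Injective g) :
    ∃ e : Fin p ⊕ (Fin r ⊕ Fin q) ≃ Fin m, ∀ s, ((e s : Fin m) : ℕ) = g s := by
  have h1 : Function.Injective (fun s => (⟨g s, hlt s⟩ : Fin m)) := by
    intro s t hst
    exact hinj (congrArg Fin.val hst)
  have h2 : Function.Bijective (fun s => (⟨g s, hlt s⟩ : Fin m)) := by
    rw [Fintype.bijective_iff_injective_and_card]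
    refine ⟨h1, ?_⟩
    simp [hm]
  exact ⟨Equiv.ofBijective _ h2, fun s => rfl⟩

theorem d7_even (N α τ : ℝ) (hN : 0 < N) (hτ : 0 < τ) (m : ℕ) :
    ∃ κ : ℝ≥0∞, κ ≠ 0 ∧ κ ≠ ⊤ ∧ ∀ h : ℝ → ℝ, Wt h →
      ENNReal.ofReal |Matrix.det (Matrix.of fun i j : Fin m =>
        ∫ x in Ioi (0 : ℝ), x ^ (2 * (i : ℕ)) * h x * (fj N α τ (2 * (j : ℕ)) (x : ℝ)).re)| =
      κ * BB N α τ 1 m (kk 1 m) (ll 1 m) h := by
  obtain ⟨T, hT, hTe⟩ := jets_even N α τ hN hτ
  have hm : (m + 2) / 3 + ((m + 1) / 3 + m / 3) = m := by omega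
  obtain ⟨e, he⟩ := d7_equiv ((m + 2) / 3) ((m + 1) / 3) (m / 3) m hm
    (Sum.elim (fun a => 3 * (a : ℕ)) (Sum.elim (fun b => 3 * (b : ℕ) + 1) fun c => 3 * (c : ℕ) + 2))
    (by
      rintro (a | b | c)
      · have := a.2; simp only [Sum.elim_inl]; omega
      · have := b.2; simp only [Sum.elim_inl, Sum.elim_inr]; omega
      · have := c.2; simp only [Sum.elim_inr]; omega)
    (by
      rintro (a | b | c) (a' | b' | c') h <;>
        simp only [Sum.elim_inl, Sum.elim_inr] at h <;>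
        first
          | omega
          | (have h' := Fin.ext (show (a : ℕ) = a' by omega); rw [h'])
          | (have h' := Fin.ext (show (b : ℕ) = b' by omega); rw [h'])
          | (have h' := Fin.ext (show (c : ℕ) = c' by omega); rw [h']))
  obtain ⟨κ, h0, h1, h2⟩ := d7_block N α τ hN hτ 1 _ _ _ m hm
    (Or.inl ⟨rfl, by omega, by omega, by omega⟩) (by omega) e T hT
    (fun j x => (fj N α τ (2 * j) (x : ℝ)).re) (eBasis N α τ) (fun j x => hTe j x)
    ((fj N α τ 2 0).re / (fj N α τ 0 0).re)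
    (by
      rintro (a | b | c) x hx
      · rw [show ((e (Sum.inl a) : Fin m) : ℕ) = _ from he (Sum.inl a)]
        rw [Sum.elim_inl]
        simp only [Sum.elim_inl, d7_row]
        unfold eBasis
        rw [if_pos (by omega), show 3 * (a : ℕ) / 3 = a by omega]
        ring
      · rw [show ((e (Sum.inr (Sum.inl b)) : Fin m) : ℕ) = _ from he (Sum.inr (Sum.inl b))]
        rw [Sum.elim_inr, Sum.elim_inl]
        simp only [Sum.elim_inl, Sum.elim_inr, d7_row]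
        unfold eBasis
        rw [if_neg (by omega), if_pos (by omega), show (3 * (b : ℕ) + 1) / 3 = b by omega,
          (fj_two_div hN hτ x hx).2]
        ring
      · rw [show ((e (Sum.inr (Sum.inr c)) : Fin m) : ℕ) = _ from he (Sum.inr (Sum.inr c))]
        rw [Sum.elim_inr, Sum.elim_inr]
        simp only [Sum.elim_inr, d7_row]
        unfold eBasis
        rw [if_neg (by omega), if_neg (by omega), show (3 * (c : ℕ) + 2) / 3 = c by omega,
          fj_one_div hN hτ x hx]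
        ring)
  refine ⟨κ, h0, h1, fun h hh => ?_⟩
  have h3 := h2 h hh (fun i j => by
    have := (d7_int N α τ hN (2 * i + (1 - 1)) (2 * j) h hh).integrableOn (s := Ioi 0)
    exact this)
  have hk : kk 1 m = (m + 1) / 3 + m / 3 := by
    unfold kk; rw [if_pos rfl]; omega
  have hl : ll 1 m = (m + 1) / 3 := by
    unfold ll; rw [if_pos rfl]
  rw [hk, hl]
  exact h3

theorem d7_odd (N α τ : ℝ) (hN : 0 < N) (hτ : 0 < τ) (m : ℕ) :
    ∃ κ : ℝ≥0∞, κ ≠ 0 ∧ κ ≠ ⊤ ∧ ∀ h : ℝ → ℝ, Wt h →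
      ENNReal.ofReal |Matrix.det (Matrix.of fun i j : Fin m =>
        ∫ x in Ioi (0 : ℝ), x ^ (2 * (i : ℕ) + 1) * h x *
          (fj N α τ (2 * (j : ℕ) + 1) (x : ℝ)).re)| =
      κ * BB N α τ 0 m (kk 0 m) (ll 0 m) h := by
  obtain ⟨T, hT, hTe⟩ := jets_odd N α τ hN hτ
  have hm : (m + 1) / 3 + (m / 3 + (m + 2) / 3) = m := by omega
  obtain ⟨e, he⟩ := d7_equiv ((m + 1) / 3) (m / 3) ((m + 2) / 3) m hm
    (Sum.elim (fun a => 3 * (a : ℕ) + 1) (Sum.elim (fun b => 3 * (b : ℕ) + 2) fun c => 3 * (c : ℕ)))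
    (by
      rintro (a | b | c)
      · have := a.2; simp only [Sum.elim_inl]; omega
      · have := b.2; simp only [Sum.elim_inl, Sum.elim_inr]; omega
      · have := c.2; simp only [Sum.elim_inr]; omega)
    (by
      rintro (a | b | c) (a' | b' | c') h <;>
        simp only [Sum.elim_inl, Sum.elim_inr] at h <;>
        first
          | omega
          | (have h' := Fin.ext (show (a : ℕ) = a' by omega); rw [h'])
          | (have h' := Fin.ext (show (b : ℕ) = b' by omega); rw [h'])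
          | (have h' := Fin.ext (show (c : ℕ) = c' by omega); rw [h']))
  obtain ⟨κ, h0, h1, h2⟩ := d7_block N α τ hN hτ 0 _ _ _ m hm
    (Or.inr ⟨rfl, by omega, by omega, by omega⟩) (by omega) e T hT
    (fun j x => (fj N α τ (2 * j + 1) (x : ℝ)).re) (oBasis N α τ) (fun j x => hTe j x)
    ((fj N α τ 2 0).re / (fj N α τ 0 0).re)
    (by
      rintro (a | b | c) x hx
      · rw [show ((e (Sum.inl a) : Fin m) : ℕ) = _ from he (Sum.inl a)]
        rw [Sum.elim_inl]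
        simp only [Sum.elim_inl, d7_row]
        unfold oBasis
        rw [if_neg (by omega), if_pos (by omega), show (3 * (a : ℕ) + 1) / 3 = a by omega]
        ring
      · rw [show ((e (Sum.inr (Sum.inl b)) : Fin m) : ℕ) = _ from he (Sum.inr (Sum.inl b))]
        rw [Sum.elim_inr, Sum.elim_inl]
        simp only [Sum.elim_inl, Sum.elim_inr, d7_row]
        unfold oBasis
        rw [if_neg (by omega), if_neg (by omega), show (3 * (b : ℕ) + 2) / 3 = b by omega,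
          (fj_two_div hN hτ x hx).2]
        ring
      · rw [show ((e (Sum.inr (Sum.inr c)) : Fin m) : ℕ) = _ from he (Sum.inr (Sum.inr c))]
        rw [Sum.elim_inr, Sum.elim_inr]
        simp only [Sum.elim_inr, d7_row]
        unfold oBasis
        rw [if_pos (by omega), show 3 * (c : ℕ) / 3 = c by omega,
          fj_one_div hN hτ x hx]
        ring)
  refine ⟨κ, h0, h1, fun h hh => ?_⟩
  have h3 := h2 h hh (fun i j => by
    have := (d7_int N α τ hN (2 * i + (1 - 0)) (2 * j + 1) h hh).integrableOn (s := Ioi 0)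
    exact this)
  have hk : kk 0 m = m / 3 + (m + 2) / 3 := by
    unfold kk; rw [if_neg (by norm_num)]; omega
  have hl : ll 0 m = m / 3 := by
    unfold ll; rw [if_neg (by norm_num)]
  rw [hk, hl]
  exact h3

theorem ZZ_eq_blocks (n : ℕ) (hn : 0 < n) (α τ : ℝ) (hτ : 0 < τ) : ∃ κ : ℝ≥0∞, κ ≠ 0 ∧ κ ≠ ⊤ ∧
    ∀ h : ℝ → ℝ, Wt h → ZZ n α τ h = κ * BBn n α τ 1 h * BBn n α τ 0 h := by
  obtain ⟨κ₀, a0, b0, hZ⟩ := ZZ_eq_det n hn α τ hτ
  have hN : (0 : ℝ) < n := Nat.cast_pos.2 hn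
  obtain ⟨κ₁, a1, b1, h1⟩ := d7_even (n : ℝ) α τ hN hτ ((n + 1) / 2)
  obtain ⟨κ₂, a2, b2, h2⟩ := d7_odd (n : ℝ) α τ hN hτ (n / 2)
  set v : ℝ := ∏ j : Fin n, (((n : ℝ) * τ) ^ (j : ℕ))⁻¹ with hv
  have hv0 : 0 < v := Finset.prod_pos fun j _ => by positivity
  set c : ℝ := v * (2 ^ ((n + 1) / 2) * 2 ^ (n / 2)) with hc
  have hc0 : 0 < c := by positivity
  refine ⟨κ₀ * ENNReal.ofReal c * κ₁ * κ₂, ?_, ?_, ?_⟩
  · have : ENNReal.ofReal c ≠ 0 := by
      rw [Ne, ENNReal.ofReal_eq_zero, not_le]; exact hc0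
    exact mul_ne_zero (mul_ne_zero (mul_ne_zero a0 this) a1) a2
  · exact ENNReal.mul_ne_top (ENNReal.mul_ne_top (ENNReal.mul_ne_top b0 ENNReal.ofReal_ne_top) b1) b2
  intro h hh
  have hB1 : BBn n α τ 1 h = BB (n : ℝ) α τ 1 ((n + 1) / 2) (kk 1 ((n + 1) / 2))
      (ll 1 ((n + 1) / 2)) h := by
    unfold BBn; rw [if_pos rfl]
  have hB0 : BBn n α τ 0 h = BB (n : ℝ) α τ 0 (n / 2) (kk 0 (n / 2)) (ll 0 (n / 2)) h := by
    unfold BBn; rw [if_neg (by norm_num)]
  set C : ℕ → ℕ → ℝ := fun i j => ∫ x : ℝ, x ^ i * h x * (fj (n : ℝ) α τ j (x : ℝ)).re with hC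
  have hdet : Matrix.det (Matrix.of fun i j : Fin n => mom n α τ h i j) =
      v * (Matrix.det (Matrix.of fun i j : Fin ((n + 1) / 2) => C (2 * i) (2 * j)) *
        Matrix.det (Matrix.of fun i j : Fin (n / 2) => C (2 * i + 1) (2 * j + 1))) := by
    rw [← det_parity n C (fun i j hij => d7_zero (n : ℝ) α τ i j hij h hh)]
    have : (Matrix.of fun i j : Fin n => mom n α τ h i j) =
        Matrix.of fun i j : Fin n => (fun j : Fin n => (((n : ℝ) * τ) ^ (j : ℕ))⁻¹) j *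
          (Matrix.of fun i j : Fin n => C i j) i j := by
      ext i j
      exact d7_mom n hn α τ hτ h i j
    rw [this, Matrix.det_mul_row]
  have he : Matrix.det (Matrix.of fun i j : Fin ((n + 1) / 2) => C (2 * i) (2 * j)) =
      2 ^ ((n + 1) / 2) * Matrix.det (Matrix.of fun i j : Fin ((n + 1) / 2) =>
        ∫ x in Ioi (0 : ℝ), x ^ (2 * (i : ℕ)) * h x *
          (fj (n : ℝ) α τ (2 * (j : ℕ)) (x : ℝ)).re) := by
    have : (Matrix.of fun i j : Fin ((n + 1) / 2) => C (2 * i) (2 * j)) =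
        (2 : ℝ) • (Matrix.of fun i j : Fin ((n + 1) / 2) =>
        ∫ x in Ioi (0 : ℝ), x ^ (2 * (i : ℕ)) * h x *
          (fj (n : ℝ) α τ (2 * (j : ℕ)) (x : ℝ)).re) := by
      ext i j
      exact d7_half (n : ℝ) α τ (2 * i) (2 * j) (by omega) h hh
    rw [this, Matrix.det_smul, Fintype.card_fin]
  have ho : Matrix.det (Matrix.of fun i j : Fin (n / 2) => C (2 * i + 1) (2 * j + 1)) =
      2 ^ (n / 2) * Matrix.det (Matrix.of fun i j : Fin (n / 2) =>
        ∫ x in Ioi (0 : ℝ), x ^ (2 * (i : ℕ) + 1) * h x *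
          (fj (n : ℝ) α τ (2 * (j : ℕ) + 1) (x : ℝ)).re) := by
    have : (Matrix.of fun i j : Fin (n / 2) => C (2 * i + 1) (2 * j + 1)) =
        (2 : ℝ) • (Matrix.of fun i j : Fin (n / 2) =>
        ∫ x in Ioi (0 : ℝ), x ^ (2 * (i : ℕ) + 1) * h x *
          (fj (n : ℝ) α τ (2 * (j : ℕ) + 1) (x : ℝ)).re) := by
      ext i j
      exact d7_half (n : ℝ) α τ (2 * i + 1) (2 * j + 1) (by omega) h hh
    rw [this, Matrix.det_smul, Fintype.card_fin]
  rw [hZ h hh, hdet, he, ho, hB1, hB0]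
  have h1' := h1 h hh
  have h2' := h2 h hh
  set d1 := Matrix.det (Matrix.of fun i j : Fin ((n + 1) / 2) =>
        ∫ x in Ioi (0 : ℝ), x ^ (2 * (i : ℕ)) * h x *
          (fj (n : ℝ) α τ (2 * (j : ℕ)) (x : ℝ)).re) with hd1
  set d2 := Matrix.det (Matrix.of fun i j : Fin (n / 2) =>
        ∫ x in Ioi (0 : ℝ), x ^ (2 * (i : ℕ) + 1) * h x *
          (fj (n : ℝ) α τ (2 * (j : ℕ) + 1) (x : ℝ)).re) with hd2
  have h5 : |v * (2 ^ ((n + 1) / 2) * d1 * (2 ^ (n / 2) * d2))| = c * (|d1| * |d2|) := by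
    have : v * (2 ^ ((n + 1) / 2) * d1 * (2 ^ (n / 2) * d2)) = c * (d1 * d2) := by
      rw [hc]; ring
    rw [this, abs_mul, abs_of_pos hc0, abs_mul]
  rw [h5, ENNReal.ofReal_mul hc0.le, ENNReal.ofReal_mul (abs_nonneg _), h1', h2']
  ring

end

end Pool.Agent.MP_941b23_mp
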