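import Pool.Agent.MP_941b23_mp.Model

/-!
# MP_941b23_mp : auxiliary definitions used in the proof
-/

namespace Pool.Agent.MP_941b23_mp

open MeasureTheory Set Filter Topology
open scoped ENNReal NNReal Real

noncomputable section

/-! ## 3. Special functions. `N > 0`, `τ > 0` -/

/-- Jets of `f(x) = ∫ exp(-N (W(y) - τ x y)) dy`: the `k`-th derivative of `f`. -/
def fj (N α τ : ℝ) (k : ℕ) (x : ℂ) : ℂ :=
  ∫ y : ℝ, ((N * τ * y : ℝ) : ℂ) ^ k *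
    Complex.exp (-(N : ℂ) * ((y : ℂ) ^ 4 / 4 + (α : ℂ) / 2 * (y : ℂ) ^ 2 - (τ : ℂ) * x * (y : ℂ)))

/-- `g(v) = exp(N (v^4/4 - α v^2/2 - τ w v))`. -/
def gA (N α τ : ℝ) (w v : ℂ) : ℂ :=
  Complex.exp ((N : ℂ) * (v ^ 4 / 4 - (α : ℂ) / 2 * v ^ 2 - (τ : ℂ) * w * v))

/-- `e^{iπ/4}`. -/
def ep : ℂ := ⟨√2 / 2, √2 / 2⟩

/-- `e^{-iπ/4}`. -/
def em : ℂ := ⟨√2 / 2, -(√2 / 2)⟩

/-- Jets of `A(w) = (1/2πi) ∫_{e^{-iπ/4}∞}^{e^{iπ/4}∞} exp(N (v^4/4 - α v^2/2 - τ w v)) dv`. -/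
def Aj (N α τ : ℝ) (k : ℕ) (w : ℂ) : ℂ :=
  (2 * (π : ℂ) * Complex.I)⁻¹ * ∫ r in Ioi (0 : ℝ),
    (ep * ((-(N * τ : ℝ) * (ep * (r : ℂ))) ^ k * gA N α τ w (ep * (r : ℂ))) -
      em * ((-(N * τ : ℝ) * (em * (r : ℂ))) ^ k * gA N α τ w (em * (r : ℂ))))

/-- `p = -A'/A`. -/
def pA (N α τ : ℝ) (w : ℂ) : ℂ := -(Aj N α τ 1 w / Aj N α τ 0 w)

/-- The constant in `Re p(iη) = c f(η) / (2 |A(iη)|^2)`. -/
def cA (N α τ : ℝ) : ℝ := τ * √N / (2 * √2 * π * √π) * Real.exp (-(N * α ^ 2 / 2))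

/-- Density of `ρ` : `ρ(dv) = (1/π) Re p(i√v) v^{-1/2} dv` on `(0,∞)`. -/
def rhoD (N α τ v : ℝ) : ℝ :=
  cA N α τ * (fj N α τ 0 (√v : ℝ)).re /
    (2 * π * √v * Complex.normSq (Aj N α τ 0 ((√v : ℝ) * Complex.I)))

/-- The measure `ρ` on `(0,∞)`. -/
def rhoM (N α τ : ℝ) : Measure ℝ :=
  (volume.restrict (Ioi (0 : ℝ))).withDensity fun v => ENNReal.ofReal (rhoD N α τ v)

/-- The entire function `F` with `F(x^2) = f(x)`. -/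
def FF (N α τ : ℝ) (ξ : ℂ) : ℂ := fj N α τ 0 (ξ ^ (1 / 2 : ℂ))

/-- The numbers `t > 0` with `F(-t) = 0`. -/
def Zt (N α τ : ℝ) : Set ℝ := {t | 0 < t ∧ FF N α τ (-(t : ℂ)) = 0}

/-- The counting measure of `Zt`. -/
def SigM (N α τ : ℝ) : Measure ℝ := Measure.sum fun t : Zt N α τ => Measure.dirac (t : ℝ)

/-! ## 4. The block integrals -/

/-- `∏_{i<j} (x_j - x_i)`. -/
def vd {m : ℕ} (x : Fin m → ℝ) : ℝ := ∏ i : Fin m, ∏ j ∈ Finset.Ioi i, (x j - x i)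

/-- The three species Coulomb gas weight. `ε = 1` for the even block, `ε = 0` for the odd one. -/
def BI (ε : ℕ) {m k l : ℕ} (ξ : Fin m → ℝ) (t : Fin k → ℝ) (v : Fin l → ℝ) : ℝ :=
  vd ξ ^ 2 * vd t ^ 2 * vd v ^ 2 * (∏ i, t i ^ ε) * (∏ i, v i ^ (1 - ε)) /
    ((∏ i, ∏ j, (ξ i + t j)) * (∏ i, ∏ j, (t i + v j)))

/-- The block integral. -/
def BB (N α τ : ℝ) (ε m k l : ℕ) (h : ℝ → ℝ) : ℝ≥0∞ :=
  ∑' t : Fin k → Zt N α τ, ∫⁻ v : Fin l → ℝ, ∫⁻ x : Fin m → ℝ,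
    ENNReal.ofReal (BI ε (fun i => x i ^ 2) (fun i => (t i : ℝ)) v *
      ∏ i, (x i ^ (2 * (1 - ε)) * (fj N α τ 0 (x i : ℝ)).re * h (x i)))
    ∂(Measure.pi fun _ => volume.restrict (Ioi (0 : ℝ))) ∂(Measure.pi fun _ => rhoM N α τ)

/-- Number of `t`-particles in a block with `m` particles. -/
def kk (ε m : ℕ) : ℕ := if ε = 1 then m - (m + 2) / 3 else m - (m + 1) / 3

/-- Number of `v`-particles in a block with `m` particles. -/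
def ll (ε m : ℕ) : ℕ := if ε = 1 then (m + 1) / 3 else m / 3

/-- The full block integral for matrix size `n` and parity `ε`. -/
def BBn (n : ℕ) (α τ : ℝ) (ε : ℕ) (h : ℝ → ℝ) : ℝ≥0∞ :=
  let m := if ε = 1 then (n + 1) / 2 else n / 2
  BB n α τ ε m (kk ε m) (ll ε m) h

/-- Matrix integral with a general weight `h` for `M₁`. -/
def ZZ (n : ℕ) (α τ : ℝ) (h : ℝ → ℝ) : ℝ≥0∞ :=
  ∫⁻ X : Fin n → Fin n → ℝ, ∫⁻ Y : Fin n → Fin n → ℝ,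
    ENNReal.ofReal ((∏ i, h (evs X i)) * Real.exp (-(n : ℝ) * (Matrix.trace
      ((1 / 4 : ℂ) • (hmat Y) ^ 4 + ((α / 2 : ℝ) : ℂ) • (hmat Y) ^ 2
        - (τ : ℂ) • (hmat X * hmat Y))).re))

/-! ## 5. The energy functional in the squared variables -/

/-- `σ_∞ = ½ (push-forward of σ₂ under y ↦ y²)`. -/
def sigI (α τ : ℝ) : Measure ℝ := (1 / 2 : ℝ≥0∞) • (sigma2 α τ).map (fun y => y ^ 2)

/-- Potential of the first species in the variable `ξ = x²`. -/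
def U1 (α τ : ℝ) (V : ℝ → ℝ) (ξ : ℝ) : ℝ := V (√ξ) - gg α τ (√ξ)

/-- Potential of the third species. -/
def U3 (α τ : ℝ) (v : ℝ) : ℝ := V3 α τ (√v)

/-- `-∬ log|x-y| dμ dν`. -/
def LL (μ ν : Measure ℝ) : ℝ := ∫ z : ℝ × ℝ, -Real.log |z.1 - z.2| ∂(μ.prod ν)

/-- `∬ log(x+y) dμ dν`. -/
def MM (μ ν : Measure ℝ) : ℝ := ∫ z : ℝ × ℝ, Real.log (z.1 + z.2) ∂(μ.prod ν)

/-- The functional `J`. -/
def JJ (α τ : ℝ) (V : ℝ → ℝ) (a b c : Measure ℝ) : ℝ :=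
  LL a a + LL b b + LL c c + MM a b + MM b c + ∫ x, U1 α τ V x ∂a + ∫ x, U3 α τ x ∂c

/-- Admissible triples for `J`. -/
structure AdmJ (α τ : ℝ) (V : ℝ → ℝ) (a b c : Measure ℝ) : Prop where
  suppa : a (Iio 0) = 0
  suppb : b (Iio 0) = 0
  suppc : c (Iio 0) = 0
  massa : a univ = 1 / 2
  massb : b univ = 1 / 3
  massc : c univ = 1 / 6
  constr : b ≤ sigI α τ
  ena : FinEn a
  enb : FinEn b
  enc : FinEn c
  pot : Integrable (U1 α τ V) a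

end

end Pool.Agent.MP_941b23_mp
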