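import Pool.Agent.MP_941b23_mp.Defs

/-!
# MP_941b23_mp : auxiliary definitions
-/

namespace Pool.Agent.MP_941b23_mp

open MeasureTheory Set Filter Topology
open scoped ENNReal NNReal Real

noncomputable section

/-- Eigenvalues in decreasing order. -/
def evd {n : ℕ} (X : Fin n → Fin n → ℝ) : Fin n → ℝ :=
  fun i => (hmat_isHermitian X).eigenvalues₀ (Fin.cast (Fintype.card_fin n).symm i)

/-- `∏_{i<j} (x_i - x_j)`. -/
def vdd {m : ℕ} (x : Fin m → ℝ) : ℝ := ∏ i : Fin m, ∏ j ∈ Finset.Ioi i, (x i - x j)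

/-- Coordinates of the diagonal matrix. -/
def dg {n : ℕ} (a : Fin n → ℝ) : Fin n → Fin n → ℝ := fun i j => if i = j then a i else 0

/-- Add a first row and column. -/
def bord {n : ℕ} (t : ℝ) (u w : Fin n → ℝ) (X : Fin n → Fin n → ℝ) :
    Fin (n + 1) → Fin (n + 1) → ℝ :=
  Fin.cons (Fin.cons t u) (fun i => Fin.cons (w i) (X i))

/-- interlacing sequences `x_0 > a_0 > x_1 > ... > a_{n-1} > x_n`, as a set of `x`. -/
def IntX {n : ℕ} (a : Fin n → ℝ) : Set (Fin (n + 1) → ℝ) :=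
  {x | ∀ i : Fin n, a i < x i.castSucc ∧ x i.succ < a i}

/-- the same relation, as a set of `a`. -/
def IntA {n : ℕ} (x : Fin (n + 1) → ℝ) : Set (Fin n → ℝ) :=
  {a | ∀ i : Fin n, a i < x i.castSucc ∧ x i.succ < a i}

/-- strictly decreasing vectors -/
def Dec (n : ℕ) : Set (Fin n → ℝ) := {x | StrictAnti x}

/-- `w_i = -∏_j (a_i - x_j) / ∏_{j ≠ i} (a_i - a_j)`. -/
def wOf {n : ℕ} (a : Fin n → ℝ) (x : Fin (n + 1) → ℝ) : Fin n → ℝ :=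
  fun i => -(∏ j, (a i - x j)) / ∏ j ∈ Finset.univ.erase i, (a i - a j)

/-- exponential integral over Gelfand-Tsetlin patterns -/
def SS : (n : ℕ) → (Fin n → ℝ) → (Fin n → ℝ) → ℝ
  | 0, _, _ => 1
  | n + 1, y, x => ∫ a in IntA x, SS n (fun i => y i.succ) a *
      Real.exp (y 0 * (∑ j, x j - ∑ i, a i))

/-- The moments `∬ x^i y^j h(x) e^{-n(W(y) - τ x y)} dy dx`. -/
def mom (n : ℕ) (α τ : ℝ) (h : ℝ → ℝ) (i j : ℕ) : ℝ :=
  ∫ x : ℝ, x ^ i * h x * ∫ y : ℝ, y ^ j * Real.exp (-(n : ℝ) * (Wr α y - τ * x * y))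

/-- Weights: continuous, nonnegative, even, bounded by `C exp(-c x²)`. -/
structure Wt (h : ℝ → ℝ) : Prop where
  cont : Continuous h
  nonneg : ∀ x, 0 ≤ h x
  even : ∀ x, h (-x) = h x
  bound : ∃ C c : ℝ, 0 < c ∧ ∀ x, h x ≤ C * Real.exp (-(c * x ^ 2))

/-- Row functions: `ξ^i` (`i<p`), `ξ^(i+1) G₂(ξ)` (`i<r`), `ξ^(i+ε) G₁(ξ)` (`i<q`). -/
def nikRow (ε p r q : ℕ) (G1 G2 : ℝ → ℝ) (i : Fin p ⊕ (Fin r ⊕ Fin q)) (ξ : ℝ) : ℝ :=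
  Sum.elim (fun a : Fin p => ξ ^ (a : ℕ))
    (Sum.elim (fun b : Fin r => ξ ^ ((b : ℕ) + 1) * G2 ξ)
      (fun c : Fin q => ξ ^ ((c : ℕ) + ε) * G1 ξ)) i

/-- Admissible sizes of the blocks. -/
def NikSize (ε p r q : ℕ) : Prop :=
  (ε = 1 ∧ q ≤ r ∧ r ≤ p ∧ p ≤ q + 1) ∨ (ε = 0 ∧ r ≤ p ∧ p ≤ q ∧ q ≤ r + 1)

/-- The basis of the even block: `e_{3i} = x^{2i} f`, `e_{3i+1} = x^{2i} f''`,
`e_{3i+2} = x^{2i+1} f'`. -/
def eBasis (N α τ : ℝ) (j : ℕ) (x : ℝ) : ℝ :=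
  if j % 3 = 0 then x ^ (2 * (j / 3)) * (fj N α τ 0 x).re
  else if j % 3 = 1 then x ^ (2 * (j / 3)) * (fj N α τ 2 x).re
  else x ^ (2 * (j / 3) + 1) * (fj N α τ 1 x).re

/-- The basis of the odd block: `o_{3i} = x^{2i} f'`, `o_{3i+1} = x^{2i+1} f`,
`o_{3i+2} = x^{2i+1} f''`. -/
def oBasis (N α τ : ℝ) (j : ℕ) (x : ℝ) : ℝ :=
  if j % 3 = 0 then x ^ (2 * (j / 3)) * (fj N α τ 1 x).re
  else if j % 3 = 1 then x ^ (2 * (j / 3) + 1) * (fj N α τ 0 x).re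
  else x ^ (2 * (j / 3) + 1) * (fj N α τ 2 x).re

/-- `∫_{v₀}^{v₀ + e ∞} g`. -/
def ray (e : ℂ) (g : ℂ → ℂ) (v₀ : ℂ) : ℂ := ∫ r in Ioi (0 : ℝ), e * g (v₀ + e * (r : ℂ))

/-- the Curie-Weiss polynomial -/
def cw (m : ℕ) (q : ℝ) (z : ℂ) : ℂ :=
  ∑ k ∈ Finset.range (m + 1), (m.choose k : ℂ) * (q : ℂ) ^ (k * (m - k)) * z ^ k

/-- density of `σ_∞` in the variable `t` -/
def dI (α τ t : ℝ) : ℝ := τ / π * rr α τ (√t * Complex.I) / (2 * √t)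

/-- `s ↦ W(s) - τ x s` -/
def th (α τ x s : ℝ) : ℝ := Wr α s - τ * x * s

/-- Potentials: continuous, even, at least quadratic growth. -/
structure Pot (V : ℝ → ℝ) : Prop where
  cont : Continuous V
  even : ∀ x, V (-x) = V x
  lower : ∃ c C : ℝ, 0 < c ∧ ∀ x, c * x ^ 2 - C ≤ V x

/-- interval masses -/
def im (μ : Measure ℝ) (z s : ℝ) : ℝ := μ.real (Ioc z (z + s))

/-- `∫_ε^H max(0, 1 - |u|/s) ds/s` -/
def kap (ε H u : ℝ) : ℝ :=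
  if |u| ≤ ε then Real.log (H / ε) - |u| * (1 / ε - 1 / H)
  else if |u| ≤ H then Real.log (H / |u|) - 1 + |u| / H else 0

/-- the squared `L²` norm of the difference of interval masses, averaged -/
def Phi (h : ℝ) (a a' : Measure ℝ) : ℝ :=
  ∫ s in Icc h (2 * h), 1 / s ^ 2 * ∫ z, (im a z s - im a' z s) ^ 2

/-- `LL` of the differences `(a - a', b - b')` -/
def LD (a a' b b' : Measure ℝ) : ℝ := LL a b - LL a b' - LL a' b + LL a' b'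

/-- box averages -/
def avg (h : ℝ) (ψ : ℝ → ℝ) (x : ℝ) : ℝ :=
  1 / h * ∫ s in Icc h (2 * h), 1 / s * ∫ y in Icc (x - s) x, ψ y

/-- `R₋(x,y) = log(max(x,y,1)/|x-y|) ≥ 0` -/
def Rm (x y : ℝ) : ℝ := Real.log (max (max x y) 1 / |x - y|)

/-- truncation of `R₋` at height `M` (a continuous function) -/
def RmM (M x y : ℝ) : ℝ := -Real.log (max (|x - y| / max (max x y) 1) (Real.exp (-M)))

/-- `R₊(x,y) = log((x+y)/max(x,y,1))` -/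
def Rp (x y : ℝ) : ℝ := Real.log ((x + y) / max (max x y) 1)

/-- `log((x+y+δ)/max(x,y,1))` -/
def RpD (δ x y : ℝ) : ℝ := Real.log ((x + y + δ) / max (max x y) 1)

/-- tails -/
def tl (μ : Measure ℝ) (u : ℝ) : ℝ := μ.real (Ioi u)

/-- the `A₃` quadratic form -/
def qf (x y z : ℝ) : ℝ := x ^ 2 + y ^ 2 + z ^ 2 - x * y - y * z

/-- weakly admissible triples (no logarithmic moment required for `b`, `c`) -/
structure WAdm (α τ : ℝ) (V : ℝ → ℝ) (a b c : Measure ℝ) : Prop where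
  suppa : a (Iio 0) = 0
  suppb : b (Iio 0) = 0
  suppc : c (Iio 0) = 0
  massa : a univ = 1 / 2
  massb : b univ = 1 / 3
  massc : c univ = 1 / 6
  constr : b ≤ sigI α τ
  noa : ∀ x, a {x} = 0
  nob : ∀ x, b {x} = 0
  noc : ∀ x, c {x} = 0
  rma : Integrable (fun z : ℝ × ℝ => Rm z.1 z.2) (a.prod a)
  rmb : Integrable (fun z : ℝ × ℝ => Rm z.1 z.2) (b.prod b)
  rmc : Integrable (fun z : ℝ × ℝ => Rm z.1 z.2) (c.prod c)
  pot : Integrable (U1 α τ V) a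
  tail : IntegrableOn (fun u => 1 / u * qf (tl a u) (tl b u) (tl c u)) (Ioi 1)

/-- `J` in coercive form -/
def JW (α τ : ℝ) (V : ℝ → ℝ) (a b c : Measure ℝ) : ℝ :=
  ∫ z : ℝ × ℝ, Rm z.1 z.2 ∂(a.prod a) + ∫ z : ℝ × ℝ, Rm z.1 z.2 ∂(b.prod b) +
  ∫ z : ℝ × ℝ, Rm z.1 z.2 ∂(c.prod c) + ∫ z : ℝ × ℝ, Rp z.1 z.2 ∂(a.prod b) +
  ∫ z : ℝ × ℝ, Rp z.1 z.2 ∂(b.prod c) +
  (∫ u in Ioi (1 : ℝ), 1 / u * qf (tl a u) (tl b u) (tl c u)) +
  ∫ x, (U1 α τ V x - 2 / 3 * Real.log (max x 1)) ∂a + ∫ x, U3 α τ x ∂c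

/-- number of indices with `x i > u` -/
def cnt {m : ℕ} (x : Fin m → ℝ) (u : ℝ) : ℕ := (Finset.univ.filter fun i => u < x i).card

/-- nice triples -/
structure Nice (α τ : ℝ) (a b c : Measure ℝ) (lo hi K η : ℝ) (ra rc θ : ℝ → ℝ) : Prop where
  lo_pos : 0 < lo
  lo_lt : lo < hi
  η_pos : 0 < η
  η_lt : η < 1
  mra : Measurable ra
  mrc : Measurable rc
  mθ : Measurable θ
  bra : ∀ x, 0 ≤ ra x ∧ ra x ≤ K
  brc : ∀ x, 0 ≤ rc x ∧ rc x ≤ K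
  bθ : ∀ x, 0 ≤ θ x ∧ θ x ≤ 1 - η
  supp : ∀ x, x ∉ Icc lo hi → ra x = 0 ∧ rc x = 0 ∧ θ x = 0
  eqa : a = volume.withDensity fun x => ENNReal.ofReal (ra x)
  eqc : c = volume.withDensity fun x => ENNReal.ofReal (rc x)
  eqb : b = (sigI α τ).withDensity fun x => ENNReal.ofReal (θ x)
  massa : a univ = 1 / 2
  massb : b univ = 1 / 3
  massc : c univ = 1 / 6

end

end Pool.Agent.MP_941b23_mp
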