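import Pool.Agent.MP_941b23_mp.Defs2

/-!
# [T2a] the function `g`
-/

namespace Pool.Agent.MP_941b23_mp

open MeasureTheory Set Filter Topology
open scoped ENNReal NNReal Real ComplexConjugate

noncomputable section

variable {α τ : ℝ}

theorem T2a_upper (b a : ℝ) (ha : a ^ 3 = |b|) (s : ℝ) :
    b * s - Wr α s ≤ a ^ 4 + α ^ 2 / 2 := by
  have h1 : b * s ≤ |b| * |s| := by
    rw [← abs_mul]; exact le_abs_self _
  have h2 : |b| * |s| ≤ |s| ^ 4 / 8 + a ^ 4 := by
    rw [← ha]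
    nlinarith [sq_nonneg (|s| ^ 2 - 2 * a ^ 2), sq_nonneg (|s| * a - 2 * a ^ 2),
      sq_nonneg (|s| ^ 2 - 2 * |s| * a), sq_nonneg (|s| * a - a ^ 2), sq_nonneg (a ^ 2),
      sq_nonneg (|s| ^ 2 - |s| * a), sq_nonneg (|s| ^ 2), sq_nonneg (|s| * a)]
  have h3 : |s| ^ 4 = s ^ 4 := by
    rw [← abs_pow]; exact abs_of_nonneg (by positivity)
  unfold Wr
  nlinarith [sq_nonneg (s ^ 2 + 2 * α)]

theorem T2a_cube (b : ℝ) (hb : 0 ≤ b) : (b ^ (1 / 3 : ℝ)) ^ 3 = b := by
  rw [← Real.rpow_natCast, ← Real.rpow_mul hb]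
  norm_num

theorem T2a_bdd (x : ℝ) : BddAbove (range fun s : ℝ => τ * x * s - Wr α s) := by
  refine ⟨(|τ * x| ^ (1 / 3 : ℝ)) ^ 4 + α ^ 2 / 2, ?_⟩
  rintro _ ⟨s, rfl⟩
  exact T2a_upper (τ * x) _ (T2a_cube _ (abs_nonneg _)) s

theorem gg_even (x : ℝ) : gg α τ (-x) = gg α τ x := by
  unfold gg
  rw [← (Equiv.neg ℝ).iSup_comp]
  congr 1
  ext s
  simp only [Equiv.neg_apply, Wr]
  ring

theorem le_gg (x s : ℝ) : τ * x * s - Wr α s ≤ gg α τ x :=
  le_ciSup (T2a_bdd x) s

theorem T2a_tendsto (b : ℝ) : Tendsto (fun s : ℝ => Wr α s - b * s) (cocompact ℝ) atTop := by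
  have h : Tendsto (fun s : ℝ => |s| - (|b| + 1) ^ 2 - (α - 1) ^ 2 - 1 : ℝ → ℝ) (cocompact ℝ) atTop := by
    have this : Tendsto (fun x : ℝ => |x|) (cocompact ℝ) atTop :=
      tendsto_norm_cocompact_atTop (E := ℝ)
    exact tendsto_atTop_add_const_right _ _ (tendsto_atTop_add_const_right _ _
      (tendsto_atTop_add_const_right _ _ this)) 
  refine tendsto_atTop_mono (fun s => ?_) h
  have h1 : b * s ≤ |b| * |s| := by
    rw [← abs_mul]; exact le_abs_self _
  have h2 : s ^ 2 = |s| ^ 2 := (sq_abs s).symm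
  have h4 : s ^ 4 = |s| ^ 4 := by
    rw [← abs_pow]; exact (abs_of_nonneg (by positivity)).symm
  unfold Wr
  rw [h2, h4]
  nlinarith [sq_nonneg (|s| ^ 2 / 2 + (α - 1) / 2), sq_nonneg (|s| - (|b| + 1)), abs_nonneg s,
    abs_nonneg b, sq_nonneg (α - 1), sq_nonneg (|s|)]

/-- uniqueness of the positive root -/
theorem T2a_rr (s : ℝ) (hτ : 0 < τ) (hs : 0 < s) (x : ℝ) (hx : 0 < x)
    (h : s ^ 3 + α * s = τ * x) : rr α τ x = s := by
  unfold rr
  have hg : IsGreatest {u : ℝ | ∃ s : ℂ, s ^ 3 + (α : ℂ) * s = (τ : ℂ) * (x : ℂ) ∧ s.re = u} s := by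
    constructor
    · refine ⟨(s : ℂ), ?_, by simp⟩
      exact_mod_cast h
    · rintro u ⟨z, hz, rfl⟩
      by_contra hlt
      push Not at hlt
      have hne : z - (s : ℂ) ≠ 0 := by
        intro h0
        have := congrArg Complex.re h0
        simp at this
        linarith
      have hs' : (s : ℂ) ^ 3 + (α : ℂ) * (s : ℂ) = (τ : ℂ) * (x : ℂ) := by exact_mod_cast h
      have hq : z ^ 2 + z * s + (s : ℂ) ^ 2 + α = 0 := by
        apply mul_left_cancel₀ hne
        rw [mul_zero]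
        linear_combination hz - hs'
      have hre := congrArg Complex.re hq
      have him := congrArg Complex.im hq
      have hzr := congrArg Complex.re hz
      simp [pow_succ] at hre him hzr
      have hpos : 0 < τ * x := mul_pos hτ hx
      have him' : z.im * (2 * z.re + s) = 0 := by linarith
      have hy : z.im = 0 := by
        rcases mul_eq_zero.1 him' with h1 | h1
        · exact h1
        · nlinarith
      rw [hy] at hre hzr
      have h1 : s ^ 2 + α > 0 := by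
        have : s * (s ^ 2 + α) > 0 := by nlinarith
        exact (pos_iff_pos_of_mul_pos this).1 hs
      nlinarith
  exact hg.csSup_eq

theorem gg_spec (hτ : 0 < τ) (x : ℝ) (hx : 0 < x) : 0 < rr α τ x ∧
    rr α τ x ^ 3 + α * rr α τ x = τ * x ∧ gg α τ x = τ * x * rr α τ x - Wr α (rr α τ x) := by
  have hcont : Continuous fun s : ℝ => Wr α s - τ * x * s := by
    unfold Wr; fun_prop
  obtain ⟨s₀, hs₀⟩ := hcont.exists_forall_le (T2a_tendsto (τ * x))
  have hpos : 0 < τ * x := mul_pos hτ hx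
  -- replace by the absolute value
  obtain ⟨s, hsn, hs⟩ : ∃ s : ℝ, 0 ≤ s ∧ ∀ t : ℝ, Wr α s - τ * x * s ≤ Wr α t - τ * x * t := by
    refine ⟨|s₀|, abs_nonneg _, fun t => ?_⟩
    have h1 : Wr α |s₀| = Wr α s₀ := by
      unfold Wr
      rw [sq_abs]
      have : |s₀| ^ 4 = s₀ ^ 4 := by
        rw [← abs_pow]; exact abs_of_nonneg (by positivity)
      rw [this]
    have h2 : s₀ ≤ |s₀| := le_abs_self _
    have h3 := hs₀ t
    rw [h1]
    nlinarith
  have hder : ∀ s : ℝ, HasDerivAt (fun s : ℝ => Wr α s - τ * x * s) (s ^ 3 + α * s - τ * x) s := by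
    intro s
    unfold Wr
    have h1 := ((((hasDerivAt_id s).pow 4).div_const 4).add
      (((hasDerivAt_id s).pow 2).const_mul (α / 2))).sub ((hasDerivAt_id s).const_mul (τ * x))
    refine HasDerivAt.congr_deriv h1 ?_
    simp
    ring
  have hcrit : s ^ 3 + α * s - τ * x = 0 := by
    have hmin : IsLocalMin (fun s : ℝ => Wr α s - τ * x * s) s :=
      Filter.Eventually.of_forall fun t => hs t
    exact hmin.hasDerivAt_eq_zero (hder s)
  have hs0 : 0 < s := by
    rcases hsn.lt_or_eq with h | h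
    · exact h
    · rw [← h] at hcrit
      simp at hcrit
      rcases hcrit with h1 | h1
      · exact absurd h1 hτ.ne'
      · exact absurd h1 hx.ne'
  have hrr : rr α τ x = s := T2a_rr s hτ hs0 x hx (by linarith)
  rw [hrr]
  refine ⟨hs0, by linarith, ?_⟩
  apply le_antisymm
  · refine ciSup_le fun t => ?_
    have := hs t
    linarith
  · exact le_gg x s

theorem gg_nonneg (x : ℝ) : 0 ≤ gg α τ x := by
  have := le_gg (α := α) (τ := τ) x 0
  simpa [Wr] using this

theorem T2a_convex : ConvexOn ℝ univ (gg α τ) := by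
  refine ⟨convex_univ, ?_⟩
  intro x _ y _ a b ha hb hab
  unfold gg
  simp only [smul_eq_mul]
  refine ciSup_le fun s => ?_
  have h1 := le_gg (α := α) (τ := τ) x s
  have h2 := le_gg (α := α) (τ := τ) y s
  unfold gg at h1 h2
  have h3 := mul_le_mul_of_nonneg_left h1 ha
  have h4 := mul_le_mul_of_nonneg_left h2 hb
  have h5 : τ * (a * x + b * y) * s - Wr α s
      = a * (τ * x * s - Wr α s) + b * (τ * y * s - Wr α s) := by
    linear_combination (Wr α s) * hab
  rw [h5]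
  linarith

theorem gg_continuous (hτ : 0 < τ) : Continuous (gg α τ) := by
  have _ := hτ
  have := (T2a_convex (α := α) (τ := τ)).continuousOn isOpen_univ
  rwa [← continuousOn_univ]

theorem gg_hasDerivAt (hτ : 0 < τ) (x : ℝ) (hx : 0 < x) :
    HasDerivAt (gg α τ) (τ * rr α τ x) x := by
  have hcont : Continuous (gg α τ) := gg_continuous hτ
  -- Lipschitz bound for the root
  have key : ∀ y : ℝ, 0 < y → |rr α τ y - rr α τ x| ≤ rr α τ x / x * |y - x| := by
    intro y hy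
    obtain ⟨h1, h2, -⟩ := gg_spec (α := α) hτ x hx
    obtain ⟨h3, h4, -⟩ := gg_spec (α := α) hτ y hy
    set s := rr α τ x
    set t := rr α τ y
    have h5 : (t - s) * (t ^ 2 + t * s + s ^ 2 + α) = τ * (y - x) := by
      linear_combination h4 - h2
    have h6 : s * (s ^ 2 + α) = τ * x := by linarith
    have h7 : s ^ 2 + α = τ * x / s := by
      field_simp; linarith
    have h8 : 0 < τ * x / s := by positivity
    have h9 : τ * x / s ≤ t ^ 2 + t * s + s ^ 2 + α := by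
      have : 0 < t * s := mul_pos h3 h1
      nlinarith [sq_nonneg t]
    have h10 : |t - s| * (t ^ 2 + t * s + s ^ 2 + α) = τ * |y - x| := by
      have := congrArg abs h5
      rw [abs_mul, abs_mul, abs_of_pos hτ, abs_of_pos (lt_of_lt_of_le h8 h9)] at this
      exact this
    have h11 : |t - s| * (τ * x / s) ≤ τ * |y - x| := by
      rw [← h10]
      exact mul_le_mul_of_nonneg_left h9 (abs_nonneg _)
    have h12 : s / x * |y - x| = (τ * |y - x|) / (τ * x / s) := by
      field_simp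
    rw [h12, le_div_iff₀ h8]
    exact h11
  rw [hasDerivAt_iff_isLittleO]
  -- |g y - g x - τ s(x) (y-x)| ≤ τ |y-x| |s(y)-s(x)| ≤ C |y-x|^2
  have hbound : ∀ᶠ y in 𝓝 x, ‖gg α τ y - gg α τ x - (y - x) • (τ * rr α τ x)‖
      ≤ (τ * (rr α τ x / x)) * ‖(y - x) ^ 2‖ := by
    filter_upwards [lt_mem_nhds hx] with y hy
    obtain ⟨h1, h2, h2'⟩ := gg_spec (α := α) hτ x hx
    obtain ⟨h3, h4, h4'⟩ := gg_spec (α := α) hτ y hy
    have h5 := le_gg (α := α) (τ := τ) y (rr α τ x)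
    have h6 := le_gg (α := α) (τ := τ) x (rr α τ y)
    have h7 := key y hy
    have hlow : 0 ≤ gg α τ y - gg α τ x - (y - x) * (τ * rr α τ x) := by
      rw [h2']; nlinarith
    have hup : gg α τ y - gg α τ x - (y - x) * (τ * rr α τ x)
        ≤ τ * ((y - x) * (rr α τ y - rr α τ x)) := by
      rw [h4']; nlinarith
    rw [smul_eq_mul, Real.norm_eq_abs, abs_of_nonneg hlow, Real.norm_eq_abs,
      abs_of_nonneg (sq_nonneg (y - x))]
    refine hup.trans ?_
    have h8 : (y - x) * (rr α τ y - rr α τ x) ≤ |y - x| * (rr α τ x / x * |y - x|) := by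
      refine (le_abs_self _).trans ?_
      rw [abs_mul]
      exact mul_le_mul_of_nonneg_left h7 (abs_nonneg _)
    calc τ * ((y - x) * (rr α τ y - rr α τ x))
        ≤ τ * (|y - x| * (rr α τ x / x * |y - x|)) := mul_le_mul_of_nonneg_left h8 hτ.le
      _ = τ * (rr α τ x / x) * (|y - x| ^ 2) := by ring
      _ = τ * (rr α τ x / x) * ((y - x) ^ 2) := by rw [sq_abs]
  have hO : (fun y => gg α τ y - gg α τ x - (y - x) • (τ * rr α τ x))
      =O[𝓝 x] fun y => (y - x) ^ 2 := Asymptotics.IsBigO.of_bound _ hbound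
  refine hO.trans_isLittleO ?_
  have h := Asymptotics.isLittleO_pow_sub_sub x (m := 2) (by norm_num)
  simpa [Real.norm_eq_abs, sq_abs] using h

theorem gg_growth (hτ : 0 < τ) : ∃ C : ℝ, 0 < C ∧ ∀ x : ℝ,
    gg α τ x ≤ C * (1 + |x|) ^ (4 / 3 : ℝ) := by
  refine ⟨τ ^ (4 / 3 : ℝ) + α ^ 2 / 2, by positivity, fun x => ?_⟩
  have h1 : gg α τ x ≤ (|τ * x| ^ (1 / 3 : ℝ)) ^ 4 + α ^ 2 / 2 :=
    ciSup_le fun s => T2a_upper (τ * x) _ (T2a_cube _ (abs_nonneg _)) s
  have h2 : (|τ * x| ^ (1 / 3 : ℝ)) ^ 4 = τ ^ (4 / 3 : ℝ) * |x| ^ (4 / 3 : ℝ) := by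
    rw [← Real.rpow_natCast, ← Real.rpow_mul (abs_nonneg _), abs_mul, abs_of_pos hτ,
      Real.mul_rpow hτ.le (abs_nonneg _)]
    norm_num
  have h3 : |x| ^ (4 / 3 : ℝ) ≤ (1 + |x|) ^ (4 / 3 : ℝ) :=
    Real.rpow_le_rpow (abs_nonneg _) (by linarith) (by norm_num)
  have h4 : (1 : ℝ) ≤ (1 + |x|) ^ (4 / 3 : ℝ) :=
    Real.one_le_rpow (by linarith [abs_nonneg x]) (by norm_num)
  have h5 : 0 < τ ^ (4 / 3 : ℝ) := by positivity
  rw [h2] at h1
  nlinarith [sq_nonneg α]

end

end Pool.Agent.MP_941b23_mp
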