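import Pool.Agent.MP_941b23_mp.Defs2

/-!
# [T1a] the cubic equation
-/

namespace Pool.Agent.MP_941b23_mp

open MeasureTheory Set Filter Topology
open scoped ENNReal NNReal Real ComplexConjugate

noncomputable section

variable {α τ : ℝ}

/-- the set of the real parts of the roots -/
def t1a_set (α τ : ℝ) (z : ℂ) : Set ℝ :=
  {u : ℝ | ∃ s : ℂ, s ^ 3 + (α : ℂ) * s = (τ : ℂ) * z ∧ s.re = u}

theorem t1a_factor (α τ : ℝ) (z : ℂ) : ∃ s₁ s₂ s₃ : ℂ, s₁ + s₂ + s₃ = 0 ∧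
    ∀ s : ℂ, s ^ 3 + (α : ℂ) * s - (τ : ℂ) * z = (s - s₁) * (s - s₂) * (s - s₃) := by
  obtain ⟨s₁, h₁⟩ : ∃ s : ℂ, s ^ 3 + (α : ℂ) * s - (τ : ℂ) * z = 0 := by
    have hdeg : (Polynomial.X ^ 3 + Polynomial.C (α : ℂ) * Polynomial.X
        - Polynomial.C ((τ : ℂ) * z)).degree = 3 := by
      compute_degree!
    obtain ⟨s, hs⟩ := IsAlgClosed.exists_root (Polynomial.X ^ 3 + Polynomial.C (α : ℂ) *
      Polynomial.X - Polynomial.C ((τ : ℂ) * z)) (by rw [hdeg]; norm_num)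
    refine ⟨s, ?_⟩
    simpa [Polynomial.IsRoot] using hs
  obtain ⟨s₂, h₂⟩ : ∃ s : ℂ, s ^ 2 + s₁ * s + (s₁ ^ 2 + (α : ℂ)) = 0 := by
    have hdeg : (Polynomial.X ^ 2 + Polynomial.C s₁ * Polynomial.X
        + Polynomial.C (s₁ ^ 2 + (α : ℂ))).degree = 2 := by
      compute_degree!
    obtain ⟨s, hs⟩ := IsAlgClosed.exists_root (Polynomial.X ^ 2 + Polynomial.C s₁ *
      Polynomial.X + Polynomial.C (s₁ ^ 2 + (α : ℂ))) (by rw [hdeg]; norm_num)
    refine ⟨s, ?_⟩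
    have := hs
    rw [Polynomial.IsRoot] at this
    simpa only [Polynomial.eval_add, Polynomial.eval_mul, Polynomial.eval_pow, Polynomial.eval_X,
      Polynomial.eval_C] using this
  refine ⟨s₁, s₂, -s₁ - s₂, by ring, ?_⟩
  intro s
  linear_combination h₁ + (s - s₁) * h₂

theorem t1a_finite (α τ : ℝ) (z : ℂ) : (t1a_set α τ z).Finite := by
  obtain ⟨s₁, s₂, s₃, -, h⟩ := t1a_factor α τ z
  refine Set.Finite.subset (Set.toFinite {s₁.re, s₂.re, s₃.re}) ?_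
  rintro u ⟨s, hs, rfl⟩
  have h1 := h s
  rw [hs, sub_self] at h1
  have h2 := h1.symm
  rcases mul_eq_zero.1 h2 with h3 | h3
  · rcases mul_eq_zero.1 h3 with h4 | h4
    · left; rw [sub_eq_zero.1 h4]
    · right; left; rw [sub_eq_zero.1 h4]
  · right; right; rw [mem_singleton_iff, sub_eq_zero.1 h3]

theorem t1a_le {z s : ℂ} (hs : s ^ 3 + (α : ℂ) * s = (τ : ℂ) * z) : s.re ≤ rr α τ z :=
  le_csSup (t1a_finite α τ z).bddAbove ⟨s, hs, rfl⟩

theorem t1a_exists (α τ : ℝ) (z : ℂ) :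
    ∃ s : ℂ, s ^ 3 + (α : ℂ) * s = (τ : ℂ) * z ∧ s.re = rr α τ z := by
  have hne : (t1a_set α τ z).Nonempty := by
    obtain ⟨s₁, s₂, s₃, -, h⟩ := t1a_factor α τ z
    refine ⟨s₁.re, s₁, ?_, rfl⟩
    have h1 := h s₁
    rw [sub_self, zero_mul, zero_mul] at h1
    exact sub_eq_zero.1 h1
  exact hne.csSup_mem (t1a_finite α τ z)

theorem rr_nonneg (z : ℂ) : 0 ≤ rr α τ z := by
  obtain ⟨s₁, s₂, s₃, h0, h⟩ := t1a_factor α τ z
  have h1 : s₁.re ≤ rr α τ z := t1a_le (sub_eq_zero.1 (by rw [h]; ring))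
  have h2 : s₂.re ≤ rr α τ z := t1a_le (sub_eq_zero.1 (by rw [h]; ring))
  have h3 : s₃.re ≤ rr α τ z := t1a_le (sub_eq_zero.1 (by rw [h]; ring))
  have h4 := congrArg Complex.re h0
  simp only [Complex.add_re, Complex.zero_re] at h4
  linarith

theorem t1a_holder (hτ : 0 < τ) (z z' : ℂ) :
    rr α τ z ≤ rr α τ z' + (τ * ‖z - z'‖) ^ (1 / 3 : ℝ) := by
  obtain ⟨s, hs, hsr⟩ := t1a_exists α τ z
  obtain ⟨s₁, s₂, s₃, -, h⟩ := t1a_factor α τ z'
  set c : ℝ := (τ * ‖z - z'‖) ^ (1 / 3 : ℝ) with hc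
  have hc0 : 0 ≤ c := by positivity
  have hc3 : c ^ 3 = τ * ‖z - z'‖ := by
    rw [hc, ← Real.rpow_natCast, ← Real.rpow_mul (by positivity)]
    norm_num
  have hprod : ‖s - s₁‖ * ‖s - s₂‖ * ‖s - s₃‖ = c ^ 3 := by
    have h1 := h s
    rw [hs] at h1
    have h2 : (τ : ℂ) * z - (τ : ℂ) * z' = (τ : ℂ) * (z - z') := by ring
    rw [h2] at h1
    have h3 := congrArg norm h1
    rw [norm_mul, norm_mul, norm_mul, Complex.norm_real, Real.norm_of_nonneg hτ.le] at h3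
    rw [← h3, hc3]
  have key : ∀ s' : ℂ, s' ^ 3 + (α : ℂ) * s' = (τ : ℂ) * z' → ‖s - s'‖ ≤ c →
      rr α τ z ≤ rr α τ z' + c := by
    intro s' hs' hle
    have h1 : s'.re ≤ rr α τ z' := t1a_le hs'
    have h2 : (s - s').re ≤ ‖s - s'‖ := Complex.re_le_norm _
    rw [Complex.sub_re] at h2
    linarith
  have hr1 : s₁ ^ 3 + (α : ℂ) * s₁ = (τ : ℂ) * z' := sub_eq_zero.1 (by rw [h]; ring)
  have hr2 : s₂ ^ 3 + (α : ℂ) * s₂ = (τ : ℂ) * z' := sub_eq_zero.1 (by rw [h]; ring)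
  have hr3 : s₃ ^ 3 + (α : ℂ) * s₃ = (τ : ℂ) * z' := sub_eq_zero.1 (by rw [h]; ring)
  by_cases h1 : ‖s - s₁‖ ≤ c
  · exact key s₁ hr1 h1
  by_cases h2 : ‖s - s₂‖ ≤ c
  · exact key s₂ hr2 h2
  by_cases h3 : ‖s - s₃‖ ≤ c
  · exact key s₃ hr3 h3
  push Not at h1 h2 h3
  exfalso
  have h4 : c * c < ‖s - s₁‖ * ‖s - s₂‖ := mul_lt_mul'' h1 h2 hc0 hc0
  have h5 : c * c * c < ‖s - s₁‖ * ‖s - s₂‖ * ‖s - s₃‖ := mul_lt_mul'' h4 h3 (by positivity) hc0
  rw [hprod] at h5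
  nlinarith

/-- Hölder continuity of the largest real part of the roots -/
theorem rr_holder (hτ : 0 < τ) (z z' : ℂ) :
    |rr α τ z - rr α τ z'| ≤ (τ * ‖z - z'‖) ^ (1 / 3 : ℝ) := by
  rw [abs_le]
  have h1 := t1a_holder (α := α) hτ z z'
  have h2 := t1a_holder (α := α) hτ z' z
  rw [norm_sub_rev z' z] at h2
  constructor <;> linarith

theorem rr_bound (hτ : 0 < τ) : ∃ C : ℝ, 0 < C ∧ ∀ z : ℂ,
    rr α τ z ≤ C * (1 + ‖z‖) ^ (1 / 3 : ℝ) := by
  refine ⟨rr α τ 0 + τ ^ (1 / 3 : ℝ), ?_, ?_⟩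
  · have := rr_nonneg (α := α) (τ := τ) 0
    positivity
  · intro z
    have h1 := t1a_holder (α := α) hτ z 0
    rw [sub_zero, Real.mul_rpow hτ.le (norm_nonneg z)] at h1
    have h2 : (1 : ℝ) ≤ (1 + ‖z‖) ^ (1 / 3 : ℝ) :=
      Real.one_le_rpow (by linarith [norm_nonneg z]) (by norm_num)
    have h3 : ‖z‖ ^ (1 / 3 : ℝ) ≤ (1 + ‖z‖) ^ (1 / 3 : ℝ) :=
      Real.rpow_le_rpow (norm_nonneg z) (by linarith) (by norm_num)
    have h4 := rr_nonneg (α := α) (τ := τ) 0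
    have h5 : 0 ≤ τ ^ (1 / 3 : ℝ) := by positivity
    calc rr α τ z ≤ rr α τ 0 + τ ^ (1 / 3 : ℝ) * ‖z‖ ^ (1 / 3 : ℝ) := h1
      _ ≤ rr α τ 0 * (1 + ‖z‖) ^ (1 / 3 : ℝ) + τ ^ (1 / 3 : ℝ) * (1 + ‖z‖) ^ (1 / 3 : ℝ) := by
          refine add_le_add ?_ (mul_le_mul_of_nonneg_left h3 h5)
          exact le_mul_of_one_le_right h4 h2
      _ = _ := by ring

theorem rr_neg (η : ℝ) : rr α τ ((-η : ℝ) * Complex.I) = rr α τ (η * Complex.I) := by
  have key : ∀ η : ℝ, rr α τ ((-η : ℝ) * Complex.I) ≤ rr α τ (η * Complex.I) := by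
    intro η
    obtain ⟨s, hs, hsr⟩ := t1a_exists α τ ((-η : ℝ) * Complex.I)
    have h1 : (conj s) ^ 3 + (α : ℂ) * conj s = (τ : ℂ) * (η * Complex.I) := by
      have h2 := congrArg conj hs
      simp only [map_add, map_mul, map_pow, Complex.conj_ofReal, Complex.conj_I] at h2
      rw [h2]
      push_cast
      ring
    have h2 := t1a_le h1
    rw [Complex.conj_re, hsr] at h2
    exact h2
  refine le_antisymm (key η) ?_
  have h1 := key (-η)
  rwa [neg_neg] at h1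

/-- roots on the imaginary axis -/
theorem t1a_imag (hτ : 0 < τ) {η y₀ : ℝ} (hη : 0 ≤ η) (hy : 0 ≤ y₀) (h3 : α ≤ 3 * y₀ ^ 2)
    (hle : 8 * y₀ ^ 3 - 2 * α * y₀ ≤ τ * η) : √(3 * y₀ ^ 2 - α) ≤ rr α τ (η * Complex.I) := by
  have hη' : 0 ≤ τ * η := by positivity
  set d : ℝ := 1 + τ * η with hd
  have hd1 : 1 ≤ d := by linarith
  have hcont : Continuous (fun y : ℝ => 8 * y ^ 3 - 2 * α * y) := by fun_prop
  have hup : τ * η ≤ 8 * (y₀ + d) ^ 3 - 2 * α * (y₀ + d) := by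
    have h1 : 8 * (y₀ + d) ^ 3 - 2 * α * (y₀ + d) =
        2 * (y₀ + d) * (4 * (y₀ + d) ^ 2 - α) := by ring
    have h2 : d ^ 2 ≤ 4 * (y₀ + d) ^ 2 - α := by nlinarith
    have h4 : d ≤ y₀ + d := by linarith
    have h5 : d * d ^ 2 ≤ (y₀ + d) * (4 * (y₀ + d) ^ 2 - α) := by
      refine mul_le_mul h4 h2 (by positivity) (by linarith)
    have h6 : d ≤ d * d ^ 2 := by nlinarith [pow_le_pow_left₀ zero_le_one hd1 2]
    rw [h1]
    nlinarith
  obtain ⟨Y, hY, hYe⟩ := intermediate_value_Icc (by linarith : y₀ ≤ y₀ + d) hcont.continuousOn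
    (show τ * η ∈ Icc (8 * y₀ ^ 3 - 2 * α * y₀) (8 * (y₀ + d) ^ 3 - 2 * α * (y₀ + d)) from
      ⟨hle, hup⟩)
  simp only at hYe
  have hYy : y₀ ^ 2 ≤ Y ^ 2 := pow_le_pow_left₀ hy hY.1 2
  have hX0 : 0 ≤ 3 * Y ^ 2 - α := by linarith
  set X : ℝ := √(3 * Y ^ 2 - α) with hX
  have hX2 : X ^ 2 = 3 * Y ^ 2 - α := Real.sq_sqrt hX0
  have hroot : ((⟨X, Y⟩ : ℂ)) ^ 3 + (α : ℂ) * ⟨X, Y⟩ = (τ : ℂ) * (η * Complex.I) := by
    apply Complex.ext
    · simp [pow_succ, Complex.mul_re, Complex.mul_im]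
      linear_combination X * hX2
    · simp [pow_succ, Complex.mul_re, Complex.mul_im]
      linear_combination (3 * Y) * hX2 + hYe
  have h1 := t1a_le hroot
  simp only at h1
  refine le_trans ?_ h1
  exact Real.sqrt_le_sqrt (by linarith)

theorem rr_mono (hτ : 0 < τ) : MonotoneOn (fun η : ℝ => rr α τ (η * Complex.I)) (Ici 0) := by
  intro η hη η' hη' hle
  simp only
  rw [mem_Ici] at hη hη'
  obtain ⟨s, hs, hsr⟩ := t1a_exists α τ (η * Complex.I)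
  rcases (rr_nonneg (α := α) (τ := τ) (η * Complex.I)).eq_or_lt with h0 | h0
  · rw [← h0]; exact rr_nonneg _
  · rw [← hsr] at h0 ⊢
    have hre := congrArg Complex.re hs
    have him := congrArg Complex.im hs
    simp [pow_succ, Complex.mul_re, Complex.mul_im] at hre him
    set x : ℝ := s.re with hx
    set y : ℝ := s.im with hy
    have hx2 : x ^ 2 = 3 * y ^ 2 - α := by
      have h1 : x * (x ^ 2 - (3 * y ^ 2 - α)) = 0 := by linear_combination hre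
      rcases mul_eq_zero.1 h1 with h2 | h2
      · exact absurd h2 h0.ne'
      · linarith
    have hye : 8 * y ^ 3 - 2 * α * y = τ * η := by
      linear_combination him - (3 * y) * hx2
    have hx2' : 0 < x ^ 2 := by positivity
    have h4 : 0 < 4 * y ^ 2 - α := by nlinarith [sq_nonneg y]
    have hy0 : 0 ≤ y := by
      by_contra hneg
      push Not at hneg
      have h5 : 2 * y * (4 * y ^ 2 - α) < 0 := mul_neg_of_neg_of_pos (by linarith) h4
      have h6 : 0 ≤ τ * η := by positivity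
      nlinarith
    have h7 := t1a_imag (α := α) hτ hη' hy0 (by linarith) (by
      rw [hye]; exact mul_le_mul_of_nonneg_left hle hτ.le)
    rw [← hx2, Real.sqrt_sq h0.le] at h7
    exact h7

theorem rr_lower (hτ : 0 < τ) : ∃ c η₀ : ℝ, 0 < c ∧ 0 < η₀ ∧ ∀ η : ℝ, η₀ ≤ η →
    c * η ^ (1 / 3 : ℝ) ≤ rr α τ (η * Complex.I) := by
  set c : ℝ := min 1 (τ / 16) with hc
  have hc0 : 0 < c := lt_min one_pos (by positivity)
  have hc1 : c ≤ 1 := min_le_left _ _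
  have hcτ : c ≤ τ / 16 := min_le_right _ _
  set y₁ : ℝ := 1 + 4 * |α| / τ + |α| / (2 * c ^ 2) with hy₁
  have hA : 0 ≤ 4 * |α| / τ := by positivity
  have hB : 0 ≤ |α| / (2 * c ^ 2) := by positivity
  have hy₁1 : 1 ≤ y₁ := by linarith
  refine ⟨c, y₁ ^ 3, hc0, by positivity, ?_⟩
  intro η hη
  have hη0 : 0 ≤ η := le_trans (by positivity) hη
  set y : ℝ := η ^ (1 / 3 : ℝ) with hy
  have hy3 : y ^ 3 = η := by
    rw [hy, ← Real.rpow_natCast, ← Real.rpow_mul hη0]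
    norm_num
  have hy0 : 0 ≤ y := by positivity
  have hyy : y₁ ≤ y := by
    have h1 : y₁ ^ 3 ≤ y ^ 3 := by rw [hy3]; exact hη
    exact le_of_pow_le_pow_left₀ (by norm_num) hy0 h1
  have hy1 : 1 ≤ y := hy₁1.trans hyy
  have hyA : 4 * |α| ≤ τ * y := by
    have h1 : 4 * |α| / τ ≤ y := by linarith
    rw [div_le_iff₀ hτ] at h1
    linarith
  have hyB : |α| ≤ 2 * c ^ 2 * y := by
    have h1 : |α| / (2 * c ^ 2) ≤ y := by linarith
    rw [div_le_iff₀ (by positivity)] at h1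
    linarith
  have hy2 : y ≤ y ^ 2 := by nlinarith
  have hc2 : 0 < c ^ 2 := by positivity
  have hα := neg_abs_le α
  have hα' := le_abs_self α
  have h3 : α ≤ 2 * (c * y) ^ 2 := by
    have h1 : 2 * c ^ 2 * y ≤ 2 * c ^ 2 * y ^ 2 := mul_le_mul_of_nonneg_left hy2 (by positivity)
    nlinarith
  have hle : 8 * (c * y) ^ 3 - 2 * α * (c * y) ≤ τ * η := by
    rw [← hy3]
    have hc3 : 8 * c ^ 3 ≤ τ / 2 := by
      have h1 : c ^ 3 ≤ c := by nlinarith [mul_le_mul hc1 hc1 hc0.le zero_le_one]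
      linarith
    have h1 : 8 * (c * y) ^ 3 ≤ τ / 2 * y ^ 3 := by
      have h2 : 8 * (c * y) ^ 3 = 8 * c ^ 3 * y ^ 3 := by ring
      rw [h2]
      exact mul_le_mul_of_nonneg_right hc3 (by positivity)
    have h2 : -2 * α * (c * y) ≤ τ / 2 * y ^ 3 := by
      have h4 : -2 * α * (c * y) ≤ 2 * |α| * y := by
        have h5 : -2 * α * (c * y) ≤ 2 * |α| * (c * y) :=
          mul_le_mul_of_nonneg_right (by linarith) (by positivity)
        have h6 : c * y ≤ y := mul_le_of_le_one_left hy0 hc1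
        have h7 : 2 * |α| * (c * y) ≤ 2 * |α| * y :=
          mul_le_mul_of_nonneg_left h6 (by positivity)
        linarith
      have h5 : 2 * |α| * y ≤ τ / 2 * y * y := by nlinarith
      have h6 : τ / 2 * y * y ≤ τ / 2 * y ^ 3 := by
        have h7 : y * y ≤ y ^ 3 := by nlinarith [mul_nonneg hy0 hy0]
        have h8 : τ / 2 * y * y = τ / 2 * (y * y) := by ring
        rw [h8]
        exact mul_le_mul_of_nonneg_left h7 (by positivity)
      linarith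
    linarith
  have h8 := t1a_imag (α := α) hτ hη0 (by positivity : 0 ≤ c * y)
    (by nlinarith [sq_nonneg (c * y)]) hle
  refine le_trans ?_ h8
  refine Real.le_sqrt_of_sq_le ?_
  linarith

end

end Pool.Agent.MP_941b23_mp
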