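import Pool.Agent.MP_941b23_mp.Defs2
import Pool.Agent.MP_941b23_mp.T1a

/-!
# [T1b] the root with positive real part
-/

namespace Pool.Agent.MP_941b23_mp

open MeasureTheory Set Filter Topology
open scoped ENNReal NNReal Real ComplexConjugate

noncomputable section

variable {α τ : ℝ}

theorem t1b_re {z s : ℂ} (hs : s ^ 3 + (α : ℂ) * s = (τ : ℂ) * z) :
    s.re * (s.re ^ 2 - 3 * s.im ^ 2 + α) = τ * z.re := by
  have hre := congrArg Complex.re hs
  simp [pow_succ, Complex.mul_re, Complex.mul_im] at hre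
  linear_combination hre

theorem t1b_pos (hτ : 0 < τ) {z s : ℂ} (hz : 0 < z.re) (hs : s ^ 3 + (α : ℂ) * s = (τ : ℂ) * z)
    (hsr : 0 < s.re) : 0 < s.re ^ 2 - 3 * s.im ^ 2 + α := by
  have h1 := t1b_re hs
  have h2 : 0 < τ * z.re := by positivity
  rw [← h1] at h2
  exact (mul_pos_iff_of_pos_left hsr).1 h2

theorem t1b_ne (hτ : 0 < τ) {z s : ℂ} (hz : 0 < z.re) (hs : s ^ 3 + (α : ℂ) * s = (τ : ℂ) * z) :
    s.re ≠ 0 := by
  intro h
  have h1 := t1b_re hs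
  rw [h, zero_mul] at h1
  have h2 : 0 < τ * z.re := by positivity
  linarith

theorem t1b_unique (hτ : 0 < τ) {z s s' : ℂ} (hz : 0 < z.re)
    (hs : s ^ 3 + (α : ℂ) * s = (τ : ℂ) * z) (hs' : s' ^ 3 + (α : ℂ) * s' = (τ : ℂ) * z)
    (hsr : 0 < s.re) (hsr' : 0 < s'.re) : s = s' := by
  by_contra hne
  have h1 : (s - s') * (s ^ 2 + s * s' + s' ^ 2 + (α : ℂ)) = 0 := by
    linear_combination hs - hs'
  rcases mul_eq_zero.1 h1 with h2 | h2
  · exact hne (sub_eq_zero.1 h2)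
  · have hre := congrArg Complex.re h2
    simp [pow_succ, Complex.mul_re, Complex.mul_im] at hre
    have h3 := t1b_pos hτ hz hs hsr
    have h4 := t1b_pos hτ hz hs' hsr'
    nlinarith [sq_nonneg (s.re + s'.re), sq_nonneg (s.im - s'.im)]

theorem t1b_rr_pos (hτ : 0 < τ) {z : ℂ} (hz : 0 < z.re) : 0 < rr α τ z := by
  obtain ⟨s, hs, hsr⟩ := t1a_exists α τ z
  rcases (rr_nonneg (α := α) (τ := τ) z).eq_or_lt with h | h
  · exfalso
    exact t1b_ne hτ hz hs (by rw [hsr, ← h])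
  · exact h

/-- the root with the largest real part -/
def t1b_S (α τ : ℝ) (z : ℂ) : ℂ := (t1a_exists α τ z).choose

theorem t1b_S_root (z : ℂ) : t1b_S α τ z ^ 3 + (α : ℂ) * t1b_S α τ z = (τ : ℂ) * z :=
  (t1a_exists α τ z).choose_spec.1

theorem t1b_S_re (z : ℂ) : (t1b_S α τ z).re = rr α τ z :=
  (t1a_exists α τ z).choose_spec.2

theorem t1b_S_bound (hτ : 0 < τ) (z : ℂ) :
    ‖t1b_S α τ z‖ ≤ (1 + |α| + τ) * (1 + ‖z‖) ^ (1 / 3 : ℝ) := by
  set s := t1b_S α τ z with hs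
  set M : ℝ := (1 + ‖z‖) ^ (1 / 3 : ℝ) with hM
  set K : ℝ := 1 + |α| + τ with hK
  have hz0 := norm_nonneg z
  have hα0 := abs_nonneg α
  have hM1 : 1 ≤ M := Real.one_le_rpow (by linarith) (by norm_num)
  have hM3 : M ^ 3 = 1 + ‖z‖ := by
    rw [hM, ← Real.rpow_natCast, ← Real.rpow_mul (by positivity)]
    norm_num
  have hK1 : 1 ≤ K := by linarith
  have h1 : ‖s‖ ^ 3 ≤ |α| * ‖s‖ + τ * ‖z‖ := by
    have h2 : s ^ 3 = (τ : ℂ) * z - (α : ℂ) * s := by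
      rw [← t1b_S_root (α := α) (τ := τ) z]; ring
    calc ‖s‖ ^ 3 = ‖s ^ 3‖ := (norm_pow _ _).symm
      _ = ‖(τ : ℂ) * z - (α : ℂ) * s‖ := by rw [h2]
      _ ≤ ‖(τ : ℂ) * z‖ + ‖(α : ℂ) * s‖ := norm_sub_le _ _
      _ = |α| * ‖s‖ + τ * ‖z‖ := by
        rw [norm_mul, norm_mul, Complex.norm_real, Complex.norm_real, Real.norm_of_nonneg hτ.le,
          Real.norm_eq_abs]
        ring
  by_contra hcon
  push Not at hcon
  have hKM : 1 ≤ K * M := by nlinarith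
  have hs0 : 0 < ‖s‖ := by linarith
  have h2 : K * M * (K * M) < ‖s‖ * ‖s‖ := mul_lt_mul'' hcon hcon (by positivity) (by positivity)
  have h3 : ‖s‖ * (K * M * (K * M)) < ‖s‖ ^ 3 := by nlinarith
  have h4 : |α| * ‖s‖ + τ * M ^ 3 ≤ ‖s‖ * (K * M * (K * M)) := by
    have hM2 : 1 ≤ M ^ 2 := by nlinarith
    have h5 : |α| + τ * M ^ 2 ≤ K * M ^ 2 := by
      have := mul_nonneg hα0 (by linarith : 0 ≤ M ^ 2 - 1)
      rw [hK]
      nlinarith
    have h6 : K * M ^ 2 ≤ K * M * (K * M) := by nlinarith [sq_nonneg M, mul_pos (by linarith : 0 < K) (by positivity : 0 < M ^ 2)]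
    have h7 : ‖s‖ * (|α| + τ * M ^ 2) ≤ ‖s‖ * (K * M * (K * M)) :=
      mul_le_mul_of_nonneg_left (h5.trans h6) hs0.le
    have h8 : M ≤ ‖s‖ := by nlinarith
    have h9 : τ * M ^ 2 * M ≤ τ * M ^ 2 * ‖s‖ := mul_le_mul_of_nonneg_left h8 (by positivity)
    nlinarith
  have h10 : τ * ‖z‖ ≤ τ * M ^ 3 := by
    rw [hM3]
    exact mul_le_mul_of_nonneg_left (by linarith) hτ.le
  linarith

theorem t1b_S_diff (hτ : 0 < τ) {z₀ : ℂ} (hz : 0 < z₀.re) :
    DifferentiableAt ℂ (t1b_S α τ) z₀ := by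
  set S₀ := t1b_S α τ z₀ with hS₀
  have hτ' : (τ : ℂ) ≠ 0 := by exact_mod_cast hτ.ne'
  have hpos : 0 < S₀.re := by rw [hS₀, t1b_S_re]; exact t1b_rr_pos hτ hz
  have hroot : S₀ ^ 3 + (α : ℂ) * S₀ = (τ : ℂ) * z₀ := t1b_S_root z₀
  set φ : ℂ → ℂ := fun s => (s ^ 3 + (α : ℂ) * s) / (τ : ℂ) with hφ
  set φ' : ℂ := (3 * S₀ ^ 2 + (α : ℂ)) / (τ : ℂ) with hφ'
  have hder : HasStrictDerivAt φ φ' S₀ := by
    have h1 : HasStrictDerivAt (fun s : ℂ => s ^ 3 + (α : ℂ) * s) (3 * S₀ ^ 2 + (α : ℂ)) S₀ := by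
      have h2 : HasStrictDerivAt (fun s : ℂ => s ^ 3 + (α : ℂ) * s)
          (((3 : ℕ) : ℂ) * S₀ ^ (3 - 1) + (α : ℂ) * 1) S₀ :=
        (hasStrictDerivAt_pow 3 S₀).add ((hasStrictDerivAt_id S₀).const_mul (α : ℂ))
      convert h2 using 1
      norm_num
    exact h1.div_const _
  have hne : φ' ≠ 0 := by
    rw [hφ', div_ne_zero_iff]
    refine ⟨?_, hτ'⟩
    intro h0
    have hre := congrArg Complex.re h0
    simp [pow_succ, Complex.mul_re, Complex.mul_im] at hre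
    have h3 := t1b_pos hτ hz hroot hpos
    nlinarith [sq_nonneg S₀.re, mul_pos hpos hpos]
  have hval : φ S₀ = z₀ := by
    rw [hφ]
    simp only
    rw [hroot, mul_div_cancel_left₀ _ hτ']
  have hinv := hder.to_localInverse hne
  have hright := (hder.hasStrictFDerivAt_equiv hne).eventually_right_inverse
  set g := hder.localInverse φ φ' S₀ hne with hg
  rw [hval] at hinv
  have hg0 : g z₀ = S₀ := by
    have h1 := (hder.hasStrictFDerivAt_equiv hne).localInverse_apply_image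
    rw [hval] at h1
    exact h1
  have hcont : ContinuousAt g z₀ := hinv.hasDerivAt.continuousAt
  have hev1 : ∀ᶠ z in 𝓝 z₀, 0 < (g z).re := by
    have h1 : ContinuousAt (fun z => (g z).re) z₀ := Complex.continuous_re.continuousAt.comp hcont
    refine h1.eventually (lt_mem_nhds ?_)
    simp only [hg0]; exact hpos
  have hev2 : ∀ᶠ z in 𝓝 z₀, φ (g z) = z := by
    rw [hval] at hright
    exact hright
  have hev3 : ∀ᶠ z : ℂ in 𝓝 z₀, 0 < z.re :=
    Complex.continuous_re.continuousAt.eventually (lt_mem_nhds hz)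
  have heq : t1b_S α τ =ᶠ[𝓝 z₀] g := by
    filter_upwards [hev1, hev2, hev3] with z h1 h2 h3
    refine t1b_unique hτ h3 (t1b_S_root z) ?_ (by rw [t1b_S_re]; exact t1b_rr_pos hτ h3) h1
    rw [hφ] at h2
    simp only at h2
    rw [div_eq_iff hτ'] at h2
    rw [h2, mul_comm]
  exact hinv.hasDerivAt.differentiableAt.congr_of_eventuallyEq heq

/-- the root with positive real part, for `Re z > 0` -/
theorem exists_root_fun (hτ : 0 < τ) : ∃ S : ℂ → ℂ, DifferentiableOn ℂ S {z | 0 < z.re} ∧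
    (∃ C : ℝ, ∀ z, 0 < z.re → ‖S z‖ ≤ C * (1 + ‖z‖) ^ (1 / 3 : ℝ)) ∧
    ∀ z, 0 < z.re → S z ^ 3 + (α : ℂ) * S z = (τ : ℂ) * z ∧ 0 < (S z).re ∧
      (S z).re = rr α τ z ∧ S (conj z) = conj (S z) ∧
      ∀ s : ℂ, s ^ 3 + (α : ℂ) * s = (τ : ℂ) * z → 0 < s.re → s = S z := by
  refine ⟨t1b_S α τ, fun z hz => (t1b_S_diff hτ hz).differentiableWithinAt,
    ⟨1 + |α| + τ, fun z _ => t1b_S_bound hτ z⟩, ?_⟩
  intro z hz
  have hpos : ∀ w : ℂ, 0 < w.re → 0 < (t1b_S α τ w).re := fun w hw => by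
    rw [t1b_S_re]; exact t1b_rr_pos hτ hw
  refine ⟨t1b_S_root z, hpos z hz, t1b_S_re z, ?_, ?_⟩
  · have hz' : 0 < (conj z).re := by rwa [Complex.conj_re]
    refine t1b_unique hτ hz' (t1b_S_root _) ?_ (hpos _ hz') (by
      rw [Complex.conj_re]; exact hpos z hz)
    have h2 := congrArg conj (t1b_S_root (α := α) (τ := τ) z)
    simp only [map_add, map_mul, map_pow, Complex.conj_ofReal] at h2
    exact h2
  · intro s hs hsr
    exact t1b_unique hτ hz hs (t1b_S_root z) hsr (hpos z hz)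

end

end Pool.Agent.MP_941b23_mp
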