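import Pool.Agent.MP_941b23_mp.Defs2
import Pool.Agent.MP_941b23_mp.S6
import Pool.Agent.MP_941b23_mp.T1a
import Pool.Agent.MP_941b23_mp.T1b
import Pool.Agent.MP_941b23_mp.T2a

/-!
# Row [QM-T2b]: the function `g` and the potential of `σ_∞`
-/

namespace Pool.Agent.MP_941b23_mp

open MeasureTheory Set Filter Topology
open scoped ENNReal NNReal Real ComplexConjugate

noncomputable section

variable {α τ : ℝ}

theorem T2b_cont (hτ : 0 < τ) : Continuous (rr α τ) := by
  rw [continuous_iff_continuousAt]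
  intro z
  rw [ContinuousAt, tendsto_iff_dist_tendsto_zero]
  have h1 : Tendsto (fun z' : ℂ => (τ * ‖z' - z‖) ^ (1 / 3 : ℝ)) (𝓝 z) (𝓝 0) := by
    have h2 : Continuous (fun z' : ℂ => (τ * ‖z' - z‖) ^ (1 / 3 : ℝ)) := by
      refine Continuous.rpow_const ?_ (fun _ => Or.inr (by norm_num))
      exact continuous_const.mul (continuous_id.sub continuous_const).norm
    have h3 := h2.tendsto z
    rw [sub_self, norm_zero, mul_zero, Real.zero_rpow (by norm_num)] at h3
    exact h3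
  refine squeeze_zero (fun _ => dist_nonneg) (fun z' => ?_) h1
  rw [Real.dist_eq]
  exact rr_holder hτ z' z

theorem T2b_contI (hτ : 0 < τ) : Continuous (fun η : ℝ => rr α τ (η * Complex.I)) :=
  (T2b_cont hτ).comp (Complex.continuous_ofReal.mul continuous_const)

theorem T2b_rep (hτ : 0 < τ) (x : ℝ) (hx : 0 < x) :
    IntegrableOn (fun η : ℝ => rr α τ (η * Complex.I) / (η ^ 2 + x ^ 2)) (Ioi 0) ∧
    rr α τ x = x * (2 / π * ∫ η in Ioi (0 : ℝ), rr α τ (η * Complex.I) / (η ^ 2 + x ^ 2)) := by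
  obtain ⟨S, hS, ⟨C, hC⟩, hroot⟩ := exists_root_fun (α := α) hτ
  have hr : ∀ η : ℝ, Tendsto (fun δ : ℝ => (S (δ + η * Complex.I)).re) (𝓝[>] 0)
      (𝓝 (rr α τ (η * Complex.I))) := by
    intro η
    have h1 : Tendsto (fun δ : ℝ => rr α τ (δ + η * Complex.I)) (𝓝[>] 0)
        (𝓝 (rr α τ (η * Complex.I))) := by
      have h2 : Continuous (fun δ : ℝ => rr α τ (δ + η * Complex.I)) :=
        (T2b_cont hτ).comp (Complex.continuous_ofReal.add continuous_const)
      have h3 := h2.tendsto 0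
      rw [Complex.ofReal_zero, zero_add] at h3
      exact h3.mono_left nhdsWithin_le_nhds
    refine h1.congr' ?_
    filter_upwards [self_mem_nhdsWithin] with δ hδ
    have hδ' : 0 < ((δ : ℂ) + η * Complex.I).re := by simpa using hδ
    exact ((hroot _ hδ').2.2.1).symm
  obtain ⟨h1, h2, -⟩ := halfplane_rep S hS (fun w hw => (hroot w hw).2.2.2.1) C (1 / 3)
    (by norm_num) (by norm_num) hC (fun η => rr α τ (η * Complex.I)) hr x hx
  refine ⟨h1, ?_⟩
  rw [← h2, ((hroot (x : ℂ) (by simpa using hx)).2.2.1)]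

theorem rr_rep (hτ : 0 < τ) (x : ℝ) (hx : 0 < x) :
    rr α τ x = x * (2 / π * ∫ η in Ioi (0 : ℝ), rr α τ (η * Complex.I) / (η ^ 2 + x ^ 2)) :=
  (T2b_rep hτ x hx).2

/-- integrals against `σ_∞` in the variable `y` -/
theorem T2b_lint (hτ : 0 < τ) (F : ℝ → ℝ≥0∞) (hF : Measurable F) :
    ∫⁻ t, F t ∂(sigI α τ) =
      ∫⁻ y in Ioi (0 : ℝ), ENNReal.ofReal (τ / π * rr α τ (y * Complex.I)) * F (y ^ 2) := by
  have hd : Measurable (fun y : ℝ => ENNReal.ofReal (τ / π * rr α τ (y * Complex.I))) :=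
    (measurable_const.mul (T2b_contI hτ).measurable).ennreal_ofReal
  have hF2 : Measurable (fun y : ℝ => F (y ^ 2)) := hF.comp (measurable_id.pow_const 2)
  have hsq : Measurable (fun y : ℝ => y ^ 2) := measurable_id.pow_const 2
  rw [sigI, lintegral_smul_measure, lintegral_map hF hsq, sigma2,
    lintegral_withDensity_eq_lintegral_mul _ hd hF2]
  set H : ℝ → ℝ≥0∞ := (fun y : ℝ => ENNReal.ofReal (τ / π * rr α τ (y * Complex.I))) *
    (fun y : ℝ => F (y ^ 2)) with hH
  have hHneg : ∀ y, H (-y) = H y := by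
    intro y
    simp only [hH, Pi.mul_apply, neg_sq]
    rw [rr_neg]
  have hneg : ∫⁻ y in Iio (0 : ℝ), H y = ∫⁻ y in Ioi (0 : ℝ), H y := by
    have h1 := (Measure.measurePreserving_neg (volume : Measure ℝ)).setLIntegral_comp_preimage_emb
      (MeasurableEquiv.neg ℝ).measurableEmbedding H (Ioi (0 : ℝ))
    have h2 : (fun x : ℝ => -x) ⁻¹' (Ioi (0 : ℝ)) = Iio 0 := by
      ext x; simp
    have h3 : ((Neg.neg : ℝ → ℝ) ⁻¹' (Ioi (0 : ℝ))) = Iio 0 := h2
    rw [← h1, h3]
    exact lintegral_congr fun y => (hHneg y).symm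
  have hsplit : ∫⁻ y, H y = 2 * ∫⁻ y in Ioi (0 : ℝ), H y := by
    rw [← lintegral_add_compl H measurableSet_Ioi (μ := volume) (A := Ioi (0 : ℝ)), compl_Ioi,
      ← restrict_Iio_eq_restrict_Iic, hneg, two_mul]
  rw [hsplit, smul_eq_mul, ← mul_assoc]
  have h4 : (1 / 2 : ℝ≥0∞) * 2 = 1 := by
    rw [one_div]
    exact ENNReal.inv_mul_cancel (by norm_num) (by norm_num)
  rw [h4, one_mul]
  rfl

theorem T2b_lint' (hτ : 0 < τ) (F : ℝ → ℝ≥0∞) (hF : Measurable F) :
    ∫⁻ t, F t ∂((volume.restrict (Ioi (0 : ℝ))).withDensity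
      fun t => ENNReal.ofReal (dI α τ t)) =
      ∫⁻ y in Ioi (0 : ℝ), ENNReal.ofReal (τ / π * rr α τ (y * Complex.I)) * F (y ^ 2) := by
  have hdI : Measurable (fun t : ℝ => ENNReal.ofReal (dI α τ t)) := by
    unfold dI
    refine Measurable.ennreal_ofReal ?_
    refine (measurable_const.mul ?_).div (measurable_const.mul Real.continuous_sqrt.measurable)
    exact (T2b_contI hτ).measurable.comp Real.continuous_sqrt.measurable
  rw [lintegral_withDensity_eq_lintegral_mul _ hdI hF]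
  have himg : (fun y : ℝ => y ^ 2) '' (Ioi 0) = Ioi 0 := by
    ext t
    constructor
    · rintro ⟨y, hy, rfl⟩
      exact pow_pos (mem_Ioi.1 hy) 2
    · intro ht
      exact ⟨√t, Real.sqrt_pos.2 ht, Real.sq_sqrt (le_of_lt ht)⟩
  have hchange := lintegral_image_eq_lintegral_abs_deriv_mul (s := Ioi (0 : ℝ))
    (f := fun y : ℝ => y ^ 2) (f' := fun y => 2 * y) measurableSet_Ioi
    (fun y _ => by simpa using (hasDerivAt_pow 2 y).hasDerivWithinAt)
    (fun a ha b hb hab => by
      have ha' : 0 < a := ha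
      have hb' : 0 < b := hb
      exact (pow_left_inj₀ ha'.le hb'.le (by norm_num)).1 hab)
    ((fun t => ENNReal.ofReal (dI α τ t)) * F)
  rw [himg] at hchange
  rw [hchange]
  refine setLIntegral_congr_fun measurableSet_Ioi fun y hy => ?_
  have hy' : 0 < y := hy
  simp only [Pi.mul_apply]
  rw [← mul_assoc, ← ENNReal.ofReal_mul (abs_nonneg _)]
  congr 2
  rw [dI, Real.sqrt_sq hy'.le, abs_of_pos (by linarith)]
  field_simp

theorem sigI_eq (hτ : 0 < τ) : sigI α τ =
    (volume.restrict (Ioi (0 : ℝ))).withDensity fun t => ENNReal.ofReal (dI α τ t) := by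
  refine Measure.ext_of_lintegral _ fun F hF => ?_
  rw [T2b_lint hτ F hF, T2b_lint' hτ F hF]

theorem T2b_ae_pos (hτ : 0 < τ) : ∀ᵐ t ∂(sigI α τ), 0 < t := by
  rw [sigI_eq hτ]
  exact (withDensity_absolutelyContinuous _ _).ae_le (ae_restrict_mem measurableSet_Ioi)

theorem T2b_inner (x η : ℝ) (hx : 0 < x) (hη : 0 < η) :
    ∫⁻ u in Ioc 0 x, ENNReal.ofReal (2 * u / (η ^ 2 + u ^ 2)) =
      ENNReal.ofReal (Real.log (1 + x ^ 2 / η ^ 2)) := by
  have hpos : ∀ u : ℝ, 0 < η ^ 2 + u ^ 2 := fun u => by positivity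
  have hcont : Continuous (fun u : ℝ => 2 * u / (η ^ 2 + u ^ 2)) :=
    (continuous_const.mul continuous_id).div (continuous_const.add (continuous_pow 2))
      fun u => (hpos u).ne'
  have hderiv : ∀ u : ℝ, HasDerivAt (fun u => Real.log (η ^ 2 + u ^ 2))
      (2 * u / (η ^ 2 + u ^ 2)) u := by
    intro u
    have h1 : HasDerivAt (fun u : ℝ => η ^ 2 + u ^ 2) (2 * u) u := by
      simpa using (hasDerivAt_pow 2 u).const_add (η ^ 2)
    exact h1.log (hpos u).ne'
  have h2 : ∫ u in (0 : ℝ)..x, 2 * u / (η ^ 2 + u ^ 2) =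
      Real.log (1 + x ^ 2 / η ^ 2) := by
    rw [intervalIntegral.integral_eq_sub_of_hasDerivAt (fun u _ => hderiv u)
      (hcont.intervalIntegrable _ _)]
    have h3 : (1 + x ^ 2 / η ^ 2) = (η ^ 2 + x ^ 2) / (η ^ 2 + 0 ^ 2) := by
      rw [zero_pow (by norm_num), add_zero]
      field_simp
    rw [h3, Real.log_div (hpos x).ne' (hpos 0).ne']
  rw [← h2, intervalIntegral.integral_of_le hx.le, ← ofReal_integral_eq_lintegral_ofReal]
  · exact (hcont.integrableOn_Icc).mono_set Ioc_subset_Icc_self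
  · filter_upwards [ae_restrict_mem measurableSet_Ioc] with u hu
    have hu' : 0 < u := hu.1
    have := hpos u
    positivity

theorem T2b_main (hτ : 0 < τ) (x : ℝ) (hx : 0 < x) :
    ∫⁻ t, ENNReal.ofReal (Real.log (1 + x ^ 2 / t)) ∂(sigI α τ) =
      ENNReal.ofReal (gg α τ x - gg α τ 0) ∧ 0 ≤ gg α τ x - gg α τ 0 := by
  have hrrc : Continuous (fun u : ℝ => τ * rr α τ u) :=
    continuous_const.mul ((T2b_cont hτ).comp Complex.continuous_ofReal)
  have hrr0 : ∀ u : ℝ, 0 ≤ τ * rr α τ u := fun u => mul_nonneg hτ.le (rr_nonneg _)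
  have hgg : ∫ u in (0 : ℝ)..x, τ * rr α τ u = gg α τ x - gg α τ 0 :=
    intervalIntegral.integral_eq_sub_of_hasDerivAt_of_le hx.le (gg_continuous hτ).continuousOn
      (fun u hu => gg_hasDerivAt hτ u hu.1) (hrrc.intervalIntegrable _ _)
  have hgg0 : 0 ≤ gg α τ x - gg α τ 0 := by
    rw [← hgg]
    exact intervalIntegral.integral_nonneg hx.le fun u _ => hrr0 u
  refine ⟨?_, hgg0⟩
  rw [intervalIntegral.integral_of_le hx.le] at hgg
  rw [← hgg, ofReal_integral_eq_lintegral_ofReal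
    ((hrrc.integrableOn_Icc).mono_set Ioc_subset_Icc_self) (ae_of_all _ hrr0)]
  -- left side
  have hFm : Measurable (fun t : ℝ => ENNReal.ofReal (Real.log (1 + x ^ 2 / t))) :=
    (Real.measurable_log.comp (measurable_const.add (measurable_const.div measurable_id))).ennreal_ofReal
  rw [T2b_lint hτ _ hFm]
  -- the integrand on the right
  have hu : ∀ u ∈ Ioc (0 : ℝ) x, ENNReal.ofReal (τ * rr α τ u) =
      ∫⁻ η in Ioi (0 : ℝ), ENNReal.ofReal (τ / π * rr α τ (η * Complex.I)) *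
        ENNReal.ofReal (2 * u / (η ^ 2 + u ^ 2)) := by
    intro u hu
    have hu0 : 0 < u := hu.1
    obtain ⟨h1, h2⟩ := T2b_rep (α := α) hτ u hu0
    have h3 : τ * rr α τ u = ∫ η in Ioi (0 : ℝ), (2 * τ * u / π) *
        (rr α τ (η * Complex.I) / (η ^ 2 + u ^ 2)) := by
      rw [integral_const_mul, h2]
      ring
    rw [h3, ofReal_integral_eq_lintegral_ofReal (h1.const_mul _)]
    · refine lintegral_congr fun η => ?_
      rw [← ENNReal.ofReal_mul (mul_nonneg (div_nonneg hτ.le Real.pi_pos.le) (rr_nonneg _))]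
      congr 1
      ring
    · refine ae_of_all _ fun η => ?_
      have h4 : 0 ≤ rr α τ (η * Complex.I) := rr_nonneg _
      have h5 : 0 < η ^ 2 + u ^ 2 := by positivity
      have h6 : 0 < π := Real.pi_pos
      positivity
  rw [setLIntegral_congr_fun measurableSet_Ioc hu]
  rw [lintegral_lintegral_swap]
  · refine setLIntegral_congr_fun measurableSet_Ioi fun η hη => ?_
    have hη' : 0 < η := hη
    rw [lintegral_const_mul' _ _ ENNReal.ofReal_ne_top, T2b_inner x η hx hη']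
  · refine Measurable.aemeasurable ?_
    have hm1 : Measurable (fun p : ℝ × ℝ =>
        ENNReal.ofReal (τ / π * rr α τ ((p.2 : ℝ) * Complex.I))) :=
      ((measurable_const.mul ((T2b_contI hτ).measurable.comp measurable_snd))).ennreal_ofReal
    have hm2 : Measurable (fun p : ℝ × ℝ => ENNReal.ofReal (2 * p.1 / (p.2 ^ 2 + p.1 ^ 2))) :=
      ((measurable_const.mul measurable_fst).div
        ((measurable_snd.pow_const 2).add (measurable_fst.pow_const 2))).ennreal_ofReal
    exact hm1.mul hm2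

theorem T2b_log_nonneg (hτ : 0 < τ) (x : ℝ) :
    0 ≤ᵐ[sigI α τ] fun t => Real.log (1 + x ^ 2 / t) := by
  filter_upwards [T2b_ae_pos hτ] with t ht
  refine Real.log_nonneg ?_
  have : 0 ≤ x ^ 2 / t := by positivity
  linarith

theorem T2b_measurable (x : ℝ) : Measurable (fun t : ℝ => Real.log (1 + x ^ 2 / t)) :=
  Real.measurable_log.comp (measurable_const.add (measurable_const.div measurable_id))

theorem T2b_pos (hτ : 0 < τ) (x : ℝ) (hx : 0 < x) :
    Integrable (fun t => Real.log (1 + x ^ 2 / t)) (sigI α τ) ∧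
    gg α τ x - gg α τ 0 = ∫ t, Real.log (1 + x ^ 2 / t) ∂(sigI α τ) := by
  obtain ⟨h1, h2⟩ := T2b_main (α := α) hτ x hx
  have hint : Integrable (fun t => Real.log (1 + x ^ 2 / t)) (sigI α τ) := by
    refine ⟨(T2b_measurable x).aestronglyMeasurable, ?_⟩
    rw [hasFiniteIntegral_iff_ofReal (T2b_log_nonneg hτ x), h1]
    exact ENNReal.ofReal_lt_top
  refine ⟨hint, ?_⟩
  rw [integral_eq_lintegral_of_nonneg_ae (T2b_log_nonneg hτ x)
    (T2b_measurable x).aestronglyMeasurable, h1, ENNReal.toReal_ofReal h2]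

theorem T2b_all (hτ : 0 < τ) (x : ℝ) :
    Integrable (fun t => Real.log (1 + x ^ 2 / t)) (sigI α τ) ∧
    gg α τ x - gg α τ 0 = ∫ t, Real.log (1 + x ^ 2 / t) ∂(sigI α τ) := by
  rcases lt_trichotomy x 0 with hx | rfl | hx
  · have h1 := T2b_pos (α := α) hτ (-x) (by linarith)
    rw [neg_sq, gg_even] at h1
    exact h1
  · simp
  · exact T2b_pos hτ x hx

theorem sigI_log (hτ : 0 < τ) (x : ℝ) :
    Integrable (fun t => Real.log (1 + x ^ 2 / t)) (sigI α τ) := (T2b_all hτ x).1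

theorem gg_pot (hτ : 0 < τ) (x : ℝ) :
    gg α τ x - gg α τ 0 = ∫ t, Real.log (1 + x ^ 2 / t) ∂(sigI α τ) := (T2b_all hτ x).2

theorem sigI_integrable (hτ : 0 < τ) :
    Integrable (fun t => 1 / (1 + t)) (sigI α τ) := by
  refine Integrable.mono' (sigI_log hτ 1)
    (measurable_const.div (measurable_const.add measurable_id)).aestronglyMeasurable ?_
  filter_upwards [T2b_ae_pos hτ] with t ht
  rw [Real.norm_eq_abs, abs_of_pos (by positivity), one_pow]
  have h1 : 0 < 1 + 1 / t := by positivity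
  have h2 := Real.one_sub_inv_le_log_of_pos h1
  have h3 : 1 - (1 + 1 / t)⁻¹ = 1 / (1 + t) := by
    field_simp
    ring
  rw [h3] at h2
  exact h2

end

end Pool.Agent.MP_941b23_mp
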