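import Pool.Agent.MP_941b23_mp.Defs2
import Pool.Agent.MP_941b23_mp.T2a
import Pool.Agent.MP_941b23_mp.T2b

/-!
# [QM-P5] the coercive form of `J`
-/

namespace Pool.Agent.MP_941b23_mp

open MeasureTheory Set Filter Topology
open scoped ENNReal NNReal Real

noncomputable section

/-! ### growth of the potential -/

theorem p5_rpow (ε : ℝ) (hε : 0 < ε) (y : ℝ) (hy : 0 ≤ y) :
    y ^ (4 / 3 : ℝ) ≤ ε * y ^ 2 + (1 / ε) ^ 2 := by
  set w := y ^ (2 / 3 : ℝ) with hw
  have hw0 : 0 ≤ w := Real.rpow_nonneg hy _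
  have h1 : y ^ (4 / 3 : ℝ) = w ^ 2 := by
    rw [hw, ← Real.rpow_natCast, ← Real.rpow_mul hy]; norm_num
  have h2 : y ^ 2 = w ^ 3 := by
    rw [hw, ← Real.rpow_natCast (y ^ (2 / 3 : ℝ)), ← Real.rpow_mul hy, ← Real.rpow_natCast]
    norm_num
  rw [h1, h2]
  rcases le_total w (1 / ε) with h | h
  · have h3 : w ^ 2 ≤ (1 / ε) ^ 2 := pow_le_pow_left₀ hw0 h 2
    have h4 : 0 ≤ ε * w ^ 3 := by positivity
    linarith
  · have h3 : 1 ≤ ε * w := by
      rw [div_le_iff₀ hε] at h; linarith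
    have h4 : w ^ 2 ≤ ε * w ^ 3 := by nlinarith [sq_nonneg w]
    have h5 : 0 ≤ (1 / ε) ^ 2 := by positivity
    linarith

theorem U1_lower {α τ : ℝ} (hτ : 0 < τ) {V : ℝ → ℝ} (hV : Pot V) :
    ∃ c C : ℝ, 0 < c ∧ ∀ ξ : ℝ, 0 ≤ ξ → c * ξ - C ≤ U1 α τ V ξ := by
  obtain ⟨c, C, hc, hV'⟩ := hV.lower
  obtain ⟨K, hK, hg⟩ := gg_growth (α := α) hτ
  -- K (1+x)^{4/3} ≤ K (ε (1+x)^2 + 1/ε^2), (1+x)^2 ≤ 2 + 2 x^2, 2 K ε = c / 2
  set ε := c / (4 * K) with hε
  have hε0 : 0 < ε := by positivity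
  refine ⟨c / 2, C + c / 2 + K * (1 / ε) ^ 2, by positivity, ?_⟩
  intro ξ hξ
  unfold U1
  have hs : √ξ ^ 2 = ξ := Real.sq_sqrt hξ
  have hs0 : 0 ≤ √ξ := Real.sqrt_nonneg _
  have h1 := hV' (√ξ)
  have h2 := hg (√ξ)
  rw [abs_of_nonneg hs0] at h2
  have h3 := p5_rpow ε hε0 (1 + √ξ) (by positivity)
  have h4 : (1 + √ξ) ^ 2 ≤ 2 + 2 * ξ := by nlinarith [sq_nonneg (1 - √ξ)]
  have h5 : K * (1 + √ξ) ^ (4 / 3 : ℝ) ≤ K * (ε * (2 + 2 * ξ) + (1 / ε) ^ 2) := by
    apply mul_le_mul_of_nonneg_left _ hK.le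
    refine h3.trans ?_
    have := mul_le_mul_of_nonneg_left h4 hε0.le
    linarith
  have h6 : K * ε = c / 4 := by rw [hε]; field_simp
  have h7 : K * (ε * (2 + 2 * ξ) + (1 / ε) ^ 2) = (K * ε) * (2 + 2 * ξ) + K * (1 / ε) ^ 2 := by ring
  rw [h7, h6] at h5
  rw [hs] at h1
  linarith

/-! ### layer cake -/

theorem p5_layer (μ : Measure ℝ) [IsFiniteMeasure μ]
    (h : Integrable (fun x => Real.log (max x 1)) μ) :
    IntegrableOn (fun u => 1 / u * tl μ u) (Ioi 1) ∧
    ∫ x, Real.log (max x 1) ∂μ = ∫ u in Ioi (1 : ℝ), 1 / u * tl μ u := by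
  have hnn : ∀ x : ℝ, 0 ≤ Real.log (max x 1) := fun x => Real.log_nonneg (le_max_right _ _)
  have hset : ∀ t ∈ Ioi (0:ℝ), {x : ℝ | t < Real.log (max x 1)} = Ioi (Real.exp t) := by
    intro t ht
    ext x
    have hm : 0 < max x 1 := lt_of_lt_of_le one_pos (le_max_right _ _)
    have h1 : (1:ℝ) < Real.exp t := Real.one_lt_exp_iff.2 ht
    simp only [mem_ofPred_eq, mem_Ioi]
    rw [Real.lt_log_iff_exp_lt hm, lt_max_iff]
    constructor
    · rintro (h | h)
      · exact h
      · exact absurd h (not_lt.2 h1.le)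
    · exact Or.inl
  have himg : Real.exp '' (Ioi (0:ℝ)) = Ioi 1 := by
    ext u
    constructor
    · rintro ⟨t, ht, rfl⟩
      exact Real.one_lt_exp_iff.2 ht
    · intro hu
      have hu' : (1:ℝ) < u := hu
      exact ⟨Real.log u, Real.log_pos hu', Real.exp_log (by linarith)⟩
  have hder : ∀ t ∈ Ioi (0:ℝ), HasDerivWithinAt Real.exp (Real.exp t) (Ioi 0) t :=
    fun t _ => (Real.hasDerivAt_exp t).hasDerivWithinAt
  have hinj : InjOn Real.exp (Ioi (0:ℝ)) := Real.exp_injective.injOn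
  have hfun : ∀ t : ℝ, |Real.exp t| • (1 / Real.exp t * tl μ (Real.exp t)) = tl μ (Real.exp t) := by
    intro t
    have := Real.exp_pos t
    rw [abs_of_pos this, smul_eq_mul]
    field_simp
  have hint0 : IntegrableOn (fun t => tl μ (Real.exp t)) (Ioi (0:ℝ)) := by
    have hm : Measurable (fun t => tl μ (Real.exp t)) := by
      have hanti : Antitone (fun t => tl μ (Real.exp t)) := by
        intro s t hst
        exact measureReal_mono (Ioi_subset_Ioi (Real.exp_le_exp.2 hst))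
      exact hanti.measurable
    refine ⟨hm.aestronglyMeasurable, ?_⟩
    have hnn' : ∀ᵐ t ∂(volume.restrict (Ioi (0:ℝ))), 0 ≤ tl μ (Real.exp t) :=
      Eventually.of_forall fun t => measureReal_nonneg
    rw [hasFiniteIntegral_iff_ofReal hnn']
    have e1 : ∫⁻ t in Ioi (0:ℝ), ENNReal.ofReal (tl μ (Real.exp t))
        = ∫⁻ t in Ioi (0:ℝ), μ {x : ℝ | t < Real.log (max x 1)} := by
      refine setLIntegral_congr_fun measurableSet_Ioi ?_
      intro t ht
      show ENNReal.ofReal (μ.real (Ioi (Real.exp t))) = μ {x : ℝ | t < Real.log (max x 1)}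
      rw [hset t ht]
      exact ENNReal.ofReal_toReal (measure_ne_top _ _)
    rw [e1, ← lintegral_eq_lintegral_meas_lt μ (Eventually.of_forall hnn) h.aemeasurable]
    exact h.lintegral_lt_top
  constructor
  · rw [← himg, integrableOn_image_iff_integrableOn_abs_deriv_smul measurableSet_Ioi hder hinj]
    simp only [hfun]
    exact hint0
  · rw [h.integral_eq_integral_meas_lt (Eventually.of_forall hnn), ← himg,
      integral_image_eq_integral_abs_deriv_smul measurableSet_Ioi hder hinj]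
    simp only [hfun]
    refine setIntegral_congr_fun measurableSet_Ioi ?_
    intro t ht
    show μ.real {x : ℝ | t < Real.log (max x 1)} = μ.real (Ioi (Real.exp t))
    rw [hset t ht]

theorem p5_logmax_le (x : ℝ) : |Real.log (max x 1)| ≤ Real.log (1 + |x|) := by
  rw [abs_of_nonneg (Real.log_nonneg (le_max_right _ _))]
  apply Real.log_le_log (lt_of_lt_of_le one_pos (le_max_right _ _))
  apply max_le
  · linarith [le_abs_self x]
  · linarith [abs_nonneg x]

theorem p5_logmax_int (μ : Measure ℝ) [IsFiniteMeasure μ]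
    (h : Integrable (fun x => Real.log (1 + |x|)) μ) :
    Integrable (fun x => Real.log (max x 1)) μ := by
  have hm : Measurable (fun x : ℝ => Real.log (max x 1)) := by fun_prop
  refine h.mono' hm.aestronglyMeasurable ?_
  exact Eventually.of_forall fun x => p5_logmax_le x

theorem p5_logmax2_int (μ ν : Measure ℝ) [IsFiniteMeasure μ] [IsFiniteMeasure ν]
    (hμ : Integrable (fun x => Real.log (1 + |x|)) μ)
    (hν : Integrable (fun x => Real.log (1 + |x|)) ν) :
    Integrable (fun z : ℝ × ℝ => Real.log (max (max z.1 z.2) 1)) (μ.prod ν) := by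
  have h1 : Integrable (fun z : ℝ × ℝ => Real.log (1 + |z.1|)) (μ.prod ν) := hμ.comp_fst ν
  have h2 : Integrable (fun z : ℝ × ℝ => Real.log (1 + |z.2|)) (μ.prod ν) := hν.comp_snd μ
  have hm : Measurable (fun z : ℝ × ℝ => Real.log (max (max z.1 z.2) 1)) := by fun_prop
  refine (h1.add h2).mono' hm.aestronglyMeasurable ?_
  refine Eventually.of_forall fun z => ?_
  have hm : (1:ℝ) ≤ max (max z.1 z.2) 1 := le_max_right _ _
  rw [Real.norm_eq_abs, abs_of_nonneg (Real.log_nonneg hm)]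
  show Real.log (max (max z.1 z.2) 1) ≤ Real.log (1 + |z.1|) + Real.log (1 + |z.2|)
  rw [← Real.log_mul (by positivity) (by positivity)]
  apply Real.log_le_log (by linarith)
  have a1 := le_abs_self z.1
  have a2 := le_abs_self z.2
  have a3 := abs_nonneg z.1
  have a4 := abs_nonneg z.2
  have a5 := mul_nonneg a3 a4
  apply max_le (max_le _ _) _ <;> nlinarith

theorem p5_Q (μ ν : Measure ℝ) [IsFiniteMeasure μ] [IsFiniteMeasure ν]
    (hμ : Integrable (fun x => Real.log (1 + |x|)) μ)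
    (hν : Integrable (fun x => Real.log (1 + |x|)) ν) :
    IntegrableOn (fun u => 1 / u * (μ.real univ * tl ν u + ν.real univ * tl μ u
      - tl μ u * tl ν u)) (Ioi 1) ∧
    ∫ z : ℝ × ℝ, Real.log (max (max z.1 z.2) 1) ∂(μ.prod ν) =
      ∫ u in Ioi (1 : ℝ), 1 / u * (μ.real univ * tl ν u + ν.real univ * tl μ u
        - tl μ u * tl ν u) := by
  have hint := p5_logmax2_int μ ν hμ hν
  have hmeas : Measurable (fun z : ℝ × ℝ => max z.1 z.2) := by fun_prop
  set ρ := (μ.prod ν).map (fun z : ℝ × ℝ => max z.1 z.2) with hρ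
  have hfin : IsFiniteMeasure ρ := by rw [hρ]; infer_instance
  have hlm : Measurable (fun x : ℝ => Real.log (max x 1)) := by fun_prop
  have hint' : Integrable (fun x => Real.log (max x 1)) ρ := by
    rw [hρ, integrable_map_measure hlm.aestronglyMeasurable hmeas.aemeasurable]
    exact hint
  have htl : ∀ u : ℝ, tl ρ u = μ.real univ * tl ν u + ν.real univ * tl μ u
      - tl μ u * tl ν u := by
    intro u
    have e1 : tl ρ u = (μ.prod ν).real ((Iic u ×ˢ Iic u)ᶜ) := by
      unfold tl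
      rw [hρ, map_measureReal_apply hmeas measurableSet_Ioi]
      congr 1
      ext z
      simp only [mem_preimage, mem_Ioi, lt_max_iff, mem_compl_iff, mem_prod, mem_Iic]
      constructor
      · rintro (h | h) ⟨h1, h2⟩ <;> linarith
      · intro h
        by_contra hcon
        push Not at hcon
        exact h hcon
    rw [e1, measureReal_compl (measurableSet_Iic.prod measurableSet_Iic),
      measureReal_prod_prod]
    have e2 : (μ.prod ν).real univ = μ.real univ * ν.real univ := by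
      rw [← univ_prod_univ, measureReal_prod_prod]
    have e3 : ∀ κ : Measure ℝ, ∀ _ : IsFiniteMeasure κ, κ.real (Iic u) = κ.real univ - tl κ u := by
      intro κ _
      unfold tl
      rw [← compl_Iic, measureReal_compl measurableSet_Iic]
      ring
    rw [e2, e3 μ inferInstance, e3 ν inferInstance]
    ring
  obtain ⟨h1, h2⟩ := p5_layer ρ hint'
  simp only [htl] at h1 h2
  refine ⟨h1, ?_⟩
  rw [← h2, hρ, integral_map hmeas.aemeasurable hlm.aestronglyMeasurable]

/-! ### the kernels -/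

theorem p5_sigI_Iic {α τ : ℝ} (hτ : 0 < τ) : sigI α τ (Iic 0) = 0 := by
  rw [sigI_eq hτ]
  apply withDensity_absolutelyContinuous
  rw [Measure.restrict_apply measurableSet_Iic]
  have : Iic (0:ℝ) ∩ Ioi 0 = ∅ := by
    ext x; simp
  rw [this]; simp

theorem p5_Rp_bound (x y : ℝ) (hx : 0 ≤ x) (hy : 0 < y) :
    |Rp x y| ≤ Real.log 2 + Real.log (1 + 1 / y) := by
  unfold Rp
  set m := max (max x y) 1 with hm
  have hm1 : 1 ≤ m := le_max_right _ _
  have hmx : x ≤ m := (le_max_left x y).trans (le_max_left _ _)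
  have hmy : y ≤ m := (le_max_right x y).trans (le_max_left _ _)
  have hm0 : 0 < m := by linarith
  have hl2 : 0 ≤ Real.log 2 := Real.log_nonneg (by norm_num)
  have hly : 0 ≤ Real.log (1 + 1 / y) := Real.log_nonneg (by
    have : 0 < 1 / y := by positivity
    linarith)
  have hq : 0 < (x + y) / m := by positivity
  rw [abs_le]
  constructor
  · -- (x+y)/m ≥ 1/(1+1/y)
    have h1 : (1 + 1 / y)⁻¹ ≤ (x + y) / m := by
      have e : (1 + 1 / y)⁻¹ = y / (y + 1) := by field_simp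
      rw [e, div_le_div_iff₀ (by positivity) hm0]
      have h2 : y * m ≤ y * max (max x y) 1 := le_of_eq (by rw [hm])
      rcases le_total (max x y) 1 with h | h
      · have : m = 1 := by rw [hm, max_eq_right h]
        rw [this]; nlinarith
      · have hmm : m = max x y := by rw [hm, max_eq_left h]
        rcases le_total x y with h' | h'
        · rw [hmm, max_eq_right h']; nlinarith
        · rw [hmm, max_eq_left h']; nlinarith
    have h2 := Real.log_le_log (by positivity) h1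
    rw [Real.log_inv] at h2
    linarith
  · have h1 : (x + y) / m ≤ 2 := by
      rw [div_le_iff₀ hm0]; linarith
    have h2 := Real.log_le_log hq h1
    linarith

theorem p5_Rp_measurable : Measurable (fun z : ℝ × ℝ => Rp z.1 z.2) := by
  unfold Rp; fun_prop

theorem p5_Rm_measurable : Measurable (fun z : ℝ × ℝ => Rm z.1 z.2) := by
  unfold Rm; fun_prop

theorem p5_ae_prod (a b : Measure ℝ) [IsFiniteMeasure a] [IsFiniteMeasure b] (p q : ℝ → Prop)
    (hp : ∀ᵐ x ∂a, p x) (hq : ∀ᵐ x ∂b, q x) : ∀ᵐ z ∂(a.prod b), p z.1 ∧ q z.2 := by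
  have h1 : ∀ᵐ z ∂(a.prod b), p z.1 := Measure.quasiMeasurePreserving_fst.ae hp
  have h2 : ∀ᵐ z ∂(a.prod b), q z.2 := Measure.quasiMeasurePreserving_snd.ae hq
  filter_upwards [h1, h2] with z a1 a2 using ⟨a1, a2⟩

theorem p5_ae_nonneg (a : Measure ℝ) (h : a (Iio 0) = 0) : ∀ᵐ x ∂a, 0 ≤ x := by
  rw [ae_iff]
  have : {x : ℝ | ¬ 0 ≤ x} = Iio 0 := by ext x; simp
  rw [this]; exact h

theorem p5_ae_pos {α τ : ℝ} (hτ : 0 < τ) (b : Measure ℝ) (hb : b ≤ sigI α τ) :
    ∀ᵐ x ∂b, 0 < x := by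
  rw [ae_iff]
  have : {x : ℝ | ¬ 0 < x} = Iic 0 := by ext x; simp
  rw [this]
  exact le_antisymm ((hb _).trans (p5_sigI_Iic hτ).le) bot_le

theorem Rp_integrable {α τ : ℝ} (hτ : 0 < τ) (a b : Measure ℝ) [IsFiniteMeasure a]
    [IsFiniteMeasure b] (hb : b ≤ sigI α τ) (h0a : a (Iio 0) = 0) (h0b : b (Iio 0) = 0) :
    Integrable (fun z : ℝ × ℝ => Rp z.1 z.2) (a.prod b) ∧
    Integrable (fun z : ℝ × ℝ => Rp z.1 z.2) (b.prod a) := by
  have hσ := (sigI_log (α := α) hτ 1).mono_measure hb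
  have hb1 : Integrable (fun t : ℝ => Real.log 2 + Real.log (1 + 1 / t)) b := by
    refine (integrable_const _).add ?_
    simpa using hσ
  have h1 : Integrable (fun z : ℝ × ℝ => Rp z.1 z.2) (a.prod b) := by
    refine (hb1.comp_snd a).mono' p5_Rp_measurable.aestronglyMeasurable ?_
    filter_upwards [p5_ae_prod a b _ _ (p5_ae_nonneg a h0a) (p5_ae_pos hτ b hb)] with z hz
    exact p5_Rp_bound z.1 z.2 hz.1 hz.2
  refine ⟨h1, ?_⟩
  have h2 := h1.swap
  refine h2.congr (Eventually.of_forall fun z => ?_)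
  show Rp z.2 z.1 = Rp z.1 z.2
  unfold Rp
  rw [add_comm, max_comm z.2 z.1]

theorem p5_LL (μ : Measure ℝ) [IsFiniteMeasure μ] (hna : ∀ x, μ {x} = 0)
    (hrm : Integrable (fun z : ℝ × ℝ => Rm z.1 z.2) (μ.prod μ))
    (hl : Integrable (fun x => Real.log (1 + |x|)) μ) :
    FinEn μ ∧ LL μ μ = ∫ z : ℝ × ℝ, Rm z.1 z.2 ∂(μ.prod μ) -
      ∫ z : ℝ × ℝ, Real.log (max (max z.1 z.2) 1) ∂(μ.prod μ) := by
  have hmx := p5_logmax2_int μ μ hl hl
  have hdiag : ∀ᵐ z ∂(μ.prod μ), z.1 ≠ z.2 := by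
    rw [ae_iff]
    have hs : MeasurableSet {z : ℝ × ℝ | ¬ z.1 ≠ z.2} := by
      have : {z : ℝ × ℝ | ¬ z.1 ≠ z.2} = {z : ℝ × ℝ | z.1 = z.2} := by ext z; simp
      rw [this]
      exact measurableSet_eq_fun measurable_fst measurable_snd
    rw [Measure.prod_apply hs]
    have : ∀ x : ℝ, μ (Prod.mk x ⁻¹' {z : ℝ × ℝ | ¬ z.1 ≠ z.2}) = 0 := by
      intro x
      have e : Prod.mk x ⁻¹' {z : ℝ × ℝ | ¬ z.1 ≠ z.2} = {x} := by
        ext y; simp [eq_comm]
      rw [e]; exact hna x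
    rw [lintegral_congr this, lintegral_zero]
  have hRm : ∀ᵐ z ∂(μ.prod μ), Real.log |z.1 - z.2|
      = Real.log (max (max z.1 z.2) 1) - Rm z.1 z.2 := by
    filter_upwards [hdiag] with z hz
    unfold Rm
    have h1 : |z.1 - z.2| ≠ 0 := abs_ne_zero.2 (sub_ne_zero.2 hz)
    have h2 : max (max z.1 z.2) 1 ≠ 0 := (lt_of_lt_of_le one_pos (le_max_right _ _)).ne'
    rw [Real.log_div h2 h1]
    ring
  have hen : Integrable (fun z : ℝ × ℝ => Real.log |z.1 - z.2|) (μ.prod μ) :=
    (hmx.sub hrm).congr (by filter_upwards [hRm] with z hz using hz.symm)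
  refine ⟨⟨hna, hen, hl⟩, ?_⟩
  unfold LL
  rw [integral_neg, integral_congr_ae hRm, integral_sub hmx hrm]
  ring

theorem p5_MM (a b : Measure ℝ) [IsFiniteMeasure a] [IsFiniteMeasure b]
    (hr : Integrable (fun z : ℝ × ℝ => Rp z.1 z.2) (a.prod b))
    (hla : Integrable (fun x => Real.log (1 + |x|)) a)
    (hlb : Integrable (fun x => Real.log (1 + |x|)) b)
    (hpos : ∀ᵐ z ∂(a.prod b), 0 < z.1 + z.2) :
    MM a b = ∫ z : ℝ × ℝ, Rp z.1 z.2 ∂(a.prod b) +
      ∫ z : ℝ × ℝ, Real.log (max (max z.1 z.2) 1) ∂(a.prod b) := by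
  have hmx := p5_logmax2_int a b hla hlb
  have hRp : ∀ᵐ z ∂(a.prod b), Real.log (z.1 + z.2)
      = Rp z.1 z.2 + Real.log (max (max z.1 z.2) 1) := by
    filter_upwards [hpos] with z hz
    unfold Rp
    have h2 : max (max z.1 z.2) 1 ≠ 0 := (lt_of_lt_of_le one_pos (le_max_right _ _)).ne'
    rw [Real.log_div hz.ne' h2]
    ring
  unfold MM
  rw [integral_congr_ae hRp, integral_add hr hmx]

/-- if `b`, `c` have finite logarithmic moments and the triple is weakly admissible then it is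
admissible and `J = JW`. -/
theorem WAdm.admJ {α τ : ℝ} (hτ : 0 < τ) {V : ℝ → ℝ} (hV : Pot V) {a b c : Measure ℝ}
    (h : WAdm α τ V a b c) (hb : Integrable (fun x => Real.log (1 + |x|)) b)
    (hc : Integrable (fun x => Real.log (1 + |x|)) c) :
    AdmJ α τ V a b c ∧ JJ α τ V a b c = JW α τ V a b c := by
  have fa : IsFiniteMeasure a := ⟨by rw [h.massa]; simp⟩
  have fb : IsFiniteMeasure b := ⟨by
    rw [h.massb]; exact ENNReal.div_lt_top (by simp) (by simp)⟩
  have fc : IsFiniteMeasure c := ⟨by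
    rw [h.massc]; simp⟩
  have ma : a.real univ = 1 / 2 := by unfold Measure.real; rw [h.massa]; simp
  have mb : b.real univ = 1 / 3 := by unfold Measure.real; rw [h.massb]; simp
  have mc : c.real univ = 1 / 6 := by unfold Measure.real; rw [h.massc]; simp
  -- logarithmic moment of `a`
  have ha : Integrable (fun x => Real.log (1 + |x|)) a := by
    obtain ⟨k, K, hk, hU⟩ := U1_lower (α := α) hτ hV
    have h1 : Integrable (fun x => (U1 α τ V x + K) / k) a :=
      (h.pot.add (integrable_const K)).div_const k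
    have hm : Measurable (fun x : ℝ => Real.log (1 + |x|)) := by fun_prop
    refine h1.mono' hm.aestronglyMeasurable ?_
    filter_upwards [p5_ae_nonneg a h.suppa] with x hx
    have h2 := hU x hx
    have h3 : 0 ≤ Real.log (1 + |x|) := Real.log_nonneg (by linarith [abs_nonneg x])
    rw [Real.norm_eq_abs, abs_of_nonneg h3, abs_of_nonneg hx]
    have h4 : Real.log (1 + x) ≤ x := by
      have := Real.log_le_sub_one_of_pos (by linarith : 0 < 1 + x)
      linarith
    refine h4.trans ?_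
    rw [le_div_iff₀ hk]
    linarith
  obtain ⟨ea, la⟩ := p5_LL a h.noa h.rma ha
  obtain ⟨eb, lb⟩ := p5_LL b h.nob h.rmb hb
  obtain ⟨ec, lc⟩ := p5_LL c h.noc h.rmc hc
  have hadm : AdmJ α τ V a b c := ⟨h.suppa, h.suppb, h.suppc, h.massa, h.massb, h.massc,
    h.constr, ea, eb, ec, h.pot⟩
  refine ⟨hadm, ?_⟩
  have rab := (Rp_integrable hτ a b h.constr h.suppa h.suppb).1
  have rbc := (Rp_integrable hτ c b h.constr h.suppc h.suppb).2
  have mab := p5_MM a b rab ha hb (by
    filter_upwards [p5_ae_prod a b _ _ (p5_ae_nonneg a h.suppa) (p5_ae_pos hτ b h.constr)]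
      with z hz
    linarith [hz.1, hz.2])
  have mbc := p5_MM b c rbc hb hc (by
    filter_upwards [p5_ae_prod b c _ _ (p5_ae_pos hτ b h.constr) (p5_ae_nonneg c h.suppc)]
      with z hz
    linarith [hz.1, hz.2])
  obtain ⟨iaa, qaa⟩ := p5_Q a a ha ha
  obtain ⟨ibb, qbb⟩ := p5_Q b b hb hb
  obtain ⟨icc, qcc⟩ := p5_Q c c hc hc
  obtain ⟨iab, qab⟩ := p5_Q a b ha hb
  obtain ⟨ibc, qbc⟩ := p5_Q b c hb hc
  obtain ⟨il, ql⟩ := p5_layer a (p5_logmax_int a ha)
  have hq : ∫ u in Ioi (1 : ℝ), 1 / u * qf (tl a u) (tl b u) (tl c u) =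
      -(∫ z : ℝ × ℝ, Real.log (max (max z.1 z.2) 1) ∂(a.prod a))
      - (∫ z : ℝ × ℝ, Real.log (max (max z.1 z.2) 1) ∂(b.prod b))
      - (∫ z : ℝ × ℝ, Real.log (max (max z.1 z.2) 1) ∂(c.prod c))
      + (∫ z : ℝ × ℝ, Real.log (max (max z.1 z.2) 1) ∂(a.prod b))
      + (∫ z : ℝ × ℝ, Real.log (max (max z.1 z.2) 1) ∂(b.prod c))
      + 2 / 3 * ∫ x, Real.log (max x 1) ∂a := by
    rw [qaa, qbb, qcc, qab, qbc, ql]
    generalize hA : (fun u : ℝ => 1 / u * (a.real univ * tl a u + a.real univ * tl a u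
      - tl a u * tl a u)) = A at iaa ⊢
    generalize hB : (fun u : ℝ => 1 / u * (b.real univ * tl b u + b.real univ * tl b u
      - tl b u * tl b u)) = B at ibb ⊢
    generalize hC : (fun u : ℝ => 1 / u * (c.real univ * tl c u + c.real univ * tl c u
      - tl c u * tl c u)) = C at icc ⊢
    generalize hD : (fun u : ℝ => 1 / u * (a.real univ * tl b u + b.real univ * tl a u
      - tl a u * tl b u)) = D at iab ⊢
    generalize hE : (fun u : ℝ => 1 / u * (b.real univ * tl c u + c.real univ * tl b u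
      - tl b u * tl c u)) = E at ibc ⊢
    generalize hF : (fun u : ℝ => 1 / u * tl a u) = F at il ⊢
    have e1 : (fun u : ℝ => 1 / u * qf (tl a u) (tl b u) (tl c u))
        = fun u => ((((-A u) - B u) - C u) + D u) + E u + 2 / 3 * F u := by
      funext u
      rw [← hA, ← hB, ← hC, ← hD, ← hE, ← hF]
      simp only [qf, ma, mb, mc]
      ring
    have i1 : IntegrableOn (fun u => -A u) (Ioi 1) := iaa.neg
    have i2 : IntegrableOn (fun u => -A u - B u) (Ioi 1) := i1.sub ibb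
    have i3 : IntegrableOn (fun u => -A u - B u - C u) (Ioi 1) := i2.sub icc
    have i4 : IntegrableOn (fun u => -A u - B u - C u + D u) (Ioi 1) := i3.add iab
    have i5 : IntegrableOn (fun u => -A u - B u - C u + D u + E u) (Ioi 1) := i4.add ibc
    have i6 : IntegrableOn (fun u => 2 / 3 * F u) (Ioi 1) := il.const_mul _
    rw [e1, integral_add i5 i6, integral_add i4 ibc, integral_add i3 iab, integral_sub i2 icc,
      integral_sub i1 ibb, integral_neg, integral_const_mul]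
  have hU : ∫ x, (U1 α τ V x - 2 / 3 * Real.log (max x 1)) ∂a
      = ∫ x, U1 α τ V x ∂a - 2 / 3 * ∫ x, Real.log (max x 1) ∂a := by
    rw [integral_sub h.pot ((p5_logmax_int a ha).const_mul _), integral_const_mul]
  unfold JJ JW
  rw [la, lb, lc, mab, mbc, hq, hU]
  ring

end

end Pool.Agent.MP_941b23_mp
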