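import Pool.Agent.MP_941b23_mp.Defs2

/-!
# Part T, row T5 : the function `V₃`
-/

namespace Pool.Agent.MP_941b23_mp

open MeasureTheory Set Filter Topology
open scoped ENNReal NNReal Real ComplexConjugate

noncomputable section

variable {α τ : ℝ}

/-! ### auxiliary facts -/

theorem t5_th_def (x s : ℝ) : th α τ x s = s ^ 4 / 4 + α / 2 * s ^ 2 - τ * x * s := rfl

theorem t5_th_neg (x s : ℝ) : th α τ (-x) s = th α τ x (-s) := by
  rw [t5_th_def, t5_th_def]; ring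

/-- the exact Taylor expansion at a critical point -/
theorem t5_sub (x a s : ℝ) (ha : a ^ 3 + α * a = τ * x) :
    th α τ x s - th α τ x a = (s - a) ^ 2 * ((s ^ 2 + 2 * a * s + 3 * a ^ 2 + 2 * α) / 4) := by
  rw [t5_th_def, t5_th_def, ← ha]; ring

theorem t5_deriv (x s : ℝ) : HasDerivAt (th α τ x) (s ^ 3 + α * s - τ * x) s := by
  have h1 : HasDerivAt (fun s : ℝ => s ^ 4 / 4 + α / 2 * s ^ 2 - τ * x * s)
      (((4 : ℕ) * s ^ 3 * 1) / 4 + α / 2 * ((2 : ℕ) * s ^ 1 * 1) - τ * x * 1) s :=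
    ((((hasDerivAt_id s).pow 4).div_const 4).add (((hasDerivAt_id s).pow 2).const_mul (α / 2))).sub
      ((hasDerivAt_id s).const_mul (τ * x))
  have h2 : (fun s : ℝ => s ^ 4 / 4 + α / 2 * s ^ 2 - τ * x * s) = th α τ x := rfl
  rw [h2] at h1
  convert h1 using 1
  push_cast
  ring

theorem t5_crit (x a : ℝ) (h : IsLocalExtr (th α τ x) a) : a ^ 3 + α * a = τ * x := by
  have h1 := h.hasDerivAt_eq_zero (t5_deriv x a)
  linarith

/-- near a critical point the second factor keeps its sign -/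
theorem t5_near (a : ℝ) : Tendsto (fun s : ℝ => (s ^ 2 + 2 * a * s + 3 * a ^ 2 + 2 * α) / 4) (𝓝 a)
    (𝓝 ((3 * a ^ 2 + α) / 2)) := by
  have h : Continuous (fun s : ℝ => (s ^ 2 + 2 * a * s + 3 * a ^ 2 + 2 * α) / 4) := by fun_prop
  have h1 := h.tendsto a
  have h2 : (a ^ 2 + 2 * a * a + 3 * a ^ 2 + 2 * α) / 4 = (3 * a ^ 2 + α) / 2 := by ring
  rwa [h2] at h1

theorem t5_min (x a : ℝ) (ha : a ^ 3 + α * a = τ * x) (h : 0 < 3 * a ^ 2 + α) :
    IsLocalMin (th α τ x) a ∧ ¬ IsLocalMax (th α τ x) a := by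
  have h1 : ∀ᶠ s in 𝓝 a, 0 < (s ^ 2 + 2 * a * s + 3 * a ^ 2 + 2 * α) / 4 :=
    (t5_near a).eventually (lt_mem_nhds (by linarith))
  constructor
  · filter_upwards [h1] with s hs
    have h2 := t5_sub x a s ha
    have h3 := mul_nonneg (sq_nonneg (s - a)) hs.le
    linarith
  · intro hm
    have h4 : ∀ᶠ s in 𝓝 a, s = a := by
      filter_upwards [h1, hm] with s hs hs2
      have h2 := t5_sub x a s ha
      by_contra hne
      have h3 : 0 < (s - a) ^ 2 * ((s ^ 2 + 2 * a * s + 3 * a ^ 2 + 2 * α) / 4) :=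
        mul_pos (by have := sub_ne_zero.2 hne; positivity) hs
      linarith
    have h5 : ∀ᶠ s in 𝓝[≠] a, s = a := h4.filter_mono nhdsWithin_le_nhds
    have h6 : ∀ᶠ s in 𝓝[≠] a, s ≠ a := self_mem_nhdsWithin
    obtain ⟨s, h7, h8⟩ := (h5.and h6).exists
    exact h8 h7

theorem t5_max (x a : ℝ) (ha : a ^ 3 + α * a = τ * x) (h : 3 * a ^ 2 + α < 0) :
    IsLocalMax (th α τ x) a ∧ ¬ IsLocalMin (th α τ x) a := by
  have h1 : ∀ᶠ s in 𝓝 a, (s ^ 2 + 2 * a * s + 3 * a ^ 2 + 2 * α) / 4 < 0 :=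
    (t5_near a).eventually (gt_mem_nhds (by linarith))
  constructor
  · filter_upwards [h1] with s hs
    have h2 := t5_sub x a s ha
    have h3 := mul_nonpos_of_nonneg_of_nonpos (sq_nonneg (s - a)) hs.le
    linarith
  · intro hm
    have h4 : ∀ᶠ s in 𝓝 a, s = a := by
      filter_upwards [h1, hm] with s hs hs2
      have h2 := t5_sub x a s ha
      by_contra hne
      have h3 : (s - a) ^ 2 * ((s ^ 2 + 2 * a * s + 3 * a ^ 2 + 2 * α) / 4) < 0 :=
        mul_neg_of_pos_of_neg (by have := sub_ne_zero.2 hne; positivity) hs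
      linarith
    have h5 : ∀ᶠ s in 𝓝[≠] a, s = a := h4.filter_mono nhdsWithin_le_nhds
    have h6 : ∀ᶠ s in 𝓝[≠] a, s ≠ a := self_mem_nhdsWithin
    obtain ⟨s, h7, h8⟩ := (h5.and h6).exists
    exact h8 h7

/-! ### evenness -/

theorem t5_image_neg (x : ℝ) (P : (ℝ → ℝ) → ℝ → Prop)
    (hP : ∀ (f : ℝ → ℝ) s, P (fun s => f (-s)) s ↔ P f (-s)) :
    (th α τ (-x)) '' {s | P (th α τ (-x)) s} = (th α τ x) '' {s | P (th α τ x) s} := by
  have h : th α τ (-x) = fun s => th α τ x (-s) := by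
    funext s; exact t5_th_neg x s
  ext y
  constructor
  · rintro ⟨s, hs, rfl⟩
    refine ⟨-s, ?_, ?_⟩
    · change P (th α τ x) (-s)
      rw [← hP, ← h]
      exact hs
    · rw [t5_th_neg]
  · rintro ⟨s, hs, rfl⟩
    refine ⟨-s, ?_, ?_⟩
    · change P (th α τ (-x)) (-s)
      rw [h, hP, neg_neg]
      exact hs
    · rw [t5_th_neg, neg_neg]

theorem t5_localMax_neg (f : ℝ → ℝ) (s : ℝ) :
    IsLocalMax (fun s => f (-s)) s ↔ IsLocalMax f (-s) := by
  have key : ∀ (f : ℝ → ℝ) (s : ℝ), IsLocalMax f (-s) → IsLocalMax (fun s => f (-s)) s := by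
    intro f s h
    have h1 : Tendsto (fun s : ℝ => -s) (𝓝 s) (𝓝 (-s)) := continuous_neg.tendsto s
    exact h1.eventually h
  refine ⟨fun h => ?_, key f s⟩
  have h2 := key (fun s => f (-s)) (-s) (by simpa using h)
  simpa using h2

theorem t5_localMin_neg (f : ℝ → ℝ) (s : ℝ) :
    IsLocalMin (fun s => f (-s)) s ↔ IsLocalMin f (-s) := by
  have key : ∀ (f : ℝ → ℝ) (s : ℝ), IsLocalMin f (-s) → IsLocalMin (fun s => f (-s)) s := by
    intro f s h
    have h1 : Tendsto (fun s : ℝ => -s) (𝓝 s) (𝓝 (-s)) := continuous_neg.tendsto s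
    exact h1.eventually h
  refine ⟨fun h => ?_, key f s⟩
  have h2 := key (fun s => f (-s)) (-s) (by simpa using h)
  simpa using h2

theorem t5_V3_def (x : ℝ) : V3 α τ x =
    if α < 0 ∧ |x| < xstar α τ then
      sSup ((th α τ x) '' {s | IsLocalMax (th α τ x) s}) -
      sSup ((th α τ x) '' {s | IsLocalMin (th α τ x) s})
    else 0 := rfl

theorem V3_even (x : ℝ) : V3 α τ (-x) = V3 α τ x := by
  rw [t5_V3_def, t5_V3_def, abs_neg, t5_image_neg x IsLocalMax t5_localMax_neg,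
    t5_image_neg x IsLocalMin t5_localMin_neg]

/-! ### the roots -/

/-- `m = √(-α/3)` -/
def t5m (α : ℝ) : ℝ := √(-α / 3)

/-- the angle -/
def t5phi (α τ x : ℝ) : ℝ := Real.arccos (τ * x / (2 * t5m α ^ 3))

/-- largest root -/
def t5r1 (α τ x : ℝ) : ℝ := 2 * t5m α * Real.cos (t5phi α τ x / 3)

/-- least root -/
def t5r2 (α τ x : ℝ) : ℝ := 2 * t5m α * Real.cos ((2 * π + t5phi α τ x) / 3)

/-- middle root -/
def t5r3 (α τ x : ℝ) : ℝ := 2 * t5m α * Real.cos ((2 * π - t5phi α τ x) / 3)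

theorem t5_m_pos (hα : α < 0) : 0 < t5m α := Real.sqrt_pos.2 (by linarith)

theorem t5_m_sq (hα : α < 0) : t5m α ^ 2 = -α / 3 := Real.sq_sqrt (by linarith)

theorem t5_xstar (hτ : 0 < τ) (hα : α < 0) : τ * xstar α τ = 2 * t5m α ^ 3 := by
  have h1 : (-α / 3) ^ (3 / 2 : ℝ) = t5m α ^ 3 := by
    rw [t5m, Real.sqrt_eq_rpow, ← Real.rpow_natCast, ← Real.rpow_mul (by linarith)]
    norm_num
  rw [xstar, h1]
  field_simp

theorem t5_cos (u : ℝ) (hα : α < 0) :
    (2 * t5m α * Real.cos u) ^ 3 + α * (2 * t5m α * Real.cos u) =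
      2 * t5m α ^ 3 * Real.cos (3 * u) := by
  have h := t5_m_sq hα
  have h1 : α = -3 * t5m α ^ 2 := by linarith
  rw [Real.cos_three_mul]
  linear_combination (2 * t5m α * Real.cos u) * h1

theorem t5_phi_cos (hτ : 0 < τ) (hα : α < 0) (x : ℝ) (hx : |x| ≤ xstar α τ) :
    2 * t5m α ^ 3 * Real.cos (t5phi α τ x) = τ * x := by
  have hm := t5_m_pos hα
  have h1 := t5_xstar hτ hα
  have h2 : |τ * x| ≤ 2 * t5m α ^ 3 := by
    rw [abs_mul, abs_of_pos hτ, ← h1]
    exact mul_le_mul_of_nonneg_left hx hτ.le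
  have h3 := abs_le.1 h2
  have h4 : 0 < 2 * t5m α ^ 3 := by positivity
  rw [t5phi, Real.cos_arccos]
  · field_simp
  · rw [le_div_iff₀ h4]; linarith [h3.1]
  · rw [div_le_iff₀ h4]; linarith [h3.2]

theorem t5_r1 (hτ : 0 < τ) (hα : α < 0) (x : ℝ) (hx : |x| ≤ xstar α τ) :
    t5r1 α τ x ^ 3 + α * t5r1 α τ x = τ * x := by
  rw [t5r1, t5_cos _ hα, ← t5_phi_cos hτ hα x hx]
  congr 2
  ring

theorem t5_r2 (hτ : 0 < τ) (hα : α < 0) (x : ℝ) (hx : |x| ≤ xstar α τ) :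
    t5r2 α τ x ^ 3 + α * t5r2 α τ x = τ * x := by
  rw [t5r2, t5_cos _ hα, ← t5_phi_cos hτ hα x hx]
  congr 1
  rw [show 3 * ((2 * π + t5phi α τ x) / 3) = t5phi α τ x + 2 * π by ring, Real.cos_add_two_pi]

theorem t5_r3 (hτ : 0 < τ) (hα : α < 0) (x : ℝ) (hx : |x| ≤ xstar α τ) :
    t5r3 α τ x ^ 3 + α * t5r3 α τ x = τ * x := by
  rw [t5r3, t5_cos _ hα, ← t5_phi_cos hτ hα x hx]
  congr 1
  rw [show 3 * ((2 * π - t5phi α τ x) / 3) = 2 * π - t5phi α τ x by ring, Real.cos_two_pi_sub]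

theorem t5_sum (x : ℝ) : t5r1 α τ x + t5r2 α τ x + t5r3 α τ x = 0 := by
  rw [t5r1, t5r2, t5r3]
  have h1 : Real.cos ((2 * π + t5phi α τ x) / 3) + Real.cos ((2 * π - t5phi α τ x) / 3) =
      -Real.cos (t5phi α τ x / 3) := by
    rw [show (2 * π + t5phi α τ x) / 3 = 2 * π / 3 + t5phi α τ x / 3 by ring,
      show (2 * π - t5phi α τ x) / 3 = 2 * π / 3 - t5phi α τ x / 3 by ring,
      Real.cos_add, Real.cos_sub]
    have h2 : Real.cos (2 * π / 3) = -(1 / 2) := by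
      rw [show 2 * π / 3 = π - π / 3 by ring, Real.cos_pi_sub, Real.cos_pi_div_three]
    rw [h2]; ring
  linear_combination (2 * t5m α) * h1

theorem t5_cos_two : Real.cos (2 * π / 3) = -(1 / 2) := by
  rw [show 2 * π / 3 = π - π / 3 by ring, Real.cos_pi_sub, Real.cos_pi_div_three]

theorem t5_phi_range (hτ : 0 < τ) (hα : α < 0) (x : ℝ) (hx : 0 ≤ x) (hx' : x < xstar α τ) :
    0 < t5phi α τ x ∧ t5phi α τ x ≤ π / 2 := by
  have hm := t5_m_pos hα
  have h1 := t5_xstar hτ hα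
  have h4 : 0 < 2 * t5m α ^ 3 := by positivity
  have h5 : τ * x < 2 * t5m α ^ 3 := by
    rw [← h1]; exact mul_lt_mul_of_pos_left hx' hτ
  constructor
  · rw [t5phi, Real.arccos_pos, div_lt_one h4]; exact h5
  · rw [t5phi, Real.arccos_le_pi_div_two]; positivity

theorem t5_order (hτ : 0 < τ) (hα : α < 0) (x : ℝ) (hx : 0 ≤ x) (hx' : x < xstar α τ) :
    √3 * t5m α ≤ t5r1 α τ x ∧ t5r2 α τ x < -t5m α ∧ -t5m α < t5r3 α τ x ∧ t5r3 α τ x ≤ 0 := by
  obtain ⟨h0, h1⟩ := t5_phi_range hτ hα x hx hx'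
  have hm := t5_m_pos hα
  have hpi := Real.pi_pos
  refine ⟨?_, ?_, ?_, ?_⟩
  · have h2 : Real.cos (π / 6) ≤ Real.cos (t5phi α τ x / 3) :=
      Real.cos_le_cos_of_nonneg_of_le_pi (by linarith) (by linarith) (by linarith)
    rw [Real.cos_pi_div_six] at h2
    rw [t5r1]
    nlinarith
  · have h2 : Real.cos ((2 * π + t5phi α τ x) / 3) < Real.cos (2 * π / 3) :=
      Real.cos_lt_cos_of_nonneg_of_le_pi (by linarith) (by linarith) (by linarith)
    rw [t5_cos_two] at h2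
    rw [t5r2]
    nlinarith
  · have h2 : Real.cos (2 * π / 3) < Real.cos ((2 * π - t5phi α τ x) / 3) :=
      Real.cos_lt_cos_of_nonneg_of_le_pi (by linarith) (by linarith) (by linarith)
    rw [t5_cos_two] at h2
    rw [t5r3]
    nlinarith
  · have h2 : Real.cos ((2 * π - t5phi α τ x) / 3) ≤ 0 :=
      Real.cos_nonpos_of_pi_div_two_le_of_le (by linarith) (by linarith)
    rw [t5r3]
    nlinarith

/-- the structure of the critical points -/
theorem t5_main (hτ : 0 < τ) (hα : α < 0) (x : ℝ) (hx : 0 ≤ x) (hx' : x < xstar α τ) :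
    gg α τ x = -th α τ x (t5r1 α τ x) ∧
    V3 α τ x = th α τ x (t5r3 α τ x) - th α τ x (t5r2 α τ x) ∧
    th α τ x (t5r1 α τ x) + th α τ x (t5r2 α τ x) + th α τ x (t5r3 α τ x) = -(α ^ 2 / 2) ∧
    ∀ s ∈ Icc (t5r2 α τ x) (t5r1 α τ x), th α τ x s ≤ th α τ x (t5r3 α τ x) := by
  have hxa : |x| ≤ xstar α τ := by rw [abs_of_nonneg hx]; exact hx'.le
  have e1 := t5_r1 hτ hα x hxa
  have e2 := t5_r2 hτ hα x hxa
  have e3 := t5_r3 hτ hα x hxa
  have e4 := t5_sum (α := α) (τ := τ) x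
  obtain ⟨o1, o2, o3, o4⟩ := t5_order hτ hα x hx hx'
  have hm := t5_m_pos hα
  have hm2 := t5_m_sq hα
  set s₁ := t5r1 α τ x
  set s₂ := t5r2 α τ x
  set s₃ := t5r3 α τ x
  set m := t5m α
  have h3 : (0 : ℝ) < √3 := by positivity
  have h33 : √3 * √3 = 3 := Real.mul_self_sqrt (by norm_num)
  have hs1 : 0 < s₁ := lt_of_lt_of_le (by positivity) o1
  have hs1sq : -α ≤ s₁ ^ 2 := by
    have : (√3 * m) ^ 2 ≤ s₁ ^ 2 := by
      apply pow_le_pow_left₀ (by positivity) o1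
    have h4 : (√3 * m) ^ 2 = 3 * m ^ 2 := by
      rw [mul_pow, pow_two (√3), h33]
    rw [h4, hm2] at this
    linarith
  have h23 : s₂ < s₃ := by linarith
  have hne : s₂ ≠ s₃ := h23.ne
  -- pair sums
  have p23 : s₂ ^ 2 + s₂ * s₃ + s₃ ^ 2 + α = 0 := by
    have h : (s₂ - s₃) * (s₂ ^ 2 + s₂ * s₃ + s₃ ^ 2 + α) = 0 := by
      linear_combination e2 - e3
    rcases mul_eq_zero.1 h with h | h
    · exact absurd (sub_eq_zero.1 h) hne
    · exact h
  have hs1e : s₁ = -s₂ - s₃ := by linarith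
  have hroot : ∀ s : ℝ, s ^ 3 + α * s = τ * x → s = s₁ ∨ s = s₂ ∨ s = s₃ := by
    intro s hs
    have h : (s - s₁) * ((s - s₂) * (s - s₃)) = 0 := by
      rw [hs1e]
      linear_combination hs - e2 - (s - s₂) * p23
    rcases mul_eq_zero.1 h with h | h
    · left; linarith
    · rcases mul_eq_zero.1 h with h | h
      · right; left; linarith
      · right; right; linarith
  have min1 := t5_min x s₁ e1 (by nlinarith)
  have min2 := t5_min x s₂ e2 (by nlinarith)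
  have max3 := t5_max x s₃ e3 (by nlinarith)
  have setMax : {s | IsLocalMax (th α τ x) s} = {s₃} := by
    ext s
    constructor
    · intro h
      rcases hroot s (t5_crit x s (Or.inr h)) with h1 | h1 | h1
      · exact absurd (h1 ▸ h) min1.2
      · exact absurd (h1 ▸ h) min2.2
      · exact h1
    · intro h
      have h1 : s = s₃ := h
      rw [h1]
      exact max3.1
  have setMin : {s | IsLocalMin (th α τ x) s} = {s₁, s₂} := by
    ext s
    constructor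
    · intro h
      rcases hroot s (t5_crit x s (Or.inl h)) with h1 | h1 | h1
      · exact Or.inl h1
      · exact Or.inr h1
      · exact absurd (h1 ▸ h) max3.2
    · intro h
      rcases h with h1 | h1
      · rw [h1]; exact min1.1
      · have h1' : s = s₂ := h1
        rw [h1']; exact min2.1
  have glob : ∀ s, th α τ x s₁ ≤ th α τ x s := by
    intro s
    have h1 := t5_sub x s₁ s e1
    have h2 : 0 ≤ (s ^ 2 + 2 * s₁ * s + 3 * s₁ ^ 2 + 2 * α) / 4 := by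
      nlinarith [sq_nonneg (s + s₁)]
    have h3 := mul_nonneg (sq_nonneg (s - s₁)) h2
    linarith
  refine ⟨?_, ?_, ?_, ?_⟩
  · have hb : ∀ s : ℝ, τ * x * s - Wr α s ≤ -th α τ x s₁ := by
      intro s
      have h1 := glob s
      have h2 : th α τ x s = Wr α s - τ * x * s := rfl
      linarith
    apply le_antisymm
    · exact ciSup_le hb
    · have h1 : -th α τ x s₁ = τ * x * s₁ - Wr α s₁ := by
        rw [th]; ring
      rw [h1]
      exact le_ciSup (f := fun s : ℝ => τ * x * s - Wr α s) ⟨-th α τ x s₁, by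
        rintro _ ⟨s, rfl⟩; exact hb s⟩ s₁
  · rw [t5_V3_def, if_pos ⟨hα, by rwa [abs_of_nonneg hx]⟩, setMax, setMin, Set.image_singleton,
      csSup_singleton, Set.image_pair, csSup_pair, max_eq_right (glob s₂)]
  · have f : ∀ s : ℝ, s ^ 3 + α * s = τ * x → th α τ x s = α * s ^ 2 / 4 - 3 / 4 * (τ * x * s) := by
      intro s hs
      rw [t5_th_def]
      linear_combination (s / 4) * hs
    rw [f s₁ e1, f s₂ e2, f s₃ e3, hs1e]
    linear_combination (α / 2) * p23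
  · intro s hs
    have h1 := t5_sub x s₃ s e3
    have h2 : (s ^ 2 + 2 * s₃ * s + 3 * s₃ ^ 2 + 2 * α) / 4 ≤ 0 := by
      have g1 : (s - s₂) * (s - s₁) ≤ 0 :=
        mul_nonpos_of_nonneg_of_nonpos (sub_nonneg.2 hs.1) (sub_nonpos.2 hs.2)
      have g2 : 0 ≤ -s₃ * (s - s₂) := mul_nonneg (by linarith) (sub_nonneg.2 hs.1)
      have g3 : 0 ≤ s₁ * (s₃ - s₂) := mul_nonneg hs1.le (by linarith)
      rw [hs1e] at g1 g3
      nlinarith [p23]
    have h3 := mul_nonpos_of_nonneg_of_nonpos (sq_nonneg (s - s₃)) h2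
    linarith

theorem V3_spec (hτ : 0 < τ) (hα : α < 0) (x : ℝ) (hx : 0 ≤ x) (hx' : x < xstar α τ) :
    ∃ s₁ s₂ s₃ : ℝ, s₂ < s₃ ∧ s₃ ≤ 0 ∧ √(-α) ≤ s₁ ∧ s₂ ≤ -√(-α / 3) ∧
      s₁ ^ 3 + α * s₁ = τ * x ∧ s₂ ^ 3 + α * s₂ = τ * x ∧ s₃ ^ 3 + α * s₃ = τ * x ∧
      gg α τ x = -th α τ x s₁ ∧ V3 α τ x = th α τ x s₃ - th α τ x s₂ ∧
      th α τ x s₁ + th α τ x s₂ + th α τ x s₃ = -(α ^ 2 / 2) ∧
      ∀ s ∈ Icc s₂ s₁, th α τ x s ≤ th α τ x s₃ := by
  have hxa : |x| ≤ xstar α τ := by rw [abs_of_nonneg hx]; exact hx'.le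
  obtain ⟨o1, o2, o3, o4⟩ := t5_order hτ hα x hx hx'
  obtain ⟨m1, m2, m3, m4⟩ := t5_main hτ hα x hx hx'
  refine ⟨t5r1 α τ x, t5r2 α τ x, t5r3 α τ x, by linarith, o4, ?_, o2.le,
    t5_r1 hτ hα x hxa, t5_r2 hτ hα x hxa, t5_r3 hτ hα x hxa, m1, m2, m3, m4⟩
  have h1 : √(-α) = √3 * t5m α := by
    rw [t5m, ← Real.sqrt_mul (by norm_num)]
    congr 1
    ring
  rw [h1]
  exact o1

theorem V3_nonneg (hτ : 0 < τ) (x : ℝ) : 0 ≤ V3 α τ x := by
  have key : ∀ x : ℝ, 0 ≤ x → 0 ≤ V3 α τ x := by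
    intro x hx
    by_cases h : α < 0 ∧ |x| < xstar α τ
    · have hx' : x < xstar α τ := by
        have := h.2
        rwa [abs_of_nonneg hx] at this
      obtain ⟨s₁, s₂, s₃, h1, h2, h3, h4, -, -, -, -, h5, -, h6⟩ := V3_spec hτ h.1 x hx hx'
      have h7 : 0 ≤ √(-α) := Real.sqrt_nonneg _
      rw [h5]
      have h8 := h6 s₂ ⟨le_rfl, by linarith⟩
      linarith
    · rw [t5_V3_def, if_neg h]
  rcases le_total 0 x with h | h
  · exact key x h
  · rw [← V3_even]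
    exact key (-x) (by linarith)

theorem t5_formula (hτ : 0 < τ) (hα : α < 0) (x : ℝ) :
    V3 α τ x = th α τ |x| (t5r3 α τ |x|) - th α τ |x| (t5r2 α τ |x|) := by
  have h0 : V3 α τ x = V3 α τ |x| := by
    rcases le_total 0 x with h | h
    · rw [abs_of_nonneg h]
    · rw [abs_of_nonpos h, V3_even]
  by_cases h : |x| < xstar α τ
  · rw [h0]
    exact (t5_main hτ hα |x| (abs_nonneg x) h).2.1
  · rw [t5_V3_def, if_neg (fun h' => h h'.2)]
    have hm := t5_m_pos hα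
    have h4 : 0 < 2 * t5m α ^ 3 := by positivity
    have h5 : t5phi α τ |x| = 0 := by
      rw [t5phi, Real.arccos_eq_zero, le_div_iff₀ h4, one_mul, ← t5_xstar hτ hα]
      exact mul_le_mul_of_nonneg_left (not_lt.1 h) hτ.le
    rw [t5r3, t5r2, h5]
    simp

theorem V3_continuous (hτ : 0 < τ) : Continuous (V3 α τ) := by
  by_cases hα : α < 0
  · have h : V3 α τ = fun x => th α τ |x| (t5r3 α τ |x|) - th α τ |x| (t5r2 α τ |x|) := by
      funext x; exact t5_formula hτ hα x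
    rw [h]
    have h1 : Continuous fun x : ℝ => t5phi α τ |x| := by
      unfold t5phi
      exact Real.continuous_arccos.comp (by fun_prop)
    unfold th Wr t5r3 t5r2
    fun_prop
  · have h : V3 α τ = fun _ => 0 := by
      funext x
      rw [t5_V3_def, if_neg (fun h' => hα h'.1)]
    rw [h]
    exact continuous_const

end

end Pool.Agent.MP_941b23_mp
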