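import Pool.Agent.MP_941b23_mp.Defs2
import Pool.Agent.MP_941b23_mp.P5
import Pool.Agent.MP_941b23_mp.T1a
import Pool.Agent.MP_941b23_mp.T2b
import Pool.Agent.MP_941b23_mp.T5

/-!
# [P6] truncation of weakly admissible triples
-/

namespace Pool.Agent.MP_941b23_mp

open MeasureTheory Set Filter Topology
open scoped ENNReal NNReal Real

noncomputable section

/-- uniform probability on `(T, 2T]` -/
def p6u (T : ℝ) : Measure ℝ := ENNReal.ofReal (1 / T) • volume.restrict (Ioc T (2 * T))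

theorem p6u_univ (T : ℝ) (hT : 0 < T) : p6u T univ = 1 := by
  simp only [p6u, Measure.smul_apply, Measure.restrict_apply_univ, Real.volume_Ioc, smul_eq_mul]
  rw [← ENNReal.ofReal_mul (by positivity), show 1 / T * (2 * T - T) = 1 by field_simp; ring]
  simp

theorem p6u_prob (T : ℝ) (hT : 0 < T) : IsProbabilityMeasure (p6u T) := ⟨p6u_univ T hT⟩

theorem p6u_noatom (T x : ℝ) : p6u T {x} = 0 := by
  simp only [p6u, Measure.smul_apply, smul_eq_mul]
  have : (volume.restrict (Ioc T (2 * T))) {x} = 0 := by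
    refine le_antisymm ((Measure.restrict_apply_le _ _).trans ?_) bot_le
    simp
  rw [this, mul_zero]

theorem p6u_supp (T : ℝ) : p6u T (Ioc T (2 * T))ᶜ = 0 := by
  simp only [p6u, Measure.smul_apply, smul_eq_mul]
  rw [Measure.restrict_apply measurableSet_Ioc.compl]
  simp

theorem p6u_ae (T : ℝ) : ∀ᵐ y ∂(p6u T), T < y ∧ y ≤ 2 * T := by
  rw [ae_iff]
  exact p6u_supp T

theorem p6_lintegral (T : ℝ) (f : ℝ → ℝ≥0∞) :
    ∫⁻ y, f y ∂(p6u T) = ENNReal.ofReal (1 / T) * ∫⁻ y in Ioc T (2 * T), f y := by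
  rw [p6u, lintegral_smul_measure]
  rfl

theorem p6_log_int (x R : ℝ) (hR : 1 ≤ R) :
    ∫⁻ y in Ioc (x - R) (x + R), ENNReal.ofReal (Real.log R - Real.log (y - x))
      = ENNReal.ofReal (2 * R) := by
  have hII : IntervalIntegrable (fun y => Real.log R - Real.log (y - x)) volume (x - R) (x + R) := by
    have h1 : IntervalIntegrable (fun s => Real.log R - Real.log s) volume (-R) R :=
      intervalIntegrable_const.sub intervalIntegral.intervalIntegrable_log'
    have h2 := h1.comp_sub_right x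
    have e1 : -R + x = x - R := by ring
    have e2 : R + x = x + R := by ring
    rw [e1, e2] at h2
    exact h2
  have hint := (intervalIntegrable_iff_integrableOn_Ioc_of_le (by linarith)).1 hII
  rw [← ofReal_integral_eq_lintegral_ofReal hint]
  · congr 1
    rw [← intervalIntegral.integral_of_le (by linarith),
      intervalIntegral.integral_comp_sub_right (fun s => Real.log R - Real.log s) x,
      intervalIntegral.integral_sub intervalIntegrable_const
        intervalIntegral.intervalIntegrable_log', integral_log]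
    simp only [intervalIntegral.integral_const, smul_eq_mul, add_sub_cancel_left, sub_sub_cancel_left,
      Real.log_neg_eq_log]
    ring
  · refine (ae_restrict_iff' measurableSet_Ioc).2 (Eventually.of_forall fun y hy => ?_)
    simp only [Pi.zero_apply, sub_nonneg]
    rcases eq_or_ne y x with h | h
    · subst h
      simp only [sub_self, Real.log_zero]
      exact Real.log_nonneg hR
    · rw [← Real.log_abs (y - x)]
      apply Real.log_le_log (abs_pos.2 (sub_ne_zero.2 h))
      rw [abs_le]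
      constructor <;> linarith [hy.1, hy.2]

theorem p6_Rm_lint (x T : ℝ) (hx : 0 ≤ x) (hT : 1 ≤ T) :
    ∫⁻ y, ENNReal.ofReal (Rm x y) ∂(p6u T) ≤ ENNReal.ofReal 6 := by
  rcases le_or_gt x (3 * T) with h | h
  · rw [p6_lintegral]
    have h1 : ∫⁻ y in Ioc T (2 * T), ENNReal.ofReal (Rm x y)
        ≤ ∫⁻ y in Ioc (x - 3 * T) (x + 3 * T),
          ENNReal.ofReal (Real.log (3 * T) - Real.log (y - x)) := by
      calc ∫⁻ y in Ioc T (2 * T), ENNReal.ofReal (Rm x y)
          ≤ ∫⁻ y in Ioc T (2 * T), ENNReal.ofReal (Real.log (3 * T) - Real.log (y - x)) := by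
            refine setLIntegral_mono' measurableSet_Ioc (fun y hy => ?_)
            apply ENNReal.ofReal_le_ofReal
            unfold Rm
            rcases eq_or_ne x y with hxy | hxy
            · subst hxy
              simp only [sub_self, abs_zero, div_zero, Real.log_zero, sub_zero]
              exact Real.log_nonneg (by linarith)
            · rw [← Real.log_abs (y - x), abs_sub_comm y x]
              have hp : 0 < |x - y| := abs_pos.2 (sub_ne_zero.2 hxy)
              rw [← Real.log_div (by linarith) hp.ne']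
              apply Real.log_le_log (by positivity)
              apply div_le_div_of_nonneg_right _ hp.le
              refine max_le (max_le h (by linarith [hy.2])) (by linarith)
        _ ≤ _ := by
            refine lintegral_mono_set (fun y hy => ⟨?_, ?_⟩) <;> linarith [hy.1, hy.2]
    rw [p6_log_int x (3 * T) (by linarith)] at h1
    calc _ ≤ ENNReal.ofReal (1 / T) * ENNReal.ofReal (2 * (3 * T)) := by gcongr
      _ = ENNReal.ofReal 6 := by
          rw [← ENNReal.ofReal_mul (by positivity)]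
          congr 1
          field_simp
          ring
  · have := p6u_prob T (by linarith)
    calc ∫⁻ y, ENNReal.ofReal (Rm x y) ∂(p6u T) ≤ ∫⁻ _, ENNReal.ofReal 6 ∂(p6u T) := by
          refine lintegral_mono_ae ?_
          filter_upwards [p6u_ae T] with y hy
          apply ENNReal.ofReal_le_ofReal
          unfold Rm
          have h1 : 0 < x - y := by linarith [hy.2]
          rw [abs_of_pos h1, max_eq_left (a := x) (b := y) (by linarith),
            max_eq_left (by linarith)]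
          have h2 : x / (x - y) ≤ 3 := by
            rw [div_le_iff₀ h1]
            linarith [hy.2]
          have h3 := Real.log_le_sub_one_of_pos (show 0 < x / (x - y) by
            apply div_pos _ h1; linarith)
          linarith
      _ = ENNReal.ofReal 6 := by simp

theorem p6_Rm_comm (x y : ℝ) : Rm x y = Rm y x := by
  unfold Rm
  rw [max_comm x y, abs_sub_comm]

theorem p6_Rm_nonneg (x y : ℝ) (hx : 0 ≤ x) (hy : 0 ≤ y) : 0 ≤ Rm x y := by
  unfold Rm
  rcases eq_or_ne x y with h | h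
  · subst h
    simp
  · have hp : 0 < |x - y| := abs_pos.2 (sub_ne_zero.2 h)
    apply Real.log_nonneg
    rw [one_le_div hp]
    refine le_max_of_le_left ?_
    rcases le_total x y with h' | h'
    · rw [max_eq_right h', abs_sub_comm, abs_of_nonneg (by linarith)]
      linarith
    · rw [max_eq_left h', abs_of_nonneg (by linarith)]
      linarith

theorem p6_Rp_comm (x y : ℝ) : Rp x y = Rp y x := by
  unfold Rp
  rw [max_comm x y, add_comm]

theorem p6_Rp_le (x y : ℝ) (hx : 0 ≤ x) (hy : 0 ≤ y) : Rp x y ≤ 6 := by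
  unfold Rp
  have hm : 0 < max (max x y) 1 := by positivity
  have h1 : (x + y) / max (max x y) 1 ≤ 2 := by
    rw [div_le_iff₀ hm]
    have h1 : x ≤ max (max x y) 1 := (le_max_left _ _).trans (le_max_left _ _)
    have h2 : y ≤ max (max x y) 1 := (le_max_right _ _).trans (le_max_left _ _)
    linarith
  have h0 : 0 ≤ (x + y) / max (max x y) 1 := by positivity
  rcases h0.eq_or_lt with h | h
  · rw [← h]; simp
  · have := Real.log_le_sub_one_of_pos h
    linarith

theorem p6_Rp_nonneg (x y : ℝ) (hx : 0 ≤ x) (hy : 0 ≤ y) (h : 1 ≤ x ∨ 1 ≤ y) : 0 ≤ Rp x y := by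
  unfold Rp
  have hm : 0 < max (max x y) 1 := by positivity
  apply Real.log_nonneg
  rw [one_le_div hm]
  refine max_le (max_le (by linarith) (by linarith)) ?_
  rcases h with h | h <;> linarith

theorem p6_Rp_lint (x T : ℝ) (hx : 0 ≤ x) (hT : 1 ≤ T) :
    ∫⁻ y, ENNReal.ofReal (Rp x y) ∂(p6u T) ≤ ENNReal.ofReal 6 := by
  have := p6u_prob T (by linarith)
  calc ∫⁻ y, ENNReal.ofReal (Rp x y) ∂(p6u T) ≤ ∫⁻ _, ENNReal.ofReal 6 ∂(p6u T) := by
        refine lintegral_mono_ae ?_
        filter_upwards [p6u_ae T] with y hy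
        exact ENNReal.ofReal_le_ofReal (p6_Rp_le x y hx (by linarith [hy.1]))
    _ = ENNReal.ofReal 6 := by simp

theorem p6_Rm_meas : Measurable (fun z : ℝ × ℝ => Rm z.1 z.2) := by
  unfold Rm
  fun_prop

theorem p6_Rp_meas : Measurable (fun z : ℝ × ℝ => Rp z.1 z.2) := by
  unfold Rp
  fun_prop

/-- kernel against the uniform measure -/
theorem p6_B (K : ℝ → ℝ → ℝ) (hKm : Measurable (fun z : ℝ × ℝ => K z.1 z.2)) (T C : ℝ)
    (hT : 1 ≤ T) (hC : 0 ≤ C) (hpos : ∀ x y, 0 ≤ x → T < y → 0 ≤ K x y)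
    (hb : ∀ x, 0 ≤ x → ∫⁻ y, ENNReal.ofReal (K x y) ∂(p6u T) ≤ ENNReal.ofReal C)
    (m : Measure ℝ) [IsFiniteMeasure m] (hm : m (Iio 0) = 0) :
    Integrable (fun z : ℝ × ℝ => K z.1 z.2) (m.prod (p6u T)) ∧
      ∫ z : ℝ × ℝ, K z.1 z.2 ∂(m.prod (p6u T)) ≤ C * m.real univ := by
  have hp := p6u_prob T (by linarith)
  have hm' : ∀ᵐ x ∂m, 0 ≤ x := by
    rw [ae_iff]
    convert hm using 2
    ext x
    simp
  have hae : ∀ᵐ z : ℝ × ℝ ∂(m.prod (p6u T)), 0 ≤ K z.1 z.2 := by
    have h1 : ∀ᵐ z : ℝ × ℝ ∂(m.prod (p6u T)), 0 ≤ z.1 :=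
      Measure.quasiMeasurePreserving_fst.ae hm'
    have h2 : ∀ᵐ z : ℝ × ℝ ∂(m.prod (p6u T)), T < z.2 ∧ z.2 ≤ 2 * T :=
      Measure.quasiMeasurePreserving_snd.ae (p6u_ae T)
    filter_upwards [h1, h2] with z hz1 hz2
    exact hpos _ _ hz1 hz2.1
  have hl : ∫⁻ z : ℝ × ℝ, ENNReal.ofReal (K z.1 z.2) ∂(m.prod (p6u T))
      ≤ ENNReal.ofReal (C * m.real univ) := by
    rw [lintegral_prod _ hKm.ennreal_ofReal.aemeasurable]
    calc _ ≤ ∫⁻ _, ENNReal.ofReal C ∂m := by
          refine lintegral_mono_ae ?_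
          filter_upwards [hm'] with x hx
          exact hb x hx
      _ = _ := by
          rw [lintegral_const, ENNReal.ofReal_mul hC, Measure.real, ENNReal.ofReal_toReal
            (measure_ne_top m univ)]
  refine ⟨⟨hKm.aestronglyMeasurable, ?_⟩, ?_⟩
  · rw [hasFiniteIntegral_iff_ofReal hae]
    exact hl.trans_lt ENNReal.ofReal_lt_top
  · rw [integral_eq_lintegral_of_nonneg_ae hae hKm.aestronglyMeasurable]
    exact ENNReal.toReal_le_of_le_ofReal (by positivity) hl

/-- the truncated measure -/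
def p6m (T : ℝ) (S : Set ℝ) (r : ℝ≥0) (b : Measure ℝ) : Measure ℝ := b.restrict S + r • p6u T

theorem p6_A (K : ℝ → ℝ → ℝ) (hKm : Measurable (fun z : ℝ × ℝ => K z.1 z.2)) (T C : ℝ)
    (hT : 1 ≤ T) (hC : 0 ≤ C)
    (hpos : ∀ x y, 0 ≤ x → 0 ≤ y → (T < x ∨ T < y) → 0 ≤ K x y)
    (hb1 : ∀ x, 0 ≤ x → ∫⁻ y, ENNReal.ofReal (K x y) ∂(p6u T) ≤ ENNReal.ofReal C)
    (hb2 : ∀ x, 0 ≤ x → ∫⁻ y, ENNReal.ofReal (K y x) ∂(p6u T) ≤ ENNReal.ofReal C)
    (b c : Measure ℝ) [IsFiniteMeasure b] [IsFiniteMeasure c] (hb0 : b (Iio 0) = 0)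
    (hc0 : c (Iio 0) = 0) (hi : Integrable (fun z : ℝ × ℝ => K z.1 z.2) (b.prod c))
    (S S' : Set ℝ) (hS : MeasurableSet S) (hS' : MeasurableSet S') (hST : Iic T ⊆ S)
    (hST' : Iic T ⊆ S') (r s : ℝ≥0) :
    Integrable (fun z : ℝ × ℝ => K z.1 z.2) ((p6m T S r b).prod (p6m T S' s c)) ∧
    ∫ z : ℝ × ℝ, K z.1 z.2 ∂((p6m T S r b).prod (p6m T S' s c)) ≤
      ∫ z : ℝ × ℝ, K z.1 z.2 ∂(b.prod c) +
        C * (s * b.real univ + r * c.real univ + r * s) := by
  have hp := p6u_prob T (by linarith)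
  have hu0 : p6u T (Iio 0) = 0 := by
    refine measure_mono_null (fun x hx => ?_) (p6u_supp T)
    simp only [mem_Iio] at hx
    simp only [mem_compl_iff, mem_Ioc, not_and]
    intro h
    linarith
  have hbr0 : (b.restrict S) (Iio 0) = 0 :=
    le_antisymm ((Measure.restrict_apply_le _ _).trans hb0.le) bot_le
  have hcr0 : (c.restrict S') (Iio 0) = 0 :=
    le_antisymm ((Measure.restrict_apply_le _ _).trans hc0.le) bot_le
  -- the four pieces
  have e : (p6m T S r b).prod (p6m T S' s c) =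
      (b.prod c).restrict (S ×ˢ S') + s • ((b.restrict S).prod (p6u T))
        + (r • ((p6u T).prod (c.restrict S')) + r • (s • ((p6u T).prod (p6u T)))) := by
    unfold p6m
    rw [Measure.prod_add, Measure.add_prod, Measure.add_prod, Measure.prod_smul_right,
      Measure.prod_smul_left, Measure.prod_restrict, Measure.prod_smul_right,
      Measure.prod_smul_left, smul_comm s r]
    abel
  have hBx : ∀ x y, 0 ≤ x → T < y → 0 ≤ K x y := fun x y hx hy =>
    hpos x y hx (by linarith) (Or.inr hy)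
  have hBy : ∀ x y, 0 ≤ x → T < y → 0 ≤ K y x := fun x y hx hy =>
    hpos y x (by linarith) hx (Or.inl hy)
  obtain ⟨i1, l1⟩ := p6_B K hKm T C hT hC hBx hb1 (b.restrict S) hbr0
  obtain ⟨i3, l3⟩ := p6_B K hKm T C hT hC hBx hb1 (p6u T) hu0
  obtain ⟨i2', l2'⟩ := p6_B (fun x y => K y x) (hKm.comp measurable_swap) T C hT hC hBy hb2
    (c.restrict S') hcr0
  have i2 : Integrable (fun z : ℝ × ℝ => K z.1 z.2) ((p6u T).prod (c.restrict S')) := i2'.swap
  have l2 : ∫ z : ℝ × ℝ, K z.1 z.2 ∂((p6u T).prod (c.restrict S'))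
      ≤ C * (c.restrict S').real univ := by
    rw [← integral_prod_swap]
    exact l2'
  have i0 : Integrable (fun z : ℝ × ℝ => K z.1 z.2) ((b.prod c).restrict (S ×ˢ S')) :=
    hi.restrict
  have l0 : ∫ z : ℝ × ℝ, K z.1 z.2 ∂((b.prod c).restrict (S ×ˢ S'))
      ≤ ∫ z : ℝ × ℝ, K z.1 z.2 ∂(b.prod c) := by
    rw [← integral_add_compl (hS.prod hS') hi]
    have hb' : ∀ᵐ x ∂b, 0 ≤ x := by
      rw [ae_iff]
      convert hb0 using 2
      ext x
      simp
    have hc' : ∀ᵐ x ∂c, 0 ≤ x := by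
      rw [ae_iff]
      convert hc0 using 2
      ext x
      simp
    have h1 : ∀ᵐ z : ℝ × ℝ ∂(b.prod c), 0 ≤ z.1 := Measure.quasiMeasurePreserving_fst.ae hb'
    have h2 : ∀ᵐ z : ℝ × ℝ ∂(b.prod c), 0 ≤ z.2 := Measure.quasiMeasurePreserving_snd.ae hc'
    have h3 : 0 ≤ ∫ z in (S ×ˢ S')ᶜ, K z.1 z.2 ∂(b.prod c) := by
      refine setIntegral_nonneg_of_ae_restrict ?_
      refine (ae_restrict_iff' (hS.prod hS').compl).2 ?_
      filter_upwards [h1, h2] with z hz1 hz2 hz
      refine hpos _ _ hz1 hz2 ?_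
      by_contra hcon
      rw [not_or, not_lt, not_lt] at hcon
      exact hz ⟨hST hcon.1, hST' hcon.2⟩
    linarith
  have j1 : Integrable (fun z : ℝ × ℝ => K z.1 z.2) (s • ((b.restrict S).prod (p6u T))) :=
    i1.smul_measure_nnreal
  have j2 : Integrable (fun z : ℝ × ℝ => K z.1 z.2) (r • ((p6u T).prod (c.restrict S'))) :=
    i2.smul_measure_nnreal
  have j3 : Integrable (fun z : ℝ × ℝ => K z.1 z.2) (r • (s • ((p6u T).prod (p6u T)))) :=
    (i3.smul_measure_nnreal).smul_measure_nnreal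
  have k1 := i0.add_measure j1
  have k2 := j2.add_measure j3
  rw [e]
  refine ⟨k1.add_measure k2, ?_⟩
  rw [integral_add_measure k1 k2, integral_add_measure i0 j1, integral_add_measure j2 j3,
    integral_smul_nnreal_measure, integral_smul_nnreal_measure, integral_smul_nnreal_measure,
    integral_smul_nnreal_measure]
  simp only [NNReal.smul_def, smul_eq_mul]
  have hbu : (b.restrict S).real univ ≤ b.real univ := by
    rw [measureReal_restrict_apply MeasurableSet.univ]
    exact measureReal_mono (subset_univ _)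
  have hcu : (c.restrict S').real univ ≤ c.real univ := by
    rw [measureReal_restrict_apply MeasurableSet.univ]
    exact measureReal_mono (subset_univ _)
  have hun : (p6u T).real univ = 1 := by simp
  rw [hun, mul_one] at l3
  have hr : (0:ℝ) ≤ r := r.2
  have hs : (0:ℝ) ≤ s := s.2
  have m1 : (s:ℝ) * ∫ z : ℝ × ℝ, K z.1 z.2 ∂((b.restrict S).prod (p6u T))
      ≤ s * (C * b.real univ) :=
    mul_le_mul_of_nonneg_left (l1.trans (mul_le_mul_of_nonneg_left hbu hC)) hs
  have m2 : (r:ℝ) * ∫ z : ℝ × ℝ, K z.1 z.2 ∂((p6u T).prod (c.restrict S'))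
      ≤ r * (C * c.real univ) :=
    mul_le_mul_of_nonneg_left (l2.trans (mul_le_mul_of_nonneg_left hcu hC)) hr
  have m3 : (r:ℝ) * ((s:ℝ) * ∫ z : ℝ × ℝ, K z.1 z.2 ∂((p6u T).prod (p6u T)))
      ≤ r * (s * C) :=
    mul_le_mul_of_nonneg_left (mul_le_mul_of_nonneg_left l3 hs) hr
  linarith

/-! the truncated measure -/

/-- mass of the tail as a `ℝ≥0` -/
def p6r (T : ℝ) (b : Measure ℝ) : ℝ≥0 := (b (Ioi T)).toNNReal

theorem p6r_coe (T : ℝ) (b : Measure ℝ) [IsFiniteMeasure b] : ((p6r T b : ℝ≥0) : ℝ≥0∞) = b (Ioi T) :=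
  ENNReal.coe_toNNReal (measure_ne_top _ _)

theorem p6r_real (T : ℝ) (b : Measure ℝ) : ((p6r T b : ℝ≥0) : ℝ) = b.real (Ioi T) := rfl

/-- the truncation -/
def p6t (T : ℝ) (b : Measure ℝ) : Measure ℝ := p6m T (Iic T) (p6r T b) b

theorem p6t_apply (T : ℝ) (b : Measure ℝ) [IsFiniteMeasure b] (A : Set ℝ) (hA : MeasurableSet A) :
    p6t T b A = b (A ∩ Iic T) + b (Ioi T) * p6u T A := by
  unfold p6t p6m
  rw [Measure.add_apply, Measure.restrict_apply hA, Measure.smul_apply]
  congr 1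
  rw [ENNReal.smul_def, p6r_coe, smul_eq_mul]

theorem p6t_univ (T : ℝ) (hT : 0 < T) (b : Measure ℝ) [IsFiniteMeasure b] :
    p6t T b univ = b univ := by
  rw [p6t_apply T b univ MeasurableSet.univ, p6u_univ T hT, mul_one, univ_inter,
    ← measure_add_measure_compl (μ := b) (s := Iic T) measurableSet_Iic, compl_Iic]

theorem p6t_Iio (T : ℝ) (hT : 0 < T) (b : Measure ℝ) [IsFiniteMeasure b] (hb : b (Iio 0) = 0) :
    p6t T b (Iio 0) = 0 := by
  rw [p6t_apply T b _ measurableSet_Iio]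
  have h1 : b (Iio 0 ∩ Iic T) = 0 := measure_mono_null inter_subset_left hb
  have h2 : p6u T (Iio 0) = 0 := by
    refine measure_mono_null (fun x hx => ?_) (p6u_supp T)
    simp only [mem_Iio] at hx
    simp only [mem_compl_iff, mem_Ioc, not_and]
    intro h
    linarith
  rw [h1, h2, mul_zero, add_zero]

theorem p6t_atom (T : ℝ) (b : Measure ℝ) [IsFiniteMeasure b] (hb : ∀ x, b {x} = 0) (x : ℝ) :
    p6t T b {x} = 0 := by
  rw [p6t_apply T b _ (measurableSet_singleton x), p6u_noatom, mul_zero, add_zero]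
  exact measure_mono_null inter_subset_left (hb x)

theorem p6t_finite (T : ℝ) (hT : 0 < T) (b : Measure ℝ) [IsFiniteMeasure b] :
    IsFiniteMeasure (p6t T b) := ⟨by rw [p6t_univ T hT b]; exact measure_lt_top _ _⟩

theorem p6t_Ioi_le (T u : ℝ) (hT : 0 < T) (b : Measure ℝ) [IsFiniteMeasure b] (hu : u ≤ T) :
    p6t T b (Ioi u) = b (Ioi u) := by
  rw [p6t_apply T b _ measurableSet_Ioi]
  have h2 : p6u T (Ioi u) = p6u T univ := by
    refine le_antisymm (measure_mono (subset_univ _)) ?_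
    rw [← measure_add_measure_compl (μ := p6u T) (s := Ioi u) measurableSet_Ioi]
    have : p6u T (Ioi u)ᶜ = 0 := by
      refine measure_mono_null (fun x hx => ?_) (p6u_supp T)
      simp only [mem_compl_iff, mem_Ioi, not_lt] at hx
      simp only [mem_compl_iff, mem_Ioc, not_and]
      intro h
      linarith
    rw [this, add_zero]
  rw [h2, p6u_univ T hT, mul_one]
  have h3 : b (Ioi u) = b (Ioi u ∩ Iic T) + b (Ioi u \ Iic T) :=
    (measure_inter_add_sdiff _ measurableSet_Iic).symm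
  rw [h3]
  congr 2
  ext x
  simp only [mem_Ioi, Set.mem_sdiff, mem_Iic, not_le]
  constructor
  · intro h
    exact ⟨lt_of_le_of_lt hu h, h⟩
  · intro h
    exact h.2

theorem p6t_Ioi_ge (T u : ℝ) (hT : 0 < T) (b : Measure ℝ) [IsFiniteMeasure b] (hu : T ≤ u) :
    p6t T b (Ioi u) ≤ b (Ioi T) := by
  have := p6t_Ioi_le T T hT b le_rfl
  rw [← this]
  exact measure_mono (Ioi_subset_Ioi hu)

theorem p6t_Ioi_zero (T u : ℝ) (hT : 0 < T) (b : Measure ℝ) [IsFiniteMeasure b]
    (hu : 2 * T ≤ u) : p6t T b (Ioi u) = 0 := by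
  rw [p6t_apply T b _ measurableSet_Ioi]
  have h1 : Ioi u ∩ Iic T = ∅ := by
    ext x
    simp only [mem_inter_iff, mem_Ioi, mem_Iic, mem_empty_iff_false, iff_false, not_and, not_le]
    intro h
    linarith
  have h2 : p6u T (Ioi u) = 0 := by
    refine measure_mono_null (fun x hx => ?_) (p6u_supp T)
    simp only [mem_Ioi] at hx
    simp only [mem_compl_iff, mem_Ioc, not_and, not_le]
    intro h
    linarith
  rw [h1, h2, measure_empty, mul_zero, add_zero]

theorem p6_log_moment (T : ℝ) (hT : 0 < T) (b : Measure ℝ) [IsFiniteMeasure b]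
    (hb : b (Iio 0) = 0) : Integrable (fun x => Real.log (1 + |x|)) (p6t T b) := by
  have := p6t_finite T hT b
  refine Integrable.mono' (integrable_const (Real.log (1 + 2 * T)))
    (Measurable.aestronglyMeasurable (by fun_prop)) ?_
  have h1 : ∀ᵐ x ∂(p6t T b), 0 ≤ x := by
    rw [ae_iff]
    convert p6t_Iio T hT b hb using 2
    ext x
    simp
  have h2 : ∀ᵐ x ∂(p6t T b), x ≤ 2 * T := by
    rw [ae_iff]
    convert p6t_Ioi_zero T (2 * T) hT b le_rfl using 2
    ext x
    simp
  filter_upwards [h1, h2] with x hx1 hx2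
  rw [Real.norm_eq_abs, abs_of_nonneg hx1, abs_of_nonneg (Real.log_nonneg (by linarith))]
  exact Real.log_le_log (by linarith) (by linarith)

theorem p6_dI (α τ : ℝ) (hτ : 0 < τ) : ∀ᶠ T in (atTop : Filter ℝ), ∀ t ∈ Ioc T (2 * T),
    1 / T ≤ dI α τ t := by
  obtain ⟨c, η₀, hc, hη, h⟩ := rr_lower (α := α) hτ
  filter_upwards [eventually_ge_atTop 1, eventually_ge_atTop (η₀ ^ 2),
    eventually_ge_atTop (8 * π ^ 2 / (τ * c) ^ 2)] with T h1 h2 h3 t ht
  have hT : 0 < T := by linarith
  have ht0 : 0 < t := by linarith [ht.1]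
  have hs : η₀ ≤ √t := Real.le_sqrt_of_sq_le (by linarith [ht.1])
  have hs1 : 1 ≤ √t := Real.one_le_sqrt.2 (by linarith [ht.1])
  have hr := h _ hs
  have hr1 : 1 ≤ (√t) ^ (1 / 3 : ℝ) := Real.one_le_rpow hs1 (by norm_num)
  have hrc : c ≤ rr α τ (√t * Complex.I) := by nlinarith
  unfold dI
  have hsq : √t ≤ τ * c * T / (2 * π) := by
    apply Real.sqrt_le_iff.2
    refine ⟨by positivity, ?_⟩
    have h5 : 8 * π ^ 2 ≤ T * (τ * c) ^ 2 := by
      rwa [div_le_iff₀ (by positivity)] at h3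
    have h6 : (τ * c * T / (2 * π)) ^ 2 = (T * (τ * c) ^ 2) * T / (4 * π ^ 2) := by ring
    rw [h6, le_div_iff₀ (by positivity)]
    nlinarith [ht.2, mul_le_mul_of_nonneg_right h5 hT.le, mul_le_mul_of_nonneg_right ht.2
      (show (0:ℝ) ≤ 4 * π ^ 2 by positivity)]
  have hst : 0 < √t := by positivity
  have h7 : τ / π * c / (2 * √t) ≤ τ / π * rr α τ (√t * Complex.I) / (2 * √t) := by gcongr
  refine le_trans ?_ h7
  rw [div_le_div_iff₀ hT (by positivity)]
  have h8 : 2 * π * √t ≤ τ * c * T := by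
    rw [le_div_iff₀ (by positivity)] at hsq
    linarith
  have h9 : τ / π * c * T = τ * c * T / π := by ring
  rw [h9, le_div_iff₀ Real.pi_pos]
  linarith

theorem p6_constr (α τ : ℝ) (hτ : 0 < τ) (b : Measure ℝ) [IsFiniteMeasure b]
    (hb : b ≤ sigI α τ) (hb1 : b univ ≤ 1) (T : ℝ) (hT : 0 < T)
    (hd : ∀ t ∈ Ioc T (2 * T), 1 / T ≤ dI α τ t) : p6t T b ≤ sigI α τ := by
  have e : sigI α τ = (sigI α τ).restrict (Iic T) + (sigI α τ).restrict (Iic T)ᶜ :=
    (Measure.restrict_add_restrict_compl measurableSet_Iic).symm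
  rw [e]
  unfold p6t p6m
  refine add_le_add (Measure.restrict_mono_measure hb _) ?_
  have h1 : (p6r T b : ℝ≥0∞) ≤ 1 := by
    rw [p6r_coe]
    exact (measure_mono (subset_univ _)).trans hb1
  have h2 : p6r T b • p6u T ≤ p6u T := by
    intro A
    rw [Measure.smul_apply, ENNReal.smul_def, smul_eq_mul]
    calc (p6r T b : ℝ≥0∞) * p6u T A ≤ 1 * p6u T A := by gcongr
      _ = _ := one_mul _
  refine h2.trans ?_
  have h3 : (sigI α τ).restrict (Ioc T (2 * T)) ≤ (sigI α τ).restrict (Iic T)ᶜ := by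
    refine Measure.restrict_mono_set _ ?_
    rw [compl_Iic]
    exact Ioc_subset_Ioi_self
  refine le_trans ?_ h3
  rw [sigI_eq hτ, restrict_withDensity measurableSet_Ioc, Measure.restrict_restrict
    measurableSet_Ioc]
  have h4 : Ioc T (2 * T) ∩ Ioi 0 = Ioc T (2 * T) := by
    refine inter_eq_left.2 (fun x hx => ?_)
    simp only [mem_Ioi]
    linarith [hx.1]
  rw [h4]
  unfold p6u
  rw [← withDensity_const]
  refine withDensity_mono ?_
  refine (ae_restrict_iff' measurableSet_Ioc).2 (Eventually.of_forall fun t ht => ?_)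
  exact ENNReal.ofReal_le_ofReal (hd t ht)

theorem p6_U3 (α τ T : ℝ) (hτ : 0 < τ) (hT : 0 < T) (hx : xstar α τ ^ 2 ≤ T) (c : Measure ℝ)
    [IsFiniteMeasure c] (hc : c (Iio 0) = 0) :
    ∫ x, U3 α τ x ∂(p6t T c) = ∫ x, U3 α τ x ∂c := by
  have hz : ∀ v, T < v → U3 α τ v = 0 := by
    intro v hv
    unfold U3 V3
    rw [if_neg]
    rintro ⟨_, h2⟩
    have h3 : xstar α τ ≤ √v := Real.le_sqrt_of_sq_le (by linarith)
    rw [abs_of_nonneg (Real.sqrt_nonneg _)] at h2
    linarith
  have hcont : Continuous (U3 α τ) := (V3_continuous hτ).comp Real.continuous_sqrt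
  have hp := p6u_prob T hT
  have hu : ∀ᵐ x ∂(p6u T), U3 α τ x = 0 := by
    filter_upwards [p6u_ae T] with x hx
    exact hz x hx.1
  have h1 : ∫ x, U3 α τ x ∂(p6u T) = 0 := by
    rw [integral_congr_ae (g := fun _ => (0:ℝ)) hu]
    simp
  have hu' : Integrable (U3 α τ) (p6u T) :=
    (integrable_zero ℝ ℝ (p6u T)).congr (hu.mono fun x hx => hx.symm)
  have hi : Integrable (U3 α τ) (c.restrict (Iic T)) := by
    have hcpt : Continuous fun x => U3 α τ x := hcont
    obtain ⟨M, hM⟩ := (isCompact_Icc (a := (0:ℝ)) (b := T)).exists_bound_of_continuousOn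
      hcont.continuousOn
    refine Integrable.mono' (integrable_const M) hcont.aestronglyMeasurable ?_
    have h2 : ∀ᵐ x ∂(c.restrict (Iic T)), 0 ≤ x := by
      refine ae_restrict_of_ae ?_
      rw [ae_iff]
      convert hc using 2
      ext x
      simp
    filter_upwards [h2, ae_restrict_mem measurableSet_Iic] with x hx1 hx2
    exact hM x ⟨hx1, hx2⟩
  unfold p6t p6m
  rw [integral_add_measure hi hu'.smul_measure_nnreal, integral_smul_nnreal_measure, h1, smul_zero,
    add_zero]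
  refine setIntegral_eq_integral_of_forall_compl_eq_zero (fun x hx => ?_)
  exact hz x (by simpa using hx)

theorem p6_qf (x y z : ℝ) : x ^ 2 ≤ 3 / 2 * qf x y z := by
  unfold qf
  nlinarith [sq_nonneg (z - y / 2), sq_nonneg (x - 3 / 2 * y)]

theorem p6_qf_nonneg (x y z : ℝ) : 0 ≤ qf x y z := by
  have := p6_qf x y z
  nlinarith [sq_nonneg x]

theorem p6_tl_meas (μ : Measure ℝ) [IsFiniteMeasure μ] : Measurable (tl μ) := by
  have : Antitone (tl μ) := fun u v huv => measureReal_mono (Ioi_subset_Ioi huv)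
  exact this.measurable

theorem p6_tail (T : ℝ) (hT : 1 ≤ T) (a b c : Measure ℝ) [IsFiniteMeasure a] [IsFiniteMeasure b]
    [IsFiniteMeasure c]
    (hint : IntegrableOn (fun u => 1 / u * qf (tl a u) (tl b u) (tl c u)) (Ioi 1)) :
    IntegrableOn (fun u => 1 / u * qf (tl a u) (tl (p6t T b) u) (tl (p6t T c) u)) (Ioi 1) ∧
    (∫ u in Ioi (1 : ℝ), 1 / u * qf (tl a u) (tl (p6t T b) u) (tl (p6t T c) u)) ≤
      (∫ u in Ioi (1 : ℝ), 1 / u * qf (tl a u) (tl b u) (tl c u)) +
      3 / 2 * (∫ u in Ioi T, 1 / u * qf (tl a u) (tl b u) (tl c u)) +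
      (b.real (Ioi T) ^ 2 + c.real (Ioi T) ^ 2) := by
  have hT0 : 0 < T := by linarith
  have := p6t_finite T hT0 b
  have := p6t_finite T hT0 c
  set B := b.real (Ioi T) with hB
  set C := c.real (Ioi T) with hC
  set Q : ℝ → ℝ := fun u => 1 / u * qf (tl a u) (tl b u) (tl c u) with hQ
  set F : ℝ → ℝ := fun u => Q u + (Ioi T).indicator (fun u => 3 / 2 * Q u) u +
    (Ioc T (2 * T)).indicator (fun _ => (B ^ 2 + C ^ 2) / T) u with hF
  have hQT : IntegrableOn Q (Ioi T) := hint.mono_set (Ioi_subset_Ioi hT)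
  have i1 : IntegrableOn ((Ioi T).indicator (fun u => 3 / 2 * Q u)) (Ioi 1) := by
    rw [integrableOn_indicator_iff measurableSet_Ioi]
    exact IntegrableOn.mono_set (hQT.const_mul _) inter_subset_left
  have i2 : IntegrableOn ((Ioc T (2 * T)).indicator (fun _ => (B ^ 2 + C ^ 2) / T)) (Ioi 1) := by
    rw [integrableOn_indicator_iff measurableSet_Ioc]
    refine (integrableOn_const (s := Ioc T (2 * T)) ?_).mono_set inter_subset_left
    simp
  have hFi : IntegrableOn F (Ioi 1) := (hint.add i1).add i2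
  have hbd : ∀ u ∈ Ioi (1:ℝ), 1 / u * qf (tl a u) (tl (p6t T b) u) (tl (p6t T c) u) ≤ F u := by
    intro u hu
    have hu1 : 1 < u := hu
    have hu0 : 0 < u := by linarith
    simp only [hF]
    rcases le_or_gt u T with h | h
    · have eb : tl (p6t T b) u = tl b u := by
        unfold tl Measure.real
        rw [p6t_Ioi_le T u hT0 b h]
      have ec : tl (p6t T c) u = tl c u := by
        unfold tl Measure.real
        rw [p6t_Ioi_le T u hT0 c h]
      rw [eb, ec, indicator_of_notMem (by simpa using h), indicator_of_notMem (by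
        simp only [mem_Ioc, not_and]
        intro h'
        linarith)]
      simp [hQ]
    · rw [indicator_of_mem (by simpa using h)]
      have hq := p6_qf (tl a u) (tl b u) (tl c u)
      have hq0 := p6_qf_nonneg (tl a u) (tl b u) (tl c u)
      have hQ0 : 0 ≤ Q u := mul_nonneg (by positivity) hq0
      have hxa : 1 / u * tl a u ^ 2 ≤ 3 / 2 * Q u := by
        have := mul_le_mul_of_nonneg_left hq (show (0:ℝ) ≤ 1 / u by positivity)
        simp only [hQ]
        linarith
      rcases le_or_gt u (2 * T) with h' | h'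
      · rw [indicator_of_mem (show u ∈ Ioc T (2 * T) from ⟨h, h'⟩)]
        have tb : tl (p6t T b) u ≤ B := by
          unfold tl Measure.real
          exact ENNReal.toReal_mono (measure_ne_top _ _) (p6t_Ioi_ge T u hT0 b h.le)
        have tc : tl (p6t T c) u ≤ C := by
          unfold tl Measure.real
          exact ENNReal.toReal_mono (measure_ne_top _ _) (p6t_Ioi_ge T u hT0 c h.le)
        have tb0 : 0 ≤ tl (p6t T b) u := measureReal_nonneg
        have tc0 : 0 ≤ tl (p6t T c) u := measureReal_nonneg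
        have ta0 : 0 ≤ tl a u := measureReal_nonneg
        have h1 : qf (tl a u) (tl (p6t T b) u) (tl (p6t T c) u) ≤ tl a u ^ 2 + (B ^ 2 + C ^ 2) := by
          unfold qf
          have s1 : tl (p6t T b) u ^ 2 ≤ B ^ 2 := pow_le_pow_left₀ tb0 tb 2
          have s2 : tl (p6t T c) u ^ 2 ≤ C ^ 2 := pow_le_pow_left₀ tc0 tc 2
          nlinarith [mul_nonneg ta0 tb0, mul_nonneg tb0 tc0]
        have h2 : 1 / u * (B ^ 2 + C ^ 2) ≤ (B ^ 2 + C ^ 2) / T := by
          rw [one_div, inv_mul_eq_div]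
          exact div_le_div_of_nonneg_left (by positivity) hT0 h.le
        have h3 := mul_le_mul_of_nonneg_left h1 (show (0:ℝ) ≤ 1 / u by positivity)
        linarith
      · rw [indicator_of_notMem (by
          simp only [mem_Ioc, not_and, not_le]
          intro _
          exact h')]
        have eb : tl (p6t T b) u = 0 := by
          unfold tl Measure.real
          rw [p6t_Ioi_zero T u hT0 b h'.le]
          simp
        have ec : tl (p6t T c) u = 0 := by
          unfold tl Measure.real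
          rw [p6t_Ioi_zero T u hT0 c h'.le]
          simp
        rw [eb, ec]
        have : qf (tl a u) 0 0 = tl a u ^ 2 := by unfold qf; ring
        rw [this]
        linarith
  have hmeas : Measurable (fun u => 1 / u * qf (tl a u) (tl (p6t T b) u) (tl (p6t T c) u)) := by
    have m1 := p6_tl_meas a
    have m2 := p6_tl_meas (p6t T b)
    have m3 := p6_tl_meas (p6t T c)
    unfold qf
    fun_prop
  have hnn : ∀ u ∈ Ioi (1:ℝ), 0 ≤ 1 / u * qf (tl a u) (tl (p6t T b) u) (tl (p6t T c) u) := by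
    intro u hu
    have hu1 : (1:ℝ) < u := hu
    exact mul_nonneg (by positivity) (p6_qf_nonneg _ _ _)
  have hInt : IntegrableOn (fun u => 1 / u * qf (tl a u) (tl (p6t T b) u) (tl (p6t T c) u))
      (Ioi 1) := by
    refine Integrable.mono' hFi hmeas.aestronglyMeasurable ?_
    refine (ae_restrict_iff' measurableSet_Ioi).2 (Eventually.of_forall fun u hu => ?_)
    rw [Real.norm_eq_abs, abs_of_nonneg (hnn u hu)]
    exact hbd u hu
  refine ⟨hInt, ?_⟩
  calc ∫ u in Ioi (1 : ℝ), 1 / u * qf (tl a u) (tl (p6t T b) u) (tl (p6t T c) u)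
      ≤ ∫ u in Ioi (1 : ℝ), F u := setIntegral_mono_on hInt hFi measurableSet_Ioi hbd
    _ = (∫ u in Ioi (1 : ℝ), Q u)
        + (∫ u in Ioi (1 : ℝ), (Ioi T).indicator (fun u => 3 / 2 * Q u) u)
        + (∫ u in Ioi (1 : ℝ), (Ioc T (2 * T)).indicator (fun _ => (B ^ 2 + C ^ 2) / T) u) := by
        have s1 := integral_add hint i1
        have s2 := integral_add (hint.add i1) i2
        simp only [Pi.add_apply] at s1 s2
        rw [← s1, ← s2]
    _ = _ := by
        rw [setIntegral_indicator measurableSet_Ioi, setIntegral_indicator measurableSet_Ioc]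
        have e1 : Ioi (1:ℝ) ∩ Ioi T = Ioi T := inter_eq_right.2 (Ioi_subset_Ioi hT)
        have e2 : Ioi (1:ℝ) ∩ Ioc T (2 * T) = Ioc T (2 * T) :=
          inter_eq_right.2 (fun x hx => by
            simp only [mem_Ioi]
            linarith [hx.1])
        rw [e1, e2, integral_const_mul, setIntegral_const, measureReal_def, Real.volume_Ioc,
          ENNReal.toReal_ofReal (by linarith)]
        congr 1
        simp only [smul_eq_mul]
        field_simp
        ring

theorem p6_tail_tendsto (b : Measure ℝ) [IsFiniteMeasure b] :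
    Tendsto (fun T : ℝ => b.real (Ioi T)) atTop (𝓝 0) := by
  have h1 : Tendsto (fun T : ℝ => b (Iic T)) atTop (𝓝 (b univ)) := tendsto_measure_Iic_atTop b
  have h2 : Tendsto (fun T : ℝ => b.real (Iic T)) atTop (𝓝 (b.real univ)) :=
    (ENNReal.tendsto_toReal (measure_ne_top b univ)).comp h1
  have h3 : Tendsto (fun T : ℝ => b.real univ - b.real (Iic T)) atTop (𝓝 (b.real univ - b.real univ)) :=
    tendsto_const_nhds.sub h2
  rw [sub_self] at h3
  refine h3.congr (fun T => ?_)
  rw [← compl_Iic, measureReal_compl measurableSet_Iic]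

theorem p6_int_tendsto (Q : ℝ → ℝ) (hQ : IntegrableOn Q (Ioi 1)) :
    Tendsto (fun T : ℝ => ∫ u in Ioi T, Q u) atTop (𝓝 0) := by
  have h1 := intervalIntegral_tendsto_integral_Ioi (f := Q) (μ := volume) 1 hQ
    (tendsto_id (α := ℝ) (x := atTop))
  have h2 : Tendsto (fun T : ℝ => (∫ u in Ioi (1:ℝ), Q u) - ∫ u in (1:ℝ)..T, Q u) atTop
      (𝓝 ((∫ u in Ioi (1:ℝ), Q u) - ∫ u in Ioi (1:ℝ), Q u)) := tendsto_const_nhds.sub h1
  rw [sub_self] at h2
  refine h2.congr' ?_
  filter_upwards [eventually_ge_atTop 1] with T hT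
  rw [intervalIntegral.integral_of_le hT]
  have h3 : ∫ u in Ioi (1:ℝ), Q u = (∫ u in Ioc 1 T, Q u) + ∫ u in Ioi T, Q u := by
    rw [← setIntegral_union (Ioc_disjoint_Ioi le_rfl) measurableSet_Ioi
      (hQ.mono_set Ioc_subset_Ioi_self) (hQ.mono_set (Ioi_subset_Ioi hT)),
      Ioc_union_Ioi_eq_Ioi hT]
  rw [h3]
  ring

theorem WAdm.trunc {α τ : ℝ} (hτ : 0 < τ) {V : ℝ → ℝ} (hV : Pot V) {a b c : Measure ℝ}
    (h : WAdm α τ V a b c) (δ : ℝ) (hδ : 0 < δ) : ∃ b' c' : Measure ℝ, AdmJ α τ V a b' c' ∧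
    JJ α τ V a b' c' ≤ JW α τ V a b c + δ := by
  have fa : IsFiniteMeasure a := ⟨by rw [h.massa]; exact ENNReal.div_lt_top (by simp) (by simp)⟩
  have fb : IsFiniteMeasure b := ⟨by rw [h.massb]; exact ENNReal.div_lt_top (by simp) (by simp)⟩
  have fc : IsFiniteMeasure c := ⟨by rw [h.massc]; exact ENNReal.div_lt_top (by simp) (by simp)⟩
  have ra : a.real univ = 1 / 2 := by simp [Measure.real, h.massa]
  have rb : b.real univ = 1 / 3 := by simp [Measure.real, h.massb]
  have rc : c.real univ = 1 / 6 := by simp [Measure.real, h.massc]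
  -- the error
  have herr : Tendsto (fun T : ℝ =>
      6 * (b.real (Ioi T) * (1 / 3) + b.real (Ioi T) * (1 / 3) + b.real (Ioi T) * b.real (Ioi T))
      + 6 * (c.real (Ioi T) * (1 / 6) + c.real (Ioi T) * (1 / 6) + c.real (Ioi T) * c.real (Ioi T))
      + 6 * (b.real (Ioi T) * (1 / 2))
      + 6 * (c.real (Ioi T) * (1 / 3) + b.real (Ioi T) * (1 / 6) + b.real (Ioi T) * c.real (Ioi T))
      + (3 / 2 * (∫ u in Ioi T, 1 / u * qf (tl a u) (tl b u) (tl c u))
        + (b.real (Ioi T) ^ 2 + c.real (Ioi T) ^ 2)))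
      atTop (𝓝 0) := by
    have hb := p6_tail_tendsto b
    have hc := p6_tail_tendsto c
    have hq := p6_int_tendsto (fun u => 1 / u * qf (tl a u) (tl b u) (tl c u)) h.tail
    have := ((((((hb.mul_const (1/3)).add (hb.mul_const (1/3))).add (hb.mul hb)).const_mul 6).add
      ((((hc.mul_const (1/6)).add (hc.mul_const (1/6))).add (hc.mul hc)).const_mul 6)).add
      ((hb.mul_const (1/2)).const_mul 6)).add
      ((((hc.mul_const (1/3)).add (hb.mul_const (1/6))).add (hb.mul hc)).const_mul 6)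
    have h2 := this.add ((hq.const_mul (3/2)).add ((hb.pow 2).add (hc.pow 2)))
    simpa using h2
  obtain ⟨T, hT1, hTx, hTd, hTe⟩ := ((eventually_ge_atTop (1:ℝ)).and
    ((eventually_ge_atTop (xstar α τ ^ 2)).and ((p6_dI α τ hτ).and
      (herr.eventually_lt_const hδ)))).exists
  have hT0 : 0 < T := by linarith
  have fb' := p6t_finite T hT0 b
  have fc' := p6t_finite T hT0 c
  have hcon : p6t T b ≤ sigI α τ := p6_constr α τ hτ b h.constr (by
    rw [h.massb]
    exact ENNReal.div_le_of_le_mul (by simp)) T hT0 hTd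
  -- kernel estimates
  have kRm := fun (b c : Measure ℝ) [IsFiniteMeasure b] [IsFiniteMeasure c] hb0 hc0 hi S S' hS hS'
      hST hST' r s => p6_A Rm p6_Rm_meas T 6 hT1 (by norm_num)
    (fun x y hx hy _ => p6_Rm_nonneg x y hx hy) (fun x hx => p6_Rm_lint x T hx hT1)
    (fun x hx => by simpa only [p6_Rm_comm] using p6_Rm_lint x T hx hT1)
    b c hb0 hc0 hi S S' hS hS' hST hST' r s
  have kRp := fun (b c : Measure ℝ) [IsFiniteMeasure b] [IsFiniteMeasure c] hb0 hc0 hi S S' hS hS'
      hST hST' r s => p6_A Rp p6_Rp_meas T 6 hT1 (by norm_num)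
    (fun x y hx hy h => p6_Rp_nonneg x y hx hy (h.imp (fun h => by linarith)
      (fun h => by linarith))) (fun x hx => p6_Rp_lint x T hx hT1)
    (fun x hx => by
      have := p6_Rp_lint x T hx hT1
      have e : (fun y => ENNReal.ofReal (Rp y x)) = fun y => ENNReal.ofReal (Rp x y) := by
        funext y
        rw [p6_Rp_comm]
      rw [e]
      exact this)
    b c hb0 hc0 hi S S' hS hS' hST hST' r s
  have e0 : p6m T univ 0 a = a := by simp [p6m]
  obtain ⟨ibb, lbb⟩ := kRm b b h.suppb h.suppb h.rmb (Iic T) (Iic T) measurableSet_Iic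
    measurableSet_Iic le_rfl le_rfl (p6r T b) (p6r T b)
  obtain ⟨icc, lcc⟩ := kRm c c h.suppc h.suppc h.rmc (Iic T) (Iic T) measurableSet_Iic
    measurableSet_Iic le_rfl le_rfl (p6r T c) (p6r T c)
  obtain ⟨iab, lab⟩ := kRp a b h.suppa h.suppb
    (Rp_integrable hτ a b h.constr h.suppa h.suppb).1 univ (Iic T) MeasurableSet.univ
    measurableSet_Iic (subset_univ _) le_rfl 0 (p6r T b)
  obtain ⟨ibc, lbc⟩ := kRp b c h.suppb h.suppc
    (Rp_integrable hτ c b h.constr h.suppc h.suppb).2 (Iic T) (Iic T) measurableSet_Iic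
    measurableSet_Iic le_rfl le_rfl (p6r T b) (p6r T c)
  rw [e0] at iab lab
  rw [p6r_real, rb] at lbb
  rw [p6r_real, rc] at lcc
  rw [p6r_real, ra] at lab
  rw [p6r_real, p6r_real, rb, rc] at lbc
  obtain ⟨it, lt⟩ := p6_tail T hT1 a b c h.tail
  have hU3 := p6_U3 α τ T hτ hT0 hTx c h.suppc
  have hW : WAdm α τ V a (p6t T b) (p6t T c) :=
    { suppa := h.suppa
      suppb := p6t_Iio T hT0 b h.suppb
      suppc := p6t_Iio T hT0 c h.suppc
      massa := h.massa
      massb := by rw [p6t_univ T hT0 b, h.massb]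
      massc := by rw [p6t_univ T hT0 c, h.massc]
      constr := hcon
      noa := h.noa
      nob := p6t_atom T b h.nob
      noc := p6t_atom T c h.noc
      rma := h.rma
      rmb := ibb
      rmc := icc
      pot := h.pot
      tail := it }
  obtain ⟨h1, h2⟩ := WAdm.admJ hτ hV hW (p6_log_moment T hT0 b h.suppb)
    (p6_log_moment T hT0 c h.suppc)
  refine ⟨p6t T b, p6t T c, h1, ?_⟩
  rw [h2]
  unfold JW
  rw [hU3]
  simp only [NNReal.coe_zero, zero_mul, add_zero] at lab
  have lbb' : ∫ z : ℝ × ℝ, Rm z.1 z.2 ∂((p6t T b).prod (p6t T b)) ≤ _ := lbb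
  have lcc' : ∫ z : ℝ × ℝ, Rm z.1 z.2 ∂((p6t T c).prod (p6t T c)) ≤ _ := lcc
  have lab' : ∫ z : ℝ × ℝ, Rp z.1 z.2 ∂(a.prod (p6t T b)) ≤ _ := lab
  have lbc' : ∫ z : ℝ × ℝ, Rp z.1 z.2 ∂((p6t T b).prod (p6t T c)) ≤ _ := lbc
  linarith

end

end Pool.Agent.MP_941b23_mp
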