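import Pool.Agent.MP_941b23_mp.Defs2
import Pool.Agent.MP_941b23_mp.P5
import Pool.Agent.MP_941b23_mp.P6

/-!
# [E1] quantitative truncation of weakly admissible triples
-/

namespace Pool.Agent.MP_941b23_mp

open MeasureTheory Set Filter Topology
open scoped ENNReal NNReal Real

noncomputable section

theorem e1_ae_nonneg (m : Measure ℝ) (hm : m (Iio 0) = 0) : ∀ᵐ x ∂m, 0 ≤ x := by
  rw [ae_iff]
  convert hm using 2
  ext x
  simp

/-- `R₋` against the uniform measure on `(T, 2T]`, linear bound. -/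
theorem e1_Rm_lint (x T : ℝ) (hx : 0 ≤ x) (hT : 1 ≤ T) :
    ∫⁻ y, ENNReal.ofReal (Rm x y) ∂(p6u T) ≤ ENNReal.ofReal (12 / T * x) := by
  have hT0 : 0 < T := by linarith
  rcases le_or_gt (T / 2) x with h | h
  · refine (p6_Rm_lint x T hx hT).trans (ENNReal.ofReal_le_ofReal ?_)
    rw [div_mul_eq_mul_div, le_div_iff₀ hT0]
    linarith
  · have := p6u_prob T hT0
    calc ∫⁻ y, ENNReal.ofReal (Rm x y) ∂(p6u T)
        ≤ ∫⁻ _, ENNReal.ofReal (12 / T * x) ∂(p6u T) := by
          refine lintegral_mono_ae ?_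
          filter_upwards [p6u_ae T] with y hy
          apply ENNReal.ofReal_le_ofReal
          unfold Rm
          have h1 : 0 < y - x := by linarith [hy.1]
          have hy0 : 0 < y := by linarith [hy.1]
          rw [abs_sub_comm, abs_of_pos h1, max_eq_right (a := x) (b := y) (by linarith),
            max_eq_left (by linarith [hy.1])]
          have h3 := Real.log_le_sub_one_of_pos (show 0 < y / (y - x) by positivity)
          have h4 : y / (y - x) - 1 = x / (y - x) := by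
            field_simp
            ring
          have h5 : x / (y - x) ≤ 12 / T * x := by
            rw [div_mul_eq_mul_div, div_le_div_iff₀ h1 hT0]
            nlinarith [hy.1]
          linarith
      _ = ENNReal.ofReal (12 / T * x) := by simp

theorem e1_Rp_lint (x T : ℝ) (hx : 0 ≤ x) (hT : 1 ≤ T) :
    ∫⁻ y, ENNReal.ofReal (Rp x y) ∂(p6u T) ≤ ENNReal.ofReal (1 / T * x) := by
  have hT0 : 0 < T := by linarith
  have := p6u_prob T hT0
  calc ∫⁻ y, ENNReal.ofReal (Rp x y) ∂(p6u T)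
      ≤ ∫⁻ _, ENNReal.ofReal (1 / T * x) ∂(p6u T) := by
        refine lintegral_mono_ae ?_
        filter_upwards [p6u_ae T] with y hy
        apply ENNReal.ofReal_le_ofReal
        unfold Rp
        have hy0 : 0 < y := by linarith [hy.1]
        rcases le_or_gt x y with h | h
        · rw [max_eq_right h, max_eq_left (by linarith [hy.1])]
          have h3 := Real.log_le_sub_one_of_pos (show 0 < (x + y) / y by positivity)
          have h4 : (x + y) / y - 1 = x / y := by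
            field_simp
            ring
          have h5 : x / y ≤ 1 / T * x := by
            rw [div_mul_eq_mul_div, div_le_div_iff₀ hy0 hT0]
            nlinarith [hy.1]
          linarith
        · rw [max_eq_left h.le, max_eq_left (by linarith [hy.1])]
          have hx0 : 0 < x := by linarith
          have h3 := Real.log_le_sub_one_of_pos (show 0 < (x + y) / x by positivity)
          have h4 : (x + y) / x - 1 = y / x := by
            field_simp
            ring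
          have h5 : y / x ≤ 1 := by
            rw [div_le_one hx0]
            exact h.le
          have h6 : 1 ≤ 1 / T * x := by
            rw [div_mul_eq_mul_div, le_div_iff₀ hT0]
            linarith [hy.1]
          linarith
    _ = ENNReal.ofReal (1 / T * x) := by simp

/-- kernel against the uniform measure: bound by the first moment -/
theorem e1_B (K : ℝ → ℝ → ℝ) (hKm : Measurable (fun z : ℝ × ℝ => K z.1 z.2)) (T C M : ℝ)
    (hT : 1 ≤ T) (hC : 0 ≤ C) (hM : 0 ≤ M) (hpos : ∀ x y, 0 ≤ x → T < y → 0 ≤ K x y)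
    (hb : ∀ x, 0 ≤ x → ∫⁻ y, ENNReal.ofReal (K x y) ∂(p6u T) ≤ ENNReal.ofReal (C / T * x))
    (m : Measure ℝ) [IsFiniteMeasure m] (hm : m (Iio 0) = 0)
    (hmM : ∫⁻ x, ENNReal.ofReal x ∂m ≤ ENNReal.ofReal M) :
    ∫ z : ℝ × ℝ, K z.1 z.2 ∂(m.prod (p6u T)) ≤ C / T * M := by
  have hT0 : 0 < T := by linarith
  have hp := p6u_prob T hT0
  have hm' := e1_ae_nonneg m hm
  have hae : ∀ᵐ z : ℝ × ℝ ∂(m.prod (p6u T)), 0 ≤ K z.1 z.2 := by
    have h1 : ∀ᵐ z : ℝ × ℝ ∂(m.prod (p6u T)), 0 ≤ z.1 :=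
      Measure.quasiMeasurePreserving_fst.ae hm'
    have h2 : ∀ᵐ z : ℝ × ℝ ∂(m.prod (p6u T)), T < z.2 ∧ z.2 ≤ 2 * T :=
      Measure.quasiMeasurePreserving_snd.ae (p6u_ae T)
    filter_upwards [h1, h2] with z hz1 hz2
    exact hpos _ _ hz1 hz2.1
  have hl : ∫⁻ z : ℝ × ℝ, ENNReal.ofReal (K z.1 z.2) ∂(m.prod (p6u T))
      ≤ ENNReal.ofReal (C / T * M) := by
    rw [lintegral_prod _ hKm.ennreal_ofReal.aemeasurable]
    calc _ ≤ ∫⁻ x, ENNReal.ofReal (C / T) * ENNReal.ofReal x ∂m := by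
          refine lintegral_mono_ae ?_
          filter_upwards [hm'] with x hx
          rw [← ENNReal.ofReal_mul (by positivity)]
          exact hb x hx
      _ = ENNReal.ofReal (C / T) * ∫⁻ x, ENNReal.ofReal x ∂m := by
          rw [lintegral_const_mul _ (by fun_prop)]
      _ ≤ ENNReal.ofReal (C / T) * ENNReal.ofReal M := by gcongr
      _ = _ := by rw [← ENNReal.ofReal_mul (by positivity)]
  rw [integral_eq_lintegral_of_nonneg_ae hae hKm.aestronglyMeasurable]
  exact ENNReal.toReal_le_of_le_ofReal (by positivity) hl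

theorem e1_A (K : ℝ → ℝ → ℝ) (hKm : Measurable (fun z : ℝ × ℝ => K z.1 z.2)) (T C C' : ℝ)
    (hT : 1 ≤ T) (hC : 0 ≤ C) (hC' : 0 ≤ C')
    (hpos : ∀ x y, 0 ≤ x → 0 ≤ y → (T < x ∨ T < y) → 0 ≤ K x y)
    (hb1 : ∀ x, 0 ≤ x → ∫⁻ y, ENNReal.ofReal (K x y) ∂(p6u T) ≤ ENNReal.ofReal C)
    (hb2 : ∀ x, 0 ≤ x → ∫⁻ y, ENNReal.ofReal (K y x) ∂(p6u T) ≤ ENNReal.ofReal C)
    (hb1' : ∀ x, 0 ≤ x → ∫⁻ y, ENNReal.ofReal (K x y) ∂(p6u T) ≤ ENNReal.ofReal (C' / T * x))
    (hb2' : ∀ x, 0 ≤ x → ∫⁻ y, ENNReal.ofReal (K y x) ∂(p6u T) ≤ ENNReal.ofReal (C' / T * x))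
    (b c : Measure ℝ) [IsFiniteMeasure b] [IsFiniteMeasure c] (hb0 : b (Iio 0) = 0)
    (hc0 : c (Iio 0) = 0) (hi : Integrable (fun z : ℝ × ℝ => K z.1 z.2) (b.prod c))
    (S S' : Set ℝ) (hS : MeasurableSet S) (hS' : MeasurableSet S') (hST : Iic T ⊆ S)
    (hST' : Iic T ⊆ S') (r s : ℝ≥0) (X Y : ℝ) (hX0 : 0 ≤ X) (hY0 : 0 ≤ Y)
    (hX : ∫⁻ x, ENNReal.ofReal x ∂(b.restrict S) ≤ ENNReal.ofReal X)
    (hY : r = 0 ∨ ∫⁻ x, ENNReal.ofReal x ∂(c.restrict S') ≤ ENNReal.ofReal Y) :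
    Integrable (fun z : ℝ × ℝ => K z.1 z.2) ((p6m T S r b).prod (p6m T S' s c)) ∧
    ∫ z : ℝ × ℝ, K z.1 z.2 ∂((p6m T S r b).prod (p6m T S' s c)) ≤
      ∫ z : ℝ × ℝ, K z.1 z.2 ∂(b.prod c) +
        (s * (C' / T * X) + r * (C' / T * Y) + r * s * C) := by
  have hp := p6u_prob T (by linarith)
  have hu0 : p6u T (Iio 0) = 0 := by
    refine measure_mono_null (fun x hx => ?_) (p6u_supp T)
    simp only [mem_Iio] at hx
    simp only [mem_compl_iff, mem_Ioc, not_and]
    intro h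
    linarith
  have hbr0 : (b.restrict S) (Iio 0) = 0 :=
    le_antisymm ((Measure.restrict_apply_le _ _).trans hb0.le) bot_le
  have hcr0 : (c.restrict S') (Iio 0) = 0 :=
    le_antisymm ((Measure.restrict_apply_le _ _).trans hc0.le) bot_le
  -- the four pieces
  have e : (p6m T S r b).prod (p6m T S' s c) =
      (b.prod c).restrict (S ×ˢ S') + s • ((b.restrict S).prod (p6u T))
        + (r • ((p6u T).prod (c.restrict S')) + r • (s • ((p6u T).prod (p6u T)))) := by
    unfold p6m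
    rw [Measure.prod_add, Measure.add_prod, Measure.add_prod, Measure.prod_smul_right,
      Measure.prod_smul_left, Measure.prod_restrict, Measure.prod_smul_right,
      Measure.prod_smul_left, smul_comm s r]
    abel
  have hBx : ∀ x y, 0 ≤ x → T < y → 0 ≤ K x y := fun x y hx hy =>
    hpos x y hx (by linarith) (Or.inr hy)
  have hBy : ∀ x y, 0 ≤ x → T < y → 0 ≤ K y x := fun x y hx hy =>
    hpos y x (by linarith) hx (Or.inl hy)
  obtain ⟨i1, -⟩ := p6_B K hKm T C hT hC hBx hb1 (b.restrict S) hbr0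
  obtain ⟨i3, l3⟩ := p6_B K hKm T C hT hC hBx hb1 (p6u T) hu0
  obtain ⟨i2', -⟩ := p6_B (fun x y => K y x) (hKm.comp measurable_swap) T C hT hC hBy hb2
    (c.restrict S') hcr0
  have l1 := e1_B K hKm T C' X hT hC' hX0 hBx hb1' (b.restrict S) hbr0 hX
  have i2 : Integrable (fun z : ℝ × ℝ => K z.1 z.2) ((p6u T).prod (c.restrict S')) := i2'.swap
  have l2 : (r : ℝ) * ∫ z : ℝ × ℝ, K z.1 z.2 ∂((p6u T).prod (c.restrict S'))
      ≤ r * (C' / T * Y) := by
    rcases hY with hr0 | hY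
    · simp [hr0]
    · refine mul_le_mul_of_nonneg_left ?_ r.2
      rw [← integral_prod_swap]
      exact e1_B (fun x y => K y x) (hKm.comp measurable_swap) T C' Y hT hC' hY0 hBy hb2'
        (c.restrict S') hcr0 hY
  have i0 : Integrable (fun z : ℝ × ℝ => K z.1 z.2) ((b.prod c).restrict (S ×ˢ S')) :=
    hi.restrict
  have l0 : ∫ z : ℝ × ℝ, K z.1 z.2 ∂((b.prod c).restrict (S ×ˢ S'))
      ≤ ∫ z : ℝ × ℝ, K z.1 z.2 ∂(b.prod c) := by
    rw [← integral_add_compl (hS.prod hS') hi]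
    have hb' := e1_ae_nonneg b hb0
    have hc' := e1_ae_nonneg c hc0
    have h1 : ∀ᵐ z : ℝ × ℝ ∂(b.prod c), 0 ≤ z.1 := Measure.quasiMeasurePreserving_fst.ae hb'
    have h2 : ∀ᵐ z : ℝ × ℝ ∂(b.prod c), 0 ≤ z.2 := Measure.quasiMeasurePreserving_snd.ae hc'
    have h3 : 0 ≤ ∫ z in (S ×ˢ S')ᶜ, K z.1 z.2 ∂(b.prod c) := by
      refine setIntegral_nonneg_of_ae_restrict ?_
      refine (ae_restrict_iff' (hS.prod hS').compl).2 ?_
      filter_upwards [h1, h2] with z hz1 hz2 hz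
      refine hpos _ _ hz1 hz2 ?_
      by_contra hcon
      rw [not_or, not_lt, not_lt] at hcon
      exact hz ⟨hST hcon.1, hST' hcon.2⟩
    linarith
  have j1 : Integrable (fun z : ℝ × ℝ => K z.1 z.2) (s • ((b.restrict S).prod (p6u T))) :=
    i1.smul_measure_nnreal
  have j2 : Integrable (fun z : ℝ × ℝ => K z.1 z.2) (r • ((p6u T).prod (c.restrict S'))) :=
    i2.smul_measure_nnreal
  have j3 : Integrable (fun z : ℝ × ℝ => K z.1 z.2) (r • (s • ((p6u T).prod (p6u T)))) :=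
    (i3.smul_measure_nnreal).smul_measure_nnreal
  have k1 := i0.add_measure j1
  have k2 := j2.add_measure j3
  rw [e]
  refine ⟨k1.add_measure k2, ?_⟩
  rw [integral_add_measure k1 k2, integral_add_measure i0 j1, integral_add_measure j2 j3,
    integral_smul_nnreal_measure, integral_smul_nnreal_measure, integral_smul_nnreal_measure,
    integral_smul_nnreal_measure]
  simp only [NNReal.smul_def, smul_eq_mul]
  have hun : (p6u T).real univ = 1 := by simp
  rw [hun, mul_one] at l3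
  have hr : (0:ℝ) ≤ r := r.2
  have hs : (0:ℝ) ≤ s := s.2
  have m1 : (s:ℝ) * ∫ z : ℝ × ℝ, K z.1 z.2 ∂((b.restrict S).prod (p6u T))
      ≤ s * (C' / T * X) := mul_le_mul_of_nonneg_left l1 hs
  have m3 : (r:ℝ) * ((s:ℝ) * ∫ z : ℝ × ℝ, K z.1 z.2 ∂((p6u T).prod (p6u T)))
      ≤ r * (s * C) :=
    mul_le_mul_of_nonneg_left (mul_le_mul_of_nonneg_left l3 hs) hr
  linarith

/-- local integrability of tails -/
theorem e1_tl_int (b : Measure ℝ) [IsFiniteMeasure b] (T : ℝ) :
    IntegrableOn (tl b) (Ioc 0 T) := by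
  refine Integrable.mono' (g := fun _ => b.real univ) (integrable_const _)
    (p6_tl_meas b).aestronglyMeasurable (Eventually.of_forall fun u => ?_)
  unfold tl
  rw [Real.norm_eq_abs, abs_of_nonneg measureReal_nonneg]
  exact measureReal_mono (subset_univ _)

/-- first moment of the restriction -/
theorem e1_moment (b : Measure ℝ) [IsFiniteMeasure b] (hb : b (Iio 0) = 0) (T : ℝ) :
    ∫⁻ x, ENNReal.ofReal x ∂(b.restrict (Iic T)) ≤ ENNReal.ofReal (∫ u in Ioc 0 T, tl b u) := by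
  have h0 : ∀ᵐ x ∂(b.restrict (Iic T)), 0 ≤ x := ae_restrict_of_ae (e1_ae_nonneg b hb)
  rw [lintegral_eq_lintegral_meas_lt (b.restrict (Iic T)) h0 aemeasurable_id']
  have h1 : ∀ t ∈ Ioi (0:ℝ), (b.restrict (Iic T)) {a | t < a} ≤
      (Ioc 0 T).indicator (fun t => ENNReal.ofReal (tl b t)) t := by
    intro t ht
    have ht' : (0:ℝ) < t := ht
    rcases le_or_gt t T with h | h
    · rw [indicator_of_mem (show t ∈ Ioc 0 T from ⟨ht', h⟩)]
      refine (Measure.restrict_apply_le _ _).trans ?_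
      unfold tl
      rw [Measure.real, ENNReal.ofReal_toReal (measure_ne_top _ _)]
      exact le_rfl
    · rw [indicator_of_notMem (by simp only [mem_Ioc, not_and, not_le]; intro _; exact h)]
      change (b.restrict (Iic T)) (Ioi t) ≤ 0
      rw [Measure.restrict_apply measurableSet_Ioi]
      have : Ioi t ∩ Iic T = ∅ := by
        ext x
        simp only [mem_inter_iff, mem_Ioi, mem_Iic, mem_empty_iff_false, iff_false, not_and,
          not_le]
        intro hx
        linarith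
      rw [this, measure_empty]
  calc _ ≤ ∫⁻ t in Ioi (0:ℝ), (Ioc 0 T).indicator (fun t => ENNReal.ofReal (tl b t)) t :=
        setLIntegral_mono' measurableSet_Ioi h1
    _ ≤ ∫⁻ t, (Ioc 0 T).indicator (fun t => ENNReal.ofReal (tl b t)) t :=
        setLIntegral_le_lintegral _ _
    _ = ∫⁻ t in Ioc 0 T, ENNReal.ofReal (tl b t) := lintegral_indicator measurableSet_Ioc _
    _ = _ := by
        rw [ofReal_integral_eq_lintegral_ofReal (e1_tl_int b T)
          (Eventually.of_forall fun u => measureReal_nonneg)]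

theorem e1_tail_le (b : Measure ℝ) [IsFiniteMeasure b] (T : ℝ) (hT : 0 < T) :
    b.real (Ioi T) ≤ 1 / T * ∫ u in Ioc 0 T, tl b u := by
  rw [one_div, inv_mul_eq_div, le_div_iff₀ hT]
  have h1 : ∫ _ in Ioc 0 T, b.real (Ioi T) ≤ ∫ u in Ioc 0 T, tl b u := by
    refine setIntegral_mono_on (integrable_const _) (e1_tl_int b T) measurableSet_Ioc ?_
    intro u hu
    exact measureReal_mono (Ioi_subset_Ioi hu.2)
  rw [setIntegral_const, measureReal_def, Real.volume_Ioc, ENNReal.toReal_ofReal (by linarith),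
    smul_eq_mul, sub_zero] at h1
  linarith

/-- Markov -/
theorem e1_markov (a : Measure ℝ) [IsFiniteMeasure a] (m : ℝ) (hm : 0 ≤ m)
    (ha : ∫⁻ x, ENNReal.ofReal x ∂a ≤ ENNReal.ofReal m) (u : ℝ) (hu : 0 < u) :
    tl a u ≤ m / u := by
  have h1 : ENNReal.ofReal u * a (Ioi u) ≤ ∫⁻ x, ENNReal.ofReal x ∂a := by
    refine le_trans ?_ (mul_meas_ge_le_lintegral₀ (by fun_prop) (ENNReal.ofReal u))
    gcongr
    intro x hx
    exact ENNReal.ofReal_le_ofReal (le_of_lt hx)
  have h2 := h1.trans ha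
  rw [le_div_iff₀ hu]
  unfold tl Measure.real
  have h3 := ENNReal.toReal_mono ENNReal.ofReal_ne_top h2
  rw [ENNReal.toReal_mul, ENNReal.toReal_ofReal hu.le, ENNReal.toReal_ofReal hm] at h3
  linarith

theorem e1_tail (T m : ℝ) (hT : 1 ≤ T) (a b c : Measure ℝ) [IsFiniteMeasure a] [IsFiniteMeasure b]
    [IsFiniteMeasure c] (ha : ∀ u, 0 < u → tl a u ≤ m / u) (ha1 : ∀ u, tl a u ≤ 1)
    (hint : IntegrableOn (fun u => 1 / u * qf (tl a u) (tl b u) (tl c u)) (Ioi 1)) :
    (∫ u in Ioi (1 : ℝ), 1 / u * qf (tl a u) (tl (p6t T b) u) (tl (p6t T c) u)) +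
      (∫ u in Ioi T, 1 / u * qf (tl a u) (tl b u) (tl c u)) ≤
      (∫ u in Ioi (1 : ℝ), 1 / u * qf (tl a u) (tl b u) (tl c u)) +
      (b.real (Ioi T) ^ 2 + c.real (Ioi T) ^ 2) + m / T := by
  have hT0 : 0 < T := by linarith
  have := p6t_finite T hT0 b
  have := p6t_finite T hT0 c
  obtain ⟨hInt, -⟩ := p6_tail T hT a b c hint
  set B := b.real (Ioi T) with hB
  set C := c.real (Ioi T) with hC
  set Q : ℝ → ℝ := fun u => 1 / u * qf (tl a u) (tl b u) (tl c u) with hQ
  set G : ℝ → ℝ := fun u => m * u ^ (-2 : ℝ) with hG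
  have hGi : IntegrableOn G (Ioi T) := (integrableOn_Ioi_rpow_of_lt (by norm_num) hT0).const_mul m
  have hGv : ∫ u in Ioi T, G u = m / T := by
    simp only [hG]
    rw [integral_const_mul, integral_Ioi_rpow_of_lt (by norm_num) hT0]
    rw [show (-2 : ℝ) + 1 = -1 by norm_num, Real.rpow_neg_one]
    field_simp
  set F : ℝ → ℝ := fun u => (Ioi T).indicator G u +
    (Ioc T (2 * T)).indicator (fun _ => (B ^ 2 + C ^ 2) / T) u with hF
  have hQT : IntegrableOn Q (Ioi T) := hint.mono_set (Ioi_subset_Ioi hT)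
  have hQ1 : IntegrableOn Q (Ioc 1 T) := hint.mono_set Ioc_subset_Ioi_self
  set N : ℝ → ℝ := fun u => 1 / u * qf (tl a u) (tl (p6t T b) u) (tl (p6t T c) u) with hN
  have hNT : IntegrableOn N (Ioi T) := hInt.mono_set (Ioi_subset_Ioi hT)
  have hN1 : IntegrableOn N (Ioc 1 T) := hInt.mono_set Ioc_subset_Ioi_self
  have sQ : ∫ u in Ioi (1:ℝ), Q u = (∫ u in Ioc 1 T, Q u) + ∫ u in Ioi T, Q u := by
    rw [← setIntegral_union (Ioc_disjoint_Ioi le_rfl) measurableSet_Ioi hQ1 hQT,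
      Ioc_union_Ioi_eq_Ioi hT]
  have sN : ∫ u in Ioi (1:ℝ), N u = (∫ u in Ioc 1 T, N u) + ∫ u in Ioi T, N u := by
    rw [← setIntegral_union (Ioc_disjoint_Ioi le_rfl) measurableSet_Ioi hN1 hNT,
      Ioc_union_Ioi_eq_Ioi hT]
  have eN : ∫ u in Ioc 1 T, N u = ∫ u in Ioc 1 T, Q u := by
    refine setIntegral_congr_fun measurableSet_Ioc (fun u hu => ?_)
    have eb : tl (p6t T b) u = tl b u := by
      unfold tl Measure.real
      rw [p6t_Ioi_le T u hT0 b hu.2]
    have ec : tl (p6t T c) u = tl c u := by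
      unfold tl Measure.real
      rw [p6t_Ioi_le T u hT0 c hu.2]
    simp only [hN, hQ, eb, ec]
  have i2 : IntegrableOn ((Ioc T (2 * T)).indicator (fun _ => (B ^ 2 + C ^ 2) / T)) (Ioi T) := by
    rw [integrableOn_indicator_iff measurableSet_Ioc]
    refine (integrableOn_const (s := Ioc T (2 * T)) ?_).mono_set inter_subset_left
    simp
  have hbd : ∀ u ∈ Ioi T, N u ≤ G u +
      (Ioc T (2 * T)).indicator (fun _ => (B ^ 2 + C ^ 2) / T) u := by
    intro u hu
    have h : T < u := hu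
    have hu0 : 0 < u := by linarith
    have ta0 : 0 ≤ tl a u := measureReal_nonneg
    have hxa : 1 / u * tl a u ^ 2 ≤ G u := by
      have h1 : tl a u ^ 2 ≤ m / u := by
        have := ha u hu0
        have := ha1 u
        nlinarith
      have h2 : G u = 1 / u * (m / u) := by
        simp only [hG]
        rw [Real.rpow_neg hu0.le, show ((2:ℝ)) = ((2:ℕ) : ℝ) by norm_num, Real.rpow_natCast]
        field_simp
      rw [h2]
      exact mul_le_mul_of_nonneg_left h1 (by positivity)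
    simp only [hN]
    rcases le_or_gt u (2 * T) with h' | h'
    · rw [indicator_of_mem (show u ∈ Ioc T (2 * T) from ⟨h, h'⟩)]
      have tb : tl (p6t T b) u ≤ B := by
        unfold tl Measure.real
        exact ENNReal.toReal_mono (measure_ne_top _ _) (p6t_Ioi_ge T u hT0 b h.le)
      have tc : tl (p6t T c) u ≤ C := by
        unfold tl Measure.real
        exact ENNReal.toReal_mono (measure_ne_top _ _) (p6t_Ioi_ge T u hT0 c h.le)
      have tb0 : 0 ≤ tl (p6t T b) u := measureReal_nonneg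
      have tc0 : 0 ≤ tl (p6t T c) u := measureReal_nonneg
      have h1 : qf (tl a u) (tl (p6t T b) u) (tl (p6t T c) u) ≤ tl a u ^ 2 + (B ^ 2 + C ^ 2) := by
        unfold qf
        have s1 : tl (p6t T b) u ^ 2 ≤ B ^ 2 := pow_le_pow_left₀ tb0 tb 2
        have s2 : tl (p6t T c) u ^ 2 ≤ C ^ 2 := pow_le_pow_left₀ tc0 tc 2
        nlinarith [mul_nonneg ta0 tb0, mul_nonneg tb0 tc0]
      have h2 : 1 / u * (B ^ 2 + C ^ 2) ≤ (B ^ 2 + C ^ 2) / T := by
        rw [one_div, inv_mul_eq_div]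
        exact div_le_div_of_nonneg_left (by positivity) hT0 h.le
      have h3 := mul_le_mul_of_nonneg_left h1 (show (0:ℝ) ≤ 1 / u by positivity)
      linarith
    · rw [indicator_of_notMem (by
        simp only [mem_Ioc, not_and, not_le]
        intro _
        exact h')]
      have eb : tl (p6t T b) u = 0 := by
        unfold tl Measure.real
        rw [p6t_Ioi_zero T u hT0 b h'.le]
        simp
      have ec : tl (p6t T c) u = 0 := by
        unfold tl Measure.real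
        rw [p6t_Ioi_zero T u hT0 c h'.le]
        simp
      rw [eb, ec]
      have : qf (tl a u) 0 0 = tl a u ^ 2 := by unfold qf; ring
      rw [this]
      linarith
  have hfin : ∫ u in Ioi T, N u ≤ m / T + (B ^ 2 + C ^ 2) := by
    calc ∫ u in Ioi T, N u ≤ ∫ u in Ioi T, (G u +
          (Ioc T (2 * T)).indicator (fun _ => (B ^ 2 + C ^ 2) / T) u) :=
          setIntegral_mono_on hNT (hGi.add i2) measurableSet_Ioi hbd
      _ = (∫ u in Ioi T, G u) +
          ∫ u in Ioi T, (Ioc T (2 * T)).indicator (fun _ => (B ^ 2 + C ^ 2) / T) u :=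
          integral_add hGi i2
      _ = _ := by
        rw [hGv, setIntegral_indicator measurableSet_Ioc]
        have e2 : Ioi T ∩ Ioc T (2 * T) = Ioc T (2 * T) :=
          inter_eq_right.2 Ioc_subset_Ioi_self
        rw [e2, setIntegral_const, measureReal_def, Real.volume_Ioc,
          ENNReal.toReal_ofReal (by linarith)]
        congr 1
        simp only [smul_eq_mul]
        field_simp
        ring
  have sN' : (∫ u in Ioi (1 : ℝ), 1 / u * qf (tl a u) (tl (p6t T b) u) (tl (p6t T c) u)) =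
      ∫ u in Ioi (1:ℝ), N u := rfl
  rw [sN', sN, eN, sQ]
  linarith

theorem e1_arith (B D T Xb Xc m : ℝ) (hT : 0 < T) (hB0 : 0 ≤ B) (hD0 : 0 ≤ D) (hB1 : B ≤ 1)
    (hXb0 : 0 ≤ Xb) (hXc0 : 0 ≤ Xc) (hm : 0 ≤ m) (tB : B ≤ 1 / T * Xb) (tD : D ≤ 1 / T * Xc) :
    (B * (12 / T * Xb) + B * (12 / T * Xb) + B * B * 6) +
    (D * (12 / T * Xc) + D * (12 / T * Xc) + D * D * 6) +
    B * (1 / T * m) +
    (D * (1 / T * Xb) + B * (1 / T * Xc) + B * D * 6) +
    (B ^ 2 + D ^ 2) + m / T ≤ (31 + 2 * m) * ((1 / T * (Xb + Xc)) ^ 2 + 1 / T) := by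
  obtain ⟨x, hx⟩ : ∃ x, x = 1 / T * Xb := ⟨_, rfl⟩
  obtain ⟨y, hy⟩ : ∃ y, y = 1 / T * Xc := ⟨_, rfl⟩
  obtain ⟨q, hq⟩ : ∃ q, q = 1 / T := ⟨_, rfl⟩
  have hx0 : 0 ≤ x := by rw [hx]; positivity
  have hy0 : 0 ≤ y := by rw [hy]; positivity
  have hq0 : 0 ≤ q := by rw [hq]; positivity
  have ex : 12 / T * Xb = 12 * x := by rw [hx]; ring
  have ey : 12 / T * Xc = 12 * y := by rw [hy]; ring
  have em : 1 / T * (Xb + Xc) = x + y := by rw [hx, hy]; ring
  have e6 : m / T = m * q := by rw [hq]; ring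
  rw [em, ex, ey, e6, ← hx, ← hy, ← hq]
  rw [← hx] at tB
  rw [← hy] at tD
  have q1 : B * x ≤ x ^ 2 := by nlinarith
  have q2 : B * B ≤ x ^ 2 := by nlinarith
  have q3 : D * y ≤ y ^ 2 := by nlinarith
  have q4 : D * D ≤ y ^ 2 := by nlinarith
  have q5 : D * x ≤ x * y := by nlinarith
  have q6 : B * y ≤ x * y := by nlinarith
  have q7 : B * D ≤ x * y := mul_le_mul tB tD hD0 hx0
  have q8 : B * (q * m) ≤ m * q := by
    have : 0 ≤ q * m := by positivity
    nlinarith
  have q9 : 0 ≤ m * (x + y) ^ 2 := by positivity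
  have q10 : 0 ≤ x * y := by positivity
  nlinarith

theorem e1_first_moment {α τ : ℝ} (hτ : 0 < τ) {V : ℝ → ℝ} (hV : Pot V) {a : Measure ℝ}
    [IsFiniteMeasure a] (h0 : a (Iio 0) = 0) (h : Integrable (U1 α τ V) a) :
    ∃ m : ℝ, 0 ≤ m ∧ ∫⁻ x, ENNReal.ofReal x ∂a ≤ ENNReal.ofReal m := by
  obtain ⟨c, C, hc, hl⟩ := U1_lower (α := α) hτ hV
  have h1 : Integrable (fun x => 1 / c * (|U1 α τ V x| + |C|)) a :=
    (h.abs.add (integrable_const _)).const_mul _
  have hx : Integrable (fun x : ℝ => x) a := by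
    refine Integrable.mono' h1 measurable_id.aestronglyMeasurable ?_
    filter_upwards [e1_ae_nonneg a h0] with x hx
    rw [Real.norm_eq_abs, abs_of_nonneg hx, one_div, inv_mul_eq_div, le_div_iff₀ hc]
    have := hl x hx
    have h2 := le_abs_self (U1 α τ V x)
    have h3 := le_abs_self C
    linarith
  refine ⟨∫ x, x ∂a, integral_nonneg_of_ae (e1_ae_nonneg a h0), ?_⟩
  rw [ofReal_integral_eq_lintegral_ofReal hx (e1_ae_nonneg a h0)]

theorem e_trunc {α τ : ℝ} (hτ : 0 < τ) {V : ℝ → ℝ} (hV : Pot V) {a b c : Measure ℝ}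
    (h : WAdm α τ V a b c) : ∃ C T₀ : ℝ, 0 < C ∧ 1 ≤ T₀ ∧ ∀ T : ℝ, T₀ ≤ T →
    ∃ b' c' : Measure ℝ, AdmJ α τ V a b' c' ∧
      JJ α τ V a b' c' + (∫ u in Ioi T, 1 / u * qf (tl a u) (tl b u) (tl c u)) ≤
        JW α τ V a b c + C * ((1 / T * ∫ u in Ioc 0 T, (tl b u + tl c u)) ^ 2 + 1 / T) := by
  have fa : IsFiniteMeasure a := ⟨by rw [h.massa]; exact ENNReal.div_lt_top (by simp) (by simp)⟩
  have fb : IsFiniteMeasure b := ⟨by rw [h.massb]; exact ENNReal.div_lt_top (by simp) (by simp)⟩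
  have fc : IsFiniteMeasure c := ⟨by rw [h.massc]; exact ENNReal.div_lt_top (by simp) (by simp)⟩
  have ra : a.real univ = 1 / 2 := by simp [Measure.real, h.massa]
  have rb : b.real univ = 1 / 3 := by simp [Measure.real, h.massb]
  have rc : c.real univ = 1 / 6 := by simp [Measure.real, h.massc]
  obtain ⟨m, hm0, hm⟩ := e1_first_moment hτ hV h.suppa h.pot
  have hev : ∀ᶠ T in (atTop : Filter ℝ), 1 ≤ T ∧ xstar α τ ^ 2 ≤ T ∧
      ∀ t ∈ Ioc T (2 * T), 1 / T ≤ dI α τ t := (eventually_ge_atTop (1:ℝ)).and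
    ((eventually_ge_atTop (xstar α τ ^ 2)).and (p6_dI α τ hτ))
  obtain ⟨T₁, hT₁⟩ := eventually_atTop.1 hev
  refine ⟨31 + 2 * m, max 1 T₁, by linarith, le_max_left _ _, fun T hT => ?_⟩
  obtain ⟨hT1, hTx, hTd⟩ := hT₁ T ((le_max_right _ _).trans hT)
  have hT0 : 0 < T := by linarith
  have fb' := p6t_finite T hT0 b
  have fc' := p6t_finite T hT0 c
  have hcon : p6t T b ≤ sigI α τ := p6_constr α τ hτ b h.constr (by
    rw [h.massb]
    exact ENNReal.div_le_of_le_mul (by simp)) T hT0 hTd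
  -- first moments
  set Xb := ∫ u in Ioc 0 T, tl b u with hXb
  set Xc := ∫ u in Ioc 0 T, tl c u with hXc
  have hXb0 : 0 ≤ Xb := integral_nonneg fun u => measureReal_nonneg
  have hXc0 : 0 ≤ Xc := integral_nonneg fun u => measureReal_nonneg
  have hmb := e1_moment b h.suppb T
  have hmc := e1_moment c h.suppc T
  rw [← hXb] at hmb
  rw [← hXc] at hmc
  have tB := e1_tail_le b T hT0
  have tC := e1_tail_le c T hT0
  rw [← hXb] at tB
  rw [← hXc] at tC
  -- kernel estimates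
  have hRp2 : ∀ x, 0 ≤ x → ∫⁻ y, ENNReal.ofReal (Rp y x) ∂(p6u T) ≤ ENNReal.ofReal 6 := fun x hx => by
      have := p6_Rp_lint x T hx hT1
      have e : (fun y => ENNReal.ofReal (Rp y x)) = fun y => ENNReal.ofReal (Rp x y) := by
        funext y
        rw [p6_Rp_comm]
      rw [e]
      exact this
  have hRp2' : ∀ x, 0 ≤ x → ∫⁻ y, ENNReal.ofReal (Rp y x) ∂(p6u T) ≤ ENNReal.ofReal (1 / T * x) :=
    fun x hx => by
      have := e1_Rp_lint x T hx hT1
      have e : (fun y => ENNReal.ofReal (Rp y x)) = fun y => ENNReal.ofReal (Rp x y) := by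
        funext y
        rw [p6_Rp_comm]
      rw [e]
      exact this
  have hRm2' : ∀ x, 0 ≤ x → ∫⁻ y, ENNReal.ofReal (Rm y x) ∂(p6u T) ≤ ENNReal.ofReal (12 / T * x) :=
    fun x hx => by
      have := e1_Rm_lint x T hx hT1
      have e : (fun y => ENNReal.ofReal (Rm y x)) = fun y => ENNReal.ofReal (Rm x y) := by
        funext y
        rw [p6_Rm_comm]
      rw [e]
      exact this
  have kRm := fun (b c : Measure ℝ) [IsFiniteMeasure b] [IsFiniteMeasure c] hb0 hc0 hi S S' hS hS'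
      hST hST' r s X Y hX0 hY0 hX hY => e1_A Rm p6_Rm_meas T 6 12 hT1 (by norm_num) (by norm_num)
    (fun x y hx hy _ => p6_Rm_nonneg x y hx hy) (fun x hx => p6_Rm_lint x T hx hT1)
    (fun x hx => by simpa only [p6_Rm_comm] using p6_Rm_lint x T hx hT1)
    (fun x hx => e1_Rm_lint x T hx hT1) hRm2'
    b c hb0 hc0 hi S S' hS hS' hST hST' r s X Y hX0 hY0 hX hY
  have kRp := fun (b c : Measure ℝ) [IsFiniteMeasure b] [IsFiniteMeasure c] hb0 hc0 hi S S' hS hS'
      hST hST' r s X Y hX0 hY0 hX hY => e1_A Rp p6_Rp_meas T 6 1 hT1 (by norm_num) (by norm_num)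
    (fun x y hx hy h => p6_Rp_nonneg x y hx hy (h.imp (fun h => by linarith)
      (fun h => by linarith))) (fun x hx => p6_Rp_lint x T hx hT1)
    hRp2 (fun x hx => e1_Rp_lint x T hx hT1) hRp2'
    b c hb0 hc0 hi S S' hS hS' hST hST' r s X Y hX0 hY0 hX hY
  have e0 : p6m T univ 0 a = a := by simp [p6m]
  obtain ⟨ibb, lbb⟩ := kRm b b h.suppb h.suppb h.rmb (Iic T) (Iic T) measurableSet_Iic
    measurableSet_Iic le_rfl le_rfl (p6r T b) (p6r T b) Xb Xb hXb0 hXb0 hmb (Or.inr hmb)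
  obtain ⟨icc, lcc⟩ := kRm c c h.suppc h.suppc h.rmc (Iic T) (Iic T) measurableSet_Iic
    measurableSet_Iic le_rfl le_rfl (p6r T c) (p6r T c) Xc Xc hXc0 hXc0 hmc (Or.inr hmc)
  obtain ⟨iab, lab⟩ := kRp a b h.suppa h.suppb
    (Rp_integrable hτ a b h.constr h.suppa h.suppb).1 univ (Iic T) MeasurableSet.univ
    measurableSet_Iic (subset_univ _) le_rfl 0 (p6r T b) m 0 hm0 le_rfl
    (by rw [Measure.restrict_univ]; exact hm) (Or.inl rfl)
  obtain ⟨ibc, lbc⟩ := kRp b c h.suppb h.suppc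
    (Rp_integrable hτ c b h.constr h.suppc h.suppb).2 (Iic T) (Iic T) measurableSet_Iic
    measurableSet_Iic le_rfl le_rfl (p6r T b) (p6r T c) Xb Xc hXb0 hXc0 hmb (Or.inr hmc)
  rw [e0] at iab lab
  rw [p6r_real] at lbb lcc lab
  rw [p6r_real, p6r_real] at lbc
  have ha1 : ∀ u, tl a u ≤ 1 := fun u => by
    have : tl a u ≤ a.real univ := measureReal_mono (subset_univ _)
    rw [ra] at this
    linarith
  have lt := e1_tail T m hT1 a b c (fun u hu => e1_markov a m hm0 hm u hu) ha1 h.tail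
  have hU3 := p6_U3 α τ T hτ hT0 hTx c h.suppc
  have hW : WAdm α τ V a (p6t T b) (p6t T c) :=
    { suppa := h.suppa
      suppb := p6t_Iio T hT0 b h.suppb
      suppc := p6t_Iio T hT0 c h.suppc
      massa := h.massa
      massb := by rw [p6t_univ T hT0 b, h.massb]
      massc := by rw [p6t_univ T hT0 c, h.massc]
      constr := hcon
      noa := h.noa
      nob := p6t_atom T b h.nob
      noc := p6t_atom T c h.noc
      rma := h.rma
      rmb := ibb
      rmc := icc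
      pot := h.pot
      tail := (p6_tail T hT1 a b c h.tail).1 }
  obtain ⟨h1, h2⟩ := WAdm.admJ hτ hV hW (p6_log_moment T hT0 b h.suppb)
    (p6_log_moment T hT0 c h.suppc)
  refine ⟨p6t T b, p6t T c, h1, ?_⟩
  rw [h2]
  unfold JW
  rw [hU3]
  have hsum : ∫ u in Ioc 0 T, (tl b u + tl c u) = Xb + Xc :=
    integral_add (e1_tl_int b T) (e1_tl_int c T)
  rw [hsum]
  simp only [NNReal.coe_zero, zero_mul, add_zero, mul_zero] at lab
  have lbb' : ∫ z : ℝ × ℝ, Rm z.1 z.2 ∂((p6t T b).prod (p6t T b)) ≤ _ := lbb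
  have lcc' : ∫ z : ℝ × ℝ, Rm z.1 z.2 ∂((p6t T c).prod (p6t T c)) ≤ _ := lcc
  have lab' : ∫ z : ℝ × ℝ, Rp z.1 z.2 ∂(a.prod (p6t T b)) ≤ _ := lab
  have lbc' : ∫ z : ℝ × ℝ, Rp z.1 z.2 ∂((p6t T b).prod (p6t T c)) ≤ _ := lbc
  have hB0 : 0 ≤ b.real (Ioi T) := measureReal_nonneg
  have hD0 : 0 ≤ c.real (Ioi T) := measureReal_nonneg
  have hB1 : b.real (Ioi T) ≤ 1 := by
    have := measureReal_mono (μ := b) (subset_univ (Ioi T))
    rw [rb] at this
    linarith
  have hfin := e1_arith (b.real (Ioi T)) (c.real (Ioi T)) T Xb Xc m hT0 hB0 hD0 hB1 hXb0 hXc0 hm0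
    tB tC
  linarith

end

end Pool.Agent.MP_941b23_mp
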