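import Pool.Agent.MP_941b23_mp.Defs2
import Pool.Agent.MP_941b23_mp.T1a
import Pool.Agent.MP_941b23_mp.T2a
import Pool.Agent.MP_941b23_mp.T2b

/-!
# [E2a] an explicit admissible triple
-/

namespace Pool.Agent.MP_941b23_mp

open MeasureTheory Set Filter Topology
open scoped ENNReal NNReal Real

noncomputable section

theorem e2a_log_integrable (lo hi : ℝ) : Integrable (fun z : ℝ × ℝ => Real.log |z.1 - z.2|)
    ((volume.restrict (Icc lo hi)).prod (volume.restrict (Icc lo hi))) := by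
  rw [Measure.prod_restrict]
  set R : ℝ := |hi - lo| with hR
  have hg : Integrable ((Icc (-R) R).indicator Real.log) volume := by
    rw [integrable_indicator_iff measurableSet_Icc]
    have h1 : IntervalIntegrable Real.log volume (-R) R := intervalIntegral.intervalIntegrable_log'
    have hR0 : 0 ≤ R := abs_nonneg _
    rw [intervalIntegrable_iff_integrableOn_Icc_of_le (by linarith)] at h1
    exact h1
  have hf : Integrable ((Icc lo hi).indicator fun _ => (1 : ℝ)) volume := by
    rw [integrable_indicator_iff measurableSet_Icc]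
    exact integrableOn_const (by simp)
  have key := Integrable.convolution_integrand (ContinuousLinearMap.mul ℝ ℝ) (μ := volume) hf hg
  refine IntegrableOn.congr_fun key.integrableOn ?_ (measurableSet_Icc.prod measurableSet_Icc)
  rintro ⟨x, y⟩ ⟨hx, hy⟩
  change (ContinuousLinearMap.mul ℝ ℝ) ((Icc lo hi).indicator (fun _ => (1 : ℝ)) y)
    ((Icc (-R) R).indicator Real.log (x - y)) = Real.log |x - y|
  have hy' : y ∈ Icc lo hi := hy
  have hx' : x ∈ Icc lo hi := hx
  have hxy : x - y ∈ Icc (-R) R := by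
    have h1 : hi - lo ≤ R := le_abs_self _
    constructor
    · linarith [hx'.1, hy'.2]
    · linarith [hx'.2, hy'.1]
  rw [indicator_of_mem hy', indicator_of_mem hxy, Real.log_abs]
  simp

theorem e2a_bdd {μ : Measure ℝ} {C : ℝ≥0∞} (hC : C ≠ ⊤) {lo hi : ℝ}
    (h : μ ≤ C • volume.restrict (Icc lo hi)) :
    IsFiniteMeasure μ ∧ (∀ x, μ {x} = 0) ∧ μ (Icc lo hi)ᶜ = 0 ∧
      Integrable (fun z : ℝ × ℝ => Real.log |z.1 - z.2|) (μ.prod μ) := by
  have hfin : IsFiniteMeasure μ := by
    refine ⟨lt_of_le_of_lt (h univ) ?_⟩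
    rw [Measure.smul_apply, smul_eq_mul, Measure.restrict_apply_univ, Real.volume_Icc]
    exact ENNReal.mul_lt_top hC.lt_top ENNReal.ofReal_lt_top
  refine ⟨hfin, fun x => ?_, ?_, ?_⟩
  · have h1 := h {x}
    have h2 : (C • volume.restrict (Icc lo hi)) {x} = 0 := by
      rw [Measure.smul_apply, smul_eq_mul]
      have : (volume.restrict (Icc lo hi)) {x} = 0 := measure_singleton x
      rw [this, mul_zero]
    exact le_antisymm (h1.trans h2.le) zero_le
  · have h1 := h (Icc lo hi)ᶜ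
    have h2 : (C • volume.restrict (Icc lo hi)) (Icc lo hi)ᶜ = 0 := by
      rw [Measure.smul_apply, smul_eq_mul, Measure.restrict_apply measurableSet_Icc.compl]
      simp
    exact le_antisymm (h1.trans h2.le) zero_le
  · have h1 : μ.prod μ ≤ (C • volume.restrict (Icc lo hi)).prod
        (C • volume.restrict (Icc lo hi)) := by
      exact Measure.prod_mono h h
    refine Integrable.mono_measure ?_ h1
    rw [Measure.prod_smul_left, Measure.prod_smul_right]
    exact ((e2a_log_integrable lo hi).smul_measure hC).smul_measure hC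

theorem e2a_integrable {μ : Measure ℝ} [IsFiniteMeasure μ] {lo hi : ℝ}
    (h : μ (Icc lo hi)ᶜ = 0) {q : ℝ → ℝ} (hq : ContinuousOn q (Icc lo hi)) : Integrable q μ := by
  have h1 : μ.restrict (Icc lo hi) = μ := by
    apply Measure.restrict_eq_self_of_ae_mem
    exact (measure_eq_zero_iff_ae_notMem.1 h).mono fun x hx => not_not.1 hx
  have h2 : IntegrableOn q (Icc lo hi) μ := hq.integrableOn_compact isCompact_Icc
  rwa [IntegrableOn, h1] at h2

/-- uniform probability on `(T, 2T]` -/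
def e2a_u (T : ℝ) : Measure ℝ := ENNReal.ofReal (1 / T) • volume.restrict (Ioc T (2 * T))

theorem e2a_u_univ (T : ℝ) (hT : 0 < T) : e2a_u T univ = 1 := by
  simp only [e2a_u, Measure.smul_apply, Measure.restrict_apply_univ, Real.volume_Ioc, smul_eq_mul]
  rw [← ENNReal.ofReal_mul (by positivity), show 1 / T * (2 * T - T) = 1 by field_simp; ring]
  simp

theorem e2a_u_prob (T : ℝ) (hT : 0 < T) : IsProbabilityMeasure (e2a_u T) := ⟨e2a_u_univ T hT⟩

theorem e2a_u_noatom (T x : ℝ) : e2a_u T {x} = 0 := by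
  simp only [e2a_u, Measure.smul_apply, smul_eq_mul]
  have : (volume.restrict (Ioc T (2 * T))) {x} = 0 := by
    refine le_antisymm ((Measure.restrict_apply_le _ _).trans ?_) bot_le
    simp
  rw [this, mul_zero]

theorem e2a_u_supp (T : ℝ) : e2a_u T (Ioc T (2 * T))ᶜ = 0 := by
  simp only [e2a_u, Measure.smul_apply, smul_eq_mul]
  rw [Measure.restrict_apply measurableSet_Ioc.compl]
  simp

theorem e2a_u_ae (T : ℝ) : ∀ᵐ y ∂(e2a_u T), T < y ∧ y ≤ 2 * T := by
  rw [ae_iff]
  exact e2a_u_supp T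

theorem e2a_dI (α τ : ℝ) (hτ : 0 < τ) : ∀ᶠ T in (atTop : Filter ℝ), ∀ t ∈ Ioc T (2 * T),
    1 / T ≤ dI α τ t := by
  obtain ⟨c, η₀, hc, hη, h⟩ := rr_lower (α := α) hτ
  filter_upwards [eventually_ge_atTop 1, eventually_ge_atTop (η₀ ^ 2),
    eventually_ge_atTop (8 * π ^ 2 / (τ * c) ^ 2)] with T h1 h2 h3 t ht
  have hT : 0 < T := by linarith
  have ht0 : 0 < t := by linarith [ht.1]
  have hs : η₀ ≤ √t := Real.le_sqrt_of_sq_le (by linarith [ht.1])
  have hs1 : 1 ≤ √t := Real.one_le_sqrt.2 (by linarith [ht.1])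
  have hr := h _ hs
  have hr1 : 1 ≤ (√t) ^ (1 / 3 : ℝ) := Real.one_le_rpow hs1 (by norm_num)
  have hrc : c ≤ rr α τ (√t * Complex.I) := by nlinarith
  unfold dI
  have hsq : √t ≤ τ * c * T / (2 * π) := by
    apply Real.sqrt_le_iff.2
    refine ⟨by positivity, ?_⟩
    have h5 : 8 * π ^ 2 ≤ T * (τ * c) ^ 2 := by
      rwa [div_le_iff₀ (by positivity)] at h3
    have h6 : (τ * c * T / (2 * π)) ^ 2 = (T * (τ * c) ^ 2) * T / (4 * π ^ 2) := by ring
    rw [h6, le_div_iff₀ (by positivity)]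
    nlinarith [ht.2, mul_le_mul_of_nonneg_right h5 hT.le, mul_le_mul_of_nonneg_right ht.2
      (show (0:ℝ) ≤ 4 * π ^ 2 by positivity)]
  have hst : 0 < √t := by positivity
  have h7 : τ / π * c / (2 * √t) ≤ τ / π * rr α τ (√t * Complex.I) / (2 * √t) := by gcongr
  refine le_trans ?_ h7
  rw [div_le_div_iff₀ hT (by positivity)]
  have h8 : 2 * π * √t ≤ τ * c * T := by
    rw [le_div_iff₀ (by positivity)] at hsq
    linarith
  have h9 : τ / π * c * T = τ * c * T / π := by ring
  rw [h9, le_div_iff₀ Real.pi_pos]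
  linarith

theorem e2a_uS (T : ℝ) (hT : 0 < T) (c : ℝ≥0∞) (hc : c ≠ ⊤) :
    (c • e2a_u T) (Iio 0) = 0 ∧ (c • e2a_u T) univ = c ∧ FinEn (c • e2a_u T) ∧
    ∀ q : ℝ → ℝ, Continuous q → Integrable q (c • e2a_u T) := by
  have hle : c • e2a_u T ≤ (c * ENNReal.ofReal (1 / T)) • volume.restrict (Icc T (2 * T)) := by
    unfold e2a_u
    rw [smul_smul]
    intro A
    rw [Measure.smul_apply, Measure.smul_apply]
    gcongr
    exact Ioc_subset_Icc_self
  obtain ⟨hf, h1, h2, h3⟩ := e2a_bdd (ENNReal.mul_ne_top hc ENNReal.ofReal_ne_top) hle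
  refine ⟨?_, ?_, ⟨h1, h3, ?_⟩, ?_⟩
  · refine measure_mono_null (fun x hx => ?_) h2
    simp only [mem_Iio] at hx
    simp only [mem_compl_iff, mem_Icc, not_and]
    intro h
    linarith
  · rw [Measure.smul_apply, e2a_u_univ T hT, smul_eq_mul, mul_one]
  · refine e2a_integrable h2 ?_
    apply ContinuousOn.log
    · fun_prop
    · intro x _
      positivity
  · intro q hq
    exact e2a_integrable h2 hq.continuousOn

/-- [E2a] -/
theorem e_nonempty {α τ : ℝ} (hτ : 0 < τ) {V : ℝ → ℝ} (hV : Pot V) :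
    ∃ a b c : Measure ℝ, AdmJ α τ V a b c := by
  obtain ⟨T, hT1, hTd⟩ := ((eventually_ge_atTop (1:ℝ)).and (e2a_dI α τ hτ)).exists
  have hT0 : 0 < T := by linarith
  obtain ⟨a1, a2, a3, a4⟩ := e2a_uS 1 one_pos (1 / 2) (by simp)
  obtain ⟨b1, b2, b3, b4⟩ := e2a_uS T hT0 (1 / 3) (ENNReal.div_ne_top (by simp) (by simp))
  obtain ⟨c1, c2, c3, c4⟩ := e2a_uS 1 one_pos (1 / 6) (ENNReal.div_ne_top (by simp) (by simp))
  refine ⟨_, _, _, a1, b1, c1, a2, b2, c2, ?_, a3, b3, c3, a4 _ ?_⟩
  · have h2 : (1 / 3 : ℝ≥0∞) • e2a_u T ≤ e2a_u T := by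
      intro A
      rw [Measure.smul_apply, smul_eq_mul]
      calc (1 / 3 : ℝ≥0∞) * e2a_u T A ≤ 1 * e2a_u T A := by
            gcongr
            exact ENNReal.div_le_of_le_mul (by norm_num)
        _ = _ := one_mul _
    refine h2.trans ?_
    have h3 : (sigI α τ).restrict (Ioc T (2 * T)) ≤ sigI α τ := Measure.restrict_le_self
    refine le_trans ?_ h3
    rw [sigI_eq hτ, restrict_withDensity measurableSet_Ioc, Measure.restrict_restrict
      measurableSet_Ioc]
    have h4 : Ioc T (2 * T) ∩ Ioi 0 = Ioc T (2 * T) := by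
      refine inter_eq_left.2 (fun x hx => ?_)
      simp only [mem_Ioi]
      linarith [hx.1]
    rw [h4]
    unfold e2a_u
    rw [← withDensity_const]
    refine withDensity_mono ?_
    refine (ae_restrict_iff' measurableSet_Ioc).2 (Eventually.of_forall fun t ht => ?_)
    exact ENNReal.ofReal_le_ofReal (hTd t ht)
  · unfold U1
    exact (hV.cont.comp Real.continuous_sqrt).sub
      ((gg_continuous hτ).comp Real.continuous_sqrt)

end

end Pool.Agent.MP_941b23_mp
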