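import Pool.Agent.MP_941b23_mp.Defs2
import Pool.Agent.MP_941b23_mp.P5
import Pool.Agent.MP_941b23_mp.T2b
import Pool.Agent.MP_941b23_mp.T5

/-!
# [QM-E2b] `JJ` is bounded below on admissible triples
-/

namespace Pool.Agent.MP_941b23_mp

open MeasureTheory Set Filter Topology
open scoped ENNReal NNReal Real

noncomputable section

/-! ### layer cake (copied from P5) -/

theorem e2b_layer (μ : Measure ℝ) [IsFiniteMeasure μ]
    (h : Integrable (fun x => Real.log (max x 1)) μ) :
    IntegrableOn (fun u => 1 / u * tl μ u) (Ioi 1) := by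
  have hnn : ∀ x : ℝ, 0 ≤ Real.log (max x 1) := fun x => Real.log_nonneg (le_max_right _ _)
  have hset : ∀ t ∈ Ioi (0:ℝ), {x : ℝ | t < Real.log (max x 1)} = Ioi (Real.exp t) := by
    intro t ht
    ext x
    have hm : 0 < max x 1 := lt_of_lt_of_le one_pos (le_max_right _ _)
    have h1 : (1:ℝ) < Real.exp t := Real.one_lt_exp_iff.2 ht
    simp only [mem_ofPred_eq, mem_Ioi]
    rw [Real.lt_log_iff_exp_lt hm, lt_max_iff]
    constructor
    · rintro (h | h)
      · exact h
      · exact absurd h (not_lt.2 h1.le)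
    · exact Or.inl
  have himg : Real.exp '' (Ioi (0:ℝ)) = Ioi 1 := by
    ext u
    constructor
    · rintro ⟨t, ht, rfl⟩
      exact Real.one_lt_exp_iff.2 ht
    · intro hu
      have hu' : (1:ℝ) < u := hu
      exact ⟨Real.log u, Real.log_pos hu', Real.exp_log (by linarith)⟩
  have hder : ∀ t ∈ Ioi (0:ℝ), HasDerivWithinAt Real.exp (Real.exp t) (Ioi 0) t :=
    fun t _ => (Real.hasDerivAt_exp t).hasDerivWithinAt
  have hinj : InjOn Real.exp (Ioi (0:ℝ)) := Real.exp_injective.injOn
  have hfun : ∀ t : ℝ, |Real.exp t| • (1 / Real.exp t * tl μ (Real.exp t)) = tl μ (Real.exp t) := by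
    intro t
    have := Real.exp_pos t
    rw [abs_of_pos this, smul_eq_mul]
    field_simp
  have hint0 : IntegrableOn (fun t => tl μ (Real.exp t)) (Ioi (0:ℝ)) := by
    have hm : Measurable (fun t => tl μ (Real.exp t)) := by
      have hanti : Antitone (fun t => tl μ (Real.exp t)) := by
        intro s t hst
        exact measureReal_mono (Ioi_subset_Ioi (Real.exp_le_exp.2 hst))
      exact hanti.measurable
    refine ⟨hm.aestronglyMeasurable, ?_⟩
    have hnn' : ∀ᵐ t ∂(volume.restrict (Ioi (0:ℝ))), 0 ≤ tl μ (Real.exp t) :=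
      Eventually.of_forall fun t => measureReal_nonneg
    rw [hasFiniteIntegral_iff_ofReal hnn']
    have e1 : ∫⁻ t in Ioi (0:ℝ), ENNReal.ofReal (tl μ (Real.exp t))
        = ∫⁻ t in Ioi (0:ℝ), μ {x : ℝ | t < Real.log (max x 1)} := by
      refine setLIntegral_congr_fun measurableSet_Ioi ?_
      intro t ht
      show ENNReal.ofReal (μ.real (Ioi (Real.exp t))) = μ {x : ℝ | t < Real.log (max x 1)}
      rw [hset t ht]
      exact ENNReal.ofReal_toReal (measure_ne_top _ _)
    rw [e1, ← lintegral_eq_lintegral_meas_lt μ (Eventually.of_forall hnn) h.aemeasurable]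
    exact h.lintegral_lt_top
  rw [← himg, integrableOn_image_iff_integrableOn_abs_deriv_smul measurableSet_Ioi hder hinj]
  simp only [hfun]
  exact hint0

theorem e2b_logmax_le (x : ℝ) : |Real.log (max x 1)| ≤ Real.log (1 + |x|) := by
  rw [abs_of_nonneg (Real.log_nonneg (le_max_right _ _))]
  apply Real.log_le_log (lt_of_lt_of_le one_pos (le_max_right _ _))
  apply max_le
  · linarith [le_abs_self x]
  · linarith [abs_nonneg x]

theorem e2b_logmax_int (μ : Measure ℝ) [IsFiniteMeasure μ]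
    (h : Integrable (fun x => Real.log (1 + |x|)) μ) :
    Integrable (fun x => Real.log (max x 1)) μ := by
  have hm : Measurable (fun x : ℝ => Real.log (max x 1)) := by fun_prop
  refine h.mono' hm.aestronglyMeasurable ?_
  exact Eventually.of_forall fun x => e2b_logmax_le x

theorem e2b_logmax2_int (μ ν : Measure ℝ) [IsFiniteMeasure μ] [IsFiniteMeasure ν]
    (hμ : Integrable (fun x => Real.log (1 + |x|)) μ)
    (hν : Integrable (fun x => Real.log (1 + |x|)) ν) :
    Integrable (fun z : ℝ × ℝ => Real.log (max (max z.1 z.2) 1)) (μ.prod ν) := by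
  have h1 : Integrable (fun z : ℝ × ℝ => Real.log (1 + |z.1|)) (μ.prod ν) := hμ.comp_fst ν
  have h2 : Integrable (fun z : ℝ × ℝ => Real.log (1 + |z.2|)) (μ.prod ν) := hν.comp_snd μ
  have hm : Measurable (fun z : ℝ × ℝ => Real.log (max (max z.1 z.2) 1)) := by fun_prop
  refine (h1.add h2).mono' hm.aestronglyMeasurable ?_
  refine Eventually.of_forall fun z => ?_
  have hm : (1:ℝ) ≤ max (max z.1 z.2) 1 := le_max_right _ _
  rw [Real.norm_eq_abs, abs_of_nonneg (Real.log_nonneg hm)]
  show Real.log (max (max z.1 z.2) 1) ≤ Real.log (1 + |z.1|) + Real.log (1 + |z.2|)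
  rw [← Real.log_mul (by positivity) (by positivity)]
  apply Real.log_le_log (by linarith)
  have a1 := le_abs_self z.1
  have a2 := le_abs_self z.2
  have a3 := abs_nonneg z.1
  have a4 := abs_nonneg z.2
  have a5 := mul_nonneg a3 a4
  apply max_le (max_le _ _) _ <;> nlinarith

/-! ### the kernels -/

theorem e2b_sigI_Iic {α τ : ℝ} (hτ : 0 < τ) : sigI α τ (Iic 0) = 0 := by
  rw [sigI_eq hτ]
  apply withDensity_absolutelyContinuous
  rw [Measure.restrict_apply measurableSet_Iic]
  have : Iic (0:ℝ) ∩ Ioi 0 = ∅ := by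
    ext x; simp
  rw [this]; simp

theorem e2b_Rp_bound (x y : ℝ) (hx : 0 ≤ x) (hy : 0 < y) :
    |Rp x y| ≤ Real.log 2 + Real.log (1 + 1 / y) := by
  unfold Rp
  set m := max (max x y) 1 with hm
  have hm1 : 1 ≤ m := le_max_right _ _
  have hmx : x ≤ m := (le_max_left x y).trans (le_max_left _ _)
  have hmy : y ≤ m := (le_max_right x y).trans (le_max_left _ _)
  have hm0 : 0 < m := by linarith
  have hl2 : 0 ≤ Real.log 2 := Real.log_nonneg (by norm_num)
  have hly : 0 ≤ Real.log (1 + 1 / y) := Real.log_nonneg (by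
    have : 0 < 1 / y := by positivity
    linarith)
  have hq : 0 < (x + y) / m := by positivity
  rw [abs_le]
  constructor
  · have h1 : (1 + 1 / y)⁻¹ ≤ (x + y) / m := by
      have e : (1 + 1 / y)⁻¹ = y / (y + 1) := by field_simp
      rw [e, div_le_div_iff₀ (by positivity) hm0]
      rcases le_total (max x y) 1 with h | h
      · have : m = 1 := by rw [hm, max_eq_right h]
        rw [this]; nlinarith
      · have hmm : m = max x y := by rw [hm, max_eq_left h]
        rcases le_total x y with h' | h'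
        · rw [hmm, max_eq_right h']; nlinarith
        · rw [hmm, max_eq_left h']; nlinarith
    have h2 := Real.log_le_log (by positivity) h1
    rw [Real.log_inv] at h2
    linarith
  · have h1 : (x + y) / m ≤ 2 := by
      rw [div_le_iff₀ hm0]; linarith
    have h2 := Real.log_le_log hq h1
    linarith

theorem e2b_Rp_symm (x y : ℝ) : Rp x y = Rp y x := by
  unfold Rp
  rw [add_comm, max_comm x y]

theorem e2b_Rm_measurable : Measurable (fun z : ℝ × ℝ => Rm z.1 z.2) := by
  unfold Rm; fun_prop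

theorem e2b_Rm_nonneg (x y : ℝ) (hx : 0 ≤ x) (hy : 0 ≤ y) : 0 ≤ Rm x y := by
  unfold Rm
  rcases eq_or_ne x y with h | h
  · rw [h]; simp
  · have h1 : 0 < |x - y| := abs_pos.2 (sub_ne_zero.2 h)
    apply Real.log_nonneg
    rw [le_div_iff₀ h1, one_mul]
    have h2 : |x - y| ≤ max x y := by
      rw [abs_le]
      constructor
      · linarith [le_max_right x y]
      · linarith [le_max_left x y]
    exact h2.trans (le_max_left _ _)

theorem e2b_ae_prod (a b : Measure ℝ) [IsFiniteMeasure a] [IsFiniteMeasure b] (p q : ℝ → Prop)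
    (hp : ∀ᵐ x ∂a, p x) (hq : ∀ᵐ x ∂b, q x) : ∀ᵐ z ∂(a.prod b), p z.1 ∧ q z.2 := by
  have h1 : ∀ᵐ z ∂(a.prod b), p z.1 := Measure.quasiMeasurePreserving_fst.ae hp
  have h2 : ∀ᵐ z ∂(a.prod b), q z.2 := Measure.quasiMeasurePreserving_snd.ae hq
  filter_upwards [h1, h2] with z a1 a2 using ⟨a1, a2⟩

theorem e2b_ae_nonneg (a : Measure ℝ) (h : a (Iio 0) = 0) : ∀ᵐ x ∂a, 0 ≤ x := by
  rw [ae_iff]
  have : {x : ℝ | ¬ 0 ≤ x} = Iio 0 := by ext x; simp
  rw [this]; exact h

theorem e2b_ae_pos {α τ : ℝ} (hτ : 0 < τ) (b : Measure ℝ) (hb : b ≤ sigI α τ) :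
    ∀ᵐ x ∂b, 0 < x := by
  rw [ae_iff]
  have : {x : ℝ | ¬ 0 < x} = Iic 0 := by ext x; simp
  rw [this]
  exact le_antisymm ((hb _).trans (e2b_sigI_Iic hτ).le) bot_le

theorem e2b_Rm_int (μ : Measure ℝ) [IsFiniteMeasure μ] (h : FinEn μ) :
    Integrable (fun z : ℝ × ℝ => Rm z.1 z.2) (μ.prod μ) := by
  have h1 := e2b_logmax2_int μ μ h.logMoment h.logMoment
  refine (h1.norm.add h.energy.norm).mono' e2b_Rm_measurable.aestronglyMeasurable ?_
  refine Eventually.of_forall fun z => ?_
  show ‖Rm z.1 z.2‖ ≤ ‖Real.log (max (max z.1 z.2) 1)‖ + ‖Real.log |z.1 - z.2|‖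
  unfold Rm
  rcases eq_or_ne (|z.1 - z.2|) 0 with h | h
  · rw [h, div_zero, Real.log_zero, norm_zero]
    positivity
  · have h2 : max (max z.1 z.2) 1 ≠ 0 := (lt_of_lt_of_le one_pos (le_max_right _ _)).ne'
    rw [Real.log_div h2 h]
    exact norm_sub_le _ _

theorem e2b_qf_nonneg (x y z : ℝ) : 0 ≤ qf x y z := by
  unfold qf
  nlinarith [sq_nonneg (x - y / 2), sq_nonneg (z - y / 2), sq_nonneg y]

theorem e2b_tl_anti (μ : Measure ℝ) [IsFiniteMeasure μ] : Antitone (tl μ) := by
  intro s t hst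
  exact measureReal_mono (Ioi_subset_Ioi hst)

theorem e2b_tail (a b c : Measure ℝ) [IsFiniteMeasure a] [IsFiniteMeasure b] [IsFiniteMeasure c]
    (ha : Integrable (fun x => Real.log (max x 1)) a)
    (hb : Integrable (fun x => Real.log (max x 1)) b)
    (hc : Integrable (fun x => Real.log (max x 1)) c) :
    IntegrableOn (fun u => 1 / u * qf (tl a u) (tl b u) (tl c u)) (Ioi 1) := by
  have ia := e2b_layer a ha
  have ib := e2b_layer b hb
  have ic := e2b_layer c hc
  set M := a.real univ + b.real univ + c.real univ with hM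
  have hi : IntegrableOn (fun u => M * (1 / u * tl a u) + M * (1 / u * tl b u) +
      M * (1 / u * tl c u)) (Ioi 1) := ((ia.const_mul M).add (ib.const_mul M)).add (ic.const_mul M)
  refine hi.mono' ?_ ?_
  · have ma := (e2b_tl_anti a).measurable
    have mb := (e2b_tl_anti b).measurable
    have mc := (e2b_tl_anti c).measurable
    have : Measurable (fun u => 1 / u * qf (tl a u) (tl b u) (tl c u)) := by
      unfold qf; fun_prop
    exact this.aestronglyMeasurable
  · filter_upwards [ae_restrict_mem measurableSet_Ioi] with u hu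
    have hu1 : (1:ℝ) < u := hu
    have hu0 : 0 < 1 / u := by positivity
    have hq := e2b_qf_nonneg (tl a u) (tl b u) (tl c u)
    rw [Real.norm_eq_abs, abs_of_nonneg (by positivity)]
    have a0 : 0 ≤ tl a u := measureReal_nonneg
    have b0 : 0 ≤ tl b u := measureReal_nonneg
    have c0 : 0 ≤ tl c u := measureReal_nonneg
    have a1 : tl a u ≤ a.real univ := measureReal_mono (subset_univ _)
    have b1 : tl b u ≤ b.real univ := measureReal_mono (subset_univ _)
    have c1 : tl c u ≤ c.real univ := measureReal_mono (subset_univ _)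
    have a2 : 0 ≤ a.real univ := measureReal_nonneg
    have b2 : 0 ≤ b.real univ := measureReal_nonneg
    have c2 : 0 ≤ c.real univ := measureReal_nonneg
    have key : qf (tl a u) (tl b u) (tl c u) ≤ M * tl a u + M * tl b u + M * tl c u := by
      have ha : tl a u * tl a u ≤ M * tl a u := mul_le_mul_of_nonneg_right (by linarith) a0
      have hb : tl b u * tl b u ≤ M * tl b u := mul_le_mul_of_nonneg_right (by linarith) b0
      have hc : tl c u * tl c u ≤ M * tl c u := mul_le_mul_of_nonneg_right (by linarith) c0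
      have hab := mul_nonneg a0 b0
      have hbc := mul_nonneg b0 c0
      unfold qf
      nlinarith
    calc 1 / u * qf (tl a u) (tl b u) (tl c u)
        ≤ 1 / u * (M * tl a u + M * tl b u + M * tl c u) :=
          mul_le_mul_of_nonneg_left key hu0.le
      _ = M * (1 / u * tl a u) + M * (1 / u * tl b u) + M * (1 / u * tl c u) := by ring

/-- admissible triples are weakly admissible -/
theorem e2b_wadm {α τ : ℝ} {V : ℝ → ℝ} {a b c : Measure ℝ} (h : AdmJ α τ V a b c) :
    WAdm α τ V a b c := by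
  have fa : IsFiniteMeasure a := ⟨by rw [h.massa]; simp⟩
  have fb : IsFiniteMeasure b := ⟨by
    rw [h.massb]; exact ENNReal.div_lt_top (by simp) (by simp)⟩
  have fc : IsFiniteMeasure c := ⟨by
    rw [h.massc]; simp⟩
  exact ⟨h.suppa, h.suppb, h.suppc, h.massa, h.massb, h.massc, h.constr, h.ena.noAtom,
    h.enb.noAtom, h.enc.noAtom, e2b_Rm_int a h.ena, e2b_Rm_int b h.enb, e2b_Rm_int c h.enc,
    h.pot, e2b_tail a b c (e2b_logmax_int a h.ena.logMoment) (e2b_logmax_int b h.enb.logMoment)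
      (e2b_logmax_int c h.enc.logMoment)⟩

theorem e2b_Rp_lower {α τ : ℝ} (hτ : 0 < τ) (a b : Measure ℝ) [IsFiniteMeasure a]
    [IsFiniteMeasure b] (hb : b ≤ sigI α τ) (h0a : a (Iio 0) = 0) (h0b : b (Iio 0) = 0) :
    -(a.real univ * (Real.log 2 * b.real univ +
      ∫ t, Real.log (1 + 1 / t) ∂(sigI α τ))) ≤ ∫ z : ℝ × ℝ, Rp z.1 z.2 ∂(a.prod b) := by
  have hσ0 : Integrable (fun t : ℝ => Real.log (1 + 1 / t)) (sigI α τ) := by
    simpa using sigI_log (α := α) hτ 1
  have hσ := hσ0.mono_measure hb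
  have hb1 : Integrable (fun t : ℝ => Real.log 2 + Real.log (1 + 1 / t)) b :=
    (integrable_const _).add hσ
  have hpos : ∀ᵐ t ∂(sigI α τ), (0:ℝ) ≤ Real.log (1 + 1 / t) := by
    filter_upwards [e2b_ae_pos hτ (sigI α τ) le_rfl] with t ht
    apply Real.log_nonneg
    have : 0 < 1 / t := by positivity
    linarith
  have hle : ∫ t, Real.log (1 + 1 / t) ∂b ≤ ∫ t, Real.log (1 + 1 / t) ∂(sigI α τ) :=
    integral_mono_measure hb hpos hσ0
  have h2 : ∫ z : ℝ × ℝ, (Real.log 2 + Real.log (1 + 1 / z.2)) ∂(a.prod b) =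
      a.real univ * (Real.log 2 * b.real univ + ∫ t, Real.log (1 + 1 / t) ∂b) := by
    have e := integral_fun_snd (μ := a) (ν := b) (fun t : ℝ => Real.log 2 + Real.log (1 + 1 / t))
    rw [e, integral_add (integrable_const _) hσ, integral_const, smul_eq_mul, smul_eq_mul]
    ring
  have h3 : -∫ z : ℝ × ℝ, (Real.log 2 + Real.log (1 + 1 / z.2)) ∂(a.prod b) ≤
      ∫ z : ℝ × ℝ, Rp z.1 z.2 ∂(a.prod b) := by
    rw [← integral_neg]
    refine integral_mono_ae (hb1.comp_snd a).neg (Rp_integrable hτ a b hb h0a h0b).1 ?_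
    filter_upwards [e2b_ae_prod a b _ _ (e2b_ae_nonneg a h0a) (e2b_ae_pos hτ b hb)] with z hz
    have := e2b_Rp_bound z.1 z.2 hz.1 hz.2
    exact (abs_le.1 this).1
  refine le_trans ?_ h3
  rw [h2]
  have h4 : 0 ≤ a.real univ := measureReal_nonneg
  apply neg_le_neg
  apply mul_le_mul_of_nonneg_left _ h4
  linarith

/-- [E2b] -/
theorem e_bdd {α τ : ℝ} (hτ : 0 < τ) {V : ℝ → ℝ} (hV : Pot V) :
    ∃ K : ℝ, ∀ a b c : Measure ℝ, AdmJ α τ V a b c → K ≤ JJ α τ V a b c := by
  obtain ⟨k, C, hk, hU⟩ := U1_lower (α := α) hτ hV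
  set S := ∫ t, Real.log (1 + 1 / t) ∂(sigI α τ) with hS
  set B := -C - k + 2 / 3 * (1 + Real.log (3 * k / 2)) with hB
  refine ⟨-(1 / 2 * (Real.log 2 * (1 / 3) + S)) - (1 / 6 * (Real.log 2 * (1 / 3) + S)) +
    B * (1 / 2), ?_⟩
  intro a b c h
  have fa : IsFiniteMeasure a := ⟨by rw [h.massa]; simp⟩
  have fb : IsFiniteMeasure b := ⟨by
    rw [h.massb]; exact ENNReal.div_lt_top (by simp) (by simp)⟩
  have fc : IsFiniteMeasure c := ⟨by
    rw [h.massc]; simp⟩
  have ma : a.real univ = 1 / 2 := by unfold Measure.real; rw [h.massa]; simp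
  have mb : b.real univ = 1 / 3 := by unfold Measure.real; rw [h.massb]; simp
  have mc : c.real univ = 1 / 6 := by unfold Measure.real; rw [h.massc]; simp
  have hw := e2b_wadm h
  rw [(WAdm.admJ hτ hV hw h.enb.logMoment h.enc.logMoment).2]
  have rmnn : ∀ μ : Measure ℝ, IsFiniteMeasure μ → μ (Iio 0) = 0 →
      0 ≤ ∫ z : ℝ × ℝ, Rm z.1 z.2 ∂(μ.prod μ) := by
    intro μ _ h0
    refine integral_nonneg_of_ae ?_
    filter_upwards [e2b_ae_prod μ μ _ _ (e2b_ae_nonneg μ h0) (e2b_ae_nonneg μ h0)] with z hz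
    exact e2b_Rm_nonneg _ _ hz.1 hz.2
  have r1 := rmnn a fa h.suppa
  have r2 := rmnn b fb h.suppb
  have r3 := rmnn c fc h.suppc
  have p1 := e2b_Rp_lower hτ a b h.constr h.suppa h.suppb
  have p2 := e2b_Rp_lower hτ c b h.constr h.suppc h.suppb
  have p3 : ∫ z : ℝ × ℝ, Rp z.1 z.2 ∂(b.prod c) = ∫ z : ℝ × ℝ, Rp z.1 z.2 ∂(c.prod b) := by
    rw [← integral_prod_swap]
    refine integral_congr_ae (Eventually.of_forall fun z => ?_)
    show Rp z.2 z.1 = Rp z.1 z.2
    exact e2b_Rp_symm _ _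
  have t1 : 0 ≤ ∫ u in Ioi (1 : ℝ), 1 / u * qf (tl a u) (tl b u) (tl c u) := by
    refine setIntegral_nonneg measurableSet_Ioi fun u hu => ?_
    have hu1 : (1:ℝ) < u := hu
    have := e2b_qf_nonneg (tl a u) (tl b u) (tl c u)
    positivity
  have u3 : 0 ≤ ∫ x, U3 α τ x ∂c := integral_nonneg fun x => V3_nonneg hτ _
  have u1 : B * (1 / 2) ≤ ∫ x, (U1 α τ V x - 2 / 3 * Real.log (max x 1)) ∂a := by
    have e : ∫ _ : ℝ, B ∂a = B * (1 / 2) := by
      rw [integral_const, ma, smul_eq_mul]; ring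
    rw [← e]
    refine integral_mono_ae (integrable_const _)
      (h.pot.sub ((e2b_logmax_int a h.ena.logMoment).const_mul _)) ?_
    filter_upwards [e2b_ae_nonneg a h.suppa] with x hx
    show B ≤ U1 α τ V x - 2 / 3 * Real.log (max x 1)
    have h1 := hU x hx
    have h2 : 0 < max x 1 := lt_of_lt_of_le one_pos (le_max_right _ _)
    have h3 : 0 < 3 * k / 2 := by positivity
    have h4 : max x 1 ≤ 1 + x := max_le (by linarith) (by linarith)
    have h5 := Real.log_le_sub_one_of_pos (mul_pos h3 h2)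
    rw [Real.log_mul h3.ne' h2.ne'] at h5
    have h6 : 3 * k / 2 * max x 1 ≤ 3 * k / 2 * (1 + x) := mul_le_mul_of_nonneg_left h4 h3.le
    rw [hB]
    linarith
  unfold JW
  rw [p3]
  rw [ma, mb] at p1
  rw [mc, mb] at p2
  linarith

end

end Pool.Agent.MP_941b23_mp
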