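import Pool.Agent.MP_941b23_mp.Defs2

/-!
# [QM-P1a] : the tent kernel: `kap_eq`, `tent_identity`, `im_integrable`.

The definitions `im` and `kap` are copied verbatim from `SpecP`.
-/

namespace Pool.Agent.MP_941b23_mp

open MeasureTheory Set Filter Topology
open scoped ENNReal NNReal Real

noncomputable section

/-! ### the elementary integral -/

theorem p1a_int (a c H : ℝ) (hc : 0 < c) (hH : c ≤ H) :
    ∫ s in c..H, (1 / s - a / s ^ 2) = Real.log (H / c) - a * (1 / c - 1 / H) := by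
  have hH0 : 0 < H := hc.trans_le hH
  have hder : ∀ s ∈ uIcc c H, HasDerivAt (fun s : ℝ => Real.log s + a * s⁻¹)
      (1 / s - a / s ^ 2) s := by
    intro s hs
    rw [uIcc_of_le hH] at hs
    have hs0 : s ≠ 0 := (hc.trans_le hs.1).ne'
    have h1 := (Real.hasDerivAt_log hs0).add ((hasDerivAt_inv hs0).const_mul a)
    refine h1.congr_deriv ?_
    field_simp
    ring
  have hint : IntervalIntegrable (fun s : ℝ => 1 / s - a / s ^ 2) volume c H := by
    apply ContinuousOn.intervalIntegrable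
    rw [uIcc_of_le hH]
    have h0 : ∀ s ∈ Icc c H, s ≠ 0 := fun s hs => (hc.trans_le hs.1).ne'
    exact (continuousOn_const.div continuousOn_id h0).sub
      (continuousOn_const.div (continuousOn_id.pow 2) fun s hs => pow_ne_zero 2 (h0 s hs))
  rw [intervalIntegral.integral_eq_sub_of_hasDerivAt hder hint, Real.log_div hH0.ne' hc.ne']
  field_simp
  ring

theorem p1a_pos {a s : ℝ} (hs : 0 < s) (h : a ≤ s) :
    max 0 (1 - a / s) / s = 1 / s - a / s ^ 2 := by
  have : 0 ≤ 1 - a / s := by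
    rw [sub_nonneg, div_le_one hs]; exact h
  rw [max_eq_right this]
  field_simp

theorem p1a_neg {a s : ℝ} (hs : 0 < s) (h : s ≤ a) : max 0 (1 - a / s) / s = 0 := by
  have : 1 - a / s ≤ 0 := by
    rw [sub_nonpos, one_le_div hs]; exact h
  rw [max_eq_left this, zero_div]

theorem kap_eq (ε H u : ℝ) (hε : 0 < ε) (hH : ε ≤ H) :
    kap ε H u = ∫ s in Icc ε H, max 0 (1 - |u| / s) / s := by
  have hH0 : 0 < H := hε.trans_le hH
  rw [integral_Icc_eq_integral_Ioc, ← intervalIntegral.integral_of_le hH]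
  unfold kap
  split_ifs with h1 h2
  · rw [← p1a_int |u| ε H hε hH]
    apply intervalIntegral.integral_congr
    intro s hs
    rw [uIcc_of_le hH] at hs
    exact (p1a_pos (hε.trans_le hs.1) (h1.trans hs.1)).symm
  · have hu : ε ≤ |u| := (not_le.1 h1).le
    have hu0 : 0 < |u| := hε.trans_le hu
    have hcont : ∀ c d : ℝ, ε ≤ c → c ≤ d →
        IntervalIntegrable (fun s => max 0 (1 - |u| / s) / s) volume c d := by
      intro c d hc hcd
      apply ContinuousOn.intervalIntegrable
      rw [uIcc_of_le hcd]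
      have h0 : ∀ s ∈ Icc c d, s ≠ 0 := fun s hs => (hε.trans_le (hc.trans hs.1)).ne'
      exact (continuousOn_const.sup (continuousOn_const.sub
        (continuousOn_const.div continuousOn_id h0))).div continuousOn_id h0
    rw [← intervalIntegral.integral_add_adjacent_intervals (hcont ε |u| le_rfl hu)
      (hcont |u| H hu h2)]
    have e1 : ∫ s in ε..|u|, max 0 (1 - |u| / s) / s = 0 := by
      have : ∫ s in ε..|u|, max 0 (1 - |u| / s) / s = ∫ _ in ε..|u|, (0 : ℝ) := by
        apply intervalIntegral.integral_congr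
        intro s hs
        rw [uIcc_of_le hu] at hs
        exact p1a_neg (hε.trans_le hs.1) hs.2
      rw [this, intervalIntegral.integral_zero]
    have e2 : ∫ s in |u|..H, max 0 (1 - |u| / s) / s =
        ∫ s in |u|..H, (1 / s - |u| / s ^ 2) := by
      apply intervalIntegral.integral_congr
      intro s hs
      rw [uIcc_of_le h2] at hs
      exact p1a_pos (hu0.trans_le hs.1) hs.1
    rw [e1, e2, p1a_int |u| |u| H hu0 h2]
    field_simp
    ring
  · have hu : H ≤ |u| := (not_le.1 h2).le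
    have e1 : ∫ s in ε..H, max 0 (1 - |u| / s) / s = 0 := by
      have : ∫ s in ε..H, max 0 (1 - |u| / s) / s = ∫ _ in ε..H, (0 : ℝ) := by
        apply intervalIntegral.integral_congr
        intro s hs
        rw [uIcc_of_le hH] at hs
        exact p1a_neg (hε.trans_le hs.1) (hs.2.trans hu)
      rw [this, intervalIntegral.integral_zero]
    rw [e1]

/-! ### the tent identity -/

theorem p1a_im_measurable (μ : Measure ℝ) [IsFiniteMeasure μ] (s : ℝ) :
    Measurable fun z => μ (Ioc z (z + s)) := by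
  have hE : MeasurableSet {q : ℝ × ℝ | q.1 < q.2 ∧ q.2 ≤ q.1 + s} :=
    (measurableSet_lt measurable_fst measurable_snd).inter
      (measurableSet_le measurable_snd (measurable_fst.add_const s))
  have := measurable_measure_prodMk_left (ν := μ) hE
  exact this

theorem p1a_core (μ ν : Measure ℝ) [IsFiniteMeasure μ] [IsFiniteMeasure ν] (s : ℝ) :
    (Integrable fun z => im μ z s * im ν z s) ∧
    ∫ z, im μ z s * im ν z s = ∫ p : ℝ × ℝ, max 0 (s - |p.1 - p.2|) ∂(μ.prod ν) := by
  set E : Set (ℝ × (ℝ × ℝ)) := {q | (q.1 < q.2.1 ∧ q.2.1 ≤ q.1 + s) ∧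
    (q.1 < q.2.2 ∧ q.2.2 ≤ q.1 + s)} with hEdef
  have hE : MeasurableSet E := by
    apply MeasurableSet.inter
    · exact (measurableSet_lt measurable_fst measurable_snd.fst).inter
        (measurableSet_le measurable_snd.fst (measurable_fst.add_const s))
    · exact (measurableSet_lt measurable_fst measurable_snd.snd).inter
        (measurableSet_le measurable_snd.snd (measurable_fst.add_const s))
  have h1 : ((volume : Measure ℝ).prod (μ.prod ν)) E =
      ∫⁻ z, ENNReal.ofReal (im μ z s * im ν z s) := by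
    rw [Measure.prod_apply hE]
    refine lintegral_congr fun z => ?_
    have : Prod.mk z ⁻¹' E = Ioc z (z + s) ×ˢ Ioc z (z + s) := by
      ext p; simp [hEdef]
    rw [this, Measure.prod_prod]
    unfold im Measure.real
    rw [ENNReal.ofReal_mul ENNReal.toReal_nonneg, ENNReal.ofReal_toReal (measure_ne_top _ _),
      ENNReal.ofReal_toReal (measure_ne_top _ _)]
  have h2 : ((volume : Measure ℝ).prod (μ.prod ν)) E =
      ∫⁻ p : ℝ × ℝ, ENNReal.ofReal (max 0 (s - |p.1 - p.2|)) ∂(μ.prod ν) := by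
    rw [Measure.prod_apply_symm hE]
    refine lintegral_congr fun p => ?_
    have : (fun z => (z, p)) ⁻¹' E = Ico (max p.1 p.2 - s) (min p.1 p.2) := by
      ext z
      simp only [hEdef, mem_preimage, mem_ofPred_eq, mem_Ico, lt_min_iff, sub_le_iff_le_add,
        max_le_iff]
      tauto
    rw [this, Real.volume_Ico]
    have h3 : min p.1 p.2 - (max p.1 p.2 - s) = s - |p.1 - p.2| := by
      have := max_sub_min_eq_abs p.1 p.2
      rw [abs_sub_comm] at this
      linarith
    rw [h3]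
    rcases le_total 0 (s - |p.1 - p.2|) with h | h
    · rw [max_eq_right h]
    · rw [max_eq_left h, ENNReal.ofReal_zero, ENNReal.ofReal_of_nonpos h]
  have hm : Measurable fun z => im μ z s * im ν z s := by
    unfold im Measure.real
    exact (p1a_im_measurable μ s).ennreal_toReal.mul (p1a_im_measurable ν s).ennreal_toReal
  have hn : ∀ z, 0 ≤ im μ z s * im ν z s := fun z =>
    mul_nonneg ENNReal.toReal_nonneg ENNReal.toReal_nonneg
  have hm2 : Continuous fun p : ℝ × ℝ => max 0 (s - |p.1 - p.2|) := by fun_prop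
  have hfin : ∫⁻ p : ℝ × ℝ, ENNReal.ofReal (max 0 (s - |p.1 - p.2|)) ∂(μ.prod ν) < ⊤ := by
    refine lt_of_le_of_lt (lintegral_mono fun p => ENNReal.ofReal_le_ofReal
      (show max 0 (s - |p.1 - p.2|) ≤ max 0 s from ?_)) ?_
    · exact max_le_max le_rfl (sub_le_self _ (abs_nonneg _))
    · rw [lintegral_const]
      exact ENNReal.mul_lt_top ENNReal.ofReal_lt_top (measure_lt_top _ _)
  constructor
  · rw [← lintegral_ofReal_ne_top_iff_integrable hm.aestronglyMeasurable
      (Eventually.of_forall hn), ← h1, h2]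
    exact hfin.ne
  · rw [integral_eq_lintegral_of_nonneg_ae (Eventually.of_forall hn) hm.aestronglyMeasurable,
      integral_eq_lintegral_of_nonneg_ae (f := fun p : ℝ × ℝ => max 0 (s - |p.1 - p.2|))
        (Eventually.of_forall fun p => le_max_left _ _) hm2.aestronglyMeasurable, ← h1, h2]

theorem p1a_prod_integrable (μ ν : Measure ℝ) [IsFiniteMeasure μ] [IsFiniteMeasure ν] (ε H : ℝ)
    (hε : 0 < ε) :
    Integrable (fun q : ℝ × (ℝ × ℝ) => 1 / q.1 ^ 2 * max 0 (q.1 - |q.2.1 - q.2.2|))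
      ((volume.restrict (Icc ε H)).prod (μ.prod ν)) := by
  have hm : Measurable fun q : ℝ × (ℝ × ℝ) => 1 / q.1 ^ 2 * max 0 (q.1 - |q.2.1 - q.2.2|) := by
    have h1 : Measurable fun q : ℝ × (ℝ × ℝ) => 1 / q.1 ^ 2 :=
      (measurable_fst.pow_const 2).const_div 1
    have h2 : Continuous fun q : ℝ × (ℝ × ℝ) => max 0 (q.1 - |q.2.1 - q.2.2|) := by fun_prop
    exact h1.mul h2.measurable
  have hae : ∀ᵐ q : ℝ × (ℝ × ℝ) ∂((volume.restrict (Icc ε H)).prod (μ.prod ν)), q.1 ∈ Icc ε H := by
    have h := ae_restrict_mem (μ := (volume : Measure ℝ)) (measurableSet_Icc (a := ε) (b := H))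
    exact (Measure.quasiMeasurePreserving_fst (μ := volume.restrict (Icc ε H))
      (ν := μ.prod ν)).ae h
  refine Integrable.mono' (integrable_const (1 / ε)) hm.aestronglyMeasurable ?_
  filter_upwards [hae] with q hq
  have hq0 : 0 < q.1 := hε.trans_le hq.1
  have h1 : max 0 (q.1 - |q.2.1 - q.2.2|) ≤ q.1 := max_le hq0.le (sub_le_self _ (abs_nonneg _))
  have h2 : 0 ≤ max 0 (q.1 - |q.2.1 - q.2.2|) := le_max_left _ _
  rw [Real.norm_of_nonneg (mul_nonneg (by positivity) h2)]
  calc 1 / q.1 ^ 2 * max 0 (q.1 - |q.2.1 - q.2.2|) ≤ 1 / q.1 ^ 2 * q.1 :=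
        mul_le_mul_of_nonneg_left h1 (by positivity)
    _ = 1 / q.1 := by field_simp
    _ ≤ 1 / ε := one_div_le_one_div_of_le hε hq.1

theorem tent_identity (μ ν : Measure ℝ) [IsFiniteMeasure μ] [IsFiniteMeasure ν] (ε H : ℝ)
    (hε : 0 < ε) (hH : ε ≤ H) :
    ∫ p : ℝ × ℝ, kap ε H (p.1 - p.2) ∂(μ.prod ν) =
      ∫ s in Icc ε H, 1 / s ^ 2 * ∫ z, im μ z s * im ν z s := by
  have h1 : ∀ p : ℝ × ℝ, kap ε H (p.1 - p.2) =
      ∫ s in Icc ε H, 1 / s ^ 2 * max 0 (s - |p.1 - p.2|) := by
    intro p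
    rw [kap_eq ε H _ hε hH]
    refine setIntegral_congr_fun measurableSet_Icc fun s hs => ?_
    have hs0 : 0 < s := hε.trans_le hs.1
    rcases le_total (|p.1 - p.2|) s with h | h
    · rw [p1a_pos hs0 h, max_eq_right (sub_nonneg.2 h)]
      field_simp
    · rw [p1a_neg hs0 h, max_eq_left (sub_nonpos.2 h), mul_zero]
  simp_rw [h1]
  have h2 : ∀ s : ℝ, 1 / s ^ 2 * ∫ z, im μ z s * im ν z s =
      ∫ p : ℝ × ℝ, 1 / s ^ 2 * max 0 (s - |p.1 - p.2|) ∂(μ.prod ν) := by
    intro s
    rw [(p1a_core μ ν s).2, integral_const_mul]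
  simp_rw [h2]
  have := integral_integral_swap (f := fun (s : ℝ) (p : ℝ × ℝ) =>
    1 / s ^ 2 * max 0 (s - |p.1 - p.2|)) (p1a_prod_integrable μ ν ε H hε)
  exact this.symm

/-- (for the algebra with differences) integrability -/
theorem im_integrable (μ ν : Measure ℝ) [IsFiniteMeasure μ] [IsFiniteMeasure ν] (ε H : ℝ)
    (hε : 0 < ε) (hH : ε ≤ H) :
    (∀ s : ℝ, 0 < s → Integrable fun z => im μ z s * im ν z s) ∧
    IntegrableOn (fun s => 1 / s ^ 2 * ∫ z, im μ z s * im ν z s) (Icc ε H) := by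
  refine ⟨fun s _ => (p1a_core μ ν s).1, ?_⟩
  have h2 : (fun s : ℝ => 1 / s ^ 2 * ∫ z, im μ z s * im ν z s) =
      fun s => ∫ p : ℝ × ℝ, 1 / s ^ 2 * max 0 (s - |p.1 - p.2|) ∂(μ.prod ν) := by
    ext s
    rw [(p1a_core μ ν s).2, integral_const_mul]
  rw [h2]
  exact (p1a_prod_integrable μ ν ε H hε).integral_prod_left

end

end Pool.Agent.MP_941b23_mp
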