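import Pool.Agent.MP_941b23_mp.Defs2
import Pool.Agent.MP_941b23_mp.P1a

namespace Pool.Agent.MP_941b23_mp

open MeasureTheory Set Filter Topology
open scoped ENNReal NNReal Real

noncomputable section

/-- [P1b] `kap ε H u - log H + 1` is dominated by `|log|u|| + 1`. -/
theorem kap_bound (ε H u : ℝ) (hε : 0 < ε) (hε1 : ε ≤ 1) (hH : 1 ≤ H) (hu : u ≠ 0) :
    |kap ε H u - Real.log H + 1| ≤ abs (Real.log |u|) + 1 := by
  have hu0 : 0 < |u| := abs_pos.2 hu
  have hH0 : 0 < H := by linarith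
  unfold kap
  split_ifs with h1 h2
  · -- `|u| ≤ ε`
    have hu1 : |u| ≤ 1 := h1.trans hε1
    have hl : Real.log |u| ≤ 0 := Real.log_nonpos hu0.le hu1
    rw [Real.log_div hH0.ne' hε.ne', abs_of_nonpos hl]
    have hle : Real.log ε ≤ 0 := Real.log_nonpos hε.le hε1
    have h3 : Real.log (|u| / ε) ≤ |u| / ε - 1 := Real.log_le_sub_one_of_pos (by positivity)
    rw [Real.log_div hu0.ne' hε.ne'] at h3
    have h4 : |u| / H ≤ 1 := by rw [div_le_one hH0]; linarith
    have h5 : 0 ≤ |u| / H := by positivity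
    have h6 : |u| / ε ≤ 1 := by rw [div_le_one hε]; exact h1
    have h7 : |u| * (1 / ε - 1 / H) = |u| / ε - |u| / H := by ring
    rw [h7, abs_le]
    constructor <;> linarith
  · -- `ε < |u| ≤ H`
    rw [Real.log_div hH0.ne' hu0.ne']
    have h4 : |u| / H ≤ 1 := by rw [div_le_one hH0]; exact h2
    have h5 : 0 ≤ |u| / H := by positivity
    have h6 : Real.log H - Real.log |u| - 1 + |u| / H - Real.log H + 1 =
        -Real.log |u| + |u| / H := by ring
    rw [h6]
    refine (abs_add_le _ _).trans ?_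
    rw [abs_neg, abs_of_nonneg h5]
    linarith
  · -- `H < |u|`
    have h3 : H ≤ |u| := le_of_lt (not_le.1 h2)
    have h4 : 0 ≤ Real.log H := Real.log_nonneg hH
    have h5 : Real.log H ≤ Real.log |u| := Real.log_le_log hH0 h3
    rw [abs_of_nonneg (h4.trans h5), abs_le]
    constructor <;> linarith

/-- [P1b] -/
theorem kap_tendsto (u : ℝ) (hu : u ≠ 0) :
    Tendsto (fun j : ℕ => kap (1 / (j + 1)) (j + 1) u - Real.log (j + 1) + 1) atTop
      (𝓝 (-Real.log |u|)) := by
  have hu0 : 0 < |u| := abs_pos.2 hu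
  have h1 : Tendsto (fun j : ℕ => -Real.log |u| + |u| * (1 / ((j : ℝ) + 1))) atTop
      (𝓝 (-Real.log |u| + |u| * 0)) :=
    tendsto_const_nhds.add (tendsto_one_div_add_atTop_nhds_zero_nat.const_mul _)
  rw [mul_zero, add_zero] at h1
  refine h1.congr' ?_
  have h2 : ∀ᶠ j : ℕ in atTop, 1 / ((j : ℝ) + 1) < |u| :=
    (tendsto_one_div_add_atTop_nhds_zero_nat (𝕜 := ℝ)).eventually (gt_mem_nhds hu0)
  have h3 : ∀ᶠ j : ℕ in atTop, |u| ≤ (j : ℝ) :=
    tendsto_natCast_atTop_atTop.eventually (eventually_ge_atTop |u|)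
  filter_upwards [h2, h3] with j hj2 hj3
  have hj0 : (0 : ℝ) < (j : ℝ) + 1 := by positivity
  unfold kap
  rw [if_neg (not_le.2 hj2), if_pos (by linarith), Real.log_div hj0.ne' hu0.ne']
  ring

/-! ### the kernel with `H = 1` -/

theorem p1b_kap_nonneg (ε H u : ℝ) (hε : 0 < ε) (hH : ε ≤ H) : 0 ≤ kap ε H u := by
  have hH0 : 0 < H := by linarith
  unfold kap
  split_ifs with h1 h2
  · have h3 : Real.log (ε / H) ≤ ε / H - 1 := Real.log_le_sub_one_of_pos (by positivity)
    have h4 : Real.log (H / ε) = -Real.log (ε / H) := by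
      rw [← Real.log_inv, inv_div]
    have h5 : |u| * (1 / ε - 1 / H) ≤ ε * (1 / ε - 1 / H) := by
      refine mul_le_mul_of_nonneg_right h1 ?_
      rw [sub_nonneg]
      exact one_div_le_one_div_of_le hε hH
    have h6 : ε * (1 / ε - 1 / H) = 1 - ε / H := by field_simp
    rw [h4]; linarith
  · have hu0 : 0 < |u| := lt_trans hε (not_le.1 h1)
    have h3 : Real.log (|u| / H) ≤ |u| / H - 1 := Real.log_le_sub_one_of_pos (by positivity)
    have h4 : Real.log (H / |u|) = -Real.log (|u| / H) := by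
      rw [← Real.log_inv, inv_div]
    rw [h4]; linarith
  · exact le_rfl

theorem p1b_kap_le (ε H u : ℝ) (hε : 0 < ε) (hH : ε ≤ H) : kap ε H u ≤ Real.log (H / ε) := by
  have hH0 : 0 < H := by linarith
  have h0 : 0 ≤ Real.log (H / ε) := Real.log_nonneg (by rw [le_div_iff₀ hε]; linarith)
  unfold kap
  split_ifs with h1 h2
  · have h5 : 0 ≤ |u| * (1 / ε - 1 / H) := by
      refine mul_nonneg (abs_nonneg _) ?_
      rw [sub_nonneg]
      exact one_div_le_one_div_of_le hε hH
    linarith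
  · have hu0 : ε < |u| := not_le.1 h1
    have hu00 : 0 < |u| := hε.trans hu0
    have h3 : Real.log (H / |u|) ≤ Real.log (H / ε) := by
      refine Real.log_le_log (by positivity) ?_
      exact div_le_div_of_nonneg_left hH0.le hε hu0.le
    have h4 : |u| / H ≤ 1 := by rw [div_le_one hH0]; exact h2
    linarith
  · exact h0

theorem p1b_kap_meas (ε H : ℝ) : Measurable (kap ε H) := by
  unfold kap
  have ha : Measurable fun u : ℝ => |u| := continuous_abs.measurable
  refine Measurable.ite (measurableSet_le ha measurable_const) ?_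
    (Measurable.ite (measurableSet_le ha measurable_const) ?_ measurable_const)
  · exact measurable_const.sub (ha.mul measurable_const)
  · exact ((Real.measurable_log.comp (measurable_const.div ha)).sub measurable_const).add
      (ha.div measurable_const)

theorem p1b_kap_int (μ ν : Measure ℝ) [IsFiniteMeasure μ] [IsFiniteMeasure ν] (ε H : ℝ)
    (hε : 0 < ε) (hH : ε ≤ H) :
    Integrable (fun p : ℝ × ℝ => kap ε H (p.1 - p.2)) (μ.prod ν) := by
  refine Integrable.mono' (integrable_const (Real.log (H / ε))) ?_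
    (Eventually.of_forall fun p => ?_)
  · exact ((p1b_kap_meas ε H).comp (measurable_fst.sub measurable_snd)).aestronglyMeasurable
  · rw [Real.norm_eq_abs, abs_of_nonneg (p1b_kap_nonneg ε H _ hε hH)]
    exact p1b_kap_le ε H _ hε hH

theorem p1b_diag (μ ν : Measure ℝ) [IsFiniteMeasure μ] [IsFiniteMeasure ν]
    (hν : ∀ x, ν {x} = 0) : ∀ᵐ z ∂(μ.prod ν), z.1 ≠ z.2 := by
  have hm : MeasurableSet {z : ℝ × ℝ | z.1 = z.2} := measurableSet_eq_fun measurable_fst measurable_snd
  have h0 : (μ.prod ν) {z : ℝ × ℝ | z.1 = z.2} = 0 := by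
    rw [Measure.prod_apply hm]
    have : ∀ x : ℝ, ν (Prod.mk x ⁻¹' {z : ℝ × ℝ | z.1 = z.2}) = 0 := by
      intro x
      have h1 : Prod.mk x ⁻¹' {z : ℝ × ℝ | z.1 = z.2} = {x} := by
        ext y; simp [eq_comm]
      rw [h1, hν]
    simp only [this, lintegral_zero]
  rw [ae_iff]
  simpa using h0

/-- self energies are bounded uniformly in `ε` -/
theorem p1b_self (μ : Measure ℝ) [IsFiniteMeasure μ] (hμ : FinEn μ) (ε : ℝ) (hε : 0 < ε)
    (hε1 : ε ≤ 1) : ∫ p : ℝ × ℝ, kap ε 1 (p.1 - p.2) ∂(μ.prod μ) ≤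
      ∫ p : ℝ × ℝ, (abs (Real.log |p.1 - p.2|) + 1) ∂(μ.prod μ) := by
  refine integral_mono_ae (p1b_kap_int μ μ ε 1 hε hε1) (hμ.energy.abs.add (integrable_const _)) ?_
  filter_upwards [p1b_diag μ μ hμ.noAtom] with z hz
  have h1 := kap_bound ε 1 (z.1 - z.2) hε hε1 le_rfl (sub_ne_zero.2 hz)
  rw [Real.log_one, sub_zero] at h1
  have h2 := le_abs_self (kap ε 1 (z.1 - z.2) + 1)
  linarith

/-- positive definiteness -/
theorem p1b_pos (μ ν : Measure ℝ) [IsFiniteMeasure μ] [IsFiniteMeasure ν] (ε : ℝ) (hε : 0 < ε)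
    (hε1 : ε ≤ 1) : 2 * ∫ p : ℝ × ℝ, kap ε 1 (p.1 - p.2) ∂(μ.prod ν) ≤
      ∫ p : ℝ × ℝ, kap ε 1 (p.1 - p.2) ∂(μ.prod μ) +
      ∫ p : ℝ × ℝ, kap ε 1 (p.1 - p.2) ∂(ν.prod ν) := by
  rw [tent_identity μ ν ε 1 hε hε1, tent_identity μ μ ε 1 hε hε1, tent_identity ν ν ε 1 hε hε1]
  obtain ⟨a1, a2⟩ := im_integrable μ ν ε 1 hε hε1
  obtain ⟨b1, b2⟩ := im_integrable μ μ ε 1 hε hε1
  obtain ⟨c1, c2⟩ := im_integrable ν ν ε 1 hε hε1
  rw [← integral_add b2 c2, ← integral_const_mul]
  refine setIntegral_mono_on (a2.const_mul 2) (b2.add c2) measurableSet_Icc ?_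
  intro s hs
  have hs0 : 0 < s := lt_of_lt_of_le hε hs.1
  have h1 : 2 * ∫ z, im μ z s * im ν z s ≤
      (∫ z, im μ z s * im μ z s) + ∫ z, im ν z s * im ν z s := by
    rw [← integral_add (b1 s hs0) (c1 s hs0), ← integral_const_mul]
    refine integral_mono ((a1 s hs0).const_mul 2) ((b1 s hs0).add (c1 s hs0)) ?_
    intro z
    show 2 * (im μ z s * im ν z s) ≤ im μ z s * im μ z s + im ν z s * im ν z s
    nlinarith [sq_nonneg (im μ z s - im ν z s)]
  have h2 : 0 ≤ 1 / s ^ 2 := by positivity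
  have h3 := mul_le_mul_of_nonneg_left h1 h2
  linarith

/-- limit kernel -/
def p1bK (u : ℝ) : ℝ := if |u| ≤ 1 then -Real.log |u| - 1 + |u| else 0

theorem p1bK_le (u : ℝ) : ENNReal.ofReal (p1bK u) ≤
    liminf (fun j : ℕ => ENNReal.ofReal (kap (1 / (j + 1)) 1 u)) atTop := by
  rcases eq_or_ne u 0 with rfl | hu
  · have : p1bK 0 ≤ 0 := by
      unfold p1bK; simp
    rw [ENNReal.ofReal_of_nonpos this]
    simp
  · have hu0 : 0 < |u| := abs_pos.2 hu
    refine le_liminf_of_le (by isBoundedDefault) ?_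
    have h2 : ∀ᶠ j : ℕ in atTop, 1 / ((j : ℝ) + 1) < |u| :=
      (tendsto_one_div_add_atTop_nhds_zero_nat (𝕜 := ℝ)).eventually (gt_mem_nhds hu0)
    filter_upwards [h2] with j hj
    refine ENNReal.ofReal_le_ofReal ?_
    unfold p1bK kap
    rw [if_neg (not_le.2 hj)]
    split_ifs with h
    · rw [one_div, Real.log_inv, div_one]
    · exact le_rfl

theorem p1bK_meas : Measurable p1bK := by
  unfold p1bK
  have ha : Measurable fun u : ℝ => |u| := continuous_abs.measurable
  refine Measurable.ite (measurableSet_le ha measurable_const) ?_ measurable_const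
  exact (((Real.measurable_log.comp ha).neg).sub measurable_const).add ha

theorem p1b_log_le (x y : ℝ) : abs (Real.log |x - y|) ≤
    max 0 (p1bK (x - y)) + 1 + (Real.log (1 + |x|) + Real.log (1 + |y|)) := by
  have hx : 0 ≤ Real.log (1 + |x|) := Real.log_nonneg (by linarith [abs_nonneg x])
  have hy : 0 ≤ Real.log (1 + |y|) := Real.log_nonneg (by linarith [abs_nonneg y])
  have hm : 0 ≤ max 0 (p1bK (x - y)) := le_max_left _ _
  rcases eq_or_ne (x - y) 0 with h | h
  · rw [h, abs_zero, Real.log_zero, abs_zero]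
    rw [h] at hm
    linarith
  · have hu0 : 0 < |x - y| := abs_pos.2 h
    rcases le_or_gt |x - y| 1 with h1 | h1
    · have h2 : Real.log |x - y| ≤ 0 := Real.log_nonpos hu0.le h1
      rw [abs_of_nonpos h2]
      have h3 : p1bK (x - y) = -Real.log |x - y| - 1 + |x - y| := by
        unfold p1bK; rw [if_pos h1]
      have h4 : p1bK (x - y) ≤ max 0 (p1bK (x - y)) := le_max_right _ _
      linarith
    · have h2 : 0 ≤ Real.log |x - y| := Real.log_nonneg h1.le
      rw [abs_of_nonneg h2, ← Real.log_mul (by positivity) (by positivity)]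
      have h3 : Real.log |x - y| ≤ Real.log ((1 + |x|) * (1 + |y|)) := by
        refine Real.log_le_log hu0 ?_
        have := abs_sub x y
        nlinarith [abs_nonneg x, abs_nonneg y]
      linarith

/-- [P1b] -/
theorem cross_integrable (μ ν : Measure ℝ) [IsFiniteMeasure μ] [IsFiniteMeasure ν]
    (hμ : FinEn μ) (hν : FinEn ν) :
    Integrable (fun z : ℝ × ℝ => Real.log |z.1 - z.2|) (μ.prod ν) := by
  set C : ℝ := (∫ p : ℝ × ℝ, (abs (Real.log |p.1 - p.2|) + 1) ∂(μ.prod μ)) +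
    ∫ p : ℝ × ℝ, (abs (Real.log |p.1 - p.2|) + 1) ∂(ν.prod ν) with hC
  have hb : ∀ j : ℕ, ∫ p : ℝ × ℝ, kap (1 / (j + 1)) 1 (p.1 - p.2) ∂(μ.prod ν) ≤ C / 2 := by
    intro j
    have hj : (0 : ℝ) < 1 / ((j : ℝ) + 1) := by positivity
    have hj1 : 1 / ((j : ℝ) + 1) ≤ 1 := by
      rw [div_le_one (by positivity)]
      have : (0 : ℝ) ≤ j := Nat.cast_nonneg j
      linarith
    have h1 := p1b_pos μ ν _ hj hj1
    have h2 := p1b_self μ hμ _ hj hj1
    have h3 := p1b_self ν hν _ hj hj1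
    linarith
  have hfin : ∫⁻ p : ℝ × ℝ, ENNReal.ofReal (p1bK (p.1 - p.2)) ∂(μ.prod ν) ≤
      ENNReal.ofReal (C / 2) := by
    calc ∫⁻ p : ℝ × ℝ, ENNReal.ofReal (p1bK (p.1 - p.2)) ∂(μ.prod ν)
        ≤ ∫⁻ p : ℝ × ℝ, liminf (fun j : ℕ =>
            ENNReal.ofReal (kap (1 / (j + 1)) 1 (p.1 - p.2))) atTop ∂(μ.prod ν) :=
          lintegral_mono fun p => p1bK_le _
      _ ≤ liminf (fun j : ℕ => ∫⁻ p : ℝ × ℝ,
            ENNReal.ofReal (kap (1 / (j + 1)) 1 (p.1 - p.2)) ∂(μ.prod ν)) atTop :=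
          lintegral_liminf_le fun j =>
            ((p1b_kap_meas _ 1).comp (measurable_fst.sub measurable_snd)).ennreal_ofReal
      _ ≤ ENNReal.ofReal (C / 2) := by
          refine liminf_le_of_le (by isBoundedDefault) ?_
          intro b hb'
          obtain ⟨j, hj⟩ := hb'.exists
          refine hj.trans ?_
          have hj0 : (0 : ℝ) < 1 / ((j : ℝ) + 1) := by positivity
          have hj1 : 1 / ((j : ℝ) + 1) ≤ 1 := by
            rw [div_le_one (by positivity)]
            have : (0 : ℝ) ≤ j := Nat.cast_nonneg j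
            linarith
          rw [← ofReal_integral_eq_lintegral_ofReal (p1b_kap_int μ ν _ 1 hj0 hj1)
            (Eventually.of_forall fun p => p1b_kap_nonneg _ 1 _ hj0 hj1)]
          exact ENNReal.ofReal_le_ofReal (hb j)
  have hK : Integrable (fun p : ℝ × ℝ => max 0 (p1bK (p.1 - p.2))) (μ.prod ν) := by
    have hm : Measurable fun p : ℝ × ℝ => max 0 (p1bK (p.1 - p.2)) :=
      measurable_const.max (p1bK_meas.comp (measurable_fst.sub measurable_snd))
    refine ⟨hm.aestronglyMeasurable, ?_⟩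
    have hn : 0 ≤ᵐ[μ.prod ν] fun p : ℝ × ℝ => max 0 (p1bK (p.1 - p.2)) :=
      Eventually.of_forall fun p => le_max_left 0 (p1bK (p.1 - p.2))
    rw [hasFiniteIntegral_iff_ofReal hn]
    refine lt_of_le_of_lt (le_trans (le_of_eq ?_) hfin) ENNReal.ofReal_lt_top
    refine lintegral_congr fun p => ?_
    rcases le_total 0 (p1bK (p.1 - p.2)) with h | h
    · rw [max_eq_right h]
    · rw [max_eq_left h, ENNReal.ofReal_zero, ENNReal.ofReal_of_nonpos h]
  have hx : Integrable (fun p : ℝ × ℝ => Real.log (1 + |p.1|)) (μ.prod ν) := by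
    have := hμ.logMoment.mul_prod (ν := ν) (g := fun _ => (1 : ℝ)) (integrable_const _)
    simpa using this
  have hy : Integrable (fun p : ℝ × ℝ => Real.log (1 + |p.2|)) (μ.prod ν) := by
    have := (integrable_const (μ := μ) (1 : ℝ)).mul_prod (ν := ν) hν.logMoment
    simpa using this
  refine Integrable.mono' ((hK.add (integrable_const 1)).add (hx.add hy)) ?_
    (Eventually.of_forall fun p => ?_)
  · exact (Real.measurable_log.comp
      (continuous_abs.measurable.comp (measurable_fst.sub measurable_snd))).aestronglyMeasurable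
  · rw [Real.norm_eq_abs]
    exact p1b_log_le p.1 p.2

end

end Pool.Agent.MP_941b23_mp
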