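import Pool.Agent.MP_941b23_mp.Defs2
import Pool.Agent.MP_941b23_mp.T1a

/-!
# [T2c] dilations and size of `σ_∞`
-/

namespace Pool.Agent.MP_941b23_mp

open MeasureTheory Set Filter Topology
open scoped ENNReal NNReal Real ComplexConjugate

noncomputable section

variable {α τ : ℝ}

theorem t2c_continuous (hτ : 0 < τ) : Continuous (fun y : ℝ => rr α τ (y * Complex.I)) := by
  have h1 : Continuous (rr α τ) := by
    rw [Metric.continuous_iff]
    intro z ε hε
    refine ⟨ε ^ 3 / τ, by positivity, ?_⟩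
    intro w hw
    rw [Real.dist_eq]
    rw [dist_eq_norm] at hw
    have h2 := rr_holder (α := α) hτ w z
    have h3 : τ * ‖w - z‖ < ε ^ 3 := by
      rw [lt_div_iff₀ hτ] at hw
      linarith
    calc |rr α τ w - rr α τ z| ≤ (τ * ‖w - z‖) ^ (1 / 3 : ℝ) := h2
      _ < (ε ^ 3) ^ (1 / 3 : ℝ) := Real.rpow_lt_rpow (by positivity) h3 (by norm_num)
      _ = ε := by
        rw [← Real.rpow_natCast, ← Real.rpow_mul hε.le]
        norm_num
  exact h1.comp (by fun_prop)

theorem t2c_mono (hτ : 0 < τ) {y y' : ℝ} (h : |y| ≤ |y'|) :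
    rr α τ (y * Complex.I) ≤ rr α τ (y' * Complex.I) := by
  have habs : ∀ y : ℝ, rr α τ (y * Complex.I) = rr α τ ((|y| : ℝ) * Complex.I) := by
    intro y
    rcases le_total 0 y with h0 | h0
    · rw [abs_of_nonneg h0]
    · rw [abs_of_nonpos h0, rr_neg]
  rw [habs y, habs y']
  exact rr_mono hτ (mem_Ici.2 (abs_nonneg y)) (mem_Ici.2 (abs_nonneg y')) h

theorem t2c_sigma2 (hτ : 0 < τ) (c : ℝ) (hc : 1 ≤ c) :
    (sigma2 α τ).map (fun y => c * y) ≤ sigma2 α τ := by
  have hc0 : 0 < c := by linarith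
  set d : ℝ → ℝ≥0∞ := fun y => ENNReal.ofReal (τ / π * rr α τ (y * Complex.I)) with hd
  have hdm : Measurable d := ((t2c_continuous hτ).measurable.const_mul _).ennreal_ofReal
  refine Measure.le_iff.2 fun A hA => ?_
  have hm : Measurable (fun y : ℝ => c * y) := measurable_const_mul c
  rw [Measure.map_apply hm hA, sigma2, withDensity_apply _ (hm hA), withDensity_apply _ hA,
    ← lintegral_indicator (hm hA), ← lintegral_indicator hA]
  have hF : Measurable (fun y => A.indicator (fun _ => (1 : ℝ≥0∞)) y * d (c⁻¹ * y)) :=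
    ((measurable_const.indicator hA)).mul (hdm.comp (measurable_const_mul _))
  have h1 : ∀ y, (((fun y => c * y) ⁻¹' A).indicator d) y =
      (fun y => A.indicator (fun _ => (1 : ℝ≥0∞)) y * d (c⁻¹ * y)) (c * y) := by
    intro y
    simp only
    rw [inv_mul_cancel_left₀ hc0.ne']
    by_cases h : c * y ∈ A
    · rw [indicator_of_mem (show y ∈ (fun y => c * y) ⁻¹' A from h), indicator_of_mem h, one_mul]
    · rw [indicator_of_notMem (show y ∉ (fun y => c * y) ⁻¹' A from h), indicator_of_notMem h,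
        zero_mul]
  calc ∫⁻ y, (((fun y => c * y) ⁻¹' A).indicator d) y
      = ∫⁻ y, (fun y => A.indicator (fun _ => (1 : ℝ≥0∞)) y * d (c⁻¹ * y)) (c * y) :=
        lintegral_congr h1
    _ = ∫⁻ y, A.indicator (fun _ => (1 : ℝ≥0∞)) y * d (c⁻¹ * y)
          ∂(Measure.map (fun y => c * y) volume) := (lintegral_map hF hm).symm
    _ = ENNReal.ofReal |c⁻¹| * ∫⁻ y, A.indicator (fun _ => (1 : ℝ≥0∞)) y * d (c⁻¹ * y) := by
        rw [Real.map_volume_mul_left hc0.ne', lintegral_smul_measure, smul_eq_mul]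
    _ ≤ 1 * ∫⁻ y, A.indicator (fun _ => (1 : ℝ≥0∞)) y * d (c⁻¹ * y) := by
        refine mul_le_mul_left ?_ _
        rw [ENNReal.ofReal_le_one, abs_of_pos (by positivity)]
        exact inv_le_one_of_one_le₀ hc
    _ ≤ ∫⁻ y, A.indicator d y := by
        rw [one_mul]
        refine lintegral_mono fun y => ?_
        by_cases h : y ∈ A
        · rw [indicator_of_mem h, indicator_of_mem h, one_mul, hd]
          simp only
          refine ENNReal.ofReal_le_ofReal (mul_le_mul_of_nonneg_left ?_ (by positivity))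
          refine t2c_mono hτ ?_
          rw [abs_mul, abs_of_pos (by positivity : 0 < c⁻¹)]
          exact mul_le_of_le_one_left (abs_nonneg y) (inv_le_one_of_one_le₀ hc)
        · rw [indicator_of_notMem h, zero_mul]; exact zero_le

/-- expanding dilations -/
theorem sigI_dilate (hτ : 0 < τ) (u : ℝ) (hu : 0 ≤ u) :
    (sigI α τ).map (fun t => Real.exp u * t) ≤ sigI α τ := by
  have hm : Measurable (fun t : ℝ => Real.exp u * t) := measurable_const_mul _
  have hs : Measurable (fun y : ℝ => y ^ 2) := by fun_prop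
  have hc : Measurable (fun y : ℝ => Real.exp (u / 2) * y) := measurable_const_mul _
  have h1 : (sigI α τ).map (fun t => Real.exp u * t) = (1 / 2 : ℝ≥0∞) •
      ((sigma2 α τ).map (fun y => Real.exp (u / 2) * y)).map (fun y => y ^ 2) := by
    rw [sigI, Measure.map_smul, Measure.map_map hm hs, Measure.map_map hs hc]
    congr 2
    funext y
    simp only [Function.comp_apply]
    rw [mul_pow, ← Real.exp_nat_mul]
    congr 2
    push_cast
    ring
  rw [h1, sigI]
  have h2 := Measure.map_mono (t2c_sigma2 (α := α) hτ (Real.exp (u / 2))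
    (Real.one_le_exp (by linarith))) hs
  refine Measure.le_iff.2 fun A hA => ?_
  rw [Measure.smul_apply, Measure.smul_apply, smul_eq_mul, smul_eq_mul]
  exact mul_le_mul_right (h2 A) _

theorem sigI_big (hτ : 0 < τ) : Tendsto (fun T : ℝ => sigI α τ (Icc T (2 * T))) atTop (𝓝 ⊤) := by
  obtain ⟨c, η₀, hc, hη₀, hlow⟩ := rr_lower (α := α) hτ
  have hs : Measurable (fun y : ℝ => y ^ 2) := by fun_prop
  set κ : ℝ := τ / π * c * (√2 - 1) with hκ
  have h2 : 1 < √2 := by
    rw [Real.lt_sqrt (by norm_num)]; norm_num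
  have hκ0 : 0 < κ := by
    have : 0 < √2 - 1 := by linarith
    positivity
  have hlim : Tendsto (fun T : ℝ => (1 / 2 : ℝ≥0∞) * ENNReal.ofReal (κ * √T)) atTop (𝓝 ⊤) := by
    have h3 : Tendsto (fun T : ℝ => ENNReal.ofReal (κ * √T)) atTop (𝓝 ⊤) :=
      ENNReal.tendsto_ofReal_atTop.comp
        (Tendsto.const_mul_atTop hκ0 (Real.tendsto_sqrt_atTop))
    have h4 := ENNReal.Tendsto.const_mul (a := (1 / 2 : ℝ≥0∞)) h3 (Or.inl ENNReal.top_ne_zero)
    rwa [ENNReal.mul_top (by norm_num)] at h4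
  refine tendsto_nhds_top_mono hlim ?_
  filter_upwards [eventually_ge_atTop (max 1 (η₀ ^ 2))] with T hT
  have hT1 : 1 ≤ T := (le_max_left _ _).trans hT
  have hTη : η₀ ^ 2 ≤ T := (le_max_right _ _).trans hT
  have hT0 : 0 ≤ T := by linarith
  have hsq1 : 1 ≤ √T := by
    rw [Real.one_le_sqrt]; exact hT1
  have hsqη : η₀ ≤ √T := Real.le_sqrt_of_sq_le hTη
  rw [sigI, Measure.smul_apply, smul_eq_mul, Measure.map_apply hs measurableSet_Icc]
  refine mul_le_mul_right ?_ _
  have hsub : Icc (√T) (√2 * √T) ⊆ (fun y : ℝ => y ^ 2) ⁻¹' Icc T (2 * T) := by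
    intro y hy
    rw [mem_preimage, mem_Icc]
    have hy0 : 0 ≤ √T := by positivity
    constructor
    · have := pow_le_pow_left₀ hy0 hy.1 2
      rwa [Real.sq_sqrt hT0] at this
    · have := pow_le_pow_left₀ (hy0.trans hy.1) hy.2 2
      rwa [mul_pow, Real.sq_sqrt hT0, Real.sq_sqrt (by norm_num : (0 : ℝ) ≤ 2)] at this
  refine le_trans ?_ (measure_mono hsub)
  rw [sigma2, withDensity_apply _ measurableSet_Icc]
  calc ENNReal.ofReal (κ * √T)
      = ENNReal.ofReal (τ / π * c) * volume (Icc (√T) (√2 * √T)) := by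
        rw [Real.volume_Icc, ← ENNReal.ofReal_mul (by positivity), hκ]
        congr 1
        ring
    _ = ∫⁻ y in Icc (√T) (√2 * √T), ENNReal.ofReal (τ / π * c) := by
        rw [setLIntegral_const]
    _ ≤ ∫⁻ y in Icc (√T) (√2 * √T), ENNReal.ofReal (τ / π * rr α τ (y * Complex.I)) := by
        refine setLIntegral_mono' measurableSet_Icc fun y hy => ?_
        refine ENNReal.ofReal_le_ofReal (mul_le_mul_of_nonneg_left ?_ (by positivity))
        have h5 : 1 ≤ y := hsq1.trans hy.1
        have h6 := hlow y (hsqη.trans hy.1)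
        have h7 : (1 : ℝ) ≤ y ^ (1 / 3 : ℝ) := Real.one_le_rpow h5 (by norm_num)
        nlinarith

end

end Pool.Agent.MP_941b23_mp
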