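import Pool.Agent.MP_941b23_mp.Defs2
import Pool.Agent.MP_941b23_mp.P1b
import Pool.Agent.MP_941b23_mp.P1c
import Pool.Agent.MP_941b23_mp.P5
import Pool.Agent.MP_941b23_mp.T2a
import Pool.Agent.MP_941b23_mp.T2c
import Pool.Agent.MP_941b23_mp.T5

/-!
# [L3a] smearing by expanding dilations
-/

namespace Pool.Agent.MP_941b23_mp

open MeasureTheory Set Filter Topology
open scoped ENNReal NNReal Real

noncomputable section

/-- the uniform distribution on `[0, s]` -/
def l3P (s : ℝ) : Measure ℝ := ENNReal.ofReal (1 / s) • volume.restrict (Icc 0 s)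

instance l3P_finite (s : ℝ) : IsFiniteMeasure (l3P s) := by
  unfold l3P
  exact Measure.smul_finite _ ENNReal.ofReal_ne_top

theorem l3P_univ (s : ℝ) (hs : 0 < s) : l3P s univ = 1 := by
  unfold l3P
  rw [Measure.smul_apply, Measure.restrict_apply_univ, Real.volume_Icc, smul_eq_mul, sub_zero,
    ← ENNReal.ofReal_mul (by positivity), one_div, inv_mul_cancel₀ hs.ne', ENNReal.ofReal_one]

theorem l3P_ae (s : ℝ) : ∀ᵐ u ∂(l3P s), u ∈ Icc 0 s := by
  unfold l3P
  exact Measure.ae_smul_measure (ae_restrict_mem measurableSet_Icc) _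

/-- the law of `e^u x`, `u` uniform on `[0, s]` -/
def l3Sm (s : ℝ) (μ : Measure ℝ) : Measure ℝ :=
  ((l3P s).prod μ).map (fun p => Real.exp p.1 * p.2)

theorem l3_measG : Measurable (fun p : ℝ × ℝ => Real.exp p.1 * p.2) := by fun_prop

theorem l3Sm_apply (s : ℝ) (μ : Measure ℝ) [IsFiniteMeasure μ] (S : Set ℝ)
    (hS : MeasurableSet S) :
    l3Sm s μ S = ∫⁻ u, μ ((fun x => Real.exp u * x) ⁻¹' S) ∂(l3P s) := by
  unfold l3Sm
  rw [Measure.map_apply l3_measG hS, Measure.prod_apply (l3_measG hS)]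
  rfl

instance l3Sm_finite (s : ℝ) (μ : Measure ℝ) [IsFiniteMeasure μ] : IsFiniteMeasure (l3Sm s μ) := by
  unfold l3Sm
  infer_instance

/-- the product of two smeared measures -/
theorem l3Sm_prod (s : ℝ) (μ ν : Measure ℝ) [IsFiniteMeasure μ] [IsFiniteMeasure ν] :
    (l3Sm s μ).prod (l3Sm s ν) = (((l3P s).prod (l3P s)).prod (μ.prod ν)).map
      (fun p : (ℝ × ℝ) × (ℝ × ℝ) => (Real.exp p.1.1 * p.2.1, Real.exp p.1.2 * p.2.2)) := by
  have hm : Measurable (fun p : (ℝ × ℝ) × (ℝ × ℝ) =>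
      (Real.exp p.1.1 * p.2.1, Real.exp p.1.2 * p.2.2)) := by fun_prop
  refine Measure.prod_eq fun S T hS hT => ?_
  rw [Measure.map_apply hm (hS.prod hT), Measure.prod_apply (hm (hS.prod hT)),
    l3Sm_apply s μ S hS, l3Sm_apply s ν T hT]
  have h1 : ∀ p : ℝ × ℝ, (μ.prod ν) (Prod.mk p ⁻¹' ((fun p : (ℝ × ℝ) × (ℝ × ℝ) =>
      (Real.exp p.1.1 * p.2.1, Real.exp p.1.2 * p.2.2)) ⁻¹' S ×ˢ T)) =
      μ ((fun x => Real.exp p.1 * x) ⁻¹' S) * ν ((fun x => Real.exp p.2 * x) ⁻¹' T) := by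
    intro p
    rw [← Measure.prod_prod]
    rfl
  simp_rw [h1]
  have hmeas : ∀ (μ : Measure ℝ) [IsFiniteMeasure μ] (S : Set ℝ), MeasurableSet S →
      Measurable fun u : ℝ => μ ((fun x => Real.exp u * x) ⁻¹' S) := by
    intro μ _ S hS
    exact measurable_measure_prodMk_left (l3_measG hS)
  exact lintegral_prod_mul (hmeas μ S hS).aemeasurable (hmeas ν T hT).aemeasurable

/-- integrals with respect to the product of two smeared measures -/
theorem l3_two (s : ℝ) (hs : 0 < s) (μ ν : Measure ℝ) [IsFiniteMeasure μ] [IsFiniteMeasure ν]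
    (f : ℝ × ℝ → ℝ) (hf : Measurable f) (B C : ℝ)
    (h1 : ∀ u ∈ Icc 0 s, ∀ v ∈ Icc 0 s,
      Integrable (fun z : ℝ × ℝ => f (Real.exp u * z.1, Real.exp v * z.2)) (μ.prod ν))
    (h2 : ∀ u ∈ Icc 0 s, ∀ v ∈ Icc 0 s,
      ∫ z : ℝ × ℝ, |f (Real.exp u * z.1, Real.exp v * z.2)| ∂(μ.prod ν) ≤ C)
    (h3 : ∀ u ∈ Icc 0 s, ∀ v ∈ Icc 0 s,
      ∫ z : ℝ × ℝ, f (Real.exp u * z.1, Real.exp v * z.2) ∂(μ.prod ν) ≤ B) :
    Integrable f ((l3Sm s μ).prod (l3Sm s ν)) ∧
    ∫ z, f z ∂((l3Sm s μ).prod (l3Sm s ν)) ≤ B := by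
  have hm : Measurable (fun p : (ℝ × ℝ) × (ℝ × ℝ) =>
      (Real.exp p.1.1 * p.2.1, Real.exp p.1.2 * p.2.2)) := by fun_prop
  have hfm : Measurable (fun p : (ℝ × ℝ) × (ℝ × ℝ) =>
      f (Real.exp p.1.1 * p.2.1, Real.exp p.1.2 * p.2.2)) := hf.comp hm
  have hae : ∀ᵐ p ∂((l3P s).prod (l3P s)), p.1 ∈ Icc 0 s ∧ p.2 ∈ Icc 0 s := by
    have e1 : ∀ᵐ p ∂((l3P s).prod (l3P s)), p.1 ∈ Icc 0 s :=
      Measure.quasiMeasurePreserving_fst.ae (l3P_ae s)
    have e2 : ∀ᵐ p ∂((l3P s).prod (l3P s)), p.2 ∈ Icc 0 s :=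
      Measure.quasiMeasurePreserving_snd.ae (l3P_ae s)
    filter_upwards [e1, e2] with p h4 h5 using ⟨h4, h5⟩
  have hint : Integrable (fun p : (ℝ × ℝ) × (ℝ × ℝ) =>
      f (Real.exp p.1.1 * p.2.1, Real.exp p.1.2 * p.2.2))
      (((l3P s).prod (l3P s)).prod (μ.prod ν)) := by
    rw [integrable_prod_iff hfm.aestronglyMeasurable]
    constructor
    · filter_upwards [hae] with p hp using h1 p.1 hp.1 p.2 hp.2
    · refine Integrable.mono' (integrable_const C) ?_ ?_
      · exact (hfm.norm.aestronglyMeasurable (μ := ((l3P s).prod (l3P s)).prod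
          (μ.prod ν))).integral_prod_right'
      · filter_upwards [hae] with p hp
        rw [Real.norm_of_nonneg (integral_nonneg fun _ => norm_nonneg _)]
        exact h2 p.1 hp.1 p.2 hp.2
  rw [l3Sm_prod]
  refine ⟨(integrable_map_measure hf.aestronglyMeasurable hm.aemeasurable).2 hint, ?_⟩
  rw [integral_map hm.aemeasurable hf.aestronglyMeasurable, integral_prod _ hint]
  have hP : ((l3P s).prod (l3P s)).real univ = 1 := by
    rw [measureReal_def, ← univ_prod_univ, Measure.prod_prod, l3P_univ s hs, one_mul,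
      ENNReal.toReal_one]
  calc ∫ p, ∫ z, f (Real.exp p.1 * z.1, Real.exp p.2 * z.2) ∂(μ.prod ν) ∂((l3P s).prod (l3P s))
      ≤ ∫ _, B ∂((l3P s).prod (l3P s)) := by
        refine integral_mono_ae hint.integral_prod_left (integrable_const B) ?_
        filter_upwards [hae] with p hp using h3 p.1 hp.1 p.2 hp.2
    _ = B := by rw [integral_const, hP, one_smul]

/-- integrals with respect to a smeared measure -/
theorem l3_one (s : ℝ) (hs : 0 < s) (μ : Measure ℝ) [IsFiniteMeasure μ]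
    (f : ℝ → ℝ) (hf : Measurable f) (B C : ℝ)
    (h1 : ∀ u ∈ Icc 0 s, Integrable (fun z : ℝ => f (Real.exp u * z)) μ)
    (h2 : ∀ u ∈ Icc 0 s, ∫ z : ℝ, |f (Real.exp u * z)| ∂μ ≤ C)
    (h3 : ∀ u ∈ Icc 0 s, ∫ z : ℝ, f (Real.exp u * z) ∂μ ≤ B) :
    Integrable f (l3Sm s μ) ∧ ∫ z, f z ∂(l3Sm s μ) ≤ B := by
  have hfm : Measurable (fun p : ℝ × ℝ => f (Real.exp p.1 * p.2)) := hf.comp l3_measG
  have hint : Integrable (fun p : ℝ × ℝ => f (Real.exp p.1 * p.2)) ((l3P s).prod μ) := by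
    rw [integrable_prod_iff hfm.aestronglyMeasurable]
    constructor
    · filter_upwards [l3P_ae s] with p hp using h1 p hp
    · refine Integrable.mono' (integrable_const C) ?_ ?_
      · exact (hfm.norm.aestronglyMeasurable (μ := (l3P s).prod μ)).integral_prod_right'
      · filter_upwards [l3P_ae s] with p hp
        rw [Real.norm_of_nonneg (integral_nonneg fun _ => norm_nonneg _)]
        exact h2 p hp
  unfold l3Sm
  refine ⟨(integrable_map_measure hf.aestronglyMeasurable l3_measG.aemeasurable).2 hint, ?_⟩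
  rw [integral_map l3_measG.aemeasurable hf.aestronglyMeasurable, integral_prod _ hint]
  have hP : (l3P s).real univ = 1 := by
    rw [measureReal_def, l3P_univ s hs, ENNReal.toReal_one]
  calc ∫ p, ∫ z, f (Real.exp p * z) ∂μ ∂(l3P s)
      ≤ ∫ _, B ∂(l3P s) := by
        refine integral_mono_ae hint.integral_prod_left (integrable_const B) ?_
        filter_upwards [l3P_ae s] with p hp using h3 p hp
    _ = B := by rw [integral_const, hP, one_smul]

/-! ### elementary properties -/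

theorem l3Sm_univ (s : ℝ) (hs : 0 < s) (μ : Measure ℝ) [IsFiniteMeasure μ] :
    l3Sm s μ univ = μ univ := by
  rw [l3Sm_apply _ _ _ MeasurableSet.univ]
  simp [l3P_univ s hs]

theorem l3Sm_Iio (s : ℝ) (μ : Measure ℝ) [IsFiniteMeasure μ] (h : μ (Iio 0) = 0) :
    l3Sm s μ (Iio 0) = 0 := by
  rw [l3Sm_apply _ _ _ measurableSet_Iio]
  have h1 : ∀ u : ℝ, (fun x => Real.exp u * x) ⁻¹' (Iio 0) = Iio 0 := by
    intro u
    ext x
    simp only [mem_preimage, mem_Iio]
    constructor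
    · intro h2
      by_contra h3
      exact absurd h2 (not_lt.2 (mul_nonneg (Real.exp_pos u).le (not_lt.1 h3)))
    · intro h2
      exact mul_neg_of_pos_of_neg (Real.exp_pos u) h2
  simp [h1, h]

theorem l3_pre_singleton (u x : ℝ) :
    (fun y => Real.exp u * y) ⁻¹' {x} = {Real.exp (-u) * x} := by
  ext y
  simp only [mem_preimage, mem_singleton_iff]
  constructor
  · rintro rfl
    rw [← mul_assoc, ← Real.exp_add]; simp
  · rintro rfl
    rw [← mul_assoc, ← Real.exp_add]; simp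

theorem l3Sm_atom (s : ℝ) (μ : Measure ℝ) [IsFiniteMeasure μ] (h : ∀ x, μ {x} = 0) (x : ℝ) :
    l3Sm s μ {x} = 0 := by
  rw [l3Sm_apply _ _ _ (measurableSet_singleton x)]
  simp [l3_pre_singleton, h]

theorem l3Sm_le {α τ : ℝ} (hτ : 0 < τ) (s : ℝ) (hs : 0 < s) (b : Measure ℝ) [IsFiniteMeasure b]
    (h : b ≤ sigI α τ) : l3Sm s b ≤ sigI α τ := by
  refine Measure.le_iff.2 fun S hS => ?_
  rw [l3Sm_apply _ _ _ hS]
  calc ∫⁻ u, b ((fun x => Real.exp u * x) ⁻¹' S) ∂(l3P s) ≤ ∫⁻ _, sigI α τ S ∂(l3P s) := by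
        refine lintegral_mono_ae ?_
        filter_upwards [l3P_ae s] with u hu
        calc b ((fun x => Real.exp u * x) ⁻¹' S)
            ≤ sigI α τ ((fun x => Real.exp u * x) ⁻¹' S) := h _
          _ = (sigI α τ).map (fun t => Real.exp u * t) S := by
              rw [Measure.map_apply (by fun_prop) hS]
          _ ≤ sigI α τ S := sigI_dilate hτ u hu.1 _
    _ = sigI α τ S := by rw [lintegral_const, l3P_univ s hs, mul_one]

/-! ### energies -/

theorem l3_log_dil (u x : ℝ) :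
    Real.log (1 + |Real.exp u * x|) ≤ |u| + Real.log (1 + |x|) := by
  have h1 : (0 : ℝ) < 1 + |x| := by positivity
  rw [← Real.log_exp |u|, ← Real.log_mul (Real.exp_pos _).ne' h1.ne']
  refine Real.log_le_log (by positivity) ?_
  rw [abs_mul, abs_of_pos (Real.exp_pos u)]
  have h2 : Real.exp u ≤ Real.exp |u| := Real.exp_le_exp.2 (le_abs_self u)
  have h3 : (1 : ℝ) ≤ Real.exp |u| := Real.one_le_exp (abs_nonneg u)
  nlinarith [abs_nonneg x]

theorem l3_log_mul (u t : ℝ) (ht : t ≠ 0) :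
    Real.log |Real.exp u * t| = u + Real.log |t| := by
  rw [abs_mul, abs_of_pos (Real.exp_pos u), Real.log_mul (Real.exp_pos u).ne' (abs_ne_zero.2 ht),
    Real.log_exp]

theorem l3_dil_finEn (u : ℝ) (μ : Measure ℝ) [IsFiniteMeasure μ] (h : FinEn μ) :
    FinEn (μ.map (fun x => Real.exp u * x)) where
  noAtom x := by
    rw [Measure.map_apply (by fun_prop) (measurableSet_singleton x), l3_pre_singleton]
    exact h.noAtom _
  energy := by
    rw [Measure.map_prod_map _ _ (by fun_prop) (by fun_prop),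
      integrable_map_measure (Measurable.aestronglyMeasurable (by fun_prop)) (by fun_prop)]
    refine Integrable.mono' ((integrable_const |u|).add h.energy.norm)
      (Measurable.aestronglyMeasurable (by fun_prop)) (Eventually.of_forall fun z => ?_)
    simp only [Function.comp, Prod.map, Pi.add_apply]
    rw [← mul_sub]
    by_cases hz : z.1 - z.2 = 0
    · rw [hz]; simp
    · rw [l3_log_mul u _ hz]
      exact norm_add_le _ _
  logMoment := by
    rw [integrable_map_measure (Measurable.aestronglyMeasurable (by fun_prop)) (by fun_prop)]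
    refine Integrable.mono' ((integrable_const |u|).add h.logMoment)
      (Measurable.aestronglyMeasurable (by fun_prop)) (Eventually.of_forall fun x => ?_)
    simp only [Function.comp, Pi.add_apply]
    rw [Real.norm_of_nonneg (Real.log_nonneg (by linarith [abs_nonneg (Real.exp u * x)]))]
    exact l3_log_dil u x

theorem l3_LL_symm (μ ν : Measure ℝ) [IsFiniteMeasure μ] [IsFiniteMeasure ν] :
    LL μ ν = LL ν μ := by
  unfold LL
  rw [← integral_prod_swap]
  refine integral_congr_ae (Eventually.of_forall fun z => ?_)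
  simp only [Prod.fst_swap, Prod.snd_swap]
  rw [abs_sub_comm]

theorem l3_LL_dil (u v : ℝ) (μ ν : Measure ℝ) [IsFiniteMeasure μ] [IsFiniteMeasure ν] :
    LL (μ.map (fun x => Real.exp u * x)) (ν.map (fun x => Real.exp v * x)) =
      ∫ z : ℝ × ℝ, -Real.log |Real.exp u * z.1 - Real.exp v * z.2| ∂(μ.prod ν) := by
  unfold LL
  rw [Measure.map_prod_map _ _ (by fun_prop) (by fun_prop),
    integral_map (by fun_prop) (Measurable.aestronglyMeasurable (by fun_prop))]
  rfl

theorem l3_cross (u v : ℝ) (μ ν : Measure ℝ) [IsFiniteMeasure μ] [IsFiniteMeasure ν]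
    (h : FinEn μ) (h' : FinEn ν) :
    Integrable (fun z : ℝ × ℝ => Real.log |Real.exp u * z.1 - Real.exp v * z.2|) (μ.prod ν) := by
  have h1 := cross_integrable _ _ (l3_dil_finEn u μ h) (l3_dil_finEn v ν h')
  rw [Measure.map_prod_map _ _ (by fun_prop) (by fun_prop),
      integrable_map_measure (Measurable.aestronglyMeasurable (by fun_prop)) (by fun_prop)] at h1
  exact h1

theorem l3_Phi_nonneg (h : ℝ) (a a' : Measure ℝ) : 0 ≤ Phi h a a' := by
  unfold Phi
  refine integral_nonneg fun s => ?_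
  exact mul_nonneg (by positivity) (integral_nonneg fun z => sq_nonneg _)

theorem l3_LL_dil_le (u : ℝ) (hu : 0 ≤ u) (μ : Measure ℝ) [IsFiniteMeasure μ] (h : FinEn μ) :
    LL (μ.map (fun x => Real.exp u * x)) (μ.map (fun x => Real.exp u * x)) ≤ LL μ μ := by
  rw [l3_LL_dil]
  unfold LL
  refine integral_mono (l3_cross u u μ μ h h).neg h.energy.neg fun z => ?_
  show -Real.log |Real.exp u * z.1 - Real.exp u * z.2| ≤ -Real.log |z.1 - z.2|
  rw [← mul_sub]
  by_cases hz : z.1 - z.2 = 0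
  · rw [hz]; simp
  · rw [l3_log_mul u _ hz]; linarith

theorem l3_pair (u v : ℝ) (hu : 0 ≤ u) (hv : 0 ≤ v) (μ : Measure ℝ) [IsFiniteMeasure μ]
    (h : FinEn μ) :
    ∫ z : ℝ × ℝ, -Real.log |Real.exp u * z.1 - Real.exp v * z.2| ∂(μ.prod μ) ≤ LL μ μ := by
  rw [← l3_LL_dil]
  set μu := μ.map (fun x => Real.exp u * x) with hμu
  set μv := μ.map (fun x => Real.exp v * x) with hμv
  have hmass : μu univ = μv univ := by
    rw [hμu, hμv, Measure.map_apply (by fun_prop) MeasurableSet.univ,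
      Measure.map_apply (by fun_prop) MeasurableSet.univ, preimage_univ, preimage_univ]
  have h1 := energy_pos 1 one_pos μu μv (l3_dil_finEn u μ h) (l3_dil_finEn v μ h) hmass
  have h2 := l3_Phi_nonneg 1 μu μv
  have h3 : LL μv μu = LL μu μv := l3_LL_symm _ _
  have h4 := l3_LL_dil_le u hu μ h
  have h5 := l3_LL_dil_le v hv μ h
  unfold LD at h1
  rw [← hμu] at h4
  rw [← hμv] at h5
  linarith

theorem l3_abs_log (s u v x y : ℝ) (hu : u ∈ Icc 0 s) (hv : v ∈ Icc 0 s) :
    abs (Real.log |Real.exp u * x - Real.exp v * y|) ≤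
      -Real.log |Real.exp u * x - Real.exp v * y| +
        2 * ((2 * s + Real.log (1 + |x|)) + Real.log (1 + |y|)) := by
  have h1 := l3_log_dil u x
  have h2 := l3_log_dil v y
  rw [abs_of_nonneg hu.1] at h1
  rw [abs_of_nonneg hv.1] at h2
  have h0x : 0 ≤ Real.log (1 + |x|) := Real.log_nonneg (by linarith [abs_nonneg x])
  have h0y : 0 ≤ Real.log (1 + |y|) := Real.log_nonneg (by linarith [abs_nonneg y])
  have hs : 0 ≤ s := hu.1.trans hu.2
  set t := |Real.exp u * x - Real.exp v * y| with ht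
  have ht0 : 0 ≤ t := abs_nonneg _
  rcases le_total (Real.log t) 0 with h3 | h3
  · rw [abs_of_nonpos h3]; linarith
  · rw [abs_of_nonneg h3]
    have h4 : Real.log t ≤ 2 * s + Real.log (1 + |x|) + Real.log (1 + |y|) := by
      rcases eq_or_lt_of_le ht0 with h5 | h5
      · rw [← h5, Real.log_zero]; linarith
      · have h6 : t ≤ (1 + |Real.exp u * x|) * (1 + |Real.exp v * y|) := by
          have := abs_sub (Real.exp u * x) (Real.exp v * y)
          nlinarith [abs_nonneg (Real.exp u * x), abs_nonneg (Real.exp v * y),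
            mul_nonneg (abs_nonneg (Real.exp u * x)) (abs_nonneg (Real.exp v * y))]
        have h7 := Real.log_le_log h5 h6
        rw [Real.log_mul (by positivity) (by positivity)] at h7
        linarith [hu.2, hv.2]
    linarith

theorem l3_fst_int (μ ν : Measure ℝ) [IsFiniteMeasure μ] [IsFiniteMeasure ν] (f : ℝ → ℝ)
    (hf : Integrable f μ) : Integrable (fun z : ℝ × ℝ => f z.1) (μ.prod ν) := hf.comp_fst ν

theorem l3_snd_int (μ ν : Measure ℝ) [IsFiniteMeasure μ] [IsFiniteMeasure ν] (f : ℝ → ℝ)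
    (hf : Integrable f ν) : Integrable (fun z : ℝ × ℝ => f z.2) (μ.prod ν) := hf.comp_snd μ

theorem l3_energy (s : ℝ) (hs : 0 < s) (μ : Measure ℝ) [IsFiniteMeasure μ] (h : FinEn μ) :
    Integrable (fun z : ℝ × ℝ => -Real.log |z.1 - z.2|) ((l3Sm s μ).prod (l3Sm s μ)) ∧
    LL (l3Sm s μ) (l3Sm s μ) ≤ LL μ μ := by
  have hg : Integrable (fun z : ℝ × ℝ =>
      2 * ((2 * s + Real.log (1 + |z.1|)) + Real.log (1 + |z.2|))) (μ.prod μ) :=
    (((integrable_const (2 * s)).add (l3_fst_int μ μ _ h.logMoment)).add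
      (l3_snd_int μ μ _ h.logMoment)).const_mul 2
  refine l3_two s hs μ μ (fun z => -Real.log |z.1 - z.2|) (by fun_prop) (LL μ μ)
    (LL μ μ + ∫ z : ℝ × ℝ, 2 * ((2 * s + Real.log (1 + |z.1|)) + Real.log (1 + |z.2|)) ∂(μ.prod μ))
    ?_ ?_ ?_
  · intro u hu v hv
    exact (l3_cross u v μ μ h h).neg
  · intro u hu v hv
    have h1 := l3_pair u v hu.1 hv.1 μ h
    have h2 := l3_cross u v μ μ h h
    calc ∫ z : ℝ × ℝ, abs (-Real.log |Real.exp u * z.1 - Real.exp v * z.2|) ∂(μ.prod μ)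
        ≤ ∫ z : ℝ × ℝ, (-Real.log |Real.exp u * z.1 - Real.exp v * z.2| +
          2 * ((2 * s + Real.log (1 + |z.1|)) + Real.log (1 + |z.2|))) ∂(μ.prod μ) := by
          refine integral_mono h2.neg.abs (h2.neg.add hg) fun z => ?_
          show abs (-Real.log |Real.exp u * z.1 - Real.exp v * z.2|) ≤ _
          rw [abs_neg]
          exact l3_abs_log s u v z.1 z.2 hu hv
      _ = ∫ z : ℝ × ℝ, -Real.log |Real.exp u * z.1 - Real.exp v * z.2| ∂(μ.prod μ) +
          ∫ z : ℝ × ℝ, 2 * ((2 * s + Real.log (1 + |z.1|)) + Real.log (1 + |z.2|)) ∂(μ.prod μ) :=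
          integral_add h2.neg hg
      _ ≤ _ := by linarith
  · intro u hu v hv
    exact l3_pair u v hu.1 hv.1 μ h

theorem l3_finEn (s : ℝ) (hs : 0 < s) (μ : Measure ℝ) [IsFiniteMeasure μ] (h : FinEn μ) :
    FinEn (l3Sm s μ) where
  noAtom := l3Sm_atom s μ h.noAtom
  energy := by
    have := (l3_energy s hs μ h).1.neg
    refine this.congr (Eventually.of_forall fun z => ?_)
    simp
  logMoment := by
    have hd : ∀ u ∈ Icc 0 s, ∀ x : ℝ, |Real.log (1 + |Real.exp u * x|)| ≤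
        s + Real.log (1 + |x|) := by
      intro u hu x
      have h1 := l3_log_dil u x
      rw [abs_of_nonneg hu.1] at h1
      rw [abs_of_nonneg (Real.log_nonneg (by linarith [abs_nonneg (Real.exp u * x)]))]
      linarith [hu.2]
    have hg : Integrable (fun x : ℝ => s + Real.log (1 + |x|)) μ :=
      (integrable_const s).add h.logMoment
    have hi : ∀ u ∈ Icc 0 s, Integrable (fun x : ℝ => Real.log (1 + |Real.exp u * x|)) μ := by
      intro u hu
      exact Integrable.mono' hg (Measurable.aestronglyMeasurable (by fun_prop))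
        (Eventually.of_forall fun x => hd u hu x)
    refine (l3_one s hs μ (fun x => Real.log (1 + |x|)) (by fun_prop)
      (∫ x, (s + Real.log (1 + |x|)) ∂μ) (∫ x, (s + Real.log (1 + |x|)) ∂μ) hi ?_ ?_).1
    · intro u hu
      exact integral_mono (hi u hu).abs hg fun x => hd u hu x
    · intro u hu
      exact integral_mono (hi u hu) hg fun x => (le_abs_self _).trans (hd u hu x)

/-! ### the mutual energies -/

theorem l3_ae_nonneg (μ : Measure ℝ) (h : μ (Iio 0) = 0) : ∀ᵐ x ∂μ, 0 ≤ x := by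
  rw [ae_iff]
  have : {x : ℝ | ¬ 0 ≤ x} = Iio 0 := by ext x; simp
  rw [this, h]

theorem l3_ae_nonneg_prod (μ ν : Measure ℝ) [IsFiniteMeasure μ] [IsFiniteMeasure ν]
    (h : μ (Iio 0) = 0) (h' : ν (Iio 0) = 0) : ∀ᵐ z ∂(μ.prod ν), 0 ≤ z.1 ∧ 0 ≤ z.2 := by
  have e1 : ∀ᵐ z ∂(μ.prod ν), 0 ≤ z.1 :=
    Measure.quasiMeasurePreserving_fst.ae (l3_ae_nonneg μ h)
  have e2 : ∀ᵐ z ∂(μ.prod ν), 0 ≤ z.2 :=
    Measure.quasiMeasurePreserving_snd.ae (l3_ae_nonneg ν h')
  filter_upwards [e1, e2] with z h4 h5 using ⟨h4, h5⟩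

theorem l3_ae_ne (μ ν : Measure ℝ) [IsFiniteMeasure μ] [IsFiniteMeasure ν]
    (h : ∀ x, ν {x} = 0) : ∀ᵐ z ∂(μ.prod ν), z.1 ≠ z.2 := by
  rw [ae_iff]
  have hm : MeasurableSet {z : ℝ × ℝ | ¬ z.1 ≠ z.2} := by
    simp only [ne_eq, not_not]
    exact measurableSet_eq_fun measurable_fst measurable_snd
  rw [Measure.measure_prod_null hm]
  refine Eventually.of_forall fun x => ?_
  have : Prod.mk x ⁻¹' {z : ℝ × ℝ | ¬ z.1 ≠ z.2} = {x} := by
    ext y; simp [eq_comm]
  show ν (Prod.mk x ⁻¹' {z : ℝ × ℝ | ¬ z.1 ≠ z.2}) = 0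
  rw [this, h]

theorem l3_MM_int (μ ν : Measure ℝ) [IsFiniteMeasure μ] [IsFiniteMeasure ν]
    (h : FinEn μ) (h' : FinEn ν) (h0 : μ (Iio 0) = 0) (h0' : ν (Iio 0) = 0) :
    Integrable (fun z : ℝ × ℝ => Real.log (z.1 + z.2)) (μ.prod ν) := by
  have h1 := cross_integrable μ ν h h'
  refine Integrable.mono' ((h1.norm.add (l3_fst_int μ ν _ h.logMoment)).add
      (l3_snd_int μ ν _ h'.logMoment)) (Measurable.aestronglyMeasurable (by fun_prop)) ?_
  filter_upwards [l3_ae_nonneg_prod μ ν h0 h0', l3_ae_ne μ ν h'.noAtom] with z hz hne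
  simp only [Pi.add_apply]
  obtain ⟨hx, hy⟩ := hz
  have hd : 0 < |z.1 - z.2| := abs_pos.2 (sub_ne_zero.2 hne)
  have hpos : 0 < z.1 + z.2 := by
    rcases eq_or_lt_of_le hx with h2 | h2
    · rcases eq_or_lt_of_le hy with h3 | h3
      · exact absurd (h2.symm.trans h3) hne
      · linarith
    · linarith
  have hle : |z.1 - z.2| ≤ z.1 + z.2 := abs_le.2 ⟨by linarith, by linarith⟩
  have hlo := Real.log_le_log hd hle
  have h0x : 0 ≤ Real.log (1 + |z.1|) := Real.log_nonneg (by linarith [abs_nonneg z.1])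
  have h0y : 0 ≤ Real.log (1 + |z.2|) := Real.log_nonneg (by linarith [abs_nonneg z.2])
  have hup : Real.log (z.1 + z.2) ≤ Real.log (1 + |z.1|) + Real.log (1 + |z.2|) := by
    rw [← Real.log_mul (by positivity) (by positivity)]
    refine Real.log_le_log hpos ?_
    rw [abs_of_nonneg hx, abs_of_nonneg hy]
    nlinarith [mul_nonneg hx hy]
  have h5 : ‖Real.log |z.1 - z.2|‖ = abs (Real.log |z.1 - z.2|) := rfl
  rw [h5, Real.norm_eq_abs, abs_le]
  constructor
  · linarith [neg_abs_le (Real.log |z.1 - z.2|)]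
  · linarith [abs_nonneg (Real.log |z.1 - z.2|)]

theorem l3_log_add (s u v x y : ℝ) (hu : u ∈ Icc 0 s) (hv : v ∈ Icc 0 s) (hx : 0 ≤ x)
    (hy : 0 ≤ y) : Real.log (x + y) ≤ Real.log (Real.exp u * x + Real.exp v * y) ∧
      Real.log (Real.exp u * x + Real.exp v * y) ≤ s + Real.log (x + y) := by
  have hs : 0 ≤ s := hu.1.trans hu.2
  rcases eq_or_lt_of_le (add_nonneg hx hy) with h | h
  · have hx0 : x = 0 := by linarith
    have hy0 : y = 0 := by linarith
    subst hx0; subst hy0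
    simp [hs]
  · have eu1 : 1 ≤ Real.exp u := Real.one_le_exp hu.1
    have ev1 : 1 ≤ Real.exp v := Real.one_le_exp hv.1
    have eus : Real.exp u ≤ Real.exp s := Real.exp_le_exp.2 hu.2
    have evs : Real.exp v ≤ Real.exp s := Real.exp_le_exp.2 hv.2
    have h1 : x + y ≤ Real.exp u * x + Real.exp v * y := by nlinarith
    have h2 : Real.exp u * x + Real.exp v * y ≤ Real.exp s * (x + y) := by nlinarith
    refine ⟨Real.log_le_log h h1, ?_⟩
    have h3 := Real.log_le_log (by linarith) h2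
    rwa [Real.log_mul (Real.exp_pos s).ne' h.ne', Real.log_exp] at h3

theorem l3_MM (s : ℝ) (hs : 0 < s) (μ ν : Measure ℝ) [IsFiniteMeasure μ] [IsFiniteMeasure ν]
    (h : FinEn μ) (h' : FinEn ν) (h0 : μ (Iio 0) = 0) (h0' : ν (Iio 0) = 0) :
    MM (l3Sm s μ) (l3Sm s ν) ≤ s * (μ.real univ * ν.real univ) + MM μ ν := by
  have hi := l3_MM_int μ ν h h' h0 h0'
  have hdom : ∀ u ∈ Icc 0 s, ∀ v ∈ Icc 0 s, ∀ᵐ z ∂(μ.prod ν),
      |Real.log (Real.exp u * z.1 + Real.exp v * z.2)| ≤ s + |Real.log (z.1 + z.2)| := by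
    intro u hu v hv
    filter_upwards [l3_ae_nonneg_prod μ ν h0 h0'] with z hz
    obtain ⟨h1, h2⟩ := l3_log_add s u v z.1 z.2 hu hv hz.1 hz.2
    have hs0 : 0 ≤ s := hs.le
    rw [abs_le]
    exact ⟨by linarith [neg_abs_le (Real.log (z.1 + z.2))],
      by linarith [le_abs_self (Real.log (z.1 + z.2))]⟩
  have hii : ∀ u ∈ Icc 0 s, ∀ v ∈ Icc 0 s,
      Integrable (fun z : ℝ × ℝ => Real.log (Real.exp u * z.1 + Real.exp v * z.2)) (μ.prod ν) := by
    intro u hu v hv
    exact Integrable.mono' ((integrable_const s).add hi.norm)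
      (Measurable.aestronglyMeasurable (by fun_prop)) (hdom u hu v hv)
  have := (l3_two s hs μ ν (fun z => Real.log (z.1 + z.2)) (by fun_prop)
    (s * (μ.real univ * ν.real univ) + MM μ ν)
    (∫ z : ℝ × ℝ, (s + |Real.log (z.1 + z.2)|) ∂(μ.prod ν)) hii ?_ ?_).2
  · exact this
  · intro u hu v hv
    exact integral_mono_ae (hii u hu v hv).abs ((integrable_const s).add hi.norm) (hdom u hu v hv)
  · intro u hu v hv
    have hc : ∫ _ : ℝ × ℝ, s ∂(μ.prod ν) = s * (μ.real univ * ν.real univ) := by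
      rw [integral_const, smul_eq_mul, measureReal_def, ← univ_prod_univ, Measure.prod_prod,
        ENNReal.toReal_mul, ← measureReal_def, ← measureReal_def]
      ring
    calc ∫ z : ℝ × ℝ, Real.log (Real.exp u * z.1 + Real.exp v * z.2) ∂(μ.prod ν)
        ≤ ∫ z : ℝ × ℝ, (s + Real.log (z.1 + z.2)) ∂(μ.prod ν) := by
          refine integral_mono_ae (hii u hu v hv) ((integrable_const s).add hi) ?_
          filter_upwards [l3_ae_nonneg_prod μ ν h0 h0'] with z hz
          exact (l3_log_add s u v z.1 z.2 hu hv hz.1 hz.2).2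
      _ = _ := by
          rw [integral_add (integrable_const s) hi, hc]; rfl

/-! ### the potentials -/

theorem l3_pot (μ : Measure ℝ) [IsFiniteMeasure μ] (f g : ℝ → ℝ) (hf : Continuous f)
    (hg : Integrable g μ)
    (hd : ∀ u ∈ Icc (0 : ℝ) 1, ∀ᵐ x ∂μ, |f (Real.exp u * x)| ≤ g x) (δ : ℝ) (hδ : 0 < δ) :
    ∃ η : ℝ, 0 < η ∧ η ≤ 1 ∧ ∀ s : ℝ, 0 < s → s ≤ η →
      Integrable f (l3Sm s μ) ∧ ∫ x, f x ∂(l3Sm s μ) ≤ ∫ x, f x ∂μ + δ := by
  have hi : ∀ u ∈ Icc (0 : ℝ) 1, Integrable (fun x : ℝ => f (Real.exp u * x)) μ := by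
    intro u hu
    exact Integrable.mono' hg (hf.comp (by fun_prop)).aestronglyMeasurable (hd u hu)
  have ht : Tendsto (fun u : ℝ => ∫ x, f (Real.exp u * x) ∂μ) (𝓝[Icc 0 1] 0)
      (𝓝 (∫ x, f (Real.exp 0 * x) ∂μ)) := by
    refine tendsto_integral_filter_of_dominated_convergence g ?_ ?_ hg ?_
    · exact Eventually.of_forall fun u => (hf.comp (by fun_prop)).aestronglyMeasurable
    · filter_upwards [self_mem_nhdsWithin] with u hu using hd u hu
    · refine Eventually.of_forall fun x => ?_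
      have hc : Continuous fun u : ℝ => f (Real.exp u * x) := hf.comp (by fun_prop)
      exact (hc.tendsto 0).mono_left nhdsWithin_le_nhds
  have he : ∀ᶠ u in 𝓝[Icc (0 : ℝ) 1] 0, ∫ x, f (Real.exp u * x) ∂μ < ∫ x, f x ∂μ + δ := by
    refine ht.eventually_lt_const ?_
    simp only [Real.exp_zero, one_mul]
    linarith
  rw [eventually_nhdsWithin_iff, Metric.eventually_nhds_iff] at he
  obtain ⟨ε, hε, he⟩ := he
  refine ⟨min (ε / 2) 1, by positivity, min_le_right _ _, fun s hs hs' => ?_⟩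
  have hs1 : s ≤ 1 := hs'.trans (min_le_right _ _)
  have hs2 : s ≤ ε / 2 := hs'.trans (min_le_left _ _)
  have hsub : ∀ u ∈ Icc 0 s, u ∈ Icc (0 : ℝ) 1 := fun u hu => ⟨hu.1, hu.2.trans hs1⟩
  refine l3_one s hs μ f hf.measurable (∫ x, f x ∂μ + δ) (∫ x, g x ∂μ)
    (fun u hu => hi u (hsub u hu)) ?_ ?_
  · intro u hu
    exact integral_mono_ae (hi u (hsub u hu)).abs hg (hd u (hsub u hu))
  · intro u hu
    refine (he ?_ (hsub u hu)).le
    rw [Real.dist_eq, sub_zero, abs_of_nonneg hu.1]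
    linarith [hu.2]

/-! ### densities -/

/-- the density of the smeared measure -/
def l3R (s : ℝ) (μ : Measure ℝ) (t : ℝ) : ℝ :=
  μ.real (Icc (Real.exp (-s) * t) t) / (s * t)

theorem l3R_measurable (s : ℝ) (μ : Measure ℝ) [IsFiniteMeasure μ] : Measurable (l3R s μ) := by
  unfold l3R
  refine Measurable.div ?_ (by fun_prop)
  have hS : MeasurableSet {p : ℝ × ℝ | Real.exp (-s) * p.1 ≤ p.2 ∧ p.2 ≤ p.1} := by
    exact (measurableSet_le (f := fun p : ℝ × ℝ => Real.exp (-s) * p.1)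
      (g := fun p : ℝ × ℝ => p.2) (by fun_prop) (by fun_prop)).inter
      (measurableSet_le (f := fun p : ℝ × ℝ => p.2) (g := fun p : ℝ × ℝ => p.1)
        (by fun_prop) (by fun_prop))
  have := measurable_measure_prodMk_left (ν := μ) hS
  exact this.ennreal_toReal

theorem l3_inner (s : ℝ) (hs : 0 < s) (S : Set ℝ) (hS : MeasurableSet S) (x : ℝ) (hx : 0 < x) :
    l3P s {u | Real.exp u * x ∈ S} =
      ∫⁻ t in Ioi (0 : ℝ), (S ∩ Icc x (Real.exp s * x)).indicator
        (fun t => ENNReal.ofReal (1 / (s * t))) t := by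
  have hmeas : Measurable fun u : ℝ => Real.exp u * x := by fun_prop
  have himg : (fun u : ℝ => Real.exp u * x) '' Icc 0 s = Icc x (Real.exp s * x) := by
    ext t
    constructor
    · rintro ⟨u, hu, rfl⟩
      have e1 : 1 ≤ Real.exp u := Real.one_le_exp hu.1
      have e2 : Real.exp u ≤ Real.exp s := Real.exp_le_exp.2 hu.2
      constructor <;> simp only <;> nlinarith
    · rintro ⟨h1, h2⟩
      have ht : 0 < t / x := div_pos (by linarith) hx
      refine ⟨Real.log (t / x), ⟨Real.log_nonneg ?_, ?_⟩, ?_⟩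
      · rw [le_div_iff₀ hx]; linarith
      · rw [Real.log_le_iff_le_exp ht, div_le_iff₀ hx]; exact h2
      · simp only
        rw [Real.exp_log ht, div_mul_cancel₀ _ hx.ne']
  have key := lintegral_image_eq_lintegral_abs_deriv_mul (s := Icc 0 s)
    (f := fun u : ℝ => Real.exp u * x) (f' := fun u : ℝ => Real.exp u * x) measurableSet_Icc
    (fun u _ => ((Real.hasDerivAt_exp u).mul_const x).hasDerivWithinAt)
    (fun u _ v _ h => by
      have : Real.exp u = Real.exp v := mul_right_cancel₀ hx.ne' h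
      exact Real.exp_injective this)
    (S.indicator fun t => ENNReal.ofReal (1 / (s * t)))
  rw [himg] at key
  have hL : ∫⁻ t in Ioi (0 : ℝ), (S ∩ Icc x (Real.exp s * x)).indicator
        (fun t => ENNReal.ofReal (1 / (s * t))) t =
      ∫⁻ t in Icc x (Real.exp s * x), S.indicator (fun t => ENNReal.ofReal (1 / (s * t))) t := by
    rw [← lintegral_indicator measurableSet_Icc, ← lintegral_indicator measurableSet_Ioi]
    refine lintegral_congr fun t => ?_
    by_cases h1 : t ∈ Icc x (Real.exp s * x)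
    · have h2 : t ∈ Ioi (0 : ℝ) := lt_of_lt_of_le hx h1.1
      rw [indicator_of_mem h2, indicator_of_mem h1]
      by_cases h3 : t ∈ S
      · rw [indicator_of_mem h3, indicator_of_mem (show t ∈ S ∩ Icc x (Real.exp s * x) from ⟨h3, h1⟩)]
      · rw [indicator_of_notMem h3, indicator_of_notMem (fun h => h3 h.1)]
    · rw [indicator_of_notMem h1]
      by_cases h2 : t ∈ Ioi (0 : ℝ)
      · rw [indicator_of_mem h2, indicator_of_notMem (fun h => h1 h.2)]
      · rw [indicator_of_notMem h2]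
  rw [hL, key]
  have hR : ∀ u ∈ Icc 0 s, ENNReal.ofReal |Real.exp u * x| *
      S.indicator (fun t => ENNReal.ofReal (1 / (s * t))) (Real.exp u * x) =
      ENNReal.ofReal (1 / s) * ({u | Real.exp u * x ∈ S} : Set ℝ).indicator 1 u := by
    intro u _
    have hpos : 0 < Real.exp u * x := mul_pos (Real.exp_pos u) hx
    by_cases h3 : Real.exp u * x ∈ S
    · rw [indicator_of_mem h3, indicator_of_mem (show u ∈ {u | Real.exp u * x ∈ S} from h3),
        Pi.one_apply, mul_one, abs_of_pos hpos, ← ENNReal.ofReal_mul hpos.le]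
      congr 1
      field_simp
    · rw [indicator_of_notMem h3, indicator_of_notMem (show u ∉ {u | Real.exp u * x ∈ S} from h3),
        mul_zero, mul_zero]
  have hmS : MeasurableSet {u : ℝ | Real.exp u * x ∈ S} := hmeas hS
  rw [setLIntegral_congr_fun measurableSet_Icc hR, lintegral_const_mul' _ _ ENNReal.ofReal_ne_top,
    lintegral_indicator_one hmS]
  unfold l3P
  rw [Measure.smul_apply, smul_eq_mul]

theorem l3_density (s : ℝ) (hs : 0 < s) (μ : Measure ℝ) [IsFiniteMeasure μ]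
    (h0 : μ (Iio 0) = 0) (h1 : ∀ x, μ {x} = 0) :
    l3Sm s μ = (volume.restrict (Ioi (0 : ℝ))).withDensity
      (fun t => ENNReal.ofReal (l3R s μ t)) := by
  have hpos : ∀ᵐ x ∂μ, 0 < x := by
    have h2 : ∀ᵐ x ∂μ, x ≠ 0 := by
      rw [ae_iff]
      have : {x : ℝ | ¬ x ≠ 0} = {0} := by ext x; simp
      rw [this, h1]
    filter_upwards [l3_ae_nonneg μ h0, h2] with x h3 h4 using lt_of_le_of_ne h3 (Ne.symm h4)
  refine Measure.ext fun S hS => ?_
  rw [withDensity_apply _ hS]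
  unfold l3Sm
  rw [Measure.map_apply l3_measG hS, Measure.prod_apply_symm (l3_measG hS)]
  have e1 : ∫⁻ x, l3P s ((fun u => (u, x)) ⁻¹' ((fun p : ℝ × ℝ => Real.exp p.1 * p.2) ⁻¹' S)) ∂μ =
      ∫⁻ x, (∫⁻ t in Ioi (0 : ℝ), (S ∩ Icc x (Real.exp s * x)).indicator
        (fun t => ENNReal.ofReal (1 / (s * t))) t) ∂μ := by
    refine lintegral_congr_ae ?_
    filter_upwards [hpos] with x hx
    exact l3_inner s hs S hS x hx
  rw [e1]
  have hiff : ∀ x t : ℝ, t ∈ Icc x (Real.exp s * x) ↔ x ∈ Icc (Real.exp (-s) * t) t := by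
    intro x t
    simp only [mem_Icc]
    rw [Real.exp_neg, inv_mul_le_iff₀ (Real.exp_pos s)]
    exact and_comm
  have hswap : ∀ x t : ℝ, (S ∩ Icc x (Real.exp s * x)).indicator
        (fun t => ENNReal.ofReal (1 / (s * t))) t =
      S.indicator (fun t => ENNReal.ofReal (1 / (s * t))) t *
        (Icc (Real.exp (-s) * t) t).indicator 1 x := by
    intro x t
    by_cases h3 : t ∈ S
    · by_cases h4 : t ∈ Icc x (Real.exp s * x)
      · rw [indicator_of_mem (show t ∈ S ∩ Icc x (Real.exp s * x) from ⟨h3, h4⟩),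
          indicator_of_mem h3, indicator_of_mem ((hiff x t).1 h4), Pi.one_apply, mul_one]
      · rw [indicator_of_notMem (fun h => h4 h.2),
          indicator_of_notMem (fun h => h4 ((hiff x t).2 h)), mul_zero]
    · rw [indicator_of_notMem (fun h => h3 h.1), indicator_of_notMem h3, zero_mul]
  simp_rw [hswap]
  have hSm : Measurable (S.indicator fun t : ℝ => ENNReal.ofReal (1 / (s * t))) :=
    Measurable.indicator (by fun_prop) hS
  have hD : MeasurableSet {p : ℝ × ℝ | Real.exp (-s) * p.2 ≤ p.1 ∧ p.1 ≤ p.2} :=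
    (measurableSet_le (f := fun p : ℝ × ℝ => Real.exp (-s) * p.2)
      (g := fun p : ℝ × ℝ => p.1) (by fun_prop) (by fun_prop)).inter
      (measurableSet_le (f := fun p : ℝ × ℝ => p.1) (g := fun p : ℝ × ℝ => p.2)
        (by fun_prop) (by fun_prop))
  rw [lintegral_lintegral_swap]
  · rw [← lintegral_indicator hS]
    refine setLIntegral_congr_fun measurableSet_Ioi fun t ht => ?_
    have ht0 : (0 : ℝ) < t := ht
    rw [lintegral_const_mul _ (measurable_one.indicator measurableSet_Icc),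
      lintegral_indicator_one measurableSet_Icc]
    by_cases h3 : t ∈ S
    · rw [indicator_of_mem h3, indicator_of_mem h3]
      unfold l3R
      rw [div_eq_mul_one_div (μ.real _) (s * t), mul_comm (μ.real _),
        ENNReal.ofReal_mul (by positivity), measureReal_def,
        ENNReal.ofReal_toReal (measure_ne_top μ _)]
    · rw [indicator_of_notMem h3, indicator_of_notMem h3, zero_mul]
  · refine Measurable.aemeasurable ?_
    refine (hSm.comp measurable_snd).mul ?_
    have e : (fun p : ℝ × ℝ => (Icc (Real.exp (-s) * p.2) p.2).indicator (1 : ℝ → ℝ≥0∞) p.1) =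
        ({p : ℝ × ℝ | Real.exp (-s) * p.2 ≤ p.1 ∧ p.1 ≤ p.2}).indicator 1 := by
      ext p
      by_cases hp : p.1 ∈ Icc (Real.exp (-s) * p.2) p.2
      · rw [indicator_of_mem hp, indicator_of_mem (show p ∈ {p : ℝ × ℝ |
          Real.exp (-s) * p.2 ≤ p.1 ∧ p.1 ≤ p.2} from hp)]; rfl
      · rw [indicator_of_notMem hp, indicator_of_notMem (show p ∉ {p : ℝ × ℝ |
          Real.exp (-s) * p.2 ≤ p.1 ∧ p.1 ≤ p.2} from hp)]
    rw [e]
    exact measurable_one.indicator hD

theorem l3R_bound (s : ℝ) (hs : 0 < s) (μ : Measure ℝ) [IsFiniteMeasure μ] (K : ℝ)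
    (hK : μ.real univ ≤ K) (x : ℝ) (hx : 0 < x) :
    0 ≤ l3R s μ x ∧ l3R s μ x ≤ K / s / x := by
  unfold l3R
  constructor
  · positivity
  · rw [div_div]
    gcongr
    exact (measureReal_mono (subset_univ _)).trans hK

/-! ### domination of the potentials -/

theorem l3_U1_cont {α τ : ℝ} (hτ : 0 < τ) {V : ℝ → ℝ} (hV : Pot V) : Continuous (U1 α τ V) := by
  unfold U1
  exact (hV.cont.comp Real.continuous_sqrt).sub ((gg_continuous hτ).comp Real.continuous_sqrt)

theorem l3_U3_cont {α τ : ℝ} (hτ : 0 < τ) : Continuous (U3 α τ) := by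
  unfold U3
  exact (V3_continuous hτ).comp Real.continuous_sqrt

theorem l3_V3_bdd {α τ : ℝ} (hτ : 0 < τ) : ∃ B : ℝ, ∀ x, |V3 α τ x| ≤ B := by
  obtain ⟨C, hC⟩ := (isCompact_Icc (a := -xstar α τ) (b := xstar α τ)).exists_bound_of_continuousOn
    (V3_continuous (α := α) hτ).continuousOn
  refine ⟨max C 0, fun x => ?_⟩
  by_cases hx : α < 0 ∧ |x| < xstar α τ
  · exact (hC x (abs_le.1 hx.2.le)).trans (le_max_left _ _)
  · unfold V3
    rw [if_neg hx, abs_zero]
    exact le_max_right _ _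

theorem l3_gg {α τ : ℝ} (hτ : 0 < τ) : ∃ C : ℝ, 0 < C ∧ ∀ x : ℝ,
    gg α τ x ≤ C * (1 + |x|) ^ 2 := by
  obtain ⟨C, hC, h⟩ := gg_growth (α := α) hτ
  refine ⟨C, hC, fun x => (h x).trans ?_⟩
  have h1 : (1 : ℝ) ≤ 1 + |x| := by linarith [abs_nonneg x]
  have h2 : (1 + |x|) ^ (4 / 3 : ℝ) ≤ (1 + |x|) ^ (2 : ℝ) :=
    Real.rpow_le_rpow_of_exponent_le h1 (by norm_num)
  rw [show (2 : ℝ) = ((2 : ℕ) : ℝ) by norm_num, Real.rpow_natCast] at h2
  exact mul_le_mul_of_nonneg_left h2 hC.le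

theorem l3_U1_dom {α τ : ℝ} (hτ : 0 < τ) {V : ℝ → ℝ}
    (hdbl : ∃ C : ℝ, ∀ s ∈ Icc (1 : ℝ) 2, ∀ x, |V (s * x)| ≤ C * (1 + |V x|)) :
    ∃ C C' : ℝ, 0 ≤ C ∧ 0 ≤ C' ∧ ∀ u ∈ Icc (0 : ℝ) 1, ∀ x : ℝ, 0 ≤ x →
      |U1 α τ V (Real.exp u * x)| ≤ C * |U1 α τ V x| + C' * (1 + x) := by
  obtain ⟨Cd, hd⟩ := hdbl
  obtain ⟨Cg, hCg, hg⟩ := l3_gg (α := α) hτ
  have hCd : 0 ≤ Cd := by
    have h1 := hd 1 ⟨le_rfl, by norm_num⟩ 0
    have h2 : 0 ≤ Cd * (1 + |V 0|) := (abs_nonneg _).trans h1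
    exact nonneg_of_mul_nonneg_left h2 (by positivity)
  refine ⟨Cd, Cd * (1 + 2 * Cg) + 8 * Cg, hCd, by positivity, fun u hu x hx => ?_⟩
  unfold U1
  set y := √x with hy
  have hy0 : 0 ≤ y := Real.sqrt_nonneg _
  have hyx : y ^ 2 = x := Real.sq_sqrt hx
  set q := √(Real.exp u) with hq
  have hq1 : 1 ≤ q := Real.one_le_sqrt.2 (Real.one_le_exp hu.1)
  have hq2 : q ≤ 2 := by
    rw [hq, Real.sqrt_le_left (by norm_num)]
    calc Real.exp u ≤ Real.exp 1 := Real.exp_le_exp.2 hu.2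
      _ ≤ 2 ^ 2 := by have := Real.exp_one_lt_d9; linarith
  have hsq : √(Real.exp u * x) = q * y := by rw [Real.sqrt_mul (Real.exp_pos u).le]
  rw [hsq]
  have h1 := hd q ⟨hq1, hq2⟩ y
  have h2 : gg α τ (q * y) ≤ Cg * (8 * (1 + x)) := by
    refine (hg (q * y)).trans (mul_le_mul_of_nonneg_left ?_ hCg.le)
    rw [abs_of_nonneg (by positivity)]
    have h3 : q * y ≤ 2 * y := mul_le_mul_of_nonneg_right hq2 hy0
    have h4 : 0 ≤ q * y := by positivity
    nlinarith [sq_nonneg (y - 1)]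
  have h3 : gg α τ y ≤ Cg * (2 * (1 + x)) := by
    refine (hg y).trans (mul_le_mul_of_nonneg_left ?_ hCg.le)
    rw [abs_of_nonneg hy0]
    nlinarith [sq_nonneg (y - 1)]
  have h4 := gg_nonneg (α := α) (τ := τ) y
  have h5 := gg_nonneg (α := α) (τ := τ) (q * y)
  have h6 : |V y| ≤ |V y - gg α τ y| + Cg * (2 * (1 + x)) := by
    have : V y = (V y - gg α τ y) + gg α τ y := by ring
    calc |V y| = |(V y - gg α τ y) + gg α τ y| := by rw [← this]
      _ ≤ |V y - gg α τ y| + |gg α τ y| := abs_add_le _ _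
      _ ≤ _ := by rw [abs_of_nonneg h4]; linarith
  calc |V (q * y) - gg α τ (q * y)| ≤ |V (q * y)| + |gg α τ (q * y)| := abs_sub _ _
    _ ≤ Cd * (1 + |V y|) + Cg * (8 * (1 + x)) := by rw [abs_of_nonneg h5]; linarith
    _ ≤ Cd * (1 + (|V y - gg α τ y| + Cg * (2 * (1 + x)))) + Cg * (8 * (1 + x)) := by
        have := mul_le_mul_of_nonneg_left h6 hCd
        linarith
    _ ≤ Cd * |V y - gg α τ y| + (Cd * (1 + 2 * Cg) + 8 * Cg) * (1 + x) := by
        nlinarith [mul_nonneg hCd hx]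

/-! ### the theorem -/

/-- smearing by expanding dilations -/
theorem smear {α τ : ℝ} (hτ : 0 < τ) {V : ℝ → ℝ} (hV : Pot V)
    (hdbl : ∃ C : ℝ, ∀ s ∈ Icc (1 : ℝ) 2, ∀ x, |V (s * x)| ≤ C * (1 + |V x|))
    {a b c : Measure ℝ} (h : AdmJ α τ V a b c) (δ : ℝ) (hδ : 0 < δ) :
    ∃ a' b' c' : Measure ℝ, AdmJ α τ V a' b' c' ∧ JJ α τ V a' b' c' ≤ JJ α τ V a b c + δ ∧
    ∃ (K : ℝ) (ra rc : ℝ → ℝ), Measurable ra ∧ Measurable rc ∧
      (∀ x, 0 < x → 0 ≤ ra x ∧ ra x ≤ K / x ∧ 0 ≤ rc x ∧ rc x ≤ K / x) ∧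
      a' = (volume.restrict (Ioi (0 : ℝ))).withDensity (fun x => ENNReal.ofReal (ra x)) ∧
      c' = (volume.restrict (Ioi (0 : ℝ))).withDensity (fun x => ENNReal.ofReal (rc x)) := by
  have fa : IsFiniteMeasure a := ⟨by rw [h.massa]; norm_num⟩
  have fb : IsFiniteMeasure b := ⟨by rw [h.massb]; exact ENNReal.div_lt_top (by norm_num) (by norm_num)⟩
  have fc : IsFiniteMeasure c := ⟨by rw [h.massc]; exact ENNReal.div_lt_top (by norm_num) (by norm_num)⟩
  have ma : a.real univ = 1 / 2 := by rw [measureReal_def, h.massa]; simp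
  have mb : b.real univ = 1 / 3 := by rw [measureReal_def, h.massb]; simp
  have mc : c.real univ = 1 / 6 := by rw [measureReal_def, h.massc]; simp
  obtain ⟨C, C', hC, hC', hdom⟩ := l3_U1_dom (α := α) hτ hdbl
  obtain ⟨c0, C0, hc0, hU⟩ := U1_lower (α := α) hτ hV
  obtain ⟨B, hB⟩ := l3_V3_bdd (α := α) hτ
  have hx : Integrable (fun x : ℝ => x) a := by
    refine Integrable.mono' ((h.pot.abs.add (integrable_const C0)).const_mul (1 / c0))
      (Measurable.aestronglyMeasurable (by fun_prop)) ?_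
    filter_upwards [l3_ae_nonneg a h.suppa] with x hx
    have h1 := hU x hx
    simp only [Pi.add_apply]
    rw [Real.norm_of_nonneg hx, one_div, ← div_eq_inv_mul, le_div_iff₀ hc0]
    linarith [le_abs_self (U1 α τ V x)]
  have hg1 : Integrable (fun x => C * |U1 α τ V x| + C' * (1 + x)) a :=
    (h.pot.abs.const_mul C).add (((integrable_const 1).add hx).const_mul C')
  obtain ⟨η₁, hη₁, hη₁', hp1⟩ := l3_pot a (U1 α τ V) _ (l3_U1_cont hτ hV) hg1 (by
    intro u hu
    filter_upwards [l3_ae_nonneg a h.suppa] with x hx using hdom u hu x hx) (δ / 4) (by positivity)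
  obtain ⟨η₃, hη₃, hη₃', hp3⟩ := l3_pot c (U3 α τ) (fun _ => B) (l3_U3_cont hτ)
    (integrable_const B) (fun u _ => Eventually.of_forall fun x => hB _) (δ / 4) (by positivity)
  set s : ℝ := min (min η₁ η₃) δ with hs
  have hs0 : 0 < s := by rw [hs]; positivity
  have hs1 : s ≤ η₁ := (min_le_left _ _).trans (min_le_left _ _)
  have hs3 : s ≤ η₃ := (min_le_left _ _).trans (min_le_right _ _)
  have hsδ : s ≤ δ := min_le_right _ _
  obtain ⟨i1, l1⟩ := hp1 s hs0 hs1
  obtain ⟨-, l3⟩ := hp3 s hs0 hs3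
  have ea := (l3_energy s hs0 a h.ena).2
  have eb := (l3_energy s hs0 b h.enb).2
  have ec := (l3_energy s hs0 c h.enc).2
  have mab := l3_MM s hs0 a b h.ena h.enb h.suppa h.suppb
  have mbc := l3_MM s hs0 b c h.enb h.enc h.suppb h.suppc
  rw [ma, mb] at mab
  rw [mb, mc] at mbc
  refine ⟨l3Sm s a, l3Sm s b, l3Sm s c, ?_, ?_, 1 / s, l3R s a, l3R s c, l3R_measurable s a,
    l3R_measurable s c, fun x hx => ?_, l3_density s hs0 a h.suppa h.ena.noAtom,
    l3_density s hs0 c h.suppc h.enc.noAtom⟩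
  · exact
      { suppa := l3Sm_Iio s a h.suppa
        suppb := l3Sm_Iio s b h.suppb
        suppc := l3Sm_Iio s c h.suppc
        massa := by rw [l3Sm_univ s hs0]; exact h.massa
        massb := by rw [l3Sm_univ s hs0]; exact h.massb
        massc := by rw [l3Sm_univ s hs0]; exact h.massc
        constr := l3Sm_le hτ s hs0 b h.constr
        ena := l3_finEn s hs0 a h.ena
        enb := l3_finEn s hs0 b h.enb
        enc := l3_finEn s hs0 c h.enc
        pot := i1 }
  · unfold JJ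
    linarith
  · have r1 := l3R_bound s hs0 a 1 (by rw [ma]; norm_num) x hx
    have r2 := l3R_bound s hs0 c 1 (by rw [mc]; norm_num) x hx
    exact ⟨r1.1, r1.2, r2.1, r2.2⟩

end

end Pool.Agent.MP_941b23_mp
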