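import Pool.Agent.MP_941b23_mp.Defs2
import Pool.Agent.MP_941b23_mp.L3a
import Pool.Agent.MP_941b23_mp.P1b
import Pool.Agent.MP_941b23_mp.P5
import Pool.Agent.MP_941b23_mp.T1a
import Pool.Agent.MP_941b23_mp.T2b
import Pool.Agent.MP_941b23_mp.T2c
import Pool.Agent.MP_941b23_mp.T5

namespace Pool.Agent.MP_941b23_mp

open MeasureTheory Set Filter Topology
open scoped ENNReal NNReal Real

noncomputable section

theorem l3b_restrict {μ : Measure ℝ} (h0 : μ (Iic 0) = 0) : μ.restrict (Ioi 0) = μ := by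
  apply Measure.restrict_eq_self_of_ae_mem
  rw [ae_iff]
  convert h0 using 2
  ext x
  simp

theorem l3b_lim1 {μ : Measure ℝ} (h0 : μ (Iic 0) = 0) {I : ℕ → Set ℝ}
    (hI : ∀ n, MeasurableSet (I n)) (hmono : Monotone I) (hU : ⋃ n, I n = Ioi 0) {f : ℝ → ℝ}
    (hf : Integrable f μ) :
    Tendsto (fun n => ∫ z, f z ∂(μ.restrict (I n))) atTop (𝓝 (∫ z, f z ∂μ)) := by
  have := tendsto_setIntegral_of_monotone hI hmono (f := f) (μ := μ) hf.integrableOn
  rw [hU, l3b_restrict h0] at this
  exact this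

/-- the bilinear form -/
def l3bB (f : ℝ × ℝ → ℝ) (μ ν : Measure ℝ) : ℝ := ∫ z, f z ∂(μ.prod ν)

theorem l3b_lim2 {μ ν : Measure ℝ} [IsFiniteMeasure μ] [IsFiniteMeasure ν] (h0 : μ (Iic 0) = 0)
    (h0' : ν (Iic 0) = 0) {I : ℕ → Set ℝ}
    (hI : ∀ n, MeasurableSet (I n)) (hmono : Monotone I) (hU : ⋃ n, I n = Ioi 0) {f : ℝ × ℝ → ℝ}
    (hf : Integrable f (μ.prod ν)) :
    Tendsto (fun n => l3bB f (μ.restrict (I n)) (ν.restrict (I n))) atTop (𝓝 (l3bB f μ ν)) := by
  have hm2 : Monotone fun n => I n ×ˢ I n := fun m n h => prod_mono (hmono h) (hmono h)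
  have := tendsto_setIntegral_of_monotone (s := fun n => I n ×ˢ I n)
    (fun n => (hI n).prod (hI n)) hm2 (f := f) (μ := μ.prod ν) hf.integrableOn
  have hU2 : ⋃ n, I n ×ˢ I n = Ioi 0 ×ˢ Ioi 0 := by
    rw [← hU]
    ext ⟨x, y⟩
    simp only [mem_iUnion, mem_prod]
    constructor
    · rintro ⟨n, h1, h2⟩
      exact ⟨⟨n, h1⟩, ⟨n, h2⟩⟩
    · rintro ⟨⟨n, h1⟩, ⟨m, h2⟩⟩
      exact ⟨max n m, hmono (le_max_left _ _) h1, hmono (le_max_right _ _) h2⟩
  rw [hU2, ← Measure.prod_restrict, l3b_restrict h0, l3b_restrict h0'] at this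
  unfold l3bB
  simp_rw [Measure.prod_restrict]
  exact this

theorem l3b_int_restrict {μ ν : Measure ℝ} [IsFiniteMeasure μ] [IsFiniteMeasure ν]
    {f : ℝ × ℝ → ℝ} (hf : Integrable f (μ.prod ν)) (s : Set ℝ) :
    Integrable f ((μ.restrict s).prod (ν.restrict s)) := by
  rw [Measure.prod_restrict]
  exact hf.restrict

theorem l3b_int_smul {μ ν : Measure ℝ} [IsFiniteMeasure μ] [IsFiniteMeasure ν]
    {f : ℝ × ℝ → ℝ} (hf : Integrable f (μ.prod ν)) (p q : ℝ) :
    Integrable f ((ENNReal.ofReal p • μ).prod (ENNReal.ofReal q • ν)) := by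
  rw [Measure.prod_smul_left, Measure.prod_smul_right]
  exact (hf.smul_measure ENNReal.ofReal_ne_top).smul_measure ENNReal.ofReal_ne_top

theorem l3b_smul {μ ν : Measure ℝ} [IsFiniteMeasure μ] [IsFiniteMeasure ν]
    (f : ℝ × ℝ → ℝ) {p q : ℝ} (hp : 0 ≤ p) (hq : 0 ≤ q) :
    l3bB f (ENNReal.ofReal p • μ) (ENNReal.ofReal q • ν) = p * q * l3bB f μ ν := by
  unfold l3bB
  rw [Measure.prod_smul_left, Measure.prod_smul_right, integral_smul_measure,
    integral_smul_measure, ENNReal.toReal_ofReal hp, ENNReal.toReal_ofReal hq, smul_eq_mul,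
    smul_eq_mul]
  ring

instance l3b_fin (μ : Measure ℝ) [IsFiniteMeasure μ] (p : ℝ) :
    IsFiniteMeasure (ENNReal.ofReal p • μ) := Measure.smul_finite _ ENNReal.ofReal_ne_top

theorem l3b_r {μ ν₁ ν₂ : Measure ℝ} [IsFiniteMeasure μ] [IsFiniteMeasure ν₁] [IsFiniteMeasure ν₂]
    {f : ℝ × ℝ → ℝ} (h1 : Integrable f (μ.prod ν₁)) (h2 : Integrable f (μ.prod ν₂)) {k p q : ℝ}
    (hk : 0 ≤ k) (hp : 0 ≤ p) (hq : 0 ≤ q) :
    l3bB f (ENNReal.ofReal k • μ) (ENNReal.ofReal p • ν₁ + ENNReal.ofReal q • ν₂) =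
      k * p * l3bB f μ ν₁ + k * q * l3bB f μ ν₂ := by
  rw [← l3b_smul f hk hp, ← l3b_smul f hk hq]
  unfold l3bB
  rw [Measure.prod_add, integral_add_measure (l3b_int_smul h1 k p) (l3b_int_smul h2 k q)]

theorem l3b_l {μ ν₁ ν₂ : Measure ℝ} [IsFiniteMeasure μ] [IsFiniteMeasure ν₁] [IsFiniteMeasure ν₂]
    {f : ℝ × ℝ → ℝ} (h1 : Integrable f (ν₁.prod μ)) (h2 : Integrable f (ν₂.prod μ)) {k p q : ℝ}
    (hk : 0 ≤ k) (hp : 0 ≤ p) (hq : 0 ≤ q) :
    l3bB f (ENNReal.ofReal p • ν₁ + ENNReal.ofReal q • ν₂) (ENNReal.ofReal k • μ) =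
      p * k * l3bB f ν₁ μ + q * k * l3bB f ν₂ μ := by
  rw [← l3b_smul f hp hk, ← l3b_smul f hq hk]
  unfold l3bB
  rw [Measure.add_prod, integral_add_measure (l3b_int_smul h1 p k) (l3b_int_smul h2 q k)]

theorem l3b_4 {ν₁ ν₂ : Measure ℝ} [IsFiniteMeasure ν₁] [IsFiniteMeasure ν₂]
    {f : ℝ × ℝ → ℝ} (h11 : Integrable f (ν₁.prod ν₁)) (h12 : Integrable f (ν₁.prod ν₂))
    (h21 : Integrable f (ν₂.prod ν₁)) (h22 : Integrable f (ν₂.prod ν₂)) {p q : ℝ}
    (hp : 0 ≤ p) (hq : 0 ≤ q) :
    l3bB f (ENNReal.ofReal p • ν₁ + ENNReal.ofReal q • ν₂)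
      (ENNReal.ofReal p • ν₁ + ENNReal.ofReal q • ν₂) =
      (p * p * l3bB f ν₁ ν₁ + p * q * l3bB f ν₁ ν₂) +
        (q * p * l3bB f ν₂ ν₁ + q * q * l3bB f ν₂ ν₂) := by
  rw [← l3b_r h11 h12 hp hp hq, ← l3b_r h21 h22 hq hp hq]
  unfold l3bB
  rw [Measure.add_prod, integral_add_measure]
  · rw [Measure.prod_add]
    exact (l3b_int_smul h11 p p).add_measure (l3b_int_smul h12 p q)
  · rw [Measure.prod_add]
    exact (l3b_int_smul h21 q p).add_measure (l3b_int_smul h22 q q)

/-! ### the auxiliary measure -/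

variable {α τ : ℝ}

/-- a logarithmic kernel is integrable against bounded densities -/
theorem l3b_log_int (A : ℝ) (hA : 0 < A) :
    Integrable (fun z : ℝ × ℝ => Real.log |z.1 - z.2|)
      ((volume.restrict (Icc 0 A)).prod (volume.restrict (Icc 0 A))) := by
  have hlog : IntegrableOn (fun u : ℝ => Real.log u) (Icc (-A) A) volume := by
    have h := (intervalIntegral.intervalIntegrable_log' (a := -A) (b := A))
    rw [intervalIntegrable_iff_integrableOn_Icc_of_le (by linarith)] at h
    exact h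
  have hmeas : Measurable fun z : ℝ × ℝ => Real.log |z.1 - z.2| := by fun_prop
  rw [integrable_prod_iff hmeas.aestronglyMeasurable]
  have hpt : ∀ x ∈ Icc (0 : ℝ) A,
      IntegrableOn (fun y => Real.log |x - y|) (Icc 0 A) volume ∧
      ∫ y in Icc 0 A, ‖Real.log |x - y|‖ ≤ ∫ u in Icc (-A) A, ‖Real.log u‖ := by
    intro x hx
    have hsub : (Icc 0 A) ⊆ (fun y => x - y) ⁻¹' (Icc (-A) A) := by
      intro y hy
      exact ⟨by linarith [hx.1, hy.2], by linarith [hx.2, hy.1]⟩
    have hmp : MeasurePreserving (fun y : ℝ => x - y) volume volume :=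
      Measure.measurePreserving_sub_left volume x
    have hme : MeasurableEmbedding (fun y : ℝ => x - y) :=
      (Homeomorph.subLeft x).measurableEmbedding
    have h1 : IntegrableOn ((fun u : ℝ => Real.log u) ∘ fun y => x - y)
        ((fun y => x - y) ⁻¹' (Icc (-A) A)) volume :=
      (hmp.integrableOn_comp_preimage hme).2 hlog
    have h2 : ((fun u : ℝ => Real.log u) ∘ fun y => x - y) = fun y => Real.log |x - y| := by
      funext y
      simp
    rw [h2] at h1
    refine ⟨h1.mono_set hsub, ?_⟩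
    have h3 : ∫ y in ((fun y => x - y) ⁻¹' (Icc (-A) A)), ‖Real.log |x - y|‖ =
        ∫ u in Icc (-A) A, ‖Real.log u‖ := by
      have := hmp.setIntegral_preimage_emb hme (fun u => ‖Real.log u‖) (Icc (-A) A)
      rw [← this]
      congr 1
      funext y
      rw [Real.log_abs]
    rw [← h3]
    exact setIntegral_mono_set h1.norm (Eventually.of_forall fun y => norm_nonneg _)
      (Eventually.of_forall hsub)
  constructor
  · rw [ae_restrict_iff' measurableSet_Icc]
    exact Eventually.of_forall fun x hx => (hpt x hx).1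
  · refine Integrable.mono' (integrable_const (∫ u in Icc (-A) A, ‖Real.log u‖)) ?_ ?_
    · exact (hmeas.norm.stronglyMeasurable.integral_prod_right').aestronglyMeasurable
    · rw [ae_restrict_iff' measurableSet_Icc]
      refine Eventually.of_forall fun x hx => ?_
      rw [Real.norm_of_nonneg (integral_nonneg fun y => norm_nonneg _)]
      exact (hpt x hx).2

theorem l3b_MM {μ ν : Measure ℝ} [IsFiniteMeasure μ] [IsFiniteMeasure ν]
    (hR : Integrable (fun z : ℝ × ℝ => Rp z.1 z.2) (μ.prod ν)) (h0 : μ (Iio 0) = 0)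
    (h0' : ν (Iio 0) = 0) (hμ : Integrable (fun x => Real.log (1 + |x|)) μ)
    (hν : Integrable (fun x => Real.log (1 + |x|)) ν) :
    Integrable (fun z : ℝ × ℝ => Real.log (z.1 + z.2)) (μ.prod ν) := by
  have hmax : Integrable (fun z : ℝ × ℝ => Real.log (max (max z.1 z.2) 1)) (μ.prod ν) := by
    have hm : Measurable fun z : ℝ × ℝ => Real.log (max (max z.1 z.2) 1) := by fun_prop
    refine Integrable.mono' ((hμ.comp_fst ν).add (hν.comp_snd μ)) hm.aestronglyMeasurable ?_
    refine Eventually.of_forall fun z => ?_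
    simp only [Pi.add_apply]
    have h1 : 1 ≤ max (max z.1 z.2) 1 := le_max_right _ _
    rw [Real.norm_of_nonneg (Real.log_nonneg h1),
      ← Real.log_mul (by positivity) (by positivity)]
    apply Real.log_le_log (by positivity)
    apply max_le (max_le _ _) _
    · nlinarith [le_abs_self z.1, abs_nonneg z.1, abs_nonneg z.2,
        mul_nonneg (abs_nonneg z.1) (abs_nonneg z.2)]
    · nlinarith [le_abs_self z.2, abs_nonneg z.1, abs_nonneg z.2,
        mul_nonneg (abs_nonneg z.1) (abs_nonneg z.2)]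
    · nlinarith [abs_nonneg z.1, abs_nonneg z.2, mul_nonneg (abs_nonneg z.1) (abs_nonneg z.2)]
  refine (hR.add hmax).congr ?_
  have h1 : ∀ᵐ z : ℝ × ℝ ∂(μ.prod ν), 0 ≤ z.1 := by
    have : ∀ᵐ x ∂μ, 0 ≤ x := by
      rw [ae_iff]; convert h0 using 2; ext x; simp
    exact Measure.quasiMeasurePreserving_fst.ae this
  have h2 : ∀ᵐ z : ℝ × ℝ ∂(μ.prod ν), 0 ≤ z.2 := by
    have : ∀ᵐ x ∂ν, 0 ≤ x := by
      rw [ae_iff]; convert h0' using 2; ext x; simp
    exact Measure.quasiMeasurePreserving_snd.ae this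
  filter_upwards [h1, h2] with z hz1 hz2
  simp only [Pi.add_apply, Rp]
  have h3 : 0 < max (max z.1 z.2) 1 := lt_of_lt_of_le one_pos (le_max_right _ _)
  rcases eq_or_lt_of_le (add_nonneg hz1 hz2) with h4 | h4
  · have e1 : z.1 = 0 := by linarith
    have e2 : z.2 = 0 := by linarith
    simp [e1, e2]
  · rw [Real.log_div h4.ne' h3.ne']
    ring

theorem l3b_U3 (hτ : 0 < τ) (c : Measure ℝ) [IsFiniteMeasure c] : Integrable (U3 α τ) c := by
  have hcont := V3_continuous (α := α) hτ
  obtain ⟨B, hB⟩ : ∃ B : ℝ, ∀ x, |V3 α τ x| ≤ B := by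
    obtain ⟨B, hB⟩ := (isCompact_Icc (a := -xstar α τ) (b := xstar α τ)).exists_bound_of_continuousOn
      hcont.continuousOn
    refine ⟨max B 0, fun x => ?_⟩
    by_cases hx : α < 0 ∧ |x| < xstar α τ
    · have := hB x ⟨by linarith [neg_abs_le x, hx.2], by linarith [le_abs_self x, hx.2]⟩
      exact this.trans (le_max_left _ _)
    · have : V3 α τ x = 0 := by
        unfold V3
        rw [if_neg hx]
      rw [this, abs_zero]
      exact le_max_right _ _
  refine Integrable.mono' (integrable_const B) ?_ (Eventually.of_forall fun x => hB _)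
  exact (hcont.measurable.comp Real.continuous_sqrt.measurable).aestronglyMeasurable

/-- facts on `σ_∞` restricted to `[T, 2T]` -/
theorem l3b_sg (hτ : 0 < τ) (T : ℝ) (hT : 1 ≤ T) :
    IsFiniteMeasure ((sigI α τ).restrict (Icc T (2 * T))) ∧
    FinEn ((sigI α τ).restrict (Icc T (2 * T))) := by
  set J : Set ℝ := Icc T (2 * T) with hJ
  have hT0 : 0 < T := by linarith
  -- bounded density
  obtain ⟨C, hC0, hC⟩ := rr_bound (α := α) hτ
  set D : ℝ := τ / π * (C * (1 + √(2 * T)) ^ (1 / 3 : ℝ)) with hD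
  have hDI : ∀ t ∈ J, dI α τ t ≤ D := by
    intro t ht
    have ht1 : 1 ≤ t := hT.trans ht.1
    have hs1 : 1 ≤ √t := by
      rw [show (1 : ℝ) = √1 by simp]; exact Real.sqrt_le_sqrt ht1
    have h1 := hC (((√t : ℝ) : ℂ) * Complex.I)
    rw [norm_mul, Complex.norm_I, mul_one, Complex.norm_real,
      Real.norm_of_nonneg (Real.sqrt_nonneg t)] at h1
    have h2 : (1 + √t) ^ (1 / 3 : ℝ) ≤ (1 + √(2 * T)) ^ (1 / 3 : ℝ) := by
      apply Real.rpow_le_rpow (by positivity) _ (by norm_num)
      linarith [Real.sqrt_le_sqrt ht.2]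
    have h3 : rr α τ (((√t : ℝ) : ℂ) * Complex.I) ≤ C * (1 + √(2 * T)) ^ (1 / 3 : ℝ) :=
      h1.trans (mul_le_mul_of_nonneg_left h2 hC0.le)
    unfold dI
    rw [hD]
    have hπ : 0 < τ / π := div_pos hτ Real.pi_pos
    have h4 : τ / π * rr α τ (((√t : ℝ) : ℂ) * Complex.I) ≤
        τ / π * (C * (1 + √(2 * T)) ^ (1 / 3 : ℝ)) := mul_le_mul_of_nonneg_left h3 hπ.le
    refine (div_le_div_of_nonneg_right h4 (by positivity)).trans ?_
    apply div_le_self (by positivity)
    linarith
  have hle : (sigI α τ).restrict J ≤ ENNReal.ofReal D • volume.restrict J := by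
    rw [sigI_eq hτ, restrict_withDensity measurableSet_Icc, Measure.restrict_restrict
      measurableSet_Icc]
    have hJ0 : J ∩ Ioi 0 = J := by
      apply inter_eq_left.2
      intro t ht
      exact lt_of_lt_of_le hT0 ht.1
    rw [hJ0, ← withDensity_const]
    apply withDensity_mono
    rw [EventuallyLE, ae_restrict_iff' measurableSet_Icc]
    refine Eventually.of_forall fun t ht => ENNReal.ofReal_le_ofReal (hDI t ht)
  have hfin : IsFiniteMeasure ((sigI α τ).restrict J) := by
    refine ⟨?_⟩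
    refine lt_of_le_of_lt (hle univ) ?_
    rw [Measure.smul_apply, smul_eq_mul, Measure.restrict_apply MeasurableSet.univ, univ_inter,
      hJ, Real.volume_Icc]
    exact ENNReal.mul_lt_top ENNReal.ofReal_lt_top ENNReal.ofReal_lt_top
  refine ⟨hfin, ?_, ?_, ?_⟩
  · intro x
    have h := hle {x}
    rw [Measure.smul_apply, smul_eq_mul] at h
    have h2 : (volume.restrict J) {x} = 0 :=
      le_antisymm ((Measure.restrict_apply_le _ _).trans (by simp)) bot_le
    rw [h2, mul_zero] at h
    exact le_antisymm h bot_le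
  · have hsub : volume.restrict J ≤ volume.restrict (Icc 0 (2 * T)) :=
      Measure.restrict_mono (Icc_subset_Icc_left hT0.le) le_rfl
    have hle2 : (sigI α τ).restrict J ≤ ENNReal.ofReal D • volume.restrict (Icc 0 (2 * T)) := by
      refine hle.trans ?_
      intro s
      rw [Measure.smul_apply, Measure.smul_apply]
      exact mul_le_mul_right (hsub s) _
    have h1 := l3b_log_int (2 * T) (by linarith)
    have h2 : Integrable (fun z : ℝ × ℝ => Real.log |z.1 - z.2|)
        ((ENNReal.ofReal D • volume.restrict (Icc 0 (2 * T))).prod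
          (ENNReal.ofReal D • volume.restrict (Icc 0 (2 * T)))) := l3b_int_smul h1 D D
    exact h2.mono_measure (Measure.prod_mono hle2 hle2)
  · refine Integrable.mono' (integrable_const (Real.log (1 + 2 * T))) ?_ ?_
    · have hm : Measurable fun x : ℝ => Real.log (1 + |x|) := by fun_prop
      exact hm.aestronglyMeasurable
    · rw [ae_restrict_iff' measurableSet_Icc]
      refine Eventually.of_forall fun t ht => ?_
      have ht0 : 0 ≤ t := hT0.le.trans ht.1
      rw [abs_of_nonneg ht0, Real.norm_of_nonneg (Real.log_nonneg (by linarith))]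
      apply Real.log_le_log (by linarith)
      linarith [ht.2]

theorem l3b_Iic {μ : Measure ℝ} (h0 : μ (Iio 0) = 0) (h1 : ∀ x, μ {x} = 0) : μ (Iic 0) = 0 := by
  have h : Iic (0 : ℝ) = Iio 0 ∪ {0} := by
    ext x
    simp only [mem_Iic, mem_union, mem_Iio, mem_singleton_iff]
    exact le_iff_lt_or_eq
  rw [h]
  exact measure_union_null h0 (h1 0)

/-- density with respect to a larger measure -/
theorem l3b_density {b σ : Measure ℝ} [IsFiniteMeasure b] [SigmaFinite σ] (hb : b ≤ σ) :
    ∃ β : ℝ → ℝ, Measurable β ∧ (∀ x, 0 ≤ β x ∧ β x ≤ 1) ∧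
      b = σ.withDensity fun x => ENNReal.ofReal (β x) := by
  refine ⟨fun x => min (b.rnDeriv σ x).toReal 1, ?_, ?_, ?_⟩
  · exact (Measure.measurable_rnDeriv b σ).ennreal_toReal.min measurable_const
  · intro x
    exact ⟨le_min ENNReal.toReal_nonneg zero_le_one, min_le_right _ _⟩
  · have hac : b ≪ σ := Measure.absolutelyContinuous_of_le hb
    have h1 := Measure.withDensity_rnDeriv_eq b σ hac
    conv_lhs => rw [← h1]
    apply withDensity_congr_ae
    filter_upwards [Measure.rnDeriv_le_one_of_le hb] with x hx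
    simp only [Pi.one_apply] at hx
    have hne : b.rnDeriv σ x ≠ ⊤ := ne_top_of_le_ne_top ENNReal.one_ne_top hx
    have h2 : (b.rnDeriv σ x).toReal ≤ 1 := by
      have := ENNReal.toReal_mono ENNReal.one_ne_top hx
      simpa using this
    rw [min_eq_left h2, ENNReal.ofReal_toReal hne]

/-- a restricted and rescaled density -/
theorem l3b_dens_a {a : Measure ℝ} {ra : ℝ → ℝ} (mra : Measurable ra)
    (ha : a = (volume.restrict (Ioi (0 : ℝ))).withDensity fun x => ENNReal.ofReal (ra x))
    {I : Set ℝ} (hI : MeasurableSet I) (hI0 : I ⊆ Ioi 0) {k : ℝ} (hk : 0 ≤ k) :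
    ENNReal.ofReal k • a.restrict I =
      volume.withDensity fun x => ENNReal.ofReal (I.indicator (fun x => k * ra x) x) := by
  rw [ha, restrict_withDensity hI, Measure.restrict_restrict hI, inter_eq_left.2 hI0,
    ← withDensity_smul _ mra.ennreal_ofReal, ← withDensity_indicator hI]
  congr 1
  funext x
  by_cases hx : x ∈ I
  · simp only [indicator_of_mem hx, Pi.smul_apply, smul_eq_mul]
    rw [ENNReal.ofReal_mul hk]
  · simp only [indicator_of_notMem hx, ENNReal.ofReal_zero]

theorem l3b_dens_b {b σ : Measure ℝ} {β : ℝ → ℝ} (mβ : Measurable β) (hβ : ∀ x, 0 ≤ β x ∧ β x ≤ 1)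
    (hb : b = σ.withDensity fun x => ENNReal.ofReal (β x))
    {I J : Set ℝ} (hI : MeasurableSet I) (hJ : MeasurableSet J) (hJI : J ⊆ I) {p s : ℝ}
    (hp : 0 ≤ p) (hs : 0 ≤ s) :
    ENNReal.ofReal p • b.restrict I + ENNReal.ofReal s • (σ.restrict J).restrict I =
      σ.withDensity fun x => ENNReal.ofReal (I.indicator (fun x => p * β x) x +
        J.indicator (fun _ => s) x) := by
  have e1 : ENNReal.ofReal p • b.restrict I =
      σ.withDensity fun x => ENNReal.ofReal (I.indicator (fun x => p * β x) x) := by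
    rw [hb, restrict_withDensity hI, ← withDensity_smul _ mβ.ennreal_ofReal,
      ← withDensity_indicator hI]
    congr 1
    funext x
    by_cases hx : x ∈ I
    · simp only [indicator_of_mem hx, Pi.smul_apply, smul_eq_mul]
      rw [ENNReal.ofReal_mul hp]
    · simp only [indicator_of_notMem hx, ENNReal.ofReal_zero]
  have e2 : ENNReal.ofReal s • (σ.restrict J).restrict I =
      σ.withDensity fun x => ENNReal.ofReal (J.indicator (fun _ => s) x) := by
    rw [Measure.restrict_restrict hI, inter_eq_right.2 hJI, ← withDensity_const,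
      ← withDensity_indicator hJ]
    congr 1
    funext x
    by_cases hx : x ∈ J
    · simp only [indicator_of_mem hx]
    · simp only [indicator_of_notMem hx, ENNReal.ofReal_zero]
  have m1 : Measurable fun x => ENNReal.ofReal (I.indicator (fun x => p * β x) x) :=
    (Measurable.indicator (by fun_prop) hI).ennreal_ofReal
  rw [e1, e2, ← withDensity_add_left m1]
  congr 1
  funext x
  simp only [Pi.add_apply]
  rw [ENNReal.ofReal_add]
  · exact indicator_nonneg (fun x _ => mul_nonneg hp (hβ x).1) x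
  · exact indicator_nonneg (fun x _ => hs) x

theorem l3b_core (hτ : 0 < τ) {V : ℝ → ℝ} {a b c : Measure ℝ}
    (h : AdmJ α τ V a b c) (K : ℝ) (ra rc : ℝ → ℝ) (mra : Measurable ra) (mrc : Measurable rc)
    (hK : ∀ x, 0 < x → 0 ≤ ra x ∧ ra x ≤ K / x ∧ 0 ≤ rc x ∧ rc x ≤ K / x)
    (ha : a = (volume.restrict (Ioi (0 : ℝ))).withDensity fun x => ENNReal.ofReal (ra x))
    (hc : c = (volume.restrict (Ioi (0 : ℝ))).withDensity fun x => ENNReal.ofReal (rc x))
    (δ : ℝ) (hδ : 0 < δ) :
    ∃ (a' b' c' : Measure ℝ) (lo hi K η : ℝ) (ra rc θ : ℝ → ℝ),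
      Nice α τ a' b' c' lo hi K η ra rc θ ∧ JJ α τ V a' b' c' ≤ JJ α τ V a b c + δ := by
  have fa : IsFiniteMeasure a := ⟨by rw [h.massa]; exact ENNReal.div_lt_top (by simp) (by simp)⟩
  have fb : IsFiniteMeasure b := ⟨by rw [h.massb]; exact ENNReal.div_lt_top (by simp) (by simp)⟩
  have fc : IsFiniteMeasure c := ⟨by rw [h.massc]; exact ENNReal.div_lt_top (by simp) (by simp)⟩
  have a0 := l3b_Iic h.suppa h.ena.noAtom
  have b0 := l3b_Iic h.suppb h.enb.noAtom
  have c0 := l3b_Iic h.suppc h.enc.noAtom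
  have ra_univ : a.real univ = 1 / 2 := by rw [measureReal_def, h.massa]; simp
  have rb_univ : b.real univ = 1 / 3 := by rw [measureReal_def, h.massb]; simp
  have rc_univ : c.real univ = 1 / 6 := by rw [measureReal_def, h.massc]; simp
  -- the interval `[T, 2T]`
  obtain ⟨T, hT1, hTbig⟩ : ∃ T : ℝ, 1 ≤ T ∧ 1 < sigI α τ (Icc T (2 * T)) := by
    have h1 := (sigI_big (α := α) hτ).eventually (lt_mem_nhds (ENNReal.one_lt_top))
    obtain ⟨T, h2, h3⟩ := (h1.and (eventually_ge_atTop (1 : ℝ))).exists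
    exact ⟨T, h3, h2⟩
  have hT0 : 0 < T := by linarith
  obtain ⟨fs, es⟩ := l3b_sg (α := α) hτ T hT1
  set J : Set ℝ := Icc T (2 * T) with hJ
  set sg : Measure ℝ := (sigI α τ).restrict J with hsg
  have hsgle : sg ≤ sigI α τ := Measure.restrict_le_self
  have s0 : sg (Iic 0) = 0 := by
    rw [hsg, Measure.restrict_apply measurableSet_Iic]
    have : Iic 0 ∩ J = ∅ := by
      ext x
      simp only [hJ, mem_inter_iff, mem_Iic, mem_Icc, mem_empty_iff_false, iff_false, not_and]
      intro h1 h2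
      linarith
    rw [this, measure_empty]
  have s0' : sg (Iio 0) = 0 := measure_mono_null Iio_subset_Iic_self s0
  set S : ℝ := sg.real univ with hS
  have hSu : sg univ = sigI α τ J := by
    rw [hsg, Measure.restrict_apply MeasurableSet.univ, univ_inter]
  have hS1 : 1 ≤ S := by
    rw [hS, measureReal_def]
    have := ENNReal.toReal_mono (measure_ne_top sg univ) (show (1 : ℝ≥0∞) ≤ sg univ by
      rw [hSu]; exact hTbig.le)
    simpa using this
  -- integrability
  set fL : ℝ × ℝ → ℝ := fun z => -Real.log |z.1 - z.2| with hfL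
  set fM : ℝ × ℝ → ℝ := fun z => Real.log (z.1 + z.2) with hfM
  have iaa : Integrable fL (a.prod a) := h.ena.energy.neg
  have ibb : Integrable fL (b.prod b) := h.enb.energy.neg
  have icc : Integrable fL (c.prod c) := h.enc.energy.neg
  have ibs : Integrable fL (b.prod sg) := (cross_integrable b sg h.enb es).neg
  have isb : Integrable fL (sg.prod b) := (cross_integrable sg b es h.enb).neg
  have iss : Integrable fL (sg.prod sg) := es.energy.neg
  have mab : Integrable fM (a.prod b) :=
    l3b_MM (Rp_integrable hτ a b h.constr h.suppa h.suppb).1 h.suppa h.suppb h.ena.logMoment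
      h.enb.logMoment
  have mas : Integrable fM (a.prod sg) :=
    l3b_MM (Rp_integrable hτ a sg hsgle h.suppa s0').1 h.suppa s0' h.ena.logMoment
      es.logMoment
  have mbc : Integrable fM (b.prod c) :=
    l3b_MM (Rp_integrable hτ c b h.constr h.suppc h.suppb).2 h.suppb h.suppc h.enb.logMoment
      h.enc.logMoment
  have msc : Integrable fM (sg.prod c) :=
    l3b_MM (Rp_integrable hτ c sg hsgle h.suppc s0').2 s0' h.suppc es.logMoment
      h.enc.logMoment
  have iU1 : Integrable (U1 α τ V) a := h.pot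
  have iU3 : Integrable (U3 α τ) c := l3b_U3 hτ c
  -- the exhausting intervals
  set I : ℕ → Set ℝ := fun n => Icc (1 / ((n : ℝ) + 2)) ((n : ℝ) + 2 + 2 * T) with hI
  have hIm : ∀ n, MeasurableSet (I n) := fun n => measurableSet_Icc
  have hmono : Monotone I := by
    intro m n hmn
    have h1 : (m : ℝ) ≤ n := by exact_mod_cast hmn
    apply Icc_subset_Icc
    · apply one_div_le_one_div_of_le (by positivity)
      linarith
    · linarith
  have hI0 : ∀ n, I n ⊆ Ioi 0 := by
    intro n x hx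
    have : (0 : ℝ) < 1 / ((n : ℝ) + 2) := by positivity
    exact lt_of_lt_of_le this hx.1
  have hU : ⋃ n, I n = Ioi 0 := by
    apply Subset.antisymm
    · exact iUnion_subset hI0
    · intro x hx
      have hx0 : 0 < x := hx
      obtain ⟨n, hn⟩ := exists_nat_ge (max x (1 / x))
      refine mem_iUnion.2 ⟨n, ?_, ?_⟩
      · have h1 : 1 / x ≤ n := (le_max_right _ _).trans hn
        rw [div_le_iff₀ hx0] at h1
        rw [div_le_iff₀ (by positivity)]
        nlinarith
      · have h1 : x ≤ n := (le_max_left _ _).trans hn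
        linarith
  have hJI : ∀ n, J ⊆ I n := by
    intro n
    apply Icc_subset_Icc
    · rw [div_le_iff₀ (by positivity)]
      have : (0 : ℝ) ≤ n := by positivity
      nlinarith
    · have : (0 : ℝ) ≤ n := by positivity
      linarith
  -- masses
  have lim_mass : ∀ (μ : Measure ℝ) [IsFiniteMeasure μ], μ (Iic 0) = 0 →
      Tendsto (fun n => μ.real (I n)) atTop (𝓝 (μ.real univ)) := by
    intro μ _ h0
    have := l3b_lim1 h0 hIm hmono hU (integrable_const (1 : ℝ))
    simpa using this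
  have hα := lim_mass a a0
  have hβ := lim_mass b b0
  have hγ := lim_mass c c0
  rw [ra_univ] at hα
  rw [rb_univ] at hβ
  rw [rc_univ] at hγ
  set k : ℕ → ℝ := fun n => 1 / 2 / a.real (I n) with hk
  set l : ℕ → ℝ := fun n => 1 / 6 / c.real (I n) with hl
  set η : ℕ → ℝ := fun n => (1 - 3 * b.real (I n)) + 1 / ((n : ℝ) + 2) with hη
  set p : ℕ → ℝ := fun n => 1 - 2 * η n with hp
  set s : ℕ → ℝ := fun n => (1 / 3 - p n * b.real (I n)) / S with hs
  have limk : Tendsto k atTop (𝓝 1) := by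
    have := (tendsto_const_nhds (x := (1 / 2 : ℝ))).div hα (by norm_num)
    rwa [div_self (by norm_num : (1 / 2 : ℝ) ≠ 0)] at this
  have liml : Tendsto l atTop (𝓝 1) := by
    have := (tendsto_const_nhds (x := (1 / 6 : ℝ))).div hγ (by norm_num)
    rwa [div_self (by norm_num : (1 / 6 : ℝ) ≠ 0)] at this
  have limη : Tendsto η atTop (𝓝 0) := by
    have h1 : Tendsto (fun n : ℕ => 1 / ((n : ℝ) + 2)) atTop (𝓝 0) := by
      have := (tendsto_atTop_add_const_right atTop (2 : ℝ)
        (tendsto_natCast_atTop_atTop (R := ℝ))).inv_tendsto_atTop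
      refine this.congr fun n => ?_
      rw [Pi.inv_apply, one_div]
    have h2 := ((tendsto_const_nhds (x := (1 : ℝ))).sub (hβ.const_mul 3)).add h1
    rwa [show (1 - 3 * (1 / 3) + 0 : ℝ) = 0 by norm_num] at h2
  have limp : Tendsto p atTop (𝓝 1) := by
    have := (tendsto_const_nhds (x := (1 : ℝ))).sub (limη.const_mul 2)
    simpa using this
  have lims : Tendsto s atTop (𝓝 0) := by
    have := ((tendsto_const_nhds (x := (1 / 3 : ℝ))).sub (limp.mul hβ)).div_const S
    rwa [show (1 / 3 - 1 * (1 / 3) : ℝ) / S = 0 by norm_num] at this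
  have hβle : ∀ n, b.real (I n) ≤ 1 / 3 := fun n => by
    rw [← rb_univ]; exact measureReal_mono (subset_univ _)
  have hβ0 : ∀ n, 0 ≤ b.real (I n) := fun n => measureReal_nonneg
  have hη0 : ∀ n, 0 < η n := by
    intro n
    have h1 := hβle n
    have h2 : (0 : ℝ) < 1 / ((n : ℝ) + 2) := by positivity
    simp only [hη]
    linarith
  -- the limit of the energies
  have B2 : ∀ (f : ℝ × ℝ → ℝ) (μ ν : Measure ℝ) [IsFiniteMeasure μ] [IsFiniteMeasure ν],
      μ (Iic 0) = 0 → ν (Iic 0) = 0 → Integrable f (μ.prod ν) →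
      Tendsto (fun n => l3bB f (μ.restrict (I n)) (ν.restrict (I n))) atTop
        (𝓝 (l3bB f μ ν)) := fun f μ ν _ _ h1 h2 h3 => l3b_lim2 h1 h2 hIm hmono hU h3
  set E : ℕ → ℝ := fun n =>
    k n * k n * l3bB fL (a.restrict (I n)) (a.restrict (I n)) +
    ((p n * p n * l3bB fL (b.restrict (I n)) (b.restrict (I n)) +
      p n * s n * l3bB fL (b.restrict (I n)) (sg.restrict (I n))) +
      (s n * p n * l3bB fL (sg.restrict (I n)) (b.restrict (I n)) +
      s n * s n * l3bB fL (sg.restrict (I n)) (sg.restrict (I n)))) +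
    l n * l n * l3bB fL (c.restrict (I n)) (c.restrict (I n)) +
    (k n * p n * l3bB fM (a.restrict (I n)) (b.restrict (I n)) +
      k n * s n * l3bB fM (a.restrict (I n)) (sg.restrict (I n))) +
    (p n * l n * l3bB fM (b.restrict (I n)) (c.restrict (I n)) +
      s n * l n * l3bB fM (sg.restrict (I n)) (c.restrict (I n))) +
    k n * ∫ x, U1 α τ V x ∂(a.restrict (I n)) + l n * ∫ x, U3 α τ x ∂(c.restrict (I n)) with hE
  have limE : Tendsto E atTop (𝓝 (JJ α τ V a b c)) := by
    have hh := (((((((limk.mul limk).mul (B2 fL a a a0 a0 iaa)).add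
      ((((limp.mul limp).mul (B2 fL b b b0 b0 ibb)).add
        ((limp.mul lims).mul (B2 fL b sg b0 s0 ibs))).add
        (((lims.mul limp).mul (B2 fL sg b s0 b0 isb)).add
        ((lims.mul lims).mul (B2 fL sg sg s0 s0 iss))))).add
      ((liml.mul liml).mul (B2 fL c c c0 c0 icc))).add
      (((limk.mul limp).mul (B2 fM a b a0 b0 mab)).add
        ((limk.mul lims).mul (B2 fM a sg a0 s0 mas)))).add
      (((limp.mul liml).mul (B2 fM b c b0 c0 mbc)).add
        ((lims.mul liml).mul (B2 fM sg c s0 c0 msc)))).add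
      (limk.mul (l3b_lim1 a0 hIm hmono hU iU1))).add
      (liml.mul (l3b_lim1 c0 hIm hmono hU iU3))
    convert hh using 2
    unfold JJ LL MM
    simp only [l3bB]
    ring
  -- choose `n`
  have ev1 : ∀ᶠ n in atTop, 0 < a.real (I n) := hα.eventually (lt_mem_nhds (by norm_num))
  have ev2 : ∀ᶠ n in atTop, 0 < c.real (I n) := hγ.eventually (lt_mem_nhds (by norm_num))
  have ev3 : ∀ᶠ n in atTop, η n < 1 / 2 := limη.eventually (gt_mem_nhds (by norm_num))
  have ev4 : ∀ᶠ n in atTop, E n < JJ α τ V a b c + δ :=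
    limE.eventually (gt_mem_nhds (by linarith))
  obtain ⟨n, h1, h2, h3, h4⟩ := (ev1.and (ev2.and (ev3.and ev4))).exists
  have hk0 : 0 ≤ k n := by simp only [hk]; positivity
  have hl0 : 0 ≤ l n := by simp only [hl]; positivity
  have hp0 : 0 ≤ p n := by simp only [hp]; linarith
  have hp1 : p n ≤ 1 := by simp only [hp]; linarith [hη0 n]
  have hs0 : 0 ≤ s n := by
    simp only [hs]
    apply div_nonneg _ (by linarith)
    nlinarith [hβle n, hβ0 n]
  have hsη : s n ≤ η n := by
    simp only [hs]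
    rw [div_le_iff₀ (by linarith)]
    have e1 : 1 / 3 - p n * b.real (I n) ≤ η n := by
      have e2 : (1 / 3 - b.real (I n)) ≤ η n / 3 := by
        have : (0 : ℝ) < 1 / ((n : ℝ) + 2) := by positivity
        simp only [hη]
        linarith
      have e3 : 2 * η n * b.real (I n) ≤ 2 * η n * (1 / 3) :=
        mul_le_mul_of_nonneg_left (hβle n) (by linarith [hη0 n])
      simp only [hp]
      linarith
    calc 1 / 3 - p n * b.real (I n) ≤ η n := e1
      _ = η n * 1 := by ring
      _ ≤ η n * S := mul_le_mul_of_nonneg_left hS1 (hη0 n).le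
  have hσfin : SigmaFinite (sigI α τ) := by
    rw [sigI_eq hτ]; infer_instance
  obtain ⟨β, mβ, bβ, hbβ⟩ := l3b_density h.constr
  refine ⟨ENNReal.ofReal (k n) • a.restrict (I n),
    ENNReal.ofReal (p n) • b.restrict (I n) + ENNReal.ofReal (s n) • sg.restrict (I n),
    ENNReal.ofReal (l n) • c.restrict (I n), 1 / ((n : ℝ) + 2), (n : ℝ) + 2 + 2 * T,
    (k n + l n) * (|K| * ((n : ℝ) + 2)), η n, fun x => (I n).indicator (fun x => k n * ra x) x,
    fun x => (I n).indicator (fun x => l n * rc x) x,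
    fun x => (I n).indicator (fun x => p n * β x) x + J.indicator (fun _ => s n) x, ?_, ?_⟩
  · have hn2 : (0 : ℝ) < (n : ℝ) + 2 := by positivity
    have hKx : ∀ x ∈ I n, K / x ≤ |K| * ((n : ℝ) + 2) := by
      intro x hx
      have hx0 : 0 < x := hI0 n hx
      have e1 : 1 / x ≤ (n : ℝ) + 2 := by
        have := hx.1
        rw [div_le_iff₀ hn2] at this
        rw [div_le_iff₀ hx0]
        linarith
      calc K / x ≤ |K| / x := div_le_div_of_nonneg_right (le_abs_self K) hx0.le
        _ = |K| * (1 / x) := by ring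
        _ ≤ |K| * ((n : ℝ) + 2) := mul_le_mul_of_nonneg_left e1 (abs_nonneg K)
    have hKn : 0 ≤ |K| * ((n : ℝ) + 2) := by positivity
    refine ⟨by positivity, ?_, hη0 n, by linarith, ?_, ?_, ?_, ?_, ?_, ?_, ?_, ?_, ?_, ?_, ?_,
      ?_, ?_⟩
    · rw [div_lt_iff₀ hn2]
      have : (0 : ℝ) ≤ n := by positivity
      nlinarith
    · exact Measurable.indicator (mra.const_mul _) (hIm n)
    · exact Measurable.indicator (mrc.const_mul _) (hIm n)
    · exact (Measurable.indicator (mβ.const_mul _) (hIm n)).add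
        (Measurable.indicator measurable_const measurableSet_Icc)
    · intro x
      by_cases hx : x ∈ I n
      · simp only [indicator_of_mem hx]
        have hx0 : 0 < x := hI0 n hx
        have hr := hK x hx0
        refine ⟨mul_nonneg hk0 hr.1, ?_⟩
        have e1 := hr.2.1.trans (hKx x hx)
        calc k n * ra x ≤ k n * (|K| * ((n : ℝ) + 2)) := mul_le_mul_of_nonneg_left e1 hk0
          _ ≤ (k n + l n) * (|K| * ((n : ℝ) + 2)) :=
            mul_le_mul_of_nonneg_right (by linarith) hKn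
      · simp only [indicator_of_notMem hx]
        exact ⟨le_rfl, mul_nonneg (by linarith) hKn⟩
    · intro x
      by_cases hx : x ∈ I n
      · simp only [indicator_of_mem hx]
        have hx0 : 0 < x := hI0 n hx
        have hr := hK x hx0
        refine ⟨mul_nonneg hl0 hr.2.2.1, ?_⟩
        have e1 := hr.2.2.2.trans (hKx x hx)
        calc l n * rc x ≤ l n * (|K| * ((n : ℝ) + 2)) := mul_le_mul_of_nonneg_left e1 hl0
          _ ≤ (k n + l n) * (|K| * ((n : ℝ) + 2)) :=
            mul_le_mul_of_nonneg_right (by linarith) hKn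
      · simp only [indicator_of_notMem hx]
        exact ⟨le_rfl, mul_nonneg (by linarith) hKn⟩
    · intro x
      have e1 : 0 ≤ (I n).indicator (fun x => p n * β x) x :=
        indicator_nonneg (fun x _ => mul_nonneg hp0 (bβ x).1) x
      have e2 : 0 ≤ J.indicator (fun _ => s n) x := indicator_nonneg (fun x _ => hs0) x
      have e3 : (I n).indicator (fun x => p n * β x) x ≤ p n := by
        apply indicator_le' (fun x _ => _) (fun x _ => hp0)
        intro y _
        exact mul_le_of_le_one_right hp0 (bβ y).2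
      have e4 : J.indicator (fun _ => s n) x ≤ s n := by
        apply indicator_le' (fun x _ => le_rfl) (fun x _ => hs0)
      refine ⟨by linarith, ?_⟩
      have e5 : p n + s n ≤ 1 - η n := by
        simp only [hp]
        linarith
      linarith
    · intro x hx
      have hxI : x ∉ I n := hx
      have hxJ : x ∉ J := fun h => hxI (hJI n h)
      simp only [indicator_of_notMem hxI, indicator_of_notMem hxJ, add_zero, and_self]
    · exact l3b_dens_a mra ha (hIm n) (hI0 n) hk0
    · exact l3b_dens_a mrc hc (hIm n) (hI0 n) hl0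
    · exact l3b_dens_b mβ bβ hbβ (hIm n) measurableSet_Icc (hJI n) hp0 hs0
    · rw [Measure.smul_apply, smul_eq_mul, Measure.restrict_apply MeasurableSet.univ, univ_inter]
      rw [← ENNReal.ofReal_toReal (measure_ne_top a (I n)), ← ENNReal.ofReal_mul hk0]
      have : k n * (a (I n)).toReal = 1 / 2 := by
        simp only [hk]
        rw [measureReal_def] at h1 ⊢
        field_simp
      rw [this, ENNReal.ofReal_div_of_pos (by norm_num)]
      simp
    · rw [Measure.add_apply, Measure.smul_apply, smul_eq_mul, Measure.smul_apply, smul_eq_mul,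
        Measure.restrict_apply MeasurableSet.univ, Measure.restrict_apply MeasurableSet.univ,
        univ_inter]
      have hsI : sg (I n) = sg univ := by
        rw [hSu, hsg, Measure.restrict_apply (hIm n), inter_eq_right.2 (hJI n)]
      rw [hsI, ← ENNReal.ofReal_toReal (measure_ne_top b (I n)),
        ← ENNReal.ofReal_toReal (measure_ne_top sg univ), ← ENNReal.ofReal_mul hp0,
        ← ENNReal.ofReal_mul hs0, ← ENNReal.ofReal_add (by positivity) (by positivity)]
      have : p n * (b (I n)).toReal + s n * (sg univ).toReal = 1 / 3 := by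
        simp only [hs]
        rw [hS, measureReal_def, measureReal_def] at *
        have hne : (sg univ).toReal ≠ 0 := by linarith
        field_simp
        ring
      rw [this, ENNReal.ofReal_div_of_pos (by norm_num)]
      simp
    · rw [Measure.smul_apply, smul_eq_mul, Measure.restrict_apply MeasurableSet.univ, univ_inter]
      rw [← ENNReal.ofReal_toReal (measure_ne_top c (I n)), ← ENNReal.ofReal_mul hl0]
      have : l n * (c (I n)).toReal = 1 / 6 := by
        simp only [hl]
        rw [measureReal_def] at h2 ⊢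
        field_simp
      rw [this, ENNReal.ofReal_div_of_pos (by norm_num)]
      simp
  · refine le_trans (le_of_eq ?_) h4.le
    have q1 := l3b_smul (μ := a.restrict (I n)) (ν := a.restrict (I n)) fL hk0 hk0
    have q2 := l3b_4 (ν₁ := b.restrict (I n)) (ν₂ := sg.restrict (I n))
      (l3b_int_restrict ibb (I n)) (l3b_int_restrict ibs (I n)) (l3b_int_restrict isb (I n))
      (l3b_int_restrict iss (I n)) hp0 hs0
    have q3 := l3b_smul (μ := c.restrict (I n)) (ν := c.restrict (I n)) fL hl0 hl0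
    have q4 := l3b_r (μ := a.restrict (I n)) (ν₁ := b.restrict (I n)) (ν₂ := sg.restrict (I n))
      (l3b_int_restrict mab (I n)) (l3b_int_restrict mas (I n)) hk0 hp0 hs0
    have q5 := l3b_l (μ := c.restrict (I n)) (ν₁ := b.restrict (I n)) (ν₂ := sg.restrict (I n))
      (l3b_int_restrict mbc (I n)) (l3b_int_restrict msc (I n)) hl0 hp0 hs0
    have q6 : ∫ x, U1 α τ V x ∂(ENNReal.ofReal (k n) • a.restrict (I n)) =
        k n * ∫ x, U1 α τ V x ∂(a.restrict (I n)) := by
      rw [integral_smul_measure, ENNReal.toReal_ofReal hk0, smul_eq_mul]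
    have q7 : ∫ x, U3 α τ x ∂(ENNReal.ofReal (l n) • c.restrict (I n)) =
        l n * ∫ x, U3 α τ x ∂(c.restrict (I n)) := by
      rw [integral_smul_measure, ENNReal.toReal_ofReal hl0, smul_eq_mul]
    simp only [hE]
    rw [← q1, ← q2, ← q3, ← q4, ← q5, ← q6, ← q7]
    rfl

theorem exists_nice {α τ : ℝ} (hτ : 0 < τ) {V : ℝ → ℝ} (hV : Pot V)
    (hdbl : ∃ C : ℝ, ∀ s ∈ Icc (1 : ℝ) 2, ∀ x, |V (s * x)| ≤ C * (1 + |V x|))
    {a b c : Measure ℝ} (h : AdmJ α τ V a b c) (δ : ℝ) (hδ : 0 < δ) :
    ∃ (a' b' c' : Measure ℝ) (lo hi K η : ℝ) (ra rc θ : ℝ → ℝ),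
      Nice α τ a' b' c' lo hi K η ra rc θ ∧ JJ α τ V a' b' c' ≤ JJ α τ V a b c + δ := by
  obtain ⟨a', b', c', h', hJ, K, ra, rc, mra, mrc, hK, ha, hc⟩ :=
    smear hτ hV hdbl h (δ / 2) (by linarith)
  obtain ⟨a'', b'', c'', lo, hi, K', η, ra', rc', θ, hN, hJ'⟩ :=
    l3b_core hτ h' K ra rc mra mrc hK ha hc (δ / 2) (by linarith)
  exact ⟨a'', b'', c'', lo, hi, K', η, ra', rc', θ, hN, by linarith⟩

end

end Pool.Agent.MP_941b23_mp
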