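import Pool.Agent.MP_941b23_mp.Defs2

/-!
# [P7a] vague compactness
-/

namespace Pool.Agent.MP_941b23_mp

open MeasureTheory Set Filter Topology
open scoped ENNReal NNReal Real

noncomputable section

theorem p7a_core (μ : ℕ → Measure ℝ≥0∞) (hfin : ∀ j, IsFiniteMeasure (μ j)) (M : ℝ) (hM : 0 ≤ M)
    (hm : Tendsto (fun j => (μ j).real univ) atTop (𝓝 M)) :
    ∃ φ : ℕ → ℕ, StrictMono φ ∧ ∃ P : Measure ℝ≥0∞, IsFiniteMeasure P ∧ P.real univ = M ∧
      (∀ f : ℝ≥0∞ → ℝ, Continuous f →
        Tendsto (fun j => ∫ x, f x ∂(μ (φ j))) atTop (𝓝 (∫ x, f x ∂P))) ∧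
      ∀ E : Set ℝ≥0∞, P (frontier E) = 0 →
        Tendsto (fun j => (μ (φ j)).real E) atTop (𝓝 (P.real E)) := by
  rcases hM.eq_or_lt with h0 | hpos
  · -- the masses tend to zero
    subst h0
    refine ⟨id, strictMono_id, 0, inferInstance, by simp, ?_, ?_⟩
    · intro f hf
      obtain ⟨C, hC⟩ := isCompact_univ.exists_bound_of_continuousOn hf.continuousOn
      rw [integral_zero_measure]
      refine squeeze_zero_norm (a := fun j => C * (μ j).real univ) (fun j => ?_) ?_
      · have := hfin j
        exact norm_integral_le_of_norm_le_const (ae_of_all _ fun x => hC x (mem_univ x))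
      · have := hm.const_mul C
        rwa [mul_zero] at this
    · intro E _
      have h1 : (0 : Measure ℝ≥0∞).real E = 0 := by simp
      rw [h1]
      refine squeeze_zero (fun j => measureReal_nonneg) (fun j => ?_) hm
      have := hfin j
      exact measureReal_mono (subset_univ _)
  · set F : ℕ → FiniteMeasure ℝ≥0∞ := fun j => ⟨μ j, hfin j⟩ with hF
    obtain ⟨Q, φ, hφ, hQ⟩ := CompactSpace.tendsto_subseq (fun j => (F j).normalize)
    have hmass : ∀ j, ((F j).mass : ℝ) = (μ j).real univ := fun j => rfl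
    have hdec : ∀ j, μ j = (F j).mass • ((F j).normalize : Measure ℝ≥0∞) := by
      intro j
      have h := (F j).self_eq_mass_smul_normalize
      have h1 := congrArg (fun G : FiniteMeasure ℝ≥0∞ => (G : Measure ℝ≥0∞)) h
      exact h1
    have hmφ : Tendsto (fun j => ((F (φ j)).mass : ℝ)) atTop (𝓝 M) := by
      simp_rw [hmass]
      exact hm.comp hφ.tendsto_atTop
    refine ⟨φ, hφ, ENNReal.ofReal M • (Q : Measure ℝ≥0∞), ?_, ?_, ?_, ?_⟩
    · exact ⟨by simp [ENNReal.mul_lt_top_iff]⟩
    · simp [Measure.real, ENNReal.toReal_mul, ENNReal.toReal_ofReal hM]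
    · intro f hf
      have h1 : ∀ j, ∫ x, f x ∂(μ (φ j)) =
          ((F (φ j)).mass : ℝ) * ∫ x, f x ∂((F (φ j)).normalize : Measure ℝ≥0∞) := by
        intro j
        conv_lhs => rw [hdec (φ j)]
        rw [integral_smul_nnreal_measure]
        rfl
      have h2 : ∫ x, f x ∂(ENNReal.ofReal M • (Q : Measure ℝ≥0∞)) =
          M * ∫ x, f x ∂(Q : Measure ℝ≥0∞) := by
        rw [integral_smul_measure, ENNReal.toReal_ofReal hM]
        rfl
      rw [h2]
      simp_rw [h1]
      refine hmφ.mul ?_
      have h3 := (ProbabilityMeasure.tendsto_iff_forall_integral_tendsto.1 hQ)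
        (BoundedContinuousFunction.mkOfCompact ⟨f, hf⟩)
      simpa using h3
    · intro E hE
      have hE' : (Q : Measure ℝ≥0∞) (frontier E) = 0 := by
        rw [Measure.smul_apply, smul_eq_mul, mul_eq_zero] at hE
        rcases hE with h | h
        · exact absurd (ENNReal.ofReal_eq_zero.1 h) (not_le.2 hpos)
        · exact h
      have h3 := ProbabilityMeasure.tendsto_measure_of_null_frontier_of_tendsto' hQ hE'
      have h4 : Tendsto (fun j => ((F (φ j)).normalize : Measure ℝ≥0∞).real E) atTop
          (𝓝 ((Q : Measure ℝ≥0∞).real E)) :=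
        (ENNReal.tendsto_toReal (measure_ne_top _ _)).comp h3
      have h5 : ∀ j, (μ (φ j)).real E =
          ((F (φ j)).mass : ℝ) * ((F (φ j)).normalize : Measure ℝ≥0∞).real E := by
        intro j
        conv_lhs => rw [hdec (φ j)]
        rw [Measure.real, Measure.real, Measure.smul_apply, ENNReal.smul_def, smul_eq_mul,
          ENNReal.toReal_mul]
        rfl
      have h6 : (ENNReal.ofReal M • (Q : Measure ℝ≥0∞)).real E = M * (Q : Measure ℝ≥0∞).real E := by
        simp [Measure.real, ENNReal.toReal_mul, ENNReal.toReal_ofReal hM]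
      rw [h6]
      simp_rw [h5]
      exact hmφ.mul h4

/-- vague compactness on `[0,∞)`, with convergence of tails -/
theorem exists_vague (μ : ℕ → Measure ℝ) (h0 : ∀ j, μ j (Iio 0) = 0) (M : ℝ) (hM : 0 ≤ M)
    (hfin : ∀ j, IsFiniteMeasure (μ j)) (hm : Tendsto (fun j => (μ j).real univ) atTop (𝓝 M)) :
    ∃ (φ : ℕ → ℕ) (ν : Measure ℝ), StrictMono φ ∧ IsFiniteMeasure ν ∧ ν (Iio 0) = 0 ∧
      ν.real univ ≤ M ∧
      (∀ g : ℝ → ℝ, Continuous g → HasCompactSupport g →
        Tendsto (fun j => ∫ x, g x ∂(μ (φ j))) atTop (𝓝 (∫ x, g x ∂ν))) ∧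
      ∀ᵐ u : ℝ, Tendsto (fun j => tl (μ (φ j)) u) atTop (𝓝 (M - ν.real (Iic u))) := by
  have hmo : Measurable ENNReal.ofReal := ENNReal.measurable_ofReal
  have hmt : Measurable ENNReal.toReal := ENNReal.measurable_toReal
  obtain ⟨φ, hφ, P, hP, hPM, hint, hfr⟩ := p7a_core (fun j => (μ j).map ENNReal.ofReal)
    (fun j => by have := hfin j; exact Measure.isFiniteMeasure_map _ _) M hM (by
      refine hm.congr fun j => ?_
      rw [map_measureReal_apply hmo MeasurableSet.univ, preimage_univ])
  have hpos : ∀ j, ∀ᵐ x ∂(μ j), 0 ≤ x := by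
    intro j
    have : μ j {x | ¬ 0 ≤ x} = 0 := by
      have h : {x : ℝ | ¬ 0 ≤ x} = Iio 0 := by ext x; simp
      rw [h]; exact h0 j
    exact this
  set ν : Measure ℝ := (P.restrict {⊤}ᶜ).map ENNReal.toReal with hν
  have hνfin : IsFiniteMeasure ν := Measure.isFiniteMeasure_map _ _
  have hνE : ∀ E : Set ℝ, MeasurableSet E → ν.real E = P.real (ENNReal.toReal ⁻¹' E ∩ {⊤}ᶜ) := by
    intro E hE
    rw [hν, map_measureReal_apply hmt hE, measureReal_restrict_apply (hmt hE)]
  refine ⟨φ, ν, hφ, hνfin, ?_, ?_, ?_, ?_⟩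
  · rw [hν, Measure.map_apply hmt measurableSet_Iio]
    have : ENNReal.toReal ⁻¹' Iio 0 = ∅ := by
      ext x
      simp only [mem_preimage, mem_Iio, mem_empty_iff_false, iff_false, not_lt]
      exact ENNReal.toReal_nonneg
    rw [this, measure_empty]
  · rw [hνE _ MeasurableSet.univ, ← hPM]
    exact measureReal_mono (subset_univ _)
  · intro g hg hgc
    -- extension of `g` to `[0, ∞]`
    obtain ⟨R, hR⟩ := hgc.isCompact.isBounded.subset_closedBall (0 : ℝ)
    have hgR : ∀ x, R < |x| → g x = 0 := by
      intro x hx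
      by_contra h
      have h1 : x ∈ tsupport g := subset_tsupport g h
      have h2 := hR h1
      rw [Metric.mem_closedBall, dist_zero_right, Real.norm_eq_abs] at h2
      linarith
    set G : ℝ≥0∞ → ℝ := fun x => if x = ⊤ then 0 else g x.toReal with hG
    have hGc : Continuous G := by
      rw [continuous_iff_continuousAt]
      intro x
      by_cases hx : x = ⊤
      · subst hx
        have h1 : ∀ᶠ y in 𝓝 (⊤ : ℝ≥0∞), G y = 0 := by
          have h2 : ∀ᶠ y in 𝓝 (⊤ : ℝ≥0∞), ENNReal.ofReal (max R 0) < y :=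
            lt_mem_nhds ENNReal.ofReal_lt_top
          filter_upwards [h2] with y hy
          simp only [hG]
          split_ifs with h3
          · rfl
          · apply hgR
            have h4 : max R 0 < y.toReal := (ENNReal.ofReal_lt_iff_lt_toReal (le_max_right _ _) h3).1 hy
            rw [abs_of_nonneg ENNReal.toReal_nonneg]
            exact lt_of_le_of_lt (le_max_left _ _) h4
        have h2 : G ⊤ = 0 := by simp [hG]
        unfold ContinuousAt
        rw [h2]
        exact tendsto_const_nhds.congr' (h1.mono fun y hy => hy.symm)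
      · have h1 : G =ᶠ[𝓝 x] fun y => g y.toReal := by
          have h2 : ∀ᶠ y in 𝓝 x, y ≠ ⊤ := isOpen_ne.mem_nhds hx
          filter_upwards [h2] with y hy
          simp [hG, hy]
        refine ContinuousAt.congr ?_ h1.symm
        exact (hg.continuousAt).comp (ENNReal.tendsto_toReal hx)
    have h1 := hint G hGc
    have h2 : ∀ j, ∫ x, G x ∂((μ j).map ENNReal.ofReal) = ∫ x, g x ∂(μ j) := by
      intro j
      rw [integral_map hmo.aemeasurable hGc.aestronglyMeasurable]
      refine integral_congr_ae ?_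
      filter_upwards [hpos j] with x hx
      simp [hG, ENNReal.toReal_ofReal hx]
    have h3 : ∫ x, G x ∂P = ∫ x, g x ∂ν := by
      rw [hν, integral_map hmt.aemeasurable hg.aestronglyMeasurable,
        ← integral_indicator (measurableSet_singleton _).compl]
      refine integral_congr_ae (ae_of_all _ fun x => ?_)
      by_cases hx : x = ⊤
      · simp [hG, hx]
      · simp [hG, hx]
    rw [← h3]
    refine h1.congr fun j => ?_
    exact h2 (φ j)
  · -- tails
    have hcount : Set.Countable {a : ℝ≥0∞ | 0 < P {a}} := by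
      refine Measure.countable_meas_pos_of_disjoint_of_meas_iUnion_ne_top P
        (As := fun a : ℝ≥0∞ => {a}) (fun a => measurableSet_singleton a) ?_ (measure_ne_top _ _)
      intro a b hab
      simpa [Function.onFun] using hab
    have hbad : Set.Countable {u : ℝ | 0 ≤ u ∧ 0 < P {ENNReal.ofReal u}} := by
      have h1 : MapsTo ENNReal.ofReal {u : ℝ | 0 ≤ u ∧ 0 < P {ENNReal.ofReal u}}
          {a : ℝ≥0∞ | 0 < P {a}} := fun u hu => hu.2
      refine h1.countable_of_injOn ?_ hcount
      intro u hu v hv huv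
      exact (ENNReal.ofReal_eq_ofReal_iff hu.1 hv.1).1 huv
    have hae : ∀ᵐ u : ℝ, u ∉ {u : ℝ | 0 ≤ u ∧ 0 < P {ENNReal.ofReal u}} :=
      (hbad.ae_notMem volume)
    filter_upwards [hae] with u hu
    rcases lt_or_ge u 0 with hu0 | hu0
    · -- negative `u`
      have h1 : ν.real (Iic u) = 0 := by
        rw [hνE _ measurableSet_Iic]
        have : ENNReal.toReal ⁻¹' Iic u = ∅ := by
          ext x
          simp only [mem_preimage, mem_Iic, mem_empty_iff_false, iff_false, not_le]
          exact lt_of_lt_of_le hu0 ENNReal.toReal_nonneg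
        rw [this, empty_inter, measureReal_empty]
      rw [h1, sub_zero]
      refine (hm.comp hφ.tendsto_atTop).congr fun j => ?_
      change (μ (φ j)).real univ = (μ (φ j)).real (Ioi u)
      refine measureReal_congr ?_
      filter_upwards [hpos (φ j)] with x hx
      have : u < x := lt_of_lt_of_le hu0 hx
      exact propext ⟨fun _ => this, fun _ => trivial⟩
    · have hnull : P {ENNReal.ofReal u} = 0 := by
        by_contra h
        exact hu ⟨hu0, pos_iff_ne_zero.2 h⟩
      have hfront : P (frontier (Ioi (ENNReal.ofReal u))) = 0 := by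
        refine measure_mono_null ?_ hnull
        rw [frontier_Ioi' ⟨⊤, ENNReal.ofReal_lt_top⟩]
      have h1 := hfr _ hfront
      have h2 : P.real (Ioi (ENNReal.ofReal u)) = M - ν.real (Iic u) := by
        have h3 : ENNReal.toReal ⁻¹' Iic u ∩ {⊤}ᶜ = Iic (ENNReal.ofReal u) := by
          ext x
          simp only [mem_inter_iff, mem_preimage, mem_Iic, mem_compl_iff, mem_singleton_iff]
          constructor
          · rintro ⟨h4, h5⟩
            rwa [ENNReal.le_ofReal_iff_toReal_le h5 hu0]
          · intro h4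
            have h5 : x ≠ ⊤ := ne_top_of_le_ne_top ENNReal.ofReal_ne_top h4
            exact ⟨(ENNReal.le_ofReal_iff_toReal_le h5 hu0).1 h4, h5⟩
        rw [hνE _ measurableSet_Iic, h3, ← hPM, ← compl_Iic, measureReal_compl measurableSet_Iic]
      rw [← h2]
      refine h1.congr fun j => ?_
      rw [map_measureReal_apply hmo measurableSet_Ioi]
      change (μ (φ j)).real (ENNReal.ofReal ⁻¹' Ioi (ENNReal.ofReal u)) = (μ (φ j)).real (Ioi u)
      refine measureReal_congr ?_
      filter_upwards [hpos (φ j)] with x hx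
      refine propext ?_
      change ENNReal.ofReal u < ENNReal.ofReal x ↔ u < x
      constructor
      · intro h
        by_contra h'
        exact absurd h (not_lt.2 (ENNReal.ofReal_le_ofReal (not_lt.1 h')))
      · intro h
        exact (ENNReal.ofReal_lt_ofReal_iff (lt_of_le_of_lt hu0 h)).2 h

end

end Pool.Agent.MP_941b23_mp
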