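import Pool.Agent.MP_941b23_mp.Defs2

/-!
# [QM-P7b] products of vaguely convergent sequences
-/

namespace Pool.Agent.MP_941b23_mp

open MeasureTheory Set Filter Topology
open scoped ENNReal NNReal Real

noncomputable section

theorem p7b_sec (G : ℝ × ℝ → ℝ) (hGc : HasCompactSupport G) (x : ℝ) :
    HasCompactSupport fun y => G (x, y) := by
  refine HasCompactSupport.intro (K := Prod.snd '' tsupport G)
    (hGc.isCompact.image continuous_snd) fun y hy => ?_
  refine image_eq_zero_of_notMem_tsupport fun h => hy ⟨(x, y), h, rfl⟩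

/-- products of vaguely convergent sequences -/
theorem vague_prod (μ ν : ℕ → Measure ℝ) (μ' ν' : Measure ℝ) (hfin : ∀ j, IsFiniteMeasure (μ j))
    (hfin' : ∀ j, IsFiniteMeasure (ν j)) [IsFiniteMeasure μ'] [IsFiniteMeasure ν']
    (K : ℝ) (hK : ∀ j, (μ j).real univ ≤ K ∧ (ν j).real univ ≤ K)
    (hμ : ∀ g : ℝ → ℝ, Continuous g → HasCompactSupport g →
      Tendsto (fun j => ∫ x, g x ∂(μ j)) atTop (𝓝 (∫ x, g x ∂μ')))
    (hν : ∀ g : ℝ → ℝ, Continuous g → HasCompactSupport g →
      Tendsto (fun j => ∫ x, g x ∂(ν j)) atTop (𝓝 (∫ x, g x ∂ν')))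
    (G : ℝ × ℝ → ℝ) (hG : Continuous G) (hGc : HasCompactSupport G) :
    Tendsto (fun j => ∫ z, G z ∂((μ j).prod (ν j))) atTop (𝓝 (∫ z, G z ∂(μ'.prod ν'))) := by
  have hsec : ∀ x, Continuous fun y => G (x, y) := fun x => hG.comp (by fun_prop)
  have hK0 : 0 ≤ K := (measureReal_nonneg).trans (hK 0).1
  obtain ⟨B, hB⟩ : ∃ B : ℝ, ∀ z, ‖G z‖ ≤ B := hG.bounded_above_of_compact_support hGc
  -- the limit section function
  set g' : ℝ → ℝ := fun x => ∫ y, G (x, y) ∂ν' with hg'
  have hg'c : Continuous g' := by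
    refine continuous_of_dominated (bound := fun _ => B) (fun x => ?_) (fun x => ?_) ?_ ?_
    · exact (hsec x).aestronglyMeasurable
    · exact Eventually.of_forall fun y => hB _
    · exact integrable_const _
    · exact Eventually.of_forall fun y => hG.comp (by fun_prop)
  have hout : ∀ x, x ∉ Prod.fst '' tsupport G → ∀ y, G (x, y) = 0 := by
    intro x hx y
    exact image_eq_zero_of_notMem_tsupport fun h => hx ⟨(x, y), h, rfl⟩
  have hcomp : IsCompact (Prod.fst '' tsupport G) := hGc.isCompact.image continuous_fst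
  have hg's : HasCompactSupport g' := by
    refine HasCompactSupport.intro hcomp fun x hx => ?_
    simp only [hg', hout x hx, integral_zero]
  have hlim : ∫ z, G z ∂(μ'.prod ν') = ∫ x, g' x ∂μ' :=
    integral_prod _ (hG.integrable_of_hasCompactSupport hGc)
  have hj : ∀ j, ∫ z, G z ∂((μ j).prod (ν j)) = ∫ x, ∫ y, G (x, y) ∂(ν j) ∂(μ j) := by
    intro j
    have := hfin j
    have := hfin' j
    exact integral_prod _ (hG.integrable_of_hasCompactSupport hGc)
  simp_rw [hj]
  rw [hlim, Metric.tendsto_atTop]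
  intro ε hε
  set A : ℝ := K + ν'.real univ + 1 with hA
  have hA1 : 1 ≤ A := by
    have : 0 ≤ ν'.real univ := measureReal_nonneg
    rw [hA]; linarith
  set η : ℝ := ε / (4 * A ^ 2) with hη
  have hη0 : 0 < η := by positivity
  have hηA : η * A * A = ε / 4 := by
    rw [hη]; field_simp
  have huc := HasCompactSupport.uniformContinuous_of_continuous hGc hG
  rw [Metric.uniformContinuous_iff] at huc
  obtain ⟨δ, hδ, huc⟩ := huc η hη0
  obtain ⟨t, -, htfin, hcov⟩ := hcomp.finite_cover_balls hδ
  -- convergence at the net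
  have hnet : ∀ᶠ j in atTop, ∀ x ∈ t, |(∫ y, G (x, y) ∂(ν j)) - g' x| < η := by
    rw [eventually_all_finite htfin]
    intro x _
    have h := hν (fun y => G (x, y)) (hsec x) (p7b_sec G hGc x)
    rw [Metric.tendsto_atTop] at h
    obtain ⟨N, hN⟩ := h η hη0
    filter_upwards [eventually_ge_atTop N] with j hj
    have := hN j hj
    rwa [Real.dist_eq] at this
  have hlast : ∀ᶠ j in atTop, |(∫ x, g' x ∂(μ j)) - ∫ x, g' x ∂μ'| < ε / 2 := by
    have h := hμ g' hg'c hg's
    rw [Metric.tendsto_atTop] at h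
    obtain ⟨N, hN⟩ := h (ε / 2) (by positivity)
    filter_upwards [eventually_ge_atTop N] with j hj
    have := hN j hj
    rwa [Real.dist_eq] at this
  obtain ⟨N, hN⟩ := eventually_atTop.1 (hnet.and hlast)
  refine ⟨N, fun j hjN => ?_⟩
  obtain ⟨h1, h2⟩ := hN j hjN
  have := hfin j
  have := hfin' j
  -- uniform closeness
  have hunif : ∀ x, |(∫ y, G (x, y) ∂(ν j)) - g' x| ≤ η * A := by
    intro x
    by_cases hx : x ∈ Prod.fst '' tsupport G
    · obtain ⟨x', hx't, hx'⟩ := mem_iUnion₂.1 (hcov hx)
      have hd : ∀ y, |G (x, y) - G (x', y)| ≤ η := by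
        intro y
        have h3 : dist (x, y) (x', y) < δ := by
          rw [Prod.dist_eq, dist_self, max_eq_left dist_nonneg]
          exact hx'
        have h4 := huc h3
        rw [Real.dist_eq] at h4
        exact h4.le
      have hdiff : ∀ (ρ : Measure ℝ) [IsFiniteMeasure ρ],
          |(∫ y, G (x, y) ∂ρ) - ∫ y, G (x', y) ∂ρ| ≤ η * ρ.real univ := by
        intro ρ _
        rw [← integral_sub ((hsec x).integrable_of_hasCompactSupport (p7b_sec G hGc x))
          ((hsec x').integrable_of_hasCompactSupport (p7b_sec G hGc x'))]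
        exact norm_integral_le_of_norm_le_const (μ := ρ) (f := fun y => G (x, y) - G (x', y))
          (Eventually.of_forall fun y => by rw [Real.norm_eq_abs]; exact hd y)
      have e1 := hdiff (ν j)
      have e2 := hdiff ν'
      have e3 := h1 x' hx't
      have e4 : η * (ν j).real univ ≤ η * K := mul_le_mul_of_nonneg_left (hK j).2 hη0.le
      have e5 : η * A = η * K + η * ν'.real univ + η := by rw [hA]; ring
      rw [abs_le] at e1 e2 ⊢
      rw [abs_lt] at e3
      simp only [hg'] at e3 ⊢
      constructor <;> linarith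
    · have h0 : (∫ y, G (x, y) ∂(ν j)) - g' x = 0 := by
        simp only [hg', hout x hx, integral_zero, sub_zero]
      rw [h0, abs_zero]
      positivity
  have hgj : Continuous fun x => ∫ y, G (x, y) ∂(ν j) := by
    refine continuous_of_dominated (bound := fun _ => B) (fun x => ?_) (fun x => ?_) ?_ ?_
    · exact (hsec x).aestronglyMeasurable
    · exact Eventually.of_forall fun y => hB _
    · exact integrable_const _
    · exact Eventually.of_forall fun y => hG.comp (by fun_prop)
  have hgjs : HasCompactSupport fun x => ∫ y, G (x, y) ∂(ν j) := by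
    refine HasCompactSupport.intro hcomp fun x hx => ?_
    simp only [hout x hx, integral_zero]
  have e6 : |(∫ x, ∫ y, G (x, y) ∂(ν j) ∂(μ j)) - ∫ x, g' x ∂(μ j)| ≤ η * A * (μ j).real univ := by
    rw [← integral_sub (hgj.integrable_of_hasCompactSupport hgjs)
      (hg'c.integrable_of_hasCompactSupport hg's)]
    exact norm_integral_le_of_norm_le_const (μ := μ j)
      (f := fun x => (∫ y, G (x, y) ∂(ν j)) - g' x)
      (Eventually.of_forall fun x => by rw [Real.norm_eq_abs]; exact hunif x)
  have e7 : η * A * (μ j).real univ ≤ ε / 4 := by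
    rw [← hηA]
    refine mul_le_mul_of_nonneg_left ?_ (by positivity)
    have : 0 ≤ ν'.real univ := measureReal_nonneg
    rw [hA]
    linarith [(hK j).1]
  rw [Real.dist_eq]
  rw [abs_le] at e6
  rw [abs_lt] at h2 ⊢
  constructor <;> linarith

end

end Pool.Agent.MP_941b23_mp
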