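import Pool.Agent.MP_941b23_mp.Defs2
import Pool.Agent.MP_941b23_mp.P5
import Pool.Agent.MP_941b23_mp.P7a
import Pool.Agent.MP_941b23_mp.P7b
import Pool.Agent.MP_941b23_mp.T2a
import Pool.Agent.MP_941b23_mp.T2b
import Pool.Agent.MP_941b23_mp.T5

/-!
# [P7c] lower semicontinuity
-/

namespace Pool.Agent.MP_941b23_mp

open MeasureTheory Set Filter Topology
open scoped ENNReal NNReal Real

noncomputable section

/-! ### cutoffs -/

/-- continuous cutoff: `1` for `|x| ≤ R`, `0` for `|x| ≥ R + 1` -/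
def p7c_cut (R x : ℝ) : ℝ := max 0 (min 1 (R + 1 - |x|))

theorem p7c_cut_cont (R : ℝ) : Continuous (p7c_cut R) := by
  unfold p7c_cut; fun_prop

theorem p7c_cut_nonneg (R x : ℝ) : 0 ≤ p7c_cut R x := le_max_left _ _

theorem p7c_cut_le_one (R x : ℝ) : p7c_cut R x ≤ 1 := max_le zero_le_one (min_le_left _ _)

theorem p7c_cut_one {R x : ℝ} (h : |x| ≤ R) : p7c_cut R x = 1 := by
  unfold p7c_cut
  rw [min_eq_left (by linarith), max_eq_right zero_le_one]

theorem p7c_cut_zero {R x : ℝ} (h : R + 1 ≤ |x|) : p7c_cut R x = 0 := by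
  unfold p7c_cut
  rw [max_eq_left]
  exact (min_le_right _ _).trans (by linarith)

theorem p7c_cut_compact (R : ℝ) : HasCompactSupport (p7c_cut R) := by
  refine HasCompactSupport.intro (K := Icc (-(R + 1)) (R + 1)) isCompact_Icc ?_
  intro x hx
  refine p7c_cut_zero ?_
  by_contra h
  push Not at h
  exact hx (abs_le.1 h.le)

theorem p7c_cut_mono {R R' : ℝ} (h : R ≤ R') (x : ℝ) : p7c_cut R x ≤ p7c_cut R' x := by
  unfold p7c_cut
  exact max_le_max le_rfl (min_le_min le_rfl (by linarith))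

theorem p7c_cut_tendsto (x : ℝ) : Tendsto (fun n : ℕ => p7c_cut n x) atTop (𝓝 1) := by
  refine tendsto_const_nhds.congr' ?_
  obtain ⟨N, hN⟩ := exists_nat_ge |x|
  filter_upwards [eventually_ge_atTop N] with n hn
  rw [p7c_cut_one (hN.trans (by exact_mod_cast hn))]

/-- product cutoff times a continuous function has compact support -/
theorem p7c_cut2_compact (R : ℝ) (G : ℝ × ℝ → ℝ) :
    HasCompactSupport (fun z : ℝ × ℝ => G z * (p7c_cut R z.1 * p7c_cut R z.2)) := by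
  refine HasCompactSupport.intro
    (K := Icc (-(R + 1)) (R + 1) ×ˢ Icc (-(R + 1)) (R + 1)) (isCompact_Icc.prod isCompact_Icc) ?_
  rintro ⟨x, y⟩ hx
  simp only [mem_prod, not_and_or] at hx
  have key : ∀ t : ℝ, t ∉ Icc (-(R + 1)) (R + 1) → p7c_cut R t = 0 := by
    intro t ht
    refine p7c_cut_zero ?_
    by_contra h
    push Not at h
    exact ht (abs_le.1 h.le)
  rcases hx with h | h
  · simp only; rw [key x h]; ring
  · simp only; rw [key y h]; ring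

/-! ### supports -/

theorem p7c_ae_nonneg {μ : Measure ℝ} (h : μ (Iio 0) = 0) : ∀ᵐ x ∂μ, 0 ≤ x := by
  rw [ae_iff]
  convert h using 2
  ext x; simp

theorem p7c_ae_prod {μ ν : Measure ℝ} [SFinite μ] [SFinite ν] (hμ : μ (Iio 0) = 0)
    (hν : ν (Iio 0) = 0) : ∀ᵐ z ∂(μ.prod ν), 0 ≤ z.1 ∧ 0 ≤ z.2 := by
  have h1 : ∀ᵐ z ∂(μ.prod ν), 0 ≤ z.1 :=
    Measure.quasiMeasurePreserving_fst.ae (p7c_ae_nonneg hμ)
  have h2 : ∀ᵐ z ∂(μ.prod ν), 0 ≤ z.2 :=
    Measure.quasiMeasurePreserving_snd.ae (p7c_ae_nonneg hν)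
  filter_upwards [h1, h2] with z h1 h2 using ⟨h1, h2⟩

/-! ### the two-variable kernels -/

/-- a continuous kernel, bounded on the quadrant and nonnegative off the unit square -/
structure P7cKer (G : ℝ × ℝ → ℝ) (B : ℝ) : Prop where
  cont : Continuous G
  bd : ∀ z : ℝ × ℝ, 0 ≤ z.1 → 0 ≤ z.2 → |G z| ≤ B
  pos : ∀ z : ℝ × ℝ, 0 ≤ z.1 → 0 ≤ z.2 → (1 < z.1 ∨ 1 < z.2) → 0 ≤ G z

theorem P7cKer.integrable {G : ℝ × ℝ → ℝ} {B : ℝ} (h : P7cKer G B) {μ ν : Measure ℝ}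
    [IsFiniteMeasure μ] [IsFiniteMeasure ν] (hμ : μ (Iio 0) = 0) (hν : ν (Iio 0) = 0) :
    Integrable G (μ.prod ν) := by
  refine Integrable.of_bound (C := B) h.cont.aestronglyMeasurable ?_
  filter_upwards [p7c_ae_prod hμ hν] with z hz
  exact h.bd z hz.1 hz.2

theorem P7cKer.cut_le {G : ℝ × ℝ → ℝ} {B : ℝ} (h : P7cKer G B) {R : ℝ} (hR : 1 ≤ R)
    (z : ℝ × ℝ) (h1 : 0 ≤ z.1) (h2 : 0 ≤ z.2) :
    G z * (p7c_cut R z.1 * p7c_cut R z.2) ≤ G z := by
  by_cases hz : 1 < z.1 ∨ 1 < z.2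
  · have h3 := h.pos z h1 h2 hz
    have h4 : p7c_cut R z.1 * p7c_cut R z.2 ≤ 1 :=
      mul_le_one₀ (p7c_cut_le_one _ _) (p7c_cut_nonneg _ _) (p7c_cut_le_one _ _)
    nlinarith
  · push Not at hz
    rw [p7c_cut_one (by rw [abs_of_nonneg h1]; linarith [hz.1]),
      p7c_cut_one (by rw [abs_of_nonneg h2]; linarith [hz.2])]
    simp

theorem P7cKer.integrable_cut {G : ℝ × ℝ → ℝ} {B : ℝ} (h : P7cKer G B) (R : ℝ) {μ ν : Measure ℝ}
    [IsFiniteMeasure μ] [IsFiniteMeasure ν] (hμ : μ (Iio 0) = 0) (hν : ν (Iio 0) = 0) :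
    Integrable (fun z => G z * (p7c_cut R z.1 * p7c_cut R z.2)) (μ.prod ν) := by
  refine Integrable.of_bound (C := B) ?_ ?_
  · exact (h.cont.mul (((p7c_cut_cont R).comp continuous_fst).mul
      ((p7c_cut_cont R).comp continuous_snd))).aestronglyMeasurable
  · filter_upwards [p7c_ae_prod hμ hν] with z hz
    have h4 : p7c_cut R z.1 * p7c_cut R z.2 ≤ 1 :=
      mul_le_one₀ (p7c_cut_le_one _ _) (p7c_cut_nonneg _ _) (p7c_cut_le_one _ _)
    have h5 : 0 ≤ p7c_cut R z.1 * p7c_cut R z.2 :=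
      mul_nonneg (p7c_cut_nonneg _ _) (p7c_cut_nonneg _ _)
    rw [norm_mul, Real.norm_eq_abs, Real.norm_eq_abs, abs_of_nonneg h5]
    calc |G z| * (p7c_cut R z.1 * p7c_cut R z.2) ≤ |G z| * 1 :=
          mul_le_mul_of_nonneg_left h4 (abs_nonneg _)
      _ ≤ B := by rw [mul_one]; exact h.bd z hz.1 hz.2

theorem P7cKer.lsc {G : ℝ × ℝ → ℝ} {B : ℝ} (h : P7cKer G B) (μ ν : ℕ → Measure ℝ)
    (μ' ν' : Measure ℝ) (hfin : ∀ j, IsFiniteMeasure (μ j)) (hfin' : ∀ j, IsFiniteMeasure (ν j))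
    [IsFiniteMeasure μ'] [IsFiniteMeasure ν']
    (hμ0 : ∀ j, μ j (Iio 0) = 0) (hν0 : ∀ j, ν j (Iio 0) = 0)
    (hμ0' : μ' (Iio 0) = 0) (hν0' : ν' (Iio 0) = 0)
    (K : ℝ) (hK : ∀ j, (μ j).real univ ≤ K ∧ (ν j).real univ ≤ K)
    (hμ : ∀ g : ℝ → ℝ, Continuous g → HasCompactSupport g →
      Tendsto (fun j => ∫ x, g x ∂(μ j)) atTop (𝓝 (∫ x, g x ∂μ')))
    (hν : ∀ g : ℝ → ℝ, Continuous g → HasCompactSupport g →
      Tendsto (fun j => ∫ x, g x ∂(ν j)) atTop (𝓝 (∫ x, g x ∂ν'))) (ε : ℝ) (hε : 0 < ε) :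
    ∀ᶠ j in atTop, ∫ z, G z ∂(μ'.prod ν') - ε ≤ ∫ z, G z ∂((μ j).prod (ν j)) := by
  have h1 : Tendsto (fun n : ℕ => ∫ z, G z * (p7c_cut n z.1 * p7c_cut n z.2) ∂(μ'.prod ν')) atTop
      (𝓝 (∫ z, G z ∂(μ'.prod ν'))) := by
    refine tendsto_integral_of_dominated_convergence (fun _ => B) ?_ (integrable_const B) ?_ ?_
    · intro n
      exact (h.integrable_cut n hμ0' hν0').aestronglyMeasurable
    · intro n
      filter_upwards [p7c_ae_prod hμ0' hν0'] with z hz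
      have h4 : p7c_cut n z.1 * p7c_cut n z.2 ≤ 1 :=
        mul_le_one₀ (p7c_cut_le_one _ _) (p7c_cut_nonneg _ _) (p7c_cut_le_one _ _)
      have h5 : 0 ≤ p7c_cut n z.1 * p7c_cut n z.2 :=
        mul_nonneg (p7c_cut_nonneg _ _) (p7c_cut_nonneg _ _)
      rw [norm_mul, Real.norm_eq_abs, Real.norm_eq_abs, abs_of_nonneg h5]
      calc |G z| * (p7c_cut n z.1 * p7c_cut n z.2) ≤ |G z| * 1 :=
            mul_le_mul_of_nonneg_left h4 (abs_nonneg _)
        _ ≤ B := by rw [mul_one]; exact h.bd z hz.1 hz.2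
    · refine Eventually.of_forall fun z => ?_
      have := ((p7c_cut_tendsto z.1).mul (p7c_cut_tendsto z.2)).const_mul (G z)
      simpa using this
  obtain ⟨n, hn1, hn⟩ := ((eventually_ge_atTop 1).and
    (h1.eventually (eventually_gt_nhds (show ∫ z, G z ∂(μ'.prod ν') - ε / 2 <
      ∫ z, G z ∂(μ'.prod ν') by linarith)))).exists
  have hn1' : (1 : ℝ) ≤ n := by exact_mod_cast hn1
  have h2 := vague_prod μ ν μ' ν' hfin hfin' K hK hμ hν
    (fun z => G z * (p7c_cut n z.1 * p7c_cut n z.2))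
    (h.cont.mul (((p7c_cut_cont n).comp continuous_fst).mul
      ((p7c_cut_cont n).comp continuous_snd))) (p7c_cut2_compact n G)
  filter_upwards [h2.eventually (eventually_gt_nhds (show
    ∫ z, G z * (p7c_cut n z.1 * p7c_cut n z.2) ∂(μ'.prod ν') - ε / 2 <
      ∫ z, G z * (p7c_cut n z.1 * p7c_cut n z.2) ∂(μ'.prod ν') by linarith))] with j hj
  have := hfin j
  have := hfin' j
  have h3 : ∫ z, G z * (p7c_cut n z.1 * p7c_cut n z.2) ∂((μ j).prod (ν j)) ≤
      ∫ z, G z ∂((μ j).prod (ν j)) := by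
    refine integral_mono_ae (h.integrable_cut n (hμ0 j) (hν0 j)) (h.integrable (hμ0 j) (hν0 j)) ?_
    filter_upwards [p7c_ae_prod (hμ0 j) (hν0 j)] with z hz
    exact h.cut_le hn1' z hz.1 hz.2
  linarith

/-! ### `RmM` and `RpD` -/

theorem p7c_max_pos (x y : ℝ) : (0 : ℝ) < max (max x y) 1 := lt_of_lt_of_le one_pos (le_max_right _ _)

theorem p7c_RmM_ker (M : ℝ) (hM : 0 < M) : P7cKer (fun z => RmM M z.1 z.2) M := by
  have hd : ∀ z : ℝ × ℝ, 0 ≤ z.1 → 0 ≤ z.2 → |z.1 - z.2| / max (max z.1 z.2) 1 ≤ 1 := by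
    intro z h1 h2
    rw [div_le_one (p7c_max_pos _ _), abs_le]
    constructor
    · linarith [le_max_left (max z.1 z.2) 1, le_max_right z.1 z.2]
    · linarith [le_max_left (max z.1 z.2) 1, le_max_left z.1 z.2]
  have h0 : ∀ z : ℝ × ℝ, 0 ≤ z.1 → 0 ≤ z.2 → 0 ≤ RmM M z.1 z.2 := by
    intro z h1 h2
    unfold RmM
    rw [neg_nonneg]
    refine Real.log_nonpos (le_max_of_le_right (Real.exp_pos _).le) ?_
    refine max_le (hd z h1 h2) ?_
    rw [Real.exp_le_one_iff]; linarith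
  have h1 : ∀ z : ℝ × ℝ, RmM M z.1 z.2 ≤ M := by
    intro z
    unfold RmM
    have := Real.log_le_log (Real.exp_pos (-M))
      (le_max_right (|z.1 - z.2| / max (max z.1 z.2) 1) (Real.exp (-M)))
    rw [Real.log_exp] at this
    linarith
  refine ⟨?_, ?_, ?_⟩
  · unfold RmM
    refine Continuous.neg (Continuous.log ?_ ?_)
    · refine Continuous.max (Continuous.div (by fun_prop) (by fun_prop) ?_) continuous_const
      intro z
      exact (p7c_max_pos _ _).ne'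
    · intro z
      exact (lt_of_lt_of_le (Real.exp_pos _) (le_max_right _ _)).ne'
  · intro z hz1 hz2
    rw [abs_of_nonneg (h0 z hz1 hz2)]
    exact h1 z
  · intro z hz1 hz2 _
    exact h0 z hz1 hz2

/-- continuous version of `RpD` -/
def p7c_RpD (δ : ℝ) (z : ℝ × ℝ) : ℝ := Real.log ((|z.1| + |z.2| + δ) / max (max z.1 z.2) 1)

theorem p7c_RpD_eq (δ : ℝ) (z : ℝ × ℝ) (h1 : 0 ≤ z.1) (h2 : 0 ≤ z.2) :
    p7c_RpD δ z = RpD δ z.1 z.2 := by
  unfold p7c_RpD RpD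
  rw [abs_of_nonneg h1, abs_of_nonneg h2]

theorem p7c_RpD_ker (δ : ℝ) (hδ : 0 < δ) (hδ1 : δ < 1) : P7cKer (p7c_RpD δ) (-Real.log δ + 2) := by
  have hlog : Real.log δ < 0 := Real.log_neg hδ hδ1
  have hpos : ∀ z : ℝ × ℝ, 0 < (|z.1| + |z.2| + δ) / max (max z.1 z.2) 1 := by
    intro z
    exact div_pos (by positivity) (p7c_max_pos _ _)
  refine ⟨?_, ?_, ?_⟩
  · unfold p7c_RpD
    refine Continuous.log (Continuous.div (by fun_prop) (by fun_prop) ?_) ?_
    · intro z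
      exact (p7c_max_pos _ _).ne'
    · intro z
      exact (hpos z).ne'
  · intro z h1 h2
    rw [abs_le]
    constructor
    · have : Real.log δ ≤ p7c_RpD δ z := by
        unfold p7c_RpD
        refine Real.log_le_log hδ ?_
        rw [le_div_iff₀ (p7c_max_pos _ _), abs_of_nonneg h1, abs_of_nonneg h2]
        rcases le_total (max z.1 z.2) 1 with h | h
        · rw [max_eq_right h]; linarith
        · rw [max_eq_left h]
          rcases le_total z.1 z.2 with h' | h'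
          · rw [max_eq_right h'] at h ⊢; nlinarith
          · rw [max_eq_left h'] at h ⊢; nlinarith
      linarith
    · have : p7c_RpD δ z ≤ Real.log 3 := by
        unfold p7c_RpD
        refine Real.log_le_log (hpos z) ?_
        rw [div_le_iff₀ (p7c_max_pos _ _), abs_of_nonneg h1, abs_of_nonneg h2]
        have e1 := le_max_left (max z.1 z.2) 1
        have e2 := le_max_right (max z.1 z.2) 1
        have e3 := le_max_left z.1 z.2
        have e4 := le_max_right z.1 z.2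
        linarith
      have h3 : Real.log 3 ≤ 2 := by
        have := Real.log_le_sub_one_of_pos (show (0 : ℝ) < 3 by norm_num)
        linarith
      linarith
  · intro z h1 h2 h
    unfold p7c_RpD
    refine Real.log_nonneg ?_
    rw [le_div_iff₀ (p7c_max_pos _ _), one_mul, abs_of_nonneg h1, abs_of_nonneg h2]
    refine max_le (max_le (by linarith) (by linarith)) ?_
    rcases h with h | h <;> linarith

/-! ### comparison of measures -/

theorem p7c_le (μ σ : Measure ℝ) [IsFiniteMeasure μ] [IsLocallyFiniteMeasure σ]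
    (h : ∀ g : ℝ → ℝ, Continuous g → HasCompactSupport g → (∀ x, 0 ≤ g x) →
      ∫ x, g x ∂μ ≤ ∫ x, g x ∂σ) : μ ≤ σ := by
  have hK : ∀ k : Set ℝ, IsCompact k → μ k ≤ σ k := by
    intro k hk
    rw [k.measure_eq_iInf_isOpen σ]
    refine le_iInf fun U => le_iInf fun hkU => le_iInf fun hU => ?_
    obtain ⟨g, hg1, hg0, hgc, hg⟩ := exists_continuous_one_zero_of_isCompact hk
      hU.isClosed_compl (disjoint_compl_right_iff_subset.2 hkU)
    have hi : Integrable (fun x => g x) σ := g.continuous.integrable_of_hasCompactSupport hgc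
    have hi' : Integrable (fun x => g x) μ := g.continuous.integrable_of_hasCompactSupport hgc
    calc μ k = ∫⁻ x in k, 1 ∂μ := by simp
      _ = ∫⁻ x in k, ENNReal.ofReal (g x) ∂μ := by
          refine setLIntegral_congr_fun hk.measurableSet fun x hx => ?_
          simp [hg1 hx]
      _ ≤ ∫⁻ x, ENNReal.ofReal (g x) ∂μ := setLIntegral_le_lintegral _ _
      _ = ENNReal.ofReal (∫ x, g x ∂μ) :=
          (ofReal_integral_eq_lintegral_ofReal hi' (Eventually.of_forall fun x => (hg x).1)).symm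
      _ ≤ ENNReal.ofReal (∫ x, g x ∂σ) :=
          ENNReal.ofReal_le_ofReal (h g g.continuous hgc fun x => (hg x).1)
      _ = ∫⁻ x, ENNReal.ofReal (g x) ∂σ :=
          ofReal_integral_eq_lintegral_ofReal hi (Eventually.of_forall fun x => (hg x).1)
      _ ≤ ∫⁻ x, U.indicator 1 x ∂σ := by
          refine lintegral_mono fun x => ?_
          by_cases hx : x ∈ U
          · simp only [indicator_of_mem hx, Pi.one_apply]
            exact ENNReal.ofReal_le_one.2 (hg x).2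
          · simp [hg0 (show x ∈ Uᶜ from hx)]
      _ = σ U := lintegral_indicator_one hU.measurableSet
  refine Measure.le_intro fun s hs _ => ?_
  by_contra hlt
  push Not at hlt
  obtain ⟨k, hks, hk, hlt'⟩ := hs.exists_lt_isCompact_of_ne_top (measure_ne_top μ s) hlt
  exact absurd ((hK k hk).trans (measure_mono hks)) (not_le.2 hlt')

theorem p7c_sigI_zero {α τ : ℝ} (hτ : 0 < τ) : sigI α τ (Iio 0) = 0 := by
  rw [sigI_eq hτ]
  refine (withDensity_absolutelyContinuous _ _) ?_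
  rw [Measure.restrict_apply measurableSet_Iio]
  have : Iio (0 : ℝ) ∩ Ioi 0 = ∅ := by
    ext x; simp only [mem_inter_iff, mem_Iio, mem_Ioi, mem_empty_iff_false, iff_false]
    intro h; linarith [h.1, h.2]
  rw [this, measure_empty]

theorem p7c_sigI_fin {α τ : ℝ} (hτ : 0 < τ) (R : ℝ) (hR : 0 ≤ R) : sigI α τ (Iio R) < ⊤ := by
  have h1 := sigI_integrable (α := α) hτ
  have h2 : (sigI α τ) (Ico 0 R) < ⊤ := by
    have h3 : (sigI α τ) {t | 1 / (1 + R) ≤ ‖(1 / (1 + t) : ℝ)‖} < ⊤ :=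
      h1.measure_norm_ge_lt_top (by positivity)
    refine lt_of_le_of_lt (measure_mono ?_) h3
    intro t ht
    show 1 / (1 + R) ≤ ‖(1 / (1 + t) : ℝ)‖
    rw [Real.norm_eq_abs, abs_of_nonneg (by have := ht.1; positivity)]
    exact one_div_le_one_div_of_le (by linarith [ht.1]) (by linarith [ht.2])
  have h4 : Iio R ⊆ Iio 0 ∪ Ico 0 R := by
    intro x hx
    rcases lt_or_ge x 0 with h | h
    · exact Or.inl h
    · exact Or.inr ⟨h, hx⟩
  refine lt_of_le_of_lt (measure_mono h4) (lt_of_le_of_lt (measure_union_le _ _) ?_)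
  rw [p7c_sigI_zero hτ, zero_add]
  exact h2

theorem p7c_sigI_lf {α τ : ℝ} (hτ : 0 < τ) : IsLocallyFiniteMeasure (sigI α τ) := by
  refine ⟨fun x => ⟨Iio (|x| + 1), Iio_mem_nhds (by linarith [le_abs_self x]), ?_⟩⟩
  exact p7c_sigI_fin hτ _ (by positivity)

/-! ### tails -/

theorem p7c_tl_antitone (μ : Measure ℝ) [IsFiniteMeasure μ] : Antitone (tl μ) := by
  intro x y h
  exact measureReal_mono (Ioi_subset_Ioi h)

theorem p7c_tl_nonneg (μ : Measure ℝ) (u : ℝ) : 0 ≤ tl μ u := measureReal_nonneg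

theorem p7c_tl_meas (μ : Measure ℝ) [IsFiniteMeasure μ] : Measurable (tl μ) :=
  (p7c_tl_antitone μ).measurable

theorem p7c_tl_eq (μ : Measure ℝ) [IsFiniteMeasure μ] (u : ℝ) :
    tl μ u = μ.real univ - μ.real (Iic u) := by
  unfold tl
  have := measureReal_compl (μ := μ) (s := Iic u) measurableSet_Iic
  rw [compl_Iic] at this
  exact this

theorem p7c_tl_le (μ : Measure ℝ) [IsFiniteMeasure μ] (u : ℝ) : tl μ u ≤ μ.real univ :=
  measureReal_mono (subset_univ _)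

theorem p7c_Iic_tendsto (μ : Measure ℝ) [IsFiniteMeasure μ] :
    Tendsto (fun n : ℕ => μ.real (Iic (n : ℝ))) atTop (𝓝 (μ.real univ)) := by
  have h : (⋃ n : ℕ, Iic (n : ℝ)) = univ := by
    ext x
    simp only [mem_iUnion, mem_Iic, mem_univ, iff_true]
    exact exists_nat_ge x
  have h1 : Tendsto (fun n : ℕ => μ (Iic (n : ℝ))) atTop (𝓝 (μ univ)) := by
    rw [← h]
    exact tendsto_measure_iUnion_atTop (fun a b hab => Iic_subset_Iic.2 (by exact_mod_cast hab))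
  exact (ENNReal.tendsto_toReal (measure_ne_top μ univ)).comp h1

theorem p7c_tl_tendsto (μ : Measure ℝ) [IsFiniteMeasure μ] : Tendsto (tl μ) atTop (𝓝 0) := by
  have h1 : Tendsto (fun n : ℕ => tl μ n) atTop (𝓝 0) := by
    have := (p7c_Iic_tendsto μ).const_sub (μ.real univ)
    rw [sub_self] at this
    refine this.congr fun n => ?_
    rw [p7c_tl_eq]
  rw [Metric.tendsto_atTop] at h1 ⊢
  intro ε hε
  obtain ⟨N, hN⟩ := h1 ε hε
  refine ⟨N, fun u hu => ?_⟩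
  have h2 := hN N le_rfl
  rw [Real.dist_eq, sub_zero, abs_of_nonneg (p7c_tl_nonneg _ _)] at h2 ⊢
  exact lt_of_le_of_lt (p7c_tl_antitone μ hu) h2

/-- Markov's inequality for tails -/
theorem p7c_tl_markov (μ : Measure ℝ) [IsFiniteMeasure μ] (h0 : μ (Iio 0) = 0)
    (hi : Integrable (fun x => x) μ) (u : ℝ) (hu : 0 < u) : tl μ u ≤ (∫ x, x ∂μ) / u := by
  rw [le_div_iff₀ hu, mul_comm]
  have h1 := mul_meas_ge_le_integral_of_nonneg (μ := μ) (f := fun x => x)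
    (p7c_ae_nonneg h0) hi u
  refine le_trans (mul_le_mul_of_nonneg_left ?_ hu.le) h1
  exact measureReal_mono fun x hx => show u ≤ x from (mem_Ioi.1 hx).le

theorem p7c_qf_nonneg (x y z : ℝ) : 0 ≤ qf x y z := by
  unfold qf; nlinarith [sq_nonneg (x - y), sq_nonneg (y - z), sq_nonneg x, sq_nonneg z]

/-- lower bound used to exclude escape of mass -/
theorem p7c_qf_pos (y z : ℝ) (h : y ≠ 0 ∨ z ≠ 0) : 0 < qf 0 y z := by
  unfold qf
  rcases h with h | h
  · have := sq_nonneg (2 * z - y)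
    have h2 : 0 < y ^ 2 := by positivity
    nlinarith
  · have := sq_nonneg (2 * y - z)
    have h2 : 0 < z ^ 2 := by positivity
    nlinarith

/-! ### the potential of the first species -/

/-- the potential term -/
def p7c_P (α τ : ℝ) (V : ℝ → ℝ) (κ x : ℝ) : ℝ :=
  (1 - κ) * U1 α τ V x - (2 / 3 + κ) * Real.log (max x 1)

theorem p7c_U1_cont {α τ : ℝ} (hτ : 0 < τ) {V : ℝ → ℝ} (hV : Pot V) : Continuous (U1 α τ V) := by
  unfold U1
  exact (hV.cont.comp Real.continuous_sqrt).sub ((gg_continuous hτ).comp Real.continuous_sqrt)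

theorem p7c_logmax_cont : Continuous (fun x : ℝ => Real.log (max x 1)) := by
  refine Continuous.log (by fun_prop) fun x => ?_
  exact (lt_of_lt_of_le one_pos (le_max_right _ _)).ne'

theorem p7c_logmax_nonneg (x : ℝ) : 0 ≤ Real.log (max x 1) := Real.log_nonneg (le_max_right _ _)

theorem p7c_P_cont {α τ : ℝ} (hτ : 0 < τ) {V : ℝ → ℝ} (hV : Pot V) (κ : ℝ) :
    Continuous (p7c_P α τ V κ) := by
  unfold p7c_P
  exact ((p7c_U1_cont hτ hV).const_mul _).sub (p7c_logmax_cont.const_mul _)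

theorem p7c_logmax_le (s : ℝ) (hs : 0 < s) (x : ℝ) (hx : 0 ≤ x) :
    Real.log (max x 1) ≤ s * x + (s + |Real.log s|) := by
  have h1 : 0 < max x 1 := lt_of_lt_of_le one_pos (le_max_right _ _)
  have h2 := Real.log_le_sub_one_of_pos (mul_pos hs h1)
  rw [Real.log_mul hs.ne' h1.ne'] at h2
  have h3 : max x 1 ≤ x + 1 := max_le (by linarith) (by linarith)
  have h4 := neg_abs_le (Real.log s)
  nlinarith

theorem p7c_P_lower {α τ : ℝ} (hτ : 0 < τ) {V : ℝ → ℝ} (hV : Pot V) :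
    ∃ c C : ℝ, 0 < c ∧ 0 < C ∧ ∀ κ : ℝ, |κ| ≤ 1 / 2 → ∀ x : ℝ, 0 ≤ x →
      c * x - C ≤ p7c_P α τ V κ x := by
  obtain ⟨c, C, hc, h⟩ := U1_lower (α := α) hτ hV
  set s : ℝ := c / 4 with hs
  have hs0 : 0 < s := by positivity
  refine ⟨c / 8, 3 / 2 * |C| + 7 / 6 * (s + |Real.log s|) + 1, by positivity, by positivity, ?_⟩
  intro κ hκ x hx
  rw [abs_le] at hκ
  have h1 := h x hx
  have h2 := p7c_logmax_le s hs0 x hx
  have h3 := p7c_logmax_nonneg x
  unfold p7c_P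
  have h4 : (1 - κ) * (c * x - C) ≤ (1 - κ) * U1 α τ V x :=
    mul_le_mul_of_nonneg_left h1 (by linarith)
  have h5 : (2 / 3 + κ) * Real.log (max x 1) ≤ 7 / 6 * Real.log (max x 1) :=
    mul_le_mul_of_nonneg_right (by linarith) h3
  have h6 : c / 2 * x ≤ (1 - κ) * (c * x) := by
    have : 0 ≤ c * x := by positivity
    nlinarith
  have h7 : (1 - κ) * C ≤ 3 / 2 * |C| := by
    have e1 := le_abs_self C
    have e2 := abs_nonneg C
    calc (1 - κ) * C ≤ (1 - κ) * |C| := mul_le_mul_of_nonneg_left e1 (by linarith)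
      _ ≤ 3 / 2 * |C| := mul_le_mul_of_nonneg_right (by linarith) e2
  have h8 : 7 / 6 * (s * x) ≤ 3 / 8 * c * x := by
    rw [hs]; have : 0 ≤ c * x := by positivity
    nlinarith
  nlinarith

/-- compactly supported measures integrate continuous functions -/
theorem p7c_int_compact {μ : Measure ℝ} [IsFiniteMeasure μ] (h0 : μ (Iio 0) = 0) {R : ℝ}
    (hR : μ (Ioi R) = 0) {f : ℝ → ℝ} (hf : Continuous f) : Integrable f μ := by
  obtain ⟨C, hC⟩ := (isCompact_Icc (a := (0 : ℝ)) (b := R)).exists_bound_of_continuousOn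
    hf.continuousOn
  refine Integrable.of_bound (C := C) hf.aestronglyMeasurable ?_
  have h1 := p7c_ae_nonneg h0
  have h2 : ∀ᵐ x ∂μ, x ≤ R := by
    rw [ae_iff]; convert hR using 2; ext x; simp
  filter_upwards [h1, h2] with x h1 h2 using hC x ⟨h1, h2⟩

/-- the potential term: comparison with the cut-off limit -/
theorem p7c_pot_lsc {α τ : ℝ} (hτ : 0 < τ) {V : ℝ → ℝ} (hV : Pot V) (a : ℕ → Measure ℝ)
    (κ : ℕ → ℝ) (hκ : Tendsto κ atTop (𝓝 0)) (ha : ∀ j, IsFiniteMeasure (a j))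
    (ha0 : ∀ j, a j (Iio 0) = 0) (hcs : ∀ j, ∃ R : ℝ, a j (Ioi R) = 0) (a' : Measure ℝ)
    (hva : ∀ g : ℝ → ℝ, Continuous g → HasCompactSupport g →
      Tendsto (fun j => ∫ x, g x ∂(a j)) atTop (𝓝 (∫ x, g x ∂a'))) (c C : ℝ) (hc : 0 < c)
    (hP : ∀ κ : ℝ, |κ| ≤ 1 / 2 → ∀ x : ℝ, 0 ≤ x → c * x - C ≤ p7c_P α τ V κ x) (R : ℝ)
    (hR : C ≤ c * R) (ε : ℝ) (hε : 0 < ε) :
    ∀ᶠ j in atTop, ∫ x, p7c_P α τ V 0 x * p7c_cut R x ∂a' - ε ≤ ∫ x, p7c_P α τ V (κ j) x ∂(a j) := by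
  have h1 : Tendsto (fun j => ∫ x, p7c_P α τ V 0 x * p7c_cut R x ∂(a j)) atTop
      (𝓝 (∫ x, p7c_P α τ V 0 x * p7c_cut R x ∂a')) :=
    hva _ ((p7c_P_cont hτ hV 0).mul (p7c_cut_cont R)) (p7c_cut_compact R).mul_left
  have h2 : Tendsto (fun j => ∫ x, (U1 α τ V x + Real.log (max x 1)) * p7c_cut R x ∂(a j)) atTop
      (𝓝 (∫ x, (U1 α τ V x + Real.log (max x 1)) * p7c_cut R x ∂a')) :=
    hva _ (((p7c_U1_cont hτ hV).add p7c_logmax_cont).mul (p7c_cut_cont R))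
      (p7c_cut_compact R).mul_left
  have h3 : Tendsto (fun j => ∫ x, p7c_P α τ V 0 x * p7c_cut R x ∂(a j) -
      κ j * ∫ x, (U1 α τ V x + Real.log (max x 1)) * p7c_cut R x ∂(a j)) atTop
      (𝓝 (∫ x, p7c_P α τ V 0 x * p7c_cut R x ∂a')) := by
    have := h1.sub (hκ.mul h2)
    simpa using this
  have h4 : ∀ᶠ j in atTop, |κ j| ≤ 1 / 2 := by
    have := hκ.abs
    rw [abs_zero] at this
    exact (this.eventually (eventually_lt_nhds (show (0 : ℝ) < 1 / 2 by norm_num))).mono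
      fun j hj => hj.le
  filter_upwards [h4, h3.eventually (eventually_gt_nhds (show
    ∫ x, p7c_P α τ V 0 x * p7c_cut R x ∂a' - ε < ∫ x, p7c_P α τ V 0 x * p7c_cut R x ∂a'
      by linarith))] with j hj1 hj2
  have := ha j
  obtain ⟨R', hR'⟩ := hcs j
  have i1 : Integrable (fun x => p7c_P α τ V 0 x * p7c_cut R x) (a j) :=
    p7c_int_compact (ha0 j) hR' ((p7c_P_cont hτ hV 0).mul (p7c_cut_cont R))
  have i2 : Integrable (fun x => (U1 α τ V x + Real.log (max x 1)) * p7c_cut R x) (a j) :=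
    p7c_int_compact (ha0 j) hR'
      (((p7c_U1_cont hτ hV).add p7c_logmax_cont).mul (p7c_cut_cont R))
  have i3 : Integrable (fun x => p7c_P α τ V (κ j) x) (a j) :=
    p7c_int_compact (ha0 j) hR' (p7c_P_cont hτ hV (κ j))
  have e1 : ∫ x, p7c_P α τ V 0 x * p7c_cut R x ∂(a j) -
      κ j * ∫ x, (U1 α τ V x + Real.log (max x 1)) * p7c_cut R x ∂(a j) =
      ∫ x, p7c_P α τ V (κ j) x * p7c_cut R x ∂(a j) := by
    rw [← integral_const_mul, ← integral_sub i1 (i2.const_mul _)]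
    refine integral_congr_ae (Eventually.of_forall fun x => ?_)
    simp only [p7c_P]; ring
  rw [e1] at hj2
  refine hj2.le.trans (integral_mono_ae ?_ i3 ?_)
  · exact p7c_int_compact (ha0 j) hR' ((p7c_P_cont hτ hV (κ j)).mul (p7c_cut_cont R))
  · filter_upwards [p7c_ae_nonneg (ha0 j)] with x hx
    rcases le_or_gt x R with h | h
    · rw [p7c_cut_one (by rwa [abs_of_nonneg hx]), mul_one]
    · have h5 := hP (κ j) hj1 x hx
      have h6 : 0 ≤ p7c_P α τ V (κ j) x := by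
        refine le_trans ?_ h5
        nlinarith
      have h7 := p7c_cut_le_one R x
      nlinarith

/-- integrability and limit of the cut-off potential terms -/
theorem p7c_pot_limit {α τ : ℝ} (hτ : 0 < τ) {V : ℝ → ℝ} (hV : Pot V) (a' : Measure ℝ)
    [IsFiniteMeasure a'] (ha0 : a' (Iio 0) = 0) (c C : ℝ) (hc : 0 < c) (hC : 0 < C)
    (hP : ∀ κ : ℝ, |κ| ≤ 1 / 2 → ∀ x : ℝ, 0 ≤ x → c * x - C ≤ p7c_P α τ V κ x) (B : ℝ) (n₀ : ℕ)
    (hB : ∀ n : ℕ, n₀ ≤ n → ∫ x, p7c_P α τ V 0 x * p7c_cut n x ∂a' ≤ B) :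
    Integrable (U1 α τ V) a' ∧ Integrable (p7c_P α τ V 0) a' ∧
      ∫ x, p7c_P α τ V 0 x ∂a' ≤ B := by
  have hP0 : ∀ x, 0 ≤ x → 0 ≤ p7c_P α τ V 0 x + C := by
    intro x hx
    have := hP 0 (by simp) x hx
    nlinarith
  -- the nonnegative functions
  let F : ℕ → ℝ → ℝ≥0∞ := fun n x =>
    ENNReal.ofReal ((p7c_P α τ V 0 x + C) * p7c_cut ((n + n₀ : ℕ) : ℝ) x)
  have hint : ∀ R : ℝ, Integrable (fun x => p7c_P α τ V 0 x * p7c_cut R x) a' := fun R =>
    ((p7c_P_cont hτ hV 0).mul (p7c_cut_cont R)).integrable_of_hasCompactSupport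
      (p7c_cut_compact R).mul_left
  have hint' : ∀ R : ℝ, Integrable (fun x => p7c_cut R x) a' := fun R =>
    (p7c_cut_cont R).integrable_of_hasCompactSupport (p7c_cut_compact R)
  have h1 : ∫⁻ x, ENNReal.ofReal (p7c_P α τ V 0 x + C) ∂a' ≤
      ENNReal.ofReal (B + C * a'.real univ) := by
    have hlim : ∀ᵐ x ∂a', Tendsto (fun n => F n x) atTop
        (𝓝 (ENNReal.ofReal (p7c_P α τ V 0 x + C))) := by
      refine Eventually.of_forall fun x => ?_
      refine ENNReal.tendsto_ofReal ?_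
      have h2 : Tendsto (fun n : ℕ => p7c_cut ((n + n₀ : ℕ) : ℝ) x) atTop (𝓝 1) :=
        (p7c_cut_tendsto x).comp (tendsto_add_atTop_nat n₀)
      simpa using h2.const_mul (p7c_P α τ V 0 x + C)
    have hmono : ∀ᵐ x ∂a', Monotone fun n => F n x := by
      filter_upwards [p7c_ae_nonneg ha0] with x hx
      intro n m hnm
      refine ENNReal.ofReal_le_ofReal (mul_le_mul_of_nonneg_left ?_ (hP0 x hx))
      exact p7c_cut_mono (by exact_mod_cast Nat.add_le_add_right hnm n₀) x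
    have hmeas : ∀ n, AEMeasurable (F n) a' := by
      intro n
      refine (Continuous.measurable ?_).aemeasurable
      exact ENNReal.continuous_ofReal.comp
        (((p7c_P_cont hτ hV 0).add continuous_const).mul (p7c_cut_cont _))
    have h2 := lintegral_tendsto_of_tendsto_of_monotone hmeas hmono hlim
    refine le_of_tendsto' h2 fun n => ?_
    have i1 : Integrable (fun x => (p7c_P α τ V 0 x + C) * p7c_cut ((n + n₀ : ℕ) : ℝ) x) a' := by
      have := (hint ((n + n₀ : ℕ) : ℝ)).add ((hint' ((n + n₀ : ℕ) : ℝ)).const_mul C)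
      refine this.congr (Eventually.of_forall fun x => ?_)
      simp only [Pi.add_apply]; ring
    have h3 : ∫⁻ x, F n x ∂a' = ENNReal.ofReal
        (∫ x, (p7c_P α τ V 0 x + C) * p7c_cut ((n + n₀ : ℕ) : ℝ) x ∂a') := by
      refine (ofReal_integral_eq_lintegral_ofReal i1 ?_).symm
      filter_upwards [p7c_ae_nonneg ha0] with x hx
      exact mul_nonneg (hP0 x hx) (p7c_cut_nonneg _ _)
    rw [h3]
    refine ENNReal.ofReal_le_ofReal ?_
    have e1 : ∫ x, (p7c_P α τ V 0 x + C) * p7c_cut ((n + n₀ : ℕ) : ℝ) x ∂a' =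
        ∫ x, p7c_P α τ V 0 x * p7c_cut ((n + n₀ : ℕ) : ℝ) x ∂a' +
          C * ∫ x, p7c_cut ((n + n₀ : ℕ) : ℝ) x ∂a' := by
      rw [← integral_const_mul, ← integral_add (hint _) ((hint' _).const_mul C)]
      refine integral_congr_ae (Eventually.of_forall fun x => ?_)
      simp only; ring
    rw [e1]
    have e2 : ∫ x, p7c_cut ((n + n₀ : ℕ) : ℝ) x ∂a' ≤ a'.real univ := by
      have := integral_mono (hint' ((n + n₀ : ℕ) : ℝ)) (integrable_const (1 : ℝ))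
        (fun x => p7c_cut_le_one _ x)
      simpa using this
    have := hB (n + n₀) (Nat.le_add_left _ _)
    nlinarith
  have hi1 : Integrable (fun x => p7c_P α τ V 0 x + C) a' := by
    refine ⟨((p7c_P_cont hτ hV 0).add continuous_const).aestronglyMeasurable, ?_⟩
    rw [hasFiniteIntegral_iff_ofReal]
    · exact lt_of_le_of_lt h1 ENNReal.ofReal_lt_top
    · filter_upwards [p7c_ae_nonneg ha0] with x hx using hP0 x hx
  have hi2 : Integrable (p7c_P α τ V 0) a' := by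
    have := hi1.sub (integrable_const C)
    refine this.congr (Eventually.of_forall fun x => ?_)
    simp
  refine ⟨?_, hi2, ?_⟩
  · -- `U1 = P + (2/3) log max`
    have hi3 : Integrable (fun x => Real.log (max x 1)) a' := by
      have h5 := hi1.const_mul (1 / c)
      refine Integrable.mono' (h5.add (integrable_const (1 + |Real.log 1|)))
        p7c_logmax_cont.aestronglyMeasurable ?_
      filter_upwards [p7c_ae_nonneg ha0] with x hx
      rw [Real.norm_eq_abs, abs_of_nonneg (p7c_logmax_nonneg x)]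
      have h6 := p7c_logmax_le 1 one_pos x hx
      have h7 := hP 0 (by simp) x hx
      have h8 : x ≤ 1 / c * (p7c_P α τ V 0 x + C) := by
        rw [one_div, ← div_eq_inv_mul, le_div_iff₀ hc]; linarith
      simp only [Pi.add_apply]
      linarith
    have := hi2.add (hi3.const_mul (2 / 3))
    refine this.congr (Eventually.of_forall fun x => ?_)
    simp only [Pi.add_apply, p7c_P]; ring
  · have hlim : Tendsto (fun n : ℕ => ∫ x, p7c_P α τ V 0 x * p7c_cut n x ∂a') atTop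
        (𝓝 (∫ x, p7c_P α τ V 0 x ∂a')) := by
      refine tendsto_integral_of_dominated_convergence (fun x => ‖p7c_P α τ V 0 x‖)
        (fun n => (hint n).aestronglyMeasurable) hi2.norm ?_ ?_
      · intro n
        refine Eventually.of_forall fun x => ?_
        rw [norm_mul]
        refine mul_le_of_le_one_right (norm_nonneg _) ?_
        rw [Real.norm_eq_abs, abs_of_nonneg (p7c_cut_nonneg _ _)]
        exact p7c_cut_le_one _ _
      · refine Eventually.of_forall fun x => ?_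
        simpa using (p7c_cut_tendsto x).const_mul (p7c_P α τ V 0 x)
    refine le_of_tendsto hlim ?_
    filter_upwards [eventually_ge_atTop n₀] with n hn using hB n hn

/-! ### the quadratic form of the tails -/

/-- the `q`-term -/
def p7c_q (a b c : Measure ℝ) (ν u : ℝ) : ℝ :=
  1 / u * max 0 (qf (tl a u) (tl b u) (tl c u) - (tl b u + tl c u) / ν)

theorem p7c_q_meas (a b c : Measure ℝ) [IsFiniteMeasure a] [IsFiniteMeasure b]
    [IsFiniteMeasure c] (ν : ℝ) : Measurable (p7c_q a b c ν) := by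
  have ha := p7c_tl_meas a
  have hb := p7c_tl_meas b
  have hc := p7c_tl_meas c
  unfold p7c_q qf
  fun_prop

theorem p7c_q_nonneg (a b c : Measure ℝ) (ν u : ℝ) (hu : 0 < u) : 0 ≤ p7c_q a b c ν u := by
  unfold p7c_q
  exact mul_nonneg (by positivity) (le_max_left _ _)

theorem p7c_q_int (a b c : Measure ℝ) [IsFiniteMeasure a] [IsFiniteMeasure b]
    [IsFiniteMeasure c] (ν R : ℝ) (hR : a (Ioi R) = 0 ∧ b (Ioi R) = 0 ∧ c (Ioi R) = 0) :
    IntegrableOn (p7c_q a b c ν) (Ioi 1) := by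
  have hz : ∀ (m : Measure ℝ), m (Ioi R) = 0 → ∀ u, R < u → tl m u = 0 := by
    intro m hm u hu
    unfold tl
    rw [measureReal_eq_zero_iff (by
      exact ne_of_lt (lt_of_le_of_lt (measure_mono (Ioi_subset_Ioi hu.le)) (by rw [hm]; simp)))]
    exact measure_mono_null (Ioi_subset_Ioi hu.le) hm
  have h1 : IntegrableOn (p7c_q a b c ν) (Ioc 1 R) := by
    set m : ℝ := a.real univ + b.real univ + c.real univ with hm
    have hm0 : 0 ≤ m := by positivity
    refine Measure.integrableOn_of_bounded (M := 3 * m ^ 2 + 2 * m / |ν|) (by simp)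
      (p7c_q_meas a b c ν).aestronglyMeasurable ?_
    refine (ae_restrict_mem measurableSet_Ioc).mono fun u hu => ?_
    have e1 : tl a u ≤ m := (p7c_tl_le a u).trans (by
      rw [hm]; linarith [measureReal_nonneg (μ := b) (s := univ),
        measureReal_nonneg (μ := c) (s := univ)])
    have e2 : tl b u ≤ m := (p7c_tl_le b u).trans (by
      rw [hm]; linarith [measureReal_nonneg (μ := a) (s := univ),
        measureReal_nonneg (μ := c) (s := univ)])
    have e3 : tl c u ≤ m := (p7c_tl_le c u).trans (by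
      rw [hm]; linarith [measureReal_nonneg (μ := b) (s := univ),
        measureReal_nonneg (μ := a) (s := univ)])
    have f1 := p7c_tl_nonneg a u
    have f2 := p7c_tl_nonneg b u
    have f3 := p7c_tl_nonneg c u
    have hq : qf (tl a u) (tl b u) (tl c u) ≤ 3 * m ^ 2 := by
      unfold qf
      have g1 : tl a u ^ 2 ≤ m ^ 2 := pow_le_pow_left₀ f1 e1 2
      have g2 : tl b u ^ 2 ≤ m ^ 2 := pow_le_pow_left₀ f2 e2 2
      have g3 : tl c u ^ 2 ≤ m ^ 2 := pow_le_pow_left₀ f3 e3 2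
      have g4 := mul_nonneg f1 f2
      have g5 := mul_nonneg f2 f3
      linarith
    have hs : |(tl b u + tl c u) / ν| ≤ 2 * m / |ν| := by
      rw [abs_div, abs_of_nonneg (add_nonneg f2 f3)]
      exact div_le_div_of_nonneg_right (by linarith) (abs_nonneg _)
    have hu0 : 1 < u := hu.1
    unfold p7c_q
    have g0 : (0 : ℝ) ≤ 1 / u := by have : 0 < u := by linarith
                                    positivity
    rw [norm_mul, Real.norm_of_nonneg g0, Real.norm_of_nonneg (le_max_left (0 : ℝ) _)]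
    have g6 : 1 / u ≤ 1 := by rw [div_le_one (by linarith)]; exact hu0.le
    have g7 : max 0 (qf (tl a u) (tl b u) (tl c u) - (tl b u + tl c u) / ν) ≤
        3 * m ^ 2 + 2 * m / |ν| := by
      refine max_le (by positivity) ?_
      have := neg_abs_le ((tl b u + tl c u) / ν)
      linarith
    calc 1 / u * max 0 (qf (tl a u) (tl b u) (tl c u) - (tl b u + tl c u) / ν)
        ≤ 1 * max 0 (qf (tl a u) (tl b u) (tl c u) - (tl b u + tl c u) / ν) :=
          mul_le_mul_of_nonneg_right g6 (le_max_left _ _)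
      _ ≤ _ := by rw [one_mul]; exact g7
  have h2 : IntegrableOn (p7c_q a b c ν) (Ioi R) := by
    refine (integrableOn_zero (s := Ioi R) (μ := volume)).congr_fun ?_ measurableSet_Ioi
    intro u hu
    have hu' : R < u := hu
    simp [p7c_q, hz a hR.1 u hu', hz b hR.2.1 u hu', hz c hR.2.2 u hu', qf]
  refine (h1.union h2).mono_set ?_
  intro u hu
  rcases le_or_gt u R with h | h
  · exact Or.inl ⟨hu, h⟩
  · exact Or.inr h

theorem p7c_q_fatou (a b c : ℕ → Measure ℝ) (ν : ℕ → ℝ) (hν : Tendsto ν atTop atTop)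
    (ha : ∀ j, IsFiniteMeasure (a j)) (hb : ∀ j, IsFiniteMeasure (b j))
    (hc : ∀ j, IsFiniteMeasure (c j))
    (hcs : ∀ j, ∃ R : ℝ, a j (Ioi R) = 0 ∧ b j (Ioi R) = 0 ∧ c j (Ioi R) = 0)
    (A B C : ℝ → ℝ) (hA : ∀ᵐ u : ℝ, Tendsto (fun j => tl (a j) u) atTop (𝓝 (A u)))
    (hB : ∀ᵐ u : ℝ, Tendsto (fun j => tl (b j) u) atTop (𝓝 (B u)))
    (hC : ∀ᵐ u : ℝ, Tendsto (fun j => tl (c j) u) atTop (𝓝 (C u))) :
    ∫⁻ u in Ioi (1 : ℝ), ENNReal.ofReal (1 / u * qf (A u) (B u) (C u)) ≤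
      liminf (fun j => ENNReal.ofReal (∫ u in Ioi (1 : ℝ), p7c_q (a j) (b j) (c j) (ν j) u))
        atTop := by
  have h1 : ∀ j, ENNReal.ofReal (∫ u in Ioi (1 : ℝ), p7c_q (a j) (b j) (c j) (ν j) u) =
      ∫⁻ u in Ioi (1 : ℝ), ENNReal.ofReal (p7c_q (a j) (b j) (c j) (ν j) u) := by
    intro j
    have := ha j
    have := hb j
    have := hc j
    obtain ⟨R, hR⟩ := hcs j
    refine ofReal_integral_eq_lintegral_ofReal (p7c_q_int _ _ _ _ R hR) ?_
    refine (ae_restrict_mem measurableSet_Ioi).mono fun u hu => ?_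
    exact p7c_q_nonneg _ _ _ _ _ (lt_trans one_pos hu)
  simp_rw [h1]
  refine le_trans ?_ (lintegral_liminf_le ?_)
  · refine lintegral_mono_ae ?_
    refine ae_restrict_of_ae ?_
    filter_upwards [hA, hB, hC] with u hu1 hu2 hu3
    have h2 : Tendsto (fun j => p7c_q (a j) (b j) (c j) (ν j) u) atTop
        (𝓝 (1 / u * max 0 (qf (A u) (B u) (C u) - 0))) := by
      unfold p7c_q
      refine Tendsto.const_mul _ (Tendsto.max tendsto_const_nhds (Tendsto.sub ?_ ?_))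
      · unfold qf
        exact ((((hu1.pow 2).add (hu2.pow 2)).add (hu3.pow 2)).sub (hu1.mul hu2)).sub
          (hu2.mul hu3)
      · exact (hu2.add hu3).div_atTop hν
    rw [sub_zero, max_eq_right (p7c_qf_nonneg _ _ _)] at h2
    exact (ENNReal.tendsto_ofReal h2).liminf_eq.ge
  · intro j
    have := ha j
    have := hb j
    have := hc j
    exact (p7c_q_meas _ _ _ _).ennreal_ofReal

theorem p7c_escape (A B C : ℝ → ℝ) (mA : Measurable A) (mB : Measurable B) (mC : Measurable C)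
    (β γ : ℝ) (hA : Tendsto A atTop (𝓝 0)) (hB : Tendsto B atTop (𝓝 β))
    (hC : Tendsto C atTop (𝓝 γ))
    (h : ∫⁻ u in Ioi (1 : ℝ), ENNReal.ofReal (1 / u * qf (A u) (B u) (C u)) < ⊤) :
    β = 0 ∧ γ = 0 := by
  by_contra hne
  have hne' : β ≠ 0 ∨ γ ≠ 0 := by
    by_contra hcon
    push Not at hcon
    exact hne hcon
  have h1 := p7c_qf_pos β γ hne'
  have h2 : Tendsto (fun u => qf (A u) (B u) (C u)) atTop (𝓝 (qf 0 β γ)) := by
    unfold qf
    exact ((((hA.pow 2).add (hB.pow 2)).add (hC.pow 2)).sub (hA.mul hB)).sub (hB.mul hC)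
  obtain ⟨U, hU⟩ := ((h2.eventually (eventually_gt_nhds
    (show qf 0 β γ / 2 < qf 0 β γ by linarith))).and (eventually_ge_atTop 1)).exists_forall_of_atTop
  set d := qf 0 β γ / 2 with hd
  have hd0 : 0 < d := by rw [hd]; linarith
  have hU1 : 1 ≤ U := (hU U le_rfl).2
  refine not_integrableOn_Ioi_inv (a := U) ?_
  have h3 : IntegrableOn (fun u : ℝ => 1 / u * qf (A u) (B u) (C u)) (Ioi U) := by
    refine ⟨?_, ?_⟩
    · have : Measurable (fun u : ℝ => 1 / u * qf (A u) (B u) (C u)) := by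
        unfold qf; fun_prop
      exact this.aestronglyMeasurable
    · rw [hasFiniteIntegral_iff_ofReal]
      · exact lt_of_le_of_lt (lintegral_mono_set (Ioi_subset_Ioi hU1)) h
      · refine (ae_restrict_mem measurableSet_Ioi).mono fun u hu => ?_
        have : 0 < u := by have : U < u := hu; linarith
        exact mul_nonneg (by positivity) (p7c_qf_nonneg _ _ _)
  refine Integrable.mono' (h3.const_mul (1 / d)) measurable_inv.aestronglyMeasurable ?_
  refine (ae_restrict_mem measurableSet_Ioi).mono fun u hu => ?_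
  have hu' : U < u := hu
  have hu0 : 0 < u := by linarith
  have h4 := (hU u hu'.le).1
  rw [Real.norm_eq_abs, abs_of_nonneg (by positivity)]
  have h5 : u⁻¹ * 1 ≤ u⁻¹ * (1 / d * qf (A u) (B u) (C u)) := by
    refine mul_le_mul_of_nonneg_left ?_ (by positivity)
    rw [one_div, ← div_eq_inv_mul, le_div_iff₀ hd0, one_mul]
    exact h4.le
  calc u⁻¹ = u⁻¹ * 1 := by ring
    _ ≤ u⁻¹ * (1 / d * qf (A u) (B u) (C u)) := h5
    _ = _ := by ring

/-! ### monotone limits -/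

theorem p7c_beppo {E : Type*} [MeasurableSpace E] (μ : Measure E) (f : ℕ → E → ℝ) (F : E → ℝ)
    (hf : ∀ n, Integrable (f n) μ) (h0 : ∀ n, ∀ᵐ x ∂μ, 0 ≤ f n x)
    (hm : ∀ᵐ x ∂μ, Monotone fun n => f n x)
    (hl : ∀ᵐ x ∂μ, Tendsto (fun n => f n x) atTop (𝓝 (F x))) (B : ℝ) (hB : ∀ n, ∫ x, f n x ∂μ ≤ B) :
    Integrable F μ ∧ Tendsto (fun n => ∫ x, f n x ∂μ) atTop (𝓝 (∫ x, F x ∂μ)) := by
  have hF : Integrable F μ := by
    have hFm : AEStronglyMeasurable F μ :=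
      aestronglyMeasurable_of_tendsto_ae atTop (fun n => (hf n).aestronglyMeasurable) hl
    have hF0 : ∀ᵐ x ∂μ, 0 ≤ F x := by
      have := ae_all_iff.2 h0
      filter_upwards [this, hl] with x hx1 hx2
      exact ge_of_tendsto' hx2 hx1
    refine ⟨hFm, ?_⟩
    rw [hasFiniteIntegral_iff_ofReal hF0]
    have h2 := lintegral_tendsto_of_tendsto_of_monotone (μ := μ)
      (f := fun n x => ENNReal.ofReal (f n x)) (F := fun x => ENNReal.ofReal (F x))
      (fun n => (hf n).aestronglyMeasurable.aemeasurable.ennreal_ofReal)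
      (hm.mono fun x hx n m hnm => ENNReal.ofReal_le_ofReal (hx hnm))
      (hl.mono fun x hx => ENNReal.tendsto_ofReal hx)
    refine lt_of_le_of_lt (le_of_tendsto' (b := ENNReal.ofReal B) h2 fun n => ?_)
      ENNReal.ofReal_lt_top
    rw [← ofReal_integral_eq_lintegral_ofReal (hf n) (h0 n)]
    exact ENNReal.ofReal_le_ofReal (hB n)
  exact ⟨hF, integral_tendsto_of_tendsto_of_monotone hf hF hm hl⟩

/-! ### the `Rm` terms -/

theorem p7c_RmM_nonneg (M x y : ℝ) (hM : 0 < M) (hx : 0 ≤ x) (hy : 0 ≤ y) : 0 ≤ RmM M x y := by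
  unfold RmM
  rw [neg_nonneg]
  refine Real.log_nonpos (le_max_of_le_right (Real.exp_pos _).le) (max_le ?_ ?_)
  · rw [div_le_one (p7c_max_pos _ _), abs_le]
    constructor
    · linarith [le_max_left (max x y) 1, le_max_right x y]
    · linarith [le_max_left (max x y) 1, le_max_left x y]
  · rw [Real.exp_le_one_iff]; linarith

theorem p7c_RmM_mono {M M' : ℝ} (h : M ≤ M') (x y : ℝ) : RmM M x y ≤ RmM M' x y := by
  unfold RmM
  rw [neg_le_neg_iff]
  refine Real.log_le_log (lt_of_lt_of_le (Real.exp_pos _) (le_max_right _ _)) ?_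
  exact max_le_max le_rfl (Real.exp_le_exp.2 (by linarith))

theorem p7c_RmM_tendsto (x y : ℝ) (hxy : x ≠ y) :
    Tendsto (fun n : ℕ => RmM ((n : ℝ) + 1) x y) atTop (𝓝 (Rm x y)) := by
  have ht : 0 < |x - y| / max (max x y) 1 :=
    div_pos (abs_pos.2 (sub_ne_zero.2 hxy)) (p7c_max_pos _ _)
  refine tendsto_const_nhds.congr' ?_
  obtain ⟨N, hN⟩ := exists_nat_ge (-Real.log (|x - y| / max (max x y) 1))
  filter_upwards [eventually_ge_atTop N] with n hn
  unfold RmM Rm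
  have h1 : Real.exp (-((n : ℝ) + 1)) ≤ |x - y| / max (max x y) 1 := by
    rw [← Real.exp_log ht]
    refine Real.exp_le_exp.2 ?_
    have : (N : ℝ) ≤ n := by exact_mod_cast hn
    linarith
  rw [max_eq_left h1, ← Real.log_inv, inv_div]

theorem p7c_noatom (μ : Measure ℝ) [IsFiniteMeasure μ] (h0 : μ (Iio 0) = 0) (B : ℝ)
    (hB : ∀ M : ℝ, 0 < M → ∫ z : ℝ × ℝ, RmM M z.1 z.2 ∂(μ.prod μ) ≤ B) (x : ℝ) : μ {x} = 0 := by
  by_contra hne
  have hm : 0 < μ.real {x} := by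
    rw [Measure.real]
    exact ENNReal.toReal_pos hne (measure_ne_top _ _)
  have key : ∀ M : ℝ, 0 < M → M * (μ.real {x}) ^ 2 ≤ B := by
    intro M hM
    refine le_trans ?_ (hB M hM)
    have hker := p7c_RmM_ker M hM
    have h1 : ∫ z : ℝ × ℝ, ({(x, x)} : Set (ℝ × ℝ)).indicator (fun _ => M) z ∂(μ.prod μ) =
        M * (μ.real {x}) ^ 2 := by
      rw [integral_indicator (measurableSet_singleton _), setIntegral_const, smul_eq_mul]
      have : ({(x, x)} : Set (ℝ × ℝ)) = {x} ×ˢ {x} := by simp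
      rw [this, measureReal_prod_prod]
      ring
    rw [← h1]
    refine integral_mono_ae ?_ (hker.integrable h0 h0) ?_
    · exact (integrable_const M).indicator (measurableSet_singleton _)
    · filter_upwards [p7c_ae_prod h0 h0] with z hz
      by_cases hzx : z = (x, x)
      · subst hzx
        simp only [indicator_of_mem (mem_singleton _)]
        have : RmM M x x = M := by
          unfold RmM
          rw [sub_self, abs_zero, zero_div, max_eq_right (Real.exp_pos _).le, Real.log_exp, neg_neg]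
        rw [this]
      · rw [indicator_of_notMem (by simpa using hzx)]
        exact p7c_RmM_nonneg M _ _ hM hz.1 hz.2
  have h2 : 0 < (μ.real {x}) ^ 2 := by positivity
  have h3 := key ((|B| + 1) / (μ.real {x}) ^ 2) (by positivity)
  rw [div_mul_cancel₀ _ h2.ne'] at h3
  have := le_abs_self B
  linarith

theorem p7c_Rm (μ : Measure ℝ) [IsFiniteMeasure μ] (h0 : μ (Iio 0) = 0) (B : ℝ)
    (hB : ∀ M : ℝ, 0 < M → ∫ z : ℝ × ℝ, RmM M z.1 z.2 ∂(μ.prod μ) ≤ B) :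
    Integrable (fun z : ℝ × ℝ => Rm z.1 z.2) (μ.prod μ) ∧
      Tendsto (fun n : ℕ => ∫ z : ℝ × ℝ, RmM ((n : ℝ) + 1) z.1 z.2 ∂(μ.prod μ)) atTop
        (𝓝 (∫ z : ℝ × ℝ, Rm z.1 z.2 ∂(μ.prod μ))) := by
  have hpos : ∀ n : ℕ, (0 : ℝ) < (n : ℝ) + 1 := fun n => by positivity
  have hdiag : ∀ᵐ z ∂(μ.prod μ), z.1 ≠ z.2 := by
    rw [ae_iff]
    have : {z : ℝ × ℝ | ¬ z.1 ≠ z.2} = Set.diagonal ℝ := by ext z; simp [Set.mem_diagonal_iff]
    rw [this, Measure.measure_prod_null measurableSet_diagonal]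
    refine Eventually.of_forall fun x => ?_
    have : Prod.mk x ⁻¹' Set.diagonal ℝ = {x} := by
      ext y; simp [Set.mem_diagonal_iff, eq_comm]
    simp only [this, Pi.zero_apply]
    exact p7c_noatom μ h0 B hB x
  refine p7c_beppo (μ.prod μ) (fun n z => RmM ((n : ℝ) + 1) z.1 z.2) (fun z => Rm z.1 z.2)
    ?_ ?_ ?_ ?_ B ?_
  · intro n
    exact (p7c_RmM_ker _ (hpos n)).integrable h0 h0
  · intro n
    filter_upwards [p7c_ae_prod h0 h0] with z hz
    exact p7c_RmM_nonneg _ _ _ (hpos n) hz.1 hz.2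
  · refine Eventually.of_forall fun z n m hnm => p7c_RmM_mono ?_ _ _
    have : (n : ℝ) ≤ m := by exact_mod_cast hnm
    linarith
  · filter_upwards [hdiag] with z hz using p7c_RmM_tendsto _ _ hz
  · intro n
    exact hB _ (hpos n)

/-! ### the `Rp` terms -/

theorem p7c_Rp_le (μ ν : Measure ℝ) [IsFiniteMeasure μ] [IsFiniteMeasure ν] (hμ : μ (Iio 0) = 0)
    (hν : ν (Iio 0) = 0) (hz : μ {0} = 0)
    (hi : Integrable (fun z : ℝ × ℝ => Rp z.1 z.2) (μ.prod ν)) (δ : ℝ) (hδ : 0 < δ) (hδ1 : δ < 1) :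
    ∫ z : ℝ × ℝ, Rp z.1 z.2 ∂(μ.prod ν) ≤ ∫ z : ℝ × ℝ, p7c_RpD δ z ∂(μ.prod ν) := by
  refine integral_mono_ae hi ((p7c_RpD_ker δ hδ hδ1).integrable hμ hν) ?_
  have h1 : ∀ᵐ z ∂(μ.prod ν), z.1 ≠ 0 := by
    have : ∀ᵐ x ∂μ, x ≠ 0 := by rw [ae_iff]; simpa using hz
    exact Measure.quasiMeasurePreserving_fst.ae this
  filter_upwards [p7c_ae_prod hμ hν, h1] with z hz1 hz2
  unfold Rp p7c_RpD
  have h3 : 0 < z.1 := lt_of_le_of_ne hz1.1 (Ne.symm hz2)
  refine Real.log_le_log (div_pos (by linarith [hz1.2]) (p7c_max_pos _ _)) ?_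
  refine div_le_div_of_nonneg_right ?_ (p7c_max_pos _ _).le
  rw [abs_of_nonneg hz1.1, abs_of_nonneg hz1.2]
  linarith

/-! ### the potential `U3` -/

theorem p7c_U3_cont {α τ : ℝ} (hτ : 0 < τ) : Continuous (U3 α τ) := by
  unfold U3
  exact (V3_continuous hτ).comp Real.continuous_sqrt

theorem p7c_U3_zero {α τ : ℝ} (x : ℝ) (h : xstar α τ ^ 2 ≤ x) : U3 α τ x = 0 := by
  unfold U3 V3
  rw [if_neg]
  rintro ⟨_, h2⟩
  rw [abs_of_nonneg (Real.sqrt_nonneg _)] at h2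
  have h3 : |xstar α τ| ≤ √x := Real.abs_le_sqrt h
  linarith [le_abs_self (xstar α τ)]

theorem p7c_U3_nonneg {α τ : ℝ} (hτ : 0 < τ) (x : ℝ) : 0 ≤ U3 α τ x := V3_nonneg hτ _

theorem p7c_U3_bound {α τ : ℝ} (hτ : 0 < τ) : ∃ C : ℝ, ∀ x, 0 ≤ x → |U3 α τ x| ≤ C := by
  obtain ⟨C, hC⟩ := (isCompact_Icc (a := (0 : ℝ)) (b := xstar α τ ^ 2)).exists_bound_of_continuousOn
    (p7c_U3_cont (α := α) hτ).continuousOn
  refine ⟨max C 0, fun x hx => ?_⟩
  rcases le_or_gt x (xstar α τ ^ 2) with h | h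
  · exact (hC x ⟨hx, h⟩).trans (le_max_left _ _)
  · rw [p7c_U3_zero x h.le, abs_zero]; exact le_max_right _ _

theorem p7c_U3_int {α τ : ℝ} (hτ : 0 < τ) (μ : Measure ℝ) [IsFiniteMeasure μ]
    (h0 : μ (Iio 0) = 0) : Integrable (U3 α τ) μ := by
  obtain ⟨C, hC⟩ := p7c_U3_bound (α := α) hτ
  refine Integrable.of_bound (C := C) (p7c_U3_cont hτ).aestronglyMeasurable ?_
  filter_upwards [p7c_ae_nonneg h0] with x hx using hC x hx

theorem p7c_U3_tendsto {α τ : ℝ} (hτ : 0 < τ) (c : ℕ → Measure ℝ) (c' : Measure ℝ)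
    (hc0 : ∀ j, c j (Iio 0) = 0) (hc0' : c' (Iio 0) = 0)
    (hvc : ∀ g : ℝ → ℝ, Continuous g → HasCompactSupport g →
      Tendsto (fun j => ∫ x, g x ∂(c j)) atTop (𝓝 (∫ x, g x ∂c'))) (δ : ℝ) (hδ : 0 < δ) :
    Tendsto (fun j => ∫ x, max 0 (U3 α τ x - δ) ∂(c j)) atTop
      (𝓝 (∫ x, max 0 (U3 α τ x - δ) ∂c')) := by
  have key : ∀ μ : Measure ℝ, μ (Iio 0) = 0 → ∫ x, max 0 (U3 α τ x - δ) ∂μ =
      ∫ x, max 0 (U3 α τ x - δ) * p7c_cut (xstar α τ ^ 2) x ∂μ := by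
    intro μ hμ
    refine integral_congr_ae ?_
    filter_upwards [p7c_ae_nonneg hμ] with x hx
    rcases le_or_gt x (xstar α τ ^ 2) with h | h
    · rw [p7c_cut_one (by rwa [abs_of_nonneg hx]), mul_one]
    · rw [p7c_U3_zero x h.le, max_eq_left (by linarith), zero_mul]
  rw [key c' hc0']
  simp_rw [fun j => key (c j) (hc0 j)]
  exact hvc _ ((continuous_const.max ((p7c_U3_cont hτ).sub continuous_const)).mul
    (p7c_cut_cont _)) (p7c_cut_compact _).mul_left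

theorem p7c_U3_le {α τ : ℝ} (hτ : 0 < τ) (μ : Measure ℝ) [IsFiniteMeasure μ]
    (h0 : μ (Iio 0) = 0) (δ : ℝ) :
    ∫ x, U3 α τ x ∂μ - δ * μ.real univ ≤ ∫ x, max 0 (U3 α τ x - δ) ∂μ := by
  have h1 := p7c_U3_int (α := α) hτ μ h0
  have h2 : Integrable (fun x => U3 α τ x - δ) μ := h1.sub (integrable_const δ)
  have h3 : Integrable (fun x => max 0 (U3 α τ x - δ)) μ := by
    have := h2.pos_part
    refine this.congr (Eventually.of_forall fun x => ?_)
    simp [max_comm]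
  have h4 := integral_mono h2 h3 (fun x => le_max_right _ _)
  rw [integral_sub h1 (integrable_const δ), integral_const, smul_eq_mul] at h4
  linarith

/-! ### the core: convergent sequences -/

theorem p7c_core {α τ : ℝ} (hτ : 0 < τ) {V : ℝ → ℝ} (hV : Pot V)
    (a b c : ℕ → Measure ℝ) (ν κ L : ℕ → ℝ) (K : ℝ) (w : ℝ → ℝ)
    (ha : ∀ j, IsFiniteMeasure (a j)) (hb : ∀ j, IsFiniteMeasure (b j))
    (hc : ∀ j, IsFiniteMeasure (c j))
    (ha0 : ∀ j, a j (Iio 0) = 0) (hb0 : ∀ j, b j (Iio 0) = 0) (hc0 : ∀ j, c j (Iio 0) = 0)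
    (hma : Tendsto (fun j => (a j).real univ) atTop (𝓝 (1 / 2)))
    (hmb : Tendsto (fun j => (b j).real univ) atTop (𝓝 (1 / 3)))
    (hmc : Tendsto (fun j => (c j).real univ) atTop (𝓝 (1 / 6)))
    (hν : Tendsto ν atTop atTop) (hκ : Tendsto κ atTop (𝓝 0))
    (hcon : ∀ g : ℝ → ℝ, Continuous g → HasCompactSupport g → (∀ x, 0 ≤ g x) →
      ∀ η : ℝ, 0 < η → ∀ᶠ j in atTop, ∫ x, g x ∂(b j) ≤ ∫ x, g x ∂(sigI α τ) + η)
    (hw : Tendsto w (𝓝[>] 0) (𝓝 0))
    (hL : ∀ j, L j ≤ K)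
    (hcs : ∀ j, ∃ R : ℝ, a j (Ioi R) = 0 ∧ b j (Ioi R) = 0 ∧ c j (Ioi R) = 0)
    (hmain : ∀ M δ : ℝ, 0 < M → 0 < δ → δ < 1 → ∃ e : ℕ → ℝ, Tendsto e atTop (𝓝 0) ∧
      ∀ᶠ j in atTop,
      ∫ z : ℝ × ℝ, RmM M z.1 z.2 ∂((a j).prod (a j)) +
      ∫ z : ℝ × ℝ, RmM M z.1 z.2 ∂((b j).prod (b j)) +
      ∫ z : ℝ × ℝ, RmM M z.1 z.2 ∂((c j).prod (c j)) +
      ∫ z : ℝ × ℝ, RpD δ z.1 z.2 ∂((a j).prod (b j)) +
      ∫ z : ℝ × ℝ, RpD δ z.1 z.2 ∂((b j).prod (c j)) +
      (∫ u in Ioi (1 : ℝ), 1 / u * max 0 (qf (tl (a j) u) (tl (b j) u) (tl (c j) u)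
        - (tl (b j) u + tl (c j) u) / ν j)) +
      ∫ x, ((1 - κ j) * U1 α τ V x - (2 / 3 + κ j) * Real.log (max x 1)) ∂(a j) +
      ∫ x, max 0 (U3 α τ x - δ) ∂(c j) - w δ + e j ≤ L j)
    (a' b' c' : Measure ℝ) [IsFiniteMeasure a'] [IsFiniteMeasure b'] [IsFiniteMeasure c']
    (ha0' : a' (Iio 0) = 0) (hb0' : b' (Iio 0) = 0) (hc0' : c' (Iio 0) = 0)
    (hma' : a'.real univ ≤ 1 / 2)
    (hva : ∀ g : ℝ → ℝ, Continuous g → HasCompactSupport g →
        Tendsto (fun j => ∫ x, g x ∂(a j)) atTop (𝓝 (∫ x, g x ∂a')))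
    (hvb : ∀ g : ℝ → ℝ, Continuous g → HasCompactSupport g →
        Tendsto (fun j => ∫ x, g x ∂(b j)) atTop (𝓝 (∫ x, g x ∂b')))
    (hvc : ∀ g : ℝ → ℝ, Continuous g → HasCompactSupport g →
        Tendsto (fun j => ∫ x, g x ∂(c j)) atTop (𝓝 (∫ x, g x ∂c')))
    (hta : ∀ᵐ u : ℝ, Tendsto (fun j => tl (a j) u) atTop (𝓝 (1 / 2 - a'.real (Iic u))))
    (htb : ∀ᵐ u : ℝ, Tendsto (fun j => tl (b j) u) atTop (𝓝 (1 / 3 - b'.real (Iic u))))
    (htc : ∀ᵐ u : ℝ, Tendsto (fun j => tl (c j) u) atTop (𝓝 (1 / 6 - c'.real (Iic u)))) :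
    WAdm α τ V a' b' c' ∧ JW α τ V a' b' c' ≤ K := by
  classical
  -- masses are bounded
  obtain ⟨Ka, hKa⟩ := hma.bddAbove_range
  obtain ⟨Kb, hKb⟩ := hmb.bddAbove_range
  obtain ⟨Kc, hKc⟩ := hmc.bddAbove_range
  set K0 : ℝ := max Ka (max Kb Kc) with hK0
  have ka : ∀ j, (a j).real univ ≤ K0 := fun j => (hKa ⟨j, rfl⟩).trans (le_max_left _ _)
  have kb : ∀ j, (b j).real univ ≤ K0 := fun j =>
    (hKb ⟨j, rfl⟩).trans ((le_max_left _ _).trans (le_max_right _ _))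
  have kc : ∀ j, (c j).real univ ≤ K0 := fun j =>
    (hKc ⟨j, rfl⟩).trans ((le_max_right _ _).trans (le_max_right _ _))
  obtain ⟨c₀, C₀, hc₀, hC₀, hP⟩ := p7c_P_lower (α := α) hτ hV
  -- abbreviations
  let Qj : ℕ → ℝ := fun j => ∫ u in Ioi (1 : ℝ), p7c_q (a j) (b j) (c j) (ν j) u
  have hQ0 : ∀ j, 0 ≤ Qj j := fun j =>
    setIntegral_nonneg measurableSet_Ioi fun u hu => p7c_q_nonneg _ _ _ _ _ (lt_trans one_pos hu)
  let Pj : ℕ → ℝ := fun j => ∫ x, p7c_P α τ V (κ j) x ∂(a j)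
  let S : ℝ → ℝ → ℝ := fun M δ =>
    ∫ z : ℝ × ℝ, RmM M z.1 z.2 ∂(a'.prod a') + ∫ z : ℝ × ℝ, RmM M z.1 z.2 ∂(b'.prod b') +
    ∫ z : ℝ × ℝ, RmM M z.1 z.2 ∂(c'.prod c') + ∫ z : ℝ × ℝ, p7c_RpD δ z ∂(a'.prod b') +
    ∫ z : ℝ × ℝ, p7c_RpD δ z ∂(b'.prod c') + ∫ x, max 0 (U3 α τ x - δ) ∂c' - w δ
  have KI00 : ∀ M δ : ℝ, 0 < M → 0 < δ → δ < 1 → ∀ ε : ℝ, 0 < ε → ∀ᶠ j in atTop,
      S M δ + Qj j + Pj j ≤ K + ε := by
    intro M δ hM hδ hδ1 ε hε
    obtain ⟨e, he, hev⟩ := hmain M δ hM hδ hδ1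
    have hε' : 0 < ε / 7 := by positivity
    have t1 := (p7c_RmM_ker M hM).lsc a a a' a' ha ha ha0 ha0 ha0' ha0' K0
      (fun j => ⟨ka j, ka j⟩) hva hva (ε / 7) hε'
    have t2 := (p7c_RmM_ker M hM).lsc b b b' b' hb hb hb0 hb0 hb0' hb0' K0
      (fun j => ⟨kb j, kb j⟩) hvb hvb (ε / 7) hε'
    have t3 := (p7c_RmM_ker M hM).lsc c c c' c' hc hc hc0 hc0 hc0' hc0' K0
      (fun j => ⟨kc j, kc j⟩) hvc hvc (ε / 7) hε'
    have t4 := (p7c_RpD_ker δ hδ hδ1).lsc a b a' b' ha hb ha0 hb0 ha0' hb0' K0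
      (fun j => ⟨ka j, kb j⟩) hva hvb (ε / 7) hε'
    have t5 := (p7c_RpD_ker δ hδ hδ1).lsc b c b' c' hb hc hb0 hc0 hb0' hc0' K0
      (fun j => ⟨kb j, kc j⟩) hvb hvc (ε / 7) hε'
    have t6 := (p7c_U3_tendsto (α := α) hτ c c' hc0 hc0' hvc δ hδ).eventually
      (eventually_gt_nhds (show ∫ x, max 0 (U3 α τ x - δ) ∂c' - ε / 7 <
        ∫ x, max 0 (U3 α τ x - δ) ∂c' by linarith))
    have t7 := he.eventually (eventually_gt_nhds (show -(ε / 7) < (0 : ℝ) by linarith))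
    filter_upwards [hev, t1, t2, t3, t4, t5, t6, t7] with j h0 h1 h2 h3 h4 h5 h6 h7
    have e4 : ∫ z : ℝ × ℝ, p7c_RpD δ z ∂((a j).prod (b j)) =
        ∫ z : ℝ × ℝ, RpD δ z.1 z.2 ∂((a j).prod (b j)) := by
      have := ha j
      have := hb j
      refine integral_congr_ae ?_
      filter_upwards [p7c_ae_prod (ha0 j) (hb0 j)] with z hz using p7c_RpD_eq δ z hz.1 hz.2
    have e5 : ∫ z : ℝ × ℝ, p7c_RpD δ z ∂((b j).prod (c j)) =
        ∫ z : ℝ × ℝ, RpD δ z.1 z.2 ∂((b j).prod (c j)) := by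
      have := hb j
      have := hc j
      refine integral_congr_ae ?_
      filter_upwards [p7c_ae_prod (hb0 j) (hc0 j)] with z hz using p7c_RpD_eq δ z hz.1 hz.2
    rw [e4] at h4
    rw [e5] at h5
    have h8 := hL j
    have e6 : Qj j = ∫ u in Ioi (1 : ℝ), 1 / u * max 0 (qf (tl (a j) u) (tl (b j) u) (tl (c j) u)
        - (tl (b j) u + tl (c j) u) / ν j) := rfl
    have e7 : Pj j = ∫ x, ((1 - κ j) * U1 α τ V x - (2 / 3 + κ j) * Real.log (max x 1)) ∂(a j) :=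
      rfl
    rw [← e6, ← e7] at h0
    simp only [S]
    linarith
  -- the first species does not lose mass
  have hmassa : a'.real univ = 1 / 2 := by
    obtain ⟨B2, hB2⟩ : ∃ B2 : ℝ, ∀ᶠ j in atTop, ∫ x, x ∂(a j) ≤ B2 := by
      refine ⟨(K + 1 - S 1 (1 / 2) + C₀ * K0) / c₀, ?_⟩
      have h4 : ∀ᶠ j in atTop, |κ j| ≤ 1 / 2 := by
        have := hκ.abs
        rw [abs_zero] at this
        exact (this.eventually (eventually_lt_nhds (show (0 : ℝ) < 1 / 2 by norm_num))).mono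
          fun j hj => hj.le
      filter_upwards [KI00 1 (1 / 2) one_pos (by norm_num) (by norm_num) 1 one_pos, h4] with j h1 h2
      have := ha j
      obtain ⟨R, hR⟩ := hcs j
      rw [le_div_iff₀ hc₀]
      have i1 : Integrable (fun x : ℝ => x) (a j) := p7c_int_compact (ha0 j) hR.1 continuous_id
      have i2 : Integrable (p7c_P α τ V (κ j)) (a j) :=
        p7c_int_compact (ha0 j) hR.1 (p7c_P_cont hτ hV _)
      have h3 : ∫ x, (c₀ * x - C₀) ∂(a j) ≤ Pj j := by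
        refine integral_mono_ae ((i1.const_mul c₀).sub (integrable_const C₀)) i2 ?_
        filter_upwards [p7c_ae_nonneg (ha0 j)] with x hx using hP (κ j) h2 x hx
      rw [integral_sub (i1.const_mul c₀) (integrable_const C₀), integral_const_mul,
        integral_const, smul_eq_mul] at h3
      have h5 := ka j
      have h6 := hQ0 j
      have h7 : (a j).real univ * C₀ ≤ C₀ * K0 := by
        rw [mul_comm]; exact mul_le_mul_of_nonneg_left h5 hC₀.le
      nlinarith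
    refine le_antisymm hma' ?_
    by_contra hlt
    push Not at hlt
    set d := 1 / 2 - a'.real univ with hd
    have hd0 : 0 < d := by rw [hd]; linarith
    have key : ∀ᵐ u : ℝ, 0 < u → d ≤ B2 / u := by
      filter_upwards [hta] with u hu hu0
      have h1 : 1 / 2 - a'.real (Iic u) ≤ B2 / u := by
        refine le_of_tendsto hu ?_
        filter_upwards [hB2] with j hj
        have := ha j
        obtain ⟨R, hR⟩ := hcs j
        have i1 : Integrable (fun x : ℝ => x) (a j) := p7c_int_compact (ha0 j) hR.1 continuous_id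
        exact (p7c_tl_markov (a j) (ha0 j) i1 u hu0).trans
          (div_le_div_of_nonneg_right hj hu0.le)
      have h2 : a'.real (Iic u) ≤ a'.real univ := measureReal_mono (subset_univ _)
      rw [hd]; linarith
    have hpos : (volume : Measure ℝ) (Ioi ((|B2| + 1) / d)) ≠ 0 := by simp
    obtain ⟨u, hu1, hu2⟩ := ((frequently_ae_mem_iff.2 hpos).and_eventually key).exists
    have hu3 : (|B2| + 1) / d < u := hu1
    have hu0 : 0 < u := lt_of_le_of_lt (by positivity) hu3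
    have h5 := hu2 hu0
    rw [le_div_iff₀ hu0] at h5
    rw [div_lt_iff₀ hd0] at hu3
    have := le_abs_self B2
    nlinarith
  -- cut-off potential term
  obtain ⟨n₀, hn₀⟩ := exists_nat_ge (C₀ / c₀)
  have hn₀' : ∀ n : ℕ, n₀ ≤ n → C₀ ≤ c₀ * n := by
    intro n hn
    rw [div_le_iff₀ hc₀] at hn₀
    have : (n₀ : ℝ) ≤ n := by exact_mod_cast hn
    nlinarith
  have KI0 : ∀ M δ : ℝ, 0 < M → 0 < δ → δ < 1 → ∀ n : ℕ, n₀ ≤ n → ∀ ε : ℝ, 0 < ε →
      ∀ᶠ j in atTop, S M δ + ∫ x, p7c_P α τ V 0 x * p7c_cut n x ∂a' + Qj j ≤ K + ε := by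
    intro M δ hM hδ hδ1 n hn ε hε
    have t1 := KI00 M δ hM hδ hδ1 (ε / 2) (by positivity)
    have t2 := p7c_pot_lsc hτ hV a κ hκ ha ha0 (fun j => (hcs j).imp fun R hR => hR.1) a' hva
      c₀ C₀ hc₀ hP n (hn₀' n hn) (ε / 2) (by positivity)
    filter_upwards [t1, t2] with j h1 h2
    have e7 : Pj j = ∫ x, p7c_P α τ V (κ j) x ∂(a j) := rfl
    rw [← e7] at h2
    linarith
  -- tails
  set A : ℝ → ℝ := fun u => 1 / 2 - a'.real (Iic u) with hA
  set B : ℝ → ℝ := fun u => 1 / 3 - b'.real (Iic u) with hB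
  set C : ℝ → ℝ := fun u => 1 / 6 - c'.real (Iic u) with hC
  have hIic : ∀ m : Measure ℝ, IsFiniteMeasure m → Measurable fun u => m.real (Iic u) := by
    intro m hm
    refine Monotone.measurable fun x y h => ?_
    exact measureReal_mono (Iic_subset_Iic.2 h)
  have hIict : ∀ m : Measure ℝ, IsFiniteMeasure m → Tendsto (fun u => m.real (Iic u)) atTop
      (𝓝 (m.real univ)) := by
    intro m hm
    have := (p7c_tl_tendsto m).const_sub (m.real univ)
    rw [sub_zero] at this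
    refine this.congr fun u => ?_
    rw [p7c_tl_eq]; ring
  set I : ℝ≥0∞ := ∫⁻ u in Ioi (1 : ℝ), ENNReal.ofReal (1 / u * qf (A u) (B u) (C u)) with hI
  have hIle : ∀ X : ℝ, (∀ ε : ℝ, 0 < ε → ∀ᶠ j in atTop, X + Qj j ≤ K + ε) →
      I < ⊤ ∧ X + I.toReal ≤ K := by
    intro X hX
    have hf := p7c_q_fatou a b c ν hν ha hb hc hcs A B C hta htb htc
    have h1 : ∀ ε : ℝ, 0 < ε → I ≤ ENNReal.ofReal (K + ε - X) := by
      intro ε hε
      refine hf.trans ?_
      refine liminf_le_of_le (by isBoundedDefault) ?_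
      intro y hy
      obtain ⟨j, hj1, hj2⟩ := (hy.and (hX ε hε)).exists
      refine hj1.trans (ENNReal.ofReal_le_ofReal ?_)
      change Qj j ≤ _
      linarith
    refine ⟨lt_of_le_of_lt (h1 1 one_pos) ENNReal.ofReal_lt_top, ?_⟩
    refine le_of_forall_pos_le_add fun ε hε => ?_
    have h2 := h1 ε hε
    have h3 : 0 ≤ K + ε - X := by
      obtain ⟨j, hj⟩ := (hX ε hε).exists
      have := hQ0 j
      linarith
    have h4 : I.toReal ≤ K + ε - X := ENNReal.toReal_le_of_le_ofReal h3 h2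
    linarith
  have hItop : I < ⊤ := (hIle _ (KI0 1 (1 / 2) one_pos (by norm_num) (by norm_num) n₀ le_rfl)).1
  have hesc := p7c_escape A B C (measurable_const.sub (hIic a' inferInstance))
    (measurable_const.sub (hIic b' inferInstance)) (measurable_const.sub (hIic c' inferInstance))
    (1 / 3 - b'.real univ) (1 / 6 - c'.real univ)
    (by
      have := (hIict a' inferInstance).const_sub (1 / 2)
      rwa [hmassa, sub_self] at this)
    ((hIict b' inferInstance).const_sub (1 / 3)) ((hIict c' inferInstance).const_sub (1 / 6)) hItop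
  have hmassb : b'.real univ = 1 / 3 := by linarith [hesc.1]
  have hmassc : c'.real univ = 1 / 6 := by linarith [hesc.2]
  have eA : A = tl a' := by funext u; rw [hA, p7c_tl_eq, hmassa]
  have eB : B = tl b' := by funext u; rw [hB, p7c_tl_eq, hmassb]
  have eC : C = tl c' := by funext u; rw [hC, p7c_tl_eq, hmassc]
  rw [eA, eB, eC] at hI
  have hqm : Measurable fun u : ℝ => 1 / u * qf (tl a' u) (tl b' u) (tl c' u) := by
    have h1 := p7c_tl_meas a'
    have h2 := p7c_tl_meas b'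
    have h3 := p7c_tl_meas c'
    unfold qf
    fun_prop
  have hq0 : ∀ᵐ u ∂(volume.restrict (Ioi (1 : ℝ))),
      0 ≤ 1 / u * qf (tl a' u) (tl b' u) (tl c' u) := by
    refine (ae_restrict_mem measurableSet_Ioi).mono fun u hu => ?_
    have : 0 < u := lt_trans one_pos hu
    exact mul_nonneg (by positivity) (p7c_qf_nonneg _ _ _)
  have htail : IntegrableOn (fun u => 1 / u * qf (tl a' u) (tl b' u) (tl c' u)) (Ioi 1) := by
    refine ⟨hqm.aestronglyMeasurable, ?_⟩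
    rw [hasFiniteIntegral_iff_ofReal hq0, ← hI]
    exact hItop
  have hIreal : I.toReal = ∫ u in Ioi (1 : ℝ), 1 / u * qf (tl a' u) (tl b' u) (tl c' u) := by
    rw [integral_eq_lintegral_of_nonneg_ae hq0 hqm.aestronglyMeasurable, ← hI]
  -- the constraint
  have hconstr : b' ≤ sigI α τ := by
    have := p7c_sigI_lf (α := α) hτ
    refine p7c_le b' (sigI α τ) fun g hg hgc hg0 => ?_
    refine le_of_forall_pos_le_add fun η hη => ?_
    exact le_of_tendsto (hvb g hg hgc) (hcon g hg hgc hg0 η hη)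
  -- key inequality
  have KI2 : ∀ M δ : ℝ, 0 < M → 0 < δ → δ < 1 → ∀ n : ℕ, n₀ ≤ n →
      S M δ + ∫ x, p7c_P α τ V 0 x * p7c_cut n x ∂a' + I.toReal ≤ K := fun M δ hM hδ hδ1 n hn =>
    (hIle _ (KI0 M δ hM hδ hδ1 n hn)).2
  obtain ⟨hpot1, hpot2, _⟩ := p7c_pot_limit hτ hV a' ha0' c₀ C₀ hc₀ hC₀ hP
    (K - S 1 (1 / 2) - I.toReal) n₀ (fun n hn => by
      have := KI2 1 (1 / 2) one_pos (by norm_num) (by norm_num) n hn; linarith)
  have KI3 : ∀ M δ : ℝ, 0 < M → 0 < δ → δ < 1 →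
      S M δ + ∫ x, p7c_P α τ V 0 x ∂a' + I.toReal ≤ K := by
    intro M δ hM hδ hδ1
    obtain ⟨_, _, h⟩ := p7c_pot_limit hτ hV a' ha0' c₀ C₀ hc₀ hC₀ hP
      (K - S M δ - I.toReal) n₀ (fun n hn => by
        have := KI2 M δ hM hδ hδ1 n hn; linarith)
    linarith
  -- nonnegativity of the `RmM` terms
  have hRm0 : ∀ (m : Measure ℝ), IsFiniteMeasure m → m (Iio 0) = 0 → ∀ M : ℝ, 0 < M →
      0 ≤ ∫ z : ℝ × ℝ, RmM M z.1 z.2 ∂(m.prod m) := by
    intro m hm hm0 M hM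
    refine integral_nonneg_of_ae ?_
    filter_upwards [p7c_ae_prod hm0 hm0] with z hz
    exact p7c_RmM_nonneg M _ _ hM hz.1 hz.2
  set B₁ : ℝ := K - ∫ x, p7c_P α τ V 0 x ∂a' - I.toReal - (∫ z : ℝ × ℝ, p7c_RpD (1 / 2) z ∂(a'.prod b') +
    ∫ z : ℝ × ℝ, p7c_RpD (1 / 2) z ∂(b'.prod c') + ∫ x, max 0 (U3 α τ x - 1 / 2) ∂c' - w (1 / 2))
    with hB₁
  have hBa : ∀ M : ℝ, 0 < M → ∫ z : ℝ × ℝ, RmM M z.1 z.2 ∂(a'.prod a') ≤ B₁ := by
    intro M hM
    have h1 := KI3 M (1 / 2) hM (by norm_num) (by norm_num)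
    have h2 := hRm0 b' inferInstance hb0' M hM
    have h3 := hRm0 c' inferInstance hc0' M hM
    simp only [S] at h1
    rw [hB₁]; linarith
  have hBb : ∀ M : ℝ, 0 < M → ∫ z : ℝ × ℝ, RmM M z.1 z.2 ∂(b'.prod b') ≤ B₁ := by
    intro M hM
    have h1 := KI3 M (1 / 2) hM (by norm_num) (by norm_num)
    have h2 := hRm0 a' inferInstance ha0' M hM
    have h3 := hRm0 c' inferInstance hc0' M hM
    simp only [S] at h1
    rw [hB₁]; linarith
  have hBc : ∀ M : ℝ, 0 < M → ∫ z : ℝ × ℝ, RmM M z.1 z.2 ∂(c'.prod c') ≤ B₁ := by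
    intro M hM
    have h1 := KI3 M (1 / 2) hM (by norm_num) (by norm_num)
    have h2 := hRm0 a' inferInstance ha0' M hM
    have h3 := hRm0 b' inferInstance hb0' M hM
    simp only [S] at h1
    rw [hB₁]; linarith
  obtain ⟨ra1, ra2⟩ := p7c_Rm a' ha0' B₁ hBa
  obtain ⟨rb1, rb2⟩ := p7c_Rm b' hb0' B₁ hBb
  obtain ⟨rc1, rc2⟩ := p7c_Rm c' hc0' B₁ hBc
  have na := p7c_noatom a' ha0' B₁ hBa
  have nb := p7c_noatom b' hb0' B₁ hBb
  have nc := p7c_noatom c' hc0' B₁ hBc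
  have hofm : ∀ (m : Measure ℝ), IsFiniteMeasure m → ∀ x : ℝ, m.real univ = x →
      m univ = ENNReal.ofReal x := by
    intro m hm x hx
    rw [← hx, Measure.real, ENNReal.ofReal_toReal (measure_ne_top _ _)]
  have hW : WAdm α τ V a' b' c' := by
    refine ⟨ha0', hb0', hc0', ?_, ?_, ?_, hconstr, na, nb, nc, ra1, rb1, rc1, hpot1, htail⟩
    · rw [hofm a' inferInstance _ hmassa, ENNReal.ofReal_div_of_pos (by norm_num)]; simp
    · rw [hofm b' inferInstance _ hmassb, ENNReal.ofReal_div_of_pos (by norm_num)]; simp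
    · rw [hofm c' inferInstance _ hmassc, ENNReal.ofReal_div_of_pos (by norm_num)]; simp
  refine ⟨hW, ?_⟩
  -- the final limits
  have iab : Integrable (fun z : ℝ × ℝ => Rp z.1 z.2) (a'.prod b') :=
    (Rp_integrable hτ a' b' hconstr ha0' hb0').1
  have ibc : Integrable (fun z : ℝ × ℝ => Rp z.1 z.2) (b'.prod c') :=
    (Rp_integrable hτ c' b' hconstr hc0' hb0').2
  have eP : ∫ x, (U1 α τ V x - 2 / 3 * Real.log (max x 1)) ∂a' = ∫ x, p7c_P α τ V 0 x ∂a' := by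
    refine integral_congr_ae (Eventually.of_forall fun x => ?_)
    simp only [p7c_P]; ring
  have KI5 : ∀ δ : ℝ, 0 < δ → δ < 1 → JW α τ V a' b' c' ≤ K + (δ * (1 / 6) + w δ) := by
    intro δ hδ hδ1
    have h1 := p7c_Rp_le a' b' ha0' hb0' (na 0) iab δ hδ hδ1
    have h2 := p7c_Rp_le b' c' hb0' hc0' (nb 0) ibc δ hδ hδ1
    have h3 := p7c_U3_le (α := α) hτ c' hc0' δ
    rw [hmassc] at h3
    have h4 : Tendsto (fun n : ℕ => ∫ z : ℝ × ℝ, RmM ((n : ℝ) + 1) z.1 z.2 ∂(a'.prod a') +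
        ∫ z : ℝ × ℝ, RmM ((n : ℝ) + 1) z.1 z.2 ∂(b'.prod b') +
        ∫ z : ℝ × ℝ, RmM ((n : ℝ) + 1) z.1 z.2 ∂(c'.prod c')) atTop
        (𝓝 (∫ z : ℝ × ℝ, Rm z.1 z.2 ∂(a'.prod a') + ∫ z : ℝ × ℝ, Rm z.1 z.2 ∂(b'.prod b') +
        ∫ z : ℝ × ℝ, Rm z.1 z.2 ∂(c'.prod c'))) := (ra2.add rb2).add rc2
    have h5 : ∫ z : ℝ × ℝ, Rm z.1 z.2 ∂(a'.prod a') + ∫ z : ℝ × ℝ, Rm z.1 z.2 ∂(b'.prod b') +
        ∫ z : ℝ × ℝ, Rm z.1 z.2 ∂(c'.prod c') ≤ K - ∫ x, p7c_P α τ V 0 x ∂a' - I.toReal -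
        (∫ z : ℝ × ℝ, p7c_RpD δ z ∂(a'.prod b') + ∫ z : ℝ × ℝ, p7c_RpD δ z ∂(b'.prod c') +
        ∫ x, max 0 (U3 α τ x - δ) ∂c' - w δ) := by
      refine le_of_tendsto' h4 fun n => ?_
      have := KI3 ((n : ℝ) + 1) δ (by positivity) hδ hδ1
      simp only [S] at this
      linarith
    unfold JW
    rw [eP, ← hIreal]
    linarith
  have hlim : Tendsto (fun δ : ℝ => K + (δ * (1 / 6) + w δ)) (𝓝[>] 0) (𝓝 K) := by
    have h1 : Tendsto (fun δ : ℝ => δ * (1 / 6)) (𝓝[>] 0) (𝓝 0) := by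
      have : Tendsto (fun δ : ℝ => δ * (1 / 6)) (𝓝 0) (𝓝 (0 * (1 / 6))) :=
        (continuous_id.mul continuous_const).tendsto 0
      rw [zero_mul] at this
      exact this.mono_left nhdsWithin_le_nhds
    simpa using (h1.add hw).const_add K
  refine ge_of_tendsto hlim ?_
  have : Ioo (0 : ℝ) 1 ∈ 𝓝[>] (0 : ℝ) := Ioo_mem_nhdsGT one_pos
  filter_upwards [this] with δ hδ using KI5 δ hδ.1 hδ.2

theorem lsc_main {α τ : ℝ} (hτ : 0 < τ) {V : ℝ → ℝ} (hV : Pot V)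
    (a b c : ℕ → Measure ℝ) (ν κ L : ℕ → ℝ) (K : ℝ) (w : ℝ → ℝ)
    (ha : ∀ j, IsFiniteMeasure (a j)) (hb : ∀ j, IsFiniteMeasure (b j))
    (hc : ∀ j, IsFiniteMeasure (c j))
    (ha0 : ∀ j, a j (Iio 0) = 0) (hb0 : ∀ j, b j (Iio 0) = 0) (hc0 : ∀ j, c j (Iio 0) = 0)
    (hma : Tendsto (fun j => (a j).real univ) atTop (𝓝 (1 / 2)))
    (hmb : Tendsto (fun j => (b j).real univ) atTop (𝓝 (1 / 3)))
    (hmc : Tendsto (fun j => (c j).real univ) atTop (𝓝 (1 / 6)))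
    (hν : Tendsto ν atTop atTop) (hκ : Tendsto κ atTop (𝓝 0))
    (hcon : ∀ g : ℝ → ℝ, Continuous g → HasCompactSupport g → (∀ x, 0 ≤ g x) →
      ∀ η : ℝ, 0 < η → ∀ᶠ j in atTop, ∫ x, g x ∂(b j) ≤ ∫ x, g x ∂(sigI α τ) + η)
    (hw : Tendsto w (𝓝[>] 0) (𝓝 0))
    (hL : ∀ j, L j ≤ K)
    (hcs : ∀ j, ∃ R : ℝ, a j (Ioi R) = 0 ∧ b j (Ioi R) = 0 ∧ c j (Ioi R) = 0)
    (hmain : ∀ M δ : ℝ, 0 < M → 0 < δ → δ < 1 → ∃ e : ℕ → ℝ, Tendsto e atTop (𝓝 0) ∧
      ∀ᶠ j in atTop,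
      ∫ z : ℝ × ℝ, RmM M z.1 z.2 ∂((a j).prod (a j)) +
      ∫ z : ℝ × ℝ, RmM M z.1 z.2 ∂((b j).prod (b j)) +
      ∫ z : ℝ × ℝ, RmM M z.1 z.2 ∂((c j).prod (c j)) +
      ∫ z : ℝ × ℝ, RpD δ z.1 z.2 ∂((a j).prod (b j)) +
      ∫ z : ℝ × ℝ, RpD δ z.1 z.2 ∂((b j).prod (c j)) +
      (∫ u in Ioi (1 : ℝ), 1 / u * max 0 (qf (tl (a j) u) (tl (b j) u) (tl (c j) u)
        - (tl (b j) u + tl (c j) u) / ν j)) +
      ∫ x, ((1 - κ j) * U1 α τ V x - (2 / 3 + κ j) * Real.log (max x 1)) ∂(a j) +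
      ∫ x, max 0 (U3 α τ x - δ) ∂(c j) - w δ + e j ≤ L j) :
    ∃ a' b' c' : Measure ℝ, WAdm α τ V a' b' c' ∧ JW α τ V a' b' c' ≤ K := by
  obtain ⟨φ₁, a', hφ₁, fa', ha0', hma', hva, hta⟩ := exists_vague a ha0 (1 / 2) (by norm_num) ha hma
  obtain ⟨φ₂, b', hφ₂, fb', hb0', hmb', hvb, htb⟩ := exists_vague (fun j => b (φ₁ j))
    (fun j => hb0 _) (1 / 3) (by norm_num) (fun j => hb _) (hmb.comp hφ₁.tendsto_atTop)
  obtain ⟨φ₃, c', hφ₃, fc', hc0', hmc', hvc, htc⟩ := exists_vague (fun j => c (φ₁ (φ₂ j)))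
    (fun j => hc0 _) (1 / 6) (by norm_num) (fun j => hc _)
    (hmc.comp (hφ₁.comp hφ₂).tendsto_atTop)
  have hψ : Tendsto (fun j => φ₁ (φ₂ (φ₃ j))) atTop atTop :=
    (hφ₁.comp (hφ₂.comp hφ₃)).tendsto_atTop
  have hψ23 : Tendsto (fun j => φ₂ (φ₃ j)) atTop atTop := (hφ₂.comp hφ₃).tendsto_atTop
  refine ⟨a', b', c', ?_⟩
  refine p7c_core hτ hV (fun j => a (φ₁ (φ₂ (φ₃ j)))) (fun j => b (φ₁ (φ₂ (φ₃ j))))
    (fun j => c (φ₁ (φ₂ (φ₃ j)))) (fun j => ν (φ₁ (φ₂ (φ₃ j)))) (fun j => κ (φ₁ (φ₂ (φ₃ j))))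
    (fun j => L (φ₁ (φ₂ (φ₃ j)))) K w (fun j => ha _) (fun j => hb _) (fun j => hc _)
    (fun j => ha0 _) (fun j => hb0 _) (fun j => hc0 _) (hma.comp hψ) (hmb.comp hψ) (hmc.comp hψ)
    (hν.comp hψ) (hκ.comp hψ) ?_ hw (fun j => hL _) (fun j => hcs _) ?_ a' b' c' ha0' hb0' hc0'
    hma' ?_ ?_ hvc ?_ ?_ htc
  · intro g hg hgc hg0 η hη
    exact hψ.eventually (hcon g hg hgc hg0 η hη)
  · intro M δ hM hδ hδ1
    obtain ⟨e, he, hev⟩ := hmain M δ hM hδ hδ1
    exact ⟨fun j => e (φ₁ (φ₂ (φ₃ j))), he.comp hψ, hψ.eventually hev⟩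
  · intro g hg hgc
    exact (hva g hg hgc).comp hψ23
  · intro g hg hgc
    exact (hvb g hg hgc).comp hφ₃.tendsto_atTop
  · filter_upwards [hta] with u hu using hu.comp hψ23
  · filter_upwards [htb] with u hu using hu.comp hφ₃.tendsto_atTop

end

end Pool.Agent.MP_941b23_mp
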