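import Pool.Agent.MP_941b23_mp.Defs2

/-!
# [T3] Laplace asymptotics for `f`
-/

namespace Pool.Agent.MP_941b23_mp

open MeasureTheory Set Filter Topology
open scoped ENNReal NNReal Real ComplexConjugate

noncomputable section

variable {α τ : ℝ}

theorem t3_bdd (x s : ℝ) :
    τ * x * s - Wr α s ≤ (τ * x) ^ 2 / 2 + ((1 + |α|) / 2) ^ 2 := by
  unfold Wr
  have h1 : τ * x * s ≤ (τ * x) ^ 2 / 2 + s ^ 2 / 2 := by nlinarith [sq_nonneg (τ * x - s)]
  have h2 : -(α / 2 * s ^ 2) ≤ |α| / 2 * s ^ 2 := by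
    have := neg_abs_le α
    nlinarith [sq_nonneg s]
  nlinarith [sq_nonneg (s ^ 2 / 2 - (1 + |α|) / 2)]

theorem t3_le_gg (x s : ℝ) : τ * x * s - Wr α s ≤ gg α τ x := by
  unfold gg
  refine le_ciSup (f := fun s : ℝ => τ * x * s - Wr α s) ⟨(τ * x) ^ 2 / 2 + ((1 + |α|) / 2) ^ 2, ?_⟩ s
  rintro _ ⟨t, rfl⟩
  exact t3_bdd x t

theorem t3_gg_nonneg (x : ℝ) : 0 ≤ gg α τ x := by
  have := t3_le_gg (α := α) (τ := τ) x 0
  simpa [Wr] using this

/-- the integrand -/
def t3E (n : ℕ) (α τ x y : ℝ) : ℝ := Real.exp (-(n : ℝ) * (Wr α y - τ * x * y))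

theorem t3_fj (n : ℕ) (x : ℝ) : (fj n α τ 0 x).re = ∫ y : ℝ, t3E n α τ x y := by
  have : fj n α τ 0 x = ((∫ y : ℝ, t3E n α τ x y : ℝ) : ℂ) := by
    rw [← integral_complex_ofReal]
    unfold fj
    refine integral_congr_ae (Eventually.of_forall fun y => ?_)
    simp only [pow_zero, one_mul, t3E, Wr]
    push_cast
    ring_nf
  rw [this, Complex.ofReal_re]

theorem t3_dom (hτ : 0 < τ) : ∃ K : ℝ, 1 ≤ K ∧ ∀ n : ℕ, 0 < n → ∀ x y : ℝ,
    t3E n α τ x y ≤ Real.exp (n * gg α τ x) *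
      ((Icc (-(K * (1 + |x|))) (K * (1 + |x|))).indicator (fun _ => (1 : ℝ)) y +
        Real.exp (-1 * y ^ 2)) := by
  refine ⟨4 * (τ + |α| / 2 + 1), by nlinarith [abs_nonneg α], fun n hn x y => ?_⟩
  set K : ℝ := 4 * (τ + |α| / 2 + 1) with hK
  have hK1 : 1 ≤ K := by nlinarith [abs_nonneg α]
  have hn1 : (1 : ℝ) ≤ n := by exact_mod_cast hn
  unfold t3E
  by_cases hy : y ∈ Icc (-(K * (1 + |x|))) (K * (1 + |x|))
  · rw [indicator_of_mem hy]
    have h1 : Real.exp (-(n : ℝ) * (Wr α y - τ * x * y)) ≤ Real.exp (n * gg α τ x) := by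
      refine Real.exp_le_exp.2 ?_
      have := t3_le_gg (α := α) (τ := τ) x y
      nlinarith
    have h2 : 0 < Real.exp (n * gg α τ x) := Real.exp_pos _
    have h3 : 0 < Real.exp (-1 * y ^ 2) := Real.exp_pos _
    nlinarith [mul_pos h2 h3]
  · rw [indicator_of_notMem hy, zero_add, ← Real.exp_add]
    refine Real.exp_le_exp.2 ?_
    have hy' : K * (1 + |x|) < |y| := by
      by_contra hcon
      exact hy (abs_le.1 (not_lt.1 hcon))
    have hx0 := abs_nonneg x
    have hxy : |x| ≤ |y| := by nlinarith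
    have hKy : K ≤ |y| := by nlinarith
    have hy2 : K ≤ y ^ 2 := by
      rw [← sq_abs]; nlinarith
    have h1 : τ * x * y ≤ τ * y ^ 2 := by
      have : x * y ≤ y ^ 2 := by
        calc x * y ≤ |x * y| := le_abs_self _
          _ = |x| * |y| := abs_mul _ _
          _ ≤ |y| * |y| := mul_le_mul_of_nonneg_right hxy (abs_nonneg _)
          _ = y ^ 2 := by rw [← sq_abs y]; ring
      nlinarith
    have h2 : -(α / 2 * y ^ 2) ≤ |α| / 2 * y ^ 2 := by
      have := neg_abs_le α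
      nlinarith [sq_nonneg y]
    have h3 : τ * x * y - Wr α y ≤ -y ^ 2 := by
      unfold Wr
      have : y ^ 4 = y ^ 2 * y ^ 2 := by ring
      rw [this]
      nlinarith [sq_nonneg y]
    have h4 := t3_gg_nonneg (α := α) (τ := τ) x
    nlinarith [sq_nonneg y, mul_nonneg (sub_nonneg.2 hn1) (sq_nonneg y)]

theorem t3_dom_integrable (K x : ℝ) (c : ℝ) : Integrable (fun y : ℝ => c *
      ((Icc (-(K * (1 + |x|))) (K * (1 + |x|))).indicator (fun _ => (1 : ℝ)) y +
        Real.exp (-1 * y ^ 2))) := by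
  refine Integrable.const_mul (Integrable.add ?_ (integrable_exp_neg_mul_sq one_pos)) c
  rw [integrable_indicator_iff measurableSet_Icc]
  exact integrableOn_const (by simp)

theorem t3_integrable (hτ : 0 < τ) (n : ℕ) (hn : 0 < n) (x : ℝ) :
    Integrable (fun y : ℝ => t3E n α τ x y) := by
  obtain ⟨K, hK, h⟩ := t3_dom (α := α) hτ
  refine Integrable.mono' (t3_dom_integrable K x (Real.exp (n * gg α τ x))) ?_
    (Eventually.of_forall fun y => ?_)
  · unfold t3E Wr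
    exact (by fun_prop : Continuous fun y : ℝ =>
      Real.exp (-(n : ℝ) * (y ^ 4 / 4 + α / 2 * y ^ 2 - τ * x * y))).aestronglyMeasurable
  · rw [show ‖t3E n α τ x y‖ = t3E n α τ x y from Real.norm_of_nonneg (Real.exp_pos _).le]
    exact h n hn x y

theorem fj_upper (hτ : 0 < τ) : ∃ C : ℝ, 0 < C ∧ ∀ n : ℕ, 0 < n → ∀ x : ℝ,
    (fj n α τ 0 x).re ≤ C * (1 + |x|) * Real.exp (n * gg α τ x) := by
  obtain ⟨K, hK, h⟩ := t3_dom (α := α) hτ
  refine ⟨2 * K + √π, by positivity, fun n hn x => ?_⟩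
  rw [t3_fj]
  have hx0 := abs_nonneg x
  calc ∫ y : ℝ, t3E n α τ x y ≤ ∫ y : ℝ, Real.exp (n * gg α τ x) *
      ((Icc (-(K * (1 + |x|))) (K * (1 + |x|))).indicator (fun _ => (1 : ℝ)) y +
        Real.exp (-1 * y ^ 2)) :=
        integral_mono_of_nonneg (Eventually.of_forall fun y => (Real.exp_pos _).le)
          (t3_dom_integrable K x _) (Eventually.of_forall fun y => h n hn x y)
    _ = Real.exp (n * gg α τ x) * (2 * (K * (1 + |x|)) + √π) := by
        rw [integral_const_mul, integral_add]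
        · rw [integral_indicator measurableSet_Icc, integral_gaussian]
          simp only [integral_const, MeasurableSet.univ, measureReal_restrict_apply, univ_inter,
            Real.volume_real_Icc, smul_eq_mul, mul_one, div_one]
          rw [max_eq_left (by nlinarith)]
          ring
        · rw [integrable_indicator_iff measurableSet_Icc]
          exact integrableOn_const (by simp)
        · exact integrable_exp_neg_mul_sq one_pos
    _ ≤ (2 * K + √π) * (1 + |x|) * Real.exp (n * gg α τ x) := by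
        have h1 : 0 < Real.exp (n * gg α τ x) := Real.exp_pos _
        have h2 : 0 ≤ √π := Real.sqrt_nonneg _
        have : 2 * (K * (1 + |x|)) + √π ≤ (2 * K + √π) * (1 + |x|) := by nlinarith
        nlinarith

/-- near-maximisers are small -/
theorem t3_small (hτ : 0 < τ) (x s : ℝ) (h : -1 ≤ τ * x * s - Wr α s) :
    |s| ^ 3 ≤ (8 * τ + 4 * |α| * (1 + |α|) + 8) * (1 + |x|) := by
  have ha := abs_nonneg α
  have hx := abs_nonneg x
  have hu := abs_nonneg s
  set u := |s| with hu'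
  set a := |α| with ha'
  have e2 : s ^ 2 = u ^ 2 := (sq_abs s).symm
  have e4 : s ^ 4 = u ^ 4 := by
    rw [show s ^ 4 = (s ^ 2) ^ 2 by ring, e2]; ring
  have h1 : u ^ 4 / 4 ≤ τ * |x| * u + a / 2 * u ^ 2 + 1 := by
    unfold Wr at h
    rw [e4, e2] at h
    have h2 : τ * x * s ≤ τ * |x| * u := by
      have : x * s ≤ |x| * u := by rw [hu', ← abs_mul]; exact le_abs_self _
      nlinarith
    have h3 : -(α / 2 * u ^ 2) ≤ a / 2 * u ^ 2 := by
      have := neg_abs_le α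
      nlinarith [sq_nonneg u]
    linarith
  have hA : (1 : ℝ) ≤ (8 * τ + 4 * a * (1 + a) + 8) := by nlinarith [mul_nonneg ha ha]
  by_cases hu1 : u ≤ 1
  · have : u ^ 3 ≤ 1 := pow_le_one₀ hu hu1
    nlinarith
  · push Not at hu1
    have h4 : u ^ 3 ≤ 4 * τ * |x| + 2 * a * u + 4 := by
      have h5 : u * u ^ 3 ≤ u * (4 * τ * |x| + 2 * a * u + 4) := by nlinarith
      exact le_of_mul_le_mul_left h5 (by linarith)
    have h6 : 2 * a * u ≤ u ^ 3 / 2 + 2 * a * (1 + a) := by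
      by_cases hc : u ≤ 1 + a
      · have : 0 ≤ u ^ 3 := by positivity
        nlinarith
      · push Not at hc
        have h7 : 4 * a ≤ u ^ 2 := by nlinarith [sq_nonneg (1 - a)]
        have h8 : 0 ≤ 2 * a * (1 + a) := by positivity
        nlinarith [mul_le_mul_of_nonneg_right h7 hu]
    nlinarith [mul_nonneg hx (mul_nonneg ha (by linarith : (0 : ℝ) ≤ 1 + a))]

theorem t3_lip (hτ : 0 < τ) (x s y : ℝ) (h : -1 ≤ τ * x * s - Wr α s) (hy : |y - s| ≤ 1) :
    (τ * x * s - Wr α s) - (τ * x * y - Wr α y) ≤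
      (4 * (1 + |α|) * ((8 * τ + 4 * |α| * (1 + |α|) + 8) + 1) + τ) * (1 + |x|) * |y - s| := by
  have h1 := t3_small hτ x s h
  set A : ℝ := 8 * τ + 4 * |α| * (1 + |α|) + 8 with hA
  have ha := abs_nonneg α
  have hx := abs_nonneg x
  have hu := abs_nonneg s
  have hyu : |y| ≤ |s| + 1 := by
    have : y = (y - s) + s := by ring
    calc |y| = |(y - s) + s| := by rw [← this]
      _ ≤ |y - s| + |s| := abs_add_le _ _
      _ ≤ |s| + 1 := by linarith
  have hy0 := abs_nonneg y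
  have e : (τ * x * s - Wr α s) - (τ * x * y - Wr α y) =
      (y - s) * ((y ^ 3 + y ^ 2 * s + y * s ^ 2 + s ^ 3) / 4 + α / 2 * (y + s) - τ * x) := by
    unfold Wr; ring
  rw [e]
  set v := |s| + 1 with hv
  have hv1 : 1 ≤ v := by linarith
  have hsv : |s| ≤ v := by linarith
  have b1 : |(y ^ 3 + y ^ 2 * s + y * s ^ 2 + s ^ 3) / 4| ≤ v ^ 3 := by
    rw [abs_div, abs_of_pos (by norm_num : (0 : ℝ) < 4), div_le_iff₀ (by norm_num)]
    have c1 : |y ^ 3| ≤ v ^ 3 := by rw [abs_pow]; exact pow_le_pow_left₀ hy0 hyu 3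
    have c2 : |y ^ 2 * s| ≤ v ^ 3 := by
      rw [abs_mul, abs_pow]
      calc |y| ^ 2 * |s| ≤ v ^ 2 * v :=
            mul_le_mul (pow_le_pow_left₀ hy0 hyu 2) hsv hu (by positivity)
        _ = v ^ 3 := by ring
    have c3 : |y * s ^ 2| ≤ v ^ 3 := by
      rw [abs_mul, abs_pow]
      calc |y| * |s| ^ 2 ≤ v * v ^ 2 :=
            mul_le_mul hyu (pow_le_pow_left₀ hu hsv 2) (by positivity) (by positivity)
        _ = v ^ 3 := by ring
    have c4 : |s ^ 3| ≤ v ^ 3 := by rw [abs_pow]; exact pow_le_pow_left₀ hu hsv 3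
    calc |y ^ 3 + y ^ 2 * s + y * s ^ 2 + s ^ 3|
        ≤ |y ^ 3 + y ^ 2 * s + y * s ^ 2| + |s ^ 3| := abs_add_le _ _
      _ ≤ |y ^ 3 + y ^ 2 * s| + |y * s ^ 2| + |s ^ 3| := by
          linarith [abs_add_le (y ^ 3 + y ^ 2 * s) (y * s ^ 2)]
      _ ≤ |y ^ 3| + |y ^ 2 * s| + |y * s ^ 2| + |s ^ 3| := by
          linarith [abs_add_le (y ^ 3) (y ^ 2 * s)]
      _ ≤ v ^ 3 * 4 := by linarith
  have b2 : |α / 2 * (y + s)| ≤ |α| * v ^ 3 := by
    rw [abs_mul, abs_div, abs_of_pos (by norm_num : (0 : ℝ) < 2)]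
    have : |y + s| ≤ 2 * v := by linarith [abs_add_le y s]
    have hv3 : v ≤ v ^ 3 := by nlinarith [sq_nonneg v, mul_self_nonneg (v - 1)]
    calc |α| / 2 * |y + s| ≤ |α| / 2 * (2 * v) := mul_le_mul_of_nonneg_left this (by positivity)
      _ = |α| * v := by ring
      _ ≤ |α| * v ^ 3 := mul_le_mul_of_nonneg_left hv3 ha
  have b3 : |τ * x| = τ * |x| := by rw [abs_mul, abs_of_pos hτ]
  have b4 : v ^ 3 ≤ 4 * (|s| ^ 3 + 1) := by
    rw [hv]; nlinarith [mul_nonneg (by linarith : (0 : ℝ) ≤ |s| + 1) (sq_nonneg (|s| - 1))]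
  have b5 : |(y ^ 3 + y ^ 2 * s + y * s ^ 2 + s ^ 3) / 4 + α / 2 * (y + s) - τ * x| ≤
      (4 * (1 + |α|) * (A + 1) + τ) * (1 + |x|) := by
    calc |(y ^ 3 + y ^ 2 * s + y * s ^ 2 + s ^ 3) / 4 + α / 2 * (y + s) - τ * x|
        ≤ |(y ^ 3 + y ^ 2 * s + y * s ^ 2 + s ^ 3) / 4 + α / 2 * (y + s)| + |τ * x| :=
          abs_sub _ _
      _ ≤ |(y ^ 3 + y ^ 2 * s + y * s ^ 2 + s ^ 3) / 4| + |α / 2 * (y + s)| + |τ * x| := by
          linarith [abs_add_le ((y ^ 3 + y ^ 2 * s + y * s ^ 2 + s ^ 3) / 4) (α / 2 * (y + s))]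
      _ ≤ (1 + |α|) * v ^ 3 + τ * |x| := by rw [b3]; nlinarith
      _ ≤ (1 + |α|) * (4 * (A * (1 + |x|) + 1)) + τ * |x| := by
          have : v ^ 3 ≤ 4 * (A * (1 + |x|) + 1) := by linarith
          nlinarith
      _ ≤ (4 * (1 + |α|) * (A + 1) + τ) * (1 + |x|) := by
          have : 0 ≤ (1 + |α|) * |x| := by positivity
          nlinarith
  calc (y - s) * ((y ^ 3 + y ^ 2 * s + y * s ^ 2 + s ^ 3) / 4 + α / 2 * (y + s) - τ * x)
      ≤ |y - s| * |(y ^ 3 + y ^ 2 * s + y * s ^ 2 + s ^ 3) / 4 + α / 2 * (y + s) - τ * x| := by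
        rw [← abs_mul]; exact le_abs_self _
    _ ≤ |y - s| * ((4 * (1 + |α|) * (A + 1) + τ) * (1 + |x|)) :=
        mul_le_mul_of_nonneg_left b5 (abs_nonneg _)
    _ = _ := by ring

theorem fj_lower (hτ : 0 < τ) : ∃ c : ℝ, 0 < c ∧ ∀ n : ℕ, 0 < n → ∀ x : ℝ,
    c / (n * (1 + |x|)) * Real.exp (n * gg α τ x) ≤ (fj n α τ 0 x).re := by
  set L : ℝ := 4 * (1 + |α|) * ((8 * τ + 4 * |α| * (1 + |α|) + 8) + 1) + τ with hL
  have hL0 : 0 < L := by positivity
  refine ⟨Real.exp (-1 - L), Real.exp_pos _, fun n hn x => ?_⟩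
  have hn0 : (0 : ℝ) < n := by exact_mod_cast hn
  have hn1 : (1 : ℝ) ≤ n := by exact_mod_cast hn
  have hx := abs_nonneg x
  have hn' : 1 / (n : ℝ) ≤ 1 := by rw [div_le_one hn0]; exact hn1
  have hg0 := t3_gg_nonneg (α := α) (τ := τ) x
  obtain ⟨s, hs⟩ : ∃ s : ℝ, gg α τ x - 1 / n < τ * x * s - Wr α s :=
    exists_lt_of_lt_ciSup (show gg α τ x - 1 / n < gg α τ x by
      have : 0 < 1 / (n : ℝ) := by positivity
      linarith)
  have hs1 : -1 ≤ τ * x * s - Wr α s := by linarith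
  set δ : ℝ := 1 / (n * (1 + |x|)) with hδ
  have hδ0 : 0 < δ := by positivity
  have hδ1 : δ ≤ 1 := by
    rw [hδ, div_le_one (by positivity)]; nlinarith
  have key : ∀ y ∈ Icc s (s + δ), Real.exp (n * gg α τ x - 1 - L) ≤ t3E n α τ x y := by
    intro y hy
    have hys : |y - s| ≤ δ := by
      rw [abs_of_nonneg (by linarith [hy.1])]; linarith [hy.2]
    have h1 := t3_lip hτ x s y hs1 (hys.trans hδ1)
    rw [← hL] at h1
    have h2 : L * (1 + |x|) * |y - s| ≤ L * (1 + |x|) * δ :=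
      mul_le_mul_of_nonneg_left hys (by positivity)
    have h3 : L * (1 + |x|) * δ = L / n := by
      rw [hδ]; field_simp
    unfold t3E
    refine Real.exp_le_exp.2 ?_
    have h4 : gg α τ x - 1 / n - L / n ≤ τ * x * y - Wr α y := by linarith
    have h5 := mul_le_mul_of_nonneg_left h4 hn0.le
    have h6 : (n : ℝ) * (gg α τ x - 1 / n - L / n) = n * gg α τ x - 1 - L := by
      field_simp
    rw [h6] at h5
    linarith
  rw [t3_fj]
  calc Real.exp (-1 - L) / (n * (1 + |x|)) * Real.exp (n * gg α τ x)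
      = δ * Real.exp (n * gg α τ x - 1 - L) := by
        rw [show (n : ℝ) * gg α τ x - 1 - L = (-1 - L) + n * gg α τ x by ring, Real.exp_add, hδ]
        ring
    _ = ∫ _ in Icc s (s + δ), Real.exp (n * gg α τ x - 1 - L) := by
        simp only [integral_const, MeasurableSet.univ, measureReal_restrict_apply, univ_inter,
          Real.volume_real_Icc, smul_eq_mul]
        rw [max_eq_left (by linarith)]
        ring
    _ ≤ ∫ y in Icc s (s + δ), t3E n α τ x y :=
        setIntegral_mono_on (integrableOn_const (by simp))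
          (t3_integrable hτ n hn x).integrableOn measurableSet_Icc key
    _ ≤ ∫ y, t3E n α τ x y :=
        setIntegral_le_integral (t3_integrable hτ n hn x)
          (Eventually.of_forall fun y => (Real.exp_pos _).le)

end

end Pool.Agent.MP_941b23_mp
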