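import Pool.Agent.MP_941b23_mp.Defs2
import Pool.Agent.MP_941b23_mp.S1
import Pool.Agent.MP_941b23_mp.S10b
import Pool.Agent.MP_941b23_mp.T2b
import Pool.Agent.MP_941b23_mp.T3

/-!
# Row T4 : convergence of the zeros
-/

namespace Pool.Agent.MP_941b23_mp

open MeasureTheory Set Filter Topology
open scoped ENNReal NNReal Real ComplexConjugate

noncomputable section

variable {α τ : ℝ}

/-- good test functions -/
def T4Good (Z : ℕ → Set ℝ) (σ : Measure ℝ) (φ : ℝ → ℝ) : Prop :=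
  (∀ n, Summable fun t : Z n => φ t) ∧ Integrable φ σ ∧
    Tendsto (fun n : ℕ => (1 / (n : ℝ)) * ∑' t : Z n, φ t) atTop (𝓝 (∫ t, φ t ∂σ))

theorem t4_add {Z : ℕ → Set ℝ} {σ : Measure ℝ} {φ ψ : ℝ → ℝ} (h1 : T4Good Z σ φ)
    (h2 : T4Good Z σ ψ) : T4Good Z σ (fun t => φ t + ψ t) := by
  refine ⟨fun n => (h1.1 n).add (h2.1 n), h1.2.1.add h2.2.1, ?_⟩
  rw [integral_add h1.2.1 h2.2.1]
  refine (h1.2.2.add h2.2.2).congr fun n => ?_
  rw [(h1.1 n).tsum_add (h2.1 n), mul_add]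

theorem t4_smul {Z : ℕ → Set ℝ} {σ : Measure ℝ} {φ : ℝ → ℝ} (h1 : T4Good Z σ φ) (c : ℝ) :
    T4Good Z σ (fun t => c * φ t) := by
  refine ⟨fun n => (h1.1 n).mul_left c, h1.2.1.const_mul c, ?_⟩
  rw [integral_const_mul]
  refine (h1.2.2.const_mul c).congr fun n => ?_
  rw [(h1.1 n).tsum_mul_left]
  ring

theorem t4_zero {Z : ℕ → Set ℝ} {σ : Measure ℝ} : T4Good Z σ (fun _ => 0) := by
  refine ⟨fun n => summable_zero, integrable_zero _ _ _, ?_⟩
  simp

theorem t4_sum {Z : ℕ → Set ℝ} {σ : Measure ℝ} {ι : Type} (s : Finset ι) (φ : ι → ℝ → ℝ)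
    (h : ∀ i ∈ s, T4Good Z σ (φ i)) : T4Good Z σ (fun t => ∑ i ∈ s, φ i t) := by
  classical
  induction s using Finset.induction_on with
  | empty => simpa using t4_zero
  | insert a s ha ih =>
    have h1 := t4_add (h a (Finset.mem_insert_self _ _))
      (ih fun i hi => h i (Finset.mem_insert_of_mem hi))
    simpa [Finset.sum_insert ha] using h1

theorem t4_congr {Z : ℕ → Set ℝ} (hZ : ∀ n, ∀ t ∈ Z n, 0 < t) {σ : Measure ℝ}
    (hσ0 : σ (Iic 0) = 0) {φ ψ : ℝ → ℝ} (h1 : T4Good Z σ φ) (h : ∀ t, 0 < t → φ t = ψ t) :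
    T4Good Z σ ψ := by
  have hae : ∀ᵐ t ∂σ, φ t = ψ t := by
    have h0 : ∀ᵐ t ∂σ, t ∉ Iic (0 : ℝ) := measure_eq_zero_iff_ae_notMem.1 hσ0
    filter_upwards [h0] with t ht
    exact h t (not_le.1 ht)
  have hn : ∀ n, (fun t : Z n => φ t) = fun t : Z n => ψ t := by
    intro n
    funext t
    exact h t (hZ n t t.2)
  refine ⟨fun n => by rw [← hn n]; exact h1.1 n, h1.2.1.congr hae, ?_⟩
  rw [← integral_congr_ae hae]
  refine h1.2.2.congr fun n => ?_
  rw [hn n]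

theorem t4_approx {Z : ℕ → Set ℝ} (hZ : ∀ n, ∀ t ∈ Z n, 0 < t) {σ : Measure ℝ}
    (hσ0 : σ (Iic 0) = 0) {g : ℝ → ℝ} (hg : T4Good Z σ g) (hg0 : ∀ t, 0 < t → 0 ≤ g t)
    {φ : ℝ → ℝ} (hm : AEStronglyMeasurable φ σ)
    (h : ∀ ε : ℝ, 0 < ε → ∃ ψ, T4Good Z σ ψ ∧ ∀ t, 0 < t → |φ t - ψ t| ≤ ε * g t) :
    T4Good Z σ φ := by
  have h0 : ∀ᵐ t ∂σ, 0 < t := by
    have h0 : ∀ᵐ t ∂σ, t ∉ Iic (0 : ℝ) := measure_eq_zero_iff_ae_notMem.1 hσ0
    filter_upwards [h0] with t ht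
    exact not_le.1 ht
  have hdiff : ∀ (ψ : ℝ → ℝ) (ε : ℝ), T4Good Z σ ψ → (∀ t, 0 < t → |φ t - ψ t| ≤ ε * g t) →
      (∀ n, Summable fun t : Z n => φ t - ψ t) ∧ Integrable (fun t => φ t - ψ t) σ := by
    intro ψ ε hψ hle
    refine ⟨fun n => ?_, ?_⟩
    · refine Summable.of_norm_bounded ((hg.1 n).mul_left ε) fun t => ?_
      rw [Real.norm_eq_abs]
      exact hle t (hZ n t t.2)
    · refine (hg.2.1.const_mul ε).mono' (hm.sub hψ.2.1.1) ?_
      filter_upwards [h0] with t ht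
      rw [Real.norm_eq_abs]
      exact hle t ht
  have hsum : ∀ n, Summable fun t : Z n => φ t := by
    intro n
    obtain ⟨ψ, hψ, hle⟩ := h 1 one_pos
    have := ((hdiff ψ 1 hψ hle).1 n).add (hψ.1 n)
    refine this.congr fun t => ?_
    ring
  have hint : Integrable φ σ := by
    obtain ⟨ψ, hψ, hle⟩ := h 1 one_pos
    have := ((hdiff ψ 1 hψ hle).2).add (hψ.2.1)
    refine this.congr (ae_of_all _ fun t => ?_)
    simp
  refine ⟨hsum, hint, ?_⟩
  have hK0 : 0 ≤ ∫ t, g t ∂σ := by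
    apply integral_nonneg_of_ae
    filter_upwards [h0] with t ht
    exact hg0 t ht
  set K : ℝ := (∫ t, g t ∂σ) + 1 with hK
  have hKpos : 0 < K := by linarith
  rw [Metric.tendsto_atTop]
  intro ε hε
  obtain ⟨ψ, hψ, hle⟩ := h (ε / (4 * K)) (by positivity)
  have hψt := (Metric.tendsto_atTop.1 hψ.2.2) (ε / 4) (by positivity)
  have hgt := (Metric.tendsto_atTop.1 hg.2.2) 1 one_pos
  obtain ⟨n1, h1⟩ := hψt
  obtain ⟨n2, h2⟩ := hgt
  refine ⟨max n1 n2, fun n hn => ?_⟩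
  have h1' := h1 n (le_trans (le_max_left _ _) hn)
  have h2' := h2 n (le_trans (le_max_right _ _) hn)
  rw [Real.dist_eq] at h1' h2' ⊢
  obtain ⟨hd1, hd2⟩ := hdiff ψ _ hψ hle
  have hn0 : (0 : ℝ) ≤ 1 / (n : ℝ) := by positivity
  have e1 : |(1 / (n : ℝ)) * ∑' t : Z n, φ t - (1 / (n : ℝ)) * ∑' t : Z n, ψ t| ≤ ε / 4 := by
    rw [← mul_sub, ← (hsum n).tsum_sub (hψ.1 n), abs_mul, abs_of_nonneg hn0]
    have e2 : |∑' t : Z n, (φ t - ψ t)| ≤ (ε / (4 * K)) * ∑' t : Z n, g t := by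
      rw [← (hg.1 n).tsum_mul_left]
      have := tsum_of_norm_bounded (f := fun t : Z n => φ t - ψ t)
        ((hg.1 n).mul_left (ε / (4 * K))).hasSum (fun t => by
          rw [Real.norm_eq_abs]
          exact hle t (hZ n t t.2))
      rwa [Real.norm_eq_abs] at this
    calc (1 / (n : ℝ)) * |∑' t : Z n, (φ t - ψ t)|
        ≤ (1 / (n : ℝ)) * ((ε / (4 * K)) * ∑' t : Z n, g t) :=
          mul_le_mul_of_nonneg_left e2 hn0
      _ = (ε / (4 * K)) * ((1 / (n : ℝ)) * ∑' t : Z n, g t) := by ring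
      _ ≤ (ε / (4 * K)) * K := by
          apply mul_le_mul_of_nonneg_left _ (by positivity)
          have := (abs_lt.1 h2').2
          linarith
      _ = ε / 4 := by field_simp
  have e3 : |(∫ t, ψ t ∂σ) - ∫ t, φ t ∂σ| ≤ ε / 4 := by
    rw [abs_sub_comm, ← integral_sub hint hψ.2.1]
    have e2 : ‖∫ t, (φ t - ψ t) ∂σ‖ ≤ ∫ t, (ε / (4 * K)) * g t ∂σ := by
      apply norm_integral_le_of_norm_le (hg.2.1.const_mul _)
      filter_upwards [h0] with t ht
      rw [Real.norm_eq_abs]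
      exact hle t ht
    rw [Real.norm_eq_abs, integral_const_mul] at e2
    calc |∫ t, (φ t - ψ t) ∂σ| ≤ (ε / (4 * K)) * ∫ t, g t ∂σ := e2
      _ ≤ (ε / (4 * K)) * K := mul_le_mul_of_nonneg_left (by linarith) (by positivity)
      _ = ε / 4 := by field_simp
  have e4 : (1 / (n : ℝ)) * ∑' t : Z n, φ t - ∫ t, φ t ∂σ =
      ((1 / (n : ℝ)) * ∑' t : Z n, φ t - (1 / (n : ℝ)) * ∑' t : Z n, ψ t) +
      ((1 / (n : ℝ)) * ∑' t : Z n, ψ t - ∫ t, ψ t ∂σ) + ((∫ t, ψ t ∂σ) - ∫ t, φ t ∂σ) := by ring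
  rw [e4]
  calc _ ≤ |(1 / (n : ℝ)) * ∑' t : Z n, φ t - (1 / (n : ℝ)) * ∑' t : Z n, ψ t| +
      |(1 / (n : ℝ)) * ∑' t : Z n, ψ t - ∫ t, ψ t ∂σ| + |(∫ t, ψ t ∂σ) - ∫ t, φ t ∂σ| :=
        abs_add_three _ _ _
    _ < ε := by linarith

theorem t4_log_lower (t : ℝ) (ht : 0 < t) : 1 / (1 + t) ≤ Real.log (1 + 1 / t) := by
  have h := Real.one_sub_inv_le_log_of_pos (x := 1 + 1 / t) (by positivity)
  refine le_trans (le_of_eq ?_) h
  field_simp
  ring

/-- `∏_{j ≤ k} (t + ξ + j h)⁻¹` -/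
def t4Q (k : ℕ) (h ξ t : ℝ) : ℝ := ∏ j ∈ Finset.range (k + 1), (t + ξ + j * h)⁻¹

theorem t4Q_diff (k : ℕ) (h ξ t : ℝ) (hh : 0 < h) (hξ : 1 ≤ ξ) (ht : 0 < t) :
    t4Q (k + 1) h ξ t = ((k + 1) * h)⁻¹ * (t4Q k h ξ t + (-1) * t4Q k h (ξ + h) t) := by
  have e1 : t4Q (k + 1) h ξ t = t4Q k h ξ t * (t + ξ + (k + 1) * h)⁻¹ := by
    unfold t4Q
    rw [Finset.prod_range_succ (n := k + 1)]
    push_cast
    rfl
  have e2 : t4Q (k + 1) h ξ t = t4Q k h (ξ + h) t * (t + ξ)⁻¹ := by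
    unfold t4Q
    rw [Finset.prod_range_succ' (n := k + 1)]
    congr 1
    · apply Finset.prod_congr rfl
      intro j _
      push_cast
      ring
    · simp
  have p1 : (0 : ℝ) < t + ξ := by linarith
  have p2 : (0 : ℝ) < t + ξ + (k + 1) * h := by positivity
  have e3 : t4Q k h ξ t = t4Q (k + 1) h ξ t * (t + ξ + (k + 1) * h) := by
    rw [e1]; field_simp
  have e4 : t4Q k h (ξ + h) t = t4Q (k + 1) h ξ t * (t + ξ) := by
    rw [e2]; field_simp
  rw [e3, e4]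
  have : (0 : ℝ) < (k + 1) * h := by positivity
  field_simp
  ring

theorem t4Q_bound (k : ℕ) (h t : ℝ) (hh : 0 < h) (ht : 0 < t) :
    0 ≤ t4Q k h 1 t ∧ t4Q k h 1 t ≤ (1 + t)⁻¹ ∧ 0 ≤ (1 + t)⁻¹ ^ (k + 1) - t4Q k h 1 t ∧
      (1 + t)⁻¹ ^ (k + 1) - t4Q k h 1 t ≤ ((k : ℝ) + 1) ^ 2 * h * (1 + t)⁻¹ := by
  have hu : 0 < (1 + t)⁻¹ := by positivity
  have hu1 : (1 + t)⁻¹ ≤ 1 := inv_le_one_of_one_le₀ (by linarith)
  induction k with
  | zero =>
    have : t4Q 0 h 1 t = (1 + t)⁻¹ := by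
      unfold t4Q
      simp [add_comm]
    rw [this]
    refine ⟨hu.le, le_refl _, ?_, ?_⟩
    · simp
    · simp
      positivity
  | succ k ih =>
    obtain ⟨i1, i2, i3, i4⟩ := ih
    have e1 : t4Q (k + 1) h 1 t = t4Q k h 1 t * (t + 1 + (k + 1) * h)⁻¹ := by
      unfold t4Q
      rw [Finset.prod_range_succ (n := k + 1)]
      push_cast
      rfl
    set v : ℝ := (t + 1 + (k + 1) * h)⁻¹ with hv
    have hpos : 0 < t + 1 + (k + 1) * h := by positivity
    have hv0 : 0 < v := inv_pos.2 hpos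
    have hvu : v ≤ (1 + t)⁻¹ := by
      apply inv_anti₀ (by linarith)
      have : (0 : ℝ) ≤ (k + 1) * h := by positivity
      linarith
    have huv : (1 + t)⁻¹ - v ≤ (k + 1) * h := by
      have : (1 + t)⁻¹ - v = ((k + 1) * h) * ((1 + t)⁻¹ * v) := by
        rw [hv]; field_simp; ring
      rw [this]
      have h1 : (1 + t)⁻¹ * v ≤ 1 := by
        calc (1 + t)⁻¹ * v ≤ 1 * 1 := mul_le_mul hu1 (hvu.trans hu1) hv0.le zero_le_one
          _ = 1 := one_mul 1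
      calc ((k + 1) * h) * ((1 + t)⁻¹ * v) ≤ ((k + 1) * h) * 1 :=
            mul_le_mul_of_nonneg_left h1 (by positivity)
        _ = (k + 1) * h := mul_one _
    rw [e1]
    have e2 : (1 + t)⁻¹ ^ (k + 1 + 1) - t4Q k h 1 t * v =
        (1 + t)⁻¹ * ((1 + t)⁻¹ ^ (k + 1) - t4Q k h 1 t) + t4Q k h 1 t * ((1 + t)⁻¹ - v) := by ring
    refine ⟨mul_nonneg i1 hv0.le, ?_, ?_, ?_⟩
    · calc t4Q k h 1 t * v ≤ (1 + t)⁻¹ * 1 := mul_le_mul i2 (hvu.trans hu1) hv0.le hu.le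
        _ = (1 + t)⁻¹ := mul_one _
    · rw [e2]
      exact add_nonneg (mul_nonneg hu.le i3) (mul_nonneg i1 (sub_nonneg.2 hvu))
    · rw [e2]
      have h1 : (1 + t)⁻¹ * ((1 + t)⁻¹ ^ (k + 1) - t4Q k h 1 t) ≤
          1 * (((k : ℝ) + 1) ^ 2 * h * (1 + t)⁻¹) := mul_le_mul hu1 i4 i3 zero_le_one
      have h2 : t4Q k h 1 t * ((1 + t)⁻¹ - v) ≤ (1 + t)⁻¹ * ((k + 1) * h) :=
        mul_le_mul i2 huv (sub_nonneg.2 hvu) hu.le
      have h3 : (0 : ℝ) ≤ h * (1 + t)⁻¹ * (k + 2) := by positivity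
      push_cast
      nlinarith [h1, h2, h3]

/-- general lemma: convergence of `∫ log(1+ξ/t)` implies convergence of nice test functions -/
theorem tendsto_of_log (Z : ℕ → Set ℝ) (hZ : ∀ n, ∀ t ∈ Z n, 0 < t) (σ : Measure ℝ)
    (hσ0 : σ (Iic 0) = 0) (hσ : ∀ ξ : ℝ, 0 ≤ ξ → Integrable (fun t => Real.log (1 + ξ / t)) σ)
    (hs : ∀ n, ∀ ξ : ℝ, 0 ≤ ξ → Summable fun t : Z n => Real.log (1 + ξ / (t : ℝ)))
    (h : ∀ ξ : ℝ, 0 ≤ ξ → Tendsto (fun n : ℕ => (1 / (n : ℝ)) * ∑' t : Z n,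
      Real.log (1 + ξ / (t : ℝ))) atTop (𝓝 (∫ t, Real.log (1 + ξ / t) ∂σ)))
    (φ : ℝ → ℝ) (hφ : ContinuousOn φ (Ici 0)) (l : ℝ)
    (hl : Tendsto (fun t => (1 + t) * φ t) atTop (𝓝 l)) :
    (∀ n, Summable fun t : Z n => φ t) ∧ Integrable φ σ ∧
    Tendsto (fun n : ℕ => (1 / (n : ℝ)) * ∑' t : Z n, φ t) atTop (𝓝 (∫ t, φ t ∂σ)) := by
  have hlog : ∀ ξ : ℝ, 0 ≤ ξ → T4Good Z σ (fun t => Real.log (1 + ξ / t)) := fun ξ hξ =>
    ⟨fun n => hs n ξ hξ, hσ ξ hξ, h ξ hξ⟩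
  set g : ℝ → ℝ := fun t => Real.log (1 + 1 / t) with hg
  have hgood : T4Good Z σ g := hlog 1 zero_le_one
  have hg1 : ∀ t : ℝ, 0 < t → (1 + t)⁻¹ ≤ g t := by
    intro t ht
    have := t4_log_lower t ht
    rwa [one_div] at this
  have hg0 : ∀ t : ℝ, 0 < t → 0 ≤ g t := fun t ht => le_trans (by positivity) (hg1 t ht)
  have hpos : ∀ᵐ t ∂σ, t ∈ Ioi (0 : ℝ) := by
    have h0 : ∀ᵐ t ∂σ, t ∉ Iic (0 : ℝ) := measure_eq_zero_iff_ae_notMem.1 hσ0
    filter_upwards [h0] with t ht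
    rw [mem_Iic, not_le] at ht
    exact ht
  have hmeas : ∀ ψ : ℝ → ℝ, ContinuousOn ψ (Ioi 0) → AEStronglyMeasurable ψ σ := by
    intro ψ hψ
    have h1 := hψ.aestronglyMeasurable (μ := σ) measurableSet_Ioi
    rwa [Measure.restrict_eq_self_of_ae_mem hpos] at h1
  -- first powers
  have hinv : ∀ ξ : ℝ, 1 ≤ ξ → T4Good Z σ (fun t => (t + ξ)⁻¹) := by
    intro ξ hξ
    apply t4_approx hZ hσ0 hgood hg0
    · apply hmeas
      apply ContinuousOn.inv₀ (by fun_prop)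
      intro t ht
      have : 0 < t := ht
      linarith
    · intro ε hε
      refine ⟨fun t => ε⁻¹ * (Real.log (1 + (ξ + ε) / t) + (-1) * Real.log (1 + ξ / t)),
        t4_smul (t4_add (hlog _ (by linarith)) (t4_smul (hlog _ (by linarith)) _)) _, ?_⟩
      intro t ht
      have hp : 0 < t + ξ := by linarith
      have e1 : Real.log (1 + (ξ + ε) / t) + (-1) * Real.log (1 + ξ / t) =
          Real.log (1 + ε / (t + ξ)) := by
        have a1 : 1 + (ξ + ε) / t = (t + ξ + ε) / t := by field_simp; ring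
        have a2 : 1 + ξ / t = (t + ξ) / t := by field_simp
        have a3 : 1 + ε / (t + ξ) = (t + ξ + ε) / (t + ξ) := by field_simp
        rw [a1, a2, a3, Real.log_div (by positivity) ht.ne', Real.log_div hp.ne' ht.ne',
          Real.log_div (by positivity) hp.ne']
        ring
      have hx : 0 < ε / (t + ξ) := by positivity
      have hupper : Real.log (1 + ε / (t + ξ)) ≤ ε / (t + ξ) := by
        have := Real.log_le_sub_one_of_pos (x := 1 + ε / (t + ξ)) (by positivity)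
        linarith
      have hlower : ε / (t + ξ) - (ε / (t + ξ)) ^ 2 ≤ Real.log (1 + ε / (t + ξ)) := by
        have h1 := Real.one_sub_inv_le_log_of_pos (x := 1 + ε / (t + ξ)) (by positivity)
        refine le_trans ?_ h1
        set x := ε / (t + ξ) with hxdef
        have : 1 - (1 + x)⁻¹ - (x - x ^ 2) = x ^ 3 * (1 + x)⁻¹ := by
          field_simp
          ring
        have h2 : 0 ≤ x ^ 3 * (1 + x)⁻¹ := by positivity
        linarith
      have hA : |(t + ξ)⁻¹ - ε⁻¹ * Real.log (1 + ε / (t + ξ))| ≤ ε * (t + ξ)⁻¹ ^ 2 := by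
        rw [abs_le]
        have e2 : (t + ξ)⁻¹ = ε⁻¹ * (ε / (t + ξ)) := by field_simp
        have e3 : ε * (t + ξ)⁻¹ ^ 2 = ε⁻¹ * (ε / (t + ξ)) ^ 2 := by field_simp
        have hεi : 0 < ε⁻¹ := inv_pos.2 hε
        constructor
        · have : 0 ≤ (t + ξ)⁻¹ - ε⁻¹ * Real.log (1 + ε / (t + ξ)) := by
            rw [e2, ← mul_sub]
            exact mul_nonneg hεi.le (by linarith)
          have h3 : 0 ≤ ε * (t + ξ)⁻¹ ^ 2 := by positivity
          linarith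
        · rw [e3]
          rw [e2, ← mul_sub]
          exact mul_le_mul_of_nonneg_left (by linarith) hεi.le
      change |(t + ξ)⁻¹ - ε⁻¹ * (Real.log (1 + (ξ + ε) / t) + (-1) * Real.log (1 + ξ / t))| ≤
        ε * g t
      rw [e1]
      refine hA.trans ?_
      apply mul_le_mul_of_nonneg_left _ hε.le
      refine le_trans ?_ (hg1 t ht)
      have h4 : (t + ξ)⁻¹ ≤ (1 + t)⁻¹ := inv_anti₀ (by linarith) (by linarith)
      have h5 : (1 + t)⁻¹ ≤ 1 := inv_le_one_of_one_le₀ (by linarith)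
      have h6 : 0 < (t + ξ)⁻¹ := inv_pos.2 hp
      nlinarith
  -- the products
  have hQ : ∀ k : ℕ, ∀ hh : ℝ, 0 < hh → ∀ ξ : ℝ, 1 ≤ ξ → T4Good Z σ (fun t => t4Q k hh ξ t) := by
    intro k
    induction k with
    | zero =>
      intro hh hh0 ξ hξ
      refine t4_congr hZ hσ0 (hinv ξ hξ) fun t _ => ?_
      unfold t4Q
      simp
    | succ k ih =>
      intro hh hh0 ξ hξ
      refine t4_congr hZ hσ0 (t4_smul (t4_add (ih hh hh0 ξ hξ)
        (t4_smul (ih hh hh0 (ξ + hh) (by linarith)) (-1))) ((k + 1) * hh)⁻¹) fun t ht => ?_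
      exact (t4Q_diff k hh ξ t hh0 hξ ht).symm
  -- powers of `(1+t)⁻¹`
  have hpow : ∀ k : ℕ, T4Good Z σ (fun t => (1 + t)⁻¹ ^ (k + 1)) := by
    intro k
    apply t4_approx hZ hσ0 hgood hg0
    · apply hmeas
      apply ContinuousOn.pow
      apply ContinuousOn.inv₀ (by fun_prop)
      intro t ht
      have : 0 < t := ht
      linarith
    · intro ε hε
      have hk : (0 : ℝ) < ((k : ℝ) + 1) ^ 2 := by positivity
      refine ⟨fun t => t4Q k (ε / ((k : ℝ) + 1) ^ 2) 1 t, hQ k _ (by positivity) 1 le_rfl, ?_⟩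
      intro t ht
      obtain ⟨_, _, b3, b4⟩ := t4Q_bound k (ε / ((k : ℝ) + 1) ^ 2) t (by positivity) ht
      rw [abs_of_nonneg b3]
      refine b4.trans ?_
      have e1 : ((k : ℝ) + 1) ^ 2 * (ε / ((k : ℝ) + 1) ^ 2) = ε := by field_simp
      rw [e1]
      exact mul_le_mul_of_nonneg_left (hg1 t ht) hε.le
  -- the general case
  have hcont : ContinuousOn (fun u : ℝ => if u = 0 then l else u⁻¹ * φ (u⁻¹ - 1)) (Icc 0 1) := by
    intro u hu
    rcases eq_or_lt_of_le hu.1 with h0 | h0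
    · subst h0
      have h1 : Tendsto (fun u : ℝ => u⁻¹ * φ (u⁻¹ - 1)) (𝓝[>] 0) (𝓝 l) := by
        have h2 : Tendsto (fun u : ℝ => u⁻¹ - 1) (𝓝[>] 0) atTop :=
          tendsto_atTop_add_const_right _ _ tendsto_inv_nhdsGT_zero
        refine (hl.comp h2).congr fun u => ?_
        simp
      rw [ContinuousWithinAt, if_pos rfl]
      rw [Metric.tendsto_nhdsWithin_nhds]
      intro ε hε
      rw [Metric.tendsto_nhdsWithin_nhds] at h1
      obtain ⟨δ, hδ, h3⟩ := h1 ε hε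
      refine ⟨δ, hδ, fun {x} hx hd => ?_⟩
      rcases eq_or_lt_of_le hx.1 with h4 | h4
      · rw [if_pos h4.symm, dist_self]; exact hε
      · rw [if_neg h4.ne']
        exact h3 h4 hd
    · have h1 : ContinuousWithinAt (fun u : ℝ => u⁻¹ * φ (u⁻¹ - 1)) (Icc 0 1) u := by
        have hne : u ≠ 0 := h0.ne'
        have hinvc : ContinuousWithinAt (fun u : ℝ => u⁻¹) (Icc 0 1) u :=
          (continuousAt_inv₀ hne).continuousWithinAt
        apply hinvc.mul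
        -- restrict to the part where the argument is nonnegative
        have hu1 : u⁻¹ - 1 ∈ Ici (0 : ℝ) := by
          have := (one_le_inv₀ h0).2 hu.2
          exact sub_nonneg.2 this
        have h5 : ContinuousWithinAt (fun u : ℝ => φ (u⁻¹ - 1)) (Icc 0 1 ∩ Ioi 0) u := by
          have h6 := hφ (u⁻¹ - 1) hu1
          refine ContinuousWithinAt.comp (t := Ici 0) (g := φ) (f := fun u : ℝ => u⁻¹ - 1) h6
            ((hinvc.sub continuousWithinAt_const).mono inter_subset_left) ?_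
          intro x hx
          have := (one_le_inv₀ hx.2).2 hx.1.2
          exact sub_nonneg.2 this
        rwa [continuousWithinAt_inter (Ioi_mem_nhds h0)] at h5
      refine h1.congr_of_eventuallyEq ?_ (if_neg h0.ne')
      filter_upwards [nhdsWithin_le_nhds (Ioi_mem_nhds h0)] with x hx
      have : (0 : ℝ) < x := hx
      rw [if_neg this.ne']
  apply t4_approx hZ hσ0 hgood hg0
  · exact hmeas φ (hφ.mono Ioi_subset_Ici_self)
  · intro ε hε
    obtain ⟨P, hP⟩ := exists_polynomial_near_of_continuousOn 0 1 _ hcont ε hε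
    refine ⟨fun t => ∑ k ∈ Finset.range (P.natDegree + 1), P.coeff k * (1 + t)⁻¹ ^ (k + 1),
      t4_sum _ _ fun k _ => t4_smul (hpow k) _, ?_⟩
    intro t ht
    have hu0 : 0 < (1 + t)⁻¹ := by positivity
    have hu1 : (1 + t)⁻¹ ≤ 1 := inv_le_one_of_one_le₀ (by linarith)
    have h1 := hP (1 + t)⁻¹ ⟨hu0.le, hu1⟩
    rw [if_neg hu0.ne'] at h1
    have e1 : ((1 + t)⁻¹)⁻¹ - 1 = t := by rw [inv_inv]; ring
    rw [e1, inv_inv] at h1
    have e2 : φ t - ∑ k ∈ Finset.range (P.natDegree + 1), P.coeff k * (1 + t)⁻¹ ^ (k + 1) =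
        -((1 + t)⁻¹ * (P.eval (1 + t)⁻¹ - (1 + t) * φ t)) := by
      rw [Polynomial.eval_eq_sum_range, mul_sub, Finset.mul_sum]
      have a1 : (1 + t)⁻¹ * ((1 + t) * φ t) = φ t := by
        rw [← mul_assoc, inv_mul_cancel₀ (by positivity), one_mul]
      rw [a1]
      have a2 : ∑ k ∈ Finset.range (P.natDegree + 1), P.coeff k * (1 + t)⁻¹ ^ (k + 1) =
          ∑ i ∈ Finset.range (P.natDegree + 1), (1 + t)⁻¹ * (P.coeff i * (1 + t)⁻¹ ^ i) :=
        Finset.sum_congr rfl fun k _ => by ring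
      rw [a2]
      ring
    rw [e2, abs_neg, abs_mul, abs_of_pos hu0]
    calc (1 + t)⁻¹ * |P.eval (1 + t)⁻¹ - (1 + t) * φ t| ≤ (1 + t)⁻¹ * ε :=
          mul_le_mul_of_nonneg_left h1.le hu0.le
      _ = ε * (1 + t)⁻¹ := mul_comm _ _
      _ ≤ ε * g t := mul_le_mul_of_nonneg_left (hg1 t ht) hε.le

theorem t4_sigI_zero (hτ : 0 < τ) : sigI α τ (Iic 0) = 0 := by
  rw [sigI_eq hτ]
  refine withDensity_absolutelyContinuous _ _ ?_
  rw [Measure.restrict_apply measurableSet_Iic]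
  have : Iic (0 : ℝ) ∩ Ioi 0 = ∅ := by
    ext x
    simp
  rw [this, measure_empty]

/-- `n⁻¹ log f_n(x) → g(x)` -/
theorem t4_f_tendsto (hτ : 0 < τ) (x : ℝ) :
    Tendsto (fun n : ℕ => (1 / (n : ℝ)) * Real.log (fj n α τ 0 x).re) atTop
      (𝓝 (gg α τ x)) := by
  obtain ⟨C, hC, hup⟩ := fj_upper (α := α) hτ
  obtain ⟨c, hc, hlow⟩ := fj_lower (α := α) hτ
  have hx : (0 : ℝ) < 1 + |x| := by positivity
  have hlogn : Tendsto (fun n : ℕ => (1 / (n : ℝ)) * Real.log n) atTop (𝓝 0) := by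
    have h1 : Tendsto (fun y : ℝ => Real.log y / y) atTop (𝓝 0) :=
      Real.isLittleO_log_id_atTop.tendsto_div_nhds_zero
    refine (h1.comp tendsto_natCast_atTop_atTop).congr fun n => ?_
    simp only [Function.comp]
    ring
  have hone : Tendsto (fun n : ℕ => (1 / (n : ℝ))) atTop (𝓝 0) := tendsto_one_div_atTop_nhds_zero_nat
  have hU : Tendsto (fun n : ℕ => (1 / (n : ℝ)) * Real.log (C * (1 + |x|)) + gg α τ x) atTop
      (𝓝 (gg α τ x)) := by
    have := (hone.mul_const (Real.log (C * (1 + |x|)))).add_const (gg α τ x)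
    simpa using this
  have hL : Tendsto (fun n : ℕ => (1 / (n : ℝ)) * Real.log (c / (1 + |x|)) -
      (1 / (n : ℝ)) * Real.log n + gg α τ x) atTop (𝓝 (gg α τ x)) := by
    have := ((hone.mul_const (Real.log (c / (1 + |x|)))).sub hlogn).add_const (gg α τ x)
    simpa using this
  refine tendsto_of_tendsto_of_tendsto_of_le_of_le' hL hU ?_ ?_
  · filter_upwards [eventually_gt_atTop 0] with n hn
    have hn' : (0 : ℝ) < n := Nat.cast_pos.2 hn
    have h1 := hlow n hn x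
    have h2 : Real.log (c / (n * (1 + |x|)) * Real.exp (n * gg α τ x)) ≤
        Real.log (fj n α τ 0 x).re := Real.log_le_log (by positivity) h1
    rw [Real.log_mul (by positivity) (Real.exp_pos _).ne', Real.log_exp,
      Real.log_div hc.ne' (by positivity), Real.log_mul hn'.ne' hx.ne'] at h2
    rw [Real.log_div hc.ne' hx.ne']
    have e1 : (1 / (n : ℝ)) * (Real.log c - Real.log (1 + |x|)) - (1 / (n : ℝ)) * Real.log n +
        gg α τ x = (1 / (n : ℝ)) * (Real.log c - (Real.log n + Real.log (1 + |x|)) +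
          n * gg α τ x) := by
      field_simp
      ring
    rw [e1]
    exact mul_le_mul_of_nonneg_left h2 (by positivity)
  · filter_upwards [eventually_gt_atTop 0] with n hn
    have hn' : (0 : ℝ) < n := Nat.cast_pos.2 hn
    have h1 := hup n hn x
    have h0 : 0 < (fj n α τ 0 x).re := fj_zero_pos hn' x
    have h2 := Real.log_le_log h0 h1
    rw [Real.log_mul (by positivity) (Real.exp_pos _).ne', Real.log_exp] at h2
    have e1 : (1 / (n : ℝ)) * Real.log (C * (1 + |x|)) + gg α τ x =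
        (1 / (n : ℝ)) * (Real.log (C * (1 + |x|)) + n * gg α τ x) := by
      field_simp
    rw [e1]
    exact mul_le_mul_of_nonneg_left h2 (by positivity)

theorem log_tendsto (hτ : 0 < τ) (ξ : ℝ) (hξ : 0 ≤ ξ) :
    Tendsto (fun n : ℕ => (1 / (n : ℝ)) * ∑' t : Zt n α τ, Real.log (1 + ξ / (t : ℝ))) atTop
      (𝓝 (∫ t, Real.log (1 + ξ / t) ∂(sigI α τ))) := by
  have hsq : √ξ ^ 2 = ξ := Real.sq_sqrt hξ
  have h1 := gg_pot (α := α) hτ (√ξ)
  rw [hsq] at h1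
  rw [← h1]
  refine ((t4_f_tendsto (α := α) hτ (√ξ)).sub (t4_f_tendsto (α := α) hτ 0)).congr' ?_
  filter_upwards [eventually_gt_atTop 0] with n hn
  have hn' : (0 : ℝ) < n := Nat.cast_pos.2 hn
  have h2 := (log_FF (α := α) hn' hτ (√ξ) (Real.sqrt_nonneg _)).2
  rw [hsq] at h2
  rw [← h2, Real.log_div (fj_zero_pos hn' _).ne' (by
    have := fj_zero_pos (α := α) (τ := τ) hn' 0
    simpa using this.ne'), mul_sub]
  simp

theorem Zt_tendsto (hτ : 0 < τ) (φ : ℝ → ℝ) (hφ : ContinuousOn φ (Ici 0)) (l : ℝ)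
    (hl : Tendsto (fun t => (1 + t) * φ t) atTop (𝓝 l)) :
    Integrable φ (sigI α τ) ∧
    Tendsto (fun n : ℕ => (1 / (n : ℝ)) * ∑' t : Zt n α τ, φ t) atTop
      (𝓝 (∫ t, φ t ∂(sigI α τ))) := by
  let Z : ℕ → Set ℝ := fun n => if n = 0 then ∅ else Zt n α τ
  have hZ0 : ∀ n, n ≠ 0 → Z n = Zt n α τ := fun n hn => if_neg hn
  have key := tendsto_of_log Z (by
      intro n t ht
      by_cases hn : n = 0
      · have : Z n = ∅ := if_pos hn
        rw [this] at ht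
        exact absurd ht (notMem_empty t)
      · rw [hZ0 n hn] at ht
        exact ht.1) (sigI α τ) (t4_sigI_zero hτ) (by
      intro ξ hξ
      have := sigI_log (α := α) hτ (√ξ)
      rwa [Real.sq_sqrt hξ] at this) (by
      intro n ξ hξ
      by_cases hn : n = 0
      · have : Z n = ∅ := if_pos hn
        rw [this]
        exact Summable.of_finite
      · rw [hZ0 n hn]
        have hn' : (0 : ℝ) < n := Nat.cast_pos.2 (Nat.pos_of_ne_zero hn)
        have := (log_FF (α := α) hn' hτ (√ξ) (Real.sqrt_nonneg _)).1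
        rwa [Real.sq_sqrt hξ] at this) (by
      intro ξ hξ
      refine (log_tendsto (α := α) hτ ξ hξ).congr' ?_
      filter_upwards [eventually_gt_atTop 0] with n hn
      rw [hZ0 n hn.ne']) φ hφ l hl
  refine ⟨key.2.1, key.2.2.congr' ?_⟩
  filter_upwards [eventually_gt_atTop 0] with n hn
  rw [hZ0 n hn.ne']

end

end Pool.Agent.MP_941b23_mp
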