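import Pool.Agent.MP_941b23_mp.Defs2
import Pool.Agent.MP_941b23_mp.E2a
import Pool.Agent.MP_941b23_mp.E2b
import Pool.Agent.MP_941b23_mp.L3b
import Pool.Agent.MP_941b23_mp.P5
import Pool.Agent.MP_941b23_mp.P7c
import Pool.Agent.MP_941b23_mp.T1a
import Pool.Agent.MP_941b23_mp.T2a
import Pool.Agent.MP_941b23_mp.T2b
import Pool.Agent.MP_941b23_mp.T4
import Pool.Agent.MP_941b23_mp.T5

/-!
# [QM-E2c] existence of a weakly admissible minimiser

The lemmas with prefixes `e2c_p5_`, `e2c_l2b_`, `e2c_u2_` are copies of lemmas of the rows P5, L2b, U2.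
-/

namespace Pool.Agent.MP_941b23_mp

open MeasureTheory Set Filter Topology
open scoped ENNReal NNReal Real

noncomputable section

theorem e2c_p5_layer (μ : Measure ℝ) [IsFiniteMeasure μ]
    (h : Integrable (fun x => Real.log (max x 1)) μ) :
    IntegrableOn (fun u => 1 / u * tl μ u) (Ioi 1) ∧
    ∫ x, Real.log (max x 1) ∂μ = ∫ u in Ioi (1 : ℝ), 1 / u * tl μ u := by
  have hnn : ∀ x : ℝ, 0 ≤ Real.log (max x 1) := fun x => Real.log_nonneg (le_max_right _ _)
  have hset : ∀ t ∈ Ioi (0:ℝ), {x : ℝ | t < Real.log (max x 1)} = Ioi (Real.exp t) := by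
    intro t ht
    ext x
    have hm : 0 < max x 1 := lt_of_lt_of_le one_pos (le_max_right _ _)
    have h1 : (1:ℝ) < Real.exp t := Real.one_lt_exp_iff.2 ht
    simp only [mem_ofPred_eq, mem_Ioi]
    rw [Real.lt_log_iff_exp_lt hm, lt_max_iff]
    constructor
    · rintro (h | h)
      · exact h
      · exact absurd h (not_lt.2 h1.le)
    · exact Or.inl
  have himg : Real.exp '' (Ioi (0:ℝ)) = Ioi 1 := by
    ext u
    constructor
    · rintro ⟨t, ht, rfl⟩
      exact Real.one_lt_exp_iff.2 ht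
    · intro hu
      have hu' : (1:ℝ) < u := hu
      exact ⟨Real.log u, Real.log_pos hu', Real.exp_log (by linarith)⟩
  have hder : ∀ t ∈ Ioi (0:ℝ), HasDerivWithinAt Real.exp (Real.exp t) (Ioi 0) t :=
    fun t _ => (Real.hasDerivAt_exp t).hasDerivWithinAt
  have hinj : InjOn Real.exp (Ioi (0:ℝ)) := Real.exp_injective.injOn
  have hfun : ∀ t : ℝ, |Real.exp t| • (1 / Real.exp t * tl μ (Real.exp t)) = tl μ (Real.exp t) := by
    intro t
    have := Real.exp_pos t
    rw [abs_of_pos this, smul_eq_mul]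
    field_simp
  have hint0 : IntegrableOn (fun t => tl μ (Real.exp t)) (Ioi (0:ℝ)) := by
    have hm : Measurable (fun t => tl μ (Real.exp t)) := by
      have hanti : Antitone (fun t => tl μ (Real.exp t)) := by
        intro s t hst
        exact measureReal_mono (Ioi_subset_Ioi (Real.exp_le_exp.2 hst))
      exact hanti.measurable
    refine ⟨hm.aestronglyMeasurable, ?_⟩
    have hnn' : ∀ᵐ t ∂(volume.restrict (Ioi (0:ℝ))), 0 ≤ tl μ (Real.exp t) :=
      Eventually.of_forall fun t => measureReal_nonneg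
    rw [hasFiniteIntegral_iff_ofReal hnn']
    have e1 : ∫⁻ t in Ioi (0:ℝ), ENNReal.ofReal (tl μ (Real.exp t))
        = ∫⁻ t in Ioi (0:ℝ), μ {x : ℝ | t < Real.log (max x 1)} := by
      refine setLIntegral_congr_fun measurableSet_Ioi ?_
      intro t ht
      show ENNReal.ofReal (μ.real (Ioi (Real.exp t))) = μ {x : ℝ | t < Real.log (max x 1)}
      rw [hset t ht]
      exact ENNReal.ofReal_toReal (measure_ne_top _ _)
    rw [e1, ← lintegral_eq_lintegral_meas_lt μ (Eventually.of_forall hnn) h.aemeasurable]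
    exact h.lintegral_lt_top
  constructor
  · rw [← himg, integrableOn_image_iff_integrableOn_abs_deriv_smul measurableSet_Ioi hder hinj]
    simp only [hfun]
    exact hint0
  · rw [h.integral_eq_integral_meas_lt (Eventually.of_forall hnn), ← himg,
      integral_image_eq_integral_abs_deriv_smul measurableSet_Ioi hder hinj]
    simp only [hfun]
    refine setIntegral_congr_fun measurableSet_Ioi ?_
    intro t ht
    show μ.real {x : ℝ | t < Real.log (max x 1)} = μ.real (Ioi (Real.exp t))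
    rw [hset t ht]

theorem e2c_p5_logmax_le (x : ℝ) : |Real.log (max x 1)| ≤ Real.log (1 + |x|) := by
  rw [abs_of_nonneg (Real.log_nonneg (le_max_right _ _))]
  apply Real.log_le_log (lt_of_lt_of_le one_pos (le_max_right _ _))
  apply max_le
  · linarith [le_abs_self x]
  · linarith [abs_nonneg x]

theorem e2c_p5_logmax_int (μ : Measure ℝ) [IsFiniteMeasure μ]
    (h : Integrable (fun x => Real.log (1 + |x|)) μ) :
    Integrable (fun x => Real.log (max x 1)) μ := by
  have hm : Measurable (fun x : ℝ => Real.log (max x 1)) := by fun_prop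
  refine h.mono' hm.aestronglyMeasurable ?_
  exact Eventually.of_forall fun x => e2c_p5_logmax_le x

theorem e2c_p5_logmax2_int (μ ν : Measure ℝ) [IsFiniteMeasure μ] [IsFiniteMeasure ν]
    (hμ : Integrable (fun x => Real.log (1 + |x|)) μ)
    (hν : Integrable (fun x => Real.log (1 + |x|)) ν) :
    Integrable (fun z : ℝ × ℝ => Real.log (max (max z.1 z.2) 1)) (μ.prod ν) := by
  have h1 : Integrable (fun z : ℝ × ℝ => Real.log (1 + |z.1|)) (μ.prod ν) := hμ.comp_fst ν
  have h2 : Integrable (fun z : ℝ × ℝ => Real.log (1 + |z.2|)) (μ.prod ν) := hν.comp_snd μ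
  have hm : Measurable (fun z : ℝ × ℝ => Real.log (max (max z.1 z.2) 1)) := by fun_prop
  refine (h1.add h2).mono' hm.aestronglyMeasurable ?_
  refine Eventually.of_forall fun z => ?_
  have hm : (1:ℝ) ≤ max (max z.1 z.2) 1 := le_max_right _ _
  rw [Real.norm_eq_abs, abs_of_nonneg (Real.log_nonneg hm)]
  show Real.log (max (max z.1 z.2) 1) ≤ Real.log (1 + |z.1|) + Real.log (1 + |z.2|)
  rw [← Real.log_mul (by positivity) (by positivity)]
  apply Real.log_le_log (by linarith)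
  have a1 := le_abs_self z.1
  have a2 := le_abs_self z.2
  have a3 := abs_nonneg z.1
  have a4 := abs_nonneg z.2
  have a5 := mul_nonneg a3 a4
  apply max_le (max_le _ _) _ <;> nlinarith

theorem e2c_p5_Q (μ ν : Measure ℝ) [IsFiniteMeasure μ] [IsFiniteMeasure ν]
    (hμ : Integrable (fun x => Real.log (1 + |x|)) μ)
    (hν : Integrable (fun x => Real.log (1 + |x|)) ν) :
    IntegrableOn (fun u => 1 / u * (μ.real univ * tl ν u + ν.real univ * tl μ u
      - tl μ u * tl ν u)) (Ioi 1) ∧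
    ∫ z : ℝ × ℝ, Real.log (max (max z.1 z.2) 1) ∂(μ.prod ν) =
      ∫ u in Ioi (1 : ℝ), 1 / u * (μ.real univ * tl ν u + ν.real univ * tl μ u
        - tl μ u * tl ν u) := by
  have hint := e2c_p5_logmax2_int μ ν hμ hν
  have hmeas : Measurable (fun z : ℝ × ℝ => max z.1 z.2) := by fun_prop
  set ρ := (μ.prod ν).map (fun z : ℝ × ℝ => max z.1 z.2) with hρ
  have hfin : IsFiniteMeasure ρ := by rw [hρ]; infer_instance
  have hlm : Measurable (fun x : ℝ => Real.log (max x 1)) := by fun_prop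
  have hint' : Integrable (fun x => Real.log (max x 1)) ρ := by
    rw [hρ, integrable_map_measure hlm.aestronglyMeasurable hmeas.aemeasurable]
    exact hint
  have htl : ∀ u : ℝ, tl ρ u = μ.real univ * tl ν u + ν.real univ * tl μ u
      - tl μ u * tl ν u := by
    intro u
    have e1 : tl ρ u = (μ.prod ν).real ((Iic u ×ˢ Iic u)ᶜ) := by
      unfold tl
      rw [hρ, map_measureReal_apply hmeas measurableSet_Ioi]
      congr 1
      ext z
      simp only [mem_preimage, mem_Ioi, lt_max_iff, mem_compl_iff, mem_prod, mem_Iic]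
      constructor
      · rintro (h | h) ⟨h1, h2⟩ <;> linarith
      · intro h
        by_contra hcon
        push Not at hcon
        exact h hcon
    rw [e1, measureReal_compl (measurableSet_Iic.prod measurableSet_Iic),
      measureReal_prod_prod]
    have e2 : (μ.prod ν).real univ = μ.real univ * ν.real univ := by
      rw [← univ_prod_univ, measureReal_prod_prod]
    have e3 : ∀ κ : Measure ℝ, ∀ _ : IsFiniteMeasure κ, κ.real (Iic u) = κ.real univ - tl κ u := by
      intro κ _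
      unfold tl
      rw [← compl_Iic, measureReal_compl measurableSet_Iic]
      ring
    rw [e2, e3 μ inferInstance, e3 ν inferInstance]
    ring
  obtain ⟨h1, h2⟩ := e2c_p5_layer ρ hint'
  simp only [htl] at h1 h2
  refine ⟨h1, ?_⟩
  rw [← h2, hρ, integral_map hmeas.aemeasurable hlm.aestronglyMeasurable]

theorem e2c_p5_sigI_Iic {α τ : ℝ} (hτ : 0 < τ) : sigI α τ (Iic 0) = 0 := by
  rw [sigI_eq hτ]
  apply withDensity_absolutelyContinuous
  rw [Measure.restrict_apply measurableSet_Iic]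
  have : Iic (0:ℝ) ∩ Ioi 0 = ∅ := by
    ext x; simp
  rw [this]; simp

theorem e2c_p5_ae_prod (a b : Measure ℝ) [IsFiniteMeasure a] [IsFiniteMeasure b] (p q : ℝ → Prop)
    (hp : ∀ᵐ x ∂a, p x) (hq : ∀ᵐ x ∂b, q x) : ∀ᵐ z ∂(a.prod b), p z.1 ∧ q z.2 := by
  have h1 : ∀ᵐ z ∂(a.prod b), p z.1 := Measure.quasiMeasurePreserving_fst.ae hp
  have h2 : ∀ᵐ z ∂(a.prod b), q z.2 := Measure.quasiMeasurePreserving_snd.ae hq
  filter_upwards [h1, h2] with z a1 a2 using ⟨a1, a2⟩

theorem e2c_p5_ae_nonneg (a : Measure ℝ) (h : a (Iio 0) = 0) : ∀ᵐ x ∂a, 0 ≤ x := by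
  rw [ae_iff]
  have : {x : ℝ | ¬ 0 ≤ x} = Iio 0 := by ext x; simp
  rw [this]; exact h

theorem e2c_p5_ae_pos {α τ : ℝ} (hτ : 0 < τ) (b : Measure ℝ) (hb : b ≤ sigI α τ) :
    ∀ᵐ x ∂b, 0 < x := by
  rw [ae_iff]
  have : {x : ℝ | ¬ 0 < x} = Iic 0 := by ext x; simp
  rw [this]
  exact le_antisymm ((hb _).trans (e2c_p5_sigI_Iic hτ).le) bot_le

theorem e2c_l2b_log_integrable (lo hi : ℝ) : Integrable (fun z : ℝ × ℝ => Real.log |z.1 - z.2|)
    ((volume.restrict (Icc lo hi)).prod (volume.restrict (Icc lo hi))) := by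
  rw [Measure.prod_restrict]
  set R : ℝ := |hi - lo| with hR
  have hg : Integrable ((Icc (-R) R).indicator Real.log) volume := by
    rw [integrable_indicator_iff measurableSet_Icc]
    have h1 : IntervalIntegrable Real.log volume (-R) R := intervalIntegral.intervalIntegrable_log'
    have hR0 : 0 ≤ R := abs_nonneg _
    rw [intervalIntegrable_iff_integrableOn_Icc_of_le (by linarith)] at h1
    exact h1
  have hf : Integrable ((Icc lo hi).indicator fun _ => (1 : ℝ)) volume := by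
    rw [integrable_indicator_iff measurableSet_Icc]
    exact integrableOn_const (by simp)
  have key := Integrable.convolution_integrand (ContinuousLinearMap.mul ℝ ℝ) (μ := volume) hf hg
  refine IntegrableOn.congr_fun key.integrableOn ?_ (measurableSet_Icc.prod measurableSet_Icc)
  rintro ⟨x, y⟩ ⟨hx, hy⟩
  change (ContinuousLinearMap.mul ℝ ℝ) ((Icc lo hi).indicator (fun _ => (1 : ℝ)) y)
    ((Icc (-R) R).indicator Real.log (x - y)) = Real.log |x - y|
  have hy' : y ∈ Icc lo hi := hy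
  have hx' : x ∈ Icc lo hi := hx
  have hxy : x - y ∈ Icc (-R) R := by
    have h1 : hi - lo ≤ R := le_abs_self _
    constructor
    · linarith [hx'.1, hy'.2]
    · linarith [hx'.2, hy'.1]
  rw [indicator_of_mem hy', indicator_of_mem hxy, Real.log_abs]
  simp

theorem e2c_l2b_bdd {μ : Measure ℝ} {C : ℝ≥0∞} (hC : C ≠ ⊤) {lo hi : ℝ}
    (h : μ ≤ C • volume.restrict (Icc lo hi)) :
    IsFiniteMeasure μ ∧ (∀ x, μ {x} = 0) ∧ μ (Icc lo hi)ᶜ = 0 ∧
      Integrable (fun z : ℝ × ℝ => Real.log |z.1 - z.2|) (μ.prod μ) := by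
  have hfin : IsFiniteMeasure μ := by
    refine ⟨lt_of_le_of_lt (h univ) ?_⟩
    rw [Measure.smul_apply, smul_eq_mul, Measure.restrict_apply_univ, Real.volume_Icc]
    exact ENNReal.mul_lt_top hC.lt_top ENNReal.ofReal_lt_top
  refine ⟨hfin, fun x => ?_, ?_, ?_⟩
  · have h1 := h {x}
    have h2 : (C • volume.restrict (Icc lo hi)) {x} = 0 := by
      rw [Measure.smul_apply, smul_eq_mul]
      have : (volume.restrict (Icc lo hi)) {x} = 0 := measure_singleton x
      rw [this, mul_zero]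
    exact le_antisymm (h1.trans h2.le) zero_le
  · have h1 := h (Icc lo hi)ᶜ
    have h2 : (C • volume.restrict (Icc lo hi)) (Icc lo hi)ᶜ = 0 := by
      rw [Measure.smul_apply, smul_eq_mul, Measure.restrict_apply measurableSet_Icc.compl]
      simp
    exact le_antisymm (h1.trans h2.le) zero_le
  · have h1 : μ.prod μ ≤ (C • volume.restrict (Icc lo hi)).prod
        (C • volume.restrict (Icc lo hi)) := by
      exact Measure.prod_mono h h
    refine Integrable.mono_measure ?_ h1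
    rw [Measure.prod_smul_left, Measure.prod_smul_right]
    exact ((e2c_l2b_log_integrable lo hi).smul_measure hC).smul_measure hC

theorem e2c_l2b_integrable {μ : Measure ℝ} [IsFiniteMeasure μ] {lo hi : ℝ}
    (h : μ (Icc lo hi)ᶜ = 0) {q : ℝ → ℝ} (hq : ContinuousOn q (Icc lo hi)) : Integrable q μ := by
  have h1 : μ.restrict (Icc lo hi) = μ := by
    apply Measure.restrict_eq_self_of_ae_mem
    exact (measure_eq_zero_iff_ae_notMem.1 h).mono fun x hx => not_not.1 hx
  have h2 : IntegrableOn q (Icc lo hi) μ := hq.integrableOn_compact isCompact_Icc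
  rwa [IntegrableOn, h1] at h2

theorem e2c_l2b_dens {r : ℝ → ℝ} {K lo hi : ℝ} (hr : ∀ x, r x ≤ K)
    (hsupp : ∀ x, x ∉ Icc lo hi → r x = 0) (g : ℝ → ℝ≥0∞) (hrm : Measurable r) :
    ∫⁻ x, g x ∂(volume.withDensity fun x => ENNReal.ofReal (r x)) ≤
      ENNReal.ofReal K * ∫⁻ x in Icc lo hi, g x := by
  calc ∫⁻ x, g x ∂(volume.withDensity fun x => ENNReal.ofReal (r x))
      ≤ ∫⁻ x, (fun x => ENNReal.ofReal (r x)) x * g x := by
        refine (lintegral_withDensity_le_lintegral_mul volume (by fun_prop) g)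
    _ ≤ ∫⁻ x, (Icc lo hi).indicator (fun x => ENNReal.ofReal K * g x) x := by
        apply lintegral_mono
        intro x
        by_cases hx : x ∈ Icc lo hi
        · rw [indicator_of_mem hx]
          exact mul_le_mul_left (ENNReal.ofReal_le_ofReal (hr x)) _
        · change ENNReal.ofReal (r x) * g x ≤ _
          rw [indicator_of_notMem hx, hsupp x hx, ENNReal.ofReal_zero, zero_mul]
    _ = ENNReal.ofReal K * ∫⁻ x in Icc lo hi, g x := by
        rw [lintegral_indicator measurableSet_Icc, lintegral_const_mul' _ _ ENNReal.ofReal_ne_top]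

theorem e2c_l2b_le_of_lintegral {μ ν : Measure ℝ}
    (h : ∀ g : ℝ → ℝ≥0∞, Measurable g → ∫⁻ x, g x ∂μ ≤ ∫⁻ x, g x ∂ν) : μ ≤ ν := by
  rw [Measure.le_iff]
  intro s hs
  have := h (s.indicator 1) (measurable_one.indicator hs)
  rwa [lintegral_indicator_one hs, lintegral_indicator_one hs] at this

theorem e2c_l2b_dens_le {r : ℝ → ℝ} {K lo hi : ℝ} (hr : ∀ x, r x ≤ K)
    (hsupp : ∀ x, x ∉ Icc lo hi → r x = 0) (hrm : Measurable r) :
    (volume.withDensity fun x => ENNReal.ofReal (r x)) ≤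
      ENNReal.ofReal K • volume.restrict (Icc lo hi) := by
  apply e2c_l2b_le_of_lintegral
  intro g _
  rw [lintegral_smul_measure]
  exact e2c_l2b_dens hr hsupp g hrm

theorem e2c_l2b_b_le {α τ : ℝ} (hτ : 0 < τ) {lo hi : ℝ} (hlo : 0 < lo) {θ : ℝ → ℝ}
    (bθ : ∀ x, θ x ≤ 1) (supp : ∀ x, x ∉ Icc lo hi → θ x = 0) :
    ∃ C : ℝ≥0∞, C ≠ ⊤ ∧ ((sigI α τ).withDensity fun x => ENNReal.ofReal (θ x)) ≤
      C • volume.restrict (Icc lo hi) := by
  obtain ⟨C, hC, hb⟩ := rr_bound (α := α) hτ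
  set D : ℝ := τ / π * (C * (1 + √hi) ^ (1 / 3 : ℝ)) / (2 * √lo) with hD
  refine ⟨ENNReal.ofReal D, ENNReal.ofReal_ne_top, ?_⟩
  rw [Measure.le_iff]
  intro s hs
  rw [withDensity_apply _ hs]
  have h1 : ∫⁻ x in s, ENNReal.ofReal (θ x) ∂(sigI α τ) ≤
      ∫⁻ x in s, (Icc lo hi).indicator 1 x ∂(sigI α τ) := by
    apply lintegral_mono
    intro x
    by_cases hx : x ∈ Icc lo hi
    · rw [indicator_of_mem hx]
      change ENNReal.ofReal (θ x) ≤ 1
      rw [← ENNReal.ofReal_one]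
      exact ENNReal.ofReal_le_ofReal (bθ x)
    · rw [indicator_of_notMem hx]
      change ENNReal.ofReal (θ x) ≤ 0
      rw [supp x hx, ENNReal.ofReal_zero]
  refine h1.trans ?_
  rw [lintegral_indicator_one measurableSet_Icc, Measure.restrict_apply measurableSet_Icc,
    Measure.smul_apply, smul_eq_mul, Measure.restrict_apply hs, sigI_eq hτ,
    withDensity_apply _ (measurableSet_Icc.inter hs), inter_comm s]
  calc ∫⁻ t in Icc lo hi ∩ s, ENNReal.ofReal (dI α τ t) ∂(volume.restrict (Ioi (0 : ℝ)))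
      ≤ ∫⁻ t in Icc lo hi ∩ s, ENNReal.ofReal D ∂(volume.restrict (Ioi (0 : ℝ))) := by
        apply setLIntegral_mono' (measurableSet_Icc.inter hs)
        intro t ht
        apply ENNReal.ofReal_le_ofReal
        have ht' := ht.1
        have hs1 : √lo ≤ √t := Real.sqrt_le_sqrt ht'.1
        have hs2 : √t ≤ √hi := Real.sqrt_le_sqrt ht'.2
        have hs0 : 0 < √lo := Real.sqrt_pos.2 hlo
        have hrr : rr α τ (√t * Complex.I) ≤ C * (1 + √hi) ^ (1 / 3 : ℝ) := by
          refine (hb _).trans ?_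
          apply mul_le_mul_of_nonneg_left _ hC.le
          apply Real.rpow_le_rpow (by positivity) _ (by norm_num)
          have : ‖((√t : ℝ) : ℂ) * Complex.I‖ = √t := by
            rw [norm_mul, Complex.norm_I, mul_one, Complex.norm_real, Real.norm_eq_abs,
              abs_of_nonneg (Real.sqrt_nonneg _)]
          rw [this]
          linarith
        unfold dI
        rw [hD]
        have hrr0 := rr_nonneg (α := α) (τ := τ) (√t * Complex.I)
        gcongr
    _ = ENNReal.ofReal D * (volume.restrict (Ioi (0 : ℝ))) (Icc lo hi ∩ s) := by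
        rw [setLIntegral_const]
    _ ≤ ENNReal.ofReal D * volume (Icc lo hi ∩ s) := by
        gcongr
        exact Measure.restrict_le_self

theorem e2c_u2_Rm_ge (M x y : ℝ) (h : x ≠ y) : RmM M x y ≤ Rm x y := by
  unfold RmM Rm
  have h1 : 0 < |x - y| := abs_pos.2 (sub_ne_zero.2 h)
  have h2 : 0 < max (max x y) 1 := lt_of_lt_of_le one_pos (le_max_right _ _)
  have h3 : Real.log (max (max x y) 1 / |x - y|) = -Real.log (|x - y| / max (max x y) 1) := by
    rw [← Real.log_inv, inv_div]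
  rw [h3]
  exact neg_le_neg (Real.log_le_log (by positivity) (le_max_left _ _))

theorem e2c_u2_RpD_le (δ x y : ℝ) (hδ : 0 < δ) (hx : 0 < x) (hy : 0 < y) :
    RpD δ x y ≤ Rp x y + Real.log (1 + δ / y) := by
  unfold RpD Rp
  have h2 : 0 < max (max x y) 1 := lt_of_lt_of_le one_pos (le_max_right _ _)
  rw [← Real.log_mul (by positivity) (by positivity)]
  apply Real.log_le_log (by positivity)
  rw [div_mul_eq_mul_div]
  apply div_le_div_of_nonneg_right _ h2.le
  have h3 : δ ≤ (x + y) * (δ / y) := by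
    rw [mul_div_assoc', le_div_iff₀ hy]
    nlinarith
  nlinarith

theorem e2c_u2_RpD_le' (δ x y : ℝ) (hδ : 0 < δ) (hx : 0 < x) (hy : 0 < y) :
    RpD δ x y ≤ Rp x y + Real.log (1 + δ / x) := by
  unfold RpD Rp
  have h2 : 0 < max (max x y) 1 := lt_of_lt_of_le one_pos (le_max_right _ _)
  rw [← Real.log_mul (by positivity) (by positivity)]
  apply Real.log_le_log (by positivity)
  rw [div_mul_eq_mul_div]
  apply div_le_div_of_nonneg_right _ h2.le
  have h3 : δ ≤ (x + y) * (δ / x) := by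
    rw [mul_div_assoc', le_div_iff₀ hx]
    nlinarith
  nlinarith

/-! ### admissible triples are weakly admissible -/

theorem e2c_ae_ne (μ : Measure ℝ) [IsFiniteMeasure μ] (hna : ∀ x, μ {x} = 0) :
    ∀ᵐ z : ℝ × ℝ ∂(μ.prod μ), z.1 ≠ z.2 := by
  rw [ae_iff]
  have hs : MeasurableSet {z : ℝ × ℝ | ¬ z.1 ≠ z.2} := by
    have : {z : ℝ × ℝ | ¬ z.1 ≠ z.2} = {z : ℝ × ℝ | z.1 = z.2} := by ext z; simp
    rw [this]
    exact measurableSet_eq_fun measurable_fst measurable_snd
  rw [Measure.prod_apply hs]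
  have : ∀ x : ℝ, μ (Prod.mk x ⁻¹' {z : ℝ × ℝ | ¬ z.1 ≠ z.2}) = 0 := by
    intro x
    have e : Prod.mk x ⁻¹' {z : ℝ × ℝ | ¬ z.1 ≠ z.2} = {x} := by
      ext y; simp [eq_comm]
    rw [e]; exact hna x
  rw [lintegral_congr this, lintegral_zero]

theorem e2c_rm (μ : Measure ℝ) [IsFiniteMeasure μ] (h : FinEn μ) :
    Integrable (fun z : ℝ × ℝ => Rm z.1 z.2) (μ.prod μ) := by
  have hmx := e2c_p5_logmax2_int μ μ h.logMoment h.logMoment
  refine (hmx.sub h.energy).congr ?_
  filter_upwards [e2c_ae_ne μ h.noAtom] with z hz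
  unfold Rm
  have h1 : |z.1 - z.2| ≠ 0 := abs_ne_zero.2 (sub_ne_zero.2 hz)
  have h2 : max (max z.1 z.2) 1 ≠ 0 := (lt_of_lt_of_le one_pos (le_max_right _ _)).ne'
  rw [Real.log_div h2 h1]
  rfl

theorem e2c_fin {μ : Measure ℝ} {m : ℝ≥0∞} (h : μ univ = m) (hm : m < ⊤) : IsFiniteMeasure μ :=
  ⟨by rw [h]; exact hm⟩

theorem e2c_wadm {α τ : ℝ} {V : ℝ → ℝ} {a b c : Measure ℝ} (h : AdmJ α τ V a b c) :
    WAdm α τ V a b c := by
  have fa : IsFiniteMeasure a := e2c_fin h.massa (by simp)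
  have fb : IsFiniteMeasure b := e2c_fin h.massb (ENNReal.div_lt_top (by simp) (by simp))
  have fc : IsFiniteMeasure c := e2c_fin h.massc (by simp)
  have ma : a.real univ = 1 / 2 := by unfold Measure.real; rw [h.massa]; simp
  have mb : b.real univ = 1 / 3 := by unfold Measure.real; rw [h.massb]; simp
  have mc : c.real univ = 1 / 6 := by unfold Measure.real; rw [h.massc]; simp
  refine ⟨h.suppa, h.suppb, h.suppc, h.massa, h.massb, h.massc, h.constr, h.ena.noAtom,
    h.enb.noAtom, h.enc.noAtom, e2c_rm a h.ena, e2c_rm b h.enb, e2c_rm c h.enc, h.pot, ?_⟩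
  have iaa := (e2c_p5_Q a a h.ena.logMoment h.ena.logMoment).1
  have ibb := (e2c_p5_Q b b h.enb.logMoment h.enb.logMoment).1
  have icc := (e2c_p5_Q c c h.enc.logMoment h.enc.logMoment).1
  have iab := (e2c_p5_Q a b h.ena.logMoment h.enb.logMoment).1
  have ibc := (e2c_p5_Q b c h.enb.logMoment h.enc.logMoment).1
  have il := (e2c_p5_layer a (e2c_p5_logmax_int a h.ena.logMoment)).1
  have i5 := ((((iaa.neg.sub ibb).sub icc).add iab).add ibc).add (il.const_mul (2 / 3))
  refine i5.congr (Eventually.of_forall fun u => ?_)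
  simp only [Pi.add_apply, Pi.sub_apply, Pi.neg_apply, qf, ma, mb, mc]
  ring

/-! ### nice triples are admissible -/

theorem e2c_nice {α τ : ℝ} (hτ : 0 < τ) {V : ℝ → ℝ} (hV : Pot V)
    {a b c : Measure ℝ} {lo hi K η : ℝ} {ra rc θ : ℝ → ℝ}
    (h : Nice α τ a b c lo hi K η ra rc θ) :
    AdmJ α τ V a b c ∧ a (Icc lo hi)ᶜ = 0 ∧ b (Icc lo hi)ᶜ = 0 ∧ c (Icc lo hi)ᶜ = 0 := by
  have hlo := h.lo_pos
  have hlh := h.lo_lt
  obtain ⟨Cb, hCb, hble⟩ := e2c_l2b_b_le (α := α) hτ hlo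
    (fun x => (h.bθ x).2.trans (by linarith [h.η_pos])) fun x hx => (h.supp x hx).2.2
  rw [← h.eqb] at hble
  have hale := e2c_l2b_dens_le (fun x => (h.bra x).2) (fun x hx => (h.supp x hx).1) h.mra
  rw [← h.eqa] at hale
  have hcle := e2c_l2b_dens_le (fun x => (h.brc x).2) (fun x hx => (h.supp x hx).2.1) h.mrc
  rw [← h.eqc] at hcle
  obtain ⟨hfa, hata, hsa, hla⟩ := e2c_l2b_bdd ENNReal.ofReal_ne_top hale
  obtain ⟨hfb, hatb, hsb, hlb⟩ := e2c_l2b_bdd hCb hble
  obtain ⟨hfc, hatc, hsc, hlc⟩ := e2c_l2b_bdd ENNReal.ofReal_ne_top hcle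
  have hsub : Iio (0 : ℝ) ⊆ (Icc lo hi)ᶜ := by
    intro x hx hx'
    have h1 : x < 0 := hx
    linarith [hx'.1]
  have hlog : ContinuousOn (fun x : ℝ => Real.log (1 + |x|)) (Icc lo hi) := by
    apply ContinuousOn.log (by fun_prop)
    intro x _
    positivity
  have hcon : b ≤ sigI α τ := by
    rw [h.eqb]
    have h1 : ((sigI α τ).withDensity fun x => ENNReal.ofReal (θ x)) ≤
        (sigI α τ).withDensity 1 := by
      refine withDensity_mono (Eventually.of_forall fun x => ?_)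
      change ENNReal.ofReal (θ x) ≤ 1
      rw [← ENNReal.ofReal_one]
      exact ENNReal.ofReal_le_ofReal ((h.bθ x).2.trans (by linarith [h.η_pos]))
    rwa [withDensity_one] at h1
  have hgc : Continuous (gg α τ) := gg_continuous hτ
  have hVc : Continuous V := hV.cont
  have hU1 : Continuous (U1 α τ V) := by
    unfold U1
    fun_prop
  refine ⟨⟨measure_mono_null hsub hsa, measure_mono_null hsub hsb, measure_mono_null hsub hsc,
    h.massa, h.massb, h.massc, hcon, ⟨hata, hla, e2c_l2b_integrable hsa hlog⟩,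
    ⟨hatb, hlb, e2c_l2b_integrable hsb hlog⟩, ⟨hatc, hlc, e2c_l2b_integrable hsc hlog⟩,
    e2c_l2b_integrable hsa hU1.continuousOn⟩, hsa, hsb, hsc⟩

/-! ### comparison of the truncated functional with `JW` -/

theorem e2c_Rm_int (M : ℝ) (hM : 0 < M) (μ : Measure ℝ) [IsFiniteMeasure μ] (h0 : μ (Iio 0) = 0)
    (h : FinEn μ) :
    ∫ z : ℝ × ℝ, RmM M z.1 z.2 ∂(μ.prod μ) ≤ ∫ z : ℝ × ℝ, Rm z.1 z.2 ∂(μ.prod μ) := by
  have hnn := e2c_p5_ae_nonneg μ h0
  refine integral_mono_of_nonneg ?_ (e2c_rm μ h) ?_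
  · filter_upwards [e2c_p5_ae_prod μ μ _ _ hnn hnn] with z hz
    obtain ⟨hx, hy⟩ := hz
    change 0 ≤ RmM M z.1 z.2
    unfold RmM
    have h1 : (1 : ℝ) ≤ max (max z.1 z.2) 1 := le_max_right _ _
    have h2 : |z.1 - z.2| ≤ max (max z.1 z.2) 1 := by
      refine le_trans ?_ (le_max_left _ _)
      rw [abs_le]
      constructor
      · linarith [le_max_right z.1 z.2]
      · linarith [le_max_left z.1 z.2]
    have h3 : |z.1 - z.2| / max (max z.1 z.2) 1 ≤ 1 := by
      rw [div_le_one (by linarith)]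
      exact h2
    have h4 : Real.exp (-M) ≤ 1 := by
      rw [Real.exp_le_one_iff]
      linarith
    have h5 : Real.log (max (|z.1 - z.2| / max (max z.1 z.2) 1) (Real.exp (-M))) ≤ 0 := by
      apply Real.log_nonpos
      · exact le_max_of_le_right (Real.exp_pos _).le
      · exact max_le h3 h4
    linarith
  · filter_upwards [e2c_ae_ne μ h.noAtom] with z hz
    exact e2c_u2_Rm_ge M z.1 z.2 hz

theorem e2c_RpD_meas (δ : ℝ) : Measurable (fun z : ℝ × ℝ => RpD δ z.1 z.2) := by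
  unfold RpD; fun_prop

theorem e2c_RpD_ge (δ x y : ℝ) (hδ : 0 < δ) (hx : 0 < x) (hy : 0 < y) :
    Rp x y ≤ RpD δ x y := by
  unfold RpD Rp
  have h2 : 0 < max (max x y) 1 := lt_of_lt_of_le one_pos (le_max_right _ _)
  apply Real.log_le_log (by positivity)
  apply div_le_div_of_nonneg_right _ h2.le
  linarith

/-- `∫ log(1+δ/y) db ≤ g(√δ) - g(0)` -/
theorem e2c_log {α τ : ℝ} (hτ : 0 < τ) (b : Measure ℝ) (hb : b ≤ sigI α τ) (δ : ℝ) (hδ : 0 < δ) :
    Integrable (fun t : ℝ => Real.log (1 + δ / t)) b ∧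
    ∫ t, Real.log (1 + δ / t) ∂b ≤ gg α τ (√δ) - gg α τ 0 := by
  have h1 := sigI_log (α := α) hτ (√δ)
  have h2 := gg_pot (α := α) hτ (√δ)
  rw [Real.sq_sqrt hδ.le] at h1 h2
  refine ⟨h1.mono_measure hb, ?_⟩
  rw [h2]
  refine integral_mono_measure hb ?_ h1
  filter_upwards [e2c_p5_ae_pos hτ (sigI α τ) le_rfl] with t ht
  apply Real.log_nonneg
  have : 0 < δ / t := by positivity
  linarith

theorem e2c_RpD_right {α τ : ℝ} (hτ : 0 < τ) (a b : Measure ℝ) [IsFiniteMeasure a]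
    [IsFiniteMeasure b] (hb : b ≤ sigI α τ) (h0a : a (Iio 0) = 0) (haa : ∀ x, a {x} = 0)
    (h0b : b (Iio 0) = 0) (δ : ℝ) (hδ : 0 < δ) :
    ∫ z : ℝ × ℝ, RpD δ z.1 z.2 ∂(a.prod b) ≤ ∫ z : ℝ × ℝ, Rp z.1 z.2 ∂(a.prod b) +
      a.real univ * (gg α τ (√δ) - gg α τ 0) := by
  have hRp := (Rp_integrable (α := α) hτ a b hb h0a h0b).1
  obtain ⟨hl, hle⟩ := e2c_log (α := α) hτ b hb δ hδ
  have hl2 : Integrable (fun z : ℝ × ℝ => Real.log (1 + δ / z.2)) (a.prod b) := hl.comp_snd a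
  have hpos : ∀ᵐ x ∂a, 0 < x := by
    have h1 : ∀ᵐ x ∂a, x ≠ 0 := by
      rw [ae_iff]
      have : {x : ℝ | ¬ x ≠ 0} = {0} := by ext x; simp
      rw [this]
      exact haa 0
    filter_upwards [e2c_p5_ae_nonneg a h0a, h1] with x hx hx'
    exact lt_of_le_of_ne hx (Ne.symm hx')
  have hae := e2c_p5_ae_prod a b _ _ hpos (e2c_p5_ae_pos hτ b hb)
  have hint : Integrable (fun z : ℝ × ℝ => RpD δ z.1 z.2) (a.prod b) := by
    refine (hRp.abs.add hl2).mono' (e2c_RpD_meas δ).aestronglyMeasurable ?_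
    filter_upwards [hae] with z hz
    have h1 := e2c_RpD_ge δ z.1 z.2 hδ hz.1 hz.2
    have h2 := e2c_u2_RpD_le δ z.1 z.2 hδ hz.1 hz.2
    have h3 : 0 ≤ Real.log (1 + δ / z.2) := by
      apply Real.log_nonneg
      have : 0 < δ / z.2 := div_pos hδ hz.2
      linarith
    rw [Real.norm_eq_abs]
    change |RpD δ z.1 z.2| ≤ |Rp z.1 z.2| + Real.log (1 + δ / z.2)
    rw [abs_le]
    constructor
    · linarith [neg_abs_le (Rp z.1 z.2)]
    · linarith [le_abs_self (Rp z.1 z.2)]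
  calc ∫ z : ℝ × ℝ, RpD δ z.1 z.2 ∂(a.prod b)
      ≤ ∫ z : ℝ × ℝ, (Rp z.1 z.2 + Real.log (1 + δ / z.2)) ∂(a.prod b) := by
        refine integral_mono_ae hint (hRp.add hl2) ?_
        filter_upwards [hae] with z hz
        exact e2c_u2_RpD_le δ z.1 z.2 hδ hz.1 hz.2
    _ = ∫ z : ℝ × ℝ, Rp z.1 z.2 ∂(a.prod b) +
        ∫ z : ℝ × ℝ, Real.log (1 + δ / z.2) ∂(a.prod b) := integral_add hRp hl2
    _ ≤ _ := by
        have h1 : ∫ z : ℝ × ℝ, Real.log (1 + δ / z.2) ∂(a.prod b) =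
            a.real univ * ∫ t, Real.log (1 + δ / t) ∂b := by
          rw [integral_prod _ hl2]
          simp only [integral_const, smul_eq_mul]
        rw [h1]
        have h2 := mul_le_mul_of_nonneg_left hle (measureReal_nonneg (μ := a) (s := univ))
        linarith

theorem e2c_RpD_left {α τ : ℝ} (hτ : 0 < τ) (a b : Measure ℝ) [IsFiniteMeasure a]
    [IsFiniteMeasure b] (hb : b ≤ sigI α τ) (h0a : a (Iio 0) = 0) (haa : ∀ x, a {x} = 0)
    (h0b : b (Iio 0) = 0) (δ : ℝ) (hδ : 0 < δ) :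
    ∫ z : ℝ × ℝ, RpD δ z.1 z.2 ∂(b.prod a) ≤ ∫ z : ℝ × ℝ, Rp z.1 z.2 ∂(b.prod a) +
      a.real univ * (gg α τ (√δ) - gg α τ 0) := by
  have h := e2c_RpD_right (α := α) hτ a b hb h0a haa h0b δ hδ
  have e1 : ∫ z : ℝ × ℝ, RpD δ z.1 z.2 ∂(b.prod a) = ∫ z : ℝ × ℝ, RpD δ z.1 z.2 ∂(a.prod b) := by
    rw [← integral_prod_swap]
    refine integral_congr_ae (Eventually.of_forall fun z => ?_)
    change RpD δ z.2 z.1 = RpD δ z.1 z.2
    unfold RpD
    rw [add_comm z.2 z.1, max_comm z.2 z.1]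
  have e2 : ∫ z : ℝ × ℝ, Rp z.1 z.2 ∂(b.prod a) = ∫ z : ℝ × ℝ, Rp z.1 z.2 ∂(a.prod b) := by
    rw [← integral_prod_swap]
    refine integral_congr_ae (Eventually.of_forall fun z => ?_)
    change Rp z.2 z.1 = Rp z.1 z.2
    unfold Rp
    rw [add_comm z.2 z.1, max_comm z.2 z.1]
  rw [e1, e2]
  exact h

theorem e2c_qf_nonneg (x y z : ℝ) : 0 ≤ qf x y z := by
  unfold qf
  nlinarith [sq_nonneg (x - y / 2), sq_nonneg (z - y / 2), sq_nonneg y]

theorem e2c_tail (a b c : Measure ℝ) (ν : ℝ) (hν : 0 < ν)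
    (h : IntegrableOn (fun u => 1 / u * qf (tl a u) (tl b u) (tl c u)) (Ioi 1)) :
    (∫ u in Ioi (1 : ℝ), 1 / u * max 0 (qf (tl a u) (tl b u) (tl c u) - (tl b u + tl c u) / ν)) ≤
      ∫ u in Ioi (1 : ℝ), 1 / u * qf (tl a u) (tl b u) (tl c u) := by
  have hmem : ∀ᵐ u ∂(volume.restrict (Ioi (1 : ℝ))), u ∈ Ioi (1 : ℝ) :=
    ae_restrict_mem measurableSet_Ioi
  refine integral_mono_of_nonneg ?_ h ?_
  · filter_upwards [hmem] with u hu
    have hu' : (1 : ℝ) < u := hu
    have h1 : 0 < 1 / u := by positivity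
    exact mul_nonneg h1.le (le_max_left _ _)
  · filter_upwards [hmem] with u hu
    have hu' : (1 : ℝ) < u := hu
    have h1 : 0 < 1 / u := by positivity
    refine mul_le_mul_of_nonneg_left ?_ h1.le
    refine max_le (e2c_qf_nonneg _ _ _) ?_
    have h2 : 0 ≤ tl b u := measureReal_nonneg
    have h3 : 0 ≤ tl c u := measureReal_nonneg
    have h4 : 0 ≤ (tl b u + tl c u) / ν := by positivity
    linarith

theorem e2c_compare {α τ : ℝ} (hτ : 0 < τ) {V : ℝ → ℝ} {a b c : Measure ℝ} (h : AdmJ α τ V a b c)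
    {lo hi : ℝ} (hsc : c (Icc lo hi)ᶜ = 0) (ν M δ : ℝ) (hν : 0 < ν) (hM : 0 < M) (hδ : 0 < δ) :
    ∫ z : ℝ × ℝ, RmM M z.1 z.2 ∂(a.prod a) + ∫ z : ℝ × ℝ, RmM M z.1 z.2 ∂(b.prod b) +
      ∫ z : ℝ × ℝ, RmM M z.1 z.2 ∂(c.prod c) + ∫ z : ℝ × ℝ, RpD δ z.1 z.2 ∂(a.prod b) +
      ∫ z : ℝ × ℝ, RpD δ z.1 z.2 ∂(b.prod c) +
      (∫ u in Ioi (1 : ℝ), 1 / u * max 0 (qf (tl a u) (tl b u) (tl c u)
        - (tl b u + tl c u) / ν)) +
      ∫ x, ((1 - 0) * U1 α τ V x - (2 / 3 + 0) * Real.log (max x 1)) ∂a +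
      ∫ x, max 0 (U3 α τ x - δ) ∂c ≤ JW α τ V a b c + 2 / 3 * (gg α τ (√δ) - gg α τ 0) := by
  have fa : IsFiniteMeasure a := e2c_fin h.massa (by simp)
  have fb : IsFiniteMeasure b := e2c_fin h.massb (ENNReal.div_lt_top (by simp) (by simp))
  have fc : IsFiniteMeasure c := e2c_fin h.massc (by simp)
  have ma : a.real univ = 1 / 2 := by unfold Measure.real; rw [h.massa]; simp
  have mc : c.real univ = 1 / 6 := by unfold Measure.real; rw [h.massc]; simp
  have h1 := e2c_Rm_int M hM a h.suppa h.ena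
  have h2 := e2c_Rm_int M hM b h.suppb h.enb
  have h3 := e2c_Rm_int M hM c h.suppc h.enc
  have h4 := e2c_RpD_right (α := α) hτ a b h.constr h.suppa h.ena.noAtom h.suppb δ hδ
  have h5 := e2c_RpD_left (α := α) hτ c b h.constr h.suppc h.enc.noAtom h.suppb δ hδ
  have h6 := e2c_tail a b c ν hν (e2c_wadm h).tail
  have hU3c : Continuous (U3 α τ) := by
    have := V3_continuous (α := α) hτ
    unfold U3
    fun_prop
  have hU3i : Integrable (U3 α τ) c := e2c_l2b_integrable hsc hU3c.continuousOn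
  have h7 : ∫ x, max 0 (U3 α τ x - δ) ∂c ≤ ∫ x, U3 α τ x ∂c := by
    refine integral_mono_of_nonneg (Eventually.of_forall fun x => le_max_left _ _) hU3i
      (Eventually.of_forall fun x => ?_)
    have : 0 ≤ U3 α τ x := V3_nonneg hτ _
    exact max_le this (by linarith)
  have h8 : ∫ x, ((1 - 0) * U1 α τ V x - (2 / 3 + 0) * Real.log (max x 1)) ∂a =
      ∫ x, (U1 α τ V x - 2 / 3 * Real.log (max x 1)) ∂a := by
    simp only [sub_zero, add_zero, one_mul]
  rw [ma] at h4
  rw [mc] at h5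
  rw [h8]
  unfold JW
  linarith

/-! ### the theorem -/

theorem e_weak {α τ : ℝ} (hτ : 0 < τ) {V : ℝ → ℝ} (hV : Pot V)
    (hdbl : ∃ C : ℝ, ∀ s ∈ Icc (1 : ℝ) 2, ∀ x, |V (s * x)| ≤ C * (1 + |V x|)) :
    ∃ a b c : Measure ℝ, WAdm α τ V a b c ∧ ∀ a' b' c' : Measure ℝ, AdmJ α τ V a' b' c' →
      JW α τ V a b c ≤ JJ α τ V a' b' c' := by
  set S : Set ℝ := {r | ∃ a b c : Measure ℝ, AdmJ α τ V a b c ∧ JJ α τ V a b c = r} with hS
  have hSne : S.Nonempty := by
    obtain ⟨a, b, c, h⟩ := e_nonempty (α := α) hτ hV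
    exact ⟨_, a, b, c, h, rfl⟩
  have hSb : BddBelow S := by
    obtain ⟨K, hK⟩ := e_bdd (α := α) hτ hV
    refine ⟨K, ?_⟩
    rintro _ ⟨a, b, c, h, rfl⟩
    exact hK a b c h
  set K0 := sInf S with hK0
  have hex : ∀ j : ℕ, ∃ (a b c : Measure ℝ) (lo hi : ℝ), AdmJ α τ V a b c ∧
      a (Icc lo hi)ᶜ = 0 ∧ b (Icc lo hi)ᶜ = 0 ∧ c (Icc lo hi)ᶜ = 0 ∧
      JJ α τ V a b c ≤ K0 + 1 / ((j : ℝ) + 1) := by
    intro j
    have hj : (0 : ℝ) < 1 / (2 * ((j : ℝ) + 1)) := by positivity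
    obtain ⟨r, hr, hlt⟩ := Real.lt_sInf_add_pos hSne hj
    obtain ⟨a, b, c, hA, hE⟩ := hr
    obtain ⟨a', b', c', lo, hi, K, η, ra, rc, θ, hN, hle⟩ := exists_nice hτ hV hdbl hA _ hj
    obtain ⟨h1, h2, h3, h4⟩ := e2c_nice (V := V) hτ hV hN
    refine ⟨a', b', c', lo, hi, h1, h2, h3, h4, ?_⟩
    have h5 : 1 / (2 * ((j : ℝ) + 1)) + 1 / (2 * ((j : ℝ) + 1)) = 1 / ((j : ℝ) + 1) := by
      field_simp
      norm_num
    linarith
  choose a b c lo hi hA hsa hsb hsc hle using hex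
  have hJJ : ∀ j, JW α τ V (a j) (b j) (c j) ≤ K0 + 1 / ((j : ℝ) + 1) := by
    intro j
    rw [← ((e2c_wadm (hA j)).admJ hτ hV (hA j).enb.logMoment (hA j).enc.logMoment).2]
    exact hle j
  have fa : ∀ j, IsFiniteMeasure (a j) := fun j => e2c_fin (hA j).massa (by simp)
  have fb : ∀ j, IsFiniteMeasure (b j) := fun j =>
    e2c_fin (hA j).massb (ENNReal.div_lt_top (by simp) (by simp))
  have fc : ∀ j, IsFiniteMeasure (c j) := fun j => e2c_fin (hA j).massc (by simp)
  have ma : ∀ j, (a j).real univ = 1 / 2 := fun j => by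
    unfold Measure.real; rw [(hA j).massa]; simp
  have mb : ∀ j, (b j).real univ = 1 / 3 := fun j => by
    unfold Measure.real; rw [(hA j).massb]; simp
  have mc : ∀ j, (c j).real univ = 1 / 6 := fun j => by
    unfold Measure.real; rw [(hA j).massc]; simp
  set w : ℝ → ℝ := fun x => 2 / 3 * (gg α τ (√x) - gg α τ 0) with hw
  have hwt : Tendsto w (𝓝[>] 0) (𝓝 0) := by
    have h1 : Continuous w := continuous_const.mul
      (((gg_continuous (α := α) hτ).comp Real.continuous_sqrt).sub continuous_const)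
    have h2 : w 0 = 0 := by simp [hw]
    have h3 := h1.tendsto 0
    rw [h2] at h3
    exact h3.mono_left nhdsWithin_le_nhds
  obtain ⟨a', b', c', hW, hJ⟩ := lsc_main hτ hV (α := α) a b c (fun j => (j : ℝ) + 1)
    (fun _ => 0) (fun _ => K0) K0 w fa fb fc (fun j => (hA j).suppa) (fun j => (hA j).suppb)
    (fun j => (hA j).suppc) (by simp only [ma]; exact tendsto_const_nhds)
    (by simp only [mb]; exact tendsto_const_nhds) (by simp only [mc]; exact tendsto_const_nhds)
    (tendsto_atTop_add_const_right _ _ tendsto_natCast_atTop_atTop) tendsto_const_nhds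
    (by
      intro g hg hgc hg0 η hη
      refine Eventually.of_forall fun j => ?_
      obtain ⟨R, hR⟩ := hgc.isCompact.isBounded.subset_closedBall 0
      have hgz : ∀ x, R < x → g x = 0 := by
        intro x hx
        by_contra h
        have h1 : x ∈ tsupport g := subset_tsupport g h
        have h2 := hR h1
        rw [mem_closedBall_zero_iff, Real.norm_eq_abs] at h2
        linarith [le_abs_self x]
      have hl : Tendsto (fun x => (1 + x) * g x) atTop (𝓝 0) := by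
        refine tendsto_const_nhds.congr' ?_
        filter_upwards [eventually_gt_atTop R] with x hx
        rw [hgz x hx, mul_zero]
      have h1 := (Zt_tendsto (α := α) hτ g hg.continuousOn 0 hl).1
      have h2 := integral_mono_measure (hA j).constr (Eventually.of_forall hg0) h1
      linarith) hwt (fun _ => le_rfl)
    (by
      intro j
      have hsub : Ioi (hi j) ⊆ (Icc (lo j) (hi j))ᶜ := by
        intro x hx hx'
        exact absurd hx'.2 (not_le.2 hx)
      exact ⟨hi j, measure_mono_null hsub (hsa j), measure_mono_null hsub (hsb j),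
        measure_mono_null hsub (hsc j)⟩)
    (by
      intro M δ hM hδ _
      refine ⟨fun j => -(1 / ((j : ℝ) + 1)), ?_, Eventually.of_forall fun j => ?_⟩
      · have := (tendsto_one_div_add_atTop_nhds_zero_nat (𝕜 := ℝ)).neg
        rwa [neg_zero] at this
      · have h1 := e2c_compare hτ (hA j) (hsc j) ((j : ℝ) + 1) M δ (by positivity) hM hδ
        have h2 := hJJ j
        have h3 : w δ = 2 / 3 * (gg α τ (√δ) - gg α τ 0) := rfl
        simp only at h1 ⊢
        linarith)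
  refine ⟨a', b', c', hW, fun a'' b'' c'' hA'' => hJ.trans ?_⟩
  exact csInf_le hSb ⟨a'', b'', c'', hA'', rfl⟩

end

end Pool.Agent.MP_941b23_mp
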