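import Pool.Agent.MP_941b23_mp.Defs2

/-!
# [QM-E3] power decay from a hole-filling inequality
-/

set_option autoImplicit false

namespace Pool.Agent.MP_941b23_mp

open MeasureTheory Set Filter Topology
open scoped ENNReal NNReal Real

noncomputable section

section E3

variable {G : ℝ → ℝ}

theorem e3_int (hG : Antitone G) (a b : ℝ) : IntegrableOn G (Ioc a b) := by
  rcases le_total a b with h | h
  · exact (intervalIntegrable_iff_integrableOn_Ioc_of_le h).1 (hG.intervalIntegrable)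
  · rw [Ioc_eq_empty_of_le h]; exact integrableOn_empty

theorem e3_sq (hG : Antitone G) (h0 : ∀ u, 0 ≤ G u) : Antitone (fun u => G u ^ 2) :=
  fun _ _ h => pow_le_pow_left₀ (h0 _) (hG h) 2

/-- Cauchy–Schwarz -/
theorem e3_cs (hG : Antitone G) (h0 : ∀ u, 0 ≤ G u) {T : ℝ} (hT : 0 < T) :
    (1 / T * ∫ u in Ioc 0 T, G u) ^ 2 ≤ 1 / T * ∫ u in Ioc 0 T, G u ^ 2 := by
  set l := 1 / T * ∫ u in Ioc 0 T, G u with hl
  have i1 := e3_int hG 0 T
  have i2 : IntegrableOn (fun u => G u ^ 2) (Ioc 0 T) := e3_int (e3_sq hG h0) 0 T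
  have i3 : IntegrableOn (fun _ : ℝ => l ^ 2) (Ioc 0 T) := by
    rw [integrableOn_const_iff]
    right
    simp
  have h1 : 0 ≤ ∫ u in Ioc 0 T, (G u - l) ^ 2 :=
    setIntegral_nonneg measurableSet_Ioc fun u _ => sq_nonneg _
  have h2 : ∫ u in Ioc 0 T, (G u - l) ^ 2 =
      (∫ u in Ioc 0 T, G u ^ 2) - 2 * l * (∫ u in Ioc 0 T, G u) + T * l ^ 2 := by
    have e : (fun u => (G u - l) ^ 2) = fun u => (G u ^ 2 - 2 * l * G u) + l ^ 2 := by
      funext u; ring
    have i5 : IntegrableOn (fun u => 2 * l * G u) (Ioc 0 T) := i1.const_mul _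
    have i6 : IntegrableOn (fun u => G u ^ 2 - 2 * l * G u) (Ioc 0 T) := i2.sub i5
    have e1 : ∫ u in Ioc 0 T, (G u ^ 2 - 2 * l * G u) + l ^ 2 =
        (∫ u in Ioc 0 T, (G u ^ 2 - 2 * l * G u)) + ∫ u in Ioc 0 T, l ^ 2 := integral_add i6 i3
    have e2 : ∫ u in Ioc 0 T, (G u ^ 2 - 2 * l * G u) =
        (∫ u in Ioc 0 T, G u ^ 2) - ∫ u in Ioc 0 T, 2 * l * G u := integral_sub i2 i5
    rw [e, e1, e2, integral_const_mul, setIntegral_const]
    simp [hT.le]
  have h3 : (∫ u in Ioc 0 T, G u) = T * l := by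
    rw [hl]; field_simp
  rw [h2, h3] at h1
  have h4 : l ^ 2 ≤ 1 / T * ∫ u in Ioc 0 T, G u ^ 2 := by
    rw [one_div, inv_mul_eq_div, le_div_iff₀ hT]
    nlinarith
  exact h4

/-- the tail integral -/
def e3_F (G : ℝ → ℝ) (T : ℝ) : ℝ := ∫ u in Ioi T, 1 / u * G u ^ 2

theorem e3_split (hint : IntegrableOn (fun u => 1 / u * G u ^ 2) (Ioi 1)) {a b : ℝ} (ha : 1 ≤ a)
    (hab : a ≤ b) : e3_F G a = (∫ u in Ioc a b, 1 / u * G u ^ 2) + e3_F G b := by
  unfold e3_F
  have hd : Disjoint (Ioc a b) (Ioi b) := Set.disjoint_left.2 fun x hx hx' =>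
    absurd hx.2 (not_le.2 hx')
  rw [← Ioc_union_Ioi_eq_Ioi hab, setIntegral_union hd measurableSet_Ioi]
  · exact hint.mono_set fun x hx => lt_of_le_of_lt ha hx.1
  · exact hint.mono_set fun x hx => lt_of_le_of_lt (ha.trans hab) hx

theorem e3_F_nonneg {T : ℝ} (hT : 0 < T) : 0 ≤ e3_F G T :=
  setIntegral_nonneg measurableSet_Ioi fun u hu => by
    have : 0 < u := hT.trans hu
    positivity

theorem e3_ub (hG : Antitone G) (h0 : ∀ u, 0 ≤ G u)
    (hint : IntegrableOn (fun u => 1 / u * G u ^ 2) (Ioi 1)) {a b : ℝ} (ha : 1 ≤ a)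
    (hab : a ≤ b) : (∫ u in Ioc a b, G u ^ 2) ≤ b * (e3_F G a - e3_F G b) := by
  rw [e3_split hint ha hab, add_sub_cancel_right, ← integral_const_mul]
  have i2 : IntegrableOn (fun u => G u ^ 2) (Ioc a b) := e3_int (e3_sq hG h0) a b
  have i4 : IntegrableOn (fun u => 1 / u * G u ^ 2) (Ioc a b) :=
    hint.mono_set fun x hx => lt_of_le_of_lt ha hx.1
  refine setIntegral_mono_on i2 (i4.const_mul _) measurableSet_Ioc fun u hu => ?_
  have hu0 : 0 < u := by linarith [hu.1]
  have : b * (1 / u * G u ^ 2) - G u ^ 2 = (b - u) / u * G u ^ 2 := by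
    field_simp
  have h2 : 0 ≤ (b - u) / u * G u ^ 2 := by
    have : 0 ≤ b - u := by linarith [hu.2]
    positivity
  linarith

theorem e3_lb (hG : Antitone G) (h0 : ∀ u, 0 ≤ G u)
    (hint : IntegrableOn (fun u => 1 / u * G u ^ 2) (Ioi 1)) {a b : ℝ} (ha : 1 ≤ a)
    (hab : 2 * a ≤ b) : G b ^ 2 ≤ 2 * e3_F G a := by
  have hab' : a ≤ b := by linarith
  have hb0 : 0 < b := by linarith
  have i4 : IntegrableOn (fun u => 1 / u * G u ^ 2) (Ioc a b) :=
    hint.mono_set fun x hx => lt_of_le_of_lt ha hx.1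
  have h1 : (∫ u in Ioc a b, 1 / b * G b ^ 2) ≤ ∫ u in Ioc a b, 1 / u * G u ^ 2 := by
    refine setIntegral_mono_on ?_ i4 measurableSet_Ioc fun u hu => ?_
    · rw [integrableOn_const_iff]
      right
      simp
    have hu0 : 0 < u := by linarith [hu.1]
    have h2 : 1 / b ≤ 1 / u := one_div_le_one_div_of_le hu0 hu.2
    have h3 : G b ^ 2 ≤ G u ^ 2 := e3_sq hG h0 hu.2
    exact mul_le_mul h2 h3 (sq_nonneg _) (by positivity)
  rw [setIntegral_const] at h1
  have h4 : (volume.real (Ioc a b)) • (1 / b * G b ^ 2) = (b - a) / b * G b ^ 2 := by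
    simp [hab']
    field_simp
  rw [h4] at h1
  have h5 : (1 : ℝ) / 2 ≤ (b - a) / b := by
    rw [div_le_div_iff₀ (by norm_num) hb0]
    linarith
  have h6 : 1 / 2 * G b ^ 2 ≤ (b - a) / b * G b ^ 2 := mul_le_mul_of_nonneg_right h5 (sq_nonneg _)
  have h7 := e3_F_nonneg (G := G) hb0
  rw [e3_split hint ha hab']
  linarith

theorem e3_piece (hG : Antitone G) (h0 : ∀ u, 0 ≤ G u) {a b : ℝ} (ha : 0 < a) (hab : a ≤ b) :
    IntegrableOn (fun u => 1 / u * G u) (Ioc a b) ∧
      (∫ u in Ioc a b, 1 / u * G u) ≤ b / a * G a := by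
  have i1 : IntegrableOn (fun u => 1 / u * G u) (Ioc a b) := by
    have hA : AntitoneOn (fun u => 1 / u * G u) (Icc a b) := by
      intro x hx y hy hxy
      have hx0 : 0 < x := lt_of_lt_of_le ha hx.1
      have h2 : 1 / y ≤ 1 / x := one_div_le_one_div_of_le hx0 hxy
      exact mul_le_mul h2 (hG hxy) (h0 _) (by positivity)
    have := (hA.mono (by rw [uIcc_of_le hab])).intervalIntegrable (μ := volume)
    exact (intervalIntegrable_iff_integrableOn_Ioc_of_le hab).1 this
  refine ⟨i1, ?_⟩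
  have h1 : (∫ u in Ioc a b, 1 / u * G u) ≤ ∫ u in Ioc a b, 1 / a * G a := by
    refine setIntegral_mono_on i1 ?_ measurableSet_Ioc fun u hu => ?_
    · rw [integrableOn_const_iff]
      right
      simp
    have h2 : 1 / u ≤ 1 / a := one_div_le_one_div_of_le ha hu.1.le
    exact mul_le_mul h2 (hG hu.1.le) (h0 _) (by positivity)
  rw [setIntegral_const] at h1
  have h4 : (volume.real (Ioc a b)) • (1 / a * G a) = (b - a) / a * G a := by
    simp [hab]
    field_simp
  rw [h4] at h1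
  refine h1.trans (mul_le_mul_of_nonneg_right ?_ (h0 a))
  gcongr
  linarith

/-- [E3] power decay from a hole-filling inequality -/
theorem e_decay (G : ℝ → ℝ) (hG : Antitone G) (h0 : ∀ u, 0 ≤ G u) (K : ℝ) (hK : ∀ u, G u ≤ K)
    (C T₀ : ℝ) (hC : 0 < C) (hT₀ : 1 ≤ T₀) (hint : IntegrableOn (fun u => 1 / u * G u ^ 2) (Ioi 1))
    (h : ∀ T, T₀ ≤ T → (∫ u in Ioi T, 1 / u * G u ^ 2) ≤
      C * ((1 / T * ∫ u in Ioc 0 T, G u) ^ 2 + 1 / T)) :
    IntegrableOn (fun u => 1 / u * G u) (Ioi 1) := by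
  set q : ℝ := C / (1 + C) with hq
  have hC1 : 0 < 1 + C := by linarith
  have hq0 : 0 < q := div_pos hC hC1
  have hq1 : q < 1 := by rw [hq, div_lt_one hC1]; linarith
  obtain ⟨R, hR2, hR⟩ : ∃ R : ℝ, 2 ≤ R ∧ q + 1 / R < 1 := by
    refine ⟨2 + 1 / (1 - q), by have : 0 < 1 / (1 - q) := by apply one_div_pos.2; linarith
                                linarith, ?_⟩
    have h1 : 0 < 1 - q := by linarith
    have h2 : 1 / (2 + 1 / (1 - q)) < 1 - q := by
      rw [div_lt_iff₀ (by positivity)]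
      have : (1 - q) * (2 + 1 / (1 - q)) = 2 * (1 - q) + 1 := by field_simp
      rw [this]
      linarith
    linarith
  have hR0 : 0 < R := by linarith
  let T : ℕ → ℝ := fun n => T₀ * R ^ n
  have hT0 : 0 < T₀ := by linarith
  have hTpos : ∀ n, 0 < T n := fun n => by positivity
  have hTsucc : ∀ n, T (n + 1) = R * T n := fun n => by simp only [T, pow_succ]; ring
  have hTge : ∀ n, T₀ ≤ T n := by
    intro n
    have : (1 : ℝ) ≤ R ^ n := one_le_pow₀ (by linarith)
    simp only [T]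
    nlinarith
  have hT1 : ∀ n, 1 ≤ T n := fun n => hT₀.trans (hTge n)
  let F : ℕ → ℝ := fun n => e3_F G (T n)
  have hF0 : ∀ n, 0 ≤ F n := fun n => e3_F_nonneg (hTpos n)
  let H : ℕ → ℝ := fun n => Nat.rec (K ^ 2 * T₀ + T₀ * F 0 + 1) (fun k x => x + T (k + 1) * F k) n
  have hH0 : H 0 = K ^ 2 * T₀ + T₀ * F 0 + 1 := rfl
  have hHs : ∀ n, H (n + 1) = H n + T (n + 1) * F n := fun n => rfl
  have i2 : ∀ a b : ℝ, IntegrableOn (fun u => G u ^ 2) (Ioc a b) := fun a b =>
    e3_int (e3_sq hG h0) a b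
  -- Claim A
  have hA : ∀ n, (∫ u in Ioc 0 (T n), G u ^ 2) + T n * F n + 1 ≤ H n := by
    intro n
    induction n with
    | zero =>
      have e : T 0 = T₀ := by simp [T]
      rw [hH0, e]
      have h1 : (∫ u in Ioc 0 T₀, G u ^ 2) ≤ ∫ u in Ioc 0 T₀, K ^ 2 := by
        refine setIntegral_mono_on (i2 _ _) ?_ measurableSet_Ioc fun u _ => ?_
        · rw [integrableOn_const_iff]
          right
          simp
        · exact pow_le_pow_left₀ (h0 u) (hK u) 2
      rw [setIntegral_const] at h1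
      have h4 : (volume.real (Ioc 0 T₀)) • (K ^ 2) = K ^ 2 * T₀ := by
        simp [hT0.le]
        ring
      rw [h4] at h1
      linarith
    | succ n ih =>
      have hle : T n ≤ T (n + 1) := by rw [hTsucc]; nlinarith [hTpos n]
      have h1 : (∫ u in Ioc 0 (T (n + 1)), G u ^ 2) =
          (∫ u in Ioc 0 (T n), G u ^ 2) + ∫ u in Ioc (T n) (T (n + 1)), G u ^ 2 := by
        rw [← Ioc_union_Ioc_eq_Ioc (hTpos n).le hle, setIntegral_union (Set.disjoint_left.2
          fun x hx hx' => absurd hx.2 (not_le.2 hx'.1)) measurableSet_Ioc (i2 _ _) (i2 _ _)]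
      have h2 := e3_ub hG h0 hint (hT1 n) hle
      have h3 : T (n + 1) * (e3_F G (T n) - e3_F G (T (n + 1))) =
        T (n + 1) * F n - T (n + 1) * F (n + 1) := by simp only [F]; ring
      rw [h3] at h2
      rw [hHs, h1]
      have h4 : 0 ≤ T n * F n := mul_nonneg (hTpos n).le (hF0 n)
      linarith
  -- Claim B
  have hB : ∀ n, T n * F n ≤ q * H n := by
    intro n
    have h1 : F n ≤ C * ((1 / T n * ∫ u in Ioc 0 (T n), G u) ^ 2 + 1 / T n) := h (T n) (hTge n)
    have h2 := e3_cs hG h0 (hTpos n)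
    have h3 := hA n
    have h4 : F n ≤ C * (1 / T n * (∫ u in Ioc 0 (T n), G u ^ 2) + 1 / T n) :=
      h1.trans (mul_le_mul_of_nonneg_left (by linarith) hC.le)
    have h5 : T n * F n ≤ C * ((∫ u in Ioc 0 (T n), G u ^ 2) + 1) := by
      have h6 := mul_le_mul_of_nonneg_left h4 (hTpos n).le
      have h7 : T n * (C * (1 / T n * (∫ u in Ioc 0 (T n), G u ^ 2) + 1 / T n)) =
          C * ((∫ u in Ioc 0 (T n), G u ^ 2) + 1) := by
        have := (hTpos n).ne'
        field_simp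
      rw [h7] at h6
      exact h6
    have h6 : T n * F n ≤ C * (H n - T n * F n) :=
      h5.trans (mul_le_mul_of_nonneg_left (by linarith) hC.le)
    rw [hq, div_mul_eq_mul_div, le_div_iff₀ hC1]
    linarith
  -- Claim C
  have hCl : ∀ n, H n ≤ (1 + q * R) ^ n * H 0 := by
    intro n
    induction n with
    | zero => simp
    | succ n ih =>
      rw [hHs, hTsucc, pow_succ]
      have h1 := hB n
      have h2 : R * (T n * F n) ≤ R * (q * H n) := mul_le_mul_of_nonneg_left h1 hR0.le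
      have h3 : (1 + q * R) * H n ≤ (1 + q * R) * ((1 + q * R) ^ n * H 0) :=
        mul_le_mul_of_nonneg_left ih (by positivity)
      nlinarith
  have hH0pos : 0 < H 0 := by
    rw [hH0]
    have := hF0 0
    positivity
  set ρ : ℝ := q + 1 / R with hρ
  have hρ0 : 0 < ρ := by positivity
  have hρ1 : ρ < 1 := hR
  -- Claim D
  have hD : ∀ n, F n ≤ q * H 0 / T₀ * ρ ^ n := by
    intro n
    have h1 := hB n
    have h2 : T n * F n ≤ q * ((1 + q * R) ^ n * H 0) :=
      h1.trans (mul_le_mul_of_nonneg_left (hCl n) hq0.le)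
    have h3 : T n * (q * H 0 / T₀ * ρ ^ n) = q * ((1 + q * R) ^ n * H 0) := by
      have h4 : (1 + q * R) = R * ρ := by rw [hρ]; field_simp; ring
      simp only [T]
      rw [h4, mul_pow]
      field_simp
    rw [← h3] at h2
    exact le_of_mul_le_mul_left h2 (hTpos n)
  -- Claim E
  set M : ℝ := √(2 * (q * H 0 / T₀)) with hM
  set σ : ℝ := √ρ with hσ
  have hM0 : 0 ≤ M := Real.sqrt_nonneg _
  have hσ0 : 0 ≤ σ := Real.sqrt_nonneg _
  have hσ1 : σ < 1 := by
    rw [hσ]
    have : √ρ < √1 := Real.sqrt_lt_sqrt hρ0.le hρ1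
    rwa [Real.sqrt_one] at this
  have hE : ∀ n, G (T (n + 1)) ≤ M * σ ^ n := by
    intro n
    have h1 := e3_lb hG h0 hint (hT1 n) (b := T (n + 1)) (by rw [hTsucc]; nlinarith [hTpos n])
    have h2 : G (T (n + 1)) ^ 2 ≤ (M * σ ^ n) ^ 2 := by
      have h3 : (M * σ ^ n) ^ 2 = 2 * (q * H 0 / T₀ * ρ ^ n) := by
        rw [mul_pow, ← pow_mul, mul_comm n 2, pow_mul, hM, hσ,
          Real.sq_sqrt (by positivity), Real.sq_sqrt hρ0.le]
        ring
      rw [h3]
      exact h1.trans (mul_le_mul_of_nonneg_left (hD n) (by norm_num))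
    exact (sq_le_sq₀ (h0 _) (by positivity)).1 h2
  -- the integrals
  have hP : ∀ n, IntegrableOn (fun u => 1 / u * G u) (Ioc T₀ (T n)) ∧
      (∫ u in Ioc T₀ (T n), 1 / u * G u) ≤ ∑ j ∈ Finset.range n, R * G (T j) := by
    intro n
    induction n with
    | zero =>
      have e : T 0 = T₀ := by simp [T]
      rw [e, Ioc_self]
      simp
    | succ n ih =>
      have hle : T n ≤ T (n + 1) := by rw [hTsucc]; nlinarith [hTpos n]
      obtain ⟨h1, h2⟩ := e3_piece hG h0 (hTpos n) hle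
      have h3 : T (n + 1) / T n = R := by
        rw [hTsucc]
        have := (hTpos n).ne'
        field_simp
      rw [h3] at h2
      rw [← Ioc_union_Ioc_eq_Ioc (hTge n) hle]
      refine ⟨ih.1.union h1, ?_⟩
      rw [setIntegral_union (Set.disjoint_left.2
          fun x hx hx' => absurd hx.2 (not_le.2 hx'.1)) measurableSet_Ioc ih.1 h1,
        Finset.sum_range_succ]
      linarith [ih.2]
  have hsum : ∀ n, ∑ j ∈ Finset.range n, R * G (T j) ≤ R * K + R * (M * (1 / (1 - σ))) := by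
    intro n
    have hKnn : 0 ≤ K := (h0 0).trans (hK 0)
    have hgeo : ∀ m, ∑ j ∈ Finset.range m, σ ^ j ≤ 1 / (1 - σ) := by
      intro m
      have h1 := (summable_geometric_of_lt_one hσ0 hσ1).sum_le_tsum (Finset.range m)
        (fun i _ => pow_nonneg hσ0 i)
      rwa [tsum_geometric_of_lt_one hσ0 hσ1, ← one_div] at h1
    rcases n with _ | n
    · simp only [Finset.range_zero, Finset.sum_empty]
      have : 0 < 1 - σ := by linarith
      positivity
    · rw [Finset.sum_range_succ', add_comm]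
      refine add_le_add (mul_le_mul_of_nonneg_left (hK _) hR0.le) ?_
      rw [← Finset.mul_sum]
      refine mul_le_mul_of_nonneg_left ?_ hR0.le
      calc ∑ j ∈ Finset.range n, G (T (j + 1)) ≤ ∑ j ∈ Finset.range n, M * σ ^ j :=
            Finset.sum_le_sum fun j _ => hE j
        _ = M * ∑ j ∈ Finset.range n, σ ^ j := by rw [Finset.mul_sum]
        _ ≤ M * (1 / (1 - σ)) := mul_le_mul_of_nonneg_left (hgeo n) hM0
  have hTtop : Tendsto T atTop atTop := by
    have h1 : Tendsto (fun n : ℕ => R ^ n) atTop atTop :=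
      tendsto_pow_atTop_atTop_of_one_lt (by linarith)
    exact h1.const_mul_atTop hT0
  have hmain : IntegrableOn (fun u => 1 / u * G u) (Ioi T₀) := by
    refine integrableOn_Ioi_of_intervalIntegral_norm_bounded
      (R * K + R * (M * (1 / (1 - σ)))) T₀ (fun n => (hP n).1) hTtop ?_
    refine Eventually.of_forall fun n => ?_
    rw [intervalIntegral.integral_of_le (hTge n)]
    have e : ∫ u in Ioc T₀ (T n), ‖1 / u * G u‖ = ∫ u in Ioc T₀ (T n), 1 / u * G u := by
      refine setIntegral_congr_fun measurableSet_Ioc fun u hu => ?_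
      have hu0 : 0 < u := hT0.trans hu.1
      exact Real.norm_of_nonneg (mul_nonneg (by positivity) (h0 u))
    rw [e]
    exact (hP n).2.trans (hsum n)
  have h1 : Ioi (1 : ℝ) = Ioc 1 T₀ ∪ Ioi T₀ := (Ioc_union_Ioi_eq_Ioi hT₀).symm
  rw [h1]
  exact (e3_piece hG h0 one_pos hT₀).1.union hmain

end E3

end

end Pool.Agent.MP_941b23_mp
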