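import Pool.Agent.MP_941b23_mp.Defs2

namespace Pool.Agent.MP_941b23_mp

open MeasureTheory Set Filter Topology
open scoped ENNReal NNReal Real

noncomputable section

theorem e4_logmax (μ : Measure ℝ) [IsFiniteMeasure μ]
    (h : IntegrableOn (fun u => 1 / u * tl μ u) (Ioi 1)) :
    Integrable (fun x => Real.log (max x 1)) μ := by
  have hnn : ∀ x : ℝ, 0 ≤ Real.log (max x 1) := fun x => Real.log_nonneg (le_max_right _ _)
  have hmeas : Measurable (fun x : ℝ => Real.log (max x 1)) :=
    Real.measurable_log.comp (measurable_id.max measurable_const)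
  have hset : ∀ t ∈ Ioi (0:ℝ), {x : ℝ | t < Real.log (max x 1)} = Ioi (Real.exp t) := by
    intro t ht
    ext x
    have hm : 0 < max x 1 := lt_of_lt_of_le one_pos (le_max_right _ _)
    have h1 : (1:ℝ) < Real.exp t := Real.one_lt_exp_iff.2 ht
    simp only [mem_ofPred_eq, mem_Ioi]
    rw [Real.lt_log_iff_exp_lt hm, lt_max_iff]
    constructor
    · rintro (h | h)
      · exact h
      · exact absurd h (not_lt.2 h1.le)
    · exact Or.inl
  have himg : Real.exp '' (Ioi (0:ℝ)) = Ioi 1 := by
    ext u
    constructor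
    · rintro ⟨t, ht, rfl⟩
      exact Real.one_lt_exp_iff.2 ht
    · intro hu
      have hu' : (1:ℝ) < u := hu
      exact ⟨Real.log u, Real.log_pos hu', Real.exp_log (by linarith)⟩
  have hder : ∀ t ∈ Ioi (0:ℝ), HasDerivWithinAt Real.exp (Real.exp t) (Ioi 0) t :=
    fun t _ => (Real.hasDerivAt_exp t).hasDerivWithinAt
  have hinj : InjOn Real.exp (Ioi (0:ℝ)) := Real.exp_injective.injOn
  have hfun : ∀ t : ℝ, |Real.exp t| • (1 / Real.exp t * tl μ (Real.exp t)) = tl μ (Real.exp t) := by
    intro t
    have := Real.exp_pos t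
    rw [abs_of_pos this, smul_eq_mul]
    field_simp
  have hint0 : IntegrableOn (fun t => tl μ (Real.exp t)) (Ioi (0:ℝ)) := by
    have := (integrableOn_image_iff_integrableOn_abs_deriv_smul measurableSet_Ioi hder hinj
      (fun u => 1 / u * tl μ u)).1 (by rw [himg]; exact h)
    simpa only [hfun] using this
  refine ⟨hmeas.aestronglyMeasurable, ?_⟩
  rw [hasFiniteIntegral_iff_ofReal (Eventually.of_forall hnn)]
  rw [lintegral_eq_lintegral_meas_lt μ (Eventually.of_forall hnn) hmeas.aemeasurable]
  have e1 : ∫⁻ t in Ioi (0:ℝ), μ {x : ℝ | t < Real.log (max x 1)}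
      = ∫⁻ t in Ioi (0:ℝ), ENNReal.ofReal (tl μ (Real.exp t)) := by
    refine setLIntegral_congr_fun measurableSet_Ioi ?_
    intro t ht
    show μ {x : ℝ | t < Real.log (max x 1)} = ENNReal.ofReal (μ.real (Ioi (Real.exp t)))
    rw [hset t ht]
    exact (ENNReal.ofReal_toReal (measure_ne_top _ _)).symm
  rw [e1]
  exact hint0.lintegral_lt_top

/-- [E4] logarithmic moment from the tails -/
theorem e_log (μ : Measure ℝ) [IsFiniteMeasure μ] (h0 : μ (Iio 0) = 0)
    (h : IntegrableOn (fun u => 1 / u * tl μ u) (Ioi 1)) :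
    Integrable (fun x => Real.log (1 + |x|)) μ := by
  have h1 := e4_logmax μ h
  have h2 : Integrable (fun x : ℝ => Real.log 2 + Real.log (max x 1)) μ :=
    (integrable_const _).add h1
  refine h2.mono' ?_ ?_
  · have : Measurable (fun x : ℝ => Real.log (1 + |x|)) :=
      Real.measurable_log.comp (measurable_const.add measurable_id.abs)
    exact this.aestronglyMeasurable
  · have hae : ∀ᵐ x ∂μ, x ∉ Iio (0:ℝ) := by
      rw [ae_iff]
      have : {a : ℝ | ¬ a ∉ Iio (0:ℝ)} = Iio 0 := by
        ext a; simp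
      rw [this]; exact h0
    filter_upwards [hae] with x hx
    have hx0 : 0 ≤ x := by simpa using hx
    have hp : (1:ℝ) ≤ 1 + |x| := by have := abs_nonneg x; linarith
    rw [Real.norm_of_nonneg (Real.log_nonneg hp), abs_of_nonneg hx0]
    have hm : 0 < max x 1 := lt_of_lt_of_le one_pos (le_max_right _ _)
    rw [← Real.log_mul (by norm_num) hm.ne']
    apply Real.log_le_log (by linarith)
    have := le_max_left x 1
    have := le_max_right x 1
    linarith

end

end Pool.Agent.MP_941b23_mp
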