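import Pool.Agent.MP_941b23_mp.Defs2
import Pool.Agent.MP_941b23_mp.P1b
import Pool.Agent.MP_941b23_mp.P1c
import Pool.Agent.MP_941b23_mp.T1a
import Pool.Agent.MP_941b23_mp.T2a
import Pool.Agent.MP_941b23_mp.T5

/-!
# Part P, row P3a : from `E` to `J`
-/

namespace Pool.Agent.MP_941b23_mp

open MeasureTheory Set Filter Topology
open scoped ENNReal NNReal Real

noncomputable section

/-! ### elementary facts -/

theorem P3a_meas_log : Measurable fun z : ℝ × ℝ => Real.log |z.1 - z.2| :=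
  Real.measurable_log.comp (by fun_prop)

theorem P3a_meas_neg_log : Measurable fun z : ℝ × ℝ => -Real.log |z.1 - z.2| :=
  P3a_meas_log.neg

theorem P3a_meas_log_one : Measurable fun x : ℝ => Real.log (1 + |x|) :=
  Real.measurable_log.comp (by fun_prop)

theorem P3a_meas_log_plus : Measurable fun z : ℝ × ℝ => Real.log (z.1 + z.2) :=
  Real.measurable_log.comp (by fun_prop)

theorem P3a_meas_log_add : Measurable fun z : ℝ × ℝ => Real.log |z.1 + z.2| :=
  Real.measurable_log.comp (by fun_prop)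

theorem P3a_meas_log_sq : Measurable fun z : ℝ × ℝ => Real.log (z.1 ^ 2 + z.2 ^ 2) :=
  Real.measurable_log.comp (by fun_prop)

/-- for measures without atoms the antidiagonal is null -/
theorem P3a_ae_ne (μ ν : Measure ℝ) [SFinite μ] [SFinite ν] (hν : ∀ x, ν {x} = 0) :
    (∀ᵐ z : ℝ × ℝ ∂(μ.prod ν), z.1 - z.2 ≠ 0) ∧ (∀ᵐ z : ℝ × ℝ ∂(μ.prod ν), z.1 + z.2 ≠ 0) := by
  constructor
  · have hm : MeasurableSet {z : ℝ × ℝ | z.1 - z.2 ≠ 0} :=
      (measurableSet_eq_fun (by fun_prop) measurable_const).compl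
    rw [Measure.ae_prod_iff_ae_ae (p := fun z : ℝ × ℝ => z.1 - z.2 ≠ 0) hm]
    refine Eventually.of_forall fun x => ?_
    have : {y : ℝ | ¬ (x - y ≠ 0)} = {x} := by
      ext y
      simp only [ne_eq, not_not, mem_ofPred_eq, mem_singleton_iff]
      constructor
      · intro h; linarith
      · intro h; linarith
    show ν {y : ℝ | ¬ (x - y ≠ 0)} = 0
    rw [this]
    exact hν x
  · have hm : MeasurableSet {z : ℝ × ℝ | z.1 + z.2 ≠ 0} :=
      (measurableSet_eq_fun (by fun_prop) measurable_const).compl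
    rw [Measure.ae_prod_iff_ae_ae (p := fun z : ℝ × ℝ => z.1 + z.2 ≠ 0) hm]
    refine Eventually.of_forall fun x => ?_
    have : {y : ℝ | ¬ (x + y ≠ 0)} = {-x} := by
      ext y
      simp only [ne_eq, not_not, mem_ofPred_eq, mem_singleton_iff]
      constructor
      · intro h; linarith
      · intro h; linarith
    show ν {y : ℝ | ¬ (x + y ≠ 0)} = 0
    rw [this]
    exact hν (-x)

theorem P3a_measurable_neg : Measurable (fun x : ℝ => -x) := measurable_neg

theorem P3a_measurable_sq : Measurable (fun x : ℝ => x ^ 2) := by fun_prop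

theorem P3a_prod_neg (μ ν : Measure ℝ) [IsFiniteMeasure μ] [IsFiniteMeasure ν] :
    μ.prod (ν.map (fun x => -x)) = (μ.prod ν).map (Prod.map id fun x => -x) := by
  rw [← Measure.map_prod_map μ ν measurable_id P3a_measurable_neg, Measure.map_id]

theorem P3a_neg_prod_neg (μ ν : Measure ℝ) [IsFiniteMeasure μ] [IsFiniteMeasure ν] :
    (μ.map (fun x => -x)).prod (ν.map (fun x => -x)) =
      (μ.prod ν).map (Prod.map (fun x => -x) fun x => -x) := by
  rw [← Measure.map_prod_map μ ν P3a_measurable_neg P3a_measurable_neg]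

theorem P3a_neg_prod (μ ν : Measure ℝ) [IsFiniteMeasure μ] [IsFiniteMeasure ν] :
    (μ.map (fun x => -x)).prod ν =
      (μ.prod ν).map (Prod.map (fun x => -x) id) := by
  rw [← Measure.map_prod_map μ ν P3a_measurable_neg measurable_id, Measure.map_id]

theorem P3a_sq_prod_sq (μ ν : Measure ℝ) [IsFiniteMeasure μ] [IsFiniteMeasure ν] :
    ((1 / 2 : ℝ≥0∞) • μ.map (fun x => x ^ 2)).prod ((1 / 2 : ℝ≥0∞) • ν.map (fun x => x ^ 2)) =
      (1 / 4 : ℝ≥0∞) • (μ.prod ν).map (Prod.map (fun x => x ^ 2) fun x => x ^ 2) := by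
  rw [Measure.prod_smul_left, Measure.prod_smul_right, smul_smul,
    Measure.map_prod_map μ ν P3a_measurable_sq P3a_measurable_sq]
  congr 1
  rw [one_div, one_div, ← ENNReal.mul_inv (by norm_num) (by norm_num)]
  norm_num

/-! ### reflection -/

theorem P3a_finEn_neg (μ : Measure ℝ) [IsFiniteMeasure μ] (h : FinEn μ) :
    FinEn (μ.map (fun x => -x)) := by
  refine ⟨fun x => ?_, ?_, ?_⟩
  · rw [Measure.map_apply P3a_measurable_neg (measurableSet_singleton x)]
    have : (fun x : ℝ => -x) ⁻¹' {x} = {-x} := by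
      ext y
      simp only [mem_preimage, mem_singleton_iff]
      constructor
      · intro h; linarith
      · intro h; linarith
    rw [this]
    exact h.noAtom (-x)
  · rw [P3a_neg_prod_neg, integrable_map_measure P3a_meas_log.aestronglyMeasurable
      (by fun_prop)]
    refine h.energy.congr (Eventually.of_forall fun z => ?_)
    simp only [Function.comp, Prod.map]
    rw [show -z.1 - -z.2 = -(z.1 - z.2) by ring, abs_neg]
  · rw [integrable_map_measure P3a_meas_log_one.aestronglyMeasurable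
      P3a_measurable_neg.aemeasurable]
    refine h.logMoment.congr (Eventually.of_forall fun z => ?_)
    simp only [Function.comp, abs_neg]

theorem P3a_LL_neg_neg (μ : Measure ℝ) [IsFiniteMeasure μ] :
    LL (μ.map (fun x => -x)) (μ.map (fun x => -x)) = LL μ μ := by
  unfold LL
  rw [P3a_neg_prod_neg, integral_map (by fun_prop) P3a_meas_neg_log.aestronglyMeasurable]
  refine integral_congr_ae (Eventually.of_forall fun z => ?_)
  simp only [Prod.map]
  rw [show -z.1 - -z.2 = -(z.1 - z.2) by ring, abs_neg]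

theorem P3a_LL_neg (μ : Measure ℝ) [IsFiniteMeasure μ] :
    LL μ (μ.map (fun x => -x)) = ∫ z : ℝ × ℝ, -Real.log |z.1 + z.2| ∂(μ.prod μ) := by
  unfold LL
  rw [P3a_prod_neg, integral_map (by fun_prop) P3a_meas_neg_log.aestronglyMeasurable]
  refine integral_congr_ae (Eventually.of_forall fun z => ?_)
  simp only [Prod.map, id]
  rw [show z.1 - -z.2 = (z.1 + z.2) by ring]

theorem P3a_LL_neg' (μ : Measure ℝ) [IsFiniteMeasure μ] :
    LL (μ.map (fun x => -x)) μ = ∫ z : ℝ × ℝ, -Real.log |z.1 + z.2| ∂(μ.prod μ) := by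
  unfold LL
  rw [P3a_neg_prod, integral_map (by fun_prop) P3a_meas_neg_log.aestronglyMeasurable]
  refine integral_congr_ae (Eventually.of_forall fun z => ?_)
  simp only [Prod.map, id]
  rw [show -z.1 - z.2 = -(z.1 + z.2) by ring, abs_neg]

theorem P3a_refl_nonneg (μ : Measure ℝ) [IsFiniteMeasure μ] (h : FinEn μ) :
    0 ≤ LL μ μ - LL μ (μ.map (fun x => -x)) := by
  have : IsFiniteMeasure (μ.map (fun x => -x)) := inferInstance
  have h1 := energy_pos 1 one_pos μ (μ.map (fun x => -x)) h (P3a_finEn_neg μ h)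
    (by rw [Measure.map_apply P3a_measurable_neg MeasurableSet.univ, preimage_univ])
  have h2 : 0 ≤ Phi 1 μ (μ.map (fun x => -x)) := by
    unfold Phi
    refine integral_nonneg fun s => ?_
    have : 0 ≤ ∫ z, (im μ z s - im (μ.map (fun x => -x)) z s) ^ 2 :=
      integral_nonneg fun z => sq_nonneg _
    positivity
  have h3 : LD μ (μ.map (fun x => -x)) μ (μ.map (fun x => -x)) =
      2 * (LL μ μ - LL μ (μ.map (fun x => -x))) := by
    unfold LD
    rw [P3a_LL_neg_neg, P3a_LL_neg' μ, P3a_LL_neg μ]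
    ring
  linarith

/-- `log |x+y|` is integrable -/
theorem P3a_add_integrable (μ : Measure ℝ) [IsFiniteMeasure μ] (h : FinEn μ) :
    Integrable (fun z : ℝ × ℝ => Real.log |z.1 + z.2|) (μ.prod μ) := by
  have h1 := cross_integrable μ (μ.map (fun x => -x)) h (P3a_finEn_neg μ h)
  rw [P3a_prod_neg, integrable_map_measure P3a_meas_log.aestronglyMeasurable (by fun_prop)] at h1
  refine h1.congr (Eventually.of_forall fun z => ?_)
  simp only [Function.comp, Prod.map, id]
  rw [show z.1 - -z.2 = (z.1 + z.2) by ring]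

theorem P3a_log_sq_sub (μ : Measure ℝ) [IsFiniteMeasure μ] (h : FinEn μ) :
    (fun z : ℝ × ℝ => Real.log |z.1 ^ 2 - z.2 ^ 2|) =ᵐ[μ.prod μ]
      fun z : ℝ × ℝ => Real.log |z.1 - z.2| + Real.log |z.1 + z.2| := by
  obtain ⟨h1, h2⟩ := P3a_ae_ne μ μ h.noAtom
  filter_upwards [h1, h2] with z hz1 hz2
  rw [← Real.log_mul (abs_ne_zero.2 hz1) (abs_ne_zero.2 hz2), ← abs_mul]
  congr 2
  ring

theorem P3a_log_one_add_sq (x : ℝ) : Real.log (1 + x ^ 2) ≤ 2 * Real.log (1 + |x|) := by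
  have h1 : (0 : ℝ) ≤ |x| := abs_nonneg x
  have h2 : (2 : ℝ) * Real.log (1 + |x|) = Real.log ((1 + |x|) ^ 2) := by
    rw [Real.log_pow]; norm_num
  rw [h2]
  refine Real.log_le_log (by positivity) ?_
  have : x ^ 2 = |x| ^ 2 := (sq_abs x).symm
  nlinarith

theorem P3a_finEn_sq (μ : Measure ℝ) [IsFiniteMeasure μ] (h : FinEn μ) :
    FinEn ((1 / 2 : ℝ≥0∞) • μ.map (fun x => x ^ 2)) := by
  refine ⟨fun x => ?_, ?_, ?_⟩
  · rw [Measure.smul_apply, Measure.map_apply P3a_measurable_sq (measurableSet_singleton x)]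
    have h1 : (fun x : ℝ => x ^ 2) ⁻¹' {x} ⊆ {√x, -√x} := by
      intro y hy
      simp only [mem_preimage, mem_singleton_iff] at hy
      simp only [mem_insert_iff, mem_singleton_iff]
      subst hy
      rw [Real.sqrt_sq_eq_abs]
      rcases le_or_gt 0 y with h | h
      · left; rw [abs_of_nonneg h]
      · right; rw [abs_of_neg h]; ring
    have h2 : μ ((fun x : ℝ => x ^ 2) ⁻¹' {x}) = 0 := by
      refine measure_mono_null h1 ?_
      rw [show ({√x, -√x} : Set ℝ) = {√x} ∪ {-√x} from rfl]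
      exact measure_union_null (h.noAtom _) (h.noAtom _)
    rw [h2, smul_zero]
  · rw [P3a_sq_prod_sq]
    refine Integrable.smul_measure ?_ (by norm_num)
    rw [integrable_map_measure P3a_meas_log.aestronglyMeasurable (by fun_prop)]
    refine (Integrable.congr (h.energy.add (P3a_add_integrable μ h)) ?_)
    filter_upwards [P3a_log_sq_sub μ h] with z hz
    simp only [Function.comp, Prod.map, Pi.add_apply]
    exact hz.symm
  · refine Integrable.smul_measure ?_ (by norm_num)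
    rw [integrable_map_measure P3a_meas_log_one.aestronglyMeasurable
      P3a_measurable_sq.aemeasurable]
    refine Integrable.mono' (h.logMoment.const_mul 2)
      (P3a_meas_log_one.comp P3a_measurable_sq).aestronglyMeasurable
      (Eventually.of_forall fun x => ?_)
    simp only [Function.comp]
    rw [abs_of_nonneg (sq_nonneg x), Real.norm_of_nonneg (Real.log_nonneg (by nlinarith [sq_nonneg x]))]
    exact P3a_log_one_add_sq x

theorem P3a_LL_sq (μ : Measure ℝ) [IsFiniteMeasure μ] (h : FinEn μ) :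
    LL ((1 / 2 : ℝ≥0∞) • μ.map (fun x => x ^ 2)) ((1 / 2 : ℝ≥0∞) • μ.map (fun x => x ^ 2)) =
      1 / 4 * (LL μ μ + LL μ (μ.map (fun x => -x))) := by
  have i1 : Integrable (fun z : ℝ × ℝ => -Real.log |z.1 - z.2|) (μ.prod μ) := h.energy.neg
  have i2 : Integrable (fun z : ℝ × ℝ => -Real.log |z.1 + z.2|) (μ.prod μ) :=
    (P3a_add_integrable μ h).neg
  rw [P3a_LL_neg]
  unfold LL
  rw [P3a_sq_prod_sq, integral_smul_measure, integral_map (by fun_prop)
    P3a_meas_neg_log.aestronglyMeasurable, ← integral_add i1 i2]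
  have : ((1 / 4 : ℝ≥0∞)).toReal = 1 / 4 := by norm_num
  rw [this, smul_eq_mul]
  congr 1
  refine integral_congr_ae ?_
  filter_upwards [P3a_log_sq_sub μ h] with z hz
  simp only [Prod.map]
  rw [hz]
  ring

/-! ### logI, logX -/

theorem P3a_logI (μ : Measure ℝ) [IsFiniteMeasure μ] (h : FinEn μ) : logI μ μ = LL μ μ := by
  unfold logI LL
  rw [integral_prod (fun z : ℝ × ℝ => -Real.log |z.1 - z.2|) h.energy.neg]
  simp only [one_div, Real.log_inv]

theorem P3a_norm_sub (x y : ℝ) :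
    Real.log (1 / ‖(x : ℂ) - (y : ℂ) * Complex.I‖) = -(1 / 2 * Real.log (x ^ 2 + y ^ 2)) := by
  have h1 : ‖(x : ℂ) - (y : ℂ) * Complex.I‖ = √(x ^ 2 + y ^ 2) := by
    rw [Complex.norm_eq_sqrt_sq_add_sq]
    simp
  rw [h1, one_div, Real.log_inv, Real.log_sqrt (by positivity)]
  ring

/-- integrability of `log(x²+y²)`, where the second measure is `≤ σ₂` -/
theorem P3a_log_sq_integrable (μ ν : Measure ℝ) [IsFiniteMeasure μ] [IsFiniteMeasure ν]
    (hμ : Integrable (fun x => Real.log (1 + |x|)) μ) (hν : Integrable (fun x => Real.log (1 + |x|)) ν)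
    (hν0 : ν {0} = 0) (hν1 : IntegrableOn (fun x => Real.log |x|) (Icc (-1) 1) ν) :
    Integrable (fun z : ℝ × ℝ => Real.log (z.1 ^ 2 + z.2 ^ 2)) (μ.prod ν) := by
  have i1 : Integrable (fun z : ℝ × ℝ => Real.log (1 + |z.1|)) (μ.prod ν) := hμ.comp_fst ν
  have i2 : Integrable (fun z : ℝ × ℝ => Real.log (1 + |z.2|)) (μ.prod ν) := hν.comp_snd μ
  have i3 : Integrable (fun z : ℝ × ℝ => (Icc (-1 : ℝ) 1).indicator (fun x => Real.log |x|) z.2)
      (μ.prod ν) := ((integrable_indicator_iff measurableSet_Icc).2 hν1).comp_snd μ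
  have i4 := ((i1.const_mul 2).add (i2.const_mul 2)).add (i3.norm.const_mul 2)
  refine Integrable.mono' i4 P3a_meas_log_sq.aestronglyMeasurable ?_
  have h0 : ∀ᵐ z : ℝ × ℝ ∂(μ.prod ν), z.2 ≠ 0 := by
    have hm : MeasurableSet {z : ℝ × ℝ | z.2 ≠ 0} :=
      (measurableSet_eq_fun (by fun_prop) measurable_const).compl
    rw [Measure.ae_prod_iff_ae_ae (p := fun z : ℝ × ℝ => z.2 ≠ 0) hm]
    refine Eventually.of_forall fun x => ?_
    have : {y : ℝ | ¬ (y ≠ 0)} = {0} := by
      ext y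
      simp
    show ν {y : ℝ | ¬ (y ≠ 0)} = 0
    rw [this]
    exact hν0
  filter_upwards [h0] with z hz
  simp only [Pi.add_apply]
  rw [Real.norm_eq_abs, Real.norm_eq_abs]
  have hx : 0 ≤ Real.log (1 + |z.1|) := Real.log_nonneg (by linarith [abs_nonneg z.1])
  have hy : 0 ≤ Real.log (1 + |z.2|) := Real.log_nonneg (by linarith [abs_nonneg z.2])
  have hpos : 0 < z.1 ^ 2 + z.2 ^ 2 := by positivity
  rw [abs_le]
  constructor
  · -- lower bound
    rcases le_or_gt |z.2| 1 with h1 | h1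
    · have hmem : z.2 ∈ Icc (-1 : ℝ) 1 := abs_le.1 h1
      rw [indicator_of_mem hmem]
      have h2 : Real.log (z.2 ^ 2) ≤ Real.log (z.1 ^ 2 + z.2 ^ 2) :=
        Real.log_le_log (by positivity) (by nlinarith [sq_nonneg z.1])
      have h3 : Real.log (z.2 ^ 2) = 2 * Real.log |z.2| := by
        rw [← sq_abs, Real.log_pow]; norm_num
      have h4 := neg_abs_le (Real.log |z.2|)
      linarith
    · have h2 : 0 ≤ Real.log (z.1 ^ 2 + z.2 ^ 2) := by
        refine Real.log_nonneg ?_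
        have : 1 ≤ |z.2| ^ 2 := by nlinarith
        rw [sq_abs] at this
        nlinarith [sq_nonneg z.1]
      have h3 := abs_nonneg ((Icc (-1 : ℝ) 1).indicator (fun x => Real.log |x|) z.2)
      linarith
  · have h2 : Real.log (z.1 ^ 2 + z.2 ^ 2) ≤ Real.log (((1 + |z.1|) * (1 + |z.2|)) ^ 2) := by
      refine Real.log_le_log hpos ?_
      have h3 : z.1 ^ 2 = |z.1| ^ 2 := (sq_abs z.1).symm
      have h4 : z.2 ^ 2 = |z.2| ^ 2 := (sq_abs z.2).symm
      rw [h3, h4]
      have h5 := abs_nonneg z.1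
      have h6 := abs_nonneg z.2
      have h7 : 0 ≤ |z.1| * |z.2| := by positivity
      nlinarith [mul_nonneg h5 h7, mul_nonneg h6 h7, mul_nonneg h7 h7]
    have h3 : Real.log (((1 + |z.1|) * (1 + |z.2|)) ^ 2) =
        2 * (Real.log (1 + |z.1|) + Real.log (1 + |z.2|)) := by
      rw [Real.log_pow, Real.log_mul (by positivity) (by positivity)]
      norm_num
    have h4 := abs_nonneg ((Icc (-1 : ℝ) 1).indicator (fun x => Real.log |x|) z.2)
    linarith

/-- integrability of `log |y|` near `0` against a measure `≤ σ₂` -/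
theorem P3a_log_sigma {α τ : ℝ} (hτ : 0 < τ) (ν : Measure ℝ) (hν : ν ≤ sigma2 α τ) :
    IntegrableOn (fun x => Real.log |x|) (Icc (-1) 1) ν := by
  obtain ⟨C, hC, hb⟩ := rr_bound (α := α) hτ
  have h1 : IntegrableOn (fun x => Real.log |x|) (Icc (-1) 1) (sigma2 α τ) := by
    set D : ℝ := τ / π * (C * 2 ^ (1 / 3 : ℝ)) with hD
    have hle : (sigma2 α τ).restrict (Icc (-1) 1) ≤
        ENNReal.ofReal D • (volume : Measure ℝ).restrict (Icc (-1) 1) := by
      unfold sigma2
      rw [restrict_withDensity measurableSet_Icc]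
      rw [← withDensity_const]
      refine withDensity_mono ?_
      filter_upwards [ae_restrict_mem measurableSet_Icc] with y hy
      refine ENNReal.ofReal_le_ofReal ?_
      rw [hD]
      refine mul_le_mul_of_nonneg_left ?_ (by positivity)
      refine (hb _).trans ?_
      refine mul_le_mul_of_nonneg_left ?_ hC.le
      refine Real.rpow_le_rpow (by positivity) ?_ (by norm_num)
      rw [norm_mul, Complex.norm_I, mul_one, Complex.norm_real, Real.norm_eq_abs]
      have := abs_le.2 hy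
      linarith
    have h2 : Integrable (fun x : ℝ => Real.log |x|) ((volume : Measure ℝ).restrict (Icc (-1) 1)) := by
      have h3 : IntervalIntegrable Real.log volume (-1) 1 := intervalIntegral.intervalIntegrable_log'
      have h4 : IntegrableOn Real.log (Icc (-1) 1) volume := by
        rw [integrableOn_Icc_iff_integrableOn_Ioc]
        exact (intervalIntegrable_iff_integrableOn_Ioc_of_le (by norm_num)).1 h3
      refine h4.congr (Eventually.of_forall fun x => ?_)
      exact (Real.log_abs x).symm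
    exact Integrable.mono_measure (h2.smul_measure ENNReal.ofReal_ne_top) hle
  exact IntegrableOn.mono_measure h1 hν

theorem P3a_log_sq_int_swap (μ ν : Measure ℝ) [IsFiniteMeasure μ] [IsFiniteMeasure ν] :
    ∫ z : ℝ × ℝ, Real.log (z.1 ^ 2 + z.2 ^ 2) ∂(ν.prod μ) =
      ∫ z : ℝ × ℝ, Real.log (z.1 ^ 2 + z.2 ^ 2) ∂(μ.prod ν) := by
  rw [← integral_prod_swap]
  simp only [Prod.fst_swap, Prod.snd_swap]
  refine integral_congr_ae (Eventually.of_forall fun z => ?_)
  simp only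
  rw [add_comm]

theorem P3a_logX (μ ν : Measure ℝ) [IsFiniteMeasure μ] [IsFiniteMeasure ν]
    (h : Integrable (fun z : ℝ × ℝ => Real.log (z.1 ^ 2 + z.2 ^ 2)) (μ.prod ν)) :
    logX μ ν = -(1 / 2 * ∫ z : ℝ × ℝ, Real.log (z.1 ^ 2 + z.2 ^ 2) ∂(μ.prod ν)) := by
  unfold logX
  rw [← integral_const_mul, ← integral_neg, integral_prod
    (fun z : ℝ × ℝ => -(1 / 2 * Real.log (z.1 ^ 2 + z.2 ^ 2))) (h.const_mul (1 / 2)).neg]
  simp only [P3a_norm_sub]

theorem P3a_MM (μ ν : Measure ℝ) [IsFiniteMeasure μ] [IsFiniteMeasure ν] :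
    MM ((1 / 2 : ℝ≥0∞) • μ.map (fun x => x ^ 2)) ((1 / 2 : ℝ≥0∞) • ν.map (fun x => x ^ 2)) =
      1 / 4 * ∫ z : ℝ × ℝ, Real.log (z.1 ^ 2 + z.2 ^ 2) ∂(μ.prod ν) := by
  unfold MM
  rw [P3a_sq_prod_sq, integral_smul_measure, integral_map (by fun_prop)
    P3a_meas_log_plus.aestronglyMeasurable]
  have : ((1 / 4 : ℝ≥0∞)).toReal = 1 / 4 := by norm_num
  rw [this, smul_eq_mul]
  simp only [Prod.map]

/-! ### potentials -/

theorem P3a_U1_sq {α τ : ℝ} {V : ℝ → ℝ} (hV : Pot V) (x : ℝ) :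
    U1 α τ V (x ^ 2) = V x - gg α τ x := by
  unfold U1
  rw [Real.sqrt_sq_eq_abs]
  rcases abs_choice x with h | h
  · rw [h]
  · rw [h, hV.even, gg_even]

theorem P3a_U3_sq {α τ : ℝ} (x : ℝ) : U3 α τ (x ^ 2) = V3 α τ x := by
  unfold U3
  rw [Real.sqrt_sq_eq_abs]
  rcases abs_choice x with h | h
  · rw [h]
  · rw [h, V3_even]

theorem P3a_U1_continuous {α τ : ℝ} (hτ : 0 < τ) {V : ℝ → ℝ} (hV : Pot V) :
    Continuous (U1 α τ V) := by
  unfold U1
  exact (hV.cont.comp Real.continuous_sqrt).sub ((gg_continuous hτ).comp Real.continuous_sqrt)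

theorem P3a_U3_continuous {α τ : ℝ} (hτ : 0 < τ) : Continuous (U3 α τ) := by
  unfold U3
  exact (V3_continuous hτ).comp Real.continuous_sqrt

theorem P3a_gg_integrable {α τ : ℝ} (hτ : 0 < τ) {V : ℝ → ℝ} (hV : Pot V) (μ : Measure ℝ)
    [IsFiniteMeasure μ] (h : Integrable V μ) : Integrable (gg α τ) μ := by
  obtain ⟨c, C, hc, hl⟩ := hV.lower
  obtain ⟨D, hD, hg⟩ := gg_growth (α := α) hτ
  have i1 : Integrable (fun x => D * (2 + 2 * ((V x + C) / c))) μ :=
    ((integrable_const 2).add (((h.add (integrable_const C)).div_const c).const_mul 2)).const_mul D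
  refine Integrable.mono' i1 (gg_continuous hτ).aestronglyMeasurable
    (Eventually.of_forall fun x => ?_)
  rw [Real.norm_of_nonneg (gg_nonneg x)]
  refine (hg x).trans ?_
  refine mul_le_mul_of_nonneg_left ?_ hD.le
  have h1 : (1 + |x|) ^ (4 / 3 : ℝ) ≤ (1 + |x|) ^ (2 : ℝ) :=
    Real.rpow_le_rpow_of_exponent_le (by linarith [abs_nonneg x]) (by norm_num)
  have h2 : (1 + |x|) ^ (2 : ℝ) = (1 + |x|) ^ 2 := by norm_num
  have h3 : x ^ 2 ≤ (V x + C) / c := by
    rw [le_div_iff₀ hc]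
    linarith [hl x]
  have h4 : x ^ 2 = |x| ^ 2 := (sq_abs x).symm
  rw [h2] at h1
  nlinarith [sq_nonneg (1 - |x|)]

theorem P3a_half_toReal : ((1 / 2 : ℝ≥0∞)).toReal = 1 / 2 := by norm_num

theorem adm_to_J {α τ : ℝ} (hτ : 0 < τ) {V : ℝ → ℝ} (hV : Pot V) {μ₁ μ₂ μ₃ : Measure ℝ}
    (h : Adm α τ V μ₁ μ₂ μ₃) :
    AdmJ α τ V ((1 / 2 : ℝ≥0∞) • μ₁.map (fun x => x ^ 2)) ((1 / 2 : ℝ≥0∞) • μ₂.map (fun x => x ^ 2))
      ((1 / 2 : ℝ≥0∞) • μ₃.map (fun x => x ^ 2)) ∧
    0 ≤ LL μ₁ μ₁ - LL μ₁ (μ₁.map (fun x => -x)) ∧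
    EE α τ V μ₁ μ₂ μ₃ ≥ 2 * JJ α τ V ((1 / 2 : ℝ≥0∞) • μ₁.map (fun x => x ^ 2))
      ((1 / 2 : ℝ≥0∞) • μ₂.map (fun x => x ^ 2)) ((1 / 2 : ℝ≥0∞) • μ₃.map (fun x => x ^ 2)) +
      1 / 2 * (LL μ₁ μ₁ - LL μ₁ (μ₁.map (fun x => -x))) := by
  have f1 : IsFiniteMeasure μ₁ := ⟨by rw [h.mass₁]; exact ENNReal.one_lt_top⟩
  have f2 : IsFiniteMeasure μ₂ := ⟨by
    rw [h.mass₂]; exact ENNReal.div_lt_top (by norm_num) (by norm_num)⟩
  have f3 : IsFiniteMeasure μ₃ := ⟨by
    rw [h.mass₃]; exact ENNReal.div_lt_top (by norm_num) (by norm_num)⟩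
  have hsupp : ∀ μ : Measure ℝ, ((1 / 2 : ℝ≥0∞) • μ.map (fun x => x ^ 2)) (Iio 0) = 0 := by
    intro μ
    rw [Measure.smul_apply, Measure.map_apply P3a_measurable_sq measurableSet_Iio]
    have : (fun x : ℝ => x ^ 2) ⁻¹' Iio 0 = ∅ := by
      ext x
      simp only [mem_preimage, mem_Iio, mem_empty_iff_false, iff_false, not_lt]
      positivity
    rw [this, measure_empty, smul_zero]
  have hmass : ∀ μ : Measure ℝ, ((1 / 2 : ℝ≥0∞) • μ.map (fun x => x ^ 2)) univ =
      1 / 2 * μ univ := by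
    intro μ
    rw [Measure.smul_apply, Measure.map_apply P3a_measurable_sq MeasurableSet.univ, preimage_univ,
      smul_eq_mul]
  have hgi := P3a_gg_integrable (α := α) hτ hV μ₁ h.pot
  refine ⟨⟨hsupp _, hsupp _, hsupp _, ?_, ?_, ?_, ?_, P3a_finEn_sq μ₁ h.en₁, P3a_finEn_sq μ₂ h.en₂,
    P3a_finEn_sq μ₃ h.en₃, ?_⟩, P3a_refl_nonneg μ₁ h.en₁, ?_⟩
  · rw [hmass, h.mass₁, mul_one]
  · rw [hmass, h.mass₂]
    rw [← ENNReal.toReal_eq_toReal_iff' (by finiteness) (by finiteness)]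
    simp
    norm_num
  · rw [hmass, h.mass₃]
    rw [← ENNReal.toReal_eq_toReal_iff' (by finiteness) (by finiteness)]
    simp
    norm_num
  · unfold sigI
    have := Measure.map_mono h.constr P3a_measurable_sq
    intro s
    simp only [Measure.smul_apply, smul_eq_mul]
    gcongr
  · refine Integrable.smul_measure ?_ (by norm_num)
    rw [integrable_map_measure (P3a_U1_continuous hτ hV).aestronglyMeasurable
      P3a_measurable_sq.aemeasurable]
    refine (h.pot.sub hgi).congr (Eventually.of_forall fun x => ?_)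
    simp only [Pi.sub_apply, Function.comp, P3a_U1_sq hV]
  · have e1 := P3a_LL_sq μ₁ h.en₁
    have e2 := P3a_LL_sq μ₂ h.en₂
    have e3 := P3a_LL_sq μ₃ h.en₃
    have hl := P3a_log_sigma hτ μ₂ h.constr
    have i12 := P3a_log_sq_integrable μ₁ μ₂ h.en₁.logMoment h.en₂.logMoment (h.en₂.noAtom 0) hl
    have i32 := P3a_log_sq_integrable μ₃ μ₂ h.en₃.logMoment h.en₂.logMoment (h.en₂.noAtom 0) hl
    have x12 := P3a_logX μ₁ μ₂ i12
    have x32 := P3a_logX μ₃ μ₂ i32
    have m12 := P3a_MM μ₁ μ₂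
    have m23 := P3a_MM μ₂ μ₃
    rw [P3a_log_sq_int_swap μ₃ μ₂] at m23
    have u1 : ∫ x, U1 α τ V x ∂((1 / 2 : ℝ≥0∞) • μ₁.map (fun x => x ^ 2)) =
        1 / 2 * ∫ x, (V x - gg α τ x) ∂μ₁ := by
      rw [integral_smul_measure, integral_map P3a_measurable_sq.aemeasurable
        (P3a_U1_continuous hτ hV).aestronglyMeasurable, P3a_half_toReal, smul_eq_mul]
      simp only [P3a_U1_sq hV]
    have u3 : ∫ x, U3 α τ x ∂((1 / 2 : ℝ≥0∞) • μ₃.map (fun x => x ^ 2)) =
        1 / 2 * ∫ x, V3 α τ x ∂μ₃ := by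
      rw [integral_smul_measure, integral_map P3a_measurable_sq.aemeasurable
        (P3a_U3_continuous hτ).aestronglyMeasurable, P3a_half_toReal, smul_eq_mul]
      simp only [P3a_U3_sq]
    have r1 := P3a_refl_nonneg μ₁ h.en₁
    have r2 := P3a_refl_nonneg μ₂ h.en₂
    have r3 := P3a_refl_nonneg μ₃ h.en₃
    unfold EE JJ
    rw [P3a_logI μ₁ h.en₁, P3a_logI μ₂ h.en₂, P3a_logI μ₃ h.en₃, e1, e2, e3, x12, x32, m12, m23,
      u1, u3]
    linarith

end

end Pool.Agent.MP_941b23_mp
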