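import Pool.Agent.MP_941b23_mp.Defs2
import Pool.Agent.MP_941b23_mp.P1b
import Pool.Agent.MP_941b23_mp.T1a
import Pool.Agent.MP_941b23_mp.T2a
import Pool.Agent.MP_941b23_mp.T5

/-!
# [P3b] from `J` to `E`
-/

namespace Pool.Agent.MP_941b23_mp

open MeasureTheory Set Filter Topology
open scoped ENNReal NNReal Real

noncomputable section

/-- symmetric square root push-forward -/
def p3S (a : Measure ℝ) : Measure ℝ := a.map (fun x => √x) + a.map (fun x => -√x)

theorem p3_meas_sqrt : Measurable (fun x : ℝ => √x) := Real.continuous_sqrt.measurable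

theorem p3_meas_nsqrt : Measurable (fun x : ℝ => -√x) := Real.continuous_sqrt.neg.measurable

theorem p3S_univ (a : Measure ℝ) : p3S a univ = 2 * a univ := by
  rw [p3S, Measure.add_apply, Measure.map_apply p3_meas_sqrt MeasurableSet.univ,
    Measure.map_apply p3_meas_nsqrt MeasurableSet.univ, preimage_univ, preimage_univ, two_mul]

instance p3S_finite (a : Measure ℝ) [IsFiniteMeasure a] : IsFiniteMeasure (p3S a) := by
  unfold p3S
  infer_instance

theorem p3_integrable_even (a : Measure ℝ) {g : ℝ → ℝ} (hg : Measurable g)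
    (he : ∀ x, g (-x) = g x) : Integrable g (p3S a) ↔ Integrable (fun x => g (√x)) a := by
  unfold p3S
  rw [integrable_add_measure, integrable_map_measure hg.aestronglyMeasurable
    p3_meas_sqrt.aemeasurable, integrable_map_measure hg.aestronglyMeasurable
    p3_meas_nsqrt.aemeasurable]
  have e : (g ∘ fun x : ℝ => -√x) = g ∘ fun x : ℝ => √x := by
    ext x
    exact he (√x)
  rw [e, and_self]
  rfl

theorem p3_integral_even (a : Measure ℝ) {g : ℝ → ℝ} (hg : Measurable g)
    (he : ∀ x, g (-x) = g x) : ∫ x, g x ∂(p3S a) = 2 * ∫ x, g (√x) ∂a := by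
  by_cases hI : Integrable (fun x => g (√x)) a
  · have h1 : Integrable g (a.map (fun x => √x)) := by
      rw [integrable_map_measure hg.aestronglyMeasurable p3_meas_sqrt.aemeasurable]
      exact hI
    have h2 : Integrable g (a.map (fun x => -√x)) := by
      rw [integrable_map_measure hg.aestronglyMeasurable p3_meas_nsqrt.aemeasurable]
      have e : (g ∘ fun x : ℝ => -√x) = fun x : ℝ => g (√x) := by
        ext x
        exact he (√x)
      rw [e]
      exact hI
    unfold p3S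
    rw [integral_add_measure h1 h2, integral_map p3_meas_sqrt.aemeasurable hg.aestronglyMeasurable,
      integral_map p3_meas_nsqrt.aemeasurable hg.aestronglyMeasurable]
    have e : ∫ x, g (-√x) ∂a = ∫ x, g (√x) ∂a := integral_congr_ae
      (Filter.Eventually.of_forall fun x => he (√x))
    rw [e, two_mul]
  · have h1 : ¬ Integrable g (p3S a) := by
      rw [p3_integrable_even a hg he]
      exact hI
    rw [integral_undef h1, integral_undef hI, mul_zero]

/-! ### null sets -/

theorem p3_diag (a b : Measure ℝ) [IsFiniteMeasure a] [IsFiniteMeasure b]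
    (hb : ∀ x, b {x} = 0) : ∀ᵐ z ∂(a.prod b), z.1 ≠ z.2 := by
  rw [ae_iff]
  have hs : MeasurableSet {z : ℝ × ℝ | z.1 = z.2} := measurableSet_eq_fun measurable_fst
    measurable_snd
  have e : {z : ℝ × ℝ | ¬ z.1 ≠ z.2} = {z : ℝ × ℝ | z.1 = z.2} := by
    ext z
    simp
  rw [e, Measure.measure_prod_null hs]
  refine Filter.Eventually.of_forall fun x => ?_
  have e2 : Prod.mk x ⁻¹' {z : ℝ × ℝ | z.1 = z.2} = {x} := by
    ext y
    simp only [mem_preimage, mem_ofPred_eq, mem_singleton_iff]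
    exact eq_comm
  simp only [e2, hb, Pi.zero_apply]

theorem p3_supp {a : Measure ℝ} (ha : a (Iio 0) = 0) : ∀ᵐ x ∂a, 0 ≤ x := by
  rw [ae_iff]
  have e : {x : ℝ | ¬ 0 ≤ x} = Iio 0 := by
    ext x
    simp
  rw [e, ha]

theorem p3_supp_prod {a b : Measure ℝ} [IsFiniteMeasure a] [IsFiniteMeasure b]
    (ha : a (Iio 0) = 0) (hb : b (Iio 0) = 0) : ∀ᵐ z ∂(a.prod b), 0 ≤ z.1 ∧ 0 ≤ z.2 := by
  have h1 : ∀ᵐ z ∂(a.prod b), 0 ≤ z.1 := Measure.quasiMeasurePreserving_fst.ae (p3_supp ha)
  have h2 : ∀ᵐ z ∂(a.prod b), 0 ≤ z.2 := Measure.quasiMeasurePreserving_snd.ae (p3_supp hb)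
  filter_upwards [h1, h2] with z hz1 hz2 using ⟨hz1, hz2⟩

/-! ### pointwise bounds -/

theorem p3_log_upper {x y s : ℝ} (hx : 0 ≤ x) (hy : 0 ≤ y) (hs : 0 < s)
    (h : s ≤ 1 + x + y) : Real.log s ≤ Real.log (1 + |x|) + Real.log (1 + |y|) := by
  rw [abs_of_nonneg hx, abs_of_nonneg hy, ← Real.log_mul (by positivity) (by positivity)]
  refine Real.log_le_log hs ?_
  nlinarith [mul_nonneg hx hy]

theorem p3_sum_bound {x y : ℝ} (hx : 0 ≤ x) (hy : 0 ≤ y) (hne : x ≠ y) :
    |Real.log (x + y)| ≤ abs (Real.log |x - y|) + (Real.log (1 + |x|) + Real.log (1 + |y|)) := by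
  have p1 : 0 < |x - y| := abs_pos.mpr (sub_ne_zero.mpr hne)
  have p2 : |x - y| ≤ x + y := abs_le.mpr ⟨by linarith, by linarith⟩
  have p3 : Real.log |x - y| ≤ Real.log (x + y) := Real.log_le_log p1 p2
  have p4 := p3_log_upper hx hy (lt_of_lt_of_le p1 p2) (by linarith)
  have p5 : 0 ≤ Real.log (1 + |x|) := Real.log_nonneg (by linarith [abs_nonneg x])
  have p6 : 0 ≤ Real.log (1 + |y|) := Real.log_nonneg (by linarith [abs_nonneg y])
  have p7 := neg_abs_le (Real.log |x - y|)
  have p8 := abs_nonneg (Real.log |x - y|)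
  rw [abs_le]
  constructor <;> linarith

theorem p3_ssum_bound {x y : ℝ} (hx : 0 ≤ x) (hy : 0 ≤ y) (hne : x ≠ y) :
    |Real.log (√x + √y)| ≤
      abs (Real.log |x - y|) + (Real.log (1 + |x|) + Real.log (1 + |y|)) := by
  have p1 : 0 < |x - y| := abs_pos.mpr (sub_ne_zero.mpr hne)
  have q1 := Real.sqrt_nonneg x
  have q2 := Real.sqrt_nonneg y
  have q3 := Real.sq_sqrt hx
  have q4 := Real.sq_sqrt hy
  have p2 : |x - y| ≤ (√x + √y) ^ 2 := by
    rw [abs_le]
    constructor <;> nlinarith [mul_nonneg q1 q2]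
  have p0 : 0 < √x + √y := by
    rcases (add_nonneg q1 q2).lt_or_eq with h | h
    · exact h
    · rw [← h] at p2
      norm_num at p2
      exact absurd p2 (sub_ne_zero.mpr hne)
  have p3 : Real.log |x - y| ≤ 2 * Real.log (√x + √y) := by
    have := Real.log_le_log p1 p2
    rwa [Real.log_pow, Nat.cast_ofNat] at this
  have p4 : Real.log (√x + √y) ≤ Real.log (1 + |x|) + Real.log (1 + |y|) := by
    refine p3_log_upper hx hy p0 ?_
    nlinarith [sq_nonneg (√x - 1), sq_nonneg (√y - 1)]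
  have p5 : 0 ≤ Real.log (1 + |x|) := Real.log_nonneg (by linarith [abs_nonneg x])
  have p6 : 0 ≤ Real.log (1 + |y|) := Real.log_nonneg (by linarith [abs_nonneg y])
  have p7 := neg_abs_le (Real.log |x - y|)
  have p8 := abs_nonneg (Real.log |x - y|)
  rw [abs_le]
  constructor <;> linarith

theorem p3_log_split {x y : ℝ} (hx : 0 ≤ x) (hy : 0 ≤ y) (hne : x ≠ y) :
    Real.log |√x - √y| = Real.log |x - y| - Real.log (√x + √y) := by
  have q1 := Real.sqrt_nonneg x
  have q2 := Real.sqrt_nonneg y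
  have q3 := Real.sq_sqrt hx
  have q4 := Real.sq_sqrt hy
  have e : x - y = (√x - √y) * (√x + √y) := by nlinarith
  have hne2 : (√x - √y) * (√x + √y) ≠ 0 := by
    rw [← e]
    exact sub_ne_zero.mpr hne
  have h1 := left_ne_zero_of_mul hne2
  have h2 := right_ne_zero_of_mul hne2
  rw [e, abs_mul, Real.log_mul (abs_ne_zero.mpr h1) (abs_ne_zero.mpr h2),
    abs_of_nonneg (add_nonneg q1 q2)]
  ring

/-! ### integrability on products -/

theorem p3_dom {a b : Measure ℝ} [IsFiniteMeasure a] [IsFiniteMeasure b]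
    (hab : Integrable (fun z : ℝ × ℝ => Real.log |z.1 - z.2|) (a.prod b))
    (hla : Integrable (fun x => Real.log (1 + |x|)) a)
    (hlb : Integrable (fun x => Real.log (1 + |x|)) b) :
    Integrable (fun z : ℝ × ℝ => abs (Real.log |z.1 - z.2|) +
      (Real.log (1 + |z.1|) + Real.log (1 + |z.2|))) (a.prod b) :=
  hab.abs.add ((hla.comp_fst b).add (hlb.comp_snd a))

theorem p3_sum_int {a b : Measure ℝ} [IsFiniteMeasure a] [IsFiniteMeasure b]
    (ha : a (Iio 0) = 0) (hb : b (Iio 0) = 0)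
    (hab : Integrable (fun z : ℝ × ℝ => Real.log |z.1 - z.2|) (a.prod b))
    (hla : Integrable (fun x => Real.log (1 + |x|)) a)
    (hlb : Integrable (fun x => Real.log (1 + |x|)) b) (hnb : ∀ x, b {x} = 0) :
    Integrable (fun z : ℝ × ℝ => Real.log (z.1 + z.2)) (a.prod b) := by
  refine (p3_dom hab hla hlb).mono' ?_ ?_
  · exact (Real.measurable_log.comp (measurable_fst.add measurable_snd)).aestronglyMeasurable
  · filter_upwards [p3_diag a b hnb, p3_supp_prod ha hb] with z h1 h2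
    rw [Real.norm_eq_abs]
    exact p3_sum_bound h2.1 h2.2 h1

theorem p3_ssum_int {a b : Measure ℝ} [IsFiniteMeasure a] [IsFiniteMeasure b]
    (ha : a (Iio 0) = 0) (hb : b (Iio 0) = 0)
    (hab : Integrable (fun z : ℝ × ℝ => Real.log |z.1 - z.2|) (a.prod b))
    (hla : Integrable (fun x => Real.log (1 + |x|)) a)
    (hlb : Integrable (fun x => Real.log (1 + |x|)) b) (hnb : ∀ x, b {x} = 0) :
    Integrable (fun z : ℝ × ℝ => Real.log (√z.1 + √z.2)) (a.prod b) := by
  refine (p3_dom hab hla hlb).mono' ?_ ?_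
  · refine (Real.measurable_log.comp ?_).aestronglyMeasurable
    exact (p3_meas_sqrt.comp measurable_fst).add (p3_meas_sqrt.comp measurable_snd)
  · filter_upwards [p3_diag a b hnb, p3_supp_prod ha hb] with z h1 h2
    rw [Real.norm_eq_abs]
    exact p3_ssum_bound h2.1 h2.2 h1

theorem p3_sdiff_ae {a b : Measure ℝ} [IsFiniteMeasure a] [IsFiniteMeasure b]
    (ha : a (Iio 0) = 0) (hb : b (Iio 0) = 0) (hnb : ∀ x, b {x} = 0) :
    (fun z : ℝ × ℝ => Real.log |z.1 - z.2| - Real.log (√z.1 + √z.2)) =ᵐ[a.prod b]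
      fun z : ℝ × ℝ => Real.log |√z.1 - √z.2| := by
  filter_upwards [p3_diag a b hnb, p3_supp_prod ha hb] with z h1 h2
  exact (p3_log_split h2.1 h2.2 h1).symm

/-! ### the energies -/

theorem p3_meas_log : Measurable (fun z : ℝ × ℝ => Real.log |z.1 - z.2|) :=
  Real.measurable_log.comp ((measurable_fst.sub measurable_snd).abs)

theorem p3_energy {a : Measure ℝ} [IsFiniteMeasure a] (ha : a (Iio 0) = 0) (hE : FinEn a) :
    Integrable (fun z : ℝ × ℝ => Real.log |z.1 - z.2|) ((p3S a).prod (p3S a)) ∧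
    ∫ z, Real.log |z.1 - z.2| ∂((p3S a).prod (p3S a)) =
      2 * ∫ z, Real.log |z.1 - z.2| ∂(a.prod a) := by
  have hs := p3_ssum_int ha ha hE.energy hE.logMoment hE.logMoment hE.noAtom
  have hd0 := p3_sdiff_ae ha ha hE.noAtom
  have hd : Integrable (fun z : ℝ × ℝ => Real.log |√z.1 - √z.2|) (a.prod a) :=
    (hE.energy.sub hs).congr hd0
  have hdi : ∫ z : ℝ × ℝ, Real.log |√z.1 - √z.2| ∂(a.prod a) =
      ∫ z, Real.log |z.1 - z.2| ∂(a.prod a) - ∫ z, Real.log (√z.1 + √z.2) ∂(a.prod a) := by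
    rw [← integral_sub hE.energy hs]
    exact (integral_congr_ae hd0).symm
  have key : ∀ f g : ℝ → ℝ, Measurable f → Measurable g → ∀ G : ℝ × ℝ → ℝ,
      Integrable G (a.prod a) → (∀ z : ℝ × ℝ, Real.log |f z.1 - g z.2| = G z) →
      Integrable (fun z : ℝ × ℝ => Real.log |z.1 - z.2|) ((a.map f).prod (a.map g)) ∧
      ∫ z, Real.log |z.1 - z.2| ∂((a.map f).prod (a.map g)) = ∫ z, G z ∂(a.prod a) := by
    intro f g hf hg G hG hfg
    have e : (fun z : ℝ × ℝ => Real.log |z.1 - z.2|) ∘ Prod.map f g = G := by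
      ext z
      exact hfg z
    rw [Measure.map_prod_map a a hf hg]
    constructor
    · rw [integrable_map_measure p3_meas_log.aestronglyMeasurable (hf.prodMap hg).aemeasurable, e]
      exact hG
    · rw [integral_map (hf.prodMap hg).aemeasurable p3_meas_log.aestronglyMeasurable]
      exact integral_congr_ae (Filter.Eventually.of_forall fun z => hfg z)
  have k1 := key _ _ p3_meas_sqrt p3_meas_sqrt _ hd (fun z => rfl)
  have k2 := key _ _ p3_meas_sqrt p3_meas_nsqrt _ hs (fun z => by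
    rw [sub_neg_eq_add, abs_of_nonneg (add_nonneg (Real.sqrt_nonneg _) (Real.sqrt_nonneg _))])
  have k3 := key _ _ p3_meas_nsqrt p3_meas_sqrt _ hs (fun z => by
    rw [← neg_add', abs_neg,
      abs_of_nonneg (add_nonneg (Real.sqrt_nonneg _) (Real.sqrt_nonneg _))])
  have k4 := key _ _ p3_meas_nsqrt p3_meas_nsqrt _ hd (fun z => by
    rw [neg_sub_neg, abs_sub_comm])
  have e0 : (p3S a).prod (p3S a) =
      (((a.map fun x => √x).prod (a.map fun x => √x)) +
        ((a.map fun x => √x).prod (a.map fun x => -√x))) +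
      (((a.map fun x => -√x).prod (a.map fun x => √x)) +
        ((a.map fun x => -√x).prod (a.map fun x => -√x))) := by
    unfold p3S
    rw [Measure.add_prod, Measure.prod_add, Measure.prod_add]
  rw [e0]
  constructor
  · exact (k1.1.add_measure k2.1).add_measure (k3.1.add_measure k4.1)
  · rw [integral_add_measure (k1.1.add_measure k2.1) (k3.1.add_measure k4.1),
      integral_add_measure k1.1 k2.1, integral_add_measure k3.1 k4.1, k1.2, k2.2, k3.2, k4.2, hdi]
    ring

theorem p3_logI {a : Measure ℝ} [IsFiniteMeasure a] (ha : a (Iio 0) = 0) (hE : FinEn a) :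
    logI (p3S a) (p3S a) = 2 * LL a a := by
  have h := p3_energy ha hE
  have h1 : Integrable (fun z : ℝ × ℝ => Real.log (1 / |z.1 - z.2|)) ((p3S a).prod (p3S a)) := by
    refine h.1.neg.congr (Filter.Eventually.of_forall fun z => ?_)
    simp only [Pi.neg_apply, one_div, Real.log_inv]
  unfold logI LL
  rw [← integral_prod (fun z : ℝ × ℝ => Real.log (1 / |z.1 - z.2|)) h1, integral_neg]
  have h2 : ∫ z : ℝ × ℝ, Real.log (1 / |z.1 - z.2|) ∂((p3S a).prod (p3S a)) =
      ∫ z : ℝ × ℝ, -Real.log |z.1 - z.2| ∂((p3S a).prod (p3S a)) := by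
    refine integral_congr_ae (Filter.Eventually.of_forall fun z => ?_)
    simp only [one_div, Real.log_inv]
  rw [h2, integral_neg, h.2]
  ring

theorem p3_norm (x y : ℝ) : Real.log (1 / ‖(x : ℂ) - (y : ℂ) * Complex.I‖) =
    -(1 / 2) * Real.log (x ^ 2 + y ^ 2) := by
  have e : ‖(x : ℂ) - (y : ℂ) * Complex.I‖ = √(x ^ 2 + y ^ 2) := by
    rw [Complex.norm_eq_sqrt_sq_add_sq]
    simp
  rw [e, one_div, Real.log_inv, Real.log_sqrt (by positivity)]
  ring

theorem p3_logX {a b : Measure ℝ} [IsFiniteMeasure a] [IsFiniteMeasure b]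
    (ha : a (Iio 0) = 0) (hb : b (Iio 0) = 0) (hEa : FinEn a) (hEb : FinEn b) :
    logX (p3S a) (p3S b) = -2 * MM a b := by
  have hab := cross_integrable a b hEa hEb
  have hs := p3_sum_int ha hb hab hEa.logMoment hEb.logMoment hEb.noAtom
  unfold logX
  have hmeas2 : Measurable (fun z : ℝ × ℝ => Real.log (z.1 ^ 2 + z.2 ^ 2)) :=
    Real.measurable_log.comp ((measurable_fst.pow_const 2).add (measurable_snd.pow_const 2))
  have e1 : ∀ x : ℝ, ∫ y, Real.log (1 / ‖(x : ℂ) - (y : ℂ) * Complex.I‖) ∂(p3S b) =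
      2 * ∫ t, -(1 / 2) * Real.log (x ^ 2 + √t ^ 2) ∂b := by
    intro x
    have e2 : ∫ y, Real.log (1 / ‖(x : ℂ) - (y : ℂ) * Complex.I‖) ∂(p3S b) =
        ∫ y, -(1 / 2) * Real.log (x ^ 2 + y ^ 2) ∂(p3S b) :=
      integral_congr_ae (Filter.Eventually.of_forall fun y => p3_norm x y)
    rw [e2]
    refine p3_integral_even b ?_ ?_
    · exact (hmeas2.comp (measurable_const.prodMk measurable_id)).const_mul _
    · intro y
      rw [neg_sq]
  simp only [e1]
  rw [p3_integral_even a (g := fun x => 2 * ∫ t, -(1 / 2) * Real.log (x ^ 2 + √t ^ 2) ∂b)]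
  · have e3 : ∫ x, 2 * ∫ t, -(1 / 2) * Real.log (√x ^ 2 + √t ^ 2) ∂b ∂a =
        ∫ x, -1 * ∫ t, Real.log (x + t) ∂b ∂a := by
      refine integral_congr_ae ?_
      filter_upwards [p3_supp ha] with x hx
      rw [integral_const_mul, Real.sq_sqrt hx]
      have e4 : ∫ t, Real.log (x + √t ^ 2) ∂b = ∫ t, Real.log (x + t) ∂b := by
        refine integral_congr_ae ?_
        filter_upwards [p3_supp hb] with t ht
        rw [Real.sq_sqrt ht]
      rw [e4]
      ring
    rw [e3, integral_const_mul]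
    unfold MM
    rw [integral_prod _ hs]
    ring
  · have hm : StronglyMeasurable (Function.uncurry fun x t : ℝ =>
        -(1 / 2) * Real.log (x ^ 2 + √t ^ 2)) := by
      refine Measurable.stronglyMeasurable ?_
      exact (hmeas2.comp (measurable_fst.prodMk (p3_meas_sqrt.comp measurable_snd))).const_mul _
    exact (hm.integral_prod_right (ν := b)).measurable.const_mul 2
  · intro x
    rw [neg_sq]

theorem p3_MM_comm (a b : Measure ℝ) [IsFiniteMeasure a] [IsFiniteMeasure b] :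
    MM a b = MM b a := by
  unfold MM
  rw [← integral_prod_swap]
  refine integral_congr_ae (Filter.Eventually.of_forall fun z => ?_)
  simp only [Prod.fst_swap, Prod.snd_swap, add_comm]

/-! ### admissibility -/

theorem p3_noAtom {a : Measure ℝ} (ha : a (Iio 0) = 0) (hn : ∀ x, a {x} = 0) (x : ℝ) :
    p3S a {x} = 0 := by
  have h0 : a (Iio 0 ∪ {x ^ 2}) = 0 := measure_union_null ha (hn _)
  rw [p3S, Measure.add_apply, Measure.map_apply p3_meas_sqrt (measurableSet_singleton x),
    Measure.map_apply p3_meas_nsqrt (measurableSet_singleton x)]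
  have h1 : a ((fun x => √x) ⁻¹' {x}) = 0 := by
    refine measure_mono_null ?_ h0
    intro y hy
    simp only [mem_preimage, mem_singleton_iff] at hy
    rcases lt_or_ge y 0 with h | h
    · exact Or.inl h
    · right
      rw [mem_singleton_iff, ← hy, Real.sq_sqrt h]
  have h2 : a ((fun x => -√x) ⁻¹' {x}) = 0 := by
    refine measure_mono_null ?_ h0
    intro y hy
    simp only [mem_preimage, mem_singleton_iff] at hy
    rcases lt_or_ge y 0 with h | h
    · exact Or.inl h
    · right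
      rw [mem_singleton_iff, ← hy, neg_sq, Real.sq_sqrt h]
  rw [h1, h2, add_zero]

theorem p3_logMoment {a : Measure ℝ} [IsFiniteMeasure a]
    (h : Integrable (fun x => Real.log (1 + |x|)) a) :
    Integrable (fun x => Real.log (1 + |x|)) (p3S a) := by
  have hm : Measurable (fun x : ℝ => Real.log (1 + |x|)) :=
    Real.measurable_log.comp (measurable_const.add measurable_id.abs)
  rw [p3_integrable_even a hm (fun x => by rw [abs_neg])]
  refine ((integrable_const (Real.log 2)).add h).mono' ?_ ?_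
  · exact (hm.comp p3_meas_sqrt).aestronglyMeasurable
  · refine Filter.Eventually.of_forall fun x => ?_
    have q1 := Real.sqrt_nonneg x
    have h1 : 0 ≤ Real.log (1 + |√x|) := Real.log_nonneg (by linarith [abs_nonneg (√x)])
    rw [Real.norm_eq_abs, abs_of_nonneg h1, Pi.add_apply,
      ← Real.log_mul two_ne_zero (by positivity)]
    refine Real.log_le_log (by positivity) ?_
    rw [abs_of_nonneg q1]
    have h2 : √x ≤ 1 + |x| := by
      rcases lt_or_ge x 0 with h | h
      · rw [Real.sqrt_eq_zero_of_nonpos h.le]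
        positivity
      · have := Real.sq_sqrt h
        rw [abs_of_nonneg h]
        nlinarith [sq_nonneg (√x - 1)]
    linarith [abs_nonneg x]

theorem p3_FinEn {a : Measure ℝ} [IsFiniteMeasure a] (ha : a (Iio 0) = 0) (hE : FinEn a) :
    FinEn (p3S a) :=
  ⟨p3_noAtom ha hE.noAtom, (p3_energy ha hE).1, p3_logMoment hE.logMoment⟩

theorem p3_sigma2_neg (α τ : ℝ) {s : Set ℝ} (hs : MeasurableSet s) :
    sigma2 α τ ((fun y => -y) ⁻¹' s) = sigma2 α τ s := by
  unfold sigma2
  rw [withDensity_apply _ hs, withDensity_apply _ (measurable_neg hs),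
    ← lintegral_indicator hs, ← lintegral_indicator (measurable_neg hs),
    ← lintegral_neg_eq_self (μ := volume)]
  refine lintegral_congr fun y => ?_
  by_cases h : y ∈ s
  · have h' : -y ∈ (Neg.neg ⁻¹' s : Set ℝ) := by
      rw [mem_preimage, neg_neg]
      exact h
    rw [indicator_of_mem h, indicator_of_mem h', rr_neg]
  · have h' : -y ∉ (Neg.neg ⁻¹' s : Set ℝ) := by
      rw [mem_preimage, neg_neg]
      exact h
    rw [indicator_of_notMem h, indicator_of_notMem h']

theorem p3_constr {α τ : ℝ} {b : Measure ℝ} (hb : b ≤ sigI α τ) : p3S b ≤ sigma2 α τ := by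
  rw [Measure.le_iff]
  intro s hs
  have hm2 : Measurable (fun y : ℝ => y ^ 2) := measurable_id.pow_const 2
  have h1 : p3S b s ≤ p3S (sigI α τ) s := by
    unfold p3S
    rw [Measure.add_apply, Measure.add_apply, Measure.map_apply p3_meas_sqrt hs,
      Measure.map_apply p3_meas_nsqrt hs, Measure.map_apply p3_meas_sqrt hs,
      Measure.map_apply p3_meas_nsqrt hs]
    exact add_le_add (hb _) (hb _)
  refine h1.trans (le_of_eq ?_)
  set σ := sigma2 α τ with hσ
  have hns : MeasurableSet ((fun y : ℝ => -y) ⁻¹' s) := measurable_neg hs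
  have h2 : p3S (sigI α τ) s = (1 / 2 : ℝ≥0∞) * (σ ((fun y => |y|) ⁻¹' s) +
      σ ((fun y => -|y|) ⁻¹' s)) := by
    unfold p3S sigI
    rw [Measure.add_apply, Measure.map_apply p3_meas_sqrt hs,
      Measure.map_apply p3_meas_nsqrt hs, Measure.smul_apply, Measure.smul_apply,
      Measure.map_apply hm2 (p3_meas_sqrt hs), Measure.map_apply hm2 (p3_meas_nsqrt hs),
      smul_eq_mul, smul_eq_mul, mul_add]
    have e1 : (fun y : ℝ => y ^ 2) ⁻¹' ((fun x => √x) ⁻¹' s) = (fun y => |y|) ⁻¹' s := by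
      ext y
      simp only [mem_preimage, Real.sqrt_sq_eq_abs]
    have e2 : (fun y : ℝ => y ^ 2) ⁻¹' ((fun x => -√x) ⁻¹' s) = (fun y => -|y|) ⁻¹' s := by
      ext y
      simp only [mem_preimage, Real.sqrt_sq_eq_abs]
    rw [e1, e2]
  have hI : MeasurableSet (Ici (0 : ℝ)) := measurableSet_Ici
  have h3 : σ ((fun y => |y|) ⁻¹' s) = σ (s ∩ Ici 0) + σ (((fun y => -y) ⁻¹' s) \ Ici 0) := by
    rw [← measure_inter_add_sdiff ((fun y => |y|) ⁻¹' s) hI]
    congr 2
    · ext y
      simp only [mem_inter_iff, mem_preimage, mem_Ici]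
      constructor
      · rintro ⟨h, h0⟩
        rw [abs_of_nonneg h0] at h
        exact ⟨h, h0⟩
      · rintro ⟨h, h0⟩
        rw [abs_of_nonneg h0]
        exact ⟨h, h0⟩
    · ext y
      simp only [Set.mem_sdiff, mem_preimage, mem_Ici, not_le]
      constructor
      · rintro ⟨h, h0⟩
        rw [abs_of_neg h0] at h
        exact ⟨h, h0⟩
      · rintro ⟨h, h0⟩
        rw [abs_of_neg h0]
        exact ⟨h, h0⟩
  have h4 : σ ((fun y => -|y|) ⁻¹' s) = σ (((fun y => -y) ⁻¹' s) ∩ Ici 0) + σ (s \ Ici 0) := by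
    rw [← measure_inter_add_sdiff ((fun y => -|y|) ⁻¹' s) hI]
    congr 2
    · ext y
      simp only [mem_inter_iff, mem_preimage, mem_Ici]
      constructor
      · rintro ⟨h, h0⟩
        rw [abs_of_nonneg h0] at h
        exact ⟨h, h0⟩
      · rintro ⟨h, h0⟩
        rw [abs_of_nonneg h0]
        exact ⟨h, h0⟩
    · ext y
      simp only [Set.mem_sdiff, mem_preimage, mem_Ici, not_le]
      constructor
      · rintro ⟨h, h0⟩
        rw [abs_of_neg h0, neg_neg] at h
        exact ⟨h, h0⟩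
      · rintro ⟨h, h0⟩
        rw [abs_of_neg h0, neg_neg]
        exact ⟨h, h0⟩
  have h5 := measure_inter_add_sdiff (μ := σ) s hI
  have h6 := measure_inter_add_sdiff (μ := σ) ((fun y : ℝ => -y) ⁻¹' s) hI
  have h7 : σ ((fun y : ℝ => -y) ⁻¹' s) = σ s := p3_sigma2_neg α τ hs
  have h8 : σ ((fun y => |y|) ⁻¹' s) + σ ((fun y => -|y|) ⁻¹' s) = 2 * σ s := by
    rw [h3, h4, two_mul]
    calc _ = (σ (s ∩ Ici 0) + σ (s \ Ici 0)) +
        (σ (((fun y => -y) ⁻¹' s) ∩ Ici 0) + σ (((fun y => -y) ⁻¹' s) \ Ici 0)) := by ring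
      _ = _ := by rw [h5, h6, h7]
  rw [h2, h8, ← mul_assoc, one_div, ENNReal.inv_mul_cancel two_ne_zero ENNReal.ofNat_ne_top,
    one_mul]

/-! ### the potential -/

theorem p3_young {y δ : ℝ} (hy : 0 ≤ y) (hδ : 0 < δ) :
    y ^ (4 / 3 : ℝ) ≤ δ * y ^ 2 + 1 / δ ^ 2 := by
  set u : ℝ := y ^ (2 / 3 : ℝ) with hu
  have hu0 : 0 ≤ u := Real.rpow_nonneg hy _
  have e1 : y ^ (4 / 3 : ℝ) = u ^ 2 := by
    rw [hu, ← Real.rpow_natCast, ← Real.rpow_mul hy]
    norm_num
  have e2 : y ^ 2 = u ^ 3 := by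
    rw [hu, ← Real.rpow_natCast, ← Real.rpow_natCast, ← Real.rpow_mul hy]
    norm_num
  rw [e1, e2]
  rcases le_total (1 / δ) u with h | h
  · have h1 : 1 ≤ δ * u := by
      rw [div_le_iff₀ hδ] at h
      linarith
    have h2 : u ^ 2 ≤ δ * u ^ 3 := by nlinarith [sq_nonneg u]
    have h3 : 0 ≤ 1 / δ ^ 2 := by positivity
    linarith
  · have h1 : u ^ 2 ≤ (1 / δ) ^ 2 := pow_le_pow_left₀ hu0 h 2
    have h2 : 0 ≤ δ * u ^ 3 := by positivity
    have h3 : (1 / δ) ^ 2 = 1 / δ ^ 2 := by rw [div_pow, one_pow]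
    rw [h3] at h1
    linarith

theorem p3_pot {α τ : ℝ} (hτ : 0 < τ) {V : ℝ → ℝ} (hV : Pot V) {a : Measure ℝ}
    [IsFiniteMeasure a] (ha : a (Iio 0) = 0) (hU : Integrable (U1 α τ V) a) :
    Integrable V (p3S a) := by
  rw [p3_integrable_even a hV.cont.measurable hV.even]
  obtain ⟨c, C, hc, hlow⟩ := hV.lower
  obtain ⟨K, hK, hgg⟩ := gg_growth (α := α) hτ
  have hgc := gg_continuous (α := α) hτ
  set δ : ℝ := c / (4 * K) with hδ
  have hδ0 : 0 < δ := by positivity
  have hs : ∀ x : ℝ, 0 ≤ x → (1 + √x) ^ 2 ≤ 2 * (1 + x) := by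
    intro x hx
    nlinarith [sq_nonneg (√x - 1), Real.sq_sqrt hx]
  have hx : Integrable (fun x : ℝ => x) a := by
    have h1 : Integrable (fun x => 2 / c * (U1 α τ V x + (C + c / 2 + K * (1 / δ ^ 2)))) a :=
      (hU.add (integrable_const _)).const_mul _
    refine h1.mono' measurable_id.aestronglyMeasurable ?_
    filter_upwards [p3_supp ha] with x hx
    rw [Real.norm_eq_abs, abs_of_nonneg hx]
    have h2 := hlow (√x)
    have h3 := hgg (√x)
    rw [Real.sq_sqrt hx] at h2
    rw [abs_of_nonneg (Real.sqrt_nonneg x)] at h3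
    have h4 := p3_young (y := 1 + √x) (δ := δ) (by positivity) hδ0
    have h5 := hs x hx
    have h6 : K * (1 + √x) ^ (4 / 3 : ℝ) ≤ c / 2 * (1 + x) + K * (1 / δ ^ 2) := by
      have h7 : K * (1 + √x) ^ (4 / 3 : ℝ) ≤ K * (δ * (2 * (1 + x)) + 1 / δ ^ 2) := by
        refine mul_le_mul_of_nonneg_left (h4.trans ?_) hK.le
        have := mul_le_mul_of_nonneg_left h5 hδ0.le
        linarith
      have h8 : K * δ = c / 4 := by
        rw [hδ]
        field_simp
      calc K * (1 + √x) ^ (4 / 3 : ℝ) ≤ K * (δ * (2 * (1 + x)) + 1 / δ ^ 2) := h7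
        _ = (K * δ) * (2 * (1 + x)) + K * (1 / δ ^ 2) := by ring
        _ = c / 2 * (1 + x) + K * (1 / δ ^ 2) := by rw [h8]; ring
    have h9 : c / 2 * x ≤ U1 α τ V x + (C + c / 2 + K * (1 / δ ^ 2)) := by
      unfold U1
      linarith
    calc x = 2 / c * (c / 2 * x) := by field_simp
      _ ≤ _ := mul_le_mul_of_nonneg_left h9 (by positivity)
  have hg : Integrable (fun x => gg α τ (√x)) a := by
    have h1 : Integrable (fun x : ℝ => K * (2 * (1 + x) + 1)) a :=
      ((((integrable_const 1).add hx).const_mul 2).add (integrable_const 1)).const_mul K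
    refine h1.mono' (hgc.comp Real.continuous_sqrt).aestronglyMeasurable ?_
    filter_upwards [p3_supp ha] with x hx
    rw [Real.norm_eq_abs, abs_of_nonneg (gg_nonneg _)]
    have h3 := hgg (√x)
    rw [abs_of_nonneg (Real.sqrt_nonneg x)] at h3
    have h4 := p3_young (y := 1 + √x) (δ := 1) (by positivity) one_pos
    have h5 := hs x hx
    have h6 : (1 + √x) ^ (4 / 3 : ℝ) ≤ 2 * (1 + x) + 1 := by
      norm_num at h4
      linarith
    exact h3.trans (mul_le_mul_of_nonneg_left h6 hK.le)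
  refine (hU.add hg).congr (Filter.Eventually.of_forall fun x => ?_)
  simp only [Pi.add_apply, U1]
  ring

/-! ### main statement -/

theorem J_to_adm {α τ : ℝ} (hτ : 0 < τ) {V : ℝ → ℝ} (hV : Pot V) {a b c : Measure ℝ}
    (h : AdmJ α τ V a b c) : ∃ μ₁ μ₂ μ₃ : Measure ℝ, Adm α τ V μ₁ μ₂ μ₃ ∧
    EE α τ V μ₁ μ₂ μ₃ = 2 * JJ α τ V a b c := by
  have fa : IsFiniteMeasure a := ⟨by rw [h.massa]; norm_num⟩
  have fb : IsFiniteMeasure b := ⟨by
    rw [h.massb]
    exact ENNReal.div_lt_top ENNReal.one_ne_top (by norm_num)⟩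
  have fc : IsFiniteMeasure c := ⟨by
    rw [h.massc]
    exact ENNReal.div_lt_top ENNReal.one_ne_top (by norm_num)⟩
  refine ⟨p3S a, p3S b, p3S c, ⟨?_, ?_, ?_, p3_constr h.constr, p3_FinEn h.suppa h.ena,
    p3_FinEn h.suppb h.enb, p3_FinEn h.suppc h.enc, p3_pot hτ hV h.suppa h.pot⟩, ?_⟩
  · rw [p3S_univ, h.massa, one_div, ENNReal.mul_inv_cancel two_ne_zero ENNReal.ofNat_ne_top]
  · rw [p3S_univ, h.massb, ← mul_div_assoc, mul_one]
  · rw [p3S_univ, h.massc]
    have e : (6 : ℝ≥0∞) = 2 * 3 := by norm_num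
    rw [e, one_div, ENNReal.mul_inv (by left; norm_num) (by left; norm_num), ← mul_assoc,
      ENNReal.mul_inv_cancel two_ne_zero ENNReal.ofNat_ne_top, one_mul, one_div]
  · have e1 : ∫ x, (V x - gg α τ x) ∂(p3S a) = 2 * ∫ x, U1 α τ V x ∂a := by
      rw [p3_integral_even a (g := fun x => V x - gg α τ x)
        (hV.cont.sub (gg_continuous (α := α) hτ)).measurable
        (fun x => by rw [hV.even, gg_even])]
      rfl
    have e2 : ∫ x, V3 α τ x ∂(p3S c) = 2 * ∫ x, U3 α τ x ∂c := by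
      rw [p3_integral_even c (V3_continuous (α := α) hτ).measurable (fun x => V3_even x)]
      rfl
    unfold EE JJ
    rw [p3_logI h.suppa h.ena, p3_logI h.suppb h.enb, p3_logI h.suppc h.enc,
      p3_logX h.suppa h.suppb h.ena h.enb, p3_logX h.suppc h.suppb h.enc h.enb, e1, e2,
      p3_MM_comm c b]
    ring

end

end Pool.Agent.MP_941b23_mp
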