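import Pool.Agent.MP_941b23_mp.Defs2
import Pool.Agent.MP_941b23_mp.E1
import Pool.Agent.MP_941b23_mp.E2c
import Pool.Agent.MP_941b23_mp.E3
import Pool.Agent.MP_941b23_mp.E4
import Pool.Agent.MP_941b23_mp.P3a
import Pool.Agent.MP_941b23_mp.P3b
import Pool.Agent.MP_941b23_mp.P5

/-!
# [E5] existence of the minimiser
-/

namespace Pool.Agent.MP_941b23_mp

open MeasureTheory Set Filter Topology
open scoped ENNReal NNReal Real

noncomputable section

theorem e5_qf (x y z : ℝ) : (y + z) ^ 2 ≤ 8 * qf x y z := by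
  unfold qf
  nlinarith [sq_nonneg (2 * x - y), sq_nonneg (2 * z - y), sq_nonneg (y - z), sq_nonneg (y + z)]

theorem e5_tl_anti (μ : Measure ℝ) [IsFiniteMeasure μ] : Antitone (tl μ) := fun _ _ huv =>
  measureReal_mono (Ioi_subset_Ioi huv)

theorem exists_minJ {α τ : ℝ} (hτ : 0 < τ) {V : ℝ → ℝ} (hV : Pot V)
    (hdbl : ∃ C : ℝ, ∀ s ∈ Icc (1 : ℝ) 2, ∀ x, |V (s * x)| ≤ C * (1 + |V x|)) :
    ∃ a b c : Measure ℝ, AdmJ α τ V a b c ∧ ∀ a' b' c' : Measure ℝ, AdmJ α τ V a' b' c' →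
      JJ α τ V a b c ≤ JJ α τ V a' b' c' := by
  obtain ⟨a, b, c, hW, hmin⟩ := e_weak (α := α) hτ hV hdbl
  obtain ⟨C, T₀, hC, hT₀, htr⟩ := e_trunc hτ hV hW
  have fa : IsFiniteMeasure a := ⟨by rw [hW.massa]; exact ENNReal.div_lt_top (by simp) (by simp)⟩
  have fb : IsFiniteMeasure b := ⟨by rw [hW.massb]; exact ENNReal.div_lt_top (by simp) (by simp)⟩
  have fc : IsFiniteMeasure c := ⟨by rw [hW.massc]; exact ENNReal.div_lt_top (by simp) (by simp)⟩
  set G : ℝ → ℝ := fun u => tl b u + tl c u with hGdef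
  have hG : Antitone G := (e5_tl_anti b).add (e5_tl_anti c)
  have hb0 : ∀ u, 0 ≤ tl b u := fun u => measureReal_nonneg
  have hc0 : ∀ u, 0 ≤ tl c u := fun u => measureReal_nonneg
  have hG0 : ∀ u, 0 ≤ G u := fun u => add_nonneg (hb0 u) (hc0 u)
  have hGK : ∀ u, G u ≤ b.real univ + c.real univ := fun u =>
    add_le_add (measureReal_mono (subset_univ _)) (measureReal_mono (subset_univ _))
  have hpt : ∀ u : ℝ, 0 < u → 1 / u * G u ^ 2 ≤ 8 * (1 / u * qf (tl a u) (tl b u) (tl c u)) := by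
    intro u hu
    have := mul_le_mul_of_nonneg_left (e5_qf (tl a u) (tl b u) (tl c u))
      (show (0 : ℝ) ≤ 1 / u by positivity)
    simp only [hGdef]
    linarith
  have hmeasG : Measurable G := hG.measurable
  have hint : IntegrableOn (fun u => 1 / u * G u ^ 2) (Ioi 1) := by
    refine Integrable.mono' (hW.tail.const_mul 8) (by
      exact ((measurable_const.div measurable_id).mul (hmeasG.pow_const 2)).aestronglyMeasurable) ?_
    refine (ae_restrict_iff' measurableSet_Ioi).2 (Eventually.of_forall fun u hu => ?_)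
    have hu1 : (1 : ℝ) < u := hu
    rw [Real.norm_eq_abs, abs_of_nonneg (by positivity)]
    exact hpt u (by linarith)
  have hkey : ∀ T, T₀ ≤ T → (∫ u in Ioi T, 1 / u * G u ^ 2) ≤
      (8 * C) * ((1 / T * ∫ u in Ioc 0 T, G u) ^ 2 + 1 / T) := by
    intro T hT
    have hT1 : 1 ≤ T := hT₀.trans hT
    obtain ⟨b', c', hadm, hle⟩ := htr T hT
    have h1 := hmin a b' c' hadm
    have h2 : (∫ u in Ioi T, 1 / u * qf (tl a u) (tl b u) (tl c u)) ≤
        C * ((1 / T * ∫ u in Ioc 0 T, (tl b u + tl c u)) ^ 2 + 1 / T) := by linarith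
    have hiT : IntegrableOn (fun u => 1 / u * qf (tl a u) (tl b u) (tl c u)) (Ioi T) :=
      hW.tail.mono_set (Ioi_subset_Ioi hT1)
    have h3 : (∫ u in Ioi T, 1 / u * G u ^ 2) ≤
        ∫ u in Ioi T, 8 * (1 / u * qf (tl a u) (tl b u) (tl c u)) := by
      refine setIntegral_mono_on (hint.mono_set (Ioi_subset_Ioi hT1)) (hiT.const_mul 8)
        measurableSet_Ioi fun u hu => ?_
      have hu1 : T < u := hu
      exact hpt u (by linarith)
    rw [integral_const_mul] at h3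
    refine h3.trans ?_
    rw [mul_assoc]
    exact mul_le_mul_of_nonneg_left h2 (by norm_num)
  have hdec := e_decay G hG hG0 _ hGK (8 * C) T₀ (by positivity) hT₀ hint hkey
  have hlog : ∀ μ : Measure ℝ, IsFiniteMeasure μ → μ (Iio 0) = 0 → (∀ u, 0 ≤ tl μ u) →
      (∀ u, tl μ u ≤ G u) → Integrable (fun x => Real.log (1 + |x|)) μ := by
    intro μ fμ h0 hn hle
    refine e_log μ h0 ?_
    refine Integrable.mono' hdec (by
      exact ((measurable_const.div measurable_id).mul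
        (e5_tl_anti μ).measurable).aestronglyMeasurable) ?_
    refine (ae_restrict_iff' measurableSet_Ioi).2 (Eventually.of_forall fun u hu => ?_)
    have hu1 : (1 : ℝ) < u := hu
    rw [Real.norm_eq_abs, abs_of_nonneg (mul_nonneg (by positivity) (hn u))]
    exact mul_le_mul_of_nonneg_left (hle u) (by positivity)
  have hlb := hlog b fb hW.suppb hb0 fun u => by simp only [hGdef]; linarith [hc0 u]
  have hlc := hlog c fc hW.suppc hc0 fun u => by simp only [hGdef]; linarith [hb0 u]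
  obtain ⟨h1, h2⟩ := WAdm.admJ hτ hV hW hlb hlc
  exact ⟨a, b, c, h1, fun a' b' c' h' => by rw [h2]; exact hmin a' b' c' h'⟩

theorem exists_min {α τ : ℝ} (hτ : 0 < τ) {V : ℝ → ℝ} (hV : Pot V)
    (hdbl : ∃ C : ℝ, ∀ s ∈ Icc (1 : ℝ) 2, ∀ x, |V (s * x)| ≤ C * (1 + |V x|)) :
    ∃ μ₁ μ₂ μ₃ : Measure ℝ, IsMinimiser α τ V μ₁ μ₂ μ₃ := by
  obtain ⟨a, b, c, hadm, hmin⟩ := exists_minJ (α := α) hτ hV hdbl
  obtain ⟨μ₁, μ₂, μ₃, h1, h2⟩ := J_to_adm hτ hV hadm
  refine ⟨μ₁, μ₂, μ₃, h1, fun ν₁ ν₂ ν₃ hν => ?_⟩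
  obtain ⟨e1, e2, e3⟩ := adm_to_J hτ hV hν
  have := hmin _ _ _ e1
  rw [h2]
  linarith

end

end Pool.Agent.MP_941b23_mp
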