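import Pool.Agent.MP_941b23_mp.Defs2
import Pool.Agent.MP_941b23_mp.P1a
import Pool.Agent.MP_941b23_mp.P1b

namespace Pool.Agent.MP_941b23_mp

open MeasureTheory Set Filter Topology
open scoped ENNReal NNReal Real

noncomputable section

/-! ### linearity -/

theorem e6_int4 {X : Type*} [MeasurableSpace X] (μ : Measure X) (f1 f2 f3 f4 : X → ℝ)
    (h1 : Integrable f1 μ) (h2 : Integrable f2 μ) (h3 : Integrable f3 μ) (h4 : Integrable f4 μ) :
    ∫ x, (f1 x - f2 x - f3 x + f4 x) ∂μ =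
      (∫ x, f1 x ∂μ) - (∫ x, f2 x ∂μ) - (∫ x, f3 x ∂μ) + ∫ x, f4 x ∂μ := by
  have e1 : ∫ x, (f1 x - f2 x - f3 x + f4 x) ∂μ = ∫ x, (f1 - f2 - f3 + f4) x ∂μ := rfl
  rw [e1, integral_add' ((h1.sub h2).sub h3) h4, integral_sub' (h1.sub h2) h3,
    integral_sub' h1 h2]

theorem e6_int5 {X : Type*} [MeasurableSpace X] (μ : Measure X) (f1 f2 f3 f4 f5 : X → ℝ)
    (h1 : Integrable f1 μ) (h2 : Integrable f2 μ) (h3 : Integrable f3 μ) (h4 : Integrable f4 μ)
    (h5 : Integrable f5 μ) :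
    ∫ x, (f1 x + f2 x + f3 x - f4 x - f5 x) ∂μ =
      (∫ x, f1 x ∂μ) + (∫ x, f2 x ∂μ) + (∫ x, f3 x ∂μ) - (∫ x, f4 x ∂μ) - ∫ x, f5 x ∂μ := by
  have e1 : ∫ x, (f1 x + f2 x + f3 x - f4 x - f5 x) ∂μ = ∫ x, (f1 + f2 + f3 - f4 - f5) x ∂μ := rfl
  rw [e1, integral_sub' (((h1.add h2).add h3).sub h4) h5, integral_sub' ((h1.add h2).add h3) h4,
    integral_add' (h1.add h2) h3, integral_add' h1 h2]

theorem e6_int3 {X : Type*} [MeasurableSpace X] (μ : Measure X) (f1 f2 f3 : X → ℝ)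
    (h1 : Integrable f1 μ) (h2 : Integrable f2 μ) (h3 : Integrable f3 μ) :
    ∫ x, (f1 x + f2 x + f3 x) ∂μ = (∫ x, f1 x ∂μ) + (∫ x, f2 x ∂μ) + (∫ x, f3 x ∂μ) := by
  have e1 : ∫ x, (f1 x + f2 x + f3 x) ∂μ = ∫ x, (f1 + f2 + f3) x ∂μ := rfl
  rw [e1, integral_add' (h1.add h2) h3, integral_add' h1 h2]

/-! ### the tent energies -/

/-- tent energy -/
def e6K (ε H : ℝ) (μ ν : Measure ℝ) : ℝ := ∫ p : ℝ × ℝ, kap ε H (p.1 - p.2) ∂(μ.prod ν)

/-- tent energy of differences -/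
def e6D (ε H : ℝ) (a a' b b' : Measure ℝ) : ℝ :=
  e6K ε H a b - e6K ε H a b' - e6K ε H a' b + e6K ε H a' b'

/-- the inner integrals -/
def e6X (a a' b b' : Measure ℝ) (s : ℝ) : ℝ :=
  ∫ z, (im a z s - im a' z s) * (im b z s - im b' z s)

theorem e6_kap_nonneg (ε H u : ℝ) (hε : 0 < ε) (hH : ε ≤ H) : 0 ≤ kap ε H u := by
  have hH0 : 0 < H := by linarith
  unfold kap
  split_ifs with h1 h2
  · have h3 : Real.log (ε / H) ≤ ε / H - 1 := Real.log_le_sub_one_of_pos (by positivity)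
    have h4 : Real.log (H / ε) = -Real.log (ε / H) := by
      rw [← Real.log_inv, inv_div]
    have h5 : |u| * (1 / ε - 1 / H) ≤ ε * (1 / ε - 1 / H) := by
      refine mul_le_mul_of_nonneg_right h1 ?_
      rw [sub_nonneg]
      exact one_div_le_one_div_of_le hε hH
    have h6 : ε * (1 / ε - 1 / H) = 1 - ε / H := by field_simp
    rw [h4]; linarith
  · have hu0 : 0 < |u| := lt_trans hε (not_le.1 h1)
    have h3 : Real.log (|u| / H) ≤ |u| / H - 1 := Real.log_le_sub_one_of_pos (by positivity)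
    have h4 : Real.log (H / |u|) = -Real.log (|u| / H) := by
      rw [← Real.log_inv, inv_div]
    rw [h4]; linarith
  · exact le_rfl

theorem e6_kap_le (ε H u : ℝ) (hε : 0 < ε) (hH : ε ≤ H) : kap ε H u ≤ Real.log (H / ε) := by
  have hH0 : 0 < H := by linarith
  have h0 : 0 ≤ Real.log (H / ε) := Real.log_nonneg (by rw [le_div_iff₀ hε]; linarith)
  unfold kap
  split_ifs with h1 h2
  · have h5 : 0 ≤ |u| * (1 / ε - 1 / H) := by
      refine mul_nonneg (abs_nonneg _) ?_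
      rw [sub_nonneg]
      exact one_div_le_one_div_of_le hε hH
    linarith
  · have hu0 : ε < |u| := not_le.1 h1
    have hu00 : 0 < |u| := hε.trans hu0
    have h3 : Real.log (H / |u|) ≤ Real.log (H / ε) := by
      refine Real.log_le_log (by positivity) ?_
      exact div_le_div_of_nonneg_left hH0.le hε hu0.le
    have h4 : |u| / H ≤ 1 := by rw [div_le_one hH0]; exact h2
    linarith
  · exact h0

theorem e6_kap_meas (ε H : ℝ) : Measurable (kap ε H) := by
  unfold kap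
  have ha : Measurable fun u : ℝ => |u| := continuous_abs.measurable
  refine Measurable.ite (measurableSet_le ha measurable_const) ?_
    (Measurable.ite (measurableSet_le ha measurable_const) ?_ measurable_const)
  · exact measurable_const.sub (ha.mul measurable_const)
  · exact ((Real.measurable_log.comp (measurable_const.div ha)).sub measurable_const).add
      (ha.div measurable_const)

theorem e6_kap_int (μ ν : Measure ℝ) [IsFiniteMeasure μ] [IsFiniteMeasure ν] (ε H : ℝ)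
    (hε : 0 < ε) (hH : ε ≤ H) :
    Integrable (fun p : ℝ × ℝ => kap ε H (p.1 - p.2)) (μ.prod ν) := by
  refine Integrable.mono' (integrable_const (Real.log (H / ε))) ?_
    (Eventually.of_forall fun p => ?_)
  · exact ((e6_kap_meas ε H).comp (measurable_fst.sub measurable_snd)).aestronglyMeasurable
  · rw [Real.norm_eq_abs, abs_of_nonneg (e6_kap_nonneg ε H _ hε hH)]
    exact e6_kap_le ε H _ hε hH

theorem e6_diag (μ ν : Measure ℝ) [IsFiniteMeasure μ] [IsFiniteMeasure ν]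
    (hν : ∀ x, ν {x} = 0) : ∀ᵐ z ∂(μ.prod ν), z.1 ≠ z.2 := by
  have hm : MeasurableSet {z : ℝ × ℝ | z.1 = z.2} := measurableSet_eq_fun measurable_fst measurable_snd
  have h0 : (μ.prod ν) {z : ℝ × ℝ | z.1 = z.2} = 0 := by
    rw [Measure.prod_apply hm]
    have : ∀ x : ℝ, ν (Prod.mk x ⁻¹' {z : ℝ × ℝ | z.1 = z.2}) = 0 := by
      intro x
      have h1 : Prod.mk x ⁻¹' {z : ℝ × ℝ | z.1 = z.2} = {x} := by
        ext y; simp [eq_comm]
      rw [h1, hν]
    simp only [this, lintegral_zero]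
  rw [ae_iff]
  simpa using h0

/-- convergence of the regularised energies -/
theorem e6_lim (μ ν : Measure ℝ) [IsFiniteMeasure μ] [IsFiniteMeasure ν] (hμ : FinEn μ)
    (hν : FinEn ν) : Tendsto (fun j : ℕ => e6K (1 / (j + 1)) (j + 1) μ ν -
      (Real.log (j + 1) - 1) * (μ.real univ * ν.real univ)) atTop (𝓝 (LL μ ν)) := by
  have hci := cross_integrable μ ν hμ hν
  have h1 : Tendsto (fun j : ℕ => ∫ p : ℝ × ℝ,
      (kap (1 / (j + 1)) (j + 1) (p.1 - p.2) - Real.log (j + 1) + 1) ∂(μ.prod ν)) atTop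
      (𝓝 (∫ p : ℝ × ℝ, -Real.log |p.1 - p.2| ∂(μ.prod ν))) := by
    refine tendsto_integral_of_dominated_convergence
      (fun p : ℝ × ℝ => abs (Real.log |p.1 - p.2|) + 1) ?_ (hci.abs.add (integrable_const _)) ?_ ?_
    · intro j
      exact ((((e6_kap_meas _ _).comp (measurable_fst.sub measurable_snd)).sub
        measurable_const).add measurable_const).aestronglyMeasurable
    · intro j
      filter_upwards [e6_diag μ ν hν.noAtom] with p hp
      have hj : (0 : ℝ) < 1 / ((j : ℝ) + 1) := by positivity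
      have hj0 : (0 : ℝ) ≤ j := Nat.cast_nonneg j
      have hj1 : 1 / ((j : ℝ) + 1) ≤ 1 := by
        rw [div_le_one (by positivity)]; linarith
      rw [Real.norm_eq_abs]
      exact kap_bound _ _ _ hj hj1 (by linarith) (sub_ne_zero.2 hp)
    · filter_upwards [e6_diag μ ν hν.noAtom] with p hp
      exact kap_tendsto _ (sub_ne_zero.2 hp)
  refine h1.congr fun j => ?_
  have hj : (0 : ℝ) < 1 / ((j : ℝ) + 1) := by positivity
  have hj0 : (0 : ℝ) ≤ j := Nat.cast_nonneg j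
  have hj1 : 1 / ((j : ℝ) + 1) ≤ 1 := by
    rw [div_le_one (by positivity)]; linarith
  have hint := e6_kap_int μ ν (1 / ((j : ℝ) + 1)) (j + 1) hj (by linarith)
  have h2 : (fun p : ℝ × ℝ => kap (1 / ((j : ℝ) + 1)) (j + 1) (p.1 - p.2) - Real.log (j + 1) + 1) =
      fun p : ℝ × ℝ => kap (1 / ((j : ℝ) + 1)) (j + 1) (p.1 - p.2) - (Real.log (j + 1) - 1) := by
    ext p; ring
  rw [h2, integral_sub hint (integrable_const _), integral_const, smul_eq_mul]
  have h3 : (μ.prod ν).real univ = μ.real univ * ν.real univ := by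
    rw [← univ_prod_univ, measureReal_prod_prod]
  rw [h3]
  unfold e6K
  ring

/-- convergence for differences of measures of equal mass -/
theorem e6_limD (a a' b b' : Measure ℝ) [IsFiniteMeasure a] [IsFiniteMeasure a']
    [IsFiniteMeasure b] [IsFiniteMeasure b'] (ha : FinEn a) (ha' : FinEn a') (hb : FinEn b)
    (hb' : FinEn b') (hma : a univ = a' univ) :
    Tendsto (fun j : ℕ => e6D (1 / (j + 1)) (j + 1) a a' b b') atTop (𝓝 (LD a a' b b')) := by
  have h1 := (((e6_lim a b ha hb).sub (e6_lim a b' ha hb')).sub (e6_lim a' b ha' hb)).add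
    (e6_lim a' b' ha' hb')
  refine h1.congr fun j => ?_
  have hm : a.real univ = a'.real univ := by
    unfold Measure.real; rw [hma]
  unfold e6D
  rw [hm]
  ring

/-- the formula for the inner integrals -/
theorem e6X_eq (a a' b b' : Measure ℝ) [IsFiniteMeasure a] [IsFiniteMeasure a']
    [IsFiniteMeasure b] [IsFiniteMeasure b'] (s : ℝ) (hs : 0 < s) :
    e6X a a' b b' s = (∫ z, im a z s * im b z s) - (∫ z, im a z s * im b' z s) -
      (∫ z, im a' z s * im b z s) + ∫ z, im a' z s * im b' z s := by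
  have h1 := (im_integrable a b 1 1 one_pos le_rfl).1 s hs
  have h2 := (im_integrable a b' 1 1 one_pos le_rfl).1 s hs
  have h3 := (im_integrable a' b 1 1 one_pos le_rfl).1 s hs
  have h4 := (im_integrable a' b' 1 1 one_pos le_rfl).1 s hs
  rw [← e6_int4 _ _ _ _ _ h1 h2 h3 h4]
  unfold e6X
  congr 1
  ext z
  ring

theorem e6_int (a a' b b' : Measure ℝ) [IsFiniteMeasure a] [IsFiniteMeasure a']
    [IsFiniteMeasure b] [IsFiniteMeasure b'] (s : ℝ) (hs : 0 < s) :
    Integrable fun z => (im a z s - im a' z s) * (im b z s - im b' z s) := by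
  have h1 := (im_integrable a b 1 1 one_pos le_rfl).1 s hs
  have h2 := (im_integrable a b' 1 1 one_pos le_rfl).1 s hs
  have h3 := (im_integrable a' b 1 1 one_pos le_rfl).1 s hs
  have h4 := (im_integrable a' b' 1 1 one_pos le_rfl).1 s hs
  refine (((h1.sub h2).sub h3).add h4).congr (Eventually.of_forall fun z => ?_)
  simp only [Pi.add_apply, Pi.sub_apply]
  ring

theorem e6D_eq (a a' b b' : Measure ℝ) [IsFiniteMeasure a] [IsFiniteMeasure a']
    [IsFiniteMeasure b] [IsFiniteMeasure b'] (ε H : ℝ) (hε : 0 < ε) (hH : ε ≤ H) :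
    IntegrableOn (fun s => 1 / s ^ 2 * e6X a a' b b' s) (Icc ε H) ∧
    e6D ε H a a' b b' = ∫ s in Icc ε H, 1 / s ^ 2 * e6X a a' b b' s := by
  have h1 := (im_integrable a b ε H hε hH).2
  have h2 := (im_integrable a b' ε H hε hH).2
  have h3 := (im_integrable a' b ε H hε hH).2
  have h4 := (im_integrable a' b' ε H hε hH).2
  have heq : ∀ s ∈ Icc ε H, 1 / s ^ 2 * e6X a a' b b' s =
      (((1 / s ^ 2 * ∫ z, im a z s * im b z s) - (1 / s ^ 2 * ∫ z, im a z s * im b' z s)) -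
        (1 / s ^ 2 * ∫ z, im a' z s * im b z s)) + (1 / s ^ 2 * ∫ z, im a' z s * im b' z s) := by
    intro s hs
    rw [e6X_eq a a' b b' s (lt_of_lt_of_le hε hs.1)]
    ring
  have hI := ((h1.sub h2).sub h3).add h4
  refine ⟨hI.congr_fun (fun s hs => (heq s hs).symm) measurableSet_Icc, ?_⟩
  rw [setIntegral_congr_fun measurableSet_Icc heq]
  have e1 : ∫ s in Icc ε H,
      ((((1 / s ^ 2 * ∫ z, im a z s * im b z s) - (1 / s ^ 2 * ∫ z, im a z s * im b' z s)) -
        (1 / s ^ 2 * ∫ z, im a' z s * im b z s)) + (1 / s ^ 2 * ∫ z, im a' z s * im b' z s)) =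
      (((∫ s in Icc ε H, 1 / s ^ 2 * ∫ z, im a z s * im b z s) -
        (∫ s in Icc ε H, 1 / s ^ 2 * ∫ z, im a z s * im b' z s)) -
        (∫ s in Icc ε H, 1 / s ^ 2 * ∫ z, im a' z s * im b z s)) +
        ∫ s in Icc ε H, 1 / s ^ 2 * ∫ z, im a' z s * im b' z s := by
    rw [← e6_int4 _ _ _ _ _ h1 h2 h3 h4]
  rw [e1, ← tent_identity a b ε H hε hH, ← tent_identity a b' ε H hε hH,
    ← tent_identity a' b ε H hε hH, ← tent_identity a' b' ε H hε hH]
  rfl

theorem e6X_self_nonneg (a a' : Measure ℝ) (s : ℝ) : 0 ≤ e6X a a' a a' s :=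
  integral_nonneg fun _ => mul_self_nonneg _

theorem e6_Phi (h : ℝ) (a a' : Measure ℝ) :
    Phi h a a' = ∫ s in Icc h (2 * h), 1 / s ^ 2 * e6X a a' a a' s := by
  unfold Phi e6X
  simp only [pow_two]

theorem e6_ev (h : ℝ) (hh : 0 < h) : ∀ᶠ j : ℕ in atTop,
    1 / ((j : ℝ) + 1) ≤ h ∧ 2 * h ≤ (j : ℝ) + 1 := by
  have h2 : ∀ᶠ j : ℕ in atTop, 1 / ((j : ℝ) + 1) < h :=
    (tendsto_one_div_add_atTop_nhds_zero_nat (𝕜 := ℝ)).eventually (gt_mem_nhds hh)
  have h3 : ∀ᶠ j : ℕ in atTop, 2 * h ≤ (j : ℝ) :=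
    tendsto_natCast_atTop_atTop.eventually (eventually_ge_atTop (2 * h))
  filter_upwards [h2, h3] with j hj2 hj3
  exact ⟨hj2.le, by linarith⟩

/-- [E6] -/
theorem quad_pos3 (h : ℝ) (hh : 0 < h) (a a' b b' c c' : Measure ℝ)
    [IsFiniteMeasure a] [IsFiniteMeasure a'] [IsFiniteMeasure b] [IsFiniteMeasure b']
    [IsFiniteMeasure c] [IsFiniteMeasure c']
    (ha : FinEn a) (ha' : FinEn a') (hb : FinEn b) (hb' : FinEn b') (hc : FinEn c)
    (hc' : FinEn c') (hma : a univ = a' univ) (hmb : b univ = b' univ) (hmc : c univ = c' univ) :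
    1 / 4 * (Phi h a a' + Phi h b b' + Phi h c c') ≤
      LD a a' a a' + LD b b' b b' + LD c c' c c' - LD a a' b b' - LD b b' c c' := by
  have hlim := ((((e6_limD a a' a a' ha ha' ha ha' hma).add
    (e6_limD b b' b b' hb hb' hb hb' hmb)).add (e6_limD c c' c c' hc hc' hc hc' hmc)).sub
    (e6_limD a a' b b' ha ha' hb hb' hma)).sub (e6_limD b b' c c' hb hb' hc hc' hmb)
  refine ge_of_tendsto hlim ?_
  filter_upwards [e6_ev h hh] with j hj
  have hj0 : (0 : ℝ) < 1 / ((j : ℝ) + 1) := by positivity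
  have hjH : 1 / ((j : ℝ) + 1) ≤ (j : ℝ) + 1 := by linarith
  obtain ⟨i1, e1⟩ := e6D_eq a a' a a' (1 / ((j : ℝ) + 1)) (j + 1) hj0 hjH
  obtain ⟨i2, e2⟩ := e6D_eq b b' b b' (1 / ((j : ℝ) + 1)) (j + 1) hj0 hjH
  obtain ⟨i3, e3⟩ := e6D_eq c c' c c' (1 / ((j : ℝ) + 1)) (j + 1) hj0 hjH
  obtain ⟨i4, e4⟩ := e6D_eq a a' b b' (1 / ((j : ℝ) + 1)) (j + 1) hj0 hjH
  obtain ⟨i5, e5⟩ := e6D_eq b b' c c' (1 / ((j : ℝ) + 1)) (j + 1) hj0 hjH
  rw [e1, e2, e3, e4, e5]
  set S : Set ℝ := Icc (1 / ((j : ℝ) + 1)) ((j : ℝ) + 1) with hS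
  set g : ℝ → ℝ := fun s => 1 / s ^ 2 * e6X a a' a a' s + 1 / s ^ 2 * e6X b b' b b' s +
    1 / s ^ 2 * e6X c c' c c' s - 1 / s ^ 2 * e6X a a' b b' s - 1 / s ^ 2 * e6X b b' c c' s with hg
  have hgi : IntegrableOn g S := (((i1.add i2).add i3).sub i4).sub i5
  have hge : (∫ s in S, 1 / s ^ 2 * e6X a a' a a' s) + (∫ s in S, 1 / s ^ 2 * e6X b b' b b' s) +
      (∫ s in S, 1 / s ^ 2 * e6X c c' c c' s) - (∫ s in S, 1 / s ^ 2 * e6X a a' b b' s) -
      (∫ s in S, 1 / s ^ 2 * e6X b b' c c' s) = ∫ s in S, g s := by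
    rw [← e6_int5 _ _ _ _ _ _ i1 i2 i3 i4 i5]
  rw [hge]
  set k : ℝ → ℝ := fun s => 1 / 4 * (1 / s ^ 2 * e6X a a' a a' s + 1 / s ^ 2 * e6X b b' b b' s +
    1 / s ^ 2 * e6X c c' c c' s) with hk
  have hki : IntegrableOn k S := ((i1.add i2).add i3).const_mul _
  have hkey : ∀ s ∈ S, k s ≤ g s := by
    intro s hs
    have hs0 : 0 < s := lt_of_lt_of_le hj0 hs.1
    have j1 := e6_int a a' a a' s hs0
    have j2 := e6_int b b' b b' s hs0
    have j3 := e6_int c c' c c' s hs0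
    have j4 := e6_int a a' b b' s hs0
    have j5 := e6_int b b' c c' s hs0
    have hX : 1 / 4 * (e6X a a' a a' s + e6X b b' b b' s + e6X c c' c c' s) ≤
        e6X a a' a a' s + e6X b b' b b' s +
        e6X c c' c c' s - e6X a a' b b' s - e6X b b' c c' s := by
      unfold e6X
      rw [← e6_int5 _ _ _ _ _ _ j1 j2 j3 j4 j5, ← e6_int3 _ _ _ _ j1 j2 j3, ← integral_const_mul]
      refine integral_mono (((j1.add j2).add j3).const_mul _)
        ((((j1.add j2).add j3).sub j4).sub j5) fun z => ?_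
      show 1 / 4 * ((im a z s - im a' z s) * (im a z s - im a' z s) +
          (im b z s - im b' z s) * (im b z s - im b' z s) +
          (im c z s - im c' z s) * (im c z s - im c' z s)) ≤
        (im a z s - im a' z s) * (im a z s - im a' z s) +
        (im b z s - im b' z s) * (im b z s - im b' z s) +
        (im c z s - im c' z s) * (im c z s - im c' z s) -
        (im a z s - im a' z s) * (im b z s - im b' z s) -
        (im b z s - im b' z s) * (im c z s - im c' z s)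
      generalize im a z s - im a' z s = x
      generalize im b z s - im b' z s = y
      generalize im c z s - im c' z s = w
      nlinarith [sq_nonneg (3 * x - 2 * y), sq_nonneg (3 * w - 2 * y), sq_nonneg y]
    have h2 : 0 ≤ 1 / s ^ 2 := by positivity
    have h3 := mul_le_mul_of_nonneg_left hX h2
    show 1 / 4 * (1 / s ^ 2 * e6X a a' a a' s + 1 / s ^ 2 * e6X b b' b b' s +
      1 / s ^ 2 * e6X c c' c c' s) ≤
      1 / s ^ 2 * e6X a a' a a' s + 1 / s ^ 2 * e6X b b' b b' s +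
      1 / s ^ 2 * e6X c c' c c' s - 1 / s ^ 2 * e6X a a' b b' s - 1 / s ^ 2 * e6X b b' c c' s
    linarith
  have hkn : ∀ s, 0 ≤ k s := by
    intro s
    have h1 := e6X_self_nonneg a a' s
    have h2 := e6X_self_nonneg b b' s
    have h3 := e6X_self_nonneg c c' s
    show 0 ≤ 1 / 4 * (1 / s ^ 2 * e6X a a' a a' s + 1 / s ^ 2 * e6X b b' b b' s +
      1 / s ^ 2 * e6X c c' c c' s)
    positivity
  have hgn : ∀ s ∈ S, 0 ≤ g s := fun s hs => (hkn s).trans (hkey s hs)
  have hsub : Icc h (2 * h) ⊆ S := Icc_subset_Icc hj.1 hj.2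
  have hPhi : 1 / 4 * (Phi h a a' + Phi h b b' + Phi h c c') = ∫ s in Icc h (2 * h), k s := by
    rw [e6_Phi, e6_Phi, e6_Phi, ← e6_int3 _ _ _ _ (i1.mono_set hsub) (i2.mono_set hsub)
      (i3.mono_set hsub), ← integral_const_mul]
  rw [hPhi]
  calc ∫ s in Icc h (2 * h), k s
      ≤ ∫ s in Icc h (2 * h), g s := by
        refine setIntegral_mono_on (hki.mono_set hsub) (hgi.mono_set hsub)
          measurableSet_Icc fun s hs => hkey s (hsub hs)
    _ ≤ ∫ s in S, g s := by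
        refine setIntegral_mono_set hgi ?_ hsub.eventuallyLE
        exact (ae_restrict_mem measurableSet_Icc).mono fun s hs => hgn s hs

end

end Pool.Agent.MP_941b23_mp
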