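import Pool.Agent.MP_941b23_mp.Defs2
import Pool.Agent.MP_941b23_mp.P3a

/-!
# Part E, row E7 : exact relation between `E` and `J`
-/

namespace Pool.Agent.MP_941b23_mp

open MeasureTheory Set Filter Topology
open scoped ENNReal NNReal Real

noncomputable section

/-- [E7] exact relation between `E` and `J` -/
theorem adm_to_J3 {α τ : ℝ} (hτ : 0 < τ) {V : ℝ → ℝ} (hV : Pot V) {μ₁ μ₂ μ₃ : Measure ℝ}
    (h : Adm α τ V μ₁ μ₂ μ₃) :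
    EE α τ V μ₁ μ₂ μ₃ = 2 * JJ α τ V ((1 / 2 : ℝ≥0∞) • μ₁.map (fun x => x ^ 2))
      ((1 / 2 : ℝ≥0∞) • μ₂.map (fun x => x ^ 2)) ((1 / 2 : ℝ≥0∞) • μ₃.map (fun x => x ^ 2)) +
      1 / 2 * ((LL μ₁ μ₁ - LL μ₁ (μ₁.map (fun x => -x))) +
        (LL μ₂ μ₂ - LL μ₂ (μ₂.map (fun x => -x))) +
        (LL μ₃ μ₃ - LL μ₃ (μ₃.map (fun x => -x)))) := by
  have f1 : IsFiniteMeasure μ₁ := ⟨by rw [h.mass₁]; exact ENNReal.one_lt_top⟩
  have f2 : IsFiniteMeasure μ₂ := ⟨by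
    rw [h.mass₂]; exact ENNReal.div_lt_top (by norm_num) (by norm_num)⟩
  have f3 : IsFiniteMeasure μ₃ := ⟨by
    rw [h.mass₃]; exact ENNReal.div_lt_top (by norm_num) (by norm_num)⟩
  have e1 := P3a_LL_sq μ₁ h.en₁
  have e2 := P3a_LL_sq μ₂ h.en₂
  have e3 := P3a_LL_sq μ₃ h.en₃
  have hl := P3a_log_sigma hτ μ₂ h.constr
  have i12 := P3a_log_sq_integrable μ₁ μ₂ h.en₁.logMoment h.en₂.logMoment (h.en₂.noAtom 0) hl
  have i32 := P3a_log_sq_integrable μ₃ μ₂ h.en₃.logMoment h.en₂.logMoment (h.en₂.noAtom 0) hl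
  have x12 := P3a_logX μ₁ μ₂ i12
  have x32 := P3a_logX μ₃ μ₂ i32
  have m12 := P3a_MM μ₁ μ₂
  have m23 := P3a_MM μ₂ μ₃
  rw [P3a_log_sq_int_swap μ₃ μ₂] at m23
  have u1 : ∫ x, U1 α τ V x ∂((1 / 2 : ℝ≥0∞) • μ₁.map (fun x => x ^ 2)) =
      1 / 2 * ∫ x, (V x - gg α τ x) ∂μ₁ := by
    rw [integral_smul_measure, integral_map P3a_measurable_sq.aemeasurable
      (P3a_U1_continuous hτ hV).aestronglyMeasurable, P3a_half_toReal, smul_eq_mul]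
    simp only [P3a_U1_sq hV]
  have u3 : ∫ x, U3 α τ x ∂((1 / 2 : ℝ≥0∞) • μ₃.map (fun x => x ^ 2)) =
      1 / 2 * ∫ x, V3 α τ x ∂μ₃ := by
    rw [integral_smul_measure, integral_map P3a_measurable_sq.aemeasurable
      (P3a_U3_continuous hτ).aestronglyMeasurable, P3a_half_toReal, smul_eq_mul]
    simp only [P3a_U3_sq]
  unfold EE JJ
  rw [P3a_logI μ₁ h.en₁, P3a_logI μ₂ h.en₂, P3a_logI μ₃ h.en₃, e1, e2, e3, x12, x32, m12, m23,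
    u1, u3]
  ring

end

end Pool.Agent.MP_941b23_mp
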