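import Pool.Agent.MP_941b23_mp.Defs2
import Pool.Agent.MP_941b23_mp.P1a

/-!
# [QM-P2] : test functions: `avg_duality`, `avg_continuous`, `avg_close`.

The definitions `Phi` and `avg` are copied verbatim from `SpecP`.
-/

namespace Pool.Agent.MP_941b23_mp

open MeasureTheory Set Filter Topology
open scoped ENNReal NNReal Real

noncomputable section

/-! ### auxiliary lemmas -/

/-- Cauchy-Schwarz -/
theorem p2_cs {X : Type*} [MeasurableSpace X] (μ : Measure X) (f g : X → ℝ)
    (hf : Integrable (fun x => f x ^ 2) μ) (hg : Integrable (fun x => g x ^ 2) μ)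
    (hfg : Integrable (fun x => f x * g x) μ) :
    (∫ x, f x * g x ∂μ) ^ 2 ≤ (∫ x, f x ^ 2 ∂μ) * ∫ x, g x ^ 2 ∂μ := by
  have h : ∀ t : ℝ, 0 ≤ (∫ x, f x ^ 2 ∂μ) * (t * t) + (2 * ∫ x, f x * g x ∂μ) * t +
      ∫ x, g x ^ 2 ∂μ := by
    intro t
    have h1 : ∫ x, (t * f x + g x) ^ 2 ∂μ = (∫ x, f x ^ 2 ∂μ) * (t * t) +
        (2 * ∫ x, f x * g x ∂μ) * t + ∫ x, g x ^ 2 ∂μ := by
      have e1 : (fun x => (t * f x + g x) ^ 2) =
          fun x => (t * t) * f x ^ 2 + (2 * t) * (f x * g x) + g x ^ 2 := by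
        ext x; ring
      rw [e1]
      have e2 := integral_add ((hf.const_mul (t * t)).add (hfg.const_mul (2 * t))) hg
      have e3 := integral_add (hf.const_mul (t * t)) (hfg.const_mul (2 * t))
      simp only [Pi.add_apply] at e2
      rw [e2, e3, integral_const_mul, integral_const_mul]
      ring
    rw [← h1]
    exact integral_nonneg fun x => sq_nonneg _
  have := discrim_le_zero h
  unfold discrim at this
  nlinarith

/-- primitive -/
def p2_Psi (ψ : ℝ → ℝ) (x : ℝ) : ℝ := ∫ t in (0:ℝ)..x, ψ t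

theorem p2_Psi_cont (ψ : ℝ → ℝ) (hψ : Continuous ψ) : Continuous (p2_Psi ψ) := by
  unfold p2_Psi
  exact intervalIntegral.continuous_primitive (fun a b => hψ.intervalIntegrable a b) 0

theorem p2_W (ψ : ℝ → ℝ) (hψ : Continuous ψ) (x s : ℝ) (hs : 0 ≤ s) :
    ∫ y in Icc (x - s) x, ψ y = p2_Psi ψ x - p2_Psi ψ (x - s) := by
  rw [integral_Icc_eq_integral_Ioc, ← intervalIntegral.integral_of_le (by linarith)]
  unfold p2_Psi
  have := intervalIntegral.integral_add_adjacent_intervals (a := 0) (b := x - s) (c := x)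
    (f := ψ) (μ := volume) (hψ.intervalIntegrable _ _) (hψ.intervalIntegrable _ _)
  linarith

theorem p2_Psi_bdd (ψ : ℝ → ℝ) (hψ : Continuous ψ) (hc : HasCompactSupport ψ) :
    ∃ M : ℝ, 0 ≤ M ∧ ∀ x, |p2_Psi ψ x| ≤ M := by
  have hi : Integrable ψ := hψ.integrable_of_hasCompactSupport hc
  refine ⟨∫ x, |ψ x|, integral_nonneg fun x => abs_nonneg _, fun x => ?_⟩
  unfold p2_Psi
  rw [← Real.norm_eq_abs]
  refine (intervalIntegral.norm_integral_le_integral_norm_uIoc).trans ?_
  exact setIntegral_le_integral hi.norm (Eventually.of_forall fun x => norm_nonneg _)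

theorem p2_avg_eq (h : ℝ) (hh : 0 < h) (ψ : ℝ → ℝ) (hψ : Continuous ψ) (x : ℝ) :
    avg h ψ x = 1 / h * ∫ s in Icc h (2 * h), 1 / s * (p2_Psi ψ x - p2_Psi ψ (x - s)) := by
  unfold avg
  congr 1
  refine setIntegral_congr_fun measurableSet_Icc fun s hs => ?_
  have hs0 : 0 ≤ s := hh.le.trans hs.1
  simp only [p2_W ψ hψ x s hs0]

/-- the interchange -/
theorem p2_core (ν : Measure ℝ) [IsFiniteMeasure ν] (ψ : ℝ → ℝ) (hψ : Continuous ψ)
    (hc : HasCompactSupport ψ) (s : ℝ) (hs : 0 ≤ s) :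
    Integrable (fun y => ψ y * im ν y s) ∧
    ∫ x, (p2_Psi ψ x - p2_Psi ψ (x - s)) ∂ν = ∫ y, ψ y * im ν y s := by
  have hi : Integrable ψ := hψ.integrable_of_hasCompactSupport hc
  set E : Set (ℝ × ℝ) := {q | q.2 < q.1 ∧ q.1 ≤ q.2 + s} with hEdef
  have hE : MeasurableSet E := (measurableSet_lt measurable_snd measurable_fst).inter
    (measurableSet_le measurable_fst (measurable_snd.add_const s))
  have hint : Integrable (E.indicator fun q : ℝ × ℝ => ψ q.2) (ν.prod volume) :=
    (hi.comp_snd ν).indicator hE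
  have hswap := integral_integral_swap (f := fun x y => E.indicator (fun q : ℝ × ℝ => ψ q.2) (x, y))
    (μ := ν) (ν := volume) hint
  have e1 : ∀ x, ∫ y, E.indicator (fun q : ℝ × ℝ => ψ q.2) (x, y) =
      p2_Psi ψ x - p2_Psi ψ (x - s) := by
    intro x
    rw [← p2_W ψ hψ x s hs]
    have : (fun y => E.indicator (fun q : ℝ × ℝ => ψ q.2) (x, y)) = (Ico (x - s) x).indicator ψ := by
      ext y
      by_cases hy : y ∈ Ico (x - s) x
      · rw [indicator_of_mem hy, indicator_of_mem]
        rw [mem_Ico] at hy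
        simp only [hEdef, mem_ofPred_eq]
        exact ⟨hy.2, by linarith [hy.1]⟩
      · rw [indicator_of_notMem hy, indicator_of_notMem]
        rw [mem_Ico] at hy
        simp only [hEdef, mem_ofPred_eq]
        rintro ⟨h1, h2⟩
        exact hy ⟨by linarith, h1⟩
    rw [this, integral_indicator measurableSet_Ico, integral_Ico_eq_integral_Ioo,
      integral_Icc_eq_integral_Ioo]
  have e2 : ∀ y, ∫ x, E.indicator (fun q : ℝ × ℝ => ψ q.2) (x, y) ∂ν = ψ y * im ν y s := by
    intro y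
    have : (fun x => E.indicator (fun q : ℝ × ℝ => ψ q.2) (x, y)) =
        (Ioc y (y + s)).indicator fun _ => ψ y := by
      ext x
      by_cases hx : x ∈ Ioc y (y + s)
      · rw [indicator_of_mem hx, indicator_of_mem]
        exact hx
      · rw [indicator_of_notMem hx, indicator_of_notMem]
        exact hx
    rw [this, integral_indicator_const _ measurableSet_Ioc, smul_eq_mul, mul_comm]
    rfl
  constructor
  · have := hint.integral_prod_right
    refine this.congr (Eventually.of_forall fun y => ?_)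
    exact e2 y
  · simp_rw [e1, e2] at hswap
    exact hswap

theorem p2_avg_int (h : ℝ) (hh : 0 < h) (ψ : ℝ → ℝ) (hψ : Continuous ψ)
    (hc : HasCompactSupport ψ) (ν : Measure ℝ) [IsFiniteMeasure ν] :
    IntegrableOn (fun s => 1 / s * ∫ y, ψ y * im ν y s) (Icc h (2 * h)) ∧
    ∫ x, avg h ψ x ∂ν = 1 / h * ∫ s in Icc h (2 * h), 1 / s * ∫ y, ψ y * im ν y s := by
  obtain ⟨M, hM0, hM⟩ := p2_Psi_bdd ψ hψ hc
  have hP := p2_Psi_cont ψ hψ
  have hint : Integrable (fun q : ℝ × ℝ => 1 / q.2 * (p2_Psi ψ q.1 - p2_Psi ψ (q.1 - q.2)))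
      (ν.prod (volume.restrict (Icc h (2 * h)))) := by
    have hm : Measurable fun q : ℝ × ℝ => 1 / q.2 * (p2_Psi ψ q.1 - p2_Psi ψ (q.1 - q.2)) := by
      have h1 : Measurable fun q : ℝ × ℝ => 1 / q.2 := measurable_snd.const_div 1
      have h2 : Continuous fun q : ℝ × ℝ => p2_Psi ψ q.1 - p2_Psi ψ (q.1 - q.2) := by fun_prop
      exact h1.mul h2.measurable
    have hae : ∀ᵐ q : ℝ × ℝ ∂(ν.prod (volume.restrict (Icc h (2 * h)))),
        q.2 ∈ Icc h (2 * h) := by
      have h := ae_restrict_mem (μ := (volume : Measure ℝ)) (measurableSet_Icc (a := h)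
        (b := 2 * h))
      exact (Measure.quasiMeasurePreserving_snd (μ := ν)
        (ν := volume.restrict (Icc _ _))).ae h
    refine Integrable.mono' (integrable_const (1 / h * (2 * M))) hm.aestronglyMeasurable ?_
    filter_upwards [hae] with q hq
    have hq0 : 0 < q.2 := hh.trans_le hq.1
    rw [norm_mul, Real.norm_of_nonneg (by positivity : 0 ≤ 1 / q.2)]
    refine mul_le_mul (one_div_le_one_div_of_le hh hq.1) ?_ (norm_nonneg _) (by positivity)
    rw [Real.norm_eq_abs]
    have := abs_sub (p2_Psi ψ q.1) (p2_Psi ψ (q.1 - q.2))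
    linarith [hM q.1, hM (q.1 - q.2)]
  have hswap := integral_integral_swap (f := fun x s => 1 / s * (p2_Psi ψ x - p2_Psi ψ (x - s)))
    (μ := ν) (ν := volume.restrict (Icc h (2 * h))) hint
  have e0 : (fun s : ℝ => 1 / s * ∫ y, ψ y * im ν y s) =ᵐ[volume.restrict (Icc h (2 * h))]
      fun s => ∫ x, 1 / s * (p2_Psi ψ x - p2_Psi ψ (x - s)) ∂ν := by
    filter_upwards [ae_restrict_mem measurableSet_Icc] with s hs
    rw [integral_const_mul, (p2_core ν ψ hψ hc s (hh.le.trans hs.1)).2]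
  constructor
  · refine Integrable.congr ?_ e0.symm
    exact hint.integral_prod_right
  · have e1 : ∀ x, avg h ψ x = 1 / h * ∫ s in Icc h (2 * h),
        1 / s * (p2_Psi ψ x - p2_Psi ψ (x - s)) := p2_avg_eq h hh ψ hψ
    simp_rw [e1]
    rw [integral_const_mul, hswap, integral_congr_ae e0]

theorem p2_diff_int (a a' : Measure ℝ) [IsFiniteMeasure a] [IsFiniteMeasure a'] (h : ℝ)
    (hh : 0 < h) :
    (∀ s : ℝ, 0 < s → Integrable fun z => (im a z s - im a' z s) ^ 2) ∧
    IntegrableOn (fun s => 1 / s ^ 2 * ∫ z, (im a z s - im a' z s) ^ 2) (Icc h (2 * h)) := by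
  have h1 := im_integrable a a h (2 * h) hh (by linarith)
  have h2 := im_integrable a a' h (2 * h) hh (by linarith)
  have h3 := im_integrable a' a' h (2 * h) hh (by linarith)
  have e : ∀ s : ℝ, (fun z => (im a z s - im a' z s) ^ 2) = fun z =>
      im a z s * im a z s - 2 * (im a z s * im a' z s) + im a' z s * im a' z s := by
    intro s; ext z; ring
  refine ⟨fun s hs => ?_, ?_⟩
  · rw [e]
    exact ((h1.1 s hs).sub ((h2.1 s hs).const_mul 2)).add (h3.1 s hs)
  · have e2 : (fun s => 1 / s ^ 2 * ∫ z, (im a z s - im a' z s) ^ 2)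
        =ᵐ[volume.restrict (Icc h (2 * h))] fun s =>
        1 / s ^ 2 * (∫ z, im a z s * im a z s) - 2 * (1 / s ^ 2 * ∫ z, im a z s * im a' z s) +
          1 / s ^ 2 * ∫ z, im a' z s * im a' z s := by
      filter_upwards [ae_restrict_mem measurableSet_Icc] with s hs
      have hs0 : 0 < s := hh.trans_le hs.1
      have f1 := integral_add ((h1.1 s hs0).sub ((h2.1 s hs0).const_mul 2)) (h3.1 s hs0)
      have f2 := integral_sub (h1.1 s hs0) ((h2.1 s hs0).const_mul 2)
      simp only [Pi.sub_apply] at f1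
      rw [e, f1, f2, integral_const_mul]
      ring
    refine Integrable.congr ?_ e2.symm
    exact (h1.2.sub (h2.2.const_mul 2)).add h3.2

theorem avg_duality (h : ℝ) (hh : 0 < h) (ψ : ℝ → ℝ) (hψ : Continuous ψ)
    (hc : HasCompactSupport ψ) : ∃ C : ℝ, 0 < C ∧ ∀ (a a' : Measure ℝ) [IsFiniteMeasure a]
    [IsFiniteMeasure a'], (∫ x, avg h ψ x ∂a - ∫ x, avg h ψ x ∂a') ^ 2 ≤ C * Phi h a a' := by
  have hψ2 : Integrable fun y => ψ y ^ 2 := by
    refine (hψ.pow 2).integrable_of_hasCompactSupport ?_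
    refine hc.mono' fun x hx => ?_
    refine subset_tsupport _ ?_
    intro h0
    apply hx
    simp [h0]
  set Q : ℝ := ∫ y, ψ y ^ 2 with hQ
  have hQ0 : 0 ≤ Q := integral_nonneg fun y => sq_nonneg _
  refine ⟨Q / h + 1, by positivity, ?_⟩
  intro a a' _ _
  have hd := p2_diff_int a a' h hh
  have ha := p2_avg_int h hh ψ hψ hc a
  have ha' := p2_avg_int h hh ψ hψ hc a'
  set D : ℝ → ℝ := fun s => ∫ y, ψ y * (im a y s - im a' y s) with hD
  set E : ℝ → ℝ := fun s => ∫ y, (im a y s - im a' y s) ^ 2 with hE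
  have hDeq : ∀ s : ℝ, 0 < s → D s = (∫ y, ψ y * im a y s) - ∫ y, ψ y * im a' y s := by
    intro s hs
    rw [← integral_sub (p2_core a ψ hψ hc s hs.le).1 (p2_core a' ψ hψ hc s hs.le).1]
    refine integral_congr_ae (Eventually.of_forall fun y => ?_)
    simp only [mul_sub]
  have hDE : ∀ s : ℝ, 0 < s → D s ^ 2 ≤ Q * E s := by
    intro s hs
    refine p2_cs volume ψ (fun y => im a y s - im a' y s) hψ2 (hd.1 s hs) ?_
    have := (p2_core a ψ hψ hc s hs.le).1.sub (p2_core a' ψ hψ hc s hs.le).1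
    refine this.congr (Eventually.of_forall fun y => ?_)
    simp only [Pi.sub_apply]
    ring
  have hDint : IntegrableOn (fun s => 1 / s * D s) (Icc h (2 * h)) := by
    refine (ha.1.sub ha'.1).congr ?_
    filter_upwards [ae_restrict_mem measurableSet_Icc] with s hs
    simp only [Pi.sub_apply]
    rw [hDeq s (hh.trans_le hs.1)]
    ring
  have hDsq : IntegrableOn (fun s => (1 / s * D s) ^ 2) (Icc h (2 * h)) := by
    refine Integrable.mono' (hd.2.const_mul Q) (hDint.aestronglyMeasurable.pow 2) ?_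
    filter_upwards [ae_restrict_mem measurableSet_Icc] with s hs
    have hs0 : 0 < s := hh.trans_le hs.1
    rw [Real.norm_of_nonneg (sq_nonneg _), mul_pow]
    calc (1 / s) ^ 2 * D s ^ 2 ≤ (1 / s) ^ 2 * (Q * E s) :=
          mul_le_mul_of_nonneg_left (hDE s hs0) (sq_nonneg _)
      _ = Q * (1 / s ^ 2 * E s) := by ring
  have hdiff : ∫ x, avg h ψ x ∂a - ∫ x, avg h ψ x ∂a' =
      1 / h * ∫ s in Icc h (2 * h), 1 / s * D s := by
    rw [ha.2, ha'.2, ← mul_sub, ← integral_sub ha.1 ha'.1]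
    congr 1
    refine setIntegral_congr_fun measurableSet_Icc fun s hs => ?_
    show 1 / s * (∫ y, ψ y * im a y s) - 1 / s * (∫ y, ψ y * im a' y s) = 1 / s * D s
    rw [hDeq s (hh.trans_le hs.1)]
    ring
  have hone : IntegrableOn (fun _ : ℝ => (1:ℝ) ^ 2) (Icc h (2 * h)) := by
    simp
  have hcs := p2_cs (volume.restrict (Icc h (2 * h))) (fun _ => (1:ℝ)) (fun s => 1 / s * D s)
    hone hDsq (by simp only [one_mul]; exact hDint)
  have hvol : ∫ _ in Icc h (2 * h), (1:ℝ) ^ 2 = h := by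
    simp only [one_pow, integral_const, smul_eq_mul, mul_one, Measure.real,
      Measure.restrict_apply_univ, Real.volume_Icc]
    rw [show 2 * h - h = h by ring, ENNReal.toReal_ofReal hh.le]
  rw [hvol] at hcs
  simp only [one_mul] at hcs
  have hle : ∫ s in Icc h (2 * h), (1 / s * D s) ^ 2 ≤ Q * Phi h a a' := by
    unfold Phi
    rw [← integral_const_mul]
    refine setIntegral_mono_on hDsq (hd.2.const_mul Q) measurableSet_Icc fun s hs => ?_
    have hs0 : 0 < s := hh.trans_le hs.1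
    rw [mul_pow]
    calc (1 / s) ^ 2 * D s ^ 2 ≤ (1 / s) ^ 2 * (Q * E s) :=
          mul_le_mul_of_nonneg_left (hDE s hs0) (sq_nonneg _)
      _ = Q * (1 / s ^ 2 * E s) := by ring
  have hPhi : 0 ≤ Phi h a a' := by
    unfold Phi
    refine setIntegral_nonneg measurableSet_Icc fun s _ => ?_
    exact mul_nonneg (by positivity) (integral_nonneg fun z => sq_nonneg _)
  rw [hdiff, mul_pow]
  calc (1 / h) ^ 2 * (∫ s in Icc h (2 * h), 1 / s * D s) ^ 2
      ≤ (1 / h) ^ 2 * (h * (Q * Phi h a a')) := by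
        refine mul_le_mul_of_nonneg_left (hcs.trans ?_) (sq_nonneg _)
        exact mul_le_mul_of_nonneg_left hle hh.le
    _ = Q / h * Phi h a a' := by field_simp
    _ ≤ (Q / h + 1) * Phi h a a' := by nlinarith

theorem avg_continuous (h : ℝ) (hh : 0 < h) (ψ : ℝ → ℝ) (hψ : Continuous ψ)
    (hc : HasCompactSupport ψ) : Continuous (avg h ψ) ∧ ∃ C : ℝ, ∀ x, |avg h ψ x| ≤ C := by
  obtain ⟨M, hM0, hM⟩ := p2_Psi_bdd ψ hψ hc
  have hP := p2_Psi_cont ψ hψ
  have hb : ∀ x s : ℝ, s ∈ Icc h (2 * h) →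
      ‖1 / s * (p2_Psi ψ x - p2_Psi ψ (x - s))‖ ≤ 1 / h * (2 * M) := by
    intro x s hs
    have hs0 : 0 < s := hh.trans_le hs.1
    rw [norm_mul, Real.norm_of_nonneg (by positivity : 0 ≤ 1 / s)]
    refine mul_le_mul (one_div_le_one_div_of_le hh hs.1) ?_ (norm_nonneg _) (by positivity)
    rw [Real.norm_eq_abs]
    have := abs_sub (p2_Psi ψ x) (p2_Psi ψ (x - s))
    linarith [hM x, hM (x - s)]
  have heq : avg h ψ = fun x => 1 / h * ∫ s in Icc h (2 * h),
      1 / s * (p2_Psi ψ x - p2_Psi ψ (x - s)) := funext (p2_avg_eq h hh ψ hψ)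
  constructor
  · rw [heq]
    refine continuous_const.mul ?_
    refine continuous_of_dominated (bound := fun _ => 1 / h * (2 * M)) (fun x => ?_) (fun x => ?_)
      ?_ ?_
    · have h1 : Measurable fun s : ℝ => 1 / s := measurable_id.const_div 1
      have h2 : Continuous fun s : ℝ => p2_Psi ψ x - p2_Psi ψ (x - s) := by fun_prop
      exact (h1.mul h2.measurable).aestronglyMeasurable
    · filter_upwards [ae_restrict_mem measurableSet_Icc] with s hs using hb x s hs
    · exact integrable_const _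
    · exact Eventually.of_forall fun s => by fun_prop
  · refine ⟨1 / h * (1 / h * (2 * M) * h), fun x => ?_⟩
    rw [heq]
    simp only
    rw [abs_mul, abs_of_pos (by positivity : 0 < 1 / h)]
    refine mul_le_mul_of_nonneg_left ?_ (by positivity)
    have := norm_setIntegral_le_of_norm_le_const (μ := volume) (s := Icc h (2 * h))
      (f := fun s => 1 / s * (p2_Psi ψ x - p2_Psi ψ (x - s))) (C := 1 / h * (2 * M))
      (by rw [Real.volume_Icc]; exact ENNReal.ofReal_lt_top) (fun s hs => hb x s hs)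
    rw [Real.norm_eq_abs] at this
    refine this.trans (le_of_eq ?_)
    rw [Measure.real, Real.volume_Icc, show 2 * h - h = h by ring, ENNReal.toReal_ofReal hh.le]

theorem avg_close (ψ : ℝ → ℝ) (hψ : Continuous ψ) (hc : HasCompactSupport ψ) (δ : ℝ)
    (hδ : 0 < δ) : ∃ h : ℝ, 0 < h ∧ ∀ x, |avg h ψ x - ψ x| ≤ δ := by
  have hu : UniformContinuous ψ := by
    refine hψ.uniformContinuous_of_tendsto_cocompact (x := (0:ℝ)) ?_
    exact hc.is_zero_at_infty
  rw [Metric.uniformContinuous_iff] at hu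
  obtain ⟨η, hη, hη2⟩ := hu δ hδ
  refine ⟨η / 4, by positivity, fun x => ?_⟩
  set h := η / 4 with hh'
  have hh : 0 < h := by positivity
  have hP := p2_Psi_cont ψ hψ
  have hm : ∀ s ∈ Icc h (2 * h), |1 / s * (p2_Psi ψ x - p2_Psi ψ (x - s)) - ψ x| ≤ δ := by
    intro s hs
    have hs0 : 0 < s := hh.trans_le hs.1
    have h1 : ∫ y in Icc (x - s) x, (ψ y - ψ x) = (p2_Psi ψ x - p2_Psi ψ (x - s)) - s * ψ x := by
      rw [integral_sub (hψ.integrableOn_Icc) (integrableOn_const (by
        rw [Real.volume_Icc]; exact ENNReal.ofReal_ne_top)), p2_W ψ hψ x s hs0.le]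
      congr 1
      rw [setIntegral_const, Measure.real, Real.volume_Icc, show x - (x - s) = s by ring,
        ENNReal.toReal_ofReal hs0.le, smul_eq_mul]
    have h2 : ‖∫ y in Icc (x - s) x, (ψ y - ψ x)‖ ≤ δ * s := by
      have := norm_setIntegral_le_of_norm_le_const (μ := volume) (s := Icc (x - s) x)
        (f := fun y => ψ y - ψ x) (C := δ)
        (by rw [Real.volume_Icc]; exact ENNReal.ofReal_lt_top) (fun y hy => ?_)
      · rwa [Measure.real, Real.volume_Icc, show x - (x - s) = s by ring,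
          ENNReal.toReal_ofReal hs0.le] at this
      · have : dist y x < η := by
          rw [Real.dist_eq, abs_sub_comm, abs_of_nonneg (by linarith [hy.2])]
          have := hs.2
          linarith [hy.1]
        have := hη2 this
        rw [Real.dist_eq] at this
        rw [Real.norm_eq_abs]
        exact this.le
    rw [h1, Real.norm_eq_abs] at h2
    have h3 : 1 / s * (p2_Psi ψ x - p2_Psi ψ (x - s)) - ψ x =
        1 / s * ((p2_Psi ψ x - p2_Psi ψ (x - s)) - s * ψ x) := by
      field_simp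
    rw [h3, abs_mul, abs_of_pos (by positivity : 0 < 1 / s)]
    calc 1 / s * |p2_Psi ψ x - p2_Psi ψ (x - s) - s * ψ x| ≤ 1 / s * (δ * s) :=
          mul_le_mul_of_nonneg_left h2 (by positivity)
      _ = δ := by field_simp
  have hint : IntegrableOn (fun s => 1 / s * (p2_Psi ψ x - p2_Psi ψ (x - s))) (Icc h (2 * h)) := by
    apply ContinuousOn.integrableOn_Icc
    refine ContinuousOn.mul ?_ (by fun_prop)
    exact continuousOn_const.div continuousOn_id fun s hs => (hh.trans_le hs.1).ne'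
  have hconst : IntegrableOn (fun _ : ℝ => ψ x) (Icc h (2 * h)) :=
    integrableOn_const (by rw [Real.volume_Icc]; exact ENNReal.ofReal_ne_top)
  have h4 : ∫ s in Icc h (2 * h), (1 / s * (p2_Psi ψ x - p2_Psi ψ (x - s)) - ψ x) =
      (∫ s in Icc h (2 * h), 1 / s * (p2_Psi ψ x - p2_Psi ψ (x - s))) - h * ψ x := by
    rw [integral_sub hint hconst]
    congr 1
    rw [setIntegral_const, Measure.real, Real.volume_Icc, show 2 * h - h = h by ring,
      ENNReal.toReal_ofReal hh.le, smul_eq_mul]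
  have h5 : ‖∫ s in Icc h (2 * h), (1 / s * (p2_Psi ψ x - p2_Psi ψ (x - s)) - ψ x)‖ ≤ δ * h := by
    have := norm_setIntegral_le_of_norm_le_const (μ := volume) (s := Icc h (2 * h))
      (f := fun s => 1 / s * (p2_Psi ψ x - p2_Psi ψ (x - s)) - ψ x) (C := δ)
      (by rw [Real.volume_Icc]; exact ENNReal.ofReal_lt_top) (fun s hs => hm s hs)
    rwa [Measure.real, Real.volume_Icc, show 2 * h - h = h by ring,
      ENNReal.toReal_ofReal hh.le] at this
  rw [h4, Real.norm_eq_abs] at h5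
  rw [p2_avg_eq h hh ψ hψ]
  have h6 : 1 / h * (∫ s in Icc h (2 * h), 1 / s * (p2_Psi ψ x - p2_Psi ψ (x - s))) - ψ x =
      1 / h * ((∫ s in Icc h (2 * h), 1 / s * (p2_Psi ψ x - p2_Psi ψ (x - s))) - h * ψ x) := by
    field_simp
  rw [h6, abs_mul, abs_of_pos (by positivity : 0 < 1 / h)]
  calc 1 / h * |(∫ s in Icc h (2 * h), 1 / s * (p2_Psi ψ x - p2_Psi ψ (x - s))) - h * ψ x|
      ≤ 1 / h * (δ * h) := mul_le_mul_of_nonneg_left h5 (by positivity)
    _ = δ := by field_simp

end

end Pool.Agent.MP_941b23_mp
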