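import Pool.Agent.MP_941b23_mp.Defs2
import Pool.Agent.MP_941b23_mp.P1b
import Pool.Agent.MP_941b23_mp.P1c
import Pool.Agent.MP_941b23_mp.P2
import Pool.Agent.MP_941b23_mp.P3a
import Pool.Agent.MP_941b23_mp.P3b
import Pool.Agent.MP_941b23_mp.T5

/-!
# [QM-P4] minimisers of `J`
-/

namespace Pool.Agent.MP_941b23_mp

open MeasureTheory Set Filter Topology
open scoped ENNReal NNReal Real

noncomputable section

/-! ### mixtures -/

/-- the mixture `(1 - t) μ + t ν` -/
def p4_mix (t : ℝ≥0) (μ ν : Measure ℝ) : Measure ℝ := (1 - t) • μ + t • ν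

instance p4_mix_fin (t : ℝ≥0) (μ ν : Measure ℝ) [IsFiniteMeasure μ] [IsFiniteMeasure ν] :
    IsFiniteMeasure (p4_mix t μ ν) := by
  unfold p4_mix
  infer_instance

theorem p4_mix_apply (t : ℝ≥0) (μ ν : Measure ℝ) (s : Set ℝ) :
    p4_mix t μ ν s = ((1 - t : ℝ≥0) : ℝ≥0∞) * μ s + (t : ℝ≥0∞) * ν s := by
  rw [p4_mix, Measure.add_apply, Measure.smul_apply, Measure.smul_apply, ENNReal.smul_def,
    ENNReal.smul_def, smul_eq_mul, smul_eq_mul]

theorem p4_mix_eq (t : ℝ≥0) (ht : t ≤ 1) (μ ν : Measure ℝ) (s : Set ℝ) (m : ℝ≥0∞) (h : μ s = m)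
    (h' : ν s = m) : p4_mix t μ ν s = m := by
  rw [p4_mix_apply, h, h', ← add_mul, ← ENNReal.coe_add, tsub_add_cancel_of_le ht,
    ENNReal.coe_one, one_mul]

theorem p4_mix_int (t : ℝ≥0) {μ ν : Measure ℝ} {k : ℝ → ℝ} (h : Integrable k μ)
    (h' : Integrable k ν) : Integrable k (p4_mix t μ ν) :=
  (h.smul_measure_nnreal).add_measure (h'.smul_measure_nnreal)

theorem p4_mix_integral (t : ℝ≥0) (ht : t ≤ 1) {μ ν : Measure ℝ} {k : ℝ → ℝ} (h : Integrable k μ)
    (h' : Integrable k ν) :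
    ∫ x, k x ∂(p4_mix t μ ν) = (1 - (t : ℝ)) * ∫ x, k x ∂μ + t * ∫ x, k x ∂ν := by
  rw [p4_mix, integral_add_measure h.smul_measure_nnreal h'.smul_measure_nnreal,
    integral_smul_nnreal_measure, integral_smul_nnreal_measure, NNReal.smul_def, NNReal.smul_def,
    NNReal.coe_sub ht, NNReal.coe_one, smul_eq_mul, smul_eq_mul]

section prod

variable {μ μ' ν ν' : Measure ℝ} [IsFiniteMeasure μ] [IsFiniteMeasure μ'] [IsFiniteMeasure ν]
  [IsFiniteMeasure ν']

theorem p4_mix_prod (t : ℝ≥0) : (p4_mix t μ μ').prod (p4_mix t ν ν') =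
    ((1 - t) • ((1 - t) • μ.prod ν) + t • ((1 - t) • μ.prod ν')) +
      ((1 - t) • (t • μ'.prod ν) + t • (t • μ'.prod ν')) := by
  rw [p4_mix, p4_mix, Measure.add_prod, Measure.prod_add, Measure.prod_add,
    Measure.prod_smul_right, Measure.prod_smul_right, Measure.prod_smul_right,
    Measure.prod_smul_right, Measure.prod_smul_left, Measure.prod_smul_left,
    Measure.prod_smul_left, Measure.prod_smul_left]

theorem p4_prod_int (t : ℝ≥0) {k : ℝ × ℝ → ℝ} (h00 : Integrable k (μ.prod ν))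
    (h01 : Integrable k (μ.prod ν')) (h10 : Integrable k (μ'.prod ν))
    (h11 : Integrable k (μ'.prod ν')) : Integrable k ((p4_mix t μ μ').prod (p4_mix t ν ν')) := by
  rw [p4_mix_prod]
  exact ((h00.smul_measure_nnreal.smul_measure_nnreal).add_measure
    (h01.smul_measure_nnreal.smul_measure_nnreal)).add_measure
    ((h10.smul_measure_nnreal.smul_measure_nnreal).add_measure
    (h11.smul_measure_nnreal.smul_measure_nnreal))

theorem p4_prod_integral (t : ℝ≥0) (ht : t ≤ 1) {k : ℝ × ℝ → ℝ} (h00 : Integrable k (μ.prod ν))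
    (h01 : Integrable k (μ.prod ν')) (h10 : Integrable k (μ'.prod ν))
    (h11 : Integrable k (μ'.prod ν')) :
    ∫ z, k z ∂((p4_mix t μ μ').prod (p4_mix t ν ν')) =
      (1 - (t : ℝ)) ^ 2 * ∫ z, k z ∂(μ.prod ν) + (1 - (t : ℝ)) * t * ∫ z, k z ∂(μ.prod ν') +
      (1 - (t : ℝ)) * t * ∫ z, k z ∂(μ'.prod ν) + (t : ℝ) ^ 2 * ∫ z, k z ∂(μ'.prod ν') := by
  rw [p4_mix_prod]
  have i00 := (h00.smul_measure_nnreal (c := 1 - t)).smul_measure_nnreal (c := 1 - t)
  have i01 := (h01.smul_measure_nnreal (c := 1 - t)).smul_measure_nnreal (c := t)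
  have i10 := (h10.smul_measure_nnreal (c := t)).smul_measure_nnreal (c := 1 - t)
  have i11 := (h11.smul_measure_nnreal (c := t)).smul_measure_nnreal (c := t)
  rw [integral_add_measure (i00.add_measure i01) (i10.add_measure i11),
    integral_add_measure i00 i01, integral_add_measure i10 i11]
  simp only [integral_smul_nnreal_measure, NNReal.smul_def, NNReal.coe_sub ht, NNReal.coe_one,
    smul_eq_mul]
  ring

end prod

/-! ### reflection -/

theorem p4_map_one (μ ν : Measure ℝ) [SFinite μ] [SFinite ν] :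
    μ.prod (ν.map (fun x => -x)) =
      (μ.prod ν).map ((MeasurableEquiv.refl ℝ).prodCongr (MeasurableEquiv.neg ℝ)) := by
  have h := Measure.map_prod_map μ ν (measurable_id : Measurable (id : ℝ → ℝ))
    (measurable_neg : Measurable (fun x : ℝ => -x))
  rw [Measure.map_id] at h
  rw [h]
  rfl

theorem p4_map_two (μ ν : Measure ℝ) [SFinite μ] [SFinite ν] :
    (μ.map (fun x => -x)).prod ν =
      (μ.prod ν).map ((MeasurableEquiv.neg ℝ).prodCongr (MeasurableEquiv.refl ℝ)) := by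
  have h := Measure.map_prod_map μ ν (measurable_neg : Measurable (fun x : ℝ => -x))
    (measurable_id : Measurable (id : ℝ → ℝ))
  rw [Measure.map_id] at h
  rw [h]
  rfl

theorem p4_map_three (μ ν : Measure ℝ) [SFinite μ] [SFinite ν] :
    (μ.map (fun x => -x)).prod (ν.map (fun x => -x)) =
      (μ.prod ν).map ((MeasurableEquiv.neg ℝ).prodCongr (MeasurableEquiv.neg ℝ)) := by
  have h := Measure.map_prod_map μ ν (measurable_neg : Measurable (fun x : ℝ => -x))
    (measurable_neg : Measurable (fun x : ℝ => -x))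
  rw [h]
  rfl

theorem p4_LL_one (μ ν : Measure ℝ) [SFinite μ] [SFinite ν] :
    LL μ (ν.map (fun x => -x)) = -MM μ ν := by
  rw [LL, MM, p4_map_one, MeasurableEmbedding.integral_map (MeasurableEquiv.measurableEmbedding _),
    ← integral_neg]
  refine integral_congr_ae (Eventually.of_forall fun z => ?_)
  show -Real.log |z.1 - -z.2| = -Real.log (z.1 + z.2)
  rw [Real.log_abs, sub_neg_eq_add]

theorem p4_LL_two (μ ν : Measure ℝ) [SFinite μ] [SFinite ν] :
    LL (μ.map (fun x => -x)) ν = -MM μ ν := by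
  rw [LL, MM, p4_map_two, MeasurableEmbedding.integral_map (MeasurableEquiv.measurableEmbedding _),
    ← integral_neg]
  refine integral_congr_ae (Eventually.of_forall fun z => ?_)
  show -Real.log |-z.1 - z.2| = -Real.log (z.1 + z.2)
  rw [Real.log_abs, show -z.1 - z.2 = -(z.1 + z.2) by ring, Real.log_neg_eq_log]

theorem p4_LL_three (μ ν : Measure ℝ) [SFinite μ] [SFinite ν] :
    LL (μ.map (fun x => -x)) (ν.map (fun x => -x)) = LL μ ν := by
  rw [LL, LL, p4_map_three,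
    MeasurableEmbedding.integral_map (MeasurableEquiv.measurableEmbedding _)]
  refine integral_congr_ae (Eventually.of_forall fun z => ?_)
  show -Real.log |-z.1 - -z.2| = -Real.log |z.1 - z.2|
  rw [show -z.1 - -z.2 = -(z.1 - z.2) by ring, abs_neg]

instance p4_map_fin (μ : Measure ℝ) [IsFiniteMeasure μ] :
    IsFiniteMeasure (μ.map (fun x => -x)) := by
  infer_instance

theorem p4_finEn_refl {μ : Measure ℝ} [IsFiniteMeasure μ] (h : FinEn μ) :
    FinEn (μ.map (fun x => -x)) where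
  noAtom x := by
    rw [Measure.map_apply measurable_neg (measurableSet_singleton x)]
    have : (fun x : ℝ => -x) ⁻¹' {x} = {-x} := by
      ext y
      simp only [mem_preimage, mem_singleton_iff]
      exact neg_eq_iff_eq_neg
    rw [this]
    exact h.noAtom _
  energy := by
    rw [p4_map_three,
      MeasurableEmbedding.integrable_map_iff (MeasurableEquiv.measurableEmbedding _)]
    refine h.energy.congr (Eventually.of_forall fun z => ?_)
    show Real.log |z.1 - z.2| = Real.log |-z.1 - -z.2|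
    rw [show -z.1 - -z.2 = -(z.1 - z.2) by ring, abs_neg]
  logMoment := by
    rw [show (fun x : ℝ => -x) = (MeasurableEquiv.neg ℝ) from rfl,
      MeasurableEmbedding.integrable_map_iff (MeasurableEquiv.measurableEmbedding _)]
    refine h.logMoment.congr (Eventually.of_forall fun z => ?_)
    show Real.log (1 + |z|) = Real.log (1 + |-z|)
    rw [abs_neg]

/-- integrability of the kernel of `MM` -/
theorem p4_MM_int {μ ν : Measure ℝ} [IsFiniteMeasure μ] [IsFiniteMeasure ν] (hμ : FinEn μ)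
    (hν : FinEn ν) : Integrable (fun z : ℝ × ℝ => Real.log (z.1 + z.2)) (μ.prod ν) := by
  have h := cross_integrable μ (ν.map (fun x => -x)) hμ (p4_finEn_refl hν)
  rw [p4_map_one, MeasurableEmbedding.integrable_map_iff
    (MeasurableEquiv.measurableEmbedding _)] at h
  refine h.congr (Eventually.of_forall fun z => ?_)
  show Real.log |z.1 - -z.2| = Real.log (z.1 + z.2)
  rw [Real.log_abs, sub_neg_eq_add]

theorem p4_LL_int {μ ν : Measure ℝ} [IsFiniteMeasure μ] [IsFiniteMeasure ν] (hμ : FinEn μ)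
    (hν : FinEn ν) : Integrable (fun z : ℝ × ℝ => -Real.log |z.1 - z.2|) (μ.prod ν) :=
  (cross_integrable μ ν hμ hν).neg

/-! ### the third potential -/

theorem p4_V3_bdd {α τ : ℝ} (hτ : 0 < τ) : ∃ C : ℝ, ∀ x, |V3 α τ x| ≤ C := by
  obtain ⟨C, hC⟩ := (isCompact_Icc (a := -xstar α τ) (b := xstar α τ)).exists_bound_of_continuousOn
    (V3_continuous (α := α) hτ).continuousOn
  refine ⟨max C 0, fun x => ?_⟩
  by_cases h : α < 0 ∧ |x| < xstar α τ
  · have h2 := abs_lt.1 h.2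
    exact (hC x ⟨h2.1.le, h2.2.le⟩).trans (le_max_left _ _)
  · rw [V3, if_neg h, abs_zero]
    exact le_max_right _ _

theorem p4_U3_int {α τ : ℝ} (hτ : 0 < τ) (c : Measure ℝ) [IsFiniteMeasure c] :
    Integrable (fun x => U3 α τ x) c := by
  obtain ⟨C, hC⟩ := p4_V3_bdd (α := α) hτ
  have hcont : Continuous (fun x => U3 α τ x) := (V3_continuous hτ).comp Real.continuous_sqrt
  exact Integrable.of_bound hcont.aestronglyMeasurable C
    (Eventually.of_forall fun x => hC (√x))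

/-! ### mixtures of admissible triples -/

theorem p4_finEn_mix {μ ν : Measure ℝ} [IsFiniteMeasure μ] [IsFiniteMeasure ν] (hμ : FinEn μ)
    (hν : FinEn ν) (t : ℝ≥0) : FinEn (p4_mix t μ ν) where
  noAtom x := by rw [p4_mix_apply, hμ.noAtom, hν.noAtom, mul_zero, mul_zero, add_zero]
  energy := p4_prod_int t hμ.energy (cross_integrable _ _ hμ hν) (cross_integrable _ _ hν hμ)
    hν.energy
  logMoment := p4_mix_int t hμ.logMoment hν.logMoment

theorem p4_fin {μ : Measure ℝ} {m : ℝ≥0∞} (h : μ univ = m) (hm : m < ⊤) : IsFiniteMeasure μ :=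
  ⟨by rw [h]; exact hm⟩

theorem p4_adm_mix {α τ : ℝ} {V : ℝ → ℝ} {a b c a' b' c' : Measure ℝ}
    (h : AdmJ α τ V a b c) (h' : AdmJ α τ V a' b' c') (t : ℝ≥0) (ht : t ≤ 1) :
    AdmJ α τ V (p4_mix t a a') (p4_mix t b b') (p4_mix t c c') := by
  have := p4_fin h.massa (by simp)
  have := p4_fin h.massb (by simp)
  have := p4_fin h.massc (by simp)
  have := p4_fin h'.massa (by simp)
  have := p4_fin h'.massb (by simp)
  have := p4_fin h'.massc (by simp)
  exact
  { suppa := p4_mix_eq t ht _ _ _ _ h.suppa h'.suppa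
    suppb := p4_mix_eq t ht _ _ _ _ h.suppb h'.suppb
    suppc := p4_mix_eq t ht _ _ _ _ h.suppc h'.suppc
    massa := p4_mix_eq t ht _ _ _ _ h.massa h'.massa
    massb := p4_mix_eq t ht _ _ _ _ h.massb h'.massb
    massc := p4_mix_eq t ht _ _ _ _ h.massc h'.massc
    constr := by
      intro s
      rw [← p4_mix_eq t ht (sigI α τ) (sigI α τ) s _ rfl rfl, p4_mix_apply, p4_mix_apply]
      exact add_le_add (mul_le_mul_right (h.constr s) _) (mul_le_mul_right (h'.constr s) _)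
    ena := p4_finEn_mix h.ena h'.ena t
    enb := p4_finEn_mix h.enb h'.enb t
    enc := p4_finEn_mix h.enc h'.enc t
    pot := p4_mix_int t h.pot h'.pot }

/-- the quadratic part of `MM` -/
def p4_MD (a a' b b' : Measure ℝ) : ℝ := MM a b - MM a b' - MM a' b + MM a' b'

/-- the quadratic part of `J` -/
def p4_Q (a a' b b' c c' : Measure ℝ) : ℝ :=
  LD a a' a a' + LD b b' b b' + LD c c' c c' + p4_MD a a' b b' + p4_MD b b' c c'

theorem p4_JJ_mix {α τ : ℝ} (hτ : 0 < τ) {V : ℝ → ℝ} {a b c a' b' c' : Measure ℝ}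
    (h : AdmJ α τ V a b c) (h' : AdmJ α τ V a' b' c') :
    ∀ (t : ℝ≥0) (_ : t ≤ 1),
      JJ α τ V (p4_mix t a a') (p4_mix t b b') (p4_mix t c c') = JJ α τ V a b c +
        t * (JJ α τ V a' b' c' - JJ α τ V a b c - p4_Q a a' b b' c c') +
        (t : ℝ) ^ 2 * p4_Q a a' b b' c c' := by
  have := p4_fin h.massa (by simp)
  have := p4_fin h.massb (by simp)
  have := p4_fin h.massc (by simp)
  have := p4_fin h'.massa (by simp)
  have := p4_fin h'.massb (by simp)
  have := p4_fin h'.massc (by simp)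
  intro t ht
  have e1 : LL (p4_mix t a a') (p4_mix t a a') = (1 - (t : ℝ)) ^ 2 * LL a a +
      (1 - (t : ℝ)) * t * LL a a' + (1 - (t : ℝ)) * t * LL a' a + (t : ℝ) ^ 2 * LL a' a' :=
    p4_prod_integral t ht (p4_LL_int h.ena h.ena) (p4_LL_int h.ena h'.ena)
      (p4_LL_int h'.ena h.ena) (p4_LL_int h'.ena h'.ena)
  have e2 : LL (p4_mix t b b') (p4_mix t b b') = (1 - (t : ℝ)) ^ 2 * LL b b +
      (1 - (t : ℝ)) * t * LL b b' + (1 - (t : ℝ)) * t * LL b' b + (t : ℝ) ^ 2 * LL b' b' :=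
    p4_prod_integral t ht (p4_LL_int h.enb h.enb) (p4_LL_int h.enb h'.enb)
      (p4_LL_int h'.enb h.enb) (p4_LL_int h'.enb h'.enb)
  have e3 : LL (p4_mix t c c') (p4_mix t c c') = (1 - (t : ℝ)) ^ 2 * LL c c +
      (1 - (t : ℝ)) * t * LL c c' + (1 - (t : ℝ)) * t * LL c' c + (t : ℝ) ^ 2 * LL c' c' :=
    p4_prod_integral t ht (p4_LL_int h.enc h.enc) (p4_LL_int h.enc h'.enc)
      (p4_LL_int h'.enc h.enc) (p4_LL_int h'.enc h'.enc)
  have e4 : MM (p4_mix t a a') (p4_mix t b b') = (1 - (t : ℝ)) ^ 2 * MM a b +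
      (1 - (t : ℝ)) * t * MM a b' + (1 - (t : ℝ)) * t * MM a' b + (t : ℝ) ^ 2 * MM a' b' :=
    p4_prod_integral t ht (p4_MM_int h.ena h.enb) (p4_MM_int h.ena h'.enb)
      (p4_MM_int h'.ena h.enb) (p4_MM_int h'.ena h'.enb)
  have e5 : MM (p4_mix t b b') (p4_mix t c c') = (1 - (t : ℝ)) ^ 2 * MM b c +
      (1 - (t : ℝ)) * t * MM b c' + (1 - (t : ℝ)) * t * MM b' c + (t : ℝ) ^ 2 * MM b' c' :=
    p4_prod_integral t ht (p4_MM_int h.enb h.enc) (p4_MM_int h.enb h'.enc)
      (p4_MM_int h'.enb h.enc) (p4_MM_int h'.enb h'.enc)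
  have e6 := p4_mix_integral t ht h.pot h'.pot
  have e7 := p4_mix_integral t ht (p4_U3_int (α := α) hτ c) (p4_U3_int (α := α) hτ c')
  rw [JJ, e1, e2, e3, e4, e5, e6, e7, p4_Q, JJ, JJ, LD, LD, LD, p4_MD, p4_MD]
  ring

theorem p4_Q_pos {α τ : ℝ} {V : ℝ → ℝ} {a b c a' b' c' : Measure ℝ}
    (h : AdmJ α τ V a b c) (h' : AdmJ α τ V a' b' c') (s : ℝ) (hs : 0 < s) :
    2 / 3 * Phi s a a' ≤ p4_Q a a' b b' c c' := by
  have := p4_fin h.massa (by simp)
  have := p4_fin h.massb (by simp)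
  have := p4_fin h.massc (by simp)
  have := p4_fin h'.massa (by simp)
  have := p4_fin h'.massb (by simp)
  have := p4_fin h'.massc (by simp)
  have hm : (b.map (fun x => -x)) univ = (b'.map (fun x => -x)) univ := by
    rw [Measure.map_apply measurable_neg MeasurableSet.univ,
      Measure.map_apply measurable_neg MeasurableSet.univ, preimage_univ, h.massb, h'.massb]
  have hq := quad_pos s hs a a' (b.map (fun x => -x)) (b'.map (fun x => -x)) c c' h.ena h'.ena
    (p4_finEn_refl h.enb) (p4_finEn_refl h'.enb) h.enc h'.enc (h.massa.trans h'.massa.symm) hm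
    (h.massc.trans h'.massc.symm)
  refine hq.trans (le_of_eq ?_)
  simp only [LD, p4_Q, p4_MD, p4_LL_three]
  simp only [p4_LL_one, p4_LL_two]
  ring

theorem J_quad {α τ : ℝ} (hτ : 0 < τ) {V : ℝ → ℝ} (hV : Pot V)
    {a b c a' b' c' : Measure ℝ} (h : AdmJ α τ V a b c)
    (hmin : ∀ a' b' c' : Measure ℝ, AdmJ α τ V a' b' c' → JJ α τ V a b c ≤ JJ α τ V a' b' c')
    (h' : AdmJ α τ V a' b' c') (s : ℝ) (hs : 0 < s) :
    JJ α τ V a b c + 2 / 3 * Phi s a a' ≤ JJ α τ V a' b' c' := by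
  have hQ := p4_Q_pos h h' s hs
  set Q := p4_Q a a' b b' c c' with hQdef
  set D := JJ α τ V a' b' c' - JJ α τ V a b c - Q with hD
  have hkey : ∀ t : ℝ≥0, t ≤ 1 → 0 ≤ t * D + (t : ℝ) ^ 2 * Q := by
    intro t ht
    have h1 := p4_JJ_mix hτ h h' t ht
    have h2 := hmin _ _ _ (p4_adm_mix h h' t ht)
    rw [h1] at h2
    linarith
  have hD0 : 0 ≤ D := by
    by_contra hneg
    push Not at hneg
    -- choose `t` small
    have hpos : 0 < |Q| + 1 := by positivity
    obtain ⟨t, ht0, ht1, ht2⟩ : ∃ t : ℝ, 0 < t ∧ t ≤ 1 ∧ t * (|Q| + 1) < -D := by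
      refine ⟨min 1 (-D / (2 * (|Q| + 1))), ?_, min_le_left _ _, ?_⟩
      · exact lt_min one_pos (div_pos (by linarith) (by linarith))
      · have h1 : min 1 (-D / (2 * (|Q| + 1))) ≤ -D / (2 * (|Q| + 1)) := min_le_right _ _
        have h2 := mul_le_mul_of_nonneg_right h1 hpos.le
        have h3 : -D / (2 * (|Q| + 1)) * (|Q| + 1) = -D / 2 := by
          field_simp
        rw [h3] at h2
        linarith
    have h1 : 0 ≤ t * D + t ^ 2 * Q := hkey ⟨t, ht0.le⟩ (by exact_mod_cast ht1)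
    have h3 : t * (D + t * Q) < 0 := by
      apply mul_neg_of_pos_of_neg ht0
      have h4 : t * Q ≤ t * |Q| := mul_le_mul_of_nonneg_left (le_abs_self Q) ht0.le
      nlinarith
    nlinarith
  linarith

theorem min_to_J {α τ : ℝ} (hτ : 0 < τ) {V : ℝ → ℝ} (hV : Pot V) {μ₁ μ₂ μ₃ : Measure ℝ}
    (h : IsMinimiser α τ V μ₁ μ₂ μ₃) : ∃ a b c : Measure ℝ, AdmJ α τ V a b c ∧
    (∀ a' b' c' : Measure ℝ, AdmJ α τ V a' b' c' → JJ α τ V a b c ≤ JJ α τ V a' b' c') ∧
    a = (1 / 2 : ℝ≥0∞) • μ₁.map (fun x => x ^ 2) ∧ μ₁.map (fun x => -x) = μ₁ := by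
  obtain ⟨h1, h2, h3⟩ := adm_to_J hτ hV h.adm
  have hkey : ∀ a' b' c' : Measure ℝ, AdmJ α τ V a' b' c' →
      2 * JJ α τ V ((1 / 2 : ℝ≥0∞) • μ₁.map (fun x => x ^ 2))
        ((1 / 2 : ℝ≥0∞) • μ₂.map (fun x => x ^ 2)) ((1 / 2 : ℝ≥0∞) • μ₃.map (fun x => x ^ 2)) +
      1 / 2 * (LL μ₁ μ₁ - LL μ₁ (μ₁.map (fun x => -x))) ≤ 2 * JJ α τ V a' b' c' := by
    intro a' b' c' h'
    obtain ⟨ν₁, ν₂, ν₃, h4, h5⟩ := J_to_adm hτ hV h'
    rw [← h5]
    exact h3.le.trans (h.min _ _ _ h4)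
  refine ⟨_, _, _, h1, fun a' b' c' h' => ?_, rfl, ?_⟩
  · have := hkey a' b' c' h'
    linarith
  · -- symmetry
    have : IsFiniteMeasure μ₁ := p4_fin h.adm.mass₁ (by simp)
    have hD : LL μ₁ μ₁ - LL μ₁ (μ₁.map (fun x => -x)) = 0 := by
      have := hkey _ _ _ h1
      linarith
    have hLD : LD μ₁ (μ₁.map (fun x => -x)) μ₁ (μ₁.map (fun x => -x)) = 0 := by
      rw [LD, p4_LL_three, p4_LL_two, ← p4_LL_one]
      linarith
    have hm : μ₁ univ = (μ₁.map (fun x => -x)) univ := by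
      rw [Measure.map_apply measurable_neg MeasurableSet.univ, preimage_univ]
    have hPhi : ∀ s : ℝ, 0 < s → Phi s μ₁ (μ₁.map (fun x => -x)) ≤ 0 := by
      intro s hs
      rw [← hLD]
      exact energy_pos s hs μ₁ _ h.adm.en₁ (p4_finEn_refl h.adm.en₁) hm
    symm
    refine Measure.ext_of_integral_eq_on_compactlySupported fun f => ?_
    have hfc : Continuous (f : ℝ → ℝ) := f.continuous
    have hfs : HasCompactSupport (f : ℝ → ℝ) := f.hasCompactSupport
    obtain ⟨Cf, hCf⟩ := hfc.bounded_above_of_compact_support hfs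
    have hint : ∀ (μ : Measure ℝ) [IsFiniteMeasure μ], Integrable (f : ℝ → ℝ) μ := fun μ _ =>
      Integrable.of_bound hfc.aestronglyMeasurable Cf (Eventually.of_forall hCf)
    have hclose : ∀ δ : ℝ, 0 < δ →
        |∫ x, f x ∂μ₁ - ∫ x, f x ∂(μ₁.map (fun x => -x))| ≤ 2 * δ := by
      intro δ hδ
      obtain ⟨s, hs, hs2⟩ := avg_close (f : ℝ → ℝ) hfc hfs δ hδ
      obtain ⟨C, hC, hdual⟩ := avg_duality s hs (f : ℝ → ℝ) hfc hfs
      obtain ⟨hac, Ca, hCa⟩ := avg_continuous s hs (f : ℝ → ℝ) hfc hfs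
      have hinta : ∀ (μ : Measure ℝ) [IsFiniteMeasure μ], Integrable (avg s (f : ℝ → ℝ)) μ :=
        fun μ _ => Integrable.of_bound hac.aestronglyMeasurable Ca (Eventually.of_forall hCa)
      have h6 : ∫ x, avg s f x ∂μ₁ = ∫ x, avg s f x ∂(μ₁.map (fun x => -x)) := by
        have h7 := hdual μ₁ (μ₁.map (fun x => -x))
        have h8 : C * Phi s μ₁ (μ₁.map (fun x => -x)) ≤ 0 :=
          mul_nonpos_of_nonneg_of_nonpos hC.le (hPhi s hs)
        have h9 : (∫ x, avg s f x ∂μ₁ - ∫ x, avg s f x ∂(μ₁.map (fun x => -x))) ^ 2 = 0 :=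
          le_antisymm (h7.trans h8) (sq_nonneg _)
        have h10 := pow_eq_zero_iff (two_ne_zero) |>.1 h9
        linarith
      have hdiff : ∀ (μ : Measure ℝ) [IsFiniteMeasure μ], μ univ = 1 →
          |∫ x, f x ∂μ - ∫ x, avg s f x ∂μ| ≤ δ := by
        intro μ _ hμ
        rw [← integral_sub (hint μ) (hinta μ)]
        have h7 := norm_integral_le_of_norm_le_const (μ := μ) (C := δ)
          (f := fun x => f x - avg s f x) (Eventually.of_forall fun x => by
            rw [Real.norm_eq_abs, abs_sub_comm]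
            exact hs2 x)
        rw [Real.norm_eq_abs, Measure.real, hμ, ENNReal.toReal_one, mul_one] at h7
        exact h7
      have h7 := hdiff μ₁ h.adm.mass₁
      have h8 := hdiff (μ₁.map (fun x => -x)) (hm ▸ h.adm.mass₁)
      rw [← h6] at h8
      rw [abs_le] at h7 h8 ⊢
      constructor <;> linarith [h7.1, h7.2, h8.1, h8.2]
    have h0 : |∫ x, f x ∂μ₁ - ∫ x, f x ∂(μ₁.map (fun x => -x))| ≤ 0 := by
      refine le_of_forall_pos_le_add fun ε hε => ?_
      have := hclose (ε / 2) (by linarith)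
      linarith
    have h1 := abs_nonpos_iff.1 h0
    linarith

end

end Pool.Agent.MP_941b23_mp
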