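import Pool.Agent.MP_941b23_mp.Defs2
import Pool.Agent.MP_941b23_mp.E6
import Pool.Agent.MP_941b23_mp.E7
import Pool.Agent.MP_941b23_mp.P1c
import Pool.Agent.MP_941b23_mp.P2
import Pool.Agent.MP_941b23_mp.P3a
import Pool.Agent.MP_941b23_mp.P3b
import Pool.Agent.MP_941b23_mp.P4

/-!
# [QM-E8] uniqueness of the minimiser
-/

namespace Pool.Agent.MP_941b23_mp

open MeasureTheory Set Filter Topology
open scoped ENNReal NNReal Real

noncomputable section

theorem e8_Phi_nonneg (s : ℝ) (a a' : Measure ℝ) : 0 ≤ Phi s a a' := by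
  unfold Phi
  refine integral_nonneg fun t => ?_
  exact mul_nonneg (by positivity) (integral_nonneg fun z => sq_nonneg _)

/-- measures with `Phi = 0` at all scales coincide -/
theorem e8_eq_of_Phi (a a' : Measure ℝ) [IsFiniteMeasure a] [IsFiniteMeasure a']
    (hm : a univ = a' univ) (hPhi : ∀ s : ℝ, 0 < s → Phi s a a' ≤ 0) : a = a' := by
  refine Measure.ext_of_integral_eq_on_compactlySupported fun f => ?_
  have hfc : Continuous (f : ℝ → ℝ) := f.continuous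
  have hfs : HasCompactSupport (f : ℝ → ℝ) := f.hasCompactSupport
  obtain ⟨Cf, hCf⟩ := hfc.bounded_above_of_compact_support hfs
  have hint : ∀ (μ : Measure ℝ) [IsFiniteMeasure μ], Integrable (f : ℝ → ℝ) μ := fun μ _ =>
    Integrable.of_bound hfc.aestronglyMeasurable Cf (Eventually.of_forall hCf)
  set m : ℝ := a.real univ with hmdef
  have hm0 : 0 ≤ m := measureReal_nonneg
  have hm' : a'.real univ = m := by rw [hmdef, Measure.real, Measure.real, hm]
  have hclose : ∀ δ : ℝ, 0 < δ → |∫ x, f x ∂a - ∫ x, f x ∂a'| ≤ 2 * (δ * m) := by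
    intro δ hδ
    obtain ⟨s, hs, hs2⟩ := avg_close (f : ℝ → ℝ) hfc hfs δ hδ
    obtain ⟨C, hC, hdual⟩ := avg_duality s hs (f : ℝ → ℝ) hfc hfs
    obtain ⟨hac, Ca, hCa⟩ := avg_continuous s hs (f : ℝ → ℝ) hfc hfs
    have hinta : ∀ (μ : Measure ℝ) [IsFiniteMeasure μ], Integrable (avg s (f : ℝ → ℝ)) μ :=
      fun μ _ => Integrable.of_bound hac.aestronglyMeasurable Ca (Eventually.of_forall hCa)
    have h6 : ∫ x, avg s f x ∂a = ∫ x, avg s f x ∂a' := by
      have h7 := hdual a a'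
      have h8 : C * Phi s a a' ≤ 0 := mul_nonpos_of_nonneg_of_nonpos hC.le (hPhi s hs)
      have h9 : (∫ x, avg s f x ∂a - ∫ x, avg s f x ∂a') ^ 2 = 0 :=
        le_antisymm (h7.trans h8) (sq_nonneg _)
      have h10 := pow_eq_zero_iff (two_ne_zero) |>.1 h9
      linarith
    have hdiff : ∀ (μ : Measure ℝ) [IsFiniteMeasure μ], μ.real univ = m →
        |∫ x, f x ∂μ - ∫ x, avg s f x ∂μ| ≤ δ * m := by
      intro μ _ hμ
      rw [← integral_sub (hint μ) (hinta μ)]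
      have h7 := norm_integral_le_of_norm_le_const (μ := μ) (C := δ)
        (f := fun x => f x - avg s f x) (Eventually.of_forall fun x => by
          rw [Real.norm_eq_abs, abs_sub_comm]
          exact hs2 x)
      rw [Real.norm_eq_abs, hμ] at h7
      exact h7
    have h7 := hdiff a rfl
    have h8 := hdiff a' hm'
    rw [← h6] at h8
    rw [abs_le] at h7 h8 ⊢
    constructor <;> linarith [h7.1, h7.2, h8.1, h8.2]
  have h0 : |∫ x, f x ∂a - ∫ x, f x ∂a'| ≤ 0 := by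
    refine le_of_forall_pos_le_add fun ε hε => ?_
    have h1 := hclose (ε / (2 * (m + 1))) (by positivity)
    have h2 : 2 * (ε / (2 * (m + 1)) * m) ≤ ε := by
      have h3 : 2 * (ε / (2 * (m + 1)) * m) = ε * (m / (m + 1)) := by
        field_simp
      rw [h3]
      have h4 : m / (m + 1) ≤ 1 := by
        rw [div_le_one (by positivity)]
        linarith
      nlinarith
    linarith
  have h1 := abs_nonpos_iff.1 h0
  linarith

/-- a symmetric measure is determined by its image under `x ↦ x²` -/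
theorem e8_eq_of_sq (μ ν : Measure ℝ) [IsFiniteMeasure μ] [IsFiniteMeasure ν]
    (hμ : μ.map (fun x => -x) = μ) (hν : ν.map (fun x => -x) = ν)
    (h : (1 / 2 : ℝ≥0∞) • μ.map (fun x => x ^ 2) = (1 / 2 : ℝ≥0∞) • ν.map (fun x => x ^ 2)) :
    μ = ν := by
  have hsq : Measurable (fun x : ℝ => x ^ 2) := measurable_id.pow_const 2
  have h1 : μ.map (fun x => x ^ 2) = ν.map (fun x => x ^ 2) := by
    have h2 := congrArg (fun ρ : Measure ℝ => (2 : ℝ≥0∞) • ρ) h
    simp only [smul_smul] at h2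
    have h3 : (2 : ℝ≥0∞) * (1 / 2) = 1 := by
      rw [one_div]
      exact ENNReal.mul_inv_cancel (by norm_num) (by norm_num)
    rwa [h3, one_smul, one_smul] at h2
  have h2 : ∀ ρ : Measure ℝ, ρ.map (fun x : ℝ => |x|) =
      (ρ.map (fun x => x ^ 2)).map (fun x => √x) := by
    intro ρ
    rw [Measure.map_map (Real.continuous_sqrt.measurable) hsq]
    congr 1
    funext x
    exact (Real.sqrt_sq_eq_abs x).symm
  have h3 : μ.map (fun x : ℝ => |x|) = ν.map (fun x : ℝ => |x|) := by rw [h2, h2, h1]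
  ext s hs
  have key : ∀ ρ : Measure ℝ, ρ.map (fun x => -x) = ρ → 2 * ρ s =
      ∫⁻ t, (s.indicator 1 t + s.indicator 1 (-t)) ∂(ρ.map (fun x : ℝ => |x|)) := by
    intro ρ hρ
    have hmeas : Measurable fun t : ℝ => (s.indicator (1 : ℝ → ℝ≥0∞) t + s.indicator 1 (-t)) :=
      (measurable_one.indicator hs).add ((measurable_one.indicator hs).comp measurable_neg)
    have habs : Measurable fun x : ℝ => |x| := measurable_norm
    rw [lintegral_map hmeas habs]
    have e1 : ∀ x : ℝ, s.indicator (1 : ℝ → ℝ≥0∞) ‖x‖ + s.indicator 1 (-‖x‖) =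
        s.indicator 1 x + s.indicator 1 (-x) := by
      intro x
      rw [Real.norm_eq_abs]
      rcases abs_cases x with ⟨h5, -⟩ | ⟨h5, -⟩
      · rw [h5]
      · rw [h5, neg_neg, add_comm]
    have e2 : ∫⁻ x, (s.indicator (1 : ℝ → ℝ≥0∞) |x| + s.indicator 1 (-|x|)) ∂ρ =
        ∫⁻ x, (s.indicator 1 x + s.indicator 1 (-x)) ∂ρ :=
      lintegral_congr fun x => e1 x
    rw [e2, lintegral_add_left (measurable_one.indicator hs)]
    have e3 : ∫⁻ x, s.indicator (1 : ℝ → ℝ≥0∞) x ∂ρ = ρ s := lintegral_indicator_one hs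
    have e4 : ∫⁻ x, s.indicator (1 : ℝ → ℝ≥0∞) (-x) ∂ρ = ρ s := by
      have h5 := lintegral_map (μ := ρ) (f := s.indicator (1 : ℝ → ℝ≥0∞))
        (measurable_one.indicator hs) (measurable_neg : Measurable fun x : ℝ => -x)
      rw [hρ, e3] at h5
      exact h5.symm
    rw [e3, e4, two_mul]
  have h4 : 2 * μ s = 2 * ν s := by rw [key μ hμ, key ν hν, h3]
  exact (ENNReal.mul_right_inj (by norm_num) (by norm_num)).1 h4

/-- the excess -/
theorem e8_exc (μ : Measure ℝ) [IsFiniteMeasure μ] (h : FinEn μ) (s : ℝ) (hs : 0 < s) :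
    Phi s μ (μ.map (fun x => -x)) ≤ 2 * (LL μ μ - LL μ (μ.map (fun x => -x))) := by
  have hm : μ univ = (μ.map (fun x => -x)) univ := by
    rw [Measure.map_apply measurable_neg MeasurableSet.univ, preimage_univ]
  have h1 := energy_pos s hs μ _ h (p4_finEn_refl h) hm
  have h2 : LD μ (μ.map (fun x => -x)) μ (μ.map (fun x => -x)) =
      2 * (LL μ μ - LL μ (μ.map (fun x => -x))) := by
    rw [LD, p4_LL_three, p4_LL_two, ← p4_LL_one]
    ring
  rwa [h2] at h1

/-- minimisers are symmetric and give minimisers of `J` -/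
theorem e8_min {α τ : ℝ} (hτ : 0 < τ) {V : ℝ → ℝ} (hV : Pot V) {μ₁ μ₂ μ₃ : Measure ℝ}
    (h : IsMinimiser α τ V μ₁ μ₂ μ₃) :
    AdmJ α τ V ((1 / 2 : ℝ≥0∞) • μ₁.map (fun x => x ^ 2))
      ((1 / 2 : ℝ≥0∞) • μ₂.map (fun x => x ^ 2)) ((1 / 2 : ℝ≥0∞) • μ₃.map (fun x => x ^ 2)) ∧
    (∀ a' b' c' : Measure ℝ, AdmJ α τ V a' b' c' →
      JJ α τ V ((1 / 2 : ℝ≥0∞) • μ₁.map (fun x => x ^ 2))
        ((1 / 2 : ℝ≥0∞) • μ₂.map (fun x => x ^ 2)) ((1 / 2 : ℝ≥0∞) • μ₃.map (fun x => x ^ 2)) ≤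
        JJ α τ V a' b' c') ∧
    μ₁.map (fun x => -x) = μ₁ ∧ μ₂.map (fun x => -x) = μ₂ ∧ μ₃.map (fun x => -x) = μ₃ := by
  have : IsFiniteMeasure μ₁ := p4_fin h.adm.mass₁ (by simp)
  have : IsFiniteMeasure μ₂ := p4_fin h.adm.mass₂ (by
    exact ENNReal.div_lt_top (by norm_num) (by norm_num))
  have : IsFiniteMeasure μ₃ := p4_fin h.adm.mass₃ (by
    exact ENNReal.div_lt_top (by norm_num) (by norm_num))
  obtain ⟨h1, -, -⟩ := adm_to_J hτ hV h.adm
  have h3 := adm_to_J3 hτ hV h.adm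
  have x1 := e8_exc μ₁ h.adm.en₁
  have x2 := e8_exc μ₂ h.adm.en₂
  have x3 := e8_exc μ₃ h.adm.en₃
  set a := (1 / 2 : ℝ≥0∞) • μ₁.map (fun x => x ^ 2) with ha
  set b := (1 / 2 : ℝ≥0∞) • μ₂.map (fun x => x ^ 2) with hb
  set c := (1 / 2 : ℝ≥0∞) • μ₃.map (fun x => x ^ 2) with hc
  set t1 := LL μ₁ μ₁ - LL μ₁ (μ₁.map (fun x => -x)) with ht1
  set t2 := LL μ₂ μ₂ - LL μ₂ (μ₂.map (fun x => -x)) with ht2
  set t3 := LL μ₃ μ₃ - LL μ₃ (μ₃.map (fun x => -x)) with ht3
  have n1 : 0 ≤ t1 := by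
    have := (e8_Phi_nonneg 1 μ₁ (μ₁.map (fun x => -x))).trans (x1 1 one_pos)
    linarith
  have n2 : 0 ≤ t2 := by
    have := (e8_Phi_nonneg 1 μ₂ (μ₂.map (fun x => -x))).trans (x2 1 one_pos)
    linarith
  have n3 : 0 ≤ t3 := by
    have := (e8_Phi_nonneg 1 μ₃ (μ₃.map (fun x => -x))).trans (x3 1 one_pos)
    linarith
  have hkey : ∀ a' b' c' : Measure ℝ, AdmJ α τ V a' b' c' →
      2 * JJ α τ V a b c + 1 / 2 * (t1 + t2 + t3) ≤ 2 * JJ α τ V a' b' c' := by
    intro a' b' c' h'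
    obtain ⟨ν₁, ν₂, ν₃, h4, h5⟩ := J_to_adm hτ hV h'
    rw [← h5, ← h3]
    exact h.min _ _ _ h4
  have h0 := hkey a b c h1
  have z1 : t1 = 0 := by linarith
  have z2 : t2 = 0 := by linarith
  have z3 : t3 = 0 := by linarith
  have hmap : ∀ μ : Measure ℝ, μ univ = (μ.map (fun x => -x)) univ := by
    intro μ
    rw [Measure.map_apply measurable_neg MeasurableSet.univ, preimage_univ]
  refine ⟨h1, fun a' b' c' h' => ?_, ?_, ?_, ?_⟩
  · have := hkey a' b' c' h'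
    linarith
  · refine (e8_eq_of_Phi μ₁ _ (hmap μ₁) fun s hs => ?_).symm
    have := x1 s hs
    rw [z1] at this
    linarith
  · refine (e8_eq_of_Phi μ₂ _ (hmap μ₂) fun s hs => ?_).symm
    have := x2 s hs
    rw [z2] at this
    linarith
  · refine (e8_eq_of_Phi μ₃ _ (hmap μ₃) fun s hs => ?_).symm
    have := x3 s hs
    rw [z3] at this
    linarith

theorem e8_Q_pos {α τ : ℝ} {V : ℝ → ℝ} {a b c a' b' c' : Measure ℝ}
    (h : AdmJ α τ V a b c) (h' : AdmJ α τ V a' b' c') (s : ℝ) (hs : 0 < s) :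
    1 / 4 * (Phi s a a' + Phi s (b.map (fun x => -x)) (b'.map (fun x => -x)) + Phi s c c') ≤
      p4_Q a a' b b' c c' := by
  have := p4_fin h.massa (by simp)
  have := p4_fin h.massb (by simp)
  have := p4_fin h.massc (by simp)
  have := p4_fin h'.massa (by simp)
  have := p4_fin h'.massb (by simp)
  have := p4_fin h'.massc (by simp)
  have hm : (b.map (fun x => -x)) univ = (b'.map (fun x => -x)) univ := by
    rw [Measure.map_apply measurable_neg MeasurableSet.univ,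
      Measure.map_apply measurable_neg MeasurableSet.univ, preimage_univ, h.massb, h'.massb]
  have hq := quad_pos3 s hs a a' (b.map (fun x => -x)) (b'.map (fun x => -x)) c c' h.ena h'.ena
    (p4_finEn_refl h.enb) (p4_finEn_refl h'.enb) h.enc h'.enc (h.massa.trans h'.massa.symm) hm
    (h.massc.trans h'.massc.symm)
  refine hq.trans (le_of_eq ?_)
  simp only [LD, p4_Q, p4_MD, p4_LL_three]
  simp only [p4_LL_one, p4_LL_two]
  ring

/-- uniqueness of the minimiser of `J` -/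
theorem e8_unique {α τ : ℝ} (hτ : 0 < τ) {V : ℝ → ℝ} {a b c a' b' c' : Measure ℝ}
    (h : AdmJ α τ V a b c)
    (hmin : ∀ a' b' c' : Measure ℝ, AdmJ α τ V a' b' c' → JJ α τ V a b c ≤ JJ α τ V a' b' c')
    (h' : AdmJ α τ V a' b' c')
    (hmin' : ∀ a'' b'' c'' : Measure ℝ, AdmJ α τ V a'' b'' c'' →
      JJ α τ V a' b' c' ≤ JJ α τ V a'' b'' c'') : a = a' ∧ b = b' ∧ c = c' := by
  have := p4_fin h.massa (by simp)
  have := p4_fin h.massb (by simp)
  have := p4_fin h.massc (by simp)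
  have := p4_fin h'.massa (by simp)
  have := p4_fin h'.massb (by simp)
  have := p4_fin h'.massc (by simp)
  have hJ : JJ α τ V a' b' c' = JJ α τ V a b c :=
    le_antisymm (hmin' _ _ _ h) (hmin _ _ _ h')
  have hQ0 : p4_Q a a' b b' c c' ≤ 0 := by
    have ht : (1 / 2 : ℝ≥0) ≤ 1 := by
      rw [div_le_one (by norm_num)]
      norm_num
    have h1 := p4_JJ_mix hτ h h' (1 / 2) ht
    have h2 := hmin _ _ _ (p4_adm_mix h h' (1 / 2) ht)
    rw [h1, hJ] at h2
    have h3 : ((1 / 2 : ℝ≥0) : ℝ) = 1 / 2 := by push_cast; rfl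
    rw [h3] at h2
    nlinarith
  have hall : ∀ s : ℝ, 0 < s → Phi s a a' ≤ 0 ∧
      Phi s (b.map (fun x => -x)) (b'.map (fun x => -x)) ≤ 0 ∧ Phi s c c' ≤ 0 := by
    intro s hs
    have h1 := (e8_Q_pos h h' s hs).trans hQ0
    have n1 := e8_Phi_nonneg s a a'
    have n2 := e8_Phi_nonneg s (b.map (fun x => -x)) (b'.map (fun x => -x))
    have n3 := e8_Phi_nonneg s c c'
    refine ⟨by linarith, by linarith, by linarith⟩
  have hm : (b.map (fun x => -x)) univ = (b'.map (fun x => -x)) univ := by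
    rw [Measure.map_apply measurable_neg MeasurableSet.univ,
      Measure.map_apply measurable_neg MeasurableSet.univ, preimage_univ, h.massb, h'.massb]
  refine ⟨e8_eq_of_Phi a a' (h.massa.trans h'.massa.symm) fun s hs => (hall s hs).1, ?_,
    e8_eq_of_Phi c c' (h.massc.trans h'.massc.symm) fun s hs => (hall s hs).2.2⟩
  have hb := e8_eq_of_Phi _ _ hm fun s hs => (hall s hs).2.1
  have h1 : ∀ ρ : Measure ℝ, (ρ.map (fun x => -x)).map (fun x => -x) = ρ := by
    intro ρ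
    rw [Measure.map_map measurable_neg measurable_neg]
    have : ((fun x : ℝ => -x) ∘ fun x => -x) = id := by
      funext x
      simp
    rw [this, Measure.map_id]
  rw [← h1 b, hb, h1]

theorem min_unique {α τ : ℝ} (hτ : 0 < τ) {V : ℝ → ℝ} (hV : Pot V)
    {μ₁ μ₂ μ₃ ν₁ ν₂ ν₃ : Measure ℝ} (h : IsMinimiser α τ V μ₁ μ₂ μ₃)
    (h' : IsMinimiser α τ V ν₁ ν₂ ν₃) : μ₁ = ν₁ ∧ μ₂ = ν₂ ∧ μ₃ = ν₃ := by
  have f23 : (2 / 3 : ℝ≥0∞) < ⊤ := ENNReal.div_lt_top (by norm_num) (by norm_num)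
  have f13 : (1 / 3 : ℝ≥0∞) < ⊤ := ENNReal.div_lt_top (by norm_num) (by norm_num)
  have : IsFiniteMeasure μ₁ := p4_fin h.adm.mass₁ (by simp)
  have : IsFiniteMeasure μ₂ := p4_fin h.adm.mass₂ f23
  have : IsFiniteMeasure μ₃ := p4_fin h.adm.mass₃ f13
  have : IsFiniteMeasure ν₁ := p4_fin h'.adm.mass₁ (by simp)
  have : IsFiniteMeasure ν₂ := p4_fin h'.adm.mass₂ f23
  have : IsFiniteMeasure ν₃ := p4_fin h'.adm.mass₃ f13
  obtain ⟨a1, a2, s1, s2, s3⟩ := e8_min hτ hV h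
  obtain ⟨b1, b2, r1, r2, r3⟩ := e8_min hτ hV h'
  obtain ⟨e1, e2, e3⟩ := e8_unique hτ a1 a2 b1 b2
  exact ⟨e8_eq_of_sq _ _ s1 r1 e1, e8_eq_of_sq _ _ s2 r2 e2, e8_eq_of_sq _ _ s3 r3 e3⟩

end

end Pool.Agent.MP_941b23_mp
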