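import Pool.Agent.MP_941b23_mp.Defs2
import Pool.Agent.MP_941b23_mp.M1b

/-!
# [QM-F1] integrability of the density
-/

namespace Pool.Agent.MP_941b23_mp

open MeasureTheory Set Filter Topology
open scoped ENNReal NNReal Real

noncomputable section

/-- growth of `V` -/
theorem f1_V (V : Polynomial ℝ) (hV : ∀ x, V.eval (-x) = V.eval x)
    (hdeg : 0 < V.natDegree) (hlead : 0 < V.leadingCoeff) :
    ∃ c C : ℝ, 0 < c ∧ ∀ x, c * x ^ 2 - C ≤ V.eval x := by
  have hV0 : V ≠ 0 := by rintro rfl; simp at hdeg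
  have hd2 : 2 ≤ V.natDegree := by
    by_contra hlt
    have h1 : V.natDegree = 1 := by omega
    have h2 : V = Polynomial.C (V.coeff 1) * Polynomial.X + Polynomial.C (V.coeff 0) :=
      Polynomial.eq_X_add_C_of_natDegree_le_one h1.le
    have h3 := hV 1
    rw [h2] at h3
    simp only [Polynomial.eval_add, Polynomial.eval_mul, Polynomial.eval_C, Polynomial.eval_X] at h3
    have h4 : V.coeff 1 = 0 := by linarith
    have h5 : V.leadingCoeff = V.coeff 1 := by rw [Polynomial.leadingCoeff, h1]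
    rw [h5, h4] at hlead
    exact lt_irrefl _ hlead
  -- growth at `+∞`
  obtain ⟨c, hc, hev⟩ : ∃ c : ℝ, 0 < c ∧ ∀ᶠ x : ℝ in atTop, c * x ^ 2 ≤ V.eval x := by
    have hQ : ((Polynomial.X : Polynomial ℝ) ^ 2).degree = 2 := by
      rw [Polynomial.degree_X_pow]; rfl
    have hQl : ((Polynomial.X : Polynomial ℝ) ^ 2).leadingCoeff = 1 := by
      rw [Polynomial.leadingCoeff_X_pow]
    rcases Nat.eq_or_lt_of_le hd2 with h | h
    · have hdd : V.degree = ((Polynomial.X : Polynomial ℝ) ^ 2).degree := by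
        rw [hQ, Polynomial.degree_eq_natDegree hV0, ← h]; rfl
      have ht := Polynomial.div_tendsto_atTop_leadingCoeff_div_of_degree_eq V _ hdd
      rw [hQl, div_one] at ht
      refine ⟨V.leadingCoeff / 2, by linarith, ?_⟩
      have h1 := ht.eventually (lt_mem_nhds (show V.leadingCoeff / 2 < V.leadingCoeff by linarith))
      filter_upwards [h1, eventually_gt_atTop 0] with x hx hx0
      rw [Polynomial.eval_pow, Polynomial.eval_X, lt_div_iff₀ (by positivity)] at hx
      exact hx.le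
    · have hdd : ((Polynomial.X : Polynomial ℝ) ^ 2).degree < V.degree := by
        rw [hQ, Polynomial.degree_eq_natDegree hV0]
        exact_mod_cast h
      have ht := Polynomial.div_tendsto_atTop_of_degree_gt V _ hdd
        (by
          intro h0
          have := congrArg (Polynomial.eval (1 : ℝ)) h0
          simp at this) (by rw [hQl, div_one]; exact hlead.le)
      refine ⟨1, one_pos, ?_⟩
      filter_upwards [ht.eventually_ge_atTop 1, eventually_gt_atTop 0] with x hx hx0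
      rw [Polynomial.eval_pow, Polynomial.eval_X, le_div_iff₀ (by positivity)] at hx
      exact hx
  obtain ⟨R, hR⟩ := eventually_atTop.1 hev
  set R' := max R 0 with hR'
  have hcont : Continuous fun x => V.eval x - c * x ^ 2 := by
    have := V.continuous
    fun_prop
  obtain ⟨x₀, -, hx₀⟩ := (isCompact_Icc (a := -R') (b := R')).exists_isMinOn
    ⟨0, by constructor <;> simp [hR']⟩ hcont.continuousOn
  refine ⟨c, |V.eval x₀ - c * x₀ ^ 2|, hc, fun x => ?_⟩
  by_cases hx : |x| ≤ R'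
  · have h1 : V.eval x₀ - c * x₀ ^ 2 ≤ V.eval x - c * x ^ 2 := hx₀ (abs_le.1 hx)
    have h2 := neg_abs_le (V.eval x₀ - c * x₀ ^ 2)
    linarith
  · push Not at hx
    have h1 : R ≤ |x| := (le_max_left R 0).trans hx.le
    have h2 := hR |x| h1
    rw [sq_abs] at h2
    have h3 : V.eval |x| = V.eval x := by
      rcases abs_choice x with h | h
      · rw [h]
      · rw [h, hV]
    rw [h3] at h2
    have h4 := abs_nonneg (V.eval x₀ - c * x₀ ^ 2)
    linarith

/-- growth of `W` -/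
theorem f1_W (α A y : ℝ) : A * y ^ 2 - (A - α / 2) ^ 2 ≤ Wr α y := by
  unfold Wr
  nlinarith [sq_nonneg (y ^ 2 / 2 - (A - α / 2))]

/-- the Frobenius norm -/
def f1_S {n : ℕ} (X : Fin n → Fin n → ℝ) : ℝ := ∑ i, ∑ j, ‖hmat X i j‖ ^ 2

theorem f1_herm {n : ℕ} (X : Fin n → Fin n → ℝ) (i j : Fin n) :
    hmat X j i = (starRingEnd ℂ) (hmat X i j) := by
  have h := congrFun (congrFun (hmat_isHermitian X) j) i
  rw [Matrix.conjTranspose_apply] at h
  exact h.symm

theorem f1_sum_sq {n : ℕ} (X : Fin n → Fin n → ℝ) : ∑ i, evs X i ^ 2 = f1_S X := by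
  have h := trace_aeval (Polynomial.X ^ 2) X
  simp only [map_pow, Polynomial.aeval_X, Polynomial.eval_pow, Polynomial.eval_X] at h
  have h2 : Matrix.trace (hmat X ^ 2) = ((f1_S X : ℝ) : ℂ) := by
    rw [pow_two, Matrix.trace]
    unfold f1_S
    push_cast
    refine Finset.sum_congr rfl fun i _ => ?_
    rw [Matrix.diag_apply, Matrix.mul_apply]
    refine Finset.sum_congr rfl fun j _ => ?_
    rw [f1_herm X i j, Complex.mul_conj, Complex.normSq_eq_norm_sq]
    push_cast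
    rfl
  rw [h2] at h
  exact_mod_cast h.symm

theorem f1_S_ge {n : ℕ} (X : Fin n → Fin n → ℝ) : ∑ i, ∑ j, X i j ^ 2 ≤ f1_S X := by
  -- compare the sums of the symmetrised terms
  have h1 : ∀ i j, X i j ^ 2 + X j i ^ 2 ≤ ‖hmat X i j‖ ^ 2 + ‖hmat X j i‖ ^ 2 := by
    intro i j
    rcases lt_trichotomy i j with h | h | h
    · have e1 : ‖hmat X i j‖ ^ 2 = X i j ^ 2 + X j i ^ 2 := by
        rw [← Complex.normSq_eq_norm_sq]
        simp [hmat, h.ne, h, Complex.normSq_apply]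
        ring
      have e2 : 0 ≤ ‖hmat X j i‖ ^ 2 := by positivity
      linarith
    · subst h
      have e1 : ‖hmat X i i‖ ^ 2 = X i i ^ 2 := by
        simp [hmat]
      linarith
    · have e1 : ‖hmat X j i‖ ^ 2 = X i j ^ 2 + X j i ^ 2 := by
        rw [← Complex.normSq_eq_norm_sq]
        simp [hmat, h.ne, h, Complex.normSq_apply]
        ring
      have e2 : 0 ≤ ‖hmat X i j‖ ^ 2 := by positivity
      linarith
  have h2 : ∑ i, ∑ j, (X i j ^ 2 + X j i ^ 2) ≤
      ∑ i, ∑ j, (‖hmat X i j‖ ^ 2 + ‖hmat X j i‖ ^ 2) :=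
    Finset.sum_le_sum fun i _ => Finset.sum_le_sum fun j _ => h1 i j
  simp only [Finset.sum_add_distrib] at h2
  have h3 : ∑ i, ∑ j, X j i ^ 2 = ∑ i, ∑ j, X i j ^ 2 := Finset.sum_comm
  have h4 : ∑ i, ∑ j, ‖hmat X j i‖ ^ 2 = ∑ i, ∑ j, ‖hmat X i j‖ ^ 2 := Finset.sum_comm
  rw [h3, h4] at h2
  unfold f1_S
  linarith

theorem f1_cross {n : ℕ} (X Y : Fin n → Fin n → ℝ) (τ c : ℝ) (hc : 0 < c) :
    τ * (Matrix.trace (hmat X * hmat Y)).re ≤
      c / 2 * f1_S X + τ ^ 2 / (2 * c) * f1_S Y := by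
  have h1 : ∀ a b : ℂ, τ * (a * b).re ≤ c / 2 * ‖a‖ ^ 2 + τ ^ 2 / (2 * c) * ‖b‖ ^ 2 := by
    intro a b
    have h2 : τ * (a * b).re ≤ |τ| * (‖a‖ * ‖b‖) := by
      rw [← norm_mul]
      calc τ * (a * b).re ≤ |τ * (a * b).re| := le_abs_self _
        _ = |τ| * |(a * b).re| := abs_mul _ _
        _ ≤ |τ| * ‖a * b‖ := mul_le_mul_of_nonneg_left (Complex.abs_re_le_norm _) (abs_nonneg _)
    have h3 : |τ| * (‖a‖ * ‖b‖) ≤ c / 2 * ‖a‖ ^ 2 + τ ^ 2 / (2 * c) * ‖b‖ ^ 2 := by
      have h4 : c / 2 * ‖a‖ ^ 2 + τ ^ 2 / (2 * c) * ‖b‖ ^ 2 - |τ| * (‖a‖ * ‖b‖) =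
          (c * ‖a‖ - |τ| * ‖b‖) ^ 2 / (2 * c) := by
        rw [← sq_abs τ]
        field_simp
        ring
      have h5 : 0 ≤ (c * ‖a‖ - |τ| * ‖b‖) ^ 2 / (2 * c) := by positivity
      linarith
    exact h2.trans h3
  have h6 : τ * (Matrix.trace (hmat X * hmat Y)).re =
      ∑ i, ∑ j, τ * (hmat X i j * hmat Y j i).re := by
    rw [Matrix.trace]
    simp only [Matrix.diag_apply, Matrix.mul_apply, Complex.re_sum, Finset.mul_sum]
  rw [h6]
  calc ∑ i, ∑ j, τ * (hmat X i j * hmat Y j i).re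
      ≤ ∑ i, ∑ j, (c / 2 * ‖hmat X i j‖ ^ 2 + τ ^ 2 / (2 * c) * ‖hmat Y j i‖ ^ 2) :=
        Finset.sum_le_sum fun i _ => Finset.sum_le_sum fun j _ => h1 _ _
    _ = c / 2 * f1_S X + τ ^ 2 / (2 * c) * ∑ i, ∑ j, ‖hmat Y j i‖ ^ 2 := by
        unfold f1_S
        simp only [Finset.sum_add_distrib, Finset.mul_sum]
    _ = c / 2 * f1_S X + τ ^ 2 / (2 * c) * f1_S Y := by
        rw [Finset.sum_comm]
        rfl

theorem f1_hmat_continuous {n : ℕ} : Continuous (hmat : (Fin n → Fin n → ℝ) → _) := by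
  refine continuous_pi fun i => continuous_pi fun j => ?_
  unfold hmat
  by_cases h1 : i = j
  · simp only [h1, if_true]
    fun_prop
  · by_cases h2 : i < j
    · simp only [h1, h2, if_true, if_false]
      fun_prop
    · simp only [h1, h2, if_false]
      fun_prop

theorem f1_wgt_continuous (n : ℕ) (V : Polynomial ℝ) (α τ : ℝ) :
    Continuous fun p : (Fin n → Fin n → ℝ) × (Fin n → Fin n → ℝ) => wgt n V α τ p.1 p.2 := by
  unfold wgt potM
  have hX : Continuous fun p : (Fin n → Fin n → ℝ) × (Fin n → Fin n → ℝ) => hmat p.1 :=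
    f1_hmat_continuous.comp continuous_fst
  have hY : Continuous fun p : (Fin n → Fin n → ℝ) × (Fin n → Fin n → ℝ) => hmat p.2 :=
    f1_hmat_continuous.comp continuous_snd
  have hVX : Continuous fun p : (Fin n → Fin n → ℝ) × (Fin n → Fin n → ℝ) =>
      Polynomial.aeval (hmat p.1) V := (Polynomial.continuous_aeval V).comp hX
  have h4 : Continuous fun p : (Fin n → Fin n → ℝ) × (Fin n → Fin n → ℝ) => hmat p.2 ^ 4 :=
    hY.pow 4
  have h2 : Continuous fun p : (Fin n → Fin n → ℝ) × (Fin n → Fin n → ℝ) => hmat p.2 ^ 2 :=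
    hY.pow 2
  have hXY : Continuous fun p : (Fin n → Fin n → ℝ) × (Fin n → Fin n → ℝ) =>
      hmat p.1 * hmat p.2 := hX.mul hY
  have h4' : Continuous fun p : (Fin n → Fin n → ℝ) × (Fin n → Fin n → ℝ) =>
      (1 / 4 : ℂ) • (hmat p.2) ^ 4 := h4.const_smul (1 / 4 : ℂ)
  have h2' : Continuous fun p : (Fin n → Fin n → ℝ) × (Fin n → Fin n → ℝ) =>
      ((α / 2 : ℝ) : ℂ) • (hmat p.2) ^ 2 := h2.const_smul ((α / 2 : ℝ) : ℂ)
  have hτ : Continuous fun p : (Fin n → Fin n → ℝ) × (Fin n → Fin n → ℝ) =>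
      (τ : ℂ) • (hmat p.1 * hmat p.2) := hXY.const_smul (τ : ℂ)
  have hs := (hVX.add (h4'.add h2')).sub hτ
  have htr := hs.matrix_trace
  exact Real.continuous_exp.comp (continuous_const.mul (Complex.continuous_re.comp htr))

theorem f1_gauss (n : ℕ) (b : ℝ) (hb : 0 < b) :
    Integrable (fun X : Fin n → Fin n → ℝ => Real.exp (-b * ∑ i, ∑ j, X i j ^ 2)) := by
  have h1 : Integrable (fun v : Fin n → ℝ => ∏ j, Real.exp (-b * v j ^ 2)) :=
    Integrable.fintype_prod (f := fun _ (x : ℝ) => Real.exp (-b * x ^ 2))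
      fun _ => integrable_exp_neg_mul_sq hb
  have h2 : Integrable (fun X : Fin n → Fin n → ℝ => ∏ i, ∏ j, Real.exp (-b * X i j ^ 2)) :=
    Integrable.fintype_prod (f := fun _ (v : Fin n → ℝ) => ∏ j, Real.exp (-b * v j ^ 2))
      fun _ => h1
  refine h2.congr (Eventually.of_forall fun X => ?_)
  simp only
  rw [Finset.mul_sum, Real.exp_sum]
  refine Finset.prod_congr rfl fun i _ => ?_
  rw [Finset.mul_sum, Real.exp_sum]

/-- Positivity and integrability of the partition function. -/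
theorem wgt_integrable (n : ℕ) (hn : 0 < n) (V : Polynomial ℝ) (hV : ∀ x, V.eval (-x) = V.eval x)
    (hdeg : 0 < V.natDegree) (hlead : 0 < V.leadingCoeff) (α τ : ℝ) (hτ : 0 < τ) :
    Integrable (fun p : (Fin n → Fin n → ℝ) × (Fin n → Fin n → ℝ) => wgt n V α τ p.1 p.2) := by
  obtain ⟨c, C, hc, hVc⟩ := f1_V V hV hdeg hlead
  set A : ℝ := τ ^ 2 / (2 * c) + 1 with hA
  set D : ℝ := (A - α / 2) ^ 2 with hD
  set m : ℝ := min (c / 2) 1 with hm
  have hm0 : 0 < m := lt_min (by linarith) one_pos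
  have hn' : (0 : ℝ) < n := by exact_mod_cast hn
  -- the lower bound of the exponent
  have key : ∀ X Y : Fin n → Fin n → ℝ,
      m * (∑ i, ∑ j, X i j ^ 2) + m * (∑ i, ∑ j, Y i j ^ 2) - n * (C + D) ≤
        (Matrix.trace (potM V α τ X Y)).re := by
    intro X Y
    have e1 : (Matrix.trace (potM V α τ X Y)).re =
        ∑ i, V.eval (evs X i) + ∑ i, Wr α (evs Y i) - τ * (Matrix.trace (hmat X * hmat Y)).re := by
      unfold potM
      rw [Matrix.trace_sub, Matrix.trace_add, trace_aeval, trace_W, Matrix.trace_smul,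
        Complex.sub_re, Complex.add_re, Complex.ofReal_re, Complex.ofReal_re, smul_eq_mul,
        Complex.re_ofReal_mul]
    have e2 : c * f1_S X - n * C ≤ ∑ i, V.eval (evs X i) := by
      rw [← f1_sum_sq, Finset.mul_sum]
      calc ∑ i, c * evs X i ^ 2 - n * C = ∑ i, (c * evs X i ^ 2 - C) := by
            rw [Finset.sum_sub_distrib, Finset.sum_const, Finset.card_univ, Fintype.card_fin,
              nsmul_eq_mul]
        _ ≤ ∑ i, V.eval (evs X i) := Finset.sum_le_sum fun i _ => hVc _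
    have e3 : A * f1_S Y - n * D ≤ ∑ i, Wr α (evs Y i) := by
      rw [← f1_sum_sq, Finset.mul_sum]
      calc ∑ i, A * evs Y i ^ 2 - n * D = ∑ i, (A * evs Y i ^ 2 - D) := by
            rw [Finset.sum_sub_distrib, Finset.sum_const, Finset.card_univ, Fintype.card_fin,
              nsmul_eq_mul]
        _ ≤ ∑ i, Wr α (evs Y i) := Finset.sum_le_sum fun i _ => f1_W α A _
    have e4 := f1_cross X Y τ c hc
    have e5 := f1_S_ge X
    have e6 := f1_S_ge Y
    have s1 : 0 ≤ ∑ i, ∑ j, X i j ^ 2 :=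
      Finset.sum_nonneg fun i _ => Finset.sum_nonneg fun j _ => sq_nonneg _
    have s2 : 0 ≤ ∑ i, ∑ j, Y i j ^ 2 :=
      Finset.sum_nonneg fun i _ => Finset.sum_nonneg fun j _ => sq_nonneg _
    have e7 : m * (∑ i, ∑ j, X i j ^ 2) ≤ c / 2 * f1_S X :=
      mul_le_mul (min_le_left _ _) e5 s1 (by linarith)
    have e8 : m * (∑ i, ∑ j, Y i j ^ 2) ≤ 1 * f1_S Y :=
      mul_le_mul (min_le_right _ _) e6 s2 one_pos.le
    have e9 : A * f1_S Y = τ ^ 2 / (2 * c) * f1_S Y + f1_S Y := by rw [hA]; ring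
    rw [e1]
    linarith
  have hg := (f1_gauss n (n * m) (by positivity)).mul_prod (f1_gauss n (n * m) (by positivity))
  have hg2 := hg.const_mul (Real.exp (n * (n * (C + D))))
  rw [← Measure.volume_eq_prod] at hg2
  refine hg2.mono' (f1_wgt_continuous n V α τ).aestronglyMeasurable
    (Eventually.of_forall fun p => ?_)
  rw [Real.norm_eq_abs]
  unfold wgt
  rw [Real.abs_exp, ← Real.exp_add, ← Real.exp_add, Real.exp_le_exp]
  have h := key p.1 p.2
  have h2 := mul_le_mul_of_nonneg_left h hn'.le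
  linarith

end

end Pool.Agent.MP_941b23_mp
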