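import Pool.Agent.MP_941b23_mp.Defs2

namespace Pool.Agent.MP_941b23_mp

open MeasureTheory Set Filter Topology
open scoped ENNReal NNReal Real

noncomputable section

/-! ## elementary facts -/

theorem f2_bddBelow (W : Polynomial ℝ) (hW : ∀ x, W.eval (-x) = W.eval x)
    (hdeg : 0 < W.natDegree) (hlead : 0 < W.leadingCoeff) : ∃ C : ℝ, ∀ x, -C ≤ W.eval x := by
  have h1 : Tendsto (fun x => W.eval x) atTop atTop :=
    W.tendsto_atTop_of_leadingCoeff_nonneg (Polynomial.natDegree_pos_iff_degree_pos.1 hdeg) hlead.le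
  obtain ⟨R, hR⟩ := (eventually_atTop.1 (h1.eventually_ge_atTop 0))
  obtain ⟨x0, -, hx0⟩ := isCompact_Icc.exists_isMinOn (s := Icc (-(max R 0)) (max R 0))
    ⟨0, by simp⟩ (W.continuous.continuousOn)
  refine ⟨|W.eval x0|, fun x => ?_⟩
  by_cases hx : x ∈ Icc (-(max R 0)) (max R 0)
  · have := hx0 hx
    simp only [mem_ofPred_eq] at this
    have h2 := neg_abs_le (W.eval x0)
    linarith [isMinOn_iff.1 hx0 x hx]
  · have h3 : 0 ≤ W.eval x := by
      rcases le_or_gt 0 x with h | h
      · apply hR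
        by_contra hc
        push Not at hc
        exact hx ⟨by linarith [le_max_right R 0], hc.le.trans (le_max_left _ _)⟩
      · rw [← hW]
        apply hR
        by_contra hc
        push Not at hc
        exact hx ⟨by linarith [le_max_left R 0], by linarith [le_max_right R 0]⟩
    linarith [abs_nonneg (W.eval x0)]

theorem f2_even_deg (V : Polynomial ℝ) (hV : ∀ x, V.eval (-x) = V.eval x)
    (hlead : 0 < V.leadingCoeff) : Even V.natDegree := by
  have h1 : V.comp (-Polynomial.X) = V := by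
    apply Polynomial.funext
    intro x
    simp [Polynomial.eval_comp, hV]
  have h2 : (V.comp (-Polynomial.X)).leadingCoeff = V.leadingCoeff := by rw [h1]
  rw [Polynomial.leadingCoeff_comp (by simp)] at h2
  simp only [Polynomial.leadingCoeff_neg, Polynomial.leadingCoeff_X] at h2
  by_contra hc
  rw [Nat.not_even_iff_odd] at hc
  rw [hc.neg_one_pow] at h2
  linarith

/-- `V - c X^k` is bounded below for `k ≤ deg`, `0 < c < lead`. -/
theorem f2_sub (V : Polynomial ℝ) (hV : ∀ x, V.eval (-x) = V.eval x)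
    (hdeg : 0 < V.natDegree) (hlead : 0 < V.leadingCoeff) (k : ℕ) (hk : Even k)
    (hkd : k ≤ V.natDegree) : ∃ C : ℝ, ∀ x, V.leadingCoeff / 2 * x ^ k - C ≤ V.eval x := by
  set W : Polynomial ℝ := V - Polynomial.C (V.leadingCoeff / 2) * Polynomial.X ^ k with hWdef
  have hc : 0 < V.leadingCoeff / 2 := by positivity
  have hcoef : W.coeff V.natDegree = if k = V.natDegree then V.leadingCoeff / 2
      else V.leadingCoeff := by
    rw [hWdef, Polynomial.coeff_sub, Polynomial.coeff_C_mul, Polynomial.coeff_X_pow]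
    rcases eq_or_ne k V.natDegree with h | h
    · rw [if_pos h, if_pos h.symm, Polynomial.coeff_natDegree]; ring
    · rw [if_neg h, if_neg (Ne.symm h), Polynomial.coeff_natDegree]; ring
  have hpos : 0 < W.coeff V.natDegree := by
    rw [hcoef]; split_ifs <;> assumption
  have hle : W.natDegree ≤ V.natDegree := by
    refine (Polynomial.natDegree_sub_le _ _).trans (max_le le_rfl ?_)
    exact (Polynomial.natDegree_C_mul_X_pow_le _ _).trans hkd
  have heq : W.natDegree = V.natDegree :=
    le_antisymm hle (Polynomial.le_natDegree_of_ne_zero hpos.ne')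
  obtain ⟨C, hC⟩ := f2_bddBelow W (by
      intro x
      simp only [hWdef, Polynomial.eval_sub, Polynomial.eval_mul, Polynomial.eval_C,
        Polynomial.eval_pow, Polynomial.eval_X, hV, hk.neg_pow]) (by rw [heq]; exact hdeg)
      (by rw [Polynomial.leadingCoeff, heq]; exact hpos)
  refine ⟨C, fun x => ?_⟩
  have := hC x
  simp only [hWdef, Polynomial.eval_sub, Polynomial.eval_mul, Polynomial.eval_C,
        Polynomial.eval_pow, Polynomial.eval_X] at this
  linarith

theorem f2_pot (V : Polynomial ℝ) (hV : ∀ x, V.eval (-x) = V.eval x)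
    (hdeg : 0 < V.natDegree) (hlead : 0 < V.leadingCoeff) : Pot (fun x => V.eval x) := by
  refine ⟨V.continuous, hV, ?_⟩
  have h2 : 2 ≤ V.natDegree := by
    have := f2_even_deg V hV hlead
    rcases this with ⟨r, hr⟩
    omega
  obtain ⟨C, hC⟩ := f2_sub V hV hdeg hlead 2 even_two h2
  exact ⟨V.leadingCoeff / 2, C, by positivity, hC⟩

theorem f2_abs_le (V : Polynomial ℝ) : ∃ C : ℝ, 0 ≤ C ∧ ∀ x, |V.eval x| ≤
    C * (1 + |x| ^ V.natDegree) := by
  refine ⟨∑ i ∈ Finset.range (V.natDegree + 1), |V.coeff i|, by positivity, fun x => ?_⟩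
  rw [Polynomial.eval_eq_sum_range, Finset.sum_mul]
  refine (Finset.abs_sum_le_sum_abs _ _).trans (Finset.sum_le_sum fun i hi => ?_)
  rw [abs_mul, abs_pow]
  apply mul_le_mul_of_nonneg_left _ (abs_nonneg _)
  have hi' : i ≤ V.natDegree := Nat.lt_succ_iff.1 (Finset.mem_range.1 hi)
  rcases le_or_gt |x| 1 with h | h
  · have := pow_le_one₀ (abs_nonneg x) h (n := i)
    have h2 : 0 ≤ |x| ^ V.natDegree := by positivity
    linarith
  · have := pow_le_pow_right₀ h.le hi'
    linarith

theorem f2_dbl (V : Polynomial ℝ) (hV : ∀ x, V.eval (-x) = V.eval x)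
    (hdeg : 0 < V.natDegree) (hlead : 0 < V.leadingCoeff) :
    ∃ C : ℝ, ∀ s ∈ Icc (1 : ℝ) 2, ∀ x, |V.eval (s * x)| ≤ C * (1 + |V.eval x|) := by
  obtain ⟨A, hA0, hA⟩ := f2_abs_le V
  have hev := f2_even_deg V hV hlead
  obtain ⟨B, hB⟩ := f2_sub V hV hdeg hlead V.natDegree hev le_rfl
  set d := V.natDegree with hd
  set l := V.leadingCoeff with hl
  refine ⟨A * (1 + 2 ^ d * ((2 / l) * (1 + |B|))), fun s hs x => ?_⟩
  have h1 : |x| ^ d ≤ (2 / l) * (1 + |B|) * (1 + |V.eval x|) := by
    have h2 := hB x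
    rw [← hev.pow_abs] at h2
    have h3 : l / 2 * |x| ^ d ≤ V.eval x + B := by linarith
    have h4 : V.eval x + B ≤ (1 + |B|) * (1 + |V.eval x|) := by
      nlinarith [le_abs_self (V.eval x), le_abs_self B, abs_nonneg B, abs_nonneg (V.eval x),
        mul_nonneg (abs_nonneg B) (abs_nonneg (V.eval x))]
    have h5 : |x| ^ d = (2 / l) * (l / 2 * |x| ^ d) := by field_simp
    rw [h5, mul_assoc]
    apply mul_le_mul_of_nonneg_left (h3.trans h4) (by positivity)
  have hs0 : 0 ≤ s := by linarith [hs.1]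
  have h6 : |s * x| ^ d ≤ 2 ^ d * |x| ^ d := by
    rw [abs_mul, mul_pow, abs_of_nonneg hs0]
    apply mul_le_mul_of_nonneg_right _ (by positivity)
    exact pow_le_pow_left₀ hs0 hs.2 d
  calc |V.eval (s * x)| ≤ A * (1 + |s * x| ^ d) := hA _
    _ ≤ A * (1 + 2 ^ d * ((2 / l) * (1 + |B|) * (1 + |V.eval x|))) := by
        apply mul_le_mul_of_nonneg_left _ hA0
        have : 2 ^ d * |x| ^ d ≤ 2 ^ d * ((2 / l) * (1 + |B|) * (1 + |V.eval x|)) :=
          mul_le_mul_of_nonneg_left h1 (by positivity)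
        linarith
    _ ≤ A * (1 + 2 ^ d * ((2 / l) * (1 + |B|))) * (1 + |V.eval x|) := by
        rw [mul_assoc A]
        apply mul_le_mul_of_nonneg_left _ hA0
        have : 0 ≤ |V.eval x| := abs_nonneg _
        nlinarith

end

end Pool.Agent.MP_941b23_mp
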