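import Pool.Agent.MP_941b23_mp.Defs2

/-!
# [QM-L2a] Jensen's inequality and one/two point integrals of product measures
-/

namespace Pool.Agent.MP_941b23_mp

open MeasureTheory Set Filter Topology
open scoped ENNReal NNReal Real

noncomputable section

theorem jensen_lintegral {E : Type} [MeasurableSpace E] (P : Measure E) [IsProbabilityMeasure P]
    (F : E → ℝ) (hF : ∀ᵐ x ∂P, 0 < F x) (h : Integrable (fun x => Real.log (F x)) P) :
    ENNReal.ofReal (Real.exp (∫ x, Real.log (F x) ∂P)) ≤ ∫⁻ x, ENNReal.ofReal (F x) ∂P := by
  have hae : (fun x => Real.exp (Real.log (F x))) =ᵐ[P] F := by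
    filter_upwards [hF] with x hx
    exact Real.exp_log hx
  have hl : ∫⁻ x, ENNReal.ofReal (F x) ∂P =
      ∫⁻ x, ENNReal.ofReal (Real.exp (Real.log (F x))) ∂P := by
    refine lintegral_congr_ae ?_
    filter_upwards [hae] with x hx
    rw [hx]
  rw [hl]
  by_cases htop : ∫⁻ x, ENNReal.ofReal (Real.exp (Real.log (F x))) ∂P = ⊤
  · rw [htop]; exact le_top
  have hmeas : AEStronglyMeasurable (fun x => Real.exp (Real.log (F x))) P :=
    Real.continuous_exp.comp_aestronglyMeasurable h.aestronglyMeasurable
  have hint : Integrable (fun x => Real.exp (Real.log (F x))) P := by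
    refine ⟨hmeas, ?_⟩
    rw [hasFiniteIntegral_iff_ofReal (Eventually.of_forall fun x => (Real.exp_pos _).le)]
    exact lt_top_iff_ne_top.2 htop
  rw [← ofReal_integral_eq_lintegral_ofReal hint
    (Eventually.of_forall fun x => (Real.exp_pos _).le)]
  refine ENNReal.ofReal_le_ofReal ?_
  exact convexOn_exp.map_integral_le Real.continuous_exp.continuousOn isClosed_univ
    (Eventually.of_forall fun _ => mem_univ _) h hint

theorem pi_integral_one {E : Type} [MeasurableSpace E] (p : Measure E) [IsProbabilityMeasure p]
    {m : ℕ} (i : Fin m) (f : E → ℝ) (hf : Integrable f p) :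
    Integrable (fun x : Fin m → E => f (x i)) (Measure.pi fun _ => p) ∧
    ∫ x : Fin m → E, f (x i) ∂(Measure.pi fun _ => p) = ∫ x, f x ∂p := by
  have hmp : MeasurePreserving (Function.eval i) (Measure.pi fun _ : Fin m => p) p :=
    measurePreserving_eval (fun _ : Fin m => p) i
  constructor
  · exact (hmp.integrable_comp hf.aestronglyMeasurable).2 hf
  · have h := integral_map (μ := Measure.pi fun _ : Fin m => p) (φ := Function.eval i)
      hmp.measurable.aemeasurable (f := f) (by rw [hmp.map_eq]; exact hf.aestronglyMeasurable)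
    rw [hmp.map_eq] at h
    exact h.symm

theorem l2a_map {E : Type} [MeasurableSpace E] (p : Measure E) [IsProbabilityMeasure p]
    {m : ℕ} (i j : Fin m) (hij : i ≠ j) :
    MeasurePreserving (fun x : Fin m → E => (x i, x j)) (Measure.pi fun _ => p) (p.prod p) := by
  classical
  have hm : Measurable (fun x : Fin m → E => (x i, x j)) :=
    (measurable_pi_apply i).prodMk (measurable_pi_apply j)
  refine ⟨hm, ?_⟩
  symm
  refine Measure.prod_eq fun s t hs ht => ?_
  rw [Measure.map_apply hm (hs.prod ht)]
  have hset : (fun x : Fin m → E => (x i, x j)) ⁻¹' (s ×ˢ t) =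
      Set.univ.pi fun k => if k = i then s else if k = j then t else univ := by
    ext x
    simp only [mem_preimage, mem_prod, mem_univ_pi]
    constructor
    · rintro ⟨h1, h2⟩ k
      by_cases hki : k = i
      · subst hki; simpa using h1
      · by_cases hkj : k = j
        · subst hkj; simpa [hki] using h2
        · simp [hki, hkj]
    · intro h
      refine ⟨?_, ?_⟩
      · simpa using h i
      · simpa [hij.symm] using h j
  rw [hset, Measure.pi_pi]
  have h1 : ∀ k : Fin m, p (if k = i then s else if k = j then t else univ) =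
      (if k = i then p s else 1) * (if k = j then p t else 1) := by
    intro k
    by_cases hki : k = i
    · subst hki
      simp [hij]
    · by_cases hkj : k = j
      · subst hkj
        simp [hki]
      · simp [hki, hkj]
  simp_rw [h1]
  rw [Finset.prod_mul_distrib]
  simp

theorem pi_integral_two {E : Type} [MeasurableSpace E] (p : Measure E) [IsProbabilityMeasure p]
    {m : ℕ} (i j : Fin m) (hij : i ≠ j) (f : E × E → ℝ) (hf : Integrable f (p.prod p)) :
    Integrable (fun x : Fin m → E => f (x i, x j)) (Measure.pi fun _ => p) ∧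
    ∫ x : Fin m → E, f (x i, x j) ∂(Measure.pi fun _ => p) = ∫ z, f z ∂(p.prod p) := by
  have hmp := l2a_map p i j hij
  constructor
  · exact (hmp.integrable_comp hf.aestronglyMeasurable).2 hf
  · have h := integral_map (μ := Measure.pi fun _ : Fin m => p)
      (φ := fun x : Fin m → E => (x i, x j))
      hmp.measurable.aemeasurable (f := f) (by rw [hmp.map_eq]; exact hf.aestronglyMeasurable)
    rw [hmp.map_eq] at h
    exact h.symm

end

end Pool.Agent.MP_941b23_mp
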