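import Pool.Agent.MP_941b23_mp.Defs2
import Pool.Agent.MP_941b23_mp.L2a
import Pool.Agent.MP_941b23_mp.M1
import Pool.Agent.MP_941b23_mp.M1b

namespace Pool.Agent.MP_941b23_mp

open MeasureTheory Set Filter Topology
open scoped ENNReal NNReal Real

noncomputable section

/-- the part of the weight not involving `V` -/
def f2_w0 (n : ℕ) (α τ : ℝ) (X Y : Fin n → Fin n → ℝ) : ℝ :=
  Real.exp (-(n : ℝ) * (Matrix.trace
      ((1 / 4 : ℂ) • (hmat Y) ^ 4 + ((α / 2 : ℝ) : ℂ) • (hmat Y) ^ 2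
        - (τ : ℂ) • (hmat X * hmat Y))).re)

theorem f2_wgt_eq (n : ℕ) (V : Polynomial ℝ) (α τ : ℝ) (X Y : Fin n → Fin n → ℝ) :
    wgt n V α τ X Y = (∏ i, Real.exp (-(n * V.eval (evs X i)))) * f2_w0 n α τ X Y := by
  have h1 : Matrix.trace (potM V α τ X Y) = ((∑ i, V.eval (evs X i) : ℝ) : ℂ) +
      Matrix.trace ((1 / 4 : ℂ) • (hmat Y) ^ 4 + ((α / 2 : ℝ) : ℂ) • (hmat Y) ^ 2
        - (τ : ℂ) • (hmat X * hmat Y)) := by
    rw [potM, add_sub_assoc, Matrix.trace_add, trace_aeval]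
  rw [wgt, h1, Complex.add_re, Complex.ofReal_re, mul_add, Real.exp_add, f2_w0, ← Real.exp_sum]
  congr 2
  rw [Finset.mul_sum]
  simp

theorem f2_measurable_hmat {n : ℕ} : Continuous (hmat : (Fin n → Fin n → ℝ) → _) := by
  refine continuous_pi fun i => continuous_pi fun j => ?_
  unfold hmat
  split_ifs <;> fun_prop

theorem f2_evs_sum {n : ℕ} (X : Fin n → Fin n → ℝ) (f : ℝ → ℝ) :
    ∑ i, f (evs X i) = ∑ i, f (evd X i) := by
  obtain ⟨σ, hσ⟩ := evs_eq_perm X
  rw [← Equiv.sum_comp σ (fun i => f (evd X i))]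
  exact Finset.sum_congr rfl fun i _ => by rw [hσ i]

theorem f2_evs_prod {n : ℕ} (X : Fin n → Fin n → ℝ) (f : ℝ → ℝ) :
    ∏ i, f (evs X i) = ∏ i, f (evd X i) := by
  obtain ⟨σ, hσ⟩ := evs_eq_perm X
  rw [← Equiv.prod_comp σ (fun i => f (evd X i))]
  exact Finset.prod_congr rfl fun i _ => by rw [hσ i]

theorem f2_cont_sum {n : ℕ} (f : ℝ → ℝ) (hf : Continuous f) :
    Continuous fun X : Fin n → Fin n → ℝ => ∑ i, f (evs X i) := by
  simp_rw [f2_evs_sum]
  exact continuous_finsetSum _ fun i _ => hf.comp ((continuous_apply i).comp continuous_evd)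

theorem f2_cont_prod {n : ℕ} (f : ℝ → ℝ) (hf : Continuous f) :
    Continuous fun X : Fin n → Fin n → ℝ => ∏ i, f (evs X i) := by
  simp_rw [f2_evs_prod]
  exact continuous_finsetProd _ fun i _ => hf.comp ((continuous_apply i).comp continuous_evd)

theorem f2_cont_w0 {n : ℕ} (α τ : ℝ) :
    Continuous fun p : (Fin n → Fin n → ℝ) × (Fin n → Fin n → ℝ) => f2_w0 n α τ p.1 p.2 := by
  unfold f2_w0
  have h1 : Continuous fun p : (Fin n → Fin n → ℝ) × (Fin n → Fin n → ℝ) => hmat p.1 :=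
    f2_measurable_hmat.comp continuous_fst
  have h2 : Continuous fun p : (Fin n → Fin n → ℝ) × (Fin n → Fin n → ℝ) => hmat p.2 :=
    f2_measurable_hmat.comp continuous_snd
  apply Real.continuous_exp.comp
  apply continuous_const.mul
  apply Complex.continuous_re.comp
  apply Continuous.matrix_trace
  exact (((h2.pow 4).const_smul (1 / 4 : ℂ)).add ((h2.pow 2).const_smul ((α / 2 : ℝ) : ℂ))).sub
    ((h1.mul h2).const_smul (τ : ℂ))

theorem f2_cont_wgt {n : ℕ} (V : Polynomial ℝ) (α τ : ℝ) :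
    Continuous fun p : (Fin n → Fin n → ℝ) × (Fin n → Fin n → ℝ) => wgt n V α τ p.1 p.2 := by
  simp_rw [f2_wgt_eq]
  refine Continuous.mul ?_ (f2_cont_w0 α τ)
  exact (f2_cont_prod (fun x => Real.exp (-(n * V.eval x))) (by
    have := V.continuous; fun_prop)).comp continuous_fst

theorem f2_wgt_pos {n : ℕ} (V : Polynomial ℝ) (α τ : ℝ) (X Y : Fin n → Fin n → ℝ) :
    0 < wgt n V α τ X Y := Real.exp_pos _

section prob

variable (n : ℕ) (V : Polynomial ℝ) (α τ : ℝ)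

theorem f2_open (n : ℕ) :
    (volume : Measure ((Fin n → Fin n → ℝ) × (Fin n → Fin n → ℝ))).IsOpenPosMeasure := by
  rw [Measure.volume_eq_prod]
  have h2 : (volume : Measure (Fin n → Fin n → ℝ)).IsOpenPosMeasure := by
    rw [volume_pi]; exact MeasureTheory.Measure.pi.isOpenPosMeasure _
  infer_instance

/-- integrability hypothesis -/
def f2_I : Prop := Integrable
  (fun p : (Fin n → Fin n → ℝ) × (Fin n → Fin n → ℝ) => wgt n V α τ p.1 p.2)

/-- Gibbs measure -/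
def f2_P : Measure ((Fin n → Fin n → ℝ) × (Fin n → Fin n → ℝ)) :=
  volume.withDensity fun p => ENNReal.ofReal (wgt n V α τ p.1 p.2 / partZ n V α τ)

variable {n V α τ}

theorem f2_partZ_eq (h : f2_I n V α τ) : partZ n V α τ =
    ∫ p : (Fin n → Fin n → ℝ) × (Fin n → Fin n → ℝ), wgt n V α τ p.1 p.2 := by
  rw [partZ]
  exact (integral_prod _ h).symm

theorem f2_partZ_pos (h : f2_I n V α τ) : 0 < partZ n V α τ := by
  rw [f2_partZ_eq h, integral_pos_iff_support_of_nonneg (fun p => (f2_wgt_pos V α τ _ _).le) h]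
  have : Function.support (fun p : (Fin n → Fin n → ℝ) × (Fin n → Fin n → ℝ) =>
      wgt n V α τ p.1 p.2) = univ := by
    ext p; simp [(f2_wgt_pos V α τ p.1 p.2).ne']
  rw [this]
  have := f2_open n
  exact isOpen_univ.measure_pos _ univ_nonempty

theorem f2_isProb (h : f2_I n V α τ) : IsProbabilityMeasure (f2_P n V α τ) := by
  constructor
  rw [f2_P, withDensity_apply _ MeasurableSet.univ, Measure.restrict_univ,
    ← ofReal_integral_eq_lintegral_ofReal (h.div_const _) (ae_of_all _ fun p =>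
      div_nonneg (f2_wgt_pos V α τ _ _).le (f2_partZ_pos h).le), integral_div, ← f2_partZ_eq h,
    div_self (f2_partZ_pos h).ne', ENNReal.ofReal_one]

theorem f2_integral_P (h : f2_I n V α τ) (F : (Fin n → Fin n → ℝ) → ℝ) (hF : Continuous F)
    (C : ℝ) (hC : ∀ X, |F X| ≤ C) :
    Integrable (fun p => F p.1) (f2_P n V α τ) ∧
    ∫ p, F p.1 ∂(f2_P n V α τ) =
      (∫ X : Fin n → Fin n → ℝ, ∫ Y : Fin n → Fin n → ℝ, F X * wgt n V α τ X Y) /
        partZ n V α τ := by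
  have hp := f2_isProb h
  have hint : Integrable (fun p => F p.1) (f2_P n V α τ) :=
    Integrable.of_bound (hF.comp continuous_fst).aestronglyMeasurable C
      (ae_of_all _ fun p => by rw [Real.norm_eq_abs]; exact hC _)
  refine ⟨hint, ?_⟩
  have hm : Measurable fun p : (Fin n → Fin n → ℝ) × (Fin n → Fin n → ℝ) =>
      ENNReal.ofReal (wgt n V α τ p.1 p.2 / partZ n V α τ) :=
    ((f2_cont_wgt V α τ).measurable.div_const _).ennreal_ofReal
  rw [f2_P, integral_withDensity_eq_integral_toReal_smul hm (ae_of_all _ fun p =>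
    ENNReal.ofReal_lt_top)]
  have h2 : Integrable (fun p : (Fin n → Fin n → ℝ) × (Fin n → Fin n → ℝ) =>
      F p.1 * wgt n V α τ p.1 p.2) := by
    refine (h.norm.const_mul C).mono ((hF.comp continuous_fst).aestronglyMeasurable.mul
      (f2_cont_wgt V α τ).aestronglyMeasurable) (ae_of_all _ fun p => ?_)
    rw [norm_mul, norm_mul, norm_norm, Real.norm_eq_abs (F p.1), Real.norm_eq_abs C]
    exact mul_le_mul_of_nonneg_right ((hC _).trans (le_abs_self C)) (norm_nonneg _)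
  rw [← integral_prod _ h2, ← integral_div]
  refine integral_congr_ae (ae_of_all _ fun p => ?_)
  simp only [smul_eq_mul]
  rw [ENNReal.toReal_ofReal (div_nonneg (f2_wgt_pos V α τ _ _).le (f2_partZ_pos h).le)]
  ring

theorem f2_meanEig (h : f2_I n V α τ) (φ : ℝ → ℝ) (hφ : Continuous φ) (C : ℝ)
    (hC : ∀ x, |φ x| ≤ C) :
    Integrable (fun p => (1 / (n : ℝ)) * ∑ i, φ (evs p.1 i)) (f2_P n V α τ) ∧
    meanEig n V α τ φ = ∫ p, (1 / (n : ℝ)) * ∑ i, φ (evs p.1 i) ∂(f2_P n V α τ) := by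
  have hC0 : 0 ≤ C := (abs_nonneg _).trans (hC 0)
  obtain ⟨h1, h2⟩ := f2_integral_P h (fun X => (1 / (n : ℝ)) * ∑ i, φ (evs X i))
    (continuous_const.mul (f2_cont_sum φ hφ)) ((1 / (n : ℝ)) * (n * C)) (fun X => by
      rw [abs_mul, abs_of_nonneg (by positivity : (0 : ℝ) ≤ 1 / n)]
      apply mul_le_mul_of_nonneg_left _ (by positivity)
      refine (Finset.abs_sum_le_sum_abs _ _).trans ?_
      refine (Finset.sum_le_sum fun i _ => hC (evs X i)).trans ?_
      simp)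
  exact ⟨h1, by rw [h2, meanEig]⟩

/-- the perturbed weight -/
def f2_h (n : ℕ) (V : Polynomial ℝ) (s : ℝ) (φ : ℝ → ℝ) (x : ℝ) : ℝ :=
  Real.exp (-(n * (V.eval x + s * φ (x ^ 2))))

theorem f2_ZZ (h : f2_I n V α τ) (s : ℝ) (φ : ℝ → ℝ) (hφ : Continuous φ) :
    ZZ n α τ (f2_h n V s φ) = ENNReal.ofReal (partZ n V α τ) *
      ∫⁻ p, ENNReal.ofReal (Real.exp (-(n * s * ∑ i, φ ((evs p.1 i) ^ 2)))) ∂(f2_P n V α τ) := by
  have hm : Measurable fun p : (Fin n → Fin n → ℝ) × (Fin n → Fin n → ℝ) =>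
      ENNReal.ofReal (wgt n V α τ p.1 p.2 / partZ n V α τ) :=
    ((f2_cont_wgt V α τ).measurable.div_const _).ennreal_ofReal
  have hcE : Continuous fun X : Fin n → Fin n → ℝ =>
      Real.exp (-(n * s * ∑ i, φ ((evs X i) ^ 2))) :=
    Real.continuous_exp.comp ((continuous_const.mul
      (f2_cont_sum (fun x => φ (x ^ 2)) (hφ.comp (continuous_pow 2)))).neg)
  have h1 : ∀ X Y : Fin n → Fin n → ℝ,
      (∏ i, f2_h n V s φ (evs X i)) * f2_w0 n α τ X Y =
        wgt n V α τ X Y * Real.exp (-(n * s * ∑ i, φ ((evs X i) ^ 2))) := by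
    intro X Y
    rw [f2_wgt_eq]
    have : ∏ i, f2_h n V s φ (evs X i) = (∏ i, Real.exp (-(n * V.eval (evs X i)))) *
        Real.exp (-(n * s * ∑ i, φ ((evs X i) ^ 2))) := by
      rw [Finset.mul_sum, ← Finset.sum_neg_distrib, Real.exp_sum, ← Finset.prod_mul_distrib]
      refine Finset.prod_congr rfl fun i _ => ?_
      rw [f2_h, ← Real.exp_add]
      congr 1; ring
    rw [this]; ring
  have h2 : ZZ n α τ (f2_h n V s φ) = ∫⁻ p : (Fin n → Fin n → ℝ) × (Fin n → Fin n → ℝ),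
      ENNReal.ofReal (wgt n V α τ p.1 p.2 *
        Real.exp (-(n * s * ∑ i, φ ((evs p.1 i) ^ 2)))) := by
    rw [Measure.volume_eq_prod, lintegral_prod]
    · rw [ZZ]
      refine lintegral_congr fun X => lintegral_congr fun Y => ?_
      rw [← h1]; rfl
    · exact ((f2_cont_wgt V α τ).mul (hcE.comp continuous_fst)).measurable.ennreal_ofReal.aemeasurable
  have hE : Measurable fun p : (Fin n → Fin n → ℝ) × (Fin n → Fin n → ℝ) =>
      ENNReal.ofReal (Real.exp (-(n * s * ∑ i, φ ((evs p.1 i) ^ 2)))) :=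
    (hcE.comp continuous_fst).measurable.ennreal_ofReal
  rw [h2, f2_P, lintegral_withDensity_eq_lintegral_mul _ hm hE, ← lintegral_const_mul]
  · refine lintegral_congr fun p => ?_
    simp only [Pi.mul_apply]
    rw [← mul_assoc, ← ENNReal.ofReal_mul (f2_partZ_pos h).le, mul_div_cancel₀ _
      (f2_partZ_pos h).ne', ← ENNReal.ofReal_mul (f2_wgt_pos V α τ _ _).le]
  · exact hm.mul hE

theorem f2_ZZ_zero (h : f2_I n V α τ) (φ : ℝ → ℝ) (hφ : Continuous φ) :
    ZZ n α τ (f2_h n V 0 φ) = ENNReal.ofReal (partZ n V α τ) := by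
  have hp := f2_isProb h
  rw [f2_ZZ h 0 φ hφ]
  simp

theorem f2_jensen (h : f2_I n V α τ) (s : ℝ) (φ : ℝ → ℝ) (hφ : Continuous φ) (C : ℝ)
    (hC : ∀ x, |φ x| ≤ C) (hn : 0 < n) :
    ENNReal.ofReal (Real.exp (-((n : ℝ) ^ 2 * (s * meanEig n V α τ (fun x => φ (x ^ 2)))))) *
      ZZ n α τ (f2_h n V 0 φ) ≤ ZZ n α τ (f2_h n V s φ) := by
  have hp := f2_isProb h
  obtain ⟨h1, h2⟩ := f2_meanEig h (fun x => φ (x ^ 2)) (hφ.comp (continuous_pow 2)) C
    (fun x => hC _)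
  have hn' : (n : ℝ) ≠ 0 := by positivity
  have h3 : ∀ p : (Fin n → Fin n → ℝ) × (Fin n → Fin n → ℝ),
      Real.log (Real.exp (-(n * s * ∑ i, φ ((evs p.1 i) ^ 2)))) =
        -((n : ℝ) ^ 2 * s) * (1 / (n : ℝ) * ∑ i, φ ((evs p.1 i) ^ 2)) := by
    intro p
    rw [Real.log_exp]; field_simp
  have h4 := jensen_lintegral (f2_P n V α τ)
    (fun p => Real.exp (-(n * s * ∑ i, φ ((evs p.1 i) ^ 2)))) (ae_of_all _ fun p => Real.exp_pos _)
    (by
      refine (h1.const_mul (-((n : ℝ) ^ 2 * s))).congr (ae_of_all _ fun p => ?_)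
      exact (h3 p).symm)
  have h5 : ∫ p, Real.log (Real.exp (-(n * s * ∑ i, φ ((evs p.1 i) ^ 2)))) ∂(f2_P n V α τ) =
      -((n : ℝ) ^ 2 * s) * meanEig n V α τ (fun x => φ (x ^ 2)) := by
    rw [integral_congr_ae (ae_of_all _ h3), integral_const_mul, ← h2]
  beta_reduce at h4
  rw [h5] at h4
  rw [f2_ZZ h s φ hφ, f2_ZZ_zero h φ hφ, mul_comm]
  gcongr
  refine le_trans (le_of_eq ?_) h4
  congr 2; ring

end prob

end

end Pool.Agent.MP_941b23_mp
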