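import Pool.Agent.MP_941b23_mp.Defs2
import Pool.Agent.MP_941b23_mp.S10a
import Pool.Agent.MP_941b23_mp.T2b
import Pool.Agent.MP_941b23_mp.T2c
import Pool.Agent.MP_941b23_mp.T4

/-!
# [L1] choice of the zeros
-/

namespace Pool.Agent.MP_941b23_mp

open MeasureTheory Set Filter Topology
open scoped ENNReal NNReal Real

noncomputable section

/-! ### combinatorial selection -/

theorem l1_comb (g : ℕ → ℕ) (g0 : g 0 = 0) (hg : ∀ c, g c ≤ g (c + 1) ∧ g (c + 1) ≤ g c + 1)
    (Z : Finset ℝ) : ∃ A ⊆ Z, ∀ x : ℝ, (A.filter (· ≤ x)).card = g (Z.filter (· ≤ x)).card := by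
  classical
  induction Z using Finset.induction_on_max with
  | empty => exact ⟨∅, subset_rfl, fun x => by simp [g0]⟩
  | insert a s has ih =>
    obtain ⟨A, hA, hc⟩ := ih
    have has' : a ∉ s := fun h => lt_irrefl _ (has a h)
    have haA : a ∉ A := fun h => has' (hA h)
    have hlow : ∀ x, x < a → ((insert a s).filter (· ≤ x)) = s.filter (· ≤ x) := by
      intro x hx
      rw [Finset.filter_insert, if_neg (not_le.2 hx)]
    have hhigh : ∀ x, a ≤ x → ((insert a s).filter (· ≤ x)).card = s.card + 1 := by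
      intro x hx
      rw [Finset.filter_insert, if_pos hx, Finset.filter_true_of_mem
        (fun t ht => (has t ht).le.trans hx), Finset.card_insert_of_notMem has']
    have hAall : ∀ x, a ≤ x → (A.filter (· ≤ x)) = A := fun x hx =>
      Finset.filter_true_of_mem fun t ht => (has t (hA ht)).le.trans hx
    have hsall : ∀ x, a ≤ x → (s.filter (· ≤ x)) = s := fun x hx =>
      Finset.filter_true_of_mem fun t ht => (has t ht).le.trans hx
    have hAc : A.card = g s.card := by
      have := hc a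
      rwa [hAall a le_rfl, hsall a le_rfl] at this
    by_cases hstep : g (s.card + 1) = g s.card
    · refine ⟨A, hA.trans (Finset.subset_insert _ _), fun x => ?_⟩
      rcases lt_or_ge x a with hx | hx
      · rw [hlow x hx, hc x]
      · rw [hhigh x hx, hAall x hx, hstep, hAc]
    · have hstep' : g (s.card + 1) = g s.card + 1 := by
        have := hg s.card
        omega
      refine ⟨insert a A, Finset.insert_subset_insert _ hA, fun x => ?_⟩
      rcases lt_or_ge x a with hx | hx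
      · rw [hlow x hx, Finset.filter_insert, if_neg (not_le.2 hx), hc x]
      · rw [hhigh x hx, Finset.filter_insert, if_pos hx, hAall x hx,
          Finset.card_insert_of_notMem haA, hstep', hAc]

/-! ### the function `β` -/

def l1_beta (S B : ℝ → ℝ) (L u : ℝ) : ℝ := min (1 / 3) (⨅ x : ℝ, (B x + L * max (u - S x) 0))

section beta

variable {S B : ℝ → ℝ} {L : ℝ}

theorem l1_bdd (hL : 0 ≤ L) (hB0 : ∀ x, 0 ≤ B x) (u : ℝ) :
    BddBelow (range fun x : ℝ => B x + L * max (u - S x) 0) := by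
  refine ⟨0, ?_⟩
  rintro _ ⟨x, rfl⟩
  exact add_nonneg (hB0 x) (mul_nonneg hL (le_max_right _ _))

theorem l1_beta_val (hL : 0 ≤ L) (hB0 : ∀ x, 0 ≤ B x) (hB1 : ∀ x, B x ≤ 1 / 3) (hBm : Monotone B)
    (hSB : ∀ x y, x ≤ y → B y - B x ≤ L * (S y - S x)) (y : ℝ) : l1_beta S B L (S y) = B y := by
  unfold l1_beta
  have h : (⨅ x : ℝ, (B x + L * max (S y - S x) 0)) = B y := by
    apply le_antisymm
    · refine (ciInf_le (l1_bdd hL hB0 (S y)) y).trans ?_
      simp
    · refine le_ciInf fun x => ?_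
      rcases le_or_gt x y with hx | hx
      · have h1 := hSB x y hx
        have h2 := mul_le_mul_of_nonneg_left (le_max_left (S y - S x) 0) hL
        linarith
      · have h1 := hBm hx.le
        have h2 := mul_nonneg hL (le_max_right (S y - S x) 0)
        linarith
  rw [h]
  exact min_eq_right (hB1 y)

theorem l1_beta_mono (hL : 0 ≤ L) (hB0 : ∀ x, 0 ≤ B x) : Monotone (l1_beta S B L) := by
  intro u v huv
  unfold l1_beta
  refine min_le_min le_rfl (ciInf_mono (l1_bdd hL hB0 u) fun x => ?_)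
  have : max (u - S x) 0 ≤ max (v - S x) 0 := max_le_max (by linarith) le_rfl
  have := mul_le_mul_of_nonneg_left this hL
  linarith

theorem l1_beta_lip (hL : 0 ≤ L) (hB0 : ∀ x, 0 ≤ B x) (u v : ℝ) (huv : u ≤ v) :
    l1_beta S B L v ≤ l1_beta S B L u + L * (v - u) := by
  unfold l1_beta
  have h1 : (⨅ x : ℝ, (B x + L * max (v - S x) 0)) - L * (v - u) ≤
      ⨅ x : ℝ, (B x + L * max (u - S x) 0) := by
    refine le_ciInf fun x => ?_
    have h2 := ciInf_le (l1_bdd (S := S) hL hB0 v) x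
    have h3 : max (v - S x) 0 ≤ max (u - S x) 0 + (v - u) := by
      refine max_le ?_ ?_
      · have := le_max_left (u - S x) 0
        linarith
      · have := le_max_right (u - S x) 0
        linarith
    have h4 := mul_le_mul_of_nonneg_left h3 hL
    rw [mul_add] at h4
    linarith
  have h5 : 0 ≤ L * (v - u) := mul_nonneg hL (sub_nonneg.2 huv)
  rcases le_total (1 / 3 : ℝ) (⨅ x : ℝ, (B x + L * max (u - S x) 0)) with h | h
  · rw [min_eq_left h]
    have := min_le_left (1 / 3 : ℝ) (⨅ x : ℝ, (B x + L * max (v - S x) 0))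
    linarith
  · rw [min_eq_right h]
    have := min_le_right (1 / 3 : ℝ) (⨅ x : ℝ, (B x + L * max (v - S x) 0))
    linarith

theorem l1_beta_nonneg (hL : 0 ≤ L) (hB0 : ∀ x, 0 ≤ B x) (u : ℝ) : 0 ≤ l1_beta S B L u := by
  unfold l1_beta
  exact le_min (by norm_num) (le_ciInf fun x =>
    add_nonneg (hB0 x) (mul_nonneg hL (le_max_right _ _)))

theorem l1_beta_le (u : ℝ) : l1_beta S B L u ≤ 1 / 3 := min_le_left _ _

theorem l1_beta_cont (hL : 0 ≤ L) (hB0 : ∀ x, 0 ≤ B x) : Continuous (l1_beta S B L) := by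
  have h : ∀ u v, |l1_beta S B L u - l1_beta S B L v| ≤ L * |u - v| := by
    intro u v
    rcases le_total u v with huv | huv
    · have h1 := l1_beta_lip (S := S) hL hB0 u v huv
      have h2 := l1_beta_mono (S := S) hL hB0 huv
      rw [abs_sub_comm, abs_sub_comm u v, abs_of_nonneg (by linarith), abs_of_nonneg (by linarith)]
      linarith
    · have h1 := l1_beta_lip (S := S) hL hB0 v u huv
      have h2 := l1_beta_mono (S := S) hL hB0 huv
      rw [abs_of_nonneg (by linarith), abs_of_nonneg (by linarith)]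
      linarith
  have : LipschitzWith ⟨L, hL⟩ (l1_beta S B L) := LipschitzWith.of_dist_le_mul fun u v => by
    rw [Real.dist_eq, Real.dist_eq]
    exact h u v
  exact this.continuous

end beta

/-! ### step functions -/

theorem l1_step (φ : ℝ → ℝ) (hφ : Continuous φ) (a c : ℝ) (hac : a < c) (ε : ℝ) (hε : 0 < ε) :
    ∃ (m : ℕ) (x : ℕ → ℝ), x 0 = a ∧ x m = c ∧ ∀ t ∈ Ioc a c,
      |φ t - ∑ i ∈ Finset.range m, φ (x (i + 1)) *
        ((if t ≤ x (i + 1) then (1 : ℝ) else 0) - if t ≤ x i then (1 : ℝ) else 0)| ≤ ε := by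
  have hu : UniformContinuousOn φ (Icc a c) :=
    isCompact_Icc.uniformContinuousOn_of_continuous hφ.continuousOn
  rw [Metric.uniformContinuousOn_iff] at hu
  obtain ⟨δ, hδ, hd⟩ := hu ε hε
  obtain ⟨m, hm⟩ := exists_nat_gt ((c - a) / δ)
  have hm0 : (0 : ℝ) < m := lt_of_le_of_lt (div_nonneg (by linarith) hδ.le) hm
  have hstep : (c - a) / m < δ := by
    rw [div_lt_iff₀ hδ] at hm
    rw [div_lt_iff₀ hm0]
    linarith
  have hstep0 : 0 < (c - a) / m := div_pos (by linarith) hm0
  set x : ℕ → ℝ := fun i => a + i * ((c - a) / m) with hx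
  have hxm : x m = c := by
    simp only [hx]
    field_simp
    ring
  have hxmono : ∀ i, x i ≤ x (i + 1) := by
    intro i
    simp only [hx]
    push_cast
    nlinarith
  refine ⟨m, x, by simp [hx], hxm, fun t ht => ?_⟩
  have hmono : Monotone x := monotone_nat_of_le_succ hxmono
  have h1 : ∑ i ∈ Finset.range m, ((if t ≤ x (i + 1) then (1 : ℝ) else 0) -
      if t ≤ x i then (1 : ℝ) else 0) = 1 := by
    rw [Finset.sum_range_sub (fun i => if t ≤ x i then (1 : ℝ) else 0), hxm, if_pos ht.2,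
      if_neg]
    · ring
    · simp only [hx]
      push_cast
      rw [zero_mul, add_zero, not_le]
      exact ht.1
  have h2 : φ t = ∑ i ∈ Finset.range m, φ t * ((if t ≤ x (i + 1) then (1 : ℝ) else 0) -
      if t ≤ x i then (1 : ℝ) else 0) := by
    rw [← Finset.mul_sum, h1, mul_one]
  have hd0 : ∀ i, 0 ≤ (if t ≤ x (i + 1) then (1 : ℝ) else 0) - if t ≤ x i then (1 : ℝ) else 0 := by
    intro i
    by_cases h : t ≤ x i
    · rw [if_pos h, if_pos (h.trans (hxmono i))]; simp
    · rw [if_neg h]; split_ifs <;> norm_num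
  conv_lhs => rw [h2]
  rw [← Finset.sum_sub_distrib]
  refine (Finset.abs_sum_le_sum_abs _ _).trans ?_
  calc ∑ i ∈ Finset.range m, |φ t * ((if t ≤ x (i + 1) then (1 : ℝ) else 0) -
        if t ≤ x i then (1 : ℝ) else 0) - φ (x (i + 1)) *
          ((if t ≤ x (i + 1) then (1 : ℝ) else 0) - if t ≤ x i then (1 : ℝ) else 0)|
      ≤ ∑ i ∈ Finset.range m, ε * ((if t ≤ x (i + 1) then (1 : ℝ) else 0) -
        if t ≤ x i then (1 : ℝ) else 0) := by
        refine Finset.sum_le_sum fun i hi => ?_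
        rw [← sub_mul, abs_mul, abs_of_nonneg (hd0 i)]
        rcases (hd0 i).eq_or_lt with h | h
        · rw [← h]; simp
        · refine mul_le_mul_of_nonneg_right ?_ h.le
          have hti : t ≤ x (i + 1) ∧ ¬ t ≤ x i := by
            by_contra hcon
            rw [not_and_or, not_not] at hcon
            rcases hcon with h' | h'
            · rw [if_neg h', if_neg (fun h'' => h' (h''.trans (hxmono i)))] at h
              simp at h
            · rw [if_pos h', if_pos (h'.trans (hxmono i))] at h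
              simp at h
          have him : i + 1 ≤ m := Finset.mem_range.1 hi
          have h3 : x (i + 1) ∈ Icc a c := by
            constructor
            · exact ht.1.le.trans hti.1
            · rw [← hxm]; exact hmono him
          have h4 : dist t (x (i + 1)) < δ := by
            rw [Real.dist_eq, abs_sub_comm, abs_of_nonneg (by linarith [hti.1])]
            have h5 : x (i + 1) = x i + (c - a) / m := by
              simp only [hx]
              push_cast
              ring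
            have h6 := not_le.1 hti.2
            linarith
          have h7 := hd t ⟨ht.1.le, ht.2⟩ (x (i + 1)) h3 h4
          rw [Real.dist_eq] at h7
          exact h7.le
    _ = ε := by rw [← Finset.mul_sum, h1, mul_one]

/-- convergence of distribution functions gives convergence of integrals -/
theorem l1_cdf (b : Measure ℝ) [IsFiniteMeasure b] (a c : ℝ) (hac : a < c)
    (hb : b (Ioc a c)ᶜ = 0) (A : ℕ → Finset ℝ) (hA : ∀ᶠ n in atTop, ∀ t ∈ A n, t ∈ Ioc a c)
    (hF : ∀ x, Tendsto (fun n : ℕ => (1 / (n : ℝ)) * (((A n).filter (· ≤ x)).card : ℝ)) atTop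
      (𝓝 (b.real (Iic x)))) (φ : ℝ → ℝ) (hφ : Continuous φ) :
    Tendsto (fun n : ℕ => (1 / (n : ℝ)) * ∑ t ∈ A n, φ t) atTop (𝓝 (∫ x, φ x ∂b)) := by
  classical
  have hbae : ∀ᵐ t ∂b, t ∈ Ioc a c := by
    have : b {t | ¬ t ∈ Ioc a c} = 0 := hb
    exact this
  have hφint : Integrable φ b := by
    have h1 : IntegrableOn φ (Icc a c) b := hφ.continuousOn.integrableOn_compact isCompact_Icc
    have h2 : b.restrict (Icc a c) = b := by
      refine Measure.restrict_eq_self_of_ae_mem ?_
      filter_upwards [hbae] with t ht using ⟨ht.1.le, ht.2⟩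
    rw [IntegrableOn, h2] at h1
    exact h1
  rw [Metric.tendsto_atTop]
  intro ε hε
  -- total mass bound
  set Mb : ℝ := b.real univ + 2 with hMb
  have hMbpos : 0 < Mb := by
    have : 0 ≤ b.real univ := measureReal_nonneg
    linarith
  obtain ⟨m, x, hx0, hxm, hstep⟩ := l1_step φ hφ a c hac (ε / (4 * Mb)) (by positivity)
  set H : ℝ → ℝ → ℝ := fun t y => if t ≤ y then (1 : ℝ) else 0 with hH
  set ψ : ℝ → ℝ := fun t => ∑ i ∈ Finset.range m, φ (x (i + 1)) * (H t (x (i + 1)) - H t (x i))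
    with hψ
  have hstep' : ∀ t ∈ Ioc a c, |φ t - ψ t| ≤ ε / (4 * Mb) := hstep
  -- the step function converges
  have hHsum : ∀ n y, ∑ t ∈ A n, H t y = (((A n).filter (· ≤ y)).card : ℝ) := by
    intro n y
    simp only [hH]
    rw [Finset.sum_ite]
    simp
  have hψn : ∀ n : ℕ, (1 / (n : ℝ)) * ∑ t ∈ A n, ψ t = ∑ i ∈ Finset.range m, φ (x (i + 1)) *
      ((1 / (n : ℝ)) * (((A n).filter (· ≤ x (i + 1))).card : ℝ) -
        (1 / (n : ℝ)) * (((A n).filter (· ≤ x i)).card : ℝ)) := by
    intro n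
    simp only [hψ]
    rw [Finset.sum_comm, Finset.mul_sum]
    refine Finset.sum_congr rfl fun i _ => ?_
    rw [← Finset.mul_sum, Finset.sum_sub_distrib, hHsum, hHsum]
    ring
  have hHint : ∀ y, Integrable (fun t => H t y) b ∧ ∫ t, H t y ∂b = b.real (Iic y) := by
    intro y
    have e : (fun t => H t y) = (Iic y).indicator (fun _ => (1 : ℝ)) := by
      funext t
      simp only [hH, indicator, mem_Iic]
    constructor
    · rw [e]
      exact (integrable_const (1 : ℝ)).indicator measurableSet_Iic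
    · rw [e, integral_indicator measurableSet_Iic]
      simp
  have hHi : ∀ i : ℕ, Integrable (fun t => φ (x (i + 1)) * (H t (x (i + 1)) - H t (x i))) b :=
    fun i => ((hHint (x (i + 1))).1.sub (hHint (x i)).1).const_mul _
  have hψint : Integrable ψ b := by
    simp only [hψ]
    exact integrable_finsetSum _ fun i _ => hHi i
  have hψb : ∫ t, ψ t ∂b = ∑ i ∈ Finset.range m, φ (x (i + 1)) *
      (b.real (Iic (x (i + 1))) - b.real (Iic (x i))) := by
    simp only [hψ]
    rw [integral_finsetSum _ fun i _ => hHi i]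
    refine Finset.sum_congr rfl fun i _ => ?_
    rw [integral_const_mul, integral_sub (hHint _).1 (hHint _).1, (hHint _).2, (hHint _).2]
  have hlim : Tendsto (fun n : ℕ => (1 / (n : ℝ)) * ∑ t ∈ A n, ψ t) atTop (𝓝 (∫ t, ψ t ∂b)) := by
    rw [hψb]
    simp_rw [hψn]
    exact tendsto_finsetSum _ fun i _ => ((hF _).sub (hF _)).const_mul _
  -- masses
  have hmass : ∀ᶠ n : ℕ in atTop, (1 / (n : ℝ)) * ((A n).card : ℝ) ≤ Mb := by
    have h1 := hF c
    have h2 : ∀ᶠ n : ℕ in atTop, (1 / (n : ℝ)) * (((A n).filter (· ≤ c)).card : ℝ) <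
        b.real (Iic c) + 1 := h1.eventually (gt_mem_nhds (by linarith))
    filter_upwards [h2, hA] with n hn hAn
    have h3 : (A n).filter (· ≤ c) = A n := Finset.filter_true_of_mem fun t ht => (hAn t ht).2
    rw [h3] at hn
    have h4 : b.real (Iic c) ≤ b.real univ := measureReal_mono (subset_univ _)
    linarith
  rw [Metric.tendsto_atTop] at hlim
  obtain ⟨N1, hN1⟩ := hlim (ε / 2) (by linarith)
  obtain ⟨N2, hN2⟩ := eventually_atTop.1 (hmass.and hA)
  refine ⟨max N1 N2, fun n hn => ?_⟩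
  have h1 := hN1 n (le_trans (le_max_left _ _) hn)
  obtain ⟨h2, h3⟩ := hN2 n (le_trans (le_max_right _ _) hn)
  rw [Real.dist_eq] at h1 ⊢
  have h4 : |(1 / (n : ℝ)) * ∑ t ∈ A n, φ t - (1 / (n : ℝ)) * ∑ t ∈ A n, ψ t| ≤ ε / 4 := by
    rw [← mul_sub, ← Finset.sum_sub_distrib, abs_mul, abs_of_nonneg (by positivity)]
    have h5 : |∑ t ∈ A n, (φ t - ψ t)| ≤ (A n).card * (ε / (4 * Mb)) := by
      refine (Finset.abs_sum_le_sum_abs _ _).trans ?_
      refine (Finset.sum_le_sum fun t ht => hstep' t (h3 t ht)).trans ?_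
      rw [Finset.sum_const, nsmul_eq_mul]
    calc 1 / (n : ℝ) * |∑ t ∈ A n, (φ t - ψ t)|
        ≤ 1 / (n : ℝ) * ((A n).card * (ε / (4 * Mb))) :=
          mul_le_mul_of_nonneg_left h5 (by positivity)
      _ = (1 / (n : ℝ) * (A n).card) * (ε / (4 * Mb)) := by ring
      _ ≤ Mb * (ε / (4 * Mb)) := mul_le_mul_of_nonneg_right h2 (by positivity)
      _ = ε / 4 := by field_simp
  have h6 : |∫ t, φ t ∂b - ∫ t, ψ t ∂b| ≤ ε / 4 := by
    rw [← integral_sub hφint hψint]
    have h7 : ‖∫ t, (φ t - ψ t) ∂b‖ ≤ (ε / (4 * Mb)) * b.real univ := by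
      refine norm_integral_le_of_norm_le_const ?_
      filter_upwards [hbae] with t ht
      exact hstep' t ht
    rw [Real.norm_eq_abs] at h7
    refine h7.trans ?_
    calc ε / (4 * Mb) * b.real univ ≤ ε / (4 * Mb) * Mb :=
          mul_le_mul_of_nonneg_left (by linarith) (by positivity)
      _ = ε / 4 := by field_simp
  have h8 : (1 / (n : ℝ)) * ∑ t ∈ A n, φ t - ∫ t, φ t ∂b =
      ((1 / (n : ℝ)) * ∑ t ∈ A n, φ t - (1 / (n : ℝ)) * ∑ t ∈ A n, ψ t) +
      ((1 / (n : ℝ)) * ∑ t ∈ A n, ψ t - ∫ t, ψ t ∂b) - (∫ t, φ t ∂b - ∫ t, ψ t ∂b) := by ring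
  rw [h8]
  have h9 := abs_sub ((1 / (n : ℝ)) * ∑ t ∈ A n, φ t - (1 / (n : ℝ)) * ∑ t ∈ A n, ψ t +
    ((1 / (n : ℝ)) * ∑ t ∈ A n, ψ t - ∫ t, ψ t ∂b)) (∫ t, φ t ∂b - ∫ t, ψ t ∂b)
  have h10 := abs_add_le ((1 / (n : ℝ)) * ∑ t ∈ A n, φ t - (1 / (n : ℝ)) * ∑ t ∈ A n, ψ t)
    ((1 / (n : ℝ)) * ∑ t ∈ A n, ψ t - ∫ t, ψ t ∂b)
  linarith

/-! ### counting zeros -/

/-- upper trapezoid -/
def l1_up (j : ℕ) (a y t : ℝ) : ℝ :=
  max 0 (min 1 (min (1 + (j + 1) * (t - a)) (1 + (j + 1) * (y - t))))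

/-- lower trapezoid -/
def l1_lo (j : ℕ) (a y t : ℝ) : ℝ :=
  max 0 (min 1 (min ((j + 1) * (t - a)) ((j + 1) * (y - t))))

theorem l1_up_cont (j : ℕ) (a y : ℝ) : Continuous (l1_up j a y) := by
  unfold l1_up; fun_prop

theorem l1_lo_cont (j : ℕ) (a y : ℝ) : Continuous (l1_lo j a y) := by
  unfold l1_lo; fun_prop

theorem l1_up_nonneg (j : ℕ) (a y t : ℝ) : 0 ≤ l1_up j a y t := le_max_left _ _

theorem l1_lo_nonneg (j : ℕ) (a y t : ℝ) : 0 ≤ l1_lo j a y t := le_max_left _ _

theorem l1_up_le (j : ℕ) (a y t : ℝ) : l1_up j a y t ≤ 1 :=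
  max_le zero_le_one (min_le_left _ _)

theorem l1_lo_le (j : ℕ) (a y t : ℝ) : l1_lo j a y t ≤ 1 :=
  max_le zero_le_one (min_le_left _ _)

theorem l1_up_one (j : ℕ) (a y t : ℝ) (h1 : a ≤ t) (h2 : t ≤ y) : l1_up j a y t = 1 := by
  unfold l1_up
  have h3 : 0 ≤ ((j : ℝ) + 1) * (t - a) := mul_nonneg (by positivity) (by linarith)
  have h4 : 0 ≤ ((j : ℝ) + 1) * (y - t) := mul_nonneg (by positivity) (by linarith)
  rw [min_eq_left (le_min (by linarith) (by linarith)), max_eq_right zero_le_one]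

theorem l1_up_zero (j : ℕ) (a y t : ℝ) (h : y + 1 ≤ t) : l1_up j a y t = 0 := by
  unfold l1_up
  refine max_eq_left ((min_le_right _ _).trans ((min_le_right _ _).trans ?_))
  have : (0 : ℝ) ≤ j := by positivity
  nlinarith

theorem l1_lo_zero (j : ℕ) (a y t : ℝ) (h : ¬ (a < t ∧ t < y)) : l1_lo j a y t = 0 := by
  unfold l1_lo
  refine max_eq_left ((min_le_right _ _).trans ?_)
  rw [not_and_or, not_lt, not_lt] at h
  have hj : (0 : ℝ) ≤ j := by positivity
  rcases h with h | h
  · refine (min_le_left _ _).trans ?_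
    nlinarith
  · refine (min_le_right _ _).trans ?_
    nlinarith

theorem l1_up_lim (a y t : ℝ) :
    Tendsto (fun j : ℕ => l1_up j a y t) atTop (𝓝 ((Icc a y).indicator (fun _ => (1 : ℝ)) t)) := by
  by_cases h : t ∈ Icc a y
  · rw [indicator_of_mem h]
    refine tendsto_const_nhds.congr fun j => (l1_up_one j a y t h.1 h.2).symm
  · rw [indicator_of_notMem h]
    have h' : t < a ∨ y < t := by
      rw [mem_Icc, not_and_or, not_le, not_le] at h
      exact h
    refine tendsto_const_nhds.congr' ?_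
    rcases h' with h' | h'
    · obtain ⟨J, hJ⟩ := exists_nat_gt (1 / (a - t))
      filter_upwards [eventually_ge_atTop J] with j hj
      have hpos : 0 < a - t := by linarith
      have h1 : 1 / (a - t) < j := lt_of_lt_of_le hJ (by exact_mod_cast hj)
      rw [div_lt_iff₀ hpos] at h1
      unfold l1_up
      symm
      refine max_eq_left ((min_le_right _ _).trans ((min_le_left _ _).trans ?_))
      nlinarith
    · obtain ⟨J, hJ⟩ := exists_nat_gt (1 / (t - y))
      filter_upwards [eventually_ge_atTop J] with j hj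
      have hpos : 0 < t - y := by linarith
      have h1 : 1 / (t - y) < j := lt_of_lt_of_le hJ (by exact_mod_cast hj)
      rw [div_lt_iff₀ hpos] at h1
      unfold l1_up
      symm
      refine max_eq_left ((min_le_right _ _).trans ((min_le_right _ _).trans ?_))
      nlinarith

theorem l1_lo_lim (a y t : ℝ) :
    Tendsto (fun j : ℕ => l1_lo j a y t) atTop (𝓝 ((Ioo a y).indicator (fun _ => (1 : ℝ)) t)) := by
  by_cases h : t ∈ Ioo a y
  · rw [indicator_of_mem h]
    refine tendsto_const_nhds.congr' ?_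
    obtain ⟨J, hJ⟩ := exists_nat_gt (max (1 / (t - a)) (1 / (y - t)))
    filter_upwards [eventually_ge_atTop J] with j hj
    have hp1 : 0 < t - a := by linarith [h.1]
    have hp2 : 0 < y - t := by linarith [h.2]
    have hjJ : (J : ℝ) ≤ j := by exact_mod_cast hj
    have h1 : 1 / (t - a) < j := lt_of_lt_of_le (lt_of_le_of_lt (le_max_left _ _) hJ) hjJ
    have h2 : 1 / (y - t) < j := lt_of_lt_of_le (lt_of_le_of_lt (le_max_right _ _) hJ) hjJ
    rw [div_lt_iff₀ hp1] at h1
    rw [div_lt_iff₀ hp2] at h2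
    unfold l1_lo
    symm
    rw [min_eq_left (le_min (by nlinarith) (by nlinarith)), max_eq_right zero_le_one]
  · rw [indicator_of_notMem h]
    exact tendsto_const_nhds.congr fun j => (l1_lo_zero j a y t h).symm

theorem l1_decay (ψ : ℝ → ℝ) (R : ℝ) (h : ∀ t, R ≤ t → ψ t = 0) :
    Tendsto (fun t => (1 + t) * ψ t) atTop (𝓝 0) := by
  refine tendsto_const_nhds.congr' ?_
  filter_upwards [eventually_ge_atTop R] with t ht
  rw [h t ht, mul_zero]

/-- sums over the zeros of compactly supported functions are finite sums -/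
theorem l1_tsum {α τ : ℝ} (hτ : 0 < τ) (n : ℕ) (hn : 0 < n) (ψ : ℝ → ℝ) (R : ℝ)
    (h : ∀ t, R < t → ψ t = 0) : ∑' t : Zt n α τ, ψ t =
      ∑ t ∈ (Zt_finite (α := α) (N := (n : ℝ)) (by exact_mod_cast hn) hτ R).toFinset, ψ t := by
  classical
  rw [tsum_subtype (Zt n α τ) ψ, tsum_eq_sum (s :=
    (Zt_finite (α := α) (N := (n : ℝ)) (by exact_mod_cast hn) hτ R).toFinset)]
  · refine Finset.sum_congr rfl fun t ht => ?_
    rw [Set.Finite.mem_toFinset] at ht
    rw [indicator_of_mem ht.1]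
  · intro t ht
    rw [Set.Finite.mem_toFinset, mem_inter_iff, not_and_or] at ht
    rcases ht with ht | ht
    · rw [indicator_of_notMem ht]
    · by_cases hz : t ∈ Zt n α τ
      · rw [indicator_of_mem hz]
        exact h t (not_le.1 ht)
      · rw [indicator_of_notMem hz]

/-- the zeros in `[a, c]` -/
def l1_Z (α τ a c : ℝ) (n : ℕ) : Finset ℝ := by
  classical
  exact if h : 0 < n ∧ 0 < τ then
    ((Zt_finite (α := α) (N := (n : ℝ)) (by exact_mod_cast h.1) h.2 c).toFinset.filter (a ≤ ·))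
    else ∅

theorem l1_mem_Z {α τ a c : ℝ} (hτ : 0 < τ) {n : ℕ} (hn : 0 < n) (t : ℝ) :
    t ∈ l1_Z α τ a c n ↔ t ∈ Zt n α τ ∧ a ≤ t ∧ t ≤ c := by
  classical
  unfold l1_Z
  rw [dif_pos ⟨hn, hτ⟩, Finset.mem_filter, Set.Finite.mem_toFinset, mem_inter_iff, mem_Iic]
  tauto

theorem l1_sig_facts {α τ : ℝ} (hτ : 0 < τ) : sigI α τ (Iic 0) = 0 ∧ (∀ x, sigI α τ {x} = 0) ∧
    ∀ R, sigI α τ (Iic R) ≠ ⊤ := by
  have hac : sigI α τ ≪ volume.restrict (Ioi (0 : ℝ)) := by
    rw [sigI_eq hτ]
    exact withDensity_absolutelyContinuous _ _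
  have h0 : sigI α τ (Iic 0) = 0 := by
    apply hac
    rw [Measure.restrict_apply measurableSet_Iic]
    have : Iic (0 : ℝ) ∩ Ioi 0 = ∅ := by
      ext x; simp
    rw [this, measure_empty]
  refine ⟨h0, fun x => ?_, fun R => ?_⟩
  · apply hac
    refine le_antisymm ?_ zero_le
    exact (Measure.restrict_apply_le _ _).trans (by simp)
  · -- `1 / (1 + t)` is integrable
    have hI := sigI_integrable (α := α) hτ
    have h1 : IntegrableOn (fun t : ℝ => 1 / (1 + t)) (Ioc 0 R) (sigI α τ) := hI.integrableOn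
    have h2 : IntegrableOn (fun _ : ℝ => (1 : ℝ)) (Ioc 0 R) (sigI α τ) := by
      have h3 : IntegrableOn (fun t : ℝ => (1 + R) * (1 / (1 + t))) (Ioc 0 R) (sigI α τ) :=
        h1.const_mul _
      refine h3.mono' aestronglyMeasurable_const ?_
      filter_upwards [ae_restrict_mem measurableSet_Ioc] with t ht
      rw [norm_one, mul_one_div, le_div_iff₀ (by linarith [ht.1])]
      linarith [ht.2]
    rw [integrableOn_const_iff] at h2
    have h4 : sigI α τ (Ioc 0 R) < ⊤ := by
      rcases h2 with h | h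
      · norm_num at h
      · exact h
    have h5 : Iic R ⊆ Iic 0 ∪ Ioc 0 R := by
      intro t ht
      rcases le_or_gt t 0 with h | h
      · exact Or.inl h
      · exact Or.inr ⟨h, ht⟩
    refine ((measure_mono h5).trans_lt ((measure_union_le _ _).trans_lt ?_)).ne
    rw [h0, zero_add]
    exact h4

theorem l1_count {α τ : ℝ} (hτ : 0 < τ) (a y : ℝ) (ha : 0 < a) :
    Tendsto (fun n : ℕ => (1 / (n : ℝ)) * ((l1_Z α τ a y n).card : ℝ)) atTop
      (𝓝 ((sigI α τ).real (Icc a y))) := by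
  classical
  obtain ⟨h0, hatom, hfin⟩ := l1_sig_facts (α := α) hτ
  set σ := sigI α τ with hσ
  -- integrals of the trapezoids
  have hdom : IntegrableOn (fun _ : ℝ => (1 : ℝ)) (Iic (y + 1)) σ := by
    rw [integrableOn_const_iff]
    exact Or.inr (lt_top_iff_ne_top.2 (hfin _))
  have hdom' : Integrable ((Iic (y + 1)).indicator fun _ : ℝ => (1 : ℝ)) σ :=
    (integrable_indicator_iff measurableSet_Iic).2 hdom
  have hupI : Tendsto (fun j : ℕ => ∫ t, l1_up j a y t ∂σ) atTop (𝓝 (σ.real (Icc a y))) := by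
    have h1 : ∫ t, (Icc a y).indicator (fun _ => (1 : ℝ)) t ∂σ = σ.real (Icc a y) := by
      rw [integral_indicator measurableSet_Icc]
      simp
    rw [← h1]
    refine tendsto_integral_of_dominated_convergence _
      (fun j => (l1_up_cont j a y).aestronglyMeasurable) hdom' (fun j => ae_of_all _ fun t => ?_)
      (ae_of_all _ fun t => l1_up_lim a y t)
    rw [Real.norm_eq_abs, abs_of_nonneg (l1_up_nonneg _ _ _ _)]
    by_cases ht : t ∈ Iic (y + 1)
    · rw [indicator_of_mem ht]; exact l1_up_le _ _ _ _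
    · rw [indicator_of_notMem ht, l1_up_zero _ _ _ _ (le_of_lt (not_le.1 ht))]
  have hloI : Tendsto (fun j : ℕ => ∫ t, l1_lo j a y t ∂σ) atTop (𝓝 (σ.real (Icc a y))) := by
    have h1 : ∫ t, (Ioo a y).indicator (fun _ => (1 : ℝ)) t ∂σ = σ.real (Icc a y) := by
      rw [integral_indicator measurableSet_Ioo]
      simp only [integral_const, smul_eq_mul, mul_one, MeasurableSet.univ, measureReal_restrict_apply,
        univ_inter]
      refine measureReal_congr ?_
      have h2 : ∀ᵐ t ∂σ, t ≠ a := by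
        rw [ae_iff]; simpa using hatom a
      have h3 : ∀ᵐ t ∂σ, t ≠ y := by
        rw [ae_iff]; simpa using hatom y
      filter_upwards [h2, h3] with t ht1 ht2
      refine propext ?_
      change t ∈ Ioo a y ↔ t ∈ Icc a y
      rw [mem_Ioo, mem_Icc]
      constructor
      · intro h; exact ⟨h.1.le, h.2.le⟩
      · intro h; exact ⟨lt_of_le_of_ne h.1 ht1.symm, lt_of_le_of_ne h.2 ht2⟩
    rw [← h1]
    refine tendsto_integral_of_dominated_convergence _
      (fun j => (l1_lo_cont j a y).aestronglyMeasurable) hdom' (fun j => ae_of_all _ fun t => ?_)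
      (ae_of_all _ fun t => l1_lo_lim a y t)
    rw [Real.norm_eq_abs, abs_of_nonneg (l1_lo_nonneg _ _ _ _)]
    by_cases ht : t ∈ Iic (y + 1)
    · rw [indicator_of_mem ht]; exact l1_lo_le _ _ _ _
    · have h5 : y + 1 < t := not_le.1 ht
      rw [indicator_of_notMem ht, l1_lo_zero _ _ _ _ (fun h => by linarith [h.2])]
  -- comparison with the counting function
  have hcmp : ∀ n : ℕ, 0 < n → ∀ j : ℕ,
      (1 / (n : ℝ)) * ((l1_Z α τ a y n).card : ℝ) ≤
        (1 / (n : ℝ)) * ∑' t : Zt n α τ, l1_up j a y t ∧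
      (1 / (n : ℝ)) * ∑' t : Zt n α τ, l1_lo j a y t ≤
        (1 / (n : ℝ)) * ((l1_Z α τ a y n).card : ℝ) := by
    intro n hn j
    have hsub : l1_Z α τ a y n ⊆
        (Zt_finite (α := α) (N := (n : ℝ)) (by exact_mod_cast hn) hτ (y + 1)).toFinset := by
      intro t ht
      rw [l1_mem_Z hτ hn] at ht
      rw [Set.Finite.mem_toFinset]
      exact ⟨ht.1, by rw [mem_Iic]; linarith [ht.2.2]⟩
    have hcard : ((l1_Z α τ a y n).card : ℝ) = ∑ t ∈ l1_Z α τ a y n, (1 : ℝ) := by simp
    constructor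
    · refine mul_le_mul_of_nonneg_left ?_ (by positivity)
      rw [l1_tsum hτ n hn (l1_up j a y) (y + 1) (fun t ht => l1_up_zero _ _ _ _ ht.le), hcard]
      refine (Finset.sum_le_sum (g := fun t => l1_up j a y t) fun t ht => ?_).trans
        (Finset.sum_le_sum_of_subset_of_nonneg hsub fun t _ _ => l1_up_nonneg _ _ _ _)
      rw [l1_mem_Z hτ hn] at ht
      rw [l1_up_one _ _ _ _ ht.2.1 ht.2.2]
    · refine mul_le_mul_of_nonneg_left ?_ (by positivity)
      rw [l1_tsum hτ n hn (l1_lo j a y) (y + 1)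
        (fun t ht => l1_lo_zero _ _ _ _ (fun h => by linarith [h.2])), hcard]
      rw [← Finset.sum_subset hsub]
      · exact Finset.sum_le_sum fun t _ => l1_lo_le _ _ _ _
      · intro t ht ht'
        refine l1_lo_zero _ _ _ _ fun h => ht' ?_
        rw [l1_mem_Z hτ hn]
        rw [Set.Finite.mem_toFinset] at ht
        exact ⟨ht.1, h.1.le, h.2.le⟩
  rw [tendsto_order]
  constructor
  · intro l hl
    obtain ⟨j, hj⟩ := (hloI.eventually (lt_mem_nhds hl)).exists
    have h1 := (Zt_tendsto (α := α) hτ (l1_lo j a y) (l1_lo_cont j a y).continuousOn 0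
      (l1_decay _ (y + 1) fun t ht => l1_lo_zero _ _ _ _ (fun h => by linarith [h.2]))).2
    filter_upwards [h1.eventually (lt_mem_nhds hj), eventually_gt_atTop 0] with n hn hn0
    exact lt_of_lt_of_le hn (hcmp n hn0 j).2
  · intro l hl
    obtain ⟨j, hj⟩ := (hupI.eventually (gt_mem_nhds hl)).exists
    have h1 := (Zt_tendsto (α := α) hτ (l1_up j a y) (l1_up_cont j a y).continuousOn 0
      (l1_decay _ (y + 1) fun t ht => l1_up_zero _ _ _ _ ht)).2
    filter_upwards [h1.eventually (gt_mem_nhds hj), eventually_gt_atTop 0] with n hn hn0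
    exact lt_of_le_of_lt (hcmp n hn0 j).1 hn

/-- doubling: `σ_∞ (hi, 2 hi] > 0` if `σ_∞` charges `(0, 2 hi]` -/
theorem l1_double {α τ : ℝ} (hτ : 0 < τ) (hi : ℝ) (h : sigI α τ (Ioc hi (2 * hi)) = 0)
    (hhi : 0 < hi) : sigI α τ (Ioc 0 (2 * hi)) = 0 := by
  have h1 : ∀ k : ℕ, sigI α τ (Ioc (hi / 2 ^ k) (2 * hi / 2 ^ k)) = 0 := by
    intro k
    have h2 := sigI_dilate (α := α) hτ (k * Real.log 2)
      (mul_nonneg (by positivity) (Real.log_nonneg (by norm_num))) (Ioc hi (2 * hi))
    have h3 : Real.exp (k * Real.log 2) = 2 ^ k := by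
      rw [Real.exp_nat_mul, Real.exp_log (by norm_num)]
    rw [Measure.map_apply (by fun_prop) measurableSet_Ioc, h, h3] at h2
    have h4 : (fun t : ℝ => 2 ^ k * t) ⁻¹' Ioc hi (2 * hi) = Ioc (hi / 2 ^ k) (2 * hi / 2 ^ k) := by
      ext t
      have hp : (0 : ℝ) < 2 ^ k := by positivity
      simp only [mem_preimage, mem_Ioc]
      rw [div_lt_iff₀ hp, le_div_iff₀ hp, mul_comm t]
    rw [h4] at h2
    exact le_antisymm h2 zero_le
  have h5 : Ioc 0 (2 * hi) ⊆ ⋃ k : ℕ, Ioc (hi / 2 ^ k) (2 * hi / 2 ^ k) := by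
    intro t ht
    rw [mem_iUnion]
    -- the largest `k` with `2^k t ≤ 2 hi`
    have hex : ∃ k : ℕ, hi < 2 ^ k * t := by
      obtain ⟨k, hk⟩ := pow_unbounded_of_one_lt (hi / t) (by norm_num : (1 : ℝ) < 2)
      refine ⟨k, ?_⟩
      rwa [div_lt_iff₀ ht.1] at hk
    classical
    set k := Nat.find hex with hkdef
    have hk := Nat.find_spec hex
    refine ⟨k, ?_⟩
    have hp : (0 : ℝ) < 2 ^ k := by positivity
    rw [mem_Ioc, div_lt_iff₀ hp, le_div_iff₀ hp, mul_comm t]
    refine ⟨hk, ?_⟩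
    rcases Nat.eq_zero_or_pos k with h0 | h0
    · rw [h0]; simpa using ht.2
    · have h6 := Nat.find_min hex (m := k - 1) (by omega)
      rw [not_lt] at h6
      have h7 : (2 : ℝ) ^ k = 2 * 2 ^ (k - 1) := by
        rw [← pow_succ', Nat.sub_add_cancel h0]
      rw [h7]
      linarith
  exact measure_mono_null h5 (measure_iUnion_null h1)

theorem selection {α τ : ℝ} (hτ : 0 < τ) (b : Measure ℝ) (lo hi η : ℝ) (θ : ℝ → ℝ)
    (hlo : 0 < lo) (hhi : lo < hi) (hη : 0 < η) (mθ : Measurable θ)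
    (bθ : ∀ x, 0 ≤ θ x ∧ θ x ≤ 1 - η) (supp : ∀ x, x ∉ Icc lo hi → θ x = 0)
    (eqb : b = (sigI α τ).withDensity fun x => ENNReal.ofReal (θ x)) (massb : b univ = 1 / 3)
    (k : ℕ → ℕ) (hk : Tendsto (fun n : ℕ => (k n : ℝ) / n) atTop (𝓝 (1 / 3))) :
    ∃ s : (n : ℕ) → Fin (k n) → ℝ,
      (∀ᶠ n in atTop, Function.Injective (s n) ∧
        ∀ i, s n i ∈ Zt n α τ ∧ s n i ∈ Icc (lo / 2) (2 * hi)) ∧
      ∀ φ : ℝ → ℝ, Continuous φ →
        Tendsto (fun n : ℕ => (1 / (n : ℝ)) * ∑ i, φ (s n i)) atTop (𝓝 (∫ x, φ x ∂b)) := by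
  classical
  obtain ⟨h0, hatom, hfin⟩ := l1_sig_facts (α := α) hτ
  have hhi0 : 0 < hi := hlo.trans hhi
  set a : ℝ := lo / 2 with ha
  set c : ℝ := 2 * hi with hc
  have ha0 : 0 < a := by rw [ha]; linarith
  have hac : a < c := by rw [ha, hc]; linarith
  set σ := sigI α τ with hσ
  set L : ℝ := 1 - η with hL
  have hL0 : 0 ≤ L := (bθ 0).1.trans (bθ 0).2
  have hbfin : IsFiniteMeasure b := ⟨by rw [massb]; norm_num⟩
  -- distribution functions
  set S : ℝ → ℝ := fun x => σ.real (Icc a (min x c)) with hS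
  set B : ℝ → ℝ := fun x => b.real (Iic x) with hB
  have hB0 : ∀ x, 0 ≤ B x := fun x => measureReal_nonneg
  have hmassR : b.real univ = 1 / 3 := by
    rw [Measure.real, massb]; norm_num
  have hB1 : ∀ x, B x ≤ 1 / 3 := fun x => by
    rw [← hmassR]; exact measureReal_mono (subset_univ _)
  have hBm : Monotone B := fun x y hxy => measureReal_mono (Iic_subset_Iic.2 hxy)
  have hfinIcc : ∀ x y : ℝ, σ (Icc x y) ≠ ⊤ := fun x y =>
    ne_top_of_le_ne_top (hfin y) (measure_mono Icc_subset_Iic_self)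
  -- `b ≤ (1 - η) σ` on intervals
  have hbσ : ∀ E : Set ℝ, MeasurableSet E → b E ≤ ENNReal.ofReal L * σ (E ∩ Icc a c) := by
    intro E hE
    have h1 : b E = ∫⁻ x in E, ENNReal.ofReal (θ x) ∂σ := by
      rw [eqb, withDensity_apply _ hE]
    rw [h1]
    have h2 : ∫⁻ x in E, ENNReal.ofReal (θ x) ∂σ ≤
        ∫⁻ x in E, (Icc a c).indicator (fun _ => ENNReal.ofReal L) x ∂σ := by
      refine lintegral_mono fun x => ?_
      by_cases hx : x ∈ Icc a c
      · simp only [indicator_of_mem hx]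
        exact ENNReal.ofReal_le_ofReal (bθ x).2
      · have : x ∉ Icc lo hi := fun h => hx ⟨by rw [ha]; linarith [h.1], by rw [hc]; linarith [h.2]⟩
        simp [supp x this]
    refine h2.trans ?_
    rw [lintegral_indicator measurableSet_Icc, setLIntegral_const,
      Measure.restrict_apply measurableSet_Icc, inter_comm]
  have hSB : ∀ x y, x ≤ y → B y - B x ≤ L * (S y - S x) := by
    intro x y hxy
    have h1 : B y - B x = b.real (Ioc x y) := by
      simp only [hB]
      rw [← measureReal_sdiff (Iic_subset_Iic.2 hxy) measurableSet_Iic]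
      congr 1
      ext t; simp [and_comm]
    have h2 := hbσ (Ioc x y) measurableSet_Ioc
    have h3 : b.real (Ioc x y) ≤ L * σ.real (Ioc x y ∩ Icc a c) := by
      have h4 := ENNReal.toReal_mono (ENNReal.mul_ne_top ENNReal.ofReal_ne_top
        (ne_top_of_le_ne_top (hfinIcc a c) (measure_mono inter_subset_right))) h2
      rwa [ENNReal.toReal_mul, ENNReal.toReal_ofReal hL0] at h4
    have h5 : σ.real (Ioc x y ∩ Icc a c) ≤ S y - S x := by
      simp only [hS]
      rw [← measureReal_sdiff (Icc_subset_Icc_right (min_le_min_right c hxy)) measurableSet_Icc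
        (hfinIcc _ _)]
      refine measureReal_mono ?_ (ne_top_of_le_ne_top (hfinIcc a (min y c)) (measure_mono
        sdiff_subset))
      rintro t ⟨⟨ht1, ht2⟩, ht3, ht4⟩
      refine ⟨⟨ht3, le_min ht2 ht4⟩, fun ht5 => ?_⟩
      exact absurd (ht5.2.trans (min_le_left _ _)) (not_le.2 ht1)
    rw [h1]
    exact h3.trans (mul_le_mul_of_nonneg_left h5 hL0)
  set β := l1_beta S B L with hβ
  have hβval : ∀ y, β (S y) = B y := l1_beta_val hL0 hB0 hB1 hBm hSB
  -- the counting functions
  have hcount : ∀ x : ℝ, Tendsto (fun n : ℕ => (((l1_Z α τ a c n).filter (· ≤ x)).card : ℝ) / n)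
      atTop (𝓝 (S x)) := by
    intro x
    have h1 := l1_count (α := α) hτ a (min x c) ha0
    refine h1.congr' ?_
    filter_upwards [eventually_gt_atTop 0] with n hn
    have h2 : (l1_Z α τ a c n).filter (· ≤ x) = l1_Z α τ a (min x c) n := by
      ext t
      rw [Finset.mem_filter, l1_mem_Z hτ hn, l1_mem_Z hτ hn, le_min_iff]
      tauto
    rw [h2]
    ring
  -- the selection
  set g : ℕ → ℕ → ℕ := fun n m => ⌊3 * (k n : ℝ) * β ((m : ℝ) / n)⌋₊ with hg
  have hβ0 : β 0 = 0 := by
    have h1 : S (a - 1) = 0 := by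
      simp only [hS]
      rw [Icc_eq_empty, measureReal_empty]
      rw [not_le]
      exact lt_of_le_of_lt (min_le_left _ _) (by linarith)
    have h2 : B (a - 1) = 0 := by
      have h3 := hbσ (Iic (a - 1)) measurableSet_Iic
      have h4 : Iic (a - 1) ∩ Icc a c = ∅ := by
        ext t
        simp only [mem_inter_iff, mem_Iic, mem_Icc, mem_empty_iff_false, iff_false]
        rintro ⟨h5, h6, _⟩
        linarith
      rw [h4, measure_empty, mul_zero] at h3
      simp only [hB, Measure.real]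
      rw [le_antisymm h3 zero_le]
      simp
    have h3 := hβval (a - 1)
    rw [h1, h2] at h3
    exact h3
  have hgstep : ∀ n : ℕ, 0 < n → 3 * (k n : ℝ) * L ≤ n →
      ∀ m, g n m ≤ g n (m + 1) ∧ g n (m + 1) ≤ g n m + 1 := by
    intro n hn hkn m
    have hn' : (0 : ℝ) < n := by exact_mod_cast hn
    have hk0 : (0 : ℝ) ≤ 3 * (k n : ℝ) := by positivity
    have h1 : (m : ℝ) / n ≤ ((m + 1 : ℕ) : ℝ) / n := by
      push_cast
      exact div_le_div_of_nonneg_right (by linarith) hn'.le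
    constructor
    · exact Nat.floor_le_floor (mul_le_mul_of_nonneg_left (l1_beta_mono hL0 hB0 h1) hk0)
    · simp only [hg]
      rw [← Nat.floor_add_one (mul_nonneg hk0 (l1_beta_nonneg hL0 hB0 _))]
      refine Nat.floor_le_floor ?_
      have h2 := l1_beta_lip (S := S) hL0 hB0 _ _ h1
      have h3 := mul_le_mul_of_nonneg_left h2 hk0
      have h4 : 3 * (k n : ℝ) * (L * (((m + 1 : ℕ) : ℝ) / n - m / n)) ≤ 1 := by
        have h5 : ((m + 1 : ℕ) : ℝ) / n - m / n = 1 / n := by
          push_cast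
          ring
        rw [h5]
        have h6 : 3 * (k n : ℝ) * (L * (1 / n)) = (3 * k n * L) / n := by ring
        rw [h6, div_le_one hn']
        exact hkn
      rw [mul_add] at h3
      linarith
  have hex : ∀ n : ℕ, ∃ A ⊆ l1_Z α τ a c n, (0 < n → 3 * (k n : ℝ) * L ≤ n →
      ∀ x : ℝ, (A.filter (· ≤ x)).card = g n ((l1_Z α τ a c n).filter (· ≤ x)).card) := by
    intro n
    by_cases h : 0 < n ∧ 3 * (k n : ℝ) * L ≤ n
    · obtain ⟨A, hA1, hA2⟩ := l1_comb (g n) (by simp [hg, hβ0]) (hgstep n h.1 h.2)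
        (l1_Z α τ a c n)
      exact ⟨A, hA1, fun _ _ => hA2⟩
    · exact ⟨∅, Finset.empty_subset _, fun h1 h2 => absurd ⟨h1, h2⟩ h⟩
  choose A hAsub hAcard using hex
  -- eventually, the parameters are fine
  have hev1 : ∀ᶠ n : ℕ in atTop, 3 * (k n : ℝ) * L ≤ n := by
    have h1 : Tendsto (fun n : ℕ => 3 * ((k n : ℝ) / n) * L) atTop (𝓝 (3 * (1 / 3) * L)) :=
      (hk.const_mul 3).mul_const L
    have h2 : 3 * (1 / 3) * L < 1 := by rw [hL]; linarith
    filter_upwards [h1.eventually (gt_mem_nhds h2), eventually_gt_atTop 0] with n hn hn0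
    have hn' : (0 : ℝ) < n := by exact_mod_cast hn0
    have h3 : 3 * ((k n : ℝ) / n) * L = 3 * (k n : ℝ) * L / n := by ring
    rw [h3, div_lt_one hn'] at hn
    exact hn.le
  have hSlt : S hi < S c := by
    simp only [hS]
    have e1 : min hi c = hi := min_eq_left (by rw [hc]; linarith)
    have e2 : min c c = c := min_self c
    rw [e1, e2]
    have h1 : σ (Ioc hi c) ≠ 0 := by
      intro h
      have h2 := l1_double (α := α) hτ hi h hhi0
      have h3 := hbσ univ MeasurableSet.univ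
      have h4 : σ (univ ∩ Icc a c) = 0 := by
        refine measure_mono_null ?_ h2
        rintro t ⟨_, ht1, ht2⟩
        exact ⟨lt_of_lt_of_le ha0 ht1, ht2⟩
      rw [h4, mul_zero, massb] at h3
      norm_num at h3
    have h5 : σ.real (Icc a c) = σ.real (Icc a hi) + σ.real (Ioc hi c) := by
      rw [← measureReal_union ?_ measurableSet_Ioc (hfinIcc _ _)
        (ne_top_of_le_ne_top (hfinIcc hi c) (measure_mono Ioc_subset_Icc_self))]
      · congr 1
        rw [Icc_union_Ioc_eq_Icc]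
        · rw [ha]; linarith
        · rw [hc]; linarith
      · rw [Set.disjoint_left]
        intro t ht ht'
        exact absurd ht.2 (not_le.2 ht'.1)
    have h6 : 0 < σ.real (Ioc hi c) := by
      rw [Measure.real]
      exact ENNReal.toReal_pos h1
        (ne_top_of_le_ne_top (hfinIcc hi c) (measure_mono Ioc_subset_Icc_self))
    linarith
  have hBhi : B hi = 1 / 3 := by
    simp only [hB]
    rw [← hmassR]
    refine measureReal_congr ?_
    have h1 : b (Iic hi)ᶜ = 0 := by
      rw [eqb, withDensity_apply _ measurableSet_Iic.compl]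
      rw [setLIntegral_congr_fun (g := fun _ => 0) measurableSet_Iic.compl]
      · simp
      · intro x hx
        have : x ∉ Icc lo hi := fun h => hx h.2
        simp [supp x this]
    have h2 : ∀ᵐ x ∂b, x ∈ Iic hi := h1
    filter_upwards [h2] with x hx
    exact propext ⟨fun _ => trivial, fun _ => hx⟩
  have hev2 : ∀ᶠ n : ℕ in atTop, (A n).card = k n := by
    have h1 := hcount c
    filter_upwards [h1.eventually (lt_mem_nhds hSlt), hev1, eventually_gt_atTop 0] with n hn1 hn2 hn3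
    have h2 := hAcard n hn3 hn2 c
    have h3 : (A n).filter (· ≤ c) = A n := by
      refine Finset.filter_true_of_mem fun t ht => ?_
      have := hAsub n ht
      rw [l1_mem_Z hτ hn3] at this
      exact this.2.2
    rw [h3] at h2
    rw [h2]
    simp only [hg]
    have h4 : β ((((l1_Z α τ a c n).filter (· ≤ c)).card : ℝ) / n) = 1 / 3 := by
      refine le_antisymm (l1_beta_le _) ?_
      rw [← hBhi, ← hβval]
      exact l1_beta_mono hL0 hB0 hn1.le
    rw [h4]
    have h5 : 3 * (k n : ℝ) * (1 / 3) = (k n : ℝ) := by ring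
    rw [h5, Nat.floor_natCast]
  -- distribution functions of the selected zeros
  have hF : ∀ x, Tendsto (fun n : ℕ => (1 / (n : ℝ)) * (((A n).filter (· ≤ x)).card : ℝ)) atTop
      (𝓝 (b.real (Iic x))) := by
    intro x
    have h1 : Tendsto (fun n : ℕ => β ((((l1_Z α τ a c n).filter (· ≤ x)).card : ℝ) / n)) atTop
        (𝓝 (B x)) := by
      rw [← hβval x]
      exact ((l1_beta_cont hL0 hB0).tendsto _).comp (hcount x)
    have h2 : Tendsto (fun n : ℕ => 3 * ((k n : ℝ) / n) *
        β ((((l1_Z α τ a c n).filter (· ≤ x)).card : ℝ) / n)) atTop (𝓝 (B x)) := by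
      have h3 := (hk.const_mul 3).mul h1
      have h4 : 3 * (1 / 3 : ℝ) * B x = B x := by ring
      rwa [h4] at h3
    have h3 : Tendsto (fun n : ℕ => 3 * ((k n : ℝ) / n) *
        β ((((l1_Z α τ a c n).filter (· ≤ x)).card : ℝ) / n) - 1 / (n : ℝ)) atTop (𝓝 (B x)) := by
      have := h2.sub (tendsto_one_div_atTop_nhds_zero_nat (𝕜 := ℝ))
      rwa [sub_zero] at this
    refine tendsto_of_tendsto_of_tendsto_of_le_of_le' h3 h2 ?_ ?_
    · filter_upwards [hev1, eventually_gt_atTop 0] with n hn1 hn2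
      have hn' : (0 : ℝ) < n := by exact_mod_cast hn2
      rw [hAcard n hn2 hn1 x]
      simp only [hg]
      have h5 := Nat.lt_floor_add_one (3 * (k n : ℝ) *
        β ((((l1_Z α τ a c n).filter (· ≤ x)).card : ℝ) / n))
      have h6 : 3 * ((k n : ℝ) / n) * β ((((l1_Z α τ a c n).filter (· ≤ x)).card : ℝ) / n) -
          1 / (n : ℝ) = 1 / (n : ℝ) * (3 * (k n : ℝ) *
            β ((((l1_Z α τ a c n).filter (· ≤ x)).card : ℝ) / n) - 1) := by ring
      rw [h6]
      exact mul_le_mul_of_nonneg_left (by linarith) (by positivity)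
    · filter_upwards [hev1, eventually_gt_atTop 0] with n hn1 hn2
      rw [hAcard n hn2 hn1 x]
      simp only [hg]
      have h5 := Nat.floor_le (mul_nonneg (by positivity : (0 : ℝ) ≤ 3 * (k n : ℝ))
        (l1_beta_nonneg (S := S) hL0 hB0
          ((((l1_Z α τ a c n).filter (· ≤ x)).card : ℝ) / n)))
      have h6 : 3 * ((k n : ℝ) / n) * β ((((l1_Z α τ a c n).filter (· ≤ x)).card : ℝ) / n) =
          1 / (n : ℝ) * (3 * (k n : ℝ) *
            β ((((l1_Z α τ a c n).filter (· ≤ x)).card : ℝ) / n)) := by ring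
      rw [h6]
      exact mul_le_mul_of_nonneg_left h5 (by positivity)
  have hAmem : ∀ᶠ n : ℕ in atTop, ∀ t ∈ A n, t ∈ Ioc (a / 2) c := by
    filter_upwards [eventually_gt_atTop 0] with n hn t ht
    have := hAsub n ht
    rw [l1_mem_Z hτ hn] at this
    exact ⟨by linarith [this.2.1], this.2.2⟩
  have hbsupp : b (Ioc (a / 2) c)ᶜ = 0 := by
    have h1 := hbσ (Ioc (a / 2) c)ᶜ measurableSet_Ioc.compl
    have h2 : (Ioc (a / 2) c)ᶜ ∩ Icc a c = ∅ := by
      ext t
      simp only [mem_inter_iff, mem_compl_iff, mem_Ioc, mem_Icc, mem_empty_iff_false, iff_false]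
      rintro ⟨h3, h4, h5⟩
      exact h3 ⟨by linarith, h5⟩
    rw [h2, measure_empty, mul_zero] at h1
    exact le_antisymm h1 zero_le
  refine ⟨fun n => if h : (A n).card = k n then (A n).orderEmbOfFin h else fun _ => 0, ?_, ?_⟩
  · filter_upwards [hev2, eventually_gt_atTop 0] with n hn hn0
    rw [dif_pos hn]
    refine ⟨((A n).orderEmbOfFin hn).injective, fun i => ?_⟩
    have h1 := hAsub n ((A n).orderEmbOfFin_mem hn i)
    rw [l1_mem_Z hτ hn0] at h1
    exact ⟨h1.1, h1.2.1, h1.2.2⟩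
  · intro φ hφ
    refine (l1_cdf b (a / 2) c (by linarith) hbsupp A hAmem hF φ hφ).congr' ?_
    filter_upwards [hev2] with n hn
    congr 1
    rw [dif_pos hn]
    conv_lhs => rw [← Finset.map_orderEmbOfFin_univ (A n) hn, Finset.sum_map]
    rfl

end

end Pool.Agent.MP_941b23_mp
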