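import Pool.Agent.MP_941b23_mp.Defs2
import Pool.Agent.MP_941b23_mp.S1
import Pool.Agent.MP_941b23_mp.S10a
import Pool.Agent.MP_941b23_mp.S10b
import Pool.Agent.MP_941b23_mp.S9
import Pool.Agent.MP_941b23_mp.T2b
import Pool.Agent.MP_941b23_mp.T4

/-!
# [QM-T9] near-diagonal control of the zeros
-/

namespace Pool.Agent.MP_941b23_mp

open MeasureTheory Set Filter Topology
open scoped ENNReal NNReal Real ComplexConjugate

noncomputable section

variable {α τ : ℝ}

/-- the kernel which bounds the error -/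
def t9P (d y : ℝ) : ℝ := 6 * d / max |y| (2 * d)

theorem t9P_nonneg {d : ℝ} (hd : 0 < d) (y : ℝ) : 0 ≤ t9P d y := by
  unfold t9P
  have : 0 < max |y| (2 * d) := lt_max_of_lt_right (by linarith)
  positivity

theorem t9P_double {d : ℝ} (hd : 0 < d) {y y' : ℝ} (h : |y - y'| ≤ 2 * d) :
    t9P d y ≤ 2 * t9P d y' := by
  unfold t9P
  have h1 : 0 < max |y| (2 * d) := lt_max_of_lt_right (by linarith)
  have h2 : 0 < max |y'| (2 * d) := lt_max_of_lt_right (by linarith)
  have h3 : max |y'| (2 * d) ≤ 2 * max |y| (2 * d) := by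
    have h4 : |y'| ≤ |y| + |y - y'| := by
      have := abs_sub_abs_le_abs_sub y' y
      rw [abs_sub_comm y' y] at this
      linarith
    have h5 := le_max_left |y| (2 * d)
    have h6 := le_max_right |y| (2 * d)
    apply max_le <;> linarith
  rw [mul_div_assoc', div_le_div_iff₀ h1 h2]
  nlinarith

theorem t9P_bound {d B u t : ℝ} (hd : 0 < d) (hd1 : d ≤ 1) (hu : 0 ≤ u) (huB : u ≤ B)
    (ht : 0 ≤ t) : t9P d (t - u) ≤ 12 * (1 + B) / (1 + t) := by
  unfold t9P
  have h1 : 0 < max |t - u| (2 * d) := lt_max_of_lt_right (by linarith)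
  have h6 := le_max_right |t - u| (2 * d)
  have h5 := le_max_left |t - u| (2 * d)
  have h7 : t - u ≤ max |t - u| (2 * d) := (le_abs_self _).trans h5
  rw [div_le_div_iff₀ h1 (by linarith)]
  rcases le_or_gt t (2 * B + 1) with h | h
  · nlinarith
  · have : (t + 1) / 2 ≤ t - u := by linarith
    nlinarith

theorem t9P_cont {d : ℝ} (hd : 0 < d) (u : ℝ) : Continuous fun t => t9P d (t - u) := by
  unfold t9P
  refine Continuous.div continuous_const (by fun_prop) ?_
  intro t
  have : 0 < max |t - u| (2 * d) := lt_max_of_lt_right (by linarith)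
  exact this.ne'

theorem t9P_lim {d : ℝ} (hd : 0 < d) (u : ℝ) :
    Tendsto (fun t => (1 + t) * t9P d (t - u)) atTop (𝓝 (6 * d)) := by
  have h1 : Tendsto (fun t : ℝ => 6 * d * (1 + (1 + u) * (t - u)⁻¹)) atTop (𝓝 (6 * d)) := by
    have h2 : Tendsto (fun t : ℝ => (t - u)⁻¹) atTop (𝓝 0) :=
      tendsto_inv_atTop_zero.comp (tendsto_atTop_add_const_right _ (-u) tendsto_id)
    have h3 := ((h2.const_mul (1 + u)).const_add 1).const_mul (6 * d)
    simpa using h3
  refine h1.congr' ?_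
  filter_upwards [eventually_gt_atTop (u + 2 * d)] with t ht
  have h2 : 0 < t - u := by linarith
  have h3 : max |t - u| (2 * d) = t - u := by
    rw [abs_of_pos h2, max_eq_left (by linarith)]
  rw [t9P, h3]
  field_simp
  ring

theorem t9_tangent {x c : ℝ} (hx : 0 ≤ x) (hc : 0 < c) : x * Real.log c + x - c ≤
    x * Real.log x := by
  rcases hx.eq_or_lt with h | h
  · rw [← h]
    simp
    exact hc.le
  · have h1 := Real.one_sub_inv_le_log_of_pos (div_pos h hc)
    rw [Real.log_div h.ne' hc.ne', inv_div] at h1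
    have h2 := mul_le_mul_of_nonneg_left h1 hx
    have h3 : x * (1 - c / x) = x - c := by field_simp
    rw [h3] at h2
    linarith

theorem t9_xlogx {p d : ℝ} (hd : 0 < d) :
    d * Real.log (d / 2) ≤ (p + d) * Real.log (p + d) - p * Real.log p := by
  have hd2 : 0 < d / 2 := by linarith
  have key : ∀ p : ℝ, 0 ≤ p → d * Real.log (d / 2) ≤
      (p + d) * Real.log (p + d) - p * Real.log p := by
    intro p hp
    have h1 : Real.log (d / 2) ≤ Real.log (p + d) := Real.log_le_log hd2 (by linarith)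
    have h2 : p * Real.log p ≤ p * Real.log (p + d) := by
      rcases hp.eq_or_lt with h | h
      · rw [← h]; simp
      · exact mul_le_mul_of_nonneg_left (Real.log_le_log h (by linarith)) hp
    nlinarith
  rcases le_or_gt 0 p with hp | hp
  · exact key p hp
  · rcases le_or_gt (p + d) 0 with hq | hq
    · have h := key (-(p + d)) (by linarith)
      have e1 : -(p + d) + d = -p := by ring
      rw [e1, Real.log_neg_eq_log, Real.log_neg_eq_log] at h
      linarith
    · have h1 := t9_tangent hq.le hd2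
      have h2 := t9_tangent (neg_nonneg.2 hp.le) hd2
      rw [Real.log_neg_eq_log] at h2
      nlinarith

theorem t9_int_log (a b t : ℝ) : IntervalIntegrable (fun s => Real.log |s - t|) volume a b := by
  have := (intervalIntegral.intervalIntegrable_log' (a := a - t) (b := b - t)).comp_sub_right t
  simpa [Real.log_abs] using this

theorem t9_avg {d ε u t : ℝ} (hd : 0 < d) (hε : 0 < ε) (hε2 : ε ≤ 2 * d) :
    d * (Real.log (max |t - u| ε) - t9P d (t - u)) ≤ ∫ s in u..(u + d), Real.log |s - t| := by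
  rcases le_or_gt |t - u| (2 * d) with h | h
  · have h1 : t9P d (t - u) = 3 := by
      rw [t9P, max_eq_right h]
      field_simp
      norm_num
    have h2 : Real.log (max |t - u| ε) ≤ Real.log (2 * d) :=
      Real.log_le_log (lt_max_of_lt_right hε) (max_le h hε2)
    have h3 : ∫ s in u..(u + d), Real.log |s - t| =
        ((u - t) + d) * Real.log ((u - t) + d) - (u - t) * Real.log (u - t) - d := by
      simp only [Real.log_abs]
      rw [intervalIntegral.integral_comp_sub_right (fun s => Real.log s) t, integral_log]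
      ring_nf
    rw [h3, h1]
    have h4 := t9_xlogx (p := u - t) hd
    have h5 : Real.log (2 * d) = Real.log (d / 2) + 2 * Real.log 2 := by
      rw [Real.log_mul two_ne_zero hd.ne', Real.log_div hd.ne' two_ne_zero]
      ring
    have h6 : Real.log 2 < 0.6931471808 := Real.log_two_lt_d9
    nlinarith
  · have h1 : max |t - u| ε = |t - u| := max_eq_left (by linarith)
    have h2 : t9P d (t - u) = 6 * d / |t - u| := by
      rw [t9P, max_eq_left h.le]
    have hpos : 0 < |t - u| := by linarith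
    rw [h1, h2]
    have h3 : ∫ s in u..(u + d), (Real.log |t - u| - 6 * d / |t - u|) =
        d * (Real.log |t - u| - 6 * d / |t - u|) := by
      rw [intervalIntegral.integral_const, smul_eq_mul]
      ring
    rw [← h3]
    apply intervalIntegral.integral_mono_on (by linarith) intervalIntegrable_const
      (t9_int_log _ _ _)
    intro s hs
    rcases le_or_gt t u with htu | htu
    · have e1 : |t - u| = u - t := by rw [abs_sub_comm, abs_of_nonneg (by linarith)]
      rw [e1] at hpos ⊢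
      have e2 : |s - t| = s - t := abs_of_nonneg (by linarith [hs.1])
      rw [e2]
      have e3 : Real.log (u - t) ≤ Real.log (s - t) := Real.log_le_log hpos (by linarith [hs.1])
      have e4 : 0 ≤ 6 * d / (u - t) := by positivity
      linarith
    · have e1 : |t - u| = t - u := abs_of_pos (by linarith)
      rw [e1] at hpos h ⊢
      have hs1 := hs.1
      have hs2 := hs.2
      have e2 : |s - t| = t - s := by rw [abs_sub_comm, abs_of_nonneg (by linarith)]
      have hts : 0 < t - s := by linarith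
      rw [e2]
      have e3 := Real.one_sub_inv_le_log_of_pos (div_pos hts hpos)
      rw [Real.log_div hts.ne' hpos.ne', inv_div] at e3
      have e4 : (t - u) / (t - s) - 1 ≤ 6 * d / (t - u) := by
        rw [div_sub_one hts.ne', div_le_div_iff₀ hts hpos]
        nlinarith
      linarith

/-- `f(iη)` is real -/
theorem t9_real {N : ℝ} (η : ℝ) : (fj N α τ 0 (η * Complex.I)).im = 0 := by
  have h1 := fj_conj (N := N) (α := α) (τ := τ) 0 (η * Complex.I)
  have h2 := fj_neg (N := N) (α := α) (τ := τ) 0 (η * Complex.I)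
  have h3 : conj ((η : ℂ) * Complex.I) = -(η * Complex.I) := by simp
  rw [h3, h2] at h1
  have h4 := congrArg Complex.im h1
  simp only [pow_zero, one_mul, Complex.conj_im] at h4
  linarith

theorem t9_norm_sq {N : ℝ} (η : ℝ) : (fj N α τ 0 (η * Complex.I)).re ^ 2 =
    ‖FF N α τ ((-(η ^ 2) : ℝ) : ℂ)‖ ^ 2 := by
  have h1 : ((-(η ^ 2) : ℝ) : ℂ) = (η * Complex.I) ^ 2 := by
    push_cast
    rw [mul_pow, Complex.I_sq]
    ring
  rw [h1, FF_sq, ← Complex.normSq_eq_norm_sq, Complex.normSq_apply, t9_real]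
  ring

/-- the lower bound for `F'` at a zero -/
theorem t9_deriv {N : ℝ} (hN : 0 < N) (hτ : 0 < τ) (t₀ d : ℝ) (ht₀ : t₀ ∈ Zt N α τ) (hd : 0 < d) :
    (N ^ 3 * τ ^ 4) * ∫ s in t₀..(t₀ + d), ‖FF N α τ ((-s : ℝ) : ℂ)‖ ^ 2 ≤
      4 * t₀ * ‖deriv (FF N α τ) (-(t₀ : ℂ))‖ ^ 2 := by
  obtain ⟨ht₀p, hzero⟩ := ht₀
  have hζ : 0 < √t₀ := Real.sqrt_pos.2 ht₀p
  have hsq : √t₀ ^ 2 = t₀ := Real.sq_sqrt ht₀p.le
  have hx2 : ((√t₀ : ℂ) * Complex.I) ^ 2 = -(t₀ : ℂ) := by
    rw [mul_pow, Complex.I_sq]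
    have : ((√t₀ : ℝ) : ℂ) ^ 2 = ((√t₀ ^ 2 : ℝ) : ℂ) := by push_cast; rfl
    rw [this, hsq]
    ring
  have h0 : fj N α τ 0 ((√t₀ : ℝ) * Complex.I) = 0 := by
    rw [← FF_sq, hx2, hzero]
  obtain ⟨hint, hnorm, -⟩ := fj_one_sq hN hτ (√t₀) hζ h0
  have hder : fj N α τ 1 ((√t₀ : ℝ) * Complex.I) =
      deriv (FF N α τ) (-(t₀ : ℂ)) * (2 * ((√t₀ : ℝ) * Complex.I)) := by
    have h1 := fj_hasDerivAt (α := α) (τ := τ) hN 0 ((√t₀ : ℝ) * Complex.I)
    have h2 : HasDerivAt (fun x : ℂ => FF N α τ (x ^ 2))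
        (deriv (FF N α τ) (((√t₀ : ℝ) * Complex.I) ^ 2) * (2 * ((√t₀ : ℝ) * Complex.I)))
        ((√t₀ : ℝ) * Complex.I) := by
      have h3 := (FF_differentiable (α := α) (τ := τ) hN
        (((√t₀ : ℝ) * Complex.I) ^ 2)).hasDerivAt
      have h4 : HasDerivAt (fun x : ℂ => x ^ 2) (2 * ((√t₀ : ℝ) * Complex.I))
          ((√t₀ : ℝ) * Complex.I) := by
        simpa using hasDerivAt_pow 2 ((√t₀ : ℂ) * Complex.I)
      exact HasDerivAt.comp (h₂ := FF N α τ) (h := fun x : ℂ => x ^ 2) _ h3 h4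
    have h3 : (fun x : ℂ => FF N α τ (x ^ 2)) = fj N α τ 0 := by
      funext x
      exact FF_sq x
    rw [h3, hx2] at h2
    exact h1.unique h2
  have hnorm2 : Complex.normSq (fj N α τ 1 ((√t₀ : ℝ) * Complex.I)) =
      4 * t₀ * ‖deriv (FF N α τ) (-(t₀ : ℂ))‖ ^ 2 := by
    rw [hder, Complex.normSq_eq_norm_sq, norm_mul, norm_mul, norm_mul, Complex.norm_I,
      Complex.norm_real, Real.norm_of_nonneg hζ.le]
    rw [mul_pow]
    have : ‖(2 : ℂ)‖ = 2 := by simp
    rw [this]
    have h5 : (2 * (√t₀ * 1)) ^ 2 = 4 * t₀ := by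
      rw [mul_one, mul_pow, hsq]; norm_num
    rw [h5]
    ring
  rw [← hnorm2, hnorm]
  set G : ℝ → ℝ := fun s => ‖FF N α τ ((-s : ℝ) : ℂ)‖ ^ 2 with hG
  have hGc : Continuous G := by
    have := (FF_differentiable (α := α) (τ := τ) hN).continuous
    exact (this.comp (Complex.continuous_ofReal.comp continuous_neg)).norm.pow 2
  have hsq1 : √(t₀ + d) ^ 2 = t₀ + d := Real.sq_sqrt (by linarith)
  have hle : √t₀ ≤ √(t₀ + d) := Real.sqrt_le_sqrt (by linarith)
  have hcv : (∫ η in (√t₀)..(√(t₀ + d)), (G ∘ fun η => η ^ 2) η * (2 * η)) =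
      ∫ s in t₀..(t₀ + d), G s := by
    have := intervalIntegral.integral_comp_mul_deriv (a := √t₀) (b := √(t₀ + d))
      (f := fun η : ℝ => η ^ 2) (f' := fun η => 2 * η) (g := G)
      (fun x _ => by simpa using hasDerivAt_pow 2 x) (by fun_prop) hGc
    rw [this, hsq, hsq1]
  rw [← hcv]
  have h6 : (∫ η in (√t₀)..(√(t₀ + d)), (G ∘ fun η => η ^ 2) η * (2 * η)) =
      2 * ∫ η in (√t₀)..(√(t₀ + d)), η * (fj N α τ 0 (η * Complex.I)).re ^ 2 := by
    rw [← intervalIntegral.integral_const_mul]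
    congr 1
    funext η
    rw [t9_norm_sq]
    simp only [hG, Function.comp_apply]
    ring
  rw [h6, intervalIntegral.integral_of_le hle]
  have h7 : (∫ η in Ioc (√t₀) (√(t₀ + d)), η * (fj N α τ 0 (η * Complex.I)).re ^ 2) ≤
      ∫ η in Ioi (√t₀), η * (fj N α τ 0 (η * Complex.I)).re ^ 2 := by
    apply setIntegral_mono_set hint
    · rw [EventuallyLE, ae_restrict_iff' measurableSet_Ioi]
      filter_upwards with η hη
      have : 0 < η := hζ.trans hη
      simp only [Pi.zero_apply]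
      positivity
    · exact Ioc_subset_Ioi_self.eventuallyLE
  have h8 : 0 < N ^ 3 * τ ^ 4 := by positivity
  nlinarith

theorem t9_P_summable {N : ℝ} (hN : 0 < N) (hτ : 0 < τ) {d u : ℝ} (hd : 0 < d) (hd1 : d ≤ 1)
    (hu : 0 ≤ u) : Summable fun t : Zt N α τ => t9P d ((t : ℝ) - u) := by
  have h1 := (Zt_summable (α := α) hN hτ 1 (by norm_num)).mul_left (12 * (1 + u))
  refine Summable.of_nonneg_of_le (fun t => t9P_nonneg hd _) (fun t => ?_) h1
  have ht : 0 < (t : ℝ) := t.2.1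
  refine (t9P_bound hd hd1 hu le_rfl ht.le).trans ?_
  rw [Real.rpow_neg ht.le, Real.rpow_one, div_eq_mul_inv]
  have : (1 + (t : ℝ))⁻¹ ≤ (t : ℝ)⁻¹ := inv_anti₀ ht (by linarith)
  have h3 : 0 ≤ 12 * (1 + u) := by linarith
  exact mul_le_mul_of_nonneg_left this h3

/-- the main inequality -/
theorem t9_main {N : ℝ} (hN : 0 < N) (hτ : 0 < τ) {d ε : ℝ} (hd : 0 < d) (hd1 : d ≤ 1)
    (hε : 0 < ε) (hε2 : ε ≤ 2 * d) (A : Finset ℝ) (hA : ∀ t ∈ A, t ∈ Zt N α τ) (t₀ : ℝ)
    (ht₀ : t₀ ∈ Zt N α τ) :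
    ∑ t ∈ A.erase t₀, max 0 (Real.log (ε / |t - t₀|)) ≤
      2 * (∑' t : Zt N α τ, t9P d ((t : ℝ) - t₀)) + 1 + Real.log t₀ - Real.log d +
        1 / 2 * Real.log (4 / (t₀ * (N ^ 3 * τ ^ 4) * d)) := by
  classical
  have ht₀p : 0 < t₀ := ht₀.1
  set Pi : ℝ := ∑' t : Zt N α τ, t9P d ((t : ℝ) - t₀) with hPi
  have hPs := t9_P_summable (α := α) hN hτ (u := t₀) hd hd1 ht₀p.le
  -- the finite set
  set R : ℝ := t₀ + 2 * d + ∑ t ∈ A, |t| with hR
  have hsumnn : 0 ≤ ∑ t ∈ A, |t| := Finset.sum_nonneg fun t _ => abs_nonneg t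
  set S : Finset ℝ := (Zt_finite (α := α) hN hτ R).toFinset with hS
  have hmemS : ∀ t, t ∈ S ↔ t ∈ Zt N α τ ∧ t ≤ R := by
    intro t
    rw [hS, Set.Finite.mem_toFinset]
    rfl
  have hAS : A ⊆ S := by
    intro t ht
    rw [hmemS]
    refine ⟨hA t ht, ?_⟩
    have h1 : |t| ≤ ∑ t ∈ A, |t| := Finset.single_le_sum (f := fun t => |t|)
      (fun t _ => abs_nonneg t) ht
    have h2 := le_abs_self t
    linarith
  have ht₀S : t₀ ∈ S := (hmemS t₀).2 ⟨ht₀, by linarith⟩
  have hSZ : ∀ t ∈ S, t ∈ Zt N α τ := fun t ht => ((hmemS t).1 ht).1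
  -- values
  let v : ℝ → ℝ := fun t => if t = t₀ then Real.log t₀ else Real.log |t - t₀|
  let Q : ℝ → ℝ := fun s => ∑ t ∈ S, (Real.log |s - t| - v t)
  obtain ⟨hws, hw⟩ := log_FF_deriv (α := α) hN hτ ⟨t₀, ht₀⟩
  set D : ℝ := ‖deriv (FF N α τ) (-(t₀ : ℂ))‖ with hD
  have hDpos : 0 < D := norm_pos_iff.2 (FF_deriv_ne_zero hN hτ t₀ ht₀)
  have hF0 : 0 < ‖FF N α τ 0‖ := by
    rw [norm_pos_iff]
    intro h
    obtain ⟨t, ht, h0⟩ := (FF_eq_zero_iff hN hτ 0).1 h
    have : (t : ℂ) = 0 := by simpa using h0.symm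
    have h1 : t = 0 := by exact_mod_cast this
    exact ht.1.ne' h1
  -- pointwise inequality
  have hpt : ∀ s ∈ Icc t₀ (t₀ + d), FF N α τ ((-s : ℝ) : ℂ) ≠ 0 →
      t₀ * D * Real.exp (Q s - Pi) ≤ ‖FF N α τ ((-s : ℝ) : ℂ)‖ := by
    intro s hs hs0
    obtain ⟨hus, hu⟩ := log_FF_abs (α := α) hN hτ (-s) hs0
    have hne : ∀ t ∈ Zt N α τ, t ≠ s := by
      rintro t ht rfl
      apply hs0
      rw [Complex.ofReal_neg]
      exact ht.2
    have hlog1 : ∀ x : ℝ, x ∈ Zt N α τ → Real.log |1 + (-s) / x| = Real.log |s - x| - Real.log x := by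
      intro x hx
      have hxp : 0 < x := hx.1
      have e1 : 1 + (-s) / x = -(s - x) / x := by field_simp; ring
      rw [e1, abs_div, abs_neg, abs_of_pos hxp, Real.log_div _ hxp.ne']
      rw [abs_ne_zero, sub_ne_zero]
      exact (hne x hx).symm
    have hlog2 : ∀ x : ℝ, x ∈ Zt N α τ → x ≠ t₀ →
        Real.log |1 - t₀ / x| = Real.log |x - t₀| - Real.log x := by
      intro x hx hxt
      have hxp : 0 < x := hx.1
      have e1 : 1 - t₀ / x = (x - t₀) / x := by field_simp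
      rw [e1, abs_div, abs_of_pos hxp, Real.log_div _ hxp.ne']
      rw [abs_ne_zero, sub_ne_zero]
      exact hxt
    set w : Zt N α τ → ℝ := fun t => if t = ⟨t₀, ht₀⟩ then 0 else Real.log |1 - t₀ / (t : ℝ)|
      with hwdef
    have hGs : Summable fun t : Zt N α τ => Real.log |1 + (-s) / (t : ℝ)| - w t +
        t9P d ((t : ℝ) - t₀) := (hus.sub hws).add hPs
    have hGt : ∑' t : Zt N α τ, (Real.log |1 + (-s) / (t : ℝ)| - w t + t9P d ((t : ℝ) - t₀)) =
        Real.log (‖FF N α τ ((-s : ℝ) : ℂ)‖ / ‖FF N α τ 0‖) -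
          Real.log (t₀ * D / ‖FF N α τ 0‖) + Pi := by
      rw [(hus.sub hws).tsum_add hPs, hus.tsum_sub hws, ← hu, ← hw]
    have hval : ∀ t : Zt N α τ, Real.log |1 + (-s) / (t : ℝ)| - w t =
        Real.log |s - (t : ℝ)| - v t := by
      intro t
      rw [hlog1 t t.2]
      by_cases hc : (t : ℝ) = t₀
      · have hc' : t = ⟨t₀, ht₀⟩ := Subtype.ext hc
        simp only [hwdef, v]
        rw [if_pos hc', if_pos hc, hc]
        ring
      · have hc' : t ≠ ⟨t₀, ht₀⟩ := fun h => hc (congrArg Subtype.val h)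
        simp only [hwdef, v]
        rw [if_neg hc', if_neg hc, hlog2 t t.2 hc]
        ring
    have h1 := hGs.sum_le_tsum (S.subtype (· ∈ Zt N α τ)) (by
      intro t ht
      have htS : (t : ℝ) ∉ S := fun h => ht (by simpa using h)
      have hx : R < (t : ℝ) := by
        by_contra hcon
        exact htS ((hmemS _).2 ⟨t.2, not_lt.1 hcon⟩)
      have hs1 := hs.1
      have hs2 := hs.2
      have hxt : 2 * d < (t : ℝ) - t₀ := by linarith
      have hxs : 0 < (t : ℝ) - s := by linarith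
      rw [hval t]
      have hc : (t : ℝ) ≠ t₀ := by
        intro h
        rw [h] at hxt
        linarith
      simp only [v]
      rw [if_neg hc, t9P, abs_of_pos (by linarith : 0 < (t : ℝ) - t₀), max_eq_left hxt.le,
        abs_sub_comm, abs_of_pos hxs]
      have e3 := Real.one_sub_inv_le_log_of_pos (div_pos hxs (by linarith : 0 < (t : ℝ) - t₀))
      rw [Real.log_div hxs.ne' (by linarith), inv_div] at e3
      have e4 : ((t : ℝ) - t₀) / ((t : ℝ) - s) - 1 ≤ 6 * d / ((t : ℝ) - t₀) := by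
        rw [div_sub_one hxs.ne', div_le_div_iff₀ hxs (by linarith)]
        nlinarith
      linarith)
    rw [hGt] at h1
    have h2 : Q s ≤ ∑ t ∈ S.subtype (· ∈ Zt N α τ), (Real.log |1 + (-s) / (t : ℝ)| - w t +
        t9P d ((t : ℝ) - t₀)) := by
      have e1 : Q s = ∑ t ∈ S.subtype (· ∈ Zt N α τ), (Real.log |s - (t : ℝ)| - v t) :=
        (Finset.sum_subtype_of_mem (fun x => Real.log |s - x| - v x) hSZ).symm
      rw [e1]
      apply Finset.sum_le_sum
      intro t _
      rw [hval t]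
      have := t9P_nonneg hd ((t : ℝ) - t₀)
      linarith
    have h3 := h2.trans h1
    have hFs : 0 < ‖FF N α τ ((-s : ℝ) : ℂ)‖ := norm_pos_iff.2 hs0
    rw [Real.log_div hFs.ne' hF0.ne', Real.log_div (mul_pos ht₀p hDpos).ne' hF0.ne'] at h3
    have h4 : Real.log (t₀ * D) + (Q s - Pi) ≤ Real.log ‖FF N α τ ((-s : ℝ) : ℂ)‖ := by linarith
    have h5 := Real.exp_le_exp.2 h4
    rwa [Real.exp_add, Real.exp_log (mul_pos ht₀p hDpos), Real.exp_log hFs] at h5
  -- integrability
  have hQi : IntervalIntegrable Q volume t₀ (t₀ + d) := by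
    have : Q = ∑ t ∈ S, fun s => (Real.log |s - t| - v t) := by
      funext s
      rw [Finset.sum_apply]
    rw [this]
    exact IntervalIntegrable.sum _ fun t _ => (t9_int_log _ _ t).sub intervalIntegrable_const
  set I : ℝ := ∫ s in t₀..(t₀ + d), Q s with hI
  set c : ℝ := 2 * I / d with hc
  set b : ℝ := N ^ 3 * τ ^ 4 with hb
  have hbpos : 0 < b := by positivity
  have hB := t9_deriv (α := α) hN hτ t₀ d ht₀ hd
  rw [← hD, ← hb] at hB
  have hJ : (t₀ * D) ^ 2 * Real.exp (c - 2 * Pi) * d ≤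
      ∫ s in t₀..(t₀ + d), ‖FF N α τ ((-s : ℝ) : ℂ)‖ ^ 2 := by
    have e1 : ∫ s in t₀..(t₀ + d), (t₀ * D) ^ 2 * Real.exp (c - 2 * Pi) * ((1 - c) + 2 * Q s) =
        (t₀ * D) ^ 2 * Real.exp (c - 2 * Pi) * d := by
      rw [intervalIntegral.integral_const_mul, intervalIntegral.integral_add
        intervalIntegrable_const (hQi.const_mul 2), intervalIntegral.integral_const_mul,
        intervalIntegral.integral_const, ← hI, smul_eq_mul]
      congr 1
      rw [hc]
      field_simp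
      ring
    rw [← e1]
    apply intervalIntegral.integral_mono_ae_restrict (by linarith)
    · exact ((intervalIntegrable_const.add (hQi.const_mul 2)).const_mul _)
    · have hcont : Continuous fun s : ℝ => ‖FF N α τ ((-s : ℝ) : ℂ)‖ ^ 2 := by
        have := (FF_differentiable (α := α) (τ := τ) hN).continuous
        exact (this.comp (Complex.continuous_ofReal.comp continuous_neg)).norm.pow 2
      exact hcont.intervalIntegrable _ _
    · rw [EventuallyLE, ae_restrict_iff' measurableSet_Icc]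
      filter_upwards [(Zt_countable (α := α) hN hτ).ae_notMem volume] with s hsZ hs
      have hs0 : FF N α τ ((-s : ℝ) : ℂ) ≠ 0 := by
        intro h
        obtain ⟨t, ht, h0⟩ := (FF_eq_zero_iff hN hτ _).1 h
        rw [Complex.ofReal_neg, neg_inj] at h0
        have h1 : s = t := by exact_mod_cast h0
        exact hsZ (h1 ▸ ht)
      have h1 := hpt s hs hs0
      have h2 : (t₀ * D * Real.exp (Q s - Pi)) ^ 2 ≤ ‖FF N α τ ((-s : ℝ) : ℂ)‖ ^ 2 :=
        pow_le_pow_left₀ (by positivity) h1 2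
      refine le_trans ?_ h2
      have h3 : (t₀ * D * Real.exp (Q s - Pi)) ^ 2 =
          (t₀ * D) ^ 2 * Real.exp (c - 2 * Pi) * Real.exp (2 * Q s - c) := by
        rw [mul_pow, ← Real.exp_nat_mul, mul_assoc, ← Real.exp_add]
        congr 2
        push_cast
        ring
      rw [h3]
      apply mul_le_mul_of_nonneg_left _ (by positivity)
      have := Real.add_one_le_exp (2 * Q s - c)
      linarith
  have hc1 : c - 2 * Pi ≤ Real.log (4 / (t₀ * b * d)) := by
    rw [Real.le_log_iff_exp_le (by positivity), le_div_iff₀ (by positivity)]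
    have h1 : b * ((t₀ * D) ^ 2 * Real.exp (c - 2 * Pi) * d) ≤ 4 * t₀ * D ^ 2 :=
      (mul_le_mul_of_nonneg_left hJ hbpos.le).trans hB
    have h2 : 0 < t₀ * D ^ 2 := by positivity
    have h3 : (Real.exp (c - 2 * Pi) * (t₀ * b * d)) * (t₀ * D ^ 2) ≤ 4 * (t₀ * D ^ 2) := by
      calc _ = b * ((t₀ * D) ^ 2 * Real.exp (c - 2 * Pi) * d) := by ring
        _ ≤ 4 * t₀ * D ^ 2 := h1
        _ = _ := by ring
    exact le_of_mul_le_mul_right h3 h2
  -- lower bound for I
  have hIval : I = ∑ t ∈ S, ((∫ s in t₀..(t₀ + d), Real.log |s - t|) - d * v t) := by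
    rw [hI]
    simp only [Q]
    rw [intervalIntegral.integral_finsetSum
      (fun t _ => (t9_int_log _ _ t).sub intervalIntegrable_const)]
    refine Finset.sum_congr rfl fun t _ => ?_
    rw [intervalIntegral.integral_sub (t9_int_log _ _ t) intervalIntegrable_const,
      intervalIntegral.integral_const, smul_eq_mul]
    congr 1
    ring
  have hIt₀ : (∫ s in t₀..(t₀ + d), Real.log |s - t₀|) - d * v t₀ =
      d * (Real.log d - 1 - Real.log t₀) := by
    simp only [Real.log_abs, v]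
    rw [intervalIntegral.integral_comp_sub_right (fun s => Real.log s) t₀, integral_log]
    simp only [if_true, sub_self, add_sub_cancel_left, zero_mul]
    ring
  have hterm : ∀ t ∈ S.erase t₀, d * (max 0 (Real.log (ε / |t - t₀|)) - t9P d (t - t₀)) ≤
      (∫ s in t₀..(t₀ + d), Real.log |s - t|) - d * v t := by
    intro t ht
    have htne : t ≠ t₀ := Finset.ne_of_mem_erase ht
    have hpos : 0 < |t - t₀| := abs_pos.2 (sub_ne_zero.2 htne)
    have h1 := t9_avg (u := t₀) (t := t) hd hε hε2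
    simp only [v]
    rw [if_neg htne]
    have h2 : max 0 (Real.log (ε / |t - t₀|)) = Real.log (max |t - t₀| ε) -
        Real.log |t - t₀| := by
      rw [Real.log_div hε.ne' hpos.ne']
      rcases le_total |t - t₀| ε with h | h
      · rw [max_eq_right h, max_eq_right]
        have := Real.log_le_log hpos h
        linarith
      · rw [max_eq_left h, max_eq_left, sub_self]
        have := Real.log_le_log hε h
        linarith
    rw [h2]
    linarith
  have hI2 : d * (Real.log d - 1 - Real.log t₀) +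
      ∑ t ∈ S.erase t₀, d * (max 0 (Real.log (ε / |t - t₀|)) - t9P d (t - t₀)) ≤ I := by
    rw [hIval, ← Finset.add_sum_erase S _ ht₀S, hIt₀]
    have := Finset.sum_le_sum hterm
    linarith
  rw [← Finset.mul_sum, ← mul_add, Finset.sum_sub_distrib] at hI2
  have hPsum : ∑ t ∈ S.erase t₀, t9P d (t - t₀) ≤ Pi := by
    have h1 : ∑ t ∈ S.erase t₀, t9P d (t - t₀) ≤ ∑ t ∈ S, t9P d (t - t₀) :=
      Finset.sum_le_sum_of_subset_of_nonneg (Finset.erase_subset _ _)
        (fun t _ _ => t9P_nonneg hd _)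
    have h2 := hPs.sum_le_tsum (S.subtype (· ∈ Zt N α τ)) (fun t _ => t9P_nonneg hd _)
    rw [Finset.sum_subtype_of_mem (fun x => t9P d (x - t₀)) hSZ] at h2
    exact h1.trans h2
  have hAsum : ∑ t ∈ A.erase t₀, max 0 (Real.log (ε / |t - t₀|)) ≤
      ∑ t ∈ S.erase t₀, max 0 (Real.log (ε / |t - t₀|)) :=
    Finset.sum_le_sum_of_subset_of_nonneg (Finset.erase_subset_erase _ hAS)
      (fun t _ _ => le_max_left _ _)
  have hfin : d * c = 2 * I := by
    rw [hc]
    field_simp
  have h9 : d * (Real.log d - 1 - Real.log t₀ +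
      (∑ t ∈ S.erase t₀, max 0 (Real.log (ε / |t - t₀|)) -
        ∑ t ∈ S.erase t₀, t9P d (t - t₀))) ≤ d * (Pi + 1 / 2 * Real.log (4 / (t₀ * b * d))) := by
    refine hI2.trans ?_
    nlinarith
  have h10 := le_of_mul_le_mul_left h9 hd
  linarith

/-- uniform smallness of the integrals -/
theorem t9_small (hτ : 0 < τ) {a b η : ℝ} (ha : 0 < a) (hη : 0 < η) :
    ∃ d : ℝ, 0 < d ∧ d ≤ 1 ∧ ∀ u ∈ Icc a b, ∫ t, t9P d (t - u) ∂(sigI α τ) < η := by
  by_contra hcon
  push Not at hcon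
  have hseq : ∀ k : ℕ, ∃ u ∈ Icc a b, η ≤ ∫ t, t9P (1 / ((k : ℝ) + 1)) (t - u) ∂(sigI α τ) := by
    intro k
    exact hcon (1 / ((k : ℝ) + 1)) (by positivity)
      (by rw [div_le_one (by positivity)]; linarith [Nat.cast_nonneg (α := ℝ) k])
  choose u hu hint using hseq
  obtain ⟨u', hu', φ, hφ, hlim⟩ := isCompact_Icc.tendsto_subseq hu
  have hae0 : ∀ᵐ t ∂(sigI α τ), t ∈ Ioi (0 : ℝ) ∧ t ≠ u' := by
    rw [sigI_eq hτ]
    have h1 : ∀ᵐ t ∂(volume.restrict (Ioi (0 : ℝ))), t ∈ Ioi (0 : ℝ) ∧ t ≠ u' := by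
      rw [ae_restrict_iff' measurableSet_Ioi]
      have h2 : ∀ᵐ t : ℝ, t ≠ u' := by
        have := (countable_singleton u').ae_notMem (volume : Measure ℝ)
        filter_upwards [this] with t ht
        simpa using ht
      filter_upwards [h2] with t ht h0
      exact ⟨h0, ht⟩
    exact (withDensity_absolutelyContinuous _ _).ae_le h1
  have hT : Tendsto (fun k => ∫ t, t9P (1 / ((φ k : ℝ) + 1)) (t - u (φ k)) ∂(sigI α τ)) atTop
      (𝓝 (∫ _, (0 : ℝ) ∂(sigI α τ))) := by
    apply tendsto_integral_of_dominated_convergence (fun t => 12 * (1 + b) * (1 / (1 + t)))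
    · intro k
      exact (t9P_cont (by positivity) _).aestronglyMeasurable
    · exact (sigI_integrable hτ).const_mul _
    · intro k
      filter_upwards [hae0] with t ht
      rw [Real.norm_of_nonneg (t9P_nonneg (by positivity) _)]
      have := t9P_bound (d := 1 / ((φ k : ℝ) + 1)) (B := b) (u := u (φ k)) (t := t)
        (by positivity)
        (by rw [div_le_one (by positivity)]; linarith [Nat.cast_nonneg (α := ℝ) (φ k)])
        (ha.le.trans (hu _).1) (hu _).2 (le_of_lt ht.1)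
      rw [mul_one_div]
      exact this
    · filter_upwards [hae0] with t ht
      have hpos : 0 < |t - u'| := abs_pos.2 (sub_ne_zero.2 ht.2)
      have h1 : Tendsto (fun k => 6 * (1 / ((φ k : ℝ) + 1)) / |t - u (φ k)|) atTop (𝓝 0) := by
        have h2 : Tendsto (fun k => 1 / ((φ k : ℝ) + 1)) atTop (𝓝 0) :=
          tendsto_one_div_add_atTop_nhds_zero_nat.comp hφ.tendsto_atTop
        have h3 : Tendsto (fun k => |t - u (φ k)|) atTop (𝓝 |t - u'|) :=
          (hlim.const_sub t).abs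
        have h4 : Tendsto (fun k => 6 * (1 / ((φ k : ℝ) + 1)) / |t - u (φ k)|) atTop
            (𝓝 (6 * 0 / |t - u'|)) := (h2.const_mul 6).div h3 hpos.ne'
        rwa [mul_zero, zero_div] at h4
      refine squeeze_zero' (Eventually.of_forall fun k => t9P_nonneg (by positivity) _) ?_ h1
      have h5 : ∀ᶠ k in atTop, 0 < |t - u (φ k)| :=
        ((hlim.const_sub t).abs).eventually (lt_mem_nhds hpos)
      filter_upwards [h5] with k hk
      unfold t9P
      exact div_le_div_of_nonneg_left (by positivity) hk (le_max_left _ _)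
  rw [integral_zero] at hT
  have := ge_of_tendsto hT (Eventually.of_forall fun k => hint (φ k))
  linarith

theorem near_diag (hτ : 0 < τ) (a b δ : ℝ) (ha : 0 < a) (hδ : 0 < δ) : ∃ ε : ℝ, 0 < ε ∧
    ∃ n₀ : ℕ, ∀ n : ℕ, n₀ ≤ n → ∀ (A : Finset ℝ) (_ : ∀ t ∈ A, t ∈ Zt n α τ) (t₀ : ℝ),
    t₀ ∈ Zt n α τ → t₀ ∈ Icc a b →
    ∑ t ∈ A.erase t₀, max 0 (Real.log (ε / |t - t₀|)) ≤ δ * n := by
  obtain ⟨d, hd, hd1, hdint⟩ := t9_small (α := α) hτ (a := a) (b := b) (η := δ / 8) ha
    (by positivity)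
  obtain ⟨T, hTsub, hTfin, hTcov⟩ := (isCompact_Icc (a := a) (b := b)).finite_cover_balls hd
  -- convergence at the net points
  have hev : ∀ u ∈ T, ∀ᶠ n : ℕ in atTop,
      (1 / (n : ℝ)) * ∑' t : Zt n α τ, t9P d ((t : ℝ) - u) < δ / 8 := by
    intro u hu
    have h1 := (Zt_tendsto (α := α) hτ (fun t => t9P d (t - u))
      (t9P_cont hd u).continuousOn (6 * d) (t9P_lim hd u)).2
    exact h1.eventually (gt_mem_nhds (hdint u (hTsub hu)))
  have hev2 : ∀ᶠ n : ℕ in atTop, ∀ u ∈ T,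
      (1 / (n : ℝ)) * ∑' t : Zt n α τ, t9P d ((t : ℝ) - u) < δ / 8 :=
    (Filter.eventually_all_finite hTfin).2 hev
  set C : ℝ := 1 + |Real.log b| + |Real.log d| + |Real.log (4 / (a * τ ^ 4 * d))| with hC
  have hev3 : ∀ᶠ n : ℕ in atTop, C ≤ δ / 2 * (n : ℝ) := by
    have : Tendsto (fun n : ℕ => δ / 2 * (n : ℝ)) atTop atTop :=
      tendsto_natCast_atTop_atTop.const_mul_atTop (by positivity)
    exact this.eventually_ge_atTop C
  obtain ⟨n₀, hn₀⟩ := eventually_atTop.1 (hev2.and (hev3.and (eventually_ge_atTop 1)))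
  refine ⟨2 * d, by positivity, n₀, ?_⟩
  intro n hn A hA t₀ ht₀ ht₀ab
  obtain ⟨h1, h2, h3⟩ := hn₀ n hn
  have hn1 : (1 : ℝ) ≤ n := by exact_mod_cast h3
  have hnpos : (0 : ℝ) < n := by linarith
  have hmain := t9_main (α := α) hnpos hτ hd hd1 (ε := 2 * d) (by positivity) le_rfl A hA t₀ ht₀
  obtain ⟨u, huT, hut⟩ : ∃ u ∈ T, dist t₀ u < d := by
    have := hTcov ht₀ab
    simpa using this
  have hu0 : 0 ≤ u := ha.le.trans (hTsub huT).1
  have hPi : ∑' t : Zt n α τ, t9P d ((t : ℝ) - t₀) ≤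
      2 * ∑' t : Zt n α τ, t9P d ((t : ℝ) - u) := by
    rw [← tsum_mul_left]
    apply Summable.tsum_le_tsum _ (t9_P_summable hnpos hτ hd hd1 ht₀.1.le)
      ((t9_P_summable hnpos hτ hd hd1 hu0).mul_left 2)
    intro t
    apply t9P_double hd
    rw [Real.dist_eq] at hut
    have : (t : ℝ) - t₀ - ((t : ℝ) - u) = -(t₀ - u) := by ring
    rw [this, abs_neg]
    linarith
  have h4 := h1 u huT
  have h5 : ∑' t : Zt n α τ, t9P d ((t : ℝ) - u) < δ / 8 * n := by
    rw [one_div, inv_mul_lt_iff₀ hnpos] at h4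
    linarith
  have h6 : Real.log t₀ ≤ |Real.log b| :=
    (Real.log_le_log ht₀.1 ht₀ab.2).trans (le_abs_self _)
  have h7 : -Real.log d ≤ |Real.log d| := neg_le_abs _
  have h8 : Real.log (4 / (t₀ * ((n : ℝ) ^ 3 * τ ^ 4) * d)) ≤
      |Real.log (4 / (a * τ ^ 4 * d))| := by
    refine le_trans (Real.log_le_log ?_ ?_) (le_abs_self _)
    · have := ht₀.1
      positivity
    · apply div_le_div_of_nonneg_left (by norm_num) (by positivity)
      have e1 : (1 : ℝ) ≤ (n : ℝ) ^ 3 := one_le_pow₀ hn1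
      have e2 : τ ^ 4 ≤ (n : ℝ) ^ 3 * τ ^ 4 := le_mul_of_one_le_left (by positivity) e1
      have e3 : a * τ ^ 4 ≤ t₀ * ((n : ℝ) ^ 3 * τ ^ 4) :=
        mul_le_mul ht₀ab.1 e2 (by positivity) ht₀.1.le
      exact mul_le_mul_of_nonneg_right e3 hd.le
  have h9 : 0 ≤ |Real.log (4 / (a * τ ^ 4 * d))| := abs_nonneg _
  nlinarith

end

end Pool.Agent.MP_941b23_mp
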