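import Pool.Agent.MP_941b23_mp.Defs2
import Pool.Agent.MP_941b23_mp.T9

/-! [L1b] logarithmic interaction of the chosen zeros -/

set_option autoImplicit false

namespace Pool.Agent.MP_941b23_mp

open MeasureTheory Set Filter Topology
open scoped ENNReal NNReal Real

noncomputable section

/-- truncated kernel -/
def l1b_g (ε x y : ℝ) : ℝ := Real.log (max |x - y| ε)

theorem l1b_log_le {ε u v : ℝ} (hε : 0 < ε) (hu : ε ≤ u) (hv : ε ≤ v) :
    Real.log u - Real.log v ≤ |u - v| / ε := by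
  have hu0 : 0 < u := hε.trans_le hu
  have hv0 : 0 < v := hε.trans_le hv
  rw [← Real.log_div hu0.ne' hv0.ne']
  refine (Real.log_le_sub_one_of_pos (by positivity)).trans ?_
  have h1 : u / v - 1 = (u - v) / v := by field_simp
  rw [h1]
  calc (u - v) / v ≤ |u - v| / v := by gcongr; exact le_abs_self _
    _ ≤ |u - v| / ε := by gcongr

theorem l1b_lip {ε : ℝ} (hε : 0 < ε) (x y y' : ℝ) :
    |l1b_g ε x y - l1b_g ε x y'| ≤ |y - y'| / ε := by
  have h0 : |max |x - y| ε - max |x - y'| ε| ≤ |y - y'| := by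
    refine (abs_max_sub_max_le_abs _ _ _).trans ?_
    refine (abs_abs_sub_abs_le_abs_sub _ _).trans ?_
    rw [show x - y - (x - y') = -(y - y') by ring, abs_neg]
  have h1 := l1b_log_le hε (le_max_right |x - y| ε) (le_max_right |x - y'| ε)
  have h2 := l1b_log_le hε (le_max_right |x - y'| ε) (le_max_right |x - y| ε)
  rw [abs_sub_comm (max |x - y'| ε) (max |x - y| ε)] at h2
  have h3 : |max |x - y| ε - max |x - y'| ε| / ε ≤ |y - y'| / ε := by gcongr
  unfold l1b_g
  exact abs_le.2 ⟨by linarith, by linarith⟩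

theorem l1b_continuous {ε : ℝ} (hε : 0 < ε) :
    Continuous fun z : ℝ × ℝ => l1b_g ε z.1 z.2 := by
  unfold l1b_g
  refine Continuous.log (by fun_prop) fun z => ?_
  exact (hε.trans_le (le_max_right _ _)).ne'

theorem l1b_symm (ε x y : ℝ) : l1b_g ε x y = l1b_g ε y x := by
  unfold l1b_g
  rw [abs_sub_comm]

section meas

variable {b : Measure ℝ} [IsFiniteMeasure b] {lo hi : ℝ}

theorem l1b_restrict (hb : b (Icc lo hi)ᶜ = 0) : b.restrict (Icc lo hi) = b :=
  Measure.restrict_eq_self_of_ae_mem (by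
    rw [ae_iff]
    exact hb)

theorem l1b_integrable (hb : b (Icc lo hi)ᶜ = 0) {h : ℝ → ℝ} (hh : Continuous h) :
    Integrable h b := by
  have h1 : IntegrableOn h (Icc lo hi) b := hh.continuousOn.integrableOn_compact isCompact_Icc
  rwa [IntegrableOn, l1b_restrict hb] at h1

theorem l1b_integrable_prod (hb : b (Icc lo hi)ᶜ = 0) {h : ℝ × ℝ → ℝ} (hh : Continuous h) :
    Integrable h (b.prod b) := by
  have h1 : IntegrableOn h (Icc lo hi ×ˢ Icc lo hi) (b.prod b) :=
    hh.continuousOn.integrableOn_compact (isCompact_Icc.prod isCompact_Icc)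
  rwa [IntegrableOn, ← Measure.prod_restrict, l1b_restrict hb] at h1

/-- the potential of the truncated kernel -/
def l1b_G (b : Measure ℝ) (ε y : ℝ) : ℝ := ∫ x, l1b_g ε x y ∂b

theorem l1b_G_lip (hb : b (Icc lo hi)ᶜ = 0) {ε : ℝ} (hε : 0 < ε) (y y' : ℝ) :
    |l1b_G b ε y - l1b_G b ε y'| ≤ (b univ).toReal * (|y - y'| / ε) := by
  unfold l1b_G
  have hc : ∀ y, Continuous fun x => l1b_g ε x y := fun y =>
    (l1b_continuous hε).comp (by fun_prop : Continuous fun x : ℝ => (x, y))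
  rw [← integral_sub (l1b_integrable hb (hc y)) (l1b_integrable hb (hc y'))]
  have h1 := norm_integral_le_of_norm_le_const (μ := b)
    (f := fun x => l1b_g ε x y - l1b_g ε x y') (C := |y - y'| / ε)
    (Eventually.of_forall fun x => l1b_lip hε x y y')
  rw [Real.norm_eq_abs, mul_comm] at h1
  exact h1

theorem l1b_G_continuous (hb : b (Icc lo hi)ᶜ = 0) {ε : ℝ} (hε : 0 < ε) :
    Continuous (l1b_G b ε) := by
  have h1 : LipschitzWith (Real.toNNReal ((b univ).toReal / ε)) (l1b_G b ε) := by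
    refine LipschitzWith.of_dist_le_mul fun y y' => ?_
    rw [Real.dist_eq, Real.dist_eq, Real.coe_toNNReal _ (by positivity)]
    refine (l1b_G_lip hb hε y y').trans (le_of_eq ?_)
    ring
  exact h1.continuous

theorem l1b_LL_le (hb : b (Icc lo hi)ᶜ = 0) (hb' : FinEn b) {ε : ℝ} (hε : 0 < ε) :
    -LL b b ≤ ∫ y, l1b_G b ε y ∂b := by
  have h1 : ∫ y, l1b_G b ε y ∂b = ∫ z : ℝ × ℝ, l1b_g ε z.1 z.2 ∂(b.prod b) := by
    unfold l1b_G
    rw [integral_prod_symm _ (l1b_integrable_prod hb (l1b_continuous hε))]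
  rw [h1]
  unfold LL
  rw [integral_neg, neg_neg]
  refine integral_mono_ae hb'.energy (l1b_integrable_prod hb (l1b_continuous hε)) ?_
  have h2 : ∀ᵐ z : ℝ × ℝ ∂(b.prod b), z.1 ≠ z.2 := by
    have hm : MeasurableSet {z : ℝ × ℝ | z.1 = z.2} :=
      measurableSet_eq_fun measurable_fst measurable_snd
    have h3 : (b.prod b) {z : ℝ × ℝ | z.1 = z.2} = 0 := by
      rw [Measure.prod_apply hm]
      have h4 : ∀ x, b (Prod.mk x ⁻¹' {z : ℝ × ℝ | z.1 = z.2}) = 0 := by
        intro x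
        have h5 : Prod.mk x ⁻¹' {z : ℝ × ℝ | z.1 = z.2} = {x} := by
          ext y
          simp only [mem_preimage, mem_ofPred_eq, mem_singleton_iff]
          exact eq_comm
        rw [h5]
        exact hb'.noAtom x
      simp only [h4, lintegral_zero]
    rw [ae_iff]
    simpa using h3
  filter_upwards [h2] with z hz
  unfold l1b_g
  refine Real.log_le_log (abs_pos.2 (sub_ne_zero.2 hz)) (le_max_left _ _)

end meas

theorem l1b_split {ε d : ℝ} (hε : 0 < ε) (hd : 0 < d) :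
    Real.log d = Real.log (max d ε) - max 0 (Real.log (ε / d)) := by
  rcases le_total ε d with h | h
  · rw [max_eq_left h, max_eq_left, sub_zero]
    exact Real.log_nonpos (by positivity) ((div_le_one hd).2 h)
  · rw [max_eq_right h, max_eq_right (Real.log_nonneg ((one_le_div hd).2 h)),
      Real.log_div hε.ne' hd.ne']
    ring

theorem double_sum {α τ : ℝ} (hτ : 0 < τ) (b : Measure ℝ) [IsFiniteMeasure b] (lo hi : ℝ)
    (hlo : 0 < lo) (k : ℕ → ℕ) (s : (n : ℕ) → Fin (k n) → ℝ)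
    (hk : Tendsto (fun n : ℕ => (k n : ℝ) / n) atTop (𝓝 (1 / 3)))
    (hs : ∀ᶠ n in atTop, Function.Injective (s n) ∧ ∀ i, s n i ∈ Zt n α τ ∧ s n i ∈ Icc lo hi)
    (hb : b (Icc lo hi)ᶜ = 0) (hb' : FinEn b)
    (hw : ∀ φ : ℝ → ℝ, Continuous φ →
        Tendsto (fun n : ℕ => (1 / (n : ℝ)) * ∑ i, φ (s n i)) atTop (𝓝 (∫ x, φ x ∂b)))
    (δ : ℝ) (hδ : 0 < δ) : ∀ᶠ n : ℕ in atTop,
    -LL b b - δ ≤ 1 / (n : ℝ) ^ 2 *
      ∑ i, ∑ j ∈ Finset.univ.erase i, Real.log |s n i - s n j| := by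
  obtain ⟨ε, hε, n₀, hnd⟩ := near_diag (α := α) hτ lo hi (δ / 4) hlo (by positivity)
  have hc : ∀ y, Continuous fun x => l1b_g ε x y := fun y =>
    (l1b_continuous hε).comp (by fun_prop : Continuous fun x : ℝ => (x, y))
  -- uniform lower bound
  have hunif : ∀ᶠ n : ℕ in atTop, ∀ y ∈ Icc lo hi,
      l1b_G b ε y - δ / 8 ≤ (1 / (n : ℝ)) * ∑ i, l1b_g ε (s n i) y := by
    set η : ℝ := δ * ε / (16 * ((b univ).toReal + 1)) with hη
    have hbpos : 0 < (b univ).toReal + 1 := by positivity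
    have hηpos : 0 < η := by positivity
    obtain ⟨T, hTs, hTf, hTc⟩ := (isCompact_Icc (a := lo) (b := hi)).finite_cover_balls hηpos
    have h1 : ∀ᶠ n : ℕ in atTop, ∀ y ∈ T,
        l1b_G b ε y - δ / 16 ≤ (1 / (n : ℝ)) * ∑ i, l1b_g ε (s n i) y := by
      rw [eventually_all_finite hTf]
      intro y _
      have h2 := hw (fun x => l1b_g ε x y) (hc y)
      have h3 : l1b_G b ε y - δ / 16 < ∫ x, l1b_g ε x y ∂b := by
        unfold l1b_G
        linarith
      exact (h2.eventually (lt_mem_nhds h3)).mono fun n hn => hn.le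
    have h4 : ∀ᶠ n : ℕ in atTop, (k n : ℝ) / n ≤ 1 := by
      exact (hk.eventually (gt_mem_nhds (by norm_num : (1 / 3 : ℝ) < 1))).mono fun n hn => hn.le
    filter_upwards [h1, h4, eventually_gt_atTop 0] with n h1 h4 hn y hy
    have hn' : (0 : ℝ) < n := Nat.cast_pos.2 hn
    obtain ⟨y', hy', hyy⟩ := mem_iUnion₂.1 (hTc hy)
    rw [Metric.mem_ball, Real.dist_eq] at hyy
    have h5 := h1 y' hy'
    have h6 := (abs_le.1 (l1b_G_lip hb hε y y')).2
    have h7 : (b univ).toReal * (|y - y'| / ε) + |y - y'| / ε ≤ δ / 16 := by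
      have : (b univ).toReal * (|y - y'| / ε) + |y - y'| / ε =
          ((b univ).toReal + 1) * |y - y'| / ε := by ring
      rw [this, div_le_iff₀ hε]
      calc ((b univ).toReal + 1) * |y - y'| ≤ ((b univ).toReal + 1) * η := by gcongr
        _ = δ / 16 * ε := by rw [hη]; field_simp
    have h8 : (1 / (n : ℝ)) * ∑ i, l1b_g ε (s n i) y' - |y - y'| / ε ≤
        (1 / (n : ℝ)) * ∑ i, l1b_g ε (s n i) y := by
      have h9 : ∑ i, l1b_g ε (s n i) y' ≤ ∑ i, l1b_g ε (s n i) y + k n * (|y - y'| / ε) := by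
        have : (k n : ℝ) * (|y - y'| / ε) = ∑ _i : Fin (k n), |y - y'| / ε := by simp
        rw [this, ← Finset.sum_add_distrib]
        refine Finset.sum_le_sum fun i _ => ?_
        have := (abs_le.1 (l1b_lip hε (s n i) y y')).1
        linarith
      have h10 : (1 / (n : ℝ)) * ∑ i, l1b_g ε (s n i) y' ≤
          (1 / (n : ℝ)) * (∑ i, l1b_g ε (s n i) y + k n * (|y - y'| / ε)) := by gcongr
      have h11 : (1 / (n : ℝ)) * (∑ i, l1b_g ε (s n i) y + k n * (|y - y'| / ε)) =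
          (1 / (n : ℝ)) * ∑ i, l1b_g ε (s n i) y + (k n / n) * (|y - y'| / ε) := by ring
      have h12 : (k n / n : ℝ) * (|y - y'| / ε) ≤ 1 * (|y - y'| / ε) := by gcongr
      linarith
    have h13 : 0 ≤ (b univ).toReal * (|y - y'| / ε) := by positivity
    linarith
  have hG := hw (l1b_G b ε) (l1b_G_continuous hb hε)
  have hG' : ∀ᶠ n : ℕ in atTop, (∫ x, l1b_G b ε x ∂b) - δ / 8 ≤
      (1 / (n : ℝ)) * ∑ i, l1b_G b ε (s n i) :=
    (hG.eventually (lt_mem_nhds (by linarith :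
      (∫ x, l1b_G b ε x ∂b) - δ / 8 < ∫ x, l1b_G b ε x ∂b))).mono fun n hn => hn.le
  have h4 : ∀ᶠ n : ℕ in atTop, (k n : ℝ) / n ≤ 1 :=
    (hk.eventually (gt_mem_nhds (by norm_num : (1 / 3 : ℝ) < 1))).mono fun n hn => hn.le
  have h5 : ∀ᶠ n : ℕ in atTop, |Real.log ε| / n ≤ δ / 8 := by
    have : Tendsto (fun n : ℕ => |Real.log ε| / (n : ℝ)) atTop (𝓝 0) :=
      tendsto_const_div_atTop_nhds_zero_nat _
    exact (this.eventually (gt_mem_nhds (by positivity : (0 : ℝ) < δ / 8))).mono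
      fun n hn => hn.le
  filter_upwards [hs, hunif, hG', h4, h5, eventually_ge_atTop n₀, eventually_gt_atTop 0]
    with n hs hunif hG' h4 h5 hn₀ hn
  obtain ⟨hinj, hs⟩ := hs
  have hn' : (0 : ℝ) < n := Nat.cast_pos.2 hn
  -- the near diagonal part
  have hnear : ∀ i, ∑ j ∈ Finset.univ.erase i,
      max 0 (Real.log (ε / |s n i - s n j|)) ≤ δ / 4 * n := by
    intro i
    have h6 := hnd n hn₀ (Finset.univ.image (s n)) (by
      intro t ht
      obtain ⟨j, -, rfl⟩ := Finset.mem_image.1 ht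
      exact (hs j).1) (s n i) (hs i).1 (hs i).2
    rw [← Finset.image_erase hinj, Finset.sum_image (fun a _ c _ h => hinj h)] at h6
    refine le_trans (le_of_eq ?_) h6
    refine Finset.sum_congr rfl fun j _ => ?_
    rw [abs_sub_comm]
  have hsum : ∀ i, ∑ j ∈ Finset.univ.erase i, Real.log |s n i - s n j| =
      ∑ j, l1b_g ε (s n j) (s n i) - Real.log ε -
        ∑ j ∈ Finset.univ.erase i, max 0 (Real.log (ε / |s n i - s n j|)) := by
    intro i
    have h6 : ∑ j, l1b_g ε (s n j) (s n i) - Real.log ε =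
        ∑ j ∈ Finset.univ.erase i, l1b_g ε (s n j) (s n i) := by
      rw [← Finset.add_sum_erase _ _ (Finset.mem_univ i)]
      have : l1b_g ε (s n i) (s n i) = Real.log ε := by
        unfold l1b_g
        rw [sub_self, abs_zero, max_eq_right hε.le]
      rw [this]
      ring
    rw [h6, ← Finset.sum_sub_distrib]
    refine Finset.sum_congr rfl fun j hj => ?_
    have hne : s n i - s n j ≠ 0 := sub_ne_zero.2 fun h => (Finset.ne_of_mem_erase hj) (hinj h).symm
    rw [l1b_split hε (abs_pos.2 hne)]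
    unfold l1b_g
    rw [abs_sub_comm (s n j) (s n i)]
  have hlow : ∀ i, n * (l1b_G b ε (s n i) - δ / 8) - Real.log ε - δ / 4 * n ≤
      ∑ j ∈ Finset.univ.erase i, Real.log |s n i - s n j| := by
    intro i
    rw [hsum i]
    have h7 := hunif (s n i) (hs i).2
    have h8 : n * (l1b_G b ε (s n i) - δ / 8) ≤ ∑ j, l1b_g ε (s n j) (s n i) := by
      calc n * (l1b_G b ε (s n i) - δ / 8) ≤
            n * ((1 / (n : ℝ)) * ∑ j, l1b_g ε (s n j) (s n i)) := by gcongr
        _ = _ := by field_simp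
    have h9 := hnear i
    linarith
  have htot : ∑ i, (n * (l1b_G b ε (s n i) - δ / 8) - Real.log ε - δ / 4 * n) ≤
      ∑ i, ∑ j ∈ Finset.univ.erase i, Real.log |s n i - s n j| :=
    Finset.sum_le_sum fun i _ => hlow i
  have h10 : ∑ i, (n * (l1b_G b ε (s n i) - δ / 8) - Real.log ε - δ / 4 * n) =
      n * ∑ i, l1b_G b ε (s n i) - k n * (n * (δ / 8) + Real.log ε + δ / 4 * n) := by
    rw [Finset.mul_sum]
    have : (k n : ℝ) * (n * (δ / 8) + Real.log ε + δ / 4 * n) =
        ∑ _i : Fin (k n), (n * (δ / 8) + Real.log ε + δ / 4 * n) := by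
      rw [Finset.sum_const, Finset.card_univ, Fintype.card_fin, nsmul_eq_mul]
    rw [this, ← Finset.sum_sub_distrib]
    refine Finset.sum_congr rfl fun i _ => ?_
    ring
  rw [h10] at htot
  have h11 : 1 / (n : ℝ) ^ 2 * (n * ∑ i, l1b_G b ε (s n i) -
      k n * (n * (δ / 8) + Real.log ε + δ / 4 * n)) ≤
      1 / (n : ℝ) ^ 2 * ∑ i, ∑ j ∈ Finset.univ.erase i, Real.log |s n i - s n j| := by gcongr
  have h12 : 1 / (n : ℝ) ^ 2 * (n * ∑ i, l1b_G b ε (s n i) -
      k n * (n * (δ / 8) + Real.log ε + δ / 4 * n)) =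
      (1 / (n : ℝ)) * ∑ i, l1b_G b ε (s n i) -
        (k n / n) * (3 * δ / 8 + Real.log ε / n) := by
    field_simp
    ring
  have h13 : (k n / n : ℝ) * (3 * δ / 8 + Real.log ε / n) ≤ 3 * δ / 8 + δ / 8 := by
    have h14 : Real.log ε / n ≤ |Real.log ε| / n := by gcongr; exact le_abs_self _
    have h15 : (0 : ℝ) ≤ k n / n := by positivity
    have h16 : (0 : ℝ) ≤ |Real.log ε| / n := by positivity
    calc (k n / n : ℝ) * (3 * δ / 8 + Real.log ε / n) ≤
          (k n / n : ℝ) * (3 * δ / 8 + |Real.log ε| / n) := by gcongr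
      _ ≤ 1 * (3 * δ / 8 + |Real.log ε| / n) := by gcongr
      _ ≤ 3 * δ / 8 + δ / 8 := by linarith
  have h17 := l1b_LL_le hb hb' hε
  linarith

end

end Pool.Agent.MP_941b23_mp
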