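import Pool.Agent.MP_941b23_mp.Defs2
import Pool.Agent.MP_941b23_mp.S2b
import Pool.Agent.MP_941b23_mp.T5

/-!
# Part T, row T6a : upper bound for `A` on the imaginary axis, complex saddles
-/

namespace Pool.Agent.MP_941b23_mp

open MeasureTheory Set Filter Topology
open scoped ENNReal NNReal Real ComplexConjugate

noncomputable section

variable {α τ : ℝ}

/-- real part of the exponent at `v = p + i q`, `w = i x` -/
def t6E (α τ x p q : ℝ) : ℝ :=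
  (p ^ 4 - 6 * p ^ 2 * q ^ 2 + q ^ 4) / 4 - α / 2 * (p ^ 2 - q ^ 2) + τ * x * q

theorem t6_norm_gA (N x : ℝ) (v : ℂ) :
    ‖gA N α τ (x * Complex.I) v‖ = Real.exp (N * t6E α τ x v.re v.im) := by
  rw [gA, Complex.norm_exp]
  congr 1
  obtain ⟨p, q⟩ := v
  have e : (⟨p, q⟩ : ℂ) = (p : ℂ) + (q : ℂ) * Complex.I := by
    apply Complex.ext <;> simp
  have e2 : (N : ℂ) * ((⟨p, q⟩ : ℂ) ^ 4 / 4 - (α : ℂ) / 2 * (⟨p, q⟩ : ℂ) ^ 2 -
      (τ : ℂ) * ((x : ℂ) * Complex.I) * (⟨p, q⟩ : ℂ)) =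
      ((N * t6E α τ x p q : ℝ) : ℂ) +
      ((N * ((p ^ 3 * q - p * q ^ 3) - α * p * q - τ * x * p) : ℝ) : ℂ) * Complex.I := by
    rw [e, t6E]
    push_cast
    have hI : Complex.I ^ 2 = -1 := Complex.I_sq
    have hI3 : Complex.I ^ 3 = -Complex.I := by rw [pow_succ, hI]; ring
    have hI4 : Complex.I ^ 4 = 1 := by
      rw [show (4 : ℕ) = 2 * 2 by norm_num, pow_mul, hI]; ring
    ring_nf
    rw [hI, hI3, hI4]
    ring
  rw [e2, Complex.add_re, Complex.ofReal_re, Complex.re_ofReal_mul, Complex.I_re, mul_zero,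
    add_zero]

/-- the level of the saddles -/
def t6H (α σ : ℝ) : ℝ := 6 * σ ^ 4 + α * σ ^ 2 - α ^ 2 / 4

/-- on the horizontal line -/
theorem t6_line (σ x Y u : ℝ) (hx : τ * x = 8 * σ ^ 3 + 2 * α * σ) (hY : Y ^ 2 = α + 3 * σ ^ 2) :
    t6E α τ x Y (-u) = t6H α σ + (u + σ) ^ 2 * (u ^ 2 - 2 * σ * u - 15 * σ ^ 2 - 4 * α) / 4 := by
  have h4 : Y ^ 4 = (α + 3 * σ ^ 2) ^ 2 := by rw [← hY]; ring
  rw [t6E, t6H, h4, hY, hx]
  ring

/-- the left ray (direction `ep`) -/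
theorem t6_ray_ep (σ x Y u ρ : ℝ) (hx : τ * x = 8 * σ ^ 3 + 2 * α * σ)
    (hY : Y ^ 2 = α + 3 * σ ^ 2) (hu : u ^ 2 - σ * u - 8 * σ ^ 2 - 2 * α = 0) :
    t6E α τ x (Y + ρ) (-u + ρ) = t6E α τ x Y (-u) - 3 * Y * (u ^ 2 - σ ^ 2) * ρ
      + 6 * u * Y * ρ ^ 2 + 2 * (u - Y) * ρ ^ 3 - ρ ^ 4 := by
  rw [t6E, t6E, hx]
  linear_combination (-(u + σ) * ρ) * hu + ((3 * u + Y) * ρ) * hY

/-- the right ray (direction `em`) -/
theorem t6_ray_em (σ x Y u ρ : ℝ) (hx : τ * x = 8 * σ ^ 3 + 2 * α * σ)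
    (hY : Y ^ 2 = α + 3 * σ ^ 2) (hu : u ^ 2 - σ * u - 8 * σ ^ 2 - 2 * α = 0) :
    t6E α τ x (Y + ρ) (-u - ρ) = t6E α τ x Y (-u) - 3 * Y * (u ^ 2 - σ ^ 2) * ρ
      - 6 * u * Y * ρ ^ 2 - 2 * (u + Y) * ρ ^ 3 - ρ ^ 4 := by
  rw [t6E, t6E, hx]
  linear_combination ((u + σ) * ρ) * hu + ((-3 * u + Y) * ρ) * hY

/-- the sign conditions -/
theorem t6_signs (σ : ℝ) (hα : 0 ≤ α + 3 * σ ^ 2) :
    ∃ D : ℝ, 0 ≤ D ∧ D ^ 2 = 33 * σ ^ 2 + 8 * α ∧ 3 * σ ≤ D ∧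
      σ * D ≤ 15 * σ ^ 2 + 4 * α := by
  have h0 : 0 ≤ 33 * σ ^ 2 + 8 * α := by nlinarith
  refine ⟨√(33 * σ ^ 2 + 8 * α), Real.sqrt_nonneg _, Real.sq_sqrt h0, ?_, ?_⟩
  · apply Real.le_sqrt_of_sq_le
    nlinarith
  · have h1 : 0 ≤ 15 * σ ^ 2 + 4 * α := by nlinarith [sq_nonneg σ]
    apply abs_le_of_sq_le_sq' _ h1 |>.2
    rw [mul_pow, Real.sq_sqrt h0]
    nlinarith [mul_nonneg hα (by nlinarith [sq_nonneg σ] : 0 ≤ 4 * σ ^ 2 + α)]

theorem t6_const (σ x : ℝ) (hx : τ * x = 8 * σ ^ 3 + 2 * α * σ) :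
    t6H α σ = (-th α τ x (2 * σ) - α ^ 2 / 2) / 2 := by
  rw [t5_th_def, t6H, hx]; ring

theorem t6_norm_ep : ‖ep‖ = 1 := by
  have h : √2 * √2 = 2 := Real.mul_self_sqrt (by norm_num)
  rw [Complex.norm_def, ep, Complex.normSq_mk]
  rw [show √2 / 2 * (√2 / 2) + √2 / 2 * (√2 / 2) = (√2 * √2) / 2 by ring, h]
  norm_num

theorem t6_norm_em : ‖em‖ = 1 := by
  have h : √2 * √2 = 2 := Real.mul_self_sqrt (by norm_num)
  rw [Complex.norm_def, em, Complex.normSq_mk]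
  rw [show √2 / 2 * (√2 / 2) + -(√2 / 2) * -(√2 / 2) = (√2 * √2) / 2 by ring, h]
  norm_num

/-- the majorant on the rays -/
def t6K : ℝ := ∫ r in Ioi (0 : ℝ), Real.exp 1 * Real.exp (-1 * r ^ 2)

theorem t6_K_int : Integrable (fun r : ℝ => Real.exp 1 * Real.exp (-1 * r ^ 2))
    (volume.restrict (Ioi (0 : ℝ))) :=
  ((integrable_exp_neg_mul_sq (by norm_num : (0 : ℝ) < 1)).const_mul _).integrableOn

theorem t6_K_nonneg : 0 ≤ t6K := by
  unfold t6K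
  positivity

theorem t6_ray_bound (n : ℕ) (hn : 0 < n) (x H : ℝ) (e v₀ : ℂ) (he : ‖e‖ = 1)
    (h : ∀ r : ℝ, 0 < r →
      t6E α τ x (v₀ + e * (r : ℂ)).re (v₀ + e * (r : ℂ)).im ≤ H - (r ^ 4 / 4)) :
    ‖ray e (fun v => (-(n * τ : ℝ) * v) ^ 0 * gA n α τ (x * Complex.I) v) v₀‖ ≤
      t6K * Real.exp (n * H) := by
  have hn1 : (1 : ℝ) ≤ n := by exact_mod_cast hn
  have h1 : ∀ r ∈ Ioi (0 : ℝ), ‖e * ((-(n * τ : ℝ) * (v₀ + e * (r : ℂ))) ^ 0 *
      gA n α τ (x * Complex.I) (v₀ + e * (r : ℂ)))‖ ≤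
      Real.exp (n * H) * (Real.exp 1 * Real.exp (-1 * r ^ 2)) := by
    intro r hr
    rw [pow_zero, one_mul, norm_mul, he, one_mul]
    have h2 := t6_norm_gA (α := α) (τ := τ) n x (v₀ + e * (r : ℂ))
    rw [h2, ← Real.exp_add, ← Real.exp_add]
    apply Real.exp_le_exp.2
    have h3 := h r hr
    have h4 : (n : ℝ) * t6E α τ x (v₀ + e * (r : ℂ)).re (v₀ + e * (r : ℂ)).im ≤
        n * (H - r ^ 4 / 4) := mul_le_mul_of_nonneg_left h3 (by positivity)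
    have h5 : r ^ 4 / 4 ≤ n * (r ^ 4 / 4) := by
      have : 0 ≤ r ^ 4 / 4 := by positivity
      nlinarith
    nlinarith [sq_nonneg (r ^ 2 / 2 - 1)]
  unfold ray
  have h2 : ‖∫ r in Ioi (0 : ℝ), e * ((-(n * τ : ℝ) * (v₀ + e * (r : ℂ))) ^ 0 *
      gA n α τ (x * Complex.I) (v₀ + e * (r : ℂ)))‖ ≤
      ∫ r in Ioi (0 : ℝ), Real.exp (n * H) * (Real.exp 1 * Real.exp (-1 * r ^ 2)) := by
    apply norm_integral_le_of_norm_le (t6_K_int.const_mul _)
    exact (ae_restrict_iff' measurableSet_Ioi).2 (Eventually.of_forall h1)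
  refine h2.trans (le_of_eq ?_)
  rw [integral_const_mul, mul_comm]
  rfl

/-- bound for the contour integral from bounds on the two rays and on the segment -/
theorem t6_total (n : ℕ) (hn : 0 < n) (x H L : ℝ) (v₀ v₁ : ℂ)
    (h0 : ∀ r : ℝ, 0 < r →
      t6E α τ x (v₀ + ep * (r : ℂ)).re (v₀ + ep * (r : ℂ)).im ≤ H - (r ^ 4 / 4))
    (h1 : ∀ r : ℝ, 0 < r →
      t6E α τ x (v₁ + em * (r : ℂ)).re (v₁ + em * (r : ℂ)).im ≤ H - (r ^ 4 / 4))
    (hs : ∀ s : ℝ, 0 ≤ s → s ≤ 1 →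
      t6E α τ x (v₁ + s * (v₀ - v₁)).re (v₁ + s * (v₀ - v₁)).im ≤ H)
    (hL : ‖v₀ - v₁‖ ≤ L) :
    ‖Aj n α τ 0 (x * Complex.I)‖ ≤ (2 * t6K + L) * Real.exp (n * H) := by
  have hn' : (0 : ℝ) < (n : ℝ) := by exact_mod_cast hn
  have hb0 := t6_ray_bound n hn x H ep v₀ t6_norm_ep h0
  have hb1 := t6_ray_bound n hn x H em v₁ t6_norm_em h1
  have hb2 : ‖∫ s in (0 : ℝ)..1, (v₀ - v₁) *
      ((-(n * τ : ℝ) * (v₁ + s * (v₀ - v₁))) ^ 0 *
        gA n α τ (x * Complex.I) (v₁ + s * (v₀ - v₁)))‖ ≤ L * Real.exp (n * H) := by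
    have h := intervalIntegral.norm_integral_le_of_norm_le_const (a := 0) (b := 1)
      (C := L * Real.exp (n * H)) (f := fun s : ℝ => (v₀ - v₁) *
      ((-(n * τ : ℝ) * (v₁ + s * (v₀ - v₁))) ^ 0 *
        gA n α τ (x * Complex.I) (v₁ + s * (v₀ - v₁)))) (by
      intro s hs1
      rw [uIoc_of_le zero_le_one] at hs1
      rw [pow_zero, one_mul, norm_mul]
      have h2 := t6_norm_gA (α := α) (τ := τ) n x (v₁ + s * (v₀ - v₁))
      rw [h2]
      have h3 := hs s hs1.1.le hs1.2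
      apply mul_le_mul hL _ (Real.exp_nonneg _) ((norm_nonneg _).trans hL)
      exact Real.exp_le_exp.2 (mul_le_mul_of_nonneg_left h3 hn'.le))
    simpa using h
  have hc := Aj_contour (α := α) (τ := τ) hn' 0 (x * Complex.I) v₀ v₁
  rw [hc, norm_mul]
  have hpi : ‖(2 * (π : ℂ) * Complex.I)⁻¹‖ ≤ 1 := by
    rw [norm_inv, norm_mul, norm_mul, Complex.norm_I, mul_one, Complex.norm_real,
      Real.norm_of_nonneg Real.pi_pos.le, Complex.norm_two]
    apply inv_le_one_of_one_le₀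
    linarith [Real.pi_gt_three]
  have hE := Real.exp_nonneg (n * H)
  calc _ ≤ 1 * ‖ray ep (fun v => (-(n * τ : ℝ) * v) ^ 0 * gA n α τ (x * Complex.I) v) v₀
        - ray em (fun v => (-(n * τ : ℝ) * v) ^ 0 * gA n α τ (x * Complex.I) v) v₁
        + ∫ s in (0 : ℝ)..1, (v₀ - v₁) *
          ((-(n * τ : ℝ) * (v₁ + s * (v₀ - v₁))) ^ 0 *
            gA n α τ (x * Complex.I) (v₁ + s * (v₀ - v₁)))‖ := by
        exact mul_le_mul_of_nonneg_right hpi (norm_nonneg _)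
    _ ≤ t6K * Real.exp (n * H) + t6K * Real.exp (n * H) + L * Real.exp (n * H) := by
        rw [one_mul]
        refine (norm_add_le _ _).trans (add_le_add ((norm_sub_le _ _).trans (add_le_add ?_ ?_)) ?_)
        · exact hb0
        · exact hb1
        · exact hb2
    _ = (2 * t6K + L) * Real.exp (n * H) := by ring

theorem t6_ep_mul (r : ℝ) : ep * (r : ℂ) = ⟨√2 / 2 * r, √2 / 2 * r⟩ := by
  apply Complex.ext <;> simp [ep]

theorem t6_em_mul (r : ℝ) : em * (r : ℂ) = ⟨√2 / 2 * r, -(√2 / 2 * r)⟩ := by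
  apply Complex.ext <;> simp [em]

theorem t6_rho (r : ℝ) : (√2 / 2 * r) ^ 4 = r ^ 4 / 4 := by
  have h : √2 * √2 = 2 := Real.mul_self_sqrt (by norm_num)
  have h4 : √2 ^ 4 = 4 := by
    calc √2 ^ 4 = (√2 * √2) * (√2 * √2) := by ring
      _ = 4 := by rw [h]; norm_num
  calc (√2 / 2 * r) ^ 4 = √2 ^ 4 / 16 * r ^ 4 := by ring
    _ = r ^ 4 / 4 := by rw [h4]; ring

theorem t6_D_bound (σ D : ℝ) (hσ : 0 ≤ σ) (hD2 : D ^ 2 = 33 * σ ^ 2 + 8 * α) :
    D ≤ 6 * σ + √(8 * |α|) := by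
  have h1 : 0 ≤ √(8 * |α|) := Real.sqrt_nonneg _
  have h2 : √(8 * |α|) ^ 2 = 8 * |α| := Real.sq_sqrt (by positivity)
  have h3 := le_abs_self α
  have h4 := mul_nonneg hσ h1
  set q := √(8 * |α|)
  by_contra hlt
  push Not at hlt
  have h5 : (6 * σ + q) ^ 2 < D ^ 2 := pow_lt_pow_left₀ hlt (by positivity) two_ne_zero
  rw [hD2] at h5
  nlinarith

theorem t6_final (k q σ D : ℝ) (hσ : 0 ≤ σ) (hk : 0 ≤ k) (hq : 0 ≤ q) (h : D ≤ 6 * σ + q) :
    2 * k + D ≤ (2 * k + 6 + q) * (1 + σ) := by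
  nlinarith [mul_nonneg hk hσ, mul_nonneg hq hσ]

/-- the case of complex saddles (`V₃ = 0`) -/
theorem Aj_upper_II (hτ : 0 < τ) : ∃ C : ℝ, 0 < C ∧ ∀ n : ℕ, 0 < n → ∀ σ : ℝ, 0 ≤ σ →
    0 ≤ α + 3 * σ ^ 2 → ∀ x : ℝ, τ * x = 8 * σ ^ 3 + 2 * α * σ →
    ‖Aj n α τ 0 (x * Complex.I)‖ ≤
      C * (1 + σ) * Real.exp (n * ((-th α τ x (2 * σ) - α ^ 2 / 2) / 2)) := by
  have hK := t6_K_nonneg
  refine ⟨2 * t6K + 6 + √(8 * |α|), by positivity, ?_⟩
  intro n hn σ hσ hα x hx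
  obtain ⟨D, hD0, hD2, hD3, hD4⟩ := t6_signs (α := α) σ hα
  set Y := √(α + 3 * σ ^ 2) with hYd
  have hY0 : 0 ≤ Y := Real.sqrt_nonneg _
  have hY : Y ^ 2 = α + 3 * σ ^ 2 := Real.sq_sqrt hα
  set up := (σ + D) / 2 with hup
  set um := (σ - D) / 2 with hum
  have eup : up ^ 2 - σ * up - 8 * σ ^ 2 - 2 * α = 0 := by
    rw [hup]; linear_combination (1 / 4) * hD2
  have eum : um ^ 2 - σ * um - 8 * σ ^ 2 - 2 * α = 0 := by
    rw [hum]; linear_combination (1 / 4) * hD2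
  have hup0 : σ ≤ up := by rw [hup]; linarith
  have hum0 : um ≤ -σ := by rw [hum]; linarith
  have hq : ∀ u : ℝ, um ≤ u → u ≤ up → t6E α τ x Y (-u) ≤ t6H α σ := by
    intro u h1 h2
    rw [t6_line σ x Y u hx hY]
    have h3 : u ^ 2 - 2 * σ * u - 15 * σ ^ 2 - 4 * α ≤ 0 := by
      have h4 : (u - um) * (u - up) ≤ 0 :=
        mul_nonpos_of_nonneg_of_nonpos (sub_nonneg.2 h1) (sub_nonpos.2 h2)
      have h5 : um + up = σ := by rw [hum, hup]; ring
      -- the quadratic is below the chord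
      have h6 : u ^ 2 ≤ σ * u - um * up := by
        have : (u - um) * (u - up) = u ^ 2 - (um + up) * u + um * up := by ring
        rw [this, h5] at h4
        linarith
      have h7 : um * up = -8 * σ ^ 2 - 2 * α := by
        rw [hum, hup]; linear_combination (-1 / 4) * hD2
      have h8 : 0 ≤ σ * (u - um) := mul_nonneg hσ (sub_nonneg.2 h1)
      have h9 : σ * um = σ ^ 2 / 2 - σ * D / 2 := by rw [hum]; ring
      rw [mul_sub, h9] at h8
      linarith only [h6, h7, h8, hD4, hα]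
    have h10 : (u + σ) ^ 2 * (u ^ 2 - 2 * σ * u - 15 * σ ^ 2 - 4 * α) ≤ 0 :=
      mul_nonpos_of_nonneg_of_nonpos (sq_nonneg _) h3
    linarith
  have hle : um ≤ up := by linarith
  have hmain := t6_total (α := α) (τ := τ) n hn x (t6H α σ) D ⟨Y, -um⟩ ⟨Y, -up⟩
    (by
      intro r hr
      rw [t6_ep_mul]
      have hρ : 0 ≤ √2 / 2 * r := by positivity
      have e := t6_ray_ep σ x Y um (√2 / 2 * r) hx hY eum
      have e0 := hq um le_rfl hle
      rw [t6_rho] at e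
      simp only [Complex.add_re, Complex.add_im]
      rw [e]
      have a1 : 0 ≤ 3 * Y * (um ^ 2 - σ ^ 2) * (√2 / 2 * r) := by
        have h1 : 0 ≤ -um - σ := by linarith only [hum0]
        have h2 : 0 ≤ -um + σ := by linarith only [h1, hσ]
        have : 0 ≤ um ^ 2 - σ ^ 2 := by
          have e : um ^ 2 - σ ^ 2 = (-um - σ) * (-um + σ) := by ring
          rw [e]; exact mul_nonneg h1 h2
        positivity
      have a2 : 6 * um * Y * (√2 / 2 * r) ^ 2 ≤ 0 := by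
        have : 0 ≤ (-um) * Y * (√2 / 2 * r) ^ 2 := by
          have : 0 ≤ -um := by linarith
          positivity
        linarith only [this]
      have a3 : 2 * (um - Y) * (√2 / 2 * r) ^ 3 ≤ 0 := by
        have : 0 ≤ (Y - um) * (√2 / 2 * r) ^ 3 := by
          have : 0 ≤ Y - um := by linarith
          positivity
        linarith only [this]
      linarith)
    (by
      intro r hr
      rw [t6_em_mul]
      have hρ : 0 ≤ √2 / 2 * r := by positivity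
      have e := t6_ray_em σ x Y up (√2 / 2 * r) hx hY eup
      have e0 := hq up hle le_rfl
      rw [t6_rho] at e
      simp only [Complex.add_re, Complex.add_im]
      rw [← sub_eq_add_neg, e]
      have a1 : 0 ≤ 3 * Y * (up ^ 2 - σ ^ 2) * (√2 / 2 * r) := by
        have h1 : 0 ≤ up - σ := by linarith only [hup0]
        have h2 : 0 ≤ up + σ := by linarith only [h1, hσ]
        have : 0 ≤ up ^ 2 - σ ^ 2 := by
          have e : up ^ 2 - σ ^ 2 = (up - σ) * (up + σ) := by ring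
          rw [e]; exact mul_nonneg h1 h2
        positivity
      have a2 : 0 ≤ 6 * up * Y * (√2 / 2 * r) ^ 2 := by
        have : 0 ≤ up := by linarith
        positivity
      have a3 : 0 ≤ 2 * (up + Y) * (√2 / 2 * r) ^ 3 := by
        have : 0 ≤ up + Y := by linarith
        positivity
      linarith)
    (by
      intro s hs0 hs1
      have e : (⟨Y, -up⟩ : ℂ) + s * ((⟨Y, -um⟩ : ℂ) - ⟨Y, -up⟩) =
          ⟨Y, -(up - s * (up - um))⟩ := by
        apply Complex.ext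
        · simp
        · simp; ring
      rw [e]
      apply hq
      · have := mul_nonneg (sub_nonneg.2 hs1) (sub_nonneg.2 hle)
        linarith
      · have := mul_nonneg hs0 (sub_nonneg.2 hle)
        linarith)
    (by
      have e : (⟨Y, -um⟩ : ℂ) - ⟨Y, -up⟩ = ((up - um : ℝ) : ℂ) * Complex.I := by
        apply Complex.ext
        · simp
        · simp; ring
      rw [e, norm_mul, Complex.norm_I, mul_one, Complex.norm_real,
        Real.norm_of_nonneg (sub_nonneg.2 hle), hup, hum]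
      linarith)
  rw [← t6_const σ x hx]
  refine hmain.trans ?_
  apply mul_le_mul_of_nonneg_right _ (Real.exp_nonneg _)
  exact t6_final t6K (√(8 * |α|)) σ D hσ hK (Real.sqrt_nonneg _) (t6_D_bound σ D hσ hD2)

end

end Pool.Agent.MP_941b23_mp
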