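import Pool.Agent.MP_941b23_mp.Defs2
import Pool.Agent.MP_941b23_mp.T5
import Pool.Agent.MP_941b23_mp.T6a

/-!
# Part T, row T6b : upper bound for `A` on the imaginary axis, real saddles; conclusion
-/

namespace Pool.Agent.MP_941b23_mp

open MeasureTheory Set Filter Topology
open scoped ENNReal NNReal Real ComplexConjugate

noncomputable section

variable {α τ : ℝ}

theorem t6b_line (x u : ℝ) : t6E α τ x 0 (-u) = th α τ x u := by
  rw [t6E, t5_th_def]; ring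

theorem t6b_ray_ep (x u ρ : ℝ) (hu : u ^ 3 + α * u = τ * x) :
    t6E α τ x (0 + ρ) (-u + ρ) = th α τ x u + 2 * u * ρ ^ 3 - ρ ^ 4 := by
  rw [t6E, t5_th_def]
  linear_combination (-ρ) * hu

theorem t6b_ray_em (x ρ : ℝ) : t6E α τ x (0 + ρ) (0 - ρ) = -(τ * x * ρ) - ρ ^ 4 := by
  rw [t6E]; ring

theorem t6b_bound (n : ℕ) (hn : 0 < n) (hτ : 0 < τ) (x s₂ H : ℝ) (hx : 0 ≤ x) (hs2 : s₂ ≤ 0)
    (e2 : s₂ ^ 3 + α * s₂ = τ * x) (h : ∀ s ∈ Icc s₂ 0, th α τ x s ≤ H) :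
    ‖Aj n α τ 0 (x * Complex.I)‖ ≤ (2 * t6K + -s₂) * Real.exp (n * H) := by
  apply t6_total (α := α) (τ := τ) n hn x H (-s₂) ⟨0, -s₂⟩ ⟨0, 0⟩
  · intro r hr
    rw [t6_ep_mul]
    have hρ : 0 ≤ √2 / 2 * r := by positivity
    have e := t6b_ray_ep x s₂ (√2 / 2 * r) e2
    rw [t6_rho] at e
    simp only [Complex.add_re, Complex.add_im]
    rw [e]
    have h1 := h s₂ ⟨le_rfl, hs2⟩
    have h2 : 0 ≤ (-s₂) * (√2 / 2 * r) ^ 3 := by
      have : 0 ≤ -s₂ := by linarith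
      positivity
    linarith
  · intro r hr
    rw [t6_em_mul]
    have hρ : 0 ≤ √2 / 2 * r := by positivity
    have e := t6b_ray_em (α := α) (τ := τ) x (√2 / 2 * r)
    rw [t6_rho] at e
    simp only [Complex.add_re, Complex.add_im]
    rw [← sub_eq_add_neg, e]
    have h1 := h 0 ⟨hs2, le_rfl⟩
    have h3 : th α τ x 0 = 0 := by rw [t5_th_def]; ring
    rw [h3] at h1
    have h2 : 0 ≤ τ * x * (√2 / 2 * r) := by positivity
    linarith
  · intro s hs0 hs1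
    have e : (⟨0, 0⟩ : ℂ) + s * ((⟨0, -s₂⟩ : ℂ) - ⟨0, 0⟩) = ⟨0, -(s * s₂)⟩ := by
      apply Complex.ext
      · simp
      · simp
    rw [e, t6b_line]
    apply h
    constructor
    · nlinarith
    · nlinarith
  · have e : (⟨0, -s₂⟩ : ℂ) - ⟨0, 0⟩ = ((-s₂ : ℝ) : ℂ) * Complex.I := by
      apply Complex.ext
      · simp
      · simp
    rw [e, norm_mul, Complex.norm_I, mul_one, Complex.norm_real,
      Real.norm_of_nonneg (by linarith)]

/-- the case of real saddles -/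
theorem Aj_upper_I (hτ : 0 < τ) (hα : α < 0) : ∃ C : ℝ, 0 < C ∧ ∀ n : ℕ, 0 < n → ∀ x : ℝ, 0 ≤ x →
    x < xstar α τ →
    Complex.normSq (Aj n α τ 0 (x * Complex.I)) ≤
      C * Real.exp (n * (gg α τ x - α ^ 2 / 2 + V3 α τ x)) := by
  have hK := t6_K_nonneg
  have hsq : 0 < √(-α) := Real.sqrt_pos.2 (by linarith)
  refine ⟨(2 * t6K + √(-α)) ^ 2, by positivity, ?_⟩
  intro n hn x hx hx'
  obtain ⟨s₁, s₂, s₃, h1, h2, h3, h4, e1, e2, e3, g1, g2, g3, g4⟩ := V3_spec hτ hα x hx hx'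
  have hs2 : s₂ ≤ 0 := by linarith
  have hs2' : s₂ < 0 := by linarith
  have hb := t6b_bound n hn hτ x s₂ (th α τ x s₃) hx hs2 e2 (fun s hs =>
    g4 s ⟨hs.1, hs.2.trans (hsq.le.trans h3)⟩)
  have hL : -s₂ ≤ √(-α) := by
    apply Real.le_sqrt_of_sq_le
    have h5 : 0 ≤ τ * x := by positivity
    have h6 : s₂ * (s₂ ^ 2 + α) = τ * x := by rw [← e2]; ring
    have h7 : s₂ ^ 2 + α ≤ 0 := by
      by_contra hc
      push Not at hc
      have := mul_neg_of_neg_of_pos hs2' hc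
      linarith
    nlinarith
  have hexp : (n : ℝ) * (gg α τ x - α ^ 2 / 2 + V3 α τ x) = 2 * (n * th α τ x s₃) := by
    rw [g1, g2]
    linear_combination (-(n : ℝ)) * g3
  rw [hexp, Complex.normSq_eq_norm_sq, two_mul (n * th α τ x s₃), Real.exp_add]
  have hE := Real.exp_nonneg (n * th α τ x s₃)
  have h5 : ‖Aj n α τ 0 (x * Complex.I)‖ ≤ (2 * t6K + √(-α)) * Real.exp (n * th α τ x s₃) :=
    hb.trans (mul_le_mul_of_nonneg_right (by linarith) hE)
  calc ‖Aj n α τ 0 (x * Complex.I)‖ ^ 2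
      ≤ ((2 * t6K + √(-α)) * Real.exp (n * th α τ x s₃)) ^ 2 :=
        pow_le_pow_left₀ (norm_nonneg _) h5 2
    _ = (2 * t6K + √(-α)) ^ 2 * (Real.exp (n * th α τ x s₃) * Real.exp (n * th α τ x s₃)) := by
        ring

theorem t6b_bdd (x : ℝ) (s : ℝ) :
    τ * x * s - Wr α s ≤ α ^ 2 / 2 + 1 / 2 + (τ * x) ^ 2 / 2 := by
  rw [Wr]
  nlinarith [sq_nonneg (s ^ 2 + 2 * α), sq_nonneg (s ^ 2 - 2), sq_nonneg (s - τ * x)]

theorem t6b_le_gg (x s : ℝ) : τ * x * s - Wr α s ≤ gg α τ x :=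
  le_ciSup (f := fun s : ℝ => τ * x * s - Wr α s)
    ⟨α ^ 2 / 2 + 1 / 2 + (τ * x) ^ 2 / 2, by rintro _ ⟨s, rfl⟩; exact t6b_bdd x s⟩ s

/-- the nonnegative root -/
theorem t6b_root (hτ : 0 < τ) (x : ℝ) (hx : 0 ≤ x) (h : ¬ (α < 0 ∧ x < xstar α τ)) :
    ∃ σ : ℝ, 0 ≤ σ ∧ 0 ≤ α + 3 * σ ^ 2 ∧ τ * x = 8 * σ ^ 3 + 2 * α * σ ∧
      1 + σ ≤ (2 + τ + |α|) * (1 + x) := by
  have hc : 0 ≤ τ * x := by positivity
  -- a root s ≥ 0, with s ≥ 2 m in the case α < 0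
  have key : ∃ s : ℝ, 0 ≤ s ∧ s ^ 3 + α * s = τ * x ∧ 0 ≤ α + 3 * (s / 2) ^ 2 := by
    by_cases hα : α < 0
    · have hx' : xstar α τ ≤ x := not_lt.1 fun h' => h ⟨hα, h'⟩
      have hm := t5_m_pos hα
      have hm2 := t5_m_sq hα
      have h1 : 2 * t5m α ^ 3 ≤ τ * x := by
        rw [← t5_xstar hτ hα]; exact mul_le_mul_of_nonneg_left hx' hτ.le
      set m := t5m α
      have hcont : ContinuousOn (fun s : ℝ => s ^ 3 + α * s) (Icc (2 * m) (2 * m + 1 + τ * x)) := by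
        fun_prop
      have hle : 2 * m ≤ 2 * m + 1 + τ * x := by linarith
      have hα' : α = -3 * m ^ 2 := by linarith
      have hmem : τ * x ∈ Icc ((2 * m) ^ 3 + α * (2 * m))
          ((2 * m + 1 + τ * x) ^ 3 + α * (2 * m + 1 + τ * x)) := by
        constructor
        · rw [hα']; nlinarith
        · rw [hα']
          have f1 : 0 ≤ m * (τ * x) := by positivity
          have f2 : 0 ≤ m ^ 2 * (τ * x) := by positivity
          have f3 : 0 ≤ m * (τ * x) ^ 2 := by positivity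
          have f4 : 0 ≤ (τ * x) ^ 3 := by positivity
          have f5 : 0 ≤ (τ * x) ^ 2 := by positivity
          have f6 : 0 ≤ m ^ 3 := by positivity
          have f7 : 0 ≤ m ^ 2 := by positivity
          nlinarith
      obtain ⟨s, hs, hs2⟩ := intermediate_value_Icc hle hcont hmem
      refine ⟨s, by linarith [hs.1], hs2, ?_⟩
      rw [hα']
      nlinarith [hs.1]
    · have hα' : 0 ≤ α := not_lt.1 hα
      have hcont : ContinuousOn (fun s : ℝ => s ^ 3 + α * s) (Icc 0 (1 + τ * x)) := by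
        fun_prop
      have hmem : τ * x ∈ Icc ((0 : ℝ) ^ 3 + α * 0) ((1 + τ * x) ^ 3 + α * (1 + τ * x)) := by
        constructor
        · simpa using hc
        · have f4 : 0 ≤ (τ * x) ^ 3 := by positivity
          have f5 : 0 ≤ (τ * x) ^ 2 := by positivity
          have f6 : 0 ≤ α * (1 + τ * x) := by positivity
          nlinarith
      obtain ⟨s, hs, hs2⟩ := intermediate_value_Icc (by linarith : (0 : ℝ) ≤ 1 + τ * x) hcont hmem
      exact ⟨s, hs.1, hs2, by positivity⟩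
  obtain ⟨s, hs0, hs, hs2⟩ := key
  refine ⟨s / 2, by positivity, hs2, by rw [← hs]; ring, ?_⟩
  have habs := neg_abs_le α
  have hsb : s ≤ 1 + τ * x + |α| := by
    by_cases h1 : s ≤ 1
    · have := abs_nonneg α
      linarith
    · push Not at h1
      by_contra hcon
      push Not at hcon
      have h2 : s * (s ^ 2 + α) = τ * x := by rw [← hs]; ring
      have h3 : τ * x < s * (s ^ 2 + α) := by
        have h4 : s ≤ s ^ 2 := by nlinarith
        have h5 : τ * x + 1 < s ^ 2 + α := by linarith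
        nlinarith
      linarith
  have h1 := abs_nonneg α
  have h2 : 0 ≤ |α| * x := by positivity
  nlinarith

theorem Aj_upper (hτ : 0 < τ) : ∃ C : ℝ, 0 < C ∧ ∀ n : ℕ, 0 < n → ∀ x : ℝ, 0 ≤ x →
    Complex.normSq (Aj n α τ 0 (x * Complex.I)) ≤
      C * (1 + x) ^ 2 * Real.exp (n * (gg α τ x - α ^ 2 / 2 + V3 α τ x)) := by
  obtain ⟨C₂, hC₂, h₂⟩ := Aj_upper_II (α := α) hτ
  have h₁ : ∃ C : ℝ, 0 < C ∧ ∀ n : ℕ, 0 < n → ∀ x : ℝ, 0 ≤ x → (α < 0 ∧ x < xstar α τ) →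
      Complex.normSq (Aj n α τ 0 (x * Complex.I)) ≤
        C * Real.exp (n * (gg α τ x - α ^ 2 / 2 + V3 α τ x)) := by
    by_cases hα : α < 0
    · obtain ⟨C, hC, h⟩ := Aj_upper_I hτ hα
      exact ⟨C, hC, fun n hn x hx hxx => h n hn x hx hxx.2⟩
    · exact ⟨1, one_pos, fun n hn x hx hxx => absurd hxx.1 hα⟩
  obtain ⟨C₁, hC₁, h₁⟩ := h₁
  refine ⟨C₁ + C₂ ^ 2 * (2 + τ + |α|) ^ 2, by positivity, ?_⟩
  intro n hn x hx
  have hE := Real.exp_nonneg (n * (gg α τ x - α ^ 2 / 2 + V3 α τ x))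
  by_cases h : α < 0 ∧ x < xstar α τ
  · refine (h₁ n hn x hx h).trans (mul_le_mul_of_nonneg_right ?_ hE)
    have f1 : 1 ≤ (1 + x) ^ 2 := by nlinarith
    have f2 : 0 ≤ C₂ ^ 2 * (2 + τ + |α|) ^ 2 := by positivity
    have f3 : 0 ≤ C₂ ^ 2 * (2 + τ + |α|) ^ 2 * (1 + x) ^ 2 := by positivity
    nlinarith
  · obtain ⟨σ, hσ, hσ2, hσ3, hσ4⟩ := t6b_root hτ x hx h
    have hV : V3 α τ x = 0 := by
      rw [t5_V3_def, if_neg]
      rwa [abs_of_nonneg hx]
    have hb := h₂ n hn σ hσ hσ2 x hσ3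
    have hg : -th α τ x (2 * σ) ≤ gg α τ x := by
      have := t6b_le_gg (α := α) (τ := τ) x (2 * σ)
      rw [th]
      linarith
    rw [hV, add_zero, Complex.normSq_eq_norm_sq]
    have hE2 := Real.exp_nonneg (n * ((-th α τ x (2 * σ) - α ^ 2 / 2) / 2))
    have hσ5 : 0 ≤ 1 + σ := by linarith
    calc ‖Aj n α τ 0 (x * Complex.I)‖ ^ 2
        ≤ (C₂ * (1 + σ) * Real.exp (n * ((-th α τ x (2 * σ) - α ^ 2 / 2) / 2))) ^ 2 :=
          pow_le_pow_left₀ (norm_nonneg _) hb 2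
      _ = C₂ ^ 2 * (1 + σ) ^ 2 * (Real.exp (n * ((-th α τ x (2 * σ) - α ^ 2 / 2) / 2)) *
          Real.exp (n * ((-th α τ x (2 * σ) - α ^ 2 / 2) / 2))) := by ring
      _ = C₂ ^ 2 * (1 + σ) ^ 2 * Real.exp (n * (-th α τ x (2 * σ) - α ^ 2 / 2)) := by
          rw [← Real.exp_add]
          congr 2
          ring
      _ ≤ C₂ ^ 2 * ((2 + τ + |α|) * (1 + x)) ^ 2 * Real.exp (n * (gg α τ x - α ^ 2 / 2)) := by
          apply mul_le_mul _ _ (Real.exp_nonneg _) (by positivity)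
          · apply mul_le_mul_of_nonneg_left _ (by positivity)
            exact pow_le_pow_left₀ hσ5 hσ4 2
          · apply Real.exp_le_exp.2
            apply mul_le_mul_of_nonneg_left _ (by positivity)
            linarith
      _ ≤ (C₁ + C₂ ^ 2 * (2 + τ + |α|) ^ 2) * (1 + x) ^ 2 *
          Real.exp (n * (gg α τ x - α ^ 2 / 2)) := by
          apply mul_le_mul_of_nonneg_right _ (Real.exp_nonneg _)
          have f3 : 0 ≤ C₁ * (1 + x) ^ 2 := by positivity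
          nlinarith

end

end Pool.Agent.MP_941b23_mp
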