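import Pool.Agent.MP_941b23_mp.Defs2
import Pool.Agent.MP_941b23_mp.S2b
import Pool.Agent.MP_941b23_mp.T5

/-!
# Part T7 : lower bound for `A` where `V₃ > 0`
-/

namespace Pool.Agent.MP_941b23_mp

open MeasureTheory Set Filter Topology
open scoped ENNReal NNReal Real ComplexConjugate

noncomputable section

variable {α τ : ℝ}

theorem t7_le_gg (x s : ℝ) : τ * x * s - Wr α s ≤ gg α τ x := by
  unfold gg
  refine le_ciSup (f := fun s : ℝ => τ * x * s - Wr α s) ?_ s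
  refine ⟨α ^ 2 / 2 + 1 / 8 + (τ * x) ^ 2, ?_⟩
  rintro _ ⟨s, rfl⟩
  simp only [Wr]
  nlinarith [sq_nonneg (s ^ 2 + 2 * α), sq_nonneg (s ^ 2 - 1), sq_nonneg (s / 2 - τ * x)]

/-- `g` along the imaginary substitution `v = -i s`. -/
theorem t7_gA (N x : ℝ) (s : ℂ) :
    gA N α τ (x * Complex.I) (-Complex.I * s) =
      Complex.exp ((N : ℂ) * (s ^ 4 / 4 + (α : ℂ) / 2 * s ^ 2 - (τ : ℂ) * x * s)) := by
  unfold gA
  congr 1
  have h2 : Complex.I ^ 2 = -1 := Complex.I_sq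
  have h4 : Complex.I ^ 4 = 1 := Complex.I_pow_four
  have e1 : (-Complex.I * s) ^ 4 = s ^ 4 := by
    rw [mul_pow, neg_pow, h4]; ring
  have e2 : (-Complex.I * s) ^ 2 = -s ^ 2 := by
    rw [mul_pow, neg_pow, h2]; ring
  have e3 : (τ : ℂ) * (x * Complex.I) * (-Complex.I * s) = (τ : ℂ) * x * s := by
    linear_combination (-(τ : ℂ) * x * s) * h2
  rw [e1, e2, e3]
  ring

theorem t7_gA_real (N x s : ℝ) :
    gA N α τ (x * Complex.I) (-Complex.I * s) = ((Real.exp (N * th α τ x s) : ℝ) : ℂ) := by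
  rw [t7_gA, Complex.ofReal_exp]
  congr 1
  unfold th Wr
  push_cast
  ring

theorem t7_norm_gA (N x : ℝ) (s : ℂ) :
    ‖gA N α τ (x * Complex.I) (-Complex.I * s)‖ =
      Real.exp (N * (s ^ 4 / 4 + (α : ℂ) / 2 * s ^ 2 - (τ : ℂ) * x * s).re) := by
  rw [t7_gA, Complex.norm_exp]
  congr 1
  simp [Complex.mul_re]

/-- the real part of `θ` on the rays -/
theorem t7_re_ray (x s₀ : ℝ) (hs : s₀ ^ 3 + α * s₀ = τ * x) (a b r : ℝ) (ha : a ^ 2 = 1 / 2)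
    (hb : b ^ 2 = 1 / 2) (z : ℂ) (hz : z = ⟨s₀ + a * r, b * r⟩) :
    (z ^ 4 / 4 + (α : ℂ) / 2 * z ^ 2 - (τ : ℂ) * x * z).re = th α τ x s₀ - s₀ * a * r ^ 3 -
      r ^ 4 / 4 := by
  have e4 : (z ^ 4 / 4 + (α : ℂ) / 2 * z ^ 2 - (τ : ℂ) * x * z) =
    (((s₀ + a * r) ^ 4 - 6 * (s₀ + a * r) ^ 2 * (b * r) ^ 2 + (b * r) ^ 4 : ℝ) : ℂ) / 4
      + (α : ℂ) / 2 * (((s₀ + a * r) ^ 2 - (b * r) ^ 2 : ℝ) : ℂ) - ((τ * x * (s₀ + a * r) : ℝ) : ℂ)
      + Complex.I * (((s₀ + a * r) ^ 3 * (b * r) - (s₀ + a * r) * (b * r) ^ 3 +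
        α * (s₀ + a * r) * (b * r) - τ * x * (b * r) : ℝ) : ℂ) := by
    have hz' : z = ((s₀ + a * r : ℝ) : ℂ) + ((b * r : ℝ) : ℂ) * Complex.I := by
      rw [hz]; apply Complex.ext <;> simp
    rw [hz']
    push_cast
    have h2 : Complex.I ^ 2 = -1 := Complex.I_sq
    have h3 : Complex.I ^ 3 = -Complex.I := by rw [pow_succ, h2]; ring
    have h4 : Complex.I ^ 4 = 1 := Complex.I_pow_four
    ring_nf
    rw [h2, h3, h4]
    ring
  rw [e4]
  have : ((((s₀ + a * r) ^ 4 - 6 * (s₀ + a * r) ^ 2 * (b * r) ^ 2 + (b * r) ^ 4 : ℝ) : ℂ) / 4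
      + (α : ℂ) / 2 * (((s₀ + a * r) ^ 2 - (b * r) ^ 2 : ℝ) : ℂ) - ((τ * x * (s₀ + a * r) : ℝ) : ℂ)
      + Complex.I * (((s₀ + a * r) ^ 3 * (b * r) - (s₀ + a * r) * (b * r) ^ 3 +
        α * (s₀ + a * r) * (b * r) - τ * x * (b * r) : ℝ) : ℂ)) =
      (((((s₀ + a * r) ^ 4 - 6 * (s₀ + a * r) ^ 2 * (b * r) ^ 2 + (b * r) ^ 4) / 4
      + α / 2 * ((s₀ + a * r) ^ 2 - (b * r) ^ 2) - τ * x * (s₀ + a * r)) : ℝ) : ℂ) +
      ((((s₀ + a * r) ^ 3 * (b * r) - (s₀ + a * r) * (b * r) ^ 3 +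
        α * (s₀ + a * r) * (b * r) - τ * x * (b * r)) : ℝ) : ℂ) * Complex.I := by
    push_cast; ring
  rw [this, Complex.add_re, Complex.ofReal_re, Complex.re_ofReal_mul, Complex.I_re, mul_zero,
    add_zero]
  unfold th Wr
  have ha4 : a ^ 4 = 1 / 4 := by
    calc a ^ 4 = (a ^ 2) ^ 2 := by ring
      _ = 1 / 4 := by rw [ha]; norm_num
  have hb4 : b ^ 4 = 1 / 4 := by
    calc b ^ 4 = (b ^ 2) ^ 2 := by ring
      _ = 1 / 4 := by rw [hb]; norm_num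
  have ha3 : a ^ 3 = a / 2 := by
    calc a ^ 3 = a * a ^ 2 := by ring
      _ = a / 2 := by rw [ha]; ring
  have ex : ((s₀ + a * r) ^ 4 - 6 * (s₀ + a * r) ^ 2 * (b * r) ^ 2 + (b * r) ^ 4) / 4
      + α / 2 * ((s₀ + a * r) ^ 2 - (b * r) ^ 2) - τ * x * (s₀ + a * r) =
      (s₀ ^ 4 + 4 * s₀ ^ 3 * a * r + 6 * s₀ ^ 2 * (a ^ 2) * r ^ 2 + 4 * s₀ * (a ^ 3) * r ^ 3 +
        a ^ 4 * r ^ 4 - 6 * (s₀ ^ 2 + 2 * s₀ * a * r + a ^ 2 * r ^ 2) * (b ^ 2) * r ^ 2 +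
        b ^ 4 * r ^ 4) / 4 + α / 2 * (s₀ ^ 2 + 2 * s₀ * a * r + a ^ 2 * r ^ 2 - b ^ 2 * r ^ 2)
        - τ * x * s₀ - τ * x * (a * r) := by ring
  rw [ex, ha4, hb4, ha3, ha, hb, ← hs]
  ring

theorem t7_ray_bound (n : ℕ) (hn : 0 < n) (x s₀ : ℝ) (e : ℂ) (he : e = ep ∨ e = em)
    (hs : s₀ ^ 3 + α * s₀ = τ * x) (h0 : (e = ep ∧ s₀ ≤ 0) ∨ (e = em ∧ 0 ≤ s₀)) :
    ‖ray e (fun v => (-((n : ℝ) * τ : ℝ) * v) ^ 0 * gA n α τ (x * Complex.I) v)
      (-Complex.I * (s₀ : ℂ))‖ ≤ 3 * Real.exp (n * th α τ x s₀) := by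
  have hn1 : (1 : ℝ) ≤ n := by exact_mod_cast hn
  have hsq : (√2 / 2) ^ 2 = (1 / 2 : ℝ) := by
    rw [div_pow, Real.sq_sqrt (by norm_num)]; norm_num
  have he1 : ‖e‖ = 1 := by
    have h1 : ‖e‖ ^ 2 = 1 := by
      rw [← Complex.normSq_eq_norm_sq]
      rcases he with h | h
      · rw [h, ep, Complex.normSq_mk]; nlinarith
      · rw [h, em, Complex.normSq_mk]; nlinarith
    have h2 : 0 ≤ ‖e‖ := norm_nonneg _
    nlinarith
  -- the bound
  have key : ∀ r ∈ Ioi (0 : ℝ), ‖e * ((-((n : ℝ) * τ : ℝ) * (-Complex.I * (s₀ : ℂ) + e * (r : ℂ))) ^ 0 *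
      gA n α τ (x * Complex.I) (-Complex.I * (s₀ : ℂ) + e * (r : ℂ)))‖ ≤
      Real.exp (n * th α τ x s₀) * Real.exp (3 / 4) * Real.exp (-r) := by
    intro r hr
    have hr0 : (0 : ℝ) < r := hr
    rw [pow_zero, one_mul, norm_mul, he1, one_mul]
    have hv : -Complex.I * (s₀ : ℂ) + e * (r : ℂ) = -Complex.I * ((s₀ : ℂ) + Complex.I * e * r) := by
      linear_combination (e * r) * Complex.I_sq
    rw [hv, t7_norm_gA]
    rw [← Real.exp_add, ← Real.exp_add]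
    apply Real.exp_le_exp.2
    have hr4 : r - 3 / 4 ≤ r ^ 4 / 4 := by nlinarith [sq_nonneg (r ^ 2 - 1), sq_nonneg (r - 1)]
    rcases h0 with ⟨h, hs0⟩ | ⟨h, hs0⟩
    · rw [t7_re_ray (α := α) (τ := τ) x s₀ hs (-(√2 / 2)) (√2 / 2) r (by rw [neg_sq, hsq]) hsq
        ((s₀ : ℂ) + Complex.I * e * r)
        (by rw [h, ep]; apply Complex.ext <;> simp)]
      have h3 : 0 ≤ √2 / 2 * r ^ 3 := by positivity
      have h4 : 0 ≤ -s₀ * (√2 / 2 * r ^ 3) := mul_nonneg (by linarith) h3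
      have h5 : 0 ≤ r ^ 4 / 4 := by positivity
      have h6 : (n : ℝ) * (th α τ x s₀ - s₀ * -(√2 / 2) * r ^ 3 - r ^ 4 / 4) ≤
          n * th α τ x s₀ - n * (r ^ 4 / 4) := by
        have : 0 ≤ (n : ℝ) * (-s₀ * (√2 / 2 * r ^ 3)) := by positivity
        nlinarith
      nlinarith
    · rw [t7_re_ray (α := α) (τ := τ) x s₀ hs (√2 / 2) (√2 / 2) r hsq hsq
        ((s₀ : ℂ) + Complex.I * e * r)
        (by rw [h, em]; apply Complex.ext <;> simp)]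
      have h3 : 0 ≤ √2 / 2 * r ^ 3 := by positivity
      have h4 : 0 ≤ s₀ * (√2 / 2 * r ^ 3) := mul_nonneg (by linarith) h3
      have h5 : 0 ≤ r ^ 4 / 4 := by positivity
      have h6 : (n : ℝ) * (th α τ x s₀ - s₀ * (√2 / 2) * r ^ 3 - r ^ 4 / 4) ≤
          n * th α τ x s₀ - n * (r ^ 4 / 4) := by
        have : 0 ≤ (n : ℝ) * (s₀ * (√2 / 2 * r ^ 3)) := by positivity
        nlinarith
      nlinarith
  have hint : IntegrableOn (fun r : ℝ => Real.exp (n * th α τ x s₀) * Real.exp (3 / 4) *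
      Real.exp (-r)) (Ioi 0) := by
    have := (integrableOn_exp_neg_Ioi 0)
    exact this.const_mul _
  unfold ray
  refine (norm_integral_le_of_norm_le hint
    ((ae_restrict_mem measurableSet_Ioi).mono fun r hr => key r hr)).trans ?_
  rw [integral_const_mul, integral_exp_neg_Ioi_zero, mul_one]
  have h3 : Real.exp (3 / 4) ≤ 3 := by
    have := Real.exp_one_lt_d9
    have h' : Real.exp (3 / 4) ≤ Real.exp 1 := Real.exp_le_exp.2 (by norm_num)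
    linarith
  have := Real.exp_pos (n * th α τ x s₀)
  nlinarith

theorem t7_main_lower (hα : α < 0) (n : ℕ) (hn : 0 < n) (hn1 : 1 ≤ √n * √(-α)) (x : ℝ)
    (hx : 0 ≤ τ * x)
    (s₁ s₂ s₃ : ℝ) (h23 : s₂ < s₃) (h3 : s₃ ≤ 0) (h1 : √(-α) ≤ s₁)
    (hs3 : s₃ ^ 3 + α * s₃ = τ * x) :
    Real.exp (α / 2 - √(-α)) / √n * Real.exp (n * th α τ x s₃) ≤
      ∫ s in s₂..s₁, Real.exp (n * th α τ x s) := by
  have hn0 : (0 : ℝ) < n := by exact_mod_cast hn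
  have hsn : 0 < √(n : ℝ) := Real.sqrt_pos.2 hn0
  have hsn2 : √(n : ℝ) * √(n : ℝ) = n := Real.mul_self_sqrt hn0.le
  have hsα : 0 < √(-α) := Real.sqrt_pos.2 (by linarith)
  have hcont : Continuous fun s : ℝ => Real.exp (n * th α τ x s) := by
    unfold th Wr; fun_prop
  set h := 1 / √(n : ℝ) with hh
  have hh0 : 0 < h := by positivity
  have hhn : (n : ℝ) * h ^ 2 = 1 := by
    rw [hh]; field_simp; nlinarith
  have hh1 : h ≤ √(-α) := by
    rw [hh, div_le_iff₀ hsn]; linarith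
  have hs3b : -s₃ ≤ √(-α) := by
    apply Real.le_sqrt_of_sq_le
    by_contra hc
    push Not at hc
    have hneg : s₃ < 0 := by
      rcases h3.lt_or_eq with h | h
      · exact h
      · rw [h] at hc; simp at hc; linarith
    nlinarith
  have hsub1 : s₃ + h ≤ s₁ := by linarith
  -- lower bound on the interval `[s₃, s₃ + h]`
  have hlow : ∀ s ∈ Icc s₃ (s₃ + h), Real.exp (α / 2 - √(-α)) * Real.exp (n * th α τ x s₃) ≤
      Real.exp (n * th α τ x s) := by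
    intro s hs
    rw [← Real.exp_add]
    apply Real.exp_le_exp.2
    obtain ⟨z, hz⟩ : ∃ z, s = s₃ + z := ⟨s - s₃, by ring⟩
    have hz0 : 0 ≤ z := by have := hs.1; linarith
    have hz1 : z ≤ h := by have := hs.2; linarith
    have hth : th α τ x s = th α τ x s₃ + (3 * s₃ ^ 2 + α) / 2 * z ^ 2 + s₃ * z ^ 3 + z ^ 4 / 4 := by
      unfold th Wr; rw [hz, ← hs3]; ring
    have hz2 : z ^ 2 ≤ h ^ 2 := by nlinarith
    have hn1' : (1 : ℝ) ≤ n := by exact_mod_cast hn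
    have hh1' : h ≤ 1 := by
      rw [hh, div_le_iff₀ hsn, one_mul]
      exact Real.one_le_sqrt.2 hn1'
    have hz3 : z ^ 3 ≤ h ^ 2 := by
      calc z ^ 3 = z * z ^ 2 := by ring
        _ ≤ 1 * z ^ 2 := by
          apply mul_le_mul_of_nonneg_right (hz1.trans hh1') (sq_nonneg _)
        _ ≤ h ^ 2 := by linarith
    have a1 : α / 2 * h ^ 2 ≤ (3 * s₃ ^ 2 + α) / 2 * z ^ 2 := by
      have : 0 ≤ 3 * s₃ ^ 2 / 2 * z ^ 2 := by positivity
      nlinarith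
    have a2 : -(√(-α)) * h ^ 2 ≤ s₃ * z ^ 3 := by
      have hz3' : 0 ≤ z ^ 3 := by positivity
      calc -(√(-α)) * h ^ 2 ≤ -(√(-α)) * z ^ 3 := by
            apply mul_le_mul_of_nonpos_left hz3; linarith
        _ ≤ s₃ * z ^ 3 := by
            apply mul_le_mul_of_nonneg_right _ hz3'; linarith
    have a3 : 0 ≤ z ^ 4 / 4 := by positivity
    have a4 : (α / 2 - √(-α)) * h ^ 2 + th α τ x s₃ ≤ th α τ x s := by
      rw [hth]; linarith
    calc α / 2 - √(-α) + n * th α τ x s₃ = n * ((α / 2 - √(-α)) * h ^ 2 + th α τ x s₃) := by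
          rw [mul_add, mul_comm ((α / 2 - √(-α))) (h ^ 2), ← mul_assoc, hhn, one_mul]
      _ ≤ n * th α τ x s := mul_le_mul_of_nonneg_left a4 hn0.le
  have e1 : ∫ s in s₃..(s₃ + h), Real.exp (α / 2 - √(-α)) * Real.exp (n * th α τ x s₃) ≤
      ∫ s in s₃..(s₃ + h), Real.exp (n * th α τ x s) := by
    apply intervalIntegral.integral_mono_on (by linarith)
    · exact intervalIntegrable_const
    · exact hcont.intervalIntegrable _ _
    · exact hlow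
  have e2 : ∫ s in s₃..(s₃ + h), Real.exp (n * th α τ x s) ≤
      ∫ s in s₂..s₁, Real.exp (n * th α τ x s) := by
    apply intervalIntegral.integral_mono_interval h23.le (by linarith) hsub1
    · exact ae_of_all _ fun s => (Real.exp_pos _).le
    · exact hcont.intervalIntegrable _ _
  rw [intervalIntegral.integral_const, smul_eq_mul] at e1
  have e3 : (s₃ + h - s₃) * (Real.exp (α / 2 - √(-α)) * Real.exp (n * th α τ x s₃)) =
      Real.exp (α / 2 - √(-α)) / √n * Real.exp (n * th α τ x s₃) := by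
    rw [hh]; ring
  rw [e3] at e1
  exact e1.trans e2

theorem t7_contour (n : ℕ) (hn : 0 < n) (x s₁ s₂ : ℝ) :
    Aj n α τ 0 (x * Complex.I) = (2 * (π : ℂ) * Complex.I)⁻¹ *
      (ray ep (fun v => (-((n : ℝ) * τ : ℝ) * v) ^ 0 * gA n α τ (x * Complex.I) v)
        (-Complex.I * (s₂ : ℂ))
      - ray em (fun v => (-((n : ℝ) * τ : ℝ) * v) ^ 0 * gA n α τ (x * Complex.I) v)
        (-Complex.I * (s₁ : ℂ))
      + Complex.I * ((∫ s in s₂..s₁, Real.exp (n * th α τ x s) : ℝ) : ℂ)) := by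
  have hn0 : (0 : ℝ) < n := by exact_mod_cast hn
  rw [Aj_contour hn0 0 (x * Complex.I) (-Complex.I * (s₂ : ℂ)) (-Complex.I * (s₁ : ℂ))]
  congr 1
  congr 1
  have h1 : ∀ s : ℝ, (-Complex.I * (s₂ : ℂ) - -Complex.I * (s₁ : ℂ)) *
      ((-(((n : ℝ) * τ : ℝ) : ℂ) * (-Complex.I * (s₁ : ℂ) +
        s * (-Complex.I * (s₂ : ℂ) - -Complex.I * (s₁ : ℂ)))) ^ 0 *
      gA n α τ (x * Complex.I) (-Complex.I * (s₁ : ℂ) +
        s * (-Complex.I * (s₂ : ℂ) - -Complex.I * (s₁ : ℂ)))) =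
      Complex.I * (((s₁ - s₂) * Real.exp (n * th α τ x (s₁ + (s₂ - s₁) * s)) : ℝ) : ℂ) := by
    intro s
    have : -Complex.I * (s₁ : ℂ) + s * (-Complex.I * (s₂ : ℂ) - -Complex.I * (s₁ : ℂ)) =
      -Complex.I * ((s₁ + (s₂ - s₁) * s : ℝ) : ℂ) := by push_cast; ring
    rw [this, pow_zero, one_mul, t7_gA_real]
    push_cast
    ring
  have h2 : (∫ s in (0 : ℝ)..1, (-Complex.I * (s₂ : ℂ) - -Complex.I * (s₁ : ℂ)) *
      ((-(((n : ℝ) * τ : ℝ) : ℂ) * (-Complex.I * (s₁ : ℂ) +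
        s * (-Complex.I * (s₂ : ℂ) - -Complex.I * (s₁ : ℂ)))) ^ 0 *
      gA n α τ (x * Complex.I) (-Complex.I * (s₁ : ℂ) +
        s * (-Complex.I * (s₂ : ℂ) - -Complex.I * (s₁ : ℂ))))) =
      ∫ s in (0 : ℝ)..1, Complex.I *
        (((s₁ - s₂) * Real.exp (n * th α τ x (s₁ + (s₂ - s₁) * s)) : ℝ) : ℂ) := by
    apply intervalIntegral.integral_congr
    intro s _
    exact h1 s
  refine h2.trans ?_
  rw [intervalIntegral.integral_const_mul]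
  congr 1
  rw [intervalIntegral.integral_ofReal]
  congr 1
  rw [intervalIntegral.integral_const_mul]
  have h3 := intervalIntegral.smul_integral_comp_add_mul (a := 0) (b := 1)
    (fun s : ℝ => Real.exp (n * th α τ x s)) (s₂ - s₁) s₁
  simp only [mul_zero, add_zero, mul_one, smul_eq_mul] at h3
  have h4 : s₁ + (s₂ - s₁) = s₂ := by ring
  rw [h4] at h3
  rw [intervalIntegral.integral_symm s₁ s₂, ← h3]
  ring

theorem Aj_lower (hτ : 0 < τ) (hα : α < 0) (δ : ℝ) (hδ : 0 < δ) : ∃ c : ℝ, 0 < c ∧ ∃ n₀ : ℕ,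
    ∀ n : ℕ, n₀ ≤ n → ∀ x : ℝ, 0 ≤ x → x < xstar α τ → δ ≤ V3 α τ x →
    c / n * Real.exp (n * (gg α τ x - α ^ 2 / 2 + V3 α τ x)) ≤
      Complex.normSq (Aj n α τ 0 (x * Complex.I)) := by
  set c₁ := Real.exp (α / 2 - √(-α)) with hc₁
  have hc₁0 : 0 < c₁ := Real.exp_pos _
  have hsα : 0 < √(-α) := Real.sqrt_pos.2 (by linarith)
  have ht : Tendsto (fun n : ℕ => √(n : ℝ)) atTop atTop :=
    Real.tendsto_sqrt_atTop.comp tendsto_natCast_atTop_atTop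
  obtain ⟨n₀, hn₀⟩ := (((ht.eventually_ge_atTop (1 / √(-α))).and
    (ht.eventually_ge_atTop (12 / (c₁ * δ)))).and (eventually_ge_atTop 1)).exists_forall_of_atTop
  refine ⟨(c₁ / (4 * π)) ^ 2, by positivity, n₀, ?_⟩
  intro n hn x hx hx' hV
  obtain ⟨⟨hA, hB⟩, hC⟩ := hn₀ n hn
  have hnpos : 0 < n := hC
  have hn0 : (0 : ℝ) < n := by exact_mod_cast hnpos
  have hsn : 0 < √(n : ℝ) := Real.sqrt_pos.2 hn0
  have hsn2 : √(n : ℝ) * √(n : ℝ) = n := Real.mul_self_sqrt hn0.le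
  obtain ⟨s₁, s₂, s₃, h23, h3, h1, h2, e1, e2, e3, hg, hV3, hsum, hmax⟩ :=
    V3_spec hτ hα x hx hx'
  have hA' : 1 ≤ √(n : ℝ) * √(-α) := by
    rw [div_le_iff₀ hsα] at hA; exact hA
  have hmain := t7_main_lower (τ := τ) hα n hnpos hA' x (by positivity) s₁ s₂ s₃ h23 h3 h1 e3
  have hs2 : s₂ ≤ 0 := by linarith
  have hs1 : 0 ≤ s₁ := by linarith
  have hr2 := t7_ray_bound n hnpos x s₂ ep (Or.inl rfl) e2 (Or.inl ⟨rfl, hs2⟩)
  have hr1 := t7_ray_bound n hnpos x s₁ em (Or.inr rfl) e1 (Or.inr ⟨rfl, hs1⟩)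
  have hθ2 : th α τ x s₂ ≤ th α τ x s₃ - δ := by linarith
  have hθ1 : th α τ x s₁ ≤ th α τ x s₃ - δ := by
    have := t7_le_gg (α := α) (τ := τ) x s₂
    have h : -th α τ x s₂ ≤ gg α τ x := by unfold th; linarith
    linarith
  have hexp : Real.exp (n * (th α τ x s₃ - δ)) ≤ Real.exp (n * th α τ x s₃) * (1 / (n * δ)) := by
    rw [mul_sub, Real.exp_sub, div_eq_mul_one_div]
    apply mul_le_mul_of_nonneg_left _ (Real.exp_pos _).le
    apply one_div_le_one_div_of_le (by positivity)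
    have := Real.add_one_le_exp ((n : ℝ) * δ)
    linarith
  have hb2 : ‖ray ep (fun v => (-((n : ℝ) * τ : ℝ) * v) ^ 0 * gA n α τ (x * Complex.I) v)
      (-Complex.I * (s₂ : ℂ))‖ ≤ 3 * (Real.exp (n * th α τ x s₃) * (1 / (n * δ))) := by
    refine hr2.trans (mul_le_mul_of_nonneg_left (le_trans ?_ hexp) (by norm_num))
    exact Real.exp_le_exp.2 (mul_le_mul_of_nonneg_left hθ2 hn0.le)
  have hb1 : ‖ray em (fun v => (-((n : ℝ) * τ : ℝ) * v) ^ 0 * gA n α τ (x * Complex.I) v)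
      (-Complex.I * (s₁ : ℂ))‖ ≤ 3 * (Real.exp (n * th α τ x s₃) * (1 / (n * δ))) := by
    refine hr1.trans (mul_le_mul_of_nonneg_left (le_trans ?_ hexp) (by norm_num))
    exact Real.exp_le_exp.2 (mul_le_mul_of_nonneg_left hθ1 hn0.le)
  set E := Real.exp (n * th α τ x s₃) with hE
  have hE0 : 0 < E := Real.exp_pos _
  set R2 := ray ep (fun v => (-((n : ℝ) * τ : ℝ) * v) ^ 0 * gA n α τ (x * Complex.I) v)
      (-Complex.I * (s₂ : ℂ)) with hR2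
  set R1 := ray em (fun v => (-((n : ℝ) * τ : ℝ) * v) ^ 0 * gA n α τ (x * Complex.I) v)
      (-Complex.I * (s₁ : ℂ)) with hR1
  set M := ∫ s in s₂..s₁, Real.exp (n * th α τ x s) with hM
  have hcont : Aj n α τ 0 (x * Complex.I) = (2 * (π : ℂ) * Complex.I)⁻¹ *
      (R2 - R1 + Complex.I * (M : ℂ)) := t7_contour n hnpos x s₁ s₂
  have hM0 : 0 ≤ M := by
    refine le_trans ?_ hmain
    positivity
  have hnorm : (c₁ / 2 / √n * E) ≤ ‖R2 - R1 + Complex.I * (M : ℂ)‖ := by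
    have hnM : ‖Complex.I * (M : ℂ)‖ = M := by
      rw [norm_mul, Complex.norm_I, one_mul, Complex.norm_real, Real.norm_of_nonneg hM0]
    have t1 : ‖Complex.I * (M : ℂ)‖ - ‖R1 - R2‖ ≤ ‖Complex.I * (M : ℂ) - (R1 - R2)‖ :=
      norm_sub_norm_le _ _
    have t2 : Complex.I * (M : ℂ) - (R1 - R2) = R2 - R1 + Complex.I * (M : ℂ) := by ring
    rw [t2, hnM] at t1
    have t3 : ‖R1 - R2‖ ≤ ‖R1‖ + ‖R2‖ := norm_sub_le _ _
    have t4 : 6 * (E * (1 / (n * δ))) ≤ c₁ / 2 / √n * E := by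
      have hB' : 12 ≤ √(n : ℝ) * (c₁ * δ) := by
        rw [div_le_iff₀ (by positivity)] at hB; exact hB
      have : 6 * (1 / (n * δ)) ≤ c₁ / 2 / √(n : ℝ) := by
        rw [mul_one_div, div_le_div_iff₀ (by positivity) hsn]
        have : c₁ / 2 * (n * δ) = √(n : ℝ) * (√(n : ℝ) * (c₁ * δ)) / 2 := by
          linear_combination (-(c₁ / 2 * δ)) * hsn2
        rw [this]
        nlinarith
      calc 6 * (E * (1 / (n * δ))) = 6 * (1 / (n * δ)) * E := by ring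
        _ ≤ c₁ / 2 / √n * E := mul_le_mul_of_nonneg_right this hE0.le
    have t5 : c₁ / √n * E = c₁ / 2 / √n * E + c₁ / 2 / √n * E := by ring
    linarith
  have hsq : (c₁ / (4 * π)) ^ 2 / n * Real.exp (n * (gg α τ x - α ^ 2 / 2 + V3 α τ x)) =
      ((2 * π)⁻¹ * (c₁ / 2 / √n * E)) ^ 2 := by
    have : gg α τ x - α ^ 2 / 2 + V3 α τ x = 2 * th α τ x s₃ := by linarith
    rw [this]
    have hEE : Real.exp (n * (2 * th α τ x s₃)) = E ^ 2 := by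
      rw [hE, ← Real.exp_nat_mul]; congr 1; push_cast; ring
    rw [hEE]
    have hs : √(n : ℝ) ^ 2 = n := Real.sq_sqrt hn0.le
    rw [mul_pow, mul_pow, div_pow (c₁ / 2), hs]
    ring
  rw [hsq, Complex.normSq_eq_norm_sq, hcont, norm_mul]
  have hpi : ‖(2 * (π : ℂ) * Complex.I)⁻¹‖ = (2 * π)⁻¹ := by
    rw [norm_inv, norm_mul, norm_mul, Complex.norm_I, mul_one, Complex.norm_real,
      Real.norm_of_nonneg Real.pi_pos.le]
    simp
  rw [hpi]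
  apply pow_le_pow_left₀ (by positivity)
  apply mul_le_mul_of_nonneg_left hnorm (by positivity)

end

end Pool.Agent.MP_941b23_mp
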