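import Pool.Agent.MP_941b23_mp.Defs2
import Pool.Agent.MP_941b23_mp.S3
import Pool.Agent.MP_941b23_mp.T3
import Pool.Agent.MP_941b23_mp.T6b
import Pool.Agent.MP_941b23_mp.T7

/-!
# [T8a] bounds for the density of `ρ`
-/

namespace Pool.Agent.MP_941b23_mp

open MeasureTheory Set Filter Topology
open scoped ENNReal NNReal Real ComplexConjugate

noncomputable section

variable {α τ : ℝ}

theorem T8a_small (K δ : ℝ) (hδ : 0 < δ) : ∃ n₀ : ℕ, ∀ n : ℕ, n₀ ≤ n →
    K * (n : ℝ) ^ 2 ≤ Real.exp (n * δ) := by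
  have h1 : Tendsto (fun n : ℕ => (n : ℝ) ^ 2 * Real.exp (-(δ * n))) atTop (𝓝 0) := by
    have h := Real.tendsto_pow_mul_exp_neg_atTop_nhds_zero 2
    have h2 : Tendsto (fun n : ℕ => δ * (n : ℝ)) atTop atTop :=
      tendsto_natCast_atTop_atTop.const_mul_atTop hδ
    have h3 := (h.comp h2).const_mul (1 / δ ^ 2)
    rw [mul_zero] at h3
    refine h3.congr fun n => ?_
    simp only [Function.comp]
    field_simp
  have h4 := (h1.const_mul K)
  rw [mul_zero] at h4
  obtain ⟨n₀, hn₀⟩ := eventually_atTop.1 (h4.eventually (ge_mem_nhds (zero_lt_one)))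
  refine ⟨n₀, fun n hn => ?_⟩
  have h5 := hn₀ n hn
  have h6 : Real.exp (-(δ * n)) * Real.exp (n * δ) = 1 := by
    rw [← Real.exp_add]; simp [mul_comm]
  have h7 : 0 < Real.exp (n * δ) := Real.exp_pos _
  calc K * (n : ℝ) ^ 2 = K * (n : ℝ) ^ 2 * (Real.exp (-(δ * n)) * Real.exp (n * δ)) := by
        rw [h6, mul_one]
    _ = (K * ((n : ℝ) ^ 2 * Real.exp (-(δ * n)))) * Real.exp (n * δ) := by ring
    _ ≤ 1 * Real.exp (n * δ) := mul_le_mul_of_nonneg_right h5 h7.le
    _ = Real.exp (n * δ) := one_mul _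

theorem rhoD_lower (hτ : 0 < τ) (a b δ : ℝ) (ha : 0 < a) (hδ : 0 < δ) : ∃ n₀ : ℕ, ∀ n : ℕ,
    n₀ ≤ n → ∀ v ∈ Icc a b, Real.exp (-(n * (U3 α τ v + δ))) ≤ rhoD n α τ v := by
  obtain ⟨c, hc, hf⟩ := fj_lower (α := α) hτ
  obtain ⟨C, hC, hA⟩ := Aj_upper (α := α) hτ
  set k₀ : ℝ := τ / (2 * √2 * π * √π) with hk₀
  have hk₀pos : 0 < k₀ := by positivity
  set B : ℝ := 1 + √b with hB
  have hB1 : 1 ≤ B := by
    have := Real.sqrt_nonneg b
    linarith
  -- the final constant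
  set K : ℝ := k₀ * c / (2 * π * C * B ^ 4) with hK
  have hKpos : 0 < K := by positivity
  obtain ⟨n₁, hn₁⟩ := T8a_small (1 / K) δ hδ
  refine ⟨max 1 n₁, fun n hn v hv => ?_⟩
  have hn1 : 1 ≤ n := (le_max_left _ _).trans hn
  have hnpos : 0 < n := hn1
  have hnR : (1 : ℝ) ≤ (n : ℝ) := by exact_mod_cast hn1
  have hnR0 : (0 : ℝ) < (n : ℝ) := by linarith
  have hexp := hn₁ n ((le_max_right _ _).trans hn)
  have hv0 : 0 < v := lt_of_lt_of_le ha hv.1
  set x : ℝ := √v with hx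
  have hx0 : 0 < x := Real.sqrt_pos.2 hv0
  have hxB : x ≤ √b := Real.sqrt_le_sqrt hv.2
  have hf1 := hf n hnpos x
  rw [abs_of_pos hx0] at hf1
  have hA1 := hA n hnpos x hx0.le
  set E : ℝ := Real.exp (n * gg α τ x) with hE
  set G : ℝ := Real.exp (n * (gg α τ x - α ^ 2 / 2 + V3 α τ x)) with hG
  set f : ℝ := (fj n α τ 0 x).re with hfdef
  set A : ℝ := Complex.normSq (Aj n α τ 0 (x * Complex.I)) with hAdef
  have hA0 : 0 < A := by
    rw [hAdef, Complex.normSq_pos]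
    exact Aj_ne_zero hnR0 hτ _ (by simp)
  have hE0 : 0 < E := Real.exp_pos _
  have hG0 : 0 < G := Real.exp_pos _
  have hnsq : 1 ≤ √(n : ℝ) := by
    rw [show (1 : ℝ) = √1 by simp]
    exact Real.sqrt_le_sqrt hnR
  have hcA : cA n α τ = k₀ * √(n : ℝ) * Real.exp (-(n * α ^ 2 / 2)) := by
    unfold cA
    rw [hk₀]; ring
  have hrho : rhoD n α τ v = cA n α τ * f / (2 * π * x * A) := rfl
  -- exponentials
  have hEG : Real.exp (-(n * α ^ 2 / 2)) * E = Real.exp (-(n * V3 α τ x)) * G := by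
    rw [hE, hG, ← Real.exp_add, ← Real.exp_add]
    congr 1; ring
  have hU3 : U3 α τ v = V3 α τ x := rfl
  have hsplit : Real.exp (-(n * (U3 α τ v + δ)))
      = Real.exp (-(n * V3 α τ x)) * Real.exp (-(n * δ)) := by
    rw [hU3, ← Real.exp_add]; congr 1; ring
  rw [hsplit, hrho]
  have hden : 0 < 2 * π * x * A := by positivity
  rw [le_div_iff₀ hden]
  have hstep1 : 2 * π * x * A ≤ 2 * π * B * (C * B ^ 2 * G) := by
    have h1 : x ≤ B := by linarith
    have h2 : (1 + x) ^ 2 ≤ B ^ 2 := by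
      have : 1 + x ≤ B := by linarith
      exact pow_le_pow_left₀ (by linarith) this 2
    have h3 : A ≤ C * B ^ 2 * G := by
      refine hA1.trans ?_
      have : C * (1 + x) ^ 2 ≤ C * B ^ 2 := mul_le_mul_of_nonneg_left h2 hC.le
      exact mul_le_mul_of_nonneg_right this hG0.le
    calc 2 * π * x * A ≤ 2 * π * B * A := by
          have : 2 * π * x ≤ 2 * π * B := mul_le_mul_of_nonneg_left h1 (by positivity)
          exact mul_le_mul_of_nonneg_right this hA0.le
      _ ≤ 2 * π * B * (C * B ^ 2 * G) := mul_le_mul_of_nonneg_left h3 (by positivity)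
  have hstep2 : cA n α τ * f ≥ k₀ * (Real.exp (-(n * α ^ 2 / 2)) * (c / (n * B) * E)) := by
    rw [hcA]
    have h1 : c / (n * B) * E ≤ f := by
      refine le_trans ?_ hf1
      apply mul_le_mul_of_nonneg_right _ hE0.le
      apply div_le_div_of_nonneg_left hc.le (by positivity)
      apply mul_le_mul_of_nonneg_left _ hnR0.le
      linarith
    have h2 : 0 ≤ c / (n * B) * E := by positivity
    have h3 : k₀ ≤ k₀ * √(n : ℝ) := le_mul_of_one_le_right hk₀pos.le hnsq
    have h4 : Real.exp (-(n * α ^ 2 / 2)) * (c / (n * B) * E)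
        ≤ Real.exp (-(n * α ^ 2 / 2)) * f := mul_le_mul_of_nonneg_left h1 (Real.exp_pos _).le
    have h5 : 0 ≤ Real.exp (-(n * α ^ 2 / 2)) * (c / (n * B) * E) := by positivity
    calc k₀ * (Real.exp (-(n * α ^ 2 / 2)) * (c / (n * B) * E))
        ≤ (k₀ * √(n : ℝ)) * (Real.exp (-(n * α ^ 2 / 2)) * (c / (n * B) * E)) :=
          mul_le_mul_of_nonneg_right h3 h5
      _ ≤ (k₀ * √(n : ℝ)) * (Real.exp (-(n * α ^ 2 / 2)) * f) :=
          mul_le_mul_of_nonneg_left h4 (by positivity)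
      _ = k₀ * √(n : ℝ) * Real.exp (-(n * α ^ 2 / 2)) * f := by ring
  refine le_trans ?_ hstep2
  have hW : Real.exp (-(n * δ)) * ((n : ℝ) ^ 2) ≤ K := by
    have h6 : Real.exp (-(n * δ)) * Real.exp (n * δ) = 1 := by
      rw [← Real.exp_add]; simp
    have h7 : 0 < Real.exp (-(n * δ)) := Real.exp_pos _
    have h8 := mul_le_mul_of_nonneg_left hexp h7.le
    rw [h6] at h8
    have h9 : Real.exp (-(n * δ)) * (1 / K * (n : ℝ) ^ 2)
        = (Real.exp (-(n * δ)) * ((n : ℝ) ^ 2)) / K := by ring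
    rw [h9, div_le_one hKpos] at h8
    exact h8
  have hW' : Real.exp (-(n * δ)) ≤ K / n := by
    rw [le_div_iff₀ hnR0]
    refine le_trans ?_ hW
    apply mul_le_mul_of_nonneg_left _ (Real.exp_pos _).le
    exact le_self_pow₀ hnR (by norm_num)
  have hV0 : 0 < Real.exp (-(n * V3 α τ x)) := Real.exp_pos _
  calc Real.exp (-(n * V3 α τ x)) * Real.exp (-(n * δ)) * (2 * π * x * A)
      ≤ Real.exp (-(n * V3 α τ x)) * (K / n) * (2 * π * B * (C * B ^ 2 * G)) := by
        apply mul_le_mul _ hstep1 hden.le (by positivity)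
        exact mul_le_mul_of_nonneg_left hW' hV0.le
    _ = (K * (2 * π * C * B ^ 3)) / n * (Real.exp (-(n * V3 α τ x)) * G) := by ring
    _ = (k₀ * c / B) / n * (Real.exp (-(n * V3 α τ x)) * G) := by
        have : K * (2 * π * C * B ^ 3) = k₀ * c / B := by
          rw [hK]
          have : B ≠ 0 := by positivity
          field_simp
        rw [this]
    _ = (k₀ * c / B) / n * (Real.exp (-(n * α ^ 2 / 2)) * E) := by rw [hEG]
    _ = k₀ * (Real.exp (-(n * α ^ 2 / 2)) * (c / (n * B) * E)) := by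
        have : B ≠ 0 := by positivity
        field_simp

theorem rhoD_upper (hτ : 0 < τ) (δ : ℝ) (hδ : 0 < δ) : ∃ n₀ : ℕ, ∀ n : ℕ, n₀ ≤ n →
    ∀ v : ℝ, 0 < v → δ ≤ U3 α τ v →
    rhoD n α τ v ≤ Real.exp (-(n * (U3 α τ v - δ))) / √v := by
  by_cases hα : α < 0
  swap
  · refine ⟨0, fun n _ v _ h => ?_⟩
    exfalso
    have : U3 α τ v = 0 := by
      unfold U3 V3
      rw [if_neg]
      exact fun h => hα h.1
    linarith
  obtain ⟨C, hC, hf⟩ := fj_upper (α := α) hτ
  obtain ⟨c, hc, n₂, hA⟩ := Aj_lower (α := α) hτ hα δ hδ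
  set k₀ : ℝ := τ / (2 * √2 * π * √π) with hk₀
  have hk₀pos : 0 < k₀ := by positivity
  set B : ℝ := 1 + |xstar α τ| with hB
  have hB1 : 1 ≤ B := by
    have := abs_nonneg (xstar α τ)
    linarith
  set K : ℝ := k₀ * C * B / (2 * π * c) with hK
  have hKpos : 0 < K := by positivity
  obtain ⟨n₁, hn₁⟩ := T8a_small K δ hδ
  refine ⟨max 1 (max n₁ n₂), fun n hn v hv0 hδv => ?_⟩
  have hn1 : 1 ≤ n := (le_max_left _ _).trans hn
  have hnpos : 0 < n := hn1
  have hnR : (1 : ℝ) ≤ (n : ℝ) := by exact_mod_cast hn1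
  have hnR0 : (0 : ℝ) < (n : ℝ) := by linarith
  have hexp := hn₁ n ((le_max_left _ _).trans ((le_max_right _ _).trans hn))
  have hn2 : n₂ ≤ n := (le_max_right _ _).trans ((le_max_right _ _).trans hn)
  set x : ℝ := √v with hx
  have hx0 : 0 < x := Real.sqrt_pos.2 hv0
  have hU3 : U3 α τ v = V3 α τ x := rfl
  rw [hU3] at hδv ⊢
  have hxs : x < xstar α τ := by
    by_contra hcon
    have : V3 α τ x = 0 := by
      unfold V3
      rw [if_neg]
      rintro ⟨-, h2⟩
      rw [abs_of_pos hx0] at h2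
      exact hcon h2
    linarith
  have hxB : 1 + x ≤ B := by
    have := le_abs_self (xstar α τ)
    linarith
  have hf1 := hf n hnpos x
  rw [abs_of_pos hx0] at hf1
  have hA1 := hA n hn2 x hx0.le hxs hδv
  set E : ℝ := Real.exp (n * gg α τ x) with hE
  set G : ℝ := Real.exp (n * (gg α τ x - α ^ 2 / 2 + V3 α τ x)) with hG
  set f : ℝ := (fj n α τ 0 x).re with hfdef
  set A : ℝ := Complex.normSq (Aj n α τ 0 (x * Complex.I)) with hAdef
  have hE0 : 0 < E := Real.exp_pos _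
  have hG0 : 0 < G := Real.exp_pos _
  have hA0 : 0 < A := lt_of_lt_of_le (by positivity) hA1
  have hcA : cA n α τ = k₀ * √(n : ℝ) * Real.exp (-(n * α ^ 2 / 2)) := by
    unfold cA
    rw [hk₀]; ring
  have hrho : rhoD n α τ v = cA n α τ * f / (2 * π * x * A) := rfl
  have hEG : Real.exp (-(n * α ^ 2 / 2)) * E = Real.exp (-(n * V3 α τ x)) * G := by
    rw [hE, hG, ← Real.exp_add, ← Real.exp_add]
    congr 1; ring
  have hsplit : Real.exp (-(n * (V3 α τ x - δ)))
      = Real.exp (-(n * V3 α τ x)) * Real.exp (n * δ) := by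
    rw [← Real.exp_add]; congr 1; ring
  rw [hsplit, hrho]
  have hden : 0 < 2 * π * x * A := by positivity
  rw [div_le_div_iff₀ hden hx0]
  have hsqn : √(n : ℝ) ≤ n := by
    rw [Real.sqrt_le_left hnR0.le]
    exact le_self_pow₀ hnR (by norm_num)
  have hstep2 : cA n α τ * f ≤ k₀ * n * (Real.exp (-(n * α ^ 2 / 2)) * (C * B * E)) := by
    rw [hcA]
    have h1 : f ≤ C * B * E := by
      refine hf1.trans ?_
      apply mul_le_mul_of_nonneg_right _ hE0.le
      exact mul_le_mul_of_nonneg_left hxB hC.le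
    have h2 : k₀ * √(n : ℝ) ≤ k₀ * n := mul_le_mul_of_nonneg_left hsqn hk₀pos.le
    have h3 : Real.exp (-(n * α ^ 2 / 2)) * f ≤ Real.exp (-(n * α ^ 2 / 2)) * (C * B * E) :=
      mul_le_mul_of_nonneg_left h1 (Real.exp_pos _).le
    calc k₀ * √(n : ℝ) * Real.exp (-(n * α ^ 2 / 2)) * f
        = k₀ * √(n : ℝ) * (Real.exp (-(n * α ^ 2 / 2)) * f) := by ring
      _ ≤ k₀ * √(n : ℝ) * (Real.exp (-(n * α ^ 2 / 2)) * (C * B * E)) :=
          mul_le_mul_of_nonneg_left h3 (by positivity)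
      _ ≤ k₀ * n * (Real.exp (-(n * α ^ 2 / 2)) * (C * B * E)) :=
          mul_le_mul_of_nonneg_right h2 (by positivity)
  have hV0 : 0 < Real.exp (-(n * V3 α τ x)) := Real.exp_pos _
  calc cA n α τ * f * x ≤ k₀ * n * (Real.exp (-(n * α ^ 2 / 2)) * (C * B * E)) * x :=
        mul_le_mul_of_nonneg_right hstep2 hx0.le
    _ = k₀ * n * C * B * x * (Real.exp (-(n * α ^ 2 / 2)) * E) := by ring
    _ = k₀ * n * C * B * x * (Real.exp (-(n * V3 α τ x)) * G) := by rw [hEG]
    _ = Real.exp (-(n * V3 α τ x)) * (K * (n : ℝ) ^ 2) * (2 * π * x * (c / n * G)) := by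
        rw [hK]
        field_simp
    _ ≤ Real.exp (-(n * V3 α τ x)) * (Real.exp (n * δ)) * (2 * π * x * A) := by
        apply mul_le_mul _ _ (by positivity) (by positivity)
        · exact mul_le_mul_of_nonneg_left hexp hV0.le
        · exact mul_le_mul_of_nonneg_left hA1 (by positivity)

end

end Pool.Agent.MP_941b23_mp
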