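import Pool.Agent.MP_941b23_mp.Defs2
import Pool.Agent.MP_941b23_mp.L1
import Pool.Agent.MP_941b23_mp.L1b
import Pool.Agent.MP_941b23_mp.L2a
import Pool.Agent.MP_941b23_mp.S1
import Pool.Agent.MP_941b23_mp.S2a
import Pool.Agent.MP_941b23_mp.T1a
import Pool.Agent.MP_941b23_mp.T2a
import Pool.Agent.MP_941b23_mp.T2b
import Pool.Agent.MP_941b23_mp.T3
import Pool.Agent.MP_941b23_mp.T5
import Pool.Agent.MP_941b23_mp.T8a

/-!
# Row L2b : lower bound for the block integral
-/

namespace Pool.Agent.MP_941b23_mp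

open MeasureTheory Set Filter Topology
open scoped ENNReal NNReal Real

noncomputable section

/-! ### comparison of product integrals -/

theorem l2b_lintegral_cons (p : Measure ℝ) [SigmaFinite p] (m : ℕ)
    (F : (Fin (m + 1) → ℝ) → ℝ≥0∞) (hF : Measurable F) :
    ∫⁻ x : Fin (m + 1) → ℝ, F x ∂(Measure.pi fun _ => p) =
      ∫⁻ a, ∫⁻ x : Fin m → ℝ, F (Fin.cons a x) ∂(Measure.pi fun _ => p) ∂p := by
  have mp := (measurePreserving_piFinSuccAbove (n := m) (fun _ => p) 0).symm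
  rw [← mp.lintegral_comp hF, lintegral_prod]
  · refine lintegral_congr fun a => lintegral_congr fun x => ?_
    congr 1
    funext i
    refine Fin.cases ?_ (fun j => ?_) i
    · simp [MeasurableEquiv.piFinSuccAbove]
    · simp [MeasurableEquiv.piFinSuccAbove]
  · exact (hF.comp (MeasurableEquiv.measurable _)).aemeasurable

theorem l2b_measurable_cons (m : ℕ) :
    Measurable fun z : ℝ × (Fin m → ℝ) => (Fin.cons z.1 z.2 : Fin (m + 1) → ℝ) := by
  rw [measurable_pi_iff]
  intro i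
  refine Fin.cases ?_ (fun j => ?_) i
  · simp only [Fin.cons_zero]; exact measurable_fst
  · simp only [Fin.cons_succ]; exact (measurable_pi_apply j).comp measurable_snd

theorem l2b_compare (p μ : Measure ℝ) [SigmaFinite p] [SigmaFinite μ] (w : ℝ → ℝ≥0∞)
    (hw : Measurable w) (y : ℝ → ℝ) (hy : Measurable y) (C : ℝ≥0∞)
    (H : ∀ g : ℝ → ℝ≥0∞, Measurable g → ∫⁻ x, w x * g (y x) ∂p ≤ C * ∫⁻ x, g x ∂μ) (m : ℕ) :
    ∀ G : (Fin m → ℝ) → ℝ≥0∞, Measurable G →
      ∫⁻ x : Fin m → ℝ, (∏ i, w (x i)) * G (fun i => y (x i)) ∂(Measure.pi fun _ => p) ≤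
        C ^ m * ∫⁻ x, G x ∂(Measure.pi fun _ => μ) := by
  induction m with
  | zero =>
    intro G hG
    simp only [Measure.pi_of_empty (x := fun i : Fin 0 => (isEmptyElim i : ℝ)),
      Finset.univ_eq_empty, Finset.prod_empty, one_mul, pow_zero]
    rw [lintegral_dirac, lintegral_dirac]
    apply le_of_eq
    congr 1
    exact Subsingleton.elim _ _
  | succ m ih =>
    intro G hG
    have hmeas1 : Measurable fun x : Fin (m + 1) → ℝ => (∏ i, w (x i)) * G (fun i => y (x i)) := by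
      apply Measurable.mul
      · apply Finset.measurable_prod
        intro i _
        exact hw.comp (measurable_pi_apply i)
      · apply hG.comp
        rw [measurable_pi_iff]
        intro i
        exact hy.comp (measurable_pi_apply i)
    rw [l2b_lintegral_cons p m _ hmeas1, l2b_lintegral_cons μ m _ hG]
    have hGc : ∀ a : ℝ, Measurable fun x : Fin m → ℝ => G (Fin.cons a x) := by
      intro a
      exact hG.comp ((l2b_measurable_cons m).comp (measurable_const.prodMk measurable_id))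
    have hinner : ∀ a : ℝ, ∫⁻ x : Fin m → ℝ,
        (∏ i, w ((Fin.cons a x : Fin (m + 1) → ℝ) i)) *
          G (fun i => y ((Fin.cons a x : Fin (m + 1) → ℝ) i)) ∂(Measure.pi fun _ => p) ≤
        w a * (C ^ m * ∫⁻ x, G (Fin.cons (y a) x) ∂(Measure.pi fun _ => μ)) := by
      intro a
      have e1 : ∀ x : Fin m → ℝ, (∏ i, w ((Fin.cons a x : Fin (m + 1) → ℝ) i)) *
          G (fun i => y ((Fin.cons a x : Fin (m + 1) → ℝ) i)) =
          w a * ((∏ i, w (x i)) * (fun x' : Fin m → ℝ => G (Fin.cons (y a) x'))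
            (fun i => y (x i))) := by
        intro x
        rw [Fin.prod_univ_succ]
        simp only [Fin.cons_zero, Fin.cons_succ]
        rw [mul_assoc]
        congr 3
        funext i
        refine Fin.cases ?_ (fun j => ?_) i
        · simp
        · simp
      simp_rw [e1]
      rw [lintegral_const_mul]
      · exact mul_le_mul_right (ih (fun x' => G (Fin.cons (y a) x')) (hGc (y a))) _
      · apply Measurable.mul
        · apply Finset.measurable_prod
          intro i _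
          exact hw.comp (measurable_pi_apply i)
        · apply (hGc (y a)).comp
          rw [measurable_pi_iff]
          intro i
          exact hy.comp (measurable_pi_apply i)
    have hgm : Measurable fun b : ℝ => ∫⁻ x : Fin m → ℝ, G (Fin.cons b x)
        ∂(Measure.pi fun _ => μ) := by
      have h2 : Measurable (Function.uncurry fun (b : ℝ) (x : Fin m → ℝ) =>
          G (Fin.cons b x)) := hG.comp (l2b_measurable_cons m)
      exact h2.lintegral_prod_right
    calc _ ≤ ∫⁻ a, w a * (C ^ m * ∫⁻ x, G (Fin.cons (y a) x) ∂(Measure.pi fun _ => μ)) ∂p :=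
          lintegral_mono hinner
      _ ≤ C * ∫⁻ b, (C ^ m * ∫⁻ x, G (Fin.cons b x) ∂(Measure.pi fun _ => μ)) ∂μ :=
          H (fun b => C ^ m * ∫⁻ x, G (Fin.cons b x) ∂(Measure.pi fun _ => μ))
            (hgm.const_mul _)
      _ = C ^ (m + 1) * ∫⁻ b, ∫⁻ x, G (Fin.cons b x) ∂(Measure.pi fun _ => μ) ∂μ := by
          rw [lintegral_const_mul _ hgm, pow_succ', mul_assoc]

/-! ### Jensen for a one species gas -/

theorem l2b_card (m : ℕ) : ∑ i : Fin m, ((Finset.Ioi i).card : ℝ) = (m : ℝ) * (m - 1) / 2 := by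
  have h1 : ∀ i : Fin m, ((Finset.Ioi i).card : ℝ) = (m : ℝ) - 1 - (i : ℕ) := by
    intro i
    rw [Fin.card_Ioi]
    have := i.2
    rw [Nat.cast_sub (by omega), Nat.cast_sub (by omega)]
    push_cast
    ring
  simp_rw [h1]
  rw [Fin.sum_univ_eq_sum_range (fun i => (m : ℝ) - 1 - (i : ℕ)) m]
  induction m with
  | zero => simp
  | succ m ih =>
    rw [Finset.sum_sub_distrib] at *
    have h2 : ∑ i ∈ Finset.range (m + 1), (i : ℝ) = ∑ i ∈ Finset.range m, (i : ℝ) + m :=
      Finset.sum_range_succ _ _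
    have h3 : ∑ i ∈ Finset.range m, (i : ℝ) = (m : ℝ) * (m - 1) / 2 := by
      simp only [Finset.sum_const, Finset.card_range, nsmul_eq_mul] at ih
      have := ih (fun i => by
        rw [Fin.card_Ioi]
        have := i.2
        rw [Nat.cast_sub (by omega), Nat.cast_sub (by omega)]
        push_cast
        ring)
      linarith
    rw [h2, h3]
    simp only [Finset.sum_const, Finset.card_range, nsmul_eq_mul]
    push_cast
    ring

theorem l2b_diag (p : Measure ℝ) [IsProbabilityMeasure p] (hat : ∀ x, p {x} = 0) {m : ℕ}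
    (i j : Fin m) (hij : i ≠ j) : ∀ᵐ x : Fin m → ℝ ∂(Measure.pi fun _ => p), x i ≠ x j := by
  have hdm : MeasurableSet {z : ℝ × ℝ | z.1 = z.2} :=
    measurableSet_eq_fun measurable_fst measurable_snd
  have hd0 : (p.prod p) {z : ℝ × ℝ | z.1 = z.2} = 0 := by
    rw [Measure.measure_prod_null hdm]
    refine ae_of_all _ fun x => ?_
    have : Prod.mk x ⁻¹' {z : ℝ × ℝ | z.1 = z.2} = {x} := by
      ext y
      simp [eq_comm]
    change p (Prod.mk x ⁻¹' {z : ℝ × ℝ | z.1 = z.2}) = 0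
    rw [this]
    exact hat x
  have hint : Integrable ({z : ℝ × ℝ | z.1 = z.2}.indicator fun _ => (1 : ℝ)) (p.prod p) :=
    (integrable_const (1 : ℝ)).indicator hdm
  obtain ⟨h1, h2⟩ := pi_integral_two p i j hij _ hint
  rw [integral_indicator hdm, setIntegral_measure_zero _ hd0] at h2
  rw [integral_eq_zero_iff_of_nonneg (fun x => indicator_nonneg (fun _ _ => zero_le_one) _) h1]
    at h2
  filter_upwards [h2] with x hx he
  have : (x i, x j) ∈ {z : ℝ × ℝ | z.1 = z.2} := he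
  simp only [indicator_of_mem this] at hx
  exact one_ne_zero hx

theorem l2b_measurable_vd (m : ℕ) : Measurable fun x : Fin m → ℝ => vd x := by
  unfold vd
  apply Finset.measurable_prod
  intro i _
  apply Finset.measurable_prod
  intro j _
  exact (measurable_pi_apply j).sub (measurable_pi_apply i)

theorem l2b_gas (p : Measure ℝ) [IsProbabilityMeasure p] (hat : ∀ x, p {x} = 0)
    (hlog : Integrable (fun z : ℝ × ℝ => Real.log |z.1 - z.2|) (p.prod p)) (q : ℝ → ℝ)
    (hq : Integrable q p) (m : ℕ) :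
    ENNReal.ofReal (Real.exp ((m : ℝ) * (m - 1) *
      (∫ z : ℝ × ℝ, Real.log |z.1 - z.2| ∂(p.prod p)) + m * ∫ x, q x ∂p)) ≤
    ∫⁻ x : Fin m → ℝ, ENNReal.ofReal (vd x ^ 2 * ∏ i, Real.exp (q (x i)))
      ∂(Measure.pi fun _ => p) := by
  have hdist : ∀ᵐ x : Fin m → ℝ ∂(Measure.pi fun _ => p), ∀ i j : Fin m, i ≠ j → x i ≠ x j := by
    rw [ae_all_iff]
    intro i
    rw [ae_all_iff]
    intro j
    by_cases hij : i = j
    · exact ae_of_all _ fun x h => absurd hij h
    · filter_upwards [l2b_diag p hat i j hij] with x hx _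
      exact hx
  set S : (Fin m → ℝ) → ℝ := fun x => (∑ i : Fin m, ∑ j ∈ Finset.Ioi i,
    2 * Real.log |x i - x j|) + ∑ i, q (x i) with hS
  have hlogF : ∀ᵐ x : Fin m → ℝ ∂(Measure.pi fun _ => p),
      0 < vd x ^ 2 * ∏ i, Real.exp (q (x i)) ∧
      Real.log (vd x ^ 2 * ∏ i, Real.exp (q (x i))) = S x := by
    filter_upwards [hdist] with x hx
    have hvd : vd x ≠ 0 := by
      unfold vd
      rw [Finset.prod_ne_zero_iff]
      intro i _
      rw [Finset.prod_ne_zero_iff]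
      intro j hj
      have : i < j := Finset.mem_Ioi.1 hj
      exact sub_ne_zero.2 (hx j i this.ne')
    have hpr : (∏ i, Real.exp (q (x i))) = Real.exp (∑ i, q (x i)) := (Real.exp_sum _ _).symm
    refine ⟨by positivity, ?_⟩
    rw [hpr, Real.log_mul (by positivity) (Real.exp_pos _).ne', Real.log_exp, Real.log_pow, hS]
    congr 1
    have hl : Real.log (vd x) = ∑ i : Fin m, ∑ j ∈ Finset.Ioi i, Real.log |x i - x j| := by
      unfold vd
      rw [Real.log_prod]
      · apply Finset.sum_congr rfl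
        intro i _
        rw [Real.log_prod]
        · apply Finset.sum_congr rfl
          intro j _
          rw [abs_sub_comm, Real.log_abs]
        · intro j hj
          have : i < j := Finset.mem_Ioi.1 hj
          exact sub_ne_zero.2 (hx j i this.ne')
      · intro i _
        rw [Finset.prod_ne_zero_iff]
        intro j hj
        have : i < j := Finset.mem_Ioi.1 hj
        exact sub_ne_zero.2 (hx j i this.ne')
    rw [hl, Finset.mul_sum]
    push_cast
    apply Finset.sum_congr rfl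
    intro i _
    rw [Finset.mul_sum]
  have hpair : ∀ i : Fin m, ∀ j ∈ Finset.Ioi i,
      Integrable (fun x : Fin m → ℝ => 2 * Real.log |x i - x j|) (Measure.pi fun _ => p) ∧
      ∫ x : Fin m → ℝ, 2 * Real.log |x i - x j| ∂(Measure.pi fun _ => p) =
        2 * ∫ z : ℝ × ℝ, Real.log |z.1 - z.2| ∂(p.prod p) := by
    intro i j hj
    have hij : i ≠ j := (Finset.mem_Ioi.1 hj).ne
    obtain ⟨h1, h2⟩ := pi_integral_two p i j hij _ hlog
    exact ⟨h1.const_mul 2, by rw [integral_const_mul, h2]⟩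
  have hsingle : ∀ i : Fin m, Integrable (fun x : Fin m → ℝ => q (x i)) (Measure.pi fun _ => p) ∧
      ∫ x : Fin m → ℝ, q (x i) ∂(Measure.pi fun _ => p) = ∫ x, q x ∂p :=
    fun i => pi_integral_one p i q hq
  have hI1 : Integrable (fun x : Fin m → ℝ => ∑ i : Fin m, ∑ j ∈ Finset.Ioi i,
      2 * Real.log |x i - x j|) (Measure.pi fun _ => p) := by
    apply integrable_finsetSum
    intro i _
    apply integrable_finsetSum
    intro j hj
    exact (hpair i j hj).1
  have hI2 : Integrable (fun x : Fin m → ℝ => ∑ i : Fin m, q (x i)) (Measure.pi fun _ => p) := by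
    apply integrable_finsetSum
    intro i _
    exact (hsingle i).1
  have hIS : Integrable S (Measure.pi fun _ => p) := hI1.add hI2
  have hval : ∫ x, S x ∂(Measure.pi fun _ => p) = (m : ℝ) * (m - 1) *
      (∫ z : ℝ × ℝ, Real.log |z.1 - z.2| ∂(p.prod p)) + m * ∫ x, q x ∂p := by
    rw [hS, integral_add hI1 hI2, integral_finsetSum _ (fun i _ => integrable_finsetSum _
      fun j hj => (hpair i j hj).1), integral_finsetSum _ (fun i _ => (hsingle i).1)]
    congr 1
    · have e1 : ∀ i : Fin m, ∫ x : Fin m → ℝ, ∑ j ∈ Finset.Ioi i, 2 * Real.log |x i - x j|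
          ∂(Measure.pi fun _ => p) = ((Finset.Ioi i).card : ℝ) *
            (2 * ∫ z : ℝ × ℝ, Real.log |z.1 - z.2| ∂(p.prod p)) := by
        intro i
        rw [integral_finsetSum _ (fun j hj => (hpair i j hj).1),
          Finset.sum_congr rfl (fun j hj => (hpair i j hj).2), Finset.sum_const, nsmul_eq_mul]
      rw [Finset.sum_congr rfl (fun i _ => e1 i), ← Finset.sum_mul, l2b_card]
      ring
    · rw [Finset.sum_congr rfl (fun i _ => (hsingle i).2), Finset.sum_const, nsmul_eq_mul]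
      simp
  have hlogae : (fun x : Fin m → ℝ => Real.log (vd x ^ 2 * ∏ i, Real.exp (q (x i))))
      =ᵐ[Measure.pi fun _ => p] S := by
    filter_upwards [hlogF] with x hx using hx.2
  have := jensen_lintegral (Measure.pi fun _ : Fin m => p)
    (fun x => vd x ^ 2 * ∏ i, Real.exp (q (x i)))
    (by filter_upwards [hlogF] with x hx using hx.1) (hIS.congr hlogae.symm)
  rwa [integral_congr_ae hlogae, hval] at this

/-! ### measures with bounded density on an interval -/

theorem l2b_log_integrable (lo hi : ℝ) : Integrable (fun z : ℝ × ℝ => Real.log |z.1 - z.2|)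
    ((volume.restrict (Icc lo hi)).prod (volume.restrict (Icc lo hi))) := by
  rw [Measure.prod_restrict]
  set R : ℝ := |hi - lo| with hR
  have hg : Integrable ((Icc (-R) R).indicator Real.log) volume := by
    rw [integrable_indicator_iff measurableSet_Icc]
    have h1 : IntervalIntegrable Real.log volume (-R) R := intervalIntegral.intervalIntegrable_log'
    have hR0 : 0 ≤ R := abs_nonneg _
    rw [intervalIntegrable_iff_integrableOn_Icc_of_le (by linarith)] at h1
    exact h1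
  have hf : Integrable ((Icc lo hi).indicator fun _ => (1 : ℝ)) volume := by
    rw [integrable_indicator_iff measurableSet_Icc]
    exact integrableOn_const (by simp)
  have key := Integrable.convolution_integrand (ContinuousLinearMap.mul ℝ ℝ) (μ := volume) hf hg
  refine IntegrableOn.congr_fun key.integrableOn ?_ (measurableSet_Icc.prod measurableSet_Icc)
  rintro ⟨x, y⟩ ⟨hx, hy⟩
  change (ContinuousLinearMap.mul ℝ ℝ) ((Icc lo hi).indicator (fun _ => (1 : ℝ)) y)
    ((Icc (-R) R).indicator Real.log (x - y)) = Real.log |x - y|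
  have hy' : y ∈ Icc lo hi := hy
  have hx' : x ∈ Icc lo hi := hx
  have hxy : x - y ∈ Icc (-R) R := by
    have h1 : hi - lo ≤ R := le_abs_self _
    constructor
    · linarith [hx'.1, hy'.2]
    · linarith [hx'.2, hy'.1]
  rw [indicator_of_mem hy', indicator_of_mem hxy, Real.log_abs]
  simp

theorem l2b_bdd {μ : Measure ℝ} {C : ℝ≥0∞} (hC : C ≠ ⊤) {lo hi : ℝ}
    (h : μ ≤ C • volume.restrict (Icc lo hi)) :
    IsFiniteMeasure μ ∧ (∀ x, μ {x} = 0) ∧ μ (Icc lo hi)ᶜ = 0 ∧
      Integrable (fun z : ℝ × ℝ => Real.log |z.1 - z.2|) (μ.prod μ) := by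
  have hfin : IsFiniteMeasure μ := by
    refine ⟨lt_of_le_of_lt (h univ) ?_⟩
    rw [Measure.smul_apply, smul_eq_mul, Measure.restrict_apply_univ, Real.volume_Icc]
    exact ENNReal.mul_lt_top hC.lt_top ENNReal.ofReal_lt_top
  refine ⟨hfin, fun x => ?_, ?_, ?_⟩
  · have h1 := h {x}
    have h2 : (C • volume.restrict (Icc lo hi)) {x} = 0 := by
      rw [Measure.smul_apply, smul_eq_mul]
      have : (volume.restrict (Icc lo hi)) {x} = 0 := measure_singleton x
      rw [this, mul_zero]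
    exact le_antisymm (h1.trans h2.le) zero_le
  · have h1 := h (Icc lo hi)ᶜ
    have h2 : (C • volume.restrict (Icc lo hi)) (Icc lo hi)ᶜ = 0 := by
      rw [Measure.smul_apply, smul_eq_mul, Measure.restrict_apply measurableSet_Icc.compl]
      simp
    exact le_antisymm (h1.trans h2.le) zero_le
  · have h1 : μ.prod μ ≤ (C • volume.restrict (Icc lo hi)).prod
        (C • volume.restrict (Icc lo hi)) := by
      exact Measure.prod_mono h h
    refine Integrable.mono_measure ?_ h1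
    rw [Measure.prod_smul_left, Measure.prod_smul_right]
    exact ((l2b_log_integrable lo hi).smul_measure hC).smul_measure hC

theorem l2b_integrable {μ : Measure ℝ} [IsFiniteMeasure μ] {lo hi : ℝ}
    (h : μ (Icc lo hi)ᶜ = 0) {q : ℝ → ℝ} (hq : ContinuousOn q (Icc lo hi)) : Integrable q μ := by
  have h1 : μ.restrict (Icc lo hi) = μ := by
    apply Measure.restrict_eq_self_of_ae_mem
    exact (measure_eq_zero_iff_ae_notMem.1 h).mono fun x hx => not_not.1 hx
  have h2 : IntegrableOn q (Icc lo hi) μ := hq.integrableOn_compact isCompact_Icc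
  rwa [IntegrableOn, h1] at h2

/-! ### facts on nice triples -/

theorem l2b_dens {r : ℝ → ℝ} {K lo hi : ℝ} (hr : ∀ x, r x ≤ K)
    (hsupp : ∀ x, x ∉ Icc lo hi → r x = 0) (g : ℝ → ℝ≥0∞) (hrm : Measurable r) :
    ∫⁻ x, g x ∂(volume.withDensity fun x => ENNReal.ofReal (r x)) ≤
      ENNReal.ofReal K * ∫⁻ x in Icc lo hi, g x := by
  calc ∫⁻ x, g x ∂(volume.withDensity fun x => ENNReal.ofReal (r x))
      ≤ ∫⁻ x, (fun x => ENNReal.ofReal (r x)) x * g x := by
        refine (lintegral_withDensity_le_lintegral_mul volume (by fun_prop) g)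
    _ ≤ ∫⁻ x, (Icc lo hi).indicator (fun x => ENNReal.ofReal K * g x) x := by
        apply lintegral_mono
        intro x
        by_cases hx : x ∈ Icc lo hi
        · rw [indicator_of_mem hx]
          exact mul_le_mul_left (ENNReal.ofReal_le_ofReal (hr x)) _
        · change ENNReal.ofReal (r x) * g x ≤ _
          rw [indicator_of_notMem hx, hsupp x hx, ENNReal.ofReal_zero, zero_mul]
    _ = ENNReal.ofReal K * ∫⁻ x in Icc lo hi, g x := by
        rw [lintegral_indicator measurableSet_Icc, lintegral_const_mul' _ _ ENNReal.ofReal_ne_top]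

theorem l2b_le_of_lintegral {μ ν : Measure ℝ}
    (h : ∀ g : ℝ → ℝ≥0∞, Measurable g → ∫⁻ x, g x ∂μ ≤ ∫⁻ x, g x ∂ν) : μ ≤ ν := by
  rw [Measure.le_iff]
  intro s hs
  have := h (s.indicator 1) (measurable_one.indicator hs)
  rwa [lintegral_indicator_one hs, lintegral_indicator_one hs] at this

theorem l2b_dens_le {r : ℝ → ℝ} {K lo hi : ℝ} (hr : ∀ x, r x ≤ K)
    (hsupp : ∀ x, x ∉ Icc lo hi → r x = 0) (hrm : Measurable r) :
    (volume.withDensity fun x => ENNReal.ofReal (r x)) ≤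
      ENNReal.ofReal K • volume.restrict (Icc lo hi) := by
  apply l2b_le_of_lintegral
  intro g _
  rw [lintegral_smul_measure]
  exact l2b_dens hr hsupp g hrm

theorem l2b_b_le {α τ : ℝ} (hτ : 0 < τ) {lo hi : ℝ} (hlo : 0 < lo) {θ : ℝ → ℝ}
    (bθ : ∀ x, θ x ≤ 1) (supp : ∀ x, x ∉ Icc lo hi → θ x = 0) :
    ∃ C : ℝ≥0∞, C ≠ ⊤ ∧ ((sigI α τ).withDensity fun x => ENNReal.ofReal (θ x)) ≤
      C • volume.restrict (Icc lo hi) := by
  obtain ⟨C, hC, hb⟩ := rr_bound (α := α) hτ
  set D : ℝ := τ / π * (C * (1 + √hi) ^ (1 / 3 : ℝ)) / (2 * √lo) with hD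
  refine ⟨ENNReal.ofReal D, ENNReal.ofReal_ne_top, ?_⟩
  rw [Measure.le_iff]
  intro s hs
  rw [withDensity_apply _ hs]
  have h1 : ∫⁻ x in s, ENNReal.ofReal (θ x) ∂(sigI α τ) ≤
      ∫⁻ x in s, (Icc lo hi).indicator 1 x ∂(sigI α τ) := by
    apply lintegral_mono
    intro x
    by_cases hx : x ∈ Icc lo hi
    · rw [indicator_of_mem hx]
      change ENNReal.ofReal (θ x) ≤ 1
      rw [← ENNReal.ofReal_one]
      exact ENNReal.ofReal_le_ofReal (bθ x)
    · rw [indicator_of_notMem hx]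
      change ENNReal.ofReal (θ x) ≤ 0
      rw [supp x hx, ENNReal.ofReal_zero]
  refine h1.trans ?_
  rw [lintegral_indicator_one measurableSet_Icc, Measure.restrict_apply measurableSet_Icc,
    Measure.smul_apply, smul_eq_mul, Measure.restrict_apply hs, sigI_eq hτ,
    withDensity_apply _ (measurableSet_Icc.inter hs), inter_comm s]
  calc ∫⁻ t in Icc lo hi ∩ s, ENNReal.ofReal (dI α τ t) ∂(volume.restrict (Ioi (0 : ℝ)))
      ≤ ∫⁻ t in Icc lo hi ∩ s, ENNReal.ofReal D ∂(volume.restrict (Ioi (0 : ℝ))) := by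
        apply setLIntegral_mono' (measurableSet_Icc.inter hs)
        intro t ht
        apply ENNReal.ofReal_le_ofReal
        have ht' := ht.1
        have hs1 : √lo ≤ √t := Real.sqrt_le_sqrt ht'.1
        have hs2 : √t ≤ √hi := Real.sqrt_le_sqrt ht'.2
        have hs0 : 0 < √lo := Real.sqrt_pos.2 hlo
        have hrr : rr α τ (√t * Complex.I) ≤ C * (1 + √hi) ^ (1 / 3 : ℝ) := by
          refine (hb _).trans ?_
          apply mul_le_mul_of_nonneg_left _ hC.le
          apply Real.rpow_le_rpow (by positivity) _ (by norm_num)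
          have : ‖((√t : ℝ) : ℂ) * Complex.I‖ = √t := by
            rw [norm_mul, Complex.norm_I, mul_one, Complex.norm_real, Real.norm_eq_abs,
              abs_of_nonneg (Real.sqrt_nonneg _)]
          rw [this]
          linarith
        unfold dI
        rw [hD]
        have hrr0 := rr_nonneg (α := α) (τ := τ) (√t * Complex.I)
        gcongr
    _ = ENNReal.ofReal D * (volume.restrict (Ioi (0 : ℝ))) (Icc lo hi ∩ s) := by
        rw [setLIntegral_const]
    _ ≤ ENNReal.ofReal D * volume (Icc lo hi ∩ s) := by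
        gcongr
        exact Measure.restrict_le_self

theorem l2b_sqrt_compare {lo hi : ℝ} (hlo : 0 < lo) (g : ℝ → ℝ≥0∞) :
    ∫⁻ x in Icc lo hi, g (√x) ≤ ENNReal.ofReal (2 * √hi) * ∫⁻ x in Ioi (0 : ℝ), g x := by
  have himg : (fun x : ℝ => x ^ 2) '' (Icc (√lo) (√hi)) ⊇ Icc lo hi := by
    intro x hx
    refine ⟨√x, ⟨Real.sqrt_le_sqrt hx.1, Real.sqrt_le_sqrt hx.2⟩, ?_⟩
    exact Real.sq_sqrt (hlo.le.trans hx.1)
  have hs0 : 0 < √lo := Real.sqrt_pos.2 hlo
  calc ∫⁻ x in Icc lo hi, g (√x) ≤ ∫⁻ x in (fun x : ℝ => x ^ 2) '' (Icc (√lo) (√hi)), g (√x) :=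
        lintegral_mono_set himg
    _ = ∫⁻ x in Icc (√lo) (√hi), ENNReal.ofReal |2 * x| * g (√(x ^ 2)) := by
        rw [lintegral_image_eq_lintegral_abs_deriv_mul measurableSet_Icc
          (f := fun x : ℝ => x ^ 2) (f' := fun x : ℝ => 2 * x)]
        · intro x _
          have := (hasDerivAt_pow 2 x).hasDerivWithinAt (s := Icc (√lo) (√hi))
          simpa using this
        · intro x hx y hy hxy
          have hx0 : 0 ≤ x := hs0.le.trans hx.1
          have hy0 : 0 ≤ y := hs0.le.trans hy.1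
          exact (sq_eq_sq₀ hx0 hy0).1 hxy
    _ ≤ ∫⁻ x in Icc (√lo) (√hi), ENNReal.ofReal (2 * √hi) * g x := by
        apply setLIntegral_mono' measurableSet_Icc
        intro x hx
        have hx0 : 0 ≤ x := hs0.le.trans hx.1
        rw [Real.sqrt_sq hx0, abs_of_nonneg (by positivity)]
        gcongr
        exact hx.2
    _ = ENNReal.ofReal (2 * √hi) * ∫⁻ x in Icc (√lo) (√hi), g x :=
        lintegral_const_mul' _ _ ENNReal.ofReal_ne_top
    _ ≤ ENNReal.ofReal (2 * √hi) * ∫⁻ x in Ioi (0 : ℝ), g x := by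
        gcongr
        intro x hx
        exact hs0.trans_le hx.1

theorem l2b_rhoD_measurable {N α τ : ℝ} (hN : 0 < N) : Measurable fun v => rhoD N α τ v := by
  have h1 : Continuous (fj N α τ 0) :=
    continuous_iff_continuousAt.2 fun x => (fj_hasDerivAt hN 0 x).continuousAt
  have h2 : Continuous (Aj N α τ 0) :=
    continuous_iff_continuousAt.2 fun x => (Aj_hasDerivAt hN 0 x).continuousAt
  have h3 : Continuous fun v : ℝ => (fj N α τ 0 ((√v : ℝ) : ℂ)).re := by fun_prop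
  have h4 : Continuous fun v : ℝ => Complex.normSq (Aj N α τ 0 (((√v : ℝ) : ℂ) * Complex.I)) :=
    Complex.continuous_normSq.comp (h2.comp (by fun_prop))
  unfold rhoD
  exact (measurable_const.mul h3.measurable).div
    (((by fun_prop : Continuous fun v : ℝ => 2 * π * √v).mul h4).measurable)

theorem l2b_rho_compare {N α τ : ℝ} (hN : 0 < N) {lo hi : ℝ} (hlo : 0 < lo) (w : ℝ → ℝ)
    (hw : ∀ v ∈ Icc lo hi, w v ≤ rhoD N α τ v) (g : ℝ → ℝ≥0∞) (hg : Measurable g) :
    ∫⁻ x in Icc lo hi, ENNReal.ofReal (w x) * g x ≤ ∫⁻ x, g x ∂(rhoM N α τ) := by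
  unfold rhoM
  have hm : Measurable fun v => ENNReal.ofReal (rhoD N α τ v) :=
    (l2b_rhoD_measurable hN).ennreal_ofReal
  rw [lintegral_withDensity_eq_lintegral_mul _ hm hg]
  calc ∫⁻ x in Icc lo hi, ENNReal.ofReal (w x) * g x
      ≤ ∫⁻ x in Icc lo hi, ENNReal.ofReal (rhoD N α τ x) * g x := by
        apply setLIntegral_mono' measurableSet_Icc
        intro x hx
        gcongr
        exact hw x hx
    _ ≤ ∫⁻ x in Ioi (0 : ℝ), ENNReal.ofReal (rhoD N α τ x) * g x := by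
        apply lintegral_mono_set
        intro x hx
        exact hlo.trans_le hx.1
    _ = _ := rfl

theorem l2b_sigmaFinite {N α τ : ℝ} : SigmaFinite (rhoM N α τ) := by
  unfold rhoM
  infer_instance

/-! ### the two factors of the block integral -/

/-- logarithmic weight of the first species -/
def l2bqx (α τ : ℝ) (V : ℝ → ℝ) (ε n : ℕ) (c₁ : ℝ) {k : ℕ} (s : Fin k → ℝ) (ξ : ℝ) : ℝ :=
  (1 - (ε : ℝ)) * Real.log ξ + Real.log (c₁ / n) - n * U1 α τ V ξ - ∑ j, Real.log (ξ + s j)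

/-- logarithmic weight of the third species -/
def l2bqv (α τ : ℝ) (ε n : ℕ) (δ : ℝ) {k : ℕ} (s : Fin k → ℝ) (v : ℝ) : ℝ :=
  (1 - (ε : ℝ)) * Real.log v - n * (U3 α τ v + δ) - ∑ j, Real.log (s j + v)

/-- the `x`-factor -/
def l2bX (α τ : ℝ) (V : ℝ → ℝ) (ε n : ℕ) {m k : ℕ} (s : Fin k → ℝ) (x : Fin m → ℝ) : ℝ :=
  vd (fun i => x i ^ 2) ^ 2 * (∏ i, (x i ^ (2 * (1 - ε)) * (fj n α τ 0 (x i : ℝ)).re *
    Real.exp (-(n * V (x i))))) / ∏ i, ∏ j, (x i ^ 2 + s j)

/-- the `v`-factor -/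
def l2bY (ε : ℕ) {k l : ℕ} (s : Fin k → ℝ) (v : Fin l → ℝ) : ℝ :=
  vd v ^ 2 * (∏ i, v i ^ (1 - ε)) / ∏ i, ∏ j, (s i + v j)

theorem l2b_pow_eps (ε : ℕ) (hε : ε = 0 ∨ ε = 1) (v : ℝ) (hv : 0 < v) :
    Real.exp ((1 - (ε : ℝ)) * Real.log v) = v ^ (1 - ε) := by
  rcases hε with rfl | rfl
  · simp [Real.exp_log hv]
  · simp

theorem l2b_X_lower {α τ : ℝ} {V : ℝ → ℝ} {ε n m k : ℕ} (hε : ε = 0 ∨ ε = 1) (hn : 0 < n)
    {c₀ hi : ℝ} (hc₀ : 0 < c₀)
    (hf : ∀ x : ℝ, c₀ / (n * (1 + |x|)) * Real.exp (n * gg α τ x) ≤ (fj n α τ 0 x).re)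
    (s : Fin k → ℝ) (hs : ∀ j, 0 < s j) (ξ : Fin m → ℝ) (hξ : ∀ i, 0 < ξ i ∧ ξ i ≤ hi) :
    vd ξ ^ 2 * ∏ i, Real.exp (l2bqx α τ V ε n (c₀ / (1 + √hi)) s (ξ i)) ≤
      l2bX α τ V ε n s (fun i => √(ξ i)) := by
  have hn' : (0 : ℝ) < n := Nat.cast_pos.2 hn
  have hsq : ∀ i, √(ξ i) ^ 2 = ξ i := fun i => Real.sq_sqrt (hξ i).1.le
  unfold l2bX
  simp only [hsq]
  rw [mul_div_assoc, ← Finset.prod_div_distrib]
  apply mul_le_mul_of_nonneg_left _ (sq_nonneg _)
  apply Finset.prod_le_prod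
  · intro i _
    positivity
  · intro i _
    obtain ⟨h0, h1⟩ := hξ i
    have hsx : √(ξ i) ≤ √hi := Real.sqrt_le_sqrt h1
    have hsx0 : 0 ≤ √(ξ i) := Real.sqrt_nonneg _
    have hprod : Real.exp (∑ j, Real.log (ξ i + s j)) = ∏ j, (ξ i + s j) := by
      rw [Real.exp_sum]
      apply Finset.prod_congr rfl
      intro j _
      exact Real.exp_log (by have := hs j; positivity)
    have e1 : Real.exp (l2bqx α τ V ε n (c₀ / (1 + √hi)) s (ξ i)) =
        (ξ i) ^ (1 - ε) * (c₀ / (1 + √hi) / n) * Real.exp (n * gg α τ (√(ξ i))) *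
          Real.exp (-(n * V (√(ξ i)))) / ∏ j, (ξ i + s j) := by
      unfold l2bqx
      rw [Real.exp_sub, hprod, sub_eq_add_neg, Real.exp_add, Real.exp_add,
        l2b_pow_eps ε hε _ h0, Real.exp_log (by positivity)]
      have : -(n * U1 α τ V (ξ i)) = n * gg α τ (√(ξ i)) + -(n * V (√(ξ i))) := by
        unfold U1
        ring
      rw [this, Real.exp_add]
      ring
    rw [e1]
    have hpp : 0 < ∏ j, (ξ i + s j) := Finset.prod_pos fun j _ => by
      have := hs j
      positivity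
    rw [div_le_div_iff_of_pos_right hpp]
    apply mul_le_mul_of_nonneg_right _ (Real.exp_pos _).le
    have e2 : √(ξ i) ^ (2 * (1 - ε)) = ξ i ^ (1 - ε) := by rw [pow_mul, hsq]
    rw [e2, mul_assoc]
    apply mul_le_mul_of_nonneg_left _ (by positivity)
    refine le_trans ?_ (hf _)
    apply mul_le_mul_of_nonneg_right _ (Real.exp_pos _).le
    rw [abs_of_nonneg hsx0, div_div, mul_comm (1 + √hi)]
    gcongr

theorem l2b_Y_eq {α τ : ℝ} {ε n l k : ℕ} (hε : ε = 0 ∨ ε = 1) (δ : ℝ) (s : Fin k → ℝ)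
    (hs : ∀ j, 0 < s j) (v : Fin l → ℝ) (hv : ∀ i, 0 < v i) :
    vd v ^ 2 * ∏ i, Real.exp (l2bqv α τ ε n δ s (v i)) =
      (∏ i, Real.exp (-(n * (U3 α τ (v i) + δ)))) * l2bY ε s v := by
  unfold l2bY
  rw [Finset.prod_comm, mul_div_assoc, ← Finset.prod_div_distrib, mul_left_comm,
    ← Finset.prod_mul_distrib]
  congr 1
  apply Finset.prod_congr rfl
  intro i _
  have hprod : Real.exp (∑ j, Real.log (s j + v i)) = ∏ j, (s j + v i) := by
    rw [Real.exp_sum]
    apply Finset.prod_congr rfl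
    intro j _
    exact Real.exp_log (by have := hs j; have := hv i; positivity)
  unfold l2bqv
  rw [Real.exp_sub, hprod, sub_eq_add_neg, Real.exp_add, l2b_pow_eps ε hε _ (hv i)]
  ring

theorem l2b_X_nonneg {α τ : ℝ} {V : ℝ → ℝ} {ε n m k : ℕ} (hn : 0 < n) (s : Fin k → ℝ)
    (hs : ∀ j, 0 < s j) (x : Fin m → ℝ) : 0 ≤ l2bX α τ V ε n s x := by
  have hn' : (0 : ℝ) < n := Nat.cast_pos.2 hn
  unfold l2bX
  apply div_nonneg
  · apply mul_nonneg (sq_nonneg _)
    apply Finset.prod_nonneg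
    intro i _
    rw [pow_mul]
    have := fj_zero_pos (α := α) (τ := τ) hn' (x i)
    positivity
  · apply Finset.prod_nonneg
    intro i _
    apply Finset.prod_nonneg
    intro j _
    have := hs j
    positivity

theorem l2b_X_measurable {α τ : ℝ} {V : ℝ → ℝ} (hV : Continuous V) {ε n m k : ℕ} (hn : 0 < n)
    (s : Fin k → ℝ) : Measurable fun x : Fin m → ℝ => l2bX α τ V ε n s x := by
  have hn' : (0 : ℝ) < n := Nat.cast_pos.2 hn
  have h1 : Continuous (fj n α τ 0) :=
    continuous_iff_continuousAt.2 fun x => (fj_hasDerivAt hn' 0 x).continuousAt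
  unfold l2bX
  apply Measurable.div
  · apply Measurable.mul
    · apply Measurable.pow_const
      exact (l2b_measurable_vd m).comp (by fun_prop)
    · apply Finset.measurable_prod
      intro i _
      apply Continuous.measurable
      fun_prop
  · apply Continuous.measurable
    fun_prop

theorem l2b_Y_measurable {ε l k : ℕ} (s : Fin k → ℝ) :
    Measurable fun v : Fin l → ℝ => l2bY ε s v := by
  unfold l2bY
  apply Measurable.div
  · apply Measurable.mul
    · apply Measurable.pow_const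
      exact l2b_measurable_vd l
    · apply Continuous.measurable
      fun_prop
  · apply Continuous.measurable
    fun_prop

theorem l2b_BB {α τ : ℝ} {V : ℝ → ℝ} {ε n m k l : ℕ} (hn : 0 < n)
    (s : Fin k → ℝ) (hs : ∀ j, s j ∈ Zt n α τ) :
    ENNReal.ofReal (vd s ^ 2 * ∏ i, s i ^ ε) *
      (∫⁻ x : Fin m → ℝ, ENNReal.ofReal (l2bX α τ V ε n s x)
        ∂(Measure.pi fun _ => volume.restrict (Ioi (0 : ℝ)))) *
      (∫⁻ v : Fin l → ℝ, ENNReal.ofReal (l2bY ε s v) ∂(Measure.pi fun _ => rhoM n α τ)) ≤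
    BB n α τ ε m k l (fun x => Real.exp (-(n * V x))) := by
  have hs0 : ∀ j, 0 < s j := fun j => (hs j).1
  unfold BB
  refine le_trans (le_of_eq ?_) (ENNReal.le_tsum (fun i => ⟨s i, hs i⟩ : Fin k → Zt n α τ))
  rw [← lintegral_const_mul _ (l2b_Y_measurable s).ennreal_ofReal]
  apply lintegral_congr
  intro v
  rw [← lintegral_const_mul' _ _ ENNReal.ofReal_ne_top,
    ← lintegral_mul_const' _ _ ENNReal.ofReal_ne_top]
  apply lintegral_congr
  intro x
  have hX := l2b_X_nonneg (α := α) (τ := τ) (V := V) (ε := ε) hn s hs0 x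
  have hC : 0 ≤ vd s ^ 2 * ∏ i, s i ^ ε := by
    apply mul_nonneg (sq_nonneg _)
    exact Finset.prod_nonneg fun i _ => pow_nonneg (hs0 i).le _
  rw [← ENNReal.ofReal_mul hC, ← ENNReal.ofReal_mul (mul_nonneg hC hX)]
  congr 1
  unfold BI l2bX l2bY
  simp only
  generalize (∏ i, ∏ j, (x i ^ 2 + s j)) = d1
  generalize (∏ i, ∏ j, (s i + v j)) = d2
  generalize (∏ i, (x i ^ (2 * (1 - ε)) * (fj n α τ 0 (x i : ℝ)).re *
    Real.exp (-(n * V (x i))))) = d3
  rw [div_eq_mul_inv, div_eq_mul_inv, div_eq_mul_inv, mul_inv]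
  ring

/-- from the comparison inequality to the lower bound of one factor -/
theorem l2b_factor {E K : ℝ} (hK : 0 < K) (m : ℕ) {C I : ℝ≥0∞} (hC : C ≤ ENNReal.ofReal K)
    (h : ENNReal.ofReal (Real.exp E) ≤ C ^ m * I) :
    ENNReal.ofReal (Real.exp (E - m * Real.log K)) ≤ I := by
  have h1 : ENNReal.ofReal (Real.exp E) ≤ ENNReal.ofReal (K ^ m) * I := by
    refine h.trans ?_
    rw [ENNReal.ofReal_pow hK.le]
    gcongr
  have h2 : Real.exp (E - m * Real.log K) = (K ^ m)⁻¹ * Real.exp E := by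
    rw [Real.exp_sub, mul_comm (m : ℝ), Real.exp_mul, Real.exp_log hK, Real.rpow_natCast,
      div_eq_mul_inv, mul_comm]
  rw [h2, ENNReal.ofReal_mul (by positivity), ENNReal.ofReal_inv_of_pos (by positivity)]
  calc (ENNReal.ofReal (K ^ m))⁻¹ * ENNReal.ofReal (Real.exp E) ≤
      (ENNReal.ofReal (K ^ m))⁻¹ * (ENNReal.ofReal (K ^ m) * I) := by gcongr
    _ = I := by
      rw [← mul_assoc, ENNReal.inv_mul_cancel, one_mul]
      · exact (ENNReal.ofReal_pos.2 (by positivity)).ne'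
      · exact ENNReal.ofReal_ne_top

theorem l2b_sum_pairs {m : ℕ} (f : Fin m → Fin m → ℝ) (hf : ∀ i j, f i j = f j i) :
    ∑ i, ∑ j ∈ Finset.univ.erase i, f i j = 2 * ∑ i : Fin m, ∑ j ∈ Finset.Ioi i, f i j := by
  have h1 : ∀ i : Fin m, ∑ j ∈ Finset.univ.erase i, f i j =
      ∑ j, (if i < j then f i j else 0) + ∑ j, (if j < i then f i j else 0) := by
    intro i
    rw [← Finset.sum_add_distrib, ← Finset.sum_erase_add _ _ (Finset.mem_univ i)]
    simp only [lt_irrefl, if_false, add_zero]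
    apply Finset.sum_congr rfl
    intro j hj
    have hne : j ≠ i := Finset.ne_of_mem_erase hj
    rcases lt_or_gt_of_ne hne with h | h
    · simp [h, not_lt.2 h.le]
    · simp [h, not_lt.2 h.le]
  have h2 : ∀ i : Fin m, ∑ j ∈ Finset.Ioi i, f i j = ∑ j, (if i < j then f i j else 0) := by
    intro i
    have : Finset.Ioi i = Finset.univ.filter fun j => i < j := by
      ext j
      simp
    rw [this, Finset.sum_filter]
  simp_rw [h1, h2]
  rw [Finset.sum_add_distrib, two_mul]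
  congr 1
  rw [Finset.sum_comm]
  apply Finset.sum_congr rfl
  intro i _
  apply Finset.sum_congr rfl
  intro j _
  rw [hf j i]

theorem l2b_log_Ct {ε k : ℕ} (s : Fin k → ℝ) (hinj : Function.Injective s)
    (hs : ∀ j, 0 < s j) : 0 < vd s ^ 2 * ∏ i, s i ^ ε ∧
    Real.log (vd s ^ 2 * ∏ i, s i ^ ε) =
      ∑ i, ∑ j ∈ Finset.univ.erase i, Real.log |s i - s j| + ε * ∑ i, Real.log (s i) := by
  have hne : ∀ i : Fin k, ∀ j ∈ Finset.Ioi i, s j - s i ≠ 0 := by
    intro i j hj
    have : i < j := Finset.mem_Ioi.1 hj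
    exact sub_ne_zero.2 fun h => this.ne' (hinj h)
  have hne2 : ∀ i : Fin k, ∏ j ∈ Finset.Ioi i, (s j - s i) ≠ 0 := fun i =>
    Finset.prod_ne_zero_iff.2 (hne i)
  have hvd : vd s ≠ 0 := Finset.prod_ne_zero_iff.2 fun i _ => hne2 i
  have hp : 0 < ∏ i, s i ^ ε := Finset.prod_pos fun i _ => pow_pos (hs i) _
  refine ⟨by positivity, ?_⟩
  rw [Real.log_mul (by positivity) hp.ne', Real.log_pow, l2b_sum_pairs _ fun i j => by
    rw [abs_sub_comm]]
  congr 1
  · unfold vd
    rw [Real.log_prod fun i _ => hne2 i]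
    push_cast
    congr 1
    apply Finset.sum_congr rfl
    intro i _
    rw [Real.log_prod (hne i)]
    apply Finset.sum_congr rfl
    intro j _
    rw [abs_sub_comm, Real.log_abs]
  · rw [Real.log_prod fun i _ => (pow_pos (hs i) _).ne', Finset.mul_sum]
    apply Finset.sum_congr rfl
    intro i _
    rw [Real.log_pow]

theorem l2b_pi_ae {p : Measure ℝ} [SigmaFinite p] {m : ℕ} {s : Set ℝ} (h : ∀ᵐ x ∂p, x ∈ s) :
    ∀ᵐ x : Fin m → ℝ ∂(Measure.pi fun _ => p), ∀ i, x i ∈ s := by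
  rw [ae_all_iff]
  intro i
  exact (Measure.quasiMeasurePreserving_eval (fun _ : Fin m => p) i).ae h

theorem l2b_x_factor {α τ : ℝ} {V : ℝ → ℝ} (hV : Continuous V) {ε n m k : ℕ}
    (hε : ε = 0 ∨ ε = 1) (hn : 0 < n) {c₀ lo hi K : ℝ} (hc₀ : 0 < c₀) (hlo : 0 < lo)
    (hf : ∀ x : ℝ, c₀ / (n * (1 + |x|)) * Real.exp (n * gg α τ x) ≤ (fj n α τ 0 x).re)
    (s : Fin k → ℝ) (hs : ∀ j, 0 < s j) {r : ℝ → ℝ} (hr : ∀ x, 0 ≤ r x ∧ r x ≤ K)
    (hsupp : ∀ x, x ∉ Icc lo hi → r x = 0) (hrm : Measurable r) {P : Measure ℝ}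
    [IsProbabilityMeasure P]
    (hP : P = (2 : ℝ≥0∞) • volume.withDensity fun x => ENNReal.ofReal (r x))
    (hat : ∀ x, P {x} = 0) (hPs : P (Icc lo hi)ᶜ = 0)
    (hlog : Integrable (fun z : ℝ × ℝ => Real.log |z.1 - z.2|) (P.prod P))
    (hq : Integrable (l2bqx α τ V ε n (c₀ / (1 + √hi)) s) P) :
    ENNReal.ofReal (Real.exp ((m : ℝ) * (m - 1) *
      (∫ z : ℝ × ℝ, Real.log |z.1 - z.2| ∂(P.prod P)) +
      m * ∫ x, l2bqx α τ V ε n (c₀ / (1 + √hi)) s x ∂P - m * Real.log (4 * K * √hi + 1))) ≤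
    ∫⁻ x : Fin m → ℝ, ENNReal.ofReal (l2bX α τ V ε n s x)
        ∂(Measure.pi fun _ => volume.restrict (Ioi (0 : ℝ))) := by
  have hK0 : 0 ≤ K := (hr 0).1.trans (hr 0).2
  have hae : ∀ᵐ x ∂P, x ∈ Icc lo hi :=
    (measure_eq_zero_iff_ae_notMem.1 hPs).mono fun x hx => not_not.1 hx
  refine l2b_factor (C := 2 * (ENNReal.ofReal K * ENNReal.ofReal (2 * √hi)))
    (by positivity) m ?_ ?_
  · rw [← ENNReal.ofReal_mul hK0, ← ENNReal.ofReal_ofNat, ← ENNReal.ofReal_mul (by norm_num)]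
    apply ENNReal.ofReal_le_ofReal
    nlinarith [Real.sqrt_nonneg hi]
  · refine (l2b_gas P hat hlog _ hq m).trans ?_
    have hcomp := l2b_compare P (volume.restrict (Ioi (0 : ℝ))) (fun _ => 1) measurable_const
      (fun x => √x) (by fun_prop) (2 * (ENNReal.ofReal K * ENNReal.ofReal (2 * √hi))) (by
        intro g hg
        simp only [one_mul]
        rw [hP, lintegral_smul_measure, smul_eq_mul, mul_assoc]
        gcongr
        refine (l2b_dens (fun x => (hr x).2) hsupp (fun x => g (√x)) hrm).trans ?_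
        rw [mul_assoc]
        gcongr
        exact l2b_sqrt_compare hlo g) m (fun x => ENNReal.ofReal (l2bX α τ V ε n s x))
      (l2b_X_measurable hV hn s).ennreal_ofReal
    refine le_trans (lintegral_mono_ae ?_) hcomp
    filter_upwards [l2b_pi_ae (m := m) hae] with ξ hξ
    simp only [Finset.prod_const_one, one_mul]
    apply ENNReal.ofReal_le_ofReal
    exact l2b_X_lower hε hn hc₀ hf s hs ξ fun i => ⟨hlo.trans_le (hξ i).1, (hξ i).2⟩

theorem l2b_v_factor {α τ : ℝ} {ε n l k : ℕ} (hε : ε = 0 ∨ ε = 1) (hn : 0 < n)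
    {lo hi K δ : ℝ} (hlo : 0 < lo) (hU : Continuous (U3 α τ))
    (hρ : ∀ v ∈ Icc lo hi, Real.exp (-(n * (U3 α τ v + δ))) ≤ rhoD n α τ v)
    (s : Fin k → ℝ) (hs : ∀ j, 0 < s j) {r : ℝ → ℝ} (hr : ∀ x, 0 ≤ r x ∧ r x ≤ K)
    (hsupp : ∀ x, x ∉ Icc lo hi → r x = 0) (hrm : Measurable r) {P : Measure ℝ}
    [IsProbabilityMeasure P]
    (hP : P = (6 : ℝ≥0∞) • volume.withDensity fun x => ENNReal.ofReal (r x))
    (hat : ∀ x, P {x} = 0) (hPs : P (Icc lo hi)ᶜ = 0)
    (hlog : Integrable (fun z : ℝ × ℝ => Real.log |z.1 - z.2|) (P.prod P))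
    (hq : Integrable (l2bqv α τ ε n δ s) P) :
    ENNReal.ofReal (Real.exp ((l : ℝ) * (l - 1) *
      (∫ z : ℝ × ℝ, Real.log |z.1 - z.2| ∂(P.prod P)) +
      l * ∫ x, l2bqv α τ ε n δ s x ∂P - l * Real.log (6 * K + 1))) ≤
    ∫⁻ v : Fin l → ℝ, ENNReal.ofReal (l2bY ε s v) ∂(Measure.pi fun _ => rhoM n α τ) := by
  have hn' : (0 : ℝ) < n := Nat.cast_pos.2 hn
  have hK0 : 0 ≤ K := (hr 0).1.trans (hr 0).2
  have hae : ∀ᵐ x ∂P, x ∈ Icc lo hi :=
    (measure_eq_zero_iff_ae_notMem.1 hPs).mono fun x hx => not_not.1 hx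
  have hsf : SigmaFinite (rhoM n α τ) := l2b_sigmaFinite
  refine l2b_factor (C := 6 * ENNReal.ofReal K) (by positivity) l ?_ ?_
  · rw [← ENNReal.ofReal_ofNat, ← ENNReal.ofReal_mul (by norm_num)]
    apply ENNReal.ofReal_le_ofReal
    linarith
  · refine (l2b_gas P hat hlog _ hq l).trans ?_
    have hwm : Measurable fun v : ℝ => ENNReal.ofReal (Real.exp (-(n * (U3 α τ v + δ)))) := by
      apply Measurable.ennreal_ofReal
      apply Continuous.measurable
      fun_prop
    have hcomp := l2b_compare P (rhoM n α τ)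
      (fun v => ENNReal.ofReal (Real.exp (-(n * (U3 α τ v + δ))))) hwm
      (fun x => x) measurable_id (6 * ENNReal.ofReal K) (by
        intro g hg
        rw [hP, lintegral_smul_measure, smul_eq_mul, mul_assoc]
        gcongr
        refine (l2b_dens (fun x => (hr x).2) hsupp (fun x =>
          ENNReal.ofReal (Real.exp (-(n * (U3 α τ x + δ)))) * g x) hrm).trans ?_
        exact mul_le_mul_right
          (l2b_rho_compare hn' hlo (fun v => Real.exp (-(n * (U3 α τ v + δ)))) hρ g hg) _) l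
      (fun x => ENNReal.ofReal (l2bY ε s x))
      (l2b_Y_measurable s).ennreal_ofReal
    refine le_trans (lintegral_mono_ae ?_) hcomp
    filter_upwards [l2b_pi_ae (m := l) hae] with v hv
    rw [l2b_Y_eq (α := α) (τ := τ) (n := n) hε δ s hs v fun i => hlo.trans_le (hv i).1,
      ENNReal.ofReal_mul (Finset.prod_nonneg fun i _ => (Real.exp_pos _).le),
      ENNReal.ofReal_prod_of_nonneg fun i _ => (Real.exp_pos _).le]

/-! ### averages -/

theorem l2b_prob {a : Measure ℝ} {c : ℝ≥0∞} (hc : c ≠ 0) (hc' : c ≠ ⊤) (h : a univ = c⁻¹) :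
    IsProbabilityMeasure (c • a) := by
  constructor
  rw [Measure.smul_apply, smul_eq_mul, h, ENNReal.mul_inv_cancel hc hc']

/-- bounded logarithm -/
theorem l2b_log_bound {lo hi x y : ℝ} (hlo : 0 < lo) (hx : x ∈ Icc lo hi)
    (hy : y ∈ Icc (lo / 2) (2 * hi)) : |Real.log (x + y)| ≤ |Real.log lo| + |Real.log (3 * hi)| := by
  have h1 : lo ≤ x + y := by linarith [hx.1, hy.1]
  have h2 : x + y ≤ 3 * hi := by linarith [hx.2, hy.2]
  have h3 := Real.log_le_log hlo h1
  have h4 := Real.log_le_log (hlo.trans_le h1) h2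
  rw [abs_le]
  constructor
  · linarith [neg_abs_le (Real.log lo), abs_nonneg (Real.log (3 * hi))]
  · linarith [le_abs_self (Real.log (3 * hi)), abs_nonneg (Real.log lo)]

theorem l2b_avg {P : Measure ℝ} [IsFiniteMeasure P] {lo hi : ℝ} (hlo : 0 < lo) (hlh : lo < hi)
    (hPs : P (Icc lo hi)ᶜ = 0) :
    Continuous fun t : ℝ => ∫ x, Real.log (x + max (lo / 2) (min t (2 * hi))) ∂P := by
  have hae : ∀ᵐ x ∂P, x ∈ Icc lo hi :=
    (measure_eq_zero_iff_ae_notMem.1 hPs).mono fun x hx => not_not.1 hx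
  have hcl : ∀ t : ℝ, max (lo / 2) (min t (2 * hi)) ∈ Icc (lo / 2) (2 * hi) := fun t =>
    ⟨le_max_left _ _, max_le (by linarith) (min_le_right _ _)⟩
  refine continuous_of_dominated (bound := fun _ => |Real.log lo| + |Real.log (3 * hi)|)
    (fun t => ?_) (fun t => ?_) (integrable_const _) ?_
  · exact (Measurable.log (by fun_prop)).aestronglyMeasurable
  · filter_upwards [hae] with x hx
    exact l2b_log_bound hlo hx (hcl t)
  · filter_upwards [hae] with x hx
    apply Continuous.log (by fun_prop)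
    intro t
    have h1 := (hcl t).1
    have h2 := hx.1
    have h3 : 0 < x + max (lo / 2) (min t (2 * hi)) := by linarith
    exact h3.ne'

theorem l2b_MM {a b : Measure ℝ} [IsFiniteMeasure a] [IsFiniteMeasure b] {lo hi : ℝ}
    (hlo : 0 < lo) (hlh : lo < hi) (ha : a (Icc lo hi)ᶜ = 0) (hb : b (Icc lo hi)ᶜ = 0) :
    Integrable (fun z : ℝ × ℝ => Real.log (z.1 + z.2)) (a.prod b) := by
  have hae : ∀ᵐ x ∂a, x ∈ Icc lo hi :=
    (measure_eq_zero_iff_ae_notMem.1 ha).mono fun x hx => not_not.1 hx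
  have hbe : ∀ᵐ x ∂b, x ∈ Icc lo hi :=
    (measure_eq_zero_iff_ae_notMem.1 hb).mono fun x hx => not_not.1 hx
  have h1 : ∀ᵐ z ∂(a.prod b), z.1 ∈ Icc lo hi :=
    Measure.quasiMeasurePreserving_fst.ae hae
  have h2 : ∀ᵐ z ∂(a.prod b), z.2 ∈ Icc lo hi :=
    Measure.quasiMeasurePreserving_snd.ae hbe
  refine Integrable.of_bound (Measurable.log (by fun_prop)).aestronglyMeasurable
    (|Real.log lo| + |Real.log (3 * hi)|) ?_
  filter_upwards [h1, h2] with z hz1 hz2
  exact l2b_log_bound hlo hz1 ⟨by linarith [hz2.1], by linarith [hz2.2]⟩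

/-! ### asymptotics -/

theorem l2b_ratio {u : ℕ → ℕ} {q : ℝ} (hq : 0 < q) (C : ℝ)
    (h : ∀ n : ℕ, |q * (u n : ℝ) - n| ≤ C) :
    Tendsto (fun n : ℕ => (u n : ℝ) / n) atTop (𝓝 (1 / q)) := by
  have h1 : Tendsto (fun n : ℕ => (C / q) * (1 / (n : ℝ))) atTop (𝓝 0) := by
    have := tendsto_one_div_atTop_nhds_zero_nat (𝕜 := ℝ).const_mul (C / q)
    simpa using this
  rw [tendsto_iff_norm_sub_tendsto_zero]
  refine squeeze_zero' (Eventually.of_forall fun n => norm_nonneg _) ?_ h1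
  filter_upwards [eventually_gt_atTop 0] with n hn
  have hn' : (0 : ℝ) < n := Nat.cast_pos.2 hn
  have e1 : (u n : ℝ) / n - 1 / q = (q * u n - n) * (1 / (q * n)) := by
    field_simp
  rw [Real.norm_eq_abs, e1, abs_mul, abs_of_pos (by positivity : (0 : ℝ) < 1 / (q * n))]
  calc |q * (u n : ℝ) - n| * (1 / (q * n)) ≤ C * (1 / (q * n)) :=
        mul_le_mul_of_nonneg_right (h n) (by positivity)
    _ = (C / q) * (1 / (n : ℝ)) := by field_simp

/-- size of the block -/
def l2bm (ε n : ℕ) : ℕ := if ε = 1 then (n + 1) / 2 else n / 2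

theorem l2b_sizes (ε : ℕ) (hε : ε = 0 ∨ ε = 1) :
    Tendsto (fun n : ℕ => (l2bm ε n : ℝ) / n) atTop (𝓝 (1 / 2)) ∧
    Tendsto (fun n : ℕ => (kk ε (l2bm ε n) : ℝ) / n) atTop (𝓝 (1 / 3)) ∧
    Tendsto (fun n : ℕ => (ll ε (l2bm ε n) : ℝ) / n) atTop (𝓝 (1 / 6)) := by
  have hm : ∀ n, 2 * l2bm ε n ≤ n + 1 ∧ n ≤ 2 * l2bm ε n + 1 := by
    intro n
    unfold l2bm
    split_ifs <;> omega
  have hk : ∀ n, 3 * kk ε (l2bm ε n) ≤ n + 5 ∧ n ≤ 3 * kk ε (l2bm ε n) + 5 := by
    intro n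
    obtain ⟨h1, h2⟩ := hm n
    unfold kk
    split_ifs <;> omega
  have hl : ∀ n, 6 * ll ε (l2bm ε n) ≤ n + 5 ∧ n ≤ 6 * ll ε (l2bm ε n) + 5 := by
    intro n
    obtain ⟨h1, h2⟩ := hm n
    unfold ll
    split_ifs <;> omega
  refine ⟨?_, ?_, ?_⟩
  · apply l2b_ratio (by norm_num) 1
    intro n
    obtain ⟨h1, h2⟩ := hm n
    have h1' : (2 : ℝ) * (l2bm ε n : ℝ) ≤ n + 1 := by exact_mod_cast h1
    have h2' : (n : ℝ) ≤ 2 * (l2bm ε n : ℝ) + 1 := by exact_mod_cast h2
    rw [abs_le]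
    constructor <;> linarith
  · apply l2b_ratio (by norm_num) 5
    intro n
    obtain ⟨h1, h2⟩ := hk n
    have h1' : (3 : ℝ) * (kk ε (l2bm ε n) : ℝ) ≤ n + 5 := by exact_mod_cast h1
    have h2' : (n : ℝ) ≤ 3 * (kk ε (l2bm ε n) : ℝ) + 5 := by exact_mod_cast h2
    rw [abs_le]
    constructor <;> linarith
  · apply l2b_ratio (by norm_num) 5
    intro n
    obtain ⟨h1, h2⟩ := hl n
    have h1' : (6 : ℝ) * (ll ε (l2bm ε n) : ℝ) ≤ n + 5 := by exact_mod_cast h1
    have h2' : (n : ℝ) ≤ 6 * (ll ε (l2bm ε n) : ℝ) + 5 := by exact_mod_cast h2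
    rw [abs_le]
    constructor <;> linarith

/-- the limit of the exponent -/
theorem l2b_limit (e Ia La c₁ Ua ka Ic Lc Uc kc Φ Ψ Λ : ℝ) (hc₁ : 0 < c₁) (m l : ℕ → ℕ)
    (hm : Tendsto (fun n : ℕ => (m n : ℝ) / n) atTop (𝓝 (1 / 2)))
    (hl : Tendsto (fun n : ℕ => (l n : ℝ) / n) atTop (𝓝 (1 / 6)))
    (L1 P1 S1 : ℕ → ℝ) (hL : Tendsto (fun n : ℕ => 1 / (n : ℝ) * L1 n) atTop (𝓝 Λ))
    (hP : Tendsto (fun n : ℕ => 1 / (n : ℝ) * P1 n) atTop (𝓝 Φ))
    (hS : Tendsto (fun n : ℕ => 1 / (n : ℝ) * S1 n) atTop (𝓝 Ψ)) :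
    Tendsto (fun n : ℕ => 1 / (n : ℝ) ^ 2 * (e * L1 n +
      (m n * (m n - 1) * Ia + m n * ((1 - e) * La + Real.log (c₁ / n) - n * Ua - P1 n) -
        m n * ka) +
      (l n * (l n - 1) * Ic + l n * ((1 - e) * Lc - n * Uc - S1 n) - l n * kc))) atTop
      (𝓝 (1 / 4 * Ia - 1 / 2 * Ua - 1 / 2 * Φ + 1 / 36 * Ic - 1 / 6 * Uc - 1 / 6 * Ψ)) := by
  have hone : Tendsto (fun n : ℕ => (1 / (n : ℝ))) atTop (𝓝 0) :=
    tendsto_one_div_atTop_nhds_zero_nat
  have hlogn : Tendsto (fun n : ℕ => (1 / (n : ℝ)) * Real.log n) atTop (𝓝 0) := by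
    have h1 : Tendsto (fun y : ℝ => Real.log y / y) atTop (𝓝 0) :=
      Real.isLittleO_log_id_atTop.tendsto_div_nhds_zero
    refine (h1.comp tendsto_natCast_atTop_atTop).congr fun n => ?_
    simp only [Function.comp]
    ring
  have h1 := (((hone.const_mul e).mul hL).add
    (((((hm.mul (hm.sub hone)).mul_const Ia).add ((hm.mul hone).mul_const ((1 - e) * La))).add
      (hm.mul ((hone.mul_const (Real.log c₁)).sub hlogn))).sub (hm.mul_const Ua))).sub
    (hm.mul hP) |>.sub ((hm.mul hone).mul_const ka)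
  have h2 := ((((hl.mul (hl.sub hone)).mul_const Ic).add
    ((hl.mul hone).mul_const ((1 - e) * Lc))).sub (hl.mul_const Uc)).sub (hl.mul hS) |>.sub
      ((hl.mul hone).mul_const kc)
  have h3 := h1.add h2
  have e0 : (e * 0 * Λ + (1 / 2 * (1 / 2 - 0) * Ia + 1 / 2 * 0 * ((1 - e) * La) +
      1 / 2 * (0 * Real.log c₁ - 0) - 1 / 2 * Ua) - 1 / 2 * Φ - 1 / 2 * 0 * ka +
      (1 / 6 * (1 / 6 - 0) * Ic + 1 / 6 * 0 * ((1 - e) * Lc) - 1 / 6 * Uc - 1 / 6 * Ψ -
        1 / 6 * 0 * kc)) =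
      1 / 4 * Ia - 1 / 2 * Ua - 1 / 2 * Φ + 1 / 36 * Ic - 1 / 6 * Uc - 1 / 6 * Ψ := by ring
  rw [e0] at h3
  refine h3.congr' ?_
  filter_upwards [eventually_gt_atTop 0] with n hn
  have hn' : (0 : ℝ) < n := Nat.cast_pos.2 hn
  rw [Real.log_div hc₁.ne' hn'.ne']
  field_simp
  ring

theorem block_lower {α τ : ℝ} (hτ : 0 < τ) {V : ℝ → ℝ} (hV : Pot V) (ε : ℕ)
    (hε : ε = 0 ∨ ε = 1) {a b c : Measure ℝ} {lo hi K η : ℝ} {ra rc θ : ℝ → ℝ}
    (h : Nice α τ a b c lo hi K η ra rc θ) (δ : ℝ) (hδ : 0 < δ) :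
    ∃ n₀ : ℕ, ∀ n : ℕ, n₀ ≤ n →
      ENNReal.ofReal (Real.exp (-((n : ℝ) ^ 2 * (JJ α τ V a b c + δ)))) ≤
        BBn n α τ ε (fun x => Real.exp (-(n * V x))) := by
  have hlo := h.lo_pos
  have hlh := h.lo_lt
  have hhi : 0 < hi := hlo.trans hlh
  -- the measures
  obtain ⟨Cb, hCb, hble⟩ := l2b_b_le (α := α) hτ hlo
    (fun x => (h.bθ x).2.trans (by linarith [h.η_pos])) fun x hx => (h.supp x hx).2.2
  rw [← h.eqb] at hble
  have hale := l2b_dens_le (fun x => (h.bra x).2) (fun x hx => (h.supp x hx).1) h.mra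
  rw [← h.eqa] at hale
  have hcle := l2b_dens_le (fun x => (h.brc x).2) (fun x hx => (h.supp x hx).2.1) h.mrc
  rw [← h.eqc] at hcle
  obtain ⟨hfa, hata, hsa, hla⟩ := l2b_bdd ENNReal.ofReal_ne_top hale
  obtain ⟨hfb, hatb, hsb, hlb⟩ := l2b_bdd hCb hble
  obtain ⟨hfc, hatc, hsc, hlc⟩ := l2b_bdd ENNReal.ofReal_ne_top hcle
  set Pa : Measure ℝ := (2 : ℝ≥0∞) • a with hPa
  set Pc : Measure ℝ := (6 : ℝ≥0∞) • c with hPc
  have hprobA : IsProbabilityMeasure Pa :=
    l2b_prob (by norm_num) (by norm_num) (by rw [h.massa, one_div])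
  have hprobC : IsProbabilityMeasure Pc :=
    l2b_prob (by norm_num) (by norm_num) (by rw [h.massc, one_div])
  have hPaat : ∀ x, Pa {x} = 0 := fun x => by
    rw [hPa, Measure.smul_apply, hata x, smul_eq_mul, mul_zero]
  have hPcat : ∀ x, Pc {x} = 0 := fun x => by
    rw [hPc, Measure.smul_apply, hatc x, smul_eq_mul, mul_zero]
  have hPas : Pa (Icc lo hi)ᶜ = 0 := by
    rw [hPa, Measure.smul_apply, hsa, smul_eq_mul, mul_zero]
  have hPcs : Pc (Icc lo hi)ᶜ = 0 := by
    rw [hPc, Measure.smul_apply, hsc, smul_eq_mul, mul_zero]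
  have hPaprod : Pa.prod Pa = (2 : ℝ≥0∞) • (2 : ℝ≥0∞) • (a.prod a) := by
    rw [hPa, Measure.prod_smul_left, Measure.prod_smul_right]
  have hPcprod : Pc.prod Pc = (6 : ℝ≥0∞) • (6 : ℝ≥0∞) • (c.prod c) := by
    rw [hPc, Measure.prod_smul_left, Measure.prod_smul_right]
  have hPalog : Integrable (fun z : ℝ × ℝ => Real.log |z.1 - z.2|) (Pa.prod Pa) := by
    rw [hPaprod]
    exact (hla.smul_measure (by norm_num)).smul_measure (by norm_num)
  have hPclog : Integrable (fun z : ℝ × ℝ => Real.log |z.1 - z.2|) (Pc.prod Pc) := by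
    rw [hPcprod]
    exact (hlc.smul_measure (by norm_num)).smul_measure (by norm_num)
  have hIa : ∫ z : ℝ × ℝ, Real.log |z.1 - z.2| ∂(Pa.prod Pa) = -(4 * LL a a) := by
    rw [hPaprod, integral_smul_measure, integral_smul_measure, LL, integral_neg]
    simp only [ENNReal.toReal_ofNat, smul_eq_mul]
    ring
  have hIc : ∫ z : ℝ × ℝ, Real.log |z.1 - z.2| ∂(Pc.prod Pc) = -(36 * LL c c) := by
    rw [hPcprod, integral_smul_measure, integral_smul_measure, LL, integral_neg]
    simp only [ENNReal.toReal_ofNat, smul_eq_mul]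
    ring
  -- sizes and selection
  obtain ⟨hm, hk, hl⟩ := l2b_sizes ε hε
  obtain ⟨s, hs, hsw⟩ := selection hτ b lo hi η θ hlo hlh h.η_pos h.mθ h.bθ
    (fun x hx => (h.supp x hx).2.2) h.eqb h.massb (fun n => kk ε (l2bm ε n)) hk
  have hfinen : FinEn b := by
    refine ⟨hatb, hlb, ?_⟩
    apply l2b_integrable hsb
    apply ContinuousOn.log (by fun_prop)
    intro x _
    positivity
  have hsb2 : b (Icc (lo / 2) (2 * hi))ᶜ = 0 := by
    refine measure_mono_null ?_ hsb
    apply compl_subset_compl.2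
    apply Icc_subset_Icc <;> linarith
  have hds := double_sum hτ b (lo / 2) (2 * hi) (by linarith) (fun n => kk ε (l2bm ε n)) s hk hs
    hsb2 hfinen hsw (δ / 4) (by linarith)
  -- continuity
  have hgc : Continuous (gg α τ) := gg_continuous hτ
  have hVc : Continuous V := hV.cont
  have hU1 : Continuous (U1 α τ V) := by
    unfold U1
    fun_prop
  have hU3 : Continuous (U3 α τ) := by
    have := V3_continuous (α := α) hτ
    unfold U3
    fun_prop
  obtain ⟨c₀, hc₀, hf⟩ := fj_lower (α := α) hτ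
  obtain ⟨n1, hρ⟩ := rhoD_lower (α := α) hτ lo hi δ hlo hδ
  -- the averages
  set φ : ℝ → ℝ := fun t => ∫ x, Real.log (x + max (lo / 2) (min t (2 * hi))) ∂Pa with hφ
  set ψ : ℝ → ℝ := fun t => ∫ x, Real.log (x + max (lo / 2) (min t (2 * hi))) ∂Pc with hψ
  have hφc : Continuous φ := l2b_avg hlo hlh hPas
  have hψc : Continuous ψ := l2b_avg hlo hlh hPcs
  have hclamp : ∀ t ∈ Icc (lo / 2) (2 * hi), max (lo / 2) (min t (2 * hi)) = t := by
    intro t ht
    rw [min_eq_left ht.2, max_eq_right ht.1]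
  have hbe : ∀ᵐ x ∂b, x ∈ Icc lo hi :=
    (measure_eq_zero_iff_ae_notMem.1 hsb).mono fun x hx => not_not.1 hx
  have hφb : ∫ t, φ t ∂b = 2 * MM a b := by
    have h1 : ∫ t, φ t ∂b = ∫ t, ∫ x, 2 * Real.log (x + t) ∂a ∂b := by
      apply integral_congr_ae
      filter_upwards [hbe] with t ht
      rw [hφ]
      simp only
      rw [hclamp t ⟨by linarith [ht.1], by linarith [ht.2]⟩, hPa, integral_smul_measure,
        integral_const_mul]
      simp
    rw [h1, MM, ← integral_const_mul]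
    rw [integral_prod_symm _ ((l2b_MM hlo hlh hsa hsb).const_mul 2)]
  have hψb : ∫ t, ψ t ∂b = 6 * MM b c := by
    have h1 : ∫ t, ψ t ∂b = ∫ t, ∫ x, 6 * Real.log (t + x) ∂c ∂b := by
      apply integral_congr_ae
      filter_upwards [hbe] with t ht
      rw [hψ]
      simp only
      rw [hclamp t ⟨by linarith [ht.1], by linarith [ht.2]⟩, hPc, integral_smul_measure,
        integral_const_mul]
      simp [add_comm]
    rw [h1, MM, ← integral_const_mul]
    rw [integral_prod _ ((l2b_MM hlo hlh hsb hsc).const_mul 6)]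
  have hlogc : Continuous fun t : ℝ => Real.log (max (lo / 2) (min t (2 * hi))) := by
    apply Continuous.log (by fun_prop)
    intro t
    have : 0 < max (lo / 2) (min t (2 * hi)) := lt_max_of_lt_left (by linarith)
    exact this.ne'
  -- the limit
  set Ua : ℝ := ∫ x, U1 α τ V x ∂Pa with hUa
  set Uc : ℝ := ∫ x, (U3 α τ x + δ) ∂Pc with hUc
  set La : ℝ := ∫ x, Real.log x ∂Pa with hLa
  set Lc : ℝ := ∫ x, Real.log x ∂Pc with hLc
  have hL0 := hsw (fun t : ℝ => Real.log (max (lo / 2) (min t (2 * hi)))) hlogc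
  have hlim := l2b_limit ε (∫ z : ℝ × ℝ, Real.log |z.1 - z.2| ∂(Pa.prod Pa)) La
    (c₀ / (1 + √hi)) Ua (Real.log (4 * K * √hi + 1))
    (∫ z : ℝ × ℝ, Real.log |z.1 - z.2| ∂(Pc.prod Pc)) Lc Uc (Real.log (6 * K + 1))
    (2 * MM a b) (6 * MM b c) _ (by positivity) (l2bm ε) (fun n => ll ε (l2bm ε n)) hm hl
    (fun n => ∑ i, Real.log (max (lo / 2) (min (s n i) (2 * hi))))
    (fun n => ∑ i, φ (s n i)) (fun n => ∑ i, ψ (s n i)) hL0
    (by rw [← hφb]; exact hsw φ hφc) (by rw [← hψb]; exact hsw ψ hψc)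
  have hUaval : Ua = 2 * ∫ x, U1 α τ V x ∂a := by
    rw [hUa, hPa, integral_smul_measure]
    simp
  have hUcval : Uc = 6 * (∫ x, U3 α τ x ∂c) + δ := by
    have hi3 : Integrable (U3 α τ) Pc := l2b_integrable hPcs hU3.continuousOn
    rw [hUc, integral_add hi3 (integrable_const _), integral_const]
    simp only [probReal_univ, one_smul]
    rw [hPc, integral_smul_measure]
    simp
  rw [hIa, hIc, hUaval, hUcval] at hlim
  have hJ : 1 / 4 * -(4 * LL a a) - 1 / 2 * (2 * ∫ x, U1 α τ V x ∂a) - 1 / 2 * (2 * MM a b) +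
      1 / 36 * -(36 * LL c c) - 1 / 6 * (6 * (∫ x, U3 α τ x ∂c) + δ) - 1 / 6 * (6 * MM b c) =
      -(JJ α τ V a b c) + LL b b - δ / 6 := by
    unfold JJ
    ring
  rw [hJ] at hlim
  have hev := hlim.eventually_const_lt
    (show -(JJ α τ V a b c) + LL b b - δ / 6 - δ / 4 < -(JJ α τ V a b c) + LL b b - δ / 6 by
      linarith)
  have hfinal : ∀ᶠ n : ℕ in atTop,
      ENNReal.ofReal (Real.exp (-((n : ℝ) ^ 2 * (JJ α τ V a b c + δ)))) ≤
        BBn n α τ ε (fun x => Real.exp (-(n * V x))) := by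
    filter_upwards [hev, hds, hs, eventually_gt_atTop 0, eventually_ge_atTop n1] with n hn1 hn2
      hn3 hn hn4
    have hn' : (0 : ℝ) < n := Nat.cast_pos.2 hn
    obtain ⟨hinj, hsn⟩ := hn3
    have hspos : ∀ j, 0 < s n j := fun j => (hsn j).1.1
    have hclj : ∀ j, max (lo / 2) (min (s n j) (2 * hi)) = s n j := fun j => hclamp _ (hsn j).2
    simp only [hclj] at hn1
    -- integrals of the one-particle weights
    have hlogI : ∀ (P : Measure ℝ) [IsFiniteMeasure P], P (Icc lo hi)ᶜ = 0 →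
        Integrable Real.log P := fun P _ hP => l2b_integrable hP (by
      apply ContinuousOn.log continuousOn_id
      intro x hx
      exact (hlo.trans_le hx.1).ne')
    have hlogI2 : ∀ (P : Measure ℝ) [IsFiniteMeasure P], P (Icc lo hi)ᶜ = 0 → ∀ j,
        Integrable (fun x => Real.log (x + s n j)) P := fun P _ hP j => l2b_integrable hP (by
      apply ContinuousOn.log (by fun_prop)
      intro x hx
      have h1 := hlo.trans_le hx.1
      have h2 := hspos j
      exact (by positivity : 0 < x + s n j).ne')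
    have hIU1 : Integrable (U1 α τ V) Pa := l2b_integrable hPas hU1.continuousOn
    have hIU3 : Integrable (fun x => U3 α τ x + δ) Pc :=
      l2b_integrable hPcs (hU3.add continuous_const).continuousOn
    have hqx1 : Integrable (fun x => (1 - (ε : ℝ)) * Real.log x) Pa :=
      (hlogI Pa hPas).const_mul _
    have hqx2 : Integrable (fun x => (1 - (ε : ℝ)) * Real.log x +
        Real.log (c₀ / (1 + √hi) / n)) Pa := hqx1.add (integrable_const _)
    have hqx3 : Integrable (fun x => (1 - (ε : ℝ)) * Real.log x +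
        Real.log (c₀ / (1 + √hi) / n) - n * U1 α τ V x) Pa := hqx2.sub (hIU1.const_mul _)
    have hqx4 : Integrable (fun x => ∑ j, Real.log (x + s n j)) Pa :=
      integrable_finsetSum _ fun j _ => hlogI2 Pa hPas j
    have hqx : Integrable (l2bqx α τ V ε n (c₀ / (1 + √hi)) (s n)) Pa := hqx3.sub hqx4
    have hqxv : ∫ x, l2bqx α τ V ε n (c₀ / (1 + √hi)) (s n) x ∂Pa =
        (1 - (ε : ℝ)) * La + Real.log (c₀ / (1 + √hi) / n) - n * Ua - ∑ i, φ (s n i) := by
      unfold l2bqx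
      rw [integral_sub hqx3 hqx4, integral_sub hqx2 (hIU1.const_mul _),
        integral_add hqx1 (integrable_const _), integral_const_mul, integral_const_mul,
        integral_const, integral_finsetSum _ fun j _ => hlogI2 Pa hPas j]
      simp only [probReal_univ, one_smul]
      congr 1
      apply Finset.sum_congr rfl
      intro i _
      rw [hφ]
      simp only
      rw [hclj i]
    have hqv1 : Integrable (fun x => (1 - (ε : ℝ)) * Real.log x) Pc :=
      (hlogI Pc hPcs).const_mul _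
    have hqv3 : Integrable (fun x => (1 - (ε : ℝ)) * Real.log x - n * (U3 α τ x + δ)) Pc :=
      hqv1.sub (hIU3.const_mul _)
    have hcomm : ∀ j x, Real.log (s n j + x) = Real.log (x + s n j) := fun j x => by
      rw [add_comm]
    have hqv4 : Integrable (fun x => ∑ j, Real.log (s n j + x)) Pc :=
      integrable_finsetSum _ fun j _ => by
        simp_rw [hcomm]
        exact hlogI2 Pc hPcs j
    have hqv : Integrable (l2bqv α τ ε n δ (s n)) Pc := hqv3.sub hqv4
    have hqvv : ∫ x, l2bqv α τ ε n δ (s n) x ∂Pc =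
        (1 - (ε : ℝ)) * Lc - n * Uc - ∑ i, ψ (s n i) := by
      unfold l2bqv
      rw [integral_sub hqv3 hqv4, integral_sub hqv1 (hIU3.const_mul _), integral_const_mul,
        integral_const_mul]
      simp_rw [hcomm]
      rw [integral_finsetSum _ fun j _ => hlogI2 Pc hPcs j]
      congr 1
      apply Finset.sum_congr rfl
      intro i _
      rw [hψ]
      simp only
      rw [hclj i]
    have hX := l2b_x_factor (m := l2bm ε n) hVc hε hn hc₀ hlo (hf n hn) (s n) hspos h.bra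
      (fun x hx => (h.supp x hx).1) h.mra (by rw [hPa, h.eqa]) hPaat hPas hPalog hqx
    have hY := l2b_v_factor (l := ll ε (l2bm ε n)) hε hn hlo hU3 (hρ n hn4) (s n) hspos h.brc
      (fun x hx => (h.supp x hx).2.1) h.mrc (by rw [hPc, h.eqc]) hPcat hPcs hPclog hqv
    have hB := l2b_BB (α := α) (τ := τ) (V := V) (ε := ε) (m := l2bm ε n)
      (l := ll ε (l2bm ε n)) hn (s n) fun j => (hsn j).1
    obtain ⟨hCtpos, hCt⟩ := l2b_log_Ct (ε := ε) (s n) hinj hspos
    have hBBn : BBn n α τ ε (fun x => Real.exp (-(n * V x))) =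
        BB n α τ ε (l2bm ε n) (kk ε (l2bm ε n)) (ll ε (l2bm ε n))
          (fun x => Real.exp (-(n * V x))) := rfl
    rw [hBBn]
    refine le_trans ?_ hB
    refine le_trans ?_ (mul_le_mul' (mul_le_mul' le_rfl hX) hY)
    rw [← Real.exp_log hCtpos, ← ENNReal.ofReal_mul (Real.exp_pos _).le,
      ← ENNReal.ofReal_mul (by positivity), ← Real.exp_add, ← Real.exp_add]
    apply ENNReal.ofReal_le_ofReal
    apply Real.exp_le_exp.2
    rw [hCt, hqxv, hqvv, hIa, hIc]
    rw [hUaval, hUcval]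
    have hn2' : (0 : ℝ) < (n : ℝ) ^ 2 := by positivity
    have key : -(JJ α τ V a b c + δ) ≤ 1 / (n : ℝ) ^ 2 *
        (∑ i, ∑ j ∈ Finset.univ.erase i, Real.log |s n i - s n j|) +
        1 / (n : ℝ) ^ 2 * (ε * (∑ i, Real.log (s n i)) +
      (l2bm ε n * (l2bm ε n - 1) * -(4 * LL a a) + l2bm ε n * ((1 - (ε : ℝ)) * La +
        Real.log (c₀ / (1 + √hi) / n) - n * (2 * ∫ x, U1 α τ V x ∂a) - ∑ i, φ (s n i)) -
        l2bm ε n * Real.log (4 * K * √hi + 1)) +
      (ll ε (l2bm ε n) * (ll ε (l2bm ε n) - 1) * -(36 * LL c c) +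
        ll ε (l2bm ε n) * ((1 - (ε : ℝ)) * Lc - n * (6 * (∫ x, U3 α τ x ∂c) + δ) -
          ∑ i, ψ (s n i)) - ll ε (l2bm ε n) * Real.log (6 * K + 1))) := by
      linarith
    have key2 := mul_le_mul_of_nonneg_left key hn2'.le
    have e1 : (n : ℝ) ^ 2 * (1 / (n : ℝ) ^ 2) = 1 := by field_simp
    rw [mul_add, ← mul_assoc ((n : ℝ) ^ 2), ← mul_assoc ((n : ℝ) ^ 2), e1, one_mul, one_mul] at key2
    linarith
  rw [eventually_atTop] at hfinal
  exact hfinal

end

end Pool.Agent.MP_941b23_mp
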