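import Pool.Agent.MP_941b23_mp.Defs2
import Pool.Agent.MP_941b23_mp.S10b
import Pool.Agent.MP_941b23_mp.S7b
import Pool.Agent.MP_941b23_mp.T2a
import Pool.Agent.MP_941b23_mp.T3

/-!
# Row [QM-T8b]: mass bounds for `ρ` and for the zeros
-/

namespace Pool.Agent.MP_941b23_mp

open MeasureTheory Set Filter Topology
open scoped ENNReal NNReal Real ComplexConjugate

noncomputable section

variable {α τ : ℝ}

/-- `2^{1/6}` -/
def T8b_b : ℝ := (2 : ℝ) ^ (1 / 6 : ℝ)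

theorem T8b_b_pos : 0 < T8b_b := Real.rpow_pos_of_pos (by norm_num) _

theorem T8b_b_gt : 1 < T8b_b := Real.one_lt_rpow (by norm_num) (by norm_num)

theorem T8b_b_le : T8b_b ≤ 2 := by
  have h := Real.rpow_le_rpow_of_exponent_le (x := 2) (by norm_num)
    (show (1 / 6 : ℝ) ≤ 1 by norm_num)
  rwa [Real.rpow_one] at h

theorem T8b_two_pow (j : ℕ) (s : ℝ) : ((2 : ℝ) ^ j) ^ (s / 6) = T8b_b ^ (s * j) := by
  rw [T8b_b, ← Real.rpow_natCast, ← Real.rpow_mul (by norm_num), ← Real.rpow_mul (by norm_num)]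
  congr 1
  ring

theorem T8b_pointwise (v : ℝ) (hv : 0 ≤ v) :
    ∃ j : ℕ, (1 + v) ^ (-(5 / 6) : ℝ) ≤ 4 * T8b_b ^ j * (1 / (v + 2 ^ j)) := by
  obtain ⟨j, hj1, hj2⟩ := exists_nat_pow_near (x := 1 + v) (y := (2 : ℝ)) (by linarith)
    (by norm_num)
  refine ⟨j, ?_⟩
  have hpos : 0 < 1 + v := by linarith
  have h1 : (1 + v) ^ (-(5 / 6) : ℝ) = (1 + v) ^ (1 / 6 : ℝ) / (1 + v) := by
    rw [show (-(5 / 6) : ℝ) = 1 / 6 - 1 by norm_num, Real.rpow_sub hpos, Real.rpow_one]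
  have h2 : (1 + v) ^ (1 / 6 : ℝ) ≤ T8b_b ^ (j + 1) := by
    have h3 := Real.rpow_le_rpow hpos.le hj2.le (show (0 : ℝ) ≤ 1 / 6 by norm_num)
    have h4 := T8b_two_pow (j + 1) 1
    rw [one_mul, Real.rpow_natCast] at h4
    rwa [h4] at h3
  have h5 : T8b_b ^ (j + 1) ≤ 2 * T8b_b ^ j := by
    rw [pow_succ, mul_comm]
    exact mul_le_mul_of_nonneg_right T8b_b_le (pow_nonneg T8b_b_pos.le _)
  have h6 : 1 / (1 + v) ≤ 2 * (1 / (v + 2 ^ j)) := by
    have h7 : (0 : ℝ) < v + 2 ^ j := by positivity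
    rw [mul_one_div, div_le_div_iff₀ hpos h7]
    linarith
  rw [h1, div_eq_mul_one_div]
  calc (1 + v) ^ (1 / 6 : ℝ) * (1 / (1 + v)) ≤ (2 * T8b_b ^ j) * (2 * (1 / (v + 2 ^ j))) :=
        mul_le_mul (h2.trans h5) h6 (by positivity)
          (mul_nonneg (by norm_num) (pow_nonneg T8b_b_pos.le _))
    _ = 4 * T8b_b ^ j * (1 / (v + 2 ^ j)) := by ring

/-- the constant -/
def T8b_c : ℝ := 4 * (1 - T8b_b⁻¹)⁻¹

theorem T8b_c_pos : 0 < T8b_c := by
  have h1 : T8b_b⁻¹ < 1 := inv_lt_one_of_one_lt₀ T8b_b_gt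
  have h2 : 0 < 1 - T8b_b⁻¹ := by linarith
  unfold T8b_c
  positivity

theorem T8b_general {X : Type*} [MeasurableSpace X] (μ : Measure X) (v : X → ℝ)
    (hvm : Measurable v) (hv : ∀ᵐ x ∂μ, 0 ≤ v x) (K : ℝ) (hK : 0 ≤ K)
    (h : ∀ T : ℝ, 1 ≤ T → ∫⁻ x, ENNReal.ofReal (1 / (v x + T)) ∂μ ≤
      ENNReal.ofReal (K * T ^ (-(1 / 3) : ℝ))) :
    ∫⁻ x, ENNReal.ofReal ((1 + v x) ^ (-(5 / 6) : ℝ)) ∂μ ≤ ENNReal.ofReal (T8b_c * K) := by
  have hb0 := T8b_b_pos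
  have hbinv0 : 0 ≤ T8b_b⁻¹ := inv_nonneg.2 hb0.le
  have hbinv1 : T8b_b⁻¹ < 1 := inv_lt_one_of_one_lt₀ T8b_b_gt
  have h1 : ∫⁻ x, ENNReal.ofReal ((1 + v x) ^ (-(5 / 6) : ℝ)) ∂μ ≤
      ∫⁻ x, ∑' j : ℕ, ENNReal.ofReal (4 * T8b_b ^ j) *
        ENNReal.ofReal (1 / (v x + 2 ^ j)) ∂μ := by
    refine lintegral_mono_ae ?_
    filter_upwards [hv] with x hx
    obtain ⟨j, hj⟩ := T8b_pointwise (v x) hx
    refine le_trans ?_ (ENNReal.le_tsum j)
    rw [← ENNReal.ofReal_mul (by positivity)]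
    exact ENNReal.ofReal_le_ofReal hj
  have hm : ∀ j : ℕ, Measurable (fun x => ENNReal.ofReal (1 / (v x + 2 ^ j))) := fun j =>
    (measurable_const.div (hvm.add measurable_const)).ennreal_ofReal
  rw [lintegral_tsum (fun j => ((hm j).const_mul _).aemeasurable)] at h1
  refine h1.trans ?_
  have h2 : ∀ j : ℕ, ∫⁻ x, ENNReal.ofReal (4 * T8b_b ^ j) *
      ENNReal.ofReal (1 / (v x + 2 ^ j)) ∂μ ≤ ENNReal.ofReal (4 * K * T8b_b⁻¹ ^ j) := by
    intro j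
    rw [lintegral_const_mul _ (hm j)]
    have h3 := h (2 ^ j) (one_le_pow₀ (by norm_num))
    have h4 : ((2 : ℝ) ^ j) ^ (-(1 / 3) : ℝ) = (T8b_b ^ j)⁻¹ * (T8b_b ^ j)⁻¹ := by
      have h5 := T8b_two_pow j (-2)
      rw [show (-2 : ℝ) / 6 = -(1 / 3) by norm_num] at h5
      rw [h5, ← Real.rpow_natCast T8b_b j, ← Real.rpow_neg hb0.le, ← Real.rpow_add hb0]
      congr 1
      ring
    rw [h4] at h3
    refine (mul_le_mul_right h3 _).trans ?_
    rw [← ENNReal.ofReal_mul (by positivity)]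
    refine ENNReal.ofReal_le_ofReal (le_of_eq ?_)
    have h6 : (T8b_b ^ j) ≠ 0 := (pow_pos hb0 j).ne'
    rw [inv_pow]
    field_simp
  refine (ENNReal.tsum_le_tsum h2).trans ?_
  rw [← ENNReal.ofReal_tsum_of_nonneg (fun j => by positivity)
    ((summable_geometric_of_lt_one hbinv0 hbinv1).mul_left _), tsum_mul_left,
    tsum_geometric_of_lt_one hbinv0 hbinv1]
  refine ENNReal.ofReal_le_ofReal (le_of_eq ?_)
  unfold T8b_c
  ring

/-- a cubic inequality -/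
theorem T8b_cubic (y B D : ℝ) (hy : 0 ≤ y) (hB : 0 ≤ B) (hD : 0 ≤ D)
    (h : y ^ 3 ≤ B * y + D + 3 * y ^ 2) : y ≤ 4 + B + D := by
  by_contra hcon
  push Not at hcon
  have h1 : 1 ≤ y := by linarith
  have h2 : (4 + B + D) * y ^ 2 < y ^ 3 := by
    have : y ^ 3 = y * y ^ 2 := by ring
    rw [this]
    exact mul_lt_mul_of_pos_right hcon (by positivity)
  have h3 : B * y ≤ B * y ^ 2 := mul_le_mul_of_nonneg_left (by nlinarith) hB
  have h4 : D ≤ D * y ^ 2 := by nlinarith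
  nlinarith [sq_nonneg y]

theorem T8b_pA (hτ : 0 < τ) (n : ℕ) (hn : 0 < n) (ζ : ℝ) (hζ : 1 ≤ ζ) :
    (pA n α τ ζ).re ≤ (4 + (|α| * τ ^ 2 + 6) + τ ^ 4) * (n * ζ ^ (1 / 3 : ℝ)) := by
  have hn1 : (1 : ℝ) ≤ n := by exact_mod_cast hn
  have hn0 : (0 : ℝ) < n := by linarith
  have hζ0 : 0 < ζ := by linarith
  have hric := pA_riccati (α := α) hn0 hτ ζ hζ0
  have hppos := ((pA_rep (α := α) hn0 hτ).2 ζ hζ0).2.1
  set p := (pA n α τ ζ).re with hp
  set c : ℝ := ζ ^ (1 / 3 : ℝ) with hc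
  have hc1 : 1 ≤ c := Real.one_le_rpow hζ (by norm_num)
  have hc0 : 0 < c := by linarith
  have hc3 : c ^ 3 = ζ := by
    rw [hc, ← Real.rpow_natCast, ← Real.rpow_mul hζ0.le]
    norm_num
  set y : ℝ := p / (n * c) with hy
  have hnc : (0 : ℝ) < n * c := by positivity
  have hpy : p = n * c * y := by rw [hy]; field_simp
  have hy0 : 0 ≤ y := by positivity
  suffices h : y ≤ 4 + (|α| * τ ^ 2 + 6) + τ ^ 4 by
    rw [hpy]
    calc n * c * y ≤ n * c * (4 + (|α| * τ ^ 2 + 6) + τ ^ 4) :=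
          mul_le_mul_of_nonneg_left h hnc.le
      _ = _ := by ring
  apply T8b_cubic y _ _ hy0 (by positivity) (by positivity)
  rw [hpy] at hric
  have hn3 : (0 : ℝ) < n ^ 3 * c ^ 3 := by positivity
  refine le_of_mul_le_mul_left ?_ hn3
  have e1 : (n : ℝ) ^ 3 * c ^ 3 * y ^ 3 = (n * c * y) ^ 3 := by ring
  rw [e1]
  refine hric.trans ?_
  have t1 : (α * (n * τ) ^ 2 + 6 / ζ ^ 2) * (n * c * y) ≤
      (n : ℝ) ^ 3 * c ^ 3 * ((|α| * τ ^ 2 + 6) * y) := by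
    have a1 : α * (n * τ) ^ 2 ≤ n ^ 2 * (|α| * τ ^ 2) := by
      have := le_abs_self α
      have h2 : 0 ≤ (n : ℝ) ^ 2 * τ ^ 2 := by positivity
      nlinarith
    have a2 : 6 / ζ ^ 2 ≤ 6 * (n : ℝ) ^ 2 := by
      have h1 : 1 ≤ ζ ^ 2 := by nlinarith
      have h2 : 1 ≤ (n : ℝ) ^ 2 := by nlinarith
      calc 6 / ζ ^ 2 ≤ 6 / 1 := by
            exact div_le_div_of_nonneg_left (by norm_num) (by norm_num) h1
        _ ≤ 6 * (n : ℝ) ^ 2 := by linarith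
    have a3 : α * (n * τ) ^ 2 + 6 / ζ ^ 2 ≤ n ^ 2 * (|α| * τ ^ 2 + 6) := by linarith
    have a4 : 0 ≤ n ^ 2 * (|α| * τ ^ 2 + 6) := by positivity
    have a5 : (n : ℝ) * c * y ≤ n * c ^ 3 * y := by
      have : c ≤ c ^ 3 := by nlinarith [mul_pos hc0 hc0]
      have h7 : 0 ≤ (n : ℝ) * y := by positivity
      nlinarith
    calc (α * (n * τ) ^ 2 + 6 / ζ ^ 2) * (n * c * y)
        ≤ (n ^ 2 * (|α| * τ ^ 2 + 6)) * (n * c * y) :=
          mul_le_mul_of_nonneg_right a3 (by positivity)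
      _ ≤ (n ^ 2 * (|α| * τ ^ 2 + 6)) * (n * c ^ 3 * y) := mul_le_mul_of_nonneg_left a5 a4
      _ = _ := by ring
  have t2 : (n : ℝ) ^ 3 * τ ^ 4 * ζ = n ^ 3 * c ^ 3 * τ ^ 4 := by rw [← hc3]; ring
  have t3 : 3 * (n * c * y) ^ 2 / ζ ≤ (n : ℝ) ^ 3 * c ^ 3 * (3 * y ^ 2) := by
    rw [div_le_iff₀ hζ0, ← hc3]
    have b1 : (n : ℝ) ^ 2 ≤ n ^ 3 := by nlinarith [sq_nonneg (n : ℝ)]
    have b2 : c ^ 2 ≤ c ^ 3 * c ^ 3 := by
      have hc2 : 1 ≤ c ^ 4 := one_le_pow₀ hc1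
      have : c ^ 3 * c ^ 3 = c ^ 2 * c ^ 4 := by ring
      rw [this]
      nlinarith [sq_nonneg c]
    calc 3 * (n * c * y) ^ 2 = 3 * y ^ 2 * ((n : ℝ) ^ 2 * c ^ 2) := by ring
      _ ≤ 3 * y ^ 2 * ((n : ℝ) ^ 3 * (c ^ 3 * c ^ 3)) :=
          mul_le_mul_of_nonneg_left (mul_le_mul b1 b2 (by positivity) (by positivity))
            (by positivity)
      _ = _ := by ring
  calc (α * (n * τ) ^ 2 + 6 / ζ ^ 2) * (n * c * y) + n ^ 3 * τ ^ 4 * ζ + 3 * (n * c * y) ^ 2 / ζ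
      ≤ (n : ℝ) ^ 3 * c ^ 3 * ((|α| * τ ^ 2 + 6) * y) + n ^ 3 * c ^ 3 * τ ^ 4 +
        (n : ℝ) ^ 3 * c ^ 3 * (3 * y ^ 2) := by rw [t2]; linarith
    _ = _ := by ring

theorem T8b_rpow (T : ℝ) (hT : 1 ≤ T) : (√T) ^ (1 / 3 : ℝ) / √T = T ^ (-(1 / 3) : ℝ) := by
  have hT0 : 0 < T := by linarith
  have h1 : √T = T ^ (1 / 2 : ℝ) := Real.sqrt_eq_rpow T
  rw [h1, ← Real.rpow_mul hT0.le, ← Real.rpow_sub hT0]
  congr 1
  norm_num

theorem T8b_ae_pos (n : ℕ) : ∀ᵐ v ∂(rhoM n α τ), 0 < v :=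
  (withDensity_absolutelyContinuous _ _).ae_le (ae_restrict_mem measurableSet_Ioi)

theorem rho_mass (hτ : 0 < τ) : ∃ C : ℝ, 0 < C ∧ ∀ n : ℕ, 0 < n →
    Integrable (fun v => (1 + v) ^ (-(5 / 6) : ℝ)) (rhoM n α τ) ∧
    ∫ v, (1 + v) ^ (-(5 / 6) : ℝ) ∂(rhoM n α τ) ≤ C * n := by
  set Y : ℝ := 4 + (|α| * τ ^ 2 + 6) + τ ^ 4 with hY
  have hY0 : 0 < Y := by positivity
  refine ⟨T8b_c * Y, mul_pos T8b_c_pos hY0, fun n hn => ?_⟩
  have hn0 : (0 : ℝ) < n := by exact_mod_cast hn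
  obtain ⟨hint, hrep⟩ := pA_rep (α := α) hn0 hτ
  have hpos := T8b_ae_pos (α := α) (τ := τ) n
  have hkey : ∫⁻ v, ENNReal.ofReal ((1 + v) ^ (-(5 / 6) : ℝ)) ∂(rhoM n α τ) ≤
      ENNReal.ofReal (T8b_c * (Y * n)) := by
    refine T8b_general (rhoM n α τ) (fun v => v) measurable_id
      (by filter_upwards [hpos] with v hv using hv.le) (Y * n) (by positivity) ?_
    intro T hT
    have hT0 : 0 < T := by linarith
    have hsq : √T ^ 2 = T := Real.sq_sqrt hT0.le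
    have hsT : 1 ≤ √T := Real.one_le_sqrt.2 hT
    have hsT0 : 0 < √T := by linarith
    obtain ⟨-, -, h3⟩ := hrep (√T) hsT0
    rw [hsq] at h3
    have h4 := T8b_pA (α := α) hτ n hn (√T) hsT
    rw [h3] at h4
    have hintT : Integrable (fun v => 1 / (v + T)) (rhoM n α τ) := by
      refine Integrable.mono' hint
        (measurable_const.div (measurable_id.add measurable_const)).aestronglyMeasurable ?_
      filter_upwards [hpos] with v hv
      rw [Real.norm_eq_abs, abs_of_pos (by positivity)]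
      exact one_div_le_one_div_of_le (by linarith) (by linarith)
    rw [← ofReal_integral_eq_lintegral_ofReal hintT
      (by filter_upwards [hpos] with v hv; positivity)]
    refine ENNReal.ofReal_le_ofReal ?_
    rw [← T8b_rpow T hT, mul_div_assoc', le_div_iff₀ hsT0]
    calc (∫ v, 1 / (v + T) ∂(rhoM n α τ)) * √T = √T * ∫ v, 1 / (v + T) ∂(rhoM n α τ) := by ring
      _ ≤ Y * (n * √T ^ (1 / 3 : ℝ)) := h4
      _ = Y * n * √T ^ (1 / 3 : ℝ) := by ring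
  have hmeas : Measurable (fun v : ℝ => (1 + v) ^ (-(5 / 6) : ℝ)) :=
    (measurable_const.add measurable_id).pow_const _
  have hnn : 0 ≤ᵐ[rhoM n α τ] fun v => (1 + v) ^ (-(5 / 6) : ℝ) := by
    filter_upwards [hpos] with v hv
    exact Real.rpow_nonneg (by linarith) _
  refine ⟨⟨hmeas.aestronglyMeasurable, ?_⟩, ?_⟩
  · rw [hasFiniteIntegral_iff_ofReal hnn]
    exact hkey.trans_lt ENNReal.ofReal_lt_top
  · rw [integral_eq_lintegral_of_nonneg_ae hnn hmeas.aestronglyMeasurable]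
    refine ENNReal.toReal_le_of_le_ofReal (by have := T8b_c_pos; positivity) ?_
    rw [mul_assoc]
    exact hkey

theorem T8b_logbound (hτ : 0 < τ) : ∃ K : ℝ, 0 < K ∧ ∀ n : ℕ, 0 < n → ∀ x : ℝ, 1 ≤ x →
    Real.log ((fj n α τ 0 x).re / (fj n α τ 0 0).re) ≤ K * n * x ^ (4 / 3 : ℝ) := by
  obtain ⟨C₁, hC₁, hup⟩ := fj_upper (α := α) hτ
  obtain ⟨c₁, hc₁, hlow⟩ := fj_lower (α := α) hτ
  obtain ⟨C₂, hC₂, hgr⟩ := gg_growth (α := α) hτ
  refine ⟨C₁ / c₁ + 2 + C₂ * 2 ^ (4 / 3 : ℝ), by positivity, fun n hn x hx => ?_⟩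
  have hn1 : (1 : ℝ) ≤ n := by exact_mod_cast hn
  have hn0 : (0 : ℝ) < n := by linarith
  have hx0 : 0 < x := by linarith
  have h1 := hup n hn x
  have h2 := hlow n hn 0
  have hxl := hlow n hn x
  rw [abs_of_pos hx0] at h1 hxl
  simp only [Complex.ofReal_zero, abs_zero, add_zero, mul_one] at h2
  have hf0 : 0 < (fj n α τ 0 0).re := lt_of_lt_of_le (by positivity) h2
  have hfx : 0 < (fj n α τ 0 x).re := lt_of_lt_of_le (by positivity) hxl
  have hg0 : 0 ≤ gg α τ 0 := gg_nonneg 0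
  have hexp0 : 1 ≤ Real.exp (n * gg α τ 0) := Real.one_le_exp (by positivity)
  have h3 : c₁ / n ≤ (fj n α τ 0 0).re := by
    refine le_trans ?_ h2
    have : 0 < c₁ / n := by positivity
    nlinarith
  have h4 : (fj n α τ 0 x).re / (fj n α τ 0 0).re ≤
      C₁ / c₁ * n * (1 + x) * Real.exp (n * gg α τ x) := by
    rw [div_le_iff₀ hf0]
    calc (fj n α τ 0 x).re ≤ C₁ * (1 + x) * Real.exp (n * gg α τ x) := h1
      _ = C₁ / c₁ * n * (1 + x) * Real.exp (n * gg α τ x) * (c₁ / n) := by field_simp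
      _ ≤ C₁ / c₁ * n * (1 + x) * Real.exp (n * gg α τ x) * (fj n α τ 0 0).re :=
          mul_le_mul_of_nonneg_left h3 (by positivity)
  have h5 := Real.log_le_log (div_pos hfx hf0) h4
  rw [Real.log_mul (by positivity) (Real.exp_pos _).ne', Real.log_exp,
    Real.log_mul (by positivity) (by positivity), Real.log_mul (by positivity) hn0.ne'] at h5
  refine h5.trans ?_
  have l1 : Real.log (C₁ / c₁) ≤ C₁ / c₁ := (Real.log_le_sub_one_of_pos (by positivity)).trans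
    (by linarith)
  have l2 : Real.log n ≤ n := (Real.log_le_sub_one_of_pos hn0).trans (by linarith)
  have l3 : Real.log (1 + x) ≤ x := (Real.log_le_sub_one_of_pos (by linarith)).trans (by linarith)
  have hx43 : 1 ≤ x ^ (4 / 3 : ℝ) := Real.one_le_rpow hx (by norm_num)
  have hx43' : x ≤ x ^ (4 / 3 : ℝ) := by
    have := Real.rpow_le_rpow_of_exponent_le hx (show (1 : ℝ) ≤ 4 / 3 by norm_num)
    rwa [Real.rpow_one] at this
  have l4 : gg α τ x ≤ C₂ * 2 ^ (4 / 3 : ℝ) * x ^ (4 / 3 : ℝ) := by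
    refine (hgr x).trans ?_
    rw [abs_of_pos hx0, mul_assoc, ← Real.mul_rpow (by norm_num) hx0.le]
    refine mul_le_mul_of_nonneg_left ?_ hC₂.le
    exact Real.rpow_le_rpow (by linarith) (by linarith) (by norm_num)
  set X : ℝ := x ^ (4 / 3 : ℝ) with hX
  have hnX : (n : ℝ) ≤ n * X := by nlinarith
  have m1 : C₁ / c₁ ≤ C₁ / c₁ * (n * X) := by
    have : 0 < C₁ / c₁ := by positivity
    have h1n : 1 ≤ (n : ℝ) * X := by linarith
    nlinarith
  have m3 : x ≤ n * X := by nlinarith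
  have m4 : n * gg α τ x ≤ n * (C₂ * 2 ^ (4 / 3 : ℝ) * X) := mul_le_mul_of_nonneg_left l4 hn0.le
  calc Real.log (C₁ / c₁) + Real.log n + Real.log (1 + x) + n * gg α τ x
      ≤ C₁ / c₁ * (n * X) + n * X + n * X + n * (C₂ * 2 ^ (4 / 3 : ℝ) * X) := by linarith
    _ = (C₁ / c₁ + 2 + C₂ * 2 ^ (4 / 3 : ℝ)) * n * X := by ring

theorem Zt_mass (hτ : 0 < τ) : ∃ C : ℝ, 0 < C ∧ ∀ n : ℕ, 0 < n →
    Summable (fun t : Zt n α τ => (1 + (t : ℝ)) ^ (-(5 / 6) : ℝ)) ∧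
    ∑' t : Zt n α τ, (1 + (t : ℝ)) ^ (-(5 / 6) : ℝ) ≤ C * n := by
  obtain ⟨K, hK, hlog⟩ := T8b_logbound (α := α) hτ
  refine ⟨T8b_c * K, mul_pos T8b_c_pos hK, fun n hn => ?_⟩
  have hn0 : (0 : ℝ) < n := by exact_mod_cast hn
  have htpos : ∀ t : Zt n α τ, 0 < (t : ℝ) := fun t => t.2.1
  have hkey : ∑' t : Zt n α τ, ENNReal.ofReal ((1 + (t : ℝ)) ^ (-(5 / 6) : ℝ)) ≤
      ENNReal.ofReal (T8b_c * (K * n)) := by
    have hvm : Measurable (fun t : Zt n α τ => (t : ℝ)) := measurable_subtype_coe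
    have h0 := T8b_general (Measure.count : Measure (Zt n α τ)) (fun t => (t : ℝ)) hvm
      (Filter.Eventually.of_forall fun t => (htpos t).le) (K * n) (by positivity) ?_
    · rwa [lintegral_count] at h0
    · intro T hT
      have hT0 : 0 < T := by linarith
      have hsq : √T ^ 2 = T := Real.sq_sqrt hT0.le
      have hsT : 1 ≤ √T := Real.one_le_sqrt.2 hT
      obtain ⟨hsum, hlogeq⟩ := log_FF (α := α) hn0 hτ (√T) (Real.sqrt_nonneg T)
      rw [hsq] at hsum hlogeq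
      have hb := hlog n hn (√T) hsT
      rw [hlogeq] at hb
      rw [lintegral_count]
      have hterm : ∀ t : Zt n α τ, 1 / ((t : ℝ) + T) ≤ (1 / T) * Real.log (1 + T / (t : ℝ)) := by
        intro t
        have ht := htpos t
        have h1 : 0 < 1 + T / (t : ℝ) := by positivity
        have h2 := Real.one_sub_inv_le_log_of_pos h1
        have h3 : 1 - (1 + T / (t : ℝ))⁻¹ = T * (1 / ((t : ℝ) + T)) := by
          field_simp
          ring
        rw [h3] at h2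
        calc 1 / ((t : ℝ) + T) = 1 / T * (T * (1 / ((t : ℝ) + T))) := by field_simp
          _ ≤ 1 / T * Real.log (1 + T / (t : ℝ)) := mul_le_mul_of_nonneg_left h2 (by positivity)
      have hlog0 : ∀ t : Zt n α τ, 0 ≤ 1 / T * Real.log (1 + T / (t : ℝ)) := fun t => by
        have ht := htpos t
        have : 0 ≤ T / (t : ℝ) := by positivity
        exact mul_nonneg (by positivity) (Real.log_nonneg (by linarith))
      calc ∑' t : Zt n α τ, ENNReal.ofReal (1 / ((t : ℝ) + T))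
          ≤ ∑' t : Zt n α τ, ENNReal.ofReal (1 / T * Real.log (1 + T / (t : ℝ))) :=
            ENNReal.tsum_le_tsum fun t => ENNReal.ofReal_le_ofReal (hterm t)
        _ = ENNReal.ofReal (∑' t : Zt n α τ, 1 / T * Real.log (1 + T / (t : ℝ))) :=
            (ENNReal.ofReal_tsum_of_nonneg hlog0 (hsum.mul_left _)).symm
        _ ≤ ENNReal.ofReal (K * n * T ^ (-(1 / 3) : ℝ)) := by
            refine ENNReal.ofReal_le_ofReal ?_
            rw [tsum_mul_left]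
            have h43 : (√T) ^ (4 / 3 : ℝ) = T * T ^ (-(1 / 3) : ℝ) := by
              rw [Real.sqrt_eq_rpow, ← Real.rpow_mul hT0.le]
              nth_rewrite 2 [← Real.rpow_one T]
              rw [← Real.rpow_add hT0]
              congr 1
              norm_num
            rw [h43] at hb
            rw [one_div, inv_mul_le_iff₀ hT0]
            calc _ ≤ K * n * (T * T ^ (-(1 / 3) : ℝ)) := hb
              _ = T * (K * n * T ^ (-(1 / 3) : ℝ)) := by ring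
  have hnn : ∀ t : Zt n α τ, 0 ≤ (1 + (t : ℝ)) ^ (-(5 / 6) : ℝ) := fun t =>
    Real.rpow_nonneg (by have := htpos t; linarith) _
  have hsummable : Summable (fun t : Zt n α τ => (1 + (t : ℝ)) ^ (-(5 / 6) : ℝ)) := by
    have h1 : ∑' t : Zt n α τ, ENNReal.ofReal ((1 + (t : ℝ)) ^ (-(5 / 6) : ℝ)) ≠ ⊤ :=
      (hkey.trans_lt ENNReal.ofReal_lt_top).ne
    have h2 := ENNReal.summable_toReal h1
    refine h2.congr fun t => ?_
    rw [ENNReal.toReal_ofReal (hnn t)]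
  refine ⟨hsummable, ?_⟩
  rw [← ENNReal.ofReal_tsum_of_nonneg hnn hsummable] at hkey
  have := T8b_c_pos
  rw [ENNReal.ofReal_le_ofReal_iff (by positivity)] at hkey
  rw [mul_assoc]
  exact hkey

end

end Pool.Agent.MP_941b23_mp
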