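import Pool.Agent.MP_941b23_mp.Defs2

/-!
# [U1] the discrete inequality
-/

namespace Pool.Agent.MP_941b23_mp

open MeasureTheory Set Filter Topology
open scoped ENNReal NNReal Real

noncomputable section

theorem qf_nat (A B C : ℕ) : (B : ℝ) ≤ qf A B C ∧ (C : ℝ) ≤ qf A B C := by
  have hq : ∀ a b c : ℤ, 0 ≤ b → 0 ≤ c → b ≤ a ^ 2 + b ^ 2 + c ^ 2 - a * b - b * c ∧
      c ≤ a ^ 2 + b ^ 2 + c ^ 2 - a * b - b * c := by
    intro a b c hb hc
    constructor
    · rcases lt_or_ge b 2 with h | h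
      · interval_cases b
        · nlinarith [sq_nonneg a, sq_nonneg c]
        · have h1 : 0 ≤ a * (a - 1) := by
            rcases le_or_gt a 0 with h | h
            · nlinarith
            · nlinarith
          have h2 : 0 ≤ c * (c - 1) := by
            rcases le_or_gt c 0 with h | h
            · nlinarith
            · nlinarith
          nlinarith
      · nlinarith [sq_nonneg (2 * a - b), sq_nonneg (2 * c - b), mul_nonneg hb (sub_nonneg.2 h)]
    · rcases lt_or_ge c 2 with h | h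
      · interval_cases c
        · nlinarith [sq_nonneg (2 * a - b), sq_nonneg b]
        · by_contra h1
          push Not at h1
          have h2 : a ^ 2 + b ^ 2 + 1 ^ 2 - a * b - b * 1 ≤ 0 := by linarith
          nlinarith [sq_nonneg (2 * a - b), sq_nonneg (3 * b - 2)]
      · nlinarith [sq_nonneg (2 * a - b), sq_nonneg (3 * b - 2 * c),
          mul_nonneg hc (sub_nonneg.2 h)]
  have h := hq A B C (by positivity) (by positivity)
  unfold qf
  constructor
  · exact_mod_cast h.1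
  · exact_mod_cast h.2

/-- indicator -/
def u1_ind (u x : ℝ) : ℝ := if u < x then 1 else 0

/-- `∫_1^∞ f(u) du/u = c`, with integrability -/
def U1Has (f : ℝ → ℝ) (c : ℝ) : Prop :=
  IntegrableOn (fun u => 1 / u * f u) (Ioi (1 : ℝ)) ∧ ∫ u in Ioi (1 : ℝ), 1 / u * f u = c

theorem U1Has.add {f g : ℝ → ℝ} {c d : ℝ} (hf : U1Has f c) (hg : U1Has g d) :
    U1Has (fun u => f u + g u) (c + d) := by
  have e : (fun u => 1 / u * (f u + g u)) = fun u => 1 / u * f u + 1 / u * g u := by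
    funext u; ring
  refine ⟨?_, ?_⟩
  · rw [e]; exact hf.1.add hg.1
  · rw [e, integral_add hf.1 hg.1, hf.2, hg.2]

theorem U1Has.const_mul {f : ℝ → ℝ} {c : ℝ} (a : ℝ) (hf : U1Has f c) :
    U1Has (fun u => a * f u) (a * c) := by
  have e : (fun u => 1 / u * (a * f u)) = fun u => a * (1 / u * f u) := by
    funext u; ring
  refine ⟨?_, ?_⟩
  · rw [e]; exact hf.1.const_mul a
  · rw [e, integral_const_mul, hf.2]

theorem U1Has.zero : U1Has (fun _ => 0) 0 := by
  constructor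
  · simp
  · simp

theorem U1Has.sum {ι : Type*} (s : Finset ι) {f : ι → ℝ → ℝ} {c : ι → ℝ}
    (h : ∀ i ∈ s, U1Has (f i) (c i)) : U1Has (fun u => ∑ i ∈ s, f i u) (∑ i ∈ s, c i) := by
  classical
  induction s using Finset.induction_on with
  | empty => simpa using U1Has.zero
  | insert a s ha ih =>
    have h1 := (h a (by simp)).add (ih fun i hi => h i (by simp [hi]))
    simpa [Finset.sum_insert ha] using h1

theorem U1Has.congr {f g : ℝ → ℝ} {c d : ℝ} (hf : U1Has f c) (h : ∀ u, f u = g u) (hc : c = d) :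
    U1Has g d := by
  have : f = g := funext h
  subst this; subst hc
  exact hf

theorem u1_has_ind (x : ℝ) : U1Has (fun u => u1_ind u x) (Real.log (max x 1)) := by
  have e : (fun u : ℝ => 1 / u * u1_ind u x) = (Iio x).indicator (fun u => 1 / u) := by
    funext u
    by_cases h : u < x
    · simp [u1_ind, h]
    · simp [u1_ind, h]
  rcases le_or_gt x 1 with hx | hx
  · have h0 : ∀ u ∈ Ioi (1 : ℝ), (Iio x).indicator (fun u : ℝ => 1 / u) u = 0 := by
      intro u hu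
      rw [Set.indicator_of_notMem]
      simp only [mem_Iio, not_lt]
      exact hx.trans (le_of_lt hu)
    constructor
    · rw [e]
      exact (integrableOn_zero).congr_fun (fun u hu => (h0 u hu).symm) measurableSet_Ioi
    · rw [e, setIntegral_congr_fun measurableSet_Ioi h0, max_eq_right hx]
      simp
  · have hI : IntegrableOn (fun u : ℝ => 1 / u) (Icc 1 x) := by
      apply ContinuousOn.integrableOn_Icc
      intro u hu
      have : u ≠ 0 := by
        have := hu.1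
        intro h
        linarith
      exact (continuousAt_const.div continuousAt_id this).continuousWithinAt
    have hset : Iio x ∩ Ioi 1 = Ioo 1 x := by
      ext u; simp [and_comm]
    constructor
    · rw [e]
      unfold IntegrableOn
      rw [integrable_indicator_iff measurableSet_Iio]
      unfold IntegrableOn
      rw [Measure.restrict_restrict measurableSet_Iio, hset]
      exact hI.mono_set Ioo_subset_Icc_self
    · rw [e, integral_indicator measurableSet_Iio, Measure.restrict_restrict measurableSet_Iio,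
        hset, ← integral_Ioc_eq_integral_Ioo, ← intervalIntegral.integral_of_le hx.le,
        integral_one_div_of_pos (by norm_num) (by linarith), max_eq_left hx.le, div_one]

theorem u1_ind_max (u x y : ℝ) :
    u1_ind u (max x y) = u1_ind u x + u1_ind u y - u1_ind u x * u1_ind u y := by
  unfold u1_ind
  by_cases h1 : u < x <;> by_cases h2 : u < y <;> simp [h1, h2]

theorem u1_ind_sq (u x : ℝ) : u1_ind u x * u1_ind u x = u1_ind u x := by
  unfold u1_ind
  by_cases h1 : u < x <;> simp [h1]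

theorem u1_cnt {m : ℕ} (x : Fin m → ℝ) (u : ℝ) : (cnt x u : ℝ) = ∑ i, u1_ind u (x i) := by
  unfold cnt u1_ind
  rw [Finset.card_filter]
  push_cast
  rfl

theorem u1_pair_erase {m : ℕ} (x : Fin m → ℝ) (u : ℝ) :
    ∑ i, ∑ j ∈ Finset.univ.erase i, u1_ind u (max (x i) (x j)) =
      2 * (m : ℝ) * cnt x u - (cnt x u : ℝ) ^ 2 - cnt x u := by
  rw [u1_cnt]
  have h : ∀ i, ∑ j ∈ Finset.univ.erase i, u1_ind u (max (x i) (x j)) =
      ((m : ℝ) * u1_ind u (x i) + ∑ j, u1_ind u (x j) - u1_ind u (x i) * ∑ j, u1_ind u (x j)) -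
        u1_ind u (x i) := by
    intro i
    rw [Finset.sum_erase_eq_sub (Finset.mem_univ i), max_self]
    congr 1
    simp_rw [u1_ind_max]
    rw [Finset.sum_sub_distrib, Finset.sum_add_distrib, ← Finset.mul_sum]
    simp
  rw [Finset.sum_congr rfl fun i _ => h i, Finset.sum_sub_distrib, Finset.sum_sub_distrib,
    Finset.sum_add_distrib, ← Finset.mul_sum, ← Finset.sum_mul]
  simp
  ring

theorem u1_pair_full {m k : ℕ} (x : Fin m → ℝ) (y : Fin k → ℝ) (u : ℝ) :
    ∑ i, ∑ j, u1_ind u (max (x i) (y j)) =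
      (m : ℝ) * cnt y u + (k : ℝ) * cnt x u - (cnt x u : ℝ) * cnt y u := by
  rw [u1_cnt, u1_cnt]
  have h : ∀ i, ∑ j, u1_ind u (max (x i) (y j)) =
      (k : ℝ) * u1_ind u (x i) + ∑ j, u1_ind u (y j) - u1_ind u (x i) * ∑ j, u1_ind u (y j) := by
    intro i
    simp_rw [u1_ind_max]
    rw [Finset.sum_sub_distrib, Finset.sum_add_distrib, ← Finset.mul_sum]
    simp
  rw [Finset.sum_congr rfl fun i _ => h i, Finset.sum_sub_distrib,
    Finset.sum_add_distrib, ← Finset.mul_sum, ← Finset.sum_mul]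
  simp
  ring

theorem u1_sizes (ε m : ℕ) (hε : ε = 0 ∨ ε = 1) :
    (2 * (kk ε m : ℤ) - m - ll ε m - 1 + ε = 0 ∧ 2 * (ll ε m : ℤ) - kk ε m - ε = -1) ∨
    (2 * (kk ε m : ℤ) - m - ll ε m - 1 + ε = -1 ∧ 2 * (ll ε m : ℤ) - kk ε m - ε = -1) ∨
    (2 * (kk ε m : ℤ) - m - ll ε m - 1 + ε = -1 ∧ 2 * (ll ε m : ℤ) - kk ε m - ε = 0) := by
  unfold kk ll
  rcases hε with rfl | rfl
  · simp only [Nat.zero_ne_one, if_false]
    omega
  · simp only [if_true]
    omega

/-- the pointwise inequality -/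
theorem u1_pointwise (ε m : ℕ) (hε : ε = 0 ∨ ε = 1) (A B C : ℕ) :
    max 0 (qf A B C - ((B : ℝ) + C)) ≤
      qf A B C - (2 * (kk ε m : ℝ) - m - ll ε m - 1 + ε + 5 / 6) * B -
        (2 * (ll ε m : ℝ) - kk ε m - ε + 5 / 6) * C := by
  have hq := qf_nat A B C
  have hB : (0 : ℝ) ≤ B := by positivity
  have hC : (0 : ℝ) ≤ C := by positivity
  have hs : (2 * (kk ε m : ℝ) - m - ll ε m - 1 + ε = 0 ∧ 2 * (ll ε m : ℝ) - kk ε m - ε = -1) ∨
    (2 * (kk ε m : ℝ) - m - ll ε m - 1 + ε = -1 ∧ 2 * (ll ε m : ℝ) - kk ε m - ε = -1) ∨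
    (2 * (kk ε m : ℝ) - m - ll ε m - 1 + ε = -1 ∧ 2 * (ll ε m : ℝ) - kk ε m - ε = 0) := by
    rcases u1_sizes ε m hε with ⟨h1, h2⟩ | ⟨h1, h2⟩ | ⟨h1, h2⟩
    · exact Or.inl ⟨by exact_mod_cast h1, by exact_mod_cast h2⟩
    · exact Or.inr (Or.inl ⟨by exact_mod_cast h1, by exact_mod_cast h2⟩)
    · exact Or.inr (Or.inr ⟨by exact_mod_cast h1, by exact_mod_cast h2⟩)
  rcases hs with ⟨h1, h2⟩ | ⟨h1, h2⟩ | ⟨h1, h2⟩
  · rw [h1, h2]; exact max_le (by linarith) (by linarith)
  · rw [h1, h2]; exact max_le (by linarith) (by linarith)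
  · rw [h1, h2]; exact max_le (by linarith) (by linarith)

/-- double sums of symmetric functions -/
theorem u1_sum_symm {m : ℕ} (g : Fin m → Fin m → ℝ) (hg : ∀ i j, g i j = g j i) :
    ∑ i, ∑ j ∈ Finset.univ.erase i, g i j = 2 * ∑ i, ∑ j ∈ Finset.Ioi i, g i j := by
  have h1 : ∀ i : Fin m, ∑ j ∈ Finset.univ.erase i, g i j =
      ∑ j ∈ Finset.Ioi i, g i j + ∑ j ∈ Finset.Iio i, g i j := by
    intro i
    rw [← Finset.sum_union]
    · congr 1
      ext j
      simp only [Finset.mem_erase, Finset.mem_univ, and_true, Finset.mem_union, Finset.mem_Ioi,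
        Finset.mem_Iio]
      exact ⟨fun h => (lt_or_gt_of_ne h).symm, fun h => h.elim (fun h => h.ne') fun h => h.ne⟩
    · rw [Finset.disjoint_left]
      intro j hj hj'
      rw [Finset.mem_Ioi] at hj
      rw [Finset.mem_Iio] at hj'
      exact absurd hj (not_lt.2 hj'.le)
  have h2 : ∑ i : Fin m, ∑ j ∈ Finset.Iio i, g i j = ∑ i, ∑ j ∈ Finset.Ioi i, g i j := by
    rw [Finset.sum_comm' (t' := Finset.univ) (s' := fun j => Finset.Ioi j)]
    · exact Finset.sum_congr rfl fun i _ => Finset.sum_congr rfl fun j _ => hg _ _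
    · intro x y
      simp [Finset.mem_Iio, Finset.mem_Ioi]
  rw [Finset.sum_congr rfl fun i _ => h1 i, Finset.sum_add_distrib, h2]
  ring

theorem u1_vd_ne {m : ℕ} (x : Fin m → ℝ) (hx : Function.Injective x) : vd x ≠ 0 := by
  unfold vd
  refine Finset.prod_ne_zero_iff.2 fun i _ => Finset.prod_ne_zero_iff.2 fun j hj => ?_
  rw [Finset.mem_Ioi] at hj
  exact sub_ne_zero.2 fun h => hj.ne (hx h).symm

theorem u1_log_vd {m : ℕ} (x : Fin m → ℝ) (hx : Function.Injective x) :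
    Real.log (vd x ^ 2) = ∑ i, ∑ j ∈ Finset.univ.erase i, Real.log |x i - x j| := by
  rw [u1_sum_symm (fun i j => Real.log |x i - x j|) (fun i j => by rw [abs_sub_comm]),
    Real.log_pow]
  have h : Real.log (vd x) = ∑ i, ∑ j ∈ Finset.Ioi i, Real.log |x i - x j| := by
    unfold vd
    rw [Real.log_prod]
    · refine Finset.sum_congr rfl fun i _ => ?_
      rw [Real.log_prod]
      · refine Finset.sum_congr rfl fun j _ => ?_
        rw [Real.log_abs, ← Real.log_abs (x i - x j), abs_sub_comm, Real.log_abs]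
      · intro j hj
        rw [Finset.mem_Ioi] at hj
        exact sub_ne_zero.2 fun h => hj.ne (hx h).symm
    · intro i _
      refine Finset.prod_ne_zero_iff.2 fun j hj => ?_
      rw [Finset.mem_Ioi] at hj
      exact sub_ne_zero.2 fun h => hj.ne (hx h).symm
  rw [h]
  push_cast
  ring

theorem u1_Rm {m : ℕ} (x : Fin m → ℝ) (hx : Function.Injective x) :
    ∑ i, ∑ j ∈ Finset.univ.erase i, Rm (x i) (x j) =
      ∑ i, ∑ j ∈ Finset.univ.erase i, Real.log (max (max (x i) (x j)) 1) -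
        Real.log (vd x ^ 2) := by
  rw [u1_log_vd x hx, ← Finset.sum_sub_distrib]
  refine Finset.sum_congr rfl fun i _ => ?_
  rw [← Finset.sum_sub_distrib]
  refine Finset.sum_congr rfl fun j hj => ?_
  unfold Rm
  rw [Real.log_div]
  · exact (lt_of_lt_of_le zero_lt_one (le_max_right _ _)).ne'
  · rw [abs_ne_zero, sub_ne_zero]
    intro h
    exact (Finset.ne_of_mem_erase hj) (hx h).symm

theorem u1_Rp {m k : ℕ} (x : Fin m → ℝ) (y : Fin k → ℝ) (hx : ∀ i, 0 < x i) (hy : ∀ i, 0 < y i) :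
    ∑ i, ∑ j, Rp (x i) (y j) =
      Real.log (∏ i, ∏ j, (x i + y j)) - ∑ i, ∑ j, Real.log (max (max (x i) (y j)) 1) := by
  rw [Real.log_prod (fun i _ => Finset.prod_ne_zero_iff.2 fun j _ =>
    (add_pos (hx i) (hy j)).ne'), ← Finset.sum_sub_distrib]
  refine Finset.sum_congr rfl fun i _ => ?_
  rw [Real.log_prod (fun j _ => (add_pos (hx i) (hy j)).ne'), ← Finset.sum_sub_distrib]
  refine Finset.sum_congr rfl fun j _ => ?_
  unfold Rp
  rw [Real.log_div (add_pos (hx i) (hy j)).ne'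
    (lt_of_lt_of_le zero_lt_one (le_max_right _ _)).ne']

theorem u1_log_le (x : ℝ) (hx : 0 < x) : Real.log x ≤ Real.log (max x 1) :=
  Real.log_le_log hx (le_max_left _ _)

theorem u1_log_one_add_le (x : ℝ) (hx : 0 < x) :
    5 / 6 * Real.log (1 + x) ≤ 5 / 6 * Real.log (max x 1) + 1 := by
  have h1 : Real.log (1 + x) ≤ Real.log (2 * max x 1) := by
    apply Real.log_le_log (by linarith)
    have := le_max_left x 1
    have := le_max_right x 1
    linarith
  rw [Real.log_mul (by norm_num) (lt_of_lt_of_le zero_lt_one (le_max_right _ _)).ne'] at h1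
  have h2 := Real.log_two_lt_d9
  linarith

theorem disc_ineq (ε m : ℕ) (hε : ε = 0 ∨ ε = 1) (ξ : Fin m → ℝ) (t : Fin (kk ε m) → ℝ)
    (v : Fin (ll ε m) → ℝ) (hξ : ∀ i, 0 < ξ i) (ht : ∀ i, 0 < t i) (hv : ∀ i, 0 < v i)
    (iξ : Function.Injective ξ) (it : Function.Injective t) (iv : Function.Injective v) :
    ∑ i, ∑ j ∈ Finset.univ.erase i, Rm (ξ i) (ξ j) +
    ∑ i, ∑ j ∈ Finset.univ.erase i, Rm (t i) (t j) +
    ∑ i, ∑ j ∈ Finset.univ.erase i, Rm (v i) (v j) +
    ∑ i, ∑ j, Rp (ξ i) (t j) + ∑ i, ∑ j, Rp (t i) (v j) +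
    (∫ u in Ioi (1 : ℝ), 1 / u * max 0 (qf (cnt ξ u) (cnt t u) (cnt v u) -
      ((cnt t u : ℝ) + cnt v u))) -
    (2 * (m : ℝ) - kk ε m - 1) * ∑ i, Real.log (max (ξ i) 1) - ((kk ε m : ℝ) + ll ε m) ≤
    -Real.log (BI ε ξ t v * (∏ i, (1 + t i) ^ (5 / 6 : ℝ)) * ∏ i, (1 + v i) ^ (5 / 6 : ℝ)) := by
  -- the integral of the majorant
  set β : ℝ := 2 * (kk ε m : ℝ) - m - ll ε m - 1 + ε + 5 / 6 with hβ
  set γ : ℝ := 2 * (ll ε m : ℝ) - kk ε m - ε + 5 / 6 with hγ
  set Sξ := ∑ i, ∑ j ∈ Finset.univ.erase i, Real.log (max (max (ξ i) (ξ j)) 1) with hSξ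
  set St := ∑ i, ∑ j ∈ Finset.univ.erase i, Real.log (max (max (t i) (t j)) 1) with hSt
  set Sv := ∑ i, ∑ j ∈ Finset.univ.erase i, Real.log (max (max (v i) (v j)) 1) with hSv
  set Sξt := ∑ i, ∑ j, Real.log (max (max (ξ i) (t j)) 1) with hSξt
  set Stv := ∑ i, ∑ j, Real.log (max (max (t i) (v j)) 1) with hStv
  have HA : U1Has (fun u => ∑ i, u1_ind u (ξ i)) (∑ i, Real.log (max (ξ i) 1)) :=
    U1Has.sum _ fun i _ => u1_has_ind _
  have HB : U1Has (fun u => ∑ i, u1_ind u (t i)) (∑ i, Real.log (max (t i) 1)) :=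
    U1Has.sum _ fun i _ => u1_has_ind _
  have HC : U1Has (fun u => ∑ i, u1_ind u (v i)) (∑ i, Real.log (max (v i) 1)) :=
    U1Has.sum _ fun i _ => u1_has_ind _
  have HAA : U1Has (fun u => ∑ i, ∑ j ∈ Finset.univ.erase i, u1_ind u (max (ξ i) (ξ j))) Sξ :=
    U1Has.sum _ fun i _ => U1Has.sum _ fun j _ => u1_has_ind _
  have HBB : U1Has (fun u => ∑ i, ∑ j ∈ Finset.univ.erase i, u1_ind u (max (t i) (t j))) St :=
    U1Has.sum _ fun i _ => U1Has.sum _ fun j _ => u1_has_ind _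
  have HCC : U1Has (fun u => ∑ i, ∑ j ∈ Finset.univ.erase i, u1_ind u (max (v i) (v j))) Sv :=
    U1Has.sum _ fun i _ => U1Has.sum _ fun j _ => u1_has_ind _
  have HAB : U1Has (fun u => ∑ i, ∑ j, u1_ind u (max (ξ i) (t j))) Sξt :=
    U1Has.sum _ fun i _ => U1Has.sum _ fun j _ => u1_has_ind _
  have HBC : U1Has (fun u => ∑ i, ∑ j, u1_ind u (max (t i) (v j))) Stv :=
    U1Has.sum _ fun i _ => U1Has.sum _ fun j _ => u1_has_ind _
  have HT := ((((((HAA.const_mul (-1)).add (HBB.const_mul (-1))).add (HCC.const_mul (-1))).add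
    HAB).add HBC).add (HA.const_mul (2 * (m : ℝ) - 1 - kk ε m))).add
    ((HB.const_mul (-(ε + 5 / 6 : ℝ))).add (HC.const_mul (-(1 - ε + 5 / 6 : ℝ))))
  have HQ : U1Has (fun u => qf (cnt ξ u) (cnt t u) (cnt v u) - β * (cnt t u : ℝ) -
      γ * (cnt v u : ℝ)) (-1 * Sξ + -1 * St + -1 * Sv + Sξt + Stv +
        (2 * (m : ℝ) - 1 - kk ε m) * ∑ i, Real.log (max (ξ i) 1) +
        (-(ε + 5 / 6 : ℝ) * ∑ i, Real.log (max (t i) 1) +
          -(1 - ε + 5 / 6 : ℝ) * ∑ i, Real.log (max (v i) 1))) := by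
    refine HT.congr (fun u => ?_) rfl
    rw [u1_pair_erase, u1_pair_erase, u1_pair_erase, u1_pair_full, u1_pair_full, ← u1_cnt,
      ← u1_cnt, ← u1_cnt, hβ, hγ]
    unfold qf
    ring
  have hint : ∫ u in Ioi (1 : ℝ), 1 / u * max 0 (qf (cnt ξ u) (cnt t u) (cnt v u) -
      ((cnt t u : ℝ) + cnt v u)) ≤ ∫ u in Ioi (1 : ℝ), 1 / u * (qf (cnt ξ u) (cnt t u) (cnt v u) -
        β * (cnt t u : ℝ) - γ * (cnt v u : ℝ)) := by
    refine integral_mono_of_nonneg ?_ HQ.1 ?_
    · filter_upwards [ae_restrict_mem measurableSet_Ioi] with u hu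
      have hu' : (0 : ℝ) < u := lt_trans zero_lt_one hu
      exact mul_nonneg (by positivity) (le_max_left _ _)
    · filter_upwards [ae_restrict_mem measurableSet_Ioi] with u hu
      have hu' : (0 : ℝ) < u := lt_trans zero_lt_one hu
      exact mul_le_mul_of_nonneg_left (u1_pointwise ε m hε _ _ _) (by positivity)
  rw [HQ.2] at hint
  -- logarithms
  have hvξ := u1_vd_ne ξ iξ
  have hvt := u1_vd_ne t it
  have hvv := u1_vd_ne v iv
  have hpt : ∏ i, t i ^ ε ≠ 0 := Finset.prod_ne_zero_iff.2 fun i _ => (pow_pos (ht i) _).ne'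
  have hpv : ∏ i, v i ^ (1 - ε) ≠ 0 := Finset.prod_ne_zero_iff.2 fun i _ => (pow_pos (hv i) _).ne'
  have hp1 : ∏ i, ∏ j, (ξ i + t j) ≠ 0 := Finset.prod_ne_zero_iff.2 fun i _ =>
    Finset.prod_ne_zero_iff.2 fun j _ => (add_pos (hξ i) (ht j)).ne'
  have hp2 : ∏ i, ∏ j, (t i + v j) ≠ 0 := Finset.prod_ne_zero_iff.2 fun i _ =>
    Finset.prod_ne_zero_iff.2 fun j _ => (add_pos (ht i) (hv j)).ne'
  have hq1 : ∏ i, (1 + t i) ^ (5 / 6 : ℝ) ≠ 0 := Finset.prod_ne_zero_iff.2 fun i _ =>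
    (Real.rpow_pos_of_pos (by have := ht i; linarith) _).ne'
  have hq2 : ∏ i, (1 + v i) ^ (5 / 6 : ℝ) ≠ 0 := Finset.prod_ne_zero_iff.2 fun i _ =>
    (Real.rpow_pos_of_pos (by have := hv i; linarith) _).ne'
  have hnum : vd ξ ^ 2 * vd t ^ 2 * vd v ^ 2 * (∏ i, t i ^ ε) * (∏ i, v i ^ (1 - ε)) ≠ 0 := by
    positivity
  have hden : (∏ i, ∏ j, (ξ i + t j)) * (∏ i, ∏ j, (t i + v j)) ≠ 0 := mul_ne_zero hp1 hp2
  have hBI : BI ε ξ t v ≠ 0 := div_ne_zero hnum hden
  have hlogBI : Real.log (BI ε ξ t v) = Real.log (vd ξ ^ 2) + Real.log (vd t ^ 2) +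
      Real.log (vd v ^ 2) + (ε : ℝ) * ∑ i, Real.log (t i) + (1 - ε : ℝ) * ∑ i, Real.log (v i) -
      Real.log (∏ i, ∏ j, (ξ i + t j)) - Real.log (∏ i, ∏ j, (t i + v j)) := by
    have e1 : Real.log (∏ i, t i ^ ε) = (ε : ℝ) * ∑ i, Real.log (t i) := by
      rw [Real.log_prod (fun i _ => (pow_pos (ht i) _).ne'), Finset.mul_sum]
      exact Finset.sum_congr rfl fun i _ => Real.log_pow _ _
    have e2 : Real.log (∏ i, v i ^ (1 - ε)) = (1 - ε : ℝ) * ∑ i, Real.log (v i) := by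
      rw [Real.log_prod (fun i _ => (pow_pos (hv i) _).ne'), Finset.mul_sum]
      refine Finset.sum_congr rfl fun i _ => ?_
      rw [Real.log_pow]
      rcases hε with rfl | rfl <;> simp
    unfold BI
    rw [Real.log_div hnum hden, Real.log_mul hp1 hp2, Real.log_mul (by positivity) hpv,
      Real.log_mul (by positivity) hpt, Real.log_mul (by positivity) (by positivity),
      Real.log_mul (by positivity) (by positivity), e1, e2]
    ring
  have hl1 : Real.log (∏ i, (1 + t i) ^ (5 / 6 : ℝ)) = ∑ i, 5 / 6 * Real.log (1 + t i) := by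
    rw [Real.log_prod (fun i _ => (Real.rpow_pos_of_pos (by have := ht i; linarith) _).ne')]
    exact Finset.sum_congr rfl fun i _ => Real.log_rpow (by have := ht i; linarith) _
  have hl2 : Real.log (∏ i, (1 + v i) ^ (5 / 6 : ℝ)) = ∑ i, 5 / 6 * Real.log (1 + v i) := by
    rw [Real.log_prod (fun i _ => (Real.rpow_pos_of_pos (by have := hv i; linarith) _).ne')]
    exact Finset.sum_congr rfl fun i _ => Real.log_rpow (by have := hv i; linarith) _
  rw [Real.log_mul (mul_ne_zero hBI hq1) hq2, Real.log_mul hBI hq1, hlogBI, hl1, hl2,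
    u1_Rm ξ iξ, u1_Rm t it, u1_Rm v iv, u1_Rp ξ t hξ ht, u1_Rp t v ht hv, ← hSξ, ← hSt, ← hSv,
    ← hSξt, ← hStv]
  have b1 : ∑ i, 5 / 6 * Real.log (1 + t i) ≤ 5 / 6 * ∑ i, Real.log (max (t i) 1) + kk ε m := by
    have : ∑ i, 5 / 6 * Real.log (1 + t i) ≤ ∑ i : Fin (kk ε m), (5 / 6 * Real.log (max (t i) 1) + 1) :=
      Finset.sum_le_sum fun i _ => u1_log_one_add_le _ (ht i)
    rw [Finset.sum_add_distrib, ← Finset.mul_sum] at this
    simpa [Finset.mul_sum] using this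
  have b2 : ∑ i, 5 / 6 * Real.log (1 + v i) ≤ 5 / 6 * ∑ i, Real.log (max (v i) 1) + ll ε m := by
    have : ∑ i, 5 / 6 * Real.log (1 + v i) ≤ ∑ i : Fin (ll ε m), (5 / 6 * Real.log (max (v i) 1) + 1) :=
      Finset.sum_le_sum fun i _ => u1_log_one_add_le _ (hv i)
    rw [Finset.sum_add_distrib, ← Finset.mul_sum] at this
    simpa [Finset.mul_sum] using this
  have b3 : ∑ i, Real.log (t i) ≤ ∑ i, Real.log (max (t i) 1) :=
    Finset.sum_le_sum fun i _ => u1_log_le _ (ht i)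
  have b4 : ∑ i, Real.log (v i) ≤ ∑ i, Real.log (max (v i) 1) :=
    Finset.sum_le_sum fun i _ => u1_log_le _ (hv i)
  have hε0 : (0 : ℝ) ≤ ε := by positivity
  have hε1 : (0 : ℝ) ≤ 1 - ε := by rcases hε with rfl | rfl <;> simp
  have b5 := mul_le_mul_of_nonneg_left b3 hε0
  have b6 := mul_le_mul_of_nonneg_left b4 hε1
  nlinarith

end

end Pool.Agent.MP_941b23_mp
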