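import Pool.Agent.MP_941b23_mp.Defs2
import Pool.Agent.MP_941b23_mp.P5
import Pool.Agent.MP_941b23_mp.P6
import Pool.Agent.MP_941b23_mp.P7c
import Pool.Agent.MP_941b23_mp.S10a
import Pool.Agent.MP_941b23_mp.S10b
import Pool.Agent.MP_941b23_mp.T2a
import Pool.Agent.MP_941b23_mp.T2b
import Pool.Agent.MP_941b23_mp.T4
import Pool.Agent.MP_941b23_mp.U1

/-!
# [U2] uniform upper bound on configurations
-/

namespace Pool.Agent.MP_941b23_mp

open MeasureTheory Set Filter Topology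
open scoped ENNReal NNReal Real

noncomputable section

/-- normalised counting measure -/
def u2_em (n : ℕ) {m : ℕ} (x : Fin m → ℝ) : Measure ℝ :=
  ENNReal.ofReal (1 / n) • Measure.sum fun i => Measure.dirac (x i)

theorem u2_int_sum {E ι : Type} [MeasurableSpace E] [MeasurableSingletonClass E] [Fintype ι]
    (x : ι → E) (g : E → ℝ) :
    ∫ z, g z ∂(Measure.sum fun i => Measure.dirac (x i)) = ∑ i, g (x i) := by
  rw [Measure.sum_fintype, integral_finsetSum_measure]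
  · exact Finset.sum_congr rfl fun i _ => integral_dirac g (x i)
  · intro i _
    exact integrable_dirac (by simp)

theorem u2_em_integral (n : ℕ) {m : ℕ} (x : Fin m → ℝ) (g : ℝ → ℝ) :
    ∫ z, g z ∂(u2_em n x) = 1 / n * ∑ i, g (x i) := by
  unfold u2_em
  rw [integral_smul_measure, u2_int_sum, ENNReal.toReal_ofReal (by positivity), smul_eq_mul]

theorem u2_em_prod (n : ℕ) {m k : ℕ} (x : Fin m → ℝ) (y : Fin k → ℝ) (G : ℝ × ℝ → ℝ) :
    ∫ z, G z ∂((u2_em n x).prod (u2_em n y)) = 1 / n * (1 / n * ∑ i, ∑ j, G (x i, y j)) := by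
  unfold u2_em
  rw [Measure.prod_smul_left, Measure.prod_smul_right, Measure.prod_sum]
  simp only [Measure.dirac_prod_dirac]
  rw [integral_smul_measure, integral_smul_measure,
    u2_int_sum (fun p : Fin m × Fin k => (x p.1, y p.2)), ENNReal.toReal_ofReal (by positivity),
    smul_eq_mul, smul_eq_mul, Fintype.sum_prod_type]

theorem u2_em_finite (n : ℕ) {m : ℕ} (x : Fin m → ℝ) : IsFiniteMeasure (u2_em n x) := by
  constructor
  unfold u2_em
  rw [Measure.smul_apply, Measure.sum_apply _ MeasurableSet.univ]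
  simp only [Measure.dirac_apply_of_mem (mem_univ _), tsum_fintype, Finset.sum_const,
    Finset.card_univ, Fintype.card_fin, smul_eq_mul, nsmul_eq_mul, mul_one]
  exact ENNReal.mul_lt_top ENNReal.ofReal_lt_top (ENNReal.natCast_lt_top m)

theorem u2_em_apply (n : ℕ) {m : ℕ} (x : Fin m → ℝ) (s : Set ℝ) (hs : MeasurableSet s)
    [DecidablePred (· ∈ s)] :
    (u2_em n x) s = ENNReal.ofReal (1 / n) * ((Finset.univ.filter fun i => x i ∈ s).card : ℝ≥0∞) := by
  unfold u2_em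
  rw [Measure.smul_apply, Measure.sum_apply _ hs, tsum_fintype, smul_eq_mul]
  congr 1
  rw [Finset.card_filter, Nat.cast_sum]
  refine Finset.sum_congr rfl fun i _ => ?_
  rw [Measure.dirac_apply' _ hs]
  by_cases h : x i ∈ s <;> simp [h]

theorem u2_em_real (n : ℕ) {m : ℕ} (x : Fin m → ℝ) (s : Set ℝ) (hs : MeasurableSet s)
    [DecidablePred (· ∈ s)] :
    (u2_em n x).real s = 1 / n * ((Finset.univ.filter fun i => x i ∈ s).card : ℝ) := by
  rw [Measure.real, u2_em_apply n x s hs, ENNReal.toReal_mul, ENNReal.toReal_ofReal (by positivity),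
    ENNReal.toReal_natCast]

theorem u2_tl (n : ℕ) {m : ℕ} (x : Fin m → ℝ) (u : ℝ) :
    tl (u2_em n x) u = 1 / n * (cnt x u : ℝ) := by
  classical
  unfold tl cnt
  rw [u2_em_real n x _ measurableSet_Ioi]
  simp only [mem_Ioi]

theorem u2_univ (n : ℕ) {m : ℕ} (x : Fin m → ℝ) : (u2_em n x).real univ = m / n := by
  classical
  rw [u2_em_real n x _ MeasurableSet.univ]
  simp only [mem_univ, Finset.filter_true, Finset.card_univ, Fintype.card_fin]
  ring

theorem u2_neg (n : ℕ) {m : ℕ} (x : Fin m → ℝ) (hx : ∀ i, 0 < x i) : u2_em n x (Iio 0) = 0 := by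
  classical
  rw [u2_em_apply n x _ measurableSet_Iio]
  have : (Finset.univ.filter fun i => x i ∈ Iio (0 : ℝ)) = ∅ := by
    refine Finset.filter_eq_empty_iff.2 fun i _ => ?_
    simp only [mem_Iio, not_lt]
    exact (hx i).le
  rw [this]
  simp

theorem u2_bdd (n : ℕ) {m : ℕ} (x : Fin m → ℝ) (R : ℝ) (hR : ∀ i, x i ≤ R) :
    u2_em n x (Ioi R) = 0 := by
  classical
  rw [u2_em_apply n x _ measurableSet_Ioi]
  have : (Finset.univ.filter fun i => x i ∈ Ioi R) = ∅ := by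
    refine Finset.filter_eq_empty_iff.2 fun i _ => ?_
    simp only [mem_Ioi, not_lt]
    exact hR i
  rw [this]
  simp

/-! ### pointwise comparisons -/

theorem u2_Rm_ge (M x y : ℝ) (h : x ≠ y) : RmM M x y ≤ Rm x y := by
  unfold RmM Rm
  have h1 : 0 < |x - y| := abs_pos.2 (sub_ne_zero.2 h)
  have h2 : 0 < max (max x y) 1 := lt_of_lt_of_le one_pos (le_max_right _ _)
  have h3 : Real.log (max (max x y) 1 / |x - y|) = -Real.log (|x - y| / max (max x y) 1) := by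
    rw [← Real.log_inv, inv_div]
  rw [h3]
  exact neg_le_neg (Real.log_le_log (by positivity) (le_max_left _ _))

theorem u2_RmM_diag (M x : ℝ) : RmM M x x = M := by
  unfold RmM
  rw [sub_self, abs_zero, zero_div, max_eq_right (Real.exp_pos _).le, Real.log_exp, neg_neg]

theorem u2_RpD_le (δ x y : ℝ) (hδ : 0 < δ) (hx : 0 < x) (hy : 0 < y) :
    RpD δ x y ≤ Rp x y + Real.log (1 + δ / y) := by
  unfold RpD Rp
  have h2 : 0 < max (max x y) 1 := lt_of_lt_of_le one_pos (le_max_right _ _)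
  rw [← Real.log_mul (by positivity) (by positivity)]
  apply Real.log_le_log (by positivity)
  rw [div_mul_eq_mul_div]
  apply div_le_div_of_nonneg_right _ h2.le
  have h3 : δ ≤ (x + y) * (δ / y) := by
    rw [mul_div_assoc', le_div_iff₀ hy]
    nlinarith
  nlinarith

theorem u2_RpD_le' (δ x y : ℝ) (hδ : 0 < δ) (hx : 0 < x) (hy : 0 < y) :
    RpD δ x y ≤ Rp x y + Real.log (1 + δ / x) := by
  unfold RpD Rp
  have h2 : 0 < max (max x y) 1 := lt_of_lt_of_le one_pos (le_max_right _ _)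
  rw [← Real.log_mul (by positivity) (by positivity)]
  apply Real.log_le_log (by positivity)
  rw [div_mul_eq_mul_div]
  apply div_le_div_of_nonneg_right _ h2.le
  have h3 : δ ≤ (x + y) * (δ / x) := by
    rw [mul_div_assoc', le_div_iff₀ hx]
    nlinarith
  nlinarith

theorem u2_sumRm (M : ℝ) {m : ℕ} (x : Fin m → ℝ) (hx : Function.Injective x) :
    ∑ i, ∑ j, RmM M (x i) (x j) ≤ ∑ i, ∑ j ∈ Finset.univ.erase i, Rm (x i) (x j) + m * M := by
  have h : ∀ i, ∑ j, RmM M (x i) (x j) ≤ ∑ j ∈ Finset.univ.erase i, Rm (x i) (x j) + M := by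
    intro i
    rw [← Finset.add_sum_erase Finset.univ _ (Finset.mem_univ i), u2_RmM_diag, add_comm]
    refine add_le_add_left (Finset.sum_le_sum fun j hj => ?_) M
    exact u2_Rm_ge M _ _ fun h => (Finset.ne_of_mem_erase hj) (hx h).symm
  calc ∑ i, ∑ j, RmM M (x i) (x j) ≤ ∑ i, (∑ j ∈ Finset.univ.erase i, Rm (x i) (x j) + M) :=
        Finset.sum_le_sum fun i _ => h i
    _ = _ := by
        rw [Finset.sum_add_distrib, Finset.sum_const, Finset.card_univ, Fintype.card_fin,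
          nsmul_eq_mul]

/-! ### sizes -/

theorem u2_sizes (ε n m : ℕ) (hε : ε = 0 ∨ ε = 1) (hm : m = (if ε = 1 then (n + 1) / 2 else n / 2)) :
    (2 * m ≤ n + 1 ∧ n ≤ 2 * m + 1) ∧ (3 * kk ε m ≤ n + 2 ∧ n ≤ 3 * kk ε m + 3) ∧
      (6 * ll ε m ≤ n + 3 ∧ n ≤ 6 * ll ε m + 5) := by
  rcases hε with rfl | rfl
  · simp only [kk, ll, zero_ne_one, if_false] at hm ⊢
    omega
  · simp only [kk, ll, if_true] at hm ⊢
    omega

theorem u2_vd {m : ℕ} (x : Fin m → ℝ) (h : vd x ≠ 0) : Function.Injective x := by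
  intro i j hij
  by_contra hne
  apply h
  unfold vd
  rcases lt_or_gt_of_ne hne with hlt | hlt
  · exact Finset.prod_eq_zero (Finset.mem_univ i)
      (Finset.prod_eq_zero (Finset.mem_Ioi.2 hlt) (by rw [hij, sub_self]))
  · exact Finset.prod_eq_zero (Finset.mem_univ j)
      (Finset.prod_eq_zero (Finset.mem_Ioi.2 hlt) (by rw [hij, sub_self]))

/-- the quantity to be bounded -/
def u2_lhs (α τ : ℝ) (V : ℝ → ℝ) (ε n : ℕ) (δ : ℝ) {m k l : ℕ} (ξ : Fin m → ℝ) (t : Fin k → ℝ)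
    (v : Fin l → ℝ) : ℝ :=
  BI ε ξ t v * (∏ i, (1 + t i) ^ (5 / 6 : ℝ)) * (∏ i, (1 + v i) ^ (5 / 6 : ℝ)) *
      (∏ i, ((1 + ξ i) ^ 4 * Real.exp (-(n * U1 α τ V (ξ i))))) *
      (∏ i, Real.exp (-(n * max 0 (U3 α τ (v i) - δ))))

theorem u2_core {α τ : ℝ} {V : ℝ → ℝ} (ε n m : ℕ) (hn : 0 < n)
    (hε : ε = 0 ∨ ε = 1)
    (ξ : Fin m → ℝ) (t : Fin (kk ε m) → ℝ) (v : Fin (ll ε m) → ℝ)
    (hξ : ∀ i, 0 < ξ i) (ht : ∀ i, 0 < t i) (hv : ∀ i, 0 < v i) (δ δ' M κ c C S : ℝ)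
    (hM : 0 < M) (hδ' : 0 < δ') (hδ : 0 < δ)
    (hpos : 0 < u2_lhs α τ V ε n δ ξ t v)
    (hU1 : ∀ x : ℝ, 0 ≤ x → c * x - C ≤ U1 α τ V x)
    (hκ0 : 0 ≤ κ) (hκ1 : 2 * (m : ℝ) - kk ε m - 1 ≤ n * (2 / 3 + κ)) (hκ2 : 4 ≤ n * (κ * c))
    (hS : ∑ i, Real.log (1 + δ' / t i) ≤ n * S) :
    ∫ z : ℝ × ℝ, RmM M z.1 z.2 ∂((u2_em n ξ).prod (u2_em n ξ)) +
      ∫ z : ℝ × ℝ, RmM M z.1 z.2 ∂((u2_em n t).prod (u2_em n t)) +
      ∫ z : ℝ × ℝ, RmM M z.1 z.2 ∂((u2_em n v).prod (u2_em n v)) +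
      ∫ z : ℝ × ℝ, RpD δ' z.1 z.2 ∂((u2_em n ξ).prod (u2_em n t)) +
      ∫ z : ℝ × ℝ, RpD δ' z.1 z.2 ∂((u2_em n t).prod (u2_em n v)) +
      (∫ u in Ioi (1 : ℝ), 1 / u * max 0 (qf (tl (u2_em n ξ) u) (tl (u2_em n t) u) (tl (u2_em n v) u)
        - (tl (u2_em n t) u + tl (u2_em n v) u) / n)) +
      ∫ x, ((1 - κ) * U1 α τ V x - (2 / 3 + κ) * Real.log (max x 1)) ∂(u2_em n ξ) +
      ∫ x, max 0 (U3 α τ x - δ') ∂(u2_em n v) -
      (M * ((m : ℝ) + kk ε m + ll ε m) / n ^ 2 + ((kk ε m : ℝ) + ll ε m) / n ^ 2 + κ * C * (m / n) +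
        ((m : ℝ) + ll ε m) / n * S) ≤
    -(1 / (n : ℝ) ^ 2) * Real.log (u2_lhs α τ V ε n δ ξ t v) + δ * (ll ε m / n) := by
  have hn' : (0 : ℝ) < n := by exact_mod_cast hn
  -- positivity of the factors
  have p1 : 0 < ∏ i, (1 + t i) ^ (5 / 6 : ℝ) :=
    Finset.prod_pos fun i _ => Real.rpow_pos_of_pos (by linarith [ht i]) _
  have p2 : 0 < ∏ i, (1 + v i) ^ (5 / 6 : ℝ) :=
    Finset.prod_pos fun i _ => Real.rpow_pos_of_pos (by linarith [hv i]) _
  have p3 : 0 < ∏ i, ((1 + ξ i) ^ 4 * Real.exp (-(n * U1 α τ V (ξ i)))) :=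
    Finset.prod_pos fun i _ => mul_pos (pow_pos (by linarith [hξ i]) 4) (Real.exp_pos _)
  have p4 : 0 < ∏ i, Real.exp (-(n * max 0 (U3 α τ (v i) - δ))) :=
    Finset.prod_pos fun i _ => Real.exp_pos _
  have hBI : 0 < BI ε ξ t v := by
    unfold u2_lhs at hpos
    have h1 := (pos_iff_pos_of_mul_pos hpos).2 p4
    have h2 := (pos_iff_pos_of_mul_pos h1).2 p3
    have h3 := (pos_iff_pos_of_mul_pos h2).2 p2
    exact (pos_iff_pos_of_mul_pos h3).2 p1
  have hvdξ : vd ξ ≠ 0 := by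
    intro h
    rw [BI, h] at hBI
    simp at hBI
  have hvdt : vd t ≠ 0 := by
    intro h
    rw [BI, h] at hBI
    simp at hBI
  have hvdv : vd v ≠ 0 := by
    intro h
    rw [BI, h] at hBI
    simp at hBI
  have iξ := u2_vd ξ hvdξ
  have it := u2_vd t hvdt
  have iv := u2_vd v hvdv
  have hdisc := disc_ineq ε m hε ξ t v hξ ht hv iξ it iv
  -- the logarithm
  have hlog : Real.log (u2_lhs α τ V ε n δ ξ t v) =
      Real.log (BI ε ξ t v * (∏ i, (1 + t i) ^ (5 / 6 : ℝ)) * ∏ i, (1 + v i) ^ (5 / 6 : ℝ)) +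
      ∑ i, (4 * Real.log (1 + ξ i) - n * U1 α τ V (ξ i)) -
      n * ∑ i, max 0 (U3 α τ (v i) - δ) := by
    unfold u2_lhs
    rw [Real.log_mul (by positivity) p4.ne', Real.log_mul (by positivity) p3.ne',
      Real.log_prod (fun i _ => (mul_pos (pow_pos (by linarith [hξ i]) 4) (Real.exp_pos _)).ne'),
      Real.log_prod (fun i _ => (Real.exp_pos _).ne')]
    have e1 : ∀ i, Real.log ((1 + ξ i) ^ 4 * Real.exp (-(n * U1 α τ V (ξ i)))) =
        4 * Real.log (1 + ξ i) - n * U1 α τ V (ξ i) := by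
      intro i
      rw [Real.log_mul (pow_pos (by linarith [hξ i]) 4).ne' (Real.exp_pos _).ne', Real.log_pow,
        Real.log_exp]
      push_cast
      ring
    simp only [e1, Real.log_exp]
    rw [Finset.sum_neg_distrib, ← Finset.mul_sum]
    ring
  -- the sums
  have s1 := u2_sumRm M ξ iξ
  have s2 := u2_sumRm M t it
  have s3 := u2_sumRm M v iv
  have s4 : ∑ i, ∑ j, RpD δ' (ξ i) (t j) ≤ ∑ i, ∑ j, Rp (ξ i) (t j) + m * (n * S) := by
    have h : ∀ i, ∑ j, RpD δ' (ξ i) (t j) ≤ ∑ j, Rp (ξ i) (t j) + n * S := by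
      intro i
      calc ∑ j, RpD δ' (ξ i) (t j) ≤ ∑ j, (Rp (ξ i) (t j) + Real.log (1 + δ' / t j)) :=
            Finset.sum_le_sum fun j _ => u2_RpD_le δ' _ _ hδ' (hξ i) (ht j)
        _ = ∑ j, Rp (ξ i) (t j) + ∑ j, Real.log (1 + δ' / t j) := Finset.sum_add_distrib
        _ ≤ _ := by linarith
    calc ∑ i, ∑ j, RpD δ' (ξ i) (t j) ≤ ∑ i, (∑ j, Rp (ξ i) (t j) + n * S) :=
          Finset.sum_le_sum fun i _ => h i
      _ = _ := by
        rw [Finset.sum_add_distrib, Finset.sum_const, Finset.card_univ, Fintype.card_fin,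
          nsmul_eq_mul]
  have s5 : ∑ i, ∑ j, RpD δ' (t i) (v j) ≤ ∑ i, ∑ j, Rp (t i) (v j) + ll ε m * (n * S) := by
    rw [Finset.sum_comm, Finset.sum_comm (f := fun i j => Rp (t i) (v j))]
    have h : ∀ j, ∑ i, RpD δ' (t i) (v j) ≤ ∑ i, Rp (t i) (v j) + n * S := by
      intro j
      calc ∑ i, RpD δ' (t i) (v j) ≤ ∑ i, (Rp (t i) (v j) + Real.log (1 + δ' / t i)) :=
            Finset.sum_le_sum fun i _ => u2_RpD_le' δ' _ _ hδ' (ht i) (hv j)
        _ = ∑ i, Rp (t i) (v j) + ∑ i, Real.log (1 + δ' / t i) := Finset.sum_add_distrib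
        _ ≤ _ := by linarith
    calc ∑ j, ∑ i, RpD δ' (t i) (v j) ≤ ∑ j, (∑ i, Rp (t i) (v j) + n * S) :=
          Finset.sum_le_sum fun j _ => h j
      _ = _ := by
        rw [Finset.sum_add_distrib, Finset.sum_const, Finset.card_univ, Fintype.card_fin,
          nsmul_eq_mul]
  have s6 : ∑ i, ((1 - κ) * U1 α τ V (ξ i) - (2 / 3 + κ) * Real.log (max (ξ i) 1)) * n ≤
      ∑ i, (n * U1 α τ V (ξ i) - 4 * Real.log (1 + ξ i)) -
        (2 * (m : ℝ) - kk ε m - 1) * ∑ i, Real.log (max (ξ i) 1) + m * (n * (κ * C)) := by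
    have h : ∀ i, ((1 - κ) * U1 α τ V (ξ i) - (2 / 3 + κ) * Real.log (max (ξ i) 1)) * n ≤
        (n * U1 α τ V (ξ i) - 4 * Real.log (1 + ξ i)) -
        (2 * (m : ℝ) - kk ε m - 1) * Real.log (max (ξ i) 1) + n * (κ * C) := by
      intro i
      have h1 := hU1 (ξ i) (hξ i).le
      have h2 : Real.log (1 + ξ i) ≤ ξ i := by
        have := Real.log_le_sub_one_of_pos (show (0 : ℝ) < 1 + ξ i by linarith [hξ i])
        linarith
      have h3 : 0 ≤ Real.log (max (ξ i) 1) := Real.log_nonneg (le_max_right _ _)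
      have h4 : (2 * (m : ℝ) - kk ε m - 1) * Real.log (max (ξ i) 1) ≤
          n * (2 / 3 + κ) * Real.log (max (ξ i) 1) := mul_le_mul_of_nonneg_right hκ1 h3
      have h5 : n * κ * (c * ξ i - C) ≤ n * κ * U1 α τ V (ξ i) :=
        mul_le_mul_of_nonneg_left h1 (by positivity)
      have h6 : 4 * ξ i ≤ n * (κ * c) * ξ i := mul_le_mul_of_nonneg_right hκ2 (hξ i).le
      nlinarith
    calc _ ≤ ∑ i, ((n * U1 α τ V (ξ i) - 4 * Real.log (1 + ξ i)) -
        (2 * (m : ℝ) - kk ε m - 1) * Real.log (max (ξ i) 1) + n * (κ * C)) :=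
          Finset.sum_le_sum fun i _ => h i
      _ = _ := by
        rw [Finset.sum_add_distrib, Finset.sum_sub_distrib, Finset.sum_const, Finset.card_univ,
          Fintype.card_fin, nsmul_eq_mul, ← Finset.mul_sum]
  have s7 : ∑ i, max 0 (U3 α τ (v i) - δ') ≤ ∑ i, max 0 (U3 α τ (v i) - δ) + ll ε m * δ := by
    have h : ∀ i, max 0 (U3 α τ (v i) - δ') ≤ max 0 (U3 α τ (v i) - δ) + δ := by
      intro i
      apply max_le
      · linarith [le_max_left 0 (U3 α τ (v i) - δ)]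
      · linarith [le_max_right 0 (U3 α τ (v i) - δ)]
    calc _ ≤ ∑ i, (max 0 (U3 α τ (v i) - δ) + δ) := Finset.sum_le_sum fun i _ => h i
      _ = _ := by
        rw [Finset.sum_add_distrib, Finset.sum_const, Finset.card_univ, Fintype.card_fin,
          nsmul_eq_mul]
  have s8 : ∫ u in Ioi (1 : ℝ), 1 / u * max 0 (qf (cnt ξ u) (cnt t u) (cnt v u) -
      ((cnt t u : ℝ) + cnt v u)) = n ^ 2 * ∫ u in Ioi (1 : ℝ), 1 / u * max 0 (qf (tl (u2_em n ξ) u)
        (tl (u2_em n t) u) (tl (u2_em n v) u) - (tl (u2_em n t) u + tl (u2_em n v) u) / n) := by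
    rw [← integral_const_mul]
    congr 1
    funext u
    rw [u2_tl, u2_tl, u2_tl]
    have : max 0 (qf (cnt ξ u) (cnt t u) (cnt v u) - ((cnt t u : ℝ) + cnt v u)) =
        n ^ 2 * max 0 (qf (1 / n * (cnt ξ u)) (1 / n * (cnt t u)) (1 / n * (cnt v u)) -
          (1 / n * (cnt t u : ℝ) + 1 / n * cnt v u) / n) := by
      rw [mul_max_of_nonneg _ _ (by positivity), mul_zero]
      congr 1
      unfold qf
      field_simp
    rw [this]
    ring
  rw [u2_em_prod n ξ ξ (fun z => RmM M z.1 z.2), u2_em_prod n t t (fun z => RmM M z.1 z.2),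
    u2_em_prod n v v (fun z => RmM M z.1 z.2), u2_em_prod n ξ t (fun z => RpD δ' z.1 z.2),
    u2_em_prod n t v (fun z => RpD δ' z.1 z.2), u2_em_integral, u2_em_integral, hlog]
  set I8 := ∫ u in Ioi (1 : ℝ), 1 / u * max 0 (qf (tl (u2_em n ξ) u)
        (tl (u2_em n t) u) (tl (u2_em n v) u) - (tl (u2_em n t) u + tl (u2_em n v) u) / n) with hI8
  rw [s8] at hdisc
  rw [← Finset.sum_mul] at s6
  have hsub : ∑ i, (4 * Real.log (1 + ξ i) - n * U1 α τ V (ξ i)) =
      -∑ i, (n * U1 α τ V (ξ i) - 4 * Real.log (1 + ξ i)) := by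
    rw [← Finset.sum_neg_distrib]
    exact Finset.sum_congr rfl fun i _ => by ring
  rw [hsub]
  -- multiply by n ^ 2
  have hn2 : (0 : ℝ) < (n : ℝ) ^ 2 := by positivity
  refine le_of_mul_le_mul_left ?_ hn2
  have key : ∀ A : ℝ, (n : ℝ) ^ 2 * (1 / n * (1 / n * A)) = A := by
    intro A; field_simp
  have key1 : ∀ A : ℝ, (n : ℝ) ^ 2 * (1 / n * A) = n * A := by
    intro A; field_simp
  have key2 : ∀ A : ℝ, (n : ℝ) ^ 2 * (A / n ^ 2) = A := by
    intro A; field_simp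
  have key3 : ∀ A : ℝ, (n : ℝ) ^ 2 * (A / n) = n * A := by
    intro A; field_simp
  have key4 : ∀ A : ℝ, (n : ℝ) ^ 2 * (-(1 / (n : ℝ) ^ 2) * A) = -A := by
    intro A; field_simp
  have e1 : (n : ℝ) ^ 2 * (κ * C * (m / n)) = m * (n * (κ * C)) := by field_simp
  have e2 : (n : ℝ) ^ 2 * (((m : ℝ) + ll ε m) / n * S) = m * (n * S) + ll ε m * (n * S) := by
    field_simp
  have e3 : (n : ℝ) ^ 2 * (δ * ((ll ε m : ℝ) / n)) = n * ((ll ε m : ℝ) * δ) := by field_simp
  simp only [mul_add, mul_sub, key, key1, key2, key4, e1, e2, e3] at s1 s2 s3 s4 s5 s6 s7 hdisc ⊢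
  have s7' := mul_le_mul_of_nonneg_left s7 hn'.le
  linarith

/-! ### the sequence argument -/

theorem u2_inj {α τ : ℝ} {V : ℝ → ℝ} (ε n : ℕ) {m k l : ℕ} (ξ : Fin m → ℝ) (t : Fin k → ℝ)
    (v : Fin l → ℝ) (δ : ℝ) (hpos : 0 < u2_lhs α τ V ε n δ ξ t v) : Function.Injective t := by
  apply u2_vd
  intro h
  unfold u2_lhs at hpos
  rw [BI, h] at hpos
  simp at hpos

theorem u2_sum_le {Z : Set ℝ} {k : ℕ} (t : Fin k → ℝ) (ht : ∀ i, t i ∈ Z)
    (hinj : Function.Injective t) (g : ℝ → ℝ) (hg : ∀ x ∈ Z, 0 ≤ g x)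
    (hs : Summable fun x : Z => g x) : ∑ i, g (t i) ≤ ∑' x : Z, g x := by
  classical
  have h1 : ∑ i, g (t i) = ∑ x ∈ Finset.univ.image (fun i => (⟨t i, ht i⟩ : Z)), g x := by
    rw [Finset.sum_image]
    intro i _ j _ hij
    exact hinj (congrArg Subtype.val hij)
  rw [h1]
  exact hs.sum_le_tsum _ fun x _ => hg x x.2

theorem u2_lim {x n : ℕ → ℝ} {p C : ℝ} (hn : Tendsto n atTop atTop)
    (h : ∀ j, |x j - p| ≤ C / n j) : Tendsto x atTop (𝓝 p) := by
  rw [tendsto_iff_dist_tendsto_zero]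
  refine squeeze_zero (fun j => dist_nonneg) (fun j => ?_) (hn.const_div_atTop C)
  rw [Real.dist_eq]
  exact h j

theorem config_upper {α τ : ℝ} (hτ : 0 < τ) {V : ℝ → ℝ} (hV : Pot V) (ε : ℕ)
    (hε : ε = 0 ∨ ε = 1) (Jinf : ℝ)
    (hJ : ∀ a b c : Measure ℝ, AdmJ α τ V a b c → Jinf ≤ JJ α τ V a b c) (δ : ℝ) (hδ : 0 < δ) :
    ∃ n₀ : ℕ, ∀ n : ℕ, n₀ ≤ n → ∀ m : ℕ, m = (if ε = 1 then (n + 1) / 2 else n / 2) →
    ∀ (ξ : Fin m → ℝ) (t : Fin (kk ε m) → ℝ) (v : Fin (ll ε m) → ℝ),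
    (∀ i, 0 < ξ i) → (∀ i, t i ∈ Zt n α τ) → (∀ i, 0 < v i) →
    BI ε ξ t v * (∏ i, (1 + t i) ^ (5 / 6 : ℝ)) * (∏ i, (1 + v i) ^ (5 / 6 : ℝ)) *
      (∏ i, ((1 + ξ i) ^ 4 * Real.exp (-(n * U1 α τ V (ξ i))))) *
      (∏ i, Real.exp (-(n * max 0 (U3 α τ (v i) - δ)))) ≤
      Real.exp (-((n : ℝ) ^ 2 * (Jinf - δ))) := by
  classical
  by_contra hcon
  push Not at hcon
  choose n hn m hm ξ t v hξ ht hv hlt using fun j : ℕ => hcon (j + 1)
  have hn1 : ∀ j, 1 ≤ n j := fun j => le_trans (Nat.le_add_left 1 j) (hn j)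
  have hn0 : ∀ j, (0 : ℝ) < n j := fun j => by exact_mod_cast hn1 j
  have hnt : Tendsto n atTop atTop :=
    tendsto_atTop_mono (fun j => le_trans (Nat.le_succ j) (hn j)) tendsto_id
  have hntR : Tendsto (fun j => (n j : ℝ)) atTop atTop := tendsto_natCast_atTop_atTop.comp hnt
  have hpos : ∀ j, 0 < u2_lhs α τ V ε (n j) δ (ξ j) (t j) (v j) := fun j =>
    lt_trans (Real.exp_pos _) (hlt j)
  have htpos : ∀ j i, 0 < t j i := fun j i => (ht j i).1
  have hinj : ∀ j, Function.Injective (t j) := fun j => u2_inj ε (n j) (ξ j) (t j) (v j) δ (hpos j)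
  obtain ⟨c, C, hc, hU⟩ := U1_lower hτ hV (α := α)
  have hsz := fun j => u2_sizes ε (n j) (m j) hε (hm j)
  -- fractions
  have fm : ∀ j, |(m j : ℝ) / n j - 1 / 2| ≤ 1 / n j := by
    intro j
    have h1 : 2 * (m j : ℝ) ≤ n j + 1 := by exact_mod_cast (hsz j).1.1
    have h2 : (n j : ℝ) ≤ 2 * m j + 1 := by exact_mod_cast (hsz j).1.2
    have h0 := hn0 j
    rw [show (m j : ℝ) / n j - 1 / 2 = (m j - n j / 2) / n j by field_simp, abs_div,
      abs_of_pos h0]
    apply div_le_div_of_nonneg_right _ h0.le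
    rw [abs_le]
    constructor <;> linarith
  have fk : ∀ j, |(kk ε (m j) : ℝ) / n j - 1 / 3| ≤ 1 / n j := by
    intro j
    have h1 : 3 * (kk ε (m j) : ℝ) ≤ n j + 2 := by exact_mod_cast (hsz j).2.1.1
    have h2 : (n j : ℝ) ≤ 3 * kk ε (m j) + 3 := by exact_mod_cast (hsz j).2.1.2
    have h0 := hn0 j
    rw [show (kk ε (m j) : ℝ) / n j - 1 / 3 = (kk ε (m j) - n j / 3) / n j by field_simp, abs_div,
      abs_of_pos h0]
    apply div_le_div_of_nonneg_right _ h0.le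
    rw [abs_le]
    constructor <;> linarith
  have fl : ∀ j, |(ll ε (m j) : ℝ) / n j - 1 / 6| ≤ 1 / n j := by
    intro j
    have h1 : 6 * (ll ε (m j) : ℝ) ≤ n j + 3 := by exact_mod_cast (hsz j).2.2.1
    have h2 : (n j : ℝ) ≤ 6 * ll ε (m j) + 5 := by exact_mod_cast (hsz j).2.2.2
    have h0 := hn0 j
    rw [show (ll ε (m j) : ℝ) / n j - 1 / 6 = (ll ε (m j) - n j / 6) / n j by field_simp, abs_div,
      abs_of_pos h0]
    apply div_le_div_of_nonneg_right _ h0.le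
    rw [abs_le]
    constructor <;> linarith
  have tm := u2_lim hntR fm
  have tk := u2_lim hntR fk
  have tL := u2_lim hntR fl
  set κ : ℕ → ℝ := fun j => (3 + 4 / c) / n j with hκdef
  have hκ : Tendsto κ atTop (𝓝 0) := hntR.const_div_atTop _
  set w : ℝ → ℝ := fun x => 2 / 3 * (gg α τ (√x) - gg α τ 0) with hw
  set S : ℝ → ℕ → ℝ := fun x j => (1 / (n j : ℝ)) * ∑' s : Zt (n j) α τ, Real.log (1 + x / (s : ℝ))
    with hS
  set L : ℕ → ℝ := fun j => -(1 / (n j : ℝ) ^ 2) * Real.log (u2_lhs α τ V ε (n j) δ (ξ j) (t j) (v j))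
    + δ * (ll ε (m j) / n j) with hLdef
  have hLK : ∀ j, L j ≤ Jinf - δ / 3 := by
    intro j
    have h0 := hn0 j
    have h1 := Real.log_lt_log (Real.exp_pos _) (hlt j)
    rw [Real.log_exp] at h1
    have h2 : 6 * (ll ε (m j) : ℝ) ≤ n j + 3 := by exact_mod_cast (hsz j).2.2.1
    have h3 : (1 : ℝ) ≤ n j := by exact_mod_cast hn1 j
    have h4 : (ll ε (m j) : ℝ) / n j ≤ 2 / 3 := by
      rw [div_le_iff₀ h0]; linarith
    have h5 : -(1 / (n j : ℝ) ^ 2) * Real.log (u2_lhs α τ V ε (n j) δ (ξ j) (t j) (v j)) ≤ Jinf - δ := by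
      have h6 : (0 : ℝ) < 1 / (n j : ℝ) ^ 2 := by positivity
      have h7 := mul_le_mul_of_nonneg_left h1.le h6.le
      have h8 : 1 / (n j : ℝ) ^ 2 * -((n j : ℝ) ^ 2 * (Jinf - δ)) = -(Jinf - δ) := by
        field_simp
      rw [h8] at h7
      have h9 : 1 / (n j : ℝ) ^ 2 * Real.log (u2_lhs α τ V ε (n j) δ (ξ j) (t j) (v j)) =
        -(-(1 / (n j : ℝ) ^ 2) * Real.log (u2_lhs α τ V ε (n j) δ (ξ j) (t j) (v j))) := by ring
      have h10 : u2_lhs α τ V ε (n j) δ (ξ j) (t j) (v j) = BI ε (ξ j) (t j) (v j) *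
        (∏ i, (1 + t j i) ^ (5 / 6 : ℝ)) * (∏ i, (1 + v j i) ^ (5 / 6 : ℝ)) *
        (∏ i, ((1 + ξ j i) ^ 4 * Real.exp (-(n j * U1 α τ V (ξ j i))))) *
        (∏ i, Real.exp (-(n j * max 0 (U3 α τ (v j i) - δ)))) := rfl
      rw [← h10, h9] at h7
      linarith
    have h6 : δ * ((ll ε (m j) : ℝ) / n j) ≤ δ * (2 / 3) := mul_le_mul_of_nonneg_left h4 hδ.le
    simp only [hLdef]
    linarith
  have hSt : ∀ x : ℝ, 0 ≤ x → Tendsto (S x) atTop (𝓝 (gg α τ (√x) - gg α τ 0)) := by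
    intro x hx
    have h1 := (log_tendsto (α := α) hτ x hx).comp hnt
    have h2 := gg_pot (α := α) hτ (√x)
    rw [Real.sq_sqrt hx] at h2
    rw [h2]
    exact h1
  have hwt : Tendsto w (𝓝[>] 0) (𝓝 0) := by
    have h1 : Continuous w := continuous_const.mul
      (((gg_continuous (α := α) hτ).comp Real.continuous_sqrt).sub continuous_const)
    have h2 : w 0 = 0 := by simp [hw]
    have h3 := h1.tendsto 0
    rw [h2] at h3
    exact h3.mono_left nhdsWithin_le_nhds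
  suffices H : ∃ a' b' c' : Measure ℝ, WAdm α τ V a' b' c' ∧ JW α τ V a' b' c' ≤ Jinf - δ / 3 by
    obtain ⟨a', b', c', hW, hJW⟩ := H
    obtain ⟨b'', c'', hA, hle⟩ := hW.trunc hτ hV (δ / 6) (by positivity)
    have := hJ _ _ _ hA
    linarith
  refine lsc_main hτ hV (α := α) (fun j => u2_em (n j) (ξ j))
    (fun j => u2_em (n j) (t j)) (fun j => u2_em (n j) (v j)) (fun j => (n j : ℝ)) κ L
    (Jinf - δ / 3) w (fun j => u2_em_finite _ _) (fun j => u2_em_finite _ _)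
    (fun j => u2_em_finite _ _) (fun j => u2_neg _ _ (hξ j)) (fun j => u2_neg _ _ (htpos j))
    (fun j => u2_neg _ _ (hv j)) (by simpa only [u2_univ] using tm)
    (by simpa only [u2_univ] using tk) (by simpa only [u2_univ] using tL) hntR hκ ?_ hwt hLK ?_ ?_
  · -- the constraint
    intro g hg hgc hg0 η hη
    obtain ⟨R, hR⟩ := hgc.isCompact.isBounded.subset_closedBall 0
    have hgz : ∀ x, R < x → g x = 0 := by
      intro x hx
      by_contra h
      have h1 : x ∈ tsupport g := subset_tsupport g h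
      have h2 := hR h1
      rw [mem_closedBall_zero_iff, Real.norm_eq_abs] at h2
      linarith [le_abs_self x]
    have hl : Tendsto (fun x => (1 + x) * g x) atTop (𝓝 0) := by
      refine tendsto_const_nhds.congr' ?_
      filter_upwards [eventually_gt_atTop R] with x hx
      rw [hgz x hx, mul_zero]
    have h1 := ((Zt_tendsto (α := α) hτ g hg.continuousOn 0 hl).2).comp hnt
    have h2 : ∀ᶠ j in atTop, (1 / (n j : ℝ)) * ∑' s : Zt (n j) α τ, g s ≤
        ∫ x, g x ∂(sigI α τ) + η := by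
      have := h1.eventually (eventually_le_nhds (show ∫ x, g x ∂(sigI α τ) <
        ∫ x, g x ∂(sigI α τ) + η by linarith))
      exact this
    filter_upwards [h2] with j hj
    rw [u2_em_integral]
    refine le_trans ?_ hj
    refine mul_le_mul_of_nonneg_left ?_ (by have := hn0 j; positivity)
    refine u2_sum_le (t j) (ht j) (hinj j) g (fun x _ => hg0 x) ?_
    refine summable_of_hasFiniteSupport ?_
    have hfin := Zt_finite (α := α) (hn0 j) hτ R
    refine Set.Finite.subset (hfin.preimage Subtype.val_injective.injOn) ?_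
    intro s hs
    refine ⟨s.2, ?_⟩
    by_contra h
    exact hs (hgz _ (not_le.1 h))
  · -- bounded supports
    intro j
    refine ⟨∑ i, |ξ j i| + ∑ i, |t j i| + ∑ i, |v j i|, ?_, ?_, ?_⟩
    · refine u2_bdd _ _ _ fun i => ?_
      have h1 := Finset.single_le_sum (f := fun i => |ξ j i|) (fun i _ => abs_nonneg _)
        (Finset.mem_univ i)
      have h2 : 0 ≤ ∑ i, |t j i| := Finset.sum_nonneg fun i _ => abs_nonneg _
      have h3 : 0 ≤ ∑ i, |v j i| := Finset.sum_nonneg fun i _ => abs_nonneg _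
      have h4 := le_abs_self (ξ j i)
      linarith
    · refine u2_bdd _ _ _ fun i => ?_
      have h1 := Finset.single_le_sum (f := fun i => |t j i|) (fun i _ => abs_nonneg _)
        (Finset.mem_univ i)
      have h2 : 0 ≤ ∑ i, |ξ j i| := Finset.sum_nonneg fun i _ => abs_nonneg _
      have h3 : 0 ≤ ∑ i, |v j i| := Finset.sum_nonneg fun i _ => abs_nonneg _
      have h4 := le_abs_self (t j i)
      linarith
    · refine u2_bdd _ _ _ fun i => ?_
      have h1 := Finset.single_le_sum (f := fun i => |v j i|) (fun i _ => abs_nonneg _)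
        (Finset.mem_univ i)
      have h2 : 0 ≤ ∑ i, |ξ j i| := Finset.sum_nonneg fun i _ => abs_nonneg _
      have h3 : 0 ≤ ∑ i, |t j i| := Finset.sum_nonneg fun i _ => abs_nonneg _
      have h4 := le_abs_self (v j i)
      linarith
  · -- the main inequality
    intro M δ' hM hδ' _
    refine ⟨fun j => w δ' - (M * ((m j : ℝ) + kk ε (m j) + ll ε (m j)) / n j ^ 2 +
      ((kk ε (m j) : ℝ) + ll ε (m j)) / n j ^ 2 + κ j * C * (m j / n j) +
        ((m j : ℝ) + ll ε (m j)) / n j * S δ' j), ?_, ?_⟩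
    · have i1 : Tendsto (fun j => 1 / (n j : ℝ)) atTop (𝓝 0) := hntR.const_div_atTop 1
      have q1 : Tendsto (fun j => M * ((m j : ℝ) / n j + kk ε (m j) / n j + ll ε (m j) / n j) *
          (1 / (n j : ℝ))) atTop (𝓝 (M * (1 / 2 + 1 / 3 + 1 / 6) * 0)) :=
        (((tm.add tk).add tL).const_mul M).mul i1
      have q2 : Tendsto (fun j => ((kk ε (m j) : ℝ) / n j + ll ε (m j) / n j) *
          (1 / (n j : ℝ))) atTop (𝓝 ((1 / 3 + 1 / 6) * 0)) := (tk.add tL).mul i1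
      have q3 : Tendsto (fun j => κ j * C * ((m j : ℝ) / n j)) atTop (𝓝 (0 * C * (1 / 2))) :=
        (hκ.mul_const C).mul tm
      have q4 : Tendsto (fun j => ((m j : ℝ) / n j + ll ε (m j) / n j) * S δ' j) atTop
          (𝓝 ((1 / 2 + 1 / 6) * (gg α τ (√δ') - gg α τ 0))) := (tm.add tL).mul (hSt δ' hδ'.le)
      have q5 := (tendsto_const_nhds (x := w δ')).sub (((q1.add q2).add q3).add q4)
      have e0 : w δ' - (M * (1 / 2 + 1 / 3 + 1 / 6) * 0 + (1 / 3 + 1 / 6) * 0 + 0 * C * (1 / 2) +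
          (1 / 2 + 1 / 6) * (gg α τ (√δ') - gg α τ 0)) = 0 := by
        simp only [hw]
        ring
      rw [e0] at q5
      refine q5.congr fun j => ?_
      have h0 := (hn0 j).ne'
      field_simp
    · refine Eventually.of_forall fun j => ?_
      have hSb : ∑ i, Real.log (1 + δ' / t j i) ≤ n j * S δ' j := by
        have e1 : (n j : ℝ) * S δ' j = ∑' s : Zt (n j) α τ, Real.log (1 + δ' / (s : ℝ)) := by
          have h0 := (hn0 j).ne'
          simp only [hS]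
          field_simp
        rw [e1]
        have hsum := (log_FF (α := α) (hn0 j) hτ (√δ') (Real.sqrt_nonneg _)).1
        rw [Real.sq_sqrt hδ'.le] at hsum
        refine u2_sum_le (t j) (ht j) (hinj j) (fun x => Real.log (1 + δ' / x)) (fun x hx => ?_) hsum
        apply Real.log_nonneg
        have := hx.1
        have : 0 < δ' / x := by positivity
        linarith
      have hk1 : 2 * (m j : ℝ) - kk ε (m j) - 1 ≤ n j * (2 / 3 + κ j) := by
        have h1 : 2 * (m j : ℝ) ≤ n j + 1 := by exact_mod_cast (hsz j).1.1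
        have h2 : (n j : ℝ) ≤ 3 * kk ε (m j) + 3 := by exact_mod_cast (hsz j).2.1.2
        have h3 : n j * (2 / 3 + κ j) = 2 * n j / 3 + 3 + 4 / c := by
          have h0 := (hn0 j).ne'
          simp only [hκdef]
          field_simp
          ring
        rw [h3]
        have : 0 < 4 / c := by positivity
        linarith
      have hk2 : 4 ≤ n j * (κ j * c) := by
        have h3 : n j * (κ j * c) = 3 * c + 4 := by
          have h0 := (hn0 j).ne'
          simp only [hκdef]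
          field_simp
        rw [h3]
        linarith
      have hκ0 : 0 ≤ κ j := by
        have h0 := hn0 j
        simp only [hκdef]
        positivity
      have key := u2_core (α := α) (τ := τ) (V := V) ε (n j) (m j) (hn1 j) hε (ξ j) (t j) (v j)
        (hξ j) (htpos j) (hv j) δ δ' M (κ j) c C (S δ' j) hM hδ' hδ (hpos j) hU hκ0 hk1 hk2 hSb
      simp only [hLdef]
      linarith

end

end Pool.Agent.MP_941b23_mp
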