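import Pool.Agent.MP_941b23_mp.Defs2
import Pool.Agent.MP_941b23_mp.S1
import Pool.Agent.MP_941b23_mp.S2a
import Pool.Agent.MP_941b23_mp.T3
import Pool.Agent.MP_941b23_mp.T5
import Pool.Agent.MP_941b23_mp.T8a
import Pool.Agent.MP_941b23_mp.T8b
import Pool.Agent.MP_941b23_mp.U2

/-!
# [QM-U3] : upper bound for the block integral
-/

namespace Pool.Agent.MP_941b23_mp

open MeasureTheory Set Filter Topology
open scoped ENNReal NNReal Real

noncomputable section

theorem u3_lintegral_pi {E : Type} [MeasurableSpace E] (μ : Measure E) [SigmaFinite μ]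
    (f : E → ℝ≥0∞) (hf : Measurable f) (n : ℕ) :
    ∫⁻ x : Fin n → E, ∏ i, f (x i) ∂(Measure.pi fun _ => μ) = (∫⁻ x, f x ∂μ) ^ n := by
  induction n with
  | zero => simp
  | succ n ih =>
    have h1 : ∫⁻ x : Fin (n + 1) → E, ∏ i, f (x i) ∂(Measure.pi fun _ => μ) =
        ∫⁻ x : E × (Fin n → E), f x.1 * ∏ i : Fin n, f (x.2 i)
          ∂(μ.prod (Measure.pi (fun _ => μ))) := by
      rw [← ((measurePreserving_piFinSuccAbove (fun _ : Fin (n + 1) => μ) 0).symm).lintegral_comp_emb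
        (MeasurableEquiv.measurableEmbedding _)]
      simp_rw [MeasurableEquiv.piFinSuccAbove_symm_apply, Fin.insertNthEquiv,
            Fin.prod_univ_succ, Fin.insertNth_zero, Equiv.coe_fn_mk, Fin.cons_succ,
            Fin.cons_zero]
      rfl
    have h2 : Measurable fun x : Fin n → E => ∏ i, f (x i) :=
      Finset.measurable_prod _ fun i _ => hf.comp (measurable_pi_apply i)
    rw [h1, lintegral_prod_mul (f := f) (g := fun x : Fin n → E => ∏ i, f (x i)) hf.aemeasurable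
      h2.aemeasurable, ih, pow_succ, mul_comm]

theorem u3_tsum_pi {ι : Type} (w : ι → ℝ≥0∞) (n : ℕ) :
    ∑' t : Fin n → ι, ∏ i, w (t i) = (∑' t, w t) ^ n := by
  induction n with
  | zero => simp
  | succ n ih =>
    rw [← (Fin.consEquiv fun _ : Fin (n + 1) => ι).tsum_eq,
      ENNReal.tsum_prod (f := fun (a : ι) (b : Fin n → ι) =>
        ∏ i, w ((Fin.consEquiv fun _ : Fin (n + 1) => ι) (a, b) i)), pow_succ, mul_comm,
      ← ENNReal.tsum_mul_right]
    refine tsum_congr fun a => ?_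
    rw [← ih, ← ENNReal.tsum_mul_left]
    refine tsum_congr fun b => ?_
    simp [Fin.consEquiv, Fin.prod_univ_succ]

theorem u3_ae_pi {E : Type} [MeasurableSpace E] (μ : Measure E) [SigmaFinite μ] (p : E → Prop)
    (h : ∀ᵐ x ∂μ, p x) (n : ℕ) : ∀ᵐ x : Fin n → E ∂(Measure.pi fun _ => μ), ∀ i, p (x i) := by
  rw [ae_all_iff]
  intro i
  exact (Measure.tendsto_eval_ae_ae (μ := fun _ : Fin n => μ) (i := i)).eventually h

instance u3_sigmaFinite (N α τ : ℝ) : SigmaFinite (rhoM N α τ) := by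
  unfold rhoM
  exact SigmaFinite.withDensity_of_ne_top' fun _ => ENNReal.ofReal_ne_top

theorem u3_rho_pos (N α τ : ℝ) : ∀ᵐ v ∂(rhoM N α τ), 0 < v := by
  unfold rhoM
  exact (withDensity_absolutelyContinuous _ _).ae_le (ae_restrict_mem measurableSet_Ioi)

theorem u3_measurable_rhoD {N α τ : ℝ} (hN : 0 < N) : Measurable (rhoD N α τ) := by
  have h1 : Continuous (fj N α τ 0) :=
    continuous_iff_continuousAt.2 fun x => (fj_hasDerivAt hN 0 x).continuousAt
  have h2 : Continuous (Aj N α τ 0) :=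
    continuous_iff_continuousAt.2 fun x => (Aj_hasDerivAt hN 0 x).continuousAt
  have h3 : Continuous fun v : ℝ => (fj N α τ 0 (√v : ℝ)).re := by fun_prop
  have h4 : Continuous fun v : ℝ => Complex.normSq (Aj N α τ 0 ((√v : ℝ) * Complex.I)) :=
    Complex.continuous_normSq.comp (h2.comp (by fun_prop))
  unfold rhoD
  exact (measurable_const.mul h3.measurable).div
    ((measurable_const.mul (by fun_prop : Continuous fun v : ℝ => √v).measurable).mul h4.measurable)

/-- The mass of one `t`-particle. -/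
theorem u3_t_mass {α τ : ℝ} (hτ : 0 < τ) : ∃ C : ℝ, 0 < C ∧ ∀ n : ℕ, 0 < n →
    ∑' t : Zt n α τ, ENNReal.ofReal ((1 + (t : ℝ)) ^ (-(5 / 6) : ℝ)) ≤ ENNReal.ofReal (C * n) := by
  obtain ⟨C, hC, h⟩ := Zt_mass (α := α) hτ
  refine ⟨C, hC, fun n hn => ?_⟩
  obtain ⟨h1, h2⟩ := h n hn
  rw [← ENNReal.ofReal_tsum_of_nonneg _ h1]
  · exact ENNReal.ofReal_le_ofReal h2
  · intro t
    have : (0 : ℝ) < t := t.2.1
    positivity

/-- The mass of one `v`-particle. -/
theorem u3_v_mass {α τ : ℝ} (hτ : 0 < τ) (δ : ℝ) (hδ : 0 < δ) : ∃ C : ℝ, 0 < C ∧ ∃ n₀ : ℕ,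
    ∀ n : ℕ, n₀ ≤ n → ∫⁻ v, ENNReal.ofReal ((1 + v) ^ (-(5 / 6) : ℝ) *
      Real.exp (n * max 0 (U3 α τ v - δ))) ∂(rhoM n α τ) ≤ ENNReal.ofReal (C * n) := by
  obtain ⟨C, hC, h⟩ := rho_mass (α := α) hτ
  obtain ⟨n₀, hup⟩ := rhoD_upper (α := α) hτ δ hδ
  set X : ℝ := xstar α τ ^ 2 with hX
  have hX0 : 0 ≤ X := by positivity
  have hint : IntegrableOn (fun v : ℝ => v ^ (-(1 / 2) : ℝ)) (Ioc 0 X) := by
    rw [← intervalIntegrable_iff_integrableOn_Ioc_of_le hX0]
    exact intervalIntegral.intervalIntegrable_rpow' (by norm_num)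
  set D : ℝ := ∫ v in Ioc 0 X, v ^ (-(1 / 2) : ℝ) with hD
  have hD0 : 0 ≤ D := setIntegral_nonneg measurableSet_Ioc fun v hv => by
    have := hv.1; positivity
  refine ⟨C + D, by positivity, max 1 n₀, fun n hn => ?_⟩
  have hn1 : 0 < n := lt_of_lt_of_le Nat.one_pos ((le_max_left _ _).trans hn)
  have hn2 : n₀ ≤ n := (le_max_right _ _).trans hn
  have hnR : (1 : ℝ) ≤ n := by exact_mod_cast hn1
  obtain ⟨h1, h2⟩ := h n hn1
  have hmD : Measurable (rhoD (n : ℝ) α τ) := u3_measurable_rhoD (by positivity)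
  have hmU : Measurable (U3 α τ) := by
    unfold U3
    exact ((V3_continuous hτ).comp (by fun_prop : Continuous fun v : ℝ => √v)).measurable
  have hm1 : Measurable fun v : ℝ => (1 + v) ^ (-(5 / 6) : ℝ) := by fun_prop
  have hm2 : Measurable fun v : ℝ => Real.exp (n * max 0 (U3 α τ v - δ)) :=
    (measurable_const.mul (measurable_const.max (hmU.sub measurable_const))).exp
  have hmD' : Measurable fun v => ENNReal.ofReal (rhoD (n : ℝ) α τ v) := hmD.ennreal_ofReal
  have e1 : ∫⁻ v, ENNReal.ofReal ((1 + v) ^ (-(5 / 6) : ℝ) *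
      Real.exp (n * max 0 (U3 α τ v - δ))) ∂(rhoM n α τ) =
      ∫⁻ v in Ioi (0 : ℝ), ENNReal.ofReal (rhoD (n : ℝ) α τ v) *
        ENNReal.ofReal ((1 + v) ^ (-(5 / 6) : ℝ) * Real.exp (n * max 0 (U3 α τ v - δ))) := by
    unfold rhoM
    have hm12 : Measurable fun v : ℝ => ENNReal.ofReal ((1 + v) ^ (-(5 / 6) : ℝ) *
      Real.exp (n * max 0 (U3 α τ v - δ))) := (hm1.mul hm2).ennreal_ofReal
    rw [lintegral_withDensity_eq_lintegral_mul _ hmD' hm12]
    rfl
  have e2 : ∫⁻ v, ENNReal.ofReal ((1 + v) ^ (-(5 / 6) : ℝ)) ∂(rhoM n α τ) =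
      ∫⁻ v in Ioi (0 : ℝ), ENNReal.ofReal (rhoD (n : ℝ) α τ v) *
        ENNReal.ofReal ((1 + v) ^ (-(5 / 6) : ℝ)) := by
    unfold rhoM
    rw [lintegral_withDensity_eq_lintegral_mul _ hmD' hm1.ennreal_ofReal]
    rfl
  have e3 : ∫⁻ v, ENNReal.ofReal ((1 + v) ^ (-(5 / 6) : ℝ)) ∂(rhoM n α τ) ≤
      ENNReal.ofReal (C * n) := by
    rw [← ofReal_integral_eq_lintegral_ofReal h1]
    · exact ENNReal.ofReal_le_ofReal h2
    · filter_upwards [u3_rho_pos n α τ] with v hv
      show (0 : ℝ) ≤ (1 + v) ^ (-(5 / 6) : ℝ)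
      positivity
  have e4 : ∫⁻ v in Ioi (0 : ℝ), (Ioc 0 X).indicator
      (fun v => ENNReal.ofReal (v ^ (-(1 / 2) : ℝ))) v ≤ ENNReal.ofReal D := by
    refine (lintegral_mono' Measure.restrict_le_self le_rfl).trans ?_
    rw [lintegral_indicator measurableSet_Ioc, ← ofReal_integral_eq_lintegral_ofReal hint]
    filter_upwards [ae_restrict_mem measurableSet_Ioc] with v hv
    have := hv.1
    show (0 : ℝ) ≤ v ^ (-(1 / 2) : ℝ)
    positivity
  calc ∫⁻ v, ENNReal.ofReal ((1 + v) ^ (-(5 / 6) : ℝ) *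
      Real.exp (n * max 0 (U3 α τ v - δ))) ∂(rhoM n α τ)
      = ∫⁻ v in Ioi (0 : ℝ), ENNReal.ofReal (rhoD (n : ℝ) α τ v) *
        ENNReal.ofReal ((1 + v) ^ (-(5 / 6) : ℝ) * Real.exp (n * max 0 (U3 α τ v - δ))) := e1
    _ ≤ ∫⁻ v in Ioi (0 : ℝ), (ENNReal.ofReal (rhoD (n : ℝ) α τ v) *
        ENNReal.ofReal ((1 + v) ^ (-(5 / 6) : ℝ)) + (Ioc 0 X).indicator
          (fun v => ENNReal.ofReal (v ^ (-(1 / 2) : ℝ))) v) := by
        refine lintegral_mono_ae ?_
        filter_upwards [ae_restrict_mem measurableSet_Ioi] with v hv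
        have hv0 : (0 : ℝ) < v := hv
        rcases lt_or_ge (U3 α τ v) δ with hU | hU
        · rw [max_eq_left (by linarith), mul_zero, Real.exp_zero, mul_one]
          exact le_self_add
        · rw [max_eq_right (by linarith)]
          have hvX : v ∈ Ioc 0 X := by
            refine ⟨hv0, ?_⟩
            by_contra hlt
            have hlt' : X < v := not_le.1 hlt
            have hz : U3 α τ v = 0 := by
              unfold U3 V3
              rw [if_neg]
              rintro ⟨hα, hlt2⟩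
              rw [abs_of_nonneg (Real.sqrt_nonneg v)] at hlt2
              have hx0 : 0 ≤ xstar α τ := (Real.sqrt_nonneg v).trans hlt2.le
              have : v < X := by
                rw [hX]
                calc v = √v ^ 2 := (Real.sq_sqrt hv0.le).symm
                  _ < xstar α τ ^ 2 := by
                    exact pow_lt_pow_left₀ hlt2 (Real.sqrt_nonneg v) (by norm_num)
              linarith
            linarith
          rw [indicator_of_mem hvX]
          have hr := hup n hn2 v hv0 hU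
          have h5 : (1 + v) ^ (-(5 / 6) : ℝ) ≤ 1 :=
            Real.rpow_le_one_of_one_le_of_nonpos (by linarith) (by norm_num)
          have h50 : (0 : ℝ) ≤ (1 + v) ^ (-(5 / 6) : ℝ) := by positivity
          have hvv : v ^ (-(1 / 2) : ℝ) = 1 / √v := by
            rw [Real.rpow_neg hv0.le, Real.sqrt_eq_rpow, one_div (v ^ (1 / 2 : ℝ))]
          refine le_trans ?_ le_add_self
          rw [hvv, mul_comm, ← ENNReal.ofReal_mul (by positivity)]
          refine ENNReal.ofReal_le_ofReal ?_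
          have hs : 0 < √v := Real.sqrt_pos.2 hv0
          calc (1 + v) ^ (-(5 / 6) : ℝ) * Real.exp (n * (U3 α τ v - δ)) * rhoD (n : ℝ) α τ v
              ≤ (1 + v) ^ (-(5 / 6) : ℝ) * Real.exp (n * (U3 α τ v - δ)) *
                (Real.exp (-(n * (U3 α τ v - δ))) / √v) := by gcongr
            _ = (1 + v) ^ (-(5 / 6) : ℝ) * (Real.exp (n * (U3 α τ v - δ)) *
                Real.exp (-(n * (U3 α τ v - δ)))) / √v := by ring
            _ = (1 + v) ^ (-(5 / 6) : ℝ) / √v := by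
                rw [← Real.exp_add, add_neg_cancel, Real.exp_zero, mul_one]
            _ ≤ 1 / √v := by gcongr
    _ = ∫⁻ v, ENNReal.ofReal ((1 + v) ^ (-(5 / 6) : ℝ)) ∂(rhoM n α τ) +
        ∫⁻ v in Ioi (0 : ℝ), (Ioc 0 X).indicator
          (fun v => ENNReal.ofReal (v ^ (-(1 / 2) : ℝ))) v := by
        have hmD1 : Measurable fun v : ℝ => ENNReal.ofReal (rhoD (n : ℝ) α τ v) *
          ENNReal.ofReal ((1 + v) ^ (-(5 / 6) : ℝ)) := hmD'.mul hm1.ennreal_ofReal
        rw [e2, lintegral_add_left hmD1]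
    _ ≤ ENNReal.ofReal (C * n) + ENNReal.ofReal D := add_le_add e3 e4
    _ = ENNReal.ofReal (C * n + D) := (ENNReal.ofReal_add (by positivity) hD0).symm
    _ ≤ ENNReal.ofReal ((C + D) * n) := by
        refine ENNReal.ofReal_le_ofReal ?_
        nlinarith

/-- The mass of one `x`-particle. -/
theorem u3_x_mass (C : ℝ) (hC : 0 < C) :
    ∫⁻ x in Ioi (0 : ℝ), ENNReal.ofReal (C * (1 + x ^ 2)⁻¹) ≤ ENNReal.ofReal (C * π) := by
  refine (lintegral_mono' Measure.restrict_le_self le_rfl).trans ?_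
  have h : Integrable fun x : ℝ => C * (1 + x ^ 2)⁻¹ := integrable_inv_one_add_sq.const_mul C
  rw [← ofReal_integral_eq_lintegral_ofReal h, integral_const_mul, integral_univ_inv_one_add_sq]
  exact Eventually.of_forall fun x => by positivity

theorem u3_BI_nonneg (ε : ℕ) {m k l : ℕ} (ξ : Fin m → ℝ) (t : Fin k → ℝ) (v : Fin l → ℝ)
    (hξ : ∀ i, 0 < ξ i) (ht : ∀ i, 0 < t i) (hv : ∀ i, 0 < v i) : 0 ≤ BI ε ξ t v := by
  unfold BI
  have h1 : 0 ≤ ∏ i, t i ^ ε := Finset.prod_nonneg fun i _ => pow_nonneg (ht i).le _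
  have h2 : 0 ≤ ∏ i, v i ^ (1 - ε) := Finset.prod_nonneg fun i _ => pow_nonneg (hv i).le _
  have h3 : 0 ≤ ∏ i, ∏ j, (ξ i + t j) :=
    Finset.prod_nonneg fun i _ => Finset.prod_nonneg fun j _ => (add_pos (hξ i) (ht j)).le
  have h4 : 0 ≤ ∏ i, ∏ j, (t i + v j) :=
    Finset.prod_nonneg fun i _ => Finset.prod_nonneg fun j _ => (add_pos (ht i) (hv j)).le
  positivity

theorem block_upper {α τ : ℝ} (hτ : 0 < τ) {V : ℝ → ℝ} (hV : Pot V) (ε : ℕ)
    (hε : ε = 0 ∨ ε = 1) (Jinf : ℝ)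
    (hJ : ∀ a b c : Measure ℝ, AdmJ α τ V a b c → Jinf ≤ JJ α τ V a b c) (δ : ℝ) (hδ : 0 < δ) :
    ∃ n₀ : ℕ, ∀ n : ℕ, n₀ ≤ n → BBn n α τ ε (fun x => Real.exp (-(n * V x))) ≤
      ENNReal.ofReal (Real.exp (-((n : ℝ) ^ 2 * (Jinf - δ)))) := by
  have hδ1 : 0 < δ / 2 := by linarith
  obtain ⟨n₁, hcfg⟩ := config_upper hτ hV ε hε Jinf hJ (δ / 2) hδ1
  obtain ⟨Cf, hCf, hf⟩ := fj_upper (α := α) hτ
  obtain ⟨Ct, hCt, hmt⟩ := u3_t_mass (α := α) hτ
  obtain ⟨Cv, hCv, n₂, hmv⟩ := u3_v_mass (α := α) hτ (δ / 2) hδ1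
  set C : ℝ := max 1 (max (4 * Cf * π) (max Ct Cv)) with hC
  have hC1 : 1 ≤ C := le_max_left _ _
  have hC2 : 4 * Cf * π ≤ C := (le_max_left _ _).trans (le_max_right _ _)
  have hC3 : Ct ≤ C := (le_max_left _ _).trans ((le_max_right _ _).trans (le_max_right _ _))
  have hC4 : Cv ≤ C := (le_max_right _ _).trans ((le_max_right _ _).trans (le_max_right _ _))
  -- growth
  have hlog : ∀ᶠ n : ℕ in atTop, 3 * (n : ℝ) * Real.log (C * n) ≤ (n : ℝ) ^ 2 * (δ / 2) := by
    have h1 : Tendsto (fun n : ℕ => Real.log (C * n) / (C * n)) atTop (𝓝 0) := by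
      have h0 : Tendsto (fun n : ℕ => C * (n : ℝ)) atTop atTop :=
        tendsto_natCast_atTop_atTop.const_mul_atTop (by linarith)
      have := (Real.isLittleO_log_id_atTop.tendsto_div_nhds_zero).comp h0
      exact this
    have h2 := h1.eventually (gt_mem_nhds (show (0 : ℝ) < δ / (6 * C) by positivity))
    filter_upwards [h2, eventually_gt_atTop 0] with n hn hn0
    have hn0' : (0 : ℝ) < n := by exact_mod_cast hn0
    rw [div_lt_iff₀ (by positivity)] at hn
    have h3 : Real.log (C * n) ≤ δ / 6 * n := by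
      calc Real.log (C * n) ≤ δ / (6 * C) * (C * n) := hn.le
        _ = δ / 6 * n := by field_simp
    calc 3 * (n : ℝ) * Real.log (C * n) ≤ 3 * (n : ℝ) * (δ / 6 * n) := by gcongr
      _ = (n : ℝ) ^ 2 * (δ / 2) := by ring
  obtain ⟨n₃, hn₃⟩ := eventually_atTop.1 hlog
  refine ⟨max 1 (max n₁ (max n₂ n₃)), fun n hn => ?_⟩
  have hn0 : 1 ≤ n := (le_max_left _ _).trans hn
  have hn1 : n₁ ≤ n := (le_max_left _ _).trans ((le_max_right _ _).trans hn)
  have hn2 : n₂ ≤ n :=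
    (le_max_left _ _).trans ((le_max_right _ _).trans ((le_max_right _ _).trans hn))
  have hn3 : n₃ ≤ n :=
    (le_max_right _ _).trans ((le_max_right _ _).trans ((le_max_right _ _).trans hn))
  have hnR : (1 : ℝ) ≤ n := by exact_mod_cast hn0
  -- the block sizes
  obtain ⟨m, hm⟩ : ∃ m : ℕ, m = (if ε = 1 then (n + 1) / 2 else n / 2) := ⟨_, rfl⟩
  have hmn : m ≤ n := by
    rw [hm]
    split_ifs <;> omega
  have hkn : kk ε m ≤ n := by
    unfold kk
    split_ifs <;> omega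
  have hln : ll ε m ≤ n := by
    unfold ll
    split_ifs <;> omega
  set E : ℝ := Real.exp (-((n : ℝ) ^ 2 * (Jinf - δ / 2))) with hE
  have hE0 : 0 < E := Real.exp_pos _
  have hcfg' := hcfg n hn1 m hm
  -- rewriting BBn
  have hBB : BBn n α τ ε (fun x => Real.exp (-(n * V x))) =
      ∑' t : Fin (kk ε m) → Zt n α τ, ∫⁻ v : Fin (ll ε m) → ℝ, ∫⁻ x : Fin m → ℝ,
        ENNReal.ofReal (BI ε (fun i => x i ^ 2) (fun i => (t i : ℝ)) v *
          ∏ i, (x i ^ (2 * (1 - ε)) * (fj n α τ 0 (x i : ℝ)).re * Real.exp (-(n * V (x i)))))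
        ∂(Measure.pi fun _ => volume.restrict (Ioi (0 : ℝ)))
        ∂(Measure.pi fun _ => rhoM n α τ) := by
    unfold BBn
    simp only [← hm]
    rfl
  rw [hBB]
  -- pointwise bound
  have hpt : ∀ (t : Fin (kk ε m) → Zt n α τ) (v : Fin (ll ε m) → ℝ) (x : Fin m → ℝ),
      (∀ i, 0 < v i) → (∀ i, 0 < x i) →
      BI ε (fun i => x i ^ 2) (fun i => (t i : ℝ)) v *
          ∏ i, (x i ^ (2 * (1 - ε)) * (fj n α τ 0 (x i : ℝ)).re * Real.exp (-(n * V (x i)))) ≤
        E * (∏ i, (1 + (t i : ℝ)) ^ (-(5 / 6) : ℝ)) *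
          (∏ i, ((1 + v i) ^ (-(5 / 6) : ℝ) * Real.exp (n * max 0 (U3 α τ (v i) - δ / 2)))) *
          ∏ i, (4 * Cf * (1 + x i ^ 2)⁻¹) := by
    intro t v x hv hx
    have ht : ∀ i, (0 : ℝ) < t i := fun i => (t i).2.1
    have hx2 : ∀ i, 0 < x i ^ 2 := fun i => pow_pos (hx i) 2
    have hB0 : 0 ≤ BI ε (fun i => x i ^ 2) (fun i => (t i : ℝ)) v :=
      u3_BI_nonneg ε _ _ _ hx2 ht hv
    have h1 := hcfg' (fun i => x i ^ 2) (fun i => (t i : ℝ)) v hx2 (fun i => (t i).2) hv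
    -- single x factor
    have hxf : ∀ i, x i ^ (2 * (1 - ε)) * (fj n α τ 0 (x i : ℝ)).re * Real.exp (-(n * V (x i))) ≤
        ((1 + x i ^ 2) ^ 4 * Real.exp (-(n * U1 α τ V (x i ^ 2)))) *
          (4 * Cf * (1 + x i ^ 2)⁻¹) := by
      intro i
      have hxi := hx i
      have h2 := hf n (by omega) (x i)
      rw [abs_of_pos hxi] at h2
      have h3 : x i ^ (2 * (1 - ε)) ≤ 1 + x i ^ 2 := by
        rcases hε with rfl | rfl
        · norm_num
        · norm_num
          positivity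
      have h4 : 1 + x i ≤ 2 * (1 + x i ^ 2) := by nlinarith [sq_nonneg (x i - 1)]
      have h5 : U1 α τ V (x i ^ 2) = V (x i) - gg α τ (x i) := by
        unfold U1
        rw [Real.sqrt_sq hxi.le]
      have h6 : Real.exp (n * gg α τ (x i)) * Real.exp (-(n * V (x i))) =
          Real.exp (-(n * U1 α τ V (x i ^ 2))) := by
        rw [← Real.exp_add, h5]
        congr 1
        ring
      have h7 : (1 : ℝ) ≤ 1 + x i ^ 2 := by nlinarith
      calc x i ^ (2 * (1 - ε)) * (fj n α τ 0 (x i : ℝ)).re * Real.exp (-(n * V (x i)))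
          ≤ (1 + x i ^ 2) * (Cf * (1 + x i) * Real.exp (n * gg α τ (x i))) *
            Real.exp (-(n * V (x i))) := by
            gcongr
            exact (fj_zero_pos (by positivity) (x i)).le
        _ = (1 + x i ^ 2) * (Cf * (1 + x i)) * (Real.exp (n * gg α τ (x i)) *
            Real.exp (-(n * V (x i)))) := by ring
        _ = (1 + x i ^ 2) * (Cf * (1 + x i)) * Real.exp (-(n * U1 α τ V (x i ^ 2))) := by rw [h6]
        _ ≤ (1 + x i ^ 2) * (Cf * (2 * (1 + x i ^ 2))) * Real.exp (-(n * U1 α τ V (x i ^ 2))) := by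
            gcongr
        _ ≤ (4 * Cf * (1 + x i ^ 2) ^ 3) * Real.exp (-(n * U1 α τ V (x i ^ 2))) := by
            refine mul_le_mul_of_nonneg_right ?_ (Real.exp_pos _).le
            have : (1 + x i ^ 2) ^ 2 ≤ (1 + x i ^ 2) ^ 3 := pow_le_pow_right₀ h7 (by norm_num)
            have h8 := mul_le_mul_of_nonneg_left this hCf.le
            have h9 : 0 < Cf * (1 + x i ^ 2) ^ 3 := by positivity
            have h10 : (1 + x i ^ 2) * (Cf * (2 * (1 + x i ^ 2))) = 2 * (Cf * (1 + x i ^ 2) ^ 2) := by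
              ring
            have h11 : 4 * Cf * (1 + x i ^ 2) ^ 3 = 4 * (Cf * (1 + x i ^ 2) ^ 3) := by ring
            linarith
        _ = _ := by
            field_simp
    have hxn : ∀ i, 0 ≤ x i ^ (2 * (1 - ε)) * (fj n α τ 0 (x i : ℝ)).re *
        Real.exp (-(n * V (x i))) := fun i =>
      mul_nonneg (mul_nonneg (pow_nonneg (hx i).le _) (fj_zero_pos (by positivity) (x i)).le)
        (Real.exp_pos _).le
    have hprod : ∏ i, (x i ^ (2 * (1 - ε)) * (fj n α τ 0 (x i : ℝ)).re *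
        Real.exp (-(n * V (x i)))) ≤
        (∏ i, ((1 + x i ^ 2) ^ 4 * Real.exp (-(n * U1 α τ V (x i ^ 2))))) *
          ∏ i, (4 * Cf * (1 + x i ^ 2)⁻¹) := by
      rw [← Finset.prod_mul_distrib]
      exact Finset.prod_le_prod (fun i _ => hxn i) fun i _ => hxf i
    set PB := ∏ i, ((1 + x i ^ 2) ^ 4 * Real.exp (-(n * U1 α τ V (x i ^ 2)))) with hPB
    set PX := ∏ i, (4 * Cf * (1 + x i ^ 2)⁻¹) with hPX
    have hPX0 : 0 ≤ PX := Finset.prod_nonneg fun i _ => by positivity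
    set PT := ∏ i, (1 + (t i : ℝ)) ^ (5 / 6 : ℝ) with hPT
    set PV := ∏ i, (1 + v i) ^ (5 / 6 : ℝ) with hPV
    set PU := ∏ i, Real.exp (-(n * max 0 (U3 α τ (v i) - δ / 2))) with hPU
    have hT : (∏ i, (1 + (t i : ℝ)) ^ (-(5 / 6) : ℝ)) * PT = 1 := by
      rw [hPT, ← Finset.prod_mul_distrib]
      refine Finset.prod_eq_one fun i _ => ?_
      have := ht i
      rw [← Real.rpow_add (by positivity)]
      norm_num
    have hVU : (∏ i, ((1 + v i) ^ (-(5 / 6) : ℝ) *
        Real.exp (n * max 0 (U3 α τ (v i) - δ / 2)))) * (PV * PU) = 1 := by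
      rw [hPV, hPU, ← Finset.prod_mul_distrib, ← Finset.prod_mul_distrib]
      refine Finset.prod_eq_one fun i _ => ?_
      have := hv i
      have e1 : (1 + v i) ^ (-(5 / 6) : ℝ) * (1 + v i) ^ (5 / 6 : ℝ) = 1 := by
        rw [← Real.rpow_add (by positivity)]
        norm_num
      have e2 : Real.exp (n * max 0 (U3 α τ (v i) - δ / 2)) *
          Real.exp (-(n * max 0 (U3 α τ (v i) - δ / 2))) = 1 := by
        rw [← Real.exp_add, add_neg_cancel, Real.exp_zero]
      calc _ = ((1 + v i) ^ (-(5 / 6) : ℝ) * (1 + v i) ^ (5 / 6 : ℝ)) *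
          (Real.exp (n * max 0 (U3 α τ (v i) - δ / 2)) *
          Real.exp (-(n * max 0 (U3 α τ (v i) - δ / 2)))) := by ring
        _ = 1 := by rw [e1, e2, mul_one]
    set QT := ∏ i, (1 + (t i : ℝ)) ^ (-(5 / 6) : ℝ) with hQT
    set QV := ∏ i, ((1 + v i) ^ (-(5 / 6) : ℝ) *
        Real.exp (n * max 0 (U3 α τ (v i) - δ / 2))) with hQV
    have hQT0 : 0 ≤ QT := Finset.prod_nonneg fun i _ => by have := ht i; positivity
    have hQV0 : 0 ≤ QV := Finset.prod_nonneg fun i _ => by have := hv i; positivity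
    set B := BI ε (fun i => x i ^ 2) (fun i => (t i : ℝ)) v with hB
    have key : B * PB ≤ E * QT * QV := by
      have h8 : B * PT * PV * PB * PU ≤ E := h1
      calc B * PB = (B * PT * PV * PB * PU) * (QT * QV) := by
            calc B * PB = (QT * PT) * (QV * (PV * PU)) * (B * PB) := by rw [hT, hVU]; ring
              _ = _ := by ring
        _ ≤ E * (QT * QV) := mul_le_mul_of_nonneg_right h8 (mul_nonneg hQT0 hQV0)
        _ = E * QT * QV := by ring
    calc B * ∏ i, (x i ^ (2 * (1 - ε)) * (fj n α τ 0 (x i : ℝ)).re * Real.exp (-(n * V (x i))))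
        ≤ B * (PB * PX) := mul_le_mul_of_nonneg_left hprod hB0
      _ = B * PB * PX := by ring
      _ ≤ E * QT * QV * PX := mul_le_mul_of_nonneg_right key hPX0
  -- integrate
  have hmU : Measurable (U3 α τ) := by
    unfold U3
    exact ((V3_continuous hτ).comp (by fun_prop : Continuous fun v : ℝ => √v)).measurable
  have hmw : Measurable fun v : ℝ => ENNReal.ofReal ((1 + v) ^ (-(5 / 6) : ℝ) *
      Real.exp (n * max 0 (U3 α τ v - δ / 2))) := by
    have hm1 : Measurable fun v : ℝ => (1 + v) ^ (-(5 / 6) : ℝ) := by fun_prop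
    exact (hm1.mul (measurable_const.mul
      (measurable_const.max (hmU.sub measurable_const))).exp).ennreal_ofReal
  have hmx : Measurable fun x : ℝ => ENNReal.ofReal (4 * Cf * (1 + x ^ 2)⁻¹) := by fun_prop
  set wt : Zt n α τ → ℝ≥0∞ := fun t => ENNReal.ofReal ((1 + (t : ℝ)) ^ (-(5 / 6) : ℝ)) with hwt
  set wv : ℝ → ℝ≥0∞ := fun v => ENNReal.ofReal ((1 + v) ^ (-(5 / 6) : ℝ) *
      Real.exp (n * max 0 (U3 α τ v - δ / 2))) with hwv
  set wx : ℝ → ℝ≥0∞ := fun x => ENNReal.ofReal (4 * Cf * (1 + x ^ 2)⁻¹) with hwx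
  have hbound : (∑' t : Fin (kk ε m) → Zt n α τ, ∫⁻ v : Fin (ll ε m) → ℝ, ∫⁻ x : Fin m → ℝ,
        ENNReal.ofReal (BI ε (fun i => x i ^ 2) (fun i => (t i : ℝ)) v *
          ∏ i, (x i ^ (2 * (1 - ε)) * (fj n α τ 0 (x i : ℝ)).re * Real.exp (-(n * V (x i)))))
        ∂(Measure.pi fun _ => volume.restrict (Ioi (0 : ℝ)))
        ∂(Measure.pi fun _ => rhoM n α τ)) ≤
      ∑' t : Fin (kk ε m) → Zt n α τ, ENNReal.ofReal E * (∏ i, wt (t i)) *
        ((∫⁻ v, wv v ∂(rhoM n α τ)) ^ (ll ε m) *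
          (∫⁻ x in Ioi (0 : ℝ), wx x) ^ m) := by
    refine ENNReal.tsum_le_tsum fun t => ?_
    have hb : ∀ᵐ v : Fin (ll ε m) → ℝ ∂(Measure.pi fun _ => rhoM n α τ),
        (∫⁻ x : Fin m → ℝ, ENNReal.ofReal (BI ε (fun i => x i ^ 2) (fun i => (t i : ℝ)) v *
          ∏ i, (x i ^ (2 * (1 - ε)) * (fj n α τ 0 (x i : ℝ)).re * Real.exp (-(n * V (x i)))))
        ∂(Measure.pi fun _ => volume.restrict (Ioi (0 : ℝ)))) ≤
        ENNReal.ofReal E * (∏ i, wt (t i)) * (∏ i, wv (v i)) *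
          (∫⁻ x in Ioi (0 : ℝ), wx x) ^ m := by
      filter_upwards [u3_ae_pi (rhoM n α τ) (fun v => 0 < v) (u3_rho_pos n α τ) (ll ε m)] with v hv
      have hmX : Measurable fun x : Fin m → ℝ => ∏ i, wx (x i) :=
        Finset.measurable_prod _ fun i _ => hmx.comp (measurable_pi_apply i)
      rw [← u3_lintegral_pi (volume.restrict (Ioi (0 : ℝ))) wx hmx m,
        ← lintegral_const_mul _ hmX]
      refine lintegral_mono_ae ?_
      filter_upwards [u3_ae_pi (volume.restrict (Ioi (0 : ℝ))) (fun v => 0 < v)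
        (ae_restrict_mem measurableSet_Ioi) m] with x hx
      refine (ENNReal.ofReal_le_ofReal (hpt t v x hv hx)).trans (le_of_eq ?_)
      have ht : ∀ i, (0 : ℝ) < t i := fun i => (t i).2.1
      have hQT0 : 0 ≤ ∏ i, (1 + (t i : ℝ)) ^ (-(5 / 6) : ℝ) :=
        Finset.prod_nonneg fun i _ => by have := ht i; positivity
      have hQV0 : 0 ≤ ∏ i, ((1 + v i) ^ (-(5 / 6) : ℝ) *
          Real.exp (n * max 0 (U3 α τ (v i) - δ / 2))) :=
        Finset.prod_nonneg fun i _ => by have := hv i; positivity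
      rw [ENNReal.ofReal_mul (mul_nonneg (mul_nonneg hE0.le hQT0) hQV0),
        ENNReal.ofReal_mul (mul_nonneg hE0.le hQT0), ENNReal.ofReal_mul hE0.le,
        ENNReal.ofReal_prod_of_nonneg (fun i _ => by have := ht i; positivity),
        ENNReal.ofReal_prod_of_nonneg (fun i _ => by have := hv i; positivity),
        ENNReal.ofReal_prod_of_nonneg (fun i _ => by positivity)]
    refine (lintegral_mono_ae hb).trans (le_of_eq ?_)
    have hmprod : Measurable fun v : Fin (ll ε m) → ℝ => ∏ i, wv (v i) :=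
      Finset.measurable_prod _ fun i _ => hmw.comp (measurable_pi_apply i)
    rw [lintegral_mul_const _ (hmprod.const_mul _), lintegral_const_mul _ hmprod,
      u3_lintegral_pi (rhoM n α τ) wv hmw, mul_assoc]
  refine hbound.trans ?_
  rw [ENNReal.tsum_mul_right, ENNReal.tsum_mul_left, u3_tsum_pi]
  have hCn1 : 1 ≤ C * n := by nlinarith
  have g1 : (∑' t, wt t) ≤ ENNReal.ofReal (C * n) :=
    (hmt n (by omega)).trans (ENNReal.ofReal_le_ofReal (by gcongr))
  have g2 : (∫⁻ v, wv v ∂(rhoM n α τ)) ≤ ENNReal.ofReal (C * n) :=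
    (hmv n hn2).trans (ENNReal.ofReal_le_ofReal (by gcongr))
  have g3 : (∫⁻ x in Ioi (0 : ℝ), wx x) ≤ ENNReal.ofReal (C * n) := by
    refine (u3_x_mass (4 * Cf) (by positivity)).trans (ENNReal.ofReal_le_ofReal ?_)
    nlinarith
  have hpow : ∀ (y : ℝ≥0∞) (j : ℕ), y ≤ ENNReal.ofReal (C * n) → j ≤ n →
      y ^ j ≤ ENNReal.ofReal (C * n) ^ n := by
    intro y j hy hj
    refine (pow_le_pow_left' hy j).trans ?_
    refine pow_le_pow_right₀ ?_ hj
    rw [ENNReal.one_le_ofReal]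
    exact hCn1
  calc ENNReal.ofReal E * (∑' t, wt t) ^ kk ε m * ((∫⁻ v, wv v ∂(rhoM n α τ)) ^ (ll ε m) *
          (∫⁻ x in Ioi (0 : ℝ), wx x) ^ m)
      ≤ ENNReal.ofReal E * ENNReal.ofReal (C * n) ^ n *
        (ENNReal.ofReal (C * n) ^ n * ENNReal.ofReal (C * n) ^ n) := by
        exact mul_le_mul' (mul_le_mul' le_rfl (hpow _ _ g1 hkn))
          (mul_le_mul' (hpow _ _ g2 hln) (hpow _ _ g3 hmn))
    _ = ENNReal.ofReal (E * (C * n) ^ (3 * n)) := by
        rw [ENNReal.ofReal_mul hE0.le, ENNReal.ofReal_pow (by positivity)]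
        ring
    _ ≤ ENNReal.ofReal (Real.exp (-((n : ℝ) ^ 2 * (Jinf - δ)))) := by
        refine ENNReal.ofReal_le_ofReal ?_
        have h9 : (C * n) ^ (3 * n) = Real.exp (3 * n * Real.log (C * n)) := by
          rw [← Real.exp_log (show (0 : ℝ) < C * n by positivity), ← Real.exp_nat_mul]
          rw [Real.log_exp]
          push_cast
          ring_nf
        rw [h9, hE, ← Real.exp_add]
        refine Real.exp_le_exp.2 ?_
        have := hn₃ n hn3
        nlinarith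

end

end Pool.Agent.MP_941b23_mp
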