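import Pool.Agent.MP_941b23_mp.Defs2
import Pool.Agent.MP_941b23_mp.D7
import Pool.Agent.MP_941b23_mp.F2a
import Pool.Agent.MP_941b23_mp.F2b
import Pool.Agent.MP_941b23_mp.L2b
import Pool.Agent.MP_941b23_mp.L3b
import Pool.Agent.MP_941b23_mp.P2
import Pool.Agent.MP_941b23_mp.P4
import Pool.Agent.MP_941b23_mp.U3

namespace Pool.Agent.MP_941b23_mp

open MeasureTheory Set Filter Topology
open scoped ENNReal NNReal Real

noncomputable section

/-- the perturbed potential -/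
def f2_Vs (V : ℝ → ℝ) (s : ℝ) (g : ℝ → ℝ) (x : ℝ) : ℝ := V x + s * g (x ^ 2)

theorem f2_Vs_pot {V : ℝ → ℝ} (hV : Pot V) (s : ℝ) {g : ℝ → ℝ} (hg : Continuous g) {C : ℝ}
    (hC : ∀ x, |g x| ≤ C) : Pot (f2_Vs V s g) := by
  refine ⟨?_, ?_, ?_⟩
  · exact hV.cont.add (continuous_const.mul (hg.comp (continuous_pow 2)))
  · intro x
    simp only [f2_Vs, hV.even, even_two.neg_pow]
  · obtain ⟨c, C0, hc, h⟩ := hV.lower
    refine ⟨c, C0 + |s| * C, hc, fun x => ?_⟩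
    have h1 : |s * g (x ^ 2)| ≤ |s| * C := by
      rw [abs_mul]; exact mul_le_mul_of_nonneg_left (hC _) (abs_nonneg _)
    have := neg_abs_le (s * g (x ^ 2))
    simp only [f2_Vs]
    linarith [h x]

theorem f2_U1_Vs (α τ : ℝ) (V : ℝ → ℝ) (s : ℝ) (g : ℝ → ℝ) (ξ : ℝ) (hξ : 0 ≤ ξ) :
    U1 α τ (f2_Vs V s g) ξ = U1 α τ V ξ + s * g ξ := by
  simp only [U1, f2_Vs, Real.sq_sqrt hξ]; ring

theorem f2_ae_nonneg {a : Measure ℝ} (h : a (Iio 0) = 0) : ∀ᵐ x ∂a, 0 ≤ x := by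
  rw [ae_iff]
  convert h using 2
  ext x; simp

theorem f2_fin {a : Measure ℝ} {c : ℝ≥0∞} (hc : c ≠ ⊤) (h : a univ = c) : IsFiniteMeasure a :=
  ⟨by rw [h]; exact hc.lt_top⟩

theorem f2_ga {a : Measure ℝ} [IsFiniteMeasure a] {g : ℝ → ℝ} (hg : Continuous g) {C : ℝ}
    (hC : ∀ x, |g x| ≤ C) : Integrable g a :=
  Integrable.of_bound hg.aestronglyMeasurable C (ae_of_all _ fun x => by
    rw [Real.norm_eq_abs]; exact hC x)

theorem f2_adm_pert {α τ : ℝ} {V : ℝ → ℝ} (s : ℝ) {g : ℝ → ℝ} (hg : Continuous g) {C : ℝ}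
    (hC : ∀ x, |g x| ≤ C) {a b c : Measure ℝ} (h : AdmJ α τ V a b c) :
    AdmJ α τ (f2_Vs V s g) a b c ∧
      JJ α τ (f2_Vs V s g) a b c = JJ α τ V a b c + s * ∫ x, g x ∂a := by
  have : IsFiniteMeasure a := f2_fin (by simp) h.massa
  have hgi : Integrable g a := f2_ga hg hC
  have hae : U1 α τ (f2_Vs V s g) =ᵐ[a] fun ξ => U1 α τ V ξ + s * g ξ := by
    filter_upwards [f2_ae_nonneg h.suppa] with x hx
    exact f2_U1_Vs α τ V s g x hx
  have hint : Integrable (fun ξ => U1 α τ V ξ + s * g ξ) a := h.pot.add (hgi.const_mul s)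
  refine ⟨{ h with pot := hint.congr hae.symm }, ?_⟩
  rw [JJ, JJ, integral_congr_ae hae, integral_add h.pot (hgi.const_mul s), integral_const_mul]
  ring

theorem f2_adm_pert' {α τ : ℝ} {V : ℝ → ℝ} (s : ℝ) {g : ℝ → ℝ} (hg : Continuous g) {C : ℝ}
    (hC : ∀ x, |g x| ≤ C) {a b c : Measure ℝ} (h : AdmJ α τ (f2_Vs V s g) a b c) :
    AdmJ α τ V a b c ∧
      JJ α τ (f2_Vs V s g) a b c = JJ α τ V a b c + s * ∫ x, g x ∂a := by
  have h1 : f2_Vs (f2_Vs V s g) (-s) g = V := by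
    funext x; simp only [f2_Vs]; ring
  have h2 := (f2_adm_pert (-s) hg hC h).1
  rw [h1] at h2
  exact ⟨h2, (f2_adm_pert s hg hC h2).2⟩

theorem f2_lower {α τ : ℝ} (hτ : 0 < τ) {V : ℝ → ℝ} (hV : Pot V) {a b c : Measure ℝ}
    (h : AdmJ α τ V a b c)
    (hmin : ∀ a' b' c' : Measure ℝ, AdmJ α τ V a' b' c' → JJ α τ V a b c ≤ JJ α τ V a' b' c')
    (t : ℝ) (ht : 0 < t) (ψ : ℝ → ℝ) (hψ : Continuous ψ) (hc : HasCompactSupport ψ) :
    ∃ D : ℝ, 0 < D ∧ ∀ (s : ℝ) (a' b' c' : Measure ℝ),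
      AdmJ α τ (f2_Vs V s (avg t ψ)) a' b' c' →
      JJ α τ V a b c + s * ∫ x, avg t ψ x ∂a - D * s ^ 2 ≤
        JJ α τ (f2_Vs V s (avg t ψ)) a' b' c' := by
  obtain ⟨K, hK, hdual⟩ := avg_duality t ht ψ hψ hc
  obtain ⟨hg, C, hC⟩ := avg_continuous t ht ψ hψ hc
  refine ⟨3 / 8 * K, by positivity, fun s a' b' c' h' => ?_⟩
  obtain ⟨h1, h2⟩ := f2_adm_pert' s hg hC h'
  have h3 := J_quad hτ hV h hmin h1 t ht
  have : IsFiniteMeasure a := f2_fin (by simp) h.massa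
  have : IsFiniteMeasure a' := f2_fin (by simp) h'.massa
  have h4 := hdual a a'
  rw [h2]
  set x := ∫ x, avg t ψ x ∂a
  set y := ∫ x, avg t ψ x ∂a'
  have h5 : (x - y) ^ 2 / K ≤ Phi t a a' := by
    rw [div_le_iff₀ hK]; linarith
  have h6 : 2 / 3 * ((x - y) ^ 2 / K) - s * (x - y) + 3 / 8 * K * s ^ 2 ≥ 0 := by
    have : 2 / 3 * ((x - y) ^ 2 / K) - s * (x - y) + 3 / 8 * K * s ^ 2 =
        2 / 3 / K * ((x - y) - 3 / 4 * K * s) ^ 2 := by
      field_simp; ring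
    rw [this]; positivity
  nlinarith [h5, h6, h3]

theorem f2_bound_side {V : Polynomial ℝ} {α τ : ℝ} (hτ : 0 < τ)
    (hV : ∀ x, V.eval (-x) = V.eval x)
    (hdeg : 0 < V.natDegree) (hlead : 0 < V.leadingCoeff)
    (hI : ∀ n : ℕ, 0 < n → f2_I n V α τ)
    {a b c : Measure ℝ} (h : AdmJ α τ (fun x => V.eval x) a b c)
    (hmin : ∀ a' b' c' : Measure ℝ, AdmJ α τ (fun x => V.eval x) a' b' c' →
      JJ α τ (fun x => V.eval x) a b c ≤ JJ α τ (fun x => V.eval x) a' b' c')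
    (t : ℝ) (ht : 0 < t) (ψ : ℝ → ℝ) (hψ : Continuous ψ) (hc : HasCompactSupport ψ) :
    ∃ D : ℝ, 0 < D ∧ ∀ (s δ : ℝ), 0 < δ → ∀ᶠ n : ℕ in atTop,
      -(s * meanEig n V α τ (fun x => avg t ψ (x ^ 2))) ≤
        -(2 * s * ∫ x, avg t ψ x ∂a) + D * s ^ 2 + 6 * δ := by
  have hPV := f2_pot V hV hdeg hlead
  obtain ⟨D, hD, hlow⟩ := f2_lower hτ hPV h hmin t ht ψ hψ hc
  obtain ⟨hg, C, hC⟩ := avg_continuous t ht ψ hψ hc
  refine ⟨2 * D, by positivity, fun s δ hδ => ?_⟩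
  set g := avg t ψ with hgdef
  set J0 := JJ α τ (fun x => V.eval x) a b c with hJ0
  set Jinf := J0 + s * ∫ x, g x ∂a - D * s ^ 2 with hJinf
  have hPs := f2_Vs_pot hPV s hg hC
  obtain ⟨n1, hn1⟩ := block_upper hτ hPs 1 (Or.inr rfl) Jinf (fun a' b' c' h' => hlow s a' b' c' h')
    δ hδ
  obtain ⟨n2, hn2⟩ := block_upper hτ hPs 0 (Or.inl rfl) Jinf (fun a' b' c' h' => hlow s a' b' c' h')
    δ hδ
  obtain ⟨a', b', c', lo, hi, K, η, ra, rc, θ, hnice, hJn⟩ :=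
    exists_nice hτ hPV (f2_dbl V hV hdeg hlead) h δ hδ
  obtain ⟨n3, hn3⟩ := block_lower hτ hPV 1 (Or.inr rfl) hnice δ hδ
  obtain ⟨n4, hn4⟩ := block_lower hτ hPV 0 (Or.inl rfl) hnice δ hδ
  filter_upwards [eventually_ge_atTop n1, eventually_ge_atTop n2, eventually_ge_atTop n3,
    eventually_ge_atTop n4, eventually_gt_atTop 0] with n e1 e2 e3 e4 e5
  obtain ⟨κ, hκ0, hκt, hκ⟩ := ZZ_eq_blocks n e5 α τ hτ
  have hn' : (0 : ℝ) < n := by exact_mod_cast e5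
  have hWt : ∀ s : ℝ, Wt (f2_h n V s g) := by
    intro s
    have hP := f2_Vs_pot hPV s hg hC
    have heq : f2_h n V s g = fun x => Real.exp (-(n * f2_Vs (fun x => V.eval x) s g x)) := rfl
    rw [heq]
    refine ⟨?_, fun x => (Real.exp_pos _).le, fun x => by rw [hP.even], ?_⟩
    · exact Real.continuous_exp.comp (continuous_const.mul hP.cont).neg
    · obtain ⟨c0, C0, hc0, hb⟩ := hP.lower
      refine ⟨Real.exp (n * C0), n * c0, by positivity, fun x => ?_⟩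
      rw [← Real.exp_add]
      apply Real.exp_le_exp.2
      nlinarith [hb x]
  have hup : ZZ n α τ (f2_h n V s g) ≤ κ * ENNReal.ofReal (Real.exp (-((n : ℝ) ^ 2 * (Jinf - δ))))
      * ENNReal.ofReal (Real.exp (-((n : ℝ) ^ 2 * (Jinf - δ)))) := by
    rw [hκ _ (hWt s)]
    gcongr
    · exact hn1 n e1
    · exact hn2 n e2
  have heq0 : f2_h n V 0 g = fun x => Real.exp (-(n * V.eval x)) := by
    funext x; simp [f2_h]
  have hlo : κ * ENNReal.ofReal (Real.exp (-((n : ℝ) ^ 2 * (J0 + 2 * δ))))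
      * ENNReal.ofReal (Real.exp (-((n : ℝ) ^ 2 * (J0 + 2 * δ)))) ≤ ZZ n α τ (f2_h n V 0 g) := by
    rw [hκ _ (hWt 0), heq0]
    have hmono : ENNReal.ofReal (Real.exp (-((n : ℝ) ^ 2 * (J0 + 2 * δ)))) ≤
        ENNReal.ofReal (Real.exp (-((n : ℝ) ^ 2 * (JJ α τ (fun x => V.eval x) a' b' c' + δ)))) := by
      apply ENNReal.ofReal_le_ofReal
      apply Real.exp_le_exp.2
      have : (n : ℝ) ^ 2 * (JJ α τ (fun x => V.eval x) a' b' c' + δ) ≤
        (n : ℝ) ^ 2 * (J0 + 2 * δ) := mul_le_mul_of_nonneg_left (by linarith) (by positivity)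
      linarith
    gcongr
    · exact hmono.trans (hn3 n e3)
    · exact hmono.trans (hn4 n e4)
  have hj := f2_jensen (hI n e5) s g hg C hC e5
  have hfin := (mul_le_mul_right hlo _).trans (hj.trans hup)
  rw [mul_assoc κ, mul_assoc κ, mul_left_comm, ← ENNReal.ofReal_mul (Real.exp_pos _).le,
    ← ENNReal.ofReal_mul (Real.exp_pos _).le, ← ENNReal.ofReal_mul (Real.exp_pos _).le,
    ENNReal.mul_le_mul_iff_right hκ0 hκt, ← Real.exp_add, ← Real.exp_add, ← Real.exp_add,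
    ENNReal.ofReal_le_ofReal_iff (Real.exp_pos _).le, Real.exp_le_exp] at hfin
  set m := meanEig n V α τ (fun x => g (x ^ 2))
  have h7 : (n : ℝ) ^ 2 * (-(s * m) - 2 * (J0 + 2 * δ)) ≤ (n : ℝ) ^ 2 * (-2 * (Jinf - δ)) := by
    linarith
  have h8 := le_of_mul_le_mul_left h7 (by positivity)
  rw [hJinf] at h8
  linarith

end

end Pool.Agent.MP_941b23_mp
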