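import Pool.Agent.MP_941b23_mp.Defs2
import Pool.Agent.MP_941b23_mp.F2b
import Pool.Agent.MP_941b23_mp.F2c
import Pool.Agent.MP_941b23_mp.M1

namespace Pool.Agent.MP_941b23_mp

open MeasureTheory Set Filter Topology
open scoped ENNReal NNReal Real

noncomputable section

theorem f2_tendsto_avg {V : Polynomial ℝ} {α τ : ℝ} (hτ : 0 < τ)
    (hV : ∀ x, V.eval (-x) = V.eval x)
    (hdeg : 0 < V.natDegree) (hlead : 0 < V.leadingCoeff)
    (hI : ∀ n : ℕ, 0 < n → f2_I n V α τ)
    {a b c : Measure ℝ} (h : AdmJ α τ (fun x => V.eval x) a b c)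
    (hmin : ∀ a' b' c' : Measure ℝ, AdmJ α τ (fun x => V.eval x) a' b' c' →
      JJ α τ (fun x => V.eval x) a b c ≤ JJ α τ (fun x => V.eval x) a' b' c')
    (t : ℝ) (ht : 0 < t) (ψ : ℝ → ℝ) (hψ : Continuous ψ) (hc : HasCompactSupport ψ) :
    Tendsto (fun n : ℕ => meanEig n V α τ (fun x => avg t ψ (x ^ 2))) atTop
      (𝓝 (2 * ∫ x, avg t ψ x ∂a)) := by
  obtain ⟨D, hD, hb⟩ := f2_bound_side hτ hV hdeg hlead hI h hmin t ht ψ hψ hc
  rw [Metric.tendsto_atTop']
  intro ε hε
  set s : ℝ := ε / (2 * (D + 6)) with hs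
  have hs0 : 0 < s := by positivity
  have h1 := hb s (s ^ 2) (by positivity)
  have h2 := hb (-s) (s ^ 2) (by positivity)
  obtain ⟨N, hN⟩ := (h1.and h2).exists_forall_of_atTop
  refine ⟨N, fun n hn => ?_⟩
  obtain ⟨e1, e2⟩ := hN n hn.le
  rw [Real.dist_eq, abs_lt]
  set m := meanEig n V α τ (fun x => avg t ψ (x ^ 2))
  set I := ∫ x, avg t ψ x ∂a
  have h3 : (D + 6) * s = ε / 2 := by rw [hs]; field_simp
  constructor
  · by_contra hcon
    push Not at hcon
    have : s * (m - 2 * I) ≤ s * (-ε) := mul_le_mul_of_nonneg_left hcon hs0.le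
    nlinarith
  · by_contra hcon
    push Not at hcon
    have : s * ε ≤ s * (m - 2 * I) := mul_le_mul_of_nonneg_left hcon hs0.le
    nlinarith

/-! ## the mean eigenvalue distribution as a measure -/

section meas

variable (n : ℕ) (V : Polynomial ℝ) (α τ : ℝ)

/-- the mean eigenvalue distribution -/
def f2_M : Measure ℝ :=
  ((n : ℝ≥0∞)⁻¹) • ∑ i : Fin n, (f2_P n V α τ).map (fun p => evd p.1 i)

variable {n V α τ}

theorem f2_evd_meas (i : Fin n) : Measurable
    (fun p : (Fin n → Fin n → ℝ) × (Fin n → Fin n → ℝ) => evd p.1 i) :=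
  ((continuous_apply i).comp (continuous_evd.comp continuous_fst)).measurable

theorem f2_M_prob (hn : 0 < n) (h : f2_I n V α τ) : IsProbabilityMeasure (f2_M n V α τ) := by
  have hp := f2_isProb h
  constructor
  rw [f2_M, Measure.smul_apply, Measure.finsetSum_apply]
  simp_rw [Measure.map_apply (f2_evd_meas _) MeasurableSet.univ, preimage_univ, measure_univ]
  simp only [Finset.sum_const, Finset.card_univ, Fintype.card_fin, nsmul_eq_mul, mul_one,
    smul_eq_mul]
  exact ENNReal.inv_mul_cancel (by exact_mod_cast hn.ne') (ENNReal.natCast_ne_top n)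

theorem f2_M_eq (h : f2_I n V α τ) (φ : ℝ → ℝ) (hφ : Continuous φ) (C : ℝ)
    (hC : ∀ x, |φ x| ≤ C) : meanEig n V α τ φ = ∫ x, φ x ∂(f2_M n V α τ) := by
  have hp := f2_isProb h
  rw [(f2_meanEig h φ hφ C hC).2, integral_const_mul, f2_M, integral_smul_measure,
    integral_finsetSum_measure]
  · simp_rw [f2_evs_sum]
    rw [integral_finsetSum]
    · have h1 : ((n : ℝ≥0∞)⁻¹).toReal = 1 / (n : ℝ) := by
        rw [ENNReal.toReal_inv, ENNReal.toReal_natCast, one_div]
      rw [h1, smul_eq_mul]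
      congr 1
      refine Finset.sum_congr rfl fun i _ => ?_
      rw [integral_map (f2_evd_meas i).aemeasurable hφ.aestronglyMeasurable]
    · intro i _
      exact Integrable.of_bound (hφ.measurable.comp (f2_evd_meas i)).aestronglyMeasurable C
        (ae_of_all _ fun p => by rw [Real.norm_eq_abs]; exact hC _)
  · intro i _
    exact Integrable.of_bound hφ.aestronglyMeasurable C
        (ae_of_all _ fun p => by rw [Real.norm_eq_abs]; exact hC _)

end meas

/-! ## symmetry -/

theorem f2_hmat_neg {n : ℕ} (X : Fin n → Fin n → ℝ) : hmat (-X) = -hmat X := by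
  ext i j
  simp only [hmat, Matrix.neg_apply, Pi.neg_apply]
  split_ifs
  · push_cast; ring
  · push_cast; ring
  · push_cast; ring

theorem f2_charpoly_neg {n : ℕ} (M : Matrix (Fin n) (Fin n) ℂ) :
    (-M).charpoly = (-1) ^ n * (M.charpoly).comp (-Polynomial.X) := by
  have h1 : (M.charpoly).comp (-Polynomial.X) =
      (Polynomial.compRingHom (-Polynomial.X)) (M.charpoly) := rfl
  rw [h1, Matrix.charpoly, Matrix.charpoly, RingHom.map_det]
  have h2 : (RingHom.mapMatrix (Polynomial.compRingHom (-Polynomial.X : Polynomial ℂ)))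
      M.charmatrix = -(-M).charmatrix := by
    ext i j
    simp only [RingHom.mapMatrix_apply, Matrix.map_apply, Matrix.neg_apply,
      Polynomial.coe_compRingHom]
    by_cases hij : i = j
    · subst hij
      simp [Matrix.charmatrix_apply_eq]
      ring_nf
    · simp [Matrix.charmatrix_apply_ne _ _ _ hij]
  rw [h2, Matrix.det_neg, Fintype.card_fin, ← mul_assoc, ← mul_pow]
  simp

theorem f2_evd_neg {n : ℕ} (X : Fin n → Fin n → ℝ) :
    evd (-X) = fun i => -evd X (Fin.rev i) := by
  apply evd_unique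
  · intro i j hij
    simp only [neg_le_neg_iff]
    exact evd_antitone X (Fin.rev_le_rev.2 hij)
  · rw [f2_hmat_neg, f2_charpoly_neg, charpoly_hmat, Polynomial.prod_comp]
    simp only [Polynomial.sub_comp, Polynomial.X_comp, Polynomial.C_comp]
    have h1 : ((-1 : Polynomial ℂ)) ^ n = ∏ _i : Fin n, (-1 : Polynomial ℂ) := by simp
    rw [h1, ← Finset.prod_mul_distrib, ← Equiv.prod_comp Fin.revPerm]
    refine Finset.prod_congr rfl fun i _ => ?_
    simp
    ring

theorem f2_evs_neg {n : ℕ} (X : Fin n → Fin n → ℝ) (f : ℝ → ℝ) :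
    ∑ i, f (evs (-X) i) = ∑ i, f (-evs X i) := by
  rw [f2_evs_sum, f2_evs_sum X (fun x => f (-x)), f2_evd_neg, ← Equiv.sum_comp Fin.revPerm]
  simp

theorem f2_wgt_neg {n : ℕ} (V : Polynomial ℝ) (hV : ∀ x, V.eval (-x) = V.eval x) (α τ : ℝ)
    (X Y : Fin n → Fin n → ℝ) : wgt n V α τ (-X) (-Y) = wgt n V α τ X Y := by
  have h1 : Polynomial.aeval (-hmat X) V = Polynomial.aeval (hmat X) V := by
    have h2 : V.comp (-Polynomial.X) = V := by
      apply Polynomial.funext
      intro x
      simp [Polynomial.eval_comp, hV]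
    conv_rhs => rw [← h2, Polynomial.aeval_comp]
    simp
  have h3 : (-hmat Y) ^ 4 = (hmat Y) ^ 4 := Even.neg_pow (by decide) _
  have h4 : (-hmat Y) ^ 2 = (hmat Y) ^ 2 := Even.neg_pow (by decide) _
  have h5 : potM V α τ (-X) (-Y) = potM V α τ X Y := by
    simp only [potM, f2_hmat_neg, h1, h3, h4, neg_mul_neg]
  simp only [wgt, h5]

theorem f2_meanEig_neg {n : ℕ} (V : Polynomial ℝ) (hV : ∀ x, V.eval (-x) = V.eval x) (α τ : ℝ)
    (φ : ℝ → ℝ) : meanEig n V α τ (fun x => φ (-x)) = meanEig n V α τ φ := by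
  rw [meanEig, meanEig]
  congr 1
  rw [← integral_neg_eq_self]
  refine integral_congr_ae (ae_of_all _ fun X => ?_)
  simp only
  rw [← integral_neg_eq_self]
  refine integral_congr_ae (ae_of_all _ fun Y => ?_)
  simp only
  rw [f2_wgt_neg V hV, f2_evs_neg X (fun x => φ (-x))]
  simp

end

end Pool.Agent.MP_941b23_mp
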