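import Pool.Agent.MP_941b23_mp.Defs2
import Pool.Agent.MP_941b23_mp.F1
import Pool.Agent.MP_941b23_mp.F2a
import Pool.Agent.MP_941b23_mp.F2b
import Pool.Agent.MP_941b23_mp.F2c
import Pool.Agent.MP_941b23_mp.F2d
import Pool.Agent.MP_941b23_mp.P2
import Pool.Agent.MP_941b23_mp.P4

namespace Pool.Agent.MP_941b23_mp

open MeasureTheory Set Filter Topology
open scoped ENNReal NNReal Real

noncomputable section

/-- cutoff -/
def f2_chi (R x : ℝ) : ℝ := max 0 (min 1 (R + 1 - |x|))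

theorem f2_chi_cont (R : ℝ) : Continuous (f2_chi R) := by
  unfold f2_chi; fun_prop

theorem f2_chi_nonneg (R x : ℝ) : 0 ≤ f2_chi R x := le_max_left _ _

theorem f2_chi_le (R x : ℝ) : f2_chi R x ≤ 1 := max_le zero_le_one (min_le_left _ _)

theorem f2_chi_cs (R : ℝ) : HasCompactSupport (f2_chi R) := by
  refine HasCompactSupport.intro (K := Icc (-(R + 1)) (R + 1)) isCompact_Icc fun x hx => ?_
  have h1 : R + 1 - |x| ≤ 0 := by
    by_contra hc
    push Not at hc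
    exact hx (abs_le.1 (by linarith))
  rw [f2_chi, max_eq_left]
  exact (min_le_right _ _).trans h1

theorem f2_chi_even (R x : ℝ) : f2_chi R (-x) = f2_chi R x := by simp [f2_chi]

theorem f2_chi_tendsto (μ : Measure ℝ) [IsProbabilityMeasure μ] :
    Tendsto (fun j : ℕ => ∫ x, f2_chi j x ∂μ) atTop (𝓝 1) := by
  have h1 : (1 : ℝ) = ∫ _x, (1 : ℝ) ∂μ := by simp
  rw [h1]
  refine tendsto_integral_of_dominated_convergence (fun _ => (1 : ℝ))
    (fun j => (f2_chi_cont j).aestronglyMeasurable) (integrable_const _)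
    (fun j => ae_of_all _ fun x => ?_) (ae_of_all _ fun x => ?_)
  · rw [Real.norm_eq_abs, abs_of_nonneg (f2_chi_nonneg _ _)]
    exact f2_chi_le _ _
  · obtain ⟨N, hN⟩ := exists_nat_ge |x|
    refine tendsto_const_nhds.congr' ?_
    filter_upwards [eventually_ge_atTop N] with j hj
    have : (N : ℝ) ≤ j := by exact_mod_cast hj
    rw [f2_chi, min_eq_left (by linarith), max_eq_right zero_le_one]

theorem f2_weak (M : ℕ → Measure ℝ) (hM : ∀ n, IsProbabilityMeasure (M n)) (μ : Measure ℝ)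
    [IsProbabilityMeasure μ]
    (h : ∀ φ : ℝ → ℝ, Continuous φ → HasCompactSupport φ → (∀ x, φ (-x) = φ x) →
      Tendsto (fun n => ∫ x, φ x ∂(M n)) atTop (𝓝 (∫ x, φ x ∂μ)))
    (φ : ℝ → ℝ) (hφ : Continuous φ) (he : ∀ x, φ (-x) = φ x) (C : ℝ) (hC : ∀ x, |φ x| ≤ C) :
    Tendsto (fun n => ∫ x, φ x ∂(M n)) atTop (𝓝 (∫ x, φ x ∂μ)) := by
  have hC0 : 0 ≤ C := (abs_nonneg _).trans (hC 0)
  have key : ∀ (ν : Measure ℝ) [IsProbabilityMeasure ν] (j : ℕ),
      |∫ x, φ x ∂ν - ∫ x, φ x * f2_chi j x ∂ν| ≤ C * (1 - ∫ x, f2_chi j x ∂ν) := by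
    intro ν hν j
    have i1 : Integrable φ ν := f2_ga hφ hC
    have i2 : Integrable (f2_chi j) ν := f2_ga (f2_chi_cont j) (C := 1) fun x => by
      rw [abs_of_nonneg (f2_chi_nonneg _ _)]; exact f2_chi_le _ _
    have i3 : Integrable (fun x => φ x * f2_chi j x) ν :=
      f2_ga (hφ.mul (f2_chi_cont j)) (C := C) fun x => by
        rw [abs_mul, abs_of_nonneg (f2_chi_nonneg _ _)]
        calc |φ x| * f2_chi j x ≤ C * 1 :=
              mul_le_mul (hC x) (f2_chi_le _ _) (f2_chi_nonneg _ _) hC0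
          _ = C := mul_one C
    rw [← integral_sub i1 i3]
    have h2 : C * (1 - ∫ x, f2_chi j x ∂ν) = ∫ x, C * (1 - f2_chi j x) ∂ν := by
      rw [integral_const_mul, integral_sub (integrable_const _) i2]; simp
    rw [h2]
    refine abs_integral_le_integral_abs.trans (integral_mono (i1.sub i3).abs
      (((integrable_const _).sub i2).const_mul C) fun x => ?_)
    beta_reduce
    rw [show φ x - φ x * f2_chi j x = φ x * (1 - f2_chi j x) by ring, abs_mul,
      abs_of_nonneg (sub_nonneg.2 (f2_chi_le _ _))]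
    exact mul_le_mul_of_nonneg_right (hC x) (sub_nonneg.2 (f2_chi_le _ _))
  rw [Metric.tendsto_atTop']
  intro ε hε
  obtain ⟨j, hj⟩ := ((f2_chi_tendsto μ).eventually (lt_mem_nhds (a := 1 - ε / (8 * (C + 1)))
    (by have : 0 < ε / (8 * (C + 1)) := by positivity
        linarith))).exists
  have h1 := h (f2_chi j) (f2_chi_cont j) (f2_chi_cs j) (f2_chi_even j)
  have h2 := h (fun x => φ x * f2_chi j x) (hφ.mul (f2_chi_cont j)) ((f2_chi_cs j).mul_left)
    (fun x => by rw [he, f2_chi_even])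
  have e1 := h1.eventually (lt_mem_nhds hj)
  have e2 := h2.eventually (Metric.ball_mem_nhds _ (by positivity : 0 < ε / 4))
  obtain ⟨N, hN⟩ := (e1.and e2).exists_forall_of_atTop
  refine ⟨N, fun n hn => ?_⟩
  obtain ⟨e1, e2⟩ := hN n hn.le
  have k1 := key (M n) j
  have k2 := key μ j
  have k3 : C * (ε / (8 * (C + 1))) ≤ ε / 8 := by
    rw [show ε / 8 = (C + 1) * (ε / (8 * (C + 1))) by field_simp]
    exact mul_le_mul_of_nonneg_right (by linarith) (by positivity)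
  have k4 : C * (1 - ∫ x, f2_chi j x ∂(M n)) ≤ C * (ε / (8 * (C + 1))) :=
    mul_le_mul_of_nonneg_left (by linarith) hC0
  have k5 : C * (1 - ∫ x, f2_chi j x ∂μ) ≤ C * (ε / (8 * (C + 1))) :=
    mul_le_mul_of_nonneg_left (by linarith) hC0
  rw [Real.dist_eq] at e2
  rw [Real.dist_eq]
  rw [abs_lt] at *
  rw [abs_le] at k1 k2
  constructor <;> linarith [k1.1, k1.2, k2.1, k2.2, e2.1, e2.2]

section final

variable {V : Polynomial ℝ} {α τ : ℝ} (hτ : 0 < τ) (hV : ∀ x, V.eval (-x) = V.eval x)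
  (hdeg : 0 < V.natDegree) (hlead : 0 < V.leadingCoeff)
  (hI : ∀ n : ℕ, 0 < n → f2_I n V α τ)
include hτ hV hdeg hlead hI

/-- convergence for even compactly supported test functions -/
theorem f2_cc {μ₁ μ₂ μ₃ : Measure ℝ} (hmin : IsMinimiser α τ (fun x => V.eval x) μ₁ μ₂ μ₃)
    (φ : ℝ → ℝ) (hφ : Continuous φ) (hc : HasCompactSupport φ) (he : ∀ x, φ (-x) = φ x) :
    Tendsto (fun n : ℕ => ∫ x, φ x ∂(f2_M (n + 1) V α τ)) atTop (𝓝 (∫ x, φ x ∂μ₁)) := by
  obtain ⟨a, b, c, hadm, hJmin, haeq, -⟩ := min_to_J hτ (f2_pot V hV hdeg hlead) hmin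
  have hprob : ∀ n : ℕ, IsProbabilityMeasure (f2_M (n + 1) V α τ) := fun n =>
    f2_M_prob n.succ_pos (hI _ n.succ_pos)
  have hμ : IsProbabilityMeasure μ₁ := ⟨hmin.adm.mass₁⟩
  set ψ : ℝ → ℝ := fun ξ => φ (√|ξ|) with hψdef
  have hψ : Continuous ψ := hφ.comp (Real.continuous_sqrt.comp continuous_abs)
  have hψφ : ∀ x, ψ (x ^ 2) = φ x := by
    intro x
    simp only [hψdef]
    rw [abs_of_nonneg (sq_nonneg x), Real.sqrt_sq_eq_abs]
    rcases abs_choice x with h | h <;> rw [h]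
    exact he x
  have hψc : HasCompactSupport ψ := by
    obtain ⟨R, hR⟩ := hc.isCompact.isBounded.subset_closedBall 0
    refine HasCompactSupport.intro (K := Icc (-(R ^ 2)) (R ^ 2)) isCompact_Icc fun x hx => ?_
    by_contra hcon
    have h1 : √|x| ∈ tsupport φ := subset_tsupport φ hcon
    have h2 := hR h1
    rw [Metric.mem_closedBall, Real.dist_eq, sub_zero, abs_of_nonneg (Real.sqrt_nonneg _)] at h2
    have h3 : |x| ≤ R ^ 2 := by
      have := Real.sq_sqrt (abs_nonneg x)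
      nlinarith [Real.sqrt_nonneg |x|]
    exact hx (abs_le.1 h3)
  have hψb : ∃ B, ∀ x, |ψ x| ≤ B := by
    obtain ⟨B, hB⟩ := hψ.bounded_above_of_compact_support hψc
    exact ⟨B, fun x => by rw [← Real.norm_eq_abs]; exact hB x⟩
  obtain ⟨B, hB⟩ := hψb
  rw [Metric.tendsto_atTop']
  intro ε hε
  obtain ⟨t, ht, hclose⟩ := avg_close ψ hψ hψc (ε / 4) (by positivity)
  obtain ⟨hg, C, hC⟩ := avg_continuous t ht ψ hψ hψc
  have h1 := (tendsto_add_atTop_iff_nat 1).2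
    (f2_tendsto_avg hτ hV hdeg hlead hI hadm hJmin t ht ψ hψ hψc)
  have h2 : 2 * ∫ x, avg t ψ x ∂a = ∫ x, avg t ψ (x ^ 2) ∂μ₁ := by
    rw [haeq, integral_smul_measure, integral_map (by fun_prop) hg.aestronglyMeasurable]
    simp
  rw [h2] at h1
  have e2 := h1.eventually (Metric.ball_mem_nhds _ (by positivity : 0 < ε / 4))
  have key : ∀ (ν : Measure ℝ) [IsProbabilityMeasure ν],
      |∫ x, avg t ψ (x ^ 2) ∂ν - ∫ x, φ x ∂ν| ≤ ε / 4 := by
    intro ν hν
    have i1 : Integrable (fun x => avg t ψ (x ^ 2)) ν :=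
      f2_ga (hg.comp (continuous_pow 2)) (C := C) fun x => hC _
    have i2 : Integrable φ ν := f2_ga hφ (C := B) fun x => by rw [← hψφ]; exact hB _
    rw [← integral_sub i1 i2]
    refine abs_integral_le_integral_abs.trans ?_
    have h3 : ε / 4 = ∫ _x, ε / 4 ∂ν := by simp
    rw [h3]
    refine integral_mono (i1.sub i2).abs (integrable_const _) fun x => ?_
    simp only
    rw [← hψφ]
    exact hclose _
  obtain ⟨N, hN⟩ := e2.exists_forall_of_atTop
  refine ⟨N, fun n hn => ?_⟩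
  have e2 := hN n hn.le
  have h4 := f2_M_eq (hI (n + 1) n.succ_pos) (fun x => avg t ψ (x ^ 2))
    (hg.comp (continuous_pow 2)) C (fun x => hC _)
  rw [h4] at e2
  have := hprob n
  have k1 := key (f2_M (n + 1) V α τ)
  have k2 := key μ₁
  rw [Real.dist_eq] at e2
  rw [Real.dist_eq]
  rw [abs_lt] at *
  rw [abs_le] at k1 k2
  constructor <;> linarith [k1.1, k1.2, k2.1, k2.2, e2.1, e2.2]

theorem f2_main {μ₁ μ₂ μ₃ : Measure ℝ} (hmin : IsMinimiser α τ (fun x => V.eval x) μ₁ μ₂ μ₃)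
    (φ : ℝ → ℝ) (hφ : Continuous φ) (hb : ∃ C, ∀ x, |φ x| ≤ C) :
    Tendsto (fun n : ℕ => meanEig n V α τ φ) atTop (𝓝 (∫ x, φ x ∂μ₁)) := by
  obtain ⟨C, hC⟩ := hb
  obtain ⟨a, b, c, hadm, hJmin, haeq, hsym⟩ := min_to_J hτ (f2_pot V hV hdeg hlead) hmin
  have hμ : IsProbabilityMeasure μ₁ := ⟨hmin.adm.mass₁⟩
  have hprob : ∀ n : ℕ, IsProbabilityMeasure (f2_M (n + 1) V α τ) := fun n =>
    f2_M_prob n.succ_pos (hI _ n.succ_pos)
  rw [← tendsto_add_atTop_iff_nat 1]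
  set φe : ℝ → ℝ := fun x => (φ x + φ (-x)) / 2 with hφe
  have hφn : Continuous fun x => φ (-x) := hφ.comp continuous_neg
  have hφec : Continuous φe := (hφ.add hφn).div_const 2
  have hφeb : ∀ x, |φe x| ≤ C := fun x => by
    have h1 := hC x
    have h2 := hC (-x)
    simp only [hφe]
    rw [abs_le] at *
    constructor <;> linarith [h1.1, h1.2, h2.1, h2.2]
  have h1 := f2_weak (fun n => f2_M (n + 1) V α τ) hprob μ₁
    (fun ψ h1 h2 h3 => f2_cc hτ hV hdeg hlead hI hmin ψ h1 h2 h3) φe hφec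
    (fun x => by simp only [hφe, neg_neg]; ring) C hφeb
  have h2 : ∀ ν : Measure ℝ, IsProbabilityMeasure ν → ∫ x, φ (-x) ∂ν = ∫ x, φ x ∂ν →
      ∫ x, φe x ∂ν = ∫ x, φ x ∂ν := by
    intro ν hν h
    simp only [hφe]
    rw [integral_div, integral_add (f2_ga hφ hC) (f2_ga hφn fun x => hC _), h]
    ring
  have h3 : ∫ x, φ (-x) ∂μ₁ = ∫ x, φ x ∂μ₁ := by
    conv_rhs => rw [← hsym]
    rw [integral_map (by fun_prop) hφ.aestronglyMeasurable]
  rw [h2 μ₁ hμ h3] at h1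
  refine h1.congr fun n => ?_
  rw [f2_M_eq (hI (n + 1) n.succ_pos) φ hφ C hC]
  refine h2 _ (hprob n) ?_
  rw [← f2_M_eq (hI (n + 1) n.succ_pos) φ hφ C hC, ← f2_meanEig_neg V hV,
    f2_M_eq (hI (n + 1) n.succ_pos) _ hφn C fun x => hC _]

end final

theorem main_theorem (V : Polynomial ℝ) (hV : ∀ x, V.eval (-x) = V.eval x)
    (hdeg : 0 < V.natDegree) (hlead : 0 < V.leadingCoeff) (α τ : ℝ) (hτ : 0 < τ)
    (μ₁ μ₂ μ₃ : Measure ℝ) (hmin : IsMinimiser α τ (fun x => V.eval x) μ₁ μ₂ μ₃)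
    (φ : ℝ → ℝ) (hφ : Continuous φ) (hb : ∃ C, ∀ x, |φ x| ≤ C) :
    Tendsto (fun n : ℕ => meanEig n V α τ φ) atTop (𝓝 (∫ x, φ x ∂μ₁)) :=
  f2_main hτ hV hdeg hlead (fun n hn => wgt_integrable n hn V hV hdeg hlead α τ hτ) hmin φ hφ hb

end

end Pool.Agent.MP_941b23_mp
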