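import Mathlib

/-!
# MP_941b23_mp : eigenvalue limit in the quartic Hermitian two-matrix model. Definitions.
-/

namespace Pool.Agent.MP_941b23_mp

open MeasureTheory Set Filter Topology
open scoped ENNReal NNReal Real

noncomputable section

/-! ## 1. The model -/

/-- `W(y) = y^4/4 + (α/2) y^2` on the real line. -/
def Wr (α y : ℝ) : ℝ := y ^ 4 / 4 + α / 2 * y ^ 2

/-- The Hermitian matrix with real coordinates `X`: diagonal entries `X i i`, entries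
`X i j + X j i * I` for `i < j`. Lebesgue measure in `X` is the measure
`dM = ∏ dM_ii ∏_{i<j} dRe M_ij dIm M_ij`. -/
def hmat {n : ℕ} (X : Fin n → Fin n → ℝ) : Matrix (Fin n) (Fin n) ℂ :=
  fun i j => if i = j then (X i i : ℂ)
    else if i < j then (X i j : ℂ) + (X j i : ℂ) * Complex.I
    else (X j i : ℂ) - (X i j : ℂ) * Complex.I

theorem hmat_isHermitian {n : ℕ} (X : Fin n → Fin n → ℝ) : (hmat X).IsHermitian := by
  ext i j
  simp only [Matrix.conjTranspose_apply, hmat]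
  rcases lt_trichotomy i j with h | h | h
  · simp [h.ne, h.ne', h, not_lt.2 h.le]
  · subst h; simp
  · simp [h.ne, h.ne', h, not_lt.2 h.le, sub_eq_add_neg]

/-- Eigenvalues (with multiplicity) of `hmat X`. -/
def evs {n : ℕ} (X : Fin n → Fin n → ℝ) : Fin n → ℝ := (hmat_isHermitian X).eigenvalues

/-- The matrix `V(M₁) + W(M₂) - τ M₁ M₂`. -/
def potM {n : ℕ} (V : Polynomial ℝ) (α τ : ℝ) (X Y : Fin n → Fin n → ℝ) :
    Matrix (Fin n) (Fin n) ℂ :=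
  Polynomial.aeval (hmat X) V + ((1 / 4 : ℂ) • (hmat Y) ^ 4 + ((α / 2 : ℝ) : ℂ) • (hmat Y) ^ 2)
    - (τ : ℂ) • (hmat X * hmat Y)

/-- The density `exp(-n Tr (V(M₁) + W(M₂) - τ M₁ M₂))`. -/
def wgt (n : ℕ) (V : Polynomial ℝ) (α τ : ℝ) (X Y : Fin n → Fin n → ℝ) : ℝ :=
  Real.exp (-(n : ℝ) * (Matrix.trace (potM V α τ X Y)).re)

/-- The partition function. -/
def partZ (n : ℕ) (V : Polynomial ℝ) (α τ : ℝ) : ℝ :=
  ∫ X : Fin n → Fin n → ℝ, ∫ Y : Fin n → Fin n → ℝ, wgt n V α τ X Y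

/-- Integral of `φ` against the mean eigenvalue distribution of `M₁`. -/
def meanEig (n : ℕ) (V : Polynomial ℝ) (α τ : ℝ) (φ : ℝ → ℝ) : ℝ :=
  (∫ X : Fin n → Fin n → ℝ, ∫ Y : Fin n → Fin n → ℝ,
    ((1 / (n : ℝ)) * ∑ i, φ (evs X i)) * wgt n V α τ X Y) / partZ n V α τ

/-! ## 2. The vector equilibrium problem -/

/-- `g(x) = max_s (τ x s - W(s))`, so that `V₁ = V - g`. -/
def gg (α τ x : ℝ) : ℝ := ⨆ s : ℝ, (τ * x * s - Wr α s)

/-- `max {Re s : s^3 + α s = τ z}`. -/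
def rr (α τ : ℝ) (z : ℂ) : ℝ :=
  sSup {u : ℝ | ∃ s : ℂ, s ^ 3 + (α : ℂ) * s = (τ : ℂ) * z ∧ s.re = u}

/-- The constraint measure `σ₂` on `iℝ`, as a measure in the coordinate `y` of `z = i y`. -/
def sigma2 (α τ : ℝ) : Measure ℝ :=
  volume.withDensity fun y => ENNReal.ofReal (τ / π * rr α τ (y * Complex.I))

/-- `x^* = (2/τ)(-α/3)^{3/2}`. -/
def xstar (α τ : ℝ) : ℝ := 2 / τ * (-α / 3) ^ (3 / 2 : ℝ)

/-- `V₃`: value at the local maximum minus value at the second local minimum. -/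
def V3 (α τ x : ℝ) : ℝ :=
  if α < 0 ∧ |x| < xstar α τ then
    sSup ((fun s => Wr α s - τ * x * s) '' {s | IsLocalMax (fun s => Wr α s - τ * x * s) s}) -
    sSup ((fun s => Wr α s - τ * x * s) '' {s | IsLocalMin (fun s => Wr α s - τ * x * s) s})
  else 0

/-- Logarithmic energy on a line. -/
def logI (μ ν : Measure ℝ) : ℝ := ∫ x, ∫ y, Real.log (1 / |x - y|) ∂ν ∂μ

/-- Mutual logarithmic energy of a measure on `ℝ` and a measure on `iℝ`
(given in the coordinate `y` of `i y`). -/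
def logX (μ ν : Measure ℝ) : ℝ :=
  ∫ x, ∫ y, Real.log (1 / ‖(x : ℂ) - (y : ℂ) * Complex.I‖) ∂ν ∂μ

/-- Finite logarithmic energy and logarithmic moment. (`Real.log 0 = 0`, so atoms are excluded
explicitly: an atom has infinite logarithmic energy.) -/
structure FinEn (μ : Measure ℝ) : Prop where
  noAtom : ∀ x, μ {x} = 0
  energy : Integrable (fun z : ℝ × ℝ => Real.log |z.1 - z.2|) (μ.prod μ)
  logMoment : Integrable (fun x => Real.log (1 + |x|)) μ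

/-- Admissible triples. `μ₂` is a measure on `iℝ` in the coordinate `y` of `i y`. -/
structure Adm (α τ : ℝ) (V : ℝ → ℝ) (μ₁ μ₂ μ₃ : Measure ℝ) : Prop where
  mass₁ : μ₁ univ = 1
  mass₂ : μ₂ univ = 2 / 3
  mass₃ : μ₃ univ = 1 / 3
  constr : μ₂ ≤ sigma2 α τ
  en₁ : FinEn μ₁
  en₂ : FinEn μ₂
  en₃ : FinEn μ₃
  pot : Integrable V μ₁

/-- The energy functional `E`. -/
def EE (α τ : ℝ) (V : ℝ → ℝ) (μ₁ μ₂ μ₃ : Measure ℝ) : ℝ :=
  logI μ₁ μ₁ + logI μ₂ μ₂ + logI μ₃ μ₃ - logX μ₁ μ₂ - logX μ₃ μ₂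
    + ∫ x, (V x - gg α τ x) ∂μ₁ + ∫ x, V3 α τ x ∂μ₃

/-- Minimisers. -/
structure IsMinimiser (α τ : ℝ) (V : ℝ → ℝ) (μ₁ μ₂ μ₃ : Measure ℝ) : Prop where
  adm : Adm α τ V μ₁ μ₂ μ₃
  min : ∀ ν₁ ν₂ ν₃ : Measure ℝ, Adm α τ V ν₁ ν₂ ν₃ → EE α τ V μ₁ μ₂ μ₃ ≤ EE α τ V ν₁ ν₂ ν₃

end

end Pool.Agent.MP_941b23_mp
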